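import Pool.Agent.S3.Gr2
import Pool.Agent.H25.RK.DGr

/-!
# Growth: the analytic interpolation of `1 / S`
-/

set_option autoImplicit false

namespace Pool.Agent.S3

open Pool.Agent.H63.VC hiding ext
open Pool.Agent.H63.VC3 Pool.Agent.H63.VC7 Complex MeasureTheory Filter Topology Set
open Pool.Agent.H25.RK

/-! ### Functional equations -/

theorem LL_step_exp {M : ℕ} (hM : 0 < M) {s : ℂ} (h0 : 0 < s.re) (h1 : s.re < M) :
    exp (LL M s) = exp (LL M (s - 1)) * (2 * sin (Real.pi * s / M)) := by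
  have hMr : (0 : ℝ) < M := by exact_mod_cast hM
  have h := LL_step M hM s h0 h1
  have hs : sin ((Real.pi : ℂ) * (s / M)) ≠ 0 := by
    intro h2
    rw [Complex.sin_eq_zero_iff] at h2
    obtain ⟨n, hn⟩ := h2
    have hpi : (Real.pi : ℂ) ≠ 0 := by exact_mod_cast Real.pi_ne_zero
    have h3 : s / (M : ℂ) = n := by
      apply mul_left_cancel₀ hpi
      rw [hn]
      ring
    have h4 := congrArg Complex.re h3
    rw [Complex.div_natCast_re, intCast_re] at h4
    have h5 : 0 < s.re / M := div_pos h0 hMr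
    have h6 : s.re / M < 1 := (div_lt_one hMr).mpr h1
    rw [h4] at h5 h6
    have h7 : 0 < n := by exact_mod_cast h5
    have h8 : n < 1 := by exact_mod_cast h6
    omega
  have e : LL M s = LL M (s - 1) + hh (s / M) := by linear_combination h
  rw [e, exp_add]
  congr 1
  unfold hh
  rw [exp_log (mul_ne_zero two_ne_zero hs)]
  ring_nf

theorem LL_tele {M : ℕ} (hM : 0 < M) (n : ℕ) {s : ℂ} (h0 : -1 < s.re) (h1 : s.re + n < M) :
    exp (LL M (s + n)) = exp (LL M s) *
      ∏ j ∈ Finset.range n, (2 * sin (Real.pi * (s + j + 1) / M)) := by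
  induction n with
  | zero => simp
  | succ n ih =>
    push_cast at h1 ⊢
    have e1 : (s + (n + 1)).re = s.re + n + 1 := by
      simp [add_assoc]
    have hn : (0 : ℝ) ≤ n := Nat.cast_nonneg n
    rw [LL_step_exp hM (by rw [e1]; linarith only [h0]) (by rw [e1]; linarith only [h1])]
    have e2 : s + ((n : ℂ) + 1) - 1 = s + n := by ring
    rw [e2, ih (by linarith only [h1]), Finset.prod_range_succ]
    have e3 : (Real.pi : ℂ) * (s + (n + 1)) / M = Real.pi * (s + n + 1) / M := by ring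
    rw [e3]
    ring

/-- The product of the sines. -/
theorem prod_sin {M : ℕ} (hM : 0 < M) (w : ℂ) :
    ∏ j ∈ Finset.range M, (2 * sin (w + Real.pi * j / M)) = 2 * sin (M * w) := by
  have hMc : (M : ℂ) ≠ 0 := by exact_mod_cast hM.ne'
  have h := prod_one_sub hM (exp (2 * w * I))
  have hj : ∀ j ∈ Finset.range M, 2 * sin (w + Real.pi * j / M) =
      (I * exp (-(w * I)) * exp (-(Real.pi * j / M * I))) *
        (1 - exp (2 * Real.pi * I / M) ^ j * exp (2 * w * I)) := by
    intro j _
    have e1 : exp (2 * Real.pi * I / M) ^ j = exp (2 * (Real.pi * j / M) * I) := by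
      rw [← exp_nat_mul]
      congr 1
      ring
    rw [e1, ← exp_add, mul_sub, mul_one, mul_assoc I, ← exp_add, mul_assoc I, ← exp_add,
      Complex.sin]
    have e2 : -(w + Real.pi * j / M) * I = -(w * I) + -(Real.pi * j / M * I) := by ring
    have e3 : (w + Real.pi * j / M) * I = -(w * I) + -(Real.pi * j / M * I) +
      (2 * (Real.pi * j / M) * I + 2 * w * I) := by ring
    rw [e2, ← e3]
    ring
  rw [Finset.prod_congr rfl hj, Finset.prod_mul_distrib, h, Finset.prod_mul_distrib,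
    Finset.prod_const, Finset.card_range, ← exp_sum]
  have hsum : ∑ j ∈ Finset.range M, -(Real.pi * (j : ℂ) / M * I) =
      -(Real.pi * ((M : ℂ) - 1) / 2 * I) := by
    have h1 : ∑ j ∈ Finset.range M, (j : ℂ) = (M : ℂ) * (M - 1) / 2 := by
      have h2 := Finset.sum_range_id_mul_two M
      have h3 : ((∑ j ∈ Finset.range M, j : ℕ) : ℂ) * 2 = (M : ℂ) * ((M : ℂ) - 1) := by
        have : ((M - 1 : ℕ) : ℂ) = (M : ℂ) - 1 := by
          rw [Nat.cast_sub hM]
          push_cast
          ring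
        rw [← this]
        exact_mod_cast h2
      push_cast at h3
      linear_combination (1 / 2) * h3
    have h4 : ∀ j ∈ Finset.range M, -(Real.pi * (j : ℂ) / M * I) =
        (-(Real.pi / M * I)) * (j : ℂ) := by
      intro j _
      ring
    rw [Finset.sum_congr rfl h4, ← Finset.mul_sum, h1]
    field_simp
  rw [hsum, mul_pow, ← exp_nat_mul, ← exp_nat_mul]
  have hI : I ^ M = exp (Real.pi * M / 2 * I) := by
    calc I ^ M = exp (Real.pi / 2 * I) ^ M := by rw [exp_pi_div_two_mul_I]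
      _ = _ := by
        rw [← exp_nat_mul]
        congr 1
        ring
  rw [hI, ← exp_add, ← exp_add, Complex.sin]
  have e1 : (Real.pi : ℂ) * M / 2 * I + (M : ℂ) * -(w * I) + -(Real.pi * ((M : ℂ) - 1) / 2 * I) =
      Real.pi / 2 * I + -(M * w) * I := by ring
  rw [e1, exp_add, exp_pi_div_two_mul_I, mul_sub, mul_one, mul_assoc, ← exp_add]
  have e2 : -(M * w) * I + (M : ℂ) * (2 * w * I) = M * w * I := by ring
  rw [e2]
  ring

theorem LL_period {M : ℕ} (hM : 0 < M) {z : ℂ} (h0 : -1 < z.re) (h1 : z.re < 0) :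
    exp (LL M (z + M)) = exp (LL M z) * (-2 * sin (Real.pi * z)) := by
  have hMc : (M : ℂ) ≠ 0 := by exact_mod_cast hM.ne'
  rw [LL_tele hM M h0 (by linarith only [h1])]
  congr 1
  have h := prod_sin hM (Real.pi * (z + 1) / M)
  have e1 : (M : ℂ) * (Real.pi * (z + 1) / M) = Real.pi * z + Real.pi := by
    field_simp
  rw [e1, sin_add_pi] at h
  rw [show -2 * sin (Real.pi * z) = 2 * -sin (Real.pi * z) by ring, ← h]
  refine Finset.prod_congr rfl fun j _ => ?_
  congr 2
  ring

/-! ### The function `rS` -/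

theorem rS_eq_right {M : ℕ} (hM : 0 < M) {z : ℂ} (h0 : -1 < z.re) :
    rS M z = exp (-LL M z) := by
  unfold rS
  split_ifs with h
  · rfl
  · push Not at h
    have h1 : z.re < 0 := by linarith only [h]
    have h2 := LL_period hM h0 h1
    rw [exp_neg, exp_neg, h2]
    have h3 := exp_ne_zero (LL M (z + M))
    rw [h2] at h3
    obtain ⟨h4, h5⟩ := mul_ne_zero_iff.mp h3
    have h6 : sin (Real.pi * z) ≠ 0 := fun h7 => h5 (by rw [h7]; ring)
    field_simp

theorem rS_eq_left {M : ℕ} (hM : 0 < M) {z : ℂ} (h1 : z.re < 0) :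
    rS M z = -2 * sin (Real.pi * z) * exp (-LL M (z + M)) := by
  rcases lt_or_ge z.re (-1 / 2) with h | h
  · unfold rS
    rw [if_neg (not_le.mpr h)]
  · rw [rS_eq_right hM (by linarith only [h])]
    have h2 := LL_period hM (by linarith only [h]) h1
    rw [exp_neg, exp_neg, h2]
    have h3 := exp_ne_zero (LL M (z + M))
    rw [h2] at h3
    obtain ⟨h4, h5⟩ := mul_ne_zero_iff.mp h3
    have h6 : sin (Real.pi * z) ≠ 0 := fun h7 => h5 (by rw [h7]; ring)
    field_simp

theorem rS_differentiableAt {M : ℕ} (hM : 0 < M) {z : ℂ} (h0 : -(M : ℝ) - 1 < z.re)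
    (h1 : z.re < M) : DifferentiableAt ℂ (rS M) z := by
  rcases lt_or_ge z.re 0 with h | h
  · have ho : IsOpen {w : ℂ | w.re < 0} := isOpen_lt continuous_re continuous_const
    have he : rS M =ᶠ[𝓝 z] fun w => -2 * sin (Real.pi * w) * exp (-LL M (w + M)) := by
      filter_upwards [ho.mem_nhds h] with w hw
      exact rS_eq_left hM hw
    rw [he.differentiableAt_iff]
    have h2 : DifferentiableAt ℂ (fun w => LL M (w + M)) z := by
      have e : (z + (M : ℂ)).re = z.re + M := by simp
      have h3 := LL_differentiableAt M hM (z + M) (by rw [e]; linarith only [h0]) (by rw [e]; linarith only [h])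
      exact DifferentiableAt.comp (g := LL M) (f := fun w => w + (M : ℂ)) z h3 (by fun_prop)
    fun_prop
  · have ho : IsOpen {w : ℂ | -1 < w.re} := isOpen_lt continuous_const continuous_re
    have he : rS M =ᶠ[𝓝 z] fun w => exp (-LL M w) := by
      filter_upwards [ho.mem_nhds (show -1 < z.re by linarith only [h])] with w hw
      exact rS_eq_right hM hw
    rw [he.differentiableAt_iff]
    have h2 := LL_differentiableAt M hM z (by linarith only [h]) h1
    fun_prop

theorem rS_step_right {M : ℕ} (hM : 0 < M) {z : ℂ} (h0 : 0 < z.re) (h1 : z.re < M) :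
    rS M (z - 1) = rS M z * (2 * sin (Real.pi * z / M)) := by
  have e : (z - 1).re = z.re - 1 := by simp
  rw [rS_eq_right hM (show -1 < (z - 1).re by rw [e]; linarith only [h0]),
    rS_eq_right hM (show -1 < z.re by linarith only [h0]), exp_neg, exp_neg, LL_step_exp hM h0 h1]
  have h3 := exp_ne_zero (LL M z)
  rw [LL_step_exp hM h0 h1] at h3
  obtain ⟨h4, h5⟩ := mul_ne_zero_iff.mp h3
  rw [mul_inv, mul_assoc, inv_mul_cancel₀ h5, mul_one]

theorem rS_step_left {M : ℕ} (hM : 0 < M) {z : ℂ} (h0 : -(M : ℝ) < z.re) (h1 : z.re < 0) :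
    rS M (z - 1) = rS M z * (2 * sin (Real.pi * z / M)) := by
  have hMc : (M : ℂ) ≠ 0 := by exact_mod_cast hM.ne'
  have e : (z - 1).re = z.re - 1 := by simp
  have e2 : (z + (M : ℂ)).re = z.re + M := by simp
  have h2 := LL_step_exp hM (s := z + M) (by rw [e2]; linarith only [h0]) (by rw [e2]; linarith only [h1])
  rw [rS_eq_left hM (show (z - 1).re < 0 by rw [e]; linarith only [h1]), rS_eq_left hM h1, exp_neg, exp_neg,
    h2]
  have e3 : (z - 1 + M : ℂ) = z + M - 1 := by ring
  have e4 : (Real.pi : ℂ) * (z + M) / M = Real.pi * z / M + Real.pi := by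
    field_simp
  have e5 : (Real.pi : ℂ) * (z - 1) = Real.pi * z - Real.pi := by ring
  have h3 := exp_ne_zero (LL M (z + M))
  rw [h2] at h3
  obtain ⟨h4, h5⟩ := mul_ne_zero_iff.mp h3
  rw [e3, e5, sin_sub_pi]
  rw [e4, sin_add_pi] at h5 ⊢
  have h6 : sin (Real.pi * z / M) ≠ 0 := by
    intro h7
    rw [h7, neg_zero, mul_zero] at h5
    exact h5 rfl
  field_simp

/-- The recursion of `rS`. -/
theorem rS_step {M : ℕ} (hM : 0 < M) {z : ℂ} (h0 : -(M : ℝ) < z.re) (h1 : z.re < M) :
    rS M (z - 1) = rS M z * (2 * sin (Real.pi * z / M)) := by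
  rcases lt_trichotomy z.re 0 with h | h | h
  · exact rS_step_left hM h0 h
  · -- by continuity
    have hMr : (0 : ℝ) < M := by exact_mod_cast hM
    have c1 : ContinuousAt (fun w => rS M (w - 1)) z := by
      refine ContinuousAt.comp (g := rS M) (f := fun w => w - 1) ?_ (by fun_prop)
      apply (rS_differentiableAt hM _ _).continuousAt
      · rw [sub_re, one_re]
        linarith only [h0]
      · rw [sub_re, one_re]
        linarith only [h1]
    have c2 : ContinuousAt (fun w => rS M w * (2 * sin (Real.pi * w / M))) z := by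
      have := (rS_differentiableAt hM (show -(M : ℝ) - 1 < z.re by linarith only [h0]) h1).continuousAt
      fun_prop
    have hp : Tendsto (fun ε : ℝ => z + (ε : ℂ)) (𝓝[>] 0) (𝓝 z) := by
      have : Continuous fun ε : ℝ => z + (ε : ℂ) := by fun_prop
      have h3 := this.tendsto 0
      rw [ofReal_zero, add_zero] at h3
      exact h3.mono_left nhdsWithin_le_nhds
    have l1 := c1.tendsto.comp hp
    have l2 := c2.tendsto.comp hp
    refine tendsto_nhds_unique l1 (l2.congr' ?_)
    have hev : ∀ᶠ ε : ℝ in 𝓝[>] 0, ε < M :=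
      (tendsto_id.mono_left nhdsWithin_le_nhds).eventually (Iio_mem_nhds hMr)
    filter_upwards [self_mem_nhdsWithin, hev] with ε hε hε'
    rw [Set.mem_Ioi] at hε
    simp only [Function.comp]
    have e : (z + (ε : ℂ)).re = ε := by simp [h]
    exact (rS_step_right hM (by rw [e]; exact hε) (by rw [e]; exact hε')).symm
  · exact rS_step_right hM h h1

/-! ### Bounds -/

theorem exp_two_le : Real.exp 2 ≤ 8 := by
  have h := Real.exp_one_lt_d9
  have : Real.exp 2 = Real.exp 1 * Real.exp 1 := by rw [← Real.exp_add]; norm_num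
  rw [this]
  linarith only [h, mul_pos (sub_pos.2 h) (sub_pos.2 (Real.exp_pos 1))]

theorem sqrt_exp_log {M : ℕ} (hM : 1 ≤ M) : Real.exp (Real.log M / 2) = √M := by
  have hM0 : (0 : ℝ) < M := by exact_mod_cast hM
  rw [Real.sqrt_eq_rpow, Real.rpow_def_of_pos hM0]
  congr 1
  ring

/-- The bound of `rS`. -/
theorem rS_bound {M : ℕ} (hM : 1 ≤ M) {z : ℂ} (h0 : -(M : ℝ) - 1 / 2 ≤ z.re)
    (h1 : z.re ≤ M - 1 / 2) :
    ‖rS M z‖ ≤ 16 / √M * Real.exp (-(M * Rf ((z + 1 / 2) / M))) := by
  have hM0 : (0 : ℝ) < M := by exact_mod_cast hM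
  have hMc : (M : ℂ) ≠ 0 := by exact_mod_cast hM0.ne'
  have hsq : 0 < √(M : ℝ) := Real.sqrt_pos.mpr hM0
  have key : ∀ w : ℂ, -1 / 2 ≤ w.re → w.re ≤ M - 1 / 2 →
      ‖exp (-LL M w)‖ ≤ 8 / √M * Real.exp (-(M * Rf ((w + 1 / 2) / M))) := by
    intro w hw0 hw1
    have h := LL_Rf hM hw0 hw1
    rw [abs_le] at h
    rw [norm_exp, neg_re]
    calc Real.exp (-(LL M w).re) ≤
          Real.exp (2 - Real.log M / 2 - M * Rf ((w + 1 / 2) / M)) :=
          Real.exp_le_exp.2 (by linarith only [h.1])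
      _ = Real.exp 2 / √M * Real.exp (-(M * Rf ((w + 1 / 2) / M))) := by
          rw [← sqrt_exp_log hM, ← Real.exp_sub, ← Real.exp_add]
          congr 1
      _ ≤ _ := by
          have := exp_two_le
          gcongr
  rcases le_or_gt (-1 / 2) z.re with h | h
  · unfold rS
    rw [if_pos h]
    refine (key z h h1).trans ?_
    gcongr
    norm_num
  · unfold rS
    rw [if_neg (not_le.mpr h), norm_mul]
    have e1 : (z + (M : ℂ)).re = z.re + M := by simp
    have hk := key (z + M) (by rw [e1]; linarith only [h0]) (by rw [e1]; linarith only [h])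
    have e2 : (z + M + 1 / 2) / (M : ℂ) = (z + 1 / 2) / M + 1 := by
      field_simp
      ring
    have e3 : ((z + 1 / 2) / (M : ℂ)).im = z.im / M := by
      rw [Complex.div_natCast_im, add_im]
      norm_num
    rw [e2, Rf_add_one, e3] at hk
    have hs : ‖-2 * sin (Real.pi * z)‖ ≤ 2 * Real.exp (Real.pi * |z.im|) := by
      have h2 := norm_sin_le z.re z.im
      rw [re_add_im] at h2
      have h3 := cosh_le_exp_abs (Real.pi * z.im)
      rw [abs_mul, abs_of_pos Real.pi_pos] at h3
      rw [norm_mul, norm_neg, norm_ofNat]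
      linarith only [h3, h2]
    calc ‖-2 * sin (Real.pi * z)‖ * ‖exp (-LL M (z + M))‖
        ≤ (2 * Real.exp (Real.pi * |z.im|)) * (8 / √M *
          Real.exp (-(M * (Rf ((z + 1 / 2) / M) + Real.pi * |z.im / M|)))) := by gcongr
      _ = 16 / √M * (Real.exp (Real.pi * |z.im|) *
          Real.exp (-(M * (Rf ((z + 1 / 2) / M) + Real.pi * |z.im / M|)))) := by ring
      _ = _ := by
          rw [← Real.exp_add, abs_div, abs_of_pos hM0]
          congr 2
          field_simp
          ring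

theorem qS_bound {M : ℕ} (hM : 1 ≤ M) {y v : ℂ} (hy : |y.re| ≤ 1 / 2) (hv : |v.re| ≤ 1 / 2) :
    ‖qS M y v‖ ≤ 256 / M * Real.exp (-(M * (Rf (y - v) + Rf (y + v)))) := by
  have hM0 : (0 : ℝ) < M := by exact_mod_cast hM
  have hMc : (M : ℂ) ≠ 0 := by exact_mod_cast hM0.ne'
  have hsq : 0 < √(M : ℝ) := Real.sqrt_pos.mpr hM0
  rw [abs_le] at hy hv
  have e1 : ((M : ℂ) * (y - v) - 1 / 2).re = M * (y.re - v.re) - 1 / 2 := by
    rw [sub_re, ← ofReal_natCast, re_ofReal_mul]
    simp
  have e2 : ((M : ℂ) * (y + v) - 1 / 2).re = M * (y.re + v.re) - 1 / 2 := by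
    rw [sub_re, ← ofReal_natCast, re_ofReal_mul]
    simp
  have h1 := rS_bound hM (z := M * (y - v) - 1 / 2) (by rw [e1]; nlinarith)
    (by rw [e1]; nlinarith)
  have h2 := rS_bound hM (z := M * (y + v) - 1 / 2) (by rw [e2]; nlinarith)
    (by rw [e2]; nlinarith)
  have e3 : ((M : ℂ) * (y - v) - 1 / 2 + 1 / 2) / M = y - v := by
    rw [sub_add_cancel]
    field_simp
  have e4 : ((M : ℂ) * (y + v) - 1 / 2 + 1 / 2) / M = y + v := by
    rw [sub_add_cancel]
    field_simp
  rw [e3] at h1
  rw [e4] at h2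
  unfold qS
  rw [norm_mul]
  calc _ ≤ (16 / √M * Real.exp (-(M * Rf (y - v)))) * (16 / √M * Real.exp (-(M * Rf (y + v)))) :=
        mul_le_mul h1 h2 (norm_nonneg _) (by positivity)
    _ = 256 / (√M * √M) * (Real.exp (-(M * Rf (y - v))) * Real.exp (-(M * Rf (y + v)))) := by
        field_simp
        norm_num
    _ = _ := by
        rw [Real.mul_self_sqrt hM0.le, ← Real.exp_add]
        congr 2
        ring

/-! ### The interpolation of the slots -/

theorem qS_top {M : ℕ} (hM : 0 < M) {v : ℂ} (hv : |v.re| ≤ 1 / 2) :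
    qS M (1 / 2) v = 1 / M := by
  have hM0 : (0 : ℝ) < M := by exact_mod_cast hM
  rw [abs_le] at hv
  have e1 : ((M : ℂ) * (1 / 2 - v) - 1 / 2).re = M * (1 / 2 - v.re) - 1 / 2 := by
    rw [sub_re, ← ofReal_natCast, re_ofReal_mul]
    simp
  have e2 : ((M : ℂ) * (1 / 2 + v) - 1 / 2).re = M * (1 / 2 + v.re) - 1 / 2 := by
    rw [sub_re, ← ofReal_natCast, re_ofReal_mul]
    simp
  unfold qS
  rw [rS_eq_right hM (by rw [e1]; nlinarith), rS_eq_right hM (by rw [e2]; nlinarith), ← exp_add]
  have h := LL_reflect M hM ((M : ℂ) * (1 / 2 - v) - 1 / 2)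
  have e3 : (M : ℂ) - 1 - ((M : ℂ) * (1 / 2 - v) - 1 / 2) = M * (1 / 2 + v) - 1 / 2 := by ring
  rw [e3] at h
  have e4 : -LL M ((M : ℂ) * (1 / 2 - v) - 1 / 2) + -LL M ((M : ℂ) * (1 / 2 + v) - 1 / 2) =
      -((Real.log M : ℝ) : ℂ) := by
    rw [← h]
    ring
  rw [e4, exp_neg, ← ofReal_exp, Real.exp_log hM0, ofReal_natCast, one_div]

theorem qc_eq_qS {M k : ℕ} (hk : k < M) {v : ℂ} (hv : |v.re| ≤ 1 / 2) :
    qc M k v = qS M (yk 2 M k : ℝ) v := by
  have hM : 0 < M := by omega
  have hM0 : (0 : ℝ) < M := by exact_mod_cast hM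
  have hMc : (M : ℂ) ≠ 0 := by exact_mod_cast hM0.ne'
  have hv' := abs_le.mp hv
  obtain ⟨n, hn⟩ : ∃ n, n = M - 1 - k := ⟨_, rfl⟩
  induction n generalizing k with
  | zero =>
    have hk' : k = M - 1 := by omega
    have e : ((yk 2 M k : ℝ) : ℂ) = 1 / 2 := by
      rw [hk']
      unfold yk bt
      rw [Nat.cast_sub hM]
      push_cast
      field_simp
      ring
    rw [e, qS_top hM hv, hk', qc_PP, Nat.sub_self, PP_zero, mul_one]
  | succ n ih =>
    have h1 := ih (k := k + 1) (by omega) (by omega)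
    have hkM : (k : ℝ) + 1 + 1 ≤ M := by exact_mod_cast (show k + 1 + 1 ≤ M by omega)
    have hk0 : (0 : ℝ) ≤ k := Nat.cast_nonneg k
    have hy : ((yk 2 M (k + 1) : ℝ) : ℂ) = (yk 2 M k : ℝ) + 1 / M := by
      unfold yk
      push_cast
      ring
    have hM1 : (M : ℂ) * ((yk 2 M (k + 1) : ℝ) : ℂ) = k + 2 - M / 2 := by
      unfold yk bt
      push_cast
      field_simp
      ring
    set z1 : ℂ := M * (((yk 2 M (k + 1) : ℝ) : ℂ) - v) - 1 / 2 with hz1
    set z2 : ℂ := M * (((yk 2 M (k + 1) : ℝ) : ℂ) + v) - 1 / 2 with hz2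
    have ez1 : z1.re = k + 2 - M / 2 - M * v.re - 1 / 2 := by
      have : z1 = (((k + 2 - M / 2 - 1 / 2 : ℝ) : ℂ)) - ((M : ℝ) : ℂ) * v := by
        rw [hz1, mul_sub, hM1]
        push_cast
        ring
      rw [this, sub_re, re_ofReal_mul, ofReal_re]
      ring
    have ez2 : z2.re = k + 2 - M / 2 + M * v.re - 1 / 2 := by
      have : z2 = (((k + 2 - M / 2 - 1 / 2 : ℝ) : ℂ)) + ((M : ℝ) : ℂ) * v := by
        rw [hz2, mul_add, hM1]
        push_cast
        ring
      rw [this, add_re, re_ofReal_mul, ofReal_re]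
      ring
    have s1 := rS_step hM (z := z1) (by rw [ez1]; nlinarith only [hv']) (by rw [ez1]; nlinarith only [hv', hkM])
    have s2 := rS_step hM (z := z2) (by rw [ez2]; nlinarith only [hv']) (by rw [ez2]; nlinarith)
    have e3 : qS M (yk 2 M k : ℝ) v = rS M (z1 - 1) * rS M (z2 - 1) := by
      unfold qS
      congr 2
      · rw [hz1, hy]
        field_simp
        ring
      · rw [hz2, hy]
        field_simp
        ring
    have e4 : qS M (yk 2 M (k + 1) : ℝ) v = rS M z1 * rS M z2 := rfl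
    rw [e3, s1, s2]
    rw [e4] at h1
    have hqc : qc M k v = qc M (k + 1) v * (4 * (cos (Real.pi * (v + (n + 1 / 2) / M)) *
        cos (Real.pi * (v - (n + 1 / 2) / M)))) := by
      rw [qc_PP, qc_PP]
      have h2 : M - 1 - k = n + 1 := by omega
      have h3 : M - 1 - (k + 1) = n := by omega
      rw [h2, h3, PP_succ]
      ring
    have hnM : (n : ℂ) = M - k - 2 := by
      have : (n : ℝ) + k + 2 = M := by exact_mod_cast (show n + k + 2 = M by omega)
      have h2 : (n : ℂ) + k + 2 = M := by exact_mod_cast this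
      linear_combination h2
    have z1' : z1 = k + 2 - M / 2 - M * v - 1 / 2 := by rw [hz1, mul_sub, hM1]
    have z2' : z2 = k + 2 - M / 2 + M * v - 1 / 2 := by rw [hz2, mul_add, hM1]
    have c1 : cos (Real.pi * (v + (n + 1 / 2) / M)) = sin (Real.pi * z1 / M) := by
      have : (Real.pi : ℂ) * (v + (n + 1 / 2) / M) = Real.pi / 2 - Real.pi * z1 / M := by
        rw [z1', hnM]
        field_simp
        ring
      rw [this, cos_pi_div_two_sub]
    have c2 : cos (Real.pi * (v - (n + 1 / 2) / M)) = sin (Real.pi * z2 / M) := by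
      have : (Real.pi : ℂ) * (v - (n + 1 / 2) / M) = -(Real.pi / 2 - Real.pi * z2 / M) := by
        rw [z2', hnM]
        field_simp
        ring
      rw [this, cos_neg, cos_pi_div_two_sub]
    rw [hqc, h1, c1, c2]
    ring

theorem DG_eq_sk {m : ℕ} {s : ℤ} (hs : s = 1 ∨ s = -1) {M : ℕ} (j : Fin m) (k : Fin m → ℕ)
    (hk : k j < M) : DG (s : ℝ) M {j} k = sk M (k j) (.cl s) := by
  have hM : 0 < M := by omega
  have hMc : (M : ℂ) ≠ 0 := by exact_mod_cast hM.ne'
  set n : ℕ := M - 1 - k j with hn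
  have e1 : DG 1 M {j} k = sk M (k j) (.cl 1) := by
    rw [DG_one_single j k hk]
    unfold sk
    simp only
    rw [← hn]
    have hI : I ^ n = exp (Real.pi * n / 2 * I) := by
      calc I ^ n = exp (Real.pi / 2 * I) ^ n := by rw [exp_pi_div_two_mul_I]
        _ = _ := by
          rw [← exp_nat_mul]
          congr 1
          ring
    rw [hI, mul_assoc (4 * (Real.pi : ℂ) * M), mul_assoc (4 * (Real.pi : ℂ) * M), ← exp_add,
      ← exp_add]
    congr 3
    push_cast
    field_simp
  rcases hs with h | h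
  · rw [h]
    push_cast
    exact e1
  · rw [h]
    have e2 : (((-1 : ℤ)) : ℝ) = -1 := by push_cast; ring
    rw [e2, DG_neg, e1]
    unfold sk
    simp only
    rw [← hn]
    have h4 : (starRingEnd ℂ) (4 : ℂ) = 4 := by
      have := conj_ofReal 4
      push_cast at this
      exact this
    rw [map_div₀, map_mul, map_mul, map_mul, conj_ofReal, conj_ofReal, map_natCast, h4, ← exp_conj]
    congr 3
    simp only [map_mul, map_add, map_sub, map_div₀, map_one, map_natCast, conj_ofReal, conj_I,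
      map_intCast, map_ofNat]
    push_cast
    ring

end Pool.Agent.S3
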