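import Pool.Agent.H63.VC3.LogS
import Pool.Agent.S3.Gr3

/-!
# Growth: the terms of the edge kernels
-/

set_option autoImplicit false

namespace Pool.Agent.S3

open Pool.Agent.H63.VC hiding ext
open Pool.Agent.H63.VC3 Pool.Agent.H63.VC7 Complex MeasureTheory Filter Topology Set
open Pool.Agent.H25.RK

/-- The slots in the range of the bounds. -/
def Sl.ok : Sl → Prop
  | .op v => |v.re| ≤ 1 / 2
  | .cl s => s = 1 ∨ s = -1

theorem Lg_zero_eq (t : ℝ) : Lg 0 t = Real.log |2 * Real.sin (Real.pi * t)| := by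
  unfold Lg
  congr 1
  have h := norm_sin_pi_sq t 0
  rw [mul_zero, Real.sinh_zero] at h
  have h2 : ‖sin (Real.pi * ((t : ℂ) + ((0 : ℝ) : ℂ) * I))‖ = |Real.sin (Real.pi * t)| := by
    rw [← sq_eq_sq₀ (norm_nonneg _) (abs_nonneg _), h, sq_abs]
    ring
  rw [norm_mul, h2, norm_ofNat, abs_mul, abs_of_pos (show (0 : ℝ) < 2 by norm_num)]

theorem Fr_eq_integral (x : ℝ) : Fr x = ∫ t in (0 : ℝ)..x, Lg 0 t := by
  have h := intervalIntegral.integral_comp_mul_left (a := 0) (b := x)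
    (fun t => Real.log |2 * Real.sin t|) (c := Real.pi) Real.pi_ne_zero
  simp only [Lg_zero_eq]
  rw [h, mul_zero]
  unfold Fr
  rw [show Pool.Agent.H63.VC.lob (Real.pi * x) =
    -∫ t in (0 : ℝ)..Real.pi * x, Real.log |2 * Real.sin t| from rfl, smul_eq_mul]
  field_simp

theorem Lg_zero_integral (a b : ℝ) : ∫ t in a..b, Lg 0 t = Fr b - Fr a := by
  rw [Fr_eq_integral, Fr_eq_integral, intervalIntegral.integral_interval_sub_left
    (Lg_integrable _ _ _) (Lg_integrable _ _ _)]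

theorem Lg_zero_le {t : ℝ} : Lg 0 t ≤ Real.log 2 := by
  rw [Lg_zero_eq]
  have hl2 := Real.log_pos (one_lt_two)
  rcases eq_or_ne (Real.sin (Real.pi * t)) 0 with h | h
  · rw [h]
    simp [hl2.le]
  · apply Real.log_le_log (abs_pos.mpr (mul_ne_zero two_ne_zero h))
    rw [abs_mul, abs_of_pos (two_pos)]
    have := Real.abs_sin_le_one (Real.pi * t)
    linarith only [this]

/-- The oscillation of `Rf` at the scale `1 / M`. -/
theorem Rf_shift : ∃ C : ℝ, 0 < C ∧ ∀ M : ℕ, 1 ≤ M → ∀ ζ : ℂ,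
    |M * Rf (ζ - 1 / (2 * M)) - M * Rf ζ| ≤ C * (1 + Real.log M + |ζ.im|) := by
  obtain ⟨C1, hC1, h1⟩ := Fr_shift 1
  refine ⟨C1 + 4, by positivity, fun M hM ζ => ?_⟩
  have hM0 : (0 : ℝ) < M := by exact_mod_cast hM
  have hMc : (M : ℂ) ≠ 0 := by exact_mod_cast hM0.ne'
  have hpi := Real.pi_pos
  have hl2 := Real.log_pos (one_lt_two)
  have hl2' : Real.log 2 ≤ 1 := by
    have := Real.log_two_lt_d9
    linarith only [this]
  have hlM : 0 ≤ Real.log M := Real.log_natCast_nonneg M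
  set δ : ℝ := 1 / (2 * M) with hδ
  have hδ0 : 0 < δ := by positivity
  have e1 : ζ - 1 / (2 * M) = ((ζ.re - δ : ℝ) : ℂ) + ζ.im * I := by
    conv_lhs => rw [← re_add_im ζ]
    rw [hδ]
    push_cast
    ring
  have e2 : ζ = (ζ.re : ℂ) + ζ.im * I := (re_add_im ζ).symm
  have hint : Rf ζ - Rf (ζ - 1 / (2 * M)) = ∫ t in (ζ.re - δ)..ζ.re, Lg ζ.im t := by
    rw [Lg_integral, e1]
    nth_rewrite 1 [e2]
    rfl
  have hab : ζ.re - δ ≤ ζ.re := by linarith only [hδ0]
  -- the integral of the density on the real axis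
  have hL0 : ∫ t in (ζ.re - δ)..ζ.re, |Lg 0 t| ≤ 2 * Real.log 2 * δ + C1 * Real.log (2 * M) /
      (2 * M) := by
    have h2 : ∫ t in (ζ.re - δ)..ζ.re, |Lg 0 t| ≤
        ∫ t in (ζ.re - δ)..ζ.re, (2 * Real.log 2 - Lg 0 t) := by
      apply intervalIntegral.integral_mono hab (Lg_integrable _ _ _).abs
        ((by simp : IntervalIntegrable (fun _ => 2 * Real.log 2) volume _ _).sub
          (Lg_integrable _ _ _))
      intro t
      simp only
      have := Lg_zero_le (t := t)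
      rw [abs_le]
      constructor <;> linarith
    rw [intervalIntegral.integral_sub (by simp) (Lg_integrable _ _ _), Lg_zero_integral,
      intervalIntegral.integral_const, smul_eq_mul] at h2
    have h3 := h1 (2 * M) (by omega) (ζ.re - δ) 1 le_rfl
    have e3 : ζ.re - δ + ((1 : ℕ) : ℝ) / ((2 * M : ℕ) : ℝ) = ζ.re := by
      rw [hδ]
      push_cast
      ring
    rw [e3, abs_le] at h3
    push_cast at h3
    have h4 : -(C1 * Real.log (2 * M) / (2 * M)) ≤ Fr ζ.re - Fr (ζ.re - δ) := by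
      rw [neg_le, neg_sub, le_div_iff₀ (by positivity)]
      linarith only [h3.1]
    have h5 : (ζ.re - (ζ.re - δ)) * (2 * Real.log 2) = 2 * Real.log 2 * δ := by ring
    rw [h5] at h2
    linarith only [h4, h2]
  have hmain : |∫ t in (ζ.re - δ)..ζ.re, Lg ζ.im t| ≤
      ∫ t in (ζ.re - δ)..ζ.re, (|Lg 0 t| + (Real.log 2 + Real.pi * |ζ.im|)) := by
    have h2 := intervalIntegral.norm_integral_le_of_norm_le (μ := volume) hab
      (f := fun t => Lg ζ.im t) (g := fun t => |Lg 0 t| + (Real.log 2 + Real.pi * |ζ.im|))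
      (by
        filter_upwards [sin_ne_ae] with t ht _
        exact Lg_abs_le ζ.im ht)
      ((Lg_integrable _ _ _).abs.add (by simp))
    rwa [Real.norm_eq_abs] at h2
  rw [intervalIntegral.integral_add (Lg_integrable _ _ _).abs (by simp),
    intervalIntegral.integral_const, smul_eq_mul] at hmain
  have h5 : ζ.re - (ζ.re - δ) = δ := by ring
  rw [h5] at hmain
  have h6 : |M * Rf (ζ - 1 / (2 * M)) - M * Rf ζ| = M * |∫ t in (ζ.re - δ)..ζ.re, Lg ζ.im t| := by
    rw [← hint, ← mul_sub, abs_mul, abs_of_pos hM0, abs_sub_comm]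
  rw [h6]
  have hlog2M : Real.log (2 * M) = Real.log 2 + Real.log M :=
    Real.log_mul (by norm_num) hM0.ne'
  have hMδ : M * δ = 1 / 2 := by rw [hδ]; field_simp
  calc M * |∫ t in (ζ.re - δ)..ζ.re, Lg ζ.im t|
      ≤ M * (2 * Real.log 2 * δ + C1 * Real.log (2 * M) / (2 * M) +
        δ * (Real.log 2 + Real.pi * |ζ.im|)) :=
        mul_le_mul_of_nonneg_left (hmain.trans (by linarith only [hL0])) hM0.le
    _ = 2 * Real.log 2 * (M * δ) + C1 * Real.log (2 * M) / 2 +
        (M * δ) * (Real.log 2 + Real.pi * |ζ.im|) := by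
        field_simp
    _ = Real.log 2 + C1 * (Real.log 2 + Real.log M) / 2 + (Real.log 2 + Real.pi * |ζ.im|) / 2 := by
        rw [hMδ, hlog2M]
        ring
    _ ≤ (C1 + 4) * (1 + Real.log M + |ζ.im|) := by
        have h7 := Real.pi_le_four
        have h8 := abs_nonneg ζ.im
        have h9 : Real.pi * |ζ.im| ≤ 4 * |ζ.im| := mul_le_mul_of_nonneg_right h7 h8
        linarith only [h9, h8, hlM, hl2', hC1, mul_nonneg (sub_nonneg.2 hC1.le) (sub_nonneg.2 h8),
          mul_nonneg (sub_nonneg.2 hC1.le) (sub_nonneg.2 hlM),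
          mul_nonneg (sub_nonneg.2 hC1.le) (sub_nonneg.2 hl2')]

/-- The weight of an edge. -/
theorem Cc_eq (M : ℕ) (y : ℂ) : Cc 2 1 M y = exp (4 * LL M (M * (y + 1 / 2) - 1)) := by
  unfold Cc
  have e1 : ((bt 2 : ℝ) : ℂ) = 1 / 2 := by
    unfold bt
    push_cast
    norm_num
  rw [e1]
  congr 1
  have e2 : (M : ℂ) * (y + 1 / 2) - 1 / 2 - 1 / 2 = M * (y + 1 / 2) - 1 := by ring
  rw [e2]
  push_cast
  norm_num
  ring

/-- The logarithm of the weight. -/
theorem LL_weight : ∃ C : ℝ, 0 < C ∧ ∀ M : ℕ, 1 ≤ M → ∀ y : ℂ, -1 / 2 + 1 / (2 * M) ≤ y.re →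
    y.re ≤ 1 / 2 + 1 / (2 * M) →
    |(LL M (M * (y + 1 / 2) - 1)).re - M * Rf (y + 1 / 2)| ≤ C * (1 + Real.log M + |y.im|) := by
  obtain ⟨C, hC, h⟩ := Rf_shift
  refine ⟨C + 2, by positivity, fun M hM y h0 h1 => ?_⟩
  have hM0 : (0 : ℝ) < M := by exact_mod_cast hM
  have hMc : (M : ℂ) ≠ 0 := by exact_mod_cast hM0.ne'
  have hlM : 0 ≤ Real.log M := Real.log_natCast_nonneg M
  have e1 : ((M : ℂ) * (y + 1 / 2) - 1).re = M * (y.re + 1 / 2) - 1 := by
    rw [sub_re, ← ofReal_natCast, re_ofReal_mul, add_re]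
    norm_num
  have e2 : ((M : ℂ) * (y + 1 / 2) - 1 + 1 / 2) / M = y + 1 / 2 - 1 / (2 * M) := by
    field_simp
    ring
  have hM2 : (M : ℝ) * (1 / (2 * M)) = 1 / 2 := by field_simp
  have h2 := LL_Rf hM (z := M * (y + 1 / 2) - 1) (by rw [e1]; nlinarith) (by rw [e1]; nlinarith)
  rw [e2] at h2
  have h3 := h M hM (y + 1 / 2)
  have e3 : (y + 1 / 2).im = y.im := by simp
  rw [e3] at h3
  rw [abs_le] at h2 h3 ⊢
  have := abs_nonneg y.im
  constructor <;> nlinarith only [hlM, this, h2.1, h3.1, h2.2, h3.2]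

theorem exponent_re (M : ℕ) (hM : 0 < M) (s : ℤ) (y : ℂ) :
    (Real.pi * I * s * (M / 2 - 1 / (2 * M) + M * (1 / 2 - y) / 2 +
      M * (1 / 2 - y) * (M * (1 / 2 - y) - 1) / (2 * M))).re =
      M * (Real.pi * s * (y.im * (1 - y.re))) - Real.pi * s * (y.im / 2) := by
  have hM0 : (0 : ℝ) < M := by exact_mod_cast hM
  have hMc : (M : ℂ) ≠ 0 := by exact_mod_cast hM0.ne'
  have e : (Real.pi * I * s * (M / 2 - 1 / (2 * M) + M * (1 / 2 - y) / 2 +
      M * (1 / 2 - y) * (M * (1 / 2 - y) - 1) / (2 * M)) : ℂ) =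
      ((M * (Real.pi * s * (y.im * (1 - y.re))) - Real.pi * s * (y.im / 2) : ℝ) : ℂ) +
      ((Real.pi * s * (M / 2 - 1 / (2 * M) + M * (1 / 2 - y.re) / 2 +
        M * ((1 / 2 - y.re) ^ 2 - y.im ^ 2) / 2 - (1 / 2 - y.re) / 2) : ℝ) : ℂ) * I := by
    have hy : y = y.re + y.im * I := (re_add_im y).symm
    generalize y.re = a at hy ⊢
    generalize y.im = b at hy ⊢
    rw [hy]
    push_cast
    field_simp
    linear_combination (-4 * s * (M : ℂ) * b * (-(M * I * b) - 1 + 2 * M - 2 * M * a)) * I_sq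
  rw [e, add_re, ofReal_re, re_ofReal_mul, I_re, mul_zero, add_zero]

/-- The bound of a slot, with half of the weight of the edge. -/
theorem slot_bound : ∃ C : ℝ, 0 < C ∧ ∀ M : ℕ, 1 ≤ M → ∀ (σ : Sl) (y : ℂ), σ.ok →
    -1 / 2 + 1 / (2 * M) ≤ y.re → y.re ≤ 1 / 2 →
    ‖exp (2 * LL M (M * (y + 1 / 2) - 1)) * sC M y σ‖ ≤
      Real.exp (C * (1 + Real.log M + |y.im|)) * Real.exp (M * se y σ) := by
  obtain ⟨C, hC, h⟩ := LL_weight
  refine ⟨2 * C + 256 + Real.pi, by positivity, fun M hM σ y hσ h0 h1 => ?_⟩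
  have hM0 : (0 : ℝ) < M := by exact_mod_cast hM
  have hMc : (M : ℂ) ≠ 0 := by exact_mod_cast hM0.ne'
  have hM1 : (1 : ℝ) ≤ M := by exact_mod_cast hM
  have hlM : 0 ≤ Real.log M := Real.log_natCast_nonneg M
  have hpi := Real.pi_pos
  have hb := abs_nonneg y.im
  have hd : 0 < 1 / (2 * (M : ℝ)) := by positivity
  have h2 := h M hM y h0 (by linarith only [hd, h1])
  rw [abs_le] at h2
  set Y : ℝ := 1 + Real.log M + |y.im| with hY
  have hY1 : 1 ≤ Y := by rw [hY]; linarith only [hb, hlM]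
  have hYM : Real.log M ≤ Y := by rw [hY]; linarith only [hb]
  have hYb : |y.im| ≤ Y := by rw [hY]; linarith only [hlM]
  have hexp : (M : ℝ) ≤ Real.exp Y := by
    calc (M : ℝ) = Real.exp (Real.log M) := (Real.exp_log hM0).symm
      _ ≤ _ := Real.exp_le_exp.2 hYM
  rcases σ with v | s
  · -- an open slot
    have hv : |v.re| ≤ 1 / 2 := hσ
    have hy : |y.re| ≤ 1 / 2 := abs_le.mpr ⟨by linarith only [hd, h0], h1⟩
    have hq := qS_bound hM hy hv
    have e1 : (2 * LL M (M * (y + 1 / 2) - 1)).re = 2 * (LL M (M * (y + 1 / 2) - 1)).re := by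
      simp
    have e2 : sC M y (.op v) = qS M y v := rfl
    have e3 : se y (.op v) = 2 * Rf (y + 1 / 2) - Rf (y - v) - Rf (y + v) := rfl
    rw [norm_mul, norm_exp, e1, e2, e3]
    have h3 : (256 : ℝ) / M ≤ Real.exp (256 * Y) := by
      have h4 := Real.add_one_le_exp (256 * Y)
      have h5 : (256 : ℝ) / M ≤ 256 := by
        rw [div_le_iff₀ hM0]
        linarith only [hM1]
      linarith only [h5, h4, hb, hlM]
    calc Real.exp (2 * (LL M (M * (y + 1 / 2) - 1)).re) * ‖qS M y v‖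
        ≤ Real.exp (2 * (M * Rf (y + 1 / 2)) + 2 * C * Y) * (Real.exp (256 * Y) *
          Real.exp (-(M * (Rf (y - v) + Rf (y + v))))) := by
          apply mul_le_mul (Real.exp_le_exp.2 (by linarith only [h2.2])) _ (norm_nonneg _)
            (Real.exp_pos _).le
          exact hq.trans (mul_le_mul_of_nonneg_right h3 (Real.exp_pos _).le)
      _ = Real.exp ((2 * C + 256) * Y) *
          Real.exp (M * (2 * Rf (y + 1 / 2) - Rf (y - v) - Rf (y + v))) := by
          rw [← Real.exp_add, ← Real.exp_add, ← Real.exp_add]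
          congr 1
          ring
      _ ≤ _ := by
          apply mul_le_mul_of_nonneg_right _ (Real.exp_pos _).le
          apply Real.exp_le_exp.2
          linarith only [hpi, mul_nonneg (sub_nonneg.2 hpi.le) (sub_nonneg.2 hb),
            mul_nonneg (sub_nonneg.2 hlM) (sub_nonneg.2 hpi.le)]
  · -- a closed end
    have hs : |(s : ℝ)| = 1 := by
      rcases hσ with rfl | rfl <;> norm_num
    have e2 : exp (2 * LL M (M * (y + 1 / 2) - 1)) * sC M y (.cl s) =
        4 * Real.pi * M * exp (Real.pi * I * s * (M / 2 - 1 / (2 * M) + M * (1 / 2 - y) / 2 +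
          M * (1 / 2 - y) * (M * (1 / 2 - y) - 1) / (2 * M))) *
          exp (LL M (M * (y + 1 / 2) - 1)) := by
      unfold sC
      simp only
      have : exp (2 * LL M (M * (y + 1 / 2) - 1)) * exp (-LL M (M * (y + 1 / 2) - 1)) =
          exp (LL M (M * (y + 1 / 2) - 1)) := by
        rw [← exp_add]
        congr 1
        ring
      rw [← this]
      ring
    have e3 : se y (.cl s) = Rf (y + 1 / 2) + Real.pi * s * (y.im * (1 - y.re)) := rfl
    rw [e2, e3, norm_mul, norm_mul, norm_exp, norm_exp, exponent_re M (by omega)]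
    have e4 : ‖(4 * Real.pi * M : ℂ)‖ = 4 * Real.pi * M := by
      rw [norm_mul, norm_mul, norm_natCast, norm_real, Real.norm_eq_abs, abs_of_pos hpi]
      norm_num
    rw [e4]
    have h3 : -(Real.pi * s * (y.im / 2)) ≤ Real.pi * Y := by
      have h4 : |Real.pi * s * (y.im / 2)| ≤ Real.pi * Y := by
        rw [abs_mul, abs_mul, hs, mul_one, abs_of_pos hpi, abs_div, abs_two]
        apply mul_le_mul_of_nonneg_left _ hpi.le
        linarith only [hb, hlM]
      have := neg_abs_le (Real.pi * s * (y.im / 2))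
      have := abs_neg (Real.pi * s * (y.im / 2))
      have := le_abs_self (-(Real.pi * s * (y.im / 2)))
      linarith [h4]
    have h4 : 4 * Real.pi * M ≤ Real.exp (16 * Y) * Real.exp Y := by
      have h5 := Real.add_one_le_exp (16 * Y)
      have h6 := Real.pi_le_four
      apply mul_le_mul (by linarith only [h6, h5, hb, hlM]) hexp hM0.le (Real.exp_pos _).le
    calc 4 * Real.pi * M * Real.exp (M * (Real.pi * s * (y.im * (1 - y.re))) -
          Real.pi * s * (y.im / 2)) * Real.exp (LL M (M * (y + 1 / 2) - 1)).re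
        ≤ (Real.exp (16 * Y) * Real.exp Y) * Real.exp (M * (Real.pi * s * (y.im * (1 - y.re))) +
          Real.pi * Y) * Real.exp (M * Rf (y + 1 / 2) + C * Y) := by
          gcongr
          · linarith only [h3]
          · linarith only [h2.2]
      _ = Real.exp ((C + 17 + Real.pi) * Y) *
          Real.exp (M * (Rf (y + 1 / 2) + Real.pi * s * (y.im * (1 - y.re)))) := by
          rw [← Real.exp_add, ← Real.exp_add, ← Real.exp_add, ← Real.exp_add]
          congr 1
          ring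
      _ ≤ _ := by
          apply mul_le_mul_of_nonneg_right _ (Real.exp_pos _).le
          apply Real.exp_le_exp.2
          linarith only [h2.2, h2.1, hb, hlM]

/-- The bound of the terms of the kernel, continued to complex `y`. -/
theorem FM_bound : ∃ C : ℝ, 0 < C ∧ ∃ p : ℕ, ∀ M : ℕ, 1 ≤ M → ∀ (σ τ : Sl) (y : ℂ), σ.ok → τ.ok →
    -1 / 2 + 1 / (2 * M) ≤ y.re → y.re ≤ 1 / 2 →
    ‖FM M σ τ y‖ ≤ C * M ^ p * Real.exp (C * |y.im|) * Real.exp (M * EE σ τ y) := by
  obtain ⟨C, hC, h⟩ := slot_bound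
  set p : ℕ := ⌈2 * C⌉₊ with hp
  have hCp : 2 * C ≤ p := Nat.le_ceil _
  refine ⟨Real.exp (2 * C), Real.exp_pos _, p, fun M hM σ τ y hσ hτ h0 h1 => ?_⟩
  have hM0 : (0 : ℝ) < M := by exact_mod_cast hM
  have hlM : 0 ≤ Real.log M := Real.log_natCast_nonneg M
  have hb := abs_nonneg y.im
  have e : FM M σ τ y = (exp (2 * LL M (M * (y + 1 / 2) - 1)) * sC M y σ) *
      (exp (2 * LL M (M * (y + 1 / 2) - 1)) * sC M y τ) := by
    unfold FM
    rw [Cc_eq]
    have : exp (4 * LL M (M * (y + 1 / 2) - 1)) = exp (2 * LL M (M * (y + 1 / 2) - 1)) *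
        exp (2 * LL M (M * (y + 1 / 2) - 1)) := by
      rw [← exp_add]
      congr 1
      ring
    rw [this]
    ring
  rw [e, norm_mul]
  have h2 := h M hM σ y hσ h0 h1
  have h3 := h M hM τ y hτ h0 h1
  have hMp : Real.exp (2 * C * Real.log M) ≤ (M : ℝ) ^ p := by
    calc Real.exp (2 * C * Real.log M) ≤ Real.exp (p * Real.log M) :=
          Real.exp_le_exp.2 (mul_le_mul_of_nonneg_right hCp hlM)
      _ = _ := by rw [Real.exp_nat_mul, Real.exp_log hM0]
  have h2C : 2 * C ≤ Real.exp (2 * C) := by linarith only [Real.add_one_le_exp (2 * C)]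
  calc _ ≤ (Real.exp (C * (1 + Real.log M + |y.im|)) * Real.exp (M * se y σ)) *
        (Real.exp (C * (1 + Real.log M + |y.im|)) * Real.exp (M * se y τ)) :=
        mul_le_mul h2 h3 (norm_nonneg _) (by positivity)
    _ = Real.exp (2 * C) * Real.exp (2 * C * Real.log M) * Real.exp (2 * C * |y.im|) *
        Real.exp (M * EE σ τ y) := by
        unfold EE
        simp only [← Real.exp_add]
        congr 1
        ring
    _ ≤ Real.exp (2 * C) * (M : ℝ) ^ p * Real.exp (Real.exp (2 * C) * |y.im|) *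
        Real.exp (M * EE σ τ y) := by
        gcongr

/-! ### The terms -/

theorem yk_two (M k : ℕ) : yk 2 M k = (k + 1) / M - 1 / 2 := by
  unfold yk bt
  push_cast
  ring

theorem sC_yk {M k : ℕ} (hk : k < M) {σ : Sl} (hσ : σ.ok) :
    sC M (yk 2 M k : ℝ) σ = sk M k σ := by
  have hM : 0 < M := by omega
  have hMc : (M : ℂ) ≠ 0 := by exact_mod_cast hM.ne'
  rcases σ with v | s
  · exact (qc_eq_qS hk hσ).symm
  · unfold sC sk
    simp only
    have e1 : (M : ℂ) * (1 / 2 - ((yk 2 M k : ℝ) : ℂ)) = ((M - 1 - k : ℕ) : ℂ) := by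
      rw [yk_two, Nat.sub_sub, Nat.cast_sub (by omega)]
      push_cast
      field_simp
      ring
    have e2 : (M : ℂ) * (((yk 2 M k : ℝ) : ℂ) + 1 / 2) - 1 = k := by
      rw [yk_two]
      push_cast
      field_simp
      ring
    rw [e1, e2, exp_neg, LL_nat M k hk]
    exact (div_eq_mul_inv _ _).symm

theorem FM_yk {M k : ℕ} (hk : k < M) {σ τ : Sl} (hσ : σ.ok) (hτ : τ.ok) :
    FM M σ τ (yk 2 M k : ℝ) = Cc 2 1 M (yk 2 M k : ℝ) * (sk M k σ * sk M k τ) := by
  unfold FM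
  rw [sC_yk hk hσ, sC_yk hk hτ]

theorem KE_eq (M : ℕ) {σ τ : Sl} (hσ : σ.ok) (hτ : τ.ok) :
    KE M σ τ = ∑ k ∈ Finset.Ico (k0 M) M, FM M σ τ (yk 2 M k : ℝ) := by
  unfold KE
  refine Finset.sum_congr rfl fun k hk => ?_
  rw [FM_yk (Finset.mem_Ico.mp hk).2 hσ hτ]

/-- The bound of the terms. -/
theorem term_bound : ∃ C : ℝ, 0 < C ∧ ∃ p : ℕ, ∀ M k : ℕ, k < M → ∀ σ τ : Sl, σ.ok → τ.ok →
    ‖Cc 2 1 M (yk 2 M k : ℝ) * (sk M k σ * sk M k τ)‖ ≤
      C * M ^ p * Real.exp (M * EE σ τ (yk 2 M k : ℝ)) := by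
  obtain ⟨C, hC, p, h⟩ := FM_bound
  refine ⟨C, hC, p, fun M k hk σ τ hσ hτ => ?_⟩
  have hM : 0 < M := by omega
  have hM0 : (0 : ℝ) < M := by exact_mod_cast hM
  have hk' : (k : ℝ) + 1 ≤ M := by exact_mod_cast hk
  have h1 : 1 / (M : ℝ) ≤ (k + 1) / M := by
    gcongr
    linarith only []
  have h2 : ((k : ℝ) + 1) / M ≤ 1 := by
    rw [div_le_one hM0]
    exact hk'
  have h3 : 1 / (2 * (M : ℝ)) ≤ 1 / M := by
    gcongr
    linarith only []
  have := h M (by omega) σ τ (yk 2 M k : ℝ) hσ hτ (by rw [ofReal_re, yk_two]; linarith only [h3, h1])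
    (by rw [ofReal_re, yk_two]; linarith only [h2])
  rw [FM_yk hk hσ hτ, ofReal_im, abs_zero, mul_zero, Real.exp_zero, mul_one] at this
  exact this

/-! ### Differentiability -/

theorem qS_differentiableAt {M : ℕ} (hM : 0 < M) {y v : ℂ} (h : |y.re| + |v.re| < 1 + 1 / (2 * M)) :
    DifferentiableAt ℂ (fun p : ℂ × ℂ => qS M p.1 p.2) (y, v) := by
  have hM0 : (0 : ℝ) < M := by exact_mod_cast hM
  have hM2 : (M : ℝ) * (1 / (2 * M)) = 1 / 2 := by field_simp
  have ha := neg_abs_le y.re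
  have hb := le_abs_self y.re
  have hc := neg_abs_le v.re
  have hd := le_abs_self v.re
  have e1 : ((M : ℂ) * (y - v) - 1 / 2).re = M * (y.re - v.re) - 1 / 2 := by
    rw [sub_re, ← ofReal_natCast, re_ofReal_mul]
    simp
  have e2 : ((M : ℂ) * (y + v) - 1 / 2).re = M * (y.re + v.re) - 1 / 2 := by
    rw [sub_re, ← ofReal_natCast, re_ofReal_mul]
    simp
  have d1 := rS_differentiableAt hM (z := M * (y - v) - 1 / 2) (by rw [e1]; nlinarith)
    (by rw [e1]; nlinarith)
  have d2 := rS_differentiableAt hM (z := M * (y + v) - 1 / 2) (by rw [e2]; nlinarith)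
    (by rw [e2]; nlinarith)
  have g1 : DifferentiableAt ℂ (fun p : ℂ × ℂ => (M : ℂ) * (p.1 - p.2) - 1 / 2) (y, v) := by
    fun_prop
  have g2 : DifferentiableAt ℂ (fun p : ℂ × ℂ => (M : ℂ) * (p.1 + p.2) - 1 / 2) (y, v) := by
    fun_prop
  exact (DifferentiableAt.comp (f := fun p : ℂ × ℂ => (M : ℂ) * (p.1 - p.2) - 1 / 2) (g := rS M)
    (y, v) d1 g1).mul (DifferentiableAt.comp (f := fun p : ℂ × ℂ => (M : ℂ) * (p.1 + p.2) - 1 / 2)
    (g := rS M) (y, v) d2 g2)

theorem Cc_differentiableAt {M : ℕ} (hM : 0 < M) {y : ℂ} (h0 : -1 / 2 < y.re)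
    (h1 : y.re < 1 / 2 + 1 / M) : DifferentiableAt ℂ (Cc 2 1 M) y := by
  have hM0 : (0 : ℝ) < M := by exact_mod_cast hM
  have hM1 : (M : ℝ) * (1 / M) = 1 := by field_simp
  have e : Cc 2 1 M = fun y => exp (4 * LL M (M * (y + 1 / 2) - 1)) := funext fun y => Cc_eq M y
  rw [e]
  have e1 : ((M : ℂ) * (y + 1 / 2) - 1).re = M * (y.re + 1 / 2) - 1 := by
    rw [sub_re, ← ofReal_natCast, re_ofReal_mul, add_re]
    norm_num
  have d := LL_differentiableAt M hM (M * (y + 1 / 2) - 1) (by rw [e1]; nlinarith)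
    (by rw [e1]; nlinarith)
  have g : DifferentiableAt ℂ (fun y : ℂ => (M : ℂ) * (y + 1 / 2) - 1) y := by fun_prop
  have d' : DifferentiableAt ℂ (fun y : ℂ => LL M (M * (y + 1 / 2) - 1)) y :=
    DifferentiableAt.comp (f := fun y : ℂ => (M : ℂ) * (y + 1 / 2) - 1) (g := LL M) y d g
  exact (d'.const_mul 4).cexp

theorem sC_differentiableAt {M : ℕ} (hM : 0 < M) {σ : Sl} (hσ : σ.ok) {y : ℂ}
    (h0 : -1 / 2 < y.re) (h1 : y.re < 1 / 2 + 1 / (2 * M)) :
    DifferentiableAt ℂ (fun y => sC M y σ) y := by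
  have hM0 : (0 : ℝ) < M := by exact_mod_cast hM
  have hM2 : (0 : ℝ) < 1 / (2 * M) := by positivity
  have hM1 : (M : ℝ) * (1 / (2 * M)) = 1 / 2 := by field_simp
  rcases σ with v | s
  · have hv : |v.re| ≤ 1 / 2 := hσ
    have hy : |y.re| < 1 / 2 + 1 / (2 * M) := abs_lt.mpr ⟨by linarith only [hM2, h0], h1⟩
    have d := qS_differentiableAt hM (y := y) (v := v) (by linarith only [hy, hv])
    have g : DifferentiableAt ℂ (fun y : ℂ => (y, v)) y := by fun_prop
    exact DifferentiableAt.comp (f := fun y : ℂ => (y, v)) (g := fun p : ℂ × ℂ => qS M p.1 p.2)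
      y d g
  · have e1 : ((M : ℂ) * (y + 1 / 2) - 1).re = M * (y.re + 1 / 2) - 1 := by
      rw [sub_re, ← ofReal_natCast, re_ofReal_mul, add_re]
      norm_num
    have d := LL_differentiableAt M hM (M * (y + 1 / 2) - 1) (by rw [e1]; nlinarith)
      (by rw [e1]; nlinarith)
    have g : DifferentiableAt ℂ (fun y : ℂ => (M : ℂ) * (y + 1 / 2) - 1) y := by fun_prop
    have d' : DifferentiableAt ℂ (fun y : ℂ => LL M (M * (y + 1 / 2) - 1)) y :=
      DifferentiableAt.comp (f := fun y : ℂ => (M : ℂ) * (y + 1 / 2) - 1) (g := LL M) y d g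
    unfold sC
    simp only
    apply DifferentiableAt.mul
    · fun_prop
    · exact d'.neg.cexp

/-- The function `FM` is holomorphic in `y`. -/
theorem FM_differentiableAt {M : ℕ} (hM : 0 < M) {σ τ : Sl} (hσ : σ.ok) (hτ : τ.ok) {y : ℂ}
    (h0 : -1 / 2 < y.re) (h1 : y.re < 1 / 2 + 1 / (2 * M)) :
    DifferentiableAt ℂ (FM M σ τ) y := by
  have hM0 : (0 : ℝ) < M := by exact_mod_cast hM
  have h2 : 1 / (2 * (M : ℝ)) ≤ 1 / M := by
    gcongr
    linarith only []
  exact (Cc_differentiableAt hM h0 (by linarith only [h2, h1])).mul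
    ((sC_differentiableAt hM hσ h0 h1).mul (sC_differentiableAt hM hτ h0 h1))

theorem qc_differentiable (M k : ℕ) : Differentiable ℂ (qc M k) := by
  have e : qc M k = fun v => 1 / M * Pool.Agent.H25.RK.PP M (M - 1 - k) v := funext fun v => qc_PP M k v
  rw [e]
  exact (PP_diff M _).const_mul _

end Pool.Agent.S3
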