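import Pool.Agent.S3.Defs

/-!
# The chain: vertices `Fin (m + 1)`, edges `Fin m`, open vertices and closed ends
-/

namespace Pool.Agent.S3

open Pool.Agent.H63.VC hiding ext
open Pool.Agent.H63.VC3 Pool.Agent.H63.VC4 Pool.Agent.H63.VC6 Pool.Agent.H63.VC7 Complex
open Pool.Agent.H25.RK Filter Topology
open scoped BigOperators

variable {m : ℕ}

/-- A contour in the upper half plane from `-1/2` to `1/2`. -/
structure Ctr (γ γ' : ℝ → ℂ) : Prop where
  cont : Continuous γ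
  der : ∃ s : Set ℝ, s.Countable ∧ ∀ x ∉ s, HasDerivAt γ (γ' x) x
  pos : ∀ x, 0 < (γ x).im
  top : Tendsto γ atTop (𝓝 (1 / 2))
  bot : Tendsto γ atBot (𝓝 (-1 / 2))
  int : MeasureTheory.Integrable γ'

/-- The data of a chain. The vertices in `Op` keep an integration variable, on the contour
`γ i`; the others are ends with `r i = s i = ±1` (two half twists). -/
structure ChD (r : Fin (m + 1) → ℝ) (Op : Finset (Fin (m + 1))) (s : Fin (m + 1) → ℤ)
    (γ γ' : Fin (m + 1) → ℝ → ℂ) : Prop where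
  hm : 1 ≤ m
  ctr : ∀ i ∈ Op, Ctr (γ i) (γ' i)
  cl_s : ∀ i ∉ Op, s i = 1 ∨ s i = -1
  cl_r : ∀ i ∉ Op, r i = s i
  cl_inc : ∀ i ∉ Op, ∃ j, inc (Fin.castSucc (n := m)) Fin.succ i = {j}

/-- The slot of the vertex `i`. -/
noncomputable def slx (Op : Finset (Fin (m + 1))) (s : Fin (m + 1) → ℤ)
    (γ : Fin (m + 1) → ℝ → ℂ) (x : Op → ℝ) (i : Fin (m + 1)) : Sl :=
  if h : i ∈ Op then .op (γ i (x ⟨i, h⟩)) else .cl (s i)

/-- The factor of an open vertex. -/
noncomputable def gvx (r : ℝ) (γ γ' : ℝ → ℂ) (M : ℕ) (x : ℝ) : ℂ :=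
  exp (2 * Real.pi * I * r * M * γ x ^ 2) * (2 * sin (2 * Real.pi * γ x)) * om 2 M (γ x) * γ' x

/-- The part of the invariant with all indices at least `k0 M`. -/
noncomputable def J0 (r : Fin (m + 1) → ℝ) (M : ℕ) : ℂ :=
  ∑ k ∈ Fintype.piFinset (fun _ : Fin m => Finset.Ico (k0 M) M),
    (∏ j, Cc 2 1 M (yk 2 M (k j) : ℝ)) *
      ∏ i, DG (r i) M (inc (Fin.castSucc (n := m)) Fin.succ i) k

end Pool.Agent.S3
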