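import Pool.Agent.S3.Gr2
import Pool.Agent.S3.Chain

/-!
# Growth: the vertex factors
-/

set_option autoImplicit false

namespace Pool.Agent.S3

open Pool.Agent.H63.VC hiding ext
open Pool.Agent.H63.VC3 Pool.Agent.H63.VC7 Complex MeasureTheory Filter Topology Set
open Pool.Agent.H25.RK

theorem ww_exp (M : ℕ) (v : ℂ) : ww 2 M v =
    exp (((-(2 * Real.pi * (M * v.im)) : ℝ) : ℂ) +
      ((2 * Real.pi * (M * (v.re + 1 / 2) - 1 / 2) : ℝ) : ℂ) * I) := by
  unfold ww bt
  congr 1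
  have hv : v = v.re + v.im * I := (re_add_im v).symm
  generalize v.re = a at hv ⊢
  generalize v.im = b at hv ⊢
  rw [hv]
  push_cast
  linear_combination (2 * Real.pi * M * b) * I_sq

theorem ww_norm (M : ℕ) (v : ℂ) : ‖ww 2 M v‖ = Real.exp (-(2 * Real.pi * (M * v.im))) := by
  rw [ww_exp, norm_exp, add_re, ofReal_re, re_ofReal_mul, I_re, mul_zero, add_zero]

theorem ww_re (M : ℕ) (v : ℂ) : (ww 2 M v).re = Real.exp (-(2 * Real.pi * (M * v.im))) *
    Real.cos (2 * Real.pi * (M * (v.re + 1 / 2) - 1 / 2)) := by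
  rw [ww_exp, exp_re]
  simp only [add_re, ofReal_re, re_ofReal_mul, I_re, mul_zero, add_zero, add_im, ofReal_im,
    im_ofReal_mul, I_im, mul_one, zero_add]

/-- Near the ends of the path `w` is in the left half plane. -/
theorem ww_re_nonpos {M : ℕ} {v : ℂ} (hv : |v.re| ≤ 1 / 2)
    (h : M * (1 / 2 - |v.re|) ≤ 1 / 4) : (ww 2 M v).re ≤ 0 := by
  rw [ww_re]
  have hM0 : (0 : ℝ) ≤ M := Nat.cast_nonneg M
  have hpi := Real.pi_pos
  set t : ℝ := M * (1 / 2 - |v.re|) with ht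
  have ht0 : 0 ≤ t := mul_nonneg hM0 (by linarith)
  have hc : 0 ≤ Real.cos (2 * Real.pi * t) := by
    apply Real.cos_nonneg_of_neg_pi_div_two_le_of_le
    · have : 0 ≤ 2 * Real.pi * t := by positivity
      linarith
    · nlinarith
  have key : Real.cos (2 * Real.pi * (M * (v.re + 1 / 2) - 1 / 2)) =
      -Real.cos (2 * Real.pi * t) := by
    rcases le_total 0 v.re with h0 | h0
    · have e : 2 * Real.pi * (M * (v.re + 1 / 2) - 1 / 2) =
          -(2 * Real.pi * t) - Real.pi + (M : ℝ) * (2 * Real.pi) := by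
        rw [ht, abs_of_nonneg h0]
        ring
      rw [e, Real.cos_add_nat_mul_two_pi, Real.cos_sub_pi, Real.cos_neg]
    · have e : 2 * Real.pi * (M * (v.re + 1 / 2) - 1 / 2) = 2 * Real.pi * t - Real.pi := by
        rw [ht, abs_of_nonpos h0]
        ring
      rw [e, Real.cos_sub_pi]
  rw [key]
  have := Real.exp_pos (-(2 * Real.pi * (M * v.im)))
  nlinarith [mul_nonneg this.le hc]

/-- The bound of `ω`. -/
theorem om_bound {κ : ℝ} (hκ : 0 < κ) : ∃ C : ℝ, 0 < C ∧ ∀ (M : ℕ) (v : ℂ), 0 ≤ v.im →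
    |v.re| ≤ 1 / 2 → κ * (1 / 2 - |v.re|) ≤ v.im →
    ‖om 2 M v‖ ≤ C * Real.exp (-(2 * Real.pi * (M * v.im))) := by
  have hpi := Real.pi_pos
  set q : ℝ := 1 - Real.exp (-(Real.pi * κ / 2)) with hq
  have hq0 : 0 < q := by
    have : Real.exp (-(Real.pi * κ / 2)) < 1 := by
      rw [Real.exp_lt_one_iff]
      have : 0 < Real.pi * κ / 2 := by positivity
      linarith
    linarith
  have hq1 : q ≤ 1 := by
    have := Real.exp_pos (-(Real.pi * κ / 2))
    linarith
  refine ⟨1 / q ^ 2, by positivity, fun M v h0 hv h => ?_⟩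
  have hM0 : (0 : ℝ) ≤ M := Nat.cast_nonneg M
  have hlow : q ≤ ‖1 - ww 2 M v‖ := by
    rcases le_or_gt (M * (1 / 2 - |v.re|)) (1 / 4) with h1 | h1
    · have h2 := ww_re_nonpos hv h1
      have h3 := re_le_norm (1 - ww 2 M v)
      rw [sub_re, one_re] at h3
      linarith
    · have h2 : κ / 4 ≤ M * v.im := by
        have h3 : M * (κ * (1 / 2 - |v.re|)) ≤ M * v.im := mul_le_mul_of_nonneg_left h hM0
        nlinarith
      have h3 := norm_sub_norm_le (1 : ℂ) (ww 2 M v)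
      rw [norm_one, ww_norm] at h3
      have h4 : Real.exp (-(2 * Real.pi * (M * v.im))) ≤ Real.exp (-(Real.pi * κ / 2)) := by
        apply Real.exp_le_exp.2
        nlinarith
      linarith
  unfold om
  rw [norm_div, norm_pow, ww_norm, div_eq_inv_mul, ← one_div]
  apply mul_le_mul_of_nonneg_right _ (Real.exp_pos _).le
  gcongr

/-! ### The lines of constant height -/

theorem cosh_ul_norm_sq (θ x : ℝ) : cosh (ul θ x) =
    ((Real.cosh x * Real.cos θ : ℝ) : ℂ) + ((Real.sinh x * Real.sin θ : ℝ) : ℂ) * I := by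
  unfold ul
  rw [Complex.cosh_add, Complex.cosh_mul_I, Complex.sinh_mul_I]
  push_cast
  ring

theorem sinh_ul (θ x : ℝ) : sinh (ul θ x) =
    ((Real.sinh x * Real.cos θ : ℝ) : ℂ) + ((Real.cosh x * Real.sin θ : ℝ) : ℂ) * I := by
  unfold ul
  rw [Complex.sinh_add, Complex.cosh_mul_I, Complex.sinh_mul_I]
  push_cast
  ring

/-- The curve `v = gdv (x + i θ)`. -/
theorem gdv_curve {θ : ℝ} (h0 : 0 < θ) (h1 : θ < Real.pi / 2) (x : ℝ) :
    Real.sinh (Real.pi * (gdv (ul θ x)).im) * Real.cos θ =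
      Real.sin θ * Real.cos (Real.pi * (gdv (ul θ x)).re) := by
  have hθ : |(ul θ x).im| < Real.pi / 2 := by
    rw [ul_im, abs_of_pos h0]
    exact h1
  have hpos : 0 < (gdv (ul θ x)).im := gdv_im_pos (by rwa [ul_im]) (by rwa [ul_im])
  have hs := sin_gdv hθ
  have hc := cos_gdv hθ
  have hne := cosh_ne hθ
  have hst : 0 < Real.sin θ := Real.sin_pos_of_pos_of_lt_pi h0 (by linarith [Real.pi_pos])
  have hct : 0 < Real.cos θ := Real.cos_pos_of_mem_Ioo ⟨by linarith, h1⟩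
  set a := (gdv (ul θ x)).re with ha
  set b := (gdv (ul θ x)).im with hb
  have hv : (Real.pi : ℂ) * gdv (ul θ x) = ((Real.pi * a : ℝ) : ℂ) + ((Real.pi * b : ℝ) : ℂ) * I := by
    rw [← re_add_im (gdv (ul θ x)), ← ha, ← hb]
    push_cast
    ring
  rw [eq_div_iff hne, cosh_ul_norm_sq, sinh_ul, hv, Complex.sin_add_mul_I] at hs
  rw [eq_div_iff hne, cosh_ul_norm_sq, hv, Complex.cos_add_mul_I] at hc
  rw [← ofReal_sin, ← ofReal_cos, ← ofReal_sinh, ← ofReal_cosh] at hs hc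
  have hs1 := congrArg Complex.re hs
  have hs2 := congrArg Complex.im hs
  have hc1 := congrArg Complex.re hc
  have hc2 := congrArg Complex.im hc
  simp only [add_re, add_im, sub_re, sub_im, mul_re, mul_im, ofReal_re, ofReal_im, I_re, I_im,
    mul_zero, mul_one, zero_mul, sub_zero, add_zero, zero_add, one_re, one_im] at hs1 hs2 hc1 hc2
  have hsb : 0 < Real.sinh (Real.pi * b) := Real.sinh_pos_iff.mpr (mul_pos Real.pi_pos hpos)
  have h1' := Real.sin_sq_add_cos_sq (Real.pi * a)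
  generalize Real.sinh (Real.pi * b) = S at *
  generalize Real.cosh (Real.pi * b) = C at *
  generalize Real.sin (Real.pi * a) = s at *
  generalize Real.cos (Real.pi * a) = c at *
  have h2 := Real.sin_sq_add_cos_sq θ
  have h3 := Real.cosh_sq x
  have hcx := Real.cosh_pos x
  generalize Real.sinh x = sx at *
  generalize Real.cosh x = cx at *
  generalize Real.sin θ = st at *
  generalize Real.cos θ = ct at *
  set D : ℝ := ct ^ 2 + sx ^ 2 with hD
  have hD0 : 0 < D := by positivity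
  have e1 : c * S * D = st * ct := by
    rw [hD]
    linear_combination (cx * ct) * hs2 - (sx * st) * hs1 + (st * ct - c * S * ct ^ 2) * h3 -
      (c * S * sx ^ 2) * h2
  have e2 : s * S * D = sx * st := by
    rw [hD]
    linear_combination (sx * st) * hc1 - (cx * ct) * hc2 - (s * S * ct ^ 2) * h3 -
      (s * S * sx ^ 2) * h2
  have e3 : S ^ 2 * D = st ^ 2 := by
    have : D * (S ^ 2 * D) = D * st ^ 2 := by
      have e4 : D * (S ^ 2 * D) = (c * S * D) ^ 2 + (s * S * D) ^ 2 := by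
        linear_combination (-(S ^ 2 * D ^ 2)) * h1'
      rw [e4, e1, e2, hD]
      ring
    exact mul_left_cancel₀ hD0.ne' this
  have e5 : S * D * (S * ct) = S * D * (st * c) := by
    linear_combination ct * e3 - st * e1
  exact mul_left_cancel₀ (mul_pos hsb hD0).ne' e5

theorem cos_ge_of_le_half {a : ℝ} (h : |a| ≤ 1 / 2) : 2 * (1 / 2 - |a|) ≤ Real.cos (Real.pi * a) := by
  have hpi := Real.pi_pos
  have h1 := Real.mul_le_sin (x := Real.pi * (1 / 2 - |a|)) (mul_nonneg hpi.le (by linarith))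
    (by nlinarith [abs_nonneg a])
  have h2 : Real.sin (Real.pi * (1 / 2 - |a|)) = Real.cos (Real.pi * a) := by
    rw [← Real.cos_abs (Real.pi * a), abs_mul, abs_of_pos hpi,
      show Real.pi * (1 / 2 - |a|) = Real.pi / 2 - Real.pi * |a| by ring, Real.sin_pi_div_two_sub]
  rw [h2] at h1
  have h3 : 2 / Real.pi * (Real.pi * (1 / 2 - |a|)) = 2 * (1 / 2 - |a|) := by field_simp
  rwa [h3] at h1

/-- The slope of the curve at its ends. -/
theorem gdv_im_ge {θ : ℝ} (h0 : 0 < θ) (h1 : θ < Real.pi / 2) (x : ℝ) :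
    2 * Real.sin θ / Real.pi * (1 / 2 - |(gdv (ul θ x)).re|) ≤ (gdv (ul θ x)).im := by
  have hθ : |(ul θ x).im| < Real.pi / 2 := by
    rw [ul_im, abs_of_pos h0]
    exact h1
  have hpi := Real.pi_pos
  have hpos : 0 < (gdv (ul θ x)).im := gdv_im_pos (by rwa [ul_im]) (by rwa [ul_im])
  have hre := gdv_re_lt hθ
  have hst : 0 < Real.sin θ := Real.sin_pos_of_pos_of_lt_pi h0 (by linarith)
  have hct : 0 < Real.cos θ := Real.cos_pos_of_mem_Ioo ⟨by linarith, h1⟩
  have key := gdv_curve h0 h1 x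
  have hc := cos_ge_of_le_half hre.le
  set a := (gdv (ul θ x)).re with ha
  set b := (gdv (ul θ x)).im with hb
  have h2 := sinh_le_mul_cosh (x := Real.pi * b) (by positivity)
  have h3 := Real.cosh_sq (Real.pi * b)
  have hC := Real.cosh_pos (Real.pi * b)
  have h4 := Real.sin_sq_add_cos_sq θ
  have h5 := Real.cos_sq_le_one (Real.pi * a)
  have h6 : (Real.cosh (Real.pi * b) * Real.cos θ) ^ 2 ≤ 1 := by
    have e : (Real.cosh (Real.pi * b) * Real.cos θ) ^ 2 =
        (Real.sinh (Real.pi * b) * Real.cos θ) ^ 2 + Real.cos θ ^ 2 := by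
      rw [mul_pow, h3]
      ring
    rw [e, key, mul_pow]
    nlinarith [sq_nonneg (Real.sin θ)]
  have h7 : Real.cosh (Real.pi * b) * Real.cos θ ≤ 1 := by
    have h8 : 0 ≤ Real.cosh (Real.pi * b) * Real.cos θ := by positivity
    nlinarith
  have h8 : Real.sin θ * Real.cos (Real.pi * a) ≤ Real.pi * b := by
    rw [← key]
    calc Real.sinh (Real.pi * b) * Real.cos θ
        ≤ (Real.pi * b * Real.cosh (Real.pi * b)) * Real.cos θ := by gcongr
      _ = Real.pi * b * (Real.cosh (Real.pi * b) * Real.cos θ) := by ring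
      _ ≤ Real.pi * b * 1 := by gcongr
      _ = _ := mul_one _
  have h9 : Real.sin θ * (2 * (1 / 2 - |a|)) ≤ Real.pi * b :=
    (mul_le_mul_of_nonneg_left hc hst.le).trans h8
  have e : 2 * Real.sin θ / Real.pi * (1 / 2 - |a|) =
      Real.sin θ * (2 * (1 / 2 - |a|)) / Real.pi := by ring
  rw [e, div_le_iff₀ hpi]
  linarith

theorem gdv_im_le {θ : ℝ} (h0 : 0 < θ) (h1 : θ < Real.pi / 2) (x : ℝ) :
    (gdv (ul θ x)).im ≤ Real.sin θ / (Real.pi * Real.cos θ) := by
  have hpi := Real.pi_pos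
  have hpos : 0 < (gdv (ul θ x)).im := gdv_im_pos (by rwa [ul_im]) (by rwa [ul_im])
  have hst : 0 < Real.sin θ := Real.sin_pos_of_pos_of_lt_pi h0 (by linarith)
  have hct : 0 < Real.cos θ := Real.cos_pos_of_mem_Ioo ⟨by linarith, h1⟩
  have key := gdv_curve h0 h1 x
  set a := (gdv (ul θ x)).re with ha
  set b := (gdv (ul θ x)).im with hb
  rw [le_div_iff₀ (by positivity)]
  have h2 : Real.pi * b ≤ Real.sinh (Real.pi * b) := Real.self_le_sinh_iff.mpr (by positivity)
  have h3 := Real.cos_le_one (Real.pi * a)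
  calc b * (Real.pi * Real.cos θ) = Real.pi * b * Real.cos θ := by ring
    _ ≤ Real.sinh (Real.pi * b) * Real.cos θ := by gcongr
    _ = Real.sin θ * Real.cos (Real.pi * a) := key
    _ ≤ Real.sin θ * 1 := by gcongr
    _ = _ := mul_one _

/-! ### The vertex factor -/

theorem wr_re (r : ℝ) (v : ℂ) : (wr r v).re =
    -(2 * Real.pi * (r * (v ^ 2).im + v.im)) := by
  unfold wr
  have e : 2 * (Real.pi : ℂ) * I * (r * v ^ 2 + v) =
      ((2 * Real.pi : ℝ) : ℂ) * (I * (r * v ^ 2 + v)) := by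
    push_cast
    ring
  rw [e, re_ofReal_mul, I_mul_re, add_im, im_ofReal_mul]
  ring

theorem exp_wr (r : ℝ) (M : ℕ) (v : ℂ) : ‖exp (2 * Real.pi * I * r * M * v ^ 2)‖ *
    Real.exp (-(2 * Real.pi * (M * v.im))) = Real.exp (M * (wr r v).re) := by
  have e : 2 * (Real.pi : ℂ) * I * r * M * v ^ 2 =
      ((2 * Real.pi * r * M : ℝ) : ℂ) * (I * v ^ 2) := by
    push_cast
    ring
  rw [norm_exp, e, re_ofReal_mul, I_mul_re, ← Real.exp_add, wr_re]
  congr 1
  ring

theorem norm_two_sin_le (v : ℂ) : ‖2 * sin (2 * Real.pi * v)‖ ≤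
    2 * Real.exp (2 * Real.pi * |v.im|) := by
  have e : (2 * Real.pi * v : ℂ) = Real.pi * (((2 * v.re : ℝ) : ℂ) + ((2 * v.im : ℝ) : ℂ) * I) := by
    conv_lhs => rw [← re_add_im v]
    push_cast
    ring
  have h1 := norm_sin_le (2 * v.re) (2 * v.im)
  have h2 := cosh_le_exp_abs (Real.pi * (2 * v.im))
  rw [abs_mul, abs_mul, abs_of_pos Real.pi_pos, abs_two,
    show Real.pi * (2 * |v.im|) = 2 * Real.pi * |v.im| by ring] at h2
  rw [e, norm_mul, norm_ofNat]
  linarith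

/-- The bound of the vertex factor on a curve which leaves `±1/2` with positive slope. -/
theorem gvx_bound {κ B : ℝ} (hκ : 0 < κ) : ∃ C : ℝ, 0 < C ∧ ∀ (M : ℕ) (r : ℝ)
    (γ γ' : ℝ → ℂ) (x : ℝ), 0 ≤ (γ x).im → |(γ x).re| ≤ 1 / 2 →
    κ * (1 / 2 - |(γ x).re|) ≤ (γ x).im → (γ x).im ≤ B →
    ‖gvx r γ γ' M x‖ ≤ C * Real.exp (M * (wr r (γ x)).re) * ‖γ' x‖ := by
  obtain ⟨C, hC, h⟩ := om_bound hκ
  refine ⟨C * (2 * Real.exp (2 * Real.pi * B)), by positivity, fun M r γ γ' x h0 h1 h2 h3 => ?_⟩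
  have ho := h M (γ x) h0 h1 h2
  have hs := norm_two_sin_le (γ x)
  have hpi := Real.pi_pos
  unfold gvx
  rw [norm_mul, norm_mul, norm_mul]
  have hB : Real.exp (2 * Real.pi * |(γ x).im|) ≤ Real.exp (2 * Real.pi * B) := by
    rw [abs_of_nonneg h0]
    gcongr
  calc ‖exp (2 * Real.pi * I * r * M * γ x ^ 2)‖ * ‖2 * sin (2 * Real.pi * γ x)‖ *
        ‖om 2 M (γ x)‖ * ‖γ' x‖
      ≤ ‖exp (2 * Real.pi * I * r * M * γ x ^ 2)‖ * (2 * Real.exp (2 * Real.pi * B)) *
        (C * Real.exp (-(2 * Real.pi * (M * (γ x).im)))) * ‖γ' x‖ := by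
        gcongr
        exact hs.trans (by gcongr)
    _ = C * (2 * Real.exp (2 * Real.pi * B)) * (‖exp (2 * Real.pi * I * r * M * γ x ^ 2)‖ *
        Real.exp (-(2 * Real.pi * (M * (γ x).im)))) * ‖γ' x‖ := by ring
    _ = _ := by rw [exp_wr]

/-- The bound of the vertex factor on the line of height `θ`. -/
theorem gvx_bound_ul {θ : ℝ} (h0 : 0 < θ) (h1 : θ < Real.pi / 2) : ∃ C : ℝ, 0 < C ∧
    ∀ (M : ℕ) (r : ℝ) (x : ℝ),
    ‖gvx r (fun x => gdv (ul θ x)) (fun x => 1 / (Real.pi * cosh (ul θ x))) M x‖ ≤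
      C * Real.exp (M * (wr r (gdv (ul θ x))).re) * ‖1 / (Real.pi * cosh (ul θ x))‖ := by
  have hst : 0 < Real.sin θ := Real.sin_pos_of_pos_of_lt_pi h0 (by linarith [Real.pi_pos])
  have hθ : ∀ x, |(ul θ x).im| < Real.pi / 2 := fun x => by
    rw [ul_im, abs_of_pos h0]
    exact h1
  obtain ⟨C, hC, h⟩ := gvx_bound (κ := 2 * Real.sin θ / Real.pi)
    (B := Real.sin θ / (Real.pi * Real.cos θ)) (div_pos (by linarith) Real.pi_pos)
  refine ⟨C, hC, fun M r x => h M r _ _ x ?_ (gdv_re_lt (hθ x)).le (gdv_im_ge h0 h1 x)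
    (gdv_im_le h0 h1 x)⟩
  exact (gdv_im_pos (by rwa [ul_im]) (by rwa [ul_im])).le

/-- A contour which stays at a positive height away from `±1/2`. -/
theorem slope_of_height {ε : ℝ} (hε : 0 < ε) {v : ℂ} (h : |v.re| = 1 / 2 ∨ ε ≤ v.im)
    (h0 : 0 ≤ v.im) : 2 * ε * (1 / 2 - |v.re|) ≤ v.im := by
  rcases h with h | h
  · rw [h]
    linarith
  · have := abs_nonneg v.re
    nlinarith

end Pool.Agent.S3
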