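import Pool.Agent.H25.RK.Gdv
import Pool.Agent.H63.VC5.CVDefs
import Pool.Agent.H63.VC7.Defs

/-!
# Two-bridge links without many twists: definitions

Growth functions, slots and edge kernels for the colored invariants of the two-bridge links
`C(a_0, ..., a_m)` with all `a_i ≥ 2`.
-/

namespace Pool.Agent.S3

open Pool.Agent.H63.VC hiding ext
open Pool.Agent.H63.VC3 Pool.Agent.H63.VC4 Pool.Agent.H63.VC6 Pool.Agent.H63.VC7 Complex
open Pool.Agent.H25.RK Pool.Agent.H63.VC5

/-! ### Growth -/

/-- The real part of `ff`, extended to the whole plane by integration along horizontal lines. -/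
noncomputable def Rf (z : ℂ) : ℝ :=
  ∫ t in (1 / 2 : ℝ)..z.re, Real.log ‖2 * sin (Real.pi * (t + z.im * I))‖

/-- The continuation of `ff` from the strip `0 < re z < 1` to the upper and the lower half plane
(see `VC5.ff_dilog`); for `-1 < re z < 0` it is `ff (z + 1) + π i z`, `ff (z + 1) - π i z`. -/
noncomputable def fe (z : ℂ) : ℂ :=
  if 0 < z.im then (-dilog (exp (2 * Real.pi * I * z)) +
      (Real.pi : ℂ) ^ 2 * (z ^ 2 - z + 1 / 6)) / (2 * Real.pi * I)
  else if z.im < 0 then (-dilog (exp (-(2 * Real.pi * I * z))) +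
      (Real.pi : ℂ) ^ 2 * (z ^ 2 - z + 1 / 6)) / (-(2 * Real.pi * I))
  else ff z

/-- Its derivative, the continuation of `hh`. -/
noncomputable def he (z : ℂ) : ℂ :=
  if 0 < z.im then log (1 - exp (2 * Real.pi * I * z)) - Real.pi * I * (z - 1 / 2)
  else if z.im < 0 then log (1 - exp (-(2 * Real.pi * I * z))) + Real.pi * I * (z - 1 / 2)
  else hh z

/-- An analytic interpolation of `k ↦ 1 / S M k` for `-M - 1 < re z < M` (with zeros at the
negative integers). -/
noncomputable def rS (M : ℕ) (z : ℂ) : ℂ :=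
  if -1 / 2 ≤ z.re then exp (-LL M z) else -2 * sin (Real.pi * z) * exp (-LL M (z + M))

/-- The analytic interpolation of `qc M k v` in `k`. -/
noncomputable def qS (M : ℕ) (y v : ℂ) : ℂ :=
  rS M (M * (y - v) - 1 / 2) * rS M (M * (y + v) - 1 / 2)

/-! ### Slots -/

/-- A slot of an edge: `op v` is a vertex with integration variable `v`, `cl s` is an end of the
chain with `c = 2 s` half twists (`s = 1` or `s = -1`), for which the closed form is used. -/
inductive Sl where
  | op (v : ℂ) : Sl
  | cl (s : ℤ) : Sl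

/-- The factor of a slot, `k` an integer. -/
noncomputable def sk (M k : ℕ) : Sl → ℂ
  | .op v => qc M k v
  | .cl s => 4 * Real.pi * M * exp (Real.pi * I * s * (M / 2 - 1 / (2 * M) +
      ((M - 1 - k : ℕ) : ℂ) / 2 + ((M - 1 - k : ℕ) : ℂ) * (((M - 1 - k : ℕ) : ℂ) - 1) / (2 * M))) /
      S M k

/-- Its analytic interpolation, `k + 1 = M (y + 1 / 2)`. -/
noncomputable def sC (M : ℕ) (y : ℂ) : Sl → ℂ
  | .op v => qS M y v
  | .cl s => 4 * Real.pi * M * exp (Real.pi * I * s * (M / 2 - 1 / (2 * M) +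
      M * (1 / 2 - y) / 2 + M * (1 / 2 - y) * (M * (1 / 2 - y) - 1) / (2 * M))) *
      exp (-LL M (M * (y + 1 / 2) - 1))

/-- The growth rate of a slot, with half of the weight of the edge. -/
noncomputable def se (y : ℂ) : Sl → ℝ
  | .op v => 2 * Rf (y + 1 / 2) - Rf (y - v) - Rf (y + v)
  | .cl s => Rf (y + 1 / 2) + Real.pi * s * (y.im * (1 - y.re))

/-- The potential of a slot, with half of the weight of the edge. -/
noncomputable def sP (y : ℂ) : Sl → ℂ
  | .op v => 2 * ff (y + 1 / 2) - fe (y - v) - fe (y + v)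
  | .cl s => ff (y + 1 / 2) - Real.pi * I * s * (y - y ^ 2 / 2 - 7 / 8)

/-! ### Edge kernels -/

/-- The first index of the kernels. -/
def k0 (M : ℕ) : ℕ := 2 * M / 5

/-- The kernel of an edge. -/
noncomputable def KE (M : ℕ) (σ τ : Sl) : ℂ :=
  ∑ k ∈ Finset.Ico (k0 M) M, Cc 2 1 M (yk 2 M k : ℝ) * (sk M k σ * sk M k τ)

/-- The analytic function of `y` whose values at `yk 2 M k` are the terms of the kernel. -/
noncomputable def FM (M : ℕ) (σ τ : Sl) (y : ℂ) : ℂ := Cc 2 1 M y * (sC M y σ * sC M y τ)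

/-- The growth rate of the terms. -/
noncomputable def EE (σ τ : Sl) (y : ℂ) : ℝ := se y σ + se y τ

/-- The share of a vertex in the bound of an edge kernel: `vc` the critical point,
`-2 Q = e_v (y_c, v_c)`, `β` real, the sum of `β` over the edges at the vertex is `4 π r`. -/
noncomputable def ell (vc Q : ℂ) (β : ℝ) (v : ℂ) : ℝ :=
  -(2 * Q * (v - vc) + I * β / 2 * (v - vc) ^ 2).re

/-- The vertex function. -/
noncomputable def wr (r : ℝ) (v : ℂ) : ℂ := 2 * Real.pi * I * (r * v ^ 2 + v)

end Pool.Agent.S3
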