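import Pool.Agent.H63.VC5.FFdilog
import Pool.Agent.S3.Defs

/-! # The potential of a slot: derivatives -/

namespace Pool.Agent.S3

open Pool.Agent.H63.VC hiding ext
open Pool.Agent.H63.VC3 Pool.Agent.H63.VC4 Pool.Agent.H63.VC6 Pool.Agent.H63.VC7 Complex
open Pool.Agent.H25.RK Filter Topology

/-- The domain of `fe`. -/
def fdom (z : ℂ) : Prop := z.im ≠ 0 ∨ (0 < z.re ∧ z.re < 1)

/-- The domain of the potential of a slot. -/
def sdom (y : ℂ) : Sl → Prop
  | .op v => 0 < y.re ∧ y.re < 1 / 2 ∧ fdom (y - v) ∧ fdom (y + v)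
  | .cl _ => 0 < y.re ∧ y.re < 1 / 2

/-- `π cot (π z)`. -/
noncomputable def ct (z : ℂ) : ℂ := Real.pi * cos (Real.pi * z) / sin (Real.pi * z)

/-- The derivative of `sP` with respect to `y`. -/
noncomputable def ey (y : ℂ) : Sl → ℂ
  | .op v => 2 * hh (y + 1 / 2) - he (y - v) - he (y + v)
  | .cl s => hh (y + 1 / 2) - Real.pi * I * s * (1 - y)

/-- The derivative of `sP y (op v)` with respect to `v`. -/
noncomputable def ev (y v : ℂ) : ℂ := he (y - v) - he (y + v)

/-- The second derivative of `sP` with respect to `y`. -/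
noncomputable def eyy (y : ℂ) : Sl → ℂ
  | .op v => 2 * ct (y + 1 / 2) - ct (y - v) - ct (y + v)
  | .cl s => ct (y + 1 / 2) + Real.pi * I * s

/-- The mixed second derivative. -/
noncomputable def eyv (y v : ℂ) : ℂ := ct (y - v) - ct (y + v)

/-- The second derivative with respect to `v`. -/
noncomputable def evv (y v : ℂ) : ℂ := -ct (y - v) - ct (y + v)

/-- `dv / du` for `v = gdv u`. -/
noncomputable def dgv (u : ℂ) : ℂ := 1 / (Real.pi * cosh u)

theorem fdom_open : IsOpen {z : ℂ | fdom z} := by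
  have h1 : IsOpen {z : ℂ | z.im ≠ 0} := isOpen_ne.preimage Complex.continuous_im
  have h2 : IsOpen {z : ℂ | 0 < z.re ∧ z.re < 1} :=
    (isOpen_lt continuous_const Complex.continuous_re).inter
      (isOpen_lt Complex.continuous_re continuous_const)
  exact h1.union h2

theorem Pot_strip_open : IsOpen {z : ℂ | 0 < z.re ∧ z.re < 1} :=
  (isOpen_lt continuous_const Complex.continuous_re).inter
    (isOpen_lt Complex.continuous_re continuous_const)

theorem Pot_exp_reflect (z : ℂ) : exp (2 * Real.pi * I * (1 - z)) = exp (-(2 * Real.pi * I * z)) := by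
  rw [show (2 * Real.pi * I * (1 - z) : ℂ) = 2 * Real.pi * I + -(2 * Real.pi * I * z) by ring,
    exp_add, exp_two_pi_mul_I, one_mul]

theorem Pot_pi2I : (2 * Real.pi * I : ℂ) ≠ 0 := Complex.two_pi_I_ne_zero

theorem fe_eq_ff {z : ℂ} (h0 : 0 < z.re) (h1 : z.re < 1) : fe z = ff z := by
  unfold fe
  have hne := Pot_pi2I
  split_ifs with hp hm
  · rw [← Pool.Agent.H63.VC5.ff_dilog z h0 h1, mul_div_cancel_left₀ _ hne]
  · have h := Pool.Agent.H63.VC5.ff_dilog (1 - z) (by simp; linarith) (by simp; linarith)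
    rw [ff_reflect, Pot_exp_reflect] at h
    rw [div_eq_iff (neg_ne_zero.mpr hne)]
    linear_combination -h
  · rfl

theorem Pot_hh_reflect (z : ℂ) : hh (1 - z) = hh z := by
  unfold hh
  rw [show (Real.pi * (1 - z) : ℂ) = Real.pi - Real.pi * z by ring, Complex.sin_pi_sub]

theorem he_eq_hh {z : ℂ} (h0 : 0 < z.re) (h1 : z.re < 1) : he z = hh z := by
  unfold he
  split_ifs with hp hm
  · rw [Pool.Agent.H63.VC5.hh_log z h0 h1]
    ring
  · have h := Pool.Agent.H63.VC5.hh_log (1 - z) (by simp; linarith) (by simp; linarith)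
    rw [Pot_hh_reflect, Pot_exp_reflect] at h
    rw [h]
    ring
  · rfl

theorem Pot_norm_pos {z : ℂ} (h : 0 < z.im) : ‖exp (2 * Real.pi * I * z)‖ < 1 := by
  rw [norm_exp]
  have e : (2 * Real.pi * I * z : ℂ).re = -(2 * Real.pi * z.im) := by
    rw [show (2 * Real.pi * I * z : ℂ) = ((2 * Real.pi : ℝ) : ℂ) * (I * z) by push_cast; ring,
      Complex.re_ofReal_mul, Complex.I_mul_re]
    ring
  rw [e]
  exact Real.exp_lt_one_iff.mpr (by have := Real.pi_pos; nlinarith [mul_pos this h])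

theorem Pot_norm_neg {z : ℂ} (h : z.im < 0) : ‖exp (-(2 * Real.pi * I * z))‖ < 1 := by
  have := Pot_norm_pos (z := -z) (by simpa using h)
  rwa [show (2 * Real.pi * I * -z : ℂ) = -(2 * Real.pi * I * z) by ring] at this

theorem Pot_slit {w : ℂ} (h : ‖w‖ < 1) : 1 - w ∈ slitPlane := by
  left
  have := Complex.re_le_norm w
  simp only [sub_re, one_re]
  linarith

theorem Pot_exp_half (z : ℂ) :
    (1 - exp (2 * Real.pi * I * z)) * exp (-(Real.pi * I * (z - 1 / 2))) =
      2 * sin (Real.pi * z) := by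
  have e1 : (-(Real.pi * I * (z - 1 / 2)) : ℂ) = -(Real.pi * z) * I + Real.pi / 2 * I := by ring
  have e2 : (2 * Real.pi * I * z : ℂ) = Real.pi * z * I + Real.pi * z * I := by ring
  have e4 : exp (-((Real.pi : ℂ) * z) * I) * exp ((Real.pi : ℂ) * z * I) = 1 := by
    rw [← Complex.exp_add]
    have : -((Real.pi : ℂ) * z) * I + (Real.pi : ℂ) * z * I = 0 := by ring
    rw [this, Complex.exp_zero]
  rw [e1, e2, Complex.exp_add, Complex.exp_add, Complex.exp_pi_div_two_mul_I, Complex.sin]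
  set E := exp ((Real.pi : ℂ) * z * I)
  set E' := exp (-((Real.pi : ℂ) * z) * I)
  linear_combination (-(E * I)) * e4

theorem exp_he {z : ℂ} (h : fdom z) : exp (he z) = 2 * sin (Real.pi * z) := by
  by_cases hs : 0 < z.re ∧ z.re < 1
  · rw [he_eq_hh hs.1 hs.2, hh_exp z hs.1 hs.2]
  · have him : z.im ≠ 0 := h.resolve_right hs
    unfold he
    rcases lt_or_gt_of_ne him with hm | hp
    · rw [if_neg (not_lt.mpr hm.le), if_pos hm, exp_add,
        exp_log (slitPlane_ne_zero (Pot_slit (Pot_norm_neg hm)))]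
      have := Pot_exp_half (-z)
      rw [show (2 * Real.pi * I * -z : ℂ) = -(2 * Real.pi * I * z) by ring,
        show (-(Real.pi * I * (-z - 1 / 2)) : ℂ) = Real.pi * I * (z - 1 / 2) + Real.pi * I by ring,
        exp_add, exp_pi_mul_I, mul_neg (Real.pi : ℂ) z, sin_neg] at this
      linear_combination -this
    · rw [if_pos hp, sub_eq_add_neg, exp_add,
        exp_log (slitPlane_ne_zero (Pot_slit (Pot_norm_pos hp)))]
      exact Pot_exp_half z

theorem Pot_exp_deriv (c z : ℂ) : HasDerivAt (fun z : ℂ => exp (c * z)) (exp (c * z) * c) z := by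
  have : HasDerivAt (fun z : ℂ => c * z) c z := by
    simpa using (hasDerivAt_id z).const_mul c
  exact this.cexp

theorem Pot_poly_deriv (z : ℂ) : HasDerivAt (fun z : ℂ => (Real.pi : ℂ) ^ 2 * (z ^ 2 - z + 1 / 6))
    ((Real.pi : ℂ) ^ 2 * (2 * z - 1)) z := by
  have := ((((hasDerivAt_id z).pow 2).sub (hasDerivAt_id z)).add_const (1 / 6 : ℂ)).const_mul
    ((Real.pi : ℂ) ^ 2)
  simpa using this

/-- The common formula. -/
theorem Pot_core (c z : ℂ) (hc : c ^ 2 = (2 * Real.pi * I) ^ 2) (h : ‖exp (c * z)‖ < 1) :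
    HasDerivAt (fun z : ℂ => (-Pool.Agent.H63.VC5.dilog (exp (c * z)) +
      (Real.pi : ℂ) ^ 2 * (z ^ 2 - z + 1 / 6)) / c)
      (log (1 - exp (c * z)) - c / 2 * (z - 1 / 2)) z := by
  have hc0 : c ≠ 0 := by
    intro h0
    rw [h0] at hc
    have := pow_ne_zero 2 Pot_pi2I
    exact this (by rw [← hc]; ring)
  have k2 := Pot_exp_deriv c z
  have k3 := (Pool.Agent.H63.VC5.dilog_hasDerivAt _ (Complex.exp_ne_zero (c * z))
    (Pot_slit h)).comp z k2
  have k5 := (k3.neg.add (Pot_poly_deriv z)).div_const c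
  refine k5.congr_deriv ?_
  have hne := Complex.exp_ne_zero (c * z)
  have hI : I ^ 2 = -1 := Complex.I_sq
  have hpi : c ^ 2 = -4 * (Real.pi : ℂ) ^ 2 := by
    rw [hc, mul_pow, mul_pow, hI]
    ring
  have hpi' : (Real.pi : ℂ) ^ 2 = -c ^ 2 / 4 := by
    rw [hpi]
    ring
  rw [hpi']
  field_simp
  ring

theorem Pot_coreH (c z : ℂ) (h : ‖exp (c * z)‖ < 1) :
    HasDerivAt (fun z : ℂ => log (1 - exp (c * z)) - c / 2 * (z - 1 / 2))
      (-(c * exp (c * z)) / (1 - exp (c * z)) - c / 2) z := by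
  have k2 := (Pot_exp_deriv c z).const_sub 1
  have k3 := k2.clog (Pot_slit h)
  have k4 : HasDerivAt (fun z : ℂ => c / 2 * (z - 1 / 2)) (c / 2) z := by
    simpa using ((hasDerivAt_id z).sub_const (1 / 2 : ℂ)).const_mul (c / 2)
  refine (k3.sub k4).congr_deriv ?_
  ring

theorem Pot_up {z : ℂ} (h : 0 < z.im) : ∀ᶠ w in 𝓝 z, 0 < w.im :=
  (isOpen_lt continuous_const Complex.continuous_im).mem_nhds h

theorem Pot_down {z : ℂ} (h : z.im < 0) : ∀ᶠ w in 𝓝 z, w.im < 0 :=
  (isOpen_lt Complex.continuous_im continuous_const).mem_nhds h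

theorem fe_hasDerivAt {z : ℂ} (h : fdom z) : HasDerivAt fe (he z) z := by
  by_cases hs : 0 < z.re ∧ z.re < 1
  · rw [he_eq_hh hs.1 hs.2]
    refine (ff_hasDerivAt z hs.1 hs.2).congr_of_eventuallyEq ?_
    filter_upwards [Pot_strip_open.mem_nhds hs] with w hw
    exact fe_eq_ff hw.1 hw.2
  · have him : z.im ≠ 0 := h.resolve_right hs
    rcases lt_or_gt_of_ne him with hm | hp
    · have hn := Pot_norm_neg hm
      rw [← neg_mul] at hn
      have k := Pot_core (-(2 * Real.pi * I)) z (by ring) hn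
      refine (k.congr_of_eventuallyEq ?_).congr_deriv ?_
      · filter_upwards [Pot_down hm] with w hw
        unfold fe
        rw [if_neg (not_lt.mpr hw.le), if_pos hw, ← neg_mul]
      · unfold he
        rw [if_neg (not_lt.mpr hm.le), if_pos hm, ← neg_mul]
        ring_nf
    · have hn := Pot_norm_pos hp
      have k := Pot_core (2 * Real.pi * I) z rfl hn
      refine (k.congr_of_eventuallyEq ?_).congr_deriv ?_
      · filter_upwards [Pot_up hp] with w hw
        unfold fe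
        rw [if_pos hw]
      · unfold he
        rw [if_pos hp]
        ring

theorem Pot_sin_ne {z : ℂ} (h : fdom z) : sin (Real.pi * z) ≠ 0 := by
  intro h0
  have := exp_he h
  rw [h0, mul_zero] at this
  exact exp_ne_zero _ this

theorem Pot_ct_exp (z : ℂ) (hs : sin (Real.pi * z) ≠ 0) (h : 1 - exp (2 * Real.pi * I * z) ≠ 0) :
    -(2 * Real.pi * I * exp (2 * Real.pi * I * z)) / (1 - exp (2 * Real.pi * I * z)) -
      2 * Real.pi * I / 2 = ct z := by
  unfold ct
  have e1 : exp (2 * Real.pi * I * z) = exp (Real.pi * z * I) * exp (Real.pi * z * I) := by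
    rw [← exp_add]
    congr 1
    ring
  have e4 : exp (-((Real.pi : ℂ) * z) * I) * exp ((Real.pi : ℂ) * z * I) = 1 := by
    rw [← Complex.exp_add]
    have : -((Real.pi : ℂ) * z) * I + (Real.pi : ℂ) * z * I = 0 := by ring
    rw [this, Complex.exp_zero]
  rw [div_sub' h, div_eq_div_iff h hs, e1, Complex.sin, Complex.cos]
  set E := exp ((Real.pi : ℂ) * z * I)
  set E' := exp (-((Real.pi : ℂ) * z) * I)
  have hI : I * I = -1 := Complex.I_mul_I
  linear_combination ((Real.pi : ℂ) * E) * e4 +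
    (-((Real.pi : ℂ) * (1 + E * E) * (E' - E) / 2)) * hI

theorem Pot_hh_deriv {z : ℂ} (h0 : 0 < z.re) (h1 : z.re < 1) : HasDerivAt hh (ct z) z := by
  refine (hh_hasDerivAt z h0 h1).congr_deriv ?_
  unfold ct
  rw [Complex.cot, mul_div_assoc]

theorem he_hasDerivAt {z : ℂ} (h : fdom z) : HasDerivAt he (ct z) z := by
  by_cases hs : 0 < z.re ∧ z.re < 1
  · have k := hh_hasDerivAt z hs.1 hs.2
    refine (k.congr_of_eventuallyEq ?_).congr_deriv ?_
    · filter_upwards [Pot_strip_open.mem_nhds hs] with w hw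
      exact he_eq_hh hw.1 hw.2
    · unfold ct
      rw [Complex.cot, mul_div_assoc]
  · have him : z.im ≠ 0 := h.resolve_right hs
    rcases lt_or_gt_of_ne him with hm | hp
    · have hn := Pot_norm_neg hm
      rw [← neg_mul] at hn
      have k := Pot_coreH (-(2 * Real.pi * I)) z hn
      refine (k.congr_of_eventuallyEq ?_).congr_deriv ?_
      · filter_upwards [Pot_down hm] with w hw
        unfold he
        rw [if_neg (not_lt.mpr hw.le), if_pos hw, ← neg_mul]
        ring
      · have h2 : fdom (-z) := Or.inl (by simpa using him)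
        have h3 := Pot_ct_exp (-z) (Pot_sin_ne h2) (by
          rw [show (2 * Real.pi * I * -z : ℂ) = -(2 * Real.pi * I) * z by ring]
          exact slitPlane_ne_zero (Pot_slit hn))
        have h4 : ct (-z) = -ct z := by
          unfold ct
          rw [mul_neg, cos_neg, sin_neg, div_neg]
        rw [h4, show (2 * Real.pi * I * -z : ℂ) = -(2 * Real.pi * I) * z by ring] at h3
        linear_combination -h3
    · have hn := Pot_norm_pos hp
      have k := Pot_coreH (2 * Real.pi * I) z hn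
      refine (k.congr_of_eventuallyEq ?_).congr_deriv ?_
      · filter_upwards [Pot_up hp] with w hw
        unfold he
        rw [if_pos hw]
        ring
      · exact Pot_ct_exp z (Pot_sin_ne h) (slitPlane_ne_zero (Pot_slit hn))

theorem fe_an {z : ℂ} (h : fdom z) : AnalyticAt ℂ fe z := by
  have hd : DifferentiableOn ℂ fe {z | fdom z} := fun w hw =>
    (fe_hasDerivAt hw).differentiableAt.differentiableWithinAt
  exact hd.analyticAt (fdom_open.mem_nhds h)

theorem Pot_ff_an {z : ℂ} (h0 : 0 < z.re) (h1 : z.re < 1) : AnalyticAt ℂ ff z := by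
  have hd : DifferentiableOn ℂ ff {z : ℂ | 0 < z.re ∧ z.re < 1} := fun w hw =>
    (ff_hasDerivAt w hw.1 hw.2).differentiableAt.differentiableWithinAt
  exact hd.analyticAt (Pot_strip_open.mem_nhds ⟨h0, h1⟩)

theorem Pot_shift {y : ℂ} (h0 : 0 < y.re) (h1 : y.re < 1 / 2) :
    0 < (y + 1 / 2).re ∧ (y + 1 / 2).re < 1 := by
  have e : (y + 1 / 2).re = y.re + 1 / 2 := by
    rw [add_re]
    norm_num
  rw [e]
  constructor <;> linarith

theorem sP_an_op {y v : ℂ} (h : sdom y (.op v)) :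
    AnalyticAt ℂ (fun p : ℂ × ℂ => sP p.1 (.op p.2)) (y, v) := by
  obtain ⟨h0, h1, h2, h3⟩ := h
  have hs := Pot_shift h0 h1
  have a1 : AnalyticAt ℂ (fun p : ℂ × ℂ => ff (p.1 + 1 / 2)) (y, v) :=
    AnalyticAt.fun_comp (g := ff) (f := fun p : ℂ × ℂ => p.1 + 1 / 2) (Pot_ff_an hs.1 hs.2)
      (analyticAt_fst.add analyticAt_const)
  have a2 : AnalyticAt ℂ (fun p : ℂ × ℂ => fe (p.1 - p.2)) (y, v) :=
    AnalyticAt.fun_comp (g := fe) (f := fun p : ℂ × ℂ => p.1 - p.2) (fe_an h2)
      (analyticAt_fst.sub analyticAt_snd)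
  have a3 : AnalyticAt ℂ (fun p : ℂ × ℂ => fe (p.1 + p.2)) (y, v) :=
    AnalyticAt.fun_comp (g := fe) (f := fun p : ℂ × ℂ => p.1 + p.2) (fe_an h3)
      (analyticAt_fst.add analyticAt_snd)
  exact ((analyticAt_const.mul a1).sub a2).sub a3

theorem sP_an_cl {y : ℂ} (s : ℤ) (h : sdom y (.cl s)) :
    AnalyticAt ℂ (fun y : ℂ => sP y (.cl s)) y := by
  obtain ⟨h0, h1⟩ := h
  have hs := Pot_shift h0 h1
  have a1 : AnalyticAt ℂ (fun y : ℂ => ff (y + 1 / 2)) y :=
    AnalyticAt.fun_comp (g := ff) (f := fun y : ℂ => y + 1 / 2) (Pot_ff_an hs.1 hs.2)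
      (analyticAt_id.add analyticAt_const)
  have a2 : AnalyticAt ℂ (fun y : ℂ => (Real.pi : ℂ) * I * s * (y - y ^ 2 / 2 - 7 / 8)) y := by
    fun_prop
  exact a1.sub a2

/-- A line has derivative `U`. -/
theorem Pot_line (u U t : ℂ) : HasDerivAt (fun t : ℂ => u + t * U) U t := by
  simpa using ((hasDerivAt_id t).mul_const U).const_add u

theorem Pot_gdv_line {u U t : ℂ} (hu : |(u + t * U).im| < Real.pi / 2) :
    HasDerivAt (fun t : ℂ => gdv (u + t * U)) (dgv (u + t * U) * U) t := by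
  have h : HasDerivAt gdv (dgv (u + t * U)) (u + t * U) := gdv_hasDerivAt hu
  have h2 := HasDerivAt.comp (h₂ := gdv) (h := fun t : ℂ => u + t * U) t h (Pot_line u U t)
  exact h2

theorem Pot_cosh_ne {u : ℂ} (hu : |u.im| < Real.pi / 2) : cosh u ≠ 0 := by
  intro h0
  have h := cos_gdv hu
  have h2 := sin_gdv hu
  rw [h0, div_zero] at h h2
  have := Complex.sin_sq_add_cos_sq (Real.pi * gdv u)
  rw [h, h2] at this
  norm_num at this

theorem Pot_dgv_deriv {u : ℂ} (hu : |u.im| < Real.pi / 2) :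
    HasDerivAt dgv (-(sinh u / cosh u * dgv u)) u := by
  have hc := Pot_cosh_ne hu
  have hpi : (Real.pi : ℂ) ≠ 0 := by exact_mod_cast Real.pi_ne_zero
  have k1 : HasDerivAt (fun u : ℂ => (Real.pi : ℂ) * cosh u) (Real.pi * sinh u) u :=
    (Complex.hasDerivAt_cosh u).const_mul _
  have k2 := k1.inv (mul_ne_zero hpi hc)
  have e : dgv = (fun u : ℂ => (Real.pi : ℂ) * cosh u)⁻¹ := by
    funext u
    simp [dgv]
  rw [e]
  refine k2.congr_deriv ?_
  simp only [Pi.inv_apply]
  field_simp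

theorem Pot_dgv_line {u U t : ℂ} (hu : |(u + t * U).im| < Real.pi / 2) :
    HasDerivAt (fun t : ℂ => dgv (u + t * U) * U)
      (-(sinh (u + t * U) / cosh (u + t * U) * dgv (u + t * U) * U ^ 2)) t := by
  have := (HasDerivAt.comp t (Pot_dgv_deriv hu) (Pot_line u U t)).mul_const U
  refine this.congr_deriv ?_
  ring

/-- First derivative along a line, open slot. -/
theorem sP_line1 {y Y u U t : ℂ} (hu : |(u + t * U).im| < Real.pi / 2)
    (h : sdom (y + t * Y) (.op (gdv (u + t * U)))) :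
    HasDerivAt (fun t : ℂ => sP (y + t * Y) (.op (gdv (u + t * U))))
      (ey (y + t * Y) (.op (gdv (u + t * U))) * Y +
        ev (y + t * Y) (gdv (u + t * U)) * (dgv (u + t * U) * U)) t := by
  obtain ⟨h0, h1, h2, h3⟩ := h
  have hs := Pot_shift h0 h1
  have ly := Pot_line y Y t
  have lv := Pot_gdv_line hu
  have a1 := HasDerivAt.comp t (ff_hasDerivAt _ hs.1 hs.2) (ly.add_const (1 / 2))
  have a2 := HasDerivAt.comp t (fe_hasDerivAt h2) (ly.fun_sub lv)
  have a3 := HasDerivAt.comp t (fe_hasDerivAt h3) (ly.fun_add lv)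
  refine (((a1.const_mul 2).sub a2).sub a3).congr_deriv ?_
  simp only [ey, ev]
  ring

/-- Second derivative along a line, open slot. -/
theorem sP_line2 {y Y u U : ℂ} (hu : |u.im| < Real.pi / 2) (h : sdom y (.op (gdv u))) :
    HasDerivAt (fun t : ℂ => ey (y + t * Y) (.op (gdv (u + t * U))) * Y +
        ev (y + t * Y) (gdv (u + t * U)) * (dgv (u + t * U) * U))
      (eyy y (.op (gdv u)) * Y ^ 2 + 2 * eyv y (gdv u) * (dgv u * U) * Y +
        evv y (gdv u) * (dgv u * U) ^ 2 - ev y (gdv u) * (sinh u / cosh u * dgv u * U ^ 2)) 0 := by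
  have z1 : y + 0 * Y = y := by ring
  have z2 : u + 0 * U = u := by ring
  have hu' : |(u + 0 * U).im| < Real.pi / 2 := by rwa [z2]
  obtain ⟨h0, h1, h2, h3⟩ := h
  have hs := Pot_shift h0 h1
  have ly := Pot_line y Y 0
  have lv := Pot_gdv_line hu'
  have lw := Pot_dgv_line hu'
  have hs1 : 0 < (y + 0 * Y + 1 / 2).re := by rw [z1]; exact hs.1
  have hs2 : (y + 0 * Y + 1 / 2).re < 1 := by rw [z1]; exact hs.2
  have hf2 : fdom (y + 0 * Y - gdv (u + 0 * U)) := by rwa [z1, z2]
  have hf3 : fdom (y + 0 * Y + gdv (u + 0 * U)) := by rwa [z1, z2]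
  have a1 := HasDerivAt.comp (0 : ℂ) (Pot_hh_deriv hs1 hs2) (ly.add_const (1 / 2))
  have a2 := HasDerivAt.comp (0 : ℂ) (he_hasDerivAt hf2) (ly.fun_sub lv)
  have a3 := HasDerivAt.comp (0 : ℂ) (he_hasDerivAt hf3) (ly.fun_add lv)
  have b1 := (((a1.const_mul 2).sub a2).sub a3).mul_const Y
  have b2 := (a2.sub a3).mul lw
  refine (b1.add b2).congr_deriv ?_
  simp only [eyy, eyv, evv, ev, Function.comp_apply, z1, z2, Pi.sub_apply]
  ring

/-- First derivative along a line, closed slot. -/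
theorem sP_line1c {y Y t : ℂ} (s : ℤ) (h : sdom (y + t * Y) (.cl s)) :
    HasDerivAt (fun t : ℂ => sP (y + t * Y) (.cl s)) (ey (y + t * Y) (.cl s) * Y) t := by
  obtain ⟨h0, h1⟩ := h
  have hs := Pot_shift h0 h1
  have ly := Pot_line y Y t
  have a1 := HasDerivAt.comp t (ff_hasDerivAt _ hs.1 hs.2) (ly.add_const (1 / 2))
  have a2 := (((ly.sub ((ly.pow 2).div_const 2)).sub_const (7 / 8)).const_mul
    ((Real.pi : ℂ) * I * s))
  refine (a1.sub a2).congr_deriv ?_
  simp only [ey]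
  ring

/-- Second derivative along a line, closed slot. -/
theorem sP_line2c {y Y : ℂ} (s : ℤ) (h : sdom y (.cl s)) :
    HasDerivAt (fun t : ℂ => ey (y + t * Y) (.cl s) * Y) (eyy y (.cl s) * Y ^ 2) 0 := by
  have z1 : y + 0 * Y = y := by ring
  obtain ⟨h0, h1⟩ := h
  have hs := Pot_shift h0 h1
  have ly := Pot_line y Y 0
  have hs1 : 0 < (y + 0 * Y + 1 / 2).re := by rw [z1]; exact hs.1
  have hs2 : (y + 0 * Y + 1 / 2).re < 1 := by rw [z1]; exact hs.2
  have a1 := HasDerivAt.comp (0 : ℂ) (Pot_hh_deriv hs1 hs2) (ly.add_const (1 / 2))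
  have a2 := (ly.const_sub 1).const_mul ((Real.pi : ℂ) * I * s)
  refine ((a1.sub a2).mul_const Y).congr_deriv ?_
  simp only [eyy, z1]
  ring

/-- The vertex function along a line. -/
theorem wr_line1 {r : ℝ} {u U t : ℂ} (hu : |(u + t * U).im| < Real.pi / 2) :
    HasDerivAt (fun t : ℂ => wr r (gdv (u + t * U)))
      (2 * Real.pi * I * (2 * r * gdv (u + t * U) + 1) * (dgv (u + t * U) * U)) t := by
  have lv := Pot_gdv_line hu
  have a := (((lv.pow 2).const_mul (r : ℂ)).add lv).const_mul (2 * Real.pi * I : ℂ)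
  refine a.congr_deriv ?_
  push_cast
  ring

theorem wr_line2 {r : ℝ} {u U : ℂ} (hu : |u.im| < Real.pi / 2) :
    HasDerivAt (fun t : ℂ => 2 * Real.pi * I * (2 * r * gdv (u + t * U) + 1) *
        (dgv (u + t * U) * U))
      (4 * Real.pi * I * r * (dgv u * U) ^ 2 -
        2 * Real.pi * I * (2 * r * gdv u + 1) * (sinh u / cosh u * dgv u * U ^ 2)) 0 := by
  have z2 : u + 0 * U = u := by ring
  have hu' : |(u + 0 * U).im| < Real.pi / 2 := by rwa [z2]
  have lv := Pot_gdv_line hu'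
  have lw := Pot_dgv_line hu'
  have a := (((lv.const_mul (2 * r : ℂ)).add_const 1).const_mul (2 * Real.pi * I : ℂ)).mul lw
  refine a.congr_deriv ?_
  simp only [z2]
  ring

end Pool.Agent.S3
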