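import Pool.Agent.H63.VC3.LLasym
import Pool.Agent.S3.Gr3
import Pool.Agent.S3.Pot

/-!
# Growth: local limits
-/

set_option autoImplicit false

namespace Pool.Agent.S3

open Pool.Agent.H63.VC hiding ext
open Pool.Agent.H63.VC3 Pool.Agent.H63.VC7 Complex MeasureTheory Filter Topology Set
open Pool.Agent.H25.RK

theorem he_re {z : ℂ} (h : fdom z) : (he z).re = Real.log ‖2 * sin (Real.pi * z)‖ := by
  rw [← exp_he h, norm_exp, Real.log_exp]

/-- `Rf` is the real part of `fe`. -/
theorem Rf_eq_fe {z : ℂ} (h : fdom z) : Rf z = (fe z).re := by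
  by_cases hs : 0 < z.re ∧ z.re < 1
  · rw [fe_eq_ff hs.1 hs.2, Rf_eq_ff hs.1 hs.2]
  · have him : z.im ≠ 0 := h.resolve_right hs
    have hd : ∀ t : ℝ, HasDerivAt (fun t : ℝ => (fe (t + z.im * I)).re) (Lg z.im t) t := by
      intro t
      have hf : fdom ((t : ℂ) + z.im * I) := by
        left
        simpa using him
      have h1 := fe_hasDerivAt hf
      have h2 : HasDerivAt (fun t : ℂ => t + z.im * I) 1 (t : ℂ) :=
        (hasDerivAt_id _).add_const _
      have h3 := (HasDerivAt.comp (t : ℂ) h1 h2).real_of_complex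
      have e : (he ((t : ℂ) + z.im * I) * 1).re = Lg z.im t := by
        rw [mul_one, he_re hf]
        rfl
      rw [e] at h3
      exact h3
    have h4 := intervalIntegral.integral_eq_sub_of_hasDerivAt (a := 1 / 2) (b := z.re)
      (fun t _ => hd t) (Lg_integrable _ _ _)
    rw [Rf_eq, h4, re_add_im]
    have h5 : (fe (((1 / 2 : ℝ) : ℂ) + z.im * I)).re = 0 := by
      have e1 : (((1 / 2 : ℝ) : ℂ) + z.im * I).re = 1 / 2 := by simp
      rw [fe_eq_ff (by rw [e1]; norm_num) (by rw [e1]; norm_num),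
        ← Rf_eq_ff (by rw [e1]; norm_num) (by rw [e1]; norm_num), Rf_half]
    rw [h5, sub_zero]

/-- The normalized interpolation. -/
noncomputable def hS (M : ℕ) (z : ℂ) : ℂ :=
  rS M (M * z - 1 / 2) * (√(M : ℝ) : ℝ) * exp (M * fe z)

theorem hS_bound {M : ℕ} (hM : 1 ≤ M) {z : ℂ} (h : fdom z) (hre : |z.re| ≤ 1) :
    ‖hS M z‖ ≤ 16 := by
  have hM0 : (0 : ℝ) < M := by exact_mod_cast hM
  have hMc : (M : ℂ) ≠ 0 := by exact_mod_cast hM0.ne'
  have hsq : 0 < √(M : ℝ) := Real.sqrt_pos.mpr hM0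
  rw [abs_le] at hre
  have e1 : ((M : ℂ) * z - 1 / 2).re = M * z.re - 1 / 2 := by
    rw [sub_re, ← ofReal_natCast, re_ofReal_mul]
    norm_num
  have h1 := rS_bound hM (z := M * z - 1 / 2) (by rw [e1]; nlinarith) (by rw [e1]; nlinarith)
  have e2 : ((M : ℂ) * z - 1 / 2 + 1 / 2) / M = z := by
    rw [sub_add_cancel]
    field_simp
  rw [e2, Rf_eq_fe h] at h1
  unfold hS
  have e3 : ((M : ℂ) * fe z).re = M * (fe z).re := by
    rw [← ofReal_natCast, re_ofReal_mul]
  rw [norm_mul, norm_mul, norm_exp, e3, norm_real, Real.norm_eq_abs, abs_of_pos hsq]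
  calc ‖rS M (M * z - 1 / 2)‖ * √M * Real.exp (M * (fe z).re)
      ≤ (16 / √M * Real.exp (-(M * (fe z).re))) * √M * Real.exp (M * (fe z).re) := by gcongr
    _ = 16 * (Real.exp (-(M * (fe z).re)) * Real.exp (M * (fe z).re)) := by
        field_simp
    _ = 16 := by
        rw [← Real.exp_add, neg_add_cancel, Real.exp_zero, mul_one]

theorem hS_differentiableAt {M : ℕ} (hM : 0 < M) {z : ℂ} (h : fdom z) (hre : |z.re| ≤ 1) :
    DifferentiableAt ℂ (hS M) z := by
  have hM0 : (0 : ℝ) < M := by exact_mod_cast hM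
  rw [abs_le] at hre
  have e1 : ((M : ℂ) * z - 1 / 2).re = M * z.re - 1 / 2 := by
    rw [sub_re, ← ofReal_natCast, re_ofReal_mul]
    norm_num
  have d1 := rS_differentiableAt hM (z := M * z - 1 / 2) (by rw [e1]; nlinarith)
    (by rw [e1]; nlinarith)
  have g1 : DifferentiableAt ℂ (fun z : ℂ => (M : ℂ) * z - 1 / 2) z := by fun_prop
  have d2 : DifferentiableAt ℂ (fun z : ℂ => rS M (M * z - 1 / 2)) z :=
    DifferentiableAt.comp (f := fun z : ℂ => (M : ℂ) * z - 1 / 2) (g := rS M) z d1 g1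
  exact (d2.mul_const _).mul ((fe_hasDerivAt h).differentiableAt.const_mul _).cexp

theorem sqrt_eq_exp {M : ℕ} (hM : 1 ≤ M) :
    ((√(M : ℝ) : ℝ) : ℂ) = exp ((Real.log M : ℂ) / 2) := by
  rw [← sqrt_exp_log hM]
  push_cast
  rfl

/-- The limit in the strip. -/
theorem hS_right {z0 : ℂ} (h0 : 0 < z0.re) (h1 : z0.re < 1) :
    Tendsto (fun p : ℕ × ℂ => hS p.1 p.2) (atTop ×ˢ 𝓝 z0) (𝓝 1) := by
  obtain ⟨c, hc, hc0, hc1⟩ : ∃ c : ℝ, 0 < c ∧ c < z0.re ∧ z0.re < 1 - c := by
    refine ⟨min z0.re (1 - z0.re) / 2, ?_, ?_, ?_⟩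
    · have : 0 < min z0.re (1 - z0.re) := lt_min h0 (by linarith)
      linarith
    · have := min_le_left z0.re (1 - z0.re)
      linarith
    · have := min_le_right z0.re (1 - z0.re)
      linarith
  obtain ⟨C, hC, hL⟩ := LL_asym c (|z0.im| + 1) hc
  have hev : ∀ᶠ p : ℕ × ℂ in atTop ×ˢ 𝓝 z0, 1 ≤ p.1 ∧ c ≤ p.2.re ∧ p.2.re ≤ 1 - c ∧
      |p.2.im| ≤ |z0.im| + 1 := by
    have e1 : ∀ᶠ z : ℂ in 𝓝 z0, c ≤ z.re ∧ z.re ≤ 1 - c ∧ |z.im| ≤ |z0.im| + 1 := by
      have f1 := continuous_re.continuousAt.eventually (Ioi_mem_nhds hc0)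
      have f2 := continuous_re.continuousAt.eventually (Iio_mem_nhds hc1)
      have f3 : ∀ᶠ z : ℂ in 𝓝 z0, |z.im| < |z0.im| + 1 :=
        (continuous_im.abs.continuousAt (x := z0)).eventually
          (Iio_mem_nhds (show |z0.im| < |z0.im| + 1 by linarith))
      filter_upwards [f1, f2, f3] with z g1 g2 g3
      exact ⟨le_of_lt g1, le_of_lt g2, g3.le⟩
    exact (eventually_ge_atTop 1).prod_mk e1
  set E : ℕ × ℂ → ℂ := fun p => LL p.1 (p.1 * p.2 - 1 / 2) - Real.log p.1 / 2 - p.1 * ff p.2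
    with hE
  have hE0 : Tendsto E (atTop ×ˢ 𝓝 z0) (𝓝 0) := by
    have t1 : Tendsto (fun p : ℕ × ℂ => C / (p.1 : ℝ)) (atTop ×ˢ 𝓝 z0) (𝓝 0) :=
      (tendsto_const_div_atTop_nhds_zero_nat C).comp tendsto_fst
    refine squeeze_zero_norm' ?_ t1
    filter_upwards [hev] with p hp
    exact hL p.1 hp.1 p.2 hp.2.1 hp.2.2.1 hp.2.2.2
  have hlim : Tendsto (fun p => exp (-E p)) (atTop ×ˢ 𝓝 z0) (𝓝 1) := by
    have := (continuous_exp.tendsto (-0)).comp hE0.neg
    rwa [neg_zero, exp_zero] at this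
  refine hlim.congr' ?_
  filter_upwards [hev] with p hp
  obtain ⟨hp1, hp2, hp3, hp4⟩ := hp
  unfold hS rS
  have hM0 : (0 : ℝ) < p.1 := by exact_mod_cast hp1
  have e1 : ((p.1 : ℂ) * p.2 - 1 / 2).re = p.1 * p.2.re - 1 / 2 := by
    rw [sub_re, ← ofReal_natCast, re_ofReal_mul]
    norm_num
  rw [if_pos (by rw [e1]; nlinarith), fe_eq_ff (by linarith) (by linarith), sqrt_eq_exp hp1,
    ← exp_add, ← exp_add]
  congr 1
  rw [hE]
  ring

/-- The functional equation of `fe`. -/
theorem fe_up {z : ℂ} (h : 0 < z.im) : fe z = fe (z + 1) + Real.pi * I * z := by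
  have h' : 0 < (z + 1).im := by simpa using h
  unfold fe
  rw [if_pos h, if_pos h']
  have e : exp (2 * Real.pi * I * (z + 1)) = exp (2 * Real.pi * I * z) := by
    rw [mul_add, mul_one, exp_add, exp_two_pi_mul_I, mul_one]
  rw [e]
  have := Pot_pi2I
  have hpi : (Real.pi : ℂ) ≠ 0 := by exact_mod_cast Real.pi_ne_zero
  have hI := I_ne_zero
  field_simp
  linear_combination (-12 * (Real.pi : ℂ) ^ 2 * z) * I_sq

theorem fe_down {z : ℂ} (h : z.im < 0) : fe z = fe (z + 1) - Real.pi * I * z := by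
  have h' : (z + 1).im < 0 := by simpa using h
  unfold fe
  rw [if_neg (not_lt.mpr h.le), if_pos h, if_neg (not_lt.mpr h'.le), if_pos h']
  have e : exp (-(2 * Real.pi * I * (z + 1))) = exp (-(2 * Real.pi * I * z)) := by
    rw [show -(2 * Real.pi * I * (z + 1) : ℂ) = -(2 * Real.pi * I * z) + -(2 * Real.pi * I) by ring,
      exp_add, exp_neg (2 * Real.pi * I : ℂ), exp_two_pi_mul_I, inv_one, mul_one]
  rw [e]
  have := Pot_pi2I
  have hpi : (Real.pi : ℂ) ≠ 0 := by exact_mod_cast Real.pi_ne_zero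
  have hI := I_ne_zero
  field_simp
  linear_combination (12 * (Real.pi : ℂ) ^ 2 * z) * I_sq

/-- The limit to the left of the strip. -/
theorem hS_left {z : ℂ} (h0 : -1 < z.re) (h1 : z.re < 0) (hi : z.im ≠ 0) :
    Tendsto (fun M : ℕ => hS M z) atTop (𝓝 1) := by
  have hz1 : 0 < (z + 1).re := by
    rw [add_re, one_re]
    linarith
  have hz2 : (z + 1).re < 1 := by
    rw [add_re, one_re]
    linarith
  have hc : Tendsto (fun M : ℕ => ((M, z + 1) : ℕ × ℂ)) atTop (atTop ×ˢ 𝓝 (z + 1)) :=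
    tendsto_id.prodMk tendsto_const_nhds
  have hR := (hS_right hz1 hz2).comp hc
  -- the trigonometric factor
  have hpi := Real.pi_pos
  have key : ∀ s : ℤ, (s = 1 ∨ s = -1) → 0 < s * z.im →
      fe z = fe (z + 1) + s * (Real.pi * I * z) →
      Tendsto (fun M : ℕ => hS M z) atTop (𝓝 1) := by
    intro s hs hsz hfe
    have hs2 : (s : ℂ) ^ 2 = 1 := by
      rcases hs with rfl | rfl <;> norm_num
    have t1 : Tendsto (fun M : ℕ => exp (2 * (s * (Real.pi * I * (M * z))))) atTop (𝓝 0) := by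
      rw [tendsto_zero_iff_norm_tendsto_zero]
      have e : ∀ M : ℕ, ‖exp (2 * (s * (Real.pi * I * (M * z))))‖ =
          Real.exp (-(2 * Real.pi * (s * z.im))) ^ M := by
        intro M
        rw [norm_exp, ← Real.exp_nat_mul]
        congr 1
        have : 2 * ((s : ℂ) * (Real.pi * I * (M * z))) =
            ((2 * s * Real.pi * M : ℝ) : ℂ) * (I * z) := by
          push_cast
          ring
        rw [this, re_ofReal_mul, I_mul_re]
        ring
      simp only [e]
      apply tendsto_pow_atTop_nhds_zero_of_lt_one (Real.exp_pos _).le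
      rw [Real.exp_lt_one_iff]
      nlinarith
    have t2 := (t1.const_add 1).mul hR
    rw [add_zero, mul_one] at t2
    refine t2.congr' ?_
    filter_upwards [eventually_ge_atTop 1] with M hM
    have hM0 : (0 : ℝ) < M := by exact_mod_cast hM
    have e1 : ((M : ℂ) * z - 1 / 2).re = M * z.re - 1 / 2 := by
      rw [sub_re, ← ofReal_natCast, re_ofReal_mul]
      norm_num
    have e2 : ((M : ℂ) * (z + 1) - 1 / 2).re = M * (z.re + 1) - 1 / 2 := by
      rw [sub_re, ← ofReal_natCast, re_ofReal_mul]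
      norm_num
    simp only [Function.comp_apply]
    unfold hS rS
    rw [if_pos (by rw [e2]; nlinarith), if_neg (by rw [e1]; nlinarith), hfe]
    have e3 : (M : ℂ) * z - 1 / 2 + M = M * (z + 1) - 1 / 2 := by ring
    have e4 : sin (Real.pi * (M * z - 1 / 2)) = -cos (Real.pi * (M * z)) := by
      rw [show (Real.pi : ℂ) * (M * z - 1 / 2) = Real.pi * (M * z) - Real.pi / 2 by ring,
        sin_sub_pi_div_two]
    have e5 : exp (M * (fe (z + 1) + s * (Real.pi * I * z))) =
        exp (M * fe (z + 1)) * exp (s * (Real.pi * I * (M * z))) := by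
      rw [← exp_add]
      congr 1
      ring
    have e6 : 2 * cos (Real.pi * (M * z)) * exp (s * (Real.pi * I * (M * z))) =
        1 + exp (2 * (s * (Real.pi * I * (M * z)))) := by
      rcases hs with rfl | rfl
      · rw [cos]
        have a1 : exp (Real.pi * (M * z) * I) * exp (((1 : ℤ) : ℂ) * (Real.pi * I * (M * z))) =
            exp (2 * (((1 : ℤ) : ℂ) * (Real.pi * I * (M * z)))) := by
          rw [← exp_add]
          congr 1
          push_cast
          ring
        have a2 : exp (-(Real.pi * (M * z)) * I) * exp (((1 : ℤ) : ℂ) * (Real.pi * I * (M * z))) =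
            1 := by
          rw [← exp_add, ← exp_zero]
          congr 1
          push_cast
          ring
        linear_combination a1 + a2
      · rw [cos]
        have a1 : exp (Real.pi * (M * z) * I) * exp (((-1 : ℤ) : ℂ) * (Real.pi * I * (M * z))) =
            1 := by
          rw [← exp_add, ← exp_zero]
          congr 1
          push_cast
          ring
        have a2 : exp (-(Real.pi * (M * z)) * I) * exp (((-1 : ℤ) : ℂ) * (Real.pi * I * (M * z))) =
            exp (2 * (((-1 : ℤ) : ℂ) * (Real.pi * I * (M * z)))) := by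
          rw [← exp_add]
          congr 1
          push_cast
          ring
        linear_combination a1 + a2
    rw [e3, e4, e5, ← e6]
    ring
  rcases lt_or_gt_of_ne hi with h | h
  · refine key (-1) (Or.inr rfl) (by push_cast; linarith) ?_
    rw [fe_down h]
    push_cast
    ring
  · refine key 1 (Or.inl rfl) (by push_cast; linarith) ?_
    rw [fe_up h]
    push_cast
    ring

/-- The pointwise limit. -/
theorem hS_pt {z : ℂ} (h : fdom z) (hre : |z.re| < 1) (h0 : z.re ≠ 0) :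
    Tendsto (fun M : ℕ => hS M z) atTop (𝓝 1) := by
  rw [abs_lt] at hre
  rcases lt_or_gt_of_ne h0 with h1 | h1
  · refine hS_left hre.1 h1 (h.resolve_right fun h2 => ?_)
    linarith [h2.1]
  · have hc : Tendsto (fun M : ℕ => ((M, z) : ℕ × ℂ)) atTop (atTop ×ˢ 𝓝 z) :=
      tendsto_id.prodMk tendsto_const_nhds
    have h2 := (hS_right h1 hre.2).comp hc
    simpa only [Function.comp_def] using h2

theorem countable_cos_eq (c : ℝ) : {θ : ℝ | Real.cos θ = c}.Countable := by
  rcases Set.eq_empty_or_nonempty {θ : ℝ | Real.cos θ = c} with h | ⟨θ0, h0⟩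
  · rw [h]
    exact countable_empty
  · have hsub : {θ : ℝ | Real.cos θ = c} ⊆ Set.range (fun k : ℤ => 2 * k * Real.pi + θ0) ∪
        Set.range (fun k : ℤ => 2 * k * Real.pi - θ0) := by
      intro θ hθ
      have h1 : Real.cos θ0 = Real.cos θ := h0.trans hθ.symm
      obtain ⟨k, hk | hk⟩ := Real.cos_eq_cos_iff.mp h1
      · left
        exact ⟨k, hk.symm⟩
      · right
        exact ⟨k, hk.symm⟩
    exact ((countable_range _).union (countable_range _)).mono hsub

/-- The limit off the real axis. -/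
theorem hS_off {z0 : ℂ} (hi : z0.im ≠ 0) (hre : |z0.re| < 1) :
    Tendsto (fun p : ℕ × ℂ => hS p.1 p.2) (atTop ×ˢ 𝓝 z0) (𝓝 1) := by
  -- a disc in the domain
  have hopen : IsOpen {z : ℂ | z.im ≠ 0 ∧ |z.re| < 1} :=
    (isOpen_ne.preimage continuous_im).inter (isOpen_lt continuous_re.abs continuous_const)
  obtain ⟨ε, hε, hball⟩ := Metric.isOpen_iff.mp hopen z0 ⟨hi, hre⟩
  set ρ : ℝ := ε / 2 with hρ
  have hρ0 : 0 < ρ := by positivity
  have hdom : ∀ z ∈ Metric.closedBall z0 ρ, z.im ≠ 0 ∧ |z.re| < 1 := fun z hz =>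
    hball (Metric.closedBall_subset_ball (by rw [hρ]; linarith) hz)
  set F : ℕ × ℂ → ℝ → ℂ := fun p θ => deriv (circleMap z0 ρ) θ •
    ((circleMap z0 ρ θ - p.2)⁻¹ • (hS p.1 (circleMap z0 ρ θ) - 1)) with hF
  have hcm : ∀ θ, circleMap z0 ρ θ ∈ Metric.closedBall z0 ρ := fun θ =>
    circleMap_mem_closedBall z0 hρ0.le θ
  have hsph : ∀ θ, ‖circleMap z0 ρ θ - z0‖ = ρ := fun θ => by
    have := circleMap_mem_sphere z0 hρ0.le θ
    rwa [mem_sphere_iff_norm] at this
  have hev : ∀ᶠ p : ℕ × ℂ in atTop ×ˢ 𝓝 z0, 1 ≤ p.1 ∧ ‖p.2 - z0‖ < ρ / 2 := by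
    have e1 : ∀ᶠ z : ℂ in 𝓝 z0, ‖z - z0‖ < ρ / 2 := by
      filter_upwards [Metric.ball_mem_nhds z0 (half_pos hρ0)] with z hz
      rwa [mem_ball_iff_norm] at hz
    exact (eventually_ge_atTop 1).prod_mk e1
  have hdist : ∀ (z : ℂ) (θ : ℝ), ‖z - z0‖ < ρ / 2 → ρ / 2 ≤ ‖circleMap z0 ρ θ - z‖ := by
    intro z θ hz
    have h1 := hsph θ
    have h2 := norm_sub_le (circleMap z0 ρ θ - z) (z0 - z)
    have h3 : circleMap z0 ρ θ - z - (z0 - z) = circleMap z0 ρ θ - z0 := by ring
    have h4 : ‖z0 - z‖ = ‖z - z0‖ := norm_sub_rev _ _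
    rw [h3, h1, h4] at h2
    linarith
  have hdiff : ∀ M : ℕ, 1 ≤ M → ∀ z ∈ Metric.closedBall z0 ρ, DifferentiableAt ℂ (hS M) z :=
    fun M hM z hz => hS_differentiableAt (by omega) (Or.inl (hdom z hz).1) (hdom z hz).2.le
  -- the integrals tend to zero
  have hlim : Tendsto (fun p => ∫ θ in (0 : ℝ)..2 * Real.pi, F p θ) (atTop ×ˢ 𝓝 z0)
      (𝓝 (∫ _θ in (0 : ℝ)..2 * Real.pi, (0 : ℂ))) := by
    apply intervalIntegral.tendsto_integral_filter_of_dominated_convergence (fun _ => 34)
    · filter_upwards [hev] with p hp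
      apply Continuous.aestronglyMeasurable
      have c1 : Continuous fun θ => deriv (circleMap z0 ρ) θ := by
        simp only [deriv_circleMap]
        fun_prop
      have c2 : Continuous fun θ => (circleMap z0 ρ θ - p.2)⁻¹ := by
        apply Continuous.inv₀
        · fun_prop
        · intro θ h0
          have := hdist p.2 θ hp.2
          rw [h0, norm_zero] at this
          linarith
      have c3 : Continuous fun θ => hS p.1 (circleMap z0 ρ θ) := by
        rw [continuous_iff_continuousAt]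
        intro θ
        exact ContinuousAt.comp (f := circleMap z0 ρ) (g := hS p.1)
          (hdiff p.1 hp.1 _ (hcm θ)).continuousAt (continuous_circleMap z0 ρ).continuousAt
      exact c1.smul (c2.smul (c3.sub continuous_const))
    · filter_upwards [hev] with p hp
      refine Eventually.of_forall fun θ _ => ?_
      rw [hF]
      simp only
      rw [norm_smul, norm_smul, norm_inv, deriv_circleMap, norm_mul, norm_I, mul_one]
      have h1 : ‖circleMap 0 ρ θ‖ = ρ := by
        rw [norm_circleMap_zero, abs_of_pos hρ0]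
      have h2 := hdist p.2 θ hp.2
      have h3 : ‖hS p.1 (circleMap z0 ρ θ) - 1‖ ≤ 17 := by
        have h4 := hS_bound hp.1 (Or.inl (hdom _ (hcm θ)).1) (hdom _ (hcm θ)).2.le
        have h5 := norm_sub_le (hS p.1 (circleMap z0 ρ θ)) 1
        rw [norm_one] at h5
        linarith
      rw [h1]
      have h6 : ‖circleMap z0 ρ θ - p.2‖⁻¹ ≤ (ρ / 2)⁻¹ := by
        gcongr
      calc ρ * (‖circleMap z0 ρ θ - p.2‖⁻¹ * ‖hS p.1 (circleMap z0 ρ θ) - 1‖)
          ≤ ρ * ((ρ / 2)⁻¹ * 17) := by gcongr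
        _ = 34 := by
            field_simp
            norm_num
    · simp
    · have hnull : ∀ᵐ θ : ℝ, Real.cos θ ≠ -z0.re / ρ := by
        have := (countable_cos_eq (-z0.re / ρ)).ae_notMem volume
        filter_upwards [this] with θ hθ using hθ
      filter_upwards [hnull] with θ hθ _
      have hre' : (circleMap z0 ρ θ).re ≠ 0 := by
        intro h0
        apply hθ
        have e : (circleMap z0 ρ θ).re = z0.re + ρ * Real.cos θ := by
          unfold circleMap
          rw [add_re, re_ofReal_mul, exp_ofReal_mul_I_re]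
        rw [e] at h0
        field_simp
        linarith
      have h1 : Tendsto (fun p : ℕ × ℂ => hS p.1 (circleMap z0 ρ θ) - 1) (atTop ×ˢ 𝓝 z0)
          (𝓝 0) := by
        have := ((hS_pt (Or.inl (hdom _ (hcm θ)).1) (hdom _ (hcm θ)).2 hre').comp
          (tendsto_fst (f := (atTop : Filter ℕ)) (g := 𝓝 z0))).sub_const 1
        rwa [sub_self] at this
      have h2 : Tendsto (fun p : ℕ × ℂ => (circleMap z0 ρ θ - p.2)⁻¹) (atTop ×ˢ 𝓝 z0)
          (𝓝 (circleMap z0 ρ θ - z0)⁻¹) := by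
        apply Tendsto.inv₀
        · exact tendsto_const_nhds.sub tendsto_snd
        · intro h0
          have := hsph θ
          rw [h0, norm_zero] at this
          linarith
      have h3 := (h2.smul h1).const_smul (deriv (circleMap z0 ρ) θ)
      rw [smul_zero, smul_zero] at h3
      exact h3
  rw [intervalIntegral.integral_zero] at hlim
  have hlim2 := ((hlim.const_smul (2 * Real.pi * I : ℂ)⁻¹)).add_const 1
  rw [smul_zero, zero_add] at hlim2
  refine hlim2.congr' ?_
  filter_upwards [hev] with p hp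
  have hd : DiffContOnCl ℂ (fun z => hS p.1 z - 1) (Metric.ball z0 ρ) := by
    apply DifferentiableOn.diffContOnCl
    intro z hz
    rw [closure_ball z0 hρ0.ne'] at hz
    exact ((hdiff p.1 hp.1 z hz).sub_const 1).differentiableWithinAt
  have hw : p.2 ∈ Metric.ball z0 ρ := by
    rw [mem_ball_iff_norm]
    linarith [hp.2]
  have h1 := hd.two_pi_i_inv_smul_circleIntegral_sub_inv_smul hw
  have h2 : (∫ θ in (0 : ℝ)..2 * Real.pi, F p θ) =
      ∮ z in C(z0, ρ), (z - p.2)⁻¹ • (hS p.1 z - 1) := rfl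
  rw [h2, h1]
  ring

/-- The local limit of `rS`. -/
theorem hS_lim {z0 : ℂ} (h : fdom z0) (hre : |z0.re| < 1) :
    Tendsto (fun p : ℕ × ℂ => hS p.1 p.2) (atTop ×ˢ 𝓝 z0) (𝓝 1) := by
  rcases h with h | h
  · exact hS_off h hre
  · exact hS_right h.1 h.2

end Pool.Agent.S3
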