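import Pool.Agent.H63.GO.Defs
import Pool.Agent.S3.Gr3b
import Pool.Agent.S3.Gr4
import Pool.Agent.S3.Gr5

/-!
# Growth: the local limits of the kernels
-/

set_option autoImplicit false

namespace Pool.Agent.S3

open Pool.Agent.H63.VC hiding ext
open Pool.Agent.H63.VC3 Pool.Agent.H63.VC7 Complex MeasureTheory Filter Topology Set
open Pool.Agent.H25.RK Pool.Agent.H63.GO

/-! ### The weight -/

/-- The normalized weight. -/
noncomputable def wS (M : ℕ) (y : ℂ) : ℂ :=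
  exp (LL M (M * (y + 1 / 2) - 1) - M * ff (y + 1 / 2)) / (√(M : ℝ) : ℝ)

theorem ff_strict {z : ℂ} (h0 : 0 < z.re) (h1 : z.re < 1) : HasStrictDerivAt ff (hh z) z := by
  have h := (Pot_ff_an h0 h1).hasStrictDerivAt
  rwa [(ff_hasDerivAt z h0 h1).deriv] at h

/-- The half step. -/
theorem ff_half_step {z0 : ℂ} (h0 : 0 < z0.re) (h1 : z0.re < 1) :
    Tendsto (fun p : ℕ × ℂ => p.1 * (ff (p.2 - 1 / (2 * p.1)) - ff p.2)) (atTop ×ˢ 𝓝 z0)
      (𝓝 (-hh z0 / 2)) := by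
  have hs := (ff_strict h0 h1).isLittleO
  have ht : Tendsto (fun p : ℕ × ℂ => (1 / (2 * p.1) : ℂ)) (atTop ×ˢ 𝓝 z0) (𝓝 0) := by
    have h2 : Tendsto (fun n : ℕ => (1 / (2 * n) : ℂ)) atTop (𝓝 0) := by
      have := (tendsto_const_div_atTop_nhds_zero_nat (1 / 2 : ℂ))
      refine this.congr fun n => ?_
      rw [div_div]
    exact h2.comp tendsto_fst
  have hq : Tendsto (fun p : ℕ × ℂ => (p.2 - 1 / (2 * p.1), p.2)) (atTop ×ˢ 𝓝 z0)
      (𝓝 (z0, z0)) := by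
    have h2 : Tendsto (fun p : ℕ × ℂ => p.2 - 1 / (2 * p.1)) (atTop ×ˢ 𝓝 z0) (𝓝 (z0 - 0)) :=
      tendsto_snd.sub ht
    rw [sub_zero] at h2
    exact h2.prodMk_nhds tendsto_snd
  have h3 := hs.comp_tendsto hq
  have h4 : (fun p : ℕ × ℂ => p.1 * (ff (p.2 - 1 / (2 * p.1)) - ff p.2) + hh z0 / 2)
      =o[atTop ×ˢ 𝓝 z0] (fun _ => (1 : ℂ)) := by
    have h5 : (fun p : ℕ × ℂ => (p.1 : ℂ) * (ff (p.2 - 1 / (2 * p.1)) - ff p.2 -
        (p.2 - 1 / (2 * p.1) - p.2) • hh z0)) =o[atTop ×ˢ 𝓝 z0]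
        (fun p : ℕ × ℂ => (p.1 : ℂ) * (p.2 - 1 / (2 * p.1) - p.2)) :=
      (Asymptotics.isBigO_refl _ _).mul_isLittleO h3
    have h6 : (fun p : ℕ × ℂ => (p.1 : ℂ) * (p.2 - 1 / (2 * p.1) - p.2)) =O[atTop ×ˢ 𝓝 z0]
        (fun _ => (1 : ℂ)) := by
      apply Asymptotics.IsBigO.of_bound 1
      filter_upwards [(eventually_ge_atTop 1).prod_inl (𝓝 z0)] with p hp
      have hM : (p.1 : ℂ) ≠ 0 := by
        have : (0 : ℝ) < p.1 := by exact_mod_cast hp
        exact_mod_cast this.ne'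
      have e : (p.1 : ℂ) * (p.2 - 1 / (2 * p.1) - p.2) = -(1 / 2) := by
        field_simp
        ring
      rw [e, norm_one, norm_neg]
      norm_num
    refine (h5.trans_isBigO h6).congr' ?_ EventuallyEq.rfl
    filter_upwards [(eventually_ge_atTop 1).prod_inl (𝓝 z0)] with p hp
    have hM : (p.1 : ℂ) ≠ 0 := by
      have : (0 : ℝ) < p.1 := by exact_mod_cast hp
      exact_mod_cast this.ne'
    rw [smul_eq_mul]
    field_simp
    ring
  have h5 := (Asymptotics.isLittleO_one_iff ℂ).mp h4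
  have h6 := h5.sub_const (hh z0 / 2)
  rw [zero_sub, ← neg_div] at h6
  refine h6.congr fun p => ?_
  ring

theorem wS_lim {y0 : ℂ} (h0 : -1 / 2 < y0.re) (h1 : y0.re < 1 / 2) :
    Tendsto (fun p : ℕ × ℂ => wS p.1 p.2) (atTop ×ˢ 𝓝 y0) (𝓝 (exp (-hh (y0 + 1 / 2) / 2))) := by
  set z0 : ℂ := y0 + 1 / 2 with hz0
  have er : z0.re = y0.re + 1 / 2 := by rw [hz0, add_re]; norm_num
  have h0' : 0 < z0.re := by rw [er]; linarith
  have h1' : z0.re < 1 := by rw [er]; linarith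
  obtain ⟨c, hc, hc0, hc1⟩ : ∃ c : ℝ, 0 < c ∧ c < z0.re ∧ z0.re < 1 - c := by
    refine ⟨min z0.re (1 - z0.re) / 2, ?_, ?_, ?_⟩
    · have : 0 < min z0.re (1 - z0.re) := lt_min h0' (by linarith)
      linarith
    · have := min_le_left z0.re (1 - z0.re)
      linarith
    · have := min_le_right z0.re (1 - z0.re)
      linarith
  obtain ⟨C, hC, hL⟩ := LL_asym c (|z0.im| + 1) hc
  have ht : Tendsto (fun p : ℕ × ℂ => (1 / (2 * p.1) : ℂ)) (atTop ×ˢ 𝓝 y0) (𝓝 0) := by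
    have h2 : Tendsto (fun n : ℕ => (1 / (2 * n) : ℂ)) atTop (𝓝 0) := by
      have := (tendsto_const_div_atTop_nhds_zero_nat (1 / 2 : ℂ))
      refine this.congr fun n => ?_
      rw [div_div]
    exact h2.comp tendsto_fst
  have hz : Tendsto (fun p : ℕ × ℂ => p.2 + 1 / 2 - 1 / (2 * p.1)) (atTop ×ˢ 𝓝 y0) (𝓝 z0) := by
    have h2 : Tendsto (fun p : ℕ × ℂ => p.2 + 1 / 2 - 1 / (2 * p.1)) (atTop ×ˢ 𝓝 y0)
        (𝓝 (y0 + 1 / 2 - 0)) := (tendsto_snd.add_const _).sub ht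
    rwa [sub_zero] at h2
  have hev : ∀ᶠ p : ℕ × ℂ in atTop ×ˢ 𝓝 y0, 1 ≤ p.1 ∧ c ≤ (p.2 + 1 / 2 - 1 / (2 * p.1)).re ∧
      (p.2 + 1 / 2 - 1 / (2 * p.1)).re ≤ 1 - c ∧
      |(p.2 + 1 / 2 - 1 / (2 * p.1)).im| ≤ |z0.im| + 1 := by
    have e1 : ∀ᶠ z : ℂ in 𝓝 z0, c ≤ z.re ∧ z.re ≤ 1 - c ∧ |z.im| ≤ |z0.im| + 1 := by
      have f1 := continuous_re.continuousAt.eventually (Ioi_mem_nhds hc0)
      have f2 := continuous_re.continuousAt.eventually (Iio_mem_nhds hc1)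
      have f3 : ∀ᶠ z : ℂ in 𝓝 z0, |z.im| < |z0.im| + 1 :=
        (continuous_im.abs.continuousAt (x := z0)).eventually
          (Iio_mem_nhds (show |z0.im| < |z0.im| + 1 by linarith))
      filter_upwards [f1, f2, f3] with z g1 g2 g3
      exact ⟨le_of_lt g1, le_of_lt g2, g3.le⟩
    exact ((eventually_ge_atTop 1).prod_inl _).and (hz.eventually e1)
  set E : ℕ × ℂ → ℂ := fun p => LL p.1 (p.1 * (p.2 + 1 / 2 - 1 / (2 * p.1)) - 1 / 2) -
    Real.log p.1 / 2 - p.1 * ff (p.2 + 1 / 2 - 1 / (2 * p.1)) with hE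
  have hE0 : Tendsto E (atTop ×ˢ 𝓝 y0) (𝓝 0) := by
    have t1 : Tendsto (fun p : ℕ × ℂ => C / (p.1 : ℝ)) (atTop ×ˢ 𝓝 y0) (𝓝 0) :=
      (tendsto_const_div_atTop_nhds_zero_nat C).comp tendsto_fst
    refine squeeze_zero_norm' ?_ t1
    filter_upwards [hev] with p hp
    exact hL p.1 hp.1 _ hp.2.1 hp.2.2.1 hp.2.2.2
  have hstep : Tendsto (fun p : ℕ × ℂ => p.1 * (ff (p.2 + 1 / 2 - 1 / (2 * p.1)) -
      ff (p.2 + 1 / 2))) (atTop ×ˢ 𝓝 y0) (𝓝 (-hh z0 / 2)) := by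
    have hq : Tendsto (fun p : ℕ × ℂ => (p.1, p.2 + 1 / 2)) (atTop ×ˢ 𝓝 y0)
        (atTop ×ˢ 𝓝 z0) := tendsto_fst.prodMk (tendsto_snd.add_const _)
    exact (ff_half_step h0' h1').comp hq
  have hlim : Tendsto (fun p : ℕ × ℂ => exp (E p + p.1 * (ff (p.2 + 1 / 2 - 1 / (2 * p.1)) -
      ff (p.2 + 1 / 2)))) (atTop ×ˢ 𝓝 y0) (𝓝 (exp (0 + -hh z0 / 2))) :=
    (continuous_exp.tendsto _).comp (hE0.add hstep)
  rw [zero_add] at hlim
  refine hlim.congr' ?_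
  filter_upwards [hev] with p hp
  have hM0 : (0 : ℝ) < p.1 := by exact_mod_cast hp.1
  have hMc : (p.1 : ℂ) ≠ 0 := by exact_mod_cast hM0.ne'
  unfold wS
  rw [sqrt_eq_exp hp.1, ← exp_sub]
  congr 1
  have e1 : (p.1 : ℂ) * (p.2 + 1 / 2 - 1 / (2 * p.1)) - 1 / 2 = p.1 * (p.2 + 1 / 2) - 1 := by
    field_simp
    ring
  rw [hE]
  simp only
  rw [e1]
  ring

/-! ### The slots -/

/-- The power of `M` in a slot, with half of the weight of the edge. -/
noncomputable def Sl.ex : Sl → ℝ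
  | .op _ => 0
  | .cl _ => 3 / 2

/-- The amplitude of a slot, with half of the weight of the edge. -/
noncomputable def Sl.am (y : ℂ) : Sl → ℂ
  | .op _ => exp (-hh (y + 1 / 2))
  | .cl s => 4 * Real.pi * exp (-hh (y + 1 / 2) / 2) *
      exp (Real.pi * I * s * (-(1 / 2 - y) / 2))

theorem Sl.am_ne (y : ℂ) (σ : Sl) : σ.am y ≠ 0 := by
  have hpi : (Real.pi : ℂ) ≠ 0 := by exact_mod_cast Real.pi_ne_zero
  rcases σ with v | s
  · exact exp_ne_zero _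
  · exact mul_ne_zero (mul_ne_zero (mul_ne_zero (by norm_num) hpi) (exp_ne_zero _))
      (exp_ne_zero _)

/-- A slot with half of the weight of the edge. -/
noncomputable def slF (M : ℕ) (y : ℂ) (σ : Sl) : ℂ :=
  exp (2 * LL M (M * (y + 1 / 2) - 1)) * sC M y σ

theorem FM_eq_slF (M : ℕ) (σ τ : Sl) (y : ℂ) : FM M σ τ y = slF M y σ * slF M y τ := by
  unfold FM slF
  rw [Cc_eq]
  have : exp (4 * LL M (M * (y + 1 / 2) - 1)) = exp (2 * LL M (M * (y + 1 / 2) - 1)) *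
      exp (2 * LL M (M * (y + 1 / 2) - 1)) := by
    rw [← exp_add]
    congr 1
    ring
  rw [this]
  ring

/-- The normalized slot. -/
noncomputable def slN (M : ℕ) (y : ℂ) (σ : Sl) : ℂ :=
  slF M y σ * exp (-(M * sP y σ)) / (((M : ℝ) ^ σ.ex : ℝ) : ℂ)

theorem exp_LL_wS {M : ℕ} (hM : 1 ≤ M) (y : ℂ) : exp (LL M (M * (y + 1 / 2) - 1)) =
    wS M y * (√(M : ℝ) : ℝ) * exp (M * ff (y + 1 / 2)) := by
  have hM0 : (0 : ℝ) < M := by exact_mod_cast hM
  have hsq : ((√(M : ℝ) : ℝ) : ℂ) ≠ 0 := by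
    exact_mod_cast (Real.sqrt_pos.mpr hM0).ne'
  unfold wS
  rw [div_mul_cancel₀ _ hsq, ← exp_add]
  congr 1
  ring

theorem slN_op {M : ℕ} (hM : 1 ≤ M) (y v : ℂ) :
    slN M y (.op v) = wS M y ^ 2 * hS M (y - v) * hS M (y + v) := by
  have hM0 : (0 : ℝ) < M := by exact_mod_cast hM
  unfold slN slF
  have e1 : exp (2 * LL M (M * (y + 1 / 2) - 1)) = (exp (LL M (M * (y + 1 / 2) - 1))) ^ 2 := by
    rw [← exp_nat_mul]
    congr 1
  have e2 : sC M y (.op v) = rS M (M * (y - v) - 1 / 2) * rS M (M * (y + v) - 1 / 2) := rfl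
  have e3 : sP y (.op v) = 2 * ff (y + 1 / 2) - fe (y - v) - fe (y + v) := rfl
  have e4 : (Sl.op v).ex = 0 := rfl
  rw [e1, e2, e3, e4, Real.rpow_zero, ofReal_one, div_one, exp_LL_wS hM]
  have e5 : exp (-(M * (2 * ff (y + 1 / 2) - fe (y - v) - fe (y + v)))) =
      (exp (M * ff (y + 1 / 2)))⁻¹ ^ 2 * (exp (M * fe (y - v)) * exp (M * fe (y + v))) := by
    rw [← exp_neg, ← exp_nat_mul, ← exp_add, ← exp_add]
    congr 1
    push_cast
    ring
  rw [e5]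
  unfold hS
  have h1 := exp_ne_zero (M * ff (y + 1 / 2))
  field_simp

theorem slN_cl {M : ℕ} (hM : 1 ≤ M) (y : ℂ) (s : ℤ) :
    slN M y (.cl s) = 4 * Real.pi * wS M y *
      exp (Real.pi * I * s * (-(1 / (2 * M)) - (1 / 2 - y) / 2)) := by
  have hM0 : (0 : ℝ) < M := by exact_mod_cast hM
  have hMc : (M : ℂ) ≠ 0 := by exact_mod_cast hM0.ne'
  have hsq : ((√(M : ℝ) : ℝ) : ℂ) ≠ 0 := by
    exact_mod_cast (Real.sqrt_pos.mpr hM0).ne'
  have hr : (((M : ℝ) ^ (3 / 2 : ℝ) : ℝ) : ℂ) = M * (√(M : ℝ) : ℝ) := by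
    have : (M : ℝ) ^ (3 / 2 : ℝ) = M * √M := by
      rw [show (3 / 2 : ℝ) = 1 + 1 / 2 by norm_num, Real.rpow_add hM0, Real.rpow_one,
        Real.sqrt_eq_rpow]
    rw [this]
    push_cast
    rfl
  unfold slN slF sC sP Sl.ex
  simp only
  rw [hr]
  have e1 : exp (2 * LL M (M * (y + 1 / 2) - 1)) =
      exp (LL M (M * (y + 1 / 2) - 1)) * exp (LL M (M * (y + 1 / 2) - 1)) := by
    rw [← exp_add]
    congr 1
    ring
  have e2 : exp (LL M (M * (y + 1 / 2) - 1)) * exp (-LL M (M * (y + 1 / 2) - 1)) = 1 := by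
    rw [← exp_add, add_neg_cancel, exp_zero]
  set X : ℂ := Real.pi * I * s * (M / 2 - 1 / (2 * M) + M * (1 / 2 - y) / 2 +
    M * (1 / 2 - y) * (M * (1 / 2 - y) - 1) / (2 * M)) with hX
  have e3 : exp X * exp (-(M * (ff (y + 1 / 2) - Real.pi * I * s * (y - y ^ 2 / 2 - 7 / 8)))) =
      exp (Real.pi * I * s * (-(1 / (2 * M)) - (1 / 2 - y) / 2)) *
        (exp (M * ff (y + 1 / 2)))⁻¹ := by
    rw [← exp_neg, ← exp_add, ← exp_add]
    congr 1
    rw [hX]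
    field_simp
    ring
  have h1 := exp_ne_zero (M * ff (y + 1 / 2))
  calc exp (2 * LL M (M * (y + 1 / 2) - 1)) * (4 * Real.pi * M * exp X *
        exp (-LL M (M * (y + 1 / 2) - 1))) *
        exp (-(M * (ff (y + 1 / 2) - Real.pi * I * s * (y - y ^ 2 / 2 - 7 / 8)))) /
        (M * (√(M : ℝ) : ℝ))
      = 4 * Real.pi * exp (LL M (M * (y + 1 / 2) - 1)) *
        (exp (LL M (M * (y + 1 / 2) - 1)) * exp (-LL M (M * (y + 1 / 2) - 1))) *
        (exp X * exp (-(M * (ff (y + 1 / 2) - Real.pi * I * s * (y - y ^ 2 / 2 - 7 / 8))))) /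
        (√(M : ℝ) : ℝ) := by
        rw [e1]
        field_simp
    _ = 4 * Real.pi * wS M y *
        exp (Real.pi * I * s * (-(1 / (2 * M)) - (1 / 2 - y) / 2)) := by
        rw [e2, e3, exp_LL_wS hM]
        field_simp

/-- Convergence of a family of slots. -/
def STo {α : Type*} (l : Filter α) (σ : α → Sl) : Sl → Prop
  | .op v0 => ∃ v : α → ℂ, (∀ a, σ a = .op (v a)) ∧ Tendsto v l (𝓝 v0)
  | .cl s => ∀ a, σ a = .cl s

theorem STo.ex_eq {α : Type*} {l : Filter α} {σ : α → Sl} {σ0 : Sl} (h : STo l σ σ0) (a : α) :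
    (σ a).ex = σ0.ex := by
  rcases σ0 with v0 | s
  · obtain ⟨v, hv, _⟩ := h
    rw [hv a]
    rfl
  · have h' : ∀ a, σ a = .cl s := h
    rw [h' a]

/-- The local limit of a slot. -/
theorem slN_lim {α : Type*} {l : Filter α} {M : α → ℕ} (hM : Tendsto M l atTop) {y : α → ℂ}
    {y0 : ℂ} (hy : Tendsto y l (𝓝 y0)) {σ : α → Sl} {σ0 : Sl} (hσ : STo l σ σ0)
    (hd : sdom y0 σ0) (hok : σ0.ok) :
    Tendsto (fun a => slN (M a) (y a) (σ a)) l (𝓝 (σ0.am y0)) := by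
  have hM1 : ∀ᶠ a in l, 1 ≤ M a := hM.eventually (eventually_ge_atTop 1)
  rcases σ0 with v0 | s
  · obtain ⟨v, hv, hv0⟩ := hσ
    obtain ⟨d1, d2, d3, d4⟩ : 0 < y0.re ∧ y0.re < 1 / 2 ∧ fdom (y0 - v0) ∧ fdom (y0 + v0) := hd
    have hok' : |v0.re| ≤ 1 / 2 := hok
    rw [abs_le] at hok'
    have hw := (wS_lim (y0 := y0) (by linarith) d2).comp (hM.prodMk hy)
    have h1 := (hS_lim d3 (by rw [sub_re, abs_lt]; constructor <;> linarith)).comp
      (hM.prodMk (hy.sub hv0))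
    have h2 := (hS_lim d4 (by rw [add_re, abs_lt]; constructor <;> linarith)).comp
      (hM.prodMk (hy.add hv0))
    have h3 := ((hw.pow 2).mul h1).mul h2
    have e : exp (-hh (y0 + 1 / 2) / 2) ^ 2 * 1 * 1 = (Sl.op v0).am y0 := by
      rw [mul_one, mul_one, ← exp_nat_mul]
      change exp _ = exp _
      congr 1
      push_cast
      ring
    rw [e] at h3
    refine h3.congr' ?_
    filter_upwards [hM1] with a ha
    rw [hv a, slN_op ha]
    rfl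
  · have hs : ∀ a, σ a = .cl s := hσ
    obtain ⟨d1, d2⟩ : 0 < y0.re ∧ y0.re < 1 / 2 := hd
    have hw := (wS_lim (y0 := y0) (by linarith) d2).comp (hM.prodMk hy)
    have ht : Tendsto (fun a => (1 / (2 * M a) : ℂ)) l (𝓝 0) := by
      have h2 : Tendsto (fun n : ℕ => (1 / (2 * n) : ℂ)) atTop (𝓝 0) := by
        have := (tendsto_const_div_atTop_nhds_zero_nat (1 / 2 : ℂ))
        refine this.congr fun n => ?_
        rw [div_div]
      exact h2.comp hM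
    have h2 : Tendsto (fun a => Real.pi * I * s * (-(1 / (2 * M a)) - (1 / 2 - y a) / 2) : α → ℂ) l
        (𝓝 (Real.pi * I * s * (-0 - (1 / 2 - y0) / 2))) :=
      (ht.neg.sub ((hy.const_sub (1 / 2)).div_const 2)).const_mul _
    have h3 := (hw.const_mul (4 * Real.pi : ℂ)).mul ((continuous_exp.tendsto _).comp h2)
    have e : 4 * Real.pi * exp (-hh (y0 + 1 / 2) / 2) *
        exp (Real.pi * I * s * (-0 - (1 / 2 - y0) / 2)) = (Sl.cl s).am y0 := by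
      unfold Sl.am
      simp only
      congr 2
      ring
    rw [e] at h3
    refine h3.congr' ?_
    filter_upwards [hM1] with a ha
    rw [hs a, slN_cl ha]
    rfl

/-- The local limit of the terms of an edge kernel. -/
theorem FM_lim {α : Type*} {l : Filter α} {M : α → ℕ} (hM : Tendsto M l atTop) {y : α → ℂ}
    {y0 : ℂ} (hy : Tendsto y l (𝓝 y0)) {σ τ : α → Sl} {σ0 τ0 : Sl} (hσ : STo l σ σ0)
    (hτ : STo l τ τ0) (hd1 : sdom y0 σ0) (hd2 : sdom y0 τ0) (hok1 : σ0.ok) (hok2 : τ0.ok) :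
    Tendsto (fun a => FM (M a) (σ a) (τ a) (y a) *
      exp (-(M a * (sP (y a) (σ a) + sP (y a) (τ a)))) /
        (((M a : ℝ) ^ (σ0.ex + τ0.ex) : ℝ) : ℂ)) l (𝓝 (σ0.am y0 * τ0.am y0)) := by
  have hM1 : ∀ᶠ a in l, 1 ≤ M a := hM.eventually (eventually_ge_atTop 1)
  have h := (slN_lim hM hy hσ hd1 hok1).mul (slN_lim hM hy hτ hd2 hok2)
  refine h.congr' ?_
  filter_upwards [hM1] with a ha
  have hM0 : (0 : ℝ) < M a := by exact_mod_cast ha
  unfold slN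
  rw [hσ.ex_eq, hτ.ex_eq, FM_eq_slF, Real.rpow_add hM0, ofReal_mul, mul_add, neg_add, exp_add]
  have h1 : (((M a : ℝ) ^ σ0.ex : ℝ) : ℂ) ≠ 0 := by
    exact_mod_cast (Real.rpow_pos_of_pos hM0 _).ne'
  have h2 : (((M a : ℝ) ^ τ0.ex : ℝ) : ℂ) ≠ 0 := by
    exact_mod_cast (Real.rpow_pos_of_pos hM0 _).ne'
  field_simp

/-! ### The vertex factor -/

theorem ww_eq (M : ℕ) (v : ℂ) : ww 2 M v = (-1) ^ (M + 1) * exp (2 * Real.pi * I * M * v) := by
  unfold ww bt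
  have e1 : 2 * (Real.pi : ℂ) * I * (M * (v + 1 / 2) - ((((2 : ℕ) : ℝ) - 1) / 2 : ℝ)) =
      2 * Real.pi * I * M * v + (M : ℂ) * (Real.pi * I) + -(Real.pi * I) := by
    push_cast
    ring
  rw [e1, exp_add, exp_add, exp_nat_mul, exp_neg, exp_pi_mul_I, pow_succ]
  norm_num
  ring

theorem neg_one_pow_mul_self (n : ℕ) : ((-1 : ℂ)) ^ n * (-1) ^ n = 1 := by
  rw [← mul_pow]
  norm_num

theorem om_eq (M : ℕ) (v : ℂ) : (-1) ^ (M + 1) * om 2 M v * exp (-(2 * Real.pi * I * M * v)) =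
    1 / (1 - ww 2 M v) ^ 2 := by
  unfold om
  nth_rewrite 1 [ww_eq]
  have h := neg_one_pow_mul_self (M + 1)
  have h2 : exp (2 * Real.pi * I * M * v) * exp (-(2 * Real.pi * I * M * v)) = 1 := by
    rw [← exp_add, add_neg_cancel, exp_zero]
  calc (-1) ^ (M + 1) * ((-1) ^ (M + 1) * exp (2 * Real.pi * I * M * v) / (1 - ww 2 M v) ^ 2) *
        exp (-(2 * Real.pi * I * M * v))
      = ((-1) ^ (M + 1) * (-1) ^ (M + 1)) *
        (exp (2 * Real.pi * I * M * v) * exp (-(2 * Real.pi * I * M * v))) /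
        (1 - ww 2 M v) ^ 2 := by ring
    _ = _ := by rw [h, h2, one_mul]

/-- The local limit of `ω`. -/
theorem om_lim {α : Type*} {l : Filter α} {M : α → ℕ} (hM : Tendsto M l atTop) {v : α → ℂ}
    {v0 : ℂ} (hv : Tendsto v l (𝓝 v0)) (h0 : 0 < v0.im) :
    Tendsto (fun a => (-1) ^ (M a + 1) * om 2 (M a) (v a) *
      exp (-(2 * Real.pi * I * M a * v a))) l (𝓝 1) := by
  simp only [om_eq]
  have hw : Tendsto (fun a => ww 2 (M a) (v a)) l (𝓝 0) := by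
    have h1 : ∀ᶠ a in l, v0.im / 2 < (v a).im :=
      ((continuous_im.tendsto v0).comp hv).eventually
        (Ioi_mem_nhds (show v0.im / 2 < v0.im by linarith))
    have h2 : Tendsto (fun n : ℕ => Real.exp (-(2 * Real.pi * (v0.im / 2))) ^ n) atTop (𝓝 0) := by
      apply tendsto_pow_atTop_nhds_zero_of_lt_one (Real.exp_pos _).le
      rw [Real.exp_lt_one_iff]
      have := Real.pi_pos
      have : 0 < 2 * Real.pi * (v0.im / 2) := by positivity
      linarith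
    refine squeeze_zero_norm' ?_ (h2.comp hM)
    filter_upwards [h1] with a ha
    rw [ww_norm, Function.comp_apply, ← Real.exp_nat_mul]
    apply Real.exp_le_exp.2
    have hMa : (0 : ℝ) ≤ M a := Nat.cast_nonneg _
    have := Real.pi_pos
    have h3 : (M a : ℝ) * (v0.im / 2) ≤ M a * (v a).im := mul_le_mul_of_nonneg_left ha.le hMa
    nlinarith
  have h := ((hw.const_sub 1).pow 2).inv₀ (by norm_num)
  have e : ((1 - 0 : ℂ) ^ 2)⁻¹ = 1 := by norm_num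
  rw [e] at h
  refine h.congr fun a => ?_
  rw [one_div]

/-- The vertex factor in the coordinate `u`. -/
noncomputable def gvu (r : ℝ) (M : ℕ) (u : ℂ) : ℂ :=
  exp (2 * Real.pi * I * r * M * gdv u ^ 2) * (2 * sin (2 * Real.pi * gdv u)) *
    om 2 M (gdv u) * (1 / (Real.pi * cosh u))

theorem gvx_ul (r θ : ℝ) (M : ℕ) (x : ℝ) :
    gvx r (fun x => gdv (ul θ x)) (fun x => 1 / (Real.pi * cosh (ul θ x))) M x =
      gvu r M (ul θ x) := rfl

/-- The amplitude of a vertex. -/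
noncomputable def gau (u : ℂ) : ℂ := 2 * sin (2 * Real.pi * gdv u) * (1 / (Real.pi * cosh u))

theorem gau_ne {u : ℂ} (h0 : 0 < u.im) (h1 : u.im < Real.pi / 2) : gau u ≠ 0 := by
  have h : |u.im| < Real.pi / 2 := abs_lt.mpr ⟨by linarith [Real.pi_pos], h1⟩
  have hpi : (Real.pi : ℂ) ≠ 0 := by exact_mod_cast Real.pi_ne_zero
  have hs : sin (2 * Real.pi * gdv u) ≠ 0 := by
    rw [sin_ne_zero_iff]
    intro k hk
    have h2 := gdv_im_pos h0 h1
    have h3 := congrArg Complex.im hk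
    have e1 : (2 * Real.pi * gdv u : ℂ).im = 2 * Real.pi * (gdv u).im := by
      have : (2 * Real.pi * gdv u : ℂ) = ((2 * Real.pi : ℝ) : ℂ) * gdv u := by push_cast; ring
      rw [this, im_ofReal_mul]
    have e2 : ((k : ℂ) * Real.pi).im = 0 := by
      have : ((k : ℂ) * Real.pi) = ((k * Real.pi : ℝ) : ℂ) := by push_cast; ring
      rw [this, ofReal_im]
    rw [e1, e2] at h3
    have : 0 < 2 * Real.pi * (gdv u).im := by
      have := Real.pi_pos
      positivity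
    linarith
  unfold gau
  exact mul_ne_zero (mul_ne_zero two_ne_zero hs)
    (one_div_ne_zero (mul_ne_zero hpi (cosh_ne h)))

theorem gvu_eq (r : ℝ) (M : ℕ) (u : ℂ) : (-1) ^ (M + 1) * gvu r M u * exp (-(M * wr r (gdv u))) =
    gau u * ((-1) ^ (M + 1) * om 2 M (gdv u) * exp (-(2 * Real.pi * I * M * gdv u))) := by
  unfold gvu gau wr
  have e : exp (2 * Real.pi * I * r * M * gdv u ^ 2) *
      exp (-(M * (2 * Real.pi * I * (r * gdv u ^ 2 + gdv u)))) =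
      exp (-(2 * Real.pi * I * M * gdv u)) := by
    rw [← exp_add]
    congr 1
    ring
  rw [← e]
  ring

/-- The local limit of the vertex factor. -/
theorem gvu_lim (r : ℝ) {α : Type*} {l : Filter α} {M : α → ℕ} (hM : Tendsto M l atTop)
    {u : α → ℂ} {u0 : ℂ} (hu : Tendsto u l (𝓝 u0)) (h0 : 0 < u0.im) (h1 : u0.im < Real.pi / 2) :
    Tendsto (fun a => (-1) ^ (M a + 1) * gvu r (M a) (u a) *
      exp (-(M a * wr r (gdv (u a))))) l (𝓝 (gau u0)) := by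
  have h : |u0.im| < Real.pi / 2 := abs_lt.mpr ⟨by linarith [Real.pi_pos], h1⟩
  have hpi : (Real.pi : ℂ) ≠ 0 := by exact_mod_cast Real.pi_ne_zero
  simp only [gvu_eq]
  have hg : ContinuousAt gdv u0 := (gdv_hasDerivAt h).continuousAt
  have h2 := om_lim hM (hg.tendsto.comp hu) (gdv_im_pos h0 h1)
  have hc : ContinuousAt gau u0 := by
    unfold gau
    apply ContinuousAt.mul
    · exact (continuousAt_const.mul (continuous_sin.continuousAt.comp
        (continuousAt_const.mul hg)))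
    · exact continuousAt_const.div (continuousAt_const.mul continuous_cosh.continuousAt)
        (mul_ne_zero hpi (cosh_ne h))
  have h3 := (hc.tendsto.comp hu).mul h2
  rw [mul_one] at h3
  exact h3

/-! ### Amplitudes -/

/-- The limit on the product filter gives the limit along sequences. -/
theorem ALim_of_prod {ι : Type} {V : (ι → ℂ) → ℂ} {Φ : ℕ → (ι → ℂ) → ℂ} {e : ℝ} {zc : ι → ℂ}
    {A : ℂ} (hA : A ≠ 0) (h : Tendsto (fun p : ℕ × (ι → ℂ) => Φ p.1 p.2 * exp (-(p.1 * V p.2)) /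
      (((p.1 : ℝ) ^ e : ℝ) : ℂ)) (atTop ×ˢ 𝓝 zc) (𝓝 A)) : ALim V Φ e zc := by
  refine ⟨A, hA, fun Z hZ => ?_⟩
  exact h.comp (tendsto_id.prodMk hZ)

/-- The limit on the product filter gives the bound near the critical point. -/
theorem bound_of_prod {ι : Type} {V : (ι → ℂ) → ℂ} {Φ : ℕ → (ι → ℂ) → ℂ} {e : ℝ} {zc : ι → ℂ}
    {A : ℂ} (h : Tendsto (fun p : ℕ × (ι → ℂ) => Φ p.1 p.2 * exp (-(p.1 * V p.2)) /
      (((p.1 : ℝ) ^ e : ℝ) : ℂ)) (atTop ×ˢ 𝓝 zc) (𝓝 A)) :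
    ∃ U : Set (ι → ℂ), IsOpen U ∧ zc ∈ U ∧ ∃ C : ℝ, 0 < C ∧ ∀ᶠ M : ℕ in atTop, ∀ z ∈ U,
      ‖Φ M z‖ ≤ C * (M : ℝ) ^ e * Real.exp (M * (V z).re) := by
  have h1 := h.norm.eventually (Iio_mem_nhds (show ‖A‖ < ‖A‖ + 1 by linarith))
  obtain ⟨pa, ha, pb, hb, hab⟩ := eventually_prod_iff.mp h1
  obtain ⟨U, hU, hUo, hzU⟩ := eventually_nhds_iff.mp hb
  refine ⟨U, hUo, hzU, ‖A‖ + 1, by positivity, ?_⟩
  filter_upwards [ha, eventually_ge_atTop 1] with M hM hM1 z hz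
  have hM0 : (0 : ℝ) < M := by exact_mod_cast hM1
  have h2 := hab hM (hU z hz)
  simp only [mem_Iio] at h2
  have hr := Real.rpow_pos_of_pos hM0 e
  have e1 : (-((M : ℂ) * V z)).re = -(M * (V z).re) := by
    rw [neg_re, ← ofReal_natCast, re_ofReal_mul]
  rw [norm_div, norm_mul, norm_exp, e1, norm_real, Real.norm_eq_abs, abs_of_pos hr,
    div_lt_iff₀ hr] at h2
  calc ‖Φ M z‖ = (‖Φ M z‖ * Real.exp (-(M * (V z).re))) * Real.exp (M * (V z).re) := by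
        rw [mul_assoc, ← Real.exp_add, neg_add_cancel, Real.exp_zero, mul_one]
    _ ≤ ((‖A‖ + 1) * (M : ℝ) ^ e) * Real.exp (M * (V z).re) :=
        mul_le_mul_of_nonneg_right h2.le (Real.exp_pos _).le

end Pool.Agent.S3
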