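import Pool.Agent.S3.Phase2

/-!
# Stage 3: the phases at an opposite edge

Section 3 of the note of helper7: own line `u = x + i θ`, other line `w = x' - i θ'`.
`a₊ = arg cosh (u + w) = aa (x + x') (θ - θ')`, `a₋ = arg cosh (u - w) = aa (x - x') (θ + θ')`.
-/

namespace Pool.Agent.S3

open Real

/-- Hypotheses `(O)`, `(O+)` at an opposite edge, with critical abscissae `xc`, `xc'`. -/
structure OppHyp (θ θ' xc xc' : ℝ) : Prop where
  θ0 : 0 < θ
  θ0' : 0 < θ'
  S : θ + θ' < π / 2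
  S2 : π / 4 < θ ∨ π / 4 < θ' → θ + θ' ≤ 3 / 2
  θ1 : θ ≤ 905 / 1000
  θ1' : θ' ≤ 905 / 1000
  own : π / 4 < θ → θ + max (θ - θ') 0 / 2 + aa (max (xc' - xc) 0) (θ + θ') / 2 ≤ π / 2
  oth : π / 4 < θ' → θ' + max (θ' - θ) 0 / 2 + aa (max (xc - xc') 0) (θ + θ') / 2 ≤ π / 2

theorem OppHyp.symm {θ θ' xc xc' : ℝ} (h : OppHyp θ θ' xc xc') : OppHyp θ' θ xc' xc where
  θ0 := h.θ0'
  θ0' := h.θ0
  S := by have := h.S; linarith
  S2 := fun h1 => by have := h.S2 h1.symm; linarith
  θ1 := h.θ1'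
  θ1' := h.θ1
  own := by have := h.oth; rwa [add_comm θ θ'] at this
  oth := by have := h.own; rwa [add_comm θ θ'] at this

theorem S_lt {θ θ' : ℝ} (h : θ + θ' < π / 2) : θ + θ' < π / 2 := h

theorem OppHyp.own' {θ θ' xc xc' : ℝ} (h : OppHyp θ θ' xc xc') :
    θ + max (θ - θ') 0 / 2 + aa (max (xc' - xc) 0) (θ + θ') / 2 ≤ π / 2 := by
  rcases lt_or_ge (π / 4) θ with h1 | h1
  · exact h.own h1
  · have hp := pi_gt_d4
    have hS := h.S
    have ha := aa_le_self (t := θ + θ') (max (xc' - xc) 0) (by linarith [h.θ0, h.θ0']) (S_lt hS)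
    rcases le_total θ θ' with h2 | h2
    · rw [max_eq_right (by linarith)]; linarith
    · rw [max_eq_left (by linarith)]; linarith

theorem aa_le_max {x t : ℝ} (hx : 0 ≤ x) (ht : |t| < π / 2) : aa x t ≤ max t 0 := by
  rcases le_total 0 t with h | h
  · rw [max_eq_left h]
    rw [abs_of_nonneg h] at ht
    exact aa_le_self x h ht
  · rw [max_eq_right h]
    have : aa x t ≤ aa x 0 := aa_mono_right hx (abs_lt.1 ht).1 h (by linarith [pi_pos])
    simpa using this

theorem neg_max_le_aa {x t : ℝ} (hx : 0 ≤ x) (ht : |t| < π / 2) : -max (-t) 0 ≤ aa x t := by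
  have := aa_le_max (t := -t) hx (by rwa [abs_neg])
  rw [aa_neg_right] at this
  linarith

/-- `a(e, θ+h) - a(e, θ-h) ≤ 2 max (h, π/2 - θ)` in the form used below. -/
theorem G_bound {y θ h : ℝ} (hy : 0 ≤ y) (hθ : 0 ≤ θ) (h2 : θ ≤ 905 / 1000) (h0 : 0 ≤ h)
    (h3 : θ + h < π / 2) (h4 : π / 4 < θ → θ + h ≤ 3 / 2) :
    θ + (aa y (θ + h) - aa y (θ - h)) / 2 ≤ π / 2 := by
  have hp := pi_gt_d4
  rcases le_or_gt θ (π / 4) with h1 | h1
  · have := aa_G_small hy hθ h1 h3 h0
    linarith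
  · have := aa_G_big hy h1.le h2 (h4 h1) h0
    linarith

section

variable {θ θ' xc xc' x x' p : ℝ}

theorem absδ (h : OppHyp θ θ' xc xc') : |θ - θ'| < π / 2 := by
  have hp := pi_gt_d4
  rw [abs_lt]
  constructor <;> linarith [h.θ0, h.θ0', h.θ1, h.θ1']

theorem absS (h : OppHyp θ θ' xc xc') : |θ + θ'| < π / 2 := by
  rw [abs_of_nonneg (by linarith [h.θ0, h.θ0'])]
  exact S_lt h.S

theorem θ_lt (h : OppHyp θ θ' xc xc') : θ < π / 2 := by
  have hp := pi_gt_d4
  linarith [h.θ1]

/-- `ρ = 1` -/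
theorem opp_one (h : OppHyp θ θ' xc xc') (hx : 0 ≤ x) (hx' : 0 ≤ x') (hd : x - x' = xc - xc')
    (hp0 : 0 ≤ p) (hp1 : p ≤ θ) :
    |(aa (x - x') (θ + θ') - aa (x + x') (θ - θ')) / 2 + aa x' θ' - p| ≤ π / 2 := by
  have hS0 : 0 ≤ θ + θ' := by linarith [h.θ0, h.θ0']
  have h1 : aa (x + x') (θ - θ') ≤ max (θ - θ') 0 := aa_le_max (by linarith) (absδ h)
  have h2 : -max (θ' - θ) 0 ≤ aa (x + x') (θ - θ') := by
    have := neg_max_le_aa (x := x + x') (t := θ - θ') (by linarith) (absδ h)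
    rwa [neg_sub] at this
  have h3 : aa (x - x') (θ + θ') ≤ aa (max (xc - xc') 0) (θ + θ') :=
    aa_mono_left hS0 (S_lt h.S) (by rw [hd]; exact le_max_left _ _)
  have h4 : -aa (max (xc' - xc) 0) (θ + θ') ≤ aa (x - x') (θ + θ') := by
    rw [← aa_neg_left]
    apply aa_mono_left hS0 (S_lt h.S)
    rw [hd]
    have := le_max_left (xc' - xc) 0
    linarith
  have h5 : 0 ≤ aa x' θ' := aa_nonneg hx' h.θ0'.le (θ_lt h.symm)
  have h6 : aa x' θ' ≤ θ' := aa_le_self x' h.θ0'.le (θ_lt h.symm)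
  have o1 := h.own'
  have o2 := h.symm.own'
  rw [add_comm θ' θ] at o2
  rw [abs_le]
  constructor <;> linarith

/-- `ρ = -1` -/
theorem opp_neg_one (h : OppHyp θ θ' xc xc') (hx : 0 ≤ x) (hx' : 0 ≤ x')
    (hp0 : 0 ≤ p) (hp1 : p ≤ θ) :
    |(aa (x + x') (θ - θ') - aa (x - x') (θ + θ')) / 2 + aa x' θ' - p| ≤ π / 2 := by
  have hpi := pi_gt_d4
  have hS := h.S
  have hS0 : 0 ≤ θ + θ' := by linarith [h.θ0, h.θ0']
  have he : 0 ≤ x + x' := by linarith
  have h1 : aa (x + x') (θ - θ') ≤ max (θ - θ') 0 := aa_le_max he (absδ h)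
  have h2 : -max (θ' - θ) 0 ≤ aa (x + x') (θ - θ') := by
    have := neg_max_le_aa (x := x + x') (t := θ - θ') he (absδ h)
    rwa [neg_sub] at this
  have h5 : 0 ≤ aa x' θ' := aa_nonneg hx' h.θ0'.le (θ_lt h.symm)
  have h6 : aa x' θ' ≤ θ' := aa_le_self x' h.θ0'.le (θ_lt h.symm)
  have h7 : aa (x + x') (θ + θ') ≤ θ + θ' := aa_le_self _ hS0 (S_lt hS)
  rw [abs_le]
  constructor
  · -- lower
    rcases le_total x x' with hc | hc
    · have h8 : aa (x - x') (θ + θ') ≤ 0 := by
        have := aa_mono_left hS0 (S_lt hS) (show x - x' ≤ 0 by linarith)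
        simpa using this
      rcases le_total θ θ' with hd | hd
      · rw [max_eq_left (by linarith)] at h2; linarith
      · rw [max_eq_right (by linarith)] at h2; linarith
    · have h8 : aa (x - x') (θ + θ') ≤ aa (x + x') (θ + θ') :=
        aa_mono_left hS0 (S_lt hS) (by linarith)
      rcases le_total θ θ' with hd | hd
      · rw [max_eq_left (by linarith)] at h2; linarith
      · have hG := G_bound (y := x + x') he h.θ0.le h.θ1 h.θ0'.le hS
          (fun h1 => h.S2 (Or.inl h1))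
        linarith
  · -- upper
    rcases le_total x' x with hc | hc
    · have h8 : 0 ≤ aa (x - x') (θ + θ') := aa_nonneg (by linarith) hS0 (S_lt hS)
      rcases le_total θ θ' with hd | hd
      · rw [max_eq_right (by linarith)] at h1; linarith
      · rw [max_eq_left (by linarith)] at h1; linarith
    · have h8 : -aa (x + x') (θ + θ') ≤ aa (x - x') (θ + θ') := by
        rw [← aa_neg_left]
        exact aa_mono_left hS0 (S_lt hS) (by linarith)
      rcases le_total θ' θ with hd | hd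
      · rw [max_eq_left (by linarith)] at h1; linarith
      · have hG := G_bound (y := x + x') (θ := θ') (h := θ) he h.θ0'.le h.θ1' h.θ0.le
          (by linarith) (fun h1 => by have := h.S2 (Or.inr h1); linarith)
        have e1 : aa (x + x') (θ - θ') = -aa (x + x') (θ' - θ) := by
          rw [← aa_neg_right, neg_sub]
        have e2 : θ' + θ = θ + θ' := add_comm _ _
        rw [e2] at hG
        rw [e1]
        linarith

/-- `ρ = 0` -/
theorem opp_zero (h : OppHyp θ θ' xc xc') (hx : 0 ≤ x) (hx' : 0 ≤ x')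
    (hp0 : 0 ≤ p) (hp1 : p ≤ θ) :
    |aa x θ - p - (aa (x + x') (θ - θ') + aa (x - x') (θ + θ')) / 2| ≤ π / 2 := by
  have hpi := pi_gt_d4
  have hS := h.S
  have hS0 : 0 ≤ θ + θ' := by linarith [h.θ0, h.θ0']
  have he : 0 ≤ x + x' := by linarith
  have h1 : aa (x + x') (θ - θ') ≤ max (θ - θ') 0 := aa_le_max he (absδ h)
  have h2 : -max (θ' - θ) 0 ≤ aa (x + x') (θ - θ') := by
    have := neg_max_le_aa (x := x + x') (t := θ - θ') he (absδ h)
    rwa [neg_sub] at this
  have h5 : 0 ≤ aa x θ := aa_nonneg hx h.θ0.le (θ_lt h)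
  have h6 : aa x θ ≤ θ := aa_le_self x h.θ0.le (θ_lt h)
  have h7 : aa (x + x') (θ + θ') ≤ θ + θ' := aa_le_self _ hS0 (S_lt hS)
  rw [abs_le]
  constructor
  · -- lower
    rcases le_total x x' with hc | hc
    · have h8 : aa (x - x') (θ + θ') ≤ 0 := by
        have := aa_mono_left hS0 (S_lt hS) (show x - x' ≤ 0 by linarith)
        simpa using this
      have o1 := h.own'
      have h9 : 0 ≤ aa (max (xc' - xc) 0) (θ + θ') := aa_nonneg (le_max_right _ _) hS0 (S_lt hS)
      linarith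
    · have h8 : aa (x - x') (θ + θ') ≤ aa x (θ + θ') :=
        aa_mono_left hS0 (S_lt hS) (by linarith)
      have h10 : aa x (θ + θ') ≤ θ + θ' := aa_le_self _ hS0 (S_lt hS)
      rcases le_total θ θ' with hd | hd
      · rw [max_eq_right (by linarith)] at h1; linarith
      · rw [max_eq_left (by linarith)] at h1
        rcases le_or_gt θ (π / 4) with hq | hq
        · linarith
        · have := opp_last (x := x) (θ := θ) (S := θ + θ') hx hq.le h.θ1 (by linarith [h.θ0'])
            (h.S2 (Or.inl hq))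
          linarith
  · -- upper
    rcases le_total x' x with hc | hc
    · have h8 : 0 ≤ aa (x - x') (θ + θ') := aa_nonneg (by linarith) hS0 (S_lt hS)
      rcases le_total θ θ' with hd | hd
      · rw [max_eq_left (by linarith)] at h2; linarith
      · rw [max_eq_right (by linarith)] at h2; linarith [θ_lt h]
    · have h8 : -aa (x + x') (θ + θ') ≤ aa (x - x') (θ + θ') := by
        rw [← aa_neg_left]
        exact aa_mono_left hS0 (S_lt hS) (by linarith)
      rcases le_total θ θ' with hd | hd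
      · rw [max_eq_left (by linarith)] at h2; linarith
      · have hG := G_bound (y := x + x') he h.θ0.le h.θ1 h.θ0'.le hS
          (fun h1 => h.S2 (Or.inl h1))
        linarith

end

end Pool.Agent.S3
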