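import Pool.Agent.S3.BridgeF
import Pool.Agent.S3.E.Alpha

/-!
# Stage 3: the critical point at an open-open edge

`ECrit u u' yc Q Q' β β'` collects what the potential of the chain needs at an edge with the
vertices `u`, `u'` (both in the upper half plane): domain, equations, nondegeneracy, negativity.
`Zr.ecrit`: it holds at the solution of the system of block E; the vertex with `c < 0` is
`u = x + i θ`, the one with `c > 0` is `u' = -x' + i θ'`.
-/

namespace Pool.Agent.S3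

open Complex
open Pool.Agent.H25.RK (gdv gdv_re_lt gdv_hasDerivAt)

/-- the critical equations and inequalities at an edge -/
structure ECrit (u u' yc Q Q' : ℂ) (β β' : ℝ) : Prop where
  dom : sdom yc (.op (gdv u)) ∧ sdom yc (.op (gdv u'))
  hy : ey yc (.op (gdv u)) + ey yc (.op (gdv u')) = 0
  ev1 : ev yc (gdv u) = -2 * Q
  ev2 : ev yc (gdv u') = -2 * Q'
  hA : (eyy yc (.op (gdv u)) + eyy yc (.op (gdv u'))).re < 0
  hD : ∀ a b : ℝ, a ≠ 0 ∨ b ≠ 0 →
    ((evv yc (gdv u) + I * β) * dgv u ^ 2 * a ^ 2 + (evv yc (gdv u') + I * β') * dgv u' ^ 2 * b ^ 2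
      - (eyv yc (gdv u) * dgv u * a + eyv yc (gdv u') * dgv u' * b) ^ 2
        / (eyy yc (.op (gdv u)) + eyy yc (.op (gdv u')))).re < 0

theorem ECrit.symm {u u' yc Q Q' : ℂ} {β β' : ℝ} (h : ECrit u u' yc Q Q' β β') :
    ECrit u' u yc Q' Q β' β where
  dom := ⟨h.dom.2, h.dom.1⟩
  hy := by rw [add_comm]; exact h.hy
  ev1 := h.ev2
  ev2 := h.ev1
  hA := by rw [add_comm]; exact h.hA
  hD := fun a b hab => by
    have := h.hD b a hab.symm
    rw [add_comm (eyy yc (.op (gdv u')))]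
    convert this using 2
    ring

/-- `γ ≥ (φ' - φ)/2` if `|cosh w| ≥ |cosh u|` -/
theorem lcy_ge {u w : ℂ} (h : Reg u w) (h1 : 0 ≤ (Lc u).im) (h2 : (Lc w).im ≤ 0)
    (h3 : (Lc u).re ≤ (Lc w).re) : -(((Lc u).im + (Lc w).im) / 2) ≤ (lcy u w).im := by
  have g := neg_lcy_le h (by linarith)
  have a1 := abs_le.1 (Lc_im_abs h.left)
  have a2 := abs_le.1 (Lc_im_abs h.right)
  have hR : |u.im| + |w.im| < Real.pi / 2 := h
  have hpi := Real.pi_pos
  have k1 := cos_yy_sq h
  rw [← exp_lcy h, cosh_sq_exp h.left, cosh_sq_exp h.right] at k1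
  have k2 : exp (2 * Lc u) + exp (2 * Lc w) = exp (-(2 * lcy u w)) := by
    have h3 : exp (lcy u w) ^ 2 * exp (-(2 * lcy u w)) = 1 := by
      rw [sq, ← exp_add, ← exp_add, ← exp_zero]
      congr 1; ring
    have h4 : exp (lcy u w) ^ 2 ≠ 0 := pow_ne_zero _ (exp_ne_zero _)
    exact mul_left_cancel₀ h4 (by rw [k1, h3])
  have e2 : ∀ z : ℂ, (2 * z).im = 2 * z.im := fun z => by
    rw [show (2 : ℂ) = ((2 : ℝ) : ℂ) by norm_num, im_ofReal_mul]
  have e2r : ∀ z : ℂ, (2 * z).re = 2 * z.re := fun z => by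
    rw [show (2 : ℂ) = ((2 : ℝ) : ℂ) by norm_num, re_ofReal_mul]
  have im_exp_mul : ∀ (z : ℂ) (ψ : ℝ), (exp z * exp (-((ψ : ℂ) * I))).im
      = Real.exp z.re * Real.sin (z.im - ψ) := by
    intro z ψ
    rw [← exp_add, exp_im]
    simp [sub_eq_add_neg]
  set α := (Lc u).im
  set β := (Lc w).im
  set γ := (lcy u w).im
  have key := congrArg (fun z => (z * exp (-(((α + β : ℝ) : ℂ) * I))).im) k2
  simp only [add_mul, add_im, im_exp_mul] at key
  rw [e2, e2, neg_im, e2, e2r, e2r] at key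
  have s1 : 0 ≤ Real.sin (α - β) := by
    apply Real.sin_nonneg_of_nonneg_of_le_pi <;> linarith
  have s2 : Real.exp (2 * (Lc u).re) ≤ Real.exp (2 * (Lc w).re) :=
    Real.exp_le_exp.2 (by linarith)
  have e3 : Real.sin (2 * α - (α + β)) = Real.sin (α - β) := by congr 1; ring
  have e4 : Real.sin (2 * β - (α + β)) = -Real.sin (α - β) := by
    rw [← Real.sin_neg]; congr 1; ring
  change Real.exp (2 * (Lc u).re) * Real.sin (2 * α - (α + β))
    + Real.exp (2 * (Lc w).re) * Real.sin (2 * β - (α + β))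
    = Real.exp (-(2 * lcy u w)).re * Real.sin (-(2 * γ) - (α + β)) at key
  rw [e3, e4] at key
  by_contra hc
  push Not at hc
  have s3 : 0 < Real.sin (-(2 * γ) - (α + β)) := by
    apply Real.sin_pos_of_pos_of_lt_pi
    · linarith
    · linarith
  have s4 := mul_pos (Real.exp_pos (-(2 * lcy u w)).re) s3
  have s5 := mul_le_mul_of_nonneg_right s2 s1
  linarith

namespace E

variable {ι : Type*} [Finite ι] {a : ι → ℝ} {nl nr : ι → Option ι} {z : ι → ℂ}

/-- `u_i = x_i + i θ_i` -/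
noncomputable def uu (z : ℂ) : ℂ := UU (xx z.re z.im) (th z.re z.im)

theorem cosh_uu {z : ℂ} (h : 0 < z.re) (h' : z.re < Real.pi / 2) (hI : 0 < z.im) :
    cosh (uu z) * cos z = 1 := cosh_u h h' hI

theorem Lc_uu {z : ℂ} (h : 0 < z.re) (h' : z.re < Real.pi / 2) (hI : 0 < z.im) :
    (Lc (uu z)).re = -Real.log ‖cos z‖ ∧ (Lc (uu z)).im = ph z.re z.im := by
  have h1 := cosh_uu h h' hI
  have hc : cos z ≠ 0 := by
    intro h0
    rw [h0, mul_zero] at h1
    exact zero_ne_one h1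
  have hn : 0 < ‖cos z‖ := norm_pos_iff.2 hc
  have h2 := cos_polar h h'
  have hph := ph_pos h h' hI
  have hph' : ph z.re z.im < Real.pi / 2 := Real.arctan_lt_pi_div_two _
  have hpi := Real.pi_pos
  have e : Lc (uu z) = ((-Real.log ‖cos z‖ : ℝ) : ℂ) + ((ph z.re z.im : ℝ) : ℂ) * I := by
    rw [Lc]
    symm
    apply eq_log_of
    · apply mul_right_cancel₀ hc
      rw [h1]
      have e1 : exp (((ph z.re z.im : ℝ) : ℂ) * I) * exp (-((ph z.re z.im : ℝ) : ℂ) * I) = 1 := by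
        rw [← exp_add, ← exp_zero]; congr 1; ring
      have hn' : (‖cos z‖ : ℂ) ≠ 0 := by exact_mod_cast hn.ne'
      have e3 : exp (((-Real.log ‖cos z‖ : ℝ) : ℂ) + ((ph z.re z.im : ℝ) : ℂ) * I)
          = (‖cos z‖ : ℂ)⁻¹ * exp (((ph z.re z.im : ℝ) : ℂ) * I) := by
        rw [exp_add, ← ofReal_exp, Real.exp_neg, Real.exp_log hn, ofReal_inv]
      rw [e3]
      generalize hE : exp (((ph z.re z.im : ℝ) : ℂ) * I) = E1 at e1 ⊢
      generalize exp (-((ph z.re z.im : ℝ) : ℂ) * I) = E2 at e1 h2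
      generalize (‖cos z‖ : ℂ) = r at h2 hn' ⊢
      rw [h2]
      field_simp
      exact e1
    · simp; linarith
    · simp; linarith
  rw [e]
  constructor
  · simp
  · simp

namespace Zr

omit [Finite ι] in
theorem Lc_uu (h : Zr a nl nr 1 z) (i : ι) :
    (Lc (uu (z i))).re = -Real.log ‖cos (z i)‖ ∧ (Lc (uu (z i))).im = ph (z i).re (z i).im :=
  E.Lc_uu (h.pos i).1 (h.pos i).2.1 (h.pos i).2.2

theorem reg_edge (h : Zr a nl nr 1 z) {i j : ι} (hij : nl i = some j ∨ nr i = some j) :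
    Reg (uu (z i)) ((starRingEnd ℂ) (uu (z j))) := by
  have := (h.oppHyp hij).reg (xx (z i).re (z i).im) (xx (z j).re (z j).im)
  rw [← UU_conj] at this
  exact this

theorem QO_edge (h : Zr a nl nr 1 z) {i j : ι} (hij : nl i = some j ∨ nr i = some j) :
    QO (uu (z i)) ((starRingEnd ℂ) (uu (z j))) := by
  refine ⟨h.reg_edge hij, ?_, ?_, ?_, ?_⟩
  · rw [uu, UU_re]; exact (h.xxpos i).le
  · rw [conj_re, uu, UU_re]; exact (h.xxpos j).le
  · rw [uu, UU_im]; exact (h.thpos i).le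
  · rw [conj_im, uu, UU_im]; linarith [h.thpos j]

theorem good_aux (h : Zr a nl nr 1 z) {i j : ι} (hij : nl i = some j ∨ nr i = some j) :
    S3.Good (uu (z i)) ((starRingEnd ℂ) (uu (z j))) := by
  have hq := h.QO_edge hij
  have hr := h.reg_edge hij
  have f1 := h.Lc_uu i
  have f2 := h.Lc_uu j
  have f3 : Lc ((starRingEnd ℂ) (uu (z j))) = (starRingEnd ℂ) (Lc (uu (z j))) := by
    apply Lc_conj
    have := hr.right
    rwa [conj_im, abs_neg] at this
  have p1 := h.ph_le i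
  have p2 := h.ph_le j
  have p3 := h.phpos i
  have p4 := h.phpos j
  have hqe := h.qe_pos hij
  have hqe' : qq (uu (z i)) ((starRingEnd ℂ) (uu (z j))) = qe (z i) (z j) := by
    rw [qe, uu, uu, UU_conj]
  have c1 : (Lc ((starRingEnd ℂ) (uu (z j)))).im = -ph (z j).re (z j).im := by
    rw [f3, conj_im, f2.2]
  have c2 : (Lc ((starRingEnd ℂ) (uu (z j)))).re = -Real.log ‖cos (z j)‖ := by
    rw [f3, conj_re, f2.1]
  have g1 := neg_lcy_le hr (by rw [c1, f1.2]; linarith)
  have goal : (Lc (uu (z i))).im - (Lc ((starRingEnd ℂ) (uu (z j)))).im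
      - (lcy (uu (z i)) ((starRingEnd ℂ) (uu (z j)))).im
      + (qq (uu (z i)) ((starRingEnd ℂ) (uu (z j)))).im < Real.pi := by
    rcases h.alt hij with h1 | h1
    · have h2 := lcy_ge hr (by rw [f1.2]; exact p3.le) (by rw [c1]; linarith)
        (by
          rw [c2, f1.1]
          have := Real.log_le_log (h.norm_pos j) h1
          linarith)
      rw [c1, f1.2] at h2
      rw [c1, f1.2, hqe']
      linarith
    · rw [f1.2] at g1
      rw [c1, f1.2, hqe']
      linarith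
  exact good_own hr hq.ur hq.wr hq.ui hq.wi goal

/-- principal branches at an edge -/
theorem good_edge (h : Zr a nl nr 1 z) {i j : ι} (hij : nl i = some j ∨ nr i = some j) :
    S3.Good (uu (z i)) ((starRingEnd ℂ) (uu (z j))) ∧
    S3.Good ((starRingEnd ℂ) (uu (z j))) (uu (z i)) := by
  refine ⟨h.good_aux hij, ?_⟩
  have h1 := h.good_aux (h.N.symm i j hij)
  have h2 := h1.conj (h.reg_edge (h.N.symm i j hij))
  rwa [conj_conj] at h2

/-- The critical point at an edge with two vertices which are not ends `2`: `i` has `c < 0`. -/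
theorem ecrit (h : Zr a nl nr 1 z) {i j : ι} (hij : nl i = some j ∨ nr i = some j)
    (hi : E.Good a nl nr i) (hj : E.Good a nl nr j) :
    ECrit (uu (z i)) (-((starRingEnd ℂ) (uu (z j)))) (yy (uu (z i)) ((starRingEnd ℂ) (uu (z j))))
      (qe (z i) (z j)) (-((starRingEnd ℂ) (qe (z j) (z i)))) (-(2 * Real.pi * bw (z i) (z j)))
      (2 * Real.pi * bw (z j) (z i)) := by
  have hr := h.reg_edge hij
  obtain ⟨g1, g2⟩ := h.good_edge hij
  have hO := h.oppHyp hij
  have hji := h.N.symm i j hij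
  have hb := h.bw_pos hij
  have hb' := h.bw_pos hji
  set u := uu (z i) with hu
  set w := (starRingEnd ℂ) (uu (z j)) with hw
  have hw' : w = UU (xx (z j).re (z j).im) (-(th (z j).re (z j).im)) := by
    rw [hw, uu, UU_conj]
  have hrn := hr.neg_right
  have g1n := g1.neg_right
  have g2n := g2.neg_left hr.symm
  have ey1 : yy u (-w) = yy u w := yy_neg_right u w
  have ey2 : yy (-w) u = yy u w := by rw [yy_neg_left, yy_comm]
  have hq1 : qq u w = qe (z i) (z j) := by rw [qe, hw']; rfl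
  have hq2 : qq w u = (starRingEnd ℂ) (qe (z j) (z i)) := by
    have e1 : qe (z j) (z i) = qq ((starRingEnd ℂ) w) ((starRingEnd ℂ) u) := by
      rw [qe, hw, conj_conj, hu, uu, uu, UU_conj]
    rw [e1, qq_conj hr.symm, conj_conj]
  have ci := cosh_uu (h.pos i).1 (h.pos i).2.1 (h.pos i).2.2
  have cj := cosh_uu (h.pos j).1 (h.pos j).2.1 (h.pos j).2.2
  rw [← hu] at ci
  have cj' : cosh w * (starRingEnd ℂ) (cos (z j)) = 1 := by
    rw [hw, ← conj_cosh', ← map_mul, cj, map_one]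
  have ni : cos (z i) ≠ 0 := h.cos_ne i
  have nj : (starRingEnd ℂ) (cos (z j)) ≠ 0 := by
    rw [Ne, map_eq_zero]; exact h.cos_ne j
  have hcu : cosh u = 1 / cos (z i) := by field_simp; exact ci
  have hcw : cosh w = 1 / (starRingEnd ℂ) (cos (z j)) := by field_simp; exact cj'
  refine ⟨⟨sdom_op hr g1, ?_⟩, ?_, ?_, ?_, ?_, ?_⟩
  · have := sdom_op hrn.symm g2n
    rwa [ey2] at this
  · have := ey_add_eq hrn g1n g2n
    rwa [ey1] at this
  · rw [ev_op hr g1, hq1]
  · have := ev_op hrn.symm g2n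
    rw [ey2, qq_neg_left hr.symm, hq2] at this
    exact this
  · have e := A_op hrn
    rw [ey1] at e
    rw [e, TT_neg_right, cosh_neg]
    have hT : TT u w ^ 2 = 1 / cos (z i) ^ 2 + 1 / (starRingEnd ℂ) (cos (z j)) ^ 2 - 1 := by
      have := one_add_TT_sq hr
      rw [hcu, hcw] at this
      simp only [div_pow, one_pow] at this
      linear_combination this
    have k := h.k4 hij hi hj hT (TT_re_pos hr)
    have e2 : -(2 * (Real.pi : ℂ) * TT u w * (1 + TT u w ^ 2) ^ 2 / (cosh u ^ 2 * cosh w ^ 2))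
        = ((-(2 * Real.pi) : ℝ) : ℂ) * (TT u w * (1 / cos (z i) ^ 2 +
          1 / (starRingEnd ℂ) (cos (z j)) ^ 2) * (cos (z i) ^ 2 + (starRingEnd ℂ) (cos (z j)) ^ 2)) := by
      rw [one_add_TT_sq hr, hcu, hcw]
      push_cast
      field_simp
      ring
    rw [e2, re_ofReal_mul]
    have hpi := Real.pi_pos
    have := mul_pos (mul_pos two_pos hpi) k
    linarith
  · intro α β hαβ
    have e := qf_op hrn ((-(2 * Real.pi * bw (z i) (z j)) : ℝ) : ℂ)
      ((2 * Real.pi * bw (z j) (z i) : ℝ) : ℂ) α β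
    rw [ey1] at e
    rw [e]
    have k := qf_neg hO hb hb' (h.xxpos i) (h.xxpos j) (p := α) (q := -β) (by
      rcases hαβ with h1 | h1
      · exact Or.inl h1
      · exact Or.inr (neg_ne_zero.2 h1))
    rw [← hw'] at k
    change (-(2 / Real.pi) * (((α : ℂ) ^ 2 + ((-β : ℝ) : ℂ) ^ 2
        - 2 * tanh u * tanh w * ((α : ℂ) * ((-β : ℝ) : ℂ))) / TT u w)
      + I / (Real.pi : ℂ) ^ 2 * (((-(2 * Real.pi * bw (z i) (z j)) : ℝ) : ℂ) * (α : ℂ) ^ 2
          / cosh u ^ 2
        + ((2 * Real.pi * bw (z j) (z i) : ℝ) : ℂ) * ((-β : ℝ) : ℂ) ^ 2 / cosh w ^ 2)).re < 0 at k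
    rw [TT_neg_right, cosh_neg, tanh_neg]
    convert k using 2
    push_cast
    ring

/-- `v_c = z/π` for a vertex with `c < 0`, `v_c = -conj z/π` for a vertex with `c > 0`. -/
theorem gdv_uu (h : Zr a nl nr 1 z) (i : ι) :
    gdv (uu (z i)) = z i / Real.pi ∧
    gdv (-((starRingEnd ℂ) (uu (z i)))) = -((starRingEnd ℂ) (z i)) / Real.pi := by
  have hpi : (Real.pi : ℂ) ≠ 0 := by exact_mod_cast Real.pi_ne_zero
  have ht : |(uu (z i)).im| < Real.pi / 2 := by
    rw [uu, UU_im]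
    exact abs_th_lt (h.pos i).1 (h.pos i).2.1 (h.pos i).2.2
  have h1 : gdv (uu (z i)) = z i / Real.pi := by
    have := gd_eq ht
    rw [uu, h.gd_uu i] at this
    rw [eq_div_iff hpi, mul_comm]
    exact this.symm
  refine ⟨h1, ?_⟩
  have ht' : |((starRingEnd ℂ) (uu (z i))).im| < Real.pi / 2 := by rwa [conj_im, abs_neg]
  rw [gdv_neg ht', gdv_conj ht, h1, map_div₀, conj_ofReal, neg_div]

/-- The vertex equation, `c < 0`. -/
theorem hv_neg (h : Zr a nl nr 1 z) (i : ι) :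
    2 * Real.pi * I * (2 * ((-(a i / 2) : ℝ) : ℂ) * gdv (uu (z i)) + 1)
      - 2 * (qo z i (nl i) + qo z i (nr i)) = 0 := by
  have hpi : (Real.pi : ℂ) ≠ 0 := by exact_mod_cast Real.pi_ne_zero
  have h1 := h.vertex i
  rw [(h.gdv_uu i).1]
  push_cast
  field_simp
  linear_combination (-2 * I) * h1 - (2 * (qo z i (nl i) + qo z i (nr i))) * I_sq

/-- The vertex equation, `c > 0`. -/
theorem hv_pos (h : Zr a nl nr 1 z) (i : ι) :
    2 * Real.pi * I * (2 * (((a i / 2) : ℝ) : ℂ) * gdv (-((starRingEnd ℂ) (uu (z i)))) + 1)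
      + 2 * (starRingEnd ℂ) (qo z i (nl i) + qo z i (nr i)) = 0 := by
  have hpi : (Real.pi : ℂ) ≠ 0 := by exact_mod_cast Real.pi_ne_zero
  have h1 := congrArg (starRingEnd ℂ) (h.vertex i)
  simp only [map_mul, map_add, conj_ofReal, conj_I] at h1
  rw [(h.gdv_uu i).2, map_add]
  push_cast
  field_simp
  linear_combination (-2 * I) * h1 + (2 * ((starRingEnd ℂ) (qo z i (nl i))
    + (starRingEnd ℂ) (qo z i (nr i)))) * I_sq

end Zr

end E

end Pool.Agent.S3
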