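import Pool.Agent.H63.GO.Defs

/-! # First and second derivatives along lines -/

namespace Pool.Agent.S3

open Complex Filter Topology Pool.Agent.H63.GO

private theorem Line_deriv {ι : Type} [Fintype ι] (z ξ : ι → ℂ) (t : ℂ) :
    HasDerivAt (fun t : ℂ => z + t • ξ) ξ t := by
  have h : HasDerivAt (fun t : ℂ => t • ξ) ((1 : ℂ) • ξ) t := (hasDerivAt_id t).smul_const ξ
  rw [one_smul] at h
  exact h.const_add z

theorem fd_line {ι : Type} [Fintype ι] {V : (ι → ℂ) → ℂ} {z : ι → ℂ} (hV : AnalyticAt ℂ V z)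
    (ξ : ι → ℂ) {d : ℂ} (h : HasDerivAt (fun t : ℂ => V (z + t • ξ)) d 0) :
    fderiv ℂ V z ξ = d := by
  have e : z + (0 : ℂ) • ξ = z := by rw [zero_smul, add_zero]
  have h1 : HasFDerivAt V (fderiv ℂ V z) (z + (0 : ℂ) • ξ) := by
    rw [e]
    exact hV.differentiableAt.hasFDerivAt
  exact (h1.comp_hasDerivAt (0 : ℂ) (Line_deriv z ξ 0)).unique h

theorem D2_line {ι : Type} [Fintype ι] {V : (ι → ℂ) → ℂ} {z : ι → ℂ} (hV : AnalyticAt ℂ V z)
    (ξ : ι → ℂ) {d : ℂ → ℂ} {D : ℂ}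
    (h1 : ∀ᶠ t in 𝓝 (0 : ℂ), HasDerivAt (fun t : ℂ => V (z + t • ξ)) (d t) t)
    (h2 : HasDerivAt d D 0) : D2 V z ξ = D := by
  have e : z + (0 : ℂ) • ξ = z := by rw [zero_smul, add_zero]
  have hc : Tendsto (fun t : ℂ => z + t • ξ) (𝓝 0) (𝓝 z) := by
    have h3 := (Line_deriv z ξ 0).continuousAt.tendsto
    rwa [e] at h3
  have h4 : ∀ᶠ t in 𝓝 (0 : ℂ), d t = fderiv ℂ V (z + t • ξ) ξ := by
    filter_upwards [h1, hc.eventually hV.eventually_analyticAt] with t ht hta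
    exact ht.unique (hta.differentiableAt.hasFDerivAt.comp_hasDerivAt t (Line_deriv z ξ t))
  have hW : AnalyticAt ℂ (fun w => fderiv ℂ V w ξ) z :=
    ((ContinuousLinearMap.apply ℂ ℂ ξ).analyticAt _).comp hV.fderiv
  have h5 : HasFDerivAt (fun w => fderiv ℂ V w ξ) (fderiv ℂ (fun w => fderiv ℂ V w ξ) z)
      (z + (0 : ℂ) • ξ) := by
    rw [e]
    exact hW.differentiableAt.hasFDerivAt
  have h6 := h5.comp_hasDerivAt (0 : ℂ) (Line_deriv z ξ 0)
  have h7 : HasDerivAt (fun t : ℂ => fderiv ℂ V (z + t • ξ) ξ) D 0 :=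
    h2.congr_of_eventuallyEq (h4.mono fun t ht => ht.symm)
  exact h6.unique h7

end Pool.Agent.S3
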