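import Pool.Agent.S3.Edge
import Pool.Agent.S3.Gr4

/-!
# The contour of a vertex

The `u`-line of height `θ` over `|re v| ≤ v1`, vertical segments down to the height `ε`, horizontal
segments to `re v = ±1/2` and vertical lines to `±1/2`.
-/

namespace Pool.Agent.S3

open Complex Filter Topology Pool.Agent.H25.RK

/-- The abscissa `x` at which the `u`-line of height `θ` reaches `re v = v1`. -/
noncomputable def xl (θ v1 : ℝ) : ℝ := Real.arsinh (Real.cos θ * Real.tan (Real.pi * v1))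

/-- The right half of the contour after the `u`-line, `t = x - xl θ v1 ≥ 0`. -/
noncomputable def gamR (θ v1 ε t : ℝ) : ℂ :=
  if t ≤ 1 then v1 + ((1 - t) * bl θ v1 + t * ε : ℝ) * I
  else if t ≤ 2 then ((v1 + (t - 1) * (1 / 2 - v1) : ℝ) : ℂ) + ε * I
  else 1 / 2 + (ε * Real.exp (2 - t) : ℝ) * I

/-- Its derivative. -/
noncomputable def gamR' (θ v1 ε t : ℝ) : ℂ :=
  if t ≤ 1 then ((ε - bl θ v1 : ℝ) : ℂ) * I
  else if t ≤ 2 then ((1 / 2 - v1 : ℝ) : ℂ)
  else (-(ε * Real.exp (2 - t)) : ℝ) * I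

/-- The contour. -/
noncomputable def gam (θ v1 ε x : ℝ) : ℂ :=
  if |x| ≤ xl θ v1 then gdv (ul θ x)
  else if 0 ≤ x then gamR θ v1 ε (x - xl θ v1)
  else -(starRingEnd ℂ) (gamR θ v1 ε (-x - xl θ v1))

/-- Its derivative. -/
noncomputable def gam' (θ v1 ε x : ℝ) : ℂ :=
  if |x| ≤ xl θ v1 then 1 / (Real.pi * cosh (ul θ x))
  else if 0 ≤ x then gamR' θ v1 ε (x - xl θ v1)
  else (starRingEnd ℂ) (gamR' θ v1 ε (-x - xl θ v1))

private theorem Cont_abs {θ : ℝ} (h0 : 0 < θ) (h1 : θ < Real.pi / 2) (x : ℝ) :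
    |(ul θ x).im| < Real.pi / 2 := by
  rw [ul_im, abs_of_pos h0]
  exact h1

private theorem Cont_cos {θ : ℝ} (h0 : 0 < θ) (h1 : θ < Real.pi / 2) : 0 < Real.cos θ :=
  Real.cos_pos_of_mem_Ioo ⟨by linarith, h1⟩

private theorem Cont_sin {θ : ℝ} (h0 : 0 < θ) (h1 : θ < Real.pi / 2) : 0 < Real.sin θ :=
  Real.sin_pos_of_pos_of_lt_pi h0 (by linarith [Real.pi_pos])

private theorem Cont_tan {θ : ℝ} (h0 : 0 < θ) (h1 : θ < Real.pi / 2) : 0 < Real.tan θ :=
  Real.tan_pos_of_pos_of_lt_pi_div_two h0 h1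

/-- The real part along the `u`-line. -/
private theorem Cont_sc {θ : ℝ} (h0 : 0 < θ) (h1 : θ < Real.pi / 2) (x : ℝ) :
    Real.cos θ * Real.sin (Real.pi * (gdv (ul θ x)).re) =
      Real.sinh x * Real.cos (Real.pi * (gdv (ul θ x)).re) := by
  have hθ := Cont_abs h0 h1 x
  have hpos : 0 < (gdv (ul θ x)).im := gdv_im_pos (by rwa [ul_im]) (by rwa [ul_im])
  have hs := sin_gdv hθ
  have hc := cos_gdv hθ
  have hne := cosh_ne hθ
  have hst : 0 < Real.sin θ := Cont_sin h0 h1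
  have hct : 0 < Real.cos θ := Cont_cos h0 h1
  set a := (gdv (ul θ x)).re with ha
  set b := (gdv (ul θ x)).im with hb
  have hv : (Real.pi : ℂ) * gdv (ul θ x) = ((Real.pi * a : ℝ) : ℂ) + ((Real.pi * b : ℝ) : ℂ) * I := by
    rw [← re_add_im (gdv (ul θ x)), ← ha, ← hb]
    push_cast
    ring
  rw [eq_div_iff hne, cosh_ul_norm_sq, sinh_ul, hv, Complex.sin_add_mul_I] at hs
  rw [eq_div_iff hne, cosh_ul_norm_sq, hv, Complex.cos_add_mul_I] at hc
  rw [← ofReal_sin, ← ofReal_cos, ← ofReal_sinh, ← ofReal_cosh] at hs hc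
  have hs1 := congrArg Complex.re hs
  have hs2 := congrArg Complex.im hs
  have hc1 := congrArg Complex.re hc
  have hc2 := congrArg Complex.im hc
  simp only [add_re, add_im, sub_re, sub_im, mul_re, mul_im, ofReal_re, ofReal_im, I_re, I_im,
    mul_zero, mul_one, zero_mul, sub_zero, add_zero, zero_add, one_re, one_im] at hs1 hs2 hc1 hc2
  have hsb : 0 < Real.sinh (Real.pi * b) := Real.sinh_pos_iff.mpr (mul_pos Real.pi_pos hpos)
  generalize Real.sinh (Real.pi * b) = S at *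
  generalize Real.cosh (Real.pi * b) = C at *
  generalize Real.sin (Real.pi * a) = s at *
  generalize Real.cos (Real.pi * a) = c at *
  have h2 := Real.sin_sq_add_cos_sq θ
  have h3 := Real.cosh_sq x
  generalize Real.sinh x = sx at *
  generalize Real.cosh x = cx at *
  generalize Real.sin θ = st at *
  generalize Real.cos θ = ct at *
  set D : ℝ := ct ^ 2 + sx ^ 2 with hD
  have hD0 : 0 < D := by positivity
  have e1 : c * S * D = st * ct := by
    rw [hD]
    linear_combination (cx * ct) * hs2 - (sx * st) * hs1 + (st * ct - c * S * ct ^ 2) * h3 -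
      (c * S * sx ^ 2) * h2
  have e2 : s * S * D = sx * st := by
    rw [hD]
    linear_combination (sx * st) * hc1 - (cx * ct) * hc2 - (s * S * ct ^ 2) * h3 -
      (s * S * sx ^ 2) * h2
  have e5 : S * D * (ct * s) = S * D * (sx * c) := by
    linear_combination ct * e2 - sx * e1
  exact mul_left_cancel₀ (mul_pos hsb hD0).ne' e5

private theorem Cont_cpos {a : ℝ} (h : |a| < 1 / 2) : 0 < Real.cos (Real.pi * a) := by
  have hpi := Real.pi_pos
  have h1 := abs_lt.1 h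
  apply Real.cos_pos_of_mem_Ioo
  constructor <;> nlinarith

private theorem Cont_re {θ : ℝ} (h0 : 0 < θ) (h1 : θ < Real.pi / 2) (x : ℝ) :
    (gdv (ul θ x)).re = Real.arctan (Real.sinh x / Real.cos θ) / Real.pi := by
  have hpi := Real.pi_pos
  have hre := gdv_re_lt (Cont_abs h0 h1 x)
  have key := Cont_sc h0 h1 x
  have hct := Cont_cos h0 h1
  have hc := Cont_cpos hre
  have h2 := abs_lt.1 hre
  have h3 : Real.tan (Real.pi * (gdv (ul θ x)).re) = Real.sinh x / Real.cos θ := by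
    rw [Real.tan_eq_sin_div_cos, div_eq_div_iff hc.ne' hct.ne', mul_comm _ (Real.cos θ), key]
  rw [← h3, Real.arctan_tan (by nlinarith) (by nlinarith)]
  field_simp

/-- The `u`-line is the graph of `bl θ`. -/
theorem gdv_ul_im {θ : ℝ} (h0 : 0 < θ) (h1 : θ < Real.pi / 2) (x : ℝ) :
    (gdv (ul θ x)).im = bl θ (gdv (ul θ x)).re := by
  have hpi := Real.pi_pos
  have key := gdv_curve h0 h1 x
  have hct := Cont_cos h0 h1
  have h2 : Real.sinh (Real.pi * (gdv (ul θ x)).im) =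
      Real.tan θ * Real.cos (Real.pi * (gdv (ul θ x)).re) := by
    rw [Real.tan_eq_sin_div_cos, div_mul_eq_mul_div, eq_div_iff hct.ne', key]
  unfold bl
  rw [← h2, Real.arsinh_sinh]
  field_simp

private theorem Cont_ext {θ : ℝ} (h0 : 0 < θ) (h1 : θ < Real.pi / 2) {a : ℝ} (ha : |a| < 1 / 2) :
    gdv (ul θ (Real.arsinh (Real.cos θ * Real.tan (Real.pi * a)))) = a + bl θ a * I := by
  have hpi := Real.pi_pos
  have hct := Cont_cos h0 h1
  have h2 := abs_lt.1 ha
  have hre : (gdv (ul θ (Real.arsinh (Real.cos θ * Real.tan (Real.pi * a))))).re = a := by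
    rw [Cont_re h0 h1, Real.sinh_arsinh, mul_div_cancel_left₀ _ hct.ne',
      Real.arctan_tan (by nlinarith) (by nlinarith)]
    field_simp
  apply Complex.ext
  · rw [hre]
    simp
  · rw [gdv_ul_im h0 h1, hre]
    simp

private theorem Cont_ab {v1 : ℝ} (hv : 0 < v1) (hv' : v1 < 1 / 2) : |v1| < 1 / 2 := by
  rw [abs_of_pos hv]
  exact hv'

theorem gdv_ul_xl {θ v1 : ℝ} (h0 : 0 < θ) (h1 : θ < Real.pi / 2) (hv : 0 < v1)
    (hv' : v1 < 1 / 2) : gdv (ul θ (xl θ v1)) = v1 + bl θ v1 * I := by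
  unfold xl
  exact Cont_ext h0 h1 (Cont_ab hv hv')

private theorem Cont_bl_neg (θ a : ℝ) : bl θ (-a) = bl θ a := by
  unfold bl
  rw [mul_neg, Real.cos_neg]

private theorem Cont_bl_abs (θ a : ℝ) : bl θ |a| = bl θ a := by
  rcases abs_choice a with h | h
  · rw [h]
  · rw [h, Cont_bl_neg]

theorem gdv_ul_neg' (θ x : ℝ) (h0 : 0 < θ) (h1 : θ < Real.pi / 2) :
    gdv (ul θ (-x)) = -(starRingEnd ℂ) (gdv (ul θ x)) := by
  have hre : (gdv (ul θ (-x))).re = -(gdv (ul θ x)).re := by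
    rw [Cont_re h0 h1, Cont_re h0 h1, Real.sinh_neg, neg_div, Real.arctan_neg, neg_div]
  apply Complex.ext
  · rw [hre, neg_re, conj_re]
  · rw [gdv_ul_im h0 h1, hre, Cont_bl_neg, neg_im, conj_im, neg_neg, gdv_ul_im h0 h1 x]

private theorem Cont_mono {θ : ℝ} (h0 : 0 < θ) (h1 : θ < Real.pi / 2) :
    StrictMono fun x => (gdv (ul θ x)).re := by
  intro x y hxy
  have hct := Cont_cos h0 h1
  dsimp only
  rw [Cont_re h0 h1, Cont_re h0 h1]
  have h2 : Real.sinh x / Real.cos θ < Real.sinh y / Real.cos θ :=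
    div_lt_div_of_pos_right (Real.sinh_lt_sinh.2 hxy) hct
  exact div_lt_div_of_pos_right (Real.arctan_strictMono h2) Real.pi_pos

private theorem Cont_re_neg {θ : ℝ} (h0 : 0 < θ) (h1 : θ < Real.pi / 2) (x : ℝ) :
    (gdv (ul θ (-x))).re = -(gdv (ul θ x)).re := by
  rw [gdv_ul_neg' θ x h0 h1, neg_re, conj_re]

private theorem Cont_re_abs {θ : ℝ} (h0 : 0 < θ) (h1 : θ < Real.pi / 2) (x : ℝ) :
    |(gdv (ul θ x)).re| = (gdv (ul θ |x|)).re := by
  have hz : (gdv (ul θ 0)).re = 0 := by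
    have := Cont_re_neg h0 h1 0
    rw [neg_zero] at this
    linarith
  have hm := Cont_mono h0 h1
  rcases le_total 0 x with h | h
  · rw [abs_of_nonneg h, abs_of_nonneg]
    have := hm.monotone h
    linarith
  · rw [abs_of_nonpos h, Cont_re_neg h0 h1, abs_of_nonpos]
    have := hm.monotone h
    linarith

private theorem Cont_re_xl {θ v1 : ℝ} (h0 : 0 < θ) (h1 : θ < Real.pi / 2) (hv : 0 < v1)
    (hv' : v1 < 1 / 2) : (gdv (ul θ (xl θ v1))).re = v1 := by
  rw [gdv_ul_xl h0 h1 hv hv']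
  simp

private theorem Cont_xl_pos {θ v1 : ℝ} (h0 : 0 < θ) (h1 : θ < Real.pi / 2) (hv : 0 < v1)
    (hv' : v1 < 1 / 2) : 0 < xl θ v1 := by
  unfold xl
  have hpi := Real.pi_pos
  rw [Real.arsinh_pos_iff]
  exact mul_pos (Cont_cos h0 h1) (Real.tan_pos_of_pos_of_lt_pi_div_two (by positivity)
    (by nlinarith))

theorem gdv_ul_lt {θ v1 x : ℝ} (h0 : 0 < θ) (h1 : θ < Real.pi / 2) (hv : 0 < v1)
    (hv' : v1 < 1 / 2) : |x| < xl θ v1 ↔ |(gdv (ul θ x)).re| < v1 := by
  rw [Cont_re_abs h0 h1]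
  have h := (Cont_mono h0 h1).lt_iff_lt (a := |x|) (b := xl θ v1)
  rw [Cont_re_xl h0 h1 hv hv'] at h
  exact h.symm

theorem gdv_ul_le {θ v1 x : ℝ} (h0 : 0 < θ) (h1 : θ < Real.pi / 2) (hv : 0 < v1)
    (hv' : v1 < 1 / 2) : |x| ≤ xl θ v1 ↔ |(gdv (ul θ x)).re| ≤ v1 := by
  rw [Cont_re_abs h0 h1]
  have h := (Cont_mono h0 h1).le_iff_le (a := |x|) (b := xl θ v1)
  rw [Cont_re_xl h0 h1 hv hv'] at h
  exact h.symm

theorem bl_pos {θ a : ℝ} (h0 : 0 < θ) (h1 : θ < Real.pi / 2) (ha : |a| < 1 / 2) : 0 < bl θ a := by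
  unfold bl
  refine div_pos ?_ Real.pi_pos
  rw [Real.arsinh_pos_iff]
  exact mul_pos (Cont_tan h0 h1) (Cont_cpos ha)

private theorem Cont_bl_cont (θ : ℝ) : Continuous (bl θ) := by
  unfold bl
  exact (Real.continuous_arsinh.comp (continuous_const.mul
    (Real.continuous_cos.comp (continuous_const.mul continuous_id)))).div_const _

/-- `bl` is decreasing in `|a|`. -/
private theorem Cont_bl_anti {θ a b : ℝ} (h0 : 0 < θ) (h1 : θ < Real.pi / 2) (hab : |a| ≤ |b|)
    (hb : |b| ≤ 1 / 2) : bl θ b ≤ bl θ a := by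
  have hpi := Real.pi_pos
  rw [← Cont_bl_abs θ a, ← Cont_bl_abs θ b]
  unfold bl
  refine div_le_div_of_nonneg_right ?_ hpi.le
  rw [Real.arsinh_le_arsinh]
  refine mul_le_mul_of_nonneg_left ?_ (Cont_tan h0 h1).le
  have ha := abs_nonneg a
  have hb0 := abs_nonneg b
  exact Real.cos_le_cos_of_nonneg_of_le_pi (by positivity) (by nlinarith) (by nlinarith)

private theorem Cont_bl_bdd (θ : ℝ) : ∃ B : ℝ, ∀ a, |bl θ a| ≤ B := by
  refine ⟨Real.arsinh |Real.tan θ| / Real.pi, fun a => ?_⟩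
  have hpi := Real.pi_pos
  unfold bl
  rw [abs_div, abs_of_pos hpi]
  refine div_le_div_of_nonneg_right ?_ hpi.le
  have h1 : |Real.tan θ * Real.cos (Real.pi * a)| ≤ |Real.tan θ| := by
    rw [abs_mul]
    exact mul_le_of_le_one_right (abs_nonneg _) (Real.abs_cos_le_one _)
  have h2 := abs_le.1 h1
  rw [abs_le]
  constructor
  · rw [← Real.arsinh_neg, Real.arsinh_le_arsinh]
    exact h2.1
  · rw [Real.arsinh_le_arsinh]
    exact h2.2

theorem G0_compact (θ v1 : ℝ) : IsCompact (G0 θ v1) := by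
  obtain ⟨B, hB⟩ := Cont_bl_bdd θ
  have hB0 : 0 ≤ B := (abs_nonneg _).trans (hB 0)
  have hbc := Cont_bl_cont θ
  have hcl : IsClosed (G0 θ v1) := by
    have c1 : IsClosed {v : ℂ | |v.re| ≤ v1 ∧ v.im = bl θ v.re} :=
      (isClosed_le (continuous_abs.comp continuous_re) continuous_const).inter
        (isClosed_eq continuous_im (hbc.comp continuous_re))
    have c2 : IsClosed {v : ℂ | |v.re| = v1 ∧ 0 ≤ v.im ∧ v.im ≤ bl θ v1} :=
      (isClosed_eq (continuous_abs.comp continuous_re) continuous_const).inter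
        ((isClosed_le continuous_const continuous_im).inter
          (isClosed_le continuous_im continuous_const))
    have c3 : IsClosed {v : ℂ | v1 ≤ |v.re| ∧ |v.re| ≤ 1 / 2 ∧ v.im = 0} :=
      (isClosed_le continuous_const (continuous_abs.comp continuous_re)).inter
        ((isClosed_le (continuous_abs.comp continuous_re) continuous_const).inter
          (isClosed_eq continuous_im continuous_const))
    exact c1.union (c2.union c3)
  refine IsCompact.of_isClosed_subset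
    ((isCompact_Icc (a := -(|v1| + 1)) (b := |v1| + 1)).reProdIm
      (isCompact_Icc (a := -B) (b := B))) hcl ?_
  intro v hv
  rw [mem_reProdIm, Set.mem_Icc, Set.mem_Icc, ← abs_le, ← abs_le]
  have h1 := le_abs_self v1
  have h2 := abs_nonneg v1
  rcases hv with ⟨ha, hb⟩ | ⟨ha, hb, hc⟩ | ⟨_, hb, hc⟩
  · exact ⟨by linarith, by rw [hb]; exact hB _⟩
  · refine ⟨by linarith, ?_⟩
    rw [abs_of_nonneg hb]
    exact hc.trans ((le_abs_self _).trans (hB _))
  · refine ⟨by linarith, ?_⟩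
    rw [hc, abs_zero]
    exact hB0

private theorem Cont_G0_symm {θ v1 : ℝ} {v : ℂ} (h : v ∈ G0 θ v1) :
    -(starRingEnd ℂ) v ∈ G0 θ v1 := by
  have hre : (-(starRingEnd ℂ) v).re = -v.re := by rw [neg_re, conj_re]
  have him : (-(starRingEnd ℂ) v).im = v.im := by rw [neg_im, conj_im, neg_neg]
  unfold G0 at h ⊢
  rw [Set.mem_ofPred_eq] at h ⊢
  rw [hre, him, abs_neg, Cont_bl_neg]
  exact h

theorem G0_mem {θ v1 x : ℝ} (h0 : 0 < θ) (h1 : θ < Real.pi / 2) (hv : 0 < v1)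
    (hv' : v1 < 1 / 2) (hx : |x| ≤ xl θ v1) : gdv (ul θ x) ∈ G0 θ v1 :=
  Or.inl ⟨(gdv_ul_le h0 h1 hv hv').1 hx, gdv_ul_im h0 h1 x⟩

/-- Points of the limit contour over `|re v| ≤ v1` at positive distance from the verticals are on the
line. -/
theorem G0_line {θ v1 : ℝ} (h0 : 0 < θ) (h1 : θ < Real.pi / 2) (hv : 0 < v1)
    (hv' : v1 < 1 / 2) {v : ℂ} (h : v ∈ G0 θ v1) (h2 : |v.re| < v1) :
    ∃ x, |x| < xl θ v1 ∧ v = gdv (ul θ x) := by
  have him : v.im = bl θ v.re := by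
    rcases h with ⟨_, hb⟩ | ⟨ha, _, _⟩ | ⟨ha, _, _⟩
    · exact hb
    · exact absurd ha h2.ne
    · exact absurd h2 (not_lt.2 ha)
  have hlt : |v.re| < 1 / 2 := h2.trans hv'
  have e := Cont_ext h0 h1 hlt
  have e2 : v = gdv (ul θ (Real.arsinh (Real.cos θ * Real.tan (Real.pi * v.re)))) := by
    rw [e, ← him, re_add_im]
  refine ⟨_, ?_, e2⟩
  rw [gdv_ul_lt h0 h1 hv hv', ← e2]
  exact h2

/-! ### The right half -/

private theorem Cont_R_re {θ v1 ε t : ℝ} : (gamR θ v1 ε t).re =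
    if t ≤ 1 then v1 else if t ≤ 2 then v1 + (t - 1) * (1 / 2 - v1) else 1 / 2 := by
  unfold gamR
  split_ifs
  · rw [add_re, ofReal_re, re_ofReal_mul, I_re, mul_zero, add_zero]
  · rw [add_re, ofReal_re, re_ofReal_mul, I_re, mul_zero, add_zero]
  · rw [add_re, re_ofReal_mul, I_re, mul_zero, add_zero]
    norm_num

private theorem Cont_R_im {θ v1 ε t : ℝ} : (gamR θ v1 ε t).im =
    if t ≤ 1 then (1 - t) * bl θ v1 + t * ε else if t ≤ 2 then ε else ε * Real.exp (2 - t) := by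
  unfold gamR
  split_ifs
  · rw [add_im, ofReal_im, im_ofReal_mul, I_im, mul_one, zero_add]
  · rw [add_im, ofReal_im, im_ofReal_mul, I_im, mul_one, zero_add]
  · rw [add_im, im_ofReal_mul, I_im, mul_one]
    norm_num

private theorem Cont_R_pos {θ v1 ε t : ℝ} (hb : 0 < bl θ v1) (hε : 0 < ε) (ht : 0 ≤ t) :
    0 < (gamR θ v1 ε t).im := by
  rw [Cont_R_im]
  split_ifs with h1 h2
  · rcases le_or_gt t (1 / 2) with h | h
    · have : 0 < (1 - t) * bl θ v1 := mul_pos (by linarith) hb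
      have : 0 ≤ t * ε := mul_nonneg ht hε.le
      linarith
    · have : 0 ≤ (1 - t) * bl θ v1 := mul_nonneg (by linarith) hb.le
      have : 0 < t * ε := mul_pos (by linarith) hε
      linarith
  · exact hε
  · positivity

private theorem Cont_R_cont (θ v1 ε : ℝ) : Continuous (gamR θ v1 ε) := by
  unfold gamR
  refine Continuous.if_le (by fun_prop) ?_ continuous_id continuous_const ?_
  · refine Continuous.if_le (by fun_prop) (by fun_prop) continuous_id continuous_const ?_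
    intro t ht
    rw [ht]
    simp
    ring
  · intro t ht
    rw [ht, if_pos (by norm_num)]
    simp

private theorem Cont_R_zero (θ v1 ε : ℝ) : gamR θ v1 ε 0 = v1 + bl θ v1 * I := by
  unfold gamR
  rw [if_pos zero_le_one]
  simp

private theorem Cont_R_der {θ v1 ε t : ℝ} (ht1 : t ≠ 1) (ht2 : t ≠ 2) :
    HasDerivAt (gamR θ v1 ε) (gamR' θ v1 ε t) t := by
  have hid : HasDerivAt (fun y : ℝ => (y : ℂ)) 1 t := by
    simpa using (hasDerivAt_id t).ofReal_comp
  rcases lt_or_gt_of_ne ht1 with h | h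
  · have e : gamR θ v1 ε =ᶠ[𝓝 t] fun y : ℝ => (v1 : ℂ) + ((1 - (y : ℂ)) * bl θ v1 + y * ε) * I := by
      filter_upwards [Iio_mem_nhds h] with y hy
      unfold gamR
      rw [if_pos (le_of_lt hy)]
      push_cast
      ring
    have d : HasDerivAt (fun y : ℝ => (v1 : ℂ) + ((1 - (y : ℂ)) * bl θ v1 + y * ε) * I)
        (((0 - 1) * bl θ v1 + 1 * ε) * I) t :=
      (((((hasDerivAt_const t (1 : ℂ)).sub hid).mul_const (bl θ v1 : ℂ)).add
        (hid.mul_const (ε : ℂ))).mul_const I).const_add (v1 : ℂ)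
    have d2 := d.congr_of_eventuallyEq e
    refine d2.congr_deriv ?_
    unfold gamR'
    rw [if_pos h.le]
    push_cast
    ring
  · rcases lt_or_gt_of_ne ht2 with h2 | h2
    · have e : gamR θ v1 ε =ᶠ[𝓝 t]
          fun y : ℝ => (v1 : ℂ) + ((y : ℂ) - 1) * (1 / 2 - v1) + ε * I := by
        filter_upwards [Iio_mem_nhds h2, Ioi_mem_nhds h] with y hy hy2
        unfold gamR
        rw [if_neg (not_le.2 hy2), if_pos (le_of_lt hy)]
        push_cast
        ring
      have d : HasDerivAt (fun y : ℝ => (v1 : ℂ) + ((y : ℂ) - 1) * (1 / 2 - v1) + ε * I)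
          (1 * (1 / 2 - v1)) t :=
        (((hid.sub_const (1 : ℂ)).mul_const (1 / 2 - v1 : ℂ)).const_add (v1 : ℂ)).add_const
          (ε * I : ℂ)
      have d2 := d.congr_of_eventuallyEq e
      refine d2.congr_deriv ?_
      unfold gamR'
      rw [if_neg (not_le.2 h), if_pos h2.le]
      push_cast
      ring
    · have e : gamR θ v1 ε =ᶠ[𝓝 t]
          fun y : ℝ => (1 / 2 : ℂ) + ((ε * Real.exp (2 - y) : ℝ) : ℂ) * I := by
        filter_upwards [Ioi_mem_nhds h2] with y hy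
        unfold gamR
        rw [if_neg (not_le.2 (lt_trans one_lt_two hy)), if_neg (not_le.2 hy)]
      have d0 : HasDerivAt (fun y : ℝ => ε * Real.exp (2 - y)) (ε * (Real.exp (2 - t) * (0 - 1))) t :=
        ((hasDerivAt_const t (2 : ℝ)).sub (hasDerivAt_id t)).exp.const_mul ε
      have d : HasDerivAt (fun y : ℝ => (1 / 2 : ℂ) + ((ε * Real.exp (2 - y) : ℝ) : ℂ) * I)
          (((ε * (Real.exp (2 - t) * (0 - 1)) : ℝ) : ℂ) * I) t :=
        (d0.ofReal_comp.mul_const I).const_add (1 / 2 : ℂ)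
      have d2 := d.congr_of_eventuallyEq e
      refine d2.congr_deriv ?_
      unfold gamR'
      rw [if_neg (not_le.2 h), if_neg (not_le.2 h2)]
      congr 2
      ring

private theorem Cont_R'_norm {θ v1 ε t : ℝ} (hε : 0 < ε) : ‖gamR' θ v1 ε t‖ ≤
    (|ε - bl θ v1| + |1 / 2 - v1| + ε) * Real.exp (2 - t) := by
  have ha := abs_nonneg (ε - bl θ v1)
  have hb := abs_nonneg (1 / 2 - v1)
  set A := |ε - bl θ v1| + |1 / 2 - v1| + ε with hA
  have hA0 : 0 ≤ A := by positivity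
  have hexp : t ≤ 2 → A ≤ A * Real.exp (2 - t) := fun h => by
    have : 1 ≤ Real.exp (2 - t) := Real.one_le_exp (by linarith)
    nlinarith
  unfold gamR'
  split_ifs with h1 h2
  · rw [norm_mul, norm_I, mul_one, norm_real, Real.norm_eq_abs]
    exact le_trans (by linarith) (hexp (by linarith))
  · rw [norm_real, Real.norm_eq_abs]
    exact le_trans (by linarith) (hexp h2)
  · rw [norm_mul, norm_I, mul_one, norm_real, Real.norm_eq_abs, abs_neg, abs_mul,
      abs_of_pos hε, abs_of_pos (Real.exp_pos _)]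
    exact mul_le_mul_of_nonneg_right (by linarith) (Real.exp_pos _).le

private theorem Cont_R'_meas (θ v1 ε : ℝ) : Measurable (gamR' θ v1 ε) := by
  unfold gamR'
  refine Measurable.ite measurableSet_Iic measurable_const ?_
  refine Measurable.ite measurableSet_Iic measurable_const ?_
  exact Continuous.measurable (by fun_prop)

/-- The contour with two one-sided distinctions. -/
private theorem Cont_gam_eq {θ v1 ε : ℝ} (hx0 : 0 < xl θ v1) (x : ℝ) : gam θ v1 ε x =
    if x ≤ xl θ v1 then (if -xl θ v1 ≤ x then gdv (ul θ x)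
      else -(starRingEnd ℂ) (gamR θ v1 ε (-x - xl θ v1))) else gamR θ v1 ε (x - xl θ v1) := by
  unfold gam
  by_cases h1 : x ≤ xl θ v1
  · rw [if_pos h1]
    by_cases h2 : -xl θ v1 ≤ x
    · rw [if_pos h2, if_pos (abs_le.2 ⟨h2, h1⟩)]
    · rw [if_neg h2, if_neg fun h => h2 (abs_le.1 h).1, if_neg (by linarith)]
  · rw [if_neg h1, if_neg fun h => h1 (abs_le.1 h).2, if_pos (by linarith)]

private theorem Cont_gam_mid {θ v1 ε x : ℝ} (h : |x| ≤ xl θ v1) :
    gam θ v1 ε x = gdv (ul θ x) := by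
  unfold gam
  rw [if_pos h]

private theorem Cont_gam_right {θ v1 ε x : ℝ} (hx0 : 0 < xl θ v1) (h : xl θ v1 < x) :
    gam θ v1 ε x = gamR θ v1 ε (x - xl θ v1) := by
  unfold gam
  rw [if_neg fun h' => not_lt.2 (abs_le.1 h').2 h, if_pos (by linarith)]

private theorem Cont_gam_left {θ v1 ε x : ℝ} (hx0 : 0 < xl θ v1) (h : x < -xl θ v1) :
    gam θ v1 ε x = -(starRingEnd ℂ) (gamR θ v1 ε (-x - xl θ v1)) := by
  unfold gam
  rw [if_neg fun h' => not_lt.2 (abs_le.1 h').1 h, if_neg (by linarith)]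

private theorem Cont_gam'_mid {θ v1 ε x : ℝ} (h : |x| ≤ xl θ v1) :
    gam' θ v1 ε x = 1 / (Real.pi * cosh (ul θ x)) := by
  unfold gam'
  rw [if_pos h]

private theorem Cont_gam'_right {θ v1 ε x : ℝ} (hx0 : 0 < xl θ v1) (h : xl θ v1 < x) :
    gam' θ v1 ε x = gamR' θ v1 ε (x - xl θ v1) := by
  unfold gam'
  rw [if_neg fun h' => not_lt.2 (abs_le.1 h').2 h, if_pos (by linarith)]

private theorem Cont_gam'_left {θ v1 ε x : ℝ} (hx0 : 0 < xl θ v1) (h : x < -xl θ v1) :
    gam' θ v1 ε x = (starRingEnd ℂ) (gamR' θ v1 ε (-x - xl θ v1)) := by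
  unfold gam'
  rw [if_neg fun h' => not_lt.2 (abs_le.1 h').1 h, if_neg (by linarith)]

/-- Three cases. -/
private theorem Cont_cases {θ v1 : ℝ} (x : ℝ) :
    |x| ≤ xl θ v1 ∨ xl θ v1 < x ∨ x < -xl θ v1 := by
  by_cases h : |x| ≤ xl θ v1
  · exact Or.inl h
  · rw [abs_le, not_and_or, not_le, not_le] at h
    rcases h with h | h
    · exact Or.inr (Or.inr h)
    · exact Or.inr (Or.inl h)

private theorem Cont_line_cont {θ : ℝ} (h0 : 0 < θ) (h1 : θ < Real.pi / 2) :
    Continuous fun x => gdv (ul θ x) :=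
  continuous_iff_continuousAt.2 fun x =>
    (gdv_ul_hasDerivAt (by rw [abs_of_pos h0]; exact h1) x).continuousAt

private theorem Cont_gam_cont {θ v1 ε : ℝ} (h0 : 0 < θ) (h1 : θ < Real.pi / 2) (hv : 0 < v1)
    (hv' : v1 < 1 / 2) : Continuous (gam θ v1 ε) := by
  have hx0 := Cont_xl_pos h0 h1 hv hv'
  have hR := Cont_R_cont θ v1 ε
  have e : gam θ v1 ε = fun x => if x ≤ xl θ v1 then (if -xl θ v1 ≤ x then gdv (ul θ x)
      else -(starRingEnd ℂ) (gamR θ v1 ε (-x - xl θ v1))) else gamR θ v1 ε (x - xl θ v1) :=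
    funext (Cont_gam_eq hx0)
  rw [e]
  refine Continuous.if_le ?_ (hR.comp (by fun_prop)) continuous_id continuous_const ?_
  · refine Continuous.if_le (Cont_line_cont h0 h1) ?_ continuous_const continuous_id ?_
    · exact (continuous_conj.comp (hR.comp (by fun_prop))).neg
    · intro x hx
      rw [← hx, gdv_ul_neg' _ _ h0 h1, gdv_ul_xl h0 h1 hv hv', neg_neg, sub_self, Cont_R_zero]
  · intro x hx
    rw [hx, if_pos (by linarith), sub_self, Cont_R_zero, gdv_ul_xl h0 h1 hv hv']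

private theorem Cont_gam_pos {θ v1 ε : ℝ} (h0 : 0 < θ) (h1 : θ < Real.pi / 2) (hv : 0 < v1)
    (hv' : v1 < 1 / 2) (hε : 0 < ε) (x : ℝ) : 0 < (gam θ v1 ε x).im := by
  have hx0 := Cont_xl_pos h0 h1 hv hv'
  have hb := bl_pos h0 h1 (Cont_ab hv hv')
  rcases Cont_cases (θ := θ) (v1 := v1) x with h | h | h
  · rw [Cont_gam_mid h]
    exact gdv_im_pos (by rwa [ul_im]) (by rwa [ul_im])
  · rw [Cont_gam_right hx0 h]
    exact Cont_R_pos hb hε (by linarith)
  · rw [Cont_gam_left hx0 h, neg_im, conj_im, neg_neg]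
    exact Cont_R_pos hb hε (by linarith)

private theorem Cont_R_top (θ v1 ε : ℝ) : Tendsto (gamR θ v1 ε) atTop (𝓝 (1 / 2)) := by
  have e : (fun t : ℝ => (1 / 2 : ℂ) + ((ε * Real.exp (2 - t) : ℝ) : ℂ) * I) =ᶠ[atTop]
      gamR θ v1 ε := by
    filter_upwards [eventually_gt_atTop 2] with t ht
    unfold gamR
    rw [if_neg (not_le.2 (lt_trans one_lt_two ht)), if_neg (not_le.2 ht)]
  refine Tendsto.congr' e ?_
  have h1 : Tendsto (fun t : ℝ => ε * Real.exp (2 - t)) atTop (𝓝 (ε * 0)) := by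
    refine Tendsto.const_mul ε (Real.tendsto_exp_atBot.comp ?_)
    have := tendsto_neg_atTop_atBot.comp (tendsto_atTop_add_const_right atTop (-2 : ℝ) tendsto_id)
    refine this.congr fun t => ?_
    simp only [Function.comp, id]
    ring
  have h2 := ((continuous_ofReal.tendsto _).comp h1).mul_const I
  have h3 := h2.const_add (1 / 2 : ℂ)
  simpa using h3

private theorem Cont_gam_top {θ v1 ε : ℝ} (hx0 : 0 < xl θ v1) :
    Tendsto (gam θ v1 ε) atTop (𝓝 (1 / 2)) := by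
  have e : (fun x : ℝ => gamR θ v1 ε (x - xl θ v1)) =ᶠ[atTop] gam θ v1 ε := by
    filter_upwards [eventually_gt_atTop (xl θ v1)] with x hx
    exact (Cont_gam_right hx0 hx).symm
  refine Tendsto.congr' e ((Cont_R_top θ v1 ε).comp ?_)
  exact tendsto_atTop_add_const_right atTop (-xl θ v1) tendsto_id

private theorem Cont_gam_bot {θ v1 ε : ℝ} (hx0 : 0 < xl θ v1) :
    Tendsto (gam θ v1 ε) atBot (𝓝 (-1 / 2)) := by
  have e : (fun x : ℝ => -(starRingEnd ℂ) (gamR θ v1 ε (-x - xl θ v1))) =ᶠ[atBot]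
      gam θ v1 ε := by
    filter_upwards [eventually_lt_atBot (-xl θ v1)] with x hx
    exact (Cont_gam_left hx0 hx).symm
  refine Tendsto.congr' e ?_
  have h1 : Tendsto (fun x : ℝ => -x - xl θ v1) atBot atTop :=
    tendsto_atTop_add_const_right atBot (-xl θ v1) tendsto_neg_atBot_atTop
  have h2 := ((continuous_conj.tendsto _).comp ((Cont_R_top θ v1 ε).comp h1)).neg
  have e2 : -(starRingEnd ℂ) (1 / 2 : ℂ) = -1 / 2 := by
    rw [map_div₀, map_one, map_ofNat]
    ring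
  rw [e2] at h2
  exact h2

private theorem Cont_gam_der {θ v1 ε : ℝ} (h0 : 0 < θ) (h1 : θ < Real.pi / 2) (hv : 0 < v1)
    (hv' : v1 < 1 / 2) {x : ℝ} (hx : x ∉ ({xl θ v1, -xl θ v1, xl θ v1 + 1, -xl θ v1 - 1,
      xl θ v1 + 2, -xl θ v1 - 2} : Set ℝ)) : HasDerivAt (gam θ v1 ε) (gam' θ v1 ε x) x := by
  have hx0 := Cont_xl_pos h0 h1 hv hv'
  simp only [Set.mem_insert_iff, Set.mem_singleton_iff, not_or] at hx
  obtain ⟨n1, n2, n3, n4, n5, n6⟩ := hx
  rcases Cont_cases (θ := θ) (v1 := v1) x with h | h | h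
  · have hlt : |x| < xl θ v1 := by
      refine lt_of_le_of_ne h fun he => ?_
      rcases eq_or_eq_neg_of_abs_eq he with h3 | h3
      · exact n1 h3
      · exact n2 h3
    have e : gam θ v1 ε =ᶠ[𝓝 x] fun y => gdv (ul θ y) := by
      filter_upwards [(isOpen_lt continuous_abs continuous_const).mem_nhds hlt] with y hy
      exact Cont_gam_mid (le_of_lt hy)
    rw [Cont_gam'_mid h]
    exact (gdv_ul_hasDerivAt (by rw [abs_of_pos h0]; exact h1) x).congr_of_eventuallyEq e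
  · have e : gam θ v1 ε =ᶠ[𝓝 x] fun y => gamR θ v1 ε (y - xl θ v1) := by
      filter_upwards [Ioi_mem_nhds h] with y hy
      exact Cont_gam_right hx0 hy
    rw [Cont_gam'_right hx0 h]
    have d1 : HasDerivAt (gamR θ v1 ε) (gamR' θ v1 ε (x - xl θ v1)) (x - xl θ v1) :=
      Cont_R_der (fun h3 => n3 (by linarith)) (fun h3 => n5 (by linarith))
    have hi : HasDerivAt (fun y : ℝ => y - xl θ v1) 1 x := (hasDerivAt_id' x).sub_const _
    have d2 : HasDerivAt (fun y => gamR θ v1 ε (y - xl θ v1))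
        ((1 : ℝ) • gamR' θ v1 ε (x - xl θ v1)) x := by
      have d := HasDerivAt.scomp x d1 hi
      exact d
    rw [one_smul] at d2
    exact d2.congr_of_eventuallyEq e
  · have e : gam θ v1 ε =ᶠ[𝓝 x] fun y => -(starRingEnd ℂ) (gamR θ v1 ε (-y - xl θ v1)) := by
      filter_upwards [Iio_mem_nhds h] with y hy
      exact Cont_gam_left hx0 hy
    rw [Cont_gam'_left hx0 h]
    have d1 : HasDerivAt (gamR θ v1 ε) (gamR' θ v1 ε (-x - xl θ v1)) (-x - xl θ v1) :=
      Cont_R_der (fun h3 => n4 (by linarith)) (fun h3 => n6 (by linarith))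
    have hi : HasDerivAt (fun y : ℝ => -y - xl θ v1) (-1) x := (hasDerivAt_id' x).fun_neg.sub_const _
    have d2 : HasDerivAt (fun y => gamR θ v1 ε (-y - xl θ v1))
        ((-1 : ℝ) • gamR' θ v1 ε (-x - xl θ v1)) x := by
      have d := HasDerivAt.scomp x d1 hi
      exact d
    have d3 : HasDerivAt (fun y => -(starRingEnd ℂ) (gamR θ v1 ε (-y - xl θ v1))) _ x :=
      ((Complex.conjCLE.toContinuousLinearMap.hasFDerivAt.comp_hasDerivAt x d2)).neg
    refine (d3.congr_of_eventuallyEq e).congr_deriv ?_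
    simp

private theorem Cont_exp_abs_int : MeasureTheory.Integrable fun x : ℝ => Real.exp (-|x|) := by
  refine ((integrable_inv_one_add_sq.const_mul 4)).mono'
    (Continuous.aestronglyMeasurable (by fun_prop)) (Eventually.of_forall fun x => ?_)
  rw [Real.norm_eq_abs, abs_of_pos (Real.exp_pos _)]
  refine le_trans ?_ (one_div_cosh_le x)
  rw [Real.exp_neg, ← one_div]
  refine one_div_le_one_div_of_le (Real.cosh_pos x) ?_
  rw [← Real.cosh_abs, Real.cosh_eq]
  have h1 := Real.exp_le_exp.2 (show -|x| ≤ |x| by linarith [abs_nonneg x])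
  linarith

private theorem Cont_gam'_int {θ v1 ε : ℝ} (h0 : 0 < θ) (h1 : θ < Real.pi / 2) (hv : 0 < v1)
    (hv' : v1 < 1 / 2) (hε : 0 < ε) : MeasureTheory.Integrable (gam' θ v1 ε) := by
  have hx0 := Cont_xl_pos h0 h1 hv hv'
  have hθ : |θ| < Real.pi / 2 := by rw [abs_of_pos h0]; exact h1
  have hI := integrable_gdv' hθ
  set A := |ε - bl θ v1| + |1 / 2 - v1| + ε with hA
  have hA0 : 0 ≤ A := by positivity
  have hm : Measurable (gam' θ v1 ε) := by
    unfold gam'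
    refine Measurable.ite (measurableSet_le (by fun_prop) measurable_const) ?_ ?_
    · refine Continuous.measurable (Continuous.div continuous_const ?_ fun x => ?_)
      · exact continuous_const.mul (Complex.continuous_cosh.comp (ul_continuous θ))
      · refine mul_ne_zero (by exact_mod_cast Real.pi_ne_zero) (cosh_ne ?_)
        rwa [ul_im]
    · refine Measurable.ite measurableSet_Ici ?_ ?_
      · exact (Cont_R'_meas θ v1 ε).comp (by fun_prop)
      · exact (Complex.continuous_conj.measurable).comp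
          ((Cont_R'_meas θ v1 ε).comp (by fun_prop))
  refine (hI.norm.add (Cont_exp_abs_int.const_mul (A * Real.exp (2 + xl θ v1)))).mono'
    hm.aestronglyMeasurable (Eventually.of_forall fun x => ?_)
  have hn : 0 ≤ ‖1 / ((Real.pi : ℂ) * cosh (ul θ x))‖ := norm_nonneg _
  have he : 0 ≤ A * Real.exp (2 + xl θ v1) * Real.exp (-|x|) := by positivity
  simp only [Pi.add_apply]
  rcases Cont_cases (θ := θ) (v1 := v1) x with h | h | h
  · rw [Cont_gam'_mid h]
    linarith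
  · rw [Cont_gam'_right hx0 h]
    refine (Cont_R'_norm hε).trans ?_
    rw [abs_of_pos (by linarith : 0 < x)] at he ⊢
    rw [mul_assoc, ← Real.exp_add, show 2 - (x - xl θ v1) = 2 + xl θ v1 + -x by ring]
    linarith
  · rw [Cont_gam'_left hx0 h, norm_conj]
    refine (Cont_R'_norm hε).trans ?_
    rw [abs_of_neg (by linarith : x < 0)] at he ⊢
    rw [mul_assoc, ← Real.exp_add, show 2 - (-x - xl θ v1) = 2 + xl θ v1 + - -x by ring]
    linarith

theorem gam_ctr {θ v1 ε : ℝ} (h0 : 0 < θ) (h1 : θ < Real.pi / 2) (hv : 0 < v1)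
    (hv' : v1 < 1 / 2) (hε : 0 < ε) : Ctr (gam θ v1 ε) (gam' θ v1 ε) where
  cont := Cont_gam_cont h0 h1 hv hv'
  der := ⟨{xl θ v1, -xl θ v1, xl θ v1 + 1, -xl θ v1 - 1, xl θ v1 + 2, -xl θ v1 - 2},
    Set.Finite.countable (Set.toFinite _), fun x hx => Cont_gam_der h0 h1 hv hv' hx⟩
  pos := Cont_gam_pos h0 h1 hv hv' hε
  top := Cont_gam_top (Cont_xl_pos h0 h1 hv hv')
  bot := Cont_gam_bot (Cont_xl_pos h0 h1 hv hv')
  int := Cont_gam'_int h0 h1 hv hv' hε

theorem gam_near {θ v1 ε : ℝ} (h0 : 0 < θ) (h1 : θ < Real.pi / 2) (hv : 0 < v1)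
    (hv' : v1 < 1 / 2) (hε : 0 < ε) (hε' : ε ≤ bl θ v1) (x : ℝ) :
    ∃ v ∈ G0 θ v1, ‖gam θ v1 ε x - v‖ ≤ ε := by
  have hx0 := Cont_xl_pos h0 h1 hv hv'
  have hR : ∀ t : ℝ, 0 ≤ t → ∃ v ∈ G0 θ v1, ‖gamR θ v1 ε t - v‖ ≤ ε := by
    intro t ht
    have hre := Cont_R_re (θ := θ) (v1 := v1) (ε := ε) (t := t)
    have him := Cont_R_im (θ := θ) (v1 := v1) (ε := ε) (t := t)
    by_cases c1 : t ≤ 1
    · rw [if_pos c1] at hre him
      refine ⟨gamR θ v1 ε t, Or.inr (Or.inl ⟨?_, ?_, ?_⟩), ?_⟩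
      · rw [hre, abs_of_pos hv]
      · rw [him]
        have : 0 ≤ (1 - t) * bl θ v1 := mul_nonneg (by linarith) (by linarith)
        have : 0 ≤ t * ε := mul_nonneg ht hε.le
        linarith
      · rw [him]
        have : t * ε ≤ t * bl θ v1 := mul_le_mul_of_nonneg_left hε' ht
        linarith
      · rw [sub_self, norm_zero]
        exact hε.le
    · rw [if_neg c1] at hre him
      have c1' : 1 < t := not_le.1 c1
      have hw : v1 ≤ (gamR θ v1 ε t).re ∧ (gamR θ v1 ε t).re ≤ 1 / 2 ∧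
          |(gamR θ v1 ε t).im| ≤ ε := by
        by_cases c2 : t ≤ 2
        · rw [if_pos c2] at hre him
          have h3 : 0 ≤ (t - 1) * (1 / 2 - v1) := mul_nonneg (by linarith) (by linarith)
          have h4 : (t - 1) * (1 / 2 - v1) ≤ 1 * (1 / 2 - v1) :=
            mul_le_mul_of_nonneg_right (by linarith) (by linarith)
          rw [hre, him, abs_of_pos hε]
          exact ⟨by linarith, by linarith, le_rfl⟩
        · rw [if_neg c2] at hre him
          have c2' : 2 < t := not_le.1 c2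
          rw [hre, him, abs_mul, abs_of_pos hε, abs_of_pos (Real.exp_pos _)]
          refine ⟨hv'.le, le_rfl, mul_le_of_le_one_right hε.le ?_⟩
          exact Real.exp_le_one_iff.2 (by linarith)
      obtain ⟨w1, w2, w3⟩ := hw
      refine ⟨((gamR θ v1 ε t).re : ℂ), Or.inr (Or.inr ⟨?_, ?_, ofReal_im _⟩), ?_⟩
      · rw [ofReal_re, abs_of_nonneg (by linarith)]
        exact w1
      · rw [ofReal_re, abs_of_nonneg (by linarith)]
        exact w2
      · have e : gamR θ v1 ε t - ((gamR θ v1 ε t).re : ℂ) =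
            ((gamR θ v1 ε t).im : ℂ) * I := by
          apply Complex.ext <;> simp
        rw [e, norm_mul, norm_I, mul_one, norm_real, Real.norm_eq_abs]
        exact w3
  rcases Cont_cases (θ := θ) (v1 := v1) x with h | h | h
  · refine ⟨gam θ v1 ε x, ?_, ?_⟩
    · rw [Cont_gam_mid h]
      exact G0_mem h0 h1 hv hv' h
    · rw [sub_self, norm_zero]
      exact hε.le
  · rw [Cont_gam_right hx0 h]
    exact hR _ (by linarith)
  · rw [Cont_gam_left hx0 h]
    obtain ⟨v, hv2, hv3⟩ := hR (-x - xl θ v1) (by linarith)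
    refine ⟨-(starRingEnd ℂ) v, Cont_G0_symm hv2, ?_⟩
    rw [neg_sub_neg, ← map_sub, norm_conj, norm_sub_rev]
    exact hv3

private theorem Cont_R_re_mem {θ v1 ε t : ℝ} (hv : 0 ≤ v1) (hv' : v1 ≤ 1 / 2) :
    v1 ≤ (gamR θ v1 ε t).re ∧ (gamR θ v1 ε t).re ≤ 1 / 2 := by
  rw [Cont_R_re]
  split_ifs with c1 c2
  · exact ⟨le_rfl, hv'⟩
  · have h3 : 0 ≤ (t - 1) * (1 / 2 - v1) := mul_nonneg (by linarith) (by linarith)
    have h4 : (t - 1) * (1 / 2 - v1) ≤ 1 * (1 / 2 - v1) :=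
      mul_le_mul_of_nonneg_right (by linarith) (by linarith)
    exact ⟨by linarith, by linarith⟩
  · exact ⟨hv', le_rfl⟩

theorem gam_re {θ v1 ε : ℝ} (h0 : 0 < θ) (h1 : θ < Real.pi / 2) (hv : 0 < v1)
    (hv' : v1 < 1 / 2) (hε : 0 < ε) (x : ℝ) : |(gam θ v1 ε x).re| ≤ 1 / 2 := by
  have hx0 := Cont_xl_pos h0 h1 hv hv'
  rcases Cont_cases (θ := θ) (v1 := v1) x with h | h | h
  · rw [Cont_gam_mid h]
    exact (gdv_re_lt (Cont_abs h0 h1 x)).le
  · rw [Cont_gam_right hx0 h]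
    have := Cont_R_re_mem (θ := θ) (ε := ε) hv.le hv'.le (t := x - xl θ v1)
    rw [abs_of_nonneg (by linarith)]
    exact this.2
  · rw [Cont_gam_left hx0 h, neg_re, conj_re, abs_neg]
    have := Cont_R_re_mem (θ := θ) (ε := ε) hv.le hv'.le (t := -x - xl θ v1)
    rw [abs_of_nonneg (by linarith)]
    exact this.2

theorem gam_im {θ v1 ε : ℝ} (h0 : 0 < θ) (h1 : θ < Real.pi / 2) (hv : 0 < v1)
    (hv' : v1 < 1 / 2) (hε : 0 < ε) (hε' : ε ≤ bl θ v1) (x : ℝ) :
    0 < (gam θ v1 ε x).im ∧ (gam θ v1 ε x).im ≤ bl θ 0 ∧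
      (|(gam θ v1 ε x).re| = 1 / 2 ∨ ε ≤ (gam θ v1 ε x).im) := by
  have hx0 := Cont_xl_pos h0 h1 hv hv'
  have habs := Cont_ab hv hv'
  have hb0 : bl θ v1 ≤ bl θ 0 := by
    refine Cont_bl_anti h0 h1 ?_ habs.le
    rw [abs_zero]
    exact abs_nonneg _
  refine ⟨Cont_gam_pos h0 h1 hv hv' hε x, ?_⟩
  have hR : ∀ t : ℝ, 0 ≤ t → (gamR θ v1 ε t).im ≤ bl θ 0 ∧
      ((gamR θ v1 ε t).re = 1 / 2 ∨ ε ≤ (gamR θ v1 ε t).im) := by
    intro t ht
    rw [Cont_R_re, Cont_R_im]
    split_ifs with c1 c2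
    · have h2 : t * ε ≤ t * bl θ v1 := mul_le_mul_of_nonneg_left hε' ht
      have h3 : (1 - t) * ε ≤ (1 - t) * bl θ v1 := mul_le_mul_of_nonneg_left hε' (by linarith)
      exact ⟨by linarith, Or.inr (by linarith)⟩
    · exact ⟨by linarith, Or.inr le_rfl⟩
    · refine ⟨le_trans (mul_le_of_le_one_right hε.le ?_) (hε'.trans hb0), Or.inl rfl⟩
      exact Real.exp_le_one_iff.2 (by linarith [not_le.1 c2])
  rcases Cont_cases (θ := θ) (v1 := v1) x with h | h | h
  · rw [Cont_gam_mid h, gdv_ul_im h0 h1]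
    have h2 := (gdv_ul_le h0 h1 hv hv').1 h
    have h3 : |(gdv (ul θ x)).re| ≤ |v1| := by rwa [abs_of_pos hv]
    refine ⟨?_, Or.inr (hε'.trans (Cont_bl_anti h0 h1 h3 habs.le))⟩
    refine Cont_bl_anti h0 h1 ?_ (h2.trans hv'.le)
    rw [abs_zero]
    exact abs_nonneg _
  · rw [Cont_gam_right hx0 h]
    obtain ⟨h2, h3⟩ := hR (x - xl θ v1) (by linarith)
    refine ⟨h2, ?_⟩
    rcases h3 with h3 | h3
    · left
      rw [h3]
      norm_num
    · exact Or.inr h3
  · rw [Cont_gam_left hx0 h, neg_re, conj_re, neg_im, conj_im, neg_neg, abs_neg]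
    obtain ⟨h2, h3⟩ := hR (-x - xl θ v1) (by linarith)
    refine ⟨h2, ?_⟩
    rcases h3 with h3 | h3
    · left
      rw [h3]
      norm_num
    · exact Or.inr h3

/-- Away from the parameter of the critical point the contour stays away from it, uniformly in the
height `ε`. -/
theorem gam_away {θ v1 xc : ℝ} (h0 : 0 < θ) (h1 : θ < Real.pi / 2) (hv : 0 < v1)
    (hv' : v1 < 1 / 2) (hx : |xc| < xl θ v1) {r : ℝ} (hr : 0 < r) :
    ∃ ρ : ℝ, 0 < ρ ∧ ∃ ε0 : ℝ, 0 < ε0 ∧ ∀ ε, 0 < ε → ε ≤ ε0 → ∀ x, r ≤ |x - xc| →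
      ρ ≤ ‖gam θ v1 ε x - gdv (ul θ xc)‖ := by
  have hx0 := Cont_xl_pos h0 h1 hv hv'
  have hc := (gdv_ul_lt h0 h1 hv hv').1 hx
  set ρ2 := v1 - |(gdv (ul θ xc)).re| with hρ2
  have hρ2' : 0 < ρ2 := by linarith
  -- the middle part
  have hmid : ∃ ρ1 : ℝ, 0 < ρ1 ∧ ∀ x, |x| ≤ xl θ v1 → r ≤ |x - xc| →
      ρ1 ≤ ‖gdv (ul θ x) - gdv (ul θ xc)‖ := by
    have hK : IsCompact (Set.Icc (-xl θ v1) (xl θ v1) ∩ {x : ℝ | r ≤ |x - xc|}) :=
      isCompact_Icc.inter_right (isClosed_le continuous_const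
        (continuous_abs.comp (continuous_id.sub continuous_const)))
    have hf : Continuous fun x => ‖gdv (ul θ x) - gdv (ul θ xc)‖ :=
      ((Cont_line_cont h0 h1).sub continuous_const).norm
    rcases (Set.Icc (-xl θ v1) (xl θ v1) ∩ {x : ℝ | r ≤ |x - xc|}).eq_empty_or_nonempty
      with he | he
    · refine ⟨1, one_pos, fun x h2 h3 => ?_⟩
      have : x ∈ (Set.Icc (-xl θ v1) (xl θ v1) ∩ {x : ℝ | r ≤ |x - xc|}) := ⟨abs_le.1 h2, h3⟩
      rw [he] at this
      exact absurd this (Set.notMem_empty x)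
    · obtain ⟨x0, hx0', hmin⟩ := hK.exists_isMinOn he hf.continuousOn
      refine ⟨‖gdv (ul θ x0) - gdv (ul θ xc)‖, ?_, fun x h2 h3 => hmin ⟨abs_le.1 h2, h3⟩⟩
      rw [norm_pos_iff, sub_ne_zero]
      intro h4
      have h5 : x0 = xc := (Cont_mono h0 h1).injective (congrArg Complex.re h4)
      have h6 : r ≤ |x0 - xc| := hx0'.2
      rw [h5, sub_self, abs_zero] at h6
      linarith
  obtain ⟨ρ1, hρ1, hmid⟩ := hmid
  refine ⟨min ρ1 ρ2, lt_min hρ1 hρ2', 1, one_pos, fun ε hε _ x hxr => ?_⟩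
  rcases Cont_cases (θ := θ) (v1 := v1) x with h | h | h
  · rw [Cont_gam_mid h]
    exact (min_le_left _ _).trans (hmid x h hxr)
  · refine (min_le_right _ _).trans ?_
    have h2 : v1 ≤ |(gam θ v1 ε x).re| := by
      rw [Cont_gam_right hx0 h]
      exact (Cont_R_re_mem hv.le hv'.le).1.trans (le_abs_self _)
    have h3 := abs_re_le_norm (gam θ v1 ε x - gdv (ul θ xc))
    rw [sub_re] at h3
    have h4 := abs_sub_abs_le_abs_sub (gam θ v1 ε x).re (gdv (ul θ xc)).re
    linarith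
  · refine (min_le_right _ _).trans ?_
    have h2 : v1 ≤ |(gam θ v1 ε x).re| := by
      rw [Cont_gam_left hx0 h, neg_re, conj_re, abs_neg]
      exact (Cont_R_re_mem hv.le hv'.le).1.trans (le_abs_self _)
    have h3 := abs_re_le_norm (gam θ v1 ε x - gdv (ul θ xc))
    rw [sub_re] at h3
    have h4 := abs_sub_abs_le_abs_sub (gam θ v1 ε x).re (gdv (ul θ xc)).re
    linarith

end Pool.Agent.S3
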