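import Pool.Agent.S3.Es5

/-!
# Open-open edges: the estimates at the ends for `v1 ≤ 13/40`
-/

set_option autoImplicit false

namespace Pool.Agent.S3

open Complex
open Pool.Agent.H25.RK (gdv gdv_re_lt gdv_hasDerivAt)

/-! ### Elementary bounds -/

private theorem es_s3 {x : ℝ} (hx : 0 ≤ x) : x - x ^ 3 / 6 ≤ Real.sin x := by
  have h := LowA_pos (b := x) (f := fun x => Real.sin x - (x - x ^ 3 / 6))
    (f' := fun x => Real.cos x - (1 - x ^ 2 / 2))
    (fun x _ _ => by
      have h1 := (Real.hasDerivAt_sin x).sub ((hasDerivAt_id' x).sub ((hasDerivAt_pow 3 x).div_const 6))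
      refine h1.congr_deriv ?_
      norm_num
      try ring)
    (by simp) (fun x hx _ => by linarith only [Real.one_sub_sq_div_two_le_cos (x := x)]) hx le_rfl
  linarith only [h]

private theorem es_c4 {x : ℝ} (hx : 0 ≤ x) : Real.cos x ≤ 1 - x ^ 2 / 2 + x ^ 4 / 24 := by
  have h := LowA_pos (b := x) (f := fun x => 1 - x ^ 2 / 2 + x ^ 4 / 24 - Real.cos x)
    (f' := fun x => Real.sin x - (x - x ^ 3 / 6))
    (fun x _ _ => by
      have h1 := (((hasDerivAt_const x (1 : ℝ)).sub ((hasDerivAt_pow 2 x).div_const 2)).add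
        ((hasDerivAt_pow 4 x).div_const 24)).sub (Real.hasDerivAt_cos x)
      refine h1.congr_deriv ?_
      norm_num
      try ring)
    (by simp) (fun x hx _ => by linarith [es_s3 hx]) hx le_rfl
  linarith

private theorem es_s5 {x : ℝ} (hx : 0 ≤ x) : Real.sin x ≤ x - x ^ 3 / 6 + x ^ 5 / 120 := by
  have h := LowA_pos (b := x) (f := fun x => x - x ^ 3 / 6 + x ^ 5 / 120 - Real.sin x)
    (f' := fun x => 1 - x ^ 2 / 2 + x ^ 4 / 24 - Real.cos x)
    (fun x _ _ => by
      have h1 := (((hasDerivAt_id' x).sub ((hasDerivAt_pow 3 x).div_const 6)).add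
        ((hasDerivAt_pow 5 x).div_const 120)).sub (Real.hasDerivAt_sin x)
      refine h1.congr_deriv ?_
      norm_num
      try ring)
    (by simp) (fun x hx _ => by linarith only [hx, es_c4 hx]) hx le_rfl
  linarith

private theorem es_c6 {x : ℝ} (hx : 0 ≤ x) :
    1 - x ^ 2 / 2 + x ^ 4 / 24 - x ^ 6 / 720 ≤ Real.cos x := by
  have h := LowA_pos (b := x) (f := fun x => Real.cos x - (1 - x ^ 2 / 2 + x ^ 4 / 24 - x ^ 6 / 720))
    (f' := fun x => x - x ^ 3 / 6 + x ^ 5 / 120 - Real.sin x)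
    (fun x _ _ => by
      have h1 := (Real.hasDerivAt_cos x).sub ((((hasDerivAt_const x (1 : ℝ)).sub
        ((hasDerivAt_pow 2 x).div_const 2)).add
        ((hasDerivAt_pow 4 x).div_const 24)).sub ((hasDerivAt_pow 6 x).div_const 720))
      refine h1.congr_deriv ?_
      norm_num
      try ring)
    (by simp) (fun x hx _ => by linarith only [es_s5 hx]) hx le_rfl
  linarith only [h]

private theorem es_sec {x : ℝ} (h0 : 0 ≤ x) (h1 : x ≤ 10211 / 10000) :
    1 ≤ Real.cos x * (1 + x ^ 2 / 2 + 5 * x ^ 4 / 24 + 3 / 20 * x ^ 6) := by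
  have h2 := es_c6 h0
  obtain ⟨y, hy⟩ : ∃ y, y = x ^ 2 := ⟨_, rfl⟩
  have y0 : 0 ≤ y := by rw [hy]; positivity
  have y1 : y ≤ 10427 / 10000 := by
    rw [hy]
    have := pow_le_pow_left₀ h0 h1 2
    norm_num at this ⊢
    linarith only [this]
  have e4 : x ^ 4 = y ^ 2 := by rw [hy]; ring
  have e6 : x ^ 6 = y ^ 3 := by rw [hy]; ring
  rw [← hy, e4, e6] at h2 ⊢
  have hP : 0 ≤ 1 + y / 2 + 5 * y ^ 2 / 24 + 3 / 20 * y ^ 3 := by positivity
  refine le_trans ?_ (mul_le_mul_of_nonneg_right h2 hP)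
  have e : (1 - y / 2 + y ^ 2 / 24 - y ^ 3 / 720) *
      (1 + y / 2 + 5 * y ^ 2 / 24 + 3 / 20 * y ^ 3) - 1 =
      y ^ 3 * (47 / 720 - 193 / 2880 * y + 103 / 17280 * y ^ 2 - y ^ 3 / 4800) := by ring
  have h3 : 0 ≤ 47 / 720 - 193 / 2880 * y + 103 / 17280 * y ^ 2 - y ^ 3 / 4800 := by
    have t1 : 208 / 100 * y - (104 / 100) ^ 2 ≤ y ^ 2 := by nlinarith [sq_nonneg (y - 104 / 100)]
    have t2 : y ^ 3 ≤ (10427 / 10000) ^ 2 * y := by
      have := pow_le_pow_left₀ y0 y1 2
      calc y ^ 3 = y ^ 2 * y := by ring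
        _ ≤ _ := mul_le_mul_of_nonneg_right this y0
    norm_num at t1 t2 ⊢
    linarith only [y1, t1, t2]
  have h4 : 0 ≤ y ^ 3 := by positivity
  nlinarith only [h4, mul_nonneg h4 h3]

private theorem es_R1 : (13 / 40 * Real.pi : ℝ) ≤ 10211 / 10000 ∧
    (10209 / 10000 : ℝ) ≤ 13 / 40 * Real.pi := by
  constructor
  · linarith [Real.pi_lt_d4]
  · linarith [Real.pi_gt_d4]

theorem cos_R1_ge {R : ℝ} (h0 : 0 ≤ R) (h : R ≤ 13 / 40 * Real.pi) :
    522 / 1000 ≤ Real.cos R := by
  have h1 := es_R1.1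
  have h2 : R ≤ 10211 / 10000 := h.trans h1
  have h3 := es_c6 (x := 10211 / 10000) (by norm_num)
  have h4 : Real.cos (10211 / 10000) ≤ Real.cos R :=
    Real.cos_le_cos_of_nonneg_of_le_pi h0 (by linarith only [Real.pi_gt_three]) h2
  norm_num at h3
  linarith only [h4, h3]

theorem cos_R1_le : Real.cos (13 / 40 * Real.pi) ≤ 5242 / 10000 := by
  have h1 := es_R1.2
  have h3 := es_c4 (x := 10209 / 10000) (by norm_num)
  have h4 : Real.cos (13 / 40 * Real.pi) ≤ Real.cos (10209 / 10000) :=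
    Real.cos_le_cos_of_nonneg_of_le_pi (by norm_num) (by linarith [Real.pi_pos]) h1
  norm_num at h3
  linarith only [h4, h3]

/-- `igd s ≤ s + s³/6 + s⁵/24 + 3 s⁷/140`. -/
theorem igd_real_le {s : ℝ} (h0 : 0 ≤ s) (h1 : s ≤ 10211 / 10000) :
    (igd (UU s 0)).re ≤ s + s ^ 3 / 6 + s ^ 5 / 24 + 3 / 140 * s ^ 7 := by
  have hpi := Real.pi_gt_three
  have ab : ∀ x : ℝ, 0 ≤ x → x ≤ 10211 / 10000 → |x| < Real.pi / 2 := fun x hx hx' => by
    rw [abs_of_nonneg hx]; linarith only [hpi, hx']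
  have hd : ∀ x : ℝ, 0 ≤ x → x ≤ 10211 / 10000 → HasDerivAt (fun x : ℝ => (igd (UU x 0)).re)
      (1 / Real.cos x) x := by
    intro x hx hx'
    have a := ab x hx hx'
    have := HasDerivAt.scomp (g₁ := igd) (h := fun s : ℝ => UU s 0) x
      (hasDerivAt_igd (UU_re_lt a)) (hasDerivAt_UU x 0)
    have h2 := hasDerivAt_re this
    refine h2.congr_deriv ?_
    have e : UU x 0 = (x : ℂ) := by
      rw [UU, ofReal_zero, zero_mul, add_zero]
    rw [smul_eq_mul, one_mul, cosh_igd (UU_re_lt a), e, ← ofReal_cos, ← ofReal_one,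
      ← ofReal_div, ofReal_re]
  have h := LowA_pos (b := 10211 / 10000)
    (f := fun x => x + x ^ 3 / 6 + x ^ 5 / 24 + 3 / 140 * x ^ 7 - (igd (UU x 0)).re)
    (f' := fun x => 1 + x ^ 2 / 2 + 5 * x ^ 4 / 24 + 3 / 20 * x ^ 6 - 1 / Real.cos x)
    (fun x hx hx' => by
      have h1 := ((((hasDerivAt_id' x).add ((hasDerivAt_pow 3 x).div_const 6)).add
        ((hasDerivAt_pow 5 x).div_const 24)).add ((hasDerivAt_pow 7 x).const_mul (3 / 140))).sub
        (hd x hx hx')
      refine h1.congr_deriv ?_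
      norm_num
      ring)
    (by
      have e : igd (UU 0 0) = 0 := by
        have := igd_gd (u := 0) (by rw [zero_im, abs_zero]; linarith)
        rw [gd_zero] at this
        have z0 : UU 0 0 = 0 := by
          apply Complex.ext
          · rw [UU_re, zero_re]
          · rw [UU_im, zero_im]
        rwa [z0]
      simp [e])
    (fun x hx hx' => by
      have hc := cos_pos' (ab x hx hx')
      rw [sub_nonneg, div_le_iff₀ hc]
      have := es_sec hx hx'
      linarith) h0 h1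
  linarith

section

variable {Φ : ℂ → ℂ → ℂ} {θ θ' xc xc' b b' v1 v1' μ μ' : ℝ} {v w : ℂ}

/-- The value at `(0, 13 π / 40)`. -/
theorem es_num (hΦ : IsPhi Φ) (h0 : Φ 0 0 = c00) :
    7978 / 10000 ≤ FP Φ (UU 0 0) (UU (13 / 40 * Real.pi) 0) := by
  have hpi := Real.pi_pos
  obtain ⟨b1, b2⟩ := es_R1
  have a0 : |(0 : ℝ)| < Real.pi / 2 := by rw [abs_zero]; linarith only [b2]
  have z0 : UU 0 0 = 0 := by
    apply Complex.ext
    · rw [UU_re, zero_re]
    · rw [UU_im, zero_im]
  have g0 : igd (UU 0 0) = 0 := by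
    have := igd_gd (u := 0) (by rw [zero_im, abs_zero]; linarith)
    rw [z0]
    rwa [gd_zero] at this
  have ab : ∀ s ∈ Set.Icc (0 : ℝ) (13 / 40 * Real.pi), |s| < Real.pi / 2 := fun s hs => by
    rw [abs_of_nonneg hs.1]; linarith only [b2, hs, hs.2]
  have hreg : ∀ s : ℝ, |s| < Real.pi / 2 → Reg (igd (UU s 0)) 0 := by
    intro s hs
    unfold Reg
    rw [zero_im, abs_zero, add_zero]
    exact igd_im_lt (UU_re_lt hs)
  have hq : ∀ s : ℝ, |s| < Real.pi / 2 → qq (igd (UU s 0)) 0 = igd (UU s 0) := by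
    intro s hs
    unfold qq
    rw [cosh_zero, div_one]
    exact (eq_arsh rfl (igd_im_lt (UU_re_lt hs))).symm
  have hd : ∀ s ∈ Set.Icc (0 : ℝ) (13 / 40 * Real.pi), HasDerivAt
      (fun s => FP (fun v w => Φ w v) (UU s 0) (gd 0) +
        2 / Real.pi * (s ^ 2 / 2 + s ^ 4 / 24 + s ^ 6 / 144 + 3 / 1120 * s ^ 8))
      (-(2 / Real.pi) * (igd (UU s 0)).re +
        2 / Real.pi * (s + s ^ 3 / 6 + s ^ 5 / 24 + 3 / 140 * s ^ 7)) s := by
    intro s hs
    have k1 := hasDerivAt_FP_hor hΦ.swap (ab s hs) (hreg s (ab s hs))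
    rw [hq s (ab s hs)] at k1
    have k2 := (((((hasDerivAt_pow 2 s).div_const 2).add ((hasDerivAt_pow 4 s).div_const 24)).add
      ((hasDerivAt_pow 6 s).div_const 144)).add ((hasDerivAt_pow 8 s).const_mul
        (3 / 1120 : ℝ))).const_mul (2 / Real.pi)
    refine (k1.add k2).congr_deriv ?_
    norm_num
    ring
  have key : MonotoneOn (fun s => FP (fun v w => Φ w v) (UU s 0) (gd 0) +
        2 / Real.pi * (s ^ 2 / 2 + s ^ 4 / 24 + s ^ 6 / 144 + 3 / 1120 * s ^ 8))
      (Set.Icc 0 (13 / 40 * Real.pi)) := by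
    apply monotoneOn_of_deriv_nonneg (convex_Icc 0 _)
    · exact fun t ht => (hd t ht).continuousAt.continuousWithinAt
    · intro t ht
      exact (hd t (interior_subset ht)).differentiableAt.differentiableWithinAt
    · intro t ht
      rw [(hd t (interior_subset ht)).deriv]
      rw [interior_Icc] at ht
      have k := igd_real_le ht.1.le (ht.2.le.trans b1)
      have : 0 ≤ 2 / Real.pi * (t + t ^ 3 / 6 + t ^ 5 / 24 + 3 / 140 * t ^ 7 -
          (igd (UU t 0)).re) := mul_nonneg (by positivity) (by linarith only [k])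
      calc (0 : ℝ) ≤ 2 / Real.pi * (t + t ^ 3 / 6 + t ^ 5 / 24 + 3 / 140 * t ^ 7 -
          (igd (UU t 0)).re) := this
        _ = _ := by ring
  have R0 : (0 : ℝ) ≤ 13 / 40 * Real.pi := by positivity
  have k := key ⟨le_rfl, R0⟩ ⟨R0, le_rfl⟩ R0
  beta_reduce at k
  have e1 : FP (fun v w => Φ w v) (UU 0 0) (gd 0) = c00.re := by
    rw [FP, gd_zero, z0, zero_div]
    show (Φ 0 0).re = c00.re
    rw [h0]
  have e2 : FP (fun v w => Φ w v) (UU (13 / 40 * Real.pi) 0) (gd 0) =
      FP Φ (UU 0 0) (UU (13 / 40 * Real.pi) 0) := by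
    rw [gd_zero, ← z0]
    rfl
  rw [e1, e2] at k
  have c := LowA_c00_gt
  set R := 13 / 40 * Real.pi with hR
  -- the polynomial
  have p2 : R ^ 2 ≤ 104265 / 100000 := by
    have := pow_le_pow_left₀ R0 b1 2
    norm_num at this ⊢
    linarith only [this]
  have p0 : 0 ≤ R ^ 2 := sq_nonneg R
  have q4 : R ^ 4 ≤ (104265 / 100000) ^ 2 := by
    have := pow_le_pow_left₀ p0 p2 2
    calc R ^ 4 = (R ^ 2) ^ 2 := by ring
      _ ≤ _ := this
  have q6 : R ^ 6 ≤ (104265 / 100000) ^ 3 := by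
    have := pow_le_pow_left₀ p0 p2 3
    calc R ^ 6 = (R ^ 2) ^ 3 := by ring
      _ ≤ _ := this
  have q8 : R ^ 8 ≤ (104265 / 100000) ^ 4 := by
    have := pow_le_pow_left₀ p0 p2 4
    calc R ^ 8 = (R ^ 2) ^ 4 := by ring
      _ ≤ _ := this
  have hP : R ^ 2 / 2 + R ^ 4 / 24 + R ^ 6 / 144 + 3 / 1120 * R ^ 8 ≤ 5778 / 10000 := by
    norm_num at q4 q6 q8 ⊢
    linarith only [p2, q4, q6, q8]
  have hlast : 2 / Real.pi * (R ^ 2 / 2 + R ^ 4 / 24 + R ^ 6 / 144 + 3 / 1120 * R ^ 8) ≤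
      3679 / 10000 := by
    rw [div_mul_eq_mul_div, div_le_iff₀ hpi]
    have := Real.pi_gt_d4
    linarith only [p2, q4, q6, q8, this]
  have hz : 2 / Real.pi * ((0 : ℝ) ^ 2 / 2 + 0 ^ 4 / 24 + 0 ^ 6 / 144 + 3 / 1120 * 0 ^ 8) = 0 := by
    norm_num
  rw [hz] at k
  linarith only [c, k, hlast]

/-- The number. -/
theorem g_num (hΦ : IsPhi Φ) (h0 : Φ 0 0 = c00) :
    hT 0 + hT (13 / 40 * Real.pi) <
      FP Φ (UU 0 (hT 0)) (UU (13 / 40 * Real.pi) (-(hT (13 / 40 * Real.pi)))) := by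
  have hpi := Real.pi_pos
  have p1 := Real.pi_lt_d4
  obtain ⟨b1, b2⟩ := es_R1
  have R0 : (0 : ℝ) ≤ 13 / 40 * Real.pi := by positivity
  have aR : |13 / 40 * Real.pi| < Real.pi / 2 := by
    rw [abs_of_nonneg R0]; linarith
  have a0 : |(0 : ℝ)| < Real.pi / 2 := by rw [abs_zero]; linarith only [b2]
  have k1 := es_num hΦ h0
  have c1 := cos_R1_ge R0 le_rfl
  have c2 := cos_R1_le
  have s1 := sinh_hT (13 / 40 * Real.pi)
  have k2 := gain_right hΦ aR (hT_nonneg aR) s1.le
  have k3 := gain_left hΦ aR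
  set c := Real.cos (13 / 40 * Real.pi) with hc
  set η := hT (13 / 40 * Real.pi) with hη
  have η0 : 0 ≤ η := hT_nonneg aR
  have n0 : 0 ≤ hT 0 := hT_nonneg a0
  have ch := Real.cosh_sq η
  have ch1 := Real.one_le_cosh η
  rw [s1] at ch
  -- `cosh η - 1 ≥ .04805`
  have e1 : 104805 / 100000 ≤ Real.cosh η := by
    by_contra hcon
    push Not at hcon
    nlinarith only [c1, ch, ch1, hcon]
  -- first gain: `(cosh η - 1) / c ≥ .361 c / (cosh η + 1)`
  have e1' : Real.cosh η ≤ 10486 / 10000 := by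
    by_contra hcon
    push Not at hcon
    nlinarith only [c1, c2, ch, e1, hcon]
  have g1 : 78 / 1000 ≤ 857 / 1000 / c * (Real.cosh η - 1) := by
    have cp : 0 < c := by linarith only [p1, c1]
    rw [div_mul_eq_mul_div, le_div_iff₀ cp]
    -- (cosh η - 1) (cosh η + 1) = .361201 c²
    have : (Real.cosh η - 1) * (Real.cosh η + 1) = 361201 / 1000000 * c ^ 2 := by
      nlinarith only [ch]
    have h2 : 361201 / 1000000 * c ^ 2 ≤ (Real.cosh η - 1) * (20486 / 10000) := by
      rw [← this]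
      exact mul_le_mul_of_nonneg_left (by linarith only [e1']) (by linarith only [e1])
    nlinarith only [b2, c2, e1]
  -- second gain
  have s0 := sinh_hT 0
  rw [Real.cos_zero, mul_one] at s0
  have ch0 := Real.cosh_sq (hT 0)
  rw [s0] at ch0
  have e2 : 1154 / 1000 ≤ Real.cosh (hT 0) := by
    have := Real.one_le_cosh (hT 0)
    nlinarith only [ch0, this]
  have e3 : 1431 / 10000 ≤ Real.log (Real.cosh (hT 0)) := by
    have h1 : Real.log (1154 / 1000) ≤ Real.log (Real.cosh (hT 0)) :=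
      Real.log_le_log (by norm_num) e2
    have h2 : (1431 / 10000 : ℝ) ≤ Real.log (1154 / 1000) := by
      rw [Real.le_log_iff_exp_le (by norm_num)]
      have := Real.exp_bound' (x := 1431 / 10000) (by norm_num) (by norm_num) (n := 4) (by norm_num)
      refine this.trans ?_
      norm_num [Finset.sum_range_succ, Nat.factorial]
    linarith only [h1, h2]
  have g2 : 74 / 1000 ≤ c * Real.log (Real.cosh (hT 0)) := by nlinarith only [c1, e3]
  -- the heights
  have m1 : hT 0 ≤ 5705 / 10000 := by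
    rw [← Real.sinh_le_sinh, s0]
    have : ∀ x : ℝ, 0 ≤ x → x + x ^ 3 / 6 ≤ Real.sinh x := by
      intro x hx
      have := LowA_pos (b := x) (f := fun x => Real.sinh x - (x + x ^ 3 / 6))
        (f' := fun x => Real.cosh x - (1 + x ^ 2 / 2))
        (fun x _ _ => by
          have h1 := (Real.hasDerivAt_sinh x).sub ((hasDerivAt_id' x).add
            ((hasDerivAt_pow 3 x).div_const 6))
          refine h1.congr_deriv ?_
          norm_num
          try ring)
        (by simp) (fun x hx _ => by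
          have h2 := LowA_pos (b := x) (f := fun x => Real.cosh x - (1 + x ^ 2 / 2))
            (f' := fun x => Real.sinh x - x)
            (fun x _ _ => by
              have h1 := (Real.hasDerivAt_cosh x).sub ((hasDerivAt_const x (1 : ℝ)).add
                ((hasDerivAt_pow 2 x).div_const 2))
              refine h1.congr_deriv ?_
              norm_num)
            (by simp) (fun x hx _ => by linarith only [Real.self_le_sinh_iff.2 hx]) hx le_rfl
          exact h2) hx le_rfl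
      linarith only [this]
    have h1 := this (5705 / 10000) (by norm_num)
    norm_num at h1 ⊢
    linarith only [h1]
  have m2 : η ≤ 316 / 1000 := by
    have h1 : η ≤ Real.sinh η := Real.self_le_sinh_iff.2 η0
    rw [s1] at h1
    nlinarith only [b2, c2, h1]
  have tot : 78 / 1000 + 74 / 1000 ≤ 857 / 1000 / c * (Real.cosh η - 1) +
      c * Real.log (Real.cosh (hT 0)) := by linarith only [g1, g2]
  have tot2 : 963 / 10000 ≤ 2 / Real.pi * (857 / 1000 / c * (Real.cosh η - 1)) +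
      2 / Real.pi * (c * Real.log (Real.cosh (hT 0))) := by
    rw [← mul_add, div_mul_eq_mul_div, le_div_iff₀ hpi]
    linarith only [p1, b2, g1, g2]
  linarith only [b2, k1, k2, k3, m1, m2, tot2]

end

end Pool.Agent.S3
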