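import Pool.Agent.S3.Es3
import Pool.Agent.S3.Es6

/-!
# Open-open edges: the estimates at the ends for `v1 ≤ 13/40`

`EndAll` for two points of multiplicity at least three, without any hypothesis on `b`.
-/

set_option autoImplicit false

namespace Pool.Agent.S3

open Complex
open Pool.Agent.H25.RK (gdv gdv_re_lt gdv_hasDerivAt)

section

variable {Φ : ℂ → ℂ → ℂ} {θ θ' xc xc' b b' v1 v1' μ μ' : ℝ} {v w : ℂ}

theorem sin_mul_cos_ge {R R' ρ : ℝ} (h0 : 0 ≤ R) (h1 : R ≤ ρ) (h2 : ρ ≤ R')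
    (h3 : R' ≤ Real.pi / 2) :
    Real.sin R * Real.cos R ≤ Real.sin ρ * Real.cos ρ ∨
      Real.sin R' * Real.cos R' ≤ Real.sin ρ * Real.cos ρ := by
  have e : ∀ x : ℝ, Real.sin x * Real.cos x = Real.sin (2 * x) / 2 := fun x => by
    rw [Real.sin_two_mul]; ring
  rw [e, e, e]
  rcases le_total (2 * ρ) (Real.pi / 2) with h | h
  · left
    have := Real.sin_le_sin_of_le_of_le_pi_div_two (x := 2 * R) (y := 2 * ρ)
      (by linarith [Real.pi_pos]) h (by linarith)
    linarith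
  · right
    have := Real.sin_le_sin_of_le_of_le_pi_div_two (x := Real.pi - 2 * R') (y := Real.pi - 2 * ρ)
      (by linarith [Real.pi_pos]) (by linarith) (by linarith)
    rw [Real.sin_pi_sub, Real.sin_pi_sub] at this
    linarith

theorem sinh_hT_lt {R : ℝ} (h : |R| < Real.pi / 2) : Real.sinh (hT R) < Real.cos R := by
  rw [sinh_hT]
  have := cos_pos' h
  linarith

theorem cosh_hT_le (R : ℝ) : Real.cosh (hT R) ≤ 1167 / 1000 := by
  have h1 := Real.cosh_sq (hT R)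
  rw [sinh_hT] at h1
  have h2 : Real.cos R ^ 2 ≤ 1 := by
    have := Real.sin_sq_add_cos_sq R
    nlinarith [sq_nonneg (Real.sin R)]
  have h3 := Real.cosh_pos (hT R)
  by_contra hc
  push Not at hc
  nlinarith

/-- The value of `re Φ` exceeds the value at the ends, for two points at the level `.601`. -/
theorem g_pos (hΦ : IsPhi Φ) (h0 : Φ 0 0 = c00) {R R' : ℝ} (hR0 : 0 ≤ R) (hRR : R ≤ R')
    (hR' : R' ≤ 13 / 40 * Real.pi) :
    hT R + hT R' < FP Φ (UU R (hT R)) (UU R' (-(hT R'))) := by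
  have hpi := Real.pi_pos
  have hR0' : 0 ≤ R' := hR0.trans hRR
  have hR2' : R' < Real.pi / 2 := by linarith
  have aR : |R| < Real.pi / 2 := by rw [abs_of_nonneg hR0]; linarith
  have aR' : |R'| < Real.pi / 2 := by rw [abs_of_nonneg hR0']; linarith
  have cR := cos_pos' aR
  have cR' := cos_pos' aR'
  have n := hT_nonneg aR
  have n' := hT_nonneg aR'
  by_cases hA : (601 / 1000) ^ 2 * (Real.cosh (hT R) * Real.sin R') ≤
      Real.sin R * Real.cosh (hT R') ∧ 601 / 1000 * Real.cos R < Real.cos R'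
  · obtain ⟨h1, h2⟩ := hA
    refine FP_pair hΦ h0 hR0 hRR hR2' n n' (by rw [sinh_hT]; exact h2) (sinh_hT_lt aR') ?_
    intro ρ ρ1 ρ2
    have sR' : 0 ≤ Real.sin R' := Real.sin_nonneg_of_nonneg_of_le_pi hR0' (by linarith)
    have ch := Real.cosh_pos (hT R)
    have ch' := Real.one_le_cosh (hT R')
    have ub := cosh_hT_le R
    have main : Real.sinh (hT R) * Real.cosh (hT R) * (601 / 1000 * Real.sin R') ≤
        Real.sin ρ * Real.cos ρ * Real.cosh (hT R') := by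
      rcases sin_mul_cos_ge hR0 ρ1 ρ2 hR2'.le with hm | hm
      · have k1 := mul_le_mul_of_nonneg_right h1 cR.le
        have k2 := mul_le_mul_of_nonneg_right hm (by linarith : (0 : ℝ) ≤ Real.cosh (hT R'))
        rw [sinh_hT]
        nlinarith
      · have k2 := mul_le_mul_of_nonneg_right hm (by linarith : (0 : ℝ) ≤ Real.cosh (hT R'))
        refine le_trans ?_ k2
        have k3 : Real.sinh (hT R) * Real.cosh (hT R) * (601 / 1000) ≤
            Real.cos R' * Real.cosh (hT R') := by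
          have t1 : Real.sinh (hT R) < Real.cos R' := by rw [sinh_hT]; exact h2
          have t2 : Real.sinh (hT R) * Real.cosh (hT R) ≤ Real.cos R' * (1167 / 1000) :=
            mul_le_mul t1.le ub ch.le cR'.le
          nlinarith
        have k4 := mul_le_mul_of_nonneg_left k3 sR'
        linarith
    have k5 := mul_le_mul_of_nonneg_left main cR'.le
    rw [sinh_hT R']
    linarith
  · have hc : Real.sin R * Real.cosh (hT R') ≤
        (601 / 1000) ^ 2 * (Real.cosh (hT R) * Real.sin R') ∨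
        (Real.cos R' ≤ 601 / 1000 * Real.cos R ∧ 522 / 1000 ≤ Real.cos R') := by
      by_contra hcon
      push Not at hcon
      obtain ⟨c1, c2⟩ := hcon
      apply hA
      refine ⟨c1.le, ?_⟩
      by_contra h3
      push Not at h3
      have := c2 h3
      have := cos_R1_ge hR0' hR'
      linarith
    have k1 := g_left hΦ hR0 (by linarith) hR0' hR2' hc
    have k2 := g_right hΦ hR0' hR' (by linarith : 13 / 40 * Real.pi < Real.pi / 2)
    have k3 := g_num hΦ h0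
    linarith

/-- Lowering a point. -/
theorem FP_raise (hΦ : IsPhi Φ) {R R' η' x y : ℝ} (aR : |R| < Real.pi / 2)
    (aR' : |R'| < Real.pi / 2) (hx : 0 ≤ x) (hxy : x ≤ y) (h1 : Real.sinh y < Real.cos R)
    (h0' : 0 ≤ η') (h1' : Real.sinh η' < Real.cos R') :
    FP Φ (UU R y) (UU R' (-η')) - y ≤ FP Φ (UU R x) (UU R' (-η')) - x := by
  rcases hxy.eq_or_lt with h | h
  · rw [h]
  · have r := reg_pair aR aR' (hx.trans hxy) h0' h1 h1'
    have k := FP_up hΦ aR hx h r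
    rw [gd_igd (UU_re_lt aR')] at k
    exact k.le

/-- Lowering both points. -/
theorem FP_raise2 (hΦ : IsPhi Φ) {R R' x x' y y' : ℝ} (aR : |R| < Real.pi / 2)
    (aR' : |R'| < Real.pi / 2) (hx : 0 ≤ x) (hxy : x ≤ y) (h1 : Real.sinh y < Real.cos R)
    (hx' : 0 ≤ x') (hxy' : x' ≤ y') (h1' : Real.sinh y' < Real.cos R') :
    FP Φ (UU R y) (UU R' (-y')) - y - y' ≤ FP Φ (UU R x) (UU R' (-x')) - x - x' := by
  have h2 : Real.sinh x < Real.cos R := lt_of_le_of_lt (Real.sinh_le_sinh.2 hxy) h1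
  have h2' : Real.sinh x' < Real.cos R' := lt_of_le_of_lt (Real.sinh_le_sinh.2 hxy') h1'
  have k1 := FP_raise hΦ aR aR' hx hxy h1 (hx'.trans hxy') h1'
  have k2 := FP_raise hΦ.swap aR' aR hx' hxy' h1' hx h2
  rw [FP_flip hΦ aR aR' (reg_pair aR aR' hx (hx'.trans hxy') h2 h1'),
    FP_flip hΦ aR aR' (reg_pair aR aR' hx hx' h2 h2')] at k2
  linarith

/-- All pairs of points below the level `.601`, `R ≤ R'`. -/
theorem G_core (hΦ : IsPhi Φ) (h0 : Φ 0 0 = c00) {R R' η η' : ℝ} (hR0 : 0 ≤ R) (hRR : R ≤ R')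
    (hR' : R' ≤ 13 / 40 * Real.pi) (hη : 0 ≤ η) (hη' : 0 ≤ η')
    (h1 : Real.sinh η ≤ 601 / 1000 * Real.cos R)
    (h1' : Real.sinh η' ≤ 601 / 1000 * Real.cos R') :
    η + η' < FP Φ (UU R η) (UU R' (-η')) := by
  have hpi := Real.pi_pos
  have aR : |R| < Real.pi / 2 := by rw [abs_of_nonneg hR0]; linarith
  have aR' : |R'| < Real.pi / 2 := by rw [abs_of_nonneg (hR0.trans hRR)]; linarith
  have e1 : η ≤ hT R := by rw [← Real.sinh_le_sinh, sinh_hT]; exact h1
  have e1' : η' ≤ hT R' := by rw [← Real.sinh_le_sinh, sinh_hT]; exact h1'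
  have k := FP_raise2 hΦ aR aR' hη e1 (sinh_hT_lt aR) hη' e1' (sinh_hT_lt aR')
  have g := g_pos hΦ h0 hR0 hRR hR'
  linarith

/-- All pairs of points below the level `.601`. -/
theorem G_all (hΦ : IsPhi Φ) (h0 : Φ 0 0 = c00) {R R' η η' : ℝ} (hR0 : 0 ≤ R)
    (hR : R ≤ 13 / 40 * Real.pi) (hR0' : 0 ≤ R')
    (hR' : R' ≤ 13 / 40 * Real.pi) (hη : 0 ≤ η) (hη' : 0 ≤ η')
    (h1 : Real.sinh η ≤ 601 / 1000 * Real.cos R)
    (h1' : Real.sinh η' ≤ 601 / 1000 * Real.cos R') :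
    η + η' < FP Φ (UU R η) (UU R' (-η')) := by
  rcases le_total R R' with h | h
  · exact G_core hΦ h0 hR0 h hR' hη hη' h1 h1'
  · have hpi := Real.pi_pos
    have aR : |R| < Real.pi / 2 := by rw [abs_of_nonneg hR0]; linarith
    have aR' : |R'| < Real.pi / 2 := by rw [abs_of_nonneg hR0']; linarith
    have c := cos_pos' aR
    have c' := cos_pos' aR'
    have k := G_core hΦ.swap h0 hR0' h hR hη' hη h1' h1
    rw [FP_flip hΦ aR aR' (reg_pair aR aR' hη hη' (by linarith) (by linarith))] at k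
    linarith

theorem Und.FP_lt' (hΦ : IsPhi Φ) (h0 : Φ 0 0 = c00) (hθ : Ht θ) (hθ' : Ht θ') (hv : Und θ v)
    (hw : Und θ' w) (c : v.re ≤ 13 / 40) (c' : w.re ≤ 13 / 40) :
    Real.pi * v.im + Real.pi * w.im < (Φ v ((starRingEnd ℂ) w)).re := by
  have hpi := Real.pi_pos
  have pc : (Real.pi : ℂ) ≠ 0 := by exact_mod_cast hpi.ne'
  have key : ∀ {θ : ℝ} {v : ℂ}, Ht θ → Und θ v →
      Real.sinh (Real.pi * v.im) ≤ 601 / 1000 * Real.cos (Real.pi * v.re) := by
    intro θ v hθ hv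
    have h1 : Real.sinh (Real.pi * v.im) ≤ Real.sinh (Real.pi * bl θ v.re) :=
      Real.sinh_le_sinh.2 (mul_le_mul_of_nonneg_left hv.im1 hpi.le)
    rw [sinh_pi_bl] at h1
    have h2 := hv.cos_ge
    have h3 := hθ.tan_le
    nlinarith
  have a1 : Real.pi * v.re ≤ 13 / 40 * Real.pi := by nlinarith
  have a2 : Real.pi * w.re ≤ 13 / 40 * Real.pi := by nlinarith
  have k := G_all hΦ h0 (mul_nonneg hpi.le hv.re0) a1 (mul_nonneg hpi.le hw.re0) a2
    (mul_nonneg hpi.le hv.im0) (mul_nonneg hpi.le hw.im0) (key hθ hv) (key hθ' hw)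
  rw [← UU_conj, UU_pi, UU_pi, FP, map_mul, conj_ofReal, mul_div_cancel_left₀ _ pc,
    mul_div_cancel_left₀ _ pc] at k
  exact k

/-- **The bound exceeds the value at the ends**, for points of the lines. -/
theorem B0_line' (hΦ : IsPhi Φ) (h0 : Φ 0 0 = c00) (ho : OppHyp θ θ' xc xc')
    (hs : Split θ θ' xc xc' b b') (hc : 0 < xc) (hc' : 0 < xc') (hθ : Ht θ) (hθ' : Ht θ')
    (hv : Und θ v) (hv' : v.im = bl θ v.re) (hw : Und θ' w) (hw' : w.im = bl θ' w.re)
    (c : v.re ≤ 13 / 40) (c' : w.re ≤ 13 / 40) :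
    Real.pi * (v.im + w.im) < L0 Φ θ θ' b b' xc xc' v w := by
  have ev := line_exists hv.abs hθ.abs hv'
  have ew := line_exists hw.abs hθ'.abs hw'
  have g := hv.FP_lt' hΦ h0 hθ hθ' hw c c'
  have l := L0_line (Φ := Φ) (b := b) (b' := b') ho (uof v).re (uof w).re
  have d := Dfun_main hΦ ho hs hc hc' (uof v).re (uof w).re
  rw [← ev, ← ew] at l
  rw [l]
  linarith

/-- **The estimates at the ends and on the middle interval**, for `v1, v1' ≤ 13/40`. -/
theorem endAll' (hΦ : IsPhi Φ) (h0 : Φ 0 0 = c00) (ho : OppHyp θ θ' xc xc')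
    (hs : Split θ θ' xc xc' b b') (hc : 0 < xc) (hc' : 0 < xc') (hθ : Ht θ) (hθ' : Ht θ')
    (hv1 : V1 v1) (hv1' : V1 v1') (l1 : v1 ≤ 13 / 40) (l1' : v1' ≤ 13 / 40)
    (hμ : μ ≤ Real.pi) (hμ' : μ' ≤ Real.pi) :
    EndAll Φ θ θ' xc xc' b b' v1 v1' μ μ' := by
  have pr : ∀ {θ v1 : ℝ} {v : ℂ}, V1 v1 → v1 ≤ 13 / 40 → 0 ≤ v.re →
      (pl θ v1 v).re ≤ 13 / 40 := by
    intro θ v1 v hv1 l h
    have p0 := hv1.pos
    have e1 : max (-v1) (min v1 v.re) = min v1 v.re := by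
      apply max_eq_right
      have : 0 ≤ min v1 v.re := le_min p0.le h
      linarith
    have er : (pl θ v1 v).re = min v1 v.re := by
      unfold pl; rw [e1]; simp
    rw [er]
    exact (min_le_left _ _).trans l
  intro v w hv v0 hw w0
  obtain ⟨p1, p2, p3, p4⟩ := pl_und hθ hv1 hv v0
  obtain ⟨q1, q2, q3, q4⟩ := pl_und hθ' hv1' hw w0
  have k := B0_line' hΦ h0 ho hs hc hc' hθ hθ' p1 p2 q1 q2 (pr hv1 l1 v0) (pr hv1' l1' w0)
  have key : Real.pi * (v.im + w.im) < LM Φ θ θ' b b' xc xc' v1 v1' μ μ' v w := by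
    rw [LM]
    have m1 := mul_le_mul_of_nonneg_right hμ (sub_nonneg.2 p3)
    have m2 := mul_le_mul_of_nonneg_right hμ' (sub_nonneg.2 q3)
    linarith
  refine ⟨key, fun y hy => lt_of_le_of_lt ?_ key⟩
  have s1 := se_mid (G0_sinh hθ hv) hy
  have s2 := se_mid (G0_sinh hθ' hw) hy
  rw [abs_of_nonneg p4] at s1
  rw [abs_of_nonneg q4] at s2
  rw [EE]
  linarith

end

end Pool.Agent.S3
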