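import Pool.Agent.S3.Gd

/-!
# Stage 3: reflection of one vertex at an opposite edge (section 5.1 of the note of helper7)

`Re Φ(v(-x), w(x')) ≤ Re Φ(v(x), w(x'))` for `x, x' ≥ 0`, `v(x) = gd (x + iθ)/π`,
`w(x') = gd (x' - iθ')/π`: the difference is an integral of `Im q(P, w) + Im q(conj P, w) ≥ 0`.
-/

namespace Pool.Agent.S3

open Complex

theorem normSq_sinh' (q : ℂ) : normSq (sinh q) = Real.sinh q.re ^ 2 + Real.sin q.im ^ 2 := by
  rw [normSq_apply, sinh_re', sinh_im']
  have h1 := Real.cosh_sq q.re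
  have h2 := Real.sin_sq_add_cos_sq q.im
  nlinarith

theorem normSq_cosh' (q : ℂ) : normSq (cosh q) = Real.sinh q.re ^ 2 + Real.cos q.im ^ 2 := by
  rw [normSq_apply, cosh_re', cosh_im']
  have h1 := Real.cosh_sq q.re
  have h2 := Real.sin_sq_add_cos_sq q.im
  nlinarith

/-- `cos (2 Im arsh z) = |1 + z²| - |z|²` -/
theorem sin_sq_arsh (z : ℂ) :
    2 * Real.sin (arsh z).im ^ 2 = 1 + normSq z - ‖1 + z ^ 2‖ := by
  have h1 := normSq_sinh' (arsh z)
  have h2 := normSq_cosh' (arsh z)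
  rw [sinh_arsh] at h1
  rw [cosh_arsh, normSq_eq_norm_sq, ← norm_pow, csq_sq] at h2
  have h3 := Real.sin_sq_add_cos_sq (arsh z).im
  linarith

theorem arsh_im_nonneg {z : ℂ} (h : 1 + z ^ 2 ∈ slitPlane) (hz : 0 ≤ z.im) : 0 ≤ (arsh z).im := by
  have h1 : z.im = Real.cosh (arsh z).re * Real.sin (arsh z).im := by
    rw [← sinh_im', sinh_arsh]
  rw [h1] at hz
  have h2 : 0 ≤ Real.sin (arsh z).im := nonneg_of_mul_nonneg_right hz (Real.cosh_pos _)
  by_contra hc
  push Not at hc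
  have h3 := (abs_lt.1 (arsh_im_lt h)).1
  have := Real.sin_neg_of_neg_of_neg_pi_lt hc (by linarith [Real.pi_pos])
  linarith

/-- the comparison lemma -/
theorem arsh_im_add {z₁ z₂ : ℂ} (h1 : 1 + z₁ ^ 2 ∈ slitPlane) (h2 : 1 + z₂ ^ 2 ∈ slitPlane)
    (hn : normSq z₁ = normSq z₂) (hi : 0 ≤ z₁.im) (hr : (z₁ ^ 2).re ≤ (z₂ ^ 2).re) :
    0 ≤ (arsh z₁).im + (arsh z₂).im := by
  have r1 := arsh_im_nonneg h1 hi
  have b1 := abs_lt.1 (arsh_im_lt h1)
  have b2 := abs_lt.1 (arsh_im_lt h2)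
  by_contra hc
  push Not at hc
  have hpi := Real.pi_pos
  have s1 : 0 ≤ Real.sin (arsh z₁).im := Real.sin_nonneg_of_nonneg_of_le_pi r1 (by linarith)
  have s2 : Real.sin (arsh z₁).im < Real.sin (-(arsh z₂).im) := by
    apply Real.sin_lt_sin_of_lt_of_le_pi_div_two <;> linarith
  rw [Real.sin_neg] at s2
  have s3 : Real.sin (arsh z₁).im ^ 2 < Real.sin (arsh z₂).im ^ 2 := by nlinarith
  have e1 := sin_sq_arsh z₁
  have e2 := sin_sq_arsh z₂
  have n1 : ‖1 + z₁ ^ 2‖ ≤ ‖1 + z₂ ^ 2‖ := by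
    apply le_of_sq_le_sq _ (norm_nonneg _)
    rw [← normSq_eq_norm_sq, ← normSq_eq_norm_sq, normSq_add, normSq_add]
    simp only [map_one, one_mul, conj_re]
    rw [map_pow, map_pow, hn]
    linarith
  linarith

/-- the pointwise inequality -/
theorem refl_im {x x' t t' : ℝ} (hx : 0 ≤ x) (hx' : 0 ≤ x') (ht : 0 ≤ t) (ht' : 0 ≤ t')
    (h : t + t' < Real.pi / 2) :
    0 ≤ (qq (UU x t) (UU x' (-t'))).im + (qq (UU x (-t)) (UU x' (-t'))).im := by
  have hr : Reg (UU x t) (UU x' (-t')) := by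
    apply Reg_UU; rw [abs_neg, abs_of_nonneg ht, abs_of_nonneg ht']; exact h
  have hr2 : Reg (UU x (-t)) (UU x' (-t')) := by
    apply Reg_UU; rw [abs_neg, abs_neg, abs_of_nonneg ht, abs_of_nonneg ht']; exact h
  have hc := cosh_ne hr.right
  have hn0 : 0 < normSq (cosh (UU x' (-t'))) := normSq_pos.2 hc
  have hconj : sinh (UU x (-t)) = (starRingEnd ℂ) (sinh (UU x t)) := by
    rw [conj_sinh', UU_conj]
  have a1 : 0 ≤ (sinh (UU x t)).re := by
    rw [sinh_re', UU_re, UU_im]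
    apply mul_nonneg (Real.sinh_nonneg_iff.2 hx)
    exact (cos_pos' (by rw [abs_of_nonneg ht]; linarith)).le
  have a2 : 0 ≤ (sinh (UU x t)).im := by
    rw [sinh_im', UU_re, UU_im]
    apply mul_nonneg (Real.cosh_pos _).le
    exact Real.sin_nonneg_of_nonneg_of_le_pi ht (by linarith [Real.pi_pos])
  have a3 : 0 ≤ (cosh (UU x' (-t'))).re := (cosh_re_pos hr.right).le
  have a4 : (cosh (UU x' (-t'))).im ≤ 0 := by
    rw [cosh_im', UU_re, UU_im, Real.sin_neg]
    have := mul_nonneg (Real.sinh_nonneg_iff.2 hx')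
      (Real.sin_nonneg_of_nonneg_of_le_pi ht' (by linarith [Real.pi_pos]))
    linarith
  apply arsh_im_add (slit hr) (slit hr2)
  · rw [hconj, normSq_div, normSq_div, normSq_conj]
  · rw [div_eq_mul_inv, inv_def, ← mul_assoc, im_mul_ofReal]
    apply mul_nonneg _ (inv_pos.2 hn0).le
    rw [mul_im, conj_re, conj_im]
    have b1 := mul_nonneg a1 (neg_nonneg.2 a4)
    have b2 := mul_nonneg a2 a3
    linarith
  · rw [hconj, div_pow, div_pow]
    have e : ∀ A : ℂ, (A / cosh (UU x' (-t')) ^ 2).re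
        = (A.re * (cosh (UU x' (-t')) ^ 2).re + A.im * (cosh (UU x' (-t')) ^ 2).im)
          / normSq (cosh (UU x' (-t')) ^ 2) := by
      intro A; rw [div_re]; ring
    rw [e, e]
    apply div_le_div_of_nonneg_right _ (normSq_nonneg _)
    rw [← map_pow, conj_re, conj_im]
    have c1 : (cosh (UU x' (-t')) ^ 2).im ≤ 0 := by
      rw [sq, mul_im]
      have := mul_nonneg a3 (neg_nonneg.2 a4)
      linarith
    have c2 : 0 ≤ (sinh (UU x t) ^ 2).im := by
      rw [sq, mul_im]
      have := mul_nonneg a1 a2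
      linarith
    nlinarith

/-! ### the inverse of `gd` -/

/-- the inverse of `gd` -/
noncomputable def igd (P : ℂ) : ℂ := arsh (tan P)

theorem cos_re_pos' {P : ℂ} (h : |P.re| < Real.pi / 2) : 0 < (cos P).re := by
  have e : (cos P).re = Real.cos P.re * Real.cosh P.im := by
    conv_lhs => rw [← re_add_im P]
    rw [Complex.cos_add, Complex.cos_mul_I, Complex.sin_mul_I]
    simp [← Complex.ofReal_cosh, ← Complex.ofReal_cos, ← Complex.ofReal_sinh, ← Complex.ofReal_sin]
  rw [e]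
  exact mul_pos (cos_pos' h) (Real.cosh_pos _)

theorem cos_ne' {P : ℂ} (h : |P.re| < Real.pi / 2) : cos P ≠ 0 := by
  intro h0
  have := cos_re_pos' h
  rw [h0] at this; simp at this

theorem one_add_tan_sq {P : ℂ} (h : |P.re| < Real.pi / 2) : 1 + tan P ^ 2 = (1 / cos P) ^ 2 := by
  have hc := cos_ne' h
  have := Complex.sin_sq_add_cos_sq P
  rw [Complex.tan_eq_sin_div_cos]
  field_simp
  linear_combination this

theorem one_div_cos_re_pos {P : ℂ} (h : |P.re| < Real.pi / 2) : 0 < (1 / cos P).re := by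
  have hc := cos_ne' h
  rw [one_div, inv_re]
  exact div_pos (cos_re_pos' h) (normSq_pos.2 hc)

theorem slit_tan {P : ℂ} (h : |P.re| < Real.pi / 2) : 1 + tan P ^ 2 ∈ slitPlane := by
  rw [one_add_tan_sq h]
  have h1 := one_div_cos_re_pos h
  set y := 1 / cos P
  rw [mem_slitPlane_iff]
  by_contra hc
  rw [not_or, not_lt, not_not] at hc
  obtain ⟨a, b⟩ := hc
  rw [sq, mul_re] at a
  rw [sq, mul_im] at b
  have hb : y.re * y.im = 0 := by linarith
  rcases mul_eq_zero.1 hb with hb | hb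
  · linarith
  · rw [hb] at a; nlinarith

theorem csq_tan {P : ℂ} (h : |P.re| < Real.pi / 2) : csq (tan P) = 1 / cos P :=
  eq_of_sq (by rw [csq_sq, one_add_tan_sq h]) (csq_re_pos (slit_tan h)) (one_div_cos_re_pos h)

theorem sinh_igd (P : ℂ) : sinh (igd P) = tan P := sinh_arsh _

theorem cosh_igd {P : ℂ} (h : |P.re| < Real.pi / 2) : cosh (igd P) = 1 / cos P := by
  rw [igd, cosh_arsh, csq_tan h]

theorem igd_im_lt {P : ℂ} (h : |P.re| < Real.pi / 2) : |(igd P).im| < Real.pi / 2 :=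
  arsh_im_lt (slit_tan h)

theorem gd_igd {P : ℂ} (h : |P.re| < Real.pi / 2) : gd (igd P) = P := by
  have hc := cos_ne' h
  have h1 : (1 + I * sinh (igd P)) / cosh (igd P) = exp (I * P) := by
    rw [sinh_igd, cosh_igd h, mul_comm I P, exp_mul_I, Complex.tan_eq_sin_div_cos]
    field_simp
  rw [gd, h1, log_exp]
  · linear_combination (-P) * I_mul_I
  · rw [mul_im, I_re, I_im]; linarith [Real.pi_pos, (abs_lt.1 h).1]
  · rw [mul_im, I_re, I_im]; linarith [Real.pi_pos, (abs_lt.1 h).2]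

theorem igd_gd {u : ℂ} (h : |u.im| < Real.pi / 2) : igd (gd u) = u := by
  symm
  apply eq_arsh _ h
  rw [tan_gd h]

theorem hasDerivAt_igd {P : ℂ} (h : |P.re| < Real.pi / 2) :
    HasDerivAt igd (cosh (igd P)) P := by
  have hc := cos_ne' h
  have h1 := (hasDerivAt_arsh (slit_tan h)).comp P (Complex.hasDerivAt_tan hc)
  refine h1.congr_deriv ?_
  rw [csq_tan h, cosh_igd h]
  field_simp

theorem igd_conj {P : ℂ} (h : |P.re| < Real.pi / 2) :
    igd ((starRingEnd ℂ) P) = (starRingEnd ℂ) (igd P) := by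
  rw [igd, igd, ← arsh_conj (slit_tan h), Complex.tan_conj]

/-- the vertical line in the `P`-plane -/
theorem hasDerivAt_igd_line {R : ℝ} (h : |R| < Real.pi / 2) (s : ℝ) :
    HasDerivAt (fun s : ℝ => igd (UU R s)) (I * cosh (igd (UU R s))) s := by
  have h' : |(UU R s).re| < Real.pi / 2 := by simpa using h
  have := HasDerivAt.scomp (g₁ := igd) (h := fun s : ℝ => UU R s) s (hasDerivAt_igd h')
    (hasDerivAt_UU' R s)
  rwa [smul_eq_mul] at this

theorem igd_im_mono {R : ℝ} (h : |R| < Real.pi / 2) :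
    StrictMono (fun s : ℝ => (igd (UU R s)).im) := by
  apply strictMono_of_deriv_pos
  intro s
  have h' : |(UU R s).re| < Real.pi / 2 := by simpa using h
  have h1 : HasDerivAt (fun s : ℝ => (igd (UU R s)).im) (I * cosh (igd (UU R s))).im s :=
    Complex.imCLM.hasFDerivAt.comp_hasDerivAt s (hasDerivAt_igd_line h s)
  rw [h1.deriv, mul_im, I_re, I_im]
  have := cosh_re_pos (igd_im_lt h')
  linarith

theorem igd_real_im {R : ℝ} (h : |R| < Real.pi / 2) : (igd (UU R 0)).im = 0 := by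
  have h' : |(UU R 0).re| < Real.pi / 2 := by simpa using h
  have h1 := igd_conj h'
  rw [UU_conj, neg_zero] at h1
  have h2 := congrArg Complex.im h1
  rw [conj_im] at h2
  linarith

theorem igd_re_nonneg {R : ℝ} (h0 : 0 ≤ R) (h : R < Real.pi / 2) (s : ℝ) :
    0 ≤ (igd (UU R s)).re := by
  have h' : |(UU R s).re| < Real.pi / 2 := by
    rw [UU_re, abs_of_nonneg h0]; exact h
  have h1 : (sinh (igd (UU R s))).re = (tan (UU R s)).re := by rw [sinh_igd]
  rw [sinh_re'] at h1
  have h2 : 0 ≤ (tan (UU R s)).re := by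
    rw [Complex.tan_eq_sin_div_cos, div_re, ← add_div]
    apply div_nonneg _ (normSq_nonneg _)
    have e1 : sin (UU R s) = Real.sin R * Real.cosh s + Real.cos R * Real.sinh s * I := by
      rw [UU, Complex.sin_add, Complex.cos_mul_I, Complex.sin_mul_I]
      push_cast; ring
    have e2 : cos (UU R s) = Real.cos R * Real.cosh s - Real.sin R * Real.sinh s * I := by
      rw [UU, Complex.cos_add, Complex.cos_mul_I, Complex.sin_mul_I]
      push_cast; ring
    have f1 : (sin (UU R s)).re = Real.sin R * Real.cosh s := by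
      rw [e1, ← ofReal_mul, ← ofReal_mul, add_re, ofReal_re, re_ofReal_mul, I_re, mul_zero,
        add_zero]
    have f2 : (sin (UU R s)).im = Real.cos R * Real.sinh s := by
      rw [e1, ← ofReal_mul, ← ofReal_mul, add_im, ofReal_im, im_ofReal_mul, I_im, mul_one,
        zero_add]
    have f3 : (cos (UU R s)).re = Real.cos R * Real.cosh s := by
      rw [e2, ← ofReal_mul, ← ofReal_mul, sub_re, ofReal_re, re_ofReal_mul, I_re, mul_zero,
        sub_zero]
    have f4 : (cos (UU R s)).im = -(Real.sin R * Real.sinh s) := by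
      rw [e2, ← ofReal_mul, ← ofReal_mul, sub_im, ofReal_im, im_ofReal_mul, I_im, mul_one,
        zero_sub]
    rw [f1, f2, f3, f4]
    have h3 := Real.cosh_sq s
    have h4 : 0 ≤ Real.sin R := Real.sin_nonneg_of_nonneg_of_le_pi h0 (by linarith [Real.pi_pos])
    have h5 : 0 ≤ Real.cos R :=
      Real.cos_nonneg_of_mem_Icc ⟨by linarith [Real.pi_pos], h.le⟩
    have h6 := mul_nonneg h4 h5
    nlinarith
  rw [← h1] at h2
  have h3 := cos_pos' (igd_im_lt h')
  rw [← Real.sinh_nonneg_iff]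
  exact nonneg_of_mul_nonneg_left h2 h3

end Pool.Agent.S3
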