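import Pool.Agent.S3.Dneg
import Pool.Agent.S3.Refl

/-!
# Stage 3: existence of the edge potential `Φ` (Poincaré lemma on the convex set `Reg`)
-/

namespace Pool.Agent.S3

open Complex

/-- the region as a set -/
def RegS : Set (ℂ × ℂ) := {p | Reg p.1 p.2}

theorem RegS_open : IsOpen RegS := by
  have h : Continuous (fun p : ℂ × ℂ => |p.1.im| + |p.2.im|) := by fun_prop
  exact isOpen_lt h continuous_const

theorem RegS_convex : Convex ℝ RegS := by
  intro p hp q hq a b ha hb hab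
  change |(a • p + b • q).1.im| + |(a • p + b • q).2.im| < Real.pi / 2
  have hp' : |p.1.im| + |p.2.im| < Real.pi / 2 := hp
  have hq' : |q.1.im| + |q.2.im| < Real.pi / 2 := hq
  simp only [Prod.fst_add, Prod.snd_add, Prod.smul_fst, Prod.smul_snd, add_im, smul_im,
    smul_eq_mul]
  have h1 := abs_add_le (a * p.1.im) (b * q.1.im)
  have h2 := abs_add_le (a * p.2.im) (b * q.2.im)
  rw [abs_mul, abs_mul, abs_of_nonneg ha, abs_of_nonneg hb] at h1 h2
  rcases ha.eq_or_lt with rfl | ha0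
  · have : b = 1 := by linarith
    rw [this] at h1 h2 ⊢
    linarith
  · have h3 : a * (|p.1.im| + |p.2.im|) < a * (Real.pi / 2) := mul_lt_mul_of_pos_left hp' ha0
    have h4 : b * (|q.1.im| + |q.2.im|) ≤ b * (Real.pi / 2) := mul_le_mul_of_nonneg_left hq'.le hb
    have h5 : a * (Real.pi / 2) + b * (Real.pi / 2) = Real.pi / 2 := by rw [← add_mul, hab, one_mul]
    linarith

/-- a linear form on `ℂ × ℂ` -/
noncomputable def fd (α β : ℂ) : ℂ × ℂ →L[ℂ] ℂ :=
  α • ContinuousLinearMap.fst ℂ ℂ ℂ + β • ContinuousLinearMap.snd ℂ ℂ ℂ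

theorem fd_apply (α β : ℂ) (x : ℂ × ℂ) : fd α β x = α * x.1 + β * x.2 := by
  simp [fd]

/-- coefficients of the form -/
noncomputable def ca (p : ℂ × ℂ) : ℂ := -(2 / Real.pi) * (qq p.1 p.2 * (cosh p.1)⁻¹)
noncomputable def cb (p : ℂ × ℂ) : ℂ := -(2 / Real.pi) * (qq p.2 p.1 * (cosh p.2)⁻¹)

theorem hasFDerivAt_fst' (p : ℂ × ℂ) : HasFDerivAt (fun p : ℂ × ℂ => p.1) (fd 1 0) p := by
  have : fd 1 0 = ContinuousLinearMap.fst ℂ ℂ ℂ := by
    ext <;> simp [fd]
  rw [this]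
  exact hasFDerivAt_fst

theorem hasFDerivAt_snd' (p : ℂ × ℂ) : HasFDerivAt (fun p : ℂ × ℂ => p.2) (fd 0 1) p := by
  have : fd 0 1 = ContinuousLinearMap.snd ℂ ℂ ℂ := by
    ext <;> simp [fd]
  rw [this]
  exact hasFDerivAt_snd

theorem fd_smul (c α β : ℂ) : c • fd α β = fd (c * α) (c * β) := by
  ext <;> simp [fd]

theorem fd_add (α β α' β' : ℂ) : fd α β + fd α' β' = fd (α + α') (β + β') := by
  ext <;> simp [fd]

theorem hasFDerivAt_one {f : ℂ → ℂ} {f' : ℂ} {p : ℂ × ℂ} (h : HasDerivAt f f' p.1) :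
    HasFDerivAt (fun p : ℂ × ℂ => f p.1) (fd f' 0) p := by
  have := HasDerivAt.comp_hasFDerivAt p h (hasFDerivAt_fst' p)
  rw [fd_smul, mul_one, mul_zero] at this
  exact this

theorem hasFDerivAt_two {f : ℂ → ℂ} {f' : ℂ} {p : ℂ × ℂ} (h : HasDerivAt f f' p.2) :
    HasFDerivAt (fun p : ℂ × ℂ => f p.2) (fd 0 f') p := by
  have := HasDerivAt.comp_hasFDerivAt p h (hasFDerivAt_snd' p)
  rw [fd_smul, mul_one, mul_zero] at this
  exact this

theorem hasDerivAt_inv_cosh {z : ℂ} (h : cosh z ≠ 0) :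
    HasDerivAt (fun z => (cosh z)⁻¹) (-sinh z / cosh z ^ 2) z :=
  (Complex.hasDerivAt_cosh z).inv h

theorem hasFDerivAt_qq {p : ℂ × ℂ} (h : Reg p.1 p.2) :
    HasFDerivAt (fun p : ℂ × ℂ => qq p.1 p.2)
      (fd (cosh p.1 / TT p.1 p.2) (-(sinh p.1 * tanh p.2) / TT p.1 p.2)) p := by
  have hw := cosh_ne h.right
  have hT := TT_ne p.1 p.2
  have h1 := hasFDerivAt_one (p := p) (Complex.hasDerivAt_sinh p.1)
  have h2 := hasFDerivAt_two (p := p) (hasDerivAt_inv_cosh hw)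
  have h3 := h1.mul h2
  have h4 : HasDerivAt arsh (1 / csq (sinh p.1 * (cosh p.2)⁻¹)) (sinh p.1 * (cosh p.2)⁻¹) := by
    apply hasDerivAt_arsh
    rw [← div_eq_mul_inv]
    exact slit h
  have h5 := HasDerivAt.comp_hasFDerivAt p h4 h3
  have e : (1 / csq (sinh p.1 * (cosh p.2)⁻¹)) •
      (sinh p.1 • fd 0 (-sinh p.2 / cosh p.2 ^ 2) + (cosh p.2)⁻¹ • fd (cosh p.1) 0)
      = fd (cosh p.1 / TT p.1 p.2) (-(sinh p.1 * tanh p.2) / TT p.1 p.2) := by
    rw [fd_smul, fd_smul, fd_add, fd_smul, ← div_eq_mul_inv, csq_eq h, tanh_eq_sinh_div_cosh]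
    congr 1
    · field_simp
      ring
    · field_simp
      ring
  rw [← e]
  refine h5.congr_of_eventuallyEq ?_
  filter_upwards with q
  rw [qq, div_eq_mul_inv]
  rfl

theorem hasFDerivAt_swap {f : ℂ × ℂ → ℂ} {α β : ℂ} {p : ℂ × ℂ}
    (h : HasFDerivAt f (fd α β) (p.2, p.1)) :
    HasFDerivAt (fun p : ℂ × ℂ => f (p.2, p.1)) (fd β α) p := by
  have h1 : HasFDerivAt (fun p : ℂ × ℂ => (p.2, p.1)) ((fd 0 1).prod (fd 1 0)) p :=
    (hasFDerivAt_snd' p).prodMk (hasFDerivAt_fst' p)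
  have h2 := h.comp p h1
  have e : (fd α β).comp ((fd 0 1).prod (fd 1 0)) = fd β α := by
    ext <;> simp [fd]
  rw [← e]
  exact h2

theorem hasFDerivAt_ca {p : ℂ × ℂ} (h : Reg p.1 p.2) :
    ∃ α : ℂ, HasFDerivAt ca (fd α (2 / Real.pi * (tanh p.1 * tanh p.2 / TT p.1 p.2))) p := by
  have hu := cosh_ne h.left
  have hT := TT_ne p.1 p.2
  have h1 := hasFDerivAt_qq h
  have h2 := hasFDerivAt_one (p := p) (hasDerivAt_inv_cosh hu)
  have h3 := (h1.mul h2).const_mul (-(2 / (Real.pi : ℂ)))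
  rw [fd_smul, fd_smul, fd_add, fd_smul] at h3
  have e : (-(2 / (Real.pi : ℂ)) * (qq p.1 p.2 * 0 + (cosh p.1)⁻¹ *
      (-(sinh p.1 * tanh p.2) / TT p.1 p.2)))
      = 2 / Real.pi * (tanh p.1 * tanh p.2 / TT p.1 p.2) := by
    rw [tanh_eq_sinh_div_cosh p.1]
    field_simp
    ring
  rw [e] at h3
  exact ⟨_, h3⟩

theorem hasFDerivAt_cb {p : ℂ × ℂ} (h : Reg p.1 p.2) :
    ∃ β : ℂ, HasFDerivAt cb (fd (2 / Real.pi * (tanh p.1 * tanh p.2 / TT p.1 p.2)) β) p := by
  have h' : Reg (p.2, p.1).1 (p.2, p.1).2 := h.symm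
  obtain ⟨α, hα⟩ := hasFDerivAt_ca h'
  refine ⟨α, ?_⟩
  have h1 := hasFDerivAt_swap hα
  have e : TT p.2 p.1 = TT p.1 p.2 := by
    unfold TT Lc
    rw [← neg_sub p.1 p.2, cosh_neg, add_comm p.2 p.1]
  have e1 : (2 / (Real.pi : ℂ) * (tanh p.2 * tanh p.1 / TT p.2 p.1))
      = (2 / (Real.pi : ℂ) * (tanh p.1 * tanh p.2 / TT p.1 p.2)) := by
    rw [e]; ring
  simp only at h1
  rw [e1] at h1
  exact h1

/-- the form -/
noncomputable def om1 (p : ℂ × ℂ) : ℂ × ℂ →L[ℂ] ℂ :=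
  ca p • ContinuousLinearMap.fst ℂ ℂ ℂ + cb p • ContinuousLinearMap.snd ℂ ℂ ℂ

theorem exists_prim : ∃ f : ℂ × ℂ → ℂ, ∀ p ∈ RegS, HasFDerivAt f (om1 p) p := by
  have key : ∀ p ∈ RegS, ∃ α β : ℂ, HasFDerivAt om1
      ((fd α (2 / Real.pi * (tanh p.1 * tanh p.2 / TT p.1 p.2))).smulRight
          (ContinuousLinearMap.fst ℂ ℂ ℂ)
        + (fd (2 / Real.pi * (tanh p.1 * tanh p.2 / TT p.1 p.2)) β).smulRight
          (ContinuousLinearMap.snd ℂ ℂ ℂ)) p := by
    intro p hp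
    obtain ⟨α, hα⟩ := hasFDerivAt_ca hp
    obtain ⟨β, hβ⟩ := hasFDerivAt_cb hp
    exact ⟨α, β, (hα.smul_const (ContinuousLinearMap.fst ℂ ℂ ℂ)).add
      (hβ.smul_const (ContinuousLinearMap.snd ℂ ℂ ℂ))⟩
  apply Convex.exists_forall_hasFDerivAt_of_fderiv_symmetric RegS_convex RegS_open
  · intro p hp
    obtain ⟨α, β, h⟩ := key p hp
    exact (h.restrictScalars ℝ).differentiableAt.differentiableWithinAt
  · intro p hp x y
    obtain ⟨α, β, h⟩ := key p hp
    rw [(h.restrictScalars ℝ).fderiv]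
    simp [fd_apply]
    ring

/-- the derivative of a primitive along a curve -/
theorem prim_curve {f : ℂ × ℂ → ℂ} (hf : ∀ p ∈ RegS, HasFDerivAt f (om1 p) p) {u w : ℝ → ℂ}
    {u' w' : ℂ} {s : ℝ} (h : Reg (u s) (w s)) (hu : HasDerivAt u u' s) (hw : HasDerivAt w w' s) :
    HasDerivAt (fun s => f (u s, w s)) (ca (u s, w s) * u' + cb (u s, w s) * w') s := by
  have h1 := ((hf (u s, w s) h).restrictScalars ℝ).comp_hasDerivAt s (hu.prodMk hw)
  refine h1.congr_deriv ?_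
  simp [om1]

theorem ca_neg_left {u w : ℂ} (h : Reg u w) : ca (-u, w) = -ca (u, w) := by
  simp only [ca]
  rw [qq_neg_left h, cosh_neg]; ring

theorem cb_neg_left (u w : ℂ) : cb (-u, w) = cb (u, w) := by
  simp only [cb]
  rw [qq_neg_right]

theorem ca_neg_right (u w : ℂ) : ca (u, -w) = ca (u, w) := by
  simp only [ca]
  rw [qq_neg_right]

theorem cb_neg_right {u w : ℂ} (h : Reg u w) : cb (u, -w) = -cb (u, w) := by
  simp only [cb]
  rw [qq_neg_left h.symm, cosh_neg]; ring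

theorem ca_conj {u w : ℂ} (h : Reg u w) :
    ca ((starRingEnd ℂ) u, (starRingEnd ℂ) w) = (starRingEnd ℂ) (ca (u, w)) := by
  simp only [ca]
  rw [qq_conj h, ← conj_cosh']
  simp only [map_mul, map_neg, map_div₀, map_inv₀, conj_ofReal, Complex.conj_ofNat]

theorem cb_conj {u w : ℂ} (h : Reg u w) :
    cb ((starRingEnd ℂ) u, (starRingEnd ℂ) w) = (starRingEnd ℂ) (cb (u, w)) := by
  simp only [cb]
  rw [qq_conj h.symm, ← conj_cosh']
  simp only [map_mul, map_neg, map_div₀, map_inv₀, conj_ofReal, Complex.conj_ofNat]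

/-- a function with zero derivative on `[0, 1]` -/
theorem const_of_ray {g : ℝ → ℂ} (h : ∀ s ∈ Set.Icc (0 : ℝ) 1, HasDerivAt g 0 s) : g 1 = g 0 := by
  apply constant_of_has_deriv_right_zero (f := g) (a := 0) (b := 1)
  · intro s hs
    exact (h s hs).continuousAt.continuousWithinAt
  · intro s hs
    exact (h s ⟨hs.1, hs.2.le⟩).hasDerivWithinAt
  · exact ⟨zero_le_one, le_rfl⟩

theorem hasDerivAt_ray (u : ℂ) (s : ℝ) : HasDerivAt (fun s : ℝ => (s : ℂ) * u) u s := by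
  have := (HasDerivAt.ofReal_comp (hasDerivAt_id s)).mul_const u
  rw [ofReal_one, one_mul] at this
  exact this

theorem prim_even_left {f : ℂ × ℂ → ℂ} (hf : ∀ p ∈ RegS, HasFDerivAt f (om1 p) p) {u w : ℂ}
    (h : Reg u w) : f (-u, w) = f (u, w) := by
  have h1 := const_of_ray (g := fun s : ℝ => f (-((s : ℂ) * u), (s : ℂ) * w)
    - f ((s : ℂ) * u, (s : ℂ) * w)) (by
      intro s hs
      have hr := h.smul hs.1 hs.2
      have d1 := prim_curve hf (u := fun s : ℝ => -((s : ℂ) * u)) (w := fun s : ℝ => (s : ℂ) * w)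
        hr.neg_left (hasDerivAt_ray u s).neg (hasDerivAt_ray w s)
      have d2 := prim_curve hf (u := fun s : ℝ => ((s : ℂ) * u)) (w := fun s : ℝ => (s : ℂ) * w)
        hr (hasDerivAt_ray u s) (hasDerivAt_ray w s)
      refine (d1.sub d2).congr_deriv ?_
      rw [ca_neg_left hr, cb_neg_left]
      ring)
  simp only [ofReal_one, one_mul, ofReal_zero, zero_mul, neg_zero, sub_self] at h1
  exact sub_eq_zero.1 h1

theorem prim_even_right {f : ℂ × ℂ → ℂ} (hf : ∀ p ∈ RegS, HasFDerivAt f (om1 p) p) {u w : ℂ}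
    (h : Reg u w) : f (u, -w) = f (u, w) := by
  have h1 := const_of_ray (g := fun s : ℝ => f (((s : ℂ) * u), -((s : ℂ) * w))
    - f ((s : ℂ) * u, (s : ℂ) * w)) (by
      intro s hs
      have hr := h.smul hs.1 hs.2
      have d1 := prim_curve hf (u := fun s : ℝ => ((s : ℂ) * u)) (w := fun s : ℝ => -((s : ℂ) * w))
        hr.neg_right (hasDerivAt_ray u s) (hasDerivAt_ray w s).neg
      have d2 := prim_curve hf (u := fun s : ℝ => ((s : ℂ) * u)) (w := fun s : ℝ => (s : ℂ) * w)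
        hr (hasDerivAt_ray u s) (hasDerivAt_ray w s)
      refine (d1.sub d2).congr_deriv ?_
      rw [cb_neg_right hr, ca_neg_right]
      ring)
  simp only [ofReal_one, one_mul, ofReal_zero, zero_mul, neg_zero, sub_self] at h1
  exact sub_eq_zero.1 h1

theorem hasDerivAt_conj {g : ℝ → ℂ} {g' : ℂ} {s : ℝ} (h : HasDerivAt g g' s) :
    HasDerivAt (fun s => (starRingEnd ℂ) (g s)) ((starRingEnd ℂ) g') s :=
  (Complex.conjCLE.toContinuousLinearMap.hasFDerivAt (x := g s)).comp_hasDerivAt s h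

theorem prim_conj {f : ℂ × ℂ → ℂ} (hf : ∀ p ∈ RegS, HasFDerivAt f (om1 p) p) {u w : ℂ}
    (h : Reg u w) : f ((starRingEnd ℂ) u, (starRingEnd ℂ) w) - (starRingEnd ℂ) (f (u, w))
      = f (0, 0) - (starRingEnd ℂ) (f (0, 0)) := by
  have h1 := const_of_ray (g := fun s : ℝ =>
    f ((starRingEnd ℂ) ((s : ℂ) * u), (starRingEnd ℂ) ((s : ℂ) * w))
    - (starRingEnd ℂ) (f ((s : ℂ) * u, (s : ℂ) * w))) (by
      intro s hs
      have hr := h.smul hs.1 hs.2
      have d1 := prim_curve hf (u := fun s : ℝ => (starRingEnd ℂ) ((s : ℂ) * u))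
        (w := fun s : ℝ => (starRingEnd ℂ) ((s : ℂ) * w)) hr.conj_left.conj_right
        (hasDerivAt_conj (hasDerivAt_ray u s)) (hasDerivAt_conj (hasDerivAt_ray w s))
      have d2 := hasDerivAt_conj (prim_curve hf (u := fun s : ℝ => ((s : ℂ) * u))
        (w := fun s : ℝ => (s : ℂ) * w) hr (hasDerivAt_ray u s) (hasDerivAt_ray w s))
      refine (d1.sub d2).congr_deriv ?_
      rw [ca_conj hr, cb_conj hr]
      simp)
  simpa using h1

/-- existence of the potential with a prescribed value at the origin -/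
theorem exists_Phi (c0 : ℂ) : ∃ Φ : ℂ → ℂ → ℂ, IsPhi Φ ∧ Φ 0 0 = c0 := by
  obtain ⟨f, hf⟩ := exists_prim
  have hpi : (Real.pi : ℂ) ≠ 0 := by exact_mod_cast Real.pi_ne_zero
  have e : ∀ u : ℂ, |u.im| < Real.pi / 2 → igd ((Real.pi : ℂ) * (gd u / (Real.pi : ℂ))) = u := by
    intro u hu
    rw [mul_div_cancel₀ _ hpi, igd_gd hu]
  have hr0 : Reg (0 : ℂ) 0 := by
    unfold Reg; simp; exact Real.pi_pos
  refine ⟨fun v w => f (igd ((Real.pi : ℂ) * v), igd ((Real.pi : ℂ) * w)) - f (0, 0) + c0,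
    ⟨?_, ?_, ?_, ?_⟩, ?_⟩
  · intro u w u' w' s hr hu hw
    have h1 := ((prim_curve hf hr hu hw).sub_const (f (0, 0))).add_const c0
    have n1 : ∀ᶠ t in nhds s, |(u t).im| < Real.pi / 2 := by
      have hc : ContinuousAt (fun t => |(u t).im|) s :=
        (Complex.continuous_im.continuousAt.comp hu.continuousAt).abs
      exact hc.eventually_lt_const hr.left
    have n2 : ∀ᶠ t in nhds s, |(w t).im| < Real.pi / 2 := by
      have hc : ContinuousAt (fun t => |(w t).im|) s :=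
        (Complex.continuous_im.continuousAt.comp hw.continuousAt).abs
      exact hc.eventually_lt_const hr.right
    have h2 := h1.congr_of_eventuallyEq (f₁ := fun t => f (igd ((Real.pi : ℂ) *
      (gd (u t) / (Real.pi : ℂ))), igd ((Real.pi : ℂ) * (gd (w t) / (Real.pi : ℂ)))) - f (0, 0) + c0)
      (by
        filter_upwards [n1, n2] with t h3 h4
        rw [e _ h3, e _ h4])
    refine h2.congr_deriv ?_
    have hu0 := cosh_ne hr.left
    have hw0 := cosh_ne hr.right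
    simp only [ca, cb]
    field_simp
    ring
  · intro u w hr
    have hn : |(-u).im| < Real.pi / 2 := hr.neg_left.left
    rw [e _ hn, e _ hr.left, e _ hr.right, prim_even_left hf hr]
  · intro u w hr
    have hn : |(-w).im| < Real.pi / 2 := hr.neg_right.right
    rw [e _ hn, e _ hr.left, e _ hr.right, prim_even_right hf hr]
  · intro u w hr
    have hn := hr.conj_left.conj_right
    rw [e _ hn.left, e _ hn.right, e _ hr.left, e _ hr.right]
    have h1 := congrArg Complex.re (prim_conj hf hr)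
    simp only [sub_re, conj_re, sub_self] at h1
    simp only [add_re, sub_re]
    linarith
  · simp only [mul_zero]
    have : igd 0 = 0 := by
      have := igd_gd (u := 0) (by simp; exact Real.pi_pos)
      rwa [gd_zero] at this
    rw [this]
    ring

end Pool.Agent.S3
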