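import Pool.Agent.H25.RK.DGI
import Pool.Agent.S3.Chain

/-!
# The factor of a node as an integral over a contour
-/

set_option autoImplicit false

namespace Pool.Agent.S3

open Pool.Agent.H63.VC hiding ext
open Pool.Agent.H63.VC3 Pool.Agent.H63.VC7 Complex MeasureTheory Filter Topology Set
open Pool.Agent.H25.RK

/-- The fundamental theorem of calculus on the line, off a countable set. -/
theorem integral_off_countable {f f' : ℝ → ℂ} {s : Set ℝ} (hs : s.Countable) (hc : Continuous f)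
    (hd : ∀ x ∉ s, HasDerivAt f (f' x) x) (hi : Integrable f') {a b : ℂ}
    (hb : Tendsto f atBot (𝓝 a)) (ht : Tendsto f atTop (𝓝 b)) : ∫ x, f' x = b - a := by
  have h1 : ∀ n : ℝ, 0 ≤ n → ∫ x in (-n)..n, f' x = f n - f (-n) := fun n hn =>
    integral_eq_of_hasDerivAt_off_countable_of_le f f' (by linarith) hs hc.continuousOn
      (fun x hx => hd x hx.2) hi.intervalIntegrable
  have h2 : Tendsto (fun n : ℝ => ∫ x in (-n)..n, f' x) atTop (𝓝 (∫ x, f' x)) :=
    intervalIntegral_tendsto_integral hi tendsto_neg_atTop_atBot tendsto_id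
  have h3 : Tendsto (fun n : ℝ => f n - f (-n)) atTop (𝓝 (b - a)) :=
    ht.sub (hb.comp tendsto_neg_atTop_atBot)
  refine tendsto_nhds_unique h2 (h3.congr' ?_)
  filter_upwards [eventually_ge_atTop 0] with n hn
  exact (h1 n hn).symm

/-- Curves parametrized by the line, with a countable set of corners. -/
theorem int_ctr {F : ℂ → ℂ} (hF : ∀ z ∈ Hp, DifferentiableAt ℂ F z)
    (h1 : DifferentiableAt ℂ F (1 / 2)) (h2 : DifferentiableAt ℂ F (-1 / 2))
    {γ γ' : ℝ → ℂ} (hγ : Ctr γ γ') (hi : Integrable fun x => F (γ x) * γ' x) {Y : ℝ}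
    (hY : 0 < Y) : ∫ x, F (γ x) * γ' x = Pool.Agent.H63.VC3.Path F (1 / 2) Y := by
  obtain ⟨g, h, c, hp⟩ := exists_prim hF h1 h2
  rw [Path_eq_prim hF h1 h2 hp hY]
  obtain ⟨s, hs, hd0⟩ := hγ.der
  have hd : ∀ x ∉ s, HasDerivAt (fun x => g (γ x)) (F (γ x) * γ' x) x := fun x hx =>
    HasDerivAt.comp x (hp.g_deriv _ (hγ.pos x)) (hd0 x hx)
  have hc : Continuous fun x => g (γ x) := by
    rw [continuous_iff_continuousAt]
    intro x
    exact ContinuousAt.comp (f := γ) (g := g) (hp.g_deriv _ (hγ.pos x)).continuousAt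
      hγ.cont.continuousAt
  have t1 : Tendsto (fun x => g (γ x)) atTop (𝓝 (g (1 / 2))) := by
    refine hp.g_cont.tendsto.comp
      (tendsto_nhdsWithin_iff.mpr ⟨hγ.top, Eventually.of_forall fun x => ?_⟩)
    exact Or.inr (hγ.pos x)
  have t2 : Tendsto (fun x => g (γ x)) atBot (𝓝 (h (-1 / 2) - c)) := by
    have t3 : Tendsto (fun x => h (γ x)) atBot (𝓝 (h (-1 / 2))) := by
      refine hp.h_cont.tendsto.comp
        (tendsto_nhdsWithin_iff.mpr ⟨hγ.bot, Eventually.of_forall fun x => ?_⟩)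
      exact Or.inr (hγ.pos x)
    refine (t3.sub_const c).congr fun x => ?_
    rw [hp.diff _ (hγ.pos x)]
    ring
  rw [integral_off_countable hs hc hd hi t2 t1]
  ring

theorem Ctr.bdd {γ γ' : ℝ → ℂ} (hγ : Ctr γ γ') {F : ℂ → ℂ}
    (hF : ∀ z ∈ Hp, DifferentiableAt ℂ F z)
    (h1 : DifferentiableAt ℂ F (1 / 2)) (h2 : DifferentiableAt ℂ F (-1 / 2)) :
    Continuous (fun x => F (γ x)) ∧ ∃ C : ℝ, ∀ x, ‖F (γ x)‖ ≤ C := by
  have hc : Continuous fun x => F (γ x) := by
    rw [continuous_iff_continuousAt]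
    intro x
    exact ContinuousAt.comp (f := γ) (g := F) (hF _ (hγ.pos x)).continuousAt hγ.cont.continuousAt
  have t1 : Tendsto (fun x => F (γ x)) atTop (𝓝 (F (1 / 2))) :=
    h1.continuousAt.tendsto.comp hγ.top
  have t2 : Tendsto (fun x => F (γ x)) atBot (𝓝 (F (-1 / 2))) :=
    h2.continuousAt.tendsto.comp hγ.bot
  refine ⟨hc, ?_⟩
  have e1 := (t1.norm).eventually (Iio_mem_nhds (show ‖F (1 / 2)‖ < ‖F (1 / 2)‖ + 1 by linarith))
  have e2 := (t2.norm).eventually
    (Iio_mem_nhds (show ‖F (-1 / 2)‖ < ‖F (-1 / 2)‖ + 1 by linarith))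
  obtain ⟨a, ha⟩ := eventually_atTop.mp e1
  obtain ⟨b, hb'⟩ := eventually_atBot.mp e2
  obtain ⟨C, hC⟩ := (isCompact_Icc (a := b) (b := a)).exists_bound_of_continuousOn
    hc.continuousOn
  refine ⟨max C (max (‖F (1 / 2)‖ + 1) (‖F (-1 / 2)‖ + 1)), fun x => ?_⟩
  rcases le_or_gt x b with h | h
  · exact ((hb' x h).le.trans (le_max_right _ _)).trans (le_max_right _ _)
  · rcases le_or_gt a x with h' | h'
    · exact ((ha x h').le.trans (le_max_left _ _)).trans (le_max_right _ _)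
    · exact (hC x ⟨h.le, h'.le⟩).trans (le_max_left _ _)

theorem Ctr.integrable {γ γ' : ℝ → ℂ} (hγ : Ctr γ γ') {F : ℂ → ℂ}
    (hF : ∀ z ∈ Hp, DifferentiableAt ℂ F z)
    (h1 : DifferentiableAt ℂ F (1 / 2)) (h2 : DifferentiableAt ℂ F (-1 / 2)) :
    Integrable fun x => F (γ x) * γ' x := by
  obtain ⟨hc, C, hC⟩ := hγ.bdd hF h1 h2
  exact hγ.int.bdd_mul hc.aestronglyMeasurable (Eventually.of_forall hC)

variable {m : ℕ}

theorem NTom_integrable (r : ℝ) {M : ℕ} (hM : 0 < M) (A : Finset (Fin m)) (k : Fin m → ℕ)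
    {γ γ' : ℝ → ℂ} (hγ : Ctr γ γ') :
    Integrable fun x => NT r M A k (γ x) * om 2 M (γ x) * γ' x :=
  hγ.integrable (F := fun v => NT r M A k v * om 2 M v)
    (fun _ hz => NTom_diff r A k (ww_ne_one hM hz))
    (NTom_diff r A k (by rw [ww_half]; norm_num))
    (NTom_diff r A k (by rw [ww_neg_half]; norm_num))

/-- The factor of a node as an integral over a contour. -/
theorem DG_ctr (r : ℝ) {M : ℕ} (hM : 0 < M) (A : Finset (Fin m)) (k : Fin m → ℕ)
    {γ γ' : ℝ → ℂ} (hγ : Ctr γ γ') :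
    DG r M A k = -(4 * Real.pi * I) * M ^ 2 *
      ∫ x, NT r M A k (γ x) * om 2 M (γ x) * γ' x := by
  rw [DG_path r hM A k one_pos, ← int_ctr (F := fun v => NT r M A k v * om 2 M v)
    (fun _ hz => NTom_diff r A k (ww_ne_one hM hz))
    (NTom_diff r A k (by rw [ww_half]; norm_num))
    (NTom_diff r A k (by rw [ww_neg_half]; norm_num)) hγ (NTom_integrable r hM A k hγ) one_pos]

/-- The line of height `θ`. -/
theorem ctr_ul {θ : ℝ} (h0 : 0 < θ) (h1 : θ < Real.pi / 2) :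
    Ctr (fun x => gdv (ul θ x)) (fun x => 1 / (Real.pi * cosh (ul θ x))) := by
  have h : |θ| < Real.pi / 2 := abs_lt.mpr ⟨by linarith [Real.pi_pos], h1⟩
  refine ⟨?_, ⟨∅, countable_empty, fun x _ => gdv_ul_hasDerivAt h x⟩, fun x => ?_,
    gdv_tendsto_top θ, gdv_tendsto_bot θ, integrable_gdv' h⟩
  · rw [continuous_iff_continuousAt]
    exact fun x => (gdv_ul_hasDerivAt h x).continuousAt
  · exact gdv_im_pos (by rwa [ul_im]) (by rwa [ul_im])

end Pool.Agent.S3
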