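import Pool.Agent.S3.Edge
import Pool.Agent.S3.Gr3b

/-!
# Statements of the estimates of the edge kernels
-/

namespace Pool.Agent.S3

open Complex Filter Topology
open scoped Interval

/-- The variable of an open slot is in the closed upper half plane. -/
def Sl.nn : Sl → Prop
  | .op v => 0 ≤ v.im
  | .cl _ => True

/-- The height of the variable of an open slot is at most `H`. -/
def Sl.bd (H : ℝ) : Sl → Prop
  | .op v => v.im ≤ H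
  | .cl _ => True

/-- The slots `σ` and `σ0` are at distance less than `ρ`. -/
def Sl.near (ρ : ℝ) : Sl → Sl → Prop
  | .op v, .op v0 => ‖v - v0‖ < ρ
  | .cl s, .cl s0 => s = s0
  | _, _ => False

/-- The kernel is bounded by the growth on a polygon. -/
def KsB : Prop :=
  ∀ (N : ℕ) (H : ℝ), ∃ K : ℝ, 0 < K ∧ ∃ p : ℕ, ∀ M : ℕ, 1 ≤ M → ∀ σ τ : Sl, σ.ok → τ.ok →
    σ.nn → τ.nn → σ.bd H → τ.bd H → ∀ n ≤ N, ∀ t h : ℕ → ℝ, Pgn n t h → ∀ B : ℝ, B0 σ + B0 τ ≤ B →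
    (∀ y ∈ Set.Icc (-(1 / 10) : ℝ) 0, EE σ τ y ≤ B) → PolOn n t h (fun y => EE σ τ y ≤ B) →
    ‖KE M σ τ‖ ≤ K * (M : ℝ) ^ p * Real.exp (M * B)

/-- Near the critical point the kernel is an integral over a short segment, up to exponentially small
relative errors. -/
def KsL : Prop :=
  ∀ (σ0 τ0 : Sl) (yc : ℂ) (L : ℝ), σ0.ok → τ0.ok → σ0.nn → τ0.nn → EdgeC σ0 τ0 yc L →
    ∃ r1 : ℝ, 0 < r1 ∧ ∀ r : ℝ, 0 < r → r ≤ r1 → ∃ ρ : ℝ, 0 < ρ ∧ ∃ δ : ℝ, 0 < δ ∧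
      ∃ K : ℝ, 0 < K ∧ ∃ p : ℕ, ∀ᶠ M : ℕ in atTop, ∀ σ τ : Sl, σ.ok → τ.ok → σ.nn → τ.nn →
        σ.near ρ σ0 → τ.near ρ τ0 →
        ‖KE M σ τ - M * ∫ s in (-r)..r, FM M σ τ (yc + s)‖ ≤
          K * (M : ℝ) ^ p * Real.exp (M * (L - δ))

end Pool.Agent.S3
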