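import Pool.Agent.H63.GO.Defs
import Pool.Agent.S3.Gr3b
import Pool.Agent.S3.Gr5

/-!
# The shift of the segment through the critical point
-/

set_option autoImplicit false

namespace Pool.Agent.S3

open Pool.Agent.H63.VC hiding ext
open Pool.Agent.H63.VC3 Pool.Agent.H63.VC4 Pool.Agent.H63.VC6 Pool.Agent.H63.VC7 Complex
open Pool.Agent.H25.RK Pool.Agent.H63.GO Filter Topology MeasureTheory
open scoped BigOperators

/-! ### The potential as a function of `y` -/

theorem sP_y {y : ℂ} {σ : Sl} (h : sdom y σ) : HasDerivAt (fun y => sP y σ) (ey y σ) y := by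
  rcases σ with v | s
  · obtain ⟨h0, h1, h2, h3⟩ : 0 < y.re ∧ y.re < 1 / 2 ∧ fdom (y - v) ∧ fdom (y + v) := h
    have hs := Pot_shift h0 h1
    have a1 := HasDerivAt.comp y (ff_hasDerivAt _ hs.1 hs.2) ((hasDerivAt_id y).add_const (1 / 2))
    have a2 := HasDerivAt.comp y (fe_hasDerivAt h2) ((hasDerivAt_id y).sub_const v)
    have a3 := HasDerivAt.comp y (fe_hasDerivAt h3) ((hasDerivAt_id y).add_const v)
    refine (((a1.const_mul 2).sub a2).sub a3).congr_deriv ?_
    simp only [ey, id, mul_one]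
  · obtain ⟨h0, h1⟩ : 0 < y.re ∧ y.re < 1 / 2 := h
    have hs := Pot_shift h0 h1
    have a1 := HasDerivAt.comp y (ff_hasDerivAt _ hs.1 hs.2) ((hasDerivAt_id y).add_const (1 / 2))
    have a2 := ((((hasDerivAt_id y).sub (((hasDerivAt_id y).pow 2).div_const 2)).sub_const
      (7 / 8)).const_mul ((Real.pi : ℂ) * I * s))
    refine (a1.sub a2).congr_deriv ?_
    simp only [ey, id, mul_one]
    ring

theorem ey_y {y : ℂ} {σ : Sl} (h : sdom y σ) : HasDerivAt (fun y => ey y σ) (eyy y σ) y := by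
  rcases σ with v | s
  · obtain ⟨h0, h1, h2, h3⟩ : 0 < y.re ∧ y.re < 1 / 2 ∧ fdom (y - v) ∧ fdom (y + v) := h
    have hs := Pot_shift h0 h1
    have a1 := HasDerivAt.comp y (Pot_hh_deriv hs.1 hs.2) ((hasDerivAt_id y).add_const (1 / 2))
    have a2 := HasDerivAt.comp y (he_hasDerivAt h2) ((hasDerivAt_id y).sub_const v)
    have a3 := HasDerivAt.comp y (he_hasDerivAt h3) ((hasDerivAt_id y).add_const v)
    refine (((a1.const_mul 2).sub a2).sub a3).congr_deriv ?_
    simp only [eyy, id, mul_one]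
  · obtain ⟨h0, h1⟩ : 0 < y.re ∧ y.re < 1 / 2 := h
    have hs := Pot_shift h0 h1
    have a1 := HasDerivAt.comp y (Pot_hh_deriv hs.1 hs.2) ((hasDerivAt_id y).add_const (1 / 2))
    have a2 := (((hasDerivAt_id y).const_sub 1)).const_mul ((Real.pi : ℂ) * I * s)
    refine (a1.sub a2).congr_deriv ?_
    simp only [eyy, id, mul_one]
    ring

theorem sdom_near {y : ℂ} {σ : Sl} (h : sdom y σ) : ∀ᶠ z in 𝓝 y, sdom z σ := by
  have hre : ContinuousAt (fun z : ℂ => z.re) y := Complex.continuous_re.continuousAt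
  rcases σ with v | s
  · obtain ⟨h0, h1, h2, h3⟩ : 0 < y.re ∧ y.re < 1 / 2 ∧ fdom (y - v) ∧ fdom (y + v) := h
    have c2 : ContinuousAt (fun z : ℂ => z - v) y := by fun_prop
    have c3 : ContinuousAt (fun z : ℂ => z + v) y := by fun_prop
    filter_upwards [continuousAt_const.eventually_lt hre h0,
      hre.eventually_lt continuousAt_const h1, c2.eventually (fdom_open.mem_nhds h2),
      c3.eventually (fdom_open.mem_nhds h3)] with w a1 a2 a3 a4
    exact ⟨a1, a2, a3, a4⟩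
  · obtain ⟨h0, h1⟩ : 0 < y.re ∧ y.re < 1 / 2 := h
    filter_upwards [continuousAt_const.eventually_lt hre h0,
      hre.eventually_lt continuousAt_const h1] with w a1 a2
    exact ⟨a1, a2⟩

/-- The growth rate is the real part of the potential. -/
theorem se_eq {y : ℂ} {σ : Sl} (h : sdom y σ) : se y σ = (sP y σ).re := by
  rcases σ with v | s
  · obtain ⟨h0, h1, h2, h3⟩ : 0 < y.re ∧ y.re < 1 / 2 ∧ fdom (y - v) ∧ fdom (y + v) := h
    have hs := Pot_shift h0 h1
    change 2 * Rf (y + 1 / 2) - Rf (y - v) - Rf (y + v) =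
      (2 * ff (y + 1 / 2) - fe (y - v) - fe (y + v)).re
    rw [Rf_eq_fe h2, Rf_eq_fe h3, Rf_eq_ff hs.1 hs.2]
    simp
  · obtain ⟨h0, h1⟩ : 0 < y.re ∧ y.re < 1 / 2 := h
    have hs := Pot_shift h0 h1
    change Rf (y + 1 / 2) + Real.pi * s * (y.im * (1 - y.re)) =
      (ff (y + 1 / 2) - Real.pi * I * s * (y - y ^ 2 / 2 - 7 / 8)).re
    have e : (Real.pi * I * s * (y - y ^ 2 / 2 - 7 / 8) : ℂ) =
        ((Real.pi * s : ℝ) : ℂ) * (I * (y - y ^ 2 / 2 - 7 / 8)) := by
      push_cast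
      ring
    have e2 : (y - y ^ 2 / 2 - 7 / 8 : ℂ).im = y.im * (1 - y.re) := by
      have : (y - y ^ 2 / 2 - 7 / 8 : ℂ) = y - ((1 / 2 : ℝ) : ℂ) * (y * y) - ((7 / 8 : ℝ) : ℂ) := by
        push_cast
        ring
      rw [this, sub_im, sub_im, im_ofReal_mul, mul_im, ofReal_im]
      ring
    rw [Rf_eq_ff hs.1 hs.2, sub_re, e, re_ofReal_mul, I_mul_re, e2]
    ring

/-- The strict maximum in the direction of the segment. -/
theorem edge_max {y0 : ℂ} {σ τ : Sl} (h1 : sdom y0 σ) (h2 : sdom y0 τ)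
    (h0 : ey y0 σ + ey y0 τ = 0) (hA : (eyy y0 σ + eyy y0 τ).re < 0) :
    ∃ r1 : ℝ, 0 < r1 ∧ ∀ r : ℝ, 0 < r → r ≤ r1 →
      EE σ τ (y0 + r) < EE σ τ y0 ∧ EE σ τ (y0 - r) < EE σ τ y0 := by
  set g : ℝ → ℝ := fun t => (sP (y0 + t) σ + sP (y0 + t) τ).re with hg
  set d : ℝ → ℝ := fun t => (ey (y0 + t) σ + ey (y0 + t) τ).re with hd
  have hcont : ContinuousAt (fun t : ℝ => y0 + (t : ℂ)) 0 := by fun_prop
  have hy0 : y0 + ((0 : ℝ) : ℂ) = y0 := by simp
  have hnear : ∀ᶠ t : ℝ in 𝓝 0, sdom (y0 + t) σ ∧ sdom (y0 + t) τ := by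
    have e1 : ∀ᶠ z in 𝓝 (y0 + ((0 : ℝ) : ℂ)), sdom z σ ∧ sdom z τ := by
      rw [hy0]
      exact (sdom_near h1).and (sdom_near h2)
    exact hcont.eventually e1
  have hgd : ∀ t : ℝ, sdom (y0 + t) σ ∧ sdom (y0 + t) τ → HasDerivAt g (d t) t := by
    intro t ht
    have a1 := (sP_y ht.1).add (sP_y ht.2)
    have a2 : HasDerivAt (fun t : ℂ => y0 + t) 1 (t : ℂ) := (hasDerivAt_id _).const_add _
    have a3 := (HasDerivAt.comp (t : ℂ) a1 a2).real_of_complex
    rw [mul_one] at a3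
    exact a3
  have hdd : HasDerivAt d (eyy y0 σ + eyy y0 τ).re 0 := by
    have a1 := (ey_y h1).add (ey_y h2)
    have a2 : HasDerivAt (fun t : ℂ => y0 + t) 1 ((0 : ℝ) : ℂ) := (hasDerivAt_id _).const_add _
    rw [← hy0] at a1
    have a3 := (HasDerivAt.comp ((0 : ℝ) : ℂ) a1 a2).real_of_complex
    rw [mul_one, hy0] at a3
    exact a3
  have hd0 : d 0 = 0 := by
    rw [hd]
    simp only
    rw [hy0, h0, zero_re]
  -- the sign of the derivative
  have hsign : ∀ᶠ t : ℝ in 𝓝[≠] 0, d t / t < 0 := by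
    have := hdd.tendsto_slope_zero
    have h3 : Tendsto (fun t : ℝ => t⁻¹ • (d (0 + t) - d 0)) (𝓝[≠] 0)
        (𝓝 (eyy y0 σ + eyy y0 τ).re) := this
    filter_upwards [h3.eventually (Iio_mem_nhds hA)] with t ht
    simp only [zero_add, hd0, sub_zero, smul_eq_mul, Set.mem_Iio] at ht
    rwa [div_eq_inv_mul]
  rw [eventually_nhdsWithin_iff] at hsign
  obtain ⟨ε, hε, hall⟩ := Metric.eventually_nhds_iff.mp (hnear.and hsign)
  refine ⟨ε / 2, by positivity, fun r hr0 hr1 => ?_⟩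
  have hmem : ∀ t : ℝ, |t| ≤ r → (sdom (y0 + t) σ ∧ sdom (y0 + t) τ) ∧ (t ≠ 0 → d t / t < 0) := by
    intro t ht
    have := hall (y := t) (by rw [Real.dist_eq, sub_zero]; linarith)
    exact this
  have hEE : ∀ t : ℝ, |t| ≤ r → EE σ τ (y0 + t) = g t := by
    intro t ht
    have := (hmem t ht).1
    unfold EE
    rw [se_eq this.1, se_eq this.2, hg]
    simp
  have e0 : EE σ τ y0 = g 0 := by
    have := hEE 0 (by rw [abs_zero]; exact hr0.le)
    rwa [hy0] at this
  constructor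
  · rw [hEE r (by rw [abs_of_pos hr0]), e0]
    obtain ⟨ξ, hξ, hξ2⟩ := exists_hasDerivAt_eq_slope g d hr0
      (fun t ht => (hgd t (hmem t (abs_le.mpr ⟨by linarith [ht.1], ht.2⟩)).1).continuousAt.continuousWithinAt)
      (fun t ht => hgd t (hmem t (abs_le.mpr ⟨by linarith [ht.1], ht.2.le⟩)).1)
    have h3 := (hmem ξ (abs_le.mpr ⟨by linarith [hξ.1], hξ.2.le⟩)).2 hξ.1.ne'
    have h4 : d ξ < 0 := by
      rcases div_neg_iff.mp h3 with h | h
      · linarith [h.2, hξ.1]
      · exact h.1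
    rw [hξ2, sub_zero] at h4
    rcases div_neg_iff.mp h4 with h | h
    · linarith [h.2]
    · linarith [h.1]
  · have e1 : y0 - (r : ℂ) = y0 + ((-r : ℝ) : ℂ) := by push_cast; ring
    rw [e1, hEE (-r) (by rw [abs_neg, abs_of_pos hr0]), e0]
    have hneg : -r < 0 := by linarith
    obtain ⟨ξ, hξ, hξ2⟩ := exists_hasDerivAt_eq_slope g d hneg
      (fun t ht => (hgd t (hmem t (abs_le.mpr ⟨ht.1, by linarith [ht.2]⟩)).1).continuousAt.continuousWithinAt)
      (fun t ht => hgd t (hmem t (abs_le.mpr ⟨ht.1.le, by linarith [ht.2]⟩)).1)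
    have h3 := (hmem ξ (abs_le.mpr ⟨hξ.1.le, by linarith [hξ.2]⟩)).2 hξ.2.ne
    have h4 : 0 < d ξ := by
      rcases div_neg_iff.mp h3 with h | h
      · exact h.1
      · linarith [h.2, hξ.2]
    rw [hξ2] at h4
    rcases div_pos_iff.mp h4 with h | h
    · linarith [h.1]
    · linarith [h.2]

/-! ### Cauchy -/

/-- The shift of a segment. -/
theorem shift_cauchy {S : Set ℂ} (hS : Convex ℝ S) (hSo : IsOpen S) {F : ℂ → ℂ}
    (hF : DifferentiableOn ℂ F S) {y d : ℂ} {r B : ℝ}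
    (h1 : y + r ∈ S) (h2 : y - r ∈ S) (h3 : y + d + r ∈ S) (h4 : y + d - r ∈ S)
    (hB1 : ∀ z ∈ segment ℝ (y + r) (y + d + r), ‖F z‖ ≤ B)
    (hB2 : ∀ z ∈ segment ℝ (y - r) (y + d - r), ‖F z‖ ≤ B) :
    ‖(∫ s in (-r)..r, F (y + s)) - ∫ s in (-r)..r, F (y + d + s)‖ ≤ 2 * B * ‖d‖ := by
  obtain ⟨g, hg⟩ := hS.exists_forall_hasDerivWithinAt hF
  have hg' : ∀ z ∈ S, HasDerivAt g (F z) z := fun z hz =>
    (hg z hz).hasDerivAt (hSo.mem_nhds hz)
  have key : ∀ w : ℂ, w + r ∈ S → w - r ∈ S →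
      ∫ s in (-r)..r, F (w + s) = g (w + r) - g (w - r) := by
    intro w hw1 hw2
    have hm : ∀ s ∈ Set.uIcc (-r) r, w + (s : ℂ) ∈ S := by
      intro s hs
      have hsub : segment ℝ (w - r) (w + r) ⊆ S := hS.segment_subset hw2 hw1
      apply hsub
      have e1 : s ∈ segment ℝ (-r) r := by rwa [segment_eq_uIcc]
      obtain ⟨a, b, ha, hb, hab, hs'⟩ := e1
      refine ⟨a, b, ha, hb, hab, ?_⟩
      rw [← hs']
      simp only [smul_eq_mul, real_smul]
      have hab' : (a : ℂ) + b = 1 := by exact_mod_cast hab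
      push_cast
      linear_combination w * hab'
    have hd : ∀ s ∈ Set.uIcc (-r) r, HasDerivAt (fun s : ℝ => g (w + s)) (F (w + s)) s := by
      intro s hs
      have a2 : HasDerivAt (fun t : ℂ => w + t) 1 (s : ℂ) := (hasDerivAt_id _).const_add _
      have a3 := (HasDerivAt.comp (s : ℂ) (hg' _ (hm s hs)) a2).comp_ofReal
      rw [mul_one] at a3
      exact a3
    rw [intervalIntegral.integral_eq_sub_of_hasDerivAt hd]
    · push_cast
      ring_nf
    · apply ContinuousOn.intervalIntegrable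
      intro s hs
      have hc : ContinuousAt F (w + s) :=
        (hF.differentiableAt (hSo.mem_nhds (hm s hs))).continuousAt
      have hc2 : ContinuousAt (fun s : ℝ => w + (s : ℂ)) s := by fun_prop
      exact (ContinuousAt.comp (f := fun s : ℝ => w + (s : ℂ)) (g := F) hc hc2).continuousWithinAt
  have hseg : ∀ a b : ℂ, a ∈ S → b ∈ S → (∀ z ∈ segment ℝ a b, ‖F z‖ ≤ B) →
      ‖g b - g a‖ ≤ B * ‖b - a‖ := by
    intro a b ha hb hab
    have hsub := hS.segment_subset ha hb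
    exact (convex_segment a b).norm_image_sub_le_of_norm_hasDerivWithin_le (f := g) (f' := F)
      (fun z hz => (hg' z (hsub hz)).hasDerivWithinAt) hab (left_mem_segment ℝ a b)
      (right_mem_segment ℝ a b)
  rw [key y h1 h2, key (y + d) h3 h4]
  have e1 := hseg _ _ h1 h3 hB1
  have e2 := hseg _ _ h2 h4 hB2
  have d1 : y + d + r - (y + r) = d := by ring
  have d2 : y + d - r - (y - r) = d := by ring
  rw [d1] at e1
  rw [d2] at e2
  have e3 : g (y + r) - g (y - r) - (g (y + d + r) - g (y + d - r)) =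
      (g (y + d - r) - g (y - r)) - (g (y + d + r) - g (y + r)) := by ring
  rw [e3]
  calc _ ≤ ‖g (y + d - r) - g (y - r)‖ + ‖g (y + d + r) - g (y + r)‖ := norm_sub_le _ _
    _ ≤ _ := by linarith

/-- The shift of the segment of an edge integral. -/
theorem shift_edge : ∃ K : ℝ, 0 < K ∧ ∃ p : ℕ, ∀ (M : ℕ) (σ τ : Sl) (y d : ℂ) (r B : ℝ), 1 ≤ M →
    σ.ok → τ.ok → 0 < r → r + ‖d‖ < y.re → r + ‖d‖ < 1 / 2 - y.re →
    (∀ t : ℝ, 0 ≤ t → t ≤ 1 → EE σ τ (y + r + t * d) ≤ B ∧ EE σ τ (y - r + t * d) ≤ B) →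
    ‖(∫ s in (-r)..r, (M : ℂ) * FM M σ τ (y + s)) -
      ∫ s in (-r)..r, (M : ℂ) * FM M σ τ (y + d + s)‖ ≤
      K * (M : ℝ) ^ p * Real.exp (K * (|y.im| + 1)) * Real.exp (M * B) := by
  obtain ⟨K, hK, p, hFM⟩ := FM_bound
  refine ⟨K, hK, p + 1, fun M σ τ y d r B hM hσ hτ hr h1 h2 hE => ?_⟩
  have hM0 : (0 : ℝ) < M := by exact_mod_cast hM
  have hMd : 1 / (2 * (M : ℝ)) ≤ 1 / 2 := by
    rw [div_le_div_iff₀ (by positivity) (by norm_num)]
    have : (1 : ℝ) ≤ M := by exact_mod_cast hM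
    linarith
  have hMp : 0 < 1 / (2 * (M : ℝ)) := by positivity
  have hd0 := norm_nonneg d
  have hd1 : ‖d‖ < 1 / 4 := by linarith
  have hre : ∀ t : ℝ, 0 ≤ t → t ≤ 1 → |t * d.re| ≤ ‖d‖ ∧ |t * d.im| ≤ ‖d‖ := by
    intro t ht0 ht1
    have a1 := abs_re_le_norm d
    have a2 := abs_im_le_norm d
    have a3 := abs_nonneg d.re
    have a4 := abs_nonneg d.im
    rw [abs_mul, abs_mul, abs_of_nonneg ht0]
    constructor <;> nlinarith
  have hside : ∀ t : ℝ, 0 ≤ t → t ≤ 1 → ∀ q : ℝ, (q = r ∨ q = -r) →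
      (0 < (y + q + t * d).re ∧ (y + q + t * d).re < 1 / 2) ∧
      (EE σ τ (y + q + t * d) ≤ B →
      ‖(M : ℂ) * FM M σ τ (y + q + t * d)‖ ≤
        M * (K * M ^ p * Real.exp (K * (|y.im| + 1)) * Real.exp (M * B))) := by
    intro t ht0 ht1 q hq
    obtain ⟨g1, g2⟩ := hre t ht0 ht1
    have hre' : (y + q + t * d).re = y.re + q + t * d.re := by
      rw [add_re, add_re, ofReal_re, re_ofReal_mul]
    have him' : (y + q + t * d).im = y.im + t * d.im := by
      rw [add_im, add_im, ofReal_im, im_ofReal_mul]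
      ring
    rw [abs_le] at g1
    have hpos : 0 < (y + q + t * d).re ∧ (y + q + t * d).re < 1 / 2 := by
      rw [hre']
      rcases hq with hq | hq
      · rw [hq]
        constructor <;> linarith
      · rw [hq]
        constructor <;> linarith
    refine ⟨hpos, fun hEB => ?_⟩
    have hb := hFM M hM σ τ (y + q + t * d) hσ hτ (by linarith [hpos.1]) hpos.2.le
    rw [norm_mul, Complex.norm_natCast]
    apply mul_le_mul_of_nonneg_left _ hM0.le
    have hi1 : |(y + q + t * d).im| ≤ |y.im| + 1 := by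
      rw [him']
      exact (abs_add_le _ _).trans (by linarith)
    calc ‖FM M σ τ (y + q + t * d)‖
        ≤ K * M ^ p * Real.exp (K * |(y + q + t * d).im|) *
          Real.exp (M * EE σ τ (y + q + t * d)) := hb
      _ ≤ K * M ^ p * Real.exp (K * (|y.im| + 1)) * Real.exp (M * B) := by gcongr
  set S : Set ℂ := {z : ℂ | 0 < z.re ∧ z.re < 1 / 2} with hS
  have hSc : Convex ℝ S := (convex_halfSpace_re_gt 0).inter (convex_halfSpace_re_lt (1 / 2))
  have hSo : IsOpen S := (isOpen_lt continuous_const continuous_re).inter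
    (isOpen_lt continuous_re continuous_const)
  have hFd : DifferentiableOn ℂ (fun y => (M : ℂ) * FM M σ τ y) S := by
    intro y hy
    exact ((FM_differentiableAt (by omega) hσ hτ (by linarith [hy.1])
      (by linarith [hy.2])).const_mul _).differentiableWithinAt
  have e1 : ∀ t : ℝ, y + ((-r : ℝ) : ℂ) + t * d = y - r + t * d := by
    intro t
    push_cast
    ring
  have q1 := (hside 0 le_rfl zero_le_one r (Or.inl rfl)).1
  have q2 := (hside 0 le_rfl zero_le_one (-r) (Or.inr rfl)).1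
  have q3 := (hside 1 zero_le_one le_rfl r (Or.inl rfl)).1
  have q4 := (hside 1 zero_le_one le_rfl (-r) (Or.inr rfl)).1
  rw [e1] at q2 q4
  rw [ofReal_zero, zero_mul, add_zero] at q1 q2
  rw [ofReal_one, one_mul] at q3 q4
  have q3' : y + d + r ∈ S := by
    have e : y + d + (r : ℂ) = y + r + d := by ring
    rw [e]
    exact q3
  have q4' : y + d - r ∈ S := by
    have e : y + d - (r : ℂ) = y - r + d := by ring
    rw [e]
    exact q4
  have hres := shift_cauchy hSc hSo hFd (y := y) (d := d) (r := r)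
    (B := M * (K * M ^ p * Real.exp (K * (|y.im| + 1)) * Real.exp (M * B))) q1 q2 q3' q4'
    (by
      rintro z ⟨a, b, ha, hb, hab, rfl⟩
      have hab' : (a : ℂ) + b = 1 := by exact_mod_cast hab
      have e : a • (y + (r : ℂ)) + b • (y + d + (r : ℂ)) = y + (r : ℝ) + (b : ℝ) * d := by
        simp only [real_smul]
        linear_combination (y + r) * hab'
      rw [e]
      exact (hside b hb (by linarith) r (Or.inl rfl)).2 (hE b hb (by linarith)).1)
    (by
      rintro z ⟨a, b, ha, hb, hab, rfl⟩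
      have hab' : (a : ℂ) + b = 1 := by exact_mod_cast hab
      have e : a • (y - (r : ℂ)) + b • (y + d - (r : ℂ)) = y - (r : ℝ) + (b : ℝ) * d := by
        simp only [real_smul]
        linear_combination (y - r) * hab'
      have h3 := (hside b hb (by linarith) (-r) (Or.inr rfl)).2
      rw [e1] at h3
      rw [e]
      exact h3 (hE b hb (by linarith)).2)
  refine hres.trans ?_
  have hP : 0 ≤ M * (K * M ^ p * Real.exp (K * (|y.im| + 1)) * Real.exp (M * B)) := by positivity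
  calc 2 * (M * (K * M ^ p * Real.exp (K * (|y.im| + 1)) * Real.exp (M * B))) * ‖d‖
      = (M * (K * M ^ p * Real.exp (K * (|y.im| + 1)) * Real.exp (M * B))) * (2 * ‖d‖) := by ring
    _ ≤ (M * (K * M ^ p * Real.exp (K * (|y.im| + 1)) * Real.exp (M * B))) * 1 :=
        mul_le_mul_of_nonneg_left (by linarith) hP
    _ = _ := by ring

end Pool.Agent.S3
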