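import Pool.Agent.H25.RK.DGe
import Pool.Agent.S3.Defs

/-!
# The closed form of an end with two half twists
-/

namespace Pool.Agent.S3

open Pool.Agent.H63.VC hiding ext
open Pool.Agent.H63.VC3 Pool.Agent.H63.VC4 Pool.Agent.H63.VC6 Pool.Agent.H63.VC7 Complex
open Pool.Agent.H25.RK

variable {m : ℕ}

private theorem Clo_I_pow (n : ℕ) : (I : ℂ) ^ n = exp (Real.pi * I * (n / 2)) := by
  have h : (I : ℂ) = exp (Real.pi / 2 * I) := (exp_pi_div_two_mul_I).symm
  calc (I : ℂ) ^ n = (exp (Real.pi / 2 * I)) ^ n := by rw [← h]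
    _ = exp (Real.pi * I * (n / 2)) := by
        rw [← exp_nat_mul]
        congr 1
        ring

private theorem Clo_one {M : ℕ} (j : Fin m) (k : Fin m → ℕ)
    (hk : k j < M) : DG 1 M {j} k = sk M (k j) (.cl 1) := by
  have hM : 0 < M := by omega
  have hM' : (M : ℂ) ≠ 0 := by exact_mod_cast hM.ne'
  rw [DG_one_single j k hk]
  unfold sk
  dsimp only
  generalize M - 1 - k j = n
  have e : exp (Real.pi * M / 2 * I - Real.pi / (2 * M) * I) * I ^ n *
      exp (Real.pi * (n : ℂ) * ((n : ℂ) - 1) / (2 * M) * I) =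
      exp (Real.pi * I * ((1 : ℤ) : ℂ) * (M / 2 - 1 / (2 * M) + (n : ℂ) / 2 +
        (n : ℂ) * ((n : ℂ) - 1) / (2 * M))) := by
    rw [Clo_I_pow, ← exp_add, ← exp_add]
    congr 1
    push_cast
    ring
  rw [← e]
  ring

theorem cl_eq {M : ℕ} {s : ℤ} (hs : s = 1 ∨ s = -1) (j : Fin m) (k : Fin m → ℕ)
    (hk : k j < M) : DG (s : ℝ) M {j} k = sk M (k j) (.cl s) := by
  rcases hs with rfl | rfl
  · rw [Int.cast_one]
    exact Clo_one j k hk
  · have e : ((-1 : ℤ) : ℝ) = -(1 : ℝ) := by push_cast; ring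
    rw [e, DG_neg, Clo_one j k hk]
    unfold sk
    generalize M - 1 - k j = n
    have h4 : (starRingEnd ℂ) (4 : ℂ) = 4 := by
      have := conj_ofReal 4
      push_cast at this
      exact this
    have h2 : (starRingEnd ℂ) (2 : ℂ) = 2 := by
      have := conj_ofReal 2
      push_cast at this
      exact this
    simp only [map_div₀, map_mul, conj_ofReal, map_natCast, h4, ← exp_conj, conj_I, map_add,
      map_sub, map_one, h2, map_intCast]
    congr 3
    push_cast
    ring

end Pool.Agent.S3
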