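import Mathlib

/-! # Upper bounds of integrals of products -/

namespace Pool.Agent.S3

open Complex Filter Topology MeasureTheory
open scoped BigOperators

private theorem Low_prod {α : Type} [Fintype α] (D M : ℝ) (p : ℕ) (a : α → ℝ) :
    ∏ q, (D * M ^ p * Real.exp (M * a q)) =
      D ^ Fintype.card α * M ^ (p * Fintype.card α) * Real.exp (M * ∑ q, a q) := by
  rw [Finset.prod_mul_distrib, Finset.prod_const, Finset.card_univ, ← Real.exp_sum,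
    ← Finset.mul_sum, mul_pow, ← pow_mul]

/-- An upper bound of the integral of a product of vertex factors and edge factors. -/
theorem low_abs {ι ε : Type} [Fintype ι] [Fintype ε] {g : ℕ → ι → ℝ → ℂ}
    {K : ℕ → ε → (ι → ℝ) → ℂ} {ga : ι → ℝ → ℝ} {ka : ε → (ι → ℝ) → ℝ} {w : ι → ℝ → ℝ} {e : ℝ}
    (w_int : ∀ i, Integrable (w i)) (w_nn : ∀ i x, 0 ≤ w i x)
    (g_bd : ∃ C : ℝ, 0 < C ∧ ∃ p : ℕ, ∀ᶠ M : ℕ in atTop, ∀ i x,
      ‖g M i x‖ ≤ C * (M : ℝ) ^ p * Real.exp (M * ga i x) * w i x)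
    (K_bd : ∃ C : ℝ, 0 < C ∧ ∃ p : ℕ, ∀ᶠ M : ℕ in atTop, ∀ q x,
      ‖K M q x‖ ≤ C * (M : ℝ) ^ p * Real.exp (M * ka q x))
    (hs : ∀ x, ∑ i, ga i (x i) + ∑ q, ka q x ≤ e) :
    ∃ C : ℝ, 0 < C ∧ ∃ p : ℕ, ∀ᶠ M : ℕ in atTop,
      ‖∫ x : ι → ℝ, (∏ i, g M i (x i)) * ∏ q, K M q x‖ ≤ C * (M : ℝ) ^ p * Real.exp (M * e) := by
  obtain ⟨C1, hC1, p1, h1⟩ := g_bd
  obtain ⟨C2, hC2, p2, h2⟩ := K_bd
  have hint : Integrable (fun x : ι → ℝ => ∏ i, w i (x i)) :=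
    Integrable.fintype_prod (μ := fun _ : ι => (volume : Measure ℝ)) (f := fun i => w i) w_int
  have hW : 0 ≤ ∫ x : ι → ℝ, ∏ i, w i (x i) :=
    integral_nonneg fun x => Finset.prod_nonneg fun i _ => w_nn i (x i)
  refine ⟨C1 ^ Fintype.card ι * C2 ^ Fintype.card ε * ((∫ x : ι → ℝ, ∏ i, w i (x i)) + 1),
    by positivity, p1 * Fintype.card ι + p2 * Fintype.card ε, ?_⟩
  filter_upwards [h1, h2] with M g1 g2
  have hb : ∀ x : ι → ℝ, ‖(∏ i, g M i (x i)) * ∏ q, K M q x‖ ≤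
      C1 ^ Fintype.card ι * C2 ^ Fintype.card ε *
        (M : ℝ) ^ (p1 * Fintype.card ι + p2 * Fintype.card ε) * Real.exp (M * e) *
          ∏ i, w i (x i) := by
    intro x
    rw [norm_mul, norm_prod, norm_prod]
    have a1 : ∏ i, ‖g M i (x i)‖ ≤ C1 ^ Fintype.card ι * (M : ℝ) ^ (p1 * Fintype.card ι) *
        Real.exp (M * ∑ i, ga i (x i)) * ∏ i, w i (x i) := by
      calc ∏ i, ‖g M i (x i)‖
          ≤ ∏ i, (C1 * (M : ℝ) ^ p1 * Real.exp (M * ga i (x i)) * w i (x i)) :=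
            Finset.prod_le_prod (fun i _ => norm_nonneg _) (fun i _ => g1 i (x i))
        _ = _ := by rw [Finset.prod_mul_distrib, Low_prod]
    have a2 : ∏ q, ‖K M q x‖ ≤ C2 ^ Fintype.card ε * (M : ℝ) ^ (p2 * Fintype.card ε) *
        Real.exp (M * ∑ q, ka q x) := by
      calc ∏ q, ‖K M q x‖ ≤ ∏ q, (C2 * (M : ℝ) ^ p2 * Real.exp (M * ka q x)) :=
            Finset.prod_le_prod (fun i _ => norm_nonneg _) (fun q _ => g2 q x)
        _ = _ := by rw [Low_prod]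
    have hw : 0 ≤ ∏ i, w i (x i) := Finset.prod_nonneg fun i _ => w_nn i (x i)
    refine (mul_le_mul a1 a2 (Finset.prod_nonneg fun q _ => norm_nonneg _) (by positivity)).trans ?_
    have a3 : Real.exp (M * ∑ i, ga i (x i)) * Real.exp (M * ∑ q, ka q x) ≤ Real.exp (M * e) := by
      rw [← Real.exp_add, ← mul_add]
      exact Real.exp_le_exp.2 (mul_le_mul_of_nonneg_left (hs x) (Nat.cast_nonneg M))
    calc C1 ^ Fintype.card ι * (M : ℝ) ^ (p1 * Fintype.card ι) *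
          Real.exp (M * ∑ i, ga i (x i)) * (∏ i, w i (x i)) *
          (C2 ^ Fintype.card ε * (M : ℝ) ^ (p2 * Fintype.card ε) * Real.exp (M * ∑ q, ka q x))
        = C1 ^ Fintype.card ι * C2 ^ Fintype.card ε *
          (M : ℝ) ^ (p1 * Fintype.card ι + p2 * Fintype.card ε) *
          (Real.exp (M * ∑ i, ga i (x i)) * Real.exp (M * ∑ q, ka q x)) * ∏ i, w i (x i) := by
          rw [pow_add]; ring
      _ ≤ _ := by
          apply mul_le_mul_of_nonneg_right _ hw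
          apply mul_le_mul_of_nonneg_left a3
          positivity
  refine (norm_integral_le_of_norm_le (hint.const_mul _)
    (Eventually.of_forall hb)).trans ?_
  rw [integral_const_mul]
  have : 0 ≤ C1 ^ Fintype.card ι * C2 ^ Fintype.card ε *
      (M : ℝ) ^ (p1 * Fintype.card ι + p2 * Fintype.card ε) * Real.exp (M * e) := by positivity
  nlinarith

/-- Finite sums of sequences with exponential bounds. -/
theorem low_sum {α : Type*} (s : Finset α) {f : α → ℕ → ℂ} {e : ℝ}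
    (h : ∀ a ∈ s, ∃ C : ℝ, 0 < C ∧ ∃ p : ℕ, ∀ᶠ M : ℕ in atTop,
      ‖f a M‖ ≤ C * (M : ℝ) ^ p * Real.exp (M * e)) :
    ∃ C : ℝ, 0 < C ∧ ∃ p : ℕ, ∀ᶠ M : ℕ in atTop,
      ‖∑ a ∈ s, f a M‖ ≤ C * (M : ℝ) ^ p * Real.exp (M * e) := by
  classical
  induction s using Finset.induction_on with
  | empty =>
    refine ⟨1, one_pos, 0, Eventually.of_forall fun M => ?_⟩
    rw [Finset.sum_empty, norm_zero]
    positivity
  | insert a s ha ih =>
    obtain ⟨C1, hC1, p1, h1⟩ := ih fun b hb => h b (Finset.mem_insert_of_mem hb)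
    obtain ⟨C2, hC2, p2, h2⟩ := h a (Finset.mem_insert_self a s)
    refine ⟨C1 + C2, by positivity, p1 + p2, ?_⟩
    filter_upwards [h1, h2, eventually_ge_atTop 1] with M g1 g2 hM
    rw [Finset.sum_insert ha]
    have hM1 : (1 : ℝ) ≤ M := by exact_mod_cast hM
    have k1 : (M : ℝ) ^ p1 ≤ (M : ℝ) ^ (p1 + p2) := pow_le_pow_right₀ hM1 (Nat.le_add_right _ _)
    have k2 : (M : ℝ) ^ p2 ≤ (M : ℝ) ^ (p1 + p2) := pow_le_pow_right₀ hM1 (Nat.le_add_left _ _)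
    calc ‖f a M + ∑ x ∈ s, f x M‖ ≤ ‖f a M‖ + ‖∑ x ∈ s, f x M‖ := norm_add_le _ _
      _ ≤ C2 * (M : ℝ) ^ p2 * Real.exp (M * e) + C1 * (M : ℝ) ^ p1 * Real.exp (M * e) :=
          add_le_add g2 g1
      _ ≤ C2 * (M : ℝ) ^ (p1 + p2) * Real.exp (M * e)
          + C1 * (M : ℝ) ^ (p1 + p2) * Real.exp (M * e) := by gcongr
      _ = _ := by ring

/-- A larger exponent. -/
theorem low_mono {f : ℕ → ℂ} {e e' : ℝ} (he : e ≤ e')
    (h : ∃ C : ℝ, 0 < C ∧ ∃ p : ℕ, ∀ᶠ M : ℕ in atTop,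
      ‖f M‖ ≤ C * (M : ℝ) ^ p * Real.exp (M * e)) :
    ∃ C : ℝ, 0 < C ∧ ∃ p : ℕ, ∀ᶠ M : ℕ in atTop,
      ‖f M‖ ≤ C * (M : ℝ) ^ p * Real.exp (M * e') := by
  obtain ⟨C, hC, p, h⟩ := h
  refine ⟨C, hC, p, ?_⟩
  filter_upwards [h] with M g
  refine g.trans ?_
  gcongr

end Pool.Agent.S3
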