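import Pool.Agent.S3.Gr1

/-!
# The flat through the critical point of an edge

`U = 1 / cos² π v`, `V = 1 / cos² π w`, `N = U + V - 1 = tan² π y`, `y = s + i h`, `0 < s < 1/2`.
If `|U - V|² |N| ≤ 4 |U| |V| Re N`, then `t ↦ EE (op v) (op w) (t + i h)` increases on `[0, s]` and
decreases on `[s, 1/2]`.
-/

set_option autoImplicit false

namespace Pool.Agent.S3

open Pool.Agent.H63.VC3 Complex MeasureTheory Filter Topology Set

/-! ### Algebra -/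

/-- `δ = d₁ + i d₂`, `κ = k₁ + i k₂`, `|κ - 4| |δ| ≤ 4 d₁`. -/
private theorem flat_ab {k1 k2 d1 d2 : ℝ} (h0 : 0 ≤ d1)
    (h : ((k1 - 4) ^ 2 + k2 ^ 2) * (d1 ^ 2 + d2 ^ 2) ≤ 16 * d1 ^ 2) :
    0 ≤ k1 * d1 - k2 * d2 ∧ 0 ≤ k1 * d1 + k2 * d2 := by
  have h1 : ((k1 - 4) * d1 - k2 * d2) ^ 2 ≤ (4 * d1) ^ 2 := by
    nlinarith [sq_nonneg ((k1 - 4) * d2 + k2 * d1)]
  have h2 : ((k1 - 4) * d1 + k2 * d2) ^ 2 ≤ (4 * d1) ^ 2 := by
    nlinarith [sq_nonneg ((k1 - 4) * d2 - k2 * d1)]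
  have h3 := abs_le_of_sq_le_sq' h1 (by linarith)
  have h4 := abs_le_of_sq_le_sq' h2 (by linarith)
  constructor <;> nlinarith [h3.1, h4.1]

private theorem flat_amgm {a b R g : ℝ} (ha : 0 ≤ a) (hb : 0 ≤ b) (hR : 0 ≤ R)
    (h : g ^ 2 ≤ 16 * R * (a * b)) : g ≤ 2 * b + 2 * R * a := by
  by_contra hc
  push Not at hc
  have h0 : 0 ≤ 2 * b + 2 * R * a := by positivity
  have h1 : (2 * b + 2 * R * a) ^ 2 < g ^ 2 := by nlinarith
  nlinarith [sq_nonneg (b - R * a)]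

/-- The inequality left of the critical point. -/
private theorem flat_left {k1 k2 d1 d2 : ℝ} (h0 : 0 ≤ d1)
    (h : ((k1 - 4) ^ 2 + k2 ^ 2) * (d1 ^ 2 + d2 ^ 2) ≤ 16 * d1 ^ 2) :
    (k1 ^ 2 + k2 ^ 2) * (d1 ^ 2 + d2 ^ 2) ≤
      2 * (k1 * d1 - k2 * d2) + 4 * (d1 ^ 2 + d2 ^ 2) * k1 +
        2 * (d1 ^ 2 + d2 ^ 2) * (k1 * d1 + k2 * d2) := by
  obtain ⟨hb, ha⟩ := flat_ab h0 h
  have hR : 0 ≤ d1 ^ 2 + d2 ^ 2 := by positivity
  have key : (k1 ^ 2 + k2 ^ 2) * (d1 ^ 2 + d2 ^ 2) ≤ 8 * k1 * (d1 ^ 2 + d2 ^ 2) - 16 * d2 ^ 2 := by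
    nlinarith
  have hg : (4 * k1 * (d1 ^ 2 + d2 ^ 2) - 16 * d2 ^ 2) ^ 2 ≤
      16 * (d1 ^ 2 + d2 ^ 2) * ((k1 * d1 + k2 * d2) * (k1 * d1 - k2 * d2)) := by
    have : 16 * (d1 ^ 2 + d2 ^ 2) * ((k1 * d1 + k2 * d2) * (k1 * d1 - k2 * d2)) -
        (4 * k1 * (d1 ^ 2 + d2 ^ 2) - 16 * d2 ^ 2) ^ 2 =
        16 * d2 ^ 2 * (8 * k1 * (d1 ^ 2 + d2 ^ 2) - 16 * d2 ^ 2 -
          (k1 ^ 2 + k2 ^ 2) * (d1 ^ 2 + d2 ^ 2)) := by ring
    have h2 : 0 ≤ 16 * d2 ^ 2 * (8 * k1 * (d1 ^ 2 + d2 ^ 2) - 16 * d2 ^ 2 -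
          (k1 ^ 2 + k2 ^ 2) * (d1 ^ 2 + d2 ^ 2)) := mul_nonneg (by positivity) (by linarith)
    linarith
  have := flat_amgm ha hb hR hg
  linarith

/-- The inequality right of the critical point. -/
private theorem flat_right {k1 k2 d1 d2 : ℝ} (h0 : 0 ≤ d1)
    (h : ((k1 - 4) ^ 2 + k2 ^ 2) * (d1 ^ 2 + d2 ^ 2) ≤ 16 * d1 ^ 2) :
    -2 * (k1 * d1 - k2 * d2) + 4 * (d1 ^ 2 + d2 ^ 2) * k1 -
        2 * (d1 ^ 2 + d2 ^ 2) * (k1 * d1 + k2 * d2) ≤
      (k1 ^ 2 + k2 ^ 2) * (d1 ^ 2 + d2 ^ 2) := by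
  obtain ⟨hb, ha⟩ := flat_ab h0 h
  have hR : 0 ≤ d1 ^ 2 + d2 ^ 2 := by positivity
  have key : (k1 ^ 2 + k2 ^ 2) * (d1 ^ 2 + d2 ^ 2) ≤ 8 * k1 * (d1 ^ 2 + d2 ^ 2) - 16 * d2 ^ 2 := by
    nlinarith
  have hg : (4 * k1 * (d1 ^ 2 + d2 ^ 2) - (k1 ^ 2 + k2 ^ 2) * (d1 ^ 2 + d2 ^ 2)) ^ 2 ≤
      16 * (d1 ^ 2 + d2 ^ 2) * ((k1 * d1 + k2 * d2) * (k1 * d1 - k2 * d2)) := by
    have : 16 * (d1 ^ 2 + d2 ^ 2) * ((k1 * d1 + k2 * d2) * (k1 * d1 - k2 * d2)) -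
        (4 * k1 * (d1 ^ 2 + d2 ^ 2) - (k1 ^ 2 + k2 ^ 2) * (d1 ^ 2 + d2 ^ 2)) ^ 2 =
        (d1 ^ 2 + d2 ^ 2) * (k1 ^ 2 + k2 ^ 2) * (8 * k1 * (d1 ^ 2 + d2 ^ 2) - 16 * d2 ^ 2 -
          (k1 ^ 2 + k2 ^ 2) * (d1 ^ 2 + d2 ^ 2)) := by ring
    have h2 : 0 ≤ (d1 ^ 2 + d2 ^ 2) * (k1 ^ 2 + k2 ^ 2) *
        (8 * k1 * (d1 ^ 2 + d2 ^ 2) - 16 * d2 ^ 2 -
          (k1 ^ 2 + k2 ^ 2) * (d1 ^ 2 + d2 ^ 2)) := mul_nonneg (by positivity) (by linarith)
    linarith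
  have := flat_amgm ha hb hR hg
  linarith

/-- Complex form, left: `|(1 + δ)² - κ δ| ≤ |1 + δ|²`. -/
private theorem flat_leftC {κ δ : ℂ} (h0 : 0 ≤ δ.re) (h : ‖κ - 4‖ * ‖δ‖ ≤ 4 * δ.re) :
    ‖(1 + δ) ^ 2 - κ * δ‖ ≤ ‖1 + δ‖ ^ 2 := by
  have h2 : ((κ.re - 4) ^ 2 + κ.im ^ 2) * (δ.re ^ 2 + δ.im ^ 2) ≤ 16 * δ.re ^ 2 := by
    have := pow_le_pow_left₀ (by positivity) h 2
    rw [mul_pow, ← normSq_eq_norm_sq, ← normSq_eq_norm_sq, normSq_apply, normSq_apply] at this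
    simp only [sub_re, sub_im] at this
    norm_num at this
    nlinarith
  have h3 := flat_left h0 h2
  apply le_of_sq_le_sq ?_ (by positivity)
  rw [← normSq_eq_norm_sq, ← pow_mul]
  have e : ‖1 + δ‖ ^ (2 * 2) = normSq (1 + δ) ^ 2 := by
    rw [normSq_eq_norm_sq, ← pow_mul]
  rw [e, normSq_apply, normSq_apply]
  simp only [sub_re, sub_im, add_re, add_im, mul_re, mul_im, one_re, one_im, pow_two]
  nlinarith

/-- Complex form, right: `|1 - δ|² ≤ |(1 - δ)² + κ δ|`. -/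
private theorem flat_rightC {κ δ : ℂ} (h0 : 0 ≤ δ.re) (h : ‖κ - 4‖ * ‖δ‖ ≤ 4 * δ.re) :
    ‖1 - δ‖ ^ 2 ≤ ‖(1 - δ) ^ 2 + κ * δ‖ := by
  have h2 : ((κ.re - 4) ^ 2 + κ.im ^ 2) * (δ.re ^ 2 + δ.im ^ 2) ≤ 16 * δ.re ^ 2 := by
    have := pow_le_pow_left₀ (by positivity) h 2
    rw [mul_pow, ← normSq_eq_norm_sq, ← normSq_eq_norm_sq, normSq_apply, normSq_apply] at this
    simp only [sub_re, sub_im] at this
    norm_num at this
    nlinarith
  have h3 := flat_right h0 h2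
  apply le_of_sq_le_sq ?_ (by positivity)
  rw [← normSq_eq_norm_sq, ← normSq_eq_norm_sq, normSq_apply, normSq_apply]
  simp only [sub_re, sub_im, add_re, add_im, mul_re, mul_im, one_re, one_im, pow_two]
  nlinarith

/-! ### Trigonometry -/

private theorem flat_sin (a b : ℝ) : sin ((a : ℂ) + b * I) =
    ((Real.sin a * Real.cosh b : ℝ) : ℂ) + ((Real.cos a * Real.sinh b : ℝ) : ℂ) * I := by
  rw [sin_add_mul_I]
  push_cast
  ring

private theorem flat_cos (a b : ℝ) : cos ((a : ℂ) + b * I) =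
    ((Real.cos a * Real.cosh b : ℝ) : ℂ) - ((Real.sin a * Real.sinh b : ℝ) : ℂ) * I := by
  rw [cos_add_mul_I]
  push_cast
  ring

/-- `E` lies between the positive real axis and `N` (upper half plane). -/
private theorem flat_sector {E N : ℂ} (h1 : 0 ≤ N.re) (h2 : 0 < N.im) (h3 : 0 ≤ E.im)
    (h4 : 0 ≤ N.im * E.re - N.re * E.im) : 0 ≤ E.re ∧ N.re * ‖E‖ ≤ ‖N‖ * E.re := by
  have h5 : 0 ≤ E.re := by
    have : 0 ≤ N.im * E.re := by nlinarith [mul_nonneg h1 h3]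
    exact nonneg_of_mul_nonneg_right this h2
  refine ⟨h5, ?_⟩
  apply le_of_sq_le_sq ?_ (by positivity)
  rw [mul_pow, mul_pow, ← normSq_eq_norm_sq, ← normSq_eq_norm_sq, normSq_apply, normSq_apply]
  have h6 : (N.re * E.im) ^ 2 ≤ (N.im * E.re) ^ 2 :=
    pow_le_pow_left₀ (mul_nonneg h1 h3) (by linarith) 2
  nlinarith

private theorem flat_div_re (A B P Q : ℝ) : (((P : ℂ) + Q * I) / ((A : ℂ) - B * I)).re =
    (P * A - Q * B) / (A ^ 2 + B ^ 2) := by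
  rw [div_re, normSq_apply]
  simp only [sub_re, sub_im, add_re, add_im, mul_re, mul_im, ofReal_re, ofReal_im, I_re, I_im,
    mul_zero, mul_one, sub_zero, add_zero, zero_add, zero_sub]
  rw [← add_div]
  congr 1 <;> ring

private theorem flat_div_im (A B P Q : ℝ) : (((P : ℂ) + Q * I) / ((A : ℂ) - B * I)).im =
    (P * B + Q * A) / (A ^ 2 + B ^ 2) := by
  rw [div_im, normSq_apply]
  simp only [sub_re, sub_im, add_re, add_im, mul_re, mul_im, ofReal_re, ofReal_im, I_re, I_im,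
    mul_zero, mul_one, sub_zero, add_zero, zero_add, zero_sub]
  rw [← sub_div]
  congr 1 <;> ring

private theorem flat_E_pos {a β h : ℝ} (ha : 0 < a) (ha' : a < Real.pi / 2) (hβ : 0 ≤ β)
    (hβ' : β ≤ Real.pi / 2) (hh : 0 < h)
    (hN : 0 ≤ (sin ((a : ℂ) + h * I) ^ 2 / cos ((a : ℂ) + h * I) ^ 2).re) :
    0 ≤ (sin (((a + β : ℝ) : ℂ) + ((2 * h : ℝ) : ℂ) * I) / cos ((a : ℂ) + h * I) ^ 2).re ∧
    (sin ((a : ℂ) + h * I) ^ 2 / cos ((a : ℂ) + h * I) ^ 2).re *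
        ‖sin (((a + β : ℝ) : ℂ) + ((2 * h : ℝ) : ℂ) * I) / cos ((a : ℂ) + h * I) ^ 2‖ ≤
      ‖sin ((a : ℂ) + h * I) ^ 2 / cos ((a : ℂ) + h * I) ^ 2‖ *
        (sin (((a + β : ℝ) : ℂ) + ((2 * h : ℝ) : ℂ) * I) / cos ((a : ℂ) + h * I) ^ 2).re := by
  have hs : 0 < Real.sin a := Real.sin_pos_of_pos_of_lt_pi ha (by linarith [Real.pi_pos])
  have hc : 0 < Real.cos a := Real.cos_pos_of_mem_Ioo ⟨by linarith, ha'⟩
  have hs' : 0 ≤ Real.sin β := Real.sin_nonneg_of_nonneg_of_le_pi hβ (by linarith [Real.pi_pos])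
  have hc' : 0 ≤ Real.cos β := Real.cos_nonneg_of_mem_Icc ⟨by linarith [Real.pi_pos], hβ'⟩
  have hch := Real.cosh_pos h
  have hsh : 0 < Real.sinh h := Real.sinh_pos_iff.mpr hh
  have h1 := Real.sin_sq_add_cos_sq a
  have h2 := Real.cosh_sq h
  set s := Real.sin a with hsdef
  set c := Real.cos a with hcdef
  set S := Real.sin β with hSdef
  set C := Real.cos β with hCdef
  set ch := Real.cosh h with hchdef
  set sh := Real.sinh h with hshdef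
  have eC : cos ((a : ℂ) + h * I) ^ 2 =
      (((c ^ 2 * ch ^ 2 - s ^ 2 * sh ^ 2 : ℝ)) : ℂ) - ((2 * s * c * sh * ch : ℝ) : ℂ) * I := by
    rw [flat_cos, hsdef, hcdef, hchdef, hshdef]
    push_cast
    linear_combination (sin (a : ℂ) * sinh (h : ℂ)) ^ 2 * I_sq
  have eS : sin ((a : ℂ) + h * I) ^ 2 =
      (((s ^ 2 * ch ^ 2 - c ^ 2 * sh ^ 2 : ℝ)) : ℂ) + ((2 * s * c * sh * ch : ℝ) : ℂ) * I := by
    rw [flat_sin, hsdef, hcdef, hchdef, hshdef]
    push_cast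
    linear_combination (cos (a : ℂ) * sinh (h : ℂ)) ^ 2 * I_sq
  have eE : sin (((a + β : ℝ) : ℂ) + ((2 * h : ℝ) : ℂ) * I) =
      (((s * C + c * S) * (ch ^ 2 + sh ^ 2) : ℝ) : ℂ) +
        (((c * C - s * S) * (2 * sh * ch) : ℝ) : ℂ) * I := by
    rw [flat_sin, Real.sin_add, Real.cos_add, Real.cosh_two_mul, Real.sinh_two_mul]
  rw [eC, eS] at hN
  rw [eC, eS, eE]
  set A : ℝ := c ^ 2 * ch ^ 2 - s ^ 2 * sh ^ 2 with hA
  set A' : ℝ := s ^ 2 * ch ^ 2 - c ^ 2 * sh ^ 2 with hA'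
  set B : ℝ := 2 * s * c * sh * ch with hB
  set P : ℝ := (s * C + c * S) * (ch ^ 2 + sh ^ 2) with hP
  set Q : ℝ := (c * C - s * S) * (2 * sh * ch) with hQ
  have hBpos : 0 < B := by positivity
  have hD : 0 < A ^ 2 + B ^ 2 := by positivity
  have hAA : A + A' = 1 := by
    rw [hA, hA']
    have : c ^ 2 = 1 - s ^ 2 := by linarith
    rw [this, h2]
    ring
  have e1 : P * B + Q * A = 2 * sh * ch * (ch ^ 2 * c * C + sh ^ 2 * s * S) := by
    rw [hP, hB, hQ, hA]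
    have : c ^ 2 = 1 - s ^ 2 := by linarith
    linear_combination (2 * sh * ch * (ch ^ 2 * c * C + sh ^ 2 * s * S)) * h1
  have e2 : B * P - A' * Q = 2 * sh * ch * (ch ^ 2 * s * S + sh ^ 2 * c * C) := by
    rw [hP, hB, hQ, hA']
    linear_combination (2 * sh * ch * (ch ^ 2 * s * S + sh ^ 2 * c * C)) * h1
  apply flat_sector hN
  · rw [flat_div_im]
    apply div_pos ?_ hD
    have : A' * B + B * A = B := by linear_combination B * hAA
    rw [this]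
    exact hBpos
  · rw [flat_div_im]
    apply div_nonneg ?_ hD.le
    rw [e1]
    positivity
  · rw [flat_div_im, flat_div_im, flat_div_re, flat_div_re]
    have : (A' * B + B * A) / (A ^ 2 + B ^ 2) * ((P * A - Q * B) / (A ^ 2 + B ^ 2)) -
        (A' * A - B * B) / (A ^ 2 + B ^ 2) * ((P * B + Q * A) / (A ^ 2 + B ^ 2)) =
        (B * P - A' * Q) / (A ^ 2 + B ^ 2) := by
      field_simp
      ring
    rw [this, e2]
    positivity

private theorem flat_E {a β h : ℝ} (ha : 0 < a) (ha' : a < Real.pi / 2) (hβ : 0 ≤ β)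
    (hβ' : β ≤ Real.pi / 2)
    (hN : 0 ≤ (sin ((a : ℂ) + h * I) ^ 2 / cos ((a : ℂ) + h * I) ^ 2).re) :
    0 ≤ (sin (((a + β : ℝ) : ℂ) + ((2 * h : ℝ) : ℂ) * I) / cos ((a : ℂ) + h * I) ^ 2).re ∧
    (sin ((a : ℂ) + h * I) ^ 2 / cos ((a : ℂ) + h * I) ^ 2).re *
        ‖sin (((a + β : ℝ) : ℂ) + ((2 * h : ℝ) : ℂ) * I) / cos ((a : ℂ) + h * I) ^ 2‖ ≤
      ‖sin ((a : ℂ) + h * I) ^ 2 / cos ((a : ℂ) + h * I) ^ 2‖ *
        (sin (((a + β : ℝ) : ℂ) + ((2 * h : ℝ) : ℂ) * I) / cos ((a : ℂ) + h * I) ^ 2).re := by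
  rcases lt_trichotomy h 0 with hh | hh | hh
  · have e1 : (a : ℂ) + ((-h : ℝ) : ℂ) * I = (starRingEnd ℂ) ((a : ℂ) + h * I) := by
      rw [map_add, map_mul, conj_ofReal, conj_ofReal, conj_I]
      push_cast
      ring
    have e2 : ((a + β : ℝ) : ℂ) + ((2 * -h : ℝ) : ℂ) * I =
        (starRingEnd ℂ) (((a + β : ℝ) : ℂ) + ((2 * h : ℝ) : ℂ) * I) := by
      rw [map_add, map_mul, conj_ofReal, conj_ofReal, conj_I]
      push_cast
      ring
    have e3 : sin ((a : ℂ) + ((-h : ℝ) : ℂ) * I) ^ 2 / cos ((a : ℂ) + ((-h : ℝ) : ℂ) * I) ^ 2 =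
        (starRingEnd ℂ) (sin ((a : ℂ) + h * I) ^ 2 / cos ((a : ℂ) + h * I) ^ 2) := by
      rw [e1, sin_conj, cos_conj, map_div₀, map_pow, map_pow]
    have e4 : sin (((a + β : ℝ) : ℂ) + ((2 * -h : ℝ) : ℂ) * I) /
        cos ((a : ℂ) + ((-h : ℝ) : ℂ) * I) ^ 2 =
        (starRingEnd ℂ) (sin (((a + β : ℝ) : ℂ) + ((2 * h : ℝ) : ℂ) * I) /
          cos ((a : ℂ) + h * I) ^ 2) := by
      rw [e1, e2, sin_conj, cos_conj, map_div₀, map_pow]
    have := flat_E_pos (h := -h) ha ha' hβ hβ' (by linarith) (by rw [e3, conj_re]; exact hN)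
    rw [e3, e4, conj_re, conj_re, norm_conj, norm_conj] at this
    exact this
  · subst hh
    have e4 : sin (((a + β : ℝ) : ℂ) + ((2 * 0 : ℝ) : ℂ) * I) / cos ((a : ℂ) + ((0 : ℝ) : ℂ) * I) ^ 2 =
        ((Real.sin (a + β) / Real.cos a ^ 2 : ℝ) : ℂ) := by
      push_cast
      simp
    have h0 : 0 ≤ Real.sin (a + β) / Real.cos a ^ 2 := by
      apply div_nonneg ?_ (by positivity)
      exact Real.sin_nonneg_of_nonneg_of_le_pi (by linarith) (by linarith)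
    rw [e4, ofReal_re, norm_real, Real.norm_of_nonneg h0]
    exact ⟨h0, mul_le_mul_of_nonneg_right (re_le_norm _) h0⟩
  · exact flat_E_pos ha ha' hβ hβ' hh hN

/-! ### The sign of the derivative -/

/-- The comparison of `|cos² π y - cos² π v| |cos² π y - cos² π w|` with `|cos π y|⁴`. -/
theorem flat_L {v w : ℂ} {s h t : ℝ} (hs : 0 < s) (hs' : s < 1 / 2) (ht : 0 ≤ t)
    (ht' : t ≤ 1 / 2) (hv : cos (Real.pi * v) ≠ 0) (hw : cos (Real.pi * w) ≠ 0)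
    (hc : 1 / cos (Real.pi * ((s : ℂ) + h * I)) ^ 2 =
      1 / cos (Real.pi * v) ^ 2 + 1 / cos (Real.pi * w) ^ 2)
    (hN : 0 ≤ (1 / cos (Real.pi * v) ^ 2 + 1 / cos (Real.pi * w) ^ 2 - 1).re)
    (hC : ‖1 / cos (Real.pi * v) ^ 2 - 1 / cos (Real.pi * w) ^ 2‖ ^ 2 *
        ‖1 / cos (Real.pi * v) ^ 2 + 1 / cos (Real.pi * w) ^ 2 - 1‖ ≤
      4 * (‖1 / cos (Real.pi * v) ^ 2‖ * ‖1 / cos (Real.pi * w) ^ 2‖) *
        (1 / cos (Real.pi * v) ^ 2 + 1 / cos (Real.pi * w) ^ 2 - 1).re) :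
    (t ≤ s → ‖cos (Real.pi * ((t : ℂ) + h * I)) ^ 2 - cos (Real.pi * v) ^ 2‖ *
        ‖cos (Real.pi * ((t : ℂ) + h * I)) ^ 2 - cos (Real.pi * w) ^ 2‖ ≤
      ‖cos (Real.pi * ((t : ℂ) + h * I)) ^ 2‖ ^ 2) ∧
    (s ≤ t → ‖cos (Real.pi * ((t : ℂ) + h * I)) ^ 2‖ ^ 2 ≤
      ‖cos (Real.pi * ((t : ℂ) + h * I)) ^ 2 - cos (Real.pi * v) ^ 2‖ *
        ‖cos (Real.pi * ((t : ℂ) + h * I)) ^ 2 - cos (Real.pi * w) ^ 2‖) := by
  have hpi := Real.pi_pos
  set c : ℂ := cos (Real.pi * ((s : ℂ) + h * I)) with hcdef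
  set p : ℂ := cos (Real.pi * v) ^ 2 with hp
  set q : ℂ := cos (Real.pi * w) ^ 2 with hq
  set C : ℂ := cos (Real.pi * ((t : ℂ) + h * I)) ^ 2 with hCdef
  have hp0 : p ≠ 0 := pow_ne_zero 2 hv
  have hq0 : q ≠ 0 := pow_ne_zero 2 hw
  have hz : (Real.pi : ℂ) * ((s : ℂ) + h * I) =
      ((Real.pi * s : ℝ) : ℂ) + ((Real.pi * h : ℝ) : ℂ) * I := by
    push_cast
    ring
  have hc0 : c ≠ 0 := by
    rw [hcdef, hz, flat_cos]
    intro h0
    have := congrArg Complex.re h0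
    simp only [sub_re, ofReal_re, mul_re, ofReal_im, I_re, mul_zero, I_im, mul_one, sub_self,
      sub_zero, zero_re] at this
    have h1 : 0 < Real.cos (Real.pi * s) :=
      Real.cos_pos_of_mem_Ioo ⟨by nlinarith, by nlinarith⟩
    have h2 := Real.cosh_pos (Real.pi * h)
    have : 0 < Real.cos (Real.pi * s) * Real.cosh (Real.pi * h) := by positivity
    linarith
  have hpq : p + q ≠ 0 := by
    intro h0
    have : 1 / c ^ 2 = 0 := by
      rw [hc]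
      field_simp
      rw [add_comm, h0, mul_zero]
    have := one_div_ne_zero (pow_ne_zero 2 hc0)
    contradiction
  have hc2 : c ^ 2 * (p + q) = p * q := by
    have h1 : c ^ 2 ≠ 0 := pow_ne_zero 2 hc0
    field_simp at hc
    linear_combination -hc
  -- the parameter of the flat
  set E : ℂ := sin (((Real.pi * s + Real.pi * t : ℝ) : ℂ) + ((2 * (Real.pi * h) : ℝ) : ℂ) * I) /
    c ^ 2 with hE
  have hNeq : sin (((Real.pi * s : ℝ) : ℂ) + ((Real.pi * h : ℝ) : ℂ) * I) ^ 2 /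
      cos (((Real.pi * s : ℝ) : ℂ) + ((Real.pi * h : ℝ) : ℂ) * I) ^ 2 = 1 / p + 1 / q - 1 := by
    rw [← hc, ← hz, ← hcdef]
    have h1 := sin_sq_add_cos_sq (Real.pi * ((s : ℂ) + h * I))
    rw [← hcdef] at h1
    have h2 : c ^ 2 ≠ 0 := pow_ne_zero 2 hc0
    field_simp
    linear_combination h1
  have hEE := flat_E (a := Real.pi * s) (β := Real.pi * t) (h := Real.pi * h) (by positivity)
    (by nlinarith) (by positivity) (by nlinarith) (by rw [hNeq]; exact hN)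
  rw [hNeq, ← hz, ← hcdef, ← hE] at hEE
  obtain ⟨hE0, hE1⟩ := hEE
  set N : ℂ := 1 / p + 1 / q - 1 with hNdef
  set κ : ℂ := (p + q) ^ 2 / (p * q) with hκ
  have hκ4 : κ - 4 = (1 / p - 1 / q) ^ 2 / ((1 / p) * (1 / q)) := by
    rw [hκ]
    field_simp
    ring
  have hpq' : 0 < ‖1 / p‖ * ‖1 / q‖ :=
    mul_pos (norm_pos_iff.mpr (one_div_ne_zero hp0)) (norm_pos_iff.mpr (one_div_ne_zero hq0))
  have hκN : ‖κ - 4‖ * ‖N‖ ≤ 4 * N.re := by
    rw [hκ4, norm_div, norm_mul, norm_pow, div_mul_eq_mul_div, div_le_iff₀ hpq']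
    linarith
  have hκE : ‖κ - 4‖ * ‖E‖ ≤ 4 * E.re := by
    rcases (norm_nonneg N).eq_or_lt with h0 | h0
    · -- `N = 0` is impossible
      exfalso
      have : N = 0 := norm_eq_zero.mp h0.symm
      rw [← hNeq] at this
      have h2 : sin (((Real.pi * s : ℝ) : ℂ) + ((Real.pi * h : ℝ) : ℂ) * I) = 0 := by
        have h3 : cos (((Real.pi * s : ℝ) : ℂ) + ((Real.pi * h : ℝ) : ℂ) * I) ≠ 0 := by
          rw [← hz]; exact hc0
        have := (div_eq_zero_iff.mp this).resolve_right (pow_ne_zero 2 h3)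
        exact pow_eq_zero_iff (two_ne_zero) |>.mp this
      rw [flat_sin] at h2
      have := congrArg Complex.re h2
      simp only [add_re, ofReal_re, mul_re, ofReal_im, I_re, mul_zero, I_im, mul_one, sub_self,
        add_zero, zero_re] at this
      have h1 : 0 < Real.sin (Real.pi * s) :=
        Real.sin_pos_of_pos_of_lt_pi (by positivity) (by nlinarith)
      have h2 := Real.cosh_pos (Real.pi * h)
      have : 0 < Real.sin (Real.pi * s) * Real.cosh (Real.pi * h) := by positivity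
      linarith
    · have h1 : ‖κ - 4‖ * ‖E‖ * ‖N‖ ≤ 4 * E.re * ‖N‖ := by
        calc ‖κ - 4‖ * ‖E‖ * ‖N‖ = ‖κ - 4‖ * ‖N‖ * ‖E‖ := by ring
          _ ≤ 4 * N.re * ‖E‖ := mul_le_mul_of_nonneg_right hκN (norm_nonneg _)
          _ = 4 * (N.re * ‖E‖) := by ring
          _ ≤ 4 * (‖N‖ * E.re) := by linarith
          _ = 4 * E.re * ‖N‖ := by ring
      exact le_of_mul_le_mul_right h1 h0
  -- `C = c² (1 + δ)`
  have hCδ : C = c ^ 2 * (1 + ((Real.sin (Real.pi * (s - t)) : ℝ) : ℂ) * E) := by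
    have h1 : C - c ^ 2 = sin (Real.pi * (s - t)) *
        sin (((Real.pi * s + Real.pi * t : ℝ) : ℂ) + ((2 * (Real.pi * h) : ℝ) : ℂ) * I) := by
      have h2 := cos_sq (Real.pi * ((t : ℂ) + h * I))
      have h3 := cos_sq (Real.pi * ((s : ℂ) + h * I))
      have h4 := cos_sub_cos (2 * (Real.pi * ((t : ℂ) + h * I))) (2 * (Real.pi * ((s : ℂ) + h * I)))
      rw [hCdef, hcdef, h2, h3]
      have e5 : (2 * ((Real.pi : ℂ) * ((t : ℂ) + h * I)) + 2 * (Real.pi * ((s : ℂ) + h * I))) / 2 =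
          ((Real.pi * s + Real.pi * t : ℝ) : ℂ) + ((2 * (Real.pi * h) : ℝ) : ℂ) * I := by
        push_cast
        ring
      have e6 : (2 * ((Real.pi : ℂ) * ((t : ℂ) + h * I)) - 2 * (Real.pi * ((s : ℂ) + h * I))) / 2 =
          -(Real.pi * ((s : ℂ) - t)) := by
        ring
      rw [e5, e6, sin_neg] at h4
      linear_combination h4 / 2
    have h2 : c ^ 2 ≠ 0 := pow_ne_zero 2 hc0
    have h3 : sin (((Real.pi * s + Real.pi * t : ℝ) : ℂ) + ((2 * (Real.pi * h) : ℝ) : ℂ) * I) =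
        c ^ 2 * E := by
      rw [hE]
      field_simp
    rw [h3] at h1
    push_cast
    linear_combination h1
  have hkey : ∀ δ : ℂ, C = c ^ 2 * (1 + δ) →
      (C - p) * (C - q) = (c ^ 2) ^ 2 * ((1 + δ) ^ 2 - κ * δ) := by
    intro δ hδ
    have h1 : κ * (c ^ 2) ^ 2 = p * q := by
      rw [hκ, div_mul_eq_mul_div, div_eq_iff (mul_ne_zero hp0 hq0)]
      linear_combination (c ^ 2 * (p + q) + p * q) * hc2
    rw [hδ]
    linear_combination (-(1 + δ)) * hc2 + δ * h1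
  have hn : ‖C - p‖ * ‖C - q‖ = ‖(C - p) * (C - q)‖ := (norm_mul _ _).symm
  rw [hn]
  constructor
  · intro hts
    have h0 : 0 ≤ Real.sin (Real.pi * (s - t)) :=
      Real.sin_nonneg_of_nonneg_of_le_pi (by nlinarith) (by nlinarith)
    set δ : ℂ := ((Real.sin (Real.pi * (s - t)) : ℝ) : ℂ) * E with hδ
    have h1 : 0 ≤ δ.re := by rw [hδ, re_ofReal_mul]; positivity
    have h2 : ‖κ - 4‖ * ‖δ‖ ≤ 4 * δ.re := by
      rw [hδ, re_ofReal_mul, norm_mul, norm_real, Real.norm_of_nonneg h0]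
      nlinarith [mul_le_mul_of_nonneg_left hκE h0]
    rw [hkey δ hCδ, hCδ, norm_mul, norm_mul, norm_pow (c ^ 2) 2, mul_pow]
    exact mul_le_mul_of_nonneg_left (flat_leftC h1 h2) (by positivity)
  · intro hts
    have h0 : 0 ≤ Real.sin (Real.pi * (t - s)) :=
      Real.sin_nonneg_of_nonneg_of_le_pi (by nlinarith) (by nlinarith)
    set δ : ℂ := ((Real.sin (Real.pi * (t - s)) : ℝ) : ℂ) * E with hδ
    have h1 : 0 ≤ δ.re := by rw [hδ, re_ofReal_mul]; positivity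
    have h2 : ‖κ - 4‖ * ‖δ‖ ≤ 4 * δ.re := by
      rw [hδ, re_ofReal_mul, norm_mul, norm_real, Real.norm_of_nonneg h0]
      nlinarith [mul_le_mul_of_nonneg_left hκE h0]
    have h3 : ((Real.sin (Real.pi * (s - t)) : ℝ) : ℂ) * E = -δ := by
      rw [hδ, show Real.pi * (s - t) = -(Real.pi * (t - s)) by ring, Real.sin_neg]
      push_cast
      ring
    rw [h3] at hCδ
    rw [hkey (-δ) hCδ, hCδ, norm_mul, norm_mul, norm_pow (c ^ 2) 2, mul_pow]
    have h4 := flat_rightC h1 h2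
    rw [← sub_eq_add_neg, mul_neg, sub_neg_eq_add]
    exact mul_le_mul_of_nonneg_left h4 (by positivity)

/-! ### Unimodality of the growth rate on the flat -/

private theorem flat_Rf (h a b : ℝ) (z : ℂ) :
    Rf ((b : ℂ) + h * I + z) - Rf ((a : ℂ) + h * I + z) =
      ∫ t in a..b, Lg (h + z.im) (t + z.re) := by
  have e : ∀ x : ℝ, (x : ℂ) + h * I + z = ((x + z.re : ℝ) : ℂ) + ((h + z.im : ℝ) : ℂ) * I := by
    intro x
    apply Complex.ext <;> simp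
  rw [e, e, ← Lg_integral,
    intervalIntegral.integral_comp_add_right (f := fun x => Lg (h + z.im) x) (d := z.re)]

private theorem flat_int (h a b : ℝ) (z : ℂ) :
    IntervalIntegrable (fun t : ℝ => Lg (h + z.im) (t + z.re)) volume a b := by
  have := (Lg_integrable (h + z.im) (a + z.re) (b + z.re)).comp_add_right z.re
  simpa using this

private theorem flat_Lg (h t : ℝ) (z : ℂ) : Lg (h + z.im) (t + z.re) =
    Real.log ‖2 * sin (Real.pi * ((t : ℂ) + h * I + z))‖ := by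
  unfold Lg
  congr 4
  apply Complex.ext <;> simp

private theorem flat_ae (h : ℝ) (z : ℂ) :
    ∀ᵐ t : ℝ, sin (Real.pi * ((t : ℂ) + h * I + z)) ≠ 0 := by
  have h1 := (measurePreserving_add_right (volume : Measure ℝ) z.re).quasiMeasurePreserving.ae
    sin_ne_ae
  filter_upwards [h1] with t ht h0
  have e : (t : ℂ) + h * I + z = ((t + z.re : ℝ) : ℂ) + ((h + z.im : ℝ) : ℂ) * I := by
    apply Complex.ext <;> simp
  have h2 := norm_sin_ge (t + z.re) (h + z.im)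
  rw [← e, h0, norm_zero] at h2
  exact ht (abs_nonpos_iff.mp h2)

private theorem flat_sinsin (y v : ℂ) :
    ‖sin (Real.pi * (y + -v))‖ * ‖sin (Real.pi * (y + v))‖ =
      ‖cos (Real.pi * y) ^ 2 - cos (Real.pi * v) ^ 2‖ := by
  rw [← norm_mul, ← norm_neg (cos (Real.pi * y) ^ 2 - cos (Real.pi * v) ^ 2)]
  congr 1
  rw [mul_add, mul_neg, mul_add, sin_add, sin_add, cos_neg, sin_neg]
  have h1 := sin_sq_add_cos_sq (Real.pi * y)
  have h2 := sin_sq_add_cos_sq (Real.pi * v)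
  linear_combination cos (Real.pi * v) ^ 2 * h1 - cos (Real.pi * y) ^ 2 * h2

/-- The density of the growth rate on a horizontal line. -/
noncomputable def flatG (v w : ℂ) (h t : ℝ) : ℝ :=
  4 * Lg (h + (1 / 2 : ℂ).im) (t + (1 / 2 : ℂ).re) - Lg (h + (-v).im) (t + (-v).re) -
    Lg (h + v.im) (t + v.re) - Lg (h + (-w).im) (t + (-w).re) - Lg (h + w.im) (t + w.re)

theorem flatG_int (v w : ℂ) (h a b : ℝ) :
    IntervalIntegrable (flatG v w h) volume a b := by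
  unfold flatG
  exact (((((flat_int h a b _).const_mul 4).sub (flat_int h a b _)).sub
    (flat_int h a b _)).sub (flat_int h a b _)).sub (flat_int h a b _)

theorem EE_sub_eq (v w : ℂ) (h a b : ℝ) :
    EE (.op v) (.op w) ((b : ℂ) + h * I) - EE (.op v) (.op w) ((a : ℂ) + h * I) =
      ∫ t in a..b, flatG v w h t := by
  unfold flatG
  rw [intervalIntegral.integral_sub, intervalIntegral.integral_sub, intervalIntegral.integral_sub,
    intervalIntegral.integral_sub, intervalIntegral.integral_const_mul, ← flat_Rf, ← flat_Rf,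
    ← flat_Rf, ← flat_Rf, ← flat_Rf]
  · unfold EE se
    simp only [← sub_eq_add_neg]
    ring
  all_goals first
    | exact flat_int h a b _
    | exact (flat_int h a b _).const_mul 4
    | exact ((flat_int h a b _).const_mul 4).sub (flat_int h a b _)
    | exact (((flat_int h a b _).const_mul 4).sub (flat_int h a b _)).sub (flat_int h a b _)
    | exact ((((flat_int h a b _).const_mul 4).sub (flat_int h a b _)).sub
        (flat_int h a b _)).sub (flat_int h a b _)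

theorem flatG_ae (v w : ℂ) (h : ℝ) : ∀ᵐ t : ℝ,
    cos (Real.pi * ((t : ℂ) + h * I)) ≠ 0 ∧
    cos (Real.pi * ((t : ℂ) + h * I)) ^ 2 - cos (Real.pi * v) ^ 2 ≠ 0 ∧
    cos (Real.pi * ((t : ℂ) + h * I)) ^ 2 - cos (Real.pi * w) ^ 2 ≠ 0 ∧
    flatG v w h t = Real.log (‖cos (Real.pi * ((t : ℂ) + h * I)) ^ 2‖ ^ 2) -
      Real.log (‖cos (Real.pi * ((t : ℂ) + h * I)) ^ 2 - cos (Real.pi * v) ^ 2‖ *
        ‖cos (Real.pi * ((t : ℂ) + h * I)) ^ 2 - cos (Real.pi * w) ^ 2‖) := by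
  filter_upwards [flat_ae h (1 / 2), flat_ae h (-v), flat_ae h v, flat_ae h (-w), flat_ae h w]
    with t h1 h2 h3 h4 h5
  have e1 : sin (Real.pi * ((t : ℂ) + h * I + 1 / 2)) = cos (Real.pi * ((t : ℂ) + h * I)) := by
    rw [mul_add, show (Real.pi : ℂ) * (1 / 2) = Real.pi / 2 by ring, sin_add_pi_div_two]
  rw [e1] at h1
  have hv := flat_sinsin ((t : ℂ) + h * I) v
  have hw := flat_sinsin ((t : ℂ) + h * I) w
  have n2 := norm_pos_iff.mpr h2
  have n3 := norm_pos_iff.mpr h3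
  have n4 := norm_pos_iff.mpr h4
  have n5 := norm_pos_iff.mpr h5
  have n1 := norm_pos_iff.mpr h1
  refine ⟨h1, ?_, ?_, ?_⟩
  · rw [← norm_pos_iff, ← hv]
    positivity
  · rw [← norm_pos_iff, ← hw]
    positivity
  · unfold flatG
    rw [flat_Lg, flat_Lg, flat_Lg, flat_Lg, flat_Lg, e1, ← hv, ← hw]
    simp only [norm_mul, norm_pow, Complex.norm_ofNat]
    rw [Real.log_mul (by norm_num) n1.ne', Real.log_mul (by norm_num) n2.ne',
      Real.log_mul (by norm_num) n3.ne', Real.log_mul (by norm_num) n4.ne',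
      Real.log_mul (by norm_num) n5.ne', Real.log_mul (by positivity) (by positivity),
      Real.log_mul n2.ne' n3.ne', Real.log_mul n4.ne' n5.ne', Real.log_pow, Real.log_pow]
    push_cast
    ring

/-- **The flat.**  The growth rate on the horizontal line through the critical point `s + i h` is
increasing on `[0, s]` and decreasing on `[s, 1/2]`. -/
theorem EE_flat {v w : ℂ} {s h : ℝ} (hs : 0 < s) (hs' : s < 1 / 2)
    (hv : cos (Real.pi * v) ≠ 0) (hw : cos (Real.pi * w) ≠ 0)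
    (hc : 1 / cos (Real.pi * ((s : ℂ) + h * I)) ^ 2 =
      1 / cos (Real.pi * v) ^ 2 + 1 / cos (Real.pi * w) ^ 2)
    (hN : 0 ≤ (1 / cos (Real.pi * v) ^ 2 + 1 / cos (Real.pi * w) ^ 2 - 1).re)
    (hC : ‖1 / cos (Real.pi * v) ^ 2 - 1 / cos (Real.pi * w) ^ 2‖ ^ 2 *
        ‖1 / cos (Real.pi * v) ^ 2 + 1 / cos (Real.pi * w) ^ 2 - 1‖ ≤
      4 * (‖1 / cos (Real.pi * v) ^ 2‖ * ‖1 / cos (Real.pi * w) ^ 2‖) *
        (1 / cos (Real.pi * v) ^ 2 + 1 / cos (Real.pi * w) ^ 2 - 1).re) :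
    (∀ a b : ℝ, 0 ≤ a → a ≤ b → b ≤ s →
      EE (.op v) (.op w) ((a : ℂ) + h * I) ≤ EE (.op v) (.op w) ((b : ℂ) + h * I)) ∧
    (∀ a b : ℝ, s ≤ a → a ≤ b → b ≤ 1 / 2 →
      EE (.op v) (.op w) ((b : ℂ) + h * I) ≤ EE (.op v) (.op w) ((a : ℂ) + h * I)) := by
  constructor
  · intro a b ha hab hb
    have h0 : 0 ≤ ∫ t in a..b, flatG v w h t := by
      apply intervalIntegral.integral_nonneg_of_ae_restrict hab
      rw [Filter.EventuallyLE, ae_restrict_iff' measurableSet_Icc]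
      filter_upwards [flatG_ae v w h] with t ht hI
      obtain ⟨h1, h2, h3, h4⟩ := ht
      rw [h4, Pi.zero_apply, sub_nonneg]
      have := (flat_L hs hs' (ha.trans hI.1) ((hI.2.trans hb).trans hs'.le) hv hw hc hN hC).1
        (hI.2.trans hb)
      exact Real.log_le_log (mul_pos (norm_pos_iff.mpr h2) (norm_pos_iff.mpr h3)) this
    rw [← EE_sub_eq] at h0
    linarith
  · intro a b ha hab hb
    have h0 : 0 ≤ ∫ t in a..b, -flatG v w h t := by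
      apply intervalIntegral.integral_nonneg_of_ae_restrict hab
      rw [Filter.EventuallyLE, ae_restrict_iff' measurableSet_Icc]
      filter_upwards [flatG_ae v w h] with t ht hI
      obtain ⟨h1, h2, h3, h4⟩ := ht
      rw [h4, Pi.zero_apply, neg_sub, sub_nonneg]
      have := (flat_L hs hs' ((hs.le.trans ha).trans hI.1) (hI.2.trans hb) hv hw hc hN hC).2
        (ha.trans hI.1)
      have h5 := norm_pos_iff.mpr h1
      have h6 : 0 < ‖cos (Real.pi * ((t : ℂ) + h * I)) ^ 2‖ := by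
        rw [norm_pow]
        positivity
      exact Real.log_le_log (by positivity) this
    rw [intervalIntegral.integral_neg, ← EE_sub_eq] at h0
    linarith

/-- The growth rate on the flat is at most its value at the critical point. -/
theorem EE_flat_le {v w : ℂ} {s h t : ℝ} (hs : 0 < s) (hs' : s < 1 / 2) (ht : 0 ≤ t)
    (ht' : t ≤ 1 / 2) (hv : cos (Real.pi * v) ≠ 0) (hw : cos (Real.pi * w) ≠ 0)
    (hc : 1 / cos (Real.pi * ((s : ℂ) + h * I)) ^ 2 =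
      1 / cos (Real.pi * v) ^ 2 + 1 / cos (Real.pi * w) ^ 2)
    (hN : 0 ≤ (1 / cos (Real.pi * v) ^ 2 + 1 / cos (Real.pi * w) ^ 2 - 1).re)
    (hC : ‖1 / cos (Real.pi * v) ^ 2 - 1 / cos (Real.pi * w) ^ 2‖ ^ 2 *
        ‖1 / cos (Real.pi * v) ^ 2 + 1 / cos (Real.pi * w) ^ 2 - 1‖ ≤
      4 * (‖1 / cos (Real.pi * v) ^ 2‖ * ‖1 / cos (Real.pi * w) ^ 2‖) *
        (1 / cos (Real.pi * v) ^ 2 + 1 / cos (Real.pi * w) ^ 2 - 1).re) :
    EE (.op v) (.op w) ((t : ℂ) + h * I) ≤ EE (.op v) (.op w) ((s : ℂ) + h * I) := by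
  obtain ⟨h1, h2⟩ := EE_flat hs hs' hv hw hc hN hC
  rcases le_total t s with h3 | h3
  · exact h1 t s ht h3 le_rfl
  · exact h2 s t le_rfl h3 ht'

end Pool.Agent.S3
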