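import Pool.Agent.S3.Pot
import Pool.Agent.S3.Line

/-! # The potential of the chain: gradient and second derivative at the critical point -/

namespace Pool.Agent.S3

open Pool.Agent.H63.VC hiding ext
open Pool.Agent.H63.VC3 Pool.Agent.H63.VC4 Pool.Agent.H63.VC6 Pool.Agent.H63.VC7 Complex
open Pool.Agent.H25.RK Pool.Agent.H63.GO Filter Topology
open scoped BigOperators

variable {m : ℕ}

/-- Everything that is fixed: twists `r`, open vertices `Op`, signs `s` of the closed ends, heights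
`θ` and abscissae `xc` of the critical point, the edge variables `yc` and the shares `β j i`. -/
structure Cfg (m : ℕ) where
  r : Fin (m + 1) → ℝ
  Op : Finset (Fin (m + 1))
  s : Fin (m + 1) → ℤ
  θ : Fin (m + 1) → ℝ
  xc : Fin (m + 1) → ℝ
  yc : Fin m → ℂ
  β : Fin m → Fin (m + 1) → ℝ

namespace Cfg

variable (C : Cfg m)

/-- The critical point of a vertex. -/
noncomputable def uc (i : Fin (m + 1)) : ℂ := ul (C.θ i) (C.xc i)

/-- The critical point of a vertex. -/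
noncomputable def vc (i : Fin (m + 1)) : ℂ := gdv (C.uc i)

/-- The slot of a vertex at the critical point. -/
noncomputable def slc (i : Fin (m + 1)) : Sl := if i ∈ C.Op then .op (C.vc i) else .cl (C.s i)

/-- The second derivative of an edge with respect to `y`. -/
noncomputable def A (j : Fin m) : ℂ :=
  eyy (C.yc j) (C.slc j.castSucc) + eyy (C.yc j) (C.slc j.succ)

/-- The mixed second derivative. -/
noncomputable def b (j : Fin m) (i : Fin (m + 1)) : ℂ := eyv (C.yc j) (C.vc i) * dgv (C.uc i)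

/-- The second derivative with respect to the vertex variable, with the share `β`. -/
noncomputable def c (j : Fin m) (i : Fin (m + 1)) : ℂ :=
  (evv (C.yc j) (C.vc i) + I * C.β j i) * dgv (C.uc i) ^ 2

/-- The slope of the critical point in `y`. -/
noncomputable def L (j : Fin m) (i : Fin (m + 1)) : ℂ := -C.b j i / C.A j

/-- The vertex coordinate. -/
noncomputable def uz (z : C.Op ⊕ Fin m → ℂ) (i : Fin (m + 1)) : ℂ :=
  if h : i ∈ C.Op then z (Sum.inl ⟨i, h⟩) else C.uc i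

/-- The slot. -/
noncomputable def slz (z : C.Op ⊕ Fin m → ℂ) (i : Fin (m + 1)) : Sl :=
  if i ∈ C.Op then .op (gdv (C.uz z i)) else .cl (C.s i)

/-- The edge variable. -/
noncomputable def Yz (z : C.Op ⊕ Fin m → ℂ) (j : Fin m) : ℂ :=
  C.yc j + C.L j j.castSucc * (C.uz z j.castSucc - C.uc j.castSucc) +
    C.L j j.succ * (C.uz z j.succ - C.uc j.succ) + z (Sum.inr j)

/-- The potential. -/
noncomputable def V (z : C.Op ⊕ Fin m → ℂ) : ℂ :=
  (∑ i : C.Op, wr (C.r i) (gdv (z (Sum.inl i)))) +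
    ∑ j, (sP (C.Yz z j) (C.slz z j.castSucc) + sP (C.Yz z j) (C.slz z j.succ))

/-- The domain of the potential. -/
def U : Set (C.Op ⊕ Fin m → ℂ) :=
  {z | (∀ i : C.Op, 0 < (z (Sum.inl i)).im ∧ (z (Sum.inl i)).im < Real.pi / 2) ∧
    ∀ j, sdom (C.Yz z j) (C.slz z j.castSucc) ∧ sdom (C.Yz z j) (C.slz z j.succ)}

/-- The critical point. -/
noncomputable def ac : C.Op ⊕ Fin m → ℝ := Sum.elim (fun i => C.xc i) (fun _ => 0)

/-- The heights of the contours. -/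
noncomputable def bc : C.Op ⊕ Fin m → ℝ := Sum.elim (fun i => C.θ i) (fun _ => 0)

/-- The form of an edge. -/
noncomputable def qf (j : Fin m) (a b : ℝ) : ℂ :=
  C.c j j.castSucc * a ^ 2 + C.c j j.succ * b ^ 2 -
    (C.b j j.castSucc * a + C.b j j.succ * b) ^ 2 / C.A j

/-- The equations and inequalities of the critical point. -/
structure Crit : Prop where
  hm : 1 ≤ m
  th0 : ∀ i ∈ C.Op, 0 < C.θ i
  th1 : ∀ i ∈ C.Op, C.θ i < Real.pi / 2
  dom : ∀ j, sdom (C.yc j) (C.slc j.castSucc) ∧ sdom (C.yc j) (C.slc j.succ)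
  hy : ∀ j, ey (C.yc j) (C.slc j.castSucc) + ey (C.yc j) (C.slc j.succ) = 0
  hv : ∀ i ∈ C.Op, 2 * Real.pi * I * (2 * C.r i * C.vc i + 1) +
    ∑ j ∈ inc (Fin.castSucc (n := m)) Fin.succ i, ev (C.yc j) (C.vc i) = 0
  hβ : ∀ i ∈ C.Op, ∑ j ∈ inc (Fin.castSucc (n := m)) Fin.succ i, C.β j i = 4 * Real.pi * C.r i
  hA : ∀ j, (C.A j).re < 0
  hD : ∀ j, ∀ a b : ℝ, (j.castSucc ∉ C.Op → a = 0) → (j.succ ∉ C.Op → b = 0) →
    (a ≠ 0 ∨ b ≠ 0) → (C.qf j a b).re < 0

variable {C}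

/-! ### Helper lemmas -/

/-- The direction at a vertex (zero for a closed end). -/
noncomputable def Hess_X (C : Cfg m) (ξ : C.Op ⊕ Fin m → ℂ) (i : Fin (m + 1)) : ℂ :=
  if h : i ∈ C.Op then ξ (Sum.inl ⟨i, h⟩) else 0

/-- The direction of an edge variable. -/
noncomputable def Hess_Y (C : Cfg m) (ξ : C.Op ⊕ Fin m → ℂ) (j : Fin m) : ℂ :=
  C.L j j.castSucc * Hess_X C ξ j.castSucc + C.L j j.succ * Hess_X C ξ j.succ + ξ (Sum.inr j)

theorem Hess_X_closed {ξ : C.Op ⊕ Fin m → ℂ} {i : Fin (m + 1)} (h : i ∉ C.Op) :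
    Hess_X C ξ i = 0 := by
  unfold Hess_X
  rw [dif_neg h]

theorem Hess_pt_inl (C : Cfg m) (ξ : C.Op ⊕ Fin m → ℂ) (t : ℂ) (i : C.Op) :
    (cp C.ac C.bc + t • ξ) (Sum.inl i) = C.uc i + t * Hess_X C ξ i := by
  have h1 : Hess_X C ξ i = ξ (Sum.inl i) := by
    unfold Hess_X
    rw [dif_pos i.2]
  rw [h1]
  simp [cp, ac, bc, uc, ul]

theorem Hess_uz (C : Cfg m) (ξ : C.Op ⊕ Fin m → ℂ) (t : ℂ) (i : Fin (m + 1)) :
    C.uz (cp C.ac C.bc + t • ξ) i = C.uc i + t * Hess_X C ξ i := by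
  unfold uz
  by_cases h : i ∈ C.Op
  · rw [dif_pos h]
    exact Hess_pt_inl C ξ t ⟨i, h⟩
  · rw [dif_neg h, Hess_X_closed h, mul_zero, add_zero]

theorem Hess_Yz (C : Cfg m) (ξ : C.Op ⊕ Fin m → ℂ) (t : ℂ) (j : Fin m) :
    C.Yz (cp C.ac C.bc + t • ξ) j = C.yc j + t * Hess_Y C ξ j := by
  have h1 : (cp C.ac C.bc + t • ξ) (Sum.inr j) = t * ξ (Sum.inr j) := by
    simp [cp, ac, bc]
  unfold Yz Hess_Y
  rw [Hess_uz, Hess_uz, h1]
  ring

theorem Hess_slz (C : Cfg m) (ξ : C.Op ⊕ Fin m → ℂ) (t : ℂ) (i : Fin (m + 1)) :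
    C.slz (cp C.ac C.bc + t • ξ) i =
      if i ∈ C.Op then .op (gdv (C.uc i + t * Hess_X C ξ i)) else .cl (C.s i) := by
  unfold slz
  rw [Hess_uz]

theorem Hess_zero (C : Cfg m) (ξ : C.Op ⊕ Fin m → ℂ) :
    cp C.ac C.bc + (0 : ℂ) • ξ = cp C.ac C.bc := by
  rw [zero_smul, add_zero]

theorem Hess_uz0 (C : Cfg m) (i : Fin (m + 1)) : C.uz (cp C.ac C.bc) i = C.uc i := by
  have := Hess_uz C 0 0 i
  rw [Hess_zero, zero_mul, add_zero] at this
  exact this

theorem Hess_Yz0 (C : Cfg m) (j : Fin m) : C.Yz (cp C.ac C.bc) j = C.yc j := by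
  have := Hess_Yz C 0 0 j
  rw [Hess_zero, zero_mul, add_zero] at this
  exact this

theorem Hess_slz0 (C : Cfg m) (i : Fin (m + 1)) : C.slz (cp C.ac C.bc) i = C.slc i := by
  unfold slz slc vc
  rw [Hess_uz0]

/-! ### Continuity and analyticity -/

theorem Hess_uz_an (C : Cfg m) (i : Fin (m + 1)) (z : C.Op ⊕ Fin m → ℂ) :
    AnalyticAt ℂ (fun z => C.uz z i) z := by
  unfold uz
  by_cases h : i ∈ C.Op
  · simp only [h, dif_pos]
    exact (ContinuousLinearMap.proj (R := ℂ) (φ := fun _ : C.Op ⊕ Fin m => ℂ)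
      (Sum.inl ⟨i, h⟩)).analyticAt z
  · simp only [h, dif_neg, not_false_eq_true]
    exact analyticAt_const

theorem Hess_Yz_an (C : Cfg m) (j : Fin m) (z : C.Op ⊕ Fin m → ℂ) :
    AnalyticAt ℂ (fun z => C.Yz z j) z := by
  unfold Yz
  have h1 := Hess_uz_an C j.castSucc z
  have h2 := Hess_uz_an C j.succ z
  have h3 : AnalyticAt ℂ (fun z : C.Op ⊕ Fin m → ℂ => z (Sum.inr j)) z :=
    (ContinuousLinearMap.proj (R := ℂ) (φ := fun _ : C.Op ⊕ Fin m => ℂ)
      (Sum.inr j)).analyticAt z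
  exact (((analyticAt_const.fun_add (analyticAt_const.fun_mul (h1.fun_sub analyticAt_const))).fun_add
    (analyticAt_const.fun_mul (h2.fun_sub analyticAt_const))).fun_add h3)

theorem Hess_gdv_an {u : ℂ} (h : |u.im| < Real.pi / 2) : AnalyticAt ℂ gdv u := by
  have ho : IsOpen {u : ℂ | |u.im| < Real.pi / 2} :=
    isOpen_lt (by fun_prop) continuous_const
  have hd : DifferentiableOn ℂ gdv {u : ℂ | |u.im| < Real.pi / 2} := fun w hw =>
    (gdv_hasDerivAt hw).differentiableAt.differentiableWithinAt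
  exact hd.analyticAt (ho.mem_nhds h)

theorem Hess_im {z : C.Op ⊕ Fin m → ℂ} (hz : z ∈ C.U) {i : Fin (m + 1)} (hi : i ∈ C.Op) :
    |(C.uz z i).im| < Real.pi / 2 := by
  have h1 := hz.1 ⟨i, hi⟩
  unfold uz
  rw [dif_pos hi]
  exact abs_im_lt h1.1 h1.2

theorem Hess_gz_an {z : C.Op ⊕ Fin m → ℂ} (hz : z ∈ C.U) {i : Fin (m + 1)} (hi : i ∈ C.Op) :
    AnalyticAt ℂ (fun z => gdv (C.uz z i)) z :=
  AnalyticAt.fun_comp (g := gdv) (f := fun z => C.uz z i) (Hess_gdv_an (Hess_im hz hi))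
    (Hess_uz_an C i z)

theorem Hess_fdom_near {X : Type*} [TopologicalSpace X] {f : X → ℂ} {x : X}
    (hf : ContinuousAt f x) (h : fdom (f x)) : ∀ᶠ w in 𝓝 x, fdom (f w) :=
  hf.eventually (fdom_open.mem_nhds h)

theorem Hess_sdom_near {z : C.Op ⊕ Fin m → ℂ} (hz : z ∈ C.U) (j : Fin m) (i : Fin (m + 1))
    (h : sdom (C.Yz z j) (C.slz z i)) : ∀ᶠ w in 𝓝 z, sdom (C.Yz w j) (C.slz w i) := by
  have hY : ContinuousAt (fun z => C.Yz z j) z := (Hess_Yz_an C j z).continuousAt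
  have hre : ContinuousAt (fun z => (C.Yz z j).re) z := Complex.continuous_re.continuousAt.comp hY
  by_cases hi : i ∈ C.Op
  · have hs : ∀ w, C.slz w i = .op (gdv (C.uz w i)) := fun w => by
      unfold slz
      rw [if_pos hi]
    simp only [hs] at h ⊢
    have hg : ContinuousAt (fun z => gdv (C.uz z i)) z := (Hess_gz_an hz hi).continuousAt
    obtain ⟨h1, h2, h3, h4⟩ := h
    filter_upwards [continuousAt_const.eventually_lt hre h1,
      hre.eventually_lt continuousAt_const h2,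
      Hess_fdom_near (hY.sub hg) h3, Hess_fdom_near (hY.add hg) h4] with w a1 a2 a3 a4
    exact ⟨a1, a2, a3, a4⟩
  · have hs : ∀ w, C.slz w i = .cl (C.s i) := fun w => by
      unfold slz
      rw [if_neg hi]
    simp only [hs] at h ⊢
    obtain ⟨h1, h2⟩ := h
    filter_upwards [continuousAt_const.eventually_lt hre h1,
      hre.eventually_lt continuousAt_const h2] with w a1 a2
    exact ⟨a1, a2⟩

theorem U_open : IsOpen C.U := by
  rw [isOpen_iff_mem_nhds]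
  intro z hz
  have h1 : ∀ᶠ w in 𝓝 z, ∀ i : C.Op, 0 < (w (Sum.inl i)).im ∧ (w (Sum.inl i)).im < Real.pi / 2 := by
    rw [Filter.eventually_all]
    intro i
    have hc : ContinuousAt (fun w : C.Op ⊕ Fin m → ℂ => (w (Sum.inl i)).im) z :=
      (Complex.continuous_im.comp (continuous_apply _)).continuousAt
    exact (continuousAt_const.eventually_lt hc (hz.1 i).1).and
      (hc.eventually_lt continuousAt_const (hz.1 i).2)
  have h2 : ∀ᶠ w in 𝓝 z, ∀ j, sdom (C.Yz w j) (C.slz w j.castSucc) ∧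
      sdom (C.Yz w j) (C.slz w j.succ) := by
    rw [Filter.eventually_all]
    intro j
    exact (Hess_sdom_near hz j _ (hz.2 j).1).and (Hess_sdom_near hz j _ (hz.2 j).2)
  filter_upwards [h1, h2] with w a1 a2
  exact ⟨a1, a2⟩

theorem Hess_sP_an {z : C.Op ⊕ Fin m → ℂ} (hz : z ∈ C.U) (j : Fin m) (i : Fin (m + 1))
    (h : sdom (C.Yz z j) (C.slz z i)) : AnalyticAt ℂ (fun z => sP (C.Yz z j) (C.slz z i)) z := by
  by_cases hi : i ∈ C.Op
  · have hs : ∀ w, C.slz w i = .op (gdv (C.uz w i)) := fun w => by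
      unfold slz
      rw [if_pos hi]
    simp only [hs] at h ⊢
    exact AnalyticAt.fun_comp (g := fun p : ℂ × ℂ => sP p.1 (.op p.2))
      (f := fun z => (C.Yz z j, gdv (C.uz z i))) (sP_an_op h)
      ((Hess_Yz_an C j z).prod (Hess_gz_an hz hi))
  · have hs : ∀ w, C.slz w i = .cl (C.s i) := fun w => by
      unfold slz
      rw [if_neg hi]
    simp only [hs] at h ⊢
    exact AnalyticAt.fun_comp (g := fun y : ℂ => sP y (.cl (C.s i))) (f := fun z => C.Yz z j)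
      (sP_an_cl (C.s i) h) (Hess_Yz_an C j z)

theorem V_an : AnalyticOnNhd ℂ C.V C.U := by
  intro z hz
  have h1 : AnalyticAt ℂ (fun z : C.Op ⊕ Fin m → ℂ =>
      ∑ i : C.Op, wr (C.r i) (gdv (z (Sum.inl i)))) z := by
    refine Finset.univ.analyticAt_fun_sum fun i _ => ?_
    have hg : AnalyticAt ℂ (fun z : C.Op ⊕ Fin m → ℂ => gdv (z (Sum.inl i))) z := by
      have := Hess_gz_an hz i.2
      refine this.congr ?_
      filter_upwards with w
      unfold uz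
      rw [dif_pos i.2]
    unfold wr
    exact analyticAt_const.fun_mul ((analyticAt_const.fun_mul (hg.fun_pow 2)).fun_add hg)
  have h2 : AnalyticAt ℂ (fun z : C.Op ⊕ Fin m → ℂ =>
      ∑ j, (sP (C.Yz z j) (C.slz z j.castSucc) + sP (C.Yz z j) (C.slz z j.succ))) z := by
    refine Finset.univ.analyticAt_fun_sum fun j _ => ?_
    exact (Hess_sP_an hz j _ (hz.2 j).1).fun_add (Hess_sP_an hz j _ (hz.2 j).2)
  exact h1.fun_add h2

theorem zc_mem (h : C.Crit) : cp C.ac C.bc ∈ C.U := by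
  refine ⟨fun i => ?_, fun j => ?_⟩
  · have e : (cp C.ac C.bc) (Sum.inl i) = ul (C.θ i) (C.xc i) := by
      simp [cp, ac, bc, ul]
    rw [e, ul_im]
    exact ⟨h.th0 i i.2, h.th1 i i.2⟩
  · rw [Hess_Yz0, Hess_slz0, Hess_slz0]
    exact h.dom j

/-! ### Derivatives along a line -/

/-- First derivative of the slot `i` of the edge `j`. -/
noncomputable def Hess_d1 (C : Cfg m) (ξ : C.Op ⊕ Fin m → ℂ) (j : Fin m) (i : Fin (m + 1))
    (t : ℂ) : ℂ :=
  if i ∈ C.Op then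
    ey (C.yc j + t * Hess_Y C ξ j) (.op (gdv (C.uc i + t * Hess_X C ξ i))) * Hess_Y C ξ j +
      ev (C.yc j + t * Hess_Y C ξ j) (gdv (C.uc i + t * Hess_X C ξ i)) *
        (dgv (C.uc i + t * Hess_X C ξ i) * Hess_X C ξ i)
  else ey (C.yc j + t * Hess_Y C ξ j) (.cl (C.s i)) * Hess_Y C ξ j

theorem Hess_slot1 {ξ : C.Op ⊕ Fin m → ℂ} {t : ℂ} (hz : cp C.ac C.bc + t • ξ ∈ C.U) (j : Fin m)
    (i : Fin (m + 1))
    (h : sdom (C.Yz (cp C.ac C.bc + t • ξ) j) (C.slz (cp C.ac C.bc + t • ξ) i)) :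
    HasDerivAt (fun t : ℂ => sP (C.Yz (cp C.ac C.bc + t • ξ) j) (C.slz (cp C.ac C.bc + t • ξ) i))
      (Hess_d1 C ξ j i t) t := by
  by_cases hi : i ∈ C.Op
  · have him := Hess_im hz hi
    simp only [Hess_uz, Hess_Yz, Hess_slz, hi, if_true] at h him ⊢
    unfold Hess_d1
    rw [if_pos hi]
    exact sP_line1 him h
  · simp only [Hess_Yz, Hess_slz, hi, if_false] at h ⊢
    unfold Hess_d1
    rw [if_neg hi]
    exact sP_line1c (C.s i) h

/-- First derivative of a vertex term. -/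
noncomputable def Hess_w1 (C : Cfg m) (ξ : C.Op ⊕ Fin m → ℂ) (i : Fin (m + 1)) (t : ℂ) : ℂ :=
  2 * Real.pi * I * (2 * C.r i * gdv (C.uc i + t * Hess_X C ξ i) + 1) *
    (dgv (C.uc i + t * Hess_X C ξ i) * Hess_X C ξ i)

/-- First derivative of the potential. -/
noncomputable def Hess_V1 (C : Cfg m) (ξ : C.Op ⊕ Fin m → ℂ) (t : ℂ) : ℂ :=
  (∑ i : C.Op, Hess_w1 C ξ i t) + ∑ j, (Hess_d1 C ξ j j.castSucc t + Hess_d1 C ξ j j.succ t)

theorem Hess_line {ξ : C.Op ⊕ Fin m → ℂ} {t : ℂ} (hz : cp C.ac C.bc + t • ξ ∈ C.U) :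
    HasDerivAt (fun t : ℂ => C.V (cp C.ac C.bc + t • ξ)) (Hess_V1 C ξ t) t := by
  unfold V Hess_V1
  refine HasDerivAt.fun_add ?_ ?_
  · refine HasDerivAt.fun_sum fun i _ => ?_
    have him := Hess_im hz i.2
    simp only [Hess_pt_inl, Hess_uz] at him ⊢
    exact wr_line1 him
  · refine HasDerivAt.fun_sum fun j _ => ?_
    exact (Hess_slot1 hz j _ (hz.2 j).1).fun_add (Hess_slot1 hz j _ (hz.2 j).2)

theorem Hess_st (j : Fin m) : (Fin.castSucc (n := m)) j ≠ Fin.succ j :=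
  (Fin.castSucc_lt_succ (i := j)).ne

theorem Hess_sum_op (f : Fin (m + 1) → ℂ) (hf : ∀ i ∉ C.Op, f i = 0) :
    ∑ i : C.Op, f i = ∑ i, f i := by
  rw [Finset.sum_coe_sort C.Op f]
  exact Finset.sum_subset (Finset.subset_univ _) fun i _ hi => hf i hi

theorem V_grad (h : C.Crit) (ξ : C.Op ⊕ Fin m → ℂ) : fderiv ℂ C.V (cp C.ac C.bc) ξ = 0 := by
  have hz := zc_mem h
  have hz' : cp C.ac C.bc + (0 : ℂ) • ξ ∈ C.U := by
    rw [Hess_zero]
    exact hz
  rw [fd_line (V_an _ hz) ξ (Hess_line hz')]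
  have hd : ∀ j i, Hess_d1 C ξ j i 0 = ey (C.yc j) (C.slc i) * Hess_Y C ξ j +
      ev (C.yc j) (C.vc i) * (dgv (C.uc i) * Hess_X C ξ i) := by
    intro j i
    unfold Hess_d1 slc vc
    by_cases hi : i ∈ C.Op
    · simp only [hi, if_true, zero_mul, add_zero]
    · rw [Hess_X_closed hi]
      simp only [hi, if_false, zero_mul, mul_zero, add_zero]
  have hw : ∀ i, Hess_w1 C ξ i 0 =
      2 * Real.pi * I * (2 * C.r i * C.vc i + 1) * (dgv (C.uc i) * Hess_X C ξ i) := by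
    intro i
    unfold Hess_w1 vc
    simp only [zero_mul, add_zero]
  unfold Hess_V1
  simp only [hd, hw]
  rw [Hess_sum_op (C := C) (fun i => 2 * Real.pi * I * (2 * C.r i * C.vc i + 1) *
    (dgv (C.uc i) * Hess_X C ξ i)) (fun i hi => by rw [Hess_X_closed hi]; ring)]
  have e1 : ∀ j, ey (C.yc j) (C.slc j.castSucc) * Hess_Y C ξ j +
      ev (C.yc j) (C.vc j.castSucc) * (dgv (C.uc j.castSucc) * Hess_X C ξ j.castSucc) +
      (ey (C.yc j) (C.slc j.succ) * Hess_Y C ξ j +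
        ev (C.yc j) (C.vc j.succ) * (dgv (C.uc j.succ) * Hess_X C ξ j.succ)) =
      ev (C.yc j) (C.vc j.castSucc) * (dgv (C.uc j.castSucc) * Hess_X C ξ j.castSucc) +
        ev (C.yc j) (C.vc j.succ) * (dgv (C.uc j.succ) * Hess_X C ξ j.succ) := by
    intro j
    linear_combination Hess_Y C ξ j * h.hy j
  simp only [e1]
  rw [← sum_inc (Fin.castSucc (n := m)) Fin.succ Hess_st
    (fun i j => ev (C.yc j) (C.vc i) * (dgv (C.uc i) * Hess_X C ξ i)), ← Finset.sum_add_distrib]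
  refine Finset.sum_eq_zero fun i _ => ?_
  by_cases hi : i ∈ C.Op
  · rw [← Finset.sum_mul, ← add_mul, h.hv i hi, zero_mul]
  · rw [Hess_X_closed hi]
    simp

/-- Second derivative of the slot `i` of the edge `j` at the critical point. -/
noncomputable def Hess_d2 (C : Cfg m) (ξ : C.Op ⊕ Fin m → ℂ) (j : Fin m) (i : Fin (m + 1)) : ℂ :=
  eyy (C.yc j) (C.slc i) * Hess_Y C ξ j ^ 2 +
    2 * eyv (C.yc j) (C.vc i) * (dgv (C.uc i) * Hess_X C ξ i) * Hess_Y C ξ j +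
    evv (C.yc j) (C.vc i) * (dgv (C.uc i) * Hess_X C ξ i) ^ 2 -
    ev (C.yc j) (C.vc i) * (sinh (C.uc i) / cosh (C.uc i) * dgv (C.uc i) * Hess_X C ξ i ^ 2)

theorem Hess_slot2 (h : C.Crit) (ξ : C.Op ⊕ Fin m → ℂ) (j : Fin m) (i : Fin (m + 1))
    (hs : sdom (C.yc j) (C.slc i)) :
    HasDerivAt (fun t : ℂ => Hess_d1 C ξ j i t) (Hess_d2 C ξ j i) 0 := by
  by_cases hi : i ∈ C.Op
  · have him : |(C.uc i).im| < Real.pi / 2 := by
      have := Hess_im (zc_mem h) hi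
      rwa [Hess_uz0] at this
    have e : C.slc i = .op (gdv (C.uc i)) := by
      unfold slc vc
      rw [if_pos hi]
    rw [e] at hs
    unfold Hess_d1 Hess_d2
    simp only [hi, if_true, e]
    unfold vc
    exact sP_line2 him hs
  · have e : C.slc i = .cl (C.s i) := by
      unfold slc
      rw [if_neg hi]
    rw [e] at hs
    unfold Hess_d1 Hess_d2
    simp only [hi, if_false, e]
    rw [Hess_X_closed hi]
    have := sP_line2c (Y := Hess_Y C ξ j) (C.s i) hs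
    simpa using this

/-- Second derivative of a vertex term at the critical point. -/
noncomputable def Hess_w2 (C : Cfg m) (ξ : C.Op ⊕ Fin m → ℂ) (i : Fin (m + 1)) : ℂ :=
  4 * Real.pi * I * C.r i * (dgv (C.uc i) * Hess_X C ξ i) ^ 2 -
    2 * Real.pi * I * (2 * C.r i * C.vc i + 1) *
      (sinh (C.uc i) / cosh (C.uc i) * dgv (C.uc i) * Hess_X C ξ i ^ 2)

theorem Hess_V2 (h : C.Crit) (ξ : C.Op ⊕ Fin m → ℂ) :
    HasDerivAt (Hess_V1 C ξ) ((∑ i : C.Op, Hess_w2 C ξ i) +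
      ∑ j, (Hess_d2 C ξ j j.castSucc + Hess_d2 C ξ j j.succ)) 0 := by
  unfold Hess_V1
  refine HasDerivAt.fun_add ?_ ?_
  · refine HasDerivAt.fun_sum fun i _ => ?_
    have him : |(C.uc i).im| < Real.pi / 2 := by
      have := Hess_im (zc_mem h) i.2
      rwa [Hess_uz0] at this
    unfold Hess_w1 Hess_w2 vc
    exact wr_line2 him
  · refine HasDerivAt.fun_sum fun j _ => ?_
    exact (Hess_slot2 h ξ j _ (h.dom j).1).fun_add (Hess_slot2 h ξ j _ (h.dom j).2)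

theorem Hess_X_rc (C : Cfg m) (ξ : C.Op ⊕ Fin m → ℝ) (i : Fin (m + 1)) :
    Hess_X C (rc ξ) i = ((if hi : i ∈ C.Op then ξ (Sum.inl ⟨i, hi⟩) else 0 : ℝ) : ℂ) := by
  unfold Hess_X rc
  by_cases hi : i ∈ C.Op
  · rw [dif_pos hi, dif_pos hi]
  · rw [dif_neg hi, dif_neg hi, ofReal_zero]

/-- The second derivative splits into the contributions of the edges. -/
theorem V_D2 (h : C.Crit) (ξ : C.Op ⊕ Fin m → ℝ) :
    D2 C.V (cp C.ac C.bc) (rc ξ) = ∑ j, (C.A j * ξ (Sum.inr j) ^ 2 +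
      C.qf j (if hi : j.castSucc ∈ C.Op then ξ (Sum.inl ⟨_, hi⟩) else 0)
        (if hi : j.succ ∈ C.Op then ξ (Sum.inl ⟨_, hi⟩) else 0)) := by
  have hz := zc_mem h
  have hcont : Continuous fun t : ℂ => cp C.ac C.bc + t • rc ξ := by fun_prop
  have hev : ∀ᶠ t in 𝓝 (0 : ℂ), cp C.ac C.bc + t • rc ξ ∈ C.U := by
    refine hcont.continuousAt.eventually (U_open.mem_nhds ?_)
    change cp C.ac C.bc + (0 : ℂ) • rc ξ ∈ C.U
    rw [Hess_zero]
    exact hz
  rw [D2_line (V_an _ hz) (rc ξ) (hev.mono fun t ht => Hess_line ht) (Hess_V2 h (rc ξ))]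
  rw [Hess_sum_op (C := C) (fun i => Hess_w2 C (rc ξ) i) (fun i hi => by
    unfold Hess_w2
    rw [Hess_X_closed hi]
    ring)]
  have hw : ∀ i, Hess_w2 C (rc ξ) i = ∑ j ∈ inc (Fin.castSucc (n := m)) Fin.succ i,
      (I * C.β j i * (dgv (C.uc i) * Hess_X C (rc ξ) i) ^ 2 +
        ev (C.yc j) (C.vc i) *
          (sinh (C.uc i) / cosh (C.uc i) * dgv (C.uc i) * Hess_X C (rc ξ) i ^ 2)) := by
    intro i
    by_cases hi : i ∈ C.Op
    · rw [Finset.sum_add_distrib, ← Finset.sum_mul, ← Finset.sum_mul, ← Finset.mul_sum]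
      have h1 : (∑ j ∈ inc (Fin.castSucc (n := m)) Fin.succ i, (C.β j i : ℂ)) =
          4 * Real.pi * C.r i := by
        have := h.hβ i hi
        rw [← ofReal_sum, this]
        push_cast
        ring
      have h2 := h.hv i hi
      rw [h1]
      unfold Hess_w2
      linear_combination (-(sinh (C.uc i) / cosh (C.uc i) * dgv (C.uc i) *
        Hess_X C (rc ξ) i ^ 2)) * h2
    · unfold Hess_w2
      rw [Hess_X_closed hi]
      simp
  rw [Finset.sum_congr rfl fun i _ => hw i,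
    sum_inc (Fin.castSucc (n := m)) Fin.succ Hess_st
      (fun i j => I * C.β j i * (dgv (C.uc i) * Hess_X C (rc ξ) i) ^ 2 +
        ev (C.yc j) (C.vc i) *
          (sinh (C.uc i) / cosh (C.uc i) * dgv (C.uc i) * Hess_X C (rc ξ) i ^ 2)),
    ← Finset.sum_add_distrib]
  refine Finset.sum_congr rfl fun j _ => ?_
  have hA : C.A j ≠ 0 := by
    intro h0
    have := h.hA j
    rw [h0, zero_re] at this
    exact lt_irrefl _ this
  have hXc := Hess_X_rc C ξ j.castSucc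
  have hXs := Hess_X_rc C ξ j.succ
  unfold qf
  rw [← hXc, ← hXs]
  have hY : Hess_Y C (rc ξ) j = -(C.b j j.castSucc * Hess_X C (rc ξ) j.castSucc +
      C.b j j.succ * Hess_X C (rc ξ) j.succ) / C.A j + (ξ (Sum.inr j) : ℂ) := by
    unfold Hess_Y L
    have : (rc ξ) (Sum.inr j) = (ξ (Sum.inr j) : ℂ) := rfl
    rw [this]
    ring
  have hAY : C.A j * Hess_Y C (rc ξ) j = -(C.b j j.castSucc * Hess_X C (rc ξ) j.castSucc +
      C.b j j.succ * Hess_X C (rc ξ) j.succ) + C.A j * (ξ (Sum.inr j) : ℂ) := by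
    rw [hY]
    field_simp
  obtain ⟨B, hB⟩ : ∃ B, B = C.b j j.castSucc * Hess_X C (rc ξ) j.castSucc +
      C.b j j.succ * Hess_X C (rc ξ) j.succ := ⟨_, rfl⟩
  have e1 : Hess_d2 C (rc ξ) j j.castSucc + Hess_d2 C (rc ξ) j j.succ +
      (I * C.β j j.castSucc * (dgv (C.uc j.castSucc) * Hess_X C (rc ξ) j.castSucc) ^ 2 +
        ev (C.yc j) (C.vc j.castSucc) * (sinh (C.uc j.castSucc) / cosh (C.uc j.castSucc) *
          dgv (C.uc j.castSucc) * Hess_X C (rc ξ) j.castSucc ^ 2) +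
      (I * C.β j j.succ * (dgv (C.uc j.succ) * Hess_X C (rc ξ) j.succ) ^ 2 +
        ev (C.yc j) (C.vc j.succ) * (sinh (C.uc j.succ) / cosh (C.uc j.succ) *
          dgv (C.uc j.succ) * Hess_X C (rc ξ) j.succ ^ 2))) =
      C.A j * Hess_Y C (rc ξ) j ^ 2 + 2 * B * Hess_Y C (rc ξ) j +
        (C.c j j.castSucc * Hess_X C (rc ξ) j.castSucc ^ 2 +
          C.c j j.succ * Hess_X C (rc ξ) j.succ ^ 2) := by
    rw [hB]
    unfold Hess_d2 A b c
    ring
  rw [add_comm, e1, ← hB]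
  rw [← hB] at hAY hY
  have e2 : C.A j * Hess_Y C (rc ξ) j ^ 2 + 2 * B * Hess_Y C (rc ξ) j =
      C.A j * (ξ (Sum.inr j) : ℂ) ^ 2 - B ^ 2 / C.A j := by
    rw [hY]
    field_simp
    ring
  rw [e2]
  ring

theorem V_neg (h : C.Crit) (ξ : C.Op ⊕ Fin m → ℝ) (hξ : ξ ≠ 0) :
    (D2 C.V (cp C.ac C.bc) (rc ξ)).re < 0 := by
  rw [V_D2 h ξ, re_sum]
  obtain ⟨a, ha⟩ : ∃ a : Fin m → ℝ, a = fun j =>
      if hi : j.castSucc ∈ C.Op then ξ (Sum.inl ⟨_, hi⟩) else 0 := ⟨_, rfl⟩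
  obtain ⟨b, hb⟩ : ∃ b : Fin m → ℝ, b = fun j =>
      if hi : j.succ ∈ C.Op then ξ (Sum.inl ⟨_, hi⟩) else 0 := ⟨_, rfl⟩
  have haj : ∀ j, (if hi : j.castSucc ∈ C.Op then ξ (Sum.inl ⟨_, hi⟩) else 0) = a j := fun j => by
    rw [ha]
  have hbj : ∀ j, (if hi : j.succ ∈ C.Op then ξ (Sum.inl ⟨_, hi⟩) else 0) = b j := fun j => by
    rw [hb]
  simp only [haj, hbj]
  have ha0 : ∀ j : Fin m, j.castSucc ∉ C.Op → a j = 0 := fun j hj => by
    rw [← haj j, dif_neg hj]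
  have hb0 : ∀ j : Fin m, j.succ ∉ C.Op → b j = 0 := fun j hj => by
    rw [← hbj j, dif_neg hj]
  have hre : ∀ j, (C.A j * (ξ (Sum.inr j) : ℂ) ^ 2 + C.qf j (a j) (b j)).re =
      (C.A j).re * ξ (Sum.inr j) ^ 2 + (C.qf j (a j) (b j)).re := by
    intro j
    rw [add_re, ← ofReal_pow, re_mul_ofReal]
  have hq : ∀ j, (C.qf j (a j) (b j)).re ≤ 0 := by
    intro j
    by_cases h0 : a j ≠ 0 ∨ b j ≠ 0
    · exact (h.hD j (a j) (b j) (ha0 j) (hb0 j) h0).le
    · push Not at h0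
      rw [h0.1, h0.2]
      unfold qf
      simp
  have hle : ∀ j ∈ (Finset.univ : Finset (Fin m)),
      (C.A j * (ξ (Sum.inr j) : ℂ) ^ 2 + C.qf j (a j) (b j)).re ≤ (0 : ℝ) := by
    intro j _
    rw [hre j]
    have := mul_nonpos_of_nonpos_of_nonneg (h.hA j).le (sq_nonneg (ξ (Sum.inr j)))
    linarith [hq j]
  have hex : ∃ j ∈ (Finset.univ : Finset (Fin m)),
      (C.A j * (ξ (Sum.inr j) : ℂ) ^ 2 + C.qf j (a j) (b j)).re < (0 : ℝ) := by
    obtain ⟨x, hx⟩ := Function.ne_iff.1 hξ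
    rcases x with i | j
    · have hm := h.hm
      have hxi : ξ (Sum.inl i) ≠ 0 := hx
      have key : ∃ j, a j ≠ 0 ∨ b j ≠ 0 := by
        obtain ⟨⟨iv, hiv⟩, him⟩ := i
        rcases Nat.eq_zero_or_pos iv with h0 | h0
        · subst h0
          refine ⟨⟨0, by omega⟩, Or.inl ?_⟩
          have e : (Fin.castSucc (⟨0, by omega⟩ : Fin m)) = (⟨0, hiv⟩ : Fin (m + 1)) := rfl
          rw [← haj, dif_pos (by rw [e]; exact him)]
          exact hxi
        · obtain ⟨k, rfl⟩ : ∃ k, iv = k + 1 := ⟨iv - 1, by omega⟩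
          refine ⟨⟨k, by omega⟩, Or.inr ?_⟩
          have e : (Fin.succ (⟨k, by omega⟩ : Fin m)) = (⟨k + 1, hiv⟩ : Fin (m + 1)) := rfl
          rw [← hbj, dif_pos (by rw [e]; exact him)]
          exact hxi
      obtain ⟨j, hj⟩ := key
      refine ⟨j, Finset.mem_univ _, ?_⟩
      rw [hre j]
      have h1 := h.hD j (a j) (b j) (ha0 j) (hb0 j) hj
      have := mul_nonpos_of_nonpos_of_nonneg (h.hA j).le (sq_nonneg (ξ (Sum.inr j)))
      linarith
    · have hxj : ξ (Sum.inr j) ≠ 0 := hx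
      refine ⟨j, Finset.mem_univ _, ?_⟩
      rw [hre j]
      have := mul_neg_of_neg_of_pos (h.hA j) (pow_pos (abs_pos.2 hxj) 2)
      rw [sq_abs] at this
      linarith [hq j]
  have := Finset.sum_lt_sum hle hex
  rwa [Finset.sum_const_zero] at this

end Cfg

end Pool.Agent.S3
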