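import Pool.Agent.S3.CritC
import Pool.Agent.S3.Hess
import Pool.Agent.S3.E.Crit

/-!
# Stage 3: the critical point of the chain

`chL`, `chR`: the neighbours in the chain `Fin (m + 1)`. `cfgOf a σ z`: the configuration with twists
`σ i * a i / 2`, `σ i = ±1` alternating, at the solution `z` of the system of block E.
-/

namespace Pool.Agent.S3

open Pool.Agent.H63.VC hiding ext
open Pool.Agent.H63.VC7 Complex
open Pool.Agent.S3.E
open Pool.Agent.H25.RK (gdv gdv_re_lt gdv_hasDerivAt ul)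
open scoped BigOperators

variable {m : ℕ}

/-- The edge to the left of a vertex. -/
def eL (i : Fin (m + 1)) : Option (Fin m) := Fin.cases none (fun j => some j) i

/-- The edge to the right of a vertex. -/
def eR (i : Fin (m + 1)) : Option (Fin m) := Fin.lastCases none (fun j => some j) i

/-- The left neighbour. -/
def chL (i : Fin (m + 1)) : Option (Fin (m + 1)) := (eL i).map Fin.castSucc

/-- The right neighbour. -/
def chR (i : Fin (m + 1)) : Option (Fin (m + 1)) := (eR i).map Fin.succ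

@[simp] theorem eL_zero : eL (0 : Fin (m + 1)) = none := rfl
@[simp] theorem eL_succ (j : Fin m) : eL j.succ = some j := rfl
@[simp] theorem eR_last : eR (Fin.last m) = none := by simp [eR]
@[simp] theorem eR_castSucc (j : Fin m) : eR j.castSucc = some j := by simp [eR]

@[simp] theorem chL_zero : chL (0 : Fin (m + 1)) = none := rfl
@[simp] theorem chL_succ (j : Fin m) : chL j.succ = some j.castSucc := rfl
@[simp] theorem chR_last : chR (Fin.last m) = none := by simp [chR]
@[simp] theorem chR_castSucc (j : Fin m) : chR j.castSucc = some j.succ := by simp [chR]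

theorem eL_eq_some {i : Fin (m + 1)} {j : Fin m} : eL i = some j ↔ i = j.succ := by
  constructor
  · intro h
    induction i using Fin.cases with
    | zero => simp at h
    | succ k => simp at h; rw [h]
  · rintro rfl; simp

theorem eR_eq_some {i : Fin (m + 1)} {j : Fin m} : eR i = some j ↔ i = j.castSucc := by
  constructor
  · intro h
    induction i using Fin.lastCases with
    | last => simp at h
    | cast k => simp at h; rw [h]
  · rintro rfl; simp

theorem chL_eq_some {i k : Fin (m + 1)} : chL i = some k ↔ ∃ j : Fin m, i = j.succ ∧ k = j.castSucc := by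
  unfold chL
  rw [Option.map_eq_some_iff]
  constructor
  · rintro ⟨j, h1, h2⟩
    exact ⟨j, eL_eq_some.1 h1, h2.symm⟩
  · rintro ⟨j, h1, h2⟩
    exact ⟨j, eL_eq_some.2 h1, h2.symm⟩

theorem chR_eq_some {i k : Fin (m + 1)} : chR i = some k ↔ ∃ j : Fin m, i = j.castSucc ∧ k = j.succ := by
  unfold chR
  rw [Option.map_eq_some_iff]
  constructor
  · rintro ⟨j, h1, h2⟩
    exact ⟨j, eR_eq_some.1 h1, h2.symm⟩
  · rintro ⟨j, h1, h2⟩
    exact ⟨j, eR_eq_some.2 h1, h2.symm⟩

theorem eL_none {i : Fin (m + 1)} (h : i ≠ 0) : ∃ j : Fin m, i = j.succ := by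
  obtain ⟨j, hj⟩ := Fin.exists_succ_eq.2 h
  exact ⟨j, hj.symm⟩

theorem eR_none {i : Fin (m + 1)} (h : i ≠ Fin.last m) : ∃ j : Fin m, i = j.castSucc := by
  obtain ⟨j, hj⟩ := Fin.exists_castSucc_eq.2 h
  exact ⟨j, hj.symm⟩

theorem chNbr (hm : 1 ≤ m) : Nbr (chL (m := m)) chR where
  ne := by
    intro i
    by_cases h0 : i = 0
    · right
      have hl : i ≠ Fin.last m := by
        rw [h0]
        intro h
        have := congrArg Fin.val h
        simp at this
        omega
      obtain ⟨j, hj⟩ := eR_none hl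
      rw [hj, chR_castSucc]
      simp
    · left
      obtain ⟨j, hj⟩ := eL_none h0
      rw [hj, chL_succ]
      simp
  symm := by
    rintro i k (h | h)
    · obtain ⟨j, h1, h2⟩ := chL_eq_some.1 h
      exact Or.inr (chR_eq_some.2 ⟨j, h2, h1⟩)
    · obtain ⟨j, h1, h2⟩ := chR_eq_some.1 h
      exact Or.inl (chL_eq_some.2 ⟨j, h2, h1⟩)

/-- Sums over the edges at a vertex. -/
theorem sum_inc_ch {E : Type*} [AddCommMonoid E] (i : Fin (m + 1)) (f : Fin m → E) :
    ∑ j ∈ inc (Fin.castSucc (n := m)) Fin.succ i, f j = (eL i).elim 0 f + (eR i).elim 0 f := by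
  have e : ∑ j ∈ inc (Fin.castSucc (n := m)) Fin.succ i, f j =
      ∑ j, ((if j.succ = i then f j else 0) + if j.castSucc = i then f j else 0) := by
    rw [inc, Finset.sum_filter]
    refine Finset.sum_congr rfl fun j _ => ?_
    by_cases h1 : j.succ = i
    · have h2 : j.castSucc ≠ i := by
        rw [← h1]; exact (Fin.castSucc_lt_succ (i := j)).ne
      rw [if_pos (Or.inr h1), if_pos h1, if_neg h2, add_zero]
    · by_cases h2 : j.castSucc = i
      · rw [if_pos (Or.inl h2), if_neg h1, if_pos h2, zero_add]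
      · rw [if_neg (not_or.2 ⟨h2, h1⟩), if_neg h1, if_neg h2, add_zero]
  rw [e, Finset.sum_add_distrib]
  congr 1
  · induction i using Fin.cases with
    | zero =>
      rw [eL_zero]
      simp only [Option.elim_none]
      exact Finset.sum_eq_zero fun j _ => if_neg (Fin.succ_ne_zero j)
    | succ k =>
      rw [eL_succ]
      simp
  · induction i using Fin.lastCases with
    | last =>
      rw [eR_last]
      simp only [Option.elim_none]
      exact Finset.sum_eq_zero fun j _ => if_neg (Fin.castSucc_lt_last j).ne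
    | cast k =>
      rw [eR_castSucc]
      simp

section

variable (a : Fin (m + 1) → ℕ) (σ : Fin (m + 1) → ℤ) (z : Fin (m + 1) → ℂ)

/-- The closed ends. -/
def clo (i : Fin (m + 1)) : Prop := a i = 2 ∧ (i = 0 ∨ i = Fin.last m)

instance : DecidablePred (clo a) := fun i => by unfold clo; infer_instance

/-- The configuration at a solution of the system. -/
noncomputable def cfgOf : Cfg m where
  r := fun i => (σ i : ℝ) * a i / 2
  Op := Finset.univ.filter fun i => ¬ clo a i
  s := σ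
  θ := fun i => th (z i).re (z i).im
  xc := fun i => -(σ i : ℝ) * xx (z i).re (z i).im
  yc := fun j => if σ j.castSucc = -1 then yy (E.uu (z j.castSucc)) ((starRingEnd ℂ) (E.uu (z j.succ)))
    else yy (E.uu (z j.succ)) ((starRingEnd ℂ) (E.uu (z j.castSucc)))
  β := fun j i => 2 * Real.pi * σ i * bw (z i) (z (if i = j.castSucc then j.succ else j.castSucc))

/-- `-e_v / 2` at the edge `j` and its vertex `i`. -/
noncomputable def Qv (j : Fin m) (i : Fin (m + 1)) : ℂ :=
  if σ i = -1 then qe (z i) (z (if i = j.castSucc then j.succ else j.castSucc))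
  else -((starRingEnd ℂ) (qe (z i) (z (if i = j.castSucc then j.succ else j.castSucc))))

end

section

variable {a : Fin (m + 1) → ℕ} {σ : Fin (m + 1) → ℤ} {z : Fin (m + 1) → ℂ}

theorem mem_Op {i : Fin (m + 1)} : i ∈ (cfgOf a σ z).Op ↔ ¬ clo a i := by
  simp [cfgOf]

/-- The critical equations at the edge `j`. -/
structure EdC (a : Fin (m + 1) → ℕ) (σ : Fin (m + 1) → ℤ) (z : Fin (m + 1) → ℂ) (j : Fin m) :
    Prop where
  dom : sdom ((cfgOf a σ z).yc j) ((cfgOf a σ z).slc j.castSucc) ∧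
    sdom ((cfgOf a σ z).yc j) ((cfgOf a σ z).slc j.succ)
  hy : ey ((cfgOf a σ z).yc j) ((cfgOf a σ z).slc j.castSucc) +
    ey ((cfgOf a σ z).yc j) ((cfgOf a σ z).slc j.succ) = 0
  ev1 : ¬ clo a j.castSucc → ev ((cfgOf a σ z).yc j) ((cfgOf a σ z).vc j.castSucc) =
    -2 * Qv σ z j j.castSucc
  ev2 : ¬ clo a j.succ → ev ((cfgOf a σ z).yc j) ((cfgOf a σ z).vc j.succ) =
    -2 * Qv σ z j j.succ
  hA : ((cfgOf a σ z).A j).re < 0
  hD : ∀ p q : ℝ, (clo a j.castSucc → p = 0) → (clo a j.succ → q = 0) →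
    (p ≠ 0 ∨ q ≠ 0) → ((cfgOf a σ z).qf j p q).re < 0

theorem uc_neg {i : Fin (m + 1)} (h : σ i = -1) : (cfgOf a σ z).uc i = E.uu (z i) := by
  unfold Cfg.uc cfgOf E.uu UU ul
  simp [h]

theorem uc_pos {i : Fin (m + 1)} (h : σ i = 1) :
    (cfgOf a σ z).uc i = -((starRingEnd ℂ) (E.uu (z i))) := by
  unfold Cfg.uc cfgOf E.uu ul
  rw [UU_conj, UU_neg, UU, neg_neg]
  simp [h]

theorem slc_op {i : Fin (m + 1)} (h : ¬ clo a i) :
    (cfgOf a σ z).slc i = .op ((cfgOf a σ z).vc i) := by
  unfold Cfg.slc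
  rw [if_pos (mem_Op.2 h)]

theorem slc_cl {i : Fin (m + 1)} (h : clo a i) : (cfgOf a σ z).slc i = .cl (σ i) := by
  unfold Cfg.slc
  rw [if_neg (fun h1 => mem_Op.1 h1 h)]
  rfl

theorem ne_cs (j : Fin m) : j.succ ≠ j.castSucc := (Fin.castSucc_lt_succ (i := j)).ne'

theorem good_of_open (ha : ∀ i, 2 ≤ a i) {i : Fin (m + 1)} (h : ¬ clo a i) :
    E.Good (fun i => (a i : ℝ)) chL chR i := by
  unfold clo at h
  rw [not_and_or, not_or] at h
  rcases h with h | ⟨h1, h2⟩
  · left
    have := ha i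
    have h3 : 3 ≤ a i := by omega
    show (3 : ℝ) ≤ (a i : ℝ)
    exact_mod_cast h3
  · right
    obtain ⟨j, hj⟩ := eL_none h1
    obtain ⟨k, hk⟩ := eR_none h2
    refine ⟨j.castSucc, k.succ, ?_, ?_⟩
    · rw [hj, chL_succ]
    · rw [hk, chR_castSucc]

/-- The left end of an edge is closed. -/
theorem end_left {j : Fin m} (h : clo a j.castSucc) :
    E.Zr.IsEnd2 (fun i => (a i : ℝ)) chL chR j.castSucc j.succ := by
  obtain ⟨h1, h2⟩ := h
  refine ⟨by show ((a _ : ℕ) : ℝ) = 2; rw [h1]; norm_num, Or.inr ⟨?_, chR_castSucc j⟩⟩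
  rcases h2 with h2 | h2
  · rw [h2, chL_zero]
  · exact absurd h2 (Fin.castSucc_lt_last j).ne

/-- The right end of an edge is closed. -/
theorem end_right {j : Fin m} (h : clo a j.succ) :
    E.Zr.IsEnd2 (fun i => (a i : ℝ)) chL chR j.succ j.castSucc := by
  obtain ⟨h1, h2⟩ := h
  refine ⟨by show ((a _ : ℕ) : ℝ) = 2; rw [h1]; norm_num, Or.inl ⟨chL_succ j, ?_⟩⟩
  rcases h2 with h2 | h2
  · exact absurd h2 (Fin.succ_ne_zero j)
  · rw [h2, chR_last]


theorem EdC.of_open {j : Fin m} (hi : ¬ clo a j.castSucc) (hk : ¬ clo a j.succ)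
    (H : ECrit ((cfgOf a σ z).uc j.castSucc) ((cfgOf a σ z).uc j.succ) ((cfgOf a σ z).yc j)
      (Qv σ z j j.castSucc) (Qv σ z j j.succ) ((cfgOf a σ z).β j j.castSucc)
      ((cfgOf a σ z).β j j.succ)) : EdC a σ z j where
  dom := by rw [slc_op hi, slc_op hk]; exact H.dom
  hy := by rw [slc_op hi, slc_op hk]; exact H.hy
  ev1 := fun _ => H.ev1
  ev2 := fun _ => H.ev2
  hA := by
    unfold Cfg.A
    rw [slc_op hi, slc_op hk]; exact H.hA
  hD := by
    intro p q _ _ hpq
    have := H.hD p q hpq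
    unfold Cfg.qf Cfg.c Cfg.b Cfg.A
    rw [slc_op hi, slc_op hk]
    exact this

theorem EdC.of_left {j : Fin m} (hi : ¬ clo a j.castSucc) (hk : clo a j.succ)
    (H : ECrit1 ((cfgOf a σ z).uc j.castSucc) ((cfgOf a σ z).yc j)
      (Qv σ z j j.castSucc) (σ j.succ) ((cfgOf a σ z).β j j.castSucc)) : EdC a σ z j where
  dom := by rw [slc_op hi, slc_cl hk]; exact H.dom
  hy := by rw [slc_op hi, slc_cl hk]; exact H.hy
  ev1 := fun _ => H.ev1
  ev2 := fun h => absurd hk h
  hA := by
    unfold Cfg.A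
    rw [slc_op hi, slc_cl hk]; exact H.hA
  hD := by
    intro p q _ hq hpq
    have hq0 := hq hk
    subst hq0
    have hp : p ≠ 0 := by
      rcases hpq with h | h
      · exact h
      · exact absurd rfl h
    have := H.hD p hp
    unfold Cfg.qf Cfg.c Cfg.b Cfg.A
    rw [slc_op hi, slc_cl hk]
    convert this using 2
    unfold Cfg.vc
    push_cast
    ring

theorem EdC.of_right {j : Fin m} (hi : clo a j.castSucc) (hk : ¬ clo a j.succ)
    (H : ECrit1 ((cfgOf a σ z).uc j.succ) ((cfgOf a σ z).yc j)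
      (Qv σ z j j.succ) (σ j.castSucc) ((cfgOf a σ z).β j j.succ)) : EdC a σ z j where
  dom := by rw [slc_cl hi, slc_op hk]; exact ⟨H.dom.2, H.dom.1⟩
  hy := by rw [slc_cl hi, slc_op hk, add_comm]; exact H.hy
  ev1 := fun h => absurd hi h
  ev2 := fun _ => H.ev1
  hA := by
    unfold Cfg.A
    rw [slc_cl hi, slc_op hk, add_comm]; exact H.hA
  hD := by
    intro p q hp _ hpq
    have hp0 := hp hi
    subst hp0
    have hq : q ≠ 0 := by
      rcases hpq with h | h
      · exact absurd rfl h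
      · exact h
    have := H.hD q hq
    unfold Cfg.qf Cfg.c Cfg.b Cfg.A
    rw [slc_cl hi, slc_op hk, add_comm (eyy _ (Sl.cl _))]
    convert this using 2
    unfold Cfg.vc
    push_cast
    ring

theorem β_eq (j : Fin m) (i : Fin (m + 1)) : (cfgOf a σ z).β j i =
    2 * Real.pi * σ i * bw (z i) (z (if i = j.castSucc then j.succ else j.castSucc)) := rfl

theorem yc_eq (j : Fin m) : (cfgOf a σ z).yc j =
    if σ j.castSucc = -1 then yy (E.uu (z j.castSucc)) ((starRingEnd ℂ) (E.uu (z j.succ)))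
    else yy (E.uu (z j.succ)) ((starRingEnd ℂ) (E.uu (z j.castSucc))) := rfl

theorem Qv_neg {j : Fin m} {i : Fin (m + 1)} (h : σ i = -1) : Qv σ z j i =
    qe (z i) (z (if i = j.castSucc then j.succ else j.castSucc)) := by
  unfold Qv; rw [if_pos h]

theorem Qv_pos {j : Fin m} {i : Fin (m + 1)} (h : σ i = 1) : Qv σ z j i =
    -((starRingEnd ℂ) (qe (z i) (z (if i = j.castSucc then j.succ else j.castSucc)))) := by
  unfold Qv; rw [if_neg (by rw [h]; decide)]

theorem β_cs (j : Fin m) : (cfgOf a σ z).β j j.castSucc =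
    2 * Real.pi * σ j.castSucc * bw (z j.castSucc) (z j.succ) := by
  rw [β_eq, if_pos rfl]

theorem β_su (j : Fin m) : (cfgOf a σ z).β j j.succ =
    2 * Real.pi * σ j.succ * bw (z j.succ) (z j.castSucc) := by
  rw [β_eq, if_neg (ne_cs j)]

theorem edC_pos (h : Zr (fun i => (a i : ℝ)) chL chR 1 z) (ha : ∀ i, 2 ≤ a i) {j : Fin m}
    (s1 : σ j.castSucc = 1) (s2 : σ j.succ = -1)
    (h2 : ¬ (clo a j.castSucc ∧ clo a j.succ)) : EdC a σ z j := by
  have hR : chL j.castSucc = some j.succ ∨ chR j.castSucc = some j.succ := Or.inr (chR_castSucc j)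
  have hL : chL j.succ = some j.castSucc ∨ chR j.succ = some j.castSucc := Or.inl (chL_succ j)
  have ey0 : (cfgOf a σ z).yc j =
      yy (E.uu (z j.succ)) ((starRingEnd ℂ) (E.uu (z j.castSucc))) := by
    rw [yc_eq, if_neg (by rw [s1]; decide)]
  have q1 : Qv σ z j j.castSucc = -((starRingEnd ℂ) (qe (z j.castSucc) (z j.succ))) := by
    rw [Qv_pos s1, if_pos rfl]
  have q2 : Qv σ z j j.succ = qe (z j.succ) (z j.castSucc) := by
    rw [Qv_neg s2, if_neg (ne_cs j)]
  have b1 : (cfgOf a σ z).β j j.castSucc = 2 * Real.pi * bw (z j.castSucc) (z j.succ) := by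
    rw [β_cs, s1]; norm_num
  have b2 : (cfgOf a σ z).β j j.succ = -(2 * Real.pi * bw (z j.succ) (z j.castSucc)) := by
    rw [β_su, s2]; push_cast; ring
  by_cases c1 : clo a j.castSucc
  · have c2 : ¬ clo a j.succ := fun c2 => h2 ⟨c1, c2⟩
    have H := (h.ecrit1 (end_left c1)).1
    refine EdC.of_right c1 c2 ?_
    rw [uc_neg s2, ey0, q2, b2, s1]
    exact H
  · by_cases c2 : clo a j.succ
    · have H := h.ecrit1_pos (end_right c2)
      rw [← yy_conj (h.reg_edge hR), conj_conj, yy_comm] at H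
      refine EdC.of_left c1 c2 ?_
      rw [uc_pos s1, ey0, q1, b1, s2]
      exact H
    · have H := (h.ecrit hL (good_of_open ha c2) (good_of_open ha c1)).symm
      refine EdC.of_open c1 c2 ?_
      rw [uc_pos s1, uc_neg s2, ey0, q1, q2, b1, b2]
      exact H

theorem edC_neg (h : Zr (fun i => (a i : ℝ)) chL chR 1 z) (ha : ∀ i, 2 ≤ a i) {j : Fin m}
    (s1 : σ j.castSucc = -1) (s2 : σ j.succ = 1)
    (h2 : ¬ (clo a j.castSucc ∧ clo a j.succ)) : EdC a σ z j := by
  have hR : chL j.castSucc = some j.succ ∨ chR j.castSucc = some j.succ := Or.inr (chR_castSucc j)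
  have hL : chL j.succ = some j.castSucc ∨ chR j.succ = some j.castSucc := Or.inl (chL_succ j)
  have ey0 : (cfgOf a σ z).yc j =
      yy (E.uu (z j.castSucc)) ((starRingEnd ℂ) (E.uu (z j.succ))) := by
    rw [yc_eq, if_pos s1]
  have q1 : Qv σ z j j.castSucc = qe (z j.castSucc) (z j.succ) := by
    rw [Qv_neg s1, if_pos rfl]
  have q2 : Qv σ z j j.succ = -((starRingEnd ℂ) (qe (z j.succ) (z j.castSucc))) := by
    rw [Qv_pos s2, if_neg (ne_cs j)]
  have b1 : (cfgOf a σ z).β j j.castSucc = -(2 * Real.pi * bw (z j.castSucc) (z j.succ)) := by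
    rw [β_cs, s1]; push_cast; ring
  have b2 : (cfgOf a σ z).β j j.succ = 2 * Real.pi * bw (z j.succ) (z j.castSucc) := by
    rw [β_su, s2]; norm_num
  by_cases c1 : clo a j.castSucc
  · have c2 : ¬ clo a j.succ := fun c2 => h2 ⟨c1, c2⟩
    have H := h.ecrit1_pos (end_left c1)
    rw [← yy_conj (h.reg_edge hL), conj_conj, yy_comm] at H
    refine EdC.of_right c1 c2 ?_
    rw [uc_pos s2, ey0, q2, b2, s1]
    exact H
  · by_cases c2 : clo a j.succ
    · have H := (h.ecrit1 (end_right c2)).1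
      refine EdC.of_left c1 c2 ?_
      rw [uc_neg s1, ey0, q1, b1, s2]
      exact H
    · have H := h.ecrit hR (good_of_open ha c1) (good_of_open ha c2)
      refine EdC.of_open c1 c2 ?_
      rw [uc_neg s1, uc_pos s2, ey0, q1, q2, b1, b2]
      exact H

/-- Every edge satisfies the critical equations. -/
theorem edC (h : Zr (fun i => (a i : ℝ)) chL chR 1 z) (ha : ∀ i, 2 ≤ a i)
    (hσ : ∀ i, σ i = 1 ∨ σ i = -1) (hs : ∀ j : Fin m, σ j.succ = -σ j.castSucc)
    (h2 : ∀ j : Fin m, ¬ (clo a j.castSucc ∧ clo a j.succ)) (j : Fin m) : EdC a σ z j := by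
  rcases hσ j.castSucc with s1 | s1
  · exact edC_pos h ha s1 (by rw [hs, s1]) (h2 j)
  · exact edC_neg h ha s1 (by rw [hs, s1]; rfl) (h2 j)


theorem sum_qe (i : Fin (m + 1)) :
    ∑ j ∈ inc (Fin.castSucc (n := m)) Fin.succ i,
      qe (z i) (z (if i = j.castSucc then j.succ else j.castSucc)) =
      qo z i (chL i) + qo z i (chR i) := by
  rw [sum_inc_ch]
  congr 1
  · induction i using Fin.cases with
    | zero => rfl
    | succ k =>
      rw [eL_succ, chL_succ, Option.elim_some, if_neg (ne_cs k)]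
      rfl
  · induction i using Fin.lastCases with
    | last => rw [eR_last, chR_last]; rfl
    | cast k =>
      rw [eR_castSucc, chR_castSucc, Option.elim_some, if_pos rfl]
      rfl

theorem sum_bw (i : Fin (m + 1)) :
    ∑ j ∈ inc (Fin.castSucc (n := m)) Fin.succ i,
      bw (z i) (z (if i = j.castSucc then j.succ else j.castSucc)) =
      bwo z i (chL i) + bwo z i (chR i) := by
  rw [sum_inc_ch]
  congr 1
  · induction i using Fin.cases with
    | zero => rfl
    | succ k =>
      rw [eL_succ, chL_succ, Option.elim_some, if_neg (ne_cs k)]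
      rfl
  · induction i using Fin.lastCases with
    | last => rw [eR_last, chR_last]; rfl
    | cast k =>
      rw [eR_castSucc, chR_castSucc, Option.elim_some, if_pos rfl]
      rfl

theorem mem_inc {i : Fin (m + 1)} {j : Fin m}
    (h : j ∈ inc (Fin.castSucc (n := m)) Fin.succ i) : i = j.castSucc ∨ i = j.succ := by
  unfold inc at h
  rw [Finset.mem_filter] at h
  rcases h.2 with h | h
  · exact Or.inl h.symm
  · exact Or.inr h.symm

theorem ev_eq (H : ∀ j, EdC a σ z j) {i : Fin (m + 1)} (hi : ¬ clo a i) {j : Fin m}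
    (h : j ∈ inc (Fin.castSucc (n := m)) Fin.succ i) :
    ev ((cfgOf a σ z).yc j) ((cfgOf a σ z).vc i) = -2 * Qv σ z j i := by
  rcases mem_inc h with e | e
  · subst e
    exact (H j).ev1 hi
  · subst e
    exact (H j).ev2 hi

/-- **The critical point of the chain.** -/
theorem crit (hm : 1 ≤ m) (h : Zr (fun i => (a i : ℝ)) chL chR 1 z) (ha : ∀ i, 2 ≤ a i)
    (hσ : ∀ i, σ i = 1 ∨ σ i = -1) (hs : ∀ j : Fin m, σ j.succ = -σ j.castSucc)
    (h2 : ∀ j : Fin m, ¬ (clo a j.castSucc ∧ clo a j.succ)) : (cfgOf a σ z).Crit := by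
  have H := edC h ha hσ hs h2
  refine ⟨hm, fun i _ => h.thpos i, fun i _ => ?_, fun j => (H j).dom, fun j => (H j).hy, ?_, ?_,
    fun j => (H j).hA, ?_⟩
  · have := abs_th_lt (h.pos i).1 (h.pos i).2.1 (h.pos i).2.2
    exact (abs_lt.1 this).2
  · intro i hi
    have hi' := mem_Op.1 hi
    rw [Finset.sum_congr rfl fun j hj => ev_eq H hi' hj, ← Finset.mul_sum]
    rcases hσ i with s1 | s1
    · rw [Finset.sum_congr rfl fun j _ => Qv_pos s1, Finset.sum_neg_distrib, ← map_sum, sum_qe]
      have h3 := h.hv_pos i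
      have h4 : (cfgOf a σ z).vc i = gdv (-((starRingEnd ℂ) (E.uu (z i)))) := by
        unfold Cfg.vc
        rw [uc_pos s1]
      have h5 : (cfgOf a σ z).r i = (a i : ℝ) / 2 := by
        show (σ i : ℝ) * a i / 2 = _
        rw [s1]; push_cast; ring
      rw [h4, h5]
      linear_combination h3
    · rw [Finset.sum_congr rfl fun j _ => Qv_neg s1, sum_qe]
      have h3 := h.hv_neg i
      have h4 : (cfgOf a σ z).vc i = gdv (E.uu (z i)) := by
        unfold Cfg.vc
        rw [uc_neg s1]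
      have h5 : (cfgOf a σ z).r i = -((a i : ℝ) / 2) := by
        show (σ i : ℝ) * a i / 2 = _
        rw [s1]; push_cast; ring
      rw [h4, h5]
      linear_combination h3
  · intro i _
    have h3 : ∀ j ∈ inc (Fin.castSucc (n := m)) Fin.succ i, (cfgOf a σ z).β j i =
        (2 * Real.pi * σ i) * bw (z i) (z (if i = j.castSucc then j.succ else j.castSucc)) :=
      fun j _ => β_eq j i
    rw [Finset.sum_congr rfl h3, ← Finset.mul_sum, sum_bw, h.sum_bwo i]
    show 2 * Real.pi * (σ i : ℝ) * (a i : ℝ) = 4 * Real.pi * ((σ i : ℝ) * a i / 2)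
    ring
  · intro j p q hp hq hpq
    refine (H j).hD p q (fun hc => hp fun h => mem_Op.1 h hc) (fun hc => hq fun h => mem_Op.1 h hc) hpq

/-- The alternating signs. -/
def alt (i : Fin (m + 1)) : ℤ := (-1) ^ (i : ℕ)

theorem alt_or (i : Fin (m + 1)) : alt i = 1 ∨ alt i = -1 := by
  unfold alt
  exact neg_one_pow_eq_or ℤ _

theorem alt_succ (j : Fin m) : alt j.succ = -alt j.castSucc := by
  unfold alt
  rw [Fin.val_succ, Fin.val_castSucc, pow_succ]
  ring

/-- The critical point exists. -/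
theorem exists_crit (hm : 1 ≤ m) (ha : ∀ i, 2 ≤ a i) :
    ∃ z : Fin (m + 1) → ℂ, Zr (fun i => (a i : ℝ)) chL chR 1 z := by
  refine exists_zero (chNbr hm) fun i => ?_
  show (a i : ℝ) = 2 ∨ (3 : ℝ) ≤ (a i : ℝ)
  rcases (ha i).eq_or_lt with h | h
  · left; rw [← h]; norm_num
  · right; exact_mod_cast h

end

end Pool.Agent.S3
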