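import Pool.Agent.S3.Defs

/-!
# The estimate of an edge: definitions

`G0 θ v1` is the limit contour of a vertex: the `u`-line of height `θ` over `|re v| ≤ v1`, the
vertical segments below its ends and the real segments to `±1/2`. `EdgeOK σ τ L`: there is a polygon
with growth less than `L`.
-/

namespace Pool.Agent.S3

open Complex

/-- The height of the `u`-line of height `θ` at the abscissa `a`. -/
noncomputable def bl (θ a : ℝ) : ℝ := Real.arsinh (Real.tan θ * Real.cos (Real.pi * a)) / Real.pi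

/-- The limit contour. -/
def G0 (θ v1 : ℝ) : Set ℂ :=
  {v | (|v.re| ≤ v1 ∧ v.im = bl θ v.re) ∨ (|v.re| = v1 ∧ 0 ≤ v.im ∧ v.im ≤ bl θ v1) ∨
    (v1 ≤ |v.re| ∧ |v.re| ≤ 1 / 2 ∧ v.im = 0)}

/-- The point of the `u`-line over (or next to) `v`. -/
noncomputable def pl (θ v1 : ℝ) (v : ℂ) : ℂ :=
  ((max (-v1) (min v1 v.re) : ℝ) : ℂ) + (bl θ (max (-v1) (min v1 v.re)) : ℝ) * I

/-- The predicate `P` holds on the polygon with the abscissas `t` and the heights `h`, from `t 0` to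
`t n` on the real axis. -/
def PolOn (n : ℕ) (t h : ℕ → ℝ) (P : ℂ → Prop) : Prop :=
  (∀ i < n, ∀ x ∈ Set.Icc (t i) (t (i + 1)), P (x + h i * I)) ∧
  (∀ Y ∈ Set.uIcc 0 (h 0), P (t 0 + Y * I)) ∧
  (∀ i, i + 1 < n → ∀ Y ∈ Set.uIcc (h i) (h (i + 1)), P (t (i + 1) + Y * I)) ∧
  (∀ Y ∈ Set.uIcc (h (n - 1)) 0, P (t n + Y * I))

/-- The admissible polygons. -/
structure Pgn (n : ℕ) (t h : ℕ → ℝ) : Prop where
  n1 : 1 ≤ n
  t0 : t 0 = 0
  tn : t n = 1 / 2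
  mono : ∀ i < n, t i ≤ t (i + 1)
  ht : ∀ i < n, |h i| ≤ 1

/-- The growth of a slot at the ends of a polygon. -/
noncomputable def B0 : Sl → ℝ
  | .op v => Real.pi * v.im
  | .cl _ => 0

/-- The kernel with the slots `σ` and `τ` is less than `exp (M L)`. -/
def EdgeOK (σ τ : Sl) (L : ℝ) : Prop :=
  B0 σ + B0 τ < L ∧ (∀ y ∈ Set.Icc (-(1 / 10) : ℝ) 0, EE σ τ y < L) ∧
    ∃ (n : ℕ) (t h : ℕ → ℝ), Pgn n t h ∧ PolOn n t h (fun y => EE σ τ y < L)

/-- The same at the critical point, where the maximum `L` is attained only at `yc`, inside a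
horizontal side. -/
def EdgeC (σ τ : Sl) (yc : ℂ) (L : ℝ) : Prop :=
  B0 σ + B0 τ < L ∧ (∀ y ∈ Set.Icc (-(1 / 10) : ℝ) 0, EE σ τ y < L) ∧
    EE σ τ yc = L ∧ ∃ (n : ℕ) (t h : ℕ → ℝ), Pgn n t h ∧
      PolOn n t h (fun y => EE σ τ y < L ∨ y = yc) ∧
      ∃ i < n, t i < yc.re ∧ yc.re < t (i + 1) ∧ yc.im = h i

end Pool.Agent.S3
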