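import Mathlib.Tactic

/-!
# Algebra for the flat: vertices with at least three twists

Real inequalities behind `FlatC U V` for `|U - 1| ≤ |U| - 47/100` and `|U - 1| ≤ 1 + 227/500 |U|`.
-/

set_option autoImplicit false

namespace Pool.Agent.S3

private theorem ft_g0 {d r : ℝ} (hd : 0 ≤ d) (hr : d + 47 / 100 ≤ r) (hr' : r ≤ 7 / 4) :
    7 / 10 ≤ 1015623/1000000 + 2397423/1000000*d - 2209/10000*r - 2*d*r + 6909/5000*d^2
      - 2*d^2*r + r^3 := by
  nlinarith [mul_nonneg hd (sub_nonneg.mpr hr), mul_nonneg hd (sub_nonneg.mpr hr'),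
    mul_nonneg (mul_nonneg hd hd) (sub_nonneg.mpr hr'),
    mul_nonneg (mul_nonneg hd (sub_nonneg.mpr hr)) (sub_nonneg.mpr hr'),
    mul_nonneg (mul_nonneg hd hd) (sub_nonneg.mpr hr), sq_nonneg (r - 1), sq_nonneg (d - 1),
    mul_nonneg (sub_nonneg.mpr hr) (sub_nonneg.mpr hr')]

theorem ft_A {B d r : ℝ} (hB : 0 ≤ B) (hd : 0 ≤ d) (hr : d + 47 / 100 ≤ r)
    (hr' : r ≤ 7 / 4) :
    0 < (4 * (B + 147/200) * (B + 147/200 + d) + 2 * r) * (47/100 * (2 * (B + 147/200) + d - 47/100))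
      - (2 * (B + 147/200 + d) ^ 2 + 2 * (B + 147/200) ^ 2 - 1 - r ^ 2) * r := by
  have e : (4 * (B + 147/200) * (B + 147/200 + d) + 2 * r) *
      (47/100 * (2 * (B + 147/200) + d - 47/100))
      - (2 * (B + 147/200 + d) ^ 2 + 2 * (B + 147/200) ^ 2 - 1 - r ^ 2) * r =
      (1015623/1000000 + 2397423/1000000*d - 2209/10000*r - 2*d*r + 6909/5000*d^2
        - 2*d^2*r + r^3)
      + (2397423/500000 + 9259/1250*d - 4*r - 4*d*r + 47/25*d^2) * B
      + (9259/1250 + 141/25*d - 4*r) * B^2 + 94/25 * B^3 := by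
    ring
  rw [e]
  have h0 := ft_g0 hd hr hr'
  have h1 : -(22087/10000) ≤ 2397423/500000 + 9259/1250*d - 4*r - 4*d*r + 47/25*d^2 := by
    nlinarith [mul_nonneg hd (sub_nonneg.mpr hr'), sq_nonneg d]
  have h2 : 0 ≤ 9259/1250 + 141/25*d - 4*r := by linarith
  have h3 : 22087/10000 * B - 66/100 ≤ 94/25 * B ^ 3 := by
    nlinarith [mul_nonneg (add_nonneg hB (by norm_num : (0:ℝ) ≤ 885/1000)) (sq_nonneg (B - 4425/10000))]
  nlinarith [mul_nonneg hB (by linarith : (0:ℝ) ≤ 2397423/500000 + 9259/1250*d - 4*r - 4*d*r + 47/25*d^2 + 22087/10000), mul_nonneg h2 (sq_nonneg B)]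


private theorem ft_B1 {B d : ℝ} (hB : 0 ≤ B) (hd : 0 ≤ d) (h : B + d ≤ 393 / 200) :
    (2 * ((B + 147/200 + d) ^ 2 + (B + 147/200) ^ 2) -
      ((d + 47/100) ^ 2 + 2 * (47/100 * (2 * (B + 147/200) + d) + 7791/10000) - 1)) *
      ((d + 47/100) ^ 2 + 2 * (47/100 * (2 * (B + 147/200) + d) + 7791/10000) - 1 + 9) <
      24 * ((B + 147/200 + d) * (B + 147/200)) *
        (47/100 * (2 * (B + 147/200) + d) + 7791/10000) := by
  have e : 24 * ((B + 147/200 + d) * (B + 147/200)) *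
        (47/100 * (2 * (B + 147/200) + d) + 7791/10000) -
      (2 * ((B + 147/200 + d) ^ 2 + (B + 147/200) ^ 2) -
      ((d + 47/100) ^ 2 + 2 * (47/100 * (2 * (B + 147/200) + d) + 7791/10000) - 1)) *
      ((d + 47/100) ^ 2 + 2 * (47/100 * (2 * (B + 147/200) + d) + 7791/10000) - 1 + 9) =
      (9529569/500000 + 315531/15625*d - 48629/10000*d^2 - 147/50*d^3 - d^4)
      + (4851369/250000 + 35717/2500*d - 53/25*d^2 - 4*d^3) * B
      + (40699/2500 + 94/5*d - 4*d^2) * B^2 + 376/25 * B^3 := by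
    ring
  have hd' : d ≤ 393 / 200 := by linarith
  have h2 : d ^ 2 ≤ 393/200 * d := by nlinarith
  have h3 : d ^ 3 ≤ 393/200 * d ^ 2 := by nlinarith [mul_nonneg (sq_nonneg d) (sub_nonneg.mpr hd')]
  have h4 : d ^ 4 ≤ 393/200 * d ^ 3 := by
    have : 0 ≤ d ^ 3 := by positivity
    nlinarith [mul_nonneg this (sub_nonneg.mpr hd')]
  have c0 : 0 < 9529569/500000 + 315531/15625*d - 48629/10000*d^2 - 147/50*d^3 - d^4 := by
    nlinarith
  have c1 : 0 ≤ 4851369/250000 + 35717/2500*d - 53/25*d^2 - 4*d^3 := by nlinarith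
  have c2 : 0 ≤ 40699/2500 + 94/5*d - 4*d^2 := by nlinarith
  have := mul_nonneg c1 hB
  have := mul_nonneg c2 (sq_nonneg B)
  have : 0 ≤ 376/25 * B ^ 3 := by positivity
  linarith

private theorem ft_B2 {t B : ℝ} (hB : 0 ≤ B) (hB' : B ≤ 9 / 10) (ht : 0 ≤ t)
    (ht' : t ≤ 97 / 100) :
    (2 * ((t + 27/10) ^ 2 + (B + 147/200) ^ 2) -
      (((t + 27/10) - (B + 147/200) + 47/100) ^ 2 + 2 * (3969/10000 * (t + 27/10) ^ 2 -
        227/500 * (t + 27/10) + 47/100 * (B + 147/200) + 7791/20000) - 1)) *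
      (((t + 27/10) - (B + 147/200) + 47/100) ^ 2 + 2 * (3969/10000 * (t + 27/10) ^ 2 -
        227/500 * (t + 27/10) + 47/100 * (B + 147/200) + 7791/20000) - 1 + 9) <
      24 * ((t + 27/10) * (B + 147/200)) * (3969/10000 * (t + 27/10) ^ 2 -
        227/500 * (t + 27/10) + 47/100 * (B + 147/200) + 7791/20000) := by
  have e : 24 * ((t + 27/10) * (B + 147/200)) * (3969/10000 * (t + 27/10) ^ 2 -
        227/500 * (t + 27/10) + 47/100 * (B + 147/200) + 7791/20000) -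
      (2 * ((t + 27/10) ^ 2 + (B + 147/200) ^ 2) -
      (((t + 27/10) - (B + 147/200) + 47/100) ^ 2 + 2 * (3969/10000 * (t + 27/10) ^ 2 -
        227/500 * (t + 27/10) + 47/100 * (B + 147/200) + 7791/20000) - 1)) *
      (((t + 27/10) - (B + 147/200) + 47/100) ^ 2 + 2 * (3969/10000 * (t + 27/10) ^ 2 -
        227/500 * (t + 27/10) + 47/100 * (B + 147/200) + 7791/20000) - 1 + 9) =
      ((3410435134179/1000000000000) + (163478261763/6250000000)*t^1 + (16453783607/1250000000)*t^2 + (45226647/62500000)*t^3 + (-9247039/25000000)*t^4) + ((726574617/10000000) + (1611882/15625)*t^1 + (135482/3125)*t^2 + (3969/625)*t^3) * B^1 + ((655893/20000) + (552/25)*t^1 + (2)*t^2) * B^2 + ((-147/50)) * B^3 + ((-1)) * B^4 := by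
    ring
  have h4 : t ^ 4 ≤ t ^ 3 := by
    have : 0 ≤ t ^ 3 := by positivity
    nlinarith
  have h3 : 0 ≤ t ^ 3 := by positivity
  have h2 : 0 ≤ t ^ 2 := by positivity
  have c1 : 0 ≤ ((726574617/10000000) + (1611882/15625)*t^1 + (135482/3125)*t^2 +
      (3969/625)*t^3) * B ^ 1 := by positivity
  have c2 : 0 ≤ ((552/25)*t^1 + (2)*t^2) * B^2 := by positivity
  have c3 : 0 ≤ B ^ 2 * ((655893/20000 : ℝ) - 147/50 * B - B ^ 2) := by
    refine mul_nonneg (by positivity) ?_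
    nlinarith
  nlinarith

private theorem ft_B3 {a b : ℝ} (hb : 163 / 100 ≤ b) (hab : b ≤ a) (ha' : a ≤ 367 / 100) :
    (a ^ 2 + b ^ 2 + 9/2) ^ 2 < 24 * (a * b) * (47/100 * (a + b) + 7791/10000) := by
  nlinarith [mul_nonneg (sub_nonneg.mpr ha') (sub_nonneg.mpr hb),
    mul_nonneg (sub_nonneg.mpr hab) (sub_nonneg.mpr hb),
    mul_nonneg (sub_nonneg.mpr hab) (sub_nonneg.mpr ha')]

private theorem ft_B4 {a b : ℝ} (hb0 : 147 / 200 ≤ b) (hb : b ≤ 163 / 100) (hab : b ≤ a)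
    (ha' : a ≤ 367 / 100) :
    a ^ 2 + b ^ 2 - 9/2 ≤ (a - b + 47/100) ^ 2 + 2 * (47/100 * (a + b) + 7791/10000) - 1 := by
  nlinarith [mul_nonneg (sub_nonneg.mpr ha') (sub_nonneg.mpr hb),
    mul_nonneg (sub_nonneg.mpr hab) (sub_nonneg.mpr hb),
    mul_nonneg (sub_nonneg.mpr hb0) (sub_nonneg.mpr hb)]


private theorem ft_phi {S z0 z : ℝ} (h : z0 ≤ z) (h0 : S - 9/2 ≤ z0) :
    (2 * S - z) * (z + 9) ≤ (2 * S - z0) * (z0 + 9) := by
  nlinarith [mul_nonneg (sub_nonneg.mpr h) (by linarith : (0:ℝ) ≤ z + z0 + 9 - 2 * S)]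

/-- Inequality on the part `t ≥ 1/2 - s`. -/
theorem ft_B {a b R z : ℝ} (hb : 147/200 ≤ b) (hab : b ≤ a) (ha : a ≤ 367/100)
    (hR1 : 47/100 * (a + b) + 7791/10000 ≤ R)
    (hR2 : 3969/10000 * a ^ 2 - 227/500 * a + 47/100 * b + 7791/20000 ≤ R)
    (hz : (a - b + 47/100) ^ 2 + 2 * R - 1 ≤ z) :
    (2 * (a ^ 2 + b ^ 2) - z) * (z + 9) < 24 * (a * b) * R := by
  have hab0 : 0 < a * b := mul_pos (by linarith) (by linarith)
  rcases le_total (163/100) b with hb1 | hb1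
  · have h3 := ft_B3 hb1 hab ha
    have h4 : 24 * (a * b) * (47/100 * (a + b) + 7791/10000) ≤ 24 * (a * b) * R :=
      mul_le_mul_of_nonneg_left hR1 (by positivity)
    nlinarith [sq_nonneg (z - (a ^ 2 + b ^ 2 - 9/2))]
  · have h4 := ft_B4 hb hb1 hab ha
    rcases le_total a (27/10) with ha1 | ha1
    · have h1 := ft_B1 (B := b - 147/200) (d := a - b) (by linarith) (by linarith) (by linarith)
      have e1 : b - 147/200 + 147/200 = b := by ring
      have e2 : b + (a - b) = a := by ring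
      have e3 : 2 * b + (a - b) = a + b := by ring
      rw [e1, e2, e3] at h1
      have h2 := ft_phi (S := a ^ 2 + b ^ 2)
        (z0 := (a - b + 47/100) ^ 2 + 2 * (47/100 * (a + b) + 7791/10000) - 1) (z := z)
        (by linarith) (by linarith)
      have h5 : 24 * (a * b) * (47/100 * (a + b) + 7791/10000) ≤ 24 * (a * b) * R :=
        mul_le_mul_of_nonneg_left hR1 (by positivity)
      linarith
    · have h1 := ft_B2 (t := a - 27/10) (B := b - 147/200) (by linarith) (by linarith)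
        (by linarith) (by linarith)
      have e1 : b - 147/200 + 147/200 = b := by ring
      have e2 : a - 27/10 + 27/10 = a := by ring
      rw [e1, e2] at h1
      have h2 := ft_phi (S := a ^ 2 + b ^ 2)
        (z0 := (a - b + 47/100) ^ 2 + 2 * (3969/10000 * a ^ 2 - 227/500 * a + 47/100 * b +
          7791/20000) - 1) (z := z)
        (by linarith) (by nlinarith)
      have h5 : 24 * (a * b) * (3969/10000 * a ^ 2 - 227/500 * a + 47/100 * b + 7791/20000) ≤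
          24 * (a * b) * R :=
        mul_le_mul_of_nonneg_left hR2 (by positivity)
      linarith

/-- Inequality for `|N| ≤ 7/4`. -/
theorem ft_nu {a b R r : ℝ} (hb : 147/200 ≤ b) (hab : b ≤ a)
    (hR : 47/100 * (a + b - 47/100) + 1 ≤ R) (hr : a - b + 47/100 ≤ r) (hr' : r ≤ 7/4) :
    (2 * (a ^ 2 + b ^ 2) + 1 - r ^ 2 - 2 * R) * r < 4 * (a * b) * (R - 1) := by
  have h1 := ft_A (B := b - 147/200) (d := a - b) (r := r) (by linarith) (by linarith)
    (by linarith) hr'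
  have e1 : b - 147/200 + 147/200 = b := by ring
  have e2 : b + (a - b) = a := by ring
  have e3 : 2 * b + (a - b) = a + b := by ring
  rw [e1, e2, e3] at h1
  have h2 : 0 ≤ (4 * (a * b) + 2 * r) * (R - 1 - 47/100 * (a + b - 47/100)) :=
    mul_nonneg (by nlinarith) (by linarith)
  nlinarith

/-- `V` right, `U` left: the case `re V ≤ 1 ≤ re U`. -/
private theorem ft_C1 {a b x ξ m m' r : ℝ} (hx : 0 ≤ x) (hξ : 0 ≤ ξ) (ha : 0 ≤ a)
    (hm0 : 0 ≤ m) (hm0' : 0 ≤ m') (ea : a ^ 2 = m ^ 2 + 1 + 2 * x)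
    (h1 : 47/50 * m' + 2209/10000 ≤ 1 - 2 * ξ) (h2 : ξ ≤ m') (hr : 7/4 ≤ r) (hr1 : a - m' ≤ r) :
    0 < r ^ 2 - 1 - 2 * m ^ 2 * ξ + 2 * m' ^ 2 * x - 4 * x * ξ := by
  have hξ1 : ξ ≤ 53/200 := by linarith
  have e : r ^ 2 - 1 - 2 * m ^ 2 * ξ + 2 * m' ^ 2 * x - 4 * x * ξ =
      r ^ 2 - 1 - 2 * ξ * (a ^ 2 - 1) + 2 * m' ^ 2 * x := by
    rw [ea]
    ring
  rw [e]
  have h3 : 0 ≤ 2 * m' ^ 2 * x := by positivity
  have ha1 : 0 ≤ a ^ 2 - 1 := by
    rw [ea]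
    nlinarith [sq_nonneg m]
  rcases le_total a (22/10) with h4 | h4
  · have h5 : a ^ 2 ≤ (22/10) ^ 2 := pow_le_pow_left₀ ha h4 2
    have h6 : 2 * ξ * (a ^ 2 - 1) ≤ 53/100 * (a ^ 2 - 1) := by nlinarith
    nlinarith
  · have hm1 : m' ≤ 83/100 := by linarith
    have h5 : (a - m') ^ 2 ≤ r ^ 2 := pow_le_pow_left₀ (by linarith) hr1 2
    rcases le_total m' (53/200) with h6 | h6
    · have h7 : 2 * ξ * (a ^ 2 - 1) ≤ 2 * m' * (a ^ 2 - 1) := by nlinarith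
      have h8 : 0 < (a - m') ^ 2 - 1 - 2 * m' * (a ^ 2 - 1) := by
        nlinarith [mul_nonneg hm0' (sub_nonneg.mpr h6), mul_nonneg (sub_nonneg.mpr h6) ha1,
          mul_nonneg (sub_nonneg.mpr h6) (sub_nonneg.mpr h4), sq_nonneg (a - 22/10)]
      linarith
    · have h7 : 2 * ξ * (a ^ 2 - 1) ≤ (7791/10000 - 47/50 * m') * (a ^ 2 - 1) := by nlinarith
      have h8 : 0 < (a - m') ^ 2 - 1 - (7791/10000 - 47/50 * m') * (a ^ 2 - 1) := by
        nlinarith [mul_nonneg (sub_nonneg.mpr h6) ha1, sq_nonneg (m' - 4/10),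
          mul_nonneg (sub_nonneg.mpr h6) (sub_nonneg.mpr h4), sq_nonneg (a - 22/10)]
      linarith

/-- Inequality for the part `t ≤ 1/2 - s`. -/
theorem ft_C {X Y X' Y' a b m m' r : ℝ} (ha0 : 0 ≤ a) (hb0 : 0 ≤ b) (hm0 : 0 ≤ m) (hm0' : 0 ≤ m')
    (ha : a ^ 2 = X ^ 2 + Y ^ 2) (hm : m ^ 2 = (X - 1) ^ 2 + Y ^ 2) (h1 : m ≤ a - 47/100)
    (hb : b ^ 2 = X' ^ 2 + Y' ^ 2) (hm' : m' ^ 2 = (X' - 1) ^ 2 + Y' ^ 2) (h2 : m' ≤ b - 47/100)
    (hr : r ^ 2 = (X + X' - 1) ^ 2 + (Y + Y') ^ 2) (hr0 : 7/4 ≤ r) (hr1 : a - m' ≤ r)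
    (hr2 : b - m ≤ r) :
    (X + X') ^ 2 + (Y - Y') ^ 2 < 2 * (b ^ 2 * X + a ^ 2 * X') := by
  have id : 2 * (b ^ 2 * X + a ^ 2 * X') - ((X + X') ^ 2 + (Y - Y') ^ 2) =
      r ^ 2 - 1 - 2 * m ^ 2 * (1 - X') - 2 * m' ^ 2 * (1 - X) + 4 * (1 - X) * (1 - X') := by
    rw [ha, hb, hm, hm', hr]
    ring
  have k1 : 47/50 * m + 2209/10000 ≤ 1 - 2 * (1 - X) := by
    have : (m + 47/100) ^ 2 ≤ a ^ 2 := pow_le_pow_left₀ (by linarith) (by linarith) 2
    linarith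
  have k2 : 47/50 * m' + 2209/10000 ≤ 1 - 2 * (1 - X') := by
    have : (m' + 47/100) ^ 2 ≤ b ^ 2 := pow_le_pow_left₀ (by linarith) (by linarith) 2
    linarith
  have l1 : 1 - X ≤ m := by
    have : |1 - X| ≤ m := abs_le_of_sq_le_sq (by linarith [sq_nonneg Y]) hm0
    exact (le_abs_self _).trans this
  have l2 : 1 - X' ≤ m' := by
    have : |1 - X'| ≤ m' := abs_le_of_sq_le_sq (by linarith [sq_nonneg Y']) hm0'
    exact (le_abs_self _).trans this
  suffices h : 0 < r ^ 2 - 1 - 2 * m ^ 2 * (1 - X') - 2 * m' ^ 2 * (1 - X) +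
      4 * (1 - X) * (1 - X') by linarith
  rcases le_total X 1 with hX | hX <;> rcases le_total X' 1 with hX' | hX'
  · have m1 : m ≤ 83/100 := by linarith
    have m2 : m' ≤ 83/100 := by linarith
    have n1 : 1 - X ≤ 53/200 := by linarith
    have n2 : 1 - X' ≤ 53/200 := by linarith
    have p1 : m ^ 2 ≤ (83/100) ^ 2 := pow_le_pow_left₀ hm0 m1 2
    have p2 : m' ^ 2 ≤ (83/100) ^ 2 := pow_le_pow_left₀ hm0' m2 2
    have q1 : m ^ 2 * (1 - X') ≤ (83/100) ^ 2 * (53/200) :=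
      mul_le_mul p1 n2 (by linarith) (by positivity)
    have q2 : m' ^ 2 * (1 - X) ≤ (83/100) ^ 2 * (53/200) :=
      mul_le_mul p2 n1 (by linarith) (by positivity)
    have q3 : 0 ≤ (1 - X) * (1 - X') := mul_nonneg (by linarith) (by linarith)
    have q4 : (7/4) ^ 2 ≤ r ^ 2 := pow_le_pow_left₀ (by norm_num) hr0 2
    nlinarith
  · have := ft_C1 (a := b) (b := a) (x := X' - 1) (ξ := 1 - X) (m := m') (m' := m) (r := r)
      (by linarith) (by linarith) hb0 hm0' hm0 (by rw [hb, hm']; ring) k1 l1 hr0 hr2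
    nlinarith
  · have := ft_C1 (a := a) (b := b) (x := X - 1) (ξ := 1 - X') (m := m) (m' := m') (r := r)
      (by linarith) (by linarith) ha0 hm0 hm0' (by rw [ha, hm]; ring) k2 l2 hr0 hr1
    nlinarith
  · have q1 : 0 ≤ m ^ 2 * (X' - 1) := mul_nonneg (by positivity) (by linarith)
    have q2 : 0 ≤ m' ^ 2 * (X - 1) := mul_nonneg (by positivity) (by linarith)
    have q3 : 0 ≤ (X - 1) * (X' - 1) := mul_nonneg (by linarith) (by linarith)
    have q4 : (7/4) ^ 2 ≤ r ^ 2 := pow_le_pow_left₀ (by norm_num) hr0 2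
    nlinarith

end Pool.Agent.S3
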