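import Pool.Agent.S3.FlatS
import Pool.Agent.S3.FlatA
import Pool.Agent.S3.Edge

/-!
# The flat for vertices with at least three twists

`Kore θ v`: `|re v| ≤ 13/40` and `|sinh (π im v)| ≤ tan θ cos (π re v)` (the region between the
`u`-line of height `θ` and its mirror image). For `0 ≤ θ, θ' ≤ 27/50`, `v`, `w` in these regions and
`s + i h` the critical point of the pair, the growth rate on the flat is less than at `s + i h`.
-/

set_option autoImplicit false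

namespace Pool.Agent.S3

open Complex

/-- The region of `U = 1 / cos² π v`. -/
def KA (U : ℂ) : Prop := ‖U - 1‖ ≤ ‖U‖ - 47/100 ∧ ‖U - 1‖ ≤ 1 + 227/500 * ‖U‖

private theorem KA_facts {U : ℂ} (h : KA U) : ‖U‖ ^ 2 = U.re ^ 2 + U.im ^ 2 ∧
    ‖U - 1‖ ^ 2 = (U.re - 1) ^ 2 + U.im ^ 2 ∧ 47/100 * ‖U‖ + 7791/20000 ≤ U.re ∧
    3969/10000 * ‖U‖ ^ 2 - 227/500 * ‖U‖ ≤ U.re ∧ 147/200 ≤ ‖U‖ ∧ ‖U‖ ≤ 367/100 := by
  obtain ⟨h1, h2⟩ := h
  have e1 : ‖U‖ ^ 2 = U.re ^ 2 + U.im ^ 2 := by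
    rw [← normSq_eq_norm_sq, normSq_apply]
    ring
  have e2 : ‖U - 1‖ ^ 2 = (U.re - 1) ^ 2 + U.im ^ 2 := by
    rw [← normSq_eq_norm_sq, normSq_apply]
    simp only [sub_re, sub_im, one_re, one_im, sub_zero]
    ring
  have n1 := norm_nonneg U
  have n2 := norm_nonneg (U - 1)
  have h3 : ‖U - 1‖ ^ 2 ≤ (‖U‖ - 47/100) ^ 2 := pow_le_pow_left₀ n2 h1 2
  have h4 : ‖U - 1‖ ^ 2 ≤ (1 + 227/500 * ‖U‖) ^ 2 := pow_le_pow_left₀ n2 h2 2
  have h5 : U.re ≤ ‖U‖ := re_le_norm U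
  have h6 : 47/100 * ‖U‖ + 7791/20000 ≤ U.re := by nlinarith
  have h7 : 3969/10000 * ‖U‖ ^ 2 - 227/500 * ‖U‖ ≤ U.re := by nlinarith
  refine ⟨e1, e2, h6, h7, by linarith, ?_⟩
  by_contra hc
  push Not at hc
  have h8 : 396942/1000000 * ‖U‖ ^ 2 - 227/500 * ‖U‖ ≤ U.re := by nlinarith
  nlinarith

theorem FlatUV.symm {U V : ℂ} (h : FlatUV U V) : FlatUV V U := by
  obtain ⟨h1, h2, h3, h4⟩ := h
  refine ⟨by rw [add_comm V U]; exact h1, h3, h2, ?_⟩
  rcases h4 with h4 | ⟨h4, h5, h6⟩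
  · left
    rw [norm_sub_rev, add_comm V U, mul_comm ‖V‖]
    exact h4
  · right
    refine ⟨by rw [add_comm V U]; exact h4, by rw [norm_sub_rev, add_comm V U, mul_comm ‖V‖]; exact h5,
      ?_⟩
    have e : ‖V + (starRingEnd ℂ) U‖ = ‖U + (starRingEnd ℂ) V‖ := by
      rw [← norm_conj (V + (starRingEnd ℂ) U), map_add, conj_conj, add_comm]
    rw [e, add_comm (‖U‖ ^ 2 * V.re)]
    exact h6

theorem flatUV_of_KA {U V : ℂ} (hU : KA U) (hV : KA V) : FlatUV U V := by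
  wlog hab : ‖V‖ ≤ ‖U‖ generalizing U V
  · exact (this hV hU (le_of_not_ge hab)).symm
  obtain ⟨a1, a2, a3, a4, a5, a6⟩ := KA_facts hU
  obtain ⟨b1, b2, b3, b4, b5, b6⟩ := KA_facts hV
  have eN : ‖U + V - 1‖ ^ 2 = (U.re + V.re - 1) ^ 2 + (U.im + V.im) ^ 2 := by
    rw [← normSq_eq_norm_sq, normSq_apply]
    simp only [sub_re, sub_im, add_re, add_im, one_re, one_im, sub_zero]
    ring
  have eD : ‖U - V‖ ^ 2 = (U.re - V.re) ^ 2 + (U.im - V.im) ^ 2 := by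
    rw [← normSq_eq_norm_sq, normSq_apply]
    simp only [sub_re, sub_im]
    ring
  have eS : ‖U + V‖ ^ 2 = (U.re + V.re) ^ 2 + (U.im + V.im) ^ 2 := by
    rw [← normSq_eq_norm_sq, normSq_apply]
    simp only [add_re, add_im]
    ring
  have eT : ‖U + (starRingEnd ℂ) V‖ ^ 2 = (U.re + V.re) ^ 2 + (U.im - V.im) ^ 2 := by
    rw [← normSq_eq_norm_sq, normSq_apply]
    simp only [add_re, add_im, conj_re, conj_im]
    ring
  have r1 : ‖U‖ - ‖V - 1‖ ≤ ‖U + V - 1‖ := by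
    have := norm_sub_norm_le U (-(V - 1))
    rw [norm_neg, sub_neg_eq_add, ← add_sub_assoc] at this
    exact this
  have r2 : ‖V‖ - ‖U - 1‖ ≤ ‖U + V - 1‖ := by
    have := norm_sub_norm_le V (-(U - 1))
    rw [norm_neg, sub_neg_eq_add, ← add_sub_assoc, add_comm V U] at this
    exact this
  have q1 := hU.1
  have q2 := hV.1
  have hre : (U + V - 1).re = U.re + V.re - 1 := by simp
  have hre' : (U + V).re = U.re + V.re := by simp
  refine ⟨by rw [hre]; linarith, by linarith, by linarith, ?_⟩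
  rw [hre, hre', eT]
  rcases le_total ‖U + V - 1‖ (7/4) with hr | hr
  · left
    have := ft_nu (a := ‖U‖) (b := ‖V‖) (R := U.re + V.re) (r := ‖U + V - 1‖) b5 hab
      (by linarith) (by linarith) hr
    have e : ‖U - V‖ ^ 2 = 2 * (‖U‖ ^ 2 + ‖V‖ ^ 2) + 1 - ‖U + V - 1‖ ^ 2 -
        2 * (U.re + V.re) := by
      rw [eD, eN, a1, b1]
      ring
    rw [e]
    exact this
  · right
    refine ⟨by linarith, ?_, ?_⟩
    · have hz : (‖U‖ - ‖V‖ + 47/100) ^ 2 + 2 * (U.re + V.re) - 1 ≤ ‖U + V‖ ^ 2 := by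
        have h1 : (‖U‖ - ‖V‖ + 47/100) ^ 2 ≤ ‖U + V - 1‖ ^ 2 :=
          pow_le_pow_left₀ (by linarith) (by linarith) 2
        have h2 : ‖U + V‖ ^ 2 = ‖U + V - 1‖ ^ 2 + 2 * (U.re + V.re) - 1 := by
          rw [eS, eN]
          ring
        linarith
      have := ft_B (a := ‖U‖) (b := ‖V‖) (R := U.re + V.re) (z := ‖U + V‖ ^ 2) b5 hab a6
        (by linarith) (by linarith) hz
      have e : ‖U - V‖ ^ 2 = 2 * (‖U‖ ^ 2 + ‖V‖ ^ 2) - ‖U + V‖ ^ 2 := by
        rw [eD, eS, a1, b1]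
        ring
      have h3 : 0 ≤ ‖U - V‖ ^ 2 * (‖U + V‖ - 3) ^ 2 := by positivity
      rw [← e] at this
      nlinarith
    · exact ft_C (norm_nonneg U) (norm_nonneg V) (norm_nonneg (U - 1)) (norm_nonneg (V - 1))
        a1 a2 q1 b1 b2 q2 eN hr r1 r2


/-! ### The region of `v` -/

/-- The region between the `u`-line of height `θ` and its mirror image, `|re v| ≤ 13/40`. -/
def Kore (θ : ℝ) (v : ℂ) : Prop :=
  |v.re| ≤ 13 / 40 ∧ |Real.sinh (Real.pi * v.im)| ≤ Real.tan θ * Real.cos (Real.pi * v.re)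

theorem Kore.conj {θ : ℝ} {v : ℂ} (h : Kore θ v) : Kore θ ((starRingEnd ℂ) v) := by
  unfold Kore at h ⊢
  rw [conj_re, conj_im, mul_neg, Real.sinh_neg, abs_neg]
  exact h

theorem Kore.neg {θ : ℝ} {v : ℂ} (h : Kore θ v) : Kore θ (-v) := by
  unfold Kore at h ⊢
  rw [neg_re, neg_im, mul_neg, Real.sinh_neg, abs_neg, abs_neg, mul_neg, Real.cos_neg]
  exact h

private theorem ft_cos54 : (47 / 100 : ℝ) ≤ Real.cos (2 * (27 / 50)) := by
  have h0 : (99772079 / 100000000 : ℝ) ≤ Real.cos (27 / 400) := by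
    have := (abs_le.mp (Real.cos_bound (x := 27 / 400) (by rw [abs_le]; constructor <;> norm_num))).1
    rw [abs_of_pos (by norm_num : (0:ℝ) < 27/400)] at this
    norm_num at this ⊢
    linarith
  have dbl : ∀ x l m : ℝ, 0 ≤ l → l ≤ Real.cos x → m ≤ 2 * l ^ 2 - 1 → m ≤ Real.cos (2 * x) := by
    intro x l m h1 h2 h3
    rw [Real.cos_two_mul]
    nlinarith
  have h1 := dbl _ _ (9908935 / 10000000) (by norm_num) h0 (by norm_num)
  have h2 := dbl _ _ (9637398 / 10000000) (by norm_num) h1 (by norm_num)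
  have h3 := dbl _ _ (857588 / 1000000) (by norm_num) h2 (by norm_num)
  have h4 := dbl _ _ (47 / 100) (by norm_num) h3 (by norm_num)
  have e : (2 : ℝ) * (2 * (2 * (2 * (27 / 400)))) = 2 * (27 / 50) := by norm_num
  rw [e] at h4
  exact h4

/-- The bound for the heights. -/
theorem tan_sq_le_of {θ : ℝ} (h0 : 0 ≤ θ) (h1 : θ ≤ 27 / 50) : Real.tan θ ^ 2 ≤ 53 / 147 := by
  have hpi := Real.pi_gt_three
  have h2 : (47 / 100 : ℝ) ≤ Real.cos (2 * θ) :=
    ft_cos54.trans (Real.cos_le_cos_of_nonneg_of_le_pi (by linarith) (by linarith) (by linarith))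
  have h3 : 0 < Real.cos θ := Real.cos_pos_of_mem_Ioo ⟨by linarith, by linarith⟩
  rw [Real.cos_two_mul] at h2
  rw [Real.tan_eq_sin_div_cos, div_pow, div_le_div_iff₀ (by positivity) (by norm_num)]
  have h4 := Real.sin_sq_add_cos_sq θ
  nlinarith

private theorem ft_cos65 : -(227 / 500 : ℝ) ≤ Real.cos (2 * (Real.pi * (13 / 40))) := by
  have h5 : Real.sqrt 5 ≤ 22361 / 10000 := by
    rw [show (22361 / 10000 : ℝ) = Real.sqrt ((22361 / 10000) ^ 2) by
      rw [Real.sqrt_sq (by norm_num)]]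
    exact Real.sqrt_le_sqrt (by norm_num)
  have h50 := Real.sqrt_nonneg 5
  have h55 : Real.sqrt 5 ^ 2 = 5 := Real.sq_sqrt (by norm_num)
  have e1 : Real.cos (2 * (Real.pi * (13 / 40))) = -Real.sin (3 * Real.pi / 20) := by
    rw [show 2 * (Real.pi * (13 / 40)) = 3 * Real.pi / 20 + Real.pi / 2 by ring,
      Real.cos_add_pi_div_two]
  rw [e1, neg_le_neg_iff]
  have hs0 : 0 ≤ Real.sin (Real.pi / 5) :=
    Real.sin_nonneg_of_nonneg_of_le_pi (by positivity) (by linarith [Real.pi_pos])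
  have h1 : Real.sin (Real.pi / 5) ^ 2 = (5 - Real.sqrt 5) / 8 := by
    have := Real.sin_sq_add_cos_sq (Real.pi / 5)
    rw [Real.cos_pi_div_five] at this
    nlinarith
  have h2 : 587768 / 1000000 ≤ Real.sin (Real.pi / 5) := by
    by_contra hc
    push Not at hc
    nlinarith
  have h3 : Real.sin (3 * Real.pi / 20) ^ 2 = (1 - Real.sin (Real.pi / 5)) / 2 := by
    have h4 : Real.cos (2 * (3 * Real.pi / 20)) = Real.sin (Real.pi / 5) := by
      rw [← Real.cos_pi_div_two_sub]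
      congr 1
      ring
    have h6 := Real.cos_sq' (3 * Real.pi / 20)
    rw [Real.cos_two_mul] at h4
    linarith
  have h4 : Real.sin (3 * Real.pi / 20) ^ 2 ≤ (227 / 500) ^ 2 := by
    rw [h3]
    nlinarith
  exact le_of_sq_le_sq h4 (by norm_num)

theorem Kore.cos_pos {θ : ℝ} {v : ℂ} (h : Kore θ v) : 0 < Real.cos (Real.pi * v.re) := by
  have hpi := Real.pi_pos
  have h1 := abs_le.mp h.1
  exact Real.cos_pos_of_mem_Ioo ⟨by nlinarith, by nlinarith⟩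

theorem Kore.cos_ne {θ : ℝ} {v : ℂ} (h : Kore θ v) : cos (Real.pi * v) ≠ 0 := by
  have h1 := h.cos_pos
  have e : (Real.pi : ℂ) * v = ((Real.pi * v.re : ℝ) : ℂ) + ((Real.pi * v.im : ℝ) : ℂ) * I := by
    conv_lhs => rw [← re_add_im v]
    push_cast
    ring
  rw [e, cos_add_mul_I]
  intro h0
  have := congrArg Complex.re h0
  simp only [sub_re, mul_re, ← ofReal_cos, ← ofReal_sin, ← ofReal_cosh, ← ofReal_sinh, ofReal_re,
    ofReal_im, I_re, I_im, mul_zero, mul_one, sub_zero, zero_re, mul_im, add_zero, sub_self,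
    zero_mul] at this
  have h2 := Real.cosh_pos (Real.pi * v.im)
  have : 0 < Real.cos (Real.pi * v.re) * Real.cosh (Real.pi * v.im) := by positivity
  linarith

theorem Kore.KA' {θ : ℝ} {v : ℂ} (hθ : Real.tan θ ^ 2 ≤ 53 / 147) (h : Kore θ v) :
    KA (1 / cos (Real.pi * v) ^ 2) := by
  have hpi := Real.pi_pos
  have hc := h.cos_pos
  have hne := h.cos_ne
  obtain ⟨hx, hy⟩ := h
  have e : (Real.pi : ℂ) * v = ((Real.pi * v.re : ℝ) : ℂ) + ((Real.pi * v.im : ℝ) : ℂ) * I := by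
    conv_lhs => rw [← re_add_im v]
    push_cast
    ring
  set x := Real.pi * v.re with hxdef
  set y := Real.pi * v.im with hydef
  have hch := Real.cosh_sq y
  have hsc := Real.sin_sq_add_cos_sq x
  have n1 : ‖cos (Real.pi * v)‖ ^ 2 = Real.cos x ^ 2 + Real.sinh y ^ 2 := by
    rw [e, cos_add_mul_I, ← normSq_eq_norm_sq, normSq_apply]
    simp only [sub_re, sub_im, mul_re, mul_im, ← ofReal_cos, ← ofReal_sin, ← ofReal_cosh,
      ← ofReal_sinh, ofReal_re, ofReal_im, I_re, I_im, mul_zero, mul_one, sub_zero, add_zero,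
      zero_mul, zero_sub, zero_add, sub_self]
    nlinarith
  have n2 : ‖sin (Real.pi * v)‖ ^ 2 = Real.sin x ^ 2 + Real.sinh y ^ 2 := by
    rw [e, sin_add_mul_I, ← normSq_eq_norm_sq, normSq_apply]
    simp only [add_re, add_im, mul_re, mul_im, ← ofReal_cos, ← ofReal_sin, ← ofReal_cosh,
      ← ofReal_sinh, ofReal_re, ofReal_im, I_re, I_im, mul_zero, mul_one, sub_zero, add_zero,
      zero_mul, zero_add, sub_self]
    nlinarith
  have hD : 0 < Real.cos x ^ 2 + Real.sinh y ^ 2 := by positivity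
  have e1 : ‖1 / cos (Real.pi * v) ^ 2‖ = 1 / (Real.cos x ^ 2 + Real.sinh y ^ 2) := by
    rw [norm_div, norm_one, norm_pow, n1]
  have e2 : ‖1 / cos (Real.pi * v) ^ 2 - 1‖ =
      (Real.sin x ^ 2 + Real.sinh y ^ 2) / (Real.cos x ^ 2 + Real.sinh y ^ 2) := by
    have h2 : cos (Real.pi * v) ^ 2 ≠ 0 := pow_ne_zero 2 hne
    have h3 : 1 / cos (Real.pi * v) ^ 2 - 1 = sin (Real.pi * v) ^ 2 / cos (Real.pi * v) ^ 2 := by
      have h4 := sin_sq_add_cos_sq (Real.pi * v)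
      have h5 : sin (Real.pi * v) ^ 2 = 1 - cos (Real.pi * v) ^ 2 := by linear_combination h4
      rw [h5, sub_div, div_self h2]
    rw [h3, norm_div, norm_pow, norm_pow, n1, n2]
  -- the two bounds
  have b1 : Real.sinh y ^ 2 ≤ 53 / 147 * Real.cos x ^ 2 := by
    have h2 : Real.sinh y ^ 2 ≤ (Real.tan θ * Real.cos x) ^ 2 := by
      rw [← sq_abs (Real.sinh y)]
      exact pow_le_pow_left₀ (abs_nonneg _) hy 2
    have h3 := hθ
    have h4 : Real.tan θ ^ 2 * Real.cos x ^ 2 ≤ 53 / 147 * Real.cos x ^ 2 :=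
      mul_le_mul_of_nonneg_right h3 (by positivity)
    nlinarith
  have b2 : Real.sin x ^ 2 - Real.cos x ^ 2 ≤ 227 / 500 := by
    have h2 : Real.cos (2 * (Real.pi * (13 / 40))) ≤ Real.cos (2 * |x|) := by
      apply Real.cos_le_cos_of_nonneg_of_le_pi (by positivity) (by nlinarith)
      rw [hxdef, abs_mul, abs_of_pos hpi]
      nlinarith
    have h3 : Real.cos (2 * |x|) = Real.cos (2 * x) := by
      rcases abs_cases x with h3 | h3
      · rw [h3.1]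
      · rw [h3.1, mul_neg, Real.cos_neg]
    have h4 := Real.cos_two_mul x
    have := ft_cos65
    linarith
  constructor
  · rw [e1, e2, div_le_iff₀ hD, sub_mul, div_mul_cancel₀ _ hD.ne']
    nlinarith
  · rw [e1, e2, div_le_iff₀ hD, add_mul, mul_assoc, div_mul_cancel₀ _ hD.ne']
    nlinarith

theorem Kore.KA {θ : ℝ} {v : ℂ} (h0 : 0 ≤ θ) (h1 : θ ≤ 27 / 50) (h : Kore θ v) :
    KA (1 / cos (Real.pi * v) ^ 2) :=
  h.KA' (tan_sq_le_of h0 h1)

/-- **The flat.** -/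
theorem EE_kore_lt {v w : ℂ} {θ θ' s h t : ℝ} (h0 : 0 ≤ θ) (h1 : θ ≤ 27 / 50) (h0' : 0 ≤ θ')
    (h1' : θ' ≤ 27 / 50) (hv : Kore θ v) (hw : Kore θ' w) (hs : 0 < s) (hs' : s < 1 / 2)
    (hc : 1 / cos (Real.pi * ((s : ℂ) + h * I)) ^ 2 =
      1 / cos (Real.pi * v) ^ 2 + 1 / cos (Real.pi * w) ^ 2)
    (ht : 0 ≤ t) (ht' : t ≤ 1 / 2) (hne : t ≠ s) :
    EE (.op v) (.op w) ((t : ℂ) + h * I) < EE (.op v) (.op w) ((s : ℂ) + h * I) :=
  EE_flat_lt hs hs' ht ht' hne hv.cos_ne hw.cos_ne hc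
    (flatUV_of_KA (hv.KA h0 h1) (hw.KA h0' h1'))

/-- **The flat**, with `y₀` the critical point. -/
theorem EE_kore_le {v w y₀ : ℂ} {θ θ' t : ℝ} (h0 : 0 ≤ θ) (h1 : θ ≤ 27 / 50) (h0' : 0 ≤ θ')
    (h1' : θ' ≤ 27 / 50) (hv : Kore θ v) (hw : Kore θ' w) (hs : 0 < y₀.re) (hs' : y₀.re < 1 / 2)
    (hc : 1 / cos (Real.pi * y₀) ^ 2 =
      1 / cos (Real.pi * v) ^ 2 + 1 / cos (Real.pi * w) ^ 2)
    (ht : 0 ≤ t) (ht' : t ≤ 1 / 2) :
    EE (.op v) (.op w) ((t : ℂ) + y₀.im * I) ≤ EE (.op v) (.op w) y₀ := by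
  by_cases hne : t = y₀.re
  · rw [hne, re_add_im]
  · have hc' : 1 / cos (Real.pi * ((y₀.re : ℂ) + y₀.im * I)) ^ 2 =
        1 / cos (Real.pi * v) ^ 2 + 1 / cos (Real.pi * w) ^ 2 := by
      rw [re_add_im]
      exact hc
    have := EE_kore_lt h0 h1 h0' h1' hv hw hs hs' hc' ht ht' hne
    rw [re_add_im] at this
    exact this.le

/-- The points of the contour: between the real axis and the `u`-line. -/
theorem Kore_of_bl {θ : ℝ} {v : ℂ} (hx : |v.re| ≤ 13 / 40)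
    (hy : |v.im| ≤ bl θ v.re) : Kore θ v := by
  have hpi := Real.pi_pos
  refine ⟨hx, ?_⟩
  have h2 : Real.sinh (Real.pi * bl θ v.re) = Real.tan θ * Real.cos (Real.pi * v.re) := by
    unfold bl
    rw [mul_div_cancel₀ _ hpi.ne', Real.sinh_arsinh]
  rw [← h2]
  have h3 := abs_le.mp hy
  rw [abs_le, ← Real.sinh_neg]
  exact ⟨Real.sinh_le_sinh.mpr (by nlinarith), Real.sinh_le_sinh.mpr (by nlinarith)⟩

end Pool.Agent.S3
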