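import Pool.Agent.S3.Ks4
import Pool.Agent.S3.KsDef

/-!
# Edge kernels: the statements which are used in the assembly
-/

set_option autoImplicit false

namespace Pool.Agent.S3

open Pool.Agent.H63.VC hiding ext
open Pool.Agent.H63.VC3 Pool.Agent.H63.VC7 Complex MeasureTheory Filter Topology Set
open Pool.Agent.H25.RK

/-! ### Polygons with horizontal and vertical sides -/

theorem segment_h {S : Set ℂ} {a b h : ℝ} (hab : a ≤ b)
    (H : ∀ x ∈ Icc a b, (x : ℂ) + h * I ∈ S) :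
    segment ℝ ((a : ℂ) + h * I) ((b : ℂ) + h * I) ⊆ S := by
  rintro z ⟨s, t, hs, ht, hst, rfl⟩
  have e : s • ((a : ℂ) + h * I) + t • ((b : ℂ) + h * I) = ((s • a + t • b : ℝ) : ℂ) + h * I := by
    have h1 : (s : ℂ) + t = 1 := by exact_mod_cast hst
    rw [real_smul, real_smul, smul_eq_mul, smul_eq_mul]
    push_cast
    linear_combination (h * I) * h1
  rw [e]
  exact H _ ((convex_Icc a b) (left_mem_Icc.2 hab) (right_mem_Icc.2 hab) hs ht hst)

theorem segment_v {S : Set ℂ} {x a b : ℝ} (H : ∀ Y ∈ uIcc a b, (x : ℂ) + Y * I ∈ S) :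
    segment ℝ ((x : ℂ) + a * I) ((x : ℂ) + b * I) ⊆ S := by
  rintro z ⟨s, t, hs, ht, hst, rfl⟩
  have e : s • ((x : ℂ) + a * I) + t • ((x : ℂ) + b * I) =
      (x : ℂ) + ((s • a + t • b : ℝ) : ℂ) * I := by
    have h1 : (s : ℂ) + t = 1 := by exact_mod_cast hst
    rw [real_smul, real_smul, smul_eq_mul, smul_eq_mul]
    push_cast
    linear_combination (x : ℂ) * h1
  rw [e]
  exact H _ ((convex_uIcc a b) left_mem_uIcc right_mem_uIcc hs ht hst)

theorem pre_poly {S : Set ℂ} {t h : ℕ → ℝ} (h0 : ∀ Y ∈ uIcc 0 (h 0), (t 0 : ℂ) + Y * I ∈ S)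
    (t0 : t 0 = 0) : ∀ i : ℕ, (∀ j < i, t j ≤ t (j + 1)) →
    (∀ j < i, ∀ x ∈ Icc (t j) (t (j + 1)), (x : ℂ) + h j * I ∈ S) →
    (∀ j < i, ∀ Y ∈ uIcc (h j) (h (j + 1)), (t (j + 1) : ℂ) + Y * I ∈ S) →
    Poly S (2 * i + 1) 0 (t i + h i * I) := by
  intro i
  induction i with
  | zero =>
    intro _ _ _
    have h1 := segment_v (S := S) (x := t 0) (a := 0) (b := h 0) h0
    rw [t0] at h1
    have e : ((0 : ℝ) : ℂ) + ((0 : ℝ) : ℂ) * I = 0 := by simp
    rw [e] at h1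
    rw [t0]
    exact Poly.seg h1
  | succ i ih =>
    intro hm hh hv
    have h1 := ih (fun j hj => hm j (by omega)) (fun j hj => hh j (by omega))
      (fun j hj => hv j (by omega))
    have h2 := h1.snoc (segment_h (hm i (by omega)) (hh i (by omega)))
    exact h2.snoc (segment_v (hv i (by omega)))

theorem suf_poly {S : Set ℂ} {t h : ℕ → ℝ} {n : ℕ}
    (hl : ∀ Y ∈ uIcc (h (n - 1)) 0, (t n : ℂ) + Y * I ∈ S) : ∀ d i : ℕ, i + d + 1 = n →
    (∀ j, i < j → j < n → t j ≤ t (j + 1)) →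
    (∀ j, i < j → j < n → ∀ x ∈ Icc (t j) (t (j + 1)), (x : ℂ) + h j * I ∈ S) →
    (∀ j, i ≤ j → j + 1 < n → ∀ Y ∈ uIcc (h j) (h (j + 1)), (t (j + 1) : ℂ) + Y * I ∈ S) →
    Poly S (2 * d + 1) (t (i + 1) + h i * I) (t n) := by
  intro d
  induction d with
  | zero =>
    intro i hi _ _ _
    have h1 := segment_v (S := S) (x := t n) (a := h (n - 1)) (b := 0) hl
    have e : (t n : ℂ) + ((0 : ℝ) : ℂ) * I = t n := by simp
    rw [e] at h1
    rw [show i + 1 = n by omega, show i = n - 1 by omega]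
    exact Poly.seg h1
  | succ d ih =>
    intro i hi hm hh hv
    have h1 := ih (i + 1) (by omega) (fun j hj => hm j (by omega))
      (fun j hj => hh j (by omega)) (fun j hj => hv j (by omega))
    have h2 : Poly S 1 ((t (i + 1) : ℂ) + h i * I) (t (i + 1) + h (i + 1) * I) :=
      Poly.seg (segment_v (hv i le_rfl (by omega)))
    have h3 := (h2.snoc (segment_h (hm (i + 1) (by omega) (by omega))
      (hh (i + 1) (by omega) (by omega)))).trans h1
    rwa [show 1 + 1 + (2 * d + 1) = 2 * (d + 1) + 1 by ring] at h3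

theorem Pgn.tmono {n : ℕ} {t h : ℕ → ℝ} (hg : Pgn n t h) {i j : ℕ} (hij : i ≤ j) (hj : j ≤ n) :
    t i ≤ t j := by
  induction j, hij using Nat.le_induction with
  | base => exact le_rfl
  | succ j hij ih => exact (ih (by omega)).trans (hg.mono j (by omega))

theorem Pgn.nonneg {n : ℕ} {t h : ℕ → ℝ} (hg : Pgn n t h) {i : ℕ} (hi : i ≤ n) : 0 ≤ t i := by
  rw [← hg.t0]
  exact hg.tmono (Nat.zero_le i) hi

theorem Pgn.le_half {n : ℕ} {t h : ℕ → ℝ} (hg : Pgn n t h) {i : ℕ} (hi : i ≤ n) :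
    t i ≤ 1 / 2 := by
  rw [← hg.tn]
  exact hg.tmono hi le_rfl

theorem mem_bxy {x y : ℝ} (h0 : 0 ≤ x) (h1 : x ≤ 1 / 2) (hy : |y| ≤ 1) :
    (x : ℂ) + y * I ∈ bxy 1 := by
  refine ⟨?_, ?_, ?_⟩
  · rw [line_re]
    exact h0
  · rw [line_re]
    exact h1
  · rw [line_im]
    exact hy

theorem abs_le_of_uIcc {a b y : ℝ} (ha : |a| ≤ 1) (hb : |b| ≤ 1) (hy : y ∈ uIcc a b) :
    |y| ≤ 1 := by
  rw [abs_le] at *
  rw [mem_uIcc] at hy
  rcases hy with h | h
  · constructor <;> linarith [h.1, h.2]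
  · constructor <;> linarith [h.1, h.2]

/-- Every side of the polygon lies in the box. -/
theorem PolOn.box {n : ℕ} {t h : ℕ → ℝ} {P : ℂ → Prop} (hg : Pgn n t h) (hp : PolOn n t h P) :
    PolOn n t h fun z => z ∈ bxy 1 ∧ P z := by
  obtain ⟨p1, p2, p3, p4⟩ := hp
  have hn := hg.n1
  refine ⟨fun i hi x hx => ⟨mem_bxy ?_ ?_ (hg.ht i hi), p1 i hi x hx⟩,
    fun Y hY => ⟨mem_bxy (hg.nonneg (by omega)) (hg.le_half (by omega)) ?_, p2 Y hY⟩,
    fun i hi Y hY => ⟨mem_bxy (hg.nonneg (by omega)) (hg.le_half (by omega)) ?_, p3 i hi Y hY⟩,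
    fun Y hY => ⟨mem_bxy (hg.nonneg le_rfl) (hg.le_half le_rfl) ?_, p4 Y hY⟩⟩
  · exact (hg.nonneg (by omega)).trans hx.1
  · exact hx.2.trans (hg.le_half (by omega))
  · exact abs_le_of_uIcc (by simp) (hg.ht 0 (by omega)) hY
  · exact abs_le_of_uIcc (hg.ht i (by omega)) (hg.ht (i + 1) hi) hY
  · exact abs_le_of_uIcc (hg.ht (n - 1) (by omega)) (by simp) hY

theorem PolOn.poly {n : ℕ} {t h : ℕ → ℝ} {P : ℂ → Prop} (hg : Pgn n t h) (hp : PolOn n t h P) :
    Poly {z | z ∈ bxy 1 ∧ P z} (2 * n + 1) 0 (1 / 2) := by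
  obtain ⟨p1, p2, p3, p4⟩ := hp.box hg
  obtain ⟨n, rfl⟩ : ∃ k, n = k + 1 := ⟨n - 1, by have := hg.n1; omega⟩
  have h1 := pre_poly (S := {z | z ∈ bxy 1 ∧ P z}) (t := t) (h := h) p2 hg.t0 n
    (fun j hj => hg.mono j (by omega)) (fun j hj => p1 j (by omega)) (fun j hj => p3 j (by omega))
  have h2 := suf_poly (S := {z | z ∈ bxy 1 ∧ P z}) (t := t) (h := h) (n := n + 1) p4 0 n rfl
    (fun j h1 h2 => by omega) (fun j h1 h2 => by omega) (fun j h1 h2 => by omega)
  have h3 := (h1.snoc (segment_h (hg.mono n (by omega)) (p1 n (by omega)))).trans h2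
  have e : ((t (n + 1) : ℝ) : ℂ) = 1 / 2 := by
    rw [hg.tn]
    push_cast
    rfl
  rw [e] at h3
  rwa [show 2 * n + 1 + 1 + (2 * 0 + 1) = 2 * (n + 1) + 1 by ring] at h3

theorem Poly.pad {S : Set ℂ} {n k : ℕ} {a b : ℂ} (h : Poly S n a b) (hnk : n ≤ k)
    (hb : b ∈ S) : Poly S k a b := by
  induction k, hnk using Nat.le_induction with
  | base => exact h
  | succ k _ ih => exact ih.snoc (by rw [segment_same]; simpa using hb)

theorem B0_eq {σ : Sl} (h : σ.nn) : B0 σ = Real.pi * σ.ht := by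
  rcases σ with v | s
  · have h' : 0 ≤ v.im := h
    unfold B0 Sl.ht
    simp only
    rw [abs_of_nonneg h']
  · unfold B0 Sl.ht
    simp only
    rw [mul_zero]

theorem Sl.bd_ht {σ : Sl} {H : ℝ} (hH : 0 ≤ H) (h : σ.nn) (h' : σ.bd H) : σ.ht ≤ H := by
  rcases σ with v | s
  · have h1 : 0 ≤ v.im := h
    have h2 : v.im ≤ H := h'
    unfold Sl.ht
    simp only
    rw [abs_of_nonneg h1]
    exact h2
  · exact hH

/-- The kernel is bounded by the growth on a polygon. -/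
theorem ksB : KsB := by
  intro N H0
  set H : ℝ := max H0 0 with hH
  have hH0 : 0 ≤ H := le_max_right _ _
  obtain ⟨C1, hC1, p1, h1⟩ := FM_bound
  have key : ∀ n : ℕ, ∃ K : ℝ, 0 < K ∧ ∃ p : ℕ, ∀ k ≤ n, ∀ M : ℕ, 3 ≤ M → ∀ (σ τ : Sl),
      σ.ok → τ.ok → σ.ht ≤ H → τ.ht ≤ H → ∀ m : ℝ, Real.pi * (σ.ht + τ.ht) ≤ m →
      (∀ y : ℝ, -1 / 10 ≤ y → y ≤ 0 → EE σ τ y ≤ m) →
      Poly (low 1 σ τ m) k 0 (1 / 2) →
      ‖KE M σ τ‖ ≤ K * M ^ p * Real.exp (M * m) := by
    intro n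
    obtain ⟨C, hC, p, h⟩ := KE_bd hH0 zero_le_one n
    refine ⟨C, hC, p, fun k hk M hM σ τ o1 o2 o3 o4 m m1 m2 hP => ?_⟩
    refine h M hM σ τ o1 o2 o3 o4 m m1 m2 (hP.pad hk ⟨?_, ?_⟩)
    · refine ⟨?_, ?_, ?_⟩ <;> norm_num
    · have a1 := se_right o1 0
      have a2 := se_right o2 0
      rw [abs_zero, zero_add, ofReal_zero, zero_mul, add_zero] at a1 a2
      have e : ((1 / 2 : ℝ) : ℂ) = 1 / 2 := by push_cast; rfl
      rw [e] at a1 a2
      unfold EE
      linarith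
  obtain ⟨C, hC, p, h⟩ := key (2 * N + 1)
  refine ⟨C + 2 * C1 * 2 ^ p1, by positivity, p, ?_⟩
  intro M hM σ τ o1 o2 n1 n2 b1 b2 n hn t hh hg B hB hmid hP
  have t1 := Sl.bd_ht (H := H) hH0 n1 (by
    rcases σ with v | s
    · exact le_trans (show v.im ≤ H0 from b1) (le_max_left _ _)
    · trivial)
  have t2 := Sl.bd_ht (H := H) hH0 n2 (by
    rcases τ with v | s
    · exact le_trans (show v.im ≤ H0 from b2) (le_max_left _ _)
    · trivial)
  have m1 : Real.pi * (σ.ht + τ.ht) ≤ B := by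
    rw [mul_add, ← B0_eq n1, ← B0_eq n2]
    exact hB
  have m2 : ∀ y : ℝ, -1 / 10 ≤ y → y ≤ 0 → EE σ τ y ≤ B := fun y hy1 hy2 =>
    hmid y ⟨by linarith, hy2⟩
  have hMR : (1 : ℝ) ≤ M := by exact_mod_cast hM
  have hMp : (1 : ℝ) ≤ (M : ℝ) ^ p := one_le_pow₀ hMR
  rcases Nat.lt_or_ge M 3 with h3 | h3
  · have hhalf : EE σ τ ((1 / 2 : ℝ) : ℂ) ≤ B := by
      have a1 := se_right o1 0
      have a2 := se_right o2 0
      rw [abs_zero, zero_add, ofReal_zero, zero_mul, add_zero] at a1 a2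
      unfold EE
      linarith
    have hterm : ∀ k ∈ Finset.Ico (k0 M) M, ‖FM M σ τ (yk 2 M k : ℝ)‖ ≤
        C1 * 2 ^ p1 * Real.exp (M * B) := by
      intro k hk
      rw [Finset.mem_Ico] at hk
      have hk2 := hk.2
      have hyk : (yk 2 M k = 1 / 2 ∨ yk 2 M k = 0) ∧ -1 / 2 + 1 / (2 * (M : ℝ)) ≤ yk 2 M k := by
        rw [yk_two]
        interval_cases M
        · interval_cases k
          norm_num
        · interval_cases k
          · norm_num
          · norm_num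
      have hE : EE σ τ ((yk 2 M k : ℝ) : ℂ) ≤ B := by
        rcases hyk.1 with h | h
        · rw [h]
          exact hhalf
        · rw [h]
          exact hmid 0 ⟨by norm_num, le_rfl⟩
      have h4 := h1 M hM σ τ ((yk 2 M k : ℝ) : ℂ) o1 o2 (by rw [ofReal_re]; exact hyk.2)
        (by
          rw [ofReal_re]
          rcases hyk.1 with h | h <;> rw [h]
          norm_num)
      rw [ofReal_im, abs_zero, mul_zero, Real.exp_zero, mul_one] at h4
      refine h4.trans ?_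
      have hM2 : (M : ℝ) ≤ 2 := by exact_mod_cast (by omega : M ≤ 2)
      gcongr
    rw [KE_eq M o1 o2]
    refine (norm_sum_le_of_le _ hterm).trans ?_
    rw [Finset.sum_const, Nat.card_Ico, nsmul_eq_mul]
    have h6 : (((M - k0 M : ℕ)) : ℝ) ≤ 2 := by
      exact_mod_cast (by omega : M - k0 M ≤ 2)
    have hE := Real.exp_pos (M * B)
    calc ((M - k0 M : ℕ) : ℝ) * (C1 * 2 ^ p1 * Real.exp (M * B))
        ≤ 2 * (C1 * 2 ^ p1 * Real.exp (M * B)) := by gcongr
      _ = 2 * C1 * 2 ^ p1 * 1 * Real.exp (M * B) := by ring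
      _ ≤ (C + 2 * C1 * 2 ^ p1) * M ^ p * Real.exp (M * B) := by
        gcongr
        linarith
  · have h4 := h (2 * n + 1) (by omega) M h3 σ τ o1 o2 t1 t2 B m1 m2 (hP.poly hg)
    refine h4.trans ?_
    gcongr
    have : 0 ≤ 2 * C1 * 2 ^ p1 := by positivity
    linarith

/-! ### The critical point -/

/-- A slot of the same kind as `σ`, with the variable `w`. -/
def Sl.mk' (σ : Sl) (w : ℂ) : Sl :=
  match σ with
  | .op _ => .op w
  | .cl s => .cl s

/-- The variable of a slot. -/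
def Sl.pt : Sl → ℂ
  | .op v => v
  | .cl _ => 0

theorem Sl.mk_pt (σ : Sl) : σ.mk' σ.pt = σ := by
  rcases σ with v | s <;> rfl

theorem Sl.mk_cont {X : Type*} [TopologicalSpace X] (σ : Sl) {w : X → ℂ} (hw : Continuous w) :
    SlC fun x => σ.mk' (w x) := by
  rcases σ with v | s
  · exact SlC.op hw
  · exact SlC.cl s

theorem Sl.near_mk {ρ : ℝ} (hρ : 0 < ρ) {σ σ0 : Sl} (h : σ.near ρ σ0) :
    ∃ w : ℂ, ‖w - σ0.pt‖ < ρ ∧ σ = σ0.mk' w := by
  rcases σ with v | s <;> rcases σ0 with v0 | s0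
  · exact ⟨v, h, rfl⟩
  · exact absurd h (by unfold Sl.near; simp)
  · exact absurd h (by unfold Sl.near; simp)
  · refine ⟨0, ?_, ?_⟩
    · unfold Sl.pt
      simpa using hρ
    · have : s = s0 := h
      rw [this]
      rfl

theorem Sl.near_ht {ρ : ℝ} {σ σ0 : Sl} (h : σ.near ρ σ0) (hρ : ρ ≤ 1) :
    σ.ht ≤ σ0.ht + 1 := by
  rcases σ with v | s <;> rcases σ0 with v0 | s0
  · have h' : ‖v - v0‖ < ρ := h
    unfold Sl.ht
    simp only
    have h1 := abs_im_le_norm (v - v0)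
    rw [sub_im] at h1
    have h2 := abs_sub_abs_le_abs_sub v.im v0.im
    linarith
  · exact absurd h (by unfold Sl.near; simp)
  · exact absurd h (by unfold Sl.near; simp)
  · unfold Sl.ht
    norm_num

/-- The local form of the kernel near the critical point. -/
theorem ksL : KsL := by
  intro σ0 τ0 yc L o1 o2 n1 n2 hC
  obtain ⟨c1, c2, _, n, t, h, hg, hP, i, hi, hi1, hi2, hi3⟩ := hC
  obtain ⟨p1, p2, p3, p4⟩ := hP.box hg
  have hn := hg.n1
  refine ⟨min (yc.re - t i) (t (i + 1) - yc.re), lt_min (by linarith) (by linarith), ?_⟩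
  intro r hr hr1
  have hra : r ≤ yc.re - t i := hr1.trans (min_le_left _ _)
  have hrb : r ≤ t (i + 1) - yc.re := hr1.trans (min_le_right _ _)
  have hti := hg.nonneg (i := i) (by omega)
  have hti' := hg.le_half (i := i + 1) (by omega)
  -- the strict inequality away from the critical point
  have hS : ∀ x y : ℝ, x ≠ yc.re → ((x : ℂ) + y * I ∈ bxy 1 ∧
      (EE σ0 τ0 ((x : ℂ) + y * I) < L ∨ (x : ℂ) + y * I = yc)) →
      (x : ℂ) + y * I ∈ slow 1 σ0 τ0 L := by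
    intro x y hx hz
    refine ⟨hz.1, ?_⟩
    rcases hz.2 with h | h
    · exact h
    · exfalso
      apply hx
      rw [← h, line_re]
  have q1 : ∀ j < n, j ≠ i → ∀ x ∈ Icc (t j) (t (j + 1)),
      (x : ℂ) + h j * I ∈ slow 1 σ0 τ0 L := by
    intro j hj hji x hx
    apply hS _ _ _ (p1 j hj x hx)
    rcases Nat.lt_or_gt_of_ne hji with h' | h'
    · have := hg.tmono (i := j + 1) (j := i) (by omega) (by omega)
      have := hx.2
      intro he
      linarith
    · have := hg.tmono (i := i + 1) (j := j) (by omega) (by omega)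
      have := hx.1
      intro he
      linarith
  have q2 : ∀ Y ∈ uIcc 0 (h 0), (t 0 : ℂ) + Y * I ∈ slow 1 σ0 τ0 L := by
    intro Y hY
    apply hS _ _ _ (p2 Y hY)
    have := hg.tmono (i := 0) (j := i) (by omega) (by omega)
    intro he
    linarith
  have q3 : ∀ j, j + 1 < n → ∀ Y ∈ uIcc (h j) (h (j + 1)),
      (t (j + 1) : ℂ) + Y * I ∈ slow 1 σ0 τ0 L := by
    intro j hj Y hY
    apply hS _ _ _ (p3 j hj Y hY)
    rcases Nat.lt_or_ge j i with h' | h'
    · have := hg.tmono (i := j + 1) (j := i) (by omega) (by omega)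
      intro he
      linarith
    · have := hg.tmono (i := i + 1) (j := j + 1) (by omega) (by omega)
      intro he
      linarith
  have q4 : ∀ Y ∈ uIcc (h (n - 1)) 0, (t n : ℂ) + Y * I ∈ slow 1 σ0 τ0 L := by
    intro Y hY
    apply hS _ _ _ (p4 Y hY)
    have := hg.tmono (i := i + 1) (j := n) (by omega) (by omega)
    intro he
    linarith
  have q5 : ∀ x ∈ Icc (t i) (t (i + 1)), x ≠ yc.re → (x : ℂ) + h i * I ∈ slow 1 σ0 τ0 L :=
    fun x hx hne => hS _ _ hne (p1 i hi x hx)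
  have ey : yc = (yc.re : ℂ) + h i * I := by
    rw [← hi3, re_add_im]
  have P1 : Poly (slow 1 σ0 τ0 L) (2 * i + 1 + 1) 0 (yc - r) := by
    have a1 := pre_poly (S := slow 1 σ0 τ0 L) (t := t) (h := h) q2 hg.t0 i
      (fun j hj => hg.mono j (by omega)) (fun j hj => q1 j (by omega) (by omega))
      (fun j hj => q3 j (by omega))
    have e : yc - r = ((yc.re - r : ℝ) : ℂ) + h i * I := by
      conv_lhs => rw [ey]
      push_cast
      ring
    rw [e]
    refine a1.snoc (segment_h (by linarith) fun x hx => q5 x ⟨hx.1, by linarith [hx.2]⟩ ?_)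
    intro he
    linarith [hx.2]
  have P2 : Poly (slow 1 σ0 τ0 L) (1 + (2 * (n - i - 1) + 1)) (yc + r) (1 / 2) := by
    have a1 := suf_poly (S := slow 1 σ0 τ0 L) (t := t) (h := h) (n := n) q4 (n - i - 1) i
      (by omega) (fun j h1 h2 => hg.mono j (by omega)) (fun j h1 h2 => q1 j (by omega) (by omega))
      (fun j h1 h2 => q3 j (by omega))
    have e : yc + r = ((yc.re + r : ℝ) : ℂ) + h i * I := by
      conv_lhs => rw [ey]
      push_cast
      ring
    have e2 : ((t n : ℝ) : ℂ) = 1 / 2 := by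
      rw [hg.tn]
      push_cast
      rfl
    rw [e2] at a1
    rw [e]
    refine (Poly.seg (segment_h (by linarith) fun x hx => q5 x ⟨by linarith [hx.1], hx.2⟩ ?_)).trans
      a1
    intro he
    linarith [hx.1]
  have hE : EndS σ0 τ0 L := by
    refine ⟨?_, fun y h1 h2 => c2 y ⟨by linarith, h2⟩⟩
    rw [mul_add, ← B0_eq n1, ← B0_eq n2]
    exact c1
  have s1 : SlC fun x : ℂ × ℂ => σ0.mk' x.1 := σ0.mk_cont continuous_fst
  have s2 : SlC fun x : ℂ × ℂ => τ0.mk' x.2 := τ0.mk_cont continuous_snd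
  obtain ⟨δ, hδ, K, hK, p, hloc⟩ := KE_loc (x0 := (σ0.pt, τ0.pt)) s1 s2
    (L := fun _ => L) continuous_const (B := σ0.ht + τ0.ht + 1) (H := 1)
    (by
      have := σ0.ht_nonneg
      have := τ0.ht_nonneg
      linarith) zero_le_one hr.le (yc := yc) (by linarith) (by linarith)
    (by simpa only [Sl.mk_pt] using hE)
    ⟨_, by simpa only [Sl.mk_pt] using P1⟩ ⟨_, by simpa only [Sl.mk_pt] using P2⟩
  rw [Metric.eventually_nhds_iff] at hloc
  obtain ⟨ρ0, hρ0, hl⟩ := hloc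
  refine ⟨min ρ0 1, lt_min hρ0 one_pos, δ, hδ, K, hK, p, ?_⟩
  filter_upwards [eventually_ge_atTop 3] with M hM σ τ k1 k2 _ _ m1 m2
  obtain ⟨w1, hw1, e1⟩ := Sl.near_mk (lt_min hρ0 one_pos) m1
  obtain ⟨w2, hw2, e2⟩ := Sl.near_mk (lt_min hρ0 one_pos) m2
  have hd : dist ((w1, w2) : ℂ × ℂ) (σ0.pt, τ0.pt) < ρ0 := by
    rw [Prod.dist_eq, max_lt_iff, dist_eq_norm, dist_eq_norm]
    exact ⟨hw1.trans_le (min_le_left _ _), hw2.trans_le (min_le_left _ _)⟩
  have t1 := Sl.near_ht m1 (min_le_right _ _)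
  have t2 := Sl.near_ht m2 (min_le_right _ _)
  have u1 := σ0.ht_nonneg
  have u2 := τ0.ht_nonneg
  have := hl hd M hM
  simp only [← e1, ← e2] at this
  exact this k1 k2 (by linarith) (by linarith)

end Pool.Agent.S3
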