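import Pool.Agent.S3.Gd
import Pool.Agent.S3.Pot

/-!
# Stage 3: `he z` is the principal logarithm of `2 sin (π z)` for `-1/2 < Re z < 1`, and `gd = π gdv`
-/

namespace Pool.Agent.S3

open Pool.Agent.H63.VC3 Complex
open Pool.Agent.H25.RK

theorem abs_arg_one_sub_lt {w : ℂ} (h : ‖w‖ < 1) : |(1 - w).arg| < Real.pi / 2 := by
  apply abs_arg_lt_pi_div_two_iff.2
  left
  rw [sub_re, one_re]
  have := re_le_norm w
  linarith

theorem norm_exp_lt {z : ℂ} (h : 0 < z.im) : ‖exp (2 * Real.pi * I * z)‖ < 1 := by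
  rw [norm_exp]
  have : (2 * (Real.pi : ℂ) * I * z).re = -(2 * Real.pi * z.im) := by
    simp [mul_re, mul_im]
  rw [this, Real.exp_lt_one_iff]
  have := Real.pi_pos
  have := mul_pos this h
  linarith

theorem norm_exp_lt' {z : ℂ} (h : z.im < 0) : ‖exp (-(2 * Real.pi * I * z))‖ < 1 := by
  rw [norm_exp]
  have : (-(2 * (Real.pi : ℂ) * I * z)).re = 2 * Real.pi * z.im := by
    simp [mul_re, mul_im]
  rw [this, Real.exp_lt_one_iff]
  have := Real.pi_pos
  nlinarith

/-- a logarithm of `w` whose imaginary part is in `(-π, π]` is the principal one -/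
theorem eq_log_of {L w : ℂ} (h : exp L = w) (h1 : -Real.pi < L.im) (h2 : L.im ≤ Real.pi) :
    L = log w := by
  rw [← h, log_exp h1 h2]

theorem sin_pi_im (z : ℂ) : (2 * sin (Real.pi * z)).im
    = 2 * (Real.cos (Real.pi * z.re) * Real.sinh (Real.pi * z.im)) := by
  have e : (Real.pi : ℂ) * z = ((Real.pi * z.re : ℝ) : ℂ) + ((Real.pi * z.im : ℝ) : ℂ) * I := by
    apply Complex.ext <;> simp
  rw [e, Complex.sin_add, Complex.cos_mul_I, Complex.sin_mul_I, ← ofReal_cosh, ← ofReal_sinh,
    ← ofReal_sin, ← ofReal_cos]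
  have : (2 : ℂ) * (((Real.sin (Real.pi * z.re) : ℝ) : ℂ) * ((Real.cosh (Real.pi * z.im) : ℝ) : ℂ)
      + ((Real.cos (Real.pi * z.re) : ℝ) : ℂ) * (((Real.sinh (Real.pi * z.im) : ℝ) : ℂ) * I))
      = ((2 * (Real.sin (Real.pi * z.re) * Real.cosh (Real.pi * z.im)) : ℝ) : ℂ)
        + ((2 * (Real.cos (Real.pi * z.re) * Real.sinh (Real.pi * z.im)) : ℝ) : ℂ) * I := by
    push_cast; ring
  rw [this]
  simp only [add_im, ofReal_im, mul_im, I_re, I_im, mul_zero, mul_one, zero_add, ofReal_re,
    add_zero]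

/-- the imaginary part of `he` in the upper half plane -/
theorem he_im_bounds {z : ℂ} (h : 0 < z.im) (h0 : -1 / 2 < z.re) (h1 : z.re < 1) :
    -Real.pi < (he z).im ∧ (he z).im < Real.pi := by
  have hpi := Real.pi_pos
  have ha := abs_lt.1 (abs_arg_one_sub_lt (norm_exp_lt h))
  have e : (he z).im = (1 - exp (2 * Real.pi * I * z)).arg - Real.pi * (z.re - 1 / 2) := by
    rw [he, if_pos h, sub_im, log_im]
    congr 1
    have : (Real.pi : ℂ) * I * (z - 1 / 2) = (Real.pi : ℂ) * (I * (z - 1 / 2)) := by ring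
    rw [this, im_ofReal_mul, mul_im, I_re, I_im, sub_re]
    norm_num
  rcases le_or_gt 0 z.re with h2 | h2
  · rw [e]
    constructor
    · have : Real.pi * z.re < Real.pi * 1 := mul_lt_mul_of_pos_left h1 hpi
      linarith [ha.1]
    · have : 0 ≤ Real.pi * z.re := mul_nonneg hpi.le h2
      linarith [ha.2]
  · -- `-1/2 < Re z < 0`
    have l1 : Real.pi / 2 < (he z).im ∨ (he z).im ≤ Real.pi := by
      rw [e]
      rcases le_or_gt ((1 - exp (2 * Real.pi * I * z)).arg) 0 with h3 | h3
      · right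
        have : Real.pi * z.re > Real.pi * (-1 / 2) := mul_lt_mul_of_pos_left h0 hpi
        linarith
      · left
        have : Real.pi * z.re < 0 := mul_neg_of_pos_of_neg hpi h2
        linarith
    have l2 : -Real.pi < (he z).im := by
      rw [e]
      have : Real.pi * z.re < 0 := mul_neg_of_pos_of_neg hpi h2
      linarith [ha.1]
    have l3 : (he z).im < 3 * Real.pi / 2 := by
      rw [e]
      have : Real.pi * z.re > Real.pi * (-1 / 2) := mul_lt_mul_of_pos_left h0 hpi
      linarith [ha.2]
    refine ⟨l2, ?_⟩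
    by_contra hc
    push Not at hc
    -- the sine of the imaginary part is positive
    have h4 := congrArg Complex.im (exp_he (z := z) (Or.inl h.ne'))
    rw [exp_im, sin_pi_im] at h4
    have h5 : 0 < Real.cos (Real.pi * z.re) := by
      apply Real.cos_pos_of_mem_Ioo
      constructor
      · have : Real.pi * z.re > Real.pi * (-1 / 2) := mul_lt_mul_of_pos_left h0 hpi
        linarith
      · have : Real.pi * z.re < 0 := mul_neg_of_pos_of_neg hpi h2
        linarith
    have h6 : 0 < Real.sinh (Real.pi * z.im) := Real.sinh_pos_iff.2 (mul_pos hpi h)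
    have h7 : 0 < Real.exp (he z).re * Real.sin (he z).im := by
      rw [h4]; positivity
    have h8 : 0 < Real.sin (he z).im := (pos_iff_pos_of_mul_pos h7).1 (Real.exp_pos _)
    have h9 : Real.sin (he z).im ≤ 0 := by
      rw [← Real.sin_sub_two_pi]
      apply Real.sin_nonpos_of_nonpos_of_neg_pi_le <;> linarith
    linarith

theorem he_conj {z : ℂ} (h : 0 < z.im) : he ((starRingEnd ℂ) z) = (starRingEnd ℂ) (he z) := by
  have h' : ¬ 0 < ((starRingEnd ℂ) z).im := by rw [conj_im]; linarith
  have h'' : ((starRingEnd ℂ) z).im < 0 := by rw [conj_im]; linarith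
  rw [he, if_neg h', if_pos h'', he, if_pos h, map_sub, ← log_conj]
  · rw [map_sub, map_one, ← exp_conj]
    have e1 : (starRingEnd ℂ) (2 * (Real.pi : ℂ) * I * z)
        = -(2 * Real.pi * I * (starRingEnd ℂ) z) := by
      simp only [map_mul, conj_I, conj_ofReal]
      rw [Complex.conj_ofNat]
      ring
    have e2 : (starRingEnd ℂ) ((Real.pi : ℂ) * I * (z - 1 / 2))
        = -(Real.pi * I * ((starRingEnd ℂ) z - 1 / 2)) := by
      simp only [map_mul, conj_I, conj_ofReal, map_sub, map_div₀, map_one]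
      rw [Complex.conj_ofNat]
      ring
    rw [e1, e2]
    ring
  · intro h0
    have := abs_arg_one_sub_lt (norm_exp_lt h)
    rw [h0, abs_of_pos Real.pi_pos] at this
    linarith [Real.pi_pos]

theorem he_eq_log {z : ℂ} (h : fdom z) (h0 : -1 / 2 < z.re) (h1 : z.re < 1) :
    he z = log (2 * sin (Real.pi * z)) := by
  have hpi := Real.pi_pos
  rcases lt_trichotomy z.im 0 with hz | hz | hz
  · have hc : 0 < ((starRingEnd ℂ) z).im := by rw [conj_im]; linarith
    have b := he_im_bounds hc (by rwa [conj_re]) (by rwa [conj_re])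
    have e : (he z).im = -(he ((starRingEnd ℂ) z)).im := by
      have := he_conj hc
      rw [conj_conj] at this
      rw [this, conj_im]
    apply eq_log_of (exp_he h)
    · rw [e]; linarith [b.2]
    · rw [e]; linarith [b.1]
  · rcases h with h | h
    · exact absurd hz h
    · rw [he, if_neg (by rw [hz]; exact lt_irrefl _), if_neg (by rw [hz]; exact lt_irrefl _), hh]
  · have b := he_im_bounds hz h0 h1
    exact eq_log_of (exp_he h) b.1 b.2.le

/-- the two Gudermannians -/
theorem gd_eq {u : ℂ} (h : |u.im| < Real.pi / 2) : gd u = Real.pi * gdv u := by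
  have hpi : (Real.pi : ℂ) ≠ 0 := by exact_mod_cast Real.pi_ne_zero
  have hg := exp_gdv h
  have hE := (gw_ne (exp_re_pos h)).1
  have hc := cosh_ne h
  have e : gw (exp u) = (1 + I * sinh u) / cosh u := by
    have h2 : exp u * exp (-u) = 1 := by rw [← exp_add]; simp
    have h3 : 2 * cosh u = exp u + exp (-u) := by rw [Complex.cosh]; ring
    have h4 : 2 * sinh u = exp u - exp (-u) := by rw [Complex.sinh]; ring
    rw [gw, div_eq_div_iff hE hc]
    linear_combination ((1 + I * exp u) / 2) * h3 - (I * (exp u + I) / 2) * h4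
      + I * h2 - ((exp u - exp (-u)) / 2) * I_sq
  have h1 : gd u = -I * (Real.pi * I * gdv u) := by
    rw [gd, ← e, gdv]
    field_simp
    linear_combination (-log (gw (exp u))) * I_sq
  rw [h1]
  linear_combination (-Real.pi * gdv u) * I_sq

end Pool.Agent.S3
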