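import Pool.Agent.S3.BridgeF
import Pool.Agent.S3.Flat
import Pool.Agent.S3.W.Core

/-!
# Open-open edges: the real part of the potential exceeds the boundary value

For `P = R + i I`, `P' = R' - i I'` on two lines with `cos R`, `cos R' ≤ 83/100` the value
`re Φ (P / π, P' / π) - I - I'` is positive: it decreases if the point with the smaller real part
is moved to the right, and if the points are moved away from the real axis, and at a symmetric pair
it is nonnegative.
-/

set_option autoImplicit false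

namespace Pool.Agent.S3

open Complex
open Pool.Agent.H25.RK (gdv gdv_re_lt gdv_hasDerivAt)

/-- The real part of the potential in the coordinates `P = π v`, `P' = π w`. -/
noncomputable def FP (Φ : ℂ → ℂ → ℂ) (P P' : ℂ) : ℝ :=
  (Φ (P / (Real.pi : ℂ)) (P' / (Real.pi : ℂ))).re

variable {Φ : ℂ → ℂ → ℂ}

theorem FP_swap (P P' : ℂ) : FP (fun v w => Φ w v) P P' = FP Φ P' P := rfl

theorem FP_conj (hΦ : IsPhi Φ) {P P' : ℂ} (hP : |P.re| < Real.pi / 2) (hP' : |P'.re| < Real.pi / 2)
    (h : Reg (igd P) (igd P')) :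
    FP Φ ((starRingEnd ℂ) P) ((starRingEnd ℂ) P') = FP Φ P P' := by
  have h1 := hΦ.conj _ _ h
  rw [gd_conj (igd_im_lt hP), gd_conj (igd_im_lt hP'), gd_igd hP, gd_igd hP'] at h1
  exact h1

/-! ### Regularity along the moves -/

theorem reg_vert {R a b s : ℝ} {w : ℂ} (hR : |R| < Real.pi / 2) (ha : 0 ≤ a) (has : a ≤ s)
    (hsb : s ≤ b) (h : Reg (igd (UU R b)) w) : Reg (igd (UU R s)) w := by
  have m := igd_im_mono hR
  have h0 : 0 ≤ (igd (UU R s)).im := by
    rw [← igd_real_im hR]; exact m.monotone (ha.trans has)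
  have h1 : (igd (UU R s)).im ≤ (igd (UU R b)).im := m.monotone hsb
  unfold Reg at *
  rw [abs_of_nonneg h0]
  have := le_abs_self (igd (UU R b)).im
  linarith only [this, h1, h]

theorem UU_re_lt {R η : ℝ} (hR : |R| < Real.pi / 2) : |(UU R η).re| < Real.pi / 2 := by
  rwa [UU_re]

theorem igd_im_nonneg {R η : ℝ} (hR : |R| < Real.pi / 2) (h : 0 ≤ η) : 0 ≤ (igd (UU R η)).im := by
  rw [← igd_real_im hR]; exact (igd_im_mono hR).monotone h

theorem tan_igd_UU {R η : ℝ} (hR : |R| < Real.pi / 2) :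
    Real.tan (igd (UU R η)).im = Real.sinh η / Real.cos R := by
  have := tan_igd_im (UU_re_lt (η := η) hR)
  rwa [UU_re, UU_im] at this

theorem igd_im_hor {η s r : ℝ} (h0 : 0 ≤ η) (hs : 0 ≤ s) (hsr : s ≤ r) (hr : r < Real.pi / 2) :
    (igd (UU s η)).im ≤ (igd (UU r η)).im := by
  have as : |s| < Real.pi / 2 := by rw [abs_of_nonneg hs]; linarith only [hr, hsr]
  have ar : |r| < Real.pi / 2 := by rw [abs_of_nonneg (hs.trans hsr)]; linarith only [hr]
  by_contra hc
  push Not at hc
  have a1 := abs_lt.1 (igd_im_lt (UU_re_lt (η := η) as))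
  have a2 := abs_lt.1 (igd_im_lt (UU_re_lt (η := η) ar))
  have h1 := Real.tan_lt_tan_of_lt_of_lt_pi_div_two a2.1 a1.2 hc
  rw [tan_igd_UU as, tan_igd_UU ar] at h1
  have c1 := cos_pos' as
  have c2 := cos_pos' ar
  have h2 : Real.cos r ≤ Real.cos s :=
    Real.cos_le_cos_of_nonneg_of_le_pi hs (by linarith only [hr, hsr, hs]) hsr
  have h3 : 0 ≤ Real.sinh η := Real.sinh_nonneg_iff.2 h0
  rw [div_lt_div_iff₀ c2 c1] at h1
  linarith only [h1, mul_nonneg (sub_nonneg.2 h2) (sub_nonneg.2 h3)]

theorem reg_hor {η s r : ℝ} {w : ℂ} (h0 : 0 ≤ η) (hs : 0 ≤ s) (hsr : s ≤ r)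
    (hr : r < Real.pi / 2) (h : Reg (igd (UU r η)) w) : Reg (igd (UU s η)) w := by
  have as : |s| < Real.pi / 2 := by rw [abs_of_nonneg hs]; linarith only [hr, hsr]
  have h1 := igd_im_hor h0 hs hsr hr
  have h2 := igd_im_nonneg as h0
  unfold Reg at *
  rw [abs_of_nonneg h2]
  have := le_abs_self (igd (UU r η)).im
  linarith only [this, h1, h]

/-! ### Derivatives -/

theorem hasDerivAt_FP_vert (hΦ : IsPhi Φ) {R : ℝ} (hR : |R| < Real.pi / 2) {w : ℂ} {s : ℝ}
    (h : Reg (igd (UU R s)) w) :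
    HasDerivAt (fun s => FP Φ (UU R s) (gd w)) (2 / Real.pi * (qq (igd (UU R s)) w).im) s := by
  have h1 := hΦ.deriv (fun s => igd (UU R s)) (fun _ => w) (I * cosh (igd (UU R s))) 0 s h
    (hasDerivAt_igd_line hR s) (hasDerivAt_const s w)
  have h2 := hasDerivAt_re h1
  have e : (fun s : ℝ => (Φ (gd (igd (UU R s)) / (Real.pi : ℂ)) (gd w / (Real.pi : ℂ))).re) =
      fun s => FP Φ (UU R s) (gd w) := by
    funext t
    rw [gd_igd (UU_re_lt hR), FP]
  rw [e] at h2
  refine h2.congr_deriv ?_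
  have hpi : (Real.pi : ℂ) ≠ 0 := by exact_mod_cast Real.pi_ne_zero
  have hc : cosh (igd (UU R s)) ≠ 0 := cosh_ne h.left
  have e2 : -2 * qq (igd (UU R s)) w * (I * cosh (igd (UU R s))) /
      ((Real.pi : ℂ) * cosh (igd (UU R s))) -
      2 * qq w (igd (UU R s)) * 0 / ((Real.pi : ℂ) * cosh w) =
      ((-2 / Real.pi : ℝ) : ℂ) * (qq (igd (UU R s)) w * I) := by
    push_cast
    field_simp
    ring
  rw [e2, re_ofReal_mul, mul_re, I_re, I_im]
  ring

theorem hasDerivAt_FP_hor (hΦ : IsPhi Φ) {η s : ℝ} (hs : |s| < Real.pi / 2) {w : ℂ}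
    (h : Reg (igd (UU s η)) w) :
    HasDerivAt (fun s => FP Φ (UU s η) (gd w)) (-(2 / Real.pi) * (qq (igd (UU s η)) w).re) s := by
  have d1 : HasDerivAt (fun s : ℝ => igd (UU s η)) (cosh (igd (UU s η))) s := by
    have := HasDerivAt.scomp (g₁ := igd) (h := fun s : ℝ => UU s η) s
      (hasDerivAt_igd (UU_re_lt hs)) (hasDerivAt_UU s η)
    refine this.congr_deriv ?_
    rw [smul_eq_mul, one_mul]
  have h1 := hΦ.deriv (fun s => igd (UU s η)) (fun _ => w) (cosh (igd (UU s η))) 0 s h d1
    (hasDerivAt_const s w)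
  have h2 := hasDerivAt_re h1
  have e : (fun s => FP Φ (UU s η) (gd w)) =ᶠ[nhds s]
      (fun s : ℝ => (Φ (gd (igd (UU s η)) / (Real.pi : ℂ)) (gd w / (Real.pi : ℂ))).re) := by
    have hn : ∀ᶠ t in nhds s, |t| < Real.pi / 2 :=
      (continuous_abs.continuousAt).eventually_lt_const hs
    filter_upwards [hn] with t ht
    rw [gd_igd (UU_re_lt ht), FP]
  refine (h2.congr_of_eventuallyEq e).congr_deriv ?_
  have hpi : (Real.pi : ℂ) ≠ 0 := by exact_mod_cast Real.pi_ne_zero
  have hc : cosh (igd (UU s η)) ≠ 0 := cosh_ne h.left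
  have e2 : -2 * qq (igd (UU s η)) w * (cosh (igd (UU s η))) /
      ((Real.pi : ℂ) * cosh (igd (UU s η))) -
      2 * qq w (igd (UU s η)) * 0 / ((Real.pi : ℂ) * cosh w) =
      ((-(2 / Real.pi) : ℝ) : ℂ) * qq (igd (UU s η)) w := by
    push_cast
    field_simp
    ring
  rw [e2, re_ofReal_mul]

theorem qq_im_lt {u w : ℂ} (h : Reg u w) : |(qq u w).im| < Real.pi / 2 := arsh_im_lt (slit h)

theorem qq_re_nonneg {u w : ℂ} (h : Reg u w) (h0 : 0 ≤ (sinh u / cosh w).re) :
    0 ≤ (qq u w).re := by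
  rw [← sinh_qq, sinh_re'] at h0
  rw [← Real.sinh_nonneg_iff]
  exact nonneg_of_mul_nonneg_left h0 (cos_pos' (qq_im_lt h))

/-! ### The moves -/

/-- Away from the real axis. -/
theorem FP_up (hΦ : IsPhi Φ) {R : ℝ} (hR : |R| < Real.pi / 2) {a b : ℝ} (ha : 0 ≤ a)
    (hab : a < b) {w : ℂ} (h : Reg (igd (UU R b)) w) :
    FP Φ (UU R b) (gd w) - b < FP Φ (UU R a) (gd w) - a := by
  have hd : ∀ s ∈ Set.Icc a b, HasDerivAt (fun s => FP Φ (UU R s) (gd w) - s)
      (2 / Real.pi * (qq (igd (UU R s)) w).im - 1) s := fun s hs =>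
    (hasDerivAt_FP_vert hΦ hR (reg_vert hR ha hs.1 hs.2 h)).sub (hasDerivAt_id s)
  have key : StrictAntiOn (fun s => FP Φ (UU R s) (gd w) - s) (Set.Icc a b) := by
    apply strictAntiOn_of_deriv_neg (convex_Icc a b)
    · exact fun s hs => (hd s hs).continuousAt.continuousWithinAt
    · intro s hs
      rw [interior_Icc] at hs
      rw [(hd s ⟨hs.1.le, hs.2.le⟩).deriv]
      have h1 := (abs_lt.1 (qq_im_lt (reg_vert hR ha hs.1.le hs.2.le h))).2
      have hpi := Real.pi_pos
      have h2 : 2 / Real.pi * (qq (igd (UU R s)) w).im < 2 / Real.pi * (Real.pi / 2) :=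
        mul_lt_mul_of_pos_left h1 (by positivity)
      have h3 : 2 / Real.pi * (Real.pi / 2) = 1 := by field_simp
      linarith only [h3, h2]
  exact key ⟨le_rfl, hab.le⟩ ⟨hab.le, le_rfl⟩ hab

/-- To the right. -/
theorem FP_right (hΦ : IsPhi Φ) {η a b : ℝ} (h0 : 0 ≤ η) (ha : 0 ≤ a) (hab : a ≤ b)
    (hb : b < Real.pi / 2) {w : ℂ} (h : Reg (igd (UU b η)) w)
    (hs : ∀ s, a ≤ s → s ≤ b → 0 ≤ (tan (UU s η) / cosh w).re) :
    FP Φ (UU b η) (gd w) ≤ FP Φ (UU a η) (gd w) := by
  have hd : ∀ s ∈ Set.Icc a b, HasDerivAt (fun s => FP Φ (UU s η) (gd w))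
      (-(2 / Real.pi) * (qq (igd (UU s η)) w).re) s := fun s hs =>
    hasDerivAt_FP_hor hΦ (by rw [abs_of_nonneg (ha.trans hs.1)]; linarith only [hs.2, hb])
      (reg_hor h0 (ha.trans hs.1) hs.2 hb h)
  have key : AntitoneOn (fun s => FP Φ (UU s η) (gd w)) (Set.Icc a b) := by
    apply antitoneOn_of_deriv_nonpos (convex_Icc a b)
    · exact fun s hs => (hd s hs).continuousAt.continuousWithinAt
    · intro s hs
      exact (hd s (interior_subset hs)).differentiableAt.differentiableWithinAt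
    · intro s hs'
      rw [interior_Icc] at hs'
      rw [(hd s ⟨hs'.1.le, hs'.2.le⟩).deriv]
      have h1 : 0 ≤ (qq (igd (UU s η)) w).re := by
        apply qq_re_nonneg (reg_hor h0 (ha.trans hs'.1.le) hs'.2.le hb h)
        rw [sinh_igd]
        exact hs s hs'.1.le hs'.2.le
      have hpi := Real.pi_pos
      have : 0 ≤ 2 / Real.pi * (qq (igd (UU s η)) w).re := by positivity
      linarith only [this]
  exact key ⟨le_rfl, hab⟩ ⟨hab, le_rfl⟩ hab

/-! ### A symmetric pair -/

theorem se_zero_op (v : ℂ) : se 0 (.op v) = Real.pi * |v.im| := by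
  have h1 : Rf (0 + 1 / 2) = 0 := by
    have e : ((0 : ℂ) + 1 / 2) = 1 / 2 := by ring
    rw [e]
    unfold Rf
    have : ((1 / 2 : ℂ)).re = 1 / 2 := by norm_num
    rw [this, intervalIntegral.integral_same]
  rw [se, h1, zero_sub, zero_add, Rf_neg]
  ring

theorem FP_sym (hΦ : IsPhi Φ) (hc0 : Φ 0 0 = c00) {R η : ℝ} (hR0 : 0 ≤ R) (hR : R < Real.pi / 2)
    (h0 : 0 ≤ η) (h1 : Real.sinh η < Real.cos R) :
    2 * η ≤ FP Φ (UU R η) (UU R (-η)) := by
  have aR : |R| < Real.pi / 2 := by rwa [abs_of_nonneg hR0]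
  have cR := cos_pos' aR
  set u := igd (UU R η) with hu
  set x := u.re with hx
  set t := u.im with ht
  have hx0 : 0 ≤ x := igd_re_nonneg hR0 hR η
  have ht0 : 0 ≤ t := igd_im_nonneg aR h0
  have ht1 : t < Real.pi / 4 := by
    by_contra hc
    push Not at hc
    have a1 := abs_lt.1 (igd_im_lt (UU_re_lt (η := η) aR))
    have h2 : Real.tan (Real.pi / 4) ≤ Real.tan t := by
      rcases hc.eq_or_lt with e | e
      · rw [← e]
      · exact (Real.tan_lt_tan_of_lt_of_lt_pi_div_two (by linarith only [hR, hR0]) a1.2 e).le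
    rw [Real.tan_pi_div_four, tan_igd_UU aR, le_div_iff₀ cR] at h2
    linarith only [h2, h1]
  have hpi := Real.pi_pos
  have hS : t + t < Real.pi / 2 := by linarith only [ht1]
  have ue : UU x t = u := UU_eta u
  have hg : gd (UU x t) = UU R η := by rw [ue, hu, gd_igd (UU_re_lt aR)]
  have at' : |(UU x t).im| < Real.pi / 2 := by rw [UU_im, abs_of_nonneg ht0]; linarith only [ht1,
                                                                                hR, hR0]
  have hg' : gd (UU x (-t)) = UU R (-η) := by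
    rw [← UU_conj x t, gd_conj at', hg, UU_conj]
  have hr : Reg (UU x t) (UU x (-t)) := by
    apply Reg_UU; rw [abs_neg, abs_of_nonneg ht0]; exact hS
  have pc : (Real.pi : ℂ) ≠ 0 := by exact_mod_cast hpi.ne'
  have hv : gdv (UU x t) = UU R η / (Real.pi : ℂ) := by rw [gdv_eq_gd at', hg]
  have at'' : |(UU x (-t)).im| < Real.pi / 2 := by
    rw [UU_im, abs_neg, abs_of_nonneg ht0]; linarith only [ht1, hR, hR0]
  have hv' : gdv (UU x (-t)) = UU R (-η) / (Real.pi : ℂ) := by rw [gdv_eq_gd at'', hg']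
  have imv : (gdv (UU x t)).im = η / Real.pi := by
    rw [hv, div_ofReal_im, UU_im]
  have imv' : (gdv (UU x (-t))).im = -η / Real.pi := by
    rw [hv', div_ofReal_im, UU_im]
  -- `y` is real
  have hy : (yy (UU x t) (UU x (-t))).im = 0 := by
    have e := yy_conj hr
    rw [UU_conj, UU_conj, neg_neg, yy_comm] at e
    have := congrArg Complex.im e
    rw [conj_im] at this
    linarith only [this]
  have b := bridge_pos hΦ hc0 ht0 ht0 hS hx0 hx0 (Or.inl (by
    rw [sub_im, hy, imv]
    have : 0 ≤ η / Real.pi := by positivity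
    linarith only [this])) (Or.inl (by
    rw [sub_im, hy, imv']
    have : 0 ≤ η / Real.pi := by positivity
    rw [neg_div]
    linarith only [this]))
  rw [hg, hg'] at b
  rw [FP, b]
  set s := (yy (UU x t) (UU x (-t))).re with hs
  have ys : yy (UU x t) (UU x (-t)) = (s : ℂ) + ((0 : ℝ) : ℂ) * I := by
    apply Complex.ext
    · simp [hs]
    · simp [hy]
  have s0 : 0 < s := yy_re_pos hr
  have s1 : s < 1 / 2 := yy_re_lt hr
  have cu := cosh_ne at'
  have cw := cosh_ne at''
  have cv : cos (Real.pi * gdv (UU x t)) = 1 / cosh (UU x t) := cos_pi_gdv at'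
  have cv' : cos (Real.pi * gdv (UU x (-t))) = 1 / cosh (UU x (-t)) := cos_pi_gdv at''
  have i1 : 1 / cos (Real.pi * gdv (UU x t)) ^ 2 = cosh (UU x t) ^ 2 := by
    rw [cv]; field_simp
  have i2 : 1 / cos (Real.pi * gdv (UU x (-t))) ^ 2 = cosh (UU x (-t)) ^ 2 := by
    rw [cv']; field_simp
  have hcc : cosh (UU x (-t)) = (starRingEnd ℂ) (cosh (UU x t)) := by
    rw [conj_cosh', UU_conj]
  have hN : (cosh (UU x t) ^ 2 + cosh (UU x (-t)) ^ 2 - 1) =
      ((Real.cosh (2 * x) * Real.cos (2 * t) : ℝ) : ℂ) := by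
    have e1 : (cosh (UU x t) ^ 2).re = (cosh (2 * UU x t)).re / 2 + 1 / 2 := by
      have h2 := Complex.cosh_sq (UU x t)
      have h3 := Complex.cosh_two_mul (UU x t)
      have h4 := congrArg Complex.re h3
      have h5 := congrArg Complex.re h2
      rw [add_re] at h4 h5
      rw [one_re] at h5
      linarith only [h5, h4]
    have e2 : (cosh (2 * UU x t)).re = Real.cosh (2 * x) * Real.cos (2 * t) := by
      rw [cosh_re']
      simp
    apply Complex.ext
    · rw [hcc, ofReal_re, ← map_pow, sub_re, add_re, conj_re, one_re, e1, e2]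
      ring
    · rw [hcc, ofReal_im, ← map_pow, sub_im, add_im, conj_im, one_im]
      ring
  have hcpos : 0 ≤ Real.cosh (2 * x) * Real.cos (2 * t) := by
    apply mul_nonneg (Real.cosh_pos _).le
    apply Real.cos_nonneg_of_mem_Icc
    constructor <;> linarith
  have key := EE_flat_le (v := gdv (UU x t)) (w := gdv (UU x (-t))) (s := s) (h := 0) (t := 0)
    s0 s1 le_rfl (by norm_num) (by rw [cv]; exact one_div_ne_zero cu)
    (by rw [cv']; exact one_div_ne_zero cw)
    (by
      rw [← ys, i1, i2]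
      have := cos_yy_sq hr
      have hn : cos (Real.pi * yy (UU x t) (UU x (-t))) ^ 2 ≠ 0 := pow_ne_zero 2 (cos_yy_ne hr)
      rw [eq_comm, eq_div_iff hn]
      linear_combination this)
    (by rw [i1, i2, hN, ofReal_re]; exact hcpos)
    (by
      rw [i1, i2, hN, ofReal_re, Complex.norm_real, Real.norm_of_nonneg hcpos]
      apply mul_le_mul_of_nonneg_right _ hcpos
      have n1 : ‖cosh (UU x (-t)) ^ 2‖ = ‖cosh (UU x t) ^ 2‖ := by
        rw [hcc, ← map_pow]; exact Complex.norm_conj _
      have n2 := norm_sub_le (cosh (UU x t) ^ 2) (cosh (UU x (-t)) ^ 2)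
      rw [n1] at n2 ⊢
      have n3 := norm_nonneg (cosh (UU x t) ^ 2)
      have n4 := norm_nonneg (cosh (UU x t) ^ 2 - cosh (UU x (-t)) ^ 2)
      (refine le_of_not_gt fun hng => ?_; linarith only [mul_nonneg (sub_nonneg.2 n2) (sub_nonneg.2 n4),
        mul_nonneg (sub_nonneg.2 n2) (sub_nonneg.2 n3), mul_pos (sub_pos.2 hng) (sub_pos.2 s1),
        mul_pos (sub_pos.2 hng) (sub_pos.2 s0)]))
  rw [← ys] at key
  refine le_trans (le_of_eq ?_) key
  have e0 : (((0 : ℝ) : ℂ) + ((0 : ℝ) : ℂ) * I) = 0 := by simp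
  rw [e0, EE, se_zero_op, se_zero_op, imv, imv', abs_of_nonneg (by positivity), neg_div, abs_neg,
    abs_of_nonneg (by positivity)]
  field_simp
  ring

/-! ### Pairs on two lines -/

theorem tan_mul_cos_re (ρ η R' I' : ℝ) (hρ : |ρ| < Real.pi / 2)
    (h : Real.sinh η * Real.cosh η * (Real.sin R' * Real.sinh I') ≤
      Real.sin ρ * Real.cos ρ * (Real.cos R' * Real.cosh I')) :
    0 ≤ (tan (UU ρ η) * cos (UU R' (-I'))).re := by
  have hn : cos (UU ρ η) ≠ 0 := cos_ne' (UU_re_lt hρ)
  have e1 : tan (UU ρ η) * cos (UU R' (-I')) =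
      (sin (UU ρ η) * (starRingEnd ℂ) (cos (UU ρ η)) * cos (UU R' (-I'))) /
        ((normSq (cos (UU ρ η)) : ℝ) : ℂ) := by
    have hc : (starRingEnd ℂ) (cos (UU ρ η)) ≠ 0 := (map_ne_zero _).2 hn
    rw [Complex.tan_eq_sin_div_cos, normSq_eq_conj_mul_self]
    field_simp
  rw [e1, div_ofReal_re]
  apply div_nonneg _ (normSq_nonneg _)
  have s1 : (sin (UU ρ η) * (starRingEnd ℂ) (cos (UU ρ η))).re = Real.sin ρ * Real.cos ρ := by
    rw [mul_re, conj_re, conj_im, wsin_re, wsin_im, wcos_re, wcos_im, UU_re, UU_im]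
    have := Real.cosh_sq η
    linear_combination (Real.sin ρ * Real.cos ρ) * this
  have s2 : (sin (UU ρ η) * (starRingEnd ℂ) (cos (UU ρ η))).im = Real.sinh η * Real.cosh η := by
    rw [mul_im, conj_re, conj_im, wsin_re, wsin_im, wcos_re, wcos_im, UU_re, UU_im]
    have := Real.sin_sq_add_cos_sq ρ
    linear_combination (Real.sinh η * Real.cosh η) * this
  rw [mul_re, s1, s2, wcos_re, wcos_im, UU_re, UU_im, Real.cosh_neg, Real.sinh_neg]
  linarith only [h]

theorem igd_im_lt_quarter {R η : ℝ} (aR : |R| < Real.pi / 2)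
    (h1 : Real.sinh η < Real.cos R) : (igd (UU R η)).im < Real.pi / 4 := by
  have cR := cos_pos' aR
  by_contra hc
  push Not at hc
  have a1 := abs_lt.1 (igd_im_lt (UU_re_lt (η := η) aR))
  have h2 : Real.tan (Real.pi / 4) ≤ Real.tan (igd (UU R η)).im := by
    rcases hc.eq_or_lt with e | e
    · rw [← e]
    · exact (Real.tan_lt_tan_of_lt_of_lt_pi_div_two (by linarith only [a1.2, a1.1]) a1.2 e).le
  rw [Real.tan_pi_div_four, tan_igd_UU aR, le_div_iff₀ cR] at h2
  linarith only [h2, h1]

theorem igd_im_neg {R η : ℝ} (aR : |R| < Real.pi / 2) :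
    (igd (UU R (-η))).im = -(igd (UU R η)).im := by
  rw [← UU_conj, igd_conj (UU_re_lt aR), conj_im]

theorem reg_pair {R R' η η' : ℝ} (aR : |R| < Real.pi / 2) (aR' : |R'| < Real.pi / 2)
    (h0 : 0 ≤ η) (h0' : 0 ≤ η') (h1 : Real.sinh η < Real.cos R)
    (h1' : Real.sinh η' < Real.cos R') : Reg (igd (UU R η)) (igd (UU R' (-η'))) := by
  have t1 := igd_im_lt_quarter aR h1
  have t2 := igd_im_lt_quarter aR' h1'
  have t3 := igd_im_nonneg aR h0
  have t4 := igd_im_nonneg aR' h0'
  unfold Reg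
  rw [igd_im_neg aR', abs_neg, abs_of_nonneg t3, abs_of_nonneg t4]
  linarith only [t2, t1]

theorem FP_flip (hΦ : IsPhi Φ) {R R' η η' : ℝ} (aR : |R| < Real.pi / 2)
    (aR' : |R'| < Real.pi / 2) (h : Reg (igd (UU R η)) (igd (UU R' (-η')))) :
    FP (fun v w => Φ w v) (UU R' η') (UU R (-η)) = FP Φ (UU R η) (UU R' (-η')) := by
  rw [FP_swap, ← FP_conj hΦ (UU_re_lt aR) (UU_re_lt aR') h, UU_conj, UU_conj, neg_neg]

/-- The first point has the smaller real part. -/
theorem FP_pair (hΦ : IsPhi Φ) (hc0 : Φ 0 0 = c00) {R R' η η' : ℝ} (hR0 : 0 ≤ R) (hRR : R ≤ R')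
    (hR' : R' < Real.pi / 2) (h0 : 0 ≤ η) (h0' : 0 ≤ η') (h1 : Real.sinh η < Real.cos R')
    (h1' : Real.sinh η' < Real.cos R')
    (hs : ∀ ρ, R ≤ ρ → ρ ≤ R' → Real.sinh η * Real.cosh η * (Real.sin R' * Real.sinh η') ≤
      Real.sin ρ * Real.cos ρ * (Real.cos R' * Real.cosh η')) :
    η + η' < FP Φ (UU R η) (UU R' (-η')) := by
  have hR0' : 0 ≤ R' := hR0.trans hRR
  have aR' : |R'| < Real.pi / 2 := by rwa [abs_of_nonneg hR0']
  -- to the right
  have r0 := reg_pair aR' aR' h0 h0' h1 h1'
  have gw : ∀ s : ℝ, gd (igd (UU R' s)) = UU R' s := fun s => gd_igd (UU_re_lt aR')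
  have k1 := FP_right hΦ h0 hR0 hRR hR' r0 (by
    intro ρ h2 h3
    have aρ : |ρ| < Real.pi / 2 := by rw [abs_of_nonneg (hR0.trans h2)]; linarith only [h3, hR']
    have := tan_mul_cos_re ρ η R' η' aρ (hs ρ h2 h3)
    rw [cosh_igd (UU_re_lt aR'), one_div, div_inv_eq_mul]
    exact this)
  rw [gw] at k1
  -- up
  set m := (max (Real.sinh η) (Real.sinh η') + Real.cos R') / 2 with hm
  set η₁ := Real.arsinh m with hη
  have e1 : Real.sinh η₁ = m := Real.sinh_arsinh m
  have m1 : max (Real.sinh η) (Real.sinh η') < Real.cos R' := max_lt h1 h1'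
  have m2 : m < Real.cos R' := by rw [hm]; linarith only [m1]
  have m3 : η < η₁ := by
    rw [← Real.sinh_lt_sinh, e1, hm]
    have := le_max_left (Real.sinh η) (Real.sinh η')
    linarith only [this, h1]
  have m4 : η' < η₁ := by
    rw [← Real.sinh_lt_sinh, e1, hm]
    have := le_max_right (Real.sinh η) (Real.sinh η')
    linarith only [this, h1']
  have m5 : Real.sinh η₁ < Real.cos R' := by rw [e1]; exact m2
  have m6 : 0 ≤ η₁ := h0.trans m3.le
  have k2 := FP_up hΦ aR' h0 m3 (reg_pair aR' aR' m6 h0' m5 h1')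
  rw [gw] at k2
  have k3 := FP_up hΦ.swap aR' h0' m4 (reg_pair aR' aR' m6 m6 m5 m5)
  rw [gw, FP_flip hΦ aR' aR' (reg_pair aR' aR' m6 m6 m5 m5),
    FP_flip hΦ aR' aR' (reg_pair aR' aR' m6 h0' m5 h1')] at k3
  have k4 := FP_sym hΦ hc0 hR0' hR' m6 m5
  linarith only [k4, k3, k2, k1]

/-- Two points on or below the lines with `tan θ ≤ 601 / 1000`, with `cos` of the real parts between
`1 / 2` and `83 / 100`. -/
theorem FP_lines (hΦ : IsPhi Φ) (hc0 : Φ 0 0 = c00) {R R' η η' : ℝ} (hR0 : 0 ≤ R)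
    (hR : R < Real.pi / 2) (hR0' : 0 ≤ R') (hR' : R' < Real.pi / 2) (c1 : 1 / 2 ≤ Real.cos R)
    (c2 : Real.cos R ≤ 83 / 100) (c1' : 1 / 2 ≤ Real.cos R') (c2' : Real.cos R' ≤ 83 / 100)
    (h0 : 0 ≤ η) (h0' : 0 ≤ η') (h1 : Real.sinh η ≤ 601 / 1000 * Real.cos R)
    (h1' : Real.sinh η' ≤ 601 / 1000 * Real.cos R') :
    η + η' < FP Φ (UU R η) (UU R' (-η')) := by
  -- the case `R ≤ R'`
  have key : ∀ {Ψ : ℂ → ℂ → ℂ}, IsPhi Ψ → Ψ 0 0 = c00 → ∀ {R R' η η' : ℝ}, 0 ≤ R → R ≤ R' →
      R' < Real.pi / 2 → 1 / 2 ≤ Real.cos R' → Real.cos R ≤ 83 / 100 → 0 ≤ η → 0 ≤ η' →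
      Real.sinh η ≤ 601 / 1000 * Real.cos R → Real.sinh η' ≤ 601 / 1000 * Real.cos R' →
      η + η' < FP Ψ (UU R η) (UU R' (-η')) := by
    intro Ψ hΨ hΨ0 R R' η η' a0 a1 a2 a3 a4 a5 a6 a7 a8
    have hpi := Real.pi_pos
    have s0 : 0 ≤ Real.sinh η := Real.sinh_nonneg_iff.2 a5
    have s0' : 0 ≤ Real.sinh η' := Real.sinh_nonneg_iff.2 a6
    apply FP_pair hΨ hΨ0 a0 a1 a2 a5 a6 (by linarith only [a7, a4, a3]) (by linarith only [a8, a3])
    intro ρ b1 b2
    have c3 : Real.cos ρ ≤ Real.cos R :=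
      Real.cos_le_cos_of_nonneg_of_le_pi a0 (by linarith only [b2, a2, hR, hR0]) b1
    have c4 : Real.cos R' ≤ Real.cos ρ :=
      Real.cos_le_cos_of_nonneg_of_le_pi (by linarith only [b1, a0]) (by linarith only [a2, hR, hR0]) b2
    have sρ : 0 ≤ Real.sin ρ := Real.sin_nonneg_of_nonneg_of_le_pi (by linarith only [b1, a0]) (by linarith only [b2,
                                                                                                     a2,
                                                                                                     hR,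
                                                                                                     hR0])
    have sR' : 0 ≤ Real.sin R' := Real.sin_nonneg_of_nonneg_of_le_pi (by linarith only [a1, a0]) (by linarith only [a2,
                                                                                                       hR,
                                                                                                       hR0])
    have sR1 := Real.sin_le_one R'
    have hsc := Real.sin_sq_add_cos_sq ρ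
    have ch := Real.cosh_sq η
    have ch1 := Real.one_le_cosh η
    have ch2 := Real.one_le_cosh η'
    have u1 : Real.sinh η ≤ 499 / 1000 := by linarith only [a7, a4]
    have u2 : Real.cosh η ≤ 112 / 100 := by (refine le_of_not_gt fun hng => ?_; linarith only [hng,
                                              ch, a7, a4,
                                              mul_nonneg (sub_nonneg.2 a7) (sub_nonneg.2 s0),
                                              mul_nonneg (sub_nonneg.2 a4) (sub_nonneg.2 s0),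
                                              mul_pos (sub_pos.2 hng) (sub_pos.2 hng)])
    have u3 : 43 / 100 ≤ Real.sin ρ * Real.cos ρ := by
      have q1 : 1 / 4 ≤ Real.cos ρ ^ 2 := by linarith only [c4, a3,
                                               mul_nonneg (sub_nonneg.2 c4) (sub_nonneg.2 c4),
                                               mul_nonneg (sub_nonneg.2 a3) (sub_nonneg.2 c4),
                                               mul_nonneg (sub_nonneg.2 a3) (sub_nonneg.2 a3)]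
      have q2 : Real.cos ρ ^ 2 ≤ 3 / 4 := by linarith only [c3, a4,
                                               mul_nonneg (sub_nonneg.2 c3) (sub_nonneg.2 c4),
                                               mul_nonneg (sub_nonneg.2 a4) (sub_nonneg.2 c4),
                                               mul_nonneg (sub_nonneg.2 a3) (sub_nonneg.2 c3),
                                               mul_nonneg (sub_nonneg.2 a3) (sub_nonneg.2 a4)]
      have q3 : 3 / 16 ≤ (Real.sin ρ * Real.cos ρ) ^ 2 := by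
        rw [mul_pow]
        have : Real.sin ρ ^ 2 = 1 - Real.cos ρ ^ 2 := by linarith only [hsc]
        rw [this]
        linarith only [mul_nonneg (sub_nonneg.2 q1) (sub_nonneg.2 q2)]
      have q4 : 0 ≤ Real.sin ρ * Real.cos ρ := mul_nonneg sρ (by linarith only [c4, a3])
      (refine le_of_not_gt fun hng => ?_; linarith only [hng, q3,
        mul_nonneg (sub_nonneg.2 hng.le) (sub_nonneg.2 q4)])
    have v1 : Real.sinh η * Real.cosh η ≤ 499 / 1000 * (112 / 100) :=
      mul_le_mul u1 u2 (by linarith only [ch1]) (by norm_num)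
    have v2 : Real.sin R' * Real.sinh η' ≤ 1 * (601 / 1000 * Real.cos R') :=
      mul_le_mul sR1 a8 s0' (by norm_num)
    have v3 : 0 ≤ Real.sin R' * Real.sinh η' := mul_nonneg sR' s0'
    have v4 : Real.sinh η * Real.cosh η * (Real.sin R' * Real.sinh η') ≤
        499 / 1000 * (112 / 100) * (1 * (601 / 1000 * Real.cos R')) :=
      mul_le_mul v1 v2 v3 (by norm_num)
    have v5 : Real.cos R' ≤ Real.cos R' * Real.cosh η' := by linarith only [ch2,
                                                               mul_nonneg (sub_nonneg.2 a3) (sub_nonneg.2 ch2)]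
    have v6 : 43 / 100 * Real.cos R' ≤ Real.sin ρ * Real.cos ρ * (Real.cos R' * Real.cosh η') :=
      mul_le_mul u3 v5 (by linarith only [a3]) (by linarith only [u3])
    linarith only [v6, v4, a3]
  rcases le_total R R' with h | h
  · exact key hΦ hc0 hR0 h hR' c1' c2 h0 h0' h1 h1'
  · have k := key (R := R') (R' := R) (η := η') (η' := η) hΦ.swap hc0 hR0' h hR c1 c2' h0' h0 h1' h1
    have aR : |R| < Real.pi / 2 := by rwa [abs_of_nonneg hR0]
    have aR' : |R'| < Real.pi / 2 := by rwa [abs_of_nonneg hR0']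
    rw [FP_flip hΦ aR aR' (reg_pair aR aR' h0 h0' (by linarith only [h1, c1]) (by linarith only [h1',
                                                                                    c1']))] at k
    linarith only [k]

end Pool.Agent.S3
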