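import Pool.Agent.S3.W.Vert
import Pool.Agent.S3.Es1

/-!
# Low edges: the value of the potential at the test points
-/

set_option autoImplicit false

namespace Pool.Agent.S3

open Complex
open Pool.Agent.H25.RK (gdv gdv_re_lt gdv_hasDerivAt)
open Pool.Agent.H63.VC3 (ff)

/-! ### The value at the origin -/

theorem LowA_yy0 : yy 0 0 = ((1 / 4 : ℝ) : ℂ) := by
  have hpi := Real.pi_pos
  have h1 := cos_yy_sq reg0
  have h0 := yy_re_pos reg0
  have h2 := yy_re_lt reg0
  have him : (yy 0 0).im = 0 := by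
    have := congrArg Complex.im yy0_conj
    rw [conj_im] at this
    linarith only [this]
  obtain ⟨s, hs⟩ : ∃ s : ℝ, yy 0 0 = (s : ℂ) := ⟨(yy 0 0).re, by
    apply Complex.ext
    · rw [ofReal_re]
    · rw [ofReal_im, him]⟩
  rw [hs] at h0 h2
  rw [ofReal_re] at h0 h2
  rw [hs, Complex.cosh_zero, ← ofReal_mul, ← ofReal_cos] at h1
  have h3 : Real.cos (Real.pi * s) ^ 2 * 2 = 1 := by
    have h : ((Real.cos (Real.pi * s) ^ 2 * 2 : ℝ) : ℂ) = ((1 : ℝ) : ℂ) := by
      push_cast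
      push_cast at h1
      linear_combination h1
    exact_mod_cast h
  have h4 : Real.cos (2 * (Real.pi * s)) = 0 := by
    rw [Real.cos_two_mul]
    linarith only [h3]
  have h5 : 2 * (Real.pi * s) = Real.pi / 2 := by
    rw [Real.cos_eq_zero_iff] at h4
    obtain ⟨k, hk⟩ := h4
    have k0 : (-1 : ℝ) < k := by
      by_contra hc
      push Not at hc
      have : (2 * (k : ℝ) + 1) * Real.pi / 2 < 0 := by linarith only [hk,
                                                         mul_nonneg (sub_nonneg.2 hpi.le) (sub_nonneg.2 hc),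
                                                         mul_pos (sub_pos.2 hpi) (sub_pos.2 h0),
                                                         mul_pos (sub_pos.2 hpi) (sub_pos.2 h2)]
      have : 0 < 2 * (Real.pi * s) := by positivity
      linarith [this, hk]
    have k1 : (k : ℝ) < 1 := by
      by_contra hc
      push Not at hc
      have : Real.pi < (2 * (k : ℝ) + 1) * Real.pi / 2 := by linarith only [hk,
                                                               mul_nonneg (sub_nonneg.2 hpi.le) (sub_nonneg.2 hc),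
                                                               mul_pos (sub_pos.2 hpi) (sub_pos.2 h0),
                                                               mul_pos (sub_pos.2 hpi) (sub_pos.2 h2)]
      have : 2 * (Real.pi * s) < Real.pi := by linarith only [this, hk,
                                                 mul_pos (sub_pos.2 hpi) (sub_pos.2 h2)]
      linarith [this, hk]
    have k0' : -1 < k := by exact_mod_cast k0
    have k1' : k < 1 := by exact_mod_cast k1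
    have : k = 0 := by omega
    rw [this] at hk
    rw [hk]
    simp
  have h6 : s = 1 / 4 := by
    have : Real.pi * (s - 1 / 4) = 0 := by linarith only [h5]
    rcases mul_eq_zero.1 this with h | h
    · exact absurd h hpi.ne'
    · linarith only [h]
  rw [hs, h6]

theorem LowA_c00_re : c00.re = -8 * Rf ((1 / 4 : ℝ) : ℂ) := by
  have e1 : (((1 / 4 : ℝ) : ℂ) + 1 / 2) = 1 - ((1 / 4 : ℝ) : ℂ) := by
    push_cast
    ring
  have r1 : ((1 / 4 : ℝ) : ℂ).re = 1 / 4 := ofReal_re _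
  have r2 : (1 - ((1 / 4 : ℝ) : ℂ)).re = 3 / 4 := by
    rw [sub_re, one_re, r1]
    norm_num
  have h1 : (ff (1 - ((1 / 4 : ℝ) : ℂ))).re = Rf (1 - ((1 / 4 : ℝ) : ℂ)) :=
    (Rf_eq_ff (by rw [r2]; norm_num) (by rw [r2]; norm_num)).symm
  have h2 : (ff ((1 / 4 : ℝ) : ℂ)).re = Rf ((1 / 4 : ℝ) : ℂ) :=
    (Rf_eq_ff (by rw [r1]; norm_num) (by rw [r1]; norm_num)).symm
  have h3 : fe ((1 / 4 : ℝ) : ℂ) = ff ((1 / 4 : ℝ) : ℂ) := by
    have := fe_yy0
    rwa [LowA_yy0] at this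
  rw [c00, LowA_yy0, e1, h3, sub_re]
  have e4 : (4 * ff (1 - ((1 / 4 : ℝ) : ℂ))).re = 4 * (ff (1 - ((1 / 4 : ℝ) : ℂ))).re := by
    rw [show (4 : ℂ) = ((4 : ℝ) : ℂ) by norm_num, re_ofReal_mul]
  have e5 : (4 * ff ((1 / 4 : ℝ) : ℂ)).re = 4 * (ff ((1 / 4 : ℝ) : ℂ)).re := by
    rw [show (4 : ℂ) = ((4 : ℝ) : ℂ) by norm_num, re_ofReal_mul]
  rw [e4, e5, h1, h2, Rf_one_sub]
  ring

/-! ### Elementary bounds -/

theorem LowA_pos {f f' : ℝ → ℝ} {b : ℝ} (hd : ∀ x, 0 ≤ x → x ≤ b → HasDerivAt f (f' x) x)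
    (h0 : f 0 = 0) (hp : ∀ x, 0 ≤ x → x ≤ b → 0 ≤ f' x) {x : ℝ} (hx : 0 ≤ x) (hxb : x ≤ b) :
    0 ≤ f x := by
  have hm : MonotoneOn f (Set.Icc 0 b) := by
    apply monotoneOn_of_deriv_nonneg (convex_Icc 0 b)
    · exact fun y hy => (hd y hy.1 hy.2).continuousAt.continuousWithinAt
    · intro y hy
      exact (hd y (interior_subset hy).1 (interior_subset hy).2).differentiableAt.differentiableWithinAt
    · intro y hy
      rw [(hd y (interior_subset hy).1 (interior_subset hy).2).deriv]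
      exact hp y (interior_subset hy).1 (interior_subset hy).2
  have := hm ⟨le_rfl, hx.trans hxb⟩ ⟨hx, hxb⟩ hx
  rwa [h0] at this

private theorem LowA_s3 {x : ℝ} (hx : 0 ≤ x) : x - x ^ 3 / 6 ≤ Real.sin x := by
  have h := LowA_pos (b := x) (f := fun x => Real.sin x - (x - x ^ 3 / 6))
    (f' := fun x => Real.cos x - (1 - x ^ 2 / 2))
    (fun x _ _ => by
      have h1 := (Real.hasDerivAt_sin x).sub ((hasDerivAt_id' x).sub ((hasDerivAt_pow 3 x).div_const 6))
      refine h1.congr_deriv ?_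
      norm_num
      try ring)
    (by simp) (fun x hx _ => by linarith only [Real.one_sub_sq_div_two_le_cos (x := x)]) hx le_rfl
  linarith only [h]

private theorem LowA_c4 {x : ℝ} (hx : 0 ≤ x) : Real.cos x ≤ 1 - x ^ 2 / 2 + x ^ 4 / 24 := by
  have h := LowA_pos (b := x) (f := fun x => 1 - x ^ 2 / 2 + x ^ 4 / 24 - Real.cos x)
    (f' := fun x => Real.sin x - (x - x ^ 3 / 6))
    (fun x _ _ => by
      have h1 := (((hasDerivAt_const x (1 : ℝ)).sub ((hasDerivAt_pow 2 x).div_const 2)).add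
        ((hasDerivAt_pow 4 x).div_const 24)).sub (Real.hasDerivAt_cos x)
      refine h1.congr_deriv ?_
      norm_num
      try ring)
    (by simp) (fun x hx _ => by linarith only [LowA_s3 hx]) hx le_rfl
  linarith only [h]

private theorem LowA_s5 {x : ℝ} (hx : 0 ≤ x) : Real.sin x ≤ x - x ^ 3 / 6 + x ^ 5 / 120 := by
  have h := LowA_pos (b := x) (f := fun x => x - x ^ 3 / 6 + x ^ 5 / 120 - Real.sin x)
    (f' := fun x => 1 - x ^ 2 / 2 + x ^ 4 / 24 - Real.cos x)
    (fun x _ _ => by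
      have h1 := (((hasDerivAt_id' x).sub ((hasDerivAt_pow 3 x).div_const 6)).add
        ((hasDerivAt_pow 5 x).div_const 120)).sub (Real.hasDerivAt_sin x)
      refine h1.congr_deriv ?_
      norm_num
      try ring)
    (by simp) (fun x hx _ => by linarith only [LowA_c4 hx]) hx le_rfl
  linarith only [h]

private theorem LowA_c6 {x : ℝ} (hx : 0 ≤ x) :
    1 - x ^ 2 / 2 + x ^ 4 / 24 - x ^ 6 / 720 ≤ Real.cos x := by
  have h := LowA_pos (b := x) (f := fun x => Real.cos x - (1 - x ^ 2 / 2 + x ^ 4 / 24 - x ^ 6 / 720))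
    (f' := fun x => x - x ^ 3 / 6 + x ^ 5 / 120 - Real.sin x)
    (fun x _ _ => by
      have h1 := (Real.hasDerivAt_cos x).sub ((((hasDerivAt_const x (1 : ℝ)).sub
        ((hasDerivAt_pow 2 x).div_const 2)).add
        ((hasDerivAt_pow 4 x).div_const 24)).sub ((hasDerivAt_pow 6 x).div_const 720))
      refine h1.congr_deriv ?_
      norm_num
      try ring)
    (by simp) (fun x hx _ => by linarith only [LowA_s5 hx]) hx le_rfl
  linarith only [h]

theorem LowA_pi4 {x : ℝ} (h : x ≤ Real.pi / 4) : x ≤ 7854 / 10000 := by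
  have := Real.pi_lt_d6
  linarith only [this, h]

theorem LowA_cos_pos {x : ℝ} (h0 : 0 ≤ x) (h : x ≤ Real.pi / 4) : 0 < Real.cos x := by
  apply Real.cos_pos_of_mem_Ioo
  constructor <;> linarith [Real.pi_pos]

theorem LowA_sq {x : ℝ} (h0 : 0 ≤ x) (h : x ≤ Real.pi / 4) : x ^ 2 ≤ 6169 / 10000 := by
  have h1 := LowA_pi4 h
  have := pow_le_pow_left₀ h0 h1 2
  norm_num at this ⊢
  linarith only [this]

/-- `tan x ≤ x + x ^ 3 / 3 + x ^ 5 / 5` on `[0, π/4]`. -/
theorem LowA_tan {x : ℝ} (h0 : 0 ≤ x) (h : x ≤ Real.pi / 4) :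
    Real.sin x ≤ (x + x ^ 3 / 3 + x ^ 5 / 5) * Real.cos x := by
  have h1 := LowA_s5 h0
  have h2 := LowA_c6 h0
  have h3 := LowA_sq h0 h
  have hp : 0 ≤ x + x ^ 3 / 3 + x ^ 5 / 5 := by positivity
  have h4 := mul_le_mul_of_nonneg_left h2 hp
  refine h1.trans (le_trans ?_ h4)
  have e : (x + x ^ 3 / 3 + x ^ 5 / 5) * (1 - x ^ 2 / 2 + x ^ 4 / 24 - x ^ 6 / 720) -
      (x - x ^ 3 / 6 + x ^ 5 / 120) =
      x ^ 5 * (1 / 15 - x ^ 2 * (7 / 80) + (x ^ 2) ^ 2 * (17 / 2160) - (x ^ 2) ^ 3 / 3600) := by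
    ring
  have h5 : 0 ≤ 1 / 15 - x ^ 2 * (7 / 80) + (x ^ 2) ^ 2 * (17 / 2160) - (x ^ 2) ^ 3 / 3600 := by
    have g := sq_nonneg x
    generalize x ^ 2 = y at h3 g
    linarith only [h3, mul_self_nonneg (y), mul_nonneg (mul_self_nonneg (y)) (sub_nonneg.2 h3)]
  have h6 : 0 ≤ x ^ 5 := by positivity
  have := mul_nonneg h6 h5
  linarith only [this]

/-- Lower bound of `log cos`. -/
theorem LowA_logcos {x : ℝ} (h0 : 0 ≤ x) (h : x ≤ Real.pi / 4) :
    0 ≤ Real.log (Real.cos x) + (x ^ 2 / 2 + x ^ 4 / 12 + x ^ 6 / 30) := by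
  refine LowA_pos (b := Real.pi / 4)
    (f := fun x => Real.log (Real.cos x) + (x ^ 2 / 2 + x ^ 4 / 12 + x ^ 6 / 30))
    (f' := fun x => -Real.sin x / Real.cos x + (x + x ^ 3 / 3 + x ^ 5 / 5)) ?_ (by simp) ?_ h0 h
  · intro x hx hxb
    have hc := LowA_cos_pos hx hxb
    have h1 := ((Real.hasDerivAt_cos x).log hc.ne').add ((((hasDerivAt_pow 2 x).div_const 2).add
      ((hasDerivAt_pow 4 x).div_const 12)).add ((hasDerivAt_pow 6 x).div_const 30))
    refine h1.congr_deriv ?_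
    norm_num
    try ring
  · intro x hx hxb
    have hc := LowA_cos_pos hx hxb
    have h1 := LowA_tan hx hxb
    rw [neg_div, ← sub_eq_neg_add, sub_nonneg, div_le_iff₀ hc]
    exact h1

/-- The value `Rf (1/4)`. -/
theorem LowA_Rf : Rf ((1 / 4 : ℝ) : ℂ) ≤ -(1457197 / 10000000) := by
  have hpi := Real.pi_pos
  have key := LowA_pos (b := 1 / 4) (x := 1 / 4)
    (f := fun x : ℝ => -Rf (((1 / 2 - x : ℝ) : ℂ) + ((0 : ℝ) : ℂ) * I) - (x * Real.log 2 -
      (Real.pi ^ 2 * x ^ 3 / 6 + Real.pi ^ 4 * x ^ 5 / 60 + Real.pi ^ 6 * x ^ 7 / 210)))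
    (f' := fun x : ℝ => Real.log ‖2 * sin (Real.pi * (((1 / 2 - x : ℝ) : ℂ) + ((0 : ℝ) : ℂ) * I))‖ -
      (Real.log 2 - (Real.pi ^ 2 * x ^ 2 / 2 + Real.pi ^ 4 * x ^ 4 / 12 +
        Real.pi ^ 6 * x ^ 6 / 30))) ?_ ?_ ?_ (by norm_num) le_rfl
  · have h2 : (((1 / 2 - 1 / 4 : ℝ) : ℂ) + ((0 : ℝ) : ℂ) * I) = ((1 / 4 : ℝ) : ℂ) := by
      push_cast
      ring
    simp only [h2] at key
    have h3 := Real.log_two_gt_d9
    have p2 : Real.pi ^ 2 ≤ 9.869607 := by
      have := pow_le_pow_left₀ hpi.le Real.pi_lt_d6.le 2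
      norm_num at this ⊢
      linarith only [this]
    have p0 : 0 ≤ Real.pi ^ 2 := by positivity
    have p4 : Real.pi ^ 4 ≤ 9.869607 ^ 2 := by
      have := pow_le_pow_left₀ p0 p2 2
      calc Real.pi ^ 4 = (Real.pi ^ 2) ^ 2 := by ring
        _ ≤ _ := this
    have p6 : Real.pi ^ 6 ≤ 9.869607 ^ 3 := by
      have := pow_le_pow_left₀ p0 p2 3
      calc Real.pi ^ 6 = (Real.pi ^ 2) ^ 3 := by ring
        _ ≤ _ := this
    norm_num at key p4 p6 p2 h3 ⊢
    linarith only [h3, p2, p6, p4, key]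
  · intro x hx hxb
    have hs : sin (Real.pi * (((1 / 2 - x : ℝ) : ℂ) + ((0 : ℝ) : ℂ) * I)) ≠ 0 := by
      rw [ofReal_zero, zero_mul, add_zero, ← ofReal_mul, ← ofReal_sin]
      have : 0 < Real.sin (Real.pi * (1 / 2 - x)) := by
        apply Real.sin_pos_of_pos_of_lt_pi
        · apply mul_pos hpi
          linarith only [hxb]
        · linarith only [hpi, mul_nonneg (sub_nonneg.2 hpi.le) (sub_nonneg.2 hx)]
      exact_mod_cast this.ne'
    have h1 := Rf_hasDerivAt hs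
    have h2 : HasDerivAt (fun x : ℝ => 1 / 2 - x) (-1) x := by
      simpa using (hasDerivAt_id' x).const_sub (1 / 2 : ℝ)
    have h3 := HasDerivAt.comp x h1 h2
    have h4 := h3.neg.sub (((hasDerivAt_id' x).mul_const (Real.log 2)).sub
      (((((hasDerivAt_pow 3 x).const_mul (Real.pi ^ 2)).div_const 6).add
        (((hasDerivAt_pow 5 x).const_mul (Real.pi ^ 4)).div_const 60)).add
        (((hasDerivAt_pow 7 x).const_mul (Real.pi ^ 6)).div_const 210)))
    refine h4.congr_deriv ?_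
    norm_num
    try ring
  · have h2 : (((1 / 2 - 0 : ℝ) : ℂ) + ((0 : ℝ) : ℂ) * I) = ((1 / 2 : ℝ) : ℂ) + (0 : ℝ) * I := by
      push_cast
      ring
    simp only [h2, Rf_half]
    norm_num
  · intro x hx hxb
    have hx4 : Real.pi * x ≤ Real.pi / 4 := by linarith only [mul_nonneg (sub_nonneg.2 hpi.le) (sub_nonneg.2 hxb)]
    have hx0 : 0 ≤ Real.pi * x := by positivity
    have hc := LowA_cos_pos hx0 hx4
    have e1 : ‖2 * sin (Real.pi * (((1 / 2 - x : ℝ) : ℂ) + ((0 : ℝ) : ℂ) * I))‖ =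
        2 * Real.cos (Real.pi * x) := by
      rw [ofReal_zero, zero_mul, add_zero, ← ofReal_mul, ← ofReal_sin,
        show Real.pi * (1 / 2 - x) = Real.pi / 2 - Real.pi * x by ring, Real.sin_pi_div_two_sub,
        norm_mul, Complex.norm_real, Real.norm_of_nonneg hc.le]
      norm_num
    rw [e1, Real.log_mul (by norm_num) hc.ne']
    have := LowA_logcos hx0 hx4
    have e2 : (Real.pi * x) ^ 2 / 2 + (Real.pi * x) ^ 4 / 12 + (Real.pi * x) ^ 6 / 30 =
      Real.pi ^ 2 * x ^ 2 / 2 + Real.pi ^ 4 * x ^ 4 / 12 + Real.pi ^ 6 * x ^ 6 / 30 := by ring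
    rw [e2] at this
    linarith only [this]

theorem LowA_c00_gt : 11657 / 10000 < c00.re := by
  rw [LowA_c00_re]
  have := LowA_Rf
  linarith only [this]

/-! ### Bounds of `q` -/

/-- `re q ≤ arsinh |sinh q|`. -/
theorem qq_re_le (u w : ℂ) : (qq u w).re ≤ Real.arsinh ‖sinh u / cosh w‖ := by
  rw [← Real.sinh_le_sinh, Real.sinh_arsinh, ← sinh_qq]
  have h1 : Real.sinh (qq u w).re ^ 2 ≤ ‖sinh (qq u w)‖ ^ 2 := by
    rw [← normSq_eq_norm_sq, normSq_apply, sinh_re', sinh_im']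
    have h2 := Real.cosh_sq (qq u w).re
    have h3 := Real.sin_sq_add_cos_sq (qq u w).im
    linarith only [h3, h2, sq_nonneg (Real.sin (qq u w).im),
      mul_nonneg (sq_nonneg (Real.cosh (qq u w).re)) (sub_nonneg.2 h3.le),
      mul_nonneg (sq_nonneg (Real.cosh (qq u w).re)) (sub_nonneg.2 h3.ge),
      mul_nonneg (sq_nonneg (Real.cos (qq u w).im)) (sub_nonneg.2 h2.le),
      mul_nonneg (sq_nonneg (Real.cos (qq u w).im)) (sub_nonneg.2 h2.ge)]
  exact le_of_sq_le_sq h1 (norm_nonneg _)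

theorem qq_re_le' (u w : ℂ) : (qq u w).re ≤ ‖sinh u / cosh w‖ := by
  refine (qq_re_le u w).trans ?_
  rw [← Real.sinh_le_sinh, Real.sinh_arsinh]
  exact Real.self_le_sinh_iff.2 (norm_nonneg _)

/-- Lower bound of `im q`. -/
theorem qq_im_ge {u w : ℂ} (h : Reg u w) {c N : ℝ} (hN : 0 < N) (hc : 0 ≤ c)
    (h1 : c ≤ (sinh u / cosh w).im) (h2 : 1 + normSq (sinh u / cosh w) ≤ N ^ 2) :
    c / N ≤ (qq u w).im := by
  have hi := qq_im_lt h
  rw [← sinh_qq] at h1 h2
  rw [sinh_im'] at h1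
  rw [normSq_apply, sinh_re', sinh_im'] at h2
  have hch := Real.cosh_sq (qq u w).re
  have h3 := Real.sin_sq_add_cos_sq (qq u w).im
  have c1 := Real.one_le_cosh (qq u w).re
  have c2 : Real.cosh (qq u w).re ≤ N := by
    apply le_of_sq_le_sq _ hN.le
    linarith only [h3, h2, sq_nonneg (Real.sin (qq u w).im),
      mul_nonneg (sq_nonneg (Real.cosh (qq u w).re)) (sub_nonneg.2 h3.le),
      mul_nonneg (sq_nonneg (Real.cosh (qq u w).re)) (sub_nonneg.2 h3.ge),
      mul_nonneg (sq_nonneg (Real.cos (qq u w).im)) (sub_nonneg.2 hch.le),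
      mul_nonneg (sq_nonneg (Real.cos (qq u w).im)) (sub_nonneg.2 hch.ge)]
  have s0 : 0 ≤ Real.sin (qq u w).im := by
    by_contra hcon
    push Not at hcon
    linarith only [hcon, h1, hc, mul_nonneg (sub_nonneg.2 hch.le) (sub_nonneg.2 hcon.le),
      mul_nonneg (sub_nonneg.2 hch.ge) (sub_nonneg.2 hcon.le),
      mul_nonneg (sub_nonneg.2 h1) (sub_nonneg.2 c1),
      mul_nonneg (sub_nonneg.2 hc) (sub_nonneg.2 c1),
      mul_nonneg (sq_nonneg (Real.sinh (qq u w).re)) (sub_nonneg.2 hcon.le)]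
  have i0 : 0 ≤ (qq u w).im := by
    by_contra hcon
    push Not at hcon
    have := Real.sin_neg_of_neg_of_neg_pi_lt hcon (by
      have := (abs_lt.1 hi).1
      linarith only [this, hcon])
    linarith only [this, s0]
  have h4 : c / N ≤ Real.sin (qq u w).im := by
    rw [div_le_iff₀ hN]
    (refine le_of_not_gt fun hng => ?_; linarith only [hng,
      mul_nonneg (sub_nonneg.2 hc) (sub_nonneg.2 c2),
      mul_nonneg (sub_nonneg.2 hN.le) (sub_nonneg.2 h1),
      mul_nonneg (sub_nonneg.2 hng.le) (sub_nonneg.2 c1)])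
  exact h4.trans (Real.sin_le i0)

/-! ### The diagonal -/

theorem LowA_quarter : |Real.pi / 4| < Real.pi / 2 := by
  rw [abs_of_pos (by linarith only [Real.pi_pos])]
  linarith only [Real.pi_pos]

theorem LowA_reg0 {s t : ℝ} (h1 : |s| < Real.pi / 2) (h2 : |t| < Real.pi / 2) :
    Reg (igd (UU s 0)) (igd (UU t 0)) := by
  unfold Reg
  rw [igd_real_im h1, igd_real_im h2, abs_zero, add_zero]
  linarith only [Real.pi_pos]

theorem LowA_diag {Φ : ℂ → ℂ → ℂ} (hΦ : IsPhi Φ) {s : ℝ} (hs : |s| < Real.pi / 2) :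
    HasDerivAt (fun s => FP Φ (UU s 0) (UU s 0))
      (-(4 / Real.pi) * (qq (igd (UU s 0)) (igd (UU s 0))).re) s := by
  have h := LowA_reg0 hs hs
  have d1 : HasDerivAt (fun s : ℝ => igd (UU s 0)) (cosh (igd (UU s 0))) s := by
    have := HasDerivAt.scomp (g₁ := igd) (h := fun s : ℝ => UU s 0) s
      (hasDerivAt_igd (UU_re_lt hs)) (hasDerivAt_UU s 0)
    refine this.congr_deriv ?_
    rw [smul_eq_mul, one_mul]
  have h1 := hΦ.deriv (fun s => igd (UU s 0)) (fun s => igd (UU s 0)) (cosh (igd (UU s 0)))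
    (cosh (igd (UU s 0))) s h d1 d1
  have h2 := hasDerivAt_re h1
  have e : (fun s => FP Φ (UU s 0) (UU s 0)) =ᶠ[nhds s]
      (fun s : ℝ => (Φ (gd (igd (UU s 0)) / (Real.pi : ℂ)) (gd (igd (UU s 0)) /
        (Real.pi : ℂ))).re) := by
    have hn : ∀ᶠ t in nhds s, |t| < Real.pi / 2 :=
      (continuous_abs.continuousAt).eventually_lt_const hs
    filter_upwards [hn] with t ht
    rw [gd_igd (UU_re_lt ht), FP]
  refine (h2.congr_of_eventuallyEq e).congr_deriv ?_
  have hpi : (Real.pi : ℂ) ≠ 0 := by exact_mod_cast Real.pi_ne_zero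
  have hc : cosh (igd (UU s 0)) ≠ 0 := cosh_ne h.left
  have e2 : -2 * qq (igd (UU s 0)) (igd (UU s 0)) * (cosh (igd (UU s 0))) /
      ((Real.pi : ℂ) * cosh (igd (UU s 0))) -
      2 * qq (igd (UU s 0)) (igd (UU s 0)) * (cosh (igd (UU s 0))) /
        ((Real.pi : ℂ) * cosh (igd (UU s 0))) =
      ((-(4 / Real.pi) : ℝ) : ℂ) * qq (igd (UU s 0)) (igd (UU s 0)) := by
    push_cast
    field_simp
    ring
  rw [e2, re_ofReal_mul]

theorem LowA_UU0 (s : ℝ) : UU s 0 = (s : ℂ) := by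
  unfold UU
  rw [ofReal_zero, zero_mul, add_zero]

theorem LowA_base {Φ : ℂ → ℂ → ℂ} (hΦ : IsPhi Φ) (h0 : Φ 0 0 = c00) :
    79277 / 100000 < FP Φ (UU (Real.pi / 4) 0) (UU (Real.pi / 4) 0) := by
  have hpi := Real.pi_pos
  have key := LowA_pos (b := Real.pi / 4) (x := Real.pi / 4)
    (f := fun s => FP Φ (UU s 0) (UU s 0) - FP Φ (UU 0 0) (UU 0 0) +
      4 / Real.pi * (1 - Real.cos s))
    (f' := fun s => -(4 / Real.pi) * (qq (igd (UU s 0)) (igd (UU s 0))).re +
      4 / Real.pi * Real.sin s) ?_ (by simp) ?_ (by positivity) le_rfl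
  · have e0 : FP Φ (UU 0 0) (UU 0 0) = c00.re := by
      rw [FP, LowA_UU0, ofReal_zero, zero_div, h0]
    rw [e0, Real.cos_pi_div_four] at key
    have h1 := LowA_c00_gt
    have h2 : (1.414213 : ℝ) ≤ √2 := by
      apply Real.le_sqrt_of_sq_le
      norm_num
    have h3 : 4 / Real.pi ≤ 1.27324 := by
      rw [div_le_iff₀ hpi]
      have := Real.pi_gt_d6
      linarith only [this]
    have h4 : 0 ≤ 1 - √2 / 2 := by
      have : √2 ≤ 1.5 := by
        rw [Real.sqrt_le_left (by norm_num)]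
        norm_num
      linarith only [this]
    have h5 : 4 / Real.pi * (1 - √2 / 2) ≤ 1.27324 * (1 - 1.414213 / 2) := by
      calc 4 / Real.pi * (1 - √2 / 2) ≤ 1.27324 * (1 - √2 / 2) :=
            mul_le_mul_of_nonneg_right h3 h4
        _ ≤ _ := by linarith only [h2]
    norm_num at h5
    linarith only [h5, h1, key]
  · intro s hs hsb
    have hs' : |s| < Real.pi / 2 := by
      rw [abs_of_nonneg hs]
      linarith only [hsb, hpi]
    have h1 := ((LowA_diag hΦ hs').sub_const (FP Φ (UU 0 0) (UU 0 0))).add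
      (((Real.hasDerivAt_cos s).const_sub 1).const_mul (4 / Real.pi))
    refine h1.congr_deriv ?_
    rw [neg_neg]
  · intro s hs hsb
    have hs' : |s| < Real.pi / 2 := by
      rw [abs_of_nonneg hs]
      linarith only [hsb, hpi]
    have h1 := qq_re_le' (igd (UU s 0)) (igd (UU s 0))
    have h2 : ‖sinh (igd (UU s 0)) / cosh (igd (UU s 0))‖ = Real.sin s := by
      have hc := cos_ne' (UU_re_lt (η := 0) hs')
      rw [sinh_igd, cosh_igd (UU_re_lt hs'), Complex.tan_eq_sin_div_cos, div_div_eq_mul_div,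
        div_one, div_mul_cancel₀ _ hc, LowA_UU0, ← ofReal_sin, Complex.norm_real]
      exact Real.norm_of_nonneg (Real.sin_nonneg_of_nonneg_of_le_pi hs (by linarith only [hsb, hpi]))
    rw [h2] at h1
    have h3 : 0 < 4 / Real.pi := by positivity
    linarith only [mul_nonneg (sub_nonneg.2 h1) (sub_nonneg.2 h3.le)]

/-! ### The verticals -/

theorem LowA_tan4 (s : ℝ) : tan (UU (Real.pi / 4) s) =
    ((1 / (Real.cosh s ^ 2 + Real.sinh s ^ 2) : ℝ) : ℂ) +
      ((2 * Real.sinh s * Real.cosh s / (Real.cosh s ^ 2 + Real.sinh s ^ 2) : ℝ) : ℂ) * I := by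
  have h2 : (√2 / 2 : ℝ) ≠ 0 := by positivity
  have hc1 := Real.cosh_pos s
  have hn : (Real.cosh s ^ 2 + Real.sinh s ^ 2) ≠ 0 := by positivity
  have e1 : sin (UU (Real.pi / 4) s) = ((√2 / 2 : ℝ) : ℂ) * (Real.cosh s + Real.sinh s * I) := by
    apply Complex.ext
    · rw [wsin_re, UU_re, UU_im, Real.sin_pi_div_four, re_ofReal_mul, add_re, ofReal_re,
        re_ofReal_mul, I_re, mul_zero, add_zero]
    · rw [wsin_im, UU_re, UU_im, Real.cos_pi_div_four, im_ofReal_mul, add_im, ofReal_im,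
        im_ofReal_mul, I_im, mul_one, zero_add]
  have e2 : cos (UU (Real.pi / 4) s) = ((√2 / 2 : ℝ) : ℂ) * (Real.cosh s - Real.sinh s * I) := by
    apply Complex.ext
    · rw [wcos_re, UU_re, UU_im, Real.cos_pi_div_four, re_ofReal_mul, sub_re, ofReal_re,
        re_ofReal_mul, I_re, mul_zero, sub_zero]
    · rw [wcos_im, UU_re, UU_im, Real.sin_pi_div_four, im_ofReal_mul, sub_im, ofReal_im,
        im_ofReal_mul, I_im, mul_one, zero_sub]
      ring
  have hch := Real.cosh_sq s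
  rw [Complex.tan_eq_sin_div_cos, e1, e2]
  clear e1 e2
  generalize Real.cosh s = C at *
  generalize Real.sinh s = S at *
  have hq : ((√2 / 2 : ℝ) : ℂ) ≠ 0 := by exact_mod_cast h2
  have hn' : ((C : ℂ) ^ 2 + (S : ℂ) ^ 2) ≠ 0 := by exact_mod_cast hn
  have hd : ((C : ℂ) - S * I) ≠ 0 := by
    intro h
    have := congrArg Complex.re h
    simp at this
    linarith only [this, hc1]
  rw [mul_div_mul_left _ _ hq, div_eq_iff hd]
  have hch' : (C : ℂ) ^ 2 = (S : ℂ) ^ 2 + 1 := by exact_mod_cast hch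
  push_cast
  field_simp
  linear_combination ((C : ℂ) - S * I) * hch' + (2 * (S : ℂ) ^ 2 * C) * I_sq

/-- The gain on the vertical over `1/4`. -/
theorem LowA_gain {Φ : ℂ → ℂ → ℂ} (hΦ : IsPhi Φ) {η η0 : ℝ} (h0 : 0 ≤ η) (h0' : 0 ≤ η0)
    (h1 : Real.sinh η < Real.cos (Real.pi / 4)) (h1' : Real.sinh η0 < Real.cos (Real.pi / 4)) :
    FP Φ (UU (Real.pi / 4) 0) (UU (Real.pi / 4) (-η0)) +
      1 / (Real.pi * √3) * Real.log (Real.cosh (2 * η)) ≤
    FP Φ (UU (Real.pi / 4) η) (UU (Real.pi / 4) (-η0)) := by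
  have hpi := Real.pi_pos
  have h3 : (0 : ℝ) < √3 := by positivity
  have h3' : √3 ^ 2 = 3 := Real.sq_sqrt (by norm_num)
  set w : ℂ := igd (UU (Real.pi / 4) (-η0)) with hw
  have hgw : gd w = UU (Real.pi / 4) (-η0) := gd_igd (UU_re_lt LowA_quarter)
  have hreg : ∀ s, 0 ≤ s → s ≤ η → Reg (igd (UU (Real.pi / 4) s)) w := fun s hs hsb =>
    reg_pair LowA_quarter LowA_quarter hs h0'
      ((Real.sinh_le_sinh.2 hsb).trans_lt h1) h1'
  have key := LowA_pos (b := η) (x := η)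
    (f := fun s => FP Φ (UU (Real.pi / 4) s) (gd w) - FP Φ (UU (Real.pi / 4) 0) (gd w) -
      1 / (Real.pi * √3) * Real.log (Real.cosh (2 * s)))
    (f' := fun s => 2 / Real.pi * (qq (igd (UU (Real.pi / 4) s)) w).im -
      1 / (Real.pi * √3) * (2 * Real.sinh (2 * s) / Real.cosh (2 * s))) ?_ (by simp) ?_ h0 le_rfl
  · simp only [hgw] at key
    linarith only [key]
  · intro s hs hsb
    have hd := hasDerivAt_FP_vert hΦ LowA_quarter (hreg s hs hsb)
    have hc := Real.cosh_pos (2 * s)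
    have h2 : HasDerivAt (fun s : ℝ => Real.cosh (2 * s)) (Real.sinh (2 * s) * 2) s := by
      have := ((hasDerivAt_id' s).const_mul 2).cosh
      simpa using this
    have h4 := (hd.sub_const (FP Φ (UU (Real.pi / 4) 0) (gd w))).sub
      ((h2.log hc.ne').const_mul (1 / (Real.pi * √3)))
    refine h4.congr_deriv ?_
    rw [mul_comm (Real.sinh (2 * s)) 2]
  · intro s hs hsb
    have hr := hreg s hs hsb
    have hch := Real.cosh_sq s
    have hs0 : 0 ≤ Real.sinh s := Real.sinh_nonneg_iff.2 hs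
    have hc0 := Real.cosh_pos s
    have hc00 := Real.cosh_pos η0
    have hs00 : 0 ≤ Real.sinh η0 := Real.sinh_nonneg_iff.2 h0'
    have hch0 := Real.cosh_sq η0
    have hr2 : (√2 / 2) ^ 2 = (1 / 2 : ℝ) := by
      rw [div_pow, Real.sq_sqrt (by norm_num)]
      norm_num
    have hr0 : (0 : ℝ) < √2 / 2 := by positivity
    have e1 : sinh (igd (UU (Real.pi / 4) s)) / cosh w =
        tan (UU (Real.pi / 4) s) * cos (UU (Real.pi / 4) (-η0)) := by
      rw [sinh_igd, hw, cosh_igd (UU_re_lt LowA_quarter), div_div_eq_mul_div, div_one]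
    have z1 : (cos (UU (Real.pi / 4) (-η0))).re = √2 / 2 * Real.cosh η0 := by
      rw [wcos_re, UU_re, UU_im, Real.cos_pi_div_four, Real.cosh_neg]
    have z2 : (cos (UU (Real.pi / 4) (-η0))).im = √2 / 2 * Real.sinh η0 := by
      rw [wcos_im, UU_re, UU_im, Real.sin_pi_div_four, Real.sinh_neg]
      ring
    have t1 : (tan (UU (Real.pi / 4) s)).re = 1 / (Real.cosh s ^ 2 + Real.sinh s ^ 2) := by
      rw [LowA_tan4, add_re, ofReal_re, re_ofReal_mul, I_re, mul_zero, add_zero]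
    have t2 : (tan (UU (Real.pi / 4) s)).im =
        2 * Real.sinh s * Real.cosh s / (Real.cosh s ^ 2 + Real.sinh s ^ 2) := by
      rw [LowA_tan4, add_im, ofReal_im, im_ofReal_mul, I_im, mul_one, zero_add]
    have hD : Real.cosh (2 * s) = Real.cosh s ^ 2 + Real.sinh s ^ 2 := Real.cosh_two_mul s
    have hS : Real.sinh (2 * s) = 2 * Real.sinh s * Real.cosh s := Real.sinh_two_mul s
    have hDpos : 0 < Real.cosh s ^ 2 + Real.sinh s ^ 2 := by positivity
    have hT0 : 0 ≤ 2 * Real.sinh s * Real.cosh s / (Real.cosh s ^ 2 + Real.sinh s ^ 2) := by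
      positivity
    have hq := qq_im_ge hr (c := 2 * Real.sinh s * Real.cosh s /
      (Real.cosh s ^ 2 + Real.sinh s ^ 2) * (√2 / 2 * Real.cosh η0))
      (N := Real.cosh η0 * √3 * (√2 / 2)) (by positivity) (by positivity) (by
        rw [e1, mul_im, z1, z2, t1, t2]
        have : 0 ≤ 1 / (Real.cosh s ^ 2 + Real.sinh s ^ 2) * (√2 / 2 * Real.sinh η0) := by
          positivity
        linarith only [this]) (by
        rw [e1, map_mul, normSq_apply, normSq_apply, z1, z2, t1, t2]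
        have g1 : 1 / (Real.cosh s ^ 2 + Real.sinh s ^ 2) *
            (1 / (Real.cosh s ^ 2 + Real.sinh s ^ 2)) +
            2 * Real.sinh s * Real.cosh s / (Real.cosh s ^ 2 + Real.sinh s ^ 2) *
            (2 * Real.sinh s * Real.cosh s / (Real.cosh s ^ 2 + Real.sinh s ^ 2)) = 1 := by
          field_simp
          rw [hch]
          ring
        rw [g1, one_mul]
        have g2 : (Real.cosh η0 * √3 * (√2 / 2)) ^ 2 = Real.cosh η0 ^ 2 * 3 * (1 / 2) := by
          rw [mul_pow, mul_pow, h3', hr2]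
        rw [g2]
        linarith only [hr2, hch0, sq_nonneg (Real.sinh η0),
          mul_nonneg (sq_nonneg (1 * Real.cosh η0)) (sub_nonneg.2 hr2.le),
          mul_nonneg (sq_nonneg (1 * Real.cosh η0)) (sub_nonneg.2 hr2.ge),
          mul_nonneg (sq_nonneg (1 * √2)) (sub_nonneg.2 hch0.le),
          mul_nonneg (sq_nonneg (1 * √2)) (sub_nonneg.2 hch0.ge)])
    have e2 : 2 * Real.sinh s * Real.cosh s / (Real.cosh s ^ 2 + Real.sinh s ^ 2) *
        (√2 / 2 * Real.cosh η0) / (Real.cosh η0 * √3 * (√2 / 2)) =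
        2 * Real.sinh s * Real.cosh s / (Real.cosh s ^ 2 + Real.sinh s ^ 2) / √3 := by
      field_simp
    rw [e2, ← hD, ← hS] at hq
    have h5 := mul_le_mul_of_nonneg_left hq (show 0 ≤ 2 / Real.pi by positivity)
    have e3 : 2 / Real.pi * (Real.sinh (2 * s) / Real.cosh (2 * s) / √3) =
        1 / (Real.pi * √3) * (2 * Real.sinh (2 * s) / Real.cosh (2 * s)) := by
      field_simp
    rw [e3] at h5
    linarith only [h5]

/-- The numerical bound of the gain. -/
theorem LowA_h {η : ℝ} (h0 : 0 ≤ η) (h1 : 294 * Real.sinh η ^ 2 ≤ 53) :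
    -(15618 / 100000) ≤ 1 / (Real.pi * √3) * Real.log (Real.cosh (2 * η)) - η / 2 := by
  have hpi := Real.pi_pos
  set S := Real.sinh η with hS
  have hηS : η ≤ S := Real.self_le_sinh_iff.2 h0
  have hS0 : 0 ≤ S := h0.trans hηS
  have hc : Real.cosh (2 * η) = 1 + 2 * S ^ 2 := by
    rw [Real.cosh_two_mul, Real.cosh_sq, hS]
    ring
  have h2 := Real.le_log_one_add_of_nonneg (x := 2 * S ^ 2) (by positivity)
  rw [← hc] at h2
  have hk : 18377 / 100000 ≤ 1 / (Real.pi * √3) := by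
    have h3 : √3 ≤ 1.7320509 := by
      rw [Real.sqrt_le_left (by norm_num)]
      norm_num
    have h4 : Real.pi * √3 ≤ 3.141593 * 1.7320509 :=
      mul_le_mul Real.pi_lt_d6.le h3 (by positivity) (by norm_num)
    rw [div_le_div_iff₀ (by norm_num) (by positivity)]
    norm_num at h4 ⊢
    linarith only [h4]
  have h5 : 0 ≤ 2 * (2 * S ^ 2) / (2 * S ^ 2 + 2) := by positivity
  have h6 : 18377 / 100000 * (2 * (2 * S ^ 2) / (2 * S ^ 2 + 2)) ≤
      1 / (Real.pi * √3) * Real.log (Real.cosh (2 * η)) :=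
    mul_le_mul hk h2 h5 (by positivity)
  have hS1 : S ≤ 424585 / 1000000 := by
    apply le_of_sq_le_sq _ (by norm_num)
    norm_num
    linarith only [h1]
  have h7 : -(15618 / 100000) ≤ 18377 / 100000 * (2 * (2 * S ^ 2) / (2 * S ^ 2 + 2)) - S / 2 := by
    have e : 18377 / 100000 * (2 * (2 * S ^ 2) / (2 * S ^ 2 + 2)) =
      (18377 / 50000 * S ^ 2) / (S ^ 2 + 1) := by
      field_simp
      ring
    have g := mul_nonneg (sub_nonneg.2 hS1)
      (show 0 ≤ 1 / 2 - 52372 / 100000 * (S + 424585 / 1000000) +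
        1 / 2 * (S ^ 2 + S * (424585 / 1000000) + (424585 / 1000000) ^ 2) by linarith only [hS1,
                                                                               sq_nonneg (S)])
    have h8 : S / 2 - 15618 / 100000 ≤ (18377 / 50000 * S ^ 2) / (S ^ 2 + 1) := by
      rw [le_div_iff₀ (by positivity)]
      linarith only [g]
    rw [e]
    linarith only [h8]
  linarith only [h7, h6, hηS]

/-! ### The test points -/

/-- The test point of a vertex. -/
noncomputable def tp (θ : ℝ) : ℂ := ((1 / 4 : ℝ) : ℂ) + (bl θ (1 / 4) : ℝ) * I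

theorem tp_re (θ : ℝ) : (tp θ).re = 1 / 4 := by
  rw [tp, add_re, ofReal_re, re_ofReal_mul, I_re, mul_zero, add_zero]

theorem tp_im (θ : ℝ) : (tp θ).im = bl θ (1 / 4) := by
  rw [tp, add_im, ofReal_im, im_ofReal_mul, I_im, mul_one, zero_add]

theorem tp_eq_up (θ : ℝ) : tp θ = up θ ((1 / 4 : ℝ) : ℂ) := by
  rw [tp, up, ofReal_re]

theorem LowA_bl {θ : ℝ} (h : Ht θ) : 0 ≤ bl θ (1 / 4) :=
  bl_nonneg h.pos.le h.lt (by rw [abs_of_pos] <;> norm_num)

theorem LowA_sinh {θ : ℝ} : Real.sinh (Real.pi * bl θ (1 / 4)) = Real.tan θ * (√2 / 2) := by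
  rw [sinh_pi_bl, show Real.pi * (1 / 4) = Real.pi / 4 by ring, Real.cos_pi_div_four]

theorem LowA_sinh_sq {θ : ℝ} (h : Ht θ) : 294 * Real.sinh (Real.pi * bl θ (1 / 4)) ^ 2 ≤ 53 := by
  rw [LowA_sinh, mul_pow, div_pow, Real.sq_sqrt (by norm_num)]
  have := h.tan
  linarith only [this]

theorem LowA_sinh_lt {θ : ℝ} (h : Ht θ) :
    Real.sinh (Real.pi * bl θ (1 / 4)) < Real.cos (Real.pi / 4) := by
  have h1 := LowA_sinh_sq h
  rw [Real.cos_pi_div_four]
  refine lt_of_pow_lt_pow_left₀ 2 (by positivity) ?_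
  rw [div_pow, Real.sq_sqrt (by norm_num)]
  linarith only [h1]

theorem tp_div (θ : ℝ) : tp θ = UU (Real.pi / 4) (Real.pi * bl θ (1 / 4)) / (Real.pi : ℂ) := by
  have hpi : (Real.pi : ℂ) ≠ 0 := by exact_mod_cast Real.pi_ne_zero
  rw [tp, UU]
  push_cast
  field_simp

theorem low_A1 {Φ : ℂ → ℂ → ℂ} (hP : IsPhi Φ) (h0 : Φ 0 0 = c00) {th th' : ℝ} (h : Ht th)
    (h' : Ht th') : 12 / 25 + Real.pi / 2 * (bl th (1 / 4) + bl th' (1 / 4)) <
      (Φ (tp th) ((starRingEnd ℂ) (tp th'))).re := by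
  have hpi := Real.pi_pos
  have b0 : 0 ≤ Real.pi * bl th (1 / 4) := mul_nonneg hpi.le (LowA_bl h)
  have b0' : 0 ≤ Real.pi * bl th' (1 / 4) := mul_nonneg hpi.le (LowA_bl h')
  have s0 : Real.sinh 0 < Real.cos (Real.pi / 4) := by
    rw [Real.sinh_zero, Real.cos_pi_div_four]
    positivity
  have e : (Φ (tp th) ((starRingEnd ℂ) (tp th'))).re =
      FP Φ (UU (Real.pi / 4) (Real.pi * bl th (1 / 4)))
        (UU (Real.pi / 4) (-(Real.pi * bl th' (1 / 4)))) := by
    rw [FP, tp_div, tp_div, map_div₀, conj_ofReal, UU_conj]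
  have g0 := LowA_base hP h0
  have g1 := LowA_gain hP b0 le_rfl (LowA_sinh_lt h) s0
  rw [neg_zero] at g1
  have r1 := reg_pair LowA_quarter LowA_quarter b0 b0' (LowA_sinh_lt h) (LowA_sinh_lt h')
  have r2 := reg_pair LowA_quarter LowA_quarter b0 le_rfl (LowA_sinh_lt h) s0
  have g2 := LowA_gain hP.swap b0' b0 (LowA_sinh_lt h') (LowA_sinh_lt h)
  rw [FP_flip hP LowA_quarter LowA_quarter r1] at g2
  have f2 := FP_flip hP LowA_quarter LowA_quarter r2
  rw [neg_zero] at f2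
  rw [f2] at g2
  have n1 := LowA_h b0 (LowA_sinh_sq h)
  have n2 := LowA_h b0' (LowA_sinh_sq h')
  rw [e]
  linarith only [n2, n1, g2, g1, g0]

/-! ### The cost of a good edge -/

/-- `1 / cos x ≤ 1 + x ^ 2 / 2 + 7 x ^ 4 / 25` on `[0, π/4]`. -/
theorem LowA_sec {x : ℝ} (h0 : 0 ≤ x) (h : x ≤ Real.pi / 4) :
    1 / Real.cos x ≤ 1 + x ^ 2 / 2 + 28 / 100 * x ^ 4 := by
  have hc := LowA_cos_pos h0 h
  rw [div_le_iff₀ hc]
  have h2 := LowA_c6 h0
  have h3 := LowA_sq h0 h
  have hp : 0 ≤ 1 + x ^ 2 / 2 + 28 / 100 * x ^ 4 := by positivity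
  have h4 := mul_le_mul_of_nonneg_left h2 hp
  refine le_trans ?_ h4
  have e : (1 + x ^ 2 / 2 + 28 / 100 * x ^ 4) * (1 - x ^ 2 / 2 + x ^ 4 / 24 - x ^ 6 / 720) - 1 =
      (x ^ 2) ^ 2 * (43 / 600 - x ^ 2 * (217 / 1800) + (x ^ 2) ^ 2 * (79 / 7200) -
        (x ^ 2) ^ 3 * (7 / 18000)) := by
    ring
  have h5 : 0 ≤ 43 / 600 - x ^ 2 * (217 / 1800) + (x ^ 2) ^ 2 * (79 / 7200) -
      (x ^ 2) ^ 3 * (7 / 18000) := by
    have g := sq_nonneg x
    generalize x ^ 2 = y at h3 g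
    linarith only [h3, sq_nonneg (10000 * y - 1 * 6169),
      mul_nonneg (mul_self_nonneg (y)) (sub_nonneg.2 h3)]
  have := mul_nonneg (sq_nonneg (x ^ 2)) h5
  linarith only [this]

theorem LowA_arsinh {x : ℝ} (h0 : 0 ≤ x) (h : x ≤ Real.pi / 4) :
    Real.arsinh (Real.tan x) ≤ x + x ^ 3 / 6 + 56 / 1000 * x ^ 5 := by
  have key := LowA_pos (b := Real.pi / 4) (x := x)
    (f := fun x => x + x ^ 3 / 6 + 56 / 1000 * x ^ 5 - Real.arsinh (Real.tan x))
    (f' := fun x => 1 + x ^ 2 / 2 + 28 / 100 * x ^ 4 - 1 / Real.cos x) ?_ (by simp) ?_ h0 h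
  · linarith only [key]
  · intro x hx hxb
    have hc := LowA_cos_pos hx hxb
    have h1 : HasDerivAt (fun x => Real.arsinh (Real.tan x))
        ((√(1 + Real.tan x ^ 2))⁻¹ * (1 / Real.cos x ^ 2)) x :=
      (Real.hasDerivAt_arsinh (Real.tan x)).comp x (Real.hasDerivAt_tan hc.ne')
    have h2 := (((hasDerivAt_id' x).add ((hasDerivAt_pow 3 x).div_const 6)).add
      ((hasDerivAt_pow 5 x).const_mul (56 / 1000))).sub h1
    refine h2.congr_deriv ?_
    rw [Real.inv_sqrt_one_add_tan_sq hc]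
    have e : Real.cos x * (1 / Real.cos x ^ 2) = 1 / Real.cos x := by
      field_simp
    rw [e]
    norm_num
    try ring
  · intro x hx hxb
    have := LowA_sec hx hxb
    linarith only [this]

theorem LowA_kappa {x κ : ℝ} (h0 : 0 ≤ x) (h : x ≤ Real.pi / 4) (hκ : 1 ≤ κ) :
    Real.arsinh (κ * Real.tan x) ≤ Real.arsinh (Real.tan x) + (κ - 1) * Real.sin x := by
  have hc := LowA_cos_pos h0 h
  have hs : 0 ≤ Real.sin x :=
    Real.sin_nonneg_of_nonneg_of_le_pi h0 (by linarith only [h, h0])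
  have ht : 0 ≤ Real.tan x := by
    rw [Real.tan_eq_sin_div_cos]
    positivity
  rw [← Real.sinh_le_sinh, Real.sinh_arsinh, Real.sinh_add, Real.sinh_arsinh, Real.cosh_arsinh]
  have hB : 0 ≤ (κ - 1) * Real.sin x := mul_nonneg (by linarith only [hκ]) hs
  have h1 := Real.one_le_cosh ((κ - 1) * Real.sin x)
  have h2 := Real.self_le_sinh_iff.2 hB
  have h3 : √(1 + Real.tan x ^ 2) = 1 / Real.cos x := by
    have := Real.inv_sqrt_one_add_tan_sq hc
    rw [← this, one_div, inv_inv]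
  rw [h3]
  have h4 : Real.tan x * 1 ≤ Real.tan x * Real.cosh ((κ - 1) * Real.sin x) :=
    mul_le_mul_of_nonneg_left h1 ht
  have h5 : 1 / Real.cos x * ((κ - 1) * Real.sin x) ≤
      1 / Real.cos x * Real.sinh ((κ - 1) * Real.sin x) :=
    mul_le_mul_of_nonneg_left h2 (by positivity)
  have h6 : 1 / Real.cos x * ((κ - 1) * Real.sin x) = (κ - 1) * Real.tan x := by
    rw [Real.tan_eq_sin_div_cos]
    field_simp
  rw [h6] at h5
  linarith only [h5, h4]

theorem LowA_cos_norm {θ : ℝ} {w : ℂ} (hw : Und θ w) (h : Ht θ) :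
    ‖cos ((Real.pi : ℂ) * (starRingEnd ℂ) w)‖ ≤ 116643 / 100000 := by
  apply le_of_sq_le_sq _ (by norm_num)
  rw [← normSq_eq_norm_sq, normSq_apply, wcos_re, wcos_im, pi_mul_re, pi_mul_im, conj_re, conj_im]
  have h1 := hw.bl_sinh h
  have h2 := Real.cosh_sq (Real.pi * -w.im)
  have h3 := Real.sin_sq_add_cos_sq (Real.pi * w.re)
  rw [mul_neg, Real.sinh_neg, neg_sq] at h2
  rw [mul_neg, Real.sinh_neg]
  generalize Real.sinh (Real.pi * w.im) = S at *
  generalize Real.cosh (-(Real.pi * w.im)) = C at *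
  generalize Real.sin (Real.pi * w.re) = s at *
  generalize Real.cos (Real.pi * w.re) = c at *
  have e : c * C * (c * C) + -(s * -S) * -(s * -S) = c ^ 2 + S ^ 2 := by
    linear_combination (c ^ 2) * h2 + S ^ 2 * h3
  rw [e]
  have h4 : c ^ 2 ≤ 1 := by linarith only [sq_nonneg s, h3]
  norm_num
  linarith only [h4, h1]

theorem LowA_drop {Φ : ℂ → ℂ → ℂ} (hP : IsPhi Φ) {θ : ℝ} {w : ℂ} (hw : Und θ w) (h : Ht θ) :
    (Φ 0 ((starRingEnd ℂ) w)).re < (Φ ((1 / 4 : ℝ) : ℂ) ((starRingEnd ℂ) w)).re + 6 / 25 := by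
  have hpi := Real.pi_pos
  have hpc : (Real.pi : ℂ) ≠ 0 := by exact_mod_cast Real.pi_ne_zero
  have hwa : |((starRingEnd ℂ) w).re| < 1 / 2 := conj_abs hw.abs
  set W : ℂ := uof ((starRingEnd ℂ) w) with hW
  have hgW : gd W = (Real.pi : ℂ) * (starRingEnd ℂ) w := by
    rw [hW, uof, gd_igd (pi_re_lt hwa)]
  have hWi : |W.im| < Real.pi / 2 := uof_im_lt hwa
  have hreg : ∀ s, 0 ≤ s → s ≤ Real.pi / 4 → Reg (igd (UU s 0)) W := by
    intro s hs hsb
    have : |s| < Real.pi / 2 := by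
      rw [abs_of_nonneg hs]
      linarith only [hsb, hpi]
    unfold Reg
    rw [igd_real_im this, abs_zero, zero_add]
    exact hWi
  have key := LowA_pos (b := Real.pi / 4) (x := Real.pi / 4)
    (f := fun s => FP Φ (UU s 0) (gd W) - FP Φ (UU 0 0) (gd W) + 2 / Real.pi *
      (s ^ 2 / 2 + s ^ 4 / 24 + 56 / 6000 * s ^ 6 + 16643 / 100000 * (1 - Real.cos s)))
    (f' := fun s => -(2 / Real.pi) * (qq (igd (UU s 0)) W).re + 2 / Real.pi *
      (s + s ^ 3 / 6 + 56 / 1000 * s ^ 5 + 16643 / 100000 * Real.sin s)) ?_ (by simp) ?_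
    (by positivity) le_rfl
  · have e0 : FP Φ (UU 0 0) (gd W) = (Φ 0 ((starRingEnd ℂ) w)).re := by
      rw [FP, LowA_UU0, ofReal_zero, zero_div, hgW, mul_div_cancel_left₀ _ hpc]
    have e1 : FP Φ (UU (Real.pi / 4) 0) (gd W) =
        (Φ ((1 / 4 : ℝ) : ℂ) ((starRingEnd ℂ) w)).re := by
      have : ((Real.pi / 4 : ℝ) : ℂ) / (Real.pi : ℂ) = ((1 / 4 : ℝ) : ℂ) := by
        push_cast
        field_simp
      rw [FP, LowA_UU0, this, hgW, mul_div_cancel_left₀ _ hpc]
    simp only [e0, e1] at key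
    have h2 : (1.414213 : ℝ) ≤ √2 := by
      apply Real.le_sqrt_of_sq_le
      norm_num
    rw [Real.cos_pi_div_four] at key
    have e2 : 2 / Real.pi * ((Real.pi / 4) ^ 2 / 2 + (Real.pi / 4) ^ 4 / 24 +
        56 / 6000 * (Real.pi / 4) ^ 6 + 16643 / 100000 * (1 - √2 / 2)) =
        Real.pi / 16 + Real.pi ^ 3 / 3072 + 56 / 12288000 * Real.pi ^ 5 +
          16643 / 50000 * (1 - √2 / 2) / Real.pi := by
      field_simp
      ring
    rw [e2] at key
    have p1 := Real.pi_lt_d6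
    have p3 : Real.pi ^ 3 ≤ 3.141593 ^ 3 := pow_le_pow_left₀ hpi.le p1.le 3
    have p5 : Real.pi ^ 5 ≤ 3.141593 ^ 5 := pow_le_pow_left₀ hpi.le p1.le 5
    have p6 : 16643 / 50000 * (1 - √2 / 2) / Real.pi ≤ 3104 / 100000 := by
      rw [div_le_iff₀ hpi]
      have := Real.pi_gt_d6
      norm_num at h2 this ⊢
      linarith only [this, h2, p1]
    norm_num at p1 p3 p5
    linarith only [p5, p3, p1, p6, key]
  · intro s hs hsb
    have hs' : |s| < Real.pi / 2 := by
      rw [abs_of_nonneg hs]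
      linarith only [hsb, hpi]
    have h1 := ((hasDerivAt_FP_hor hP hs' (hreg s hs hsb)).sub_const (FP Φ (UU 0 0) (gd W))).add
      ((((((hasDerivAt_pow 2 s).div_const 2).add ((hasDerivAt_pow 4 s).div_const 24)).add
        ((hasDerivAt_pow 6 s).const_mul (56 / 6000))).add
        (((Real.hasDerivAt_cos s).const_sub 1).const_mul (16643 / 100000))).const_mul
          (2 / Real.pi))
    refine h1.congr_deriv ?_
    norm_num
    try ring
  · intro s hs hsb
    have hs' : |s| < Real.pi / 2 := by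
      rw [abs_of_nonneg hs]
      linarith only [hsb, hpi]
    have hc := LowA_cos_pos hs hsb
    have hsn : 0 ≤ Real.sin s := Real.sin_nonneg_of_nonneg_of_le_pi hs (by linarith only [hsb, hpi])
    have ht : 0 ≤ Real.tan s := by
      rw [Real.tan_eq_sin_div_cos]
      positivity
    have h1 := qq_re_le (igd (UU s 0)) W
    have h2 : ‖sinh (igd (UU s 0)) / cosh W‖ ≤ 116643 / 100000 * Real.tan s := by
      rw [sinh_igd, hW, uof, cosh_igd (pi_re_lt hwa), div_div_eq_mul_div, div_one, norm_mul,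
        LowA_UU0, ← ofReal_tan, Complex.norm_real, Real.norm_of_nonneg ht, mul_comm]
      exact mul_le_mul_of_nonneg_right (LowA_cos_norm hw h) ht
    have h3 := h1.trans (Real.arsinh_le_arsinh.2 h2)
    have h4 := LowA_kappa hs hsb (κ := 116643 / 100000) (by norm_num)
    have h5 := LowA_arsinh hs hsb
    have h6 : (qq (igd (UU s 0)) W).re ≤
        s + s ^ 3 / 6 + 56 / 1000 * s ^ 5 + 16643 / 100000 * Real.sin s := by
      norm_num at h4 ⊢
      linarith only [h4, h5, h3]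
    have h7 : 0 < 2 / Real.pi := by positivity
    linarith only [mul_nonneg (sub_nonneg.2 h5) (sub_nonneg.2 h7.le),
      mul_nonneg (sub_nonneg.2 h4) (sub_nonneg.2 h7.le),
      mul_nonneg (sub_nonneg.2 h3) (sub_nonneg.2 h7.le)]

theorem LowA_und (θ : ℝ) (h : Ht θ) : Und θ ((1 / 4 : ℝ) : ℂ) where
  re0 := by rw [ofReal_re]; norm_num
  re1 := by rw [ofReal_re]; norm_num
  im0 := by rw [ofReal_im]
  im1 := by rw [ofReal_im, ofReal_re]; exact LowA_bl h

theorem Ht.lt_quarter {θ : ℝ} (h : Ht θ) : θ < Real.pi / 4 := by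
  by_contra hc
  push Not at hc
  have h1 : 1 ≤ Real.tan θ := by
    rw [← Real.tan_pi_div_four]
    rcases hc.eq_or_lt with e | e
    · rw [e]
    · exact (Real.tan_lt_tan_of_lt_of_lt_pi_div_two (by linarith only [Real.pi_pos]) h.lt e).le
  have := h.tan
  linarith only [this, h1, mul_nonneg (sub_nonneg.2 h1) (sub_nonneg.2 h1)]

theorem low_A3 {Φ : ℂ → ℂ → ℂ} (hP : IsPhi Φ) {th th' : ℝ} {w : ℂ} (h : Ht th)
    (hw : Und th' w) (h' : Ht th') :
    (Φ 0 ((starRingEnd ℂ) w)).re < (Φ (tp th) ((starRingEnd ℂ) w)).re + 6 / 25 := by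
  have h1 := LowA_drop hP hw h'
  have hp : Pr th th' ((1 / 4 : ℝ) : ℂ) w :=
    ⟨LowA_und th h, hw, h, h', by linarith only [h'.lt_quarter, h.lt_quarter]⟩
  have h2 := hp.vert_left hP
  rw [← tp_eq_up] at h2
  linarith only [h2, h1]

theorem uof_conj {v : ℂ} (h : |v.re| < 1 / 2) :
    uof ((starRingEnd ℂ) v) = (starRingEnd ℂ) (uof v) := by
  have e : (Real.pi : ℂ) * (starRingEnd ℂ) v = (starRingEnd ℂ) ((Real.pi : ℂ) * v) := by
    rw [map_mul, conj_ofReal]
  rw [uof, uof, e, igd_conj (pi_re_lt h)]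

theorem Phi_conj_re {Φ : ℂ → ℂ → ℂ} (hP : IsPhi Φ) {v w : ℂ} (h1 : |v.re| < 1 / 2)
    (h2 : |w.re| < 1 / 2) (hr : Reg (uof v) (uof w)) :
    (Φ ((starRingEnd ℂ) v) ((starRingEnd ℂ) w)).re = (Φ v w).re := by
  have h := hP.conj _ _ hr
  rw [← uof_conj h1, ← uof_conj h2, ← Phi_eq_gd Φ (conj_abs h1) (conj_abs h2),
    ← Phi_eq_gd Φ h1 h2] at h
  exact h

theorem low_A3' {Φ : ℂ → ℂ → ℂ} (hP : IsPhi Φ) {th th' : ℝ} {v : ℂ} (h' : Ht th')
    (hv : Und th v) (h : Ht th) :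
    (Φ v 0).re < (Φ v ((starRingEnd ℂ) (tp th'))).re + 6 / 25 := by
  have h1 := low_A3 hP.swap h' hv h
  have ha := hv.abs
  have ht : |(tp th').re| < 1 / 2 := by
    rw [tp_re, abs_of_pos] <;> norm_num
  have hp : Pr th th' v (tp th') := by
    refine ⟨hv, ⟨by rw [tp_re]; norm_num, by rw [tp_re]; norm_num, ?_, ?_⟩, h, h',
      by linarith only [h'.lt_quarter, h.lt_quarter]⟩
    · rw [tp_im]
      exact LowA_bl h'
    · rw [tp_im, tp_re]
  have hr := hp.qo.reg
  rw [← hp.hw.conj_u] at hr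
  have e1 : (Φ ((starRingEnd ℂ) v) (tp th')).re = (Φ v ((starRingEnd ℂ) (tp th'))).re := by
    have := Phi_conj_re hP ha (conj_abs ht) hr
    rwa [conj_conj] at this
  have e2 : (Φ ((starRingEnd ℂ) v) 0).re = (Φ v 0).re := by
    have hz : |(0 : ℂ).re| < 1 / 2 := by
      rw [zero_re, abs_zero]
      norm_num
    have hu0 : (uof 0).im = 0 := by
      have := igd_real_im (R := 0) (by rw [abs_zero]; linarith only [Real.pi_pos])
      rw [uof, mul_zero]
      rwa [LowA_UU0, ofReal_zero] at this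
    have := Phi_conj_re hP ha hz (by
      unfold Reg
      rw [hu0, abs_zero, add_zero]
      exact uof_im_lt ha)
    rwa [map_zero] at this
  rw [e1, e2] at h1
  exact h1

end Pool.Agent.S3
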