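import Pool.Agent.S3.Ks1
import Pool.Agent.S3.Edge

/-!
# Stage 3: reduction of the edge estimate to one quadrant

`mir v = -conj v` is the mirror image of a vertex. For `re v ≥ 0 ≥ re w` (the quadrant of the
critical point) an admissible polygon for `(v, w)` gives one for `(mir v, w)`, `(v, mir w)` and
`(mir v, mir w)` with the same bound, because
`se y (mir v) - se y v` is the integral of `log |2 sin π (s + i (h + I))| - log |2 sin π (s + i (h - I))|`
over `re y - re v < s < re y + re v`, and `EE` is invariant under the reflection of everything.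
-/

set_option autoImplicit false

namespace Pool.Agent.S3

open Complex

/-- The mirror image of a vertex. -/
noncomputable def mir (v : ℂ) : ℂ := -(starRingEnd ℂ) v

@[simp] theorem mir_re (v : ℂ) : (mir v).re = -v.re := by simp [mir]

@[simp] theorem mir_im (v : ℂ) : (mir v).im = v.im := by simp [mir]

@[simp] theorem mir_mir (v : ℂ) : mir (mir v) = v := by simp [mir]

theorem mir_ofReal (x : ℝ) : mir (x : ℂ) = ((-x : ℝ) : ℂ) := by simp [mir]

/-! ### Slots -/

theorem se_mir_conj (y v : ℂ) : se ((starRingEnd ℂ) y) (.op (mir v)) = se y (.op v) := by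
  have e1 : (starRingEnd ℂ) y + 1 / 2 = (starRingEnd ℂ) (y + 1 / 2) := by
    rw [map_add, map_div₀, map_one, Complex.conj_ofNat]
  have e2 : (starRingEnd ℂ) y - mir v = (starRingEnd ℂ) (y + v) := by
    rw [mir, sub_neg_eq_add, map_add]
  have e3 : (starRingEnd ℂ) y + mir v = (starRingEnd ℂ) (y - v) := by
    rw [mir, ← sub_eq_add_neg, map_sub]
  simp only [se, e1, e2, e3, Rf_conj]
  ring

/-- On the own side of `v` the slot of the mirror image is larger. -/
theorem se_le_mir {y v : ℂ} (hy : 0 ≤ y.im) (h0 : 0 ≤ v.re) (h1 : 0 ≤ v.im) :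
    se y (.op v) ≤ se y (.op (mir v)) := by
  have hab : y.re - v.re ≤ y.re + v.re := by linarith
  have h : |y.im - v.im| ≤ |y.im + v.im| := by
    rw [abs_of_nonneg (by linarith : 0 ≤ y.im + v.im), abs_le]
    constructor <;> linarith
  have key := Rf_incr h hab
  have e1 : ((y.re + v.re : ℝ) : ℂ) + ((y.im - v.im : ℝ) : ℂ) * I = y - mir v := by
    apply Complex.ext <;> simp [mir, sub_eq_add_neg]
  have e2 : ((y.re - v.re : ℝ) : ℂ) + ((y.im - v.im : ℝ) : ℂ) * I = y - v := by
    apply Complex.ext <;> simp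
  have e3 : ((y.re + v.re : ℝ) : ℂ) + ((y.im + v.im : ℝ) : ℂ) * I = y + v := by
    apply Complex.ext <;> simp
  have e4 : ((y.re - v.re : ℝ) : ℂ) + ((y.im + v.im : ℝ) : ℂ) * I = y + mir v := by
    apply Complex.ext <;> simp [mir, sub_eq_add_neg]
  rw [e1, e2, e3, e4] at key
  simp only [se]
  linarith

/-- On the other side of `v` the slot of the mirror image is smaller. -/
theorem mir_se_le {y v : ℂ} (hy : y.im ≤ 0) (h0 : 0 ≤ v.re) (h1 : 0 ≤ v.im) :
    se y (.op (mir v)) ≤ se y (.op v) := by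
  have h := se_le_mir (y := (starRingEnd ℂ) y) (v := v) (by simpa using hy) h0 h1
  rw [se_mir_conj] at h
  have e : se ((starRingEnd ℂ) y) (.op v) = se y (.op (mir v)) := by
    have := se_mir_conj y (mir v)
    rwa [mir_mir] at this
  linarith

/-- On the real axis the two slots are equal. -/
theorem se_mir_real (y : ℝ) (v : ℂ) : se y (.op (mir v)) = se y (.op v) := by
  have := se_mir_conj y v
  rwa [conj_ofReal] at this

/-! ### Edges -/

theorem EE_mir_mir (y v w : ℂ) :
    EE (.op (mir v)) (.op (mir w)) ((starRingEnd ℂ) y) = EE (.op v) (.op w) y := by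
  simp only [EE, se_mir_conj]

theorem EE_mir_left {y v w : ℂ} (hv : 0 ≤ v.re) (hv' : 0 ≤ v.im) (hw : w.re ≤ 0) (hw' : 0 ≤ w.im) :
    EE (.op (mir v)) (.op w) ((y.re : ℂ) + ((-|y.im| : ℝ) : ℂ) * I) ≤ EE (.op v) (.op w) y := by
  rcases le_total y.im 0 with h | h
  · have e : (y.re : ℂ) + ((-|y.im| : ℝ) : ℂ) * I = y := by
      rw [abs_of_nonpos h, neg_neg, re_add_im]
    rw [e]
    simp only [EE]
    linarith [mir_se_le h hv hv']
  · have e : (y.re : ℂ) + ((-|y.im| : ℝ) : ℂ) * I = (starRingEnd ℂ) y := by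
      rw [abs_of_nonneg h]
      apply Complex.ext <;> simp
    rw [e]
    simp only [EE, se_mir_conj]
    have h1 : se ((starRingEnd ℂ) y) (.op w) = se y (.op (mir w)) := by
      have := se_mir_conj y (mir w)
      rwa [mir_mir] at this
    have h2 := se_le_mir (y := y) (v := mir w) h (by simpa using hw) (by simpa using hw')
    rw [mir_mir] at h2
    linarith

theorem EE_mir_right {y v w : ℂ} (hv : 0 ≤ v.re) (hv' : 0 ≤ v.im) (hw : w.re ≤ 0)
    (hw' : 0 ≤ w.im) :
    EE (.op v) (.op (mir w)) ((y.re : ℂ) + ((|y.im| : ℝ) : ℂ) * I) ≤ EE (.op v) (.op w) y := by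
  have h := EE_mir_left (y := (starRingEnd ℂ) y) (v := mir w) (w := mir v) (by simpa using hw)
    (by simpa using hw') (by simpa using hv) (by simpa using hv')
  rw [mir_mir] at h
  have h1 : EE (.op (mir w)) (.op (mir v)) ((starRingEnd ℂ) y) = EE (.op v) (.op w) y := by
    rw [EE_mir_mir, EE, EE, add_comm]
  rw [h1] at h
  refine le_trans (le_of_eq ?_) h
  have e : ((((starRingEnd ℂ) y).re : ℂ) + ((-|((starRingEnd ℂ) y).im| : ℝ) : ℂ) * I) =
      (starRingEnd ℂ) ((y.re : ℂ) + ((|y.im| : ℝ) : ℂ) * I) := by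
    apply Complex.ext <;> simp
  rw [e]
  have h2 := EE_mir_mir ((y.re : ℂ) + ((|y.im| : ℝ) : ℂ) * I) (mir w) v
  rw [mir_mir] at h2
  rw [h2, EE, EE, add_comm]

/-! ### Polygons -/

theorem PolOn.map {n : ℕ} {t h : ℕ → ℝ} {P P' : ℂ → Prop} {f : ℝ → ℝ} (hf : Continuous f)
    (f0 : f 0 = 0) (hP : ∀ x Y : ℝ, P (x + Y * I) → P' (x + (f Y : ℝ) * I)) (H : PolOn n t h P) :
    PolOn n t (fun i => f (h i)) P' := by
  obtain ⟨h1, h2, h3, h4⟩ := H
  have key : ∀ (x a b : ℝ), (∀ Y ∈ Set.uIcc a b, P (x + Y * I)) →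
      ∀ Y ∈ Set.uIcc (f a) (f b), P' (x + Y * I) := by
    intro x a b hab Y hY
    obtain ⟨Z, hZ, rfl⟩ := intermediate_value_uIcc hf.continuousOn hY
    exact hP x Z (hab Z hZ)
  refine ⟨fun i hi x hx => hP _ _ (h1 i hi x hx), ?_, fun i hi => key _ _ _ (h3 i hi), ?_⟩
  · have := key (t 0) 0 (h 0) h2
    rwa [f0] at this
  · have := key (t n) (h (n - 1)) 0 h4
    rwa [f0] at this

theorem Pgn.map {n : ℕ} {t h : ℕ → ℝ} {f : ℝ → ℝ} (hf : ∀ x, |f x| ≤ |x|) (H : Pgn n t h) :
    Pgn n t (fun i => f (h i)) :=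
  { H with ht := fun i hi => (hf _).trans (H.ht i hi) }

theorem B0_mir (v : ℂ) : B0 (.op (mir v)) = B0 (.op v) := by simp [B0]

/-- Reduction of the edge estimate: the mirror image of the first vertex. -/
theorem EdgeOK.mir_left {v w : ℂ} {L : ℝ} (hv : 0 ≤ v.re) (hv' : 0 ≤ v.im) (hw : w.re ≤ 0)
    (hw' : 0 ≤ w.im) (H : EdgeOK (.op v) (.op w) L) : EdgeOK (.op (mir v)) (.op w) L := by
  obtain ⟨h1, h2, n, t, h, h3, h4⟩ := H
  refine ⟨by rwa [B0_mir], fun y hy => ?_, n, t, fun i => -|h i|,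
    h3.map (f := fun x => -|x|) (fun x => by rw [abs_neg, abs_abs]), ?_⟩
  · have e : EE (.op (mir v)) (.op w) y = EE (.op v) (.op w) y := by
      simp only [EE, se_mir_real]
    rw [e]
    exact h2 y hy
  · refine h4.map (f := fun x => -|x|) (continuous_abs.neg) (by simp) (fun x Y hP => ?_)
    have := EE_mir_left (y := (x : ℂ) + Y * I) hv hv' hw hw'
    rw [line_re, line_im] at this
    exact lt_of_le_of_lt this hP

/-- Reduction of the edge estimate: the mirror image of the second vertex. -/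
theorem EdgeOK.mir_right {v w : ℂ} {L : ℝ} (hv : 0 ≤ v.re) (hv' : 0 ≤ v.im) (hw : w.re ≤ 0)
    (hw' : 0 ≤ w.im) (H : EdgeOK (.op v) (.op w) L) : EdgeOK (.op v) (.op (mir w)) L := by
  obtain ⟨h1, h2, n, t, h, h3, h4⟩ := H
  refine ⟨by rwa [B0_mir], fun y hy => ?_, n, t, fun i => |h i|,
    h3.map (f := fun x => |x|) (fun x => by rw [abs_abs]), ?_⟩
  · have e : EE (.op v) (.op (mir w)) y = EE (.op v) (.op w) y := by
      simp only [EE, se_mir_real]
    rw [e]
    exact h2 y hy
  · refine h4.map (f := fun x => |x|) continuous_abs (by simp) (fun x Y hP => ?_)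
    have := EE_mir_right (y := (x : ℂ) + Y * I) hv hv' hw hw'
    rw [line_re, line_im] at this
    exact lt_of_le_of_lt this hP

/-- Reduction of the edge estimate: the mirror image of both vertices. -/
theorem EdgeOK.mir_both {v w : ℂ} {L : ℝ} (H : EdgeOK (.op v) (.op w) L) :
    EdgeOK (.op (mir v)) (.op (mir w)) L := by
  obtain ⟨h1, h2, n, t, h, h3, h4⟩ := H
  refine ⟨by rwa [B0_mir, B0_mir], fun y hy => ?_, n, t, fun i => -h i,
    h3.map (f := fun x => -x) (fun x => by rw [abs_neg]), ?_⟩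
  · have e : EE (.op (mir v)) (.op (mir w)) y = EE (.op v) (.op w) y := by
      simp only [EE, se_mir_real]
    rw [e]
    exact h2 y hy
  · refine h4.map (f := fun x => -x) continuous_neg (by simp) (fun x Y hP => ?_)
    have e : (x : ℂ) + ((-Y : ℝ) : ℂ) * I = (starRingEnd ℂ) ((x : ℂ) + Y * I) := by
      rw [conj_line]
    show EE (.op (mir v)) (.op (mir w)) ((x : ℂ) + ((-Y : ℝ) : ℂ) * I) < L
    rw [e, EE_mir_mir]
    exact hP

theorem EdgeOK.mono {σ τ : Sl} {L L' : ℝ} (h : L ≤ L') (H : EdgeOK σ τ L) : EdgeOK σ τ L' := by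
  obtain ⟨h1, h2, n, t, k, h3, h4⟩ := H
  refine ⟨h1.trans_le h, fun y hy => (h2 y hy).trans_le h, n, t, k, h3, ?_⟩
  obtain ⟨g1, g2, g3, g4⟩ := h4
  exact ⟨fun i hi x hx => (g1 i hi x hx).trans_le h, fun Y hY => (g2 Y hY).trans_le h,
    fun i hi Y hY => (g3 i hi Y hY).trans_le h, fun Y hY => (g4 Y hY).trans_le h⟩

theorem EdgeOK.symm {σ τ : Sl} {L : ℝ} (H : EdgeOK σ τ L) : EdgeOK τ σ L := by
  have e : ∀ y, EE τ σ y = EE σ τ y := fun y => by rw [EE, EE, add_comm]
  obtain ⟨h1, h2, n, t, k, h3, h4⟩ := H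
  refine ⟨by rwa [add_comm], fun y hy => by rw [e]; exact h2 y hy, n, t, k, h3, ?_⟩
  simpa only [e] using h4

/-- A slot with closed form and the mirror image of the vertex: only for the conjugate sign. -/
theorem se_cl_conj (y : ℂ) (s : ℤ) : se ((starRingEnd ℂ) y) (.cl (-s)) = se y (.cl s) := by
  have e1 : (starRingEnd ℂ) y + 1 / 2 = (starRingEnd ℂ) (y + 1 / 2) := by
    rw [map_add, map_div₀, map_one, Complex.conj_ofNat]
  simp only [se, e1, Rf_conj, conj_re, conj_im]
  push_cast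
  ring

/-! ### The linear bound -/

/-- The change of the share of a vertex under the reflection, for the canonical split. -/
theorem ell_mir {vc Q : ℂ} {β : ℝ} (h : 2 * Q.re + β * vc.im = 0) (v : ℂ) :
    ell vc Q β (mir v) = ell vc Q β v - 2 * β * v.re * v.im := by
  have e1 : (2 * Q * (mir v - vc) + I * β / 2 * (mir v - vc) ^ 2).re =
      2 * Q.re * (-v.re - vc.re) - 2 * Q.im * (v.im - vc.im)
        - β * (-v.re - vc.re) * (v.im - vc.im) := by
    have : (I * β / 2 : ℂ) = ((β / 2 : ℝ) : ℂ) * I := by push_cast; ring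
    rw [this, sq]
    simp only [add_re, mul_re, mul_im, sub_re, sub_im, ofReal_re, ofReal_im, I_re, I_im, mir_re,
      mir_im, re_ofNat, im_ofNat]
    ring
  have e2 : (2 * Q * (v - vc) + I * β / 2 * (v - vc) ^ 2).re =
      2 * Q.re * (v.re - vc.re) - 2 * Q.im * (v.im - vc.im)
        - β * (v.re - vc.re) * (v.im - vc.im) := by
    have : (I * β / 2 : ℂ) = ((β / 2 : ℝ) : ℂ) * I := by push_cast; ring
    rw [this, sq]
    simp only [add_re, mul_re, mul_im, sub_re, sub_im, ofReal_re, ofReal_im, I_re, I_im,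
      re_ofNat, im_ofNat]
    ring
  rw [ell, ell, e1, e2]
  linear_combination 2 * v.re * h

theorem ell_le_mir {vc Q : ℂ} {β : ℝ} (h : 2 * Q.re + β * vc.im = 0) {v : ℂ}
    (h1 : β * v.re ≤ 0) (h2 : 0 ≤ v.im) : ell vc Q β v ≤ ell vc Q β (mir v) := by
  rw [ell_mir h]
  have := mul_nonpos_of_nonpos_of_nonneg h1 h2
  linarith

end Pool.Agent.S3
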