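import Pool.Agent.S3.W.Real
import Pool.Agent.S3.Es1
import Pool.Agent.S3.Cl.Mid
import Pool.Agent.S3.Cl.Num

/-!
# The low part: growth of a slot on the real line, and the value of `Φ (0, w)`
-/

set_option autoImplicit false

namespace Pool.Agent.S3

open Complex MeasureTheory
open Pool.Agent.H63.VC3
open Pool.Agent.H25.RK (gdv gdv_re_lt gdv_hasDerivAt)

/-! ### Real slots -/

theorem Rf_neg_real (x : ℝ) : Rf ((-x : ℝ) : ℂ) = -Rf (x : ℂ) := by
  have h := Rf_neg (x : ℂ)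
  rw [ofReal_im, abs_zero, mul_zero, sub_zero] at h
  rw [ofReal_neg, h]

theorem se_real_even (y : ℂ) (a : ℝ) : se y (.op (a : ℂ)) = se y (.op ((|a| : ℝ) : ℂ)) := by
  rcases le_total 0 a with h | h
  · rw [abs_of_nonneg h]
  · rw [abs_of_nonpos h, ofReal_neg, se_op_neg]

/-- The growth of a real slot is at most the growth at `v = 0`. -/
theorem low_E1b {a : ℝ} (ha : |a| ≤ 1 / 2) {y : ℂ} (h0 : 0 ≤ y.re) (h1 : y.re ≤ 1 / 2) :
    se y (.op (a : ℂ)) ≤ se y (.op 0) := by
  rw [se_real_even]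
  have := se_real_anti le_rfl (abs_nonneg a) ha h0 h1
  rwa [ofReal_zero] at this

theorem se_real_nonneg {a t : ℝ} (ha : |a| ≤ 1 / 2) (h0 : 0 ≤ t) (h1 : t ≤ 1 / 2) :
    0 ≤ se (t : ℂ) (.op (a : ℂ)) := by
  rw [se_real_even]
  have h := se_real_anti (abs_nonneg a) ha le_rfl (y := (t : ℂ)) (by rwa [ofReal_re])
    (by rwa [ofReal_re])
  refine le_trans (le_of_eq ?_) h
  unfold se
  simp only
  have e1 : ((t : ℂ) + ((1 / 2 : ℝ) : ℂ)) = (t : ℂ) + 1 / 2 := by push_cast; ring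
  have e2 : ((t : ℂ) - ((1 / 2 : ℝ) : ℂ)) = (t : ℂ) + 1 / 2 - 1 := by push_cast; ring
  have h3 := Rf_sub_one ((t : ℂ) + 1 / 2)
  have e3 : ((t : ℂ) + 1 / 2).im = 0 := by simp
  rw [e3, abs_zero, mul_zero, sub_zero] at h3
  rw [e1, e2, h3]
  ring

/-- The growth of a real slot is nonpositive left of `0`. -/
theorem low_E1a {a y : ℝ} (ha : |a| ≤ 1 / 2) (h0 : -(1 / 2) ≤ y) (h1 : y ≤ 0) :
    se (y : ℂ) (.op (a : ℂ)) ≤ 0 := by
  have h := se_real_nonneg ha (t := -y) (by linarith only [h1]) (by linarith only [h0])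
  unfold se at h ⊢
  simp only at h ⊢
  have e1 : Rf ((y : ℂ) + 1 / 2) = -Rf (((-y : ℝ) : ℂ) + 1 / 2) := by
    have := Rf_one_sub_line (-y + 1 / 2) 0
    rw [ofReal_zero, zero_mul, add_zero, add_zero] at this
    rw [show ((y : ℂ) + 1 / 2) = ((1 - (-y + 1 / 2) : ℝ) : ℂ) by push_cast; ring, this]
    congr 2
    push_cast
    ring
  have e2 : Rf ((y : ℂ) - a) = -Rf (((-y : ℝ) : ℂ) + a) := by
    rw [show ((y : ℂ) - a) = ((-(-y + a) : ℝ) : ℂ) by push_cast; ring, Rf_neg_real]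
    congr 2
    push_cast
    ring
  have e3 : Rf ((y : ℂ) + a) = -Rf (((-y : ℝ) : ℂ) - a) := by
    rw [show ((y : ℂ) + a) = ((-(-y - a) : ℝ) : ℂ) by push_cast; ring, Rf_neg_real]
    congr 2
    push_cast
    ring
  rw [e1, e2, e3]
  linarith only [h]

theorem Rf_real_eq (x : ℝ) : Rf (x : ℂ) = ∫ t in (1 / 2 : ℝ)..x, Lg 0 t := by
  rw [Rf_eq, ofReal_re, ofReal_im]

/-- `Rf ≤ 0` on `[0, 1/2]`. -/
theorem Rf_nonpos {x : ℝ} (h0 : 0 ≤ x) (h1 : x ≤ 1 / 2) : Rf (x : ℂ) ≤ 0 := by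
  have hpi := Real.pi_pos
  have hz : Rf ((0 : ℝ) : ℂ) = 0 := by
    have := Rf_zero_line 0
    rwa [ofReal_zero, zero_mul, add_zero, abs_zero, mul_zero, zero_div, neg_zero] at this
  rcases le_total x (1 / 6) with h | h
  · have e : Rf (x : ℂ) = ∫ t in (0 : ℝ)..x, Lg 0 t := by
      have e1 : Rf (x : ℂ) - Rf ((0 : ℝ) : ℂ) = ∫ t in (0 : ℝ)..x, Lg 0 t := by
        rw [Rf_real_eq, Rf_real_eq, intervalIntegral.integral_interval_sub_left] <;>
          exact Lg_integrable _ _ _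
      rw [← e1, hz, sub_zero]
    rw [e]
    have : ∫ t in (0 : ℝ)..x, Lg 0 t ≤ ∫ t in (0 : ℝ)..x, (0 : ℝ) := by
      apply intervalIntegral.integral_mono_on h0 (Lg_integrable _ _ _)
        (intervalIntegrable_const)
      intro t ht
      rw [Lg_zero_eq]
      apply Real.log_nonpos (abs_nonneg _)
      have s0 : 0 ≤ Real.sin (Real.pi * t) :=
        Real.sin_nonneg_of_nonneg_of_le_pi (mul_nonneg hpi.le ht.1) (by linarith only [hpi,
                                                                          mul_nonneg (sub_nonneg.2 hpi.le) (sub_nonneg.2 ht.2),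
                                                                          mul_nonneg (sub_nonneg.2 h1) (sub_nonneg.2 hpi.le)])
      have s1 : Real.sin (Real.pi * t) ≤ Real.sin (Real.pi / 6) := by
        apply Real.sin_le_sin_of_le_of_le_pi_div_two
        · have := mul_nonneg hpi.le ht.1; linarith only [this, hpi]
        · linarith only [hpi]
        · have := ht.2; linarith only [mul_nonneg (sub_nonneg.2 hpi.le) (sub_nonneg.2 this),
                          mul_nonneg (sub_nonneg.2 hpi.le) (sub_nonneg.2 h)]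
      rw [Real.sin_pi_div_six] at s1
      rw [abs_of_nonneg (by linarith only [s0])]
      linarith only [s1]
    simpa using this
  · rw [Rf_real_eq, intervalIntegral.integral_symm, neg_nonpos]
    apply intervalIntegral.integral_nonneg h1
    intro t ht
    rw [Lg_zero_eq]
    apply Real.log_nonneg
    have s1 : Real.sin (Real.pi / 6) ≤ Real.sin (Real.pi * t) := by
      apply Real.sin_le_sin_of_le_of_le_pi_div_two
      · linarith only [hpi]
      · have := ht.2; linarith only [mul_nonneg (sub_nonneg.2 hpi.le) (sub_nonneg.2 this)]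
      · have := ht.1; linarith only [mul_nonneg (sub_nonneg.2 hpi.le) (sub_nonneg.2 this),
                        mul_nonneg (sub_nonneg.2 hpi.le) (sub_nonneg.2 h)]
    rw [Real.sin_pi_div_six] at s1
    rw [abs_of_nonneg (by linarith only [s1])]
    linarith only [s1]

/-- The growth of a closed slot is nonpositive left of `0`. -/
theorem low_E1c {y : ℝ} (h0 : -(1 / 2) ≤ y) (h1 : y ≤ 0) (s : ℤ) :
    se (y : ℂ) (.cl s) ≤ 0 := by
  unfold se
  simp only
  rw [ofReal_im, zero_mul, mul_zero, add_zero,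
    show (y : ℂ) + 1 / 2 = ((y + 1 / 2 : ℝ) : ℂ) by push_cast; ring]
  exact Rf_nonpos (by linarith only [h0]) (by linarith only [h1])

/-! ### Small heights -/

theorem Rf_lip01 {a : ℝ} (h0 : 0 ≤ a) (h1 : a ≤ 1) (x y : ℝ) :
    |Rf ((a : ℂ) + (x : ℂ) * I) - Rf ((a : ℂ) + (y : ℂ) * I)| ≤ Real.pi / 2 * |x - y| := by
  rcases le_total (1 / 2) a with h | h
  · have := Rf_lip (a := a - 1 / 2) (by linarith only [h]) (by linarith only [h1]) x y
    rwa [show (1 / 2 + (a - 1 / 2) : ℝ) = a by ring] at this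
  · have := Rf_lip (a := 1 / 2 - a) (by linarith only [h]) (by linarith only [h0]) x y
    rw [show (1 / 2 + (1 / 2 - a) : ℝ) = 1 - a by ring, Rf_one_sub_line, Rf_one_sub_line,
      neg_sub_neg, abs_sub_comm] at this
    exact this

theorem Rf_lip11 {a : ℝ} (h0 : -1 ≤ a) (h1 : a ≤ 1) (x y : ℝ) :
    |Rf ((a : ℂ) + (x : ℂ) * I) - Rf ((a : ℂ) + (y : ℂ) * I)| ≤ 3 * Real.pi / 2 * |x - y| := by
  have hpi := Real.pi_pos
  have hxy := abs_nonneg (x - y)
  rcases le_total 0 a with h | h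
  · refine (Rf_lip01 h h1 x y).trans ?_
    apply mul_le_mul_of_nonneg_right _ hxy
    linarith only [hpi]
  · have k := Rf_lip01 (a := a + 1) (by linarith only [h0]) (by linarith only [h]) x y
    have e : ∀ t : ℝ, Rf ((a : ℂ) + (t : ℂ) * I) =
        Rf (((a + 1 : ℝ) : ℂ) + (t : ℂ) * I) - Real.pi * |t| := by
      intro t
      have := Rf_sub_one (((a + 1 : ℝ) : ℂ) + (t : ℂ) * I)
      rw [line_im] at this
      rw [← this]
      congr 1
      push_cast
      ring
    rw [e, e]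
    have k2 := abs_abs_sub_abs_le x y
    rw [abs_le] at k k2 ⊢
    constructor <;> nlinarith

/-- Real `y`: the growth depends on the height of the slot in a Lipschitz way. -/
theorem low_E3 {v : ℂ} (hv : |v.re| ≤ 1 / 2) {y : ℝ} (h0 : -(1 / 2) ≤ y) (h1 : y ≤ 1 / 2) :
    |se (y : ℂ) (.op v) - se (y : ℂ) (.op (v.re : ℂ))| ≤ 3 * Real.pi * |v.im| := by
  have hv' := abs_le.1 hv
  have k1 := Rf_lip11 (a := y - v.re) (by linarith only [hv'.2, h0]) (by linarith only [hv'.1, h1]) (-v.im) 0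
  have k2 := Rf_lip11 (a := y + v.re) (by linarith only [hv'.1, h0]) (by linarith only [hv'.2, h1]) v.im 0
  have e1 : (y : ℂ) - v = ((y - v.re : ℝ) : ℂ) + ((-v.im : ℝ) : ℂ) * I := by
    apply Complex.ext <;> simp
  have e2 : (y : ℂ) + v = ((y + v.re : ℝ) : ℂ) + ((v.im : ℝ) : ℂ) * I := by
    apply Complex.ext <;> simp
  have e3 : (y : ℂ) - (v.re : ℂ) = ((y - v.re : ℝ) : ℂ) + ((0 : ℝ) : ℂ) * I := by
    apply Complex.ext <;> simp
  have e4 : (y : ℂ) + (v.re : ℂ) = ((y + v.re : ℝ) : ℂ) + ((0 : ℝ) : ℂ) * I := by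
    apply Complex.ext <;> simp
  unfold se
  simp only
  rw [e1, e2, e3, e4]
  rw [sub_zero, abs_neg] at k1
  rw [sub_zero] at k2
  rw [abs_le] at k1 k2 ⊢
  constructor <;> linarith

/-! ### The value of `Φ` at the origin -/

theorem tan_poly {x : ℝ} (h0 : 0 ≤ x) (h1 : x ≤ Real.pi / 4) :
    Real.tan x ≤ x + 9 / 20 * x ^ 3 := by
  have hpi := Real.pi_lt_d2
  have hx : x ≤ 7854 / 10000 := by
    have := Real.pi_lt_d4
    linarith only [this, h1]
  have hc : 0 < Real.cos x := Real.cos_pos_of_mem_Ioo ⟨by linarith only [Real.pi_pos, h0], by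
    linarith only [Real.pi_pos, h1]⟩
  rw [Real.tan_eq_sin_div_cos, div_le_iff₀ hc]
  have a1 := Cl.n_s5 h0
  have a2 := Cl.n_c6 h0
  have a3 : (x + 9 / 20 * x ^ 3) * (1 - x ^ 2 / 2 + x ^ 4 / 24 - x ^ 6 / 720) ≤
      (x + 9 / 20 * x ^ 3) * Real.cos x := mul_le_mul_of_nonneg_left a2 (by positivity)
  refine a1.trans (le_trans ?_ a3)
  have hu : x ^ 2 ≤ 6169 / 10000 := by linarith only [hx, hpi, h1,
                                         mul_nonneg (sub_nonneg.2 h0) (sub_nonneg.2 hx)]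
  have hu0 : 0 ≤ x ^ 2 := by positivity
  have key : 0 ≤ x ^ 3 * (7 / 60 - 23 / 120 * x ^ 2 + (9 / 480 - 1 / 720) * (x ^ 2) ^ 2 -
      9 / 14400 * (x ^ 2) ^ 3) := by
    apply mul_nonneg (by positivity)
    set u := x ^ 2
    (refine le_of_not_gt fun hng => ?_; linarith only [hng, hu,
      mul_nonneg (sub_nonneg.2 hng.le) (sub_nonneg.2 hu0),
      mul_nonneg (mul_self_nonneg (1 * u)) (sub_nonneg.2 (mul_nonneg (mul_nonneg hu0 hu0) (sub_nonneg.2 hu))),
      mul_nonneg (mul_self_nonneg (1 * u)) (sub_nonneg.2 hng.le),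
      mul_nonneg (mul_self_nonneg (1 * u)) (mul_self_nonneg (1 * u))])
  linarith only [key]

theorem log_cos_ge {x : ℝ} (h0 : 0 ≤ x) (h1 : x ≤ Real.pi / 4) :
    -(x ^ 2 / 2) - 9 / 80 * x ^ 4 ≤ Real.log (Real.cos x) := by
  have hpi := Real.pi_pos
  have hc : ∀ t ∈ Set.Icc (0 : ℝ) x, 0 < Real.cos t := fun t ht =>
    Real.cos_pos_of_mem_Ioo ⟨by linarith only [ht.1, hpi], by linarith only [ht.2, hpi, h1]⟩
  have hd : ∀ t ∈ Set.Icc (0 : ℝ) x, HasDerivAt
      (fun t => Real.log (Real.cos t) + (t ^ 2 / 2 + 9 / 80 * t ^ 4))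
      (-Real.tan t + (t + 9 / 20 * t ^ 3)) t := by
    intro t ht
    have k1 := (Real.hasDerivAt_cos t).log (hc t ht).ne'
    have k2 := ((hasDerivAt_pow 2 t).div_const 2).add ((hasDerivAt_pow 4 t).const_mul (9 / 80))
    refine (k1.add k2).congr_deriv ?_
    rw [Real.tan_eq_sin_div_cos]
    norm_num
    ring
  have key : MonotoneOn (fun t => Real.log (Real.cos t) + (t ^ 2 / 2 + 9 / 80 * t ^ 4))
      (Set.Icc 0 x) := by
    apply monotoneOn_of_deriv_nonneg (convex_Icc 0 x)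
    · exact fun t ht => (hd t ht).continuousAt.continuousWithinAt
    · intro t ht
      exact (hd t (interior_subset ht)).differentiableAt.differentiableWithinAt
    · intro t ht
      rw [(hd t (interior_subset ht)).deriv]
      rw [interior_Icc] at ht
      have := tan_poly ht.1.le (ht.2.le.trans h1)
      linarith only [this]
  have := key ⟨le_rfl, h0⟩ ⟨h0, le_rfl⟩ h0
  simp only at this
  rw [Real.cos_zero, Real.log_one] at this
  norm_num at this
  linarith only [this]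

private theorem yy00' : yy 0 0 = 1 / 4 := by
  have hpi := Real.pi_pos
  have hpi' : (Real.pi : ℂ) ≠ 0 := by exact_mod_cast Real.pi_ne_zero
  have h1 := sin_yy reg0
  have hT : TT 0 0 = 1 := by simp [TT, Lc]
  rw [hT, one_mul] at h1
  have h2 : sin (Real.pi * (yy 0 0 - 1 / 4)) = 0 := by
    have e : (Real.pi : ℂ) * (yy 0 0 - 1 / 4) = Real.pi * yy 0 0 - ((Real.pi / 4 : ℝ) : ℂ) := by
      push_cast
      ring
    rw [e, Complex.sin_sub, h1, ← Complex.ofReal_cos, ← Complex.ofReal_sin, Real.cos_pi_div_four,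
      Real.sin_pi_div_four]
    ring
  obtain ⟨k, hk⟩ := Complex.sin_eq_zero_iff.1 h2
  have h3 : yy 0 0 = 1 / 4 + k := by
    apply mul_left_cancel₀ hpi'
    linear_combination hk
  have h4 := yy_re_pos reg0
  have h5 := yy_re_lt reg0
  have h6 : ((1 : ℂ) / 4 + k).re = 1 / 4 + k := by
    rw [add_re]
    norm_num
  rw [h3, h6] at h4 h5
  have k1 : (-1 : ℝ) < k := by linarith only [h4]
  have k2 : (k : ℝ) < 1 := by linarith only [h5]
  have k1' : -1 < k := by exact_mod_cast k1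
  have k2' : k < 1 := by exact_mod_cast k2
  have k3 : k = 0 := by omega
  rw [h3, k3]
  simp

theorem Rf34 : 1454 / 10000 ≤ Rf ((3 / 4 : ℝ) : ℂ) := by
  have hpi := Real.pi_pos
  rw [Rf_real_eq]
  have h : ∫ t in (1 / 2 : ℝ)..(3 / 4), (Real.log 2 - (Real.pi ^ 2 * (t - 1 / 2) ^ 2 / 2) -
      9 / 80 * (Real.pi ^ 4 * (t - 1 / 2) ^ 4)) ≤ ∫ t in (1 / 2 : ℝ)..(3 / 4), Lg 0 t := by
    apply intervalIntegral.integral_mono_on (by norm_num)
    · apply Continuous.intervalIntegrable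
      fun_prop
    · exact Lg_integrable _ _ _
    · intro t ht
      have x0 : 0 ≤ Real.pi * (t - 1 / 2) := mul_nonneg hpi.le (by linarith only [ht.1])
      have x1 : Real.pi * (t - 1 / 2) ≤ Real.pi / 4 := by
        have := ht.2
        linarith only [mul_nonneg (sub_nonneg.2 hpi.le) (sub_nonneg.2 this)]
      have k := log_cos_ge x0 x1
      have hc : 0 < Real.cos (Real.pi * (t - 1 / 2)) :=
        Real.cos_pos_of_mem_Ioo ⟨by linarith only [x0, hpi], by linarith only [x1, hpi]⟩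
      have e : Real.sin (Real.pi * t) = Real.cos (Real.pi * (t - 1 / 2)) := by
        rw [← Real.sin_add_pi_div_two]
        congr 1
        ring
      rw [Lg_zero_eq, e, abs_of_pos (by positivity), Real.log_mul (by norm_num) hc.ne']
      have e4 : Real.pi ^ 2 * (t - 1 / 2) ^ 2 = (Real.pi * (t - 1 / 2)) ^ 2 := by ring
      have e5 : Real.pi ^ 4 * (t - 1 / 2) ^ 4 = (Real.pi * (t - 1 / 2)) ^ 4 := by ring
      rw [e4, e5]
      linarith only [k]
  refine le_trans ?_ h
  have e : ∫ t in (1 / 2 : ℝ)..(3 / 4), (Real.log 2 - (Real.pi ^ 2 * (t - 1 / 2) ^ 2 / 2) -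
      9 / 80 * (Real.pi ^ 4 * (t - 1 / 2) ^ 4)) =
      Real.log 2 / 4 - Real.pi ^ 2 / 384 - 9 / 409600 * Real.pi ^ 4 := by
    have hder : ∀ t ∈ Set.uIcc (1 / 2 : ℝ) (3 / 4), HasDerivAt
        (fun t : ℝ => Real.log 2 * t - Real.pi ^ 2 / 6 * (t - 1 / 2) ^ 3 -
          9 / 400 * Real.pi ^ 4 * (t - 1 / 2) ^ 5)
        (Real.log 2 - (Real.pi ^ 2 * (t - 1 / 2) ^ 2 / 2) -
          9 / 80 * (Real.pi ^ 4 * (t - 1 / 2) ^ 4)) t := by
      intro t _
      have k0 := (hasDerivAt_id' t).sub_const (1 / 2 : ℝ)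
      have k1 := (hasDerivAt_id' t).const_mul (Real.log 2)
      have k2 := (k0.pow 3).const_mul (Real.pi ^ 2 / 6)
      have k3 := (k0.pow 5).const_mul (9 / 400 * Real.pi ^ 4)
      refine ((k1.sub k2).sub k3).congr_deriv ?_
      norm_num
      ring
    rw [intervalIntegral.integral_eq_sub_of_hasDerivAt hder]
    · norm_num
      ring
    · apply Continuous.intervalIntegrable
      fun_prop
  rw [e]
  have l2 := Real.log_two_gt_d9
  have p := Real.pi_lt_d4
  have p2 : Real.pi ^ 2 ≤ 98698 / 10000 := by linarith only [p,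
                                                mul_pos (sub_pos.2 hpi) (sub_pos.2 p)]
  have p4 : Real.pi ^ 4 ≤ 974130 / 10000 := by
    have : Real.pi ^ 4 = Real.pi ^ 2 * Real.pi ^ 2 := by ring
    rw [this]
    linarith only [p2, mul_nonneg (sq_nonneg (Real.pi)) (sub_nonneg.2 p2)]
  linarith only [p4, p2, l2]

theorem c00_re : c00.re = 8 * Rf ((3 / 4 : ℝ) : ℂ) := by
  have e4 : ∀ z : ℂ, (4 * z).re = 4 * z.re := fun z => by
    rw [show (4 : ℂ) = ((4 : ℝ) : ℂ) by norm_num, re_ofReal_mul]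
  rw [c00, fe_yy0, yy00', sub_re, e4, e4, ← Rf_eq_ff (z := 1 / 4 + 1 / 2) (by norm_num)
    (by norm_num), ← Rf_eq_ff (z := 1 / 4) (by norm_num) (by norm_num)]
  have k := Rf_one_sub ((3 / 4 : ℝ) : ℂ)
  rw [show (1 : ℂ) - ((3 / 4 : ℝ) : ℂ) = 1 / 4 by push_cast; ring] at k
  rw [k, show (1 / 4 + 1 / 2 : ℂ) = ((3 / 4 : ℝ) : ℂ) by push_cast; ring]
  ring

/-- `8 Λ(π / 4) / π ≥ 1.1632`. -/
theorem c00_re_ge : 11632 / 10000 ≤ c00.re := by
  rw [c00_re]
  linarith only [Rf34]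

private theorem qq_zero_right' {u : ℂ} (h : |u.im| < Real.pi / 2) : qq u 0 = u := by
  unfold qq
  rw [cosh_zero, div_one]
  exact (eq_arsh rfl h).symm

/-! ### The value of `Φ (0, w)` -/

theorem reg_igd_zero {R : ℝ} (hR : |R| < Real.pi / 2) (s : ℝ) : Reg (igd (UU R s)) 0 := by
  unfold Reg
  rw [zero_im, abs_zero, add_zero]
  exact igd_im_lt (UU_re_lt hR)

theorem igd_real_re_le {s : ℝ} (h0 : 0 ≤ s) (h1 : s < Real.pi / 2) :
    (igd (UU s 0)).re ≤ Real.tan s := by
  have hs : |s| < Real.pi / 2 := by rwa [abs_of_nonneg h0]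
  have e1 := igd_real_im hs
  have e2 := congrArg Complex.re (sinh_igd (UU s 0))
  rw [sinh_re', e1, Real.cos_zero, mul_one] at e2
  have e3 : (tan (UU s 0)).re = Real.tan s := by
    have : UU s 0 = (s : ℂ) := by
      apply Complex.ext
      · rw [UU_re, ofReal_re]
      · rw [UU_im, ofReal_im]
    rw [this, ← ofReal_tan, ofReal_re]
  rw [e3] at e2
  rw [← e2]
  exact Real.self_le_sinh_iff.2 (igd_re_nonneg h0 h1 0)

section

variable {Φ : ℂ → ℂ → ℂ} {θ : ℝ} {w : ℂ}

theorem FP_zero_hor (hΦ : IsPhi Φ) {R : ℝ} (h0 : 0 ≤ R) (h1 : R < Real.pi / 2) :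
    FP Φ (UU 0 0) (gd 0) + 2 / Real.pi * Real.log (Real.cos R) ≤ FP Φ (UU R 0) (gd 0) := by
  have hpi := Real.pi_pos
  have ab : ∀ s ∈ Set.Icc (0 : ℝ) R, |s| < Real.pi / 2 := fun s hs => by
    rw [abs_of_nonneg hs.1]; linarith only [hs.2, h1]
  have hc : ∀ s ∈ Set.Icc (0 : ℝ) R, 0 < Real.cos s := fun s hs => cos_pos' (ab s hs)
  have hd : ∀ s ∈ Set.Icc (0 : ℝ) R, HasDerivAt
      (fun s => FP Φ (UU s 0) (gd 0) - 2 / Real.pi * Real.log (Real.cos s))
      (-(2 / Real.pi) * (qq (igd (UU s 0)) 0).re - 2 / Real.pi * (-Real.sin s / Real.cos s)) s := by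
    intro s hs
    have k1 := hasDerivAt_FP_hor hΦ (ab s hs) (reg_igd_zero (ab s hs) 0)
    have k2 := ((Real.hasDerivAt_cos s).log (hc s hs).ne').const_mul (2 / Real.pi)
    exact k1.sub k2
  have key : MonotoneOn (fun s => FP Φ (UU s 0) (gd 0) - 2 / Real.pi * Real.log (Real.cos s))
      (Set.Icc 0 R) := by
    apply monotoneOn_of_deriv_nonneg (convex_Icc 0 R)
    · exact fun t ht => (hd t ht).continuousAt.continuousWithinAt
    · intro t ht
      exact (hd t (interior_subset ht)).differentiableAt.differentiableWithinAt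
    · intro t ht
      rw [(hd t (interior_subset ht)).deriv]
      rw [interior_Icc] at ht
      have tl : |t| < Real.pi / 2 := ab t ⟨ht.1.le, ht.2.le⟩
      rw [qq_zero_right' (igd_im_lt (UU_re_lt tl))]
      have k := igd_real_re_le ht.1.le (ht.2.trans h1)
      rw [Real.tan_eq_sin_div_cos] at k
      have : 0 ≤ 2 / Real.pi * (Real.sin t / Real.cos t - (igd (UU t 0)).re) :=
        mul_nonneg (by positivity) (by linarith only [k])
      calc (0 : ℝ) ≤ 2 / Real.pi * (Real.sin t / Real.cos t - (igd (UU t 0)).re) := this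
        _ = _ := by ring
  have := key ⟨le_rfl, h0⟩ ⟨h0, le_rfl⟩ h0
  simp only at this
  rw [Real.cos_zero, Real.log_one, mul_zero, sub_zero] at this
  linarith only [this]

theorem FP_zero_vert (hΦ : IsPhi Φ) {R η : ℝ} (hR : |R| < Real.pi / 2) (h0 : 0 ≤ η) :
    FP Φ (UU R 0) (gd 0) ≤ FP Φ (UU R η) (gd 0) := by
  have hpi := Real.pi_pos
  have hd : ∀ s ∈ Set.Icc (0 : ℝ) η, HasDerivAt (fun s => FP Φ (UU R s) (gd 0))
      (2 / Real.pi * (qq (igd (UU R s)) 0).im) s := fun s _ =>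
    hasDerivAt_FP_vert hΦ hR (reg_igd_zero hR s)
  have key : MonotoneOn (fun s => FP Φ (UU R s) (gd 0)) (Set.Icc 0 η) := by
    apply monotoneOn_of_deriv_nonneg (convex_Icc 0 η)
    · exact fun t ht => (hd t ht).continuousAt.continuousWithinAt
    · intro t ht
      exact (hd t (interior_subset ht)).differentiableAt.differentiableWithinAt
    · intro t ht
      rw [(hd t (interior_subset ht)).deriv]
      rw [interior_Icc] at ht
      rw [qq_zero_right' (igd_im_lt (UU_re_lt hR))]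
      exact mul_nonneg (by positivity) (igd_im_nonneg hR ht.1.le)
  exact key ⟨le_rfl, h0⟩ ⟨h0, le_rfl⟩ h0

theorem Phi_zero_ge (hΦ : IsPhi Φ) (h0 : Φ 0 0 = c00) (hw : Und θ w) :
    7218 / 10000 ≤ (Φ 0 ((starRingEnd ℂ) w)).re := by
  have hpi := Real.pi_pos
  have pc : (Real.pi : ℂ) ≠ 0 := by exact_mod_cast hpi.ne'
  set Ψ : ℂ → ℂ → ℂ := fun v w => Φ w v with hΨd
  have hΨ : IsPhi Ψ := hΦ.swap
  have a0 : 0 ≤ Real.pi * w.re := mul_nonneg hpi.le hw.re0
  have a1 : Real.pi * w.re < Real.pi / 2 := by linarith only [hpi,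
                                                 mul_nonneg (sub_nonneg.2 hpi.le) (sub_nonneg.2 hw.re1)]
  have a2 : |Real.pi * w.re| < Real.pi / 2 := by rwa [abs_of_nonneg a0]
  have b0 : 0 ≤ Real.pi * w.im := mul_nonneg hpi.le hw.im0
  have k1 := FP_zero_hor hΨ a0 a1
  have k2 := FP_zero_vert hΨ a2 b0
  have z0 : UU 0 0 = 0 := by
    apply Complex.ext
    · rw [UU_re, zero_re]
    · rw [UU_im, zero_im]
  have e1 : FP Ψ (UU 0 0) (gd 0) = c00.re := by
    rw [FP, gd_zero, z0, zero_div, hΨd]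
    simp only
    rw [h0]
  have ew : UU (Real.pi * w.re) (Real.pi * w.im) = (Real.pi : ℂ) * w := by
    rw [← pi_mul_re, ← pi_mul_im, UU_eta]
  have pre : |((Real.pi : ℂ) * w).re| < Real.pi / 2 := by rwa [pi_mul_re]
  have e2 : FP Ψ (UU (Real.pi * w.re) (Real.pi * w.im)) (gd 0) = (Φ 0 ((starRingEnd ℂ) w)).re := by
    have r : Reg (igd ((Real.pi : ℂ) * w)) (igd 0) := by
      have g0 : igd 0 = 0 := by
        have := igd_gd (u := 0) (by simp; exact hpi)
        rwa [gd_zero] at this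
      rw [g0]
      unfold Reg
      rw [zero_im, abs_zero, add_zero]
      exact igd_im_lt pre
    have k := FP_conj hΨ (P := (Real.pi : ℂ) * w) (P' := 0) pre (by simp; exact hpi) r
    rw [ew, gd_zero, ← k, FP, map_mul, conj_ofReal, mul_div_cancel_left₀ _ pc, map_zero, zero_div]
  rw [e1] at k1
  rw [e2] at k2
  have c := c00_re_ge
  have l : -Real.log 2 ≤ Real.log (Real.cos (Real.pi * w.re)) := by
    have hc : 1 / 2 ≤ Real.cos (Real.pi * w.re) := by
      rw [← Real.cos_pi_div_three]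
      apply Real.cos_le_cos_of_nonneg_of_le_pi a0
      · linarith only [hpi]
      · linarith only [mul_nonneg (sub_nonneg.2 hpi.le) (sub_nonneg.2 hw.re1)]
    rw [← Real.log_inv]
    apply Real.log_le_log (by norm_num)
    rw [← one_div]
    exact hc
  have l2 := Real.log_two_lt_d9
  have p3 := Real.pi_gt_d4
  have : 2 / Real.pi * Real.log (Real.cos (Real.pi * w.re)) ≥ -(4413 / 10000) := by
    have h1 : 2 / Real.pi * Real.log (Real.cos (Real.pi * w.re)) ≥ 2 / Real.pi * (-Real.log 2) :=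
      mul_le_mul_of_nonneg_left l (by positivity)
    have h2 : 2 / Real.pi * Real.log 2 ≤ 4413 / 10000 := by
      rw [div_mul_eq_mul_div, div_le_iff₀ hpi]
      linarith only [p3, l2]
    linarith only [h2, h1]
  linarith only [this, c, k2, k1]

theorem Und.pi_im_le (hw : Und θ w) (hθ : Ht θ) : Real.pi * w.im ≤ 601 / 1000 := by
  have hpi := Real.pi_pos
  have b0 : 0 ≤ Real.pi * w.im := mul_nonneg hpi.le hw.im0
  have h1 : Real.pi * w.im ≤ Real.sinh (Real.pi * w.im) := Real.self_le_sinh_iff.2 b0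
  have h2 := hw.bl_sinh hθ
  have h3 : Real.cos (Real.pi * w.re) ^ 2 ≤ 1 := by
    have := Real.sin_sq_add_cos_sq (Real.pi * w.re)
    linarith only [sq_nonneg (Real.sin (Real.pi * w.re)), this]
  (refine le_of_not_gt fun hng => ?_; linarith only [hng, h3, h2, h1,
    mul_nonneg (sub_nonneg.2 h1) (sub_nonneg.2 h1),
    mul_nonneg (sub_nonneg.2 hng.le) (sub_nonneg.2 h1), mul_pos (sub_pos.2 hng) (sub_pos.2 hng)])

/-- The growth at the ends is less than `re Φ (0, w)`. -/
theorem low_E2a (hΦ : IsPhi Φ) (h0 : Φ 0 0 = c00) (hw : Und θ w) (hθ : Ht θ) :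
    Real.pi * w.im < (Φ 0 ((starRingEnd ℂ) w)).re := by
  have h1 := Phi_zero_ge hΦ h0 hw
  have h2 := hw.pi_im_le hθ
  linarith only [h2, h1]

theorem Und.sin_norm (hw : Und θ w) (hθ : Ht θ) : ‖sin (Real.pi * w)‖ ^ 2 ≤ 1 := by
  have h2 := hw.bl_sinh hθ
  have h3 := Real.sin_sq_add_cos_sq (Real.pi * w.re)
  have e2 : ((Real.pi : ℂ) * w) = ((Real.pi * w.re : ℝ) : ℂ) + ((Real.pi * w.im : ℝ) : ℂ) * I := by
    rw [← pi_mul_re, ← pi_mul_im, re_add_im]
  rw [e2, norm_sin_sq]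
  linarith only [sq_nonneg (Real.cos (Real.pi * w.re)), h3, h2]

/-- Left of `0` the growth of the slot is less than `re Φ (0, w)`. -/
theorem low_E2b (hΦ : IsPhi Φ) (h0 : Φ 0 0 = c00) (hw : Und θ w) (hθ : Ht θ) {y : ℝ}
    (y0 : -(1 / 10) ≤ y) (y1 : y ≤ 0) : se (y : ℂ) (.op w) < (Φ 0 ((starRingEnd ℂ) w)).re := by
  have h1 := Phi_zero_ge hΦ h0 hw
  have h2 := hw.pi_im_le hθ
  have hw' : |w.re| ≤ 1 / 2 := hw.abs.le
  have k := Cl.mid_le hw' (hw.sin_norm hθ) y0 y1
  rw [abs_of_nonneg hw.im0, EE] at k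
  have l : -(Real.log 2 / 10) ≤ se (y : ℂ) (.cl 1) := by
    unfold se
    simp only
    rw [ofReal_im, zero_mul, mul_zero, add_zero,
      show (y : ℂ) + 1 / 2 = ((y + 1 / 2 : ℝ) : ℂ) by push_cast; ring, Rf_real_eq,
      intervalIntegral.integral_symm]
    have : ∫ t in (y + 1 / 2)..(1 / 2 : ℝ), Lg 0 t ≤ ∫ t in (y + 1 / 2)..(1 / 2 : ℝ), Real.log 2 :=
      intervalIntegral.integral_mono_on (by linarith only [y1]) (Lg_integrable _ _ _)
        intervalIntegrable_const (fun t _ => Lg_zero_le)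
    rw [intervalIntegral.integral_const, smul_eq_mul] at this
    have l2 : 0 < Real.log 2 := Real.log_pos (by norm_num)
    linarith only [this, mul_nonneg (sub_nonneg.2 y0) (sub_nonneg.2 l2.le)]
  have l2 := Real.log_two_lt_d9
  linarith only [l2, l, k, h2, h1]

end

end Pool.Agent.S3
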