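import Pool.Agent.S3.W.Main
import Pool.Agent.S3.LowA
import Pool.Agent.S3.LowE

/-!
# The small indices: the open-open edges

`tp θ = 1/4 + i bl θ (1/4)` is the test point.
-/

set_option autoImplicit false

namespace Pool.Agent.S3

open Complex
open Pool.Agent.H25.RK (gdv gdv_re_lt gdv_hasDerivAt)

/-! ### Polygons -/

theorem Pgn.re {n : ℕ} {t h : ℕ → ℝ} (H : Pgn n t h) : ∀ i ≤ n, 0 ≤ t i ∧ t i ≤ 1 / 2 := by
  have h1 : ∀ i ≤ n, 0 ≤ t i := by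
    intro i
    induction i with
    | zero => intro _; rw [H.t0]
    | succ k ih => intro hk; exact (ih (by omega)).trans (H.mono k (by omega))
  have h2 : ∀ d ≤ n, t (n - d) ≤ 1 / 2 := by
    intro d
    induction d with
    | zero => intro _; rw [Nat.sub_zero, H.tn]
    | succ k ih =>
      intro hk
      have := H.mono (n - (k + 1)) (by omega)
      have e : n - (k + 1) + 1 = n - k := by omega
      rw [e] at this
      exact this.trans (ih (by omega))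
  intro i hi
  refine ⟨h1 i hi, ?_⟩
  have := h2 (n - i) (by omega)
  rwa [Nat.sub_sub_self hi] at this

theorem PolOn.imp {n : ℕ} {t h : ℕ → ℝ} {P P' : ℂ → Prop} (H : Pgn n t h) (hP : PolOn n t h P)
    (hi : ∀ y : ℂ, 0 ≤ y.re → y.re ≤ 1 / 2 → P y → P' y) : PolOn n t h P' := by
  obtain ⟨h1, h2, h3, h4⟩ := hP
  have hr := H.re
  refine ⟨fun i hi' x hx => hi _ ?_ ?_ (h1 i hi' x hx), fun Y hY => hi _ ?_ ?_ (h2 Y hY),
    fun i hi' Y hY => hi _ ?_ ?_ (h3 i hi' Y hY), fun Y hY => hi _ ?_ ?_ (h4 Y hY)⟩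
  · rw [line_re]; exact (hr i hi'.le).1.trans hx.1
  · rw [line_re]; exact hx.2.trans (hr (i + 1) (by omega)).2
  · rw [line_re]; exact (hr 0 (Nat.zero_le _)).1
  · rw [line_re]; exact (hr 0 (Nat.zero_le _)).2
  · rw [line_re]; exact (hr (i + 1) (by omega)).1
  · rw [line_re]; exact (hr (i + 1) (by omega)).2
  · rw [line_re]; exact (hr n le_rfl).1
  · rw [line_re]; exact (hr n le_rfl).2

/-- From `0` to a real point. -/
theorem EdgeOK.real {τ : Sl} {L x : ℝ} (hx : |x| ≤ 1 / 2) (H : EdgeOK (.op 0) τ L)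
    (hE : ∀ y ∈ Set.Icc (-(1 / 10) : ℝ) 0, EE (.op (x : ℂ)) τ y < L) :
    EdgeOK (.op (x : ℂ)) τ L := by
  obtain ⟨h1, h2, n, t, h, h3, h4⟩ := H
  refine ⟨?_, hE, n, t, h, h3, h4.imp h3 ?_⟩
  · simpa [B0] using h1
  · intro y y0 y1 hy
    refine lt_of_le_of_lt ?_ hy
    have k := se_real_anti (a := 0) (b := |x|) le_rfl (abs_nonneg x) hx y0 y1
    rw [ofReal_zero] at k
    unfold EE
    rcases abs_choice x with h5 | h5
    · rw [h5] at k
      linarith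
    · rw [h5, ofReal_neg, se_op_neg] at k
      linarith

section

variable {Φ : ℂ → ℂ → ℂ} {θ θ' v1 v1' : ℝ} {v w : ℂ}

theorem Und_zero (hθ : Ht θ) : Und θ 0 :=
  ⟨by simp, by norm_num, by simp,
    by rw [zero_im, zero_re]; exact bl_nonneg hθ.pos.le hθ.lt (by norm_num)⟩

theorem Pr_zero (hθ : Ht θ) (hθ' : Ht θ') (hS : θ + θ' < Real.pi / 2) (hw : Und θ' w) :
    Pr θ θ' 0 w := ⟨Und_zero hθ, hw, hθ, hθ', hS⟩

theorem mir_zero : mir 0 = 0 := by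
  unfold mir
  simp

/-- Both vertices near the real axis. -/
theorem low_rr (hΦ : IsPhi Φ) (h0 : Φ 0 0 = c00) (hθ : Ht θ) (hθ' : Ht θ')
    (hS : θ + θ' < Real.pi / 2) (hF : FlatOK 0 0) {L : ℝ} (hL : (Φ 0 0).re < L) (hL0 : 0 < L)
    {x x' : ℝ} (hx : |x| ≤ 1 / 2) (hx' : |x'| ≤ 1 / 2) :
    EdgeOK (.op (x : ℂ)) (.op (x' : ℂ)) L := by
  have hE : ∀ x x' : ℝ, |x| ≤ 1 / 2 → |x'| ≤ 1 / 2 → ∀ y ∈ Set.Icc (-(1 / 10) : ℝ) 0,
      EE (.op (x : ℂ)) (.op (x' : ℂ)) y < L := by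
    intro x x' hx hx' y hy
    have hy' : y ∈ Set.Icc (-(1 / 2) : ℝ) 0 := ⟨by linarith [hy.1], hy.2⟩
    have h1 := low_E1a hx hy'.1 hy'.2
    have h2 := low_E1a hx' hy'.1 hy'.2
    unfold EE
    linarith
  have hz : |(0 : ℝ)| ≤ 1 / 2 := by rw [abs_zero]; norm_num
  have hp : Pr θ θ' 0 0 := Pr_zero hθ hθ' hS (Und_zero hθ')
  have h1 := hp.edgeOK hΦ h0 hF (L := L) (by rw [zero_im, add_zero, mul_zero]; exact hL0)
    (fun y hy => by
      have := hE 0 0 hz hz y hy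
      rwa [ofReal_zero] at this)
    (by rw [map_zero]; exact hL)
  rw [mir_zero] at h1
  have h2 := EdgeOK.real hx h1 (fun y hy => by
    have := hE x 0 hx hz y hy
    rwa [ofReal_zero] at this)
  have h3 := EdgeOK.real hx' h2.symm (fun y hy => hE x' x hx' hx y hy)
  exact h3.symm

/-- The first vertex near the real axis. -/
theorem low_rg (hΦ : IsPhi Φ) (h0 : Φ 0 0 = c00) (hθ : Ht θ) (hθ' : Ht θ')
    (hS : θ + θ' < Real.pi / 2) (hv1 : V1 v1) (hv1' : V1 v1') (hF : FlatAll θ θ' v1 v1')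
    (hw : w ∈ G0 θ' v1') (hw0 : 0 ≤ w.re) {L : ℝ}
    (hL : (Φ 0 ((starRingEnd ℂ) (cmp v1' w))).re < L) {x : ℝ} (hx : |x| ≤ 1 / 2) :
    EdgeOK (.op (x : ℂ)) (.op (mir w)) L ∧ EdgeOK (.op (x : ℂ)) (.op w) L := by
  have hu := cmp_und hv1' hw hw0 hθ'
  have hp := Pr_zero hθ hθ' hS hu
  have e2 := low_E2a hΦ h0 hu hθ'
  have him := cmp_im hw hw0
  have hB : Real.pi * ((0 : ℂ).im + (cmp v1' w).im) < L := by
    rw [zero_im, zero_add]; linarith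
  have k := hp.poly hΦ h0 (hF 0 _ (Und_zero hθ) hu hv1.pos.le (cmp_re _)) hB hL
  -- the slot of `w` on `[-1/10, 0]`
  have hwE : ∀ y ∈ Set.Icc (-(1 / 10) : ℝ) 0, se y (.op w) < L := by
    intro y hy
    by_cases hc : w.re ≤ v1'
    · have e : cmp v1' w = w := by unfold cmp; rw [if_pos hc]
      rw [e] at hu hL
      exact (low_E2b hΦ h0 hu hθ' hy.1 hy.2).trans hL
    · have e : cmp v1' w = (v1' : ℂ) := by unfold cmp; rw [if_neg hc]
      have hi : w.im = 0 := by rw [← him, e, ofReal_im]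
      have hw1 : |w.re| ≤ 1 / 2 := by
        rw [abs_of_nonneg hw0]
        rcases hw with ⟨a, b⟩ | ⟨a, b, c⟩ | ⟨a, b, c⟩
        · rw [abs_of_nonneg hw0] at a; linarith [hv1'.le]
        · rw [abs_of_nonneg hw0] at a; linarith [hv1'.le]
        · rwa [abs_of_nonneg hw0] at b
      have e3 : w = ((w.re : ℝ) : ℂ) := by
        apply Complex.ext
        · simp
        · simpa using hi
      have e4 := low_E1a hw1 (y := y) (by linarith [hy.1]) hy.2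
      rw [← e3] at e4
      have e5 : 0 ≤ Real.pi * (cmp v1' w).im := mul_nonneg Real.pi_pos.le hu.im0
      linarith
  have hE : ∀ x : ℝ, |x| ≤ 1 / 2 → ∀ y ∈ Set.Icc (-(1 / 10) : ℝ) 0,
      EE (.op (x : ℂ)) (.op w) y < L := by
    intro x hx y hy
    have h1 := low_E1a hx (y := y) (by linarith [hy.1]) hy.2
    have h2 := hwE y hy
    unfold EE
    linarith
  have hE' : ∀ x : ℝ, |x| ≤ 1 / 2 → ∀ y ∈ Set.Icc (-(1 / 10) : ℝ) 0,
      EE (.op (x : ℂ)) (.op (mir w)) y < L := by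
    intro x hx y hy
    have h1 := hE x hx y hy
    unfold EE at h1 ⊢
    rwa [se_mir_real]
  have hz : |(0 : ℝ)| ≤ 1 / 2 := by rw [abs_zero]; norm_num
  have h1 : EdgeOK (.op 0) (.op (mir w)) L := by
    refine ⟨?_, ?_, 1, _, _, pgn_one' hp.yv_im, ?_⟩
    · have : B0 (.op 0) + B0 (.op (mir w)) = Real.pi * ((0 : ℂ).im + (cmp v1' w).im) := by
        rw [B0_mir, B0, B0, him]; ring
      rw [this]
      exact hB
    · intro y hy
      have := hE' 0 hz y hy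
      rwa [ofReal_zero] at this
    · have mono : ∀ y, (EE (.op 0) (.op ((starRingEnd ℂ) (cmp v1' w))) y < L ∧ 0 ≤ y.re ∧
          y.re ≤ 1 / 2) → EE (.op 0) (.op (mir w)) y < L := by
        rintro y ⟨h1, h2, h3⟩
        refine lt_of_le_of_lt ?_ h1
        rw [← EE_conj_mir]
        have k2 := se_cmp hv1' hw hw0 (y := (starRingEnd ℂ) y) (by rwa [conj_re])
          (by rwa [conj_re])
        have k3 := se_conj ((starRingEnd ℂ) y) w
        have k4 := se_conj ((starRingEnd ℂ) y) (cmp v1' w)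
        rw [conj_conj] at k3 k4
        unfold EE
        rw [k3, k4]
        linarith
      obtain ⟨g1, g2, g3, g4⟩ := k
      exact ⟨fun i hi x hx => mono _ (g1 i hi x hx), fun Y hY => mono _ (g2 Y hY),
        fun i hi Y hY => mono _ (g3 i hi Y hY), fun Y hY => mono _ (g4 Y hY)⟩
  have h2 : EdgeOK (.op 0) (.op w) L := by
    have := h1.mir_both
    rwa [mir_zero, mir_mir] at this
  exact ⟨EdgeOK.real hx h1 (hE' x hx), EdgeOK.real hx h2 (hE x hx)⟩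

theorem low_rg_ab (hΦ : IsPhi Φ) (h0 : Φ 0 0 = c00) (hθ : Ht θ) (hθ' : Ht θ')
    (hS : θ + θ' < Real.pi / 2) (hv1 : V1 v1) (hv1' : V1 v1') (hF : FlatAll θ θ' v1 v1')
    (hw : w ∈ G0 θ' v1') {L : ℝ}
    (hL : (Φ 0 ((starRingEnd ℂ) (cmp v1' (ab (mir w))))).re < L) {x : ℝ} (hx : |x| ≤ 1 / 2) :
    EdgeOK (.op (x : ℂ)) (.op w) L := by
  have h1 := low_rg hΦ h0 hθ hθ' hS hv1 hv1' hF (ab_mem (mir_mem hw)) (ab_re _) hL hx
  unfold ab at h1
  split_ifs at h1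
  · rw [mir_mir] at h1; exact h1.1
  · have h2 := h1.2
    rw [mir_mir] at h2
    exact h2

/-! ### The test points -/

theorem tp_mem (h : 1 / 4 ≤ v1) : tp θ ∈ G0 θ v1 :=
  Or.inl ⟨by rw [tp_re, abs_of_pos (by norm_num)]; exact h, by rw [tp_re, tp_im]⟩

theorem pl_tp (h : 1 / 4 ≤ v1) : pl θ v1 (tp θ) = tp θ :=
  pl_of_line (by rw [tp_re, abs_of_pos (by norm_num)]; exact h) (by rw [tp_re, tp_im])

theorem cmp_tp (h : 1 / 4 ≤ v1) : cmp v1 (tp θ) = tp θ := by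
  unfold cmp
  rw [if_pos (by rw [tp_re]; exact h)]

theorem ab_tp (θ : ℝ) : ab (tp θ) = tp θ := by
  unfold ab
  rw [if_pos (by rw [tp_re]; norm_num)]

theorem Und_tp (hθ : Ht θ) : Und θ (tp θ) :=
  ⟨by rw [tp_re]; norm_num, by rw [tp_re]; norm_num,
    by rw [tp_im]; exact bl_nonneg hθ.pos.le hθ.lt (by rw [abs_of_pos] <;> norm_num),
    by rw [tp_im, tp_re]⟩

variable {xc xc' b b' μ μ' a a' : ℝ}

/-- The value at the critical point is at most the bound. -/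
theorem OO.Phi_le (H : OO Φ θ θ' xc xc' b b' v1 v1') (hL : GainL Φ θ θ' v1 v1' μ)
    (hR : GainR Φ θ θ' v1 v1' μ') (hv : v ∈ G0 θ v1) (hv0 : 0 ≤ v.re)
    (hw : w ∈ G0 θ' v1') (hw0 : 0 ≤ w.re) :
    (Φ (cmp v1 v) ((starRingEnd ℂ) (cmp v1' w))).re ≤
      LM Φ θ θ' b b' xc xc' v1 v1' μ μ' v w := by
  by_cases hne : v ≠ gdv (UU xc θ) ∨ w ≠ gdv (UU xc' θ')
  · exact (H.Phi_lt hL hR hv hv0 hw hw0 hne).le
  · rw [not_or, not_not, not_not] at hne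
    obtain ⟨h1, h2⟩ := hne
    have hp := H.prc
    have q1 := pl_of_line (θ := θ) (v1 := v1) (v := gdv (UU xc θ))
      (by rw [abs_of_nonneg hp.hv.re0]; exact H.hr.le) (line_im_bl (x := xc) H.hθ.abs)
    have q2 := pl_of_line (θ := θ') (v1 := v1') (v := gdv (UU xc' θ'))
      (by rw [abs_of_nonneg hp.hw.re0]; exact H.hr'.le) (line_im_bl (x := xc') H.hθ'.abs)
    have c1 : cmp v1 (gdv (UU xc θ)) = gdv (UU xc θ) := by
      unfold cmp; rw [if_pos H.hr.le]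
    have c2 : cmp v1' (gdv (UU xc' θ')) = gdv (UU xc' θ') := by
      unfold cmp; rw [if_pos H.hr'.le]
    rw [h1, h2, LM, q1, q2, c1, c2, L0, ell_self, ell_self, sub_self, sub_self]
    linarith

/-- The bound at the test points. -/
theorem OO.low_bad (H : OO Φ θ θ' xc xc' b b' v1 v1') (hL : GainL Φ θ θ' v1 v1' (mu b a v1))
    (hR : GainR Φ θ θ' v1 v1' (mu b' a' v1')) (ha : 0 < a) (ha' : 0 < a') (h1 : 1 / 4 ≤ v1)
    (h1' : 1 / 4 ≤ v1') : 12 / 25 + Real.pi / 2 * (bl θ (1 / 4) + bl θ' (1 / 4)) <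
      LL1 θ θ' b b' xc xc' a a' v1 v1' (tp θ) (mir (tp θ')) := by
  have k1 := low_A1 H.hΦ H.h0 H.hθ H.hθ'
  have k2 := H.Phi_le hL hR (tp_mem h1) (by rw [tp_re]; norm_num) (tp_mem h1')
    (by rw [tp_re]; norm_num)
  have k3 := H.LM_le ha ha' (tp_mem h1) (mir_mem (tp_mem h1'))
  rw [mir_mir, ab_tp, ab_tp] at k3
  rw [cmp_tp h1, cmp_tp h1'] at k2
  linarith

/-- Both vertices near the real axis. -/
theorem OO.low_rr (H : OO Φ θ θ' xc xc' b b' v1 v1') (hF : FlatAll θ θ' v1 v1')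
    (hL : GainL Φ θ θ' v1 v1' (mu b a v1)) (hR : GainR Φ θ θ' v1 v1' (mu b' a' v1'))
    (ha : 0 < a) (ha' : 0 < a') (h1 : 1 / 4 ≤ v1) (h1' : 1 / 4 ≤ v1') {x x' : ℝ}
    (hx : |x| ≤ 1 / 2) (hx' : |x'| ≤ 1 / 2) : EdgeOK (.op (x : ℂ)) (.op (x' : ℂ))
      (LL1 θ θ' b b' xc xc' a a' v1 v1' (tp θ) (mir (tp θ')) + 12 / 25) := by
  have k0 := H.low_bad hL hR ha ha' h1 h1'
  have k1 := low_A3 H.hΦ H.hθ (Und_zero H.hθ') H.hθ'
  have k2 := low_A3' H.hΦ H.hθ' (Und_tp H.hθ) H.hθ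
  have k3 := H.Phi_le hL hR (tp_mem h1) (by rw [tp_re]; norm_num) (tp_mem h1')
    (by rw [tp_re]; norm_num)
  have k4 := H.LM_le ha ha' (tp_mem h1) (mir_mem (tp_mem h1'))
  rw [mir_mir, ab_tp, ab_tp] at k4
  rw [cmp_tp h1, cmp_tp h1'] at k3
  rw [map_zero] at k1
  have b1 := (Und_tp H.hθ).im0
  have b2 := (Und_tp H.hθ').im0
  rw [tp_im] at b1 b2
  have b3 : 0 ≤ Real.pi / 2 * (bl θ (1 / 4) + bl θ' (1 / 4)) := by
    have := Real.pi_pos
    positivity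
  exact S3.low_rr H.hΦ H.h0 H.hθ H.hθ' H.ho.S
    (hF 0 0 (Und_zero H.hθ) (Und_zero H.hθ') H.hv1.pos.le H.hv1'.pos.le) (by linarith)
    (by linarith) hx hx'

/-- The first vertex near the real axis. -/
theorem OO.low_rg (H : OO Φ θ θ' xc xc' b b' v1 v1') (hF : FlatAll θ θ' v1 v1')
    (hL : GainL Φ θ θ' v1 v1' (mu b a v1)) (hR : GainR Φ θ θ' v1 v1' (mu b' a' v1'))
    (ha : 0 < a) (ha' : 0 < a') (h1 : 1 / 4 ≤ v1) (hw : w ∈ G0 θ' v1') {x : ℝ}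
    (hx : |x| ≤ 1 / 2) : EdgeOK (.op (x : ℂ)) (.op w)
      (LL1 θ θ' b b' xc xc' a a' v1 v1' (tp θ) w + 6 / 25) := by
  have hm := ab_mem (mir_mem hw)
  have hr := ab_re (mir w)
  have k1 := low_A3 H.hΦ H.hθ (cmp_und H.hv1' hm hr H.hθ') H.hθ'
  have k3 := H.Phi_le hL hR (tp_mem h1) (by rw [tp_re]; norm_num) hm hr
  have k4 := H.LM_le ha ha' (tp_mem h1) hw
  rw [ab_tp] at k4
  rw [cmp_tp h1] at k3
  exact low_rg_ab H.hΦ H.h0 H.hθ H.hθ' H.ho.S H.hv1 H.hv1' hF hw (by linarith) hx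

/-- Exchange of the two vertices. -/
theorem OO.swap (H : OO Φ θ θ' xc xc' b b' v1 v1') :
    OO (fun v w => Φ w v) θ' θ xc' xc b' b v1' v1 where
  hΦ := H.hΦ.swap
  h0 := H.h0
  ho := H.ho.symm
  hs := H.hs.symm
  hc := H.hc'
  hc' := H.hc
  hθ := H.hθ'
  hθ' := H.hθ
  hv1 := H.hv1'
  hv1' := H.hv1
  hr := H.hr'
  hr' := H.hr

theorem GainL.swap (hΦ : IsPhi Φ) (hL : GainL Φ θ θ' v1 v1' μ) :
    GainR (fun v w => Φ w v) θ' θ v1' v1 μ := by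
  intro v w hp h1 h2
  have k := hL w v hp.symm h2 h1
  have hp2 : Pr θ θ' (up θ w) v := ⟨hp.hw.up hp.hθ', hp.hv, hp.hθ', hp.hθ, hp.symm.S⟩
  rw [← Phi_conj hΦ hp.symm, ← Phi_conj hΦ hp2] at k
  exact k

theorem GainR.swap (hΦ : IsPhi Φ) (hR : GainR Φ θ θ' v1 v1' μ') :
    GainL (fun v w => Φ w v) θ' θ v1' v1 μ' := by
  intro v w hp h1 h2
  have k := hR w v hp.symm h2 h1
  have hp2 : Pr θ θ' w (up θ' v) := ⟨hp.hw, hp.hv.up hp.hθ, hp.hθ', hp.hθ, hp.symm.S⟩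
  rw [← Phi_conj hΦ hp.symm, ← Phi_conj hΦ hp2] at k
  exact k

theorem FlatAll.swap (hθ : Ht θ) (hθ' : Ht θ') (hS : θ + θ' < Real.pi / 2)
    (hF : FlatAll θ θ' v1 v1') : FlatAll θ' θ v1' v1 := by
  intro v w hv hw h1 h2 t ht
  have hp : Pr θ θ' w v := ⟨hw, hv, hθ, hθ', hS⟩
  have k := hF w v hw hv h2 h1 t ht
  have e : yv v w = (starRingEnd ℂ) (yv w v) := yv_swap hp
  have e2 : (yv v w).im = -(yv w v).im := by rw [e, conj_im]
  have e3 : ∀ y : ℂ, EE (.op v) (.op ((starRingEnd ℂ) w)) ((starRingEnd ℂ) y) =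
      EE (.op w) (.op ((starRingEnd ℂ) v)) y := by
    intro y
    unfold EE
    have k3 := se_conj y w
    have k4 := se_conj ((starRingEnd ℂ) y) v
    rw [conj_conj] at k4
    rw [k3, ← k4, add_comm]
  have e4 : (t : ℂ) + (yv v w).im * I = (starRingEnd ℂ) ((t : ℂ) + (yv w v).im * I) := by
    rw [conj_line, e2]
  rw [e4, e3, e, e3]
  exact k

theorem OO.LL1_swap (H : OO Φ θ θ' xc xc' b b' v1 v1') (v w : ℂ) :
    LL1 θ' θ b' b xc' xc a' a v1' v1 (mir w) (mir v) =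
      LL1 θ θ' b b' xc xc' a a' v1 v1' v w := by
  have k3 := H.Lc
  have k4 := H.swap.Lc
  rw [L0, ell_self, ell_self, add_zero, add_zero, EE_conj_mir] at k3 k4
  have k5 := Phi_conj H.hΦ H.prc
  unfold LL1
  rw [mir_mir, ← k3, ← k4, ← k5]
  ring

/-- The second vertex near the real axis. -/
theorem OO.low_gr (H : OO Φ θ θ' xc xc' b b' v1 v1') (hF : FlatAll θ θ' v1 v1')
    (hL : GainL Φ θ θ' v1 v1' (mu b a v1)) (hR : GainR Φ θ θ' v1 v1' (mu b' a' v1'))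
    (ha : 0 < a) (ha' : 0 < a') (h1' : 1 / 4 ≤ v1') (hv : v ∈ G0 θ v1) {x : ℝ}
    (hx : |x| ≤ 1 / 2) : EdgeOK (.op v) (.op (x : ℂ))
      (LL1 θ θ' b b' xc xc' a a' v1 v1' v (mir (tp θ')) + 6 / 25) := by
  have k := H.swap.low_rg (hF.swap H.hθ H.hθ' H.ho.S) (hR.swap H.hΦ) (hL.swap H.hΦ) ha' ha h1'
    (mir_mem hv) (x := -x) (by rwa [abs_neg])
  have e := H.LL1_swap (a := a) (a' := a') v (mir (tp θ'))
  rw [mir_mir] at e
  rw [e] at k
  have k2 := k.symm.mir_both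
  rwa [mir_mir, mir_ofReal, neg_neg] at k2

end

end Pool.Agent.S3
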