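import Pool.Agent.S3.Ks3

/-!
# Edge kernels: uniform bounds by compactness
-/

set_option autoImplicit false

namespace Pool.Agent.S3

open Pool.Agent.H63.VC hiding ext
open Pool.Agent.H63.VC3 Pool.Agent.H63.VC7 Complex MeasureTheory Filter Topology Set
open Pool.Agent.H25.RK

/-! ### Continuity -/

/-- A slot which depends continuously on a parameter. -/
def SlC {X : Type*} [TopologicalSpace X] (σ : X → Sl) : Prop :=
  (∃ v : X → ℂ, Continuous v ∧ σ = fun x => .op (v x)) ∨ ∃ s : ℤ, σ = fun _ => .cl s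

theorem SlC.op {X : Type*} [TopologicalSpace X] {v : X → ℂ} (hv : Continuous v) :
    SlC fun x => Sl.op (v x) := Or.inl ⟨v, hv, rfl⟩

theorem SlC.cl {X : Type*} [TopologicalSpace X] (s : ℤ) : SlC fun _ : X => Sl.cl s :=
  Or.inr ⟨s, rfl⟩

theorem SlC.se_cont {X : Type*} [TopologicalSpace X] {σ : X → Sl} (h : SlC σ) :
    Continuous fun p : X × ℂ => se p.2 (σ p.1) := by
  have hR := Rf_continuous
  rcases h with ⟨v, hv, rfl⟩ | ⟨s, rfl⟩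
  · unfold se
    simp only
    fun_prop
  · unfold se
    simp only
    fun_prop

theorem SlC.ht_cont {X : Type*} [TopologicalSpace X] {σ : X → Sl} (h : SlC σ) :
    Continuous fun x : X => (σ x).ht := by
  rcases h with ⟨v, hv, rfl⟩ | ⟨s, rfl⟩
  · unfold Sl.ht
    simp only
    fun_prop
  · unfold Sl.ht
    simp only
    fun_prop

theorem EE_cont {X : Type*} [TopologicalSpace X] {σ τ : X → Sl} (hσ : SlC σ) (hτ : SlC τ) :
    Continuous fun p : X × ℂ => EE (σ p.1) (τ p.1) p.2 := by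
  unfold EE
  exact hσ.se_cont.add hτ.se_cont

/-! ### Strict inequalities -/

/-- The set where the growth rate is less than `m`. -/
def slow (H : ℝ) (σ τ : Sl) (m : ℝ) : Set ℂ := {z | z ∈ bxy H ∧ EE σ τ z < m}

theorem isCompact_segment (a b : ℂ) : IsCompact (segment ℝ a b) := by
  rw [segment_eq_image_lineMap]
  exact isCompact_Icc.image (by fun_prop)

/-- A strict inequality on a polygon persists, with a uniform gap. -/
theorem Poly.persist {X : Type*} [TopologicalSpace X] {σ τ : X → Sl} (hσ : SlC σ) (hτ : SlC τ)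
    {L : X → ℝ} (hL : Continuous L) {H : ℝ} {n : ℕ} {a b : ℂ} {x0 : X}
    (h : Poly (slow H (σ x0) (τ x0) (L x0)) n a b) :
    ∃ δ : ℝ, 0 < δ ∧ ∀ δ' : ℝ, δ' ≤ δ → ∀ᶠ x in 𝓝 x0, Poly (low H (σ x) (τ x) (L x - δ')) n a b := by
  obtain ⟨q, h0, h1, h2⟩ := h
  have hE := EE_cont hσ hτ
  have hc : Continuous fun p : X × ℂ => L p.1 - EE (σ p.1) (τ p.1) p.2 :=
    (hL.comp continuous_fst).sub hE
  have key : ∀ k ≤ n, ∃ δ : ℝ, 0 < δ ∧ ∀ i < k, ∀ z ∈ segment ℝ (q i) (q (i + 1)),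
      2 * δ ≤ L x0 - EE (σ x0) (τ x0) z := by
    intro k
    induction k with
    | zero => exact fun _ => ⟨1, one_pos, fun i hi => by omega⟩
    | succ k ih =>
      intro hk
      obtain ⟨δ1, hδ1, hd1⟩ := ih (by omega)
      have hcz : Continuous fun z : ℂ => L x0 - EE (σ x0) (τ x0) z :=
        hc.comp (f := fun z : ℂ => (x0, z)) (by fun_prop)
      obtain ⟨z0, hz0, hmin⟩ := (isCompact_segment (q k) (q (k + 1))).exists_isMinOn
        ⟨_, left_mem_segment ℝ _ _⟩ hcz.continuousOn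
      have hpos : 0 < L x0 - EE (σ x0) (τ x0) z0 := by
        have := (h2 k (by omega) hz0).2
        linarith
      refine ⟨min δ1 ((L x0 - EE (σ x0) (τ x0) z0) / 2), lt_min hδ1 (by linarith), ?_⟩
      intro i hi z hz
      rcases Nat.lt_succ_iff_lt_or_eq.mp hi with h | h
      · have := hd1 i h z hz
        have := min_le_left δ1 ((L x0 - EE (σ x0) (τ x0) z0) / 2)
        linarith
      · subst h
        have h3 : L x0 - EE (σ x0) (τ x0) z0 ≤ L x0 - EE (σ x0) (τ x0) z := hmin hz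
        have := min_le_right δ1 ((L x0 - EE (σ x0) (τ x0) z0) / 2)
        linarith
  obtain ⟨δ, hδ, hd⟩ := key n le_rfl
  refine ⟨δ, hδ, fun δ' hδ' => ?_⟩
  have hev : ∀ i ∈ Finset.range n, ∀ᶠ x in 𝓝 x0, ∀ z ∈ segment ℝ (q i) (q (i + 1)),
      δ' < L x - EE (σ x) (τ x) z := by
    intro i hi
    refine (isCompact_segment _ _).eventually_forall_of_forall_eventually fun z hz => ?_
    have h3 := hd i (Finset.mem_range.mp hi) z hz
    have h4 : δ' < L x0 - EE (σ x0) (τ x0) z := by linarith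
    exact (hc.continuousAt (x := (x0, z))).eventually (lt_mem_nhds h4)
  rw [← Filter.eventually_all_finset] at hev
  filter_upwards [hev] with x hx
  refine ⟨q, h0, h1, fun i hi z hz => ⟨(h2 i hi hz).1, ?_⟩⟩
  have := hx i (Finset.mem_range.mpr hi) z hz
  linarith

/-- The remaining conditions: at the ends of the interval and to the left of `0`. -/
def EndC (σ τ : Sl) (m : ℝ) : Prop :=
  Real.pi * (σ.ht + τ.ht) ≤ m ∧ ∀ y : ℝ, -1 / 10 ≤ y → y ≤ 0 → EE σ τ y ≤ m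

/-- The same with strict inequalities. -/
def EndS (σ τ : Sl) (m : ℝ) : Prop :=
  Real.pi * (σ.ht + τ.ht) < m ∧ ∀ y : ℝ, -1 / 10 ≤ y → y ≤ 0 → EE σ τ y < m

theorem EndS.persist {X : Type*} [TopologicalSpace X] {σ τ : X → Sl} (hσ : SlC σ) (hτ : SlC τ)
    {L : X → ℝ} (hL : Continuous L) {x0 : X} (h : EndS (σ x0) (τ x0) (L x0)) :
    ∃ δ : ℝ, 0 < δ ∧ ∀ δ' : ℝ, δ' ≤ δ → ∀ᶠ x in 𝓝 x0, EndC (σ x) (τ x) (L x - δ') := by
  have hE := EE_cont hσ hτ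
  have hc : Continuous fun p : X × ℝ => L p.1 - EE (σ p.1) (τ p.1) (p.2 : ℂ) :=
    (hL.comp continuous_fst).sub (hE.comp (f := fun p : X × ℝ => (p.1, (p.2 : ℂ))) (by fun_prop))
  have hh : Continuous fun x : X => L x - Real.pi * ((σ x).ht + (τ x).ht) :=
    hL.sub (continuous_const.mul (hσ.ht_cont.add hτ.ht_cont))
  have hcz : Continuous fun y : ℝ => L x0 - EE (σ x0) (τ x0) (y : ℂ) :=
    hc.comp (f := fun y : ℝ => (x0, y)) (by fun_prop)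
  obtain ⟨y0, hy0, hmin⟩ := (isCompact_Icc (a := (-1 / 10 : ℝ)) (b := 0)).exists_isMinOn
    ⟨0, by norm_num⟩ hcz.continuousOn
  have hpos : 0 < L x0 - EE (σ x0) (τ x0) (y0 : ℂ) := by
    have := h.2 y0 hy0.1 hy0.2
    linarith
  have hpos2 := h.1
  refine ⟨min ((L x0 - Real.pi * ((σ x0).ht + (τ x0).ht)) / 2)
    ((L x0 - EE (σ x0) (τ x0) (y0 : ℂ)) / 2), lt_min (by linarith) (by linarith),
    fun δ' hδ' => ?_⟩
  have m1 := min_le_left ((L x0 - Real.pi * ((σ x0).ht + (τ x0).ht)) / 2)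
    ((L x0 - EE (σ x0) (τ x0) (y0 : ℂ)) / 2)
  have m2 := min_le_right ((L x0 - Real.pi * ((σ x0).ht + (τ x0).ht)) / 2)
    ((L x0 - EE (σ x0) (τ x0) (y0 : ℂ)) / 2)
  have e1 : ∀ᶠ x in 𝓝 x0, δ' < L x - Real.pi * ((σ x).ht + (τ x).ht) := by
    have h4 : δ' < L x0 - Real.pi * ((σ x0).ht + (τ x0).ht) := by linarith
    exact hh.continuousAt.eventually (lt_mem_nhds h4)
  have e2 : ∀ᶠ x in 𝓝 x0, ∀ y ∈ Icc (-1 / 10 : ℝ) 0, δ' < L x - EE (σ x) (τ x) (y : ℂ) := by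
    refine isCompact_Icc.eventually_forall_of_forall_eventually fun y hy => ?_
    have h3 : L x0 - EE (σ x0) (τ x0) (y0 : ℂ) ≤ L x0 - EE (σ x0) (τ x0) (y : ℂ) := hmin hy
    have h4 : δ' < L x0 - EE (σ x0) (τ x0) (y : ℂ) := by linarith
    exact (hc.continuousAt (x := (x0, y))).eventually (lt_mem_nhds h4)
  filter_upwards [e1, e2] with x h1 h2
  refine ⟨by linarith, fun y hy1 hy2 => ?_⟩
  have := h2 y ⟨hy1, hy2⟩
  linarith

/-! ### The uniform bounds -/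

/-- A bound with a gap away from the critical point. -/
theorem KE_far {X : Type*} [TopologicalSpace X] {σ τ : X → Sl} (hσ : SlC σ) (hτ : SlC τ)
    {L : X → ℝ} (hL : Continuous L) {B H : ℝ} (hB : 0 ≤ B) (hH : 0 ≤ H) {K : Set X}
    (hK : IsCompact K)
    (hok : ∀ x ∈ K, (σ x).ok ∧ (τ x).ok ∧ (σ x).ht ≤ B ∧ (τ x).ht ≤ B)
    (h : ∀ x ∈ K, EndS (σ x) (τ x) (L x) ∧
      ∃ n : ℕ, Poly (slow H (σ x) (τ x) (L x)) n 0 (1 / 2)) :
    ∃ δ : ℝ, 0 < δ ∧ ∃ C : ℝ, 0 < C ∧ ∃ p : ℕ, ∀ M : ℕ, 3 ≤ M → ∀ x ∈ K,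
      ‖KE M (σ x) (τ x)‖ ≤ C * M ^ p * Real.exp (M * (L x - δ)) := by
  have key : ∃ δ : ℝ, 0 < δ ∧ ∃ C : ℝ, 0 < C ∧ ∃ p : ℕ, ∀ M : ℕ, 3 ≤ M → ∀ x ∈ K ∩ K,
      ‖KE M (σ x) (τ x)‖ ≤ C * M ^ p * Real.exp (M * (L x - δ)) := by
    refine hK.induction_on (p := fun U => ∃ δ : ℝ, 0 < δ ∧ ∃ C : ℝ, 0 < C ∧ ∃ p : ℕ,
      ∀ M : ℕ, 3 ≤ M → ∀ x ∈ K ∩ U,
        ‖KE M (σ x) (τ x)‖ ≤ C * M ^ p * Real.exp (M * (L x - δ))) ?_ ?_ ?_ ?_
    · exact ⟨1, one_pos, 1, one_pos, 0, fun M _ x hx => absurd hx.2 (notMem_empty x)⟩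
    · rintro U V hUV ⟨δ, hδ, C, hC, p, hp⟩
      exact ⟨δ, hδ, C, hC, p, fun M hM x hx => hp M hM x ⟨hx.1, hUV hx.2⟩⟩
    · rintro U V ⟨δ1, hδ1, C1, hC1, p1, h1⟩ ⟨δ2, hδ2, C2, hC2, p2, h2⟩
      refine ⟨min δ1 δ2, lt_min hδ1 hδ2, C1 + C2, by positivity, p1 + p2, fun M hM x hx => ?_⟩
      have hM1 : (1 : ℝ) ≤ M := by exact_mod_cast (by omega : 1 ≤ M)
      have hM0 : (0 : ℝ) < M := by linarith
      have b1 : (M : ℝ) ^ p1 ≤ M ^ (p1 + p2) := pow_le_pow_right₀ hM1 (by omega)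
      have b2 : (M : ℝ) ^ p2 ≤ M ^ (p1 + p2) := pow_le_pow_right₀ hM1 (by omega)
      rcases hx.2 with h | h
      · refine (h1 M hM x ⟨hx.1, h⟩).trans ?_
        have m1 := min_le_left δ1 δ2
        gcongr
        linarith
      · refine (h2 M hM x ⟨hx.1, h⟩).trans ?_
        have m1 := min_le_right δ1 δ2
        gcongr
        linarith
    · intro x0 hx0
      obtain ⟨hE, n, hP⟩ := h x0 hx0
      obtain ⟨δ1, hδ1, g1⟩ := hE.persist hσ hτ hL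
      obtain ⟨δ2, hδ2, g2⟩ := hP.persist hσ hτ hL
      obtain ⟨C, hC, p, hb⟩ := KE_bd hB hH n
      refine ⟨{x | EndC (σ x) (τ x) (L x - min δ1 δ2) ∧
        Poly (low H (σ x) (τ x) (L x - min δ1 δ2)) n 0 (1 / 2)}, mem_nhdsWithin_of_mem_nhds
        ((g1 _ (min_le_left _ _)).and (g2 _ (min_le_right _ _))), min δ1 δ2, lt_min hδ1 hδ2, C, hC,
        p, fun M hM x hx => ?_⟩
      obtain ⟨o1, o2, o3, o4⟩ := hok x hx.1
      obtain ⟨u1, u2⟩ := hx.2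
      exact hb M hM _ _ o1 o2 o3 o4 _ u1.1 u1.2 u2
  rwa [inter_self] at key

/-- Near the critical point the kernel is the integral over a small piece of the path, up to
exponentially small errors. -/
theorem KE_loc {X : Type*} [TopologicalSpace X] {σ τ : X → Sl} (hσ : SlC σ) (hτ : SlC τ)
    {L : X → ℝ} (hL : Continuous L) {B H : ℝ} (hB : 0 ≤ B) (hH : 0 ≤ H) {x0 : X}
    {yc : ℂ} {r : ℝ} (hr : 0 ≤ r) (hr0 : 0 ≤ yc.re - r) (hr1 : yc.re + r ≤ 1 / 2)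
    (hE : EndS (σ x0) (τ x0) (L x0))
    (h1 : ∃ n : ℕ, Poly (slow H (σ x0) (τ x0) (L x0)) n 0 (yc - r))
    (h2 : ∃ n : ℕ, Poly (slow H (σ x0) (τ x0) (L x0)) n (yc + r) (1 / 2)) :
    ∃ δ : ℝ, 0 < δ ∧ ∃ C : ℝ, 0 < C ∧ ∃ p : ℕ, ∀ᶠ x in 𝓝 x0, ∀ M : ℕ, 3 ≤ M →
      (σ x).ok → (τ x).ok → (σ x).ht ≤ B → (τ x).ht ≤ B →
      ‖KE M (σ x) (τ x) - M * ∫ s in (-r)..r, FM M (σ x) (τ x) (yc + s)‖ ≤
        C * M ^ p * Real.exp (M * (L x - δ)) := by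
  obtain ⟨n1, P1⟩ := h1
  obtain ⟨n2, P2⟩ := h2
  obtain ⟨δ1, hδ1, g1⟩ := hE.persist hσ hτ hL
  obtain ⟨δ2, hδ2, g2⟩ := P1.persist hσ hτ hL
  obtain ⟨δ3, hδ3, g3⟩ := P2.persist hσ hτ hL
  obtain ⟨C, hC, p, hb⟩ := KE_piece hB hH n1 n2
  set δ : ℝ := min δ1 (min δ2 δ3) with hδ
  have l1 : δ ≤ δ1 := min_le_left _ _
  have l2 : δ ≤ δ2 := (min_le_right _ _).trans (min_le_left _ _)
  have l3 : δ ≤ δ3 := (min_le_right _ _).trans (min_le_right _ _)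
  refine ⟨δ, lt_min hδ1 (lt_min hδ2 hδ3), C, hC, p, ?_⟩
  filter_upwards [g1 _ l1, g2 _ l2, g3 _ l3] with x u1 u2 u3 M hM o1 o2 o3 o4
  exact hb M hM _ _ o1 o2 o3 o4 _ u1.1 u1.2 yc r hr hr0 hr1 u2 u3

end Pool.Agent.S3
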