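import Pool.Agent.S3.Low1

/-! # Mixed formulas: lattice sums and contour integrals -/

namespace Pool.Agent.S3

open Pool.Agent.H63.VC hiding ext
open Pool.Agent.H63.VC3 Pool.Agent.H63.VC4 Pool.Agent.H63.VC6 Pool.Agent.H63.VC7 Complex
open Pool.Agent.H25.RK MeasureTheory Filter
open scoped BigOperators

variable {m : ℕ}

/-! ### Sums as integrals of step functions -/

private theorem step_eq (n : ℕ) (f : ℕ → ℂ) :
    (fun x : ℝ => if 0 ≤ x ∧ x < n then f ⌊x⌋₊ else 0) =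
      fun x => ∑ X ∈ Finset.range n, (Set.Ico (X : ℝ) (X + 1)).indicator (fun _ => f X) x := by
  funext x
  by_cases h : 0 ≤ x ∧ x < n
  · rw [if_pos h, Finset.sum_eq_single_of_mem ⌊x⌋₊]
    · rw [Set.indicator_of_mem]
      exact ⟨Nat.floor_le h.1, Nat.lt_floor_add_one x⟩
    · rw [Finset.mem_range, Nat.floor_lt h.1]; exact h.2
    · intro X _ hX
      rw [Set.indicator_of_notMem]
      rintro ⟨h1, h2⟩
      exact hX ((Nat.floor_eq_iff h.1).2 ⟨h1, h2⟩).symm
  · rw [if_neg h]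
    symm
    refine Finset.sum_eq_zero fun X hX => ?_
    rw [Set.indicator_of_notMem]
    rintro ⟨h1, h2⟩
    apply h
    have h3 : X + 1 ≤ n := Finset.mem_range.1 hX
    have h4 : ((X : ℝ) + 1) ≤ n := by exact_mod_cast h3
    exact ⟨(Nat.cast_nonneg X).trans h1, h2.trans_le h4⟩

private theorem step_int1 (f : ℕ → ℂ) (X : ℕ) :
    Integrable ((Set.Ico (X : ℝ) (X + 1)).indicator fun _ => f X) := by
  rw [integrable_indicator_iff measurableSet_Ico]
  exact integrableOn_const (by simp)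

theorem step_integrable (n : ℕ) (f : ℕ → ℂ) :
    Integrable (fun x : ℝ => if 0 ≤ x ∧ x < n then f ⌊x⌋₊ else 0) := by
  rw [step_eq]
  exact integrable_finsetSum _ fun X _ => step_int1 f X

theorem step_integral (n : ℕ) (f : ℕ → ℂ) :
    ∫ x : ℝ, (if 0 ≤ x ∧ x < n then f ⌊x⌋₊ else 0) = ∑ X ∈ Finset.range n, f X := by
  rw [step_eq, integral_finsetSum _ fun X _ => step_int1 f X]
  refine Finset.sum_congr rfl fun X _ => ?_
  rw [integral_indicator_const _ measurableSet_Ico, Real.volume_real_Ico]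
  simp

/-! ### The general formula -/

/-- The slot of a vertex. -/
noncomputable def sgx (Op : Finset (Fin (m + 1))) (s : Fin (m + 1) → Fin m → ℕ → ℝ → ℂ)
    (s0 : Fin (m + 1) → Fin m → ℕ → ℂ) (x : Op → ℝ) (i : Fin (m + 1)) (j : Fin m) (κ : ℕ) : ℂ :=
  if h : i ∈ Op then s i j κ (x ⟨i, h⟩) else s0 i j κ

/-- The invariant as an integral, if the factors of the open vertices are integrals. -/
theorem JS_gen (r : Fin (m + 1) → ℝ) (Op : Finset (Fin (m + 1))) (g : Fin (m + 1) → ℝ → ℂ)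
    (s : Fin (m + 1) → Fin m → ℕ → ℝ → ℂ) (s0 : Fin (m + 1) → Fin m → ℕ → ℂ) (M : ℕ)
    (S : Fin m → Finset ℕ)
    (hI : ∀ i ∈ Op, ∀ k ∈ Fintype.piFinset S, Integrable (fun x => g i x *
      ∏ j ∈ inc (Fin.castSucc (n := m)) Fin.succ i, s i j (k j) x))
    (hO : ∀ i ∈ Op, ∀ k ∈ Fintype.piFinset S, DG (r i) M (inc (Fin.castSucc (n := m)) Fin.succ i) k =
      ∫ x, g i x * ∏ j ∈ inc (Fin.castSucc (n := m)) Fin.succ i, s i j (k j) x)
    (hC : ∀ i ∉ Op, ∀ k ∈ Fintype.piFinset S, DG (r i) M (inc (Fin.castSucc (n := m)) Fin.succ i) k =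
      ∏ j ∈ inc (Fin.castSucc (n := m)) Fin.succ i, s0 i j (k j)) :
    JS r M S = ∫ x : Op → ℝ, (∏ i : Op, g i (x i)) *
      ∏ j : Fin m, ∑ κ ∈ S j, Cc 2 1 M (yk 2 M κ : ℝ) *
        (sgx Op s s0 x j.castSucc j κ * sgx Op s s0 x j.succ j κ) := by
  -- the term of a multi-index
  obtain ⟨G, hG⟩ : ∃ G : (Fin m → ℕ) → (Op → ℝ) → ℂ, G = fun k x => (∏ i : Op, g i (x i)) *
    ∏ i, ∏ j ∈ inc (Fin.castSucc (n := m)) Fin.succ i, sgx Op s s0 x i j (k j) := ⟨_, rfl⟩
  have hGe : ∀ k ∈ Fintype.piFinset S, ∀ x : Op → ℝ, G k x =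
      (∏ i : Op, (g i (x i) * ∏ j ∈ inc (Fin.castSucc (n := m)) Fin.succ (i : Fin (m + 1)),
        s i j (k j) (x i))) *
        ∏ i ∈ Opᶜ, DG (r i) M (inc (Fin.castSucc (n := m)) Fin.succ i) k := by
    intro k hk x
    rw [hG]
    simp only
    rw [Finset.prod_mul_distrib, mul_assoc]
    congr 1
    rw [← Finset.prod_mul_prod_compl Op]
    congr 1
    · rw [← Finset.prod_coe_sort]
      refine Finset.prod_congr rfl fun i _ => ?_
      refine Finset.prod_congr rfl fun j _ => ?_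
      unfold sgx
      rw [dif_pos i.2]
    · refine Finset.prod_congr rfl fun i hi => ?_
      have hi' : i ∉ Op := Finset.mem_compl.mp hi
      rw [hC i hi' k hk]
      refine Finset.prod_congr rfl fun j _ => ?_
      unfold sgx
      rw [dif_neg hi']
  have hGi : ∀ k ∈ Fintype.piFinset S, Integrable (G k) := by
    intro k hk
    have e : G k = fun x : Op → ℝ => (∏ i : Op, (g i (x i) *
        ∏ j ∈ inc (Fin.castSucc (n := m)) Fin.succ (i : Fin (m + 1)), s i j (k j) (x i))) *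
        ∏ i ∈ Opᶜ, DG (r i) M (inc (Fin.castSucc (n := m)) Fin.succ i) k :=
      funext fun x => hGe k hk x
    rw [e]
    apply Integrable.mul_const
    exact Integrable.fintype_prod (f := fun (i : Op) (x : ℝ) => g i x *
      ∏ j ∈ inc (Fin.castSucc (n := m)) Fin.succ (i : Fin (m + 1)), s i j (k j) x)
      (fun i => hI i i.2 k hk)
  have hGt : ∀ k ∈ Fintype.piFinset S,
      ∏ i, DG (r i) M (inc (Fin.castSucc (n := m)) Fin.succ i) k = ∫ x : Op → ℝ, G k x := by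
    intro k hk
    have e : G k = fun x : Op → ℝ => (∏ i : Op, (g i (x i) *
        ∏ j ∈ inc (Fin.castSucc (n := m)) Fin.succ (i : Fin (m + 1)), s i j (k j) (x i))) *
        ∏ i ∈ Opᶜ, DG (r i) M (inc (Fin.castSucc (n := m)) Fin.succ i) k :=
      funext fun x => hGe k hk x
    rw [e, integral_mul_const, integral_fintype_prod_volume_eq_prod (fun (i : Op) (x : ℝ) =>
      g i x * ∏ j ∈ inc (Fin.castSucc (n := m)) Fin.succ (i : Fin (m + 1)), s i j (k j) x),
      ← Finset.prod_mul_prod_compl Op]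
    congr 1
    rw [← Finset.prod_coe_sort]
    exact Finset.prod_congr rfl fun i _ => hO i i.2 k hk
  have hpt : ∀ x : Op → ℝ, (∏ i : Op, g i (x i)) *
      ∏ j : Fin m, ∑ κ ∈ S j, Cc 2 1 M (yk 2 M κ : ℝ) *
        (sgx Op s s0 x j.castSucc j κ * sgx Op s s0 x j.succ j κ) =
      ∑ k ∈ Fintype.piFinset S, (∏ j, Cc 2 1 M (yk 2 M (k j) : ℝ)) * G k x := by
    intro x
    rw [Finset.prod_univ_sum, Finset.mul_sum]
    refine Finset.sum_congr rfl fun k _ => ?_
    rw [hG]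
    simp only
    rw [prod_inc (Fin.castSucc (n := m)) Fin.succ (fun j => (Fin.castSucc_lt_succ (i := j)).ne)
      (fun i j => sgx Op s s0 x i j (k j)), Finset.prod_mul_distrib]
    ring
  simp only [hpt]
  rw [integral_finsetSum _ fun k hk => (hGi k hk).const_mul _]
  unfold JS
  refine Finset.sum_congr rfl fun k hk => ?_
  rw [integral_const_mul, hGt k hk]

/-! ### Upper bounds -/

private theorem LL_prod {α : Type} [Fintype α] (D M : ℝ) (p : ℕ) (a : α → ℝ) :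
    ∏ q, (D * M ^ p * Real.exp (M * a q)) =
      D ^ Fintype.card α * M ^ (p * Fintype.card α) * Real.exp (M * ∑ q, a q) := by
  rw [Finset.prod_mul_distrib, Finset.prod_const, Finset.card_univ, ← Real.exp_sum,
    ← Finset.mul_sum, mul_pow, ← pow_mul]

/-- An upper bound of the integral of a product of vertex factors and edge factors; the growth rates
depend on `M`. -/
theorem low_abs' {ι ε : Type} [Fintype ι] [Fintype ε] {g : ℕ → ι → ℝ → ℂ}
    {K : ℕ → ε → (ι → ℝ) → ℂ} {ga : ℕ → ι → ℝ → ℝ} {ka : ℕ → ε → (ι → ℝ) → ℝ} {w : ι → ℝ → ℝ}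
    {e : ℝ} (w_int : ∀ i, Integrable (w i)) (w_nn : ∀ i x, 0 ≤ w i x)
    (g_bd : ∃ C : ℝ, 0 < C ∧ ∃ p : ℕ, ∀ᶠ M : ℕ in atTop, ∀ i x,
      ‖g M i x‖ ≤ C * (M : ℝ) ^ p * Real.exp (M * ga M i x) * w i x)
    (K_bd : ∃ C : ℝ, 0 < C ∧ ∃ p : ℕ, ∀ᶠ M : ℕ in atTop, ∀ q x,
      ‖K M q x‖ ≤ C * (M : ℝ) ^ p * Real.exp (M * ka M q x))
    (hs : ∀ᶠ M : ℕ in atTop, ∀ x, ∑ i, ga M i (x i) + ∑ q, ka M q x ≤ e) :
    ∃ C : ℝ, 0 < C ∧ ∃ p : ℕ, ∀ᶠ M : ℕ in atTop,
      ‖∫ x : ι → ℝ, (∏ i, g M i (x i)) * ∏ q, K M q x‖ ≤ C * (M : ℝ) ^ p * Real.exp (M * e) := by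
  obtain ⟨C1, hC1, p1, h1⟩ := g_bd
  obtain ⟨C2, hC2, p2, h2⟩ := K_bd
  have hint : Integrable (fun x : ι → ℝ => ∏ i, w i (x i)) :=
    Integrable.fintype_prod (μ := fun _ : ι => (volume : Measure ℝ)) (f := fun i => w i) w_int
  have hW : 0 ≤ ∫ x : ι → ℝ, ∏ i, w i (x i) :=
    integral_nonneg fun x => Finset.prod_nonneg fun i _ => w_nn i (x i)
  refine ⟨C1 ^ Fintype.card ι * C2 ^ Fintype.card ε * ((∫ x : ι → ℝ, ∏ i, w i (x i)) + 1),
    by positivity, p1 * Fintype.card ι + p2 * Fintype.card ε, ?_⟩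
  filter_upwards [h1, h2, hs] with M g1 g2 g3
  have hb : ∀ x : ι → ℝ, ‖(∏ i, g M i (x i)) * ∏ q, K M q x‖ ≤
      C1 ^ Fintype.card ι * C2 ^ Fintype.card ε *
        (M : ℝ) ^ (p1 * Fintype.card ι + p2 * Fintype.card ε) * Real.exp (M * e) *
          ∏ i, w i (x i) := by
    intro x
    rw [norm_mul, _root_.norm_prod, _root_.norm_prod]
    have a1 : ∏ i, ‖g M i (x i)‖ ≤ C1 ^ Fintype.card ι * (M : ℝ) ^ (p1 * Fintype.card ι) *
        Real.exp (M * ∑ i, ga M i (x i)) * ∏ i, w i (x i) := by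
      calc ∏ i, ‖g M i (x i)‖
          ≤ ∏ i, (C1 * (M : ℝ) ^ p1 * Real.exp (M * ga M i (x i)) * w i (x i)) :=
            Finset.prod_le_prod (fun i _ => norm_nonneg _) (fun i _ => g1 i (x i))
        _ = _ := by rw [Finset.prod_mul_distrib, LL_prod]
    have a2 : ∏ q, ‖K M q x‖ ≤ C2 ^ Fintype.card ε * (M : ℝ) ^ (p2 * Fintype.card ε) *
        Real.exp (M * ∑ q, ka M q x) := by
      calc ∏ q, ‖K M q x‖ ≤ ∏ q, (C2 * (M : ℝ) ^ p2 * Real.exp (M * ka M q x)) :=
            Finset.prod_le_prod (fun i _ => norm_nonneg _) (fun q _ => g2 q x)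
        _ = _ := by rw [LL_prod]
    have hw : 0 ≤ ∏ i, w i (x i) := Finset.prod_nonneg fun i _ => w_nn i (x i)
    refine (mul_le_mul a1 a2 (Finset.prod_nonneg fun q _ => norm_nonneg _) (by positivity)).trans ?_
    have a3 : Real.exp (M * ∑ i, ga M i (x i)) * Real.exp (M * ∑ q, ka M q x) ≤
        Real.exp (M * e) := by
      rw [← Real.exp_add, ← mul_add]
      exact Real.exp_le_exp.2 (mul_le_mul_of_nonneg_left (g3 x) (Nat.cast_nonneg M))
    calc C1 ^ Fintype.card ι * (M : ℝ) ^ (p1 * Fintype.card ι) *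
          Real.exp (M * ∑ i, ga M i (x i)) * (∏ i, w i (x i)) *
          (C2 ^ Fintype.card ε * (M : ℝ) ^ (p2 * Fintype.card ε) * Real.exp (M * ∑ q, ka M q x))
        = C1 ^ Fintype.card ι * C2 ^ Fintype.card ε *
          (M : ℝ) ^ (p1 * Fintype.card ι + p2 * Fintype.card ε) *
          (Real.exp (M * ∑ i, ga M i (x i)) * Real.exp (M * ∑ q, ka M q x)) * ∏ i, w i (x i) := by
          rw [pow_add]; ring
      _ ≤ _ := by
          apply mul_le_mul_of_nonneg_right _ hw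
          apply mul_le_mul_of_nonneg_left a3
          positivity
  refine (norm_integral_le_of_norm_le (hint.const_mul _)
    (Eventually.of_forall hb)).trans ?_
  rw [integral_const_mul]
  have : 0 ≤ C1 ^ Fintype.card ι * C2 ^ Fintype.card ε *
      (M : ℝ) ^ (p1 * Fintype.card ι + p2 * Fintype.card ε) * Real.exp (M * e) := by positivity
  nlinarith

/-- The weight of a lattice vertex. -/
theorem lat_weight (M : ℕ) (x : ℝ) : (if 0 ≤ x ∧ x < (M : ℝ) then (1 : ℝ) else 0) ≤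
    ((M : ℝ) ^ 2 + 1) * (1 + x ^ 2)⁻¹ := by
  split_ifs with h
  · rw [← div_eq_mul_inv, le_div_iff₀ (by positivity)]
    have := pow_le_pow_left₀ h.1 h.2.le 2
    linarith
  · positivity

end Pool.Agent.S3
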