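import Pool.Agent.S3.Dneg
import Pool.Agent.S3.Refl

/-!
# Stage 3: the edge function of an opposite edge is nonpositive on the whole product of lines
-/

namespace Pool.Agent.S3

open Complex

/-- `|(1 + i sinh u)/cosh u|² = (cosh x - sin t)/(cosh x + sin t)` -/
theorem gd_arg_normSq {x t : ℝ} (h : |t| < Real.pi / 2) :
    normSq ((1 + I * sinh (UU x t)) / cosh (UU x t))
      = (Real.cosh x - Real.sin t) / (Real.cosh x + Real.sin t) := by
  have hc := Real.one_le_cosh x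
  have h1 := Real.sin_sq_add_cos_sq t
  have h2 := cos_pos' h
  have h3 := Real.cosh_sq x
  have h4 : -1 < Real.sin t := by nlinarith [Real.neg_one_le_sin t]
  have h5 : Real.sin t < 1 := by nlinarith [Real.sin_le_one t]
  have hn : normSq (cosh (UU x t)) = (Real.cosh x - Real.sin t) * (Real.cosh x + Real.sin t) := by
    rw [normSq_cosh', UU_re, UU_im]; linarith
  have hm : normSq (1 + I * sinh (UU x t)) = (Real.cosh x - Real.sin t) ^ 2 := by
    rw [normSq_apply, add_re, add_im, mul_re, mul_im, I_re, I_im, one_re, one_im, sinh_re',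
      sinh_im', UU_re, UU_im]
    nlinarith
  rw [normSq_div, hn, hm, div_eq_div_iff (by nlinarith) (by linarith)]
  ring

theorem gd_im {x t : ℝ} (h : |t| < Real.pi / 2) :
    (gd (UU x t)).im = Real.log ((Real.cosh x + Real.sin t) / (Real.cosh x - Real.sin t)) / 2 := by
  have h1 : (gd (UU x t)).im = -Real.log ‖(1 + I * sinh (UU x t)) / cosh (UU x t)‖ := by
    rw [gd, mul_im, neg_re, neg_im, I_re, I_im, log_re]; ring
  have h2 : Real.log (normSq ((1 + I * sinh (UU x t)) / cosh (UU x t)))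
      = 2 * Real.log ‖(1 + I * sinh (UU x t)) / cosh (UU x t)‖ := by
    rw [normSq_eq_norm_sq, Real.log_pow]; push_cast; ring
  rw [h1, ← inv_div (Real.cosh x - Real.sin t), Real.log_inv, ← gd_arg_normSq h, h2]
  ring

theorem gd_im_pos {x t : ℝ} (h0 : 0 < t) (h : t < Real.pi / 2) : 0 < (gd (UU x t)).im := by
  rw [gd_im (by rwa [abs_of_pos h0])]
  have h1 := Real.sin_pos_of_pos_of_lt_pi h0 (by linarith [Real.pi_pos])
  have h2 := Real.sin_sq_add_cos_sq t
  have h3 := cos_pos' (t := t) (by rwa [abs_of_pos h0])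
  have h5 : Real.sin t < 1 := by nlinarith [Real.sin_le_one t]
  have hc := Real.one_le_cosh x
  apply div_pos _ two_pos
  apply Real.log_pos
  rw [lt_div_iff₀ (by linarith)]
  linarith

theorem gd_re_pos {x t : ℝ} (hx : 0 < x) (h : |t| < Real.pi / 2) : 0 < (gd (UU x t)).re := by
  have h' : |(UU x t).im| < Real.pi / 2 := by simpa using h
  by_contra hc
  push Not at hc
  have hlt := gd_re_lt h'
  have h1 : igd (-gd (UU x t)) = -(UU x t) := by
    rw [igd, Complex.tan_neg, arsh_neg (slit_tan hlt)]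
    change -igd (gd (UU x t)) = _
    rw [igd_gd h']
  have h2 : UU (-(gd (UU x t)).re) (-(gd (UU x t)).im) = -gd (UU x t) := by
    rw [← UU_neg, UU_eta]
  have h3 := igd_re_nonneg (R := -(gd (UU x t)).re) (by linarith)
    (by have := (abs_lt.1 hlt).1; linarith) (-(gd (UU x t)).im)
  rw [h2, h1, neg_re, UU_re] at h3
  linarith

theorem gd_neg_conj {x t : ℝ} (h : |t| < Real.pi / 2) :
    gd (UU (-x) t) = -(starRingEnd ℂ) (gd (UU x t)) := by
  have h' : |(UU x t).im| < Real.pi / 2 := by simpa using h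
  have h2 : |(UU x (-t)).im| < Real.pi / 2 := by simpa using h
  rw [← gd_conj h', UU_conj, ← gd_neg h2, UU_neg, neg_neg]

/-- the reflection inequality for `Φ` -/
theorem Phi_refl {Φ : ℂ → ℂ → ℂ} (hΦ : IsPhi Φ) {x x' θ θ' : ℝ} (hx : 0 ≤ x) (hx' : 0 ≤ x')
    (hθ : 0 < θ) (hθ' : 0 < θ') (h : θ + θ' < Real.pi / 2) :
    (Φ (gd (UU (-x) θ) / (Real.pi : ℂ)) (gd (UU x' (-θ')) / (Real.pi : ℂ))).re
      ≤ (Φ (gd (UU x θ) / (Real.pi : ℂ)) (gd (UU x' (-θ')) / (Real.pi : ℂ))).re := by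
  rcases hx.eq_or_lt with rfl | hx0
  · rw [neg_zero]
  have aθ : |θ| < Real.pi / 2 := by rw [abs_of_pos hθ]; linarith
  have aθ2 : |(UU x θ).im| < Real.pi / 2 := by simpa using aθ
  set R := (gd (UU x θ)).re with hR
  set y := (gd (UU x θ)).im with hy
  have hR0 : 0 < R := gd_re_pos hx0 aθ
  have hy0 : 0 < y := gd_im_pos hθ (by linarith)
  have hR1 : |R| < Real.pi / 2 := gd_re_lt aθ2
  have hR2 : R < Real.pi / 2 := lt_of_le_of_lt (le_abs_self R) hR1
  have e1 : igd (UU R y) = UU x θ := by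
    rw [hR, hy, UU_eta, igd_gd aθ2]
  have econj : ∀ s, igd (UU R (-s)) = (starRingEnd ℂ) (igd (UU R s)) := by
    intro s
    rw [← igd_conj (by simpa using hR1), UU_conj]
  have e2 : igd (UU R (-y)) = UU x (-θ) := by rw [econj, e1, UU_conj]
  have mono := igd_im_mono hR1
  have hreg : ∀ s, -y ≤ s → s ≤ y → Reg (igd (UU R s)) (UU x' (-θ')) := by
    intro s h1 h2
    have m1 := mono.monotone h1
    have m2 := mono.monotone h2
    simp only [e1, e2, UU_im] at m1 m2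
    unfold Reg
    rw [UU_im, abs_neg, abs_of_pos hθ']
    have : |(igd (UU R s)).im| ≤ θ := abs_le.2 ⟨m1, m2⟩
    linarith
  have hd : ∀ s, -y ≤ s → s ≤ y → HasDerivAt (fun s : ℝ =>
      (Φ (gd (igd (UU R s)) / (Real.pi : ℂ)) (gd (UU x' (-θ')) / (Real.pi : ℂ))).re)
      (2 / Real.pi * (qq (igd (UU R s)) (UU x' (-θ'))).im) s := by
    intro s h1 h2
    have hr := hreg s h1 h2
    have := hasDerivAt_re (hΦ.deriv (fun s => igd (UU R s)) (fun _ => UU x' (-θ')) _ 0 s hr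
      (hasDerivAt_igd_line hR1 s) (hasDerivAt_const s _))
    refine HasDerivAt.congr_deriv this ?_
    have hc := cosh_ne hr.left
    have hpi : (Real.pi : ℂ) ≠ 0 := by exact_mod_cast Real.pi_ne_zero
    have e : (-2 * qq (igd (UU R s)) (UU x' (-θ')) * (I * cosh (igd (UU R s))) /
        ((Real.pi : ℂ) * cosh (igd (UU R s))) - 2 * qq (UU x' (-θ')) (igd (UU R s)) * 0 /
        ((Real.pi : ℂ) * cosh (UU x' (-θ')))) =
        ((2 / Real.pi : ℝ) : ℂ) * (-I * qq (igd (UU R s)) (UU x' (-θ'))) := by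
      push_cast
      field_simp
      ring
    rw [e, re_ofReal_mul]
    congr 1
    rw [mul_re, neg_re, neg_im, I_re, I_im]
    ring
  -- the function `G`
  have key : ∀ s ∈ Set.Icc (0 : ℝ) y,
      (Φ (gd (igd (UU R (-s))) / (Real.pi : ℂ)) (gd (UU x' (-θ')) / (Real.pi : ℂ))).re
      ≤ (Φ (gd (igd (UU R s)) / (Real.pi : ℂ)) (gd (UU x' (-θ')) / (Real.pi : ℂ))).re := by
    set G : ℝ → ℝ := fun s =>
      (Φ (gd (igd (UU R s)) / (Real.pi : ℂ)) (gd (UU x' (-θ')) / (Real.pi : ℂ))).re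
      - (Φ (gd (igd (UU R (-s))) / (Real.pi : ℂ)) (gd (UU x' (-θ')) / (Real.pi : ℂ))).re with hG
    have hGd : ∀ s, -y ≤ s → s ≤ y → HasDerivAt G
        (2 / Real.pi * ((qq (igd (UU R s)) (UU x' (-θ'))).im
          + (qq (igd (UU R (-s))) (UU x' (-θ'))).im)) s := by
      intro s h1 h2
      have d1 := hd s h1 h2
      have d2 := hd (-s) (by linarith) (by linarith)
      have d3 := HasDerivAt.scomp (g₁ := fun s : ℝ =>
        (Φ (gd (igd (UU R s)) / (Real.pi : ℂ)) (gd (UU x' (-θ')) / (Real.pi : ℂ))).re)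
        (h := fun s : ℝ => -s) s d2 (hasDerivAt_neg s)
      refine (d1.sub d3).congr_deriv ?_
      rw [smul_eq_mul]; ring
    have hm : MonotoneOn G (Set.Icc 0 y) := by
      apply monotoneOn_of_deriv_nonneg (convex_Icc _ _)
      · intro s hs
        exact (hGd s (by linarith [hs.1]) hs.2).continuousAt.continuousWithinAt
      · intro s hs
        rw [interior_Icc] at hs
        exact (hGd s (by linarith [hs.1]) hs.2.le).differentiableAt.differentiableWithinAt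
      · intro s hs
        rw [interior_Icc] at hs
        rw [(hGd s (by linarith [hs.1]) hs.2.le).deriv]
        apply mul_nonneg (by positivity)
        have t1 := mono.monotone hs.2.le
        have t2 := mono.monotone hs.1.le
        simp only [e1, UU_im] at t1
        simp only [igd_real_im hR1] at t2
        have t3 := igd_re_nonneg hR0.le hR2 s
        have t4 := refl_im (x := (igd (UU R s)).re) (t := (igd (UU R s)).im) (x' := x')
          (t' := θ') t3 hx' t2 hθ'.le (by linarith)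
        rw [← UU_conj (igd (UU R s)).re, UU_eta] at t4
        rw [econj]
        exact t4
    intro s hs
    have h1 := hm (a := 0) (b := s) ⟨le_rfl, hy0.le⟩ hs hs.1
    have h2 : G 0 = 0 := by simp [hG]
    rw [h2] at h1
    simp only [hG] at h1
    linarith
  have k := key y ⟨hy0.le, le_rfl⟩
  rw [e1, e2] at k
  have hr : Reg (UU x (-θ)) (UU x' (-θ')) := by
    apply Reg_UU; rw [abs_neg, abs_neg, abs_of_pos hθ, abs_of_pos hθ']; exact h
  have e3 := hΦ.even_left _ _ hr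
  rw [UU_neg, neg_neg] at e3
  rw [e3]
  exact k

/-- exchanging the two vertices -/
theorem IsPhi.swap {Φ : ℂ → ℂ → ℂ} (hΦ : IsPhi Φ) : IsPhi (fun v w => Φ w v) where
  deriv := by
    intro u w u' w' s hr hu hw
    have := hΦ.deriv w u w' u' s hr.symm hw hu
    refine this.congr_deriv ?_
    ring
  even_left := fun u w h => hΦ.even_right w u h.symm
  even_right := fun u w h => hΦ.even_left w u h.symm
  conj := fun u w h => hΦ.conj w u h.symm

section

variable {θ θ' xc xc' b b' : ℝ} {Φ : ℂ → ℂ → ℂ}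

theorem Dfun_swap (hΦ : IsPhi Φ) (h : OppHyp θ θ' xc xc') (x x' : ℝ) :
    Dfun (fun v w => Φ w v) θ' θ b' b xc' xc x' x = Dfun Φ θ θ' b b' xc xc' x x' := by
  have aθ : |θ| < Real.pi / 2 := by
    rw [abs_of_pos h.θ0]; exact θ_lt h
  have aθ' : |θ'| < Real.pi / 2 := by
    rw [abs_of_pos h.θ0']; exact θ_lt h.symm
  have g : ∀ y : ℝ, gd (UU y θ') = (starRingEnd ℂ) (gd (UU y (-θ'))) := by
    intro y
    rw [← gd_conj (by simpa using aθ'), UU_conj, neg_neg]
  have g2 : ∀ y : ℝ, gd (UU y (-θ)) = (starRingEnd ℂ) (gd (UU y θ)) := by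
    intro y
    rw [← gd_conj (by simpa using aθ), UU_conj]
  have q : ∀ y y' : ℝ, qq (UU y' θ') (UU y (-θ)) = (starRingEnd ℂ) (qq (UU y' (-θ')) (UU y θ)) := by
    intro y y'
    rw [← qq_conj (h.reg' y y'), UU_conj, UU_conj, neg_neg]
  have q2 : ∀ y y' : ℝ, qq (UU y (-θ)) (UU y' θ') = (starRingEnd ℂ) (qq (UU y θ) (UU y' (-θ'))) := by
    intro y y'
    rw [← qq_conj (h.reg y y'), UU_conj, UU_conj, neg_neg]
  have p : ∀ y y' : ℝ, (Φ (gd (UU y (-θ)) / (Real.pi : ℂ)) (gd (UU y' θ') / (Real.pi : ℂ))).re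
      = (Φ (gd (UU y θ) / (Real.pi : ℂ)) (gd (UU y' (-θ')) / (Real.pi : ℂ))).re := by
    intro y y'
    have := hΦ.conj _ _ (h.reg y y')
    rwa [UU_conj, UU_conj, neg_neg] at this
  unfold Dfun
  simp only [add_re, sub_re]
  rw [p x x', p xc xc']
  have c1 : (2 * qq (UU xc' θ') (UU xc (-θ)) * (gd (UU x' θ') - gd (UU xc' θ'))
      / (Real.pi : ℂ)).re = (2 * qq (UU xc' (-θ')) (UU xc θ) *
      (gd (UU x' (-θ')) - gd (UU xc' (-θ'))) / (Real.pi : ℂ)).re := by
    rw [← conj_re (2 * qq (UU xc' (-θ')) (UU xc θ) * _ / _)]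
    rw [g, g, q]
    simp
  have c2 : (2 * qq (UU xc (-θ)) (UU xc' θ') * (gd (UU x (-θ)) - gd (UU xc (-θ)))
      / (Real.pi : ℂ)).re = (2 * qq (UU xc θ) (UU xc' (-θ')) *
      (gd (UU x θ) - gd (UU xc θ)) / (Real.pi : ℂ)).re := by
    rw [← conj_re (2 * qq (UU xc θ) (UU xc' (-θ')) * _ / _)]
    rw [g2, g2, q2]
    simp
  have c3 : (I * b' / (Real.pi : ℂ) * (gd (UU x' θ') - gd (UU xc' θ')) ^ 2).re
      = -(I * b' / (Real.pi : ℂ) * (gd (UU x' (-θ')) - gd (UU xc' (-θ'))) ^ 2).re := by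
    rw [← conj_re (I * b' / (Real.pi : ℂ) * (gd (UU x' (-θ')) - gd (UU xc' (-θ'))) ^ 2),
      ← neg_re]
    rw [g, g]
    congr 1
    simp only [map_mul, map_div₀, map_pow, map_sub, conj_I, conj_ofReal]
    ring
  have c4 : (I * b / (Real.pi : ℂ) * (gd (UU x (-θ)) - gd (UU xc (-θ))) ^ 2).re
      = -(I * b / (Real.pi : ℂ) * (gd (UU x θ) - gd (UU xc θ)) ^ 2).re := by
    rw [← conj_re (I * b / (Real.pi : ℂ) * (gd (UU x θ) - gd (UU xc θ)) ^ 2), ← neg_re]
    rw [g2, g2]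
    congr 1
    simp only [map_mul, map_div₀, map_pow, map_sub, conj_I, conj_ofReal]
    ring
  rw [c1, c2, c3, c4]
  ring

/-- the share of the Gaussian under the reflection -/
theorem gauss_refl {Q g gc : ℂ} {b : ℝ} (hQ : Q.re = b * gc.im) :
    (2 * Q * (-(starRingEnd ℂ) g - gc) / (Real.pi : ℂ)
        - I * b / (Real.pi : ℂ) * (-(starRingEnd ℂ) g - gc) ^ 2).re
      = (2 * Q * (g - gc) / (Real.pi : ℂ) - I * b / (Real.pi : ℂ) * (g - gc) ^ 2).re
        - 4 / Real.pi * (b * (g.re * g.im)) := by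
  have hpi := Real.pi_ne_zero
  have e : ∀ z : ℂ, (2 * Q * z / (Real.pi : ℂ) - I * b / (Real.pi : ℂ) * z ^ 2).re
      = 2 / Real.pi * (Q.re * z.re - Q.im * z.im + b * (z.re * z.im)) := by
    intro z
    have : (2 * Q * z / (Real.pi : ℂ) - I * b / (Real.pi : ℂ) * z ^ 2)
        = ((2 / Real.pi : ℝ) : ℂ) * (Q * z - I * b * z ^ 2 / 2) := by
      push_cast
      have : (Real.pi : ℂ) ≠ 0 := by exact_mod_cast Real.pi_ne_zero
      field_simp
    rw [this, re_ofReal_mul]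
    congr 1
    rw [sub_re, mul_re, show (2 : ℂ) = ((2 : ℝ) : ℂ) by norm_num, div_ofReal_re, mul_assoc,
      mul_comm (b : ℂ), ← mul_assoc, re_mul_ofReal, mul_re, I_re, I_im, sq, mul_im]
    ring
  rw [e, e]
  simp only [sub_re, neg_re, conj_re, sub_im, neg_im, conj_im, neg_neg]
  rw [hQ]
  field_simp
  ring

/-- reflection of the own vertex -/
theorem Dfun_refl_left (hΦ : IsPhi Φ) (h : OppHyp θ θ' xc xc')
    (hQ : (qq (UU xc θ) (UU xc' (-θ'))).re = b * (gd (UU xc θ)).im) {x x' : ℝ} (hx : 0 ≤ x)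
    (hx' : 0 ≤ x') :
    Dfun Φ θ θ' b b' xc xc' (-x) x' ≤ Dfun Φ θ θ' b b' xc xc' x x'
      - 4 / Real.pi * (b * ((gd (UU x θ)).re * (gd (UU x θ)).im)) := by
  have aθ : |θ| < Real.pi / 2 := by
    rw [abs_of_pos h.θ0]; exact θ_lt h
  have h1 := Phi_refl hΦ hx hx' h.θ0 h.θ0' (S_lt h.S)
  have h2 := gauss_refl (g := gd (UU x θ)) hQ
  unfold Dfun
  rw [gd_neg_conj aθ] at h1 ⊢
  simp only [add_re, sub_re] at h2 ⊢
  linarith

/-- reflection of the other vertex -/
theorem Dfun_refl_right (hΦ : IsPhi Φ) (h : OppHyp θ θ' xc xc')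
    (hQ' : (qq (UU xc' θ') (UU xc (-θ))).re = b' * (gd (UU xc' θ')).im) {x x' : ℝ} (hx : 0 ≤ x)
    (hx' : 0 ≤ x') :
    Dfun Φ θ θ' b b' xc xc' x (-x') ≤ Dfun Φ θ θ' b b' xc xc' x x'
      - 4 / Real.pi * (b' * ((gd (UU x' θ')).re * (gd (UU x' θ')).im)) := by
  rw [← Dfun_swap hΦ h, ← Dfun_swap hΦ h]
  exact Dfun_refl_left hΦ.swap h.symm hQ' hx' hx

/-- reflection of both vertices -/
theorem Dfun_refl_both (hΦ : IsPhi Φ) (h : OppHyp θ θ' xc xc')
    (hQ : (qq (UU xc θ) (UU xc' (-θ'))).re = b * (gd (UU xc θ)).im)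
    (hQ' : (qq (UU xc' θ') (UU xc (-θ))).re = b' * (gd (UU xc' θ')).im) (x x' : ℝ) :
    Dfun Φ θ θ' b b' xc xc' (-x) (-x') = Dfun Φ θ θ' b b' xc xc' x x'
      - 4 / Real.pi * (b * ((gd (UU x θ)).re * (gd (UU x θ)).im))
      - 4 / Real.pi * (b' * ((gd (UU x' θ')).re * (gd (UU x' θ')).im)) := by
  have aθ : |θ| < Real.pi / 2 := by
    rw [abs_of_pos h.θ0]; exact θ_lt h
  have aθ' : |θ'| < Real.pi / 2 := by
    rw [abs_of_pos h.θ0']; exact θ_lt h.symm
  have aθm : |-θ'| < Real.pi / 2 := by rwa [abs_neg]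
  have g : ∀ y : ℝ, gd (UU y θ') = (starRingEnd ℂ) (gd (UU y (-θ'))) := by
    intro y
    rw [← gd_conj (by simpa using aθ'), UU_conj, neg_neg]
  have q : (qq (UU xc' θ') (UU xc (-θ))) = (starRingEnd ℂ) (qq (UU xc' (-θ')) (UU xc θ)) := by
    rw [← qq_conj (h.reg' xc xc'), UU_conj, UU_conj, neg_neg]
  have hr1 : Reg (UU (-x) θ) (UU (-x') (-θ')) := h.reg _ _
  -- `Re Φ` is unchanged
  have p : (Φ (gd (UU (-x) θ) / (Real.pi : ℂ)) (gd (UU (-x') (-θ')) / (Real.pi : ℂ))).re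
      = (Φ (gd (UU x θ) / (Real.pi : ℂ)) (gd (UU x' (-θ')) / (Real.pi : ℂ))).re := by
    have p1 := hΦ.conj _ _ (h.reg x x')
    have r2 := (h.reg x x').conj_left.conj_right
    have p2 := hΦ.even_left _ _ r2
    have p3 := hΦ.even_right _ _ r2.neg_left
    rw [p2, p1, UU_conj, UU_conj, UU_neg, UU_neg, neg_neg, neg_neg] at p3
    exact p3
  have h2 := gauss_refl (g := gd (UU x θ)) hQ
  have hQ2 : (qq (UU xc' (-θ')) (UU xc θ)).re = (-b') * (gd (UU xc' (-θ'))).im := by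
    rw [q, g, conj_re, conj_im] at hQ'
    linarith
  have h3 := gauss_refl (g := gd (UU x' (-θ'))) hQ2
  have e4 : (gd (UU x' θ')).re = (gd (UU x' (-θ'))).re := by rw [g, conj_re]
  have e5 : (gd (UU x' θ')).im = -(gd (UU x' (-θ'))).im := by rw [g, conj_im]
  unfold Dfun
  rw [gd_neg_conj aθ] at p ⊢
  rw [gd_neg_conj aθm] at p ⊢
  have n1 : ∀ z : ℂ, I * ((-b' : ℝ) : ℂ) / (Real.pi : ℂ) * z = -(I * b' / (Real.pi : ℂ) * z) := by
    intro z; push_cast; ring
  rw [n1, n1] at h3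
  simp only [add_re, sub_re, neg_re] at h2 h3 ⊢
  rw [e4, e5]
  linarith

end

end Pool.Agent.S3
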