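import Pool.Agent.S3.Es2
import Pool.Agent.S3.W.Far

/-!
# Open-open edges: the estimates at the ends and on the middle interval

`se y (op v) ≤ π im v` for `-1/10 ≤ y ≤ 0` and `v` below the `u`-line or real.
-/

set_option autoImplicit false

namespace Pool.Agent.S3

open Complex MeasureTheory
open Pool.Agent.H25.RK (gdv gdv_re_lt gdv_hasDerivAt)

section

variable {Φ : ℂ → ℂ → ℂ} {θ θ' xc xc' b b' v1 v1' μ μ' : ℝ} {v w : ℂ}

/-- `|c - X| ≤ c` for `X = cos² (R + i I)`, `k = cos² R`, `s = sinh² I`. -/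
theorem mid_alg {c k s : ℝ} (hc : 9 / 10 ≤ c) (hk : 0 ≤ k) (hk1 : k ≤ 1) (hs : 0 ≤ s)
    (hs1 : s ≤ 3613 / 10000 * k) : (k + s) ^ 2 ≤ 2 * c * (k + 2 * k * s - s) := by
  rcases hk.eq_or_lt with h0 | h0
  · rw [← h0] at hs1 ⊢
    have : s = 0 := by linarith
    rw [this]; simp
  · obtain ⟨τ, hτ⟩ : ∃ τ, τ = s / k := ⟨_, rfl⟩
    have e : s = τ * k := by rw [hτ]; field_simp
    have τ0 : 0 ≤ τ := by rw [hτ]; positivity
    have τ1 : τ ≤ 3613 / 10000 := by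
      rw [hτ, div_le_iff₀ h0]; exact hs1
    rw [e]
    have h1 : 0 ≤ k + 2 * k * (τ * k) - τ * k := by nlinarith
    have h2 : (k + τ * k) ^ 2 ≤ 2 * (9 / 10) * (k + 2 * k * (τ * k) - τ * k) := by
      -- divide by `k`
      have h3 : k * (1 + τ) ^ 2 ≤ 2 * (9 / 10) * (1 - τ + 2 * τ * k) := by
        nlinarith [mul_nonneg τ0 (sub_nonneg.2 hk1), mul_nonneg τ0 τ0]
      nlinarith
    nlinarith

theorem mid_norm {c : ℝ} {v : ℂ} (hc : 9 / 10 ≤ c)
    (h : Real.sinh (Real.pi * v.im) ^ 2 ≤ 3613 / 10000 * Real.cos (Real.pi * v.re) ^ 2) :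
    ‖(c : ℂ) - cos (Real.pi * v) ^ 2‖ ≤ c := by
  have c0 : 0 ≤ c := by linarith
  set R := Real.pi * v.re with hR
  set J := Real.pi * v.im with hJ
  have h1 := Real.cosh_sq J
  have h2 := Real.sin_sq_add_cos_sq R
  have hk : Real.cos R ^ 2 ≤ 1 := by nlinarith [sq_nonneg (Real.sin R)]
  have key := mid_alg hc (sq_nonneg (Real.cos R)) hk (sq_nonneg (Real.sinh J)) h
  apply le_of_sq_le_sq _ c0
  rw [← normSq_eq_norm_sq, normSq_apply, sub_re, sub_im, ofReal_re, ofReal_im, sq, mul_re, mul_im,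
    wcos_re, wcos_im, pi_mul_re, pi_mul_im, ← hR, ← hJ]
  have e : (c - (Real.cos R * Real.cosh J * (Real.cos R * Real.cosh J) -
      -(Real.sin R * Real.sinh J) * -(Real.sin R * Real.sinh J))) *
      (c - (Real.cos R * Real.cosh J * (Real.cos R * Real.cosh J) -
      -(Real.sin R * Real.sinh J) * -(Real.sin R * Real.sinh J))) +
      (0 - (Real.cos R * Real.cosh J * -(Real.sin R * Real.sinh J) +
      -(Real.sin R * Real.sinh J) * (Real.cos R * Real.cosh J))) *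
      (0 - (Real.cos R * Real.cosh J * -(Real.sin R * Real.sinh J) +
      -(Real.sin R * Real.sinh J) * (Real.cos R * Real.cosh J))) =
      c ^ 2 - 2 * c * (Real.cos R ^ 2 * Real.cosh J ^ 2 - Real.sin R ^ 2 * Real.sinh J ^ 2) +
      (Real.cos R ^ 2 * Real.cosh J ^ 2 + Real.sin R ^ 2 * Real.sinh J ^ 2) ^ 2 := by ring
  rw [e, h1]
  have hs : Real.sin R ^ 2 = 1 - Real.cos R ^ 2 := by linarith
  rw [hs]
  nlinarith

theorem cos_sq_ge {t : ℝ} (h0 : 0 ≤ t) (h : t ≤ 1 / 10) : 9 / 10 ≤ Real.cos (Real.pi * t) ^ 2 := by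
  have hpi := Real.pi_pos
  have hpi2 := Real.pi_lt_d2
  have h1 : 1 - (Real.pi * t) ^ 2 / 2 ≤ Real.cos (Real.pi * t) := Real.one_sub_sq_div_two_le_cos
  have h2 : Real.pi * t ≤ 315 / 1000 := by nlinarith
  have h3 : 0 ≤ Real.pi * t := by positivity
  have h4 : 950387 / 1000000 ≤ Real.cos (Real.pi * t) := by nlinarith
  nlinarith

/-- The middle interval. -/
theorem se_mid (h : Real.sinh (Real.pi * v.im) ^ 2 ≤ 3613 / 10000 * Real.cos (Real.pi * v.re) ^ 2)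
    {y : ℝ} (hy : y ∈ Set.Icc (-(1 / 10) : ℝ) 0) : se y (.op v) ≤ Real.pi * |v.im| := by
  obtain ⟨t, ht⟩ : ∃ t : ℝ, t = -y := ⟨_, rfl⟩
  have t0 : 0 ≤ t := by rw [ht]; linarith [hy.2]
  have t1 : t ≤ 1 / 10 := by rw [ht]; linarith [hy.1]
  have ey : (y : ℂ) = -(t : ℂ) := by rw [ht]; push_cast; ring
  -- the growth rate increases on `[0, t]`
  have h1 := EE_sub_eq v v 0 0 t
  have h2 : 0 ≤ ∫ s in (0 : ℝ)..t, flatG v v 0 s := by
    apply intervalIntegral.integral_nonneg_of_ae_restrict t0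
    rw [Filter.EventuallyLE, ae_restrict_iff' measurableSet_Icc]
    filter_upwards [flatG_ae v v 0] with s hs hs'
    obtain ⟨g1, g2, -, g4⟩ := hs
    rw [Pi.zero_apply, g4]
    have ec : cos (Real.pi * ((s : ℂ) + ((0 : ℝ) : ℂ) * I)) ^ 2 =
        ((Real.cos (Real.pi * s) ^ 2 : ℝ) : ℂ) := by
      have : (Real.pi : ℂ) * ((s : ℂ) + ((0 : ℝ) : ℂ) * I) = ((Real.pi * s : ℝ) : ℂ) := by
        push_cast; ring
      rw [this, ← ofReal_cos, ofReal_pow]
    rw [ec] at g2 ⊢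
    have hc := cos_sq_ge hs'.1 (hs'.2.trans t1)
    have hn := mid_norm (v := v) hc h
    have n2 := norm_pos_iff.mpr g2
    rw [sub_nonneg]
    apply Real.log_le_log (by positivity)
    rw [Complex.norm_real, Real.norm_of_nonneg (by positivity), sq (Real.cos (Real.pi * s) ^ 2)]
    exact mul_le_mul hn hn n2.le (by positivity)
  rw [← h1] at h2
  have e0 : (((0 : ℝ) : ℂ) + ((0 : ℝ) : ℂ) * I) = 0 := by simp
  have et : ((t : ℂ) + ((0 : ℝ) : ℂ) * I) = (t : ℂ) := by simp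
  rw [e0, et, EE, EE, se_zero_op] at h2
  -- reflection
  have h3 : se y (.op v) + se t (.op v) = 2 * (Real.pi * |v.im|) := by
    have a1 : Rf (-(t : ℂ) + 1 / 2) = -Rf ((t : ℂ) + 1 / 2) := by
      have := Rf_one_sub ((t : ℂ) + 1 / 2)
      have e : (1 : ℂ) - ((t : ℂ) + 1 / 2) = -(t : ℂ) + 1 / 2 := by ring
      rwa [e] at this
    have a2 : Rf (-(t : ℂ) - v) = -Rf ((t : ℂ) + v) - Real.pi * |v.im| := by
      have := Rf_neg ((t : ℂ) + v)
      have e : -((t : ℂ) + v) = -(t : ℂ) - v := by ring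
      rwa [e, add_im, ofReal_im, zero_add] at this
    have a3 : Rf (-(t : ℂ) + v) = -Rf ((t : ℂ) - v) - Real.pi * |v.im| := by
      have := Rf_neg ((t : ℂ) - v)
      have e : -((t : ℂ) - v) = -(t : ℂ) + v := by ring
      rwa [e, sub_im, ofReal_im, zero_sub, abs_neg] at this
    rw [ey]
    simp only [se]
    rw [a1, a2, a3]
    ring
  linarith

/-- The points of the limit contour satisfy the hypothesis of `se_mid`. -/
theorem G0_sinh (hθ : Ht θ) (hv : v ∈ G0 θ v1) :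
    Real.sinh (Real.pi * v.im) ^ 2 ≤ 3613 / 10000 * Real.cos (Real.pi * v.re) ^ 2 := by
  have ht := hθ.tan
  have hb : ∀ a : ℝ, Real.sinh (Real.pi * bl θ a) ^ 2 ≤
      3613 / 10000 * Real.cos (Real.pi * a) ^ 2 := by
    intro a
    rw [sinh_pi_bl, mul_pow]
    have : Real.tan θ ^ 2 ≤ 3613 / 10000 := by linarith
    exact mul_le_mul_of_nonneg_right this (sq_nonneg _)
  rcases hv with ⟨-, h⟩ | ⟨h1, h2, h3⟩ | ⟨-, -, h⟩
  · rw [h]; exact hb _
  · have e1 : Real.cos (Real.pi * v.re) = Real.cos (Real.pi * v1) := by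
      rw [← h1, ← Real.cos_abs, abs_mul, abs_of_pos Real.pi_pos]
    have e2 : Real.sinh (Real.pi * v.im) ≤ Real.sinh (Real.pi * bl θ v1) :=
      Real.sinh_le_sinh.2 (mul_le_mul_of_nonneg_left h3 Real.pi_pos.le)
    have e3 : 0 ≤ Real.sinh (Real.pi * v.im) :=
      Real.sinh_nonneg_iff.2 (mul_nonneg Real.pi_pos.le h2)
    rw [e1]
    exact (pow_le_pow_left₀ e3 e2 2).trans (hb v1)
  · rw [h, mul_zero, Real.sinh_zero]
    have := sq_nonneg (Real.cos (Real.pi * v.re))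
    linarith

/-- The comparison point on the line. -/
theorem pl_und (hθ : Ht θ) (hv1 : V1 v1) (hv : v ∈ G0 θ v1) (h0 : 0 ≤ v.re) :
    Und θ (pl θ v1 v) ∧ (pl θ v1 v).im = bl θ (pl θ v1 v).re ∧ v.im ≤ (pl θ v1 v).im ∧
      0 ≤ v.im := by
  have p0 := hv1.pos
  have p1 := hv1.le
  have e1 : max (-v1) (min v1 v.re) = min v1 v.re := by
    apply max_eq_right
    have : 0 ≤ min v1 v.re := le_min p0.le h0
    linarith
  have er : (pl θ v1 v).re = min v1 v.re := by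
    unfold pl; rw [e1]; simp
  have ei : (pl θ v1 v).im = bl θ (min v1 v.re) := by
    unfold pl; rw [e1]; simp
  have m0 : 0 ≤ min v1 v.re := le_min p0.le h0
  have m1 : min v1 v.re ≤ v1 := min_le_left _ _
  have bn : 0 ≤ bl θ (min v1 v.re) :=
    bl_nonneg hθ.pos.le hθ.lt (by rw [abs_of_nonneg m0]; linarith)
  have him : 0 ≤ v.im ∧ v.im ≤ bl θ (min v1 v.re) := by
    rcases hv with ⟨a, c⟩ | ⟨a, c, d⟩ | ⟨a, c, d⟩
    · rw [abs_of_nonneg h0] at a
      rw [min_eq_right a] at bn ⊢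
      rw [c]; exact ⟨bn, le_rfl⟩
    · rw [abs_of_nonneg h0] at a
      rw [a, min_self]
      exact ⟨c, d⟩
    · rw [d]; exact ⟨le_rfl, bn⟩
  refine ⟨⟨by rw [er]; exact m0, by rw [er]; linarith, by rw [ei]; exact bn, by rw [ei, er]⟩,
    by rw [ei, er], by rw [ei]; exact him.2, him.1⟩

/-- **The estimates at the ends and on the middle interval.** -/
theorem endAll (hΦ : IsPhi Φ) (h0 : Φ 0 0 = c00) (ho : OppHyp θ θ' xc xc')
    (hs : Split θ θ' xc xc' b b') (hc : 0 < xc) (hc' : 0 < xc') (hθ : Ht θ) (hθ' : Ht θ')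
    (hb : Real.pi / 2 - (qq (UU xc θ) (UU xc' (-θ'))).im ≤
      b * (43 / 50 + Real.pi * (gdv (UU xc θ)).re))
    (hb' : Real.pi / 2 - (qq (UU xc' θ') (UU xc (-θ))).im ≤
      b' * (43 / 50 + Real.pi * (gdv (UU xc' θ')).re))
    (hv1 : V1 v1) (hv1' : V1 v1') (hμ : μ ≤ Real.pi) (hμ' : μ' ≤ Real.pi) :
    EndAll Φ θ θ' xc xc' b b' v1 v1' μ μ' := by
  intro v w hv v0 hw w0
  obtain ⟨p1, p2, p3, p4⟩ := pl_und hθ hv1 hv v0
  obtain ⟨q1, q2, q3, q4⟩ := pl_und hθ' hv1' hw w0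
  have k := B0_line hΦ h0 ho hs hc hc' hθ hθ' hb hb' p1 p2 q1 q2
  have key : Real.pi * (v.im + w.im) < LM Φ θ θ' b b' xc xc' v1 v1' μ μ' v w := by
    rw [LM]
    have m1 := mul_le_mul_of_nonneg_right hμ (sub_nonneg.2 p3)
    have m2 := mul_le_mul_of_nonneg_right hμ' (sub_nonneg.2 q3)
    linarith
  refine ⟨key, fun y hy => lt_of_le_of_lt ?_ key⟩
  have s1 := se_mid (G0_sinh hθ hv) hy
  have s2 := se_mid (G0_sinh hθ' hw) hy
  rw [abs_of_nonneg p4] at s1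
  rw [abs_of_nonneg q4] at s2
  rw [EE]
  linarith

end

end Pool.Agent.S3
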