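import Pool.Agent.H63.VC3.Clausen
import Pool.Agent.S3.Defs

/-!
# Growth: the function `Rf`
-/

set_option autoImplicit false

namespace Pool.Agent.S3

open Pool.Agent.H63.VC3 Complex MeasureTheory Filter Topology Set

/-- The density of `Rf` on the horizontal line at height `η`. -/
noncomputable def Lg (η t : ℝ) : ℝ := Real.log ‖2 * sin (Real.pi * ((t : ℂ) + η * I))‖

theorem Rf_eq (z : ℂ) : Rf z = ∫ t in (1 / 2 : ℝ)..z.re, Lg z.im t := rfl

theorem Lg_integrable (η a b : ℝ) : IntervalIntegrable (Lg η) volume a b := by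
  unfold Lg
  apply MeromorphicOn.intervalIntegrable_log_norm (f := fun t : ℝ =>
    2 * sin (Real.pi * ((t : ℂ) + η * I)))
  intro t _
  apply AnalyticAt.meromorphicAt
  have h1 : AnalyticAt ℂ (fun z : ℂ => 2 * sin (Real.pi * (z + η * I))) (t : ℂ) := by fun_prop
  have h2 : AnalyticAt ℝ (fun t : ℝ => (t : ℂ)) t := Complex.ofRealCLM.analyticAt t
  exact AnalyticAt.fun_comp (g := fun z : ℂ => 2 * sin (Real.pi * (z + η * I)))
    (f := fun t : ℝ => (t : ℂ)) (h1.restrictScalars (𝕜 := ℝ)) h2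

theorem norm_sin_sq (a b : ℝ) :
    ‖sin ((a : ℂ) + b * I)‖ ^ 2 = Real.sin a ^ 2 + Real.sinh b ^ 2 := by
  rw [← normSq_eq_norm_sq, normSq_apply, sin_add_mul_I]
  have e1 : (sin (a : ℂ) * cosh (b : ℂ) + cos (a : ℂ) * sinh (b : ℂ) * I).re =
      Real.sin a * Real.cosh b := by
    rw [← ofReal_sin, ← ofReal_cosh, ← ofReal_cos, ← ofReal_sinh]
    simp only [add_re, mul_re, ofReal_re, ofReal_im, mul_zero, sub_zero, I_re, I_im, mul_one,
      mul_im, zero_mul, add_zero]
  have e2 : (sin (a : ℂ) * cosh (b : ℂ) + cos (a : ℂ) * sinh (b : ℂ) * I).im =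
      Real.cos a * Real.sinh b := by
    rw [← ofReal_sin, ← ofReal_cosh, ← ofReal_cos, ← ofReal_sinh]
    simp only [add_im, mul_re, ofReal_re, ofReal_im, mul_zero, sub_zero, I_re, I_im, mul_one,
      mul_im, zero_mul, add_zero, zero_add]
  rw [e1, e2]
  have h1 := Real.cosh_sq b
  have h2 := Real.sin_sq_add_cos_sq a
  linear_combination Real.sin a ^ 2 * h1 + Real.sinh b ^ 2 * h2

theorem norm_sin_pi_sq (t η : ℝ) : ‖sin (Real.pi * ((t : ℂ) + η * I))‖ ^ 2 =
    Real.sin (Real.pi * t) ^ 2 + Real.sinh (Real.pi * η) ^ 2 := by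
  rw [← norm_sin_sq]
  congr 3
  push_cast
  ring

theorem Lg_neg_im (η t : ℝ) : Lg (-η) t = Lg η t := by
  unfold Lg
  have h : ‖sin (Real.pi * ((t : ℂ) + ((-η : ℝ) : ℂ) * I))‖ =
      ‖sin (Real.pi * ((t : ℂ) + η * I))‖ := by
    rw [← sq_eq_sq₀ (norm_nonneg _) (norm_nonneg _), norm_sin_pi_sq, norm_sin_pi_sq, mul_neg,
      Real.sinh_neg, neg_sq]
  rw [norm_mul, norm_mul, h]

theorem Lg_neg (η t : ℝ) : Lg η (-t) = Lg η t := by
  unfold Lg
  have h : ‖sin (Real.pi * (((-t : ℝ) : ℂ) + η * I))‖ =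
      ‖sin (Real.pi * ((t : ℂ) + η * I))‖ := by
    rw [← sq_eq_sq₀ (norm_nonneg _) (norm_nonneg _), norm_sin_pi_sq, norm_sin_pi_sq, mul_neg,
      Real.sin_neg, neg_sq]
  rw [norm_mul, norm_mul, h]

theorem Lg_add_one (η t : ℝ) : Lg η (t + 1) = Lg η t := by
  unfold Lg
  have h : ‖sin (Real.pi * (((t + 1 : ℝ) : ℂ) + η * I))‖ =
      ‖sin (Real.pi * ((t : ℂ) + η * I))‖ := by
    rw [← sq_eq_sq₀ (norm_nonneg _) (norm_nonneg _), norm_sin_pi_sq, norm_sin_pi_sq, mul_add,
      mul_one, Real.sin_add_pi, neg_sq]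
  rw [norm_mul, norm_mul, h]

theorem sin_ne_of_ne {t η : ℝ} (h : η ≠ 0) : sin (Real.pi * ((t : ℂ) + η * I)) ≠ 0 := by
  intro h0
  have h1 := norm_sin_pi_sq t η
  rw [h0, norm_zero] at h1
  have h2 : Real.sinh (Real.pi * η) ≠ 0 := by
    rw [Ne, Real.sinh_eq_zero]
    exact mul_ne_zero Real.pi_ne_zero h
  have h3 : 0 < Real.sinh (Real.pi * η) ^ 2 := by positivity
  nlinarith [sq_nonneg (Real.sin (Real.pi * t))]

/-- The mean value of the density. -/
theorem Lg_mean (η : ℝ) : ∫ t in (0 : ℝ)..1, Lg η t = Real.pi * |η| := by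
  have h := circleAverage_log_norm_sub_const_eq_posLog (a := ((Real.exp (2 * Real.pi * η) : ℝ) : ℂ))
  have hp : ∀ t : ℝ, Real.log ‖circleMap 0 1 (2 * Real.pi * t) -
      ((Real.exp (2 * Real.pi * η) : ℝ) : ℂ)‖ = Lg η t + Real.pi * η := by
    intro t
    have e1 : circleMap 0 1 (2 * Real.pi * t) - ((Real.exp (2 * Real.pi * η) : ℝ) : ℂ) =
        exp (((Real.pi * η : ℝ) : ℂ)) * (exp (((Real.pi * t : ℝ) : ℂ) * I) *
          (I * (2 * sin (Real.pi * ((t : ℂ) + η * I))))) := by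
      have e2 : I * (2 * sin (Real.pi * ((t : ℂ) + η * I))) =
          exp (Real.pi * ((t : ℂ) + η * I) * I) - exp (-(Real.pi * ((t : ℂ) + η * I)) * I) := by
        rw [Complex.sin]
        linear_combination (exp (-(Real.pi * ((t : ℂ) + η * I)) * I) -
          exp (Real.pi * ((t : ℂ) + η * I) * I)) * I_sq
      rw [e2, mul_sub, mul_sub, ← exp_add, ← exp_add, ← exp_add, ← exp_add]
      unfold circleMap
      rw [ofReal_one, one_mul, zero_add, ofReal_exp]
      congr 1
      · congr 1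
        push_cast
        linear_combination (-(Real.pi : ℂ) * η) * I_sq
      · congr 1
        push_cast
        linear_combination ((Real.pi : ℂ) * η) * I_sq
    have e3 : ‖circleMap 0 1 (2 * Real.pi * t) - ((Real.exp (2 * Real.pi * η) : ℝ) : ℂ)‖ =
        Real.exp (Real.pi * η) * ‖2 * sin (Real.pi * ((t : ℂ) + η * I))‖ := by
      rw [e1, norm_mul, norm_mul, norm_exp_ofReal_mul_I, one_mul, norm_mul I, norm_I, one_mul,
        norm_exp, ofReal_re]
    rw [e3]
    unfold Lg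
    by_cases h0 : sin (Real.pi * ((t : ℂ) + η * I)) = 0
    · have hη : η = 0 := by
        by_contra hne
        exact sin_ne_of_ne hne h0
      rw [h0, hη]
      simp
    · have h1 : ‖2 * sin (Real.pi * ((t : ℂ) + η * I))‖ ≠ 0 := by
        rw [norm_ne_zero_iff]
        exact mul_ne_zero two_ne_zero h0
      rw [Real.log_mul (Real.exp_pos _).ne' h1, Real.log_exp]
      ring
  unfold Real.circleAverage at h
  have h2 : ∫ θ in (0 : ℝ)..2 * Real.pi, Real.log ‖circleMap 0 1 θ -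
      ((Real.exp (2 * Real.pi * η) : ℝ) : ℂ)‖ = 2 * Real.pi *
      ∫ t in (0 : ℝ)..1, (Lg η t + Real.pi * η) := by
    have h3 := intervalIntegral.integral_comp_mul_left (a := 0) (b := 1)
      (fun θ => Real.log ‖circleMap 0 1 θ - ((Real.exp (2 * Real.pi * η) : ℝ) : ℂ)‖)
      (c := 2 * Real.pi) (by positivity)
    rw [mul_zero, mul_one] at h3
    simp only [hp] at h3
    rw [h3, smul_eq_mul, ← mul_assoc, mul_inv_cancel₀ (by positivity), one_mul]
  rw [h2, smul_eq_mul, ← mul_assoc, inv_mul_cancel₀ (by positivity), one_mul,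
    intervalIntegral.integral_add (Lg_integrable η 0 1) (by simp)] at h
  rw [norm_real, Real.norm_eq_abs, Real.abs_exp] at h
  have h6 : Real.posLog (Real.exp (2 * Real.pi * η)) = max 0 (2 * Real.pi * η) := by
    rw [Real.posLog_def]
    change max 0 (Real.log (Real.exp (2 * Real.pi * η))) = _
    rw [Real.log_exp]
  rw [h6] at h
  simp only [intervalIntegral.integral_const, sub_zero, one_smul] at h
  have hpi := Real.pi_pos
  rcases le_total 0 η with h5 | h5
  · rw [abs_of_nonneg h5]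
    rw [max_eq_right (by positivity)] at h
    linarith
  · rw [abs_of_nonpos h5]
    rw [max_eq_left (by nlinarith)] at h
    linarith

theorem Lg_integral (η a b : ℝ) :
    ∫ t in a..b, Lg η t = Rf ((b : ℂ) + η * I) - Rf ((a : ℂ) + η * I) := by
  rw [Rf_eq, Rf_eq]
  have e1 : ∀ x : ℝ, ((x : ℂ) + η * I).re = x := fun x => by simp
  have e2 : ∀ x : ℝ, ((x : ℂ) + η * I).im = η := fun x => by simp
  rw [e1, e1, e2, e2, intervalIntegral.integral_interval_sub_left (Lg_integrable _ _ _)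
    (Lg_integrable _ _ _)]

theorem Lg_mean' (η a : ℝ) : ∫ t in a..a + 1, Lg η t = Real.pi * |η| := by
  have hp : Function.Periodic (Lg η) 1 := fun t => Lg_add_one η t
  have h := hp.intervalIntegral_add_eq a 0
  rw [h, zero_add, Lg_mean]

theorem Rf_add_one (z : ℂ) : Rf (z + 1) = Rf z + Real.pi * |z.im| := by
  rw [Rf_eq, Rf_eq]
  have e1 : (z + 1).re = z.re + 1 := by simp
  have e2 : (z + 1).im = z.im := by simp
  rw [e1, e2, ← Lg_mean' z.im z.re,
    intervalIntegral.integral_add_adjacent_intervals (Lg_integrable _ _ _) (Lg_integrable _ _ _)]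

theorem Rf_conj (z : ℂ) : Rf ((starRingEnd ℂ) z) = Rf z := by
  rw [Rf_eq, Rf_eq, conj_re, conj_im]
  simp only [Lg_neg_im]

theorem Rf_neg (z : ℂ) : Rf (-z) = -Rf z - Real.pi * |z.im| := by
  rw [Rf_eq, Rf_eq, neg_re, neg_im]
  simp only [Lg_neg_im]
  have h1 : ∫ t in (1 / 2 : ℝ)..-z.re, Lg z.im t = -∫ t in (-(1 / 2) : ℝ)..z.re, Lg z.im t := by
    have h2 := intervalIntegral.integral_comp_neg (a := -(1 / 2 : ℝ)) (b := z.re)
      (fun t => Lg z.im t)
    simp only [Lg_neg, neg_neg] at h2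
    rw [h2, ← intervalIntegral.integral_symm]
  have h3 := Lg_mean' z.im (-(1 / 2))
  rw [show -(1 / 2 : ℝ) + 1 = 1 / 2 by norm_num] at h3
  rw [h1, ← h3, ← intervalIntegral.integral_add_adjacent_intervals
    (Lg_integrable z.im (-(1 / 2)) (1 / 2)) (Lg_integrable z.im (1 / 2) z.re)]
  ring

theorem Rf_sub_one (z : ℂ) : Rf (z - 1) = Rf z - Real.pi * |z.im| := by
  have h := Rf_add_one (z - 1)
  rw [sub_add_cancel, sub_im, one_im, sub_zero] at h
  linarith

theorem Rf_one_sub (z : ℂ) : Rf (1 - z) = -Rf z := by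
  have h := Rf_add_one (-z)
  rw [Rf_neg, neg_im, abs_neg] at h
  rw [show 1 - z = -z + 1 by ring, h]
  ring

theorem Rf_half (η : ℝ) : Rf ((1 / 2 : ℝ) + η * I) = 0 := by
  rw [Rf_eq]
  have e1 : (((1 / 2 : ℝ) : ℂ) + η * I).re = 1 / 2 := by simp
  rw [e1, intervalIntegral.integral_same]

theorem Rf_hasDerivAt {t η : ℝ} (h : sin (Real.pi * ((t : ℂ) + η * I)) ≠ 0) :
    HasDerivAt (fun t : ℝ => Rf ((t : ℂ) + η * I))
      (Real.log ‖2 * sin (Real.pi * ((t : ℂ) + η * I))‖) t := by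
  have e : (fun t : ℝ => Rf ((t : ℂ) + η * I)) = fun t => ∫ s in (1 / 2 : ℝ)..t, Lg η s := by
    funext x
    rw [Rf_eq]
    have e1 : ((x : ℂ) + η * I).re = x := by simp
    have e2 : ((x : ℂ) + η * I).im = η := by simp
    rw [e1, e2]
  rw [e]
  have hm : Measurable (Lg η) := by
    unfold Lg
    apply Measurable.log
    apply Measurable.norm
    have : Continuous fun t : ℝ => 2 * sin (Real.pi * ((t : ℂ) + η * I)) := by fun_prop
    exact this.measurable
  refine intervalIntegral.integral_hasDerivAt_right (Lg_integrable _ _ _)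
    hm.stronglyMeasurable.stronglyMeasurableAtFilter ?_
  unfold Lg
  apply ContinuousAt.log
  · fun_prop
  · rw [norm_ne_zero_iff]
    exact mul_ne_zero two_ne_zero h

/-- `Rf` is the real part of `ff`. -/
theorem Rf_eq_ff {z : ℂ} (h0 : 0 < z.re) (h1 : z.re < 1) : Rf z = (ff z).re := by
  have hhalf : (ff ((1 / 2 : ℝ) + z.im * I)).re = 0 := by
    have h2 := ff_reflect (((1 / 2 : ℝ) : ℂ) + z.im * I)
    have h3 : (1 : ℂ) - (((1 / 2 : ℝ) : ℂ) + z.im * I) =
        (starRingEnd ℂ) (((1 / 2 : ℝ) : ℂ) + z.im * I) := by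
      rw [map_add, map_mul, conj_ofReal, conj_ofReal, conj_I]
      push_cast
      ring
    rw [h3, ff_conj] at h2
    have h4 := congrArg Complex.re h2
    rw [conj_re, neg_re] at h4
    linarith
  have hd : ∀ t ∈ uIcc (1 / 2 : ℝ) z.re, HasDerivAt (fun t : ℝ => (ff ((t : ℂ) + z.im * I)).re)
      (Lg z.im t) t := by
    intro t ht
    have ht' : 0 < t ∧ t < 1 := by
      rw [mem_uIcc] at ht
      rcases ht with ⟨a, b⟩ | ⟨a, b⟩
      · exact ⟨by linarith, by linarith⟩
      · exact ⟨by linarith, by linarith⟩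
    have e1 : ((t : ℂ) + z.im * I).re = t := by simp
    have h2 := ff_hasDerivAt ((t : ℂ) + z.im * I) (by rw [e1]; exact ht'.1) (by
      rw [e1]; exact ht'.2)
    have h3 : HasDerivAt (fun t : ℝ => (t : ℂ) + z.im * I) 1 t := by
      have := (Complex.ofRealCLM.hasDerivAt (x := t)).add_const (z.im * I : ℂ)
      simpa using this
    have h4 := HasDerivAt.comp t h2 h3
    have h5 := (Complex.reCLM.hasFDerivAt.comp_hasDerivAt t h4)
    refine h5.congr_deriv ?_
    rw [mul_one]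
    unfold hh Lg
    rw [reCLM_apply, log_re]
  have h2 := intervalIntegral.integral_eq_sub_of_hasDerivAt hd (Lg_integrable _ _ _)
  rw [Rf_eq, h2, hhalf, sub_zero, re_add_im]

/-! ### Continuity -/

theorem norm_sin_ge (t η : ℝ) : |Real.sin (Real.pi * t)| ≤
    ‖sin (Real.pi * ((t : ℂ) + η * I))‖ := by
  apply (sq_le_sq₀ (abs_nonneg _) (norm_nonneg _)).mp
  rw [norm_sin_pi_sq, sq_abs]
  nlinarith [sq_nonneg (Real.sinh (Real.pi * η))]

theorem norm_sin_le (t η : ℝ) : ‖sin (Real.pi * ((t : ℂ) + η * I))‖ ≤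
    Real.cosh (Real.pi * η) := by
  apply (sq_le_sq₀ (norm_nonneg _) (Real.cosh_pos _).le).mp
  rw [norm_sin_pi_sq, Real.cosh_sq]
  nlinarith [Real.sin_sq_le_one (Real.pi * t)]

theorem cosh_le_exp_abs (x : ℝ) : Real.cosh x ≤ Real.exp |x| := by
  rw [← Real.cosh_abs, Real.cosh_eq]
  have : Real.exp (-|x|) ≤ Real.exp |x| := Real.exp_le_exp.2 (by linarith [abs_nonneg x])
  linarith

/-- The density is dominated. -/
theorem Lg_abs_le {t : ℝ} (η : ℝ) (h : Real.sin (Real.pi * t) ≠ 0) :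
    |Lg η t| ≤ |Lg 0 t| + (Real.log 2 + Real.pi * |η|) := by
  have hl2 := Real.log_pos (one_lt_two)
  have h0 : 0 < |Real.sin (Real.pi * t)| := abs_pos.mpr h
  have h1 : Lg 0 t ≤ Lg η t := by
    unfold Lg
    have e : ‖2 * sin (Real.pi * ((t : ℂ) + ((0 : ℝ) : ℂ) * I))‖ =
        2 * |Real.sin (Real.pi * t)| := by
      have := norm_sin_pi_sq t 0
      rw [mul_zero, Real.sinh_zero] at this
      have h2 : ‖sin (Real.pi * ((t : ℂ) + ((0 : ℝ) : ℂ) * I))‖ = |Real.sin (Real.pi * t)| := by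
        rw [← sq_eq_sq₀ (norm_nonneg _) (abs_nonneg _), this, sq_abs]
        ring
      rw [norm_mul, h2, norm_ofNat]
    rw [e, norm_mul, norm_ofNat]
    apply Real.log_le_log (by positivity)
    exact mul_le_mul_of_nonneg_left (norm_sin_ge t η) (by norm_num)
  have h2 : Lg η t ≤ Real.log 2 + Real.pi * |η| := by
    unfold Lg
    have h3 := norm_sin_ge t η
    rw [norm_mul, norm_ofNat, Real.log_mul (by norm_num) (by linarith)]
    have h4 : Real.log ‖sin (Real.pi * ((t : ℂ) + η * I))‖ ≤ Real.pi * |η| := by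
      rw [Real.log_le_iff_le_exp (by linarith)]
      refine (norm_sin_le t η).trans ?_
      have := cosh_le_exp_abs (Real.pi * η)
      rwa [abs_mul, abs_of_pos Real.pi_pos] at this
    linarith
  have h3 : 0 ≤ Real.pi * |η| := by positivity
  rw [abs_le]
  constructor
  · have := neg_abs_le (Lg 0 t)
    linarith
  · have := abs_nonneg (Lg 0 t)
    linarith

theorem sin_ne_ae : ∀ᵐ t : ℝ, Real.sin (Real.pi * t) ≠ 0 := by
  have hc : (Set.range fun n : ℤ => (n : ℝ)).Countable := Set.countable_range _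
  filter_upwards [hc.ae_notMem volume] with t ht h0
  apply ht
  rw [Real.sin_eq_zero_iff] at h0
  obtain ⟨n, hn⟩ := h0
  refine ⟨n, ?_⟩
  have hpi := Real.pi_pos
  have : Real.pi * (n : ℝ) = Real.pi * t := by linarith
  exact mul_left_cancel₀ hpi.ne' this

theorem Lg_measurable (η : ℝ) : Measurable (Lg η) := by
  unfold Lg
  apply Measurable.log
  apply Measurable.norm
  have : Continuous fun t : ℝ => 2 * sin (Real.pi * ((t : ℂ) + η * I)) := by fun_prop
  exact this.measurable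

/-- `Rf` is continuous. -/
theorem Rf_continuous : Continuous Rf := by
  rw [continuous_iff_continuousAt]
  intro z₀
  set K : ℝ := Real.log 2 + Real.pi * (|z₀.im| + 1) with hK
  have hl2 := Real.log_pos (one_lt_two)
  have hpi := Real.pi_pos
  have hK0 : 0 < K := by positivity
  -- the dominating function
  have hbi : ∀ a b : ℝ, IntervalIntegrable (fun t => |Lg 0 t| + K) volume a b := fun a b =>
    (Lg_integrable 0 a b).abs.add (by simp)
  have hev : ∀ᶠ z : ℂ in 𝓝 z₀, |z.im| ≤ |z₀.im| + 1 := by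
    have h1 : ContinuousAt (fun z : ℂ => |z.im|) z₀ := by fun_prop
    exact (h1.eventually (Iio_mem_nhds (show |z₀.im| < |z₀.im| + 1 by linarith))).mono
      fun z hz => hz.le
  have hdom : ∀ z : ℂ, |z.im| ≤ |z₀.im| + 1 → ∀ᵐ t : ℝ, |Lg z.im t| ≤ |Lg 0 t| + K := by
    intro z hz
    filter_upwards [sin_ne_ae] with t ht
    refine (Lg_abs_le z.im ht).trans ?_
    rw [hK]
    have : Real.pi * |z.im| ≤ Real.pi * (|z₀.im| + 1) := mul_le_mul_of_nonneg_left hz hpi.le
    linarith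
  -- fixed end points
  have c1 : ContinuousAt (fun z : ℂ => ∫ t in (1 / 2 : ℝ)..z₀.re, Lg z.im t) z₀ := by
    refine intervalIntegral.continuousAt_of_dominated_interval (bound := fun t => |Lg 0 t| + K)
      ?_ ?_ (hbi _ _) ?_
    · exact Eventually.of_forall fun z => (Lg_measurable z.im).aestronglyMeasurable
    · filter_upwards [hev] with z hz
      filter_upwards [hdom z hz] with t ht _
      exact ht
    · filter_upwards [sin_ne_ae] with t ht _
      unfold Lg
      apply ContinuousAt.log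
      · fun_prop
      · rw [norm_ne_zero_iff]
        refine mul_ne_zero two_ne_zero ?_
        rw [← norm_pos_iff]
        exact (abs_pos.mpr ht).trans_le (norm_sin_ge t z₀.im)
  -- moving end point
  have c2 : Tendsto (fun z : ℂ => ∫ t in z₀.re..z.re, Lg z.im t) (𝓝 z₀) (𝓝 0) := by
    have hprim : Continuous fun x : ℝ => ∫ t in z₀.re..x, (|Lg 0 t| + K) :=
      intervalIntegral.continuous_primitive (fun a b => hbi a b) z₀.re
    have h1 : Tendsto (fun z : ℂ => |∫ t in z₀.re..z.re, (|Lg 0 t| + K)|) (𝓝 z₀) (𝓝 0) := by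
      have h2 : Tendsto (fun z : ℂ => |∫ t in z₀.re..z.re, (|Lg 0 t| + K)|) (𝓝 z₀)
          (𝓝 |∫ t in z₀.re..z₀.re, (|Lg 0 t| + K)|) :=
        ((hprim.comp continuous_re).abs.tendsto z₀)
      rwa [intervalIntegral.integral_same, abs_zero] at h2
    refine squeeze_zero_norm' ?_ h1
    filter_upwards [hev] with z hz
    exact intervalIntegral.norm_integral_le_abs_of_norm_le
      (ae_restrict_of_ae (hdom z hz)) (hbi _ _)
  have e : Rf = fun z : ℂ => (∫ t in (1 / 2 : ℝ)..z₀.re, Lg z.im t) +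
      ∫ t in z₀.re..z.re, Lg z.im t := by
    funext z
    rw [Rf_eq, intervalIntegral.integral_add_adjacent_intervals (Lg_integrable _ _ _)
      (Lg_integrable _ _ _)]
  have h3 := c1.tendsto.add c2
  rw [add_zero] at h3
  have h4 : Rf z₀ = ∫ t in (1 / 2 : ℝ)..z₀.re, Lg z₀.im t := rfl
  rw [ContinuousAt, h4]
  nth_rewrite 1 [e]
  exact h3

end Pool.Agent.S3
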