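import Pool.Agent.H63.VC3.LLfun
import Pool.Agent.S3.Gr1

/-!
# Growth: `LL` and `Rf`
-/

set_option autoImplicit false

namespace Pool.Agent.S3

open Pool.Agent.H63.VC3 Complex MeasureTheory Filter Topology Set

theorem sinh_le_mul_cosh {x : ℝ} (hx : 0 ≤ x) : Real.sinh x ≤ x * Real.cosh x := by
  have hd : ∀ y : ℝ, HasDerivAt (fun y : ℝ => y * Real.cosh y - Real.sinh y)
      (y * Real.sinh y) y := by
    intro y
    have h := ((hasDerivAt_id y).mul (Real.hasDerivAt_cosh y)).sub (Real.hasDerivAt_sinh y)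
    refine h.congr_deriv ?_
    simp
  have hm : MonotoneOn (fun y : ℝ => y * Real.cosh y - Real.sinh y) (Set.Ici 0) := by
    refine monotoneOn_of_deriv_nonneg (convex_Ici 0)
      (fun y _ => (hd y).continuousAt.continuousWithinAt)
      (fun y _ => (hd y).differentiableAt.differentiableWithinAt) fun y hy => ?_
    rw [interior_Ici, Set.mem_Ioi] at hy
    rw [(hd y).deriv]
    exact mul_nonneg hy.le (Real.sinh_nonneg_iff.2 hy.le)
  have := hm (Set.mem_Ici.2 le_rfl) (Set.mem_Ici.2 hx) hx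
  simp only [zero_mul, Real.sinh_zero, sub_zero] at this
  linarith only [this]

theorem inv_sinh_sub {x : ℝ} (hx : 0 < x) : |1 / Real.sinh x - 1 / x| ≤ x / 2 := by
  have hs : 0 < Real.sinh x := Real.sinh_pos_iff.2 hx
  have h1 : x ≤ Real.sinh x := Real.self_le_sinh_iff.2 hx.le
  have h3 : Real.sinh (x / 2) ≤ x / 2 * Real.cosh (x / 2) := sinh_le_mul_cosh (by linarith only [hx])
  have h4 : Real.cosh x - 1 = 2 * Real.sinh (x / 2) ^ 2 := by
    have := Real.cosh_two_mul (x / 2)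
    have e := Real.cosh_sq (x / 2)
    rw [show 2 * (x / 2) = x by ring] at this
    linarith only [e, this]
  have h5 : Real.sinh x = 2 * Real.sinh (x / 2) * Real.cosh (x / 2) := by
    have := Real.sinh_two_mul (x / 2)
    rwa [show 2 * (x / 2) = x by ring] at this
  have hs2 : 0 ≤ Real.sinh (x / 2) := Real.sinh_nonneg_iff.2 (by linarith only [hx])
  have h2 : Real.sinh x ≤ x * Real.cosh x := sinh_le_mul_cosh hx.le
  have h6 : Real.cosh x - 1 ≤ x / 2 * Real.sinh x := by
    rw [h4, h5]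
    linarith only [mul_nonneg (sub_nonneg.2 h3) (sub_nonneg.2 hs2)]
  have h7 : Real.sinh x - x ≤ x * (x / 2 * Real.sinh x) := by linarith only [h2,
                                                                mul_nonneg (sub_nonneg.2 hx.le) (sub_nonneg.2 h6)]
  rw [abs_sub_comm, abs_of_nonneg]
  · rw [div_sub_div _ _ hx.ne' hs.ne', div_le_div_iff₀ (by positivity) (by norm_num)]
    linarith only [h7]
  · rw [sub_nonneg]
    exact one_div_le_one_div_of_le hx h1

theorem inv_sinh_sub' {x : ℝ} (hx : 0 < x) : |1 / Real.sinh x - 1 / x| ≤ 1 / x := by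
  have hs : 0 < Real.sinh x := Real.sinh_pos_iff.2 hx
  have h1 : x ≤ Real.sinh x := Real.self_le_sinh_iff.2 hx.le
  have h2 := one_div_le_one_div_of_le hx h1
  have h3 : 0 < 1 / Real.sinh x := by positivity
  rw [abs_sub_comm, abs_of_nonneg (by linarith only [h2])]
  linarith only [h3]

/-- The bound of the integrand. -/
theorem kernel_bound {M t : ℝ} (hM : 0 < M) (ht : 0 < t) :
    |1 / Real.sinh (t / M) - 1 / (t / M)| / (2 * t) ≤ (1 / M) * (1 + (t / M) ^ 2)⁻¹ := by
  have hx : 0 < t / M := by positivity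
  set x := t / M with hxd
  have ht' : t = M * x := by rw [hxd]; field_simp
  rw [ht', ← one_div, div_le_iff₀ (by positivity)]
  have e : 1 / M * (1 / (1 + x ^ 2)) * (2 * (M * x)) = 2 * x / (1 + x ^ 2) := by
    field_simp
  rw [e]
  rcases le_total x 1 with h | h
  · refine (inv_sinh_sub hx).trans ?_
    rw [div_le_div_iff₀ (by norm_num) (by positivity)]
    linarith only [hx, mul_nonneg (sub_nonneg.2 hx.le) (sub_nonneg.2 h),
      mul_nonneg (mul_self_nonneg (x)) (sub_nonneg.2 h)]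
  · refine (inv_sinh_sub' hx).trans ?_
    rw [div_le_div_iff₀ hx (by positivity)]
    (refine le_of_not_gt fun hng => ?_; linarith only [ht',
      mul_nonneg (sub_nonneg.2 hx.le) (sub_nonneg.2 ht'.le),
      mul_nonneg (sub_nonneg.2 hx.le) (sub_nonneg.2 ht'.ge),
      mul_nonneg (sub_nonneg.2 ht.le) (sub_nonneg.2 h),
      mul_nonneg (sub_nonneg.2 hM.le) (sub_nonneg.2 h), mul_pos (sub_pos.2 hng) (sub_pos.2 hM)])

theorem integral_kernel {M : ℝ} (hM : 0 < M) :
    IntegrableOn (fun t : ℝ => (1 / M) * (1 + (t / M) ^ 2)⁻¹) (Ioi 0) ∧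
      ∫ t in Ioi (0 : ℝ), (1 / M) * (1 + (t / M) ^ 2)⁻¹ ≤ 2 := by
  have h1 : Integrable fun t : ℝ => (1 + t ^ 2)⁻¹ := integrable_inv_one_add_sq
  have h2 : Integrable fun t : ℝ => (1 + (t / M) ^ 2)⁻¹ := h1.comp_div hM.ne'
  refine ⟨(h2.const_mul _).integrableOn, ?_⟩
  rw [integral_const_mul]
  have h3 := integral_comp_mul_left_Ioi (fun t : ℝ => (1 + t ^ 2)⁻¹) 0
    (show 0 < M⁻¹ by positivity)
  have h4 : ∀ t : ℝ, M⁻¹ * t = t / M := fun t => by rw [div_eq_inv_mul]
  simp only [h4] at h3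
  rw [h3, zero_div, integral_Ioi_inv_one_add_sq, Real.arctan_zero, sub_zero, inv_inv, smul_eq_mul,
    ← mul_assoc, one_div, inv_mul_cancel₀ hM.ne', one_mul]
  linarith only [Real.pi_le_four]

/-- The comparison in the open strip. -/
theorem LL_Rf_open {M : ℕ} (hM : 1 ≤ M) {ζ : ℂ} (h0 : 0 < ζ.re) (h1 : ζ.re < 1) :
    |(LL M (M * ζ - 1 / 2)).re - Real.log M / 2 - M * Rf ζ| ≤ 2 := by
  have hM0 : (0 : ℝ) < M := by exact_mod_cast hM
  have hMc : (M : ℂ) ≠ 0 := by exact_mod_cast hM0.ne'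
  have hre : ((M : ℂ) * ζ - 1 / 2).re = M * ζ.re - 1 / 2 := by simp
  have hs0 : -1 < ((M : ℂ) * ζ - 1 / 2).re := by
    rw [hre]
    have : 0 < M * ζ.re := by positivity
    linarith only [this, h1, h0]
  have hs1 : ((M : ℂ) * ζ - 1 / 2).re < M := by
    rw [hre]
    nlinarith
  have i1 := LL_integrable M (by omega) _ hs0 hs1
  have i2 := ff_integrable ζ h0 h1
  have e0 : LL M (M * ζ - 1 / 2) - Real.log M / 2 - M * ff ζ =
      ∫ t in Set.Ioi (0 : ℝ), ((Complex.sinh ((M - 2 * ((M : ℂ) * ζ - 1 / 2) - 1) * t / M) /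
        (2 * Complex.sinh (t / M)) + ((M : ℂ) * ζ - 1 / 2) - (M - 1) / 2) /
        (t * Complex.sinh t) - M * ((Complex.sinh ((1 - 2 * ζ) * t) / (2 * t) - (1 - 2 * ζ) / 2) /
        (t * Complex.sinh t))) := by
    rw [MeasureTheory.integral_sub i1 (i2.const_mul _), MeasureTheory.integral_const_mul]
    unfold LL ff
    ring
  have e1 : (LL M (M * ζ - 1 / 2)).re - Real.log M / 2 - M * Rf ζ =
      (LL M (M * ζ - 1 / 2) - Real.log M / 2 - M * ff ζ).re := by
    rw [Rf_eq_ff h0 h1, sub_re, sub_re, ← ofReal_natCast, re_ofReal_mul, ofReal_natCast]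
    rw [show ((Real.log M : ℝ) : ℂ) / 2 = ((Real.log M / 2 : ℝ) : ℂ) by push_cast; ring,
      ofReal_re]
  have i3 := i1.sub (i2.const_mul (M : ℂ))
  rw [e1, e0, ← reCLM_apply]
  have e6 := reCLM.integral_comp_comm i3
  simp only [Pi.sub_apply] at e6
  rw [← e6, ← Real.norm_eq_abs]
  obtain ⟨k1, k2⟩ := integral_kernel hM0
  refine (norm_integral_le_of_norm_le k1 ?_).trans k2
  refine (ae_restrict_iff' measurableSet_Ioi).2 (Filter.Eventually.of_forall ?_)
  intro t ht
  rw [Set.mem_Ioi] at ht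
  have hx : 0 < t / M := div_pos ht hM0
  have hsx : 0 < Real.sinh (t / M) := Real.sinh_pos_iff.2 hx
  have hst : 0 < Real.sinh t := Real.sinh_pos_iff.2 ht
  have hsxc : Complex.sinh ((t : ℂ) / M) = ((Real.sinh (t / M) : ℝ) : ℂ) := by
    push_cast; rfl
  have hstc : Complex.sinh (t : ℂ) = ((Real.sinh t : ℝ) : ℂ) := by
    push_cast; rfl
  have htc : (t : ℂ) ≠ 0 := by exact_mod_cast ht.ne'
  have hsxc0 : ((Real.sinh (t / M) : ℝ) : ℂ) ≠ 0 := by exact_mod_cast hsx.ne'
  have hstc0 : ((Real.sinh t : ℝ) : ℂ) ≠ 0 := by exact_mod_cast hst.ne'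
  have e2 : ((Complex.sinh ((M - 2 * ((M : ℂ) * ζ - 1 / 2) - 1) * t / M) /
        (2 * Complex.sinh (t / M)) + ((M : ℂ) * ζ - 1 / 2) - (M - 1) / 2) /
        (t * Complex.sinh t) - M * ((Complex.sinh ((1 - 2 * ζ) * t) / (2 * t) - (1 - 2 * ζ) / 2) /
        (t * Complex.sinh t))) =
      (((1 / Real.sinh (t / M) - 1 / (t / M)) / (2 * t) / Real.sinh t : ℝ) : ℂ) *
        Complex.sinh ((1 - 2 * ζ) * t) := by
    have e3 : ((M : ℂ) - 2 * ((M : ℂ) * ζ - 1 / 2) - 1) * t / M = (1 - 2 * ζ) * t := by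
      field_simp
      ring
    rw [e3, hsxc, hstc]
    push_cast
    have hsxc' : Complex.sinh ((t : ℂ) / M) ≠ 0 := by rw [hsxc]; exact hsxc0
    have hstc' : Complex.sinh (t : ℂ) ≠ 0 := by rw [hstc]; exact hstc0
    field_simp
    ring
  rw [e2, reCLM_apply, re_ofReal_mul, norm_mul, Real.norm_eq_abs, Real.norm_eq_abs]
  have e4 : |(Complex.sinh ((1 - 2 * ζ) * t)).re| ≤ Real.sinh t := by
    have e5 : (1 - 2 * ζ) * t = (((1 - 2 * ζ.re) * t : ℝ) : ℂ) +
        ((-(2 * ζ.im) * t : ℝ) : ℂ) * I := by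
      conv_lhs => rw [← re_add_im ζ]
      push_cast
      ring
    rw [e5, sinh_add, cosh_mul_I, sinh_mul_I, ← ofReal_sinh, ← ofReal_cos, ← ofReal_cosh,
      ← ofReal_sin]
    simp only [add_re, mul_re, ofReal_re, ofReal_im, mul_zero, sub_zero, I_re, I_im, mul_one,
      mul_im, zero_mul, add_zero, zero_add]
    rw [abs_mul]
    have h2 : |Real.sinh ((1 - 2 * ζ.re) * t)| ≤ Real.sinh t := by
      rw [Real.abs_sinh]
      apply Real.sinh_le_sinh.mpr
      rw [abs_mul, abs_of_pos ht]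
      have : |1 - 2 * ζ.re| ≤ 1 := by
        rw [abs_le]
        constructor <;> linarith
      (refine le_of_not_gt fun hng => ?_; linarith only [mul_nonneg (sub_nonneg.2 ht.le) (sub_nonneg.2 this),
        mul_pos (sub_pos.2 hng) (sub_pos.2 h1), mul_pos (sub_pos.2 hng) (sub_pos.2 h0)])
    calc |Real.sinh ((1 - 2 * ζ.re) * t)| * |Real.cos (-(2 * ζ.im) * t)|
        ≤ Real.sinh t * 1 := by
          apply mul_le_mul h2 (Real.abs_cos_le_one _) (abs_nonneg _) hst.le
      _ = Real.sinh t := mul_one _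
  have hk := kernel_bound hM0 ht
  rw [abs_div, abs_of_pos hst, abs_div, abs_of_pos (show 0 < 2 * t by linarith only [ht])]
  calc |1 / Real.sinh (t / M) - 1 / (t / M)| / (2 * t) / Real.sinh t *
        |(Complex.sinh ((1 - 2 * ζ) * t)).re|
      ≤ |1 / Real.sinh (t / M) - 1 / (t / M)| / (2 * t) / Real.sinh t * Real.sinh t := by
        gcongr
    _ = |1 / Real.sinh (t / M) - 1 / (t / M)| / (2 * t) := by field_simp
    _ ≤ _ := hk

/-- The comparison in the closed strip. -/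
theorem LL_Rf {M : ℕ} (hM : 1 ≤ M) {z : ℂ} (h0 : -1 / 2 ≤ z.re) (h1 : z.re ≤ M - 1 / 2) :
    |(LL M z).re - Real.log M / 2 - M * Rf ((z + 1 / 2) / M)| ≤ 2 := by
  have hM0 : (0 : ℝ) < M := by exact_mod_cast hM
  have hMc : (M : ℂ) ≠ 0 := by exact_mod_cast hM0.ne'
  -- the path to the centre
  set p : ℝ → ℂ := fun s => z + s * (((M : ℂ) - 1) / 2 - z) with hp
  have hpc : Continuous p := by
    rw [hp]
    fun_prop
  have hpre : ∀ s : ℝ, (p s).re = (1 - s) * z.re + s * ((M - 1) / 2) := by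
    intro s
    have e : p s = (((1 - s : ℝ) : ℂ)) * z + ((s * ((M - 1) / 2) : ℝ) : ℂ) := by
      rw [hp]
      push_cast
      ring
    rw [e, add_re, re_ofReal_mul, ofReal_re]
  have hp0 : p 0 = z := by rw [hp]; simp
  have hf : ContinuousAt (fun s : ℝ => |(LL M (p s)).re - Real.log M / 2 -
      M * Rf ((p s + 1 / 2) / M)|) 0 := by
    have c1 : ContinuousAt (fun s : ℝ => LL M (p s)) 0 := by
      refine ContinuousAt.comp (g := LL M) (f := p) ?_ hpc.continuousAt
      rw [hp0]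
      exact (LL_differentiableAt M (by omega) z (by linarith only [h0]) (by linarith only [h1])).continuousAt
    have c2 : Continuous fun s : ℝ => Rf ((p s + 1 / 2) / M) :=
      Rf_continuous.comp ((hpc.add continuous_const).div_const _)
    exact (((continuous_re.continuousAt.comp c1).sub continuousAt_const).sub
      (continuousAt_const.mul c2.continuousAt)).abs
  have hlim : Tendsto (fun s : ℝ => |(LL M (p s)).re - Real.log M / 2 -
      M * Rf ((p s + 1 / 2) / M)|) (𝓝[>] 0)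
      (𝓝 |(LL M z).re - Real.log M / 2 - M * Rf ((z + 1 / 2) / M)|) := by
    have := hf.tendsto
    rw [hp0] at this
    exact this.mono_left nhdsWithin_le_nhds
  refine le_of_tendsto hlim ?_
  have hev : ∀ᶠ s : ℝ in 𝓝[>] 0, s < 1 :=
    (tendsto_id.mono_left nhdsWithin_le_nhds).eventually (Iio_mem_nhds one_pos)
  filter_upwards [self_mem_nhdsWithin, hev] with s hs hs1
  rw [Set.mem_Ioi] at hs
  have hζ : (M : ℂ) * ((p s + 1 / 2) / M) - 1 / 2 = p s := by
    field_simp
    ring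
  have hre : ((p s + 1 / 2) / (M : ℂ)).re = ((p s).re + 1 / 2) / M := by
    rw [Complex.div_natCast_re, add_re]
    norm_num
  have hlow : 0 < ((p s + 1 / 2) / (M : ℂ)).re := by
    rw [hre, hpre]
    apply div_pos _ hM0
    nlinarith
  have hup : ((p s + 1 / 2) / (M : ℂ)).re < 1 := by
    rw [hre, hpre, div_lt_one hM0]
    nlinarith
  have := LL_Rf_open hM hlow hup
  rwa [hζ] at this

end Pool.Agent.S3
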