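import Pool.Agent.S3.Dmain

/-!
# Stage 3: the main inequality at an edge whose other vertex is a closed end `c = 2` (opposite sign)

The elimination of the end vertex `w` (`cosh² w = -2 i cosh u`) gives `q(u) = u/2 + (i/2) gd u`.
`D(x) = Re [Φ - Φ_c + 2Q (g - g_c)/π] - Re [i b (g - g_c)²/π]` is negative except at `x = xc`.
-/

namespace Pool.Agent.S3

open Complex

/-- `q(u)` at a closed end -/
noncomputable def qcl (u : ℂ) : ℂ := u / 2 + I / 2 * gd u

/-- The relation with the two variable function: if `cosh² w = -2 i cosh u` then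
`sinh (qcl u) = sinh u / cosh w` up to sign. -/
theorem sinh_qcl_sq {u w : ℂ} (h : |u.im| < Real.pi / 2) (hw : cosh w ^ 2 = -2 * I * cosh u) :
    sinh (qcl u) ^ 2 = (sinh u / cosh w) ^ 2 := by
  have hc := cosh_ne h
  have hI : I ≠ 0 := I_ne_zero
  have e1 : exp (2 * qcl u) = exp u * ((1 + I * sinh u) / cosh u) := by
    rw [qcl, show 2 * (u / 2 + I / 2 * gd u) = u + I * gd u by ring, exp_add, exp_gd h]
  have e2 : exp (-(2 * qcl u)) = exp (-u) * ((1 - I * sinh u) / cosh u) := by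
    rw [qcl, show -(2 * (u / 2 + I / 2 * gd u)) = -u + -(I * gd u) by ring, exp_add,
      exp_neg_gd h]
  have e3 : sinh (qcl u) ^ 2 = (cosh (2 * qcl u) - 1) / 2 := by
    rw [Complex.cosh_two_mul]
    have := Complex.cosh_sq (qcl u)
    linear_combination (-1 / 2) * this
  have e4 : cosh (2 * qcl u) = (exp (2 * qcl u) + exp (-(2 * qcl u))) / 2 := by
    rw [Complex.cosh]
  rw [e3, e4, e1, e2, div_pow, hw]
  have e5 : exp u = cosh u + sinh u := (cosh_add_sinh u).symm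
  have e6 : exp (-u) = cosh u - sinh u := (cosh_sub_sinh u).symm
  rw [e5, e6]
  field_simp
  ring_nf
  simp only [I_sq]
  ring_nf

/-- properties of the potential of a closed edge -/
structure IsPhi1 (Φ : ℂ → ℂ) : Prop where
  deriv : ∀ (u : ℝ → ℂ) (u' : ℂ) (s : ℝ), |(u s).im| < Real.pi / 2 → HasDerivAt u u' s →
    HasDerivAt (fun s => Φ (gd (u s) / (Real.pi : ℂ)))
      (-2 * qcl (u s) * u' / ((Real.pi : ℂ) * cosh (u s))) s
  even : ∀ u : ℂ, |u.im| < Real.pi / 2 →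
    (Φ (gd (-u) / (Real.pi : ℂ))).re = (Φ (gd u / (Real.pi : ℂ))).re

/-- `D_e` -/
noncomputable def Dfun1 (Φ : ℂ → ℂ) (θ b xc x : ℝ) : ℝ :=
  (Φ (gd (UU x θ) / (Real.pi : ℂ)) - Φ (gd (UU xc θ) / (Real.pi : ℂ))
    + 2 * qcl (UU xc θ) * (gd (UU x θ) - gd (UU xc θ)) / (Real.pi : ℂ)
    - I * b / (Real.pi : ℂ) * (gd (UU x θ) - gd (UU xc θ)) ^ 2).re

variable {θ xc b x : ℝ} {Φ : ℂ → ℂ}

theorem Dfun1_self : Dfun1 Φ θ b xc xc = 0 := by simp [Dfun1]

/-- the function `a(t)` -/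
noncomputable def AA1 (θ b xc x : ℝ) : ℂ :=
  qcl (UU x θ) - qcl (UU xc θ) + I * b * (gd (UU x θ) - gd (UU xc θ))

theorem AA1_eq : AA1 θ b xc x = ((x - xc : ℝ) : ℂ) / 2
    + I * ((b + 1 / 2 : ℝ) : ℂ) * (gd (UU x θ) - gd (UU xc θ)) := by
  rw [AA1, qcl, qcl]
  have e : UU x θ - UU xc θ = ((x - xc : ℝ) : ℂ) := by
    apply Complex.ext <;> simp
  have : UU x θ = UU xc θ + ((x - xc : ℝ) : ℂ) := by rw [← e]; ring
  push_cast at this ⊢
  linear_combination (1 / 2 : ℂ) * this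

theorem ib_re' (hθ : |θ| < Real.pi / 2) {x ψ b : ℝ} :
    (I * b / cosh (UU x θ) * exp (-((ψ : ℂ) * I))).re
      = b * (Real.exp (-(Lc (UU x θ)).re) * Real.sin (aa x θ + ψ)) := by
  have aθ' : |(UU x θ).im| < Real.pi / 2 := by simpa using hθ
  have i4 : (Lc (UU x θ)).im = aa x θ := Lc_UU hθ
  have e1 : I * b / cosh (UU x θ) * exp (-((ψ : ℂ) * I))
      = (b : ℂ) * (I * (exp (-Lc (UU x θ)) * exp (-((ψ : ℂ) * I)))) := by
    rw [← exp_Lc aθ', exp_neg (Lc (UU x θ))]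
    ring
  rw [e1, re_ofReal_mul, mul_re, I_re, I_im, ← exp_add, exp_im]
  have e2 : (-Lc (UU x θ) + -((ψ : ℂ) * I)).re = -(Lc (UU x θ)).re := by simp
  have e3 : (-Lc (UU x θ) + -((ψ : ℂ) * I)).im = -(aa x θ + ψ) := by
    simp [i4]; ring
  rw [e2, e3, Real.sin_neg]
  ring

/-- `x ↦ Re (AA1 e^{-iψ})` is strictly increasing on `x ≥ 0` -/
theorem AA1_strictMono (hθ0 : 0 < θ) (hθ : θ < Real.pi / 2) (hb : 0 ≤ b) {ψ : ℝ} (h0 : 0 ≤ ψ)
    (h1 : ψ ≤ θ) :
    StrictMonoOn (fun x => (AA1 θ b xc x * exp (-((ψ : ℂ) * I))).re) (Set.Ici 0) := by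
  have aθ : |θ| < Real.pi / 2 := by rwa [abs_of_pos hθ0]
  have hd : ∀ x : ℝ, HasDerivAt (fun x => (AA1 θ b xc x * exp (-((ψ : ℂ) * I))).re)
      (Real.cos ψ / 2 + (b + 1 / 2) * (Real.exp (-(Lc (UU x θ)).re) * Real.sin (aa x θ + ψ))) x := by
    intro x
    have g1 := (hasDerivAt_gd_line (x := x) aθ).sub_const (gd (UU xc θ))
    have g2 := g1.const_mul (I * ((b + 1 / 2 : ℝ) : ℂ))
    have g3 : HasDerivAt (fun x : ℝ => ((x - xc : ℝ) : ℂ) / 2) (1 / 2) x :=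
      (((hasDerivAt_id x).sub_const xc).ofReal_comp).div_const 2
    have g4 := hasDerivAt_re ((g3.add g2).mul_const (exp (-((ψ : ℂ) * I))))
    have e : (fun x => (AA1 θ b xc x * exp (-((ψ : ℂ) * I))).re) = (fun x : ℝ =>
        ((((fun x : ℝ => ((x - xc : ℝ) : ℂ) / 2) + fun x : ℝ => I * ((b + 1 / 2 : ℝ) : ℂ)
          * (gd (UU x θ) - gd (UU xc θ))) x) * exp (-((ψ : ℂ) * I))).re) := by
      funext y
      rw [AA1_eq]; rfl
    rw [e]
    refine g4.congr_deriv ?_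
    rw [← ib_re' aθ, add_mul, add_re, mul_one_div]
    congr 1
    rw [show (1 / 2 : ℂ) = ((1 / 2 : ℝ) : ℂ) by norm_num, re_ofReal_mul, exp_re]
    simp
    ring
  apply strictMonoOn_of_deriv_pos (convex_Ici _)
  · intro x _
    exact (hd x).continuousAt.continuousWithinAt
  · intro x hx
    rw [interior_Ici] at hx
    rw [(hd x).deriv]
    have hx0 : 0 < x := hx
    have a0 : 0 ≤ aa x θ := aa_nonneg hx0.le hθ0.le hθ
    have a1 : aa x θ ≤ θ := aa_le_self x hθ0.le hθ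
    have c : 0 < Real.cos ψ := Real.cos_pos_of_mem_Ioo ⟨by linarith [Real.pi_pos], by linarith⟩
    have s : 0 ≤ Real.sin (aa x θ + ψ) :=
      Real.sin_nonneg_of_nonneg_of_le_pi (by linarith) (by linarith)
    have := mul_nonneg (show (0 : ℝ) ≤ b + 1 / 2 by linarith)
      (mul_nonneg (Real.exp_pos (-(Lc (UU x θ)).re)).le s)
    linarith

theorem AA1_div_re (hθ : |θ| < Real.pi / 2) (x : ℝ) :
    (AA1 θ b xc x / cosh (UU x θ)).re = Real.exp (-(Lc (UU x θ)).re) *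
      (AA1 θ b xc x * exp (-((aa x θ : ℂ) * I))).re := by
  have aθ' : |(UU x θ).im| < Real.pi / 2 := by simpa using hθ
  have i4 : (Lc (UU x θ)).im = aa x θ := Lc_UU hθ
  rw [← re_ofReal_mul, ofReal_exp, div_eq_mul_inv, ← exp_Lc aθ', ← exp_neg]
  congr 1
  have e : -Lc (UU x θ) = (-(Lc (UU x θ)).re : ℝ) + -((aa x θ : ℂ) * I) := by
    rw [← i4]
    apply Complex.ext <;> simp
  conv_lhs => rw [e, exp_add]
  push_cast
  ring

theorem AA1_sign (hθ0 : 0 < θ) (hθ : θ < Real.pi / 2) (hb : 0 ≤ b) (hc : 0 ≤ xc) {x : ℝ}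
    (hx : 0 ≤ x) :
    (xc < x → 0 < (AA1 θ b xc x / cosh (UU x θ)).re) ∧
    (x < xc → (AA1 θ b xc x / cosh (UU x θ)).re < 0) := by
  have aθ : |θ| < Real.pi / 2 := by rwa [abs_of_pos hθ0]
  have m := AA1_strictMono (xc := xc) hθ0 hθ hb (aa_nonneg hx hθ0.le hθ)
    (aa_le_self x hθ0.le hθ)
  have z : (AA1 θ b xc xc * exp (-((aa x θ : ℂ) * I))).re = 0 := by
    simp [AA1]
  rw [AA1_div_re aθ]
  constructor
  · intro h
    have := m (a := xc) (b := x) hc hx h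
    simp only [z] at this
    exact mul_pos (Real.exp_pos _) this
  · intro h
    have := m (a := x) (b := xc) hx hc h
    simp only [z] at this
    exact mul_neg_of_pos_of_neg (Real.exp_pos _) this

theorem hasDerivAt_Dfun1 (hΦ : IsPhi1 Φ) (hθ : |θ| < Real.pi / 2) (x : ℝ) :
    HasDerivAt (Dfun1 Φ θ b xc) (-(2 / Real.pi) * (AA1 θ b xc x / cosh (UU x θ)).re) x := by
  have h1 := hΦ.deriv (fun x => UU x θ) 1 x (by simpa using hθ) (hasDerivAt_UU x θ)
  have g1 := (hasDerivAt_gd_line (x := x) hθ).sub_const (gd (UU xc θ))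
  have l1 := (g1.const_mul (2 * qcl (UU xc θ))).div_const (Real.pi : ℂ)
  have m1 := (g1.pow 2).const_mul (I * b / (Real.pi : ℂ))
  have t := hasDerivAt_re (((h1.sub_const (Φ (gd (UU xc θ) / (Real.pi : ℂ)))).add l1).sub m1)
  refine HasDerivAt.congr_deriv t ?_
  rw [← re_ofReal_mul]
  congr 1
  have hpi : (Real.pi : ℂ) ≠ 0 := by exact_mod_cast Real.pi_ne_zero
  have c1 : cosh (UU x θ) ≠ 0 := cosh_ne (by simpa using hθ)
  rw [AA1]
  push_cast
  field_simp
  ring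

/-- monotone on both sides of `xc` -/
theorem Dfun1_anti (hΦ : IsPhi1 Φ) (hθ0 : 0 < θ) (hθ : θ < Real.pi / 2) (hb : 0 ≤ b)
    (hc : 0 ≤ xc) : StrictAntiOn (Dfun1 Φ θ b xc) (Set.Ici xc) := by
  have aθ : |θ| < Real.pi / 2 := by rwa [abs_of_pos hθ0]
  apply strictAntiOn_of_deriv_neg (convex_Ici _)
  · exact fun x _ => (hasDerivAt_Dfun1 hΦ aθ x).continuousAt.continuousWithinAt
  · intro x hx
    rw [interior_Ici] at hx
    rw [(hasDerivAt_Dfun1 hΦ aθ x).deriv]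
    have hx0 : xc < x := hx
    have := (AA1_sign (b := b) hθ0 hθ hb hc (x := x) (by linarith)).1 hx0
    have : 0 < 2 / Real.pi := by have := Real.pi_pos; positivity
    nlinarith

theorem Dfun1_mono (hΦ : IsPhi1 Φ) (hθ0 : 0 < θ) (hθ : θ < Real.pi / 2) (hb : 0 ≤ b)
    (hc : 0 ≤ xc) : StrictMonoOn (Dfun1 Φ θ b xc) (Set.Icc 0 xc) := by
  have aθ : |θ| < Real.pi / 2 := by rwa [abs_of_pos hθ0]
  apply strictMonoOn_of_deriv_pos (convex_Icc _ _)
  · exact fun x _ => (hasDerivAt_Dfun1 hΦ aθ x).continuousAt.continuousWithinAt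
  · intro x hx
    rw [interior_Icc] at hx
    rw [(hasDerivAt_Dfun1 hΦ aθ x).deriv]
    have := (AA1_sign (b := b) hθ0 hθ hb hc (x := x) hx.1.le).2 hx.2
    have : 0 < 2 / Real.pi := by have := Real.pi_pos; positivity
    nlinarith

/-- reflection of the potential -/
theorem Phi1_refl (hΦ : IsPhi1 Φ) (hθ0 : 0 < θ) (hθ : θ < Real.pi / 2) {x : ℝ} (hx : 0 ≤ x) :
    (Φ (gd (UU (-x) θ) / (Real.pi : ℂ))).re ≤ (Φ (gd (UU x θ) / (Real.pi : ℂ))).re := by
  rcases hx.eq_or_lt with rfl | hx0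
  · rw [neg_zero]
  have aθ : |θ| < Real.pi / 2 := by rwa [abs_of_pos hθ0]
  have aθ2 : |(UU x θ).im| < Real.pi / 2 := by simpa using aθ
  set R := (gd (UU x θ)).re with hR
  set y := (gd (UU x θ)).im with hy
  have hR0 : 0 < R := gd_re_pos hx0 aθ
  have hy0 : 0 < y := gd_im_pos hθ0 hθ
  have hR1 : |R| < Real.pi / 2 := gd_re_lt aθ2
  have e1 : igd (UU R y) = UU x θ := by
    rw [hR, hy, UU_eta, igd_gd aθ2]
  have econj : ∀ s, igd (UU R (-s)) = (starRingEnd ℂ) (igd (UU R s)) := by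
    intro s
    rw [← igd_conj (by simpa using hR1), UU_conj]
  have e2 : igd (UU R (-y)) = UU x (-θ) := by rw [econj, e1, UU_conj]
  have hd : ∀ s, HasDerivAt (fun s : ℝ => (Φ (gd (igd (UU R s)) / (Real.pi : ℂ))).re)
      (2 / Real.pi * (qcl (igd (UU R s))).im) s := by
    intro s
    have hr : |(igd (UU R s)).im| < Real.pi / 2 := igd_im_lt (by simpa using hR1)
    have := hasDerivAt_re (hΦ.deriv (fun s => igd (UU R s)) _ s hr (hasDerivAt_igd_line hR1 s))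
    refine HasDerivAt.congr_deriv this ?_
    have hc := cosh_ne hr
    have hpi : (Real.pi : ℂ) ≠ 0 := by exact_mod_cast Real.pi_ne_zero
    have e : (-2 * qcl (igd (UU R s)) * (I * cosh (igd (UU R s))) /
        ((Real.pi : ℂ) * cosh (igd (UU R s)))) =
        ((2 / Real.pi : ℝ) : ℂ) * (-I * qcl (igd (UU R s))) := by
      push_cast
      field_simp
    rw [e, re_ofReal_mul]
    congr 1
    rw [mul_re, neg_re, neg_im, I_re, I_im]
    ring
  have key : (Φ (gd (igd (UU R (-y))) / (Real.pi : ℂ))).re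
      ≤ (Φ (gd (igd (UU R y)) / (Real.pi : ℂ))).re := by
    set G : ℝ → ℝ := fun s => (Φ (gd (igd (UU R s)) / (Real.pi : ℂ))).re
      - (Φ (gd (igd (UU R (-s))) / (Real.pi : ℂ))).re with hG
    have hGd : ∀ s, HasDerivAt G
        (2 / Real.pi * ((qcl (igd (UU R s))).im + (qcl (igd (UU R (-s)))).im)) s := by
      intro s
      have d1 := hd s
      have d2 := hd (-s)
      have d3 := HasDerivAt.scomp (g₁ := fun s : ℝ =>
        (Φ (gd (igd (UU R s)) / (Real.pi : ℂ))).re)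
        (h := fun s : ℝ => -s) s d2 (hasDerivAt_neg s)
      refine (d1.sub d3).congr_deriv ?_
      rw [smul_eq_mul]; ring
    have hm : Monotone G := by
      apply monotone_of_deriv_nonneg
      · exact fun s => (hGd s).differentiableAt
      · intro s
        rw [(hGd s).deriv]
        have hpi := Real.pi_pos
        apply mul_nonneg (by positivity)
        have f : ∀ s, (qcl (igd (UU R s))).im = (igd (UU R s)).im / 2 + R / 2 := by
          intro s
          rw [qcl, gd_igd (by simpa using hR1)]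
          have : (UU R s).re = R := UU_re R s
          rw [add_im, show (2 : ℂ) = ((2 : ℝ) : ℂ) by norm_num, div_ofReal_im, mul_im,
            div_ofReal_im, div_ofReal_re, I_re, I_im, this]
          ring
        rw [f, f, econj, conj_im]
        linarith
    have h1 := hm hy0.le
    have h2 : G 0 = 0 := by simp [hG]
    rw [h2] at h1
    simp only [hG] at h1
    linarith
  rw [e1, e2] at key
  have e3 := hΦ.even (UU x (-θ)) (by simpa using aθ)
  rw [UU_neg, neg_neg] at e3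
  rw [e3]
  exact key

theorem Dfun1_refl (hΦ : IsPhi1 Φ) (hθ0 : 0 < θ) (hθ : θ < Real.pi / 2)
    (hQ : (qcl (UU xc θ)).re = b * (gd (UU xc θ)).im) {x : ℝ} (hx : 0 ≤ x) :
    Dfun1 Φ θ b xc (-x) ≤ Dfun1 Φ θ b xc x
      - 4 / Real.pi * (b * ((gd (UU x θ)).re * (gd (UU x θ)).im)) := by
  have aθ : |θ| < Real.pi / 2 := by rwa [abs_of_pos hθ0]
  have h1 := Phi1_refl hΦ hθ0 hθ hx
  have h2 := gauss_refl (g := gd (UU x θ)) hQ
  unfold Dfun1
  rw [gd_neg_conj aθ] at h1 ⊢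
  simp only [add_re, sub_re] at h2 ⊢
  linarith

theorem Dfun1_nonpos_quadrant (hΦ : IsPhi1 Φ) (hθ0 : 0 < θ) (hθ : θ < Real.pi / 2) (hb : 0 ≤ b)
    (hc : 0 ≤ xc) {x : ℝ} (hx : 0 ≤ x) : Dfun1 Φ θ b xc x ≤ 0 := by
  rcases le_total xc x with h | h
  · have := (Dfun1_anti (b := b) hΦ hθ0 hθ hb hc).antitoneOn (a := xc) (b := x)
      (Set.mem_Ici.2 le_rfl) h h
    rwa [Dfun1_self] at this
  · have := (Dfun1_mono (b := b) hΦ hθ0 hθ hb hc).monotoneOn (a := x) (b := xc)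
      ⟨hx, h⟩ ⟨hc, le_rfl⟩ h
    rwa [Dfun1_self] at this

/-- the main inequality at a closed edge, uniform version -/
theorem Dfun1_unif (hΦ : IsPhi1 Φ) (hθ0 : 0 < θ) (hθ : θ < Real.pi / 2) (hb : 0 < b)
    (hQ : (qcl (UU xc θ)).re = b * (gd (UU xc θ)).im) (hc : 0 < xc) {r : ℝ} (hr : 0 < r) :
    ∃ δ : ℝ, 0 < δ ∧ ∀ x : ℝ, r ≤ |x - xc| → Dfun1 Φ θ b xc x ≤ -δ := by
  set ρ := min r (xc / 2) with hρ
  have hρ0 : 0 < ρ := lt_min hr (by linarith)
  have hρr : ρ ≤ r := min_le_left _ _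
  have hρc : ρ ≤ xc / 2 := min_le_right _ _
  have A := Dfun1_anti (b := b) hΦ hθ0 hθ hb.le hc.le
  have M := Dfun1_mono (b := b) hΦ hθ0 hθ hb.le hc.le
  have n1 : Dfun1 Φ θ b xc (xc + ρ) < 0 := by
    have := A (a := xc) (b := xc + ρ) (Set.mem_Ici.2 le_rfl) (Set.mem_Ici.2 (by linarith))
      (by linarith)
    rwa [Dfun1_self] at this
  have n2 : Dfun1 Φ θ b xc (xc - ρ) < 0 := by
    have := M (a := xc - ρ) (b := xc) ⟨by linarith, by linarith⟩ ⟨hc.le, le_rfl⟩ (by linarith)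
    rwa [Dfun1_self] at this
  obtain ⟨δ₂, p2, q2⟩ := refl_weight_unif (b := b) (xc := xc) hθ0 hθ hb hρ0 (by linarith)
  set δ := min (min (-Dfun1 Φ θ b xc (xc + ρ)) (-Dfun1 Φ θ b xc (xc - ρ))) δ₂ with hδ
  have l1 : δ ≤ -Dfun1 Φ θ b xc (xc + ρ) := le_trans (min_le_left _ _) (min_le_left _ _)
  have l2 : δ ≤ -Dfun1 Φ θ b xc (xc - ρ) := le_trans (min_le_left _ _) (min_le_right _ _)
  have l3 : δ ≤ δ₂ := min_le_right _ _
  have quad : ∀ x : ℝ, 0 ≤ x → ρ ≤ |x - xc| → Dfun1 Φ θ b xc x ≤ -δ := by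
    intro x hx h
    rcases le_total xc x with h1 | h1
    · rw [abs_of_nonneg (by linarith)] at h
      have := A.antitoneOn (a := xc + ρ) (b := x) (Set.mem_Ici.2 (by linarith))
        (Set.mem_Ici.2 h1) (by linarith)
      linarith
    · rw [abs_of_nonpos (by linarith)] at h
      have := M.monotoneOn (a := x) (b := xc - ρ) ⟨hx, h1⟩ ⟨by linarith, by linarith⟩
        (by linarith)
      linarith
  refine ⟨δ, lt_min (lt_min (by linarith) (by linarith)) p2, fun x hx => ?_⟩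
  rcases le_or_gt 0 x with h0 | h0
  · exact quad x h0 (by linarith)
  · have e := Dfun1_refl hΦ hθ0 hθ hQ (x := |x|) (abs_nonneg x)
    have e2 : -|x| = x := by rw [abs_of_neg h0]; ring
    rw [e2] at e
    have w := refl_weight_nonneg (b := b) hθ0 hθ hb (abs_nonneg x)
    rcases le_or_gt ρ |(|x|) - xc| with h1 | h1
    · have := quad |x| (abs_nonneg x) h1
      linarith
    · have := q2 |x| h1.le
      have := Dfun1_nonpos_quadrant (b := b) hΦ hθ0 hθ hb.le hc.le (abs_nonneg x)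
      linarith

theorem Dfun1_main (hΦ : IsPhi1 Φ) (hθ0 : 0 < θ) (hθ : θ < Real.pi / 2) (hb : 0 < b)
    (hQ : (qcl (UU xc θ)).re = b * (gd (UU xc θ)).im) (hc : 0 < xc) (x : ℝ) :
    Dfun1 Φ θ b xc x ≤ 0 := by
  by_cases hx : x = xc
  · rw [hx, Dfun1_self]
  · obtain ⟨δ, h0, h1⟩ := Dfun1_unif hΦ hθ0 hθ hb hQ hc (r := |x - xc|)
      (abs_pos.2 (sub_ne_zero.2 hx))
    have := h1 x le_rfl
    linarith

end Pool.Agent.S3
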