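import Pool.Agent.S3.CritE
import Pool.Agent.S3.Closed

/-!
# Stage 3: the critical point at a closed edge

The vertex `i` is open, its neighbour `j` is an end `2`. With `u = uu (z i)`, `w = conj uu (z j)`:
`cosh² w = -2 i cosh u`, `T = cosh u - i`, `E_yy = -π i (cosh u - 2 i)²`, `q(u, w) = qcl u`.
-/

namespace Pool.Agent.S3

open Complex
open Pool.Agent.H63.VC3 (hh)
open Pool.Agent.H25.RK (gdv gdv_re_lt gdv_hasDerivAt)

/-- the critical equations and inequalities at a closed edge -/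
structure ECrit1 (u yc Q : ℂ) (s : ℤ) (β : ℝ) : Prop where
  dom : sdom yc (.op (gdv u)) ∧ sdom yc (.cl s)
  hy : ey yc (.op (gdv u)) + ey yc (.cl s) = 0
  ev1 : ev yc (gdv u) = -2 * Q
  hA : (eyy yc (.op (gdv u)) + eyy yc (.cl s)).re < 0
  hD : ∀ a : ℝ, a ≠ 0 → ((evv yc (gdv u) + I * β) * dgv u ^ 2 * a ^ 2
      - (eyv yc (gdv u) * dgv u * a) ^ 2
        / (eyy yc (.op (gdv u)) + eyy yc (.cl s))).re < 0

section

variable {u w : ℂ}

/-- `T = cosh u - i` -/
theorem TT_cl (h : Reg u w) (hw : cosh w ^ 2 = -2 * I * cosh u) : TT u w = cosh u - I := by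
  apply eq_of_sq
  · have h1 := one_add_TT_sq h
    rw [hw] at h1
    linear_combination h1 - I_sq
  · exact TT_re_pos h
  · rw [sub_re, I_re, sub_zero]
    exact cosh_re_pos h.left

theorem one_add_TT_cl (h : Reg u w) (hw : cosh w ^ 2 = -2 * I * cosh u) :
    1 + TT u w ^ 2 = cosh u * (cosh u - 2 * I) := by
  rw [one_add_TT_sq h, hw]; ring

/-- `q(u, w) = qcl u` -/
theorem qq_cl (h : Reg u w) (hw : cosh w ^ 2 = -2 * I * cosh u) (hu : 0 ≤ u.re) (hu' : 0 ≤ u.im)
    (hwr : 0 ≤ w.re) (hwi : w.im ≤ 0) : qq u w = qcl u := by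
  have hpi := Real.pi_pos
  have hq : QO u w := ⟨h, hu, hwr, hu', hwi⟩
  have f := hq.facts
  have hl := h.left
  have hg := abs_lt.1 (gd_re_lt hl)
  have qre : (qcl u).im = u.im / 2 + (gd u).re / 2 := by
    rw [qcl, add_im]
    congr 1
    · rw [show (2 : ℂ) = ((2 : ℝ) : ℂ) by norm_num, div_ofReal_im]
    · rw [show I / 2 * gd u = (((1 : ℝ) / 2 : ℝ) : ℂ) * (I * gd u) by push_cast; ring,
        im_ofReal_mul, mul_im, I_re, I_im]
      ring
  have hqim : |(qcl u).im| < Real.pi / 2 := by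
    rw [qre, abs_lt]
    rw [abs_of_nonneg hu'] at hl
    constructor <;> linarith
  have hgr : 0 ≤ (gd u).re := by
    rcases hu.eq_or_lt with h0 | h0
    · have e : gd u = -((starRingEnd ℂ) (gd u)) := by
        rw [← gd_conj hl, ← gd_neg (by rwa [conj_im, abs_neg])]
        congr 1
        apply Complex.ext
        · simp [← h0]
        · simp
      have := congrArg Complex.re e
      rw [neg_re, conj_re] at this
      linarith
    · rw [← UU_eta u]
      exact (gd_re_pos h0 hl).le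
  rw [qq]
  symm
  apply eq_arsh _ hqim
  rcases eq_or_ne u 0 with h0 | h0
  · rw [h0, qcl, gd_zero]
    simp
  have h2 := sinh_qcl_sq hl hw
  rcases sq_eq_sq_iff_eq_or_eq_neg.1 h2 with h3 | h3
  · exact h3
  · exfalso
    have k1 : 0 < (qcl u).im := by
      rw [qre]
      rcases hu'.eq_or_lt with h4 | h4
      · have h5 : 0 < u.re := by
          rcases hu.eq_or_lt with h6 | h6
          · exact absurd (Complex.ext (by simp [← h6]) (by simp [← h4])) h0
          · exact h6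
        have h6 : 0 < (gd u).re := by
          rw [← UU_eta u]
          exact gd_re_pos h5 hl
        linarith
      · linarith
    have k2 : 0 < (sinh (qcl u)).im := by
      rw [sinh_im']
      apply mul_pos (Real.cosh_pos _)
      apply Real.sin_pos_of_pos_of_lt_pi k1
      have := (abs_lt.1 hqim).2
      linarith
    have k3 : 0 ≤ (sinh u / cosh w).im := by
      rw [← sinh_qq, sinh_im']
      apply mul_nonneg (Real.cosh_pos _).le
      apply Real.sin_nonneg_of_nonneg_of_le_pi f.1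
      linarith [f.2.1]
    rw [h3, neg_im] at k2
    linarith

theorem cosh_w_ne (h : Reg u w) : cosh w ^ 2 ≠ 0 := pow_ne_zero 2 (cosh_ne h.right)

/-- `E_yy` at a closed edge -/
theorem A_cl (h : Reg u w) (hw : cosh w ^ 2 = -2 * I * cosh u) :
    eyy (yy u w) (.op (gdv u)) + eyy (yy u w) (.cl 1) = -(Real.pi * I * (cosh u - 2 * I) ^ 2) := by
  have hc := cosh_ne h.left
  have hI := I_ne_zero
  have e : eyy (yy u w) (.cl 1) = -(Real.pi * TT u w) + Real.pi * I * 1 := by
    rw [eyy, ct_half h]; push_cast; ring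
  rw [eyy_op h, e, one_add_TT_cl h hw, TT_cl h hw, hw]
  have h3 : -(2 * (Real.pi : ℂ) * (cosh u - I) * (cosh u * (cosh u - 2 * I)) / (-2 * I * cosh u))
      = -(Real.pi * I * (cosh u - I) * (cosh u - 2 * I)) := by
    field_simp
    linear_combination ((cosh u - I) * (cosh u - 2 * I)) * I_sq
  rw [h3]
  linear_combination (-Real.pi * cosh u + 2 * Real.pi * I) * I_sq

theorem A_cl_re (h : Reg u w) (hw : cosh w ^ 2 = -2 * I * cosh u) (hi : (cosh u).im < 2) :
    (eyy (yy u w) (.op (gdv u)) + eyy (yy u w) (.cl 1)).re < 0 := by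
  rw [A_cl h hw]
  have h1 := cosh_re_pos h.left
  have hpi := Real.pi_pos
  have e : (-((Real.pi : ℂ) * I * (cosh u - 2 * I) ^ 2)).re
      = 2 * Real.pi * ((cosh u).re * ((cosh u).im - 2)) := by
    rw [show -((Real.pi : ℂ) * I * (cosh u - 2 * I) ^ 2)
      = ((-Real.pi : ℝ) : ℂ) * (I * (cosh u - 2 * I) ^ 2) by push_cast; ring, re_ofReal_mul,
      I_mul_re, sq, mul_im]
    simp
    ring
  rw [e]
  have := mul_pos h1 (sub_pos.2 hi)
  nlinarith

/-- the critical equation in `y` at a closed edge -/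
theorem ey_cl (h : Reg u w) (g : Good u w) (hw : cosh w ^ 2 = -2 * I * cosh u)
    (hu : 0 ≤ (Lc u).im) (hw' : (Lc w).im ≤ 0) (hs : (Lc u).im - (Lc w).im < Real.pi / 2) :
    ey (yy u w) (.op (gdv u)) + ey (yy u w) (.cl 1) = 0 := by
  have hpi := Real.pi_pos
  have hc := cosh_ne h.left
  have e0 : ey (yy u w) (.cl 1) = 2 * Lc w - 2 * Lc u := by
    apply log_unique
    · have e1 : ey (yy u w) (.cl 1) = (Real.log 2 + lcy u w) + Real.pi * I * yy u w - Real.pi * I := by
        rw [ey, hh_half h]; push_cast; ring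
      rw [e1, exp_sub, exp_pi_mul_I, exp_add, exp_add, exp_log_two, exp_lcy h, exp_sub,
        ← cosh_sq_exp h.left, ← cosh_sq_exp h.right, hw]
      have e2 : exp (Real.pi * I * yy u w)
          = cos (Real.pi * yy u w) * (1 + I * TT u w) := by
        rw [show (Real.pi : ℂ) * I * yy u w = (Real.pi * yy u w) * I by ring, exp_mul_I,
          sin_yy h]
        ring
      have e3 := cos_yy_sq h
      rw [hw] at e3
      have e4 := TT_cl h hw
      rw [e2, e4]
      have e5 : cos (Real.pi * yy u w) ^ 2 * (cosh u * (cosh u - 2 * I)) = 1 := by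
        linear_combination e3
      have e6 : (2 * cos (Real.pi * yy u w) * (cos (Real.pi * yy u w) * (1 + I * (cosh u - I))) / -1)
          * cosh u ^ 2 = -2 * I * cosh u := by
        have hI2 := I_sq
        linear_combination (-2 * I * cosh u) * e5 + (2 * cos (Real.pi * yy u w) ^ 2 * cosh u ^ 2) * hI2
          - 4 * cos (Real.pi * yy u w) ^ 2 * cosh u ^ 2 * hI2
      rw [eq_div_iff (pow_ne_zero 2 hc)]
      exact e6
    · have y0 := yy_re_pos h
      have y1 := yy_re_lt h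
      have l := abs_lt.1 (lcy_im_lt h)
      have e1 : (ey (yy u w) (.cl 1)).im = (lcy u w).im - Real.pi * (1 - (yy u w).re) := by
        rw [ey, hh_half h]
        have : (Real.pi : ℂ) * I * ((1 : ℤ) : ℂ) * (1 - yy u w)
            = ((Real.pi : ℝ) : ℂ) * (I * (1 - yy u w)) := by push_cast; ring
        rw [this, sub_im, im_ofReal_mul, I_mul_im, add_im, ofReal_im, sub_re, one_re, zero_add]
      have e2 : (2 * Lc w - 2 * Lc u).im = 2 * (Lc w).im - 2 * (Lc u).im := by
        rw [sub_im, show (2 : ℂ) = ((2 : ℝ) : ℂ) by norm_num, im_ofReal_mul, im_ofReal_mul]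
      rw [e1, e2, abs_lt]
      have := mul_pos hpi y0
      have := mul_pos hpi (sub_pos.2 y1)
      constructor <;> nlinarith
  rw [ey_op h g, e0]
  ring

/-- the form at a closed edge is negative -/
theorem qf_cl (h : Reg u w) (hw : cosh w ^ 2 = -2 * I * cosh u) (β : ℂ) (a : ℂ)
    (hn : cosh u - 2 * I ≠ 0) :
    (evv (yy u w) (gdv u) + I * β) * dgv u ^ 2 * a ^ 2
      - (eyv (yy u w) (gdv u) * dgv u * a) ^ 2
        / (eyy (yy u w) (.op (gdv u)) + eyy (yy u w) (.cl 1))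
      = -(a ^ 2 / Real.pi * ((cosh u + I) / cosh u ^ 2))
        + I * β * a ^ 2 / (Real.pi ^ 2 * cosh u ^ 2) := by
  have hc := cosh_ne h.left
  have hI := I_ne_zero
  have hpi : (Real.pi : ℂ) ≠ 0 := by exact_mod_cast Real.pi_ne_zero
  have hs : sinh u ^ 2 = cosh u ^ 2 - 1 := by have := Complex.cosh_sq u; linear_combination -this
  have e1 : evv (yy u w) (gdv u) = -(Real.pi * I * cosh u * (cosh u - I)) := by
    rw [evv_op h, TT_cl h hw, hw]
    field_simp
    linear_combination (cosh u - I) * I_sq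
  have e2 : eyv (yy u w) (gdv u) = Real.pi * I * sinh u * (cosh u - 2 * I) := by
    rw [eyv_op h, one_add_TT_cl h hw, hw]
    field_simp
    linear_combination (-sinh u) * I_sq
  rw [e1, e2, A_cl h hw, dgv]
  have e3 : (Real.pi * I * sinh u * (cosh u - 2 * I) * (1 / (Real.pi * cosh u)) * a) ^ 2
      / -(Real.pi * I * (cosh u - 2 * I) ^ 2) = -(I * (cosh u ^ 2 - 1) * a ^ 2 / (Real.pi * cosh u ^ 2)) := by
    rw [← hs]
    generalize cosh u - 2 * I = N at hn ⊢
    field_simp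
  rw [e3]
  field_simp
  linear_combination (a ^ 2 * Real.pi * cosh u) * I_sq

theorem qf_cl_neg (h : Reg u w) (hw : cosh w ^ 2 = -2 * I * cosh u) (h0 : 0 ≤ (Lc u).im)
    {b a : ℝ} (hb : 0 ≤ b) (ha : a ≠ 0) (hi : (cosh u).im < 2) :
    ((evv (yy u w) (gdv u) + I * ((-(2 * Real.pi * b) : ℝ) : ℂ)) * dgv u ^ 2 * (a : ℂ) ^ 2
      - (eyv (yy u w) (gdv u) * dgv u * a) ^ 2
        / (eyy (yy u w) (.op (gdv u)) + eyy (yy u w) (.cl 1))).re < 0 := by
  have hpi := Real.pi_pos
  have hpi' : (Real.pi : ℂ) ≠ 0 := by exact_mod_cast Real.pi_ne_zero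
  have hc := cosh_ne h.left
  have hn : cosh u - 2 * I ≠ 0 := by
    intro h1
    have := congrArg Complex.im h1
    simp at this
    linarith
  rw [qf_cl h hw _ _ hn]
  have e : -((a : ℂ) ^ 2 / Real.pi * ((cosh u + I) / cosh u ^ 2))
        + I * ((-(2 * Real.pi * b) : ℝ) : ℂ) * (a : ℂ) ^ 2 / (Real.pi ^ 2 * cosh u ^ 2)
      = ((-(a ^ 2 / Real.pi) : ℝ) : ℂ) * (cosh u)⁻¹
        + ((-(a ^ 2 / Real.pi) - 2 * b * a ^ 2 / Real.pi : ℝ) : ℂ) * (I / cosh u ^ 2) := by
    push_cast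
    field_simp
    ring
  rw [e, add_re, re_ofReal_mul, re_ofReal_mul, I_div_cosh_sq_re h.left]
  have k1 : 0 < ((cosh u)⁻¹).re := by
    rw [inv_re]
    exact div_pos (cosh_re_pos h.left) (normSq_pos.2 hc)
  have k2 : 0 ≤ Real.exp (-(2 * (Lc u).re)) * Real.sin (2 * (Lc u).im) := by
    apply mul_nonneg (Real.exp_pos _).le
    apply Real.sin_nonneg_of_nonneg_of_le_pi (by linarith)
    have := Lc_im_abs h.left
    rw [abs_of_nonneg h0] at this
    have := h.left
    linarith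
  have ha2 : 0 < a ^ 2 := by positivity
  have k3 : 0 < a ^ 2 / Real.pi * ((cosh u)⁻¹).re := by positivity
  have k4 : 0 ≤ (a ^ 2 / Real.pi + 2 * b * a ^ 2 / Real.pi)
      * (Real.exp (-(2 * (Lc u).re)) * Real.sin (2 * (Lc u).im)) := by positivity
  linarith

end

namespace E

variable {ι : Type*} [Finite ι] {a : ι → ℝ} {nl nr : ι → Option ι} {z : ι → ℂ}

namespace Zr

omit [Finite ι] in
/-- `cosh² w = -2 i cosh u` -/
theorem cosh_sq_end (h : Zr a nl nr 1 z) {i j : ι} (hj : IsEnd2 a nl nr j i) :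
    cosh ((starRingEnd ℂ) (uu (z j))) ^ 2 = -2 * I * cosh (uu (z i)) := by
  have h1 := h.end2 hj.1 (by
    rcases hj.2 with ⟨h2, h3⟩ | ⟨h2, h3⟩
    · exact Or.inl ⟨h2, h3⟩
    · exact Or.inr ⟨h2, h3⟩)
  rw [h.bo_one] at h1
  have ci := cosh_uu (h.pos i).1 (h.pos i).2.1 (h.pos i).2.2
  have cj := cosh_uu (h.pos j).1 (h.pos j).2.1 (h.pos j).2.2
  have ni : cos (z i) ≠ 0 := h.cos_ne i
  have nj : (starRingEnd ℂ) (cos (z j)) ≠ 0 := by
    rw [Ne, map_eq_zero]; exact h.cos_ne j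
  have cj' : cosh ((starRingEnd ℂ) (uu (z j))) * (starRingEnd ℂ) (cos (z j)) = 1 := by
    rw [← conj_cosh', ← map_mul, cj, map_one]
  have h2 := congrArg (starRingEnd ℂ) h1
  simp only [map_mul, map_neg, conj_I, conj_conj, map_pow, Complex.conj_ofNat, neg_neg] at h2
  have e1 : cosh (uu (z i)) = 1 / cos (z i) := by field_simp; exact ci
  have e2 : cosh ((starRingEnd ℂ) (uu (z j))) = 1 / (starRingEnd ℂ) (cos (z j)) := by
    field_simp; exact cj'
  rw [e1, e2]
  have hI := I_ne_zero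
  field_simp
  linear_combination I * h2 + cos (z i) * I_sq

/-- The critical point at a closed edge, `c < 0` at the open vertex `i`. -/
theorem ecrit1 (h : Zr a nl nr 1 z) {i j : ι} (hj : IsEnd2 a nl nr j i) :
    ECrit1 (uu (z i)) (yy (uu (z i)) ((starRingEnd ℂ) (uu (z j)))) (qe (z i) (z j)) 1
      (-(2 * Real.pi * bw (z i) (z j))) ∧ qe (z i) (z j) = qcl (uu (z i)) := by
  have hji : nl j = some i ∨ nr j = some i := by
    rcases hj.2 with ⟨h1, h2⟩ | ⟨h1, h2⟩
    · exact Or.inl h1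
    · exact Or.inr h2
  have hij := h.N.symm j i hji
  have hr := h.reg_edge hij
  have g := (h.good_edge hij).1
  have hw := h.cosh_sq_end hj
  have hq := h.QO_edge hij
  have f := hq.facts
  have ci := cosh_uu (h.pos i).1 (h.pos i).2.1 (h.pos i).2.2
  have hi : (cosh (uu (z i))).im < 2 := by
    have n1 := h.norm_ge i
    have n2 : ‖cosh (uu (z i))‖ * ‖cos (z i)‖ = 1 := by rw [← norm_mul, ci, norm_one]
    have n3 : ‖cosh (uu (z i))‖ ≤ 2 := by
      nlinarith [norm_nonneg (cosh (uu (z i)))]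
    have n4 := normSq_eq_norm_sq (cosh (uu (z i)))
    rw [normSq_apply] at n4
    have n5 := cosh_re_pos hr.left
    nlinarith [norm_nonneg (cosh (uu (z i)))]
  have hqe : qq (uu (z i)) ((starRingEnd ℂ) (uu (z j))) = qe (z i) (z j) := by
    rw [qe, uu, uu, UU_conj]
  refine ⟨⟨⟨sdom_op hr g, yy_re_pos hr, yy_re_lt hr⟩, ey_cl hr g hw f.2.2.1 f.2.2.2.1 f.2.2.2.2.1,
    ?_, A_cl_re hr hw hi, ?_⟩, ?_⟩
  · rw [ev_op hr g, hqe]
  · intro α hα
    exact qf_cl_neg hr hw f.2.2.1 (h.bw_pos hij).le hα hi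
  · rw [← hqe]
    exact qq_cl hr hw hq.ur hq.ui hq.wr hq.wi

end Zr

end E

/-! ### the mirror image -/

theorem fdom_conj {z : ℂ} (h : fdom z) : fdom ((starRingEnd ℂ) z) := by
  unfold fdom at *
  rw [conj_im, conj_re]
  rcases h with h | h
  · exact Or.inl (neg_ne_zero.2 h)
  · exact Or.inr h

theorem he_conj' {z : ℂ} (h : fdom z) : he ((starRingEnd ℂ) z) = (starRingEnd ℂ) (he z) := by
  rcases lt_trichotomy z.im 0 with h1 | h1 | h1
  · have := he_conj (z := (starRingEnd ℂ) z) (by rw [conj_im]; linarith)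
    rw [conj_conj] at this
    rw [this, conj_conj]
  · have h2 : 0 < z.re ∧ z.re < 1 := by
      rcases h with h | h
      · exact absurd h1 h
      · exact h
    rw [he_eq_hh (by rw [conj_re]; exact h2.1) (by rw [conj_re]; exact h2.2), he_eq_hh h2.1 h2.2,
      Pool.Agent.H63.VC3.hh_conj z h2.1 h2.2]
  · exact he_conj h1

theorem ct_conj (z : ℂ) : ct ((starRingEnd ℂ) z) = (starRingEnd ℂ) (ct z) := by
  have e : (Real.pi : ℂ) * (starRingEnd ℂ) z = (starRingEnd ℂ) (Real.pi * z) := by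
    rw [map_mul, conj_ofReal]
  rw [ct, ct, e, Complex.sin_conj, Complex.cos_conj, map_div₀, map_mul, conj_ofReal]

theorem dgv_conj_neg (u : ℂ) : dgv (-((starRingEnd ℂ) u)) = (starRingEnd ℂ) (dgv u) := by
  rw [dgv, dgv, cosh_neg, ← conj_cosh', map_div₀, map_mul, map_one, conj_ofReal]

theorem ECrit1.mirror {u yc Q : ℂ} {s : ℤ} {β : ℝ} (hu : |u.im| < Real.pi / 2)
    (h : ECrit1 u yc Q s β) :
    ECrit1 (-((starRingEnd ℂ) u)) ((starRingEnd ℂ) yc) (-((starRingEnd ℂ) Q)) (-s) (-β) := by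
  have hv : gdv (-((starRingEnd ℂ) u)) = -((starRingEnd ℂ) (gdv u)) := by
    rw [gdv_neg (by rwa [conj_im, abs_neg]), gdv_conj hu]
  obtain ⟨⟨⟨y0, y1, d1, d2⟩, _⟩, hy, h1, hA, hD⟩ := h
  have a1 : (starRingEnd ℂ) yc - -((starRingEnd ℂ) (gdv u)) = (starRingEnd ℂ) (yc + gdv u) := by
    rw [map_add]; ring
  have a2 : (starRingEnd ℂ) yc + -((starRingEnd ℂ) (gdv u)) = (starRingEnd ℂ) (yc - gdv u) := by
    rw [map_sub]; ring
  have a3 : (starRingEnd ℂ) yc + 1 / 2 = (starRingEnd ℂ) (yc + 1 / 2) := by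
    rw [map_add, map_div₀, map_one, Complex.conj_ofNat]
  have a4 : hh ((starRingEnd ℂ) (yc + 1 / 2)) = (starRingEnd ℂ) (hh (yc + 1 / 2)) := by
    apply Pool.Agent.H63.VC3.hh_conj
    · rw [add_re]; norm_num; linarith
    · rw [add_re]; norm_num; linarith
  have b1 : ey ((starRingEnd ℂ) yc) (.op (gdv (-((starRingEnd ℂ) u))))
      = (starRingEnd ℂ) (ey yc (.op (gdv u))) := by
    rw [hv, ey, ey, a1, a2, a3, a4, he_conj' d1, he_conj' d2]
    simp only [map_sub, map_mul, Complex.conj_ofNat]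
    ring
  have b2 : ey ((starRingEnd ℂ) yc) (.cl (-s)) = (starRingEnd ℂ) (ey yc (.cl s)) := by
    rw [ey, ey, a3, a4]
    simp only [map_sub, map_mul, conj_ofReal, conj_I, map_one, map_intCast]
    push_cast
    ring
  have b3 : ev ((starRingEnd ℂ) yc) (gdv (-((starRingEnd ℂ) u)))
      = -((starRingEnd ℂ) (ev yc (gdv u))) := by
    rw [hv, ev, ev, a1, a2, he_conj' d1, he_conj' d2, map_sub]
    ring
  have c1 : eyy ((starRingEnd ℂ) yc) (.op (gdv (-((starRingEnd ℂ) u))))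
      = (starRingEnd ℂ) (eyy yc (.op (gdv u))) := by
    rw [hv, eyy, eyy, a1, a2, a3, ct_conj, ct_conj, ct_conj]
    simp only [map_sub, map_mul, Complex.conj_ofNat]
    ring
  have c2 : eyy ((starRingEnd ℂ) yc) (.cl (-s)) = (starRingEnd ℂ) (eyy yc (.cl s)) := by
    rw [eyy, eyy, a3, ct_conj]
    simp only [map_add, map_mul, conj_ofReal, conj_I, map_intCast]
    push_cast
    ring
  have c3 : eyv ((starRingEnd ℂ) yc) (gdv (-((starRingEnd ℂ) u)))
      = -((starRingEnd ℂ) (eyv yc (gdv u))) := by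
    rw [hv, eyv, eyv, a1, a2, ct_conj, ct_conj, map_sub]
    ring
  have c4 : evv ((starRingEnd ℂ) yc) (gdv (-((starRingEnd ℂ) u)))
      = (starRingEnd ℂ) (evv yc (gdv u)) := by
    rw [hv, evv, evv, a1, a2, ct_conj, ct_conj, map_sub, map_neg]
    ring
  refine ⟨⟨⟨by rwa [conj_re], by rwa [conj_re], ?_, ?_⟩, by rwa [conj_re], by rwa [conj_re]⟩,
    ?_, ?_, ?_, ?_⟩
  · rw [hv, a1]; exact fdom_conj d2
  · rw [hv, a2]; exact fdom_conj d1
  · rw [b1, b2, ← map_add, hy, map_zero]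
  · rw [b3, h1]
    simp only [map_mul, map_neg, Complex.conj_ofNat]
    ring
  · rw [c1, c2, ← map_add, conj_re]; exact hA
  · intro a ha
    have k := hD a ha
    rw [← conj_re] at k
    rw [c1, c2, c3, c4, dgv_conj_neg]
    convert k using 2
    simp only [map_sub, map_add, map_mul, map_div₀, map_pow, conj_I, conj_ofReal,
      ofReal_neg]
    ring

namespace E

variable {ι : Type*} [Finite ι] {a : ι → ℝ} {nl nr : ι → Option ι} {z : ι → ℂ}

/-- The critical point at a closed edge, `c > 0` at the open vertex `i`. -/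
theorem Zr.ecrit1_pos (h : Zr a nl nr 1 z) {i j : ι} (hj : IsEnd2 a nl nr j i) :
    ECrit1 (-((starRingEnd ℂ) (uu (z i))))
      ((starRingEnd ℂ) (yy (uu (z i)) ((starRingEnd ℂ) (uu (z j)))))
      (-((starRingEnd ℂ) (qe (z i) (z j)))) (-1) (2 * Real.pi * bw (z i) (z j)) := by
  have hu : |(uu (z i)).im| < Real.pi / 2 := by
    rw [uu, UU_im]
    exact abs_th_lt (h.pos i).1 (h.pos i).2.1 (h.pos i).2.2
  have := (h.ecrit1 hj).1.mirror hu
  rwa [neg_neg] at this

end E

end Pool.Agent.S3
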