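import Pool.Agent.S3.BridgeS

/-!
# Stage 3: the real part of `Φ` on the product of two lines

With `u = UU x θ`, `w = UU x' (-θ')`, `v = gdv u`, `v' = gdv w`, `y = yy u w` the real part of `Φ` is
`EE (op v) (op v') y` if `x x' ≤ 0`, and `EE (op v) (op v') y` minus two losses if `x x' ≥ 0`.
-/

namespace Pool.Agent.S3

open Complex
open Pool.Agent.H25.RK (gdv gdv_re_lt gdv_hasDerivAt)

theorem gdv_neg {u : ℂ} (h : |u.im| < Real.pi / 2) : gdv (-u) = -gdv u := by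
  have hpi : (Real.pi : ℂ) ≠ 0 := by exact_mod_cast Real.pi_ne_zero
  have h1 := gd_eq (u := -u) (by rwa [neg_im, abs_neg])
  rw [gd_neg h, gd_eq h, ← mul_neg] at h1
  exact (mul_left_cancel₀ hpi h1).symm

theorem se_neg (y v : ℂ) : se y (.op (-v)) = se y (.op v) := by
  rw [se, se, sub_neg_eq_add, ← sub_eq_add_neg]; ring

theorem se_conj (y v : ℂ) :
    se ((starRingEnd ℂ) y) (.op ((starRingEnd ℂ) v)) = se y (.op v) := by
  have e : (starRingEnd ℂ) y + 1 / 2 = (starRingEnd ℂ) (y + 1 / 2) := by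
    rw [map_add, map_div₀, map_one, Complex.conj_ofNat]
  rw [se, se, e, ← map_sub, ← map_add, Rf_conj, Rf_conj, Rf_conj]

theorem EE_neg_left (y v w : ℂ) : EE (.op (-v)) (.op w) y = EE (.op v) (.op w) y := by
  rw [EE, EE, se_neg]

theorem EE_neg_right (y v w : ℂ) : EE (.op v) (.op (-w)) y = EE (.op v) (.op w) y := by
  rw [EE, EE, se_neg]

theorem EE_conj (y v w : ℂ) :
    EE (.op ((starRingEnd ℂ) v)) (.op ((starRingEnd ℂ) w)) ((starRingEnd ℂ) y)
      = EE (.op v) (.op w) y := by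
  rw [EE, EE, se_conj, se_conj]

theorem EE_comm (y v w : ℂ) : EE (.op w) (.op v) y = EE (.op v) (.op w) y := by
  rw [EE, EE, add_comm]

/-- real part of the sum of the potentials -/
theorem sP_re {y v : ℂ} (h : sdom y (.op v)) : (sP y (.op v)).re = se y (.op v) := by
  obtain ⟨y0, y1, h1, h2⟩ := h
  have e2 : ∀ z : ℂ, (2 * z).re = 2 * z.re := fun z => by
    rw [show (2 : ℂ) = ((2 : ℝ) : ℂ) by norm_num, re_ofReal_mul]
  have h3 : Rf (y + 1 / 2) = (Pool.Agent.H63.VC3.ff (y + 1 / 2)).re := by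
    apply Rf_eq_ff
    · rw [add_re]; norm_num; linarith
    · rw [add_re]; norm_num; linarith
  rw [sP, se, sub_re, sub_re, ← Rf_eq_re_fe h1, ← Rf_eq_re_fe h2, e2, h3]

theorem lossL_nonneg (z : ℂ) : 0 ≤ lossL z := by
  rw [lossL]
  split_ifs with h
  · have := h.2
    have := Real.pi_pos
    positivity
  · exact le_rfl

theorem lossL_zero {z : ℂ} (h : z.im ≤ 0 ∨ 0 ≤ z.re) : lossL z = 0 := by
  rw [lossL, if_neg]
  rintro ⟨h1, h2⟩
  rcases h with h | h <;> linarith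

section

variable {Φ : ℂ → ℂ → ℂ} {θ θ' : ℝ}

/-- both positive, no loss -/
theorem bridge_pos (hΦ : IsPhi Φ) (h0 : Φ 0 0 = c00) (hθ : 0 ≤ θ) (hθ' : 0 ≤ θ')
    (hS : θ + θ' < Real.pi / 2) {x x' : ℝ} (hx : 0 ≤ x) (hx' : 0 ≤ x')
    (h1 : (yy (UU x θ) (UU x' (-θ')) - gdv (UU x θ)).im ≤ 0 ∨
      0 ≤ (yy (UU x θ) (UU x' (-θ')) - gdv (UU x θ)).re)
    (h2 : 0 ≤ (yy (UU x θ) (UU x' (-θ')) - gdv (UU x' (-θ'))).im ∨
      0 ≤ (yy (UU x θ) (UU x' (-θ')) - gdv (UU x' (-θ'))).re) :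
    (Φ (gd (UU x θ) / (Real.pi : ℂ)) (gd (UU x' (-θ')) / (Real.pi : ℂ))).re
      = EE (.op (gdv (UU x θ))) (.op (gdv (UU x' (-θ')))) (yy (UU x θ) (UU x' (-θ'))) := by
  have hr : Reg (UU x θ) (UU x' (-θ')) := by
    apply Reg_UU; rw [abs_neg, abs_of_nonneg hθ, abs_of_nonneg hθ']; exact hS
  have hq : QO (UU x θ) (UU x' (-θ')) := ⟨hr, by rwa [UU_re], by rwa [UU_re], by rwa [UU_im],
    by rw [UU_im]; linarith⟩
  rw [bridge_QO_re hΦ h0 hq, lossL_zero h1, lossL_zero]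
  · ring
  · rw [conj_im, conj_re]
    rcases h2 with h2 | h2
    · left; linarith
    · right; exact h2

/-- in general `Re Φ ≤ EE` for both positive -/
theorem bridge_pos_le (hΦ : IsPhi Φ) (h0 : Φ 0 0 = c00) (hθ : 0 ≤ θ) (hθ' : 0 ≤ θ')
    (hS : θ + θ' < Real.pi / 2) {x x' : ℝ} (hx : 0 ≤ x) (hx' : 0 ≤ x') :
    (Φ (gd (UU x θ) / (Real.pi : ℂ)) (gd (UU x' (-θ')) / (Real.pi : ℂ))).re
      ≤ EE (.op (gdv (UU x θ))) (.op (gdv (UU x' (-θ')))) (yy (UU x θ) (UU x' (-θ'))) := by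
  have hr : Reg (UU x θ) (UU x' (-θ')) := by
    apply Reg_UU; rw [abs_neg, abs_of_nonneg hθ, abs_of_nonneg hθ']; exact hS
  have hq : QO (UU x θ) (UU x' (-θ')) := ⟨hr, by rwa [UU_re], by rwa [UU_re], by rwa [UU_im],
    by rw [UU_im]; linarith⟩
  rw [bridge_QO_re hΦ h0 hq]
  have := lossL_nonneg (yy (UU x θ) (UU x' (-θ')) - gdv (UU x θ))
  have := lossL_nonneg ((starRingEnd ℂ) (yy (UU x θ) (UU x' (-θ')) - gdv (UU x' (-θ'))))
  linarith

/-- the reflection of both -/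
theorem Phi_re_neg (hΦ : IsPhi Φ) (hθ : 0 ≤ θ) (hθ' : 0 ≤ θ')
    (hS : θ + θ' < Real.pi / 2) (x x' : ℝ) :
    (Φ (gd (UU (-x) θ) / (Real.pi : ℂ)) (gd (UU (-x') (-θ')) / (Real.pi : ℂ))).re
      = (Φ (gd (UU x θ) / (Real.pi : ℂ)) (gd (UU x' (-θ')) / (Real.pi : ℂ))).re := by
  have hr : Reg (UU x θ) (UU x' (-θ')) := by
    apply Reg_UU; rw [abs_neg, abs_of_nonneg hθ, abs_of_nonneg hθ']; exact hS
  have e1 : UU (-x) θ = -((starRingEnd ℂ) (UU x θ)) := by rw [UU_conj, UU_neg, neg_neg]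
  have e2 : UU (-x') (-θ') = -((starRingEnd ℂ) (UU x' (-θ'))) := by rw [UU_conj, UU_neg, neg_neg]
  rw [e1, e2, hΦ.even_left _ _ hr.conj_left.conj_right.neg_right,
    hΦ.even_right _ _ hr.conj_left.conj_right, hΦ.conj _ _ hr]

theorem yy_refl (hθ : 0 ≤ θ) (hθ' : 0 ≤ θ') (hS : θ + θ' < Real.pi / 2) (x x' : ℝ) :
    yy (UU (-x) θ) (UU (-x') (-θ')) = (starRingEnd ℂ) (yy (UU x θ) (UU x' (-θ'))) := by
  have hr : Reg (UU x θ) (UU x' (-θ')) := by
    apply Reg_UU; rw [abs_neg, abs_of_nonneg hθ, abs_of_nonneg hθ']; exact hS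
  have e1 : UU (-x) θ = -((starRingEnd ℂ) (UU x θ)) := by rw [UU_conj, UU_neg, neg_neg]
  have e2 : UU (-x') (-θ') = -((starRingEnd ℂ) (UU x' (-θ'))) := by rw [UU_conj, UU_neg, neg_neg]
  rw [e1, e2, yy_neg_left, yy_neg_right, yy_conj hr]

theorem gdv_refl {x t : ℝ} (h : |t| < Real.pi / 2) :
    gdv (UU (-x) t) = -((starRingEnd ℂ) (gdv (UU x t))) := by
  have e1 : UU (-x) t = -((starRingEnd ℂ) (UU x t)) := by rw [UU_conj, UU_neg, neg_neg]
  have h' : |(UU x t).im| < Real.pi / 2 := by rwa [UU_im]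
  rw [e1, gdv_neg (by rwa [conj_im, abs_neg]), gdv_conj h']

/-- the growth rate at the reflected point -/
theorem EE_refl (hθ : 0 ≤ θ) (hθ' : 0 ≤ θ') (hS : θ + θ' < Real.pi / 2) (x x' : ℝ) :
    EE (.op (gdv (UU (-x) θ))) (.op (gdv (UU (-x') (-θ')))) (yy (UU (-x) θ) (UU (-x') (-θ')))
      = EE (.op (gdv (UU x θ))) (.op (gdv (UU x' (-θ')))) (yy (UU x θ) (UU x' (-θ'))) := by
  have h1 : |θ| < Real.pi / 2 := by rw [abs_of_nonneg hθ]; linarith
  have h2 : |(-θ')| < Real.pi / 2 := by rw [abs_neg, abs_of_nonneg hθ']; linarith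
  rw [yy_refl hθ hθ' hS, gdv_refl h1, gdv_refl h2, EE_neg_left, EE_neg_right, EE_conj]

/-- opposite signs of `x`, `x'` -/
theorem bridge_mixed (hΦ : IsPhi Φ) (h0 : Φ 0 0 = c00) (hθ : 0 ≤ θ) (hθ' : 0 ≤ θ')
    (hS : θ + θ' < Real.pi / 2) (hθ3 : θ ≤ Real.pi / 3) (hθ3' : θ' ≤ Real.pi / 3)
    {x x' : ℝ} (hxx : x * x' ≤ 0) :
    (Φ (gd (UU x θ) / (Real.pi : ℂ)) (gd (UU x' (-θ')) / (Real.pi : ℂ))).re
      = EE (.op (gdv (UU x θ))) (.op (gdv (UU x' (-θ')))) (yy (UU x θ) (UU x' (-θ'))) := by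
  have key : ∀ x x' : ℝ, 0 ≤ x → x' ≤ 0 →
      (Φ (gd (UU x θ) / (Real.pi : ℂ)) (gd (UU x' (-θ')) / (Real.pi : ℂ))).re
      = EE (.op (gdv (UU x θ))) (.op (gdv (UU x' (-θ')))) (yy (UU x θ) (UU x' (-θ'))) := by
    intro x x' hx hx'
    have hr : Reg (UU x θ) (UU x' (-θ')) := by
      apply Reg_UU; rw [abs_neg, abs_of_nonneg hθ, abs_of_nonneg hθ']; exact hS
    have e : UU (-x') θ' = -(UU x' (-θ')) := by rw [UU_neg, neg_neg]
    have hq : QS (UU x θ) (UU (-x') θ') :=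
      ⟨by rw [e]; exact hr.neg_right, by rwa [UU_re], by rw [UU_re]; linarith, by rwa [UU_im],
        by rwa [UU_im], by rwa [UU_im], by rwa [UU_im]⟩
    have k := congrArg Complex.re (bridge_QS hΦ h0 hq)
    have s1 : sdom (yy (UU x θ) (UU (-x') θ')) (.op (gdv (UU x θ))) := sdom_op hq.reg hq.good
    have s2 : sdom (yy (UU x θ) (UU (-x') θ')) (.op (gdv (UU (-x') θ'))) := by
      have := sdom_op hq.symm.reg hq.symm.good
      rwa [yy_comm] at this
    rw [add_re, sP_re s1, sP_re s2, e, hΦ.even_right _ _ hr, yy_neg_right, gdv_neg hr.right,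
      se_neg] at k
    exact k
  rcases le_total 0 x with hx | hx
  · rcases le_total x' 0 with hx' | hx'
    · exact key x x' hx hx'
    · rcases hx.eq_or_lt with h | h
      · have k := key (-x) (-x') (by rw [← h]; simp) (by linarith)
        rw [Phi_re_neg hΦ hθ hθ' hS, EE_refl hθ hθ' hS] at k
        exact k
      · have : x' = 0 := by
          have : x' ≤ 0 := by
            by_contra hc
            push Not at hc
            have := mul_pos h hc
            linarith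
          linarith
        exact key x x' hx this.le
  · rcases le_total 0 x' with hx' | hx'
    · have k := key (-x) (-x') (by linarith) (by linarith)
      rw [Phi_re_neg hΦ hθ hθ' hS, EE_refl hθ hθ' hS] at k
      exact k
    · rcases hx.eq_or_lt with h | h
      · exact key x x' (by rw [h]) hx'
      · have : x' = 0 := by
          have : 0 ≤ x' := by
            by_contra hc
            push Not at hc
            have := mul_pos_of_neg_of_neg h hc
            linarith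
          linarith
        have k := key (-x) (-x') (by linarith) (by linarith)
        rw [Phi_re_neg hΦ hθ hθ' hS, EE_refl hθ hθ' hS] at k
        exact k

/-- both negative, no loss -/
theorem bridge_neg (hΦ : IsPhi Φ) (h0 : Φ 0 0 = c00) (hθ : 0 ≤ θ) (hθ' : 0 ≤ θ')
    (hS : θ + θ' < Real.pi / 2) {x x' : ℝ} (hx : x ≤ 0) (hx' : x' ≤ 0)
    (h1 : 0 ≤ (yy (UU x θ) (UU x' (-θ')) + gdv (UU x θ)).im ∨
      0 ≤ (yy (UU x θ) (UU x' (-θ')) + gdv (UU x θ)).re)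
    (h2 : (yy (UU x θ) (UU x' (-θ')) + gdv (UU x' (-θ'))).im ≤ 0 ∨
      0 ≤ (yy (UU x θ) (UU x' (-θ')) + gdv (UU x' (-θ'))).re) :
    (Φ (gd (UU x θ) / (Real.pi : ℂ)) (gd (UU x' (-θ')) / (Real.pi : ℂ))).re
      = EE (.op (gdv (UU x θ))) (.op (gdv (UU x' (-θ')))) (yy (UU x θ) (UU x' (-θ'))) := by
  have t1 : |θ| < Real.pi / 2 := by rw [abs_of_nonneg hθ]; linarith
  have t2 : |(-θ')| < Real.pi / 2 := by rw [abs_neg, abs_of_nonneg hθ']; linarith
  have e1 : gdv (UU x θ) = -((starRingEnd ℂ) (gdv (UU (-x) θ))) := by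
    have := gdv_refl (x := -x) t1
    rwa [neg_neg] at this
  have e2 : gdv (UU x' (-θ')) = -((starRingEnd ℂ) (gdv (UU (-x') (-θ')))) := by
    have := gdv_refl (x := -x') t2
    rwa [neg_neg] at this
  have e3 : yy (UU x θ) (UU x' (-θ')) = (starRingEnd ℂ) (yy (UU (-x) θ) (UU (-x') (-θ'))) := by
    have := yy_refl hθ hθ' hS (-x) (-x')
    rwa [neg_neg, neg_neg] at this
  have k := bridge_pos hΦ h0 hθ hθ' hS (x := -x) (x' := -x') (by linarith) (by linarith)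
    (by
      rw [e1, e3, ← sub_eq_add_neg, ← map_sub, conj_im, conj_re] at h1
      rcases h1 with h1 | h1
      · left; linarith
      · right; exact h1)
    (by
      rw [e2, e3, ← sub_eq_add_neg, ← map_sub, conj_im, conj_re] at h2
      rcases h2 with h2 | h2
      · left; linarith
      · right; exact h2)
  rw [Phi_re_neg hΦ hθ hθ' hS, EE_refl hθ hθ' hS] at k
  exact k

end

end Pool.Agent.S3
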