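import Pool.Agent.S3.Refl2

/-!
# Stage 3: the main inequality at an opposite edge

`Dfun < 0` on the product of the lines minus the critical point, uniformly away from it.
-/

namespace Pool.Agent.S3

open Complex

/-- The hypotheses on the weights: the canonical split. -/
structure Split (θ θ' xc xc' b b' : ℝ) : Prop where
  b0 : 0 < b
  b0' : 0 < b'
  hQ : (qq (UU xc θ) (UU xc' (-θ'))).re = b * (gd (UU xc θ)).im
  hQ' : (qq (UU xc' θ') (UU xc (-θ))).re = b' * (gd (UU xc' θ')).im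

variable {θ θ' xc xc' b b' : ℝ} {Φ : ℂ → ℂ → ℂ}

theorem Split.symm (h : Split θ θ' xc xc' b b') : Split θ' θ xc' xc b' b where
  b0 := h.b0'
  b0' := h.b0
  hQ := h.hQ'
  hQ' := h.hQ

/-- the weight of a reflection is nonnegative -/
theorem refl_weight_nonneg (hθ : 0 < θ) (hθ' : θ < Real.pi / 2) (hb : 0 < b) {x : ℝ}
    (hx : 0 ≤ x) : 0 ≤ 4 / Real.pi * (b * ((gd (UU x θ)).re * (gd (UU x θ)).im)) := by
  have h1 := gd_im_pos (x := x) hθ hθ'
  have h2 : 0 ≤ (gd (UU x θ)).re := by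
    rcases hx.eq_or_lt with rfl | h0
    · have := gd_neg_conj (x := 0) (t := θ) (by rw [abs_of_pos hθ]; exact hθ')
      rw [neg_zero] at this
      have := congrArg Complex.re this
      rw [neg_re, conj_re] at this
      linarith
    · exact (gd_re_pos h0 (by rw [abs_of_pos hθ]; exact hθ')).le
  have := Real.pi_pos
  positivity

theorem refl_weight_pos (hθ : 0 < θ) (hθ' : θ < Real.pi / 2) (hb : 0 < b) {x : ℝ}
    (hx : 0 < x) : 0 < 4 / Real.pi * (b * ((gd (UU x θ)).re * (gd (UU x θ)).im)) := by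
  have h1 := gd_im_pos (x := x) hθ hθ'
  have h2 := gd_re_pos hx (t := θ) (by rw [abs_of_pos hθ]; exact hθ')
  have := Real.pi_pos
  positivity

/-- comparison with the first quadrant -/
theorem Dfun_le_abs (hΦ : IsPhi Φ) (h : OppHyp θ θ' xc xc') (hs : Split θ θ' xc xc' b b')
    (x x' : ℝ) :
    Dfun Φ θ θ' b b' xc xc' x x' ≤ Dfun Φ θ θ' b b' xc xc' |x| |x'| ∧
    (x < 0 → Dfun Φ θ θ' b b' xc xc' x x' ≤ Dfun Φ θ θ' b b' xc xc' |x| |x'|
      - 4 / Real.pi * (b * ((gd (UU |x| θ)).re * (gd (UU |x| θ)).im))) ∧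
    (x' < 0 → Dfun Φ θ θ' b b' xc xc' x x' ≤ Dfun Φ θ θ' b b' xc xc' |x| |x'|
      - 4 / Real.pi * (b' * ((gd (UU |x'| θ')).re * (gd (UU |x'| θ')).im))) := by
  have w1 := refl_weight_nonneg (b := b) h.θ0 (θ_lt h) hs.b0 (abs_nonneg x)
  have w2 := refl_weight_nonneg (b := b') h.θ0' (θ_lt h.symm) hs.b0' (abs_nonneg x')
  rcases le_or_gt 0 x with hx | hx <;> rcases le_or_gt 0 x' with hx' | hx'
  · rw [abs_of_nonneg hx, abs_of_nonneg hx']
    exact ⟨le_rfl, fun h0 => absurd h0 (not_lt.2 hx), fun h0 => absurd h0 (not_lt.2 hx')⟩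
  · have e := Dfun_refl_right (b := b) hΦ h hs.hQ' (x := |x|) (x' := |x'|) (abs_nonneg _) (abs_nonneg _)
    have e1 : |x| = x := abs_of_nonneg hx
    have e2 : -|x'| = x' := by rw [abs_of_neg hx']; ring
    rw [e2] at e
    rw [e1] at e w1 ⊢
    exact ⟨by linarith, fun h0 => absurd h0 (not_lt.2 hx), fun _ => e⟩
  · have e := Dfun_refl_left (b' := b') hΦ h hs.hQ (x := |x|) (x' := |x'|) (abs_nonneg _) (abs_nonneg _)
    have e1 : |x'| = x' := abs_of_nonneg hx'
    have e2 : -|x| = x := by rw [abs_of_neg hx]; ring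
    rw [e2] at e
    rw [e1] at e w2 ⊢
    exact ⟨by linarith, fun _ => e, fun h0 => absurd h0 (not_lt.2 hx')⟩
  · have e := Dfun_refl_both hΦ h hs.hQ hs.hQ' |x| |x'|
    have e1 : -|x| = x := by rw [abs_of_neg hx]; ring
    have e2 : -|x'| = x' := by rw [abs_of_neg hx']; ring
    rw [e1, e2] at e
    refine ⟨by linarith, fun _ => by linarith, fun _ => by linarith⟩

/-- the main inequality -/
theorem Dfun_main (hΦ : IsPhi Φ) (h : OppHyp θ θ' xc xc') (hs : Split θ θ' xc xc' b b')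
    (hc : 0 < xc) (hc' : 0 < xc') (x x' : ℝ) :
    Dfun Φ θ θ' b b' xc xc' x x' ≤ 0 :=
  le_trans (Dfun_le_abs hΦ h hs x x').1
    (Dfun_nonpos hΦ h hs.b0 hs.b0' hc.le hc'.le (abs_nonneg _) (abs_nonneg _))

theorem Dfun_main_lt (hΦ : IsPhi Φ) (h : OppHyp θ θ' xc xc') (hs : Split θ θ' xc xc' b b')
    (hc : 0 < xc) (hc' : 0 < xc') {x x' : ℝ} (hne : (x, x') ≠ (xc, xc')) :
    Dfun Φ θ θ' b b' xc xc' x x' < 0 := by
  obtain ⟨h1, h2, h3⟩ := Dfun_le_abs hΦ h hs x x'
  have h4 := Dfun_nonpos hΦ h hs.b0 hs.b0' hc.le hc'.le (abs_nonneg x) (abs_nonneg x')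
  rcases lt_or_ge x 0 with hx | hx
  · have := refl_weight_pos (b := b) h.θ0 (θ_lt h) hs.b0 (abs_pos.2 hx.ne)
    have := h2 hx
    linarith
  · rcases lt_or_ge x' 0 with hx' | hx'
    · have := refl_weight_pos (b := b') h.θ0' (θ_lt h.symm) hs.b0' (abs_pos.2 hx'.ne)
      have := h3 hx'
      linarith
    · exact Dfun_neg hΦ h hs.b0 hs.b0' hc.le hc'.le hx hx' hne

/-- a continuous negative function on a compact interval is bounded away from `0` -/
theorem exists_neg_bound {f : ℝ → ℝ} {a c : ℝ} (hac : a ≤ c) (hf : ContinuousOn f (Set.Icc a c))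
    (hn : ∀ x ∈ Set.Icc a c, f x < 0) : ∃ δ : ℝ, 0 < δ ∧ ∀ x ∈ Set.Icc a c, f x ≤ -δ := by
  obtain ⟨m, hm, hmax⟩ := isCompact_Icc.exists_isMaxOn ⟨a, le_rfl, hac⟩ hf
  refine ⟨-f m, by have := hn m hm; linarith, fun x hx => ?_⟩
  have : f x ≤ f m := hmax hx
  linarith

/-- uniform strictness in the first quadrant -/
theorem Dfun_unif_quadrant (hΦ : IsPhi Φ) (h : OppHyp θ θ' xc xc') (hb : 0 < b) (hb' : 0 < b')
    {r : ℝ} (hr : 0 < r) (hrc : r < xc) (hrc' : r < xc') :
    ∃ δ : ℝ, 0 < δ ∧ ∀ x x' : ℝ, 0 ≤ x → 0 ≤ x' → r ≤ max |x - xc| |x' - xc'| →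
      Dfun Φ θ θ' b b' xc xc' x x' ≤ -δ := by
  have hc : 0 < xc := by linarith
  have hc' : 0 < xc' := by linarith
  -- the four sides of the square
  have neg1 : ∀ x x' : ℝ, 0 ≤ x → 0 ≤ x' → max |x - xc| |x' - xc'| = r →
      Dfun Φ θ θ' b b' xc xc' x x' < 0 := by
    intro x x' hx hx' hm
    apply Dfun_neg hΦ h hb hb' hc.le hc'.le hx hx'
    intro he
    rw [Prod.mk.injEq] at he
    rw [he.1, he.2] at hm
    simp at hm
    linarith
  have side1 : ∀ σ : ℝ, (σ = 1 ∨ σ = -1) → ∃ δ : ℝ, 0 < δ ∧ ∀ s ∈ Set.Icc (-r) r,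
      Dfun Φ θ θ' b b' xc xc' (xc + σ * r) (xc' + s) ≤ -δ := by
    intro σ hσ
    apply exists_neg_bound (by linarith)
    · have := Dfun_continuous_dir (b := b) (b' := b') hΦ h (xc + σ * r) xc' 0 1
      simp only [zero_mul, add_zero, one_mul] at this
      exact this.continuousOn
    · intro s hs
      have habs : |σ| = 1 := by rcases hσ with rfl | rfl <;> norm_num
      apply neg1
      · rcases hσ with rfl | rfl <;> linarith
      · linarith [hs.1]
      · rw [add_sub_cancel_left, add_sub_cancel_left, abs_mul, habs, one_mul, abs_of_pos hr]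
        exact max_eq_left (abs_le.2 ⟨hs.1, hs.2⟩)
  have side2 : ∀ σ : ℝ, (σ = 1 ∨ σ = -1) → ∃ δ : ℝ, 0 < δ ∧ ∀ s ∈ Set.Icc (-r) r,
      Dfun Φ θ θ' b b' xc xc' (xc + s) (xc' + σ * r) ≤ -δ := by
    intro σ hσ
    apply exists_neg_bound (by linarith)
    · have := Dfun_continuous_dir (b := b) (b' := b') hΦ h xc (xc' + σ * r) 1 0
      simp only [zero_mul, add_zero, one_mul] at this
      exact this.continuousOn
    · intro s hs
      have habs : |σ| = 1 := by rcases hσ with rfl | rfl <;> norm_num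
      apply neg1
      · linarith [hs.1]
      · rcases hσ with rfl | rfl <;> linarith
      · rw [add_sub_cancel_left, add_sub_cancel_left, abs_mul, habs, one_mul, abs_of_pos hr]
        exact max_eq_right (abs_le.2 ⟨hs.1, hs.2⟩)
  obtain ⟨d1, p1, q1⟩ := side1 1 (Or.inl rfl)
  obtain ⟨d2, p2, q2⟩ := side1 (-1) (Or.inr rfl)
  obtain ⟨d3, p3, q3⟩ := side2 1 (Or.inl rfl)
  obtain ⟨d4, p4, q4⟩ := side2 (-1) (Or.inr rfl)
  set δ := min (min d1 d2) (min d3 d4) with hδ
  have m1 : δ ≤ d1 := le_trans (min_le_left _ _) (min_le_left _ _)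
  have m2 : δ ≤ d2 := le_trans (min_le_left _ _) (min_le_right _ _)
  have m3 : δ ≤ d3 := le_trans (min_le_right _ _) (min_le_left _ _)
  have m4 : δ ≤ d4 := le_trans (min_le_right _ _) (min_le_right _ _)
  have hδ0 : 0 < δ := lt_min (lt_min p1 p2) (lt_min p3 p4)
  have sq : ∀ y y' : ℝ, max |y - xc| |y' - xc'| = r → Dfun Φ θ θ' b b' xc xc' y y' ≤ -δ := by
    intro y y' hm
    have hy : |y - xc| ≤ r := by rw [← hm]; exact le_max_left _ _
    have hy' : |y' - xc'| ≤ r := by rw [← hm]; exact le_max_right _ _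
    rcases max_choice |y - xc| |y' - xc'| with hch | hch
    · rw [hch] at hm
      rcases abs_eq hr.le |>.1 hm with e | e
      · have := q1 (y' - xc') (abs_le.1 hy')
        rw [show xc + 1 * r = y by linarith, show xc' + (y' - xc') = y' by ring] at this
        linarith
      · have := q2 (y' - xc') (abs_le.1 hy')
        rw [show xc + -1 * r = y by linarith, show xc' + (y' - xc') = y' by ring] at this
        linarith
    · rw [hch] at hm
      rcases abs_eq hr.le |>.1 hm with e | e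
      · have := q3 (y - xc) (abs_le.1 hy)
        rw [show xc' + 1 * r = y' by linarith, show xc + (y - xc) = y by ring] at this
        linarith
      · have := q4 (y - xc) (abs_le.1 hy)
        rw [show xc' + -1 * r = y' by linarith, show xc + (y - xc) = y by ring] at this
        linarith
  refine ⟨δ, hδ0, fun x x' hx hx' hm => ?_⟩
  rcases hm.eq_or_lt with he | hlt
  · exact sq x x' he.symm
  · obtain ⟨y, y', _, _, hyy, hD⟩ := Dfun_path (b := b) (b' := b') hΦ h hb hb' hc.le hc'.le hx hx'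
      hr.le hlt
    have := sq y y' hyy
    linarith

/-- lower bound for the weight of a reflection -/
theorem refl_weight_unif (hθ : 0 < θ) (hθ' : θ < Real.pi / 2) (hb : 0 < b) {r : ℝ}
    (hr : 0 < r) (hrc : r < xc) :
    ∃ δ : ℝ, 0 < δ ∧ ∀ x : ℝ, |x - xc| ≤ r →
      δ ≤ 4 / Real.pi * (b * ((gd (UU x θ)).re * (gd (UU x θ)).im)) := by
  have aθ : |θ| < Real.pi / 2 := by rw [abs_of_pos hθ]; exact hθ'
  have hcont : Continuous (fun x : ℝ => gd (UU x θ)) :=
    continuous_iff_continuousAt.2 fun x => (hasDerivAt_gd_line aθ).continuousAt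
  have hcont2 : Continuous (fun x : ℝ =>
      -(4 / Real.pi * (b * ((gd (UU x θ)).re * (gd (UU x θ)).im)))) := by
    have h1 := Complex.continuous_re.comp hcont
    have h2 := Complex.continuous_im.comp hcont
    exact ((((h1.mul h2).const_mul b)).const_mul (4 / Real.pi)).neg
  obtain ⟨δ, h0, h1⟩ := exists_neg_bound (a := xc - r) (c := xc + r) (by linarith)
    hcont2.continuousOn (fun x hx => by
      have := refl_weight_pos (x := x) hθ hθ' hb (by linarith [hx.1])
      linarith)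
  refine ⟨δ, h0, fun x hx => ?_⟩
  have h2 := abs_le.1 hx
  have := h1 x ⟨by linarith, by linarith⟩
  linarith

/-- uniform strictness on the whole product of lines -/
theorem Dfun_unif (hΦ : IsPhi Φ) (h : OppHyp θ θ' xc xc') (hs : Split θ θ' xc xc' b b')
    (hc : 0 < xc) (hc' : 0 < xc') {r : ℝ} (hr : 0 < r) :
    ∃ δ : ℝ, 0 < δ ∧ ∀ x x' : ℝ, (r ≤ |x - xc| ∨ r ≤ |x' - xc'|) →
      Dfun Φ θ θ' b b' xc xc' x x' ≤ -δ := by
  -- a smaller radius
  set ρ := min r (min (xc / 2) (xc' / 2)) with hρ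
  have hρ0 : 0 < ρ := lt_min hr (lt_min (by linarith) (by linarith))
  have hρr : ρ ≤ r := min_le_left _ _
  have hρc : ρ ≤ xc / 2 := le_trans (min_le_right _ _) (min_le_left _ _)
  have hρc' : ρ ≤ xc' / 2 := le_trans (min_le_right _ _) (min_le_right _ _)
  obtain ⟨δ₁, p1, q1⟩ := Dfun_unif_quadrant (b := b) (b' := b') hΦ h hs.b0 hs.b0' hρ0
    (by linarith) (by linarith)
  obtain ⟨δ₂, p2, q2⟩ := refl_weight_unif (b := b) (xc := xc) h.θ0 (θ_lt h) hs.b0 hρ0 (by linarith)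
  obtain ⟨δ₃, p3, q3⟩ := refl_weight_unif (b := b') (xc := xc') h.θ0' (θ_lt h.symm) hs.b0' hρ0 (by linarith)
  refine ⟨min δ₁ (min δ₂ δ₃), lt_min p1 (lt_min p2 p3), fun x x' hx => ?_⟩
  obtain ⟨h1, h2, h3⟩ := Dfun_le_abs hΦ h hs x x'
  have h4 := Dfun_nonpos hΦ h hs.b0 hs.b0' hc.le hc'.le (abs_nonneg x) (abs_nonneg x')
  have l1 : min δ₁ (min δ₂ δ₃) ≤ δ₁ := min_le_left _ _
  have l2 : min δ₁ (min δ₂ δ₃) ≤ δ₂ := le_trans (min_le_right _ _) (min_le_left _ _)
  have l3 : min δ₁ (min δ₂ δ₃) ≤ δ₃ := le_trans (min_le_right _ _) (min_le_right _ _)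
  rcases le_or_gt ρ (max |(|x|) - xc| |(|x'|) - xc'|) with hm | hm
  · have := q1 |x| |x'| (abs_nonneg _) (abs_nonneg _) hm
    linarith
  · have n1 : |(|x|) - xc| < ρ := lt_of_le_of_lt (le_max_left _ _) hm
    have n2 : |(|x'|) - xc'| < ρ := lt_of_le_of_lt (le_max_right _ _) hm
    rcases lt_or_ge x 0 with hx0 | hx0
    · have := h2 hx0
      have := q2 |x| n1.le
      linarith
    · rcases lt_or_ge x' 0 with hx0' | hx0'
      · have := h3 hx0'
        have := q3 |x'| n2.le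
        linarith
      · exfalso
        rw [abs_of_nonneg hx0] at n1
        rw [abs_of_nonneg hx0'] at n2
        rcases hx with hx | hx <;> linarith

end Pool.Agent.S3
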