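import Pool.Agent.S3.Gr3b

/-!
# Edge kernels: the growth rate at the ends of the interval and high up
-/

set_option autoImplicit false

namespace Pool.Agent.S3

open Pool.Agent.H63.VC hiding ext
open Pool.Agent.H63.VC3 Pool.Agent.H63.VC7 Complex MeasureTheory Filter Topology Set
open Pool.Agent.H25.RK

/-- The height of a slot. -/
noncomputable def Sl.ht : Sl → ℝ
  | .op v => |v.im|
  | .cl _ => 0

theorem Sl.ht_nonneg (σ : Sl) : 0 ≤ σ.ht := by
  rcases σ with v | s
  · exact abs_nonneg _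
  · exact le_rfl

/-! ### Monotonicity in the height -/

theorem sinh_sq_le {x y : ℝ} (h : |x| ≤ |y|) : Real.sinh x ^ 2 ≤ Real.sinh y ^ 2 := by
  rw [← sq_abs (Real.sinh x), ← sq_abs (Real.sinh y), Real.abs_sinh, Real.abs_sinh]
  have h1 : Real.sinh |x| ≤ Real.sinh |y| := Real.sinh_le_sinh.mpr h
  have h2 : 0 ≤ Real.sinh |x| := Real.sinh_nonneg_iff.mpr (abs_nonneg x)
  exact pow_le_pow_left₀ h2 h1 2

theorem Lg_mono {η1 η2 t : ℝ} (h : |η1| ≤ |η2|) (hs : Real.sin (Real.pi * t) ≠ 0) :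
    Lg η1 t ≤ Lg η2 t := by
  have h0 : 0 < |Real.sin (Real.pi * t)| := abs_pos.mpr hs
  have h1 := norm_sin_ge t η1
  have h2 : ‖sin (Real.pi * ((t : ℂ) + η1 * I))‖ ≤ ‖sin (Real.pi * ((t : ℂ) + η2 * I))‖ := by
    apply (sq_le_sq₀ (norm_nonneg _) (norm_nonneg _)).mp
    rw [norm_sin_pi_sq, norm_sin_pi_sq]
    have h3 : Real.sinh (Real.pi * η1) ^ 2 ≤ Real.sinh (Real.pi * η2) ^ 2 := by
      apply sinh_sq_le
      rw [abs_mul, abs_mul]
      exact mul_le_mul_of_nonneg_left h (abs_nonneg _)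
    linarith only [h3]
  unfold Lg
  rw [norm_mul, norm_mul, norm_ofNat]
  apply Real.log_le_log (by linarith only [h1, h0])
  linarith only [h2]

theorem Rf_incr {η1 η2 a b : ℝ} (h : |η1| ≤ |η2|) (hab : a ≤ b) :
    Rf ((b : ℂ) + η1 * I) - Rf ((a : ℂ) + η1 * I) ≤
      Rf ((b : ℂ) + η2 * I) - Rf ((a : ℂ) + η2 * I) := by
  rw [← Lg_integral, ← Lg_integral]
  apply intervalIntegral.integral_mono_ae hab (Lg_integrable _ _ _) (Lg_integrable _ _ _)
  filter_upwards [sin_ne_ae] with t ht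
  exact Lg_mono h ht

theorem conj_line (a η : ℝ) : (starRingEnd ℂ) ((a : ℂ) + η * I) = (a : ℂ) + ((-η : ℝ) : ℂ) * I := by
  rw [map_add, map_mul, conj_ofReal, conj_ofReal, conj_I]
  push_cast
  ring

theorem Rf_line_neg (a η : ℝ) : Rf ((a : ℂ) + ((-η : ℝ) : ℂ) * I) = Rf ((a : ℂ) + η * I) := by
  rw [← conj_line, Rf_conj]

theorem line_im (a η : ℝ) : ((a : ℂ) + η * I).im = η := by simp

theorem line_re (a η : ℝ) : ((a : ℂ) + η * I).re = a := by simp

theorem Rf_zero_line (η : ℝ) : Rf (((0 : ℝ) : ℂ) + η * I) = -(Real.pi * |η| / 2) := by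
  have h1 := Rf_one_sub (((0 : ℝ) : ℂ) + η * I)
  have h2 := Rf_add_one (((0 : ℝ) : ℂ) + ((-η : ℝ) : ℂ) * I)
  rw [line_im, Rf_line_neg, abs_neg] at h2
  have e : (1 : ℂ) - (((0 : ℝ) : ℂ) + η * I) = ((0 : ℝ) : ℂ) + ((-η : ℝ) : ℂ) * I + 1 := by
    push_cast
    ring
  rw [e, h2] at h1
  linarith only [h1]

theorem Rf_one_line (η : ℝ) : Rf (((1 : ℝ) : ℂ) + η * I) = Real.pi * |η| / 2 := by
  have h2 := Rf_add_one (((0 : ℝ) : ℂ) + η * I)
  rw [line_im, Rf_zero_line] at h2
  have e : ((0 : ℝ) : ℂ) + (η : ℂ) * I + 1 = ((1 : ℝ) : ℂ) + η * I := by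
    push_cast
    ring
  rw [e] at h2
  linarith only [h2]

theorem Rf_neg_line (a η : ℝ) : Rf (((-a : ℝ) : ℂ) + η * I) =
    -Rf ((a : ℂ) + η * I) - Real.pi * |η| := by
  have h := Rf_neg ((a : ℂ) + ((-η : ℝ) : ℂ) * I)
  rw [line_im, Rf_line_neg, abs_neg] at h
  rw [← h]
  congr 1
  push_cast
  ring

theorem Rf_one_sub_line (a η : ℝ) : Rf (((1 - a : ℝ) : ℂ) + η * I) = -Rf ((a : ℂ) + η * I) := by
  have h := Rf_one_sub ((a : ℂ) + ((-η : ℝ) : ℂ) * I)
  rw [Rf_line_neg] at h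
  rw [← h]
  congr 1
  push_cast
  ring

theorem se_op_neg (y v : ℂ) : se y (.op (-v)) = se y (.op v) := by
  unfold se
  simp only
  rw [sub_neg_eq_add, ← sub_eq_add_neg]
  ring

/-! ### The verticals -/

theorem se_left_op {a b η : ℝ} (h0 : 0 ≤ a) (h1 : a ≤ 1 / 2) :
    se (((0 : ℝ) : ℂ) + η * I) (.op ((a : ℂ) + b * I)) ≤ Real.pi * (|η| + |b|) := by
  have hpi := Real.pi_pos
  have e1 : ((0 : ℝ) : ℂ) + (η : ℂ) * I + 1 / 2 = ((1 / 2 : ℝ) : ℂ) + η * I := by
    push_cast
    ring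
  have e2 : ((0 : ℝ) : ℂ) + (η : ℂ) * I - ((a : ℂ) + b * I) =
      ((-a : ℝ) : ℂ) + ((η - b : ℝ) : ℂ) * I := by
    push_cast
    ring
  have e3 : ((0 : ℝ) : ℂ) + (η : ℂ) * I + ((a : ℂ) + b * I) =
      (a : ℂ) + ((η + b : ℝ) : ℂ) * I := by
    push_cast
    ring
  unfold se
  simp only
  rw [e1, e2, e3, Rf_half, Rf_neg_line]
  have ht1 : |η - b| ≤ |η| + |b| := abs_sub _ _
  have ht2 : |η + b| ≤ |η| + |b| := abs_add_le _ _
  rcases le_total |η - b| |η + b| with h | h
  · have h2 := Rf_incr h h0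
    rw [Rf_zero_line, Rf_zero_line] at h2
    linarith only [h2, mul_nonneg (sub_nonneg.2 hpi.le) (sub_nonneg.2 ht2),
      mul_nonneg (sub_nonneg.2 hpi.le) (sub_nonneg.2 ht1)]
  · have h2 := Rf_incr h h1
    rw [Rf_half, Rf_half] at h2
    linarith only [h2, mul_nonneg (sub_nonneg.2 hpi.le) (sub_nonneg.2 ht1)]

theorem se_right_op {a b η : ℝ} (h0 : 0 ≤ a) (h1 : a ≤ 1 / 2) :
    se (((1 / 2 : ℝ) : ℂ) + η * I) (.op ((a : ℂ) + b * I)) ≤ Real.pi * (|η| + |b|) := by
  have hpi := Real.pi_pos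
  have e1 : ((1 / 2 : ℝ) : ℂ) + (η : ℂ) * I + 1 / 2 = ((1 : ℝ) : ℂ) + η * I := by
    push_cast
    ring
  have e2 : ((1 / 2 : ℝ) : ℂ) + (η : ℂ) * I - ((a : ℂ) + b * I) =
      ((1 - (1 / 2 + a) : ℝ) : ℂ) + ((η - b : ℝ) : ℂ) * I := by
    push_cast
    ring
  have e3 : ((1 / 2 : ℝ) : ℂ) + (η : ℂ) * I + ((a : ℂ) + b * I) =
      ((1 / 2 + a : ℝ) : ℂ) + ((η + b : ℝ) : ℂ) * I := by
    push_cast
    ring
  unfold se
  simp only
  rw [e1, e2, e3, Rf_one_line, Rf_one_sub_line]
  have hb := abs_nonneg b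
  have ht1 : |η - b| ≤ |η + b| + 2 * |b| := by
    have h2 := abs_sub (η + b) (2 * b)
    rw [show η + b - 2 * b = η - b by ring, abs_mul, abs_two] at h2
    exact h2
  rcases le_total |η - b| |η + b| with h | h
  · have h2 := Rf_incr h (show (1 / 2 : ℝ) ≤ 1 / 2 + a by linarith only [h0])
    rw [Rf_half, Rf_half] at h2
    linarith only [h2, mul_nonneg (sub_nonneg.2 hpi.le) (sub_nonneg.2 hb)]
  · have h2 := Rf_incr h (show (1 / 2 + a : ℝ) ≤ 1 by linarith only [h1])
    rw [Rf_one_line, Rf_one_line] at h2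
    linarith only [h2, mul_nonneg (sub_nonneg.2 hpi.le) (sub_nonneg.2 ht1)]

/-- The growth rate above and below `0`. -/
theorem se_left {σ : Sl} (hσ : σ.ok) (η : ℝ) :
    se (((0 : ℝ) : ℂ) + η * I) σ ≤ Real.pi * (|η| + σ.ht) := by
  have hpi := Real.pi_pos
  rcases σ with v | s
  · have hv : |v.re| ≤ 1 / 2 := hσ
    rw [abs_le] at hv
    change _ ≤ Real.pi * (|η| + |v.im|)
    rcases le_total 0 v.re with h | h
    · have h2 := se_left_op (b := v.im) (η := η) h hv.2
      rwa [re_add_im] at h2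
    · have h2 := se_left_op (a := -v.re) (b := -v.im) (η := η) (by linarith only [h]) (by linarith only [hv.1])
      have e : ((-v.re : ℝ) : ℂ) + ((-v.im : ℝ) : ℂ) * I = -v := by
        conv_rhs => rw [← re_add_im v]
        push_cast
        ring
      rwa [e, se_op_neg, abs_neg] at h2
  · have e1 : ((0 : ℝ) : ℂ) + (η : ℂ) * I + 1 / 2 = ((1 / 2 : ℝ) : ℂ) + η * I := by
      push_cast
      ring
    have hs : s = 1 ∨ s = -1 := hσ
    unfold se Sl.ht
    simp only
    rw [e1, Rf_half, line_im, line_re]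
    have h1 := le_abs_self η
    have h2 := neg_abs_le η
    rcases hs with rfl | rfl
    · push_cast
      linarith only [mul_nonneg (sub_nonneg.2 hpi.le) (sub_nonneg.2 h1)]
    · push_cast
      linarith only [mul_nonneg (sub_nonneg.2 hpi.le) (sub_nonneg.2 h2)]

/-- The growth rate above and below `1/2`. -/
theorem se_right {σ : Sl} (hσ : σ.ok) (η : ℝ) :
    se (((1 / 2 : ℝ) : ℂ) + η * I) σ ≤ Real.pi * (|η| + σ.ht) := by
  have hpi := Real.pi_pos
  rcases σ with v | s
  · have hv : |v.re| ≤ 1 / 2 := hσ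
    rw [abs_le] at hv
    change _ ≤ Real.pi * (|η| + |v.im|)
    rcases le_total 0 v.re with h | h
    · have h2 := se_right_op (b := v.im) (η := η) h hv.2
      rwa [re_add_im] at h2
    · have h2 := se_right_op (a := -v.re) (b := -v.im) (η := η) (by linarith only [h]) (by linarith only [hv.1])
      have e : ((-v.re : ℝ) : ℂ) + ((-v.im : ℝ) : ℂ) * I = -v := by
        conv_rhs => rw [← re_add_im v]
        push_cast
        ring
      rwa [e, se_op_neg, abs_neg] at h2
  · have e1 : ((1 / 2 : ℝ) : ℂ) + (η : ℂ) * I + 1 / 2 = ((1 : ℝ) : ℂ) + η * I := by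
      push_cast
      ring
    have hs : s = 1 ∨ s = -1 := hσ
    unfold se Sl.ht
    simp only
    rw [e1, Rf_one_line, line_im, line_re]
    have h1 := le_abs_self η
    have h2 := neg_abs_le η
    rcases hs with rfl | rfl
    · push_cast
      linarith only [mul_nonneg (sub_nonneg.2 hpi.le) (sub_nonneg.2 h1)]
    · push_cast
      linarith only [mul_nonneg (sub_nonneg.2 hpi.le) (sub_nonneg.2 h2)]

/-! ### High up -/

theorem Lg_asym {η : ℝ} (h : 1 / 4 ≤ |η|) (t : ℝ) :
    |Lg η t - Real.pi * (|η|)| ≤ 2 * Real.exp (-(2 * Real.pi * |η|)) := by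
  have hpi := Real.pi_gt_three
  set q : ℝ := Real.exp (-(2 * Real.pi * |η|)) with hq
  have hq0 : 0 < q := Real.exp_pos _
  have hq1 : q ≤ 1 / 2 := by
    have h1 : Real.exp (-(2 * Real.pi * |η|)) ≤ Real.exp (-Real.log 2) := by
      apply Real.exp_le_exp.2
      have := Real.log_two_lt_d9
      linarith only [this, hpi, h, mul_nonneg (sub_nonneg.2 h) (sub_nonneg.2 hpi.le)]
    rw [Real.exp_neg (Real.log 2), Real.exp_log two_pos] at h1
    linarith only [h1]
  have hp := Real.exp_pos (Real.pi * |η|)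
  have hqe : Real.exp (-(Real.pi * |η|)) = Real.exp (Real.pi * |η|) * q := by
    rw [hq, ← Real.exp_add]
    congr 1
    ring
  have hlow : Real.sinh (Real.pi * |η|) ≤ ‖sin (Real.pi * ((t : ℂ) + η * I))‖ := by
    have h0 : 0 ≤ Real.sinh (Real.pi * |η|) := Real.sinh_nonneg_iff.mpr (by positivity)
    apply (sq_le_sq₀ h0 (norm_nonneg _)).mp
    rw [norm_sin_pi_sq]
    have h2 : Real.sinh (Real.pi * |η|) ^ 2 = Real.sinh (Real.pi * η) ^ 2 := by
      rw [← sq_abs (Real.sinh (Real.pi * η)), Real.abs_sinh, abs_mul, abs_of_pos Real.pi_pos]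
    rw [h2]
    linarith only [sq_nonneg (Real.sin (Real.pi * t))]
  have hup := norm_sin_le t η
  rw [← Real.cosh_abs, abs_mul, abs_of_pos Real.pi_pos] at hup
  have e1 : 2 * Real.sinh (Real.pi * |η|) = Real.exp (Real.pi * |η|) * (1 - q) := by
    rw [Real.sinh_eq, hqe]
    ring
  have e2 : 2 * Real.cosh (Real.pi * |η|) = Real.exp (Real.pi * |η|) * (1 + q) := by
    rw [Real.cosh_eq, hqe]
    ring
  have hn : ‖2 * sin (Real.pi * ((t : ℂ) + η * I))‖ =
      2 * ‖sin (Real.pi * ((t : ℂ) + η * I))‖ := by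
    rw [norm_mul, norm_ofNat]
  have l1 : Real.pi * |η| + Real.log (1 - q) ≤ Lg η t := by
    unfold Lg
    rw [hn]
    have h3 : Real.log (Real.exp (Real.pi * |η|) * (1 - q)) = Real.pi * |η| + Real.log (1 - q) := by
      rw [Real.log_mul hp.ne' (by linarith only [hq1]), Real.log_exp]
    rw [← h3, ← e1]
    apply Real.log_le_log
    · rw [e1]
      exact mul_pos hp (by linarith only [hq1])
    · linarith only [hlow]
  have l2 : Lg η t ≤ Real.pi * |η| + Real.log (1 + q) := by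
    unfold Lg
    rw [hn]
    have h3 : Real.log (Real.exp (Real.pi * |η|) * (1 + q)) = Real.pi * |η| + Real.log (1 + q) := by
      rw [Real.log_mul hp.ne' (by linarith only [hq0]), Real.log_exp]
    rw [← h3, ← e2]
    apply Real.log_le_log
    · have : 0 < 2 * Real.sinh (Real.pi * |η|) := by
        rw [e1]
        exact mul_pos hp (by linarith only [hq1])
      linarith only [this, hlow]
    · linarith only [hup]
  have l3 : Real.log (1 + q) ≤ q := by
    have := Real.log_le_sub_one_of_pos (show 0 < 1 + q by linarith only [hq0])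
    linarith only [this]
  have l4 : -(2 * q) ≤ Real.log (1 - q) := by
    have h4 := Real.one_sub_inv_le_log_of_pos (show 0 < 1 - q by linarith only [hq1])
    have h5 : (1 - q)⁻¹ ≤ 1 + 2 * q := by
      rw [inv_le_comm₀ (by linarith only [hq1]) (by linarith only [hq0]), inv_eq_one_div, div_le_iff₀ (by linarith only [hq0])]
      (refine le_of_not_gt fun hng => ?_; linarith only [mul_nonneg (sub_nonneg.2 hq0.le) (sub_nonneg.2 hq1),
        mul_nonneg (sub_nonneg.2 hng.le) (sub_nonneg.2 hq1),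
        mul_pos (sub_pos.2 hng) (sub_pos.2 hq0)])
    linarith only [h5, h4]
  rw [abs_le]
  constructor <;> linarith

theorem Rf_asym {η t : ℝ} (h : 1 / 4 ≤ |η|) (ht : |t - 1 / 2| ≤ 1) :
    |Rf ((t : ℂ) + η * I) - Real.pi * |η| * (t - 1 / 2)| ≤
      2 * Real.exp (-(2 * Real.pi * |η|)) := by
  have e : Rf ((t : ℂ) + η * I) - Real.pi * |η| * (t - 1 / 2) =
      ∫ s in (1 / 2 : ℝ)..t, (Lg η s - Real.pi * |η|) := by
    rw [intervalIntegral.integral_sub (Lg_integrable _ _ _) (by simp), Lg_integral, Rf_half,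
      intervalIntegral.integral_const, smul_eq_mul]
    ring
  rw [e]
  have h2 := intervalIntegral.norm_integral_le_of_norm_le_const (a := 1 / 2) (b := t)
    (f := fun s => Lg η s - Real.pi * |η|) (C := 2 * Real.exp (-(2 * Real.pi * |η|)))
    (fun s _ => Lg_asym h s)
  rw [Real.norm_eq_abs] at h2
  refine h2.trans ?_
  have := Real.exp_pos (-(2 * Real.pi * |η|))
  linarith only [mul_nonneg (sub_nonneg.2 ht) (sub_nonneg.2 this.le)]

/-- The growth rate high up and far down. -/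
theorem se_top {σ : Sl} (hσ : σ.ok) {t η : ℝ} (h0 : 0 ≤ t) (h1 : t ≤ 1 / 2)
    (hη : σ.ht + 1 / 4 ≤ |η|) :
    se ((t : ℂ) + η * I) σ ≤ Real.pi * (|η| + σ.ht) +
      8 * Real.exp (-(2 * Real.pi * (|η| - σ.ht))) := by
  have hpi := Real.pi_pos
  have h4 : 1 / 4 ≤ |η| := by
    have := σ.ht_nonneg
    linarith only [this, hη]
  have e1 : (t : ℂ) + (η : ℂ) * I + 1 / 2 = ((t + 1 / 2 : ℝ) : ℂ) + η * I := by
    push_cast
    ring
  have A := Rf_asym (t := t + 1 / 2) h4 (by rw [abs_le]; constructor <;> linarith)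
  rw [abs_le] at A
  rcases σ with v | s
  · have hv : |v.re| ≤ 1 / 2 := hσ
    have hv' := abs_le.mp hv
    have hη' : |v.im| + 1 / 4 ≤ |η| := hη
    change _ ≤ Real.pi * (|η| + |v.im|) + 8 * Real.exp (-(2 * Real.pi * (|η| - |v.im|)))
    have e2 : (t : ℂ) + (η : ℂ) * I - v = ((t - v.re : ℝ) : ℂ) + ((η - v.im : ℝ) : ℂ) * I := by
      conv_lhs => rw [← re_add_im v]
      push_cast
      ring
    have e3 : (t : ℂ) + (η : ℂ) * I + v = ((t + v.re : ℝ) : ℂ) + ((η + v.im : ℝ) : ℂ) * I := by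
      conv_lhs => rw [← re_add_im v]
      push_cast
      ring
    have hb := abs_nonneg v.im
    have m1 : |η| - |v.im| ≤ |η - v.im| := abs_sub_abs_le_abs_sub _ _
    have m2 : |η| - |v.im| ≤ |η + v.im| := by
      have := abs_sub_abs_le_abs_sub η (-v.im)
      rwa [abs_neg, sub_neg_eq_add] at this
    have B := Rf_asym (t := t - v.re) (η := η - v.im) (by linarith only [m1, hη'])
      (by rw [abs_le]; constructor <;> linarith only [h0, hv', hv'.2, h1, hv'.1])
    have D := Rf_asym (t := t + v.re) (η := η + v.im) (by linarith only [m2, hη'])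
      (by rw [abs_le]; constructor <;> linarith only [h0, hv'.1, h1, hv'.2])
    rw [abs_le] at B D
    unfold se
    simp only
    rw [e1, e2, e3]
    set E : ℝ := Real.exp (-(2 * Real.pi * (|η| - |v.im|))) with hE
    have E1 : Real.exp (-(2 * Real.pi * |η|)) ≤ E := by
      apply Real.exp_le_exp.2
      linarith only [mul_nonneg (sub_nonneg.2 hpi.le) (sub_nonneg.2 hb)]
    have E2 : Real.exp (-(2 * Real.pi * |η - v.im|)) ≤ E := by
      apply Real.exp_le_exp.2
      linarith only [mul_nonneg (sub_nonneg.2 hpi.le) (sub_nonneg.2 m1)]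
    have E3 : Real.exp (-(2 * Real.pi * |η + v.im|)) ≤ E := by
      apply Real.exp_le_exp.2
      linarith only [mul_nonneg (sub_nonneg.2 hpi.le) (sub_nonneg.2 m2)]
    have key : 2 * (Real.pi * |η| * (t + 1 / 2 - 1 / 2)) -
        Real.pi * |η - v.im| * (t - v.re - 1 / 2) - Real.pi * |η + v.im| * (t + v.re - 1 / 2) ≤
        Real.pi * (|η| + |v.im|) := by
      have hab : |v.im * (2 * v.re)| ≤ |v.im| := by
        rw [abs_mul, abs_mul, abs_two]
        linarith only [mul_nonneg (sub_nonneg.2 hv) (sub_nonneg.2 hb)]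
      rw [abs_le] at hab
      have hb1 := le_abs_self v.im
      have hb2 := neg_abs_le v.im
      rcases le_total 0 η with h | h
      · rw [abs_of_nonneg h] at hη' ⊢
        rw [abs_of_nonneg (show 0 ≤ η - v.im by linarith only [hb1, hη']),
          abs_of_nonneg (show 0 ≤ η + v.im by linarith only [hb2, hη'])]
        linarith only [mul_nonneg (sub_nonneg.2 hpi.le) (sub_nonneg.2 hab.1)]
      · rw [abs_of_nonpos h] at hη' ⊢
        rw [abs_of_nonpos (show η - v.im ≤ 0 by linarith only [hb2, hη']),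
          abs_of_nonpos (show η + v.im ≤ 0 by linarith only [hb1, hη'])]
        linarith only [mul_nonneg (sub_nonneg.2 hpi.le) (sub_nonneg.2 hab.2)]
    linarith only [D.1, B.1, A.2, key, E3, E2, E1]
  · have hs : s = 1 ∨ s = -1 := hσ
    unfold se Sl.ht
    simp only
    rw [e1, line_im, line_re, sub_zero, add_zero]
    have hb1 := le_abs_self η
    have hb2 := neg_abs_le η
    have hE := Real.exp_pos (-(2 * Real.pi * |η|))
    have key : (s : ℝ) * (η * (1 - t)) ≤ |η| * (1 - t) := by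
      rcases hs with rfl | rfl
      · push_cast
        linarith only [hb1, mul_nonneg (sub_nonneg.2 h1) (sub_nonneg.2 hb1)]
      · push_cast
        linarith only [hb2, mul_nonneg (sub_nonneg.2 h1) (sub_nonneg.2 hb2)]
    linarith only [A.2, hE, mul_nonneg (sub_nonneg.2 hpi.le) (sub_nonneg.2 key)]

/-! ### Small shifts -/

theorem Rf_shift' : ∃ C : ℝ, 0 < C ∧ ∀ M : ℕ, 1 ≤ M → ∀ (ζ : ℂ) (δ : ℝ), 0 ≤ δ →
    δ ≤ 1 / (2 * M) → |M * Rf (ζ - δ) - M * Rf ζ| ≤ C * (1 + Real.log M + |ζ.im|) := by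
  obtain ⟨C1, hC1, h1⟩ := Fr_shift 1
  refine ⟨C1 + 4, by positivity, fun M hM ζ δ' hδ'0 hδ' => ?_⟩
  have hM0 : (0 : ℝ) < M := by exact_mod_cast hM
  have hMc : (M : ℂ) ≠ 0 := by exact_mod_cast hM0.ne'
  have hpi := Real.pi_pos
  have hl2 := Real.log_pos (one_lt_two)
  have hl2' : Real.log 2 ≤ 1 := by
    have := Real.log_two_lt_d9
    linarith only [this]
  have hlM : 0 ≤ Real.log M := Real.log_natCast_nonneg M
  set δ : ℝ := 1 / (2 * M) with hδ
  have hδ0 : 0 < δ := by positivity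
  have e1 : ζ - δ' = ((ζ.re - δ' : ℝ) : ℂ) + ζ.im * I := by
    conv_lhs => rw [← re_add_im ζ]
    push_cast
    ring
  have e2 : ζ = (ζ.re : ℂ) + ζ.im * I := (re_add_im ζ).symm
  have hint : Rf ζ - Rf (ζ - δ') = ∫ t in (ζ.re - δ')..ζ.re, Lg ζ.im t := by
    rw [Lg_integral, e1]
    nth_rewrite 1 [e2]
    rfl
  have hab : ζ.re - δ ≤ ζ.re := by linarith only [hδ', hδ'0]
  have hab' : ζ.re - δ' ≤ ζ.re := by linarith only [hδ'0]
  -- the integral of the density on the real axis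
  have hL0 : ∫ t in (ζ.re - δ)..ζ.re, |Lg 0 t| ≤ 2 * Real.log 2 * δ + C1 * Real.log (2 * M) /
      (2 * M) := by
    have h2 : ∫ t in (ζ.re - δ)..ζ.re, |Lg 0 t| ≤
        ∫ t in (ζ.re - δ)..ζ.re, (2 * Real.log 2 - Lg 0 t) := by
      apply intervalIntegral.integral_mono hab (Lg_integrable _ _ _).abs
        ((by simp : IntervalIntegrable (fun _ => 2 * Real.log 2) volume _ _).sub
          (Lg_integrable _ _ _))
      intro t
      simp only
      have := Lg_zero_le (t := t)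
      rw [abs_le]
      constructor <;> linarith
    rw [intervalIntegral.integral_sub (by simp) (Lg_integrable _ _ _), Lg_zero_integral,
      intervalIntegral.integral_const, smul_eq_mul] at h2
    have h3 := h1 (2 * M) (by omega) (ζ.re - δ) 1 le_rfl
    have e3 : ζ.re - δ + ((1 : ℕ) : ℝ) / ((2 * M : ℕ) : ℝ) = ζ.re := by
      rw [hδ]
      push_cast
      ring
    rw [e3, abs_le] at h3
    push_cast at h3
    have h4 : -(C1 * Real.log (2 * M) / (2 * M)) ≤ Fr ζ.re - Fr (ζ.re - δ) := by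
      rw [neg_le, neg_sub, le_div_iff₀ (by positivity)]
      linarith only [h3.1]
    have h5 : (ζ.re - (ζ.re - δ)) * (2 * Real.log 2) = 2 * Real.log 2 * δ := by ring
    rw [h5] at h2
    linarith only [h4, h2]
  have hmain : |∫ t in (ζ.re - δ')..ζ.re, Lg ζ.im t| ≤
      ∫ t in (ζ.re - δ')..ζ.re, (|Lg 0 t| + (Real.log 2 + Real.pi * |ζ.im|)) := by
    have h2 := intervalIntegral.norm_integral_le_of_norm_le (μ := volume) hab'
      (f := fun t => Lg ζ.im t) (g := fun t => |Lg 0 t| + (Real.log 2 + Real.pi * |ζ.im|))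
      (by
        filter_upwards [sin_ne_ae] with t ht _
        exact Lg_abs_le ζ.im ht)
      ((Lg_integrable _ _ _).abs.add (by simp))
    rwa [Real.norm_eq_abs] at h2
  have hbig : ∫ t in (ζ.re - δ')..ζ.re, (|Lg 0 t| + (Real.log 2 + Real.pi * |ζ.im|)) ≤
      ∫ t in (ζ.re - δ)..ζ.re, (|Lg 0 t| + (Real.log 2 + Real.pi * |ζ.im|)) := by
    have hi : ∀ a b : ℝ, IntervalIntegrable
        (fun t => |Lg 0 t| + (Real.log 2 + Real.pi * |ζ.im|)) volume a b := fun a b =>
      (Lg_integrable _ _ _).abs.add (by simp)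
    rw [← intervalIntegral.integral_add_adjacent_intervals (hi (ζ.re - δ) (ζ.re - δ'))
      (hi (ζ.re - δ') ζ.re)]
    have : 0 ≤ ∫ t in (ζ.re - δ)..(ζ.re - δ'), (|Lg 0 t| + (Real.log 2 + Real.pi * |ζ.im|)) :=
      intervalIntegral.integral_nonneg (by linarith only [hδ']) fun t _ => by positivity
    linarith only [this]
  replace hmain := hmain.trans hbig
  rw [intervalIntegral.integral_add (Lg_integrable _ _ _).abs (by simp),
    intervalIntegral.integral_const, smul_eq_mul] at hmain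
  have h5 : ζ.re - (ζ.re - δ) = δ := by ring
  rw [h5] at hmain
  have h6 : |M * Rf (ζ - δ') - M * Rf ζ| = M * |∫ t in (ζ.re - δ')..ζ.re, Lg ζ.im t| := by
    rw [← hint, ← mul_sub, abs_mul, abs_of_pos hM0, abs_sub_comm]
  rw [h6]
  have hlog2M : Real.log (2 * M) = Real.log 2 + Real.log M :=
    Real.log_mul (by norm_num) hM0.ne'
  have hMδ : M * δ = 1 / 2 := by rw [hδ]; field_simp
  calc M * |∫ t in (ζ.re - δ')..ζ.re, Lg ζ.im t|
      ≤ M * (2 * Real.log 2 * δ + C1 * Real.log (2 * M) / (2 * M) +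
        δ * (Real.log 2 + Real.pi * |ζ.im|)) :=
        mul_le_mul_of_nonneg_left (hmain.trans (by linarith only [hL0])) hM0.le
    _ = 2 * Real.log 2 * (M * δ) + C1 * Real.log (2 * M) / 2 +
        (M * δ) * (Real.log 2 + Real.pi * |ζ.im|) := by
        field_simp
    _ = Real.log 2 + C1 * (Real.log 2 + Real.log M) / 2 + (Real.log 2 + Real.pi * |ζ.im|) / 2 := by
        rw [hMδ, hlog2M]
        ring
    _ ≤ (C1 + 4) * (1 + Real.log M + |ζ.im|) := by
        have h7 := Real.pi_le_four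
        have h8 := abs_nonneg ζ.im
        have h9 : Real.pi * |ζ.im| ≤ 4 * |ζ.im| := mul_le_mul_of_nonneg_right h7 h8
        linarith only [mul_nonneg hC1.le h8, h9, h8, hlM, hl2', hC1,
          mul_nonneg (sub_nonneg.2 hC1.le) (sub_nonneg.2 hlM),
          mul_nonneg (sub_nonneg.2 hC1.le) (sub_nonneg.2 hl2')]

/-- The oscillation of the growth rate at the scale `1 / M`. -/
theorem se_shift : ∃ C : ℝ, 0 < C ∧ ∀ M : ℕ, 1 ≤ M → ∀ (σ : Sl) (y : ℂ) (δ : ℝ), σ.ok →
    0 ≤ δ → δ ≤ 1 / (2 * M) →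
    |M * se (y - δ) σ - M * se y σ| ≤ C * (1 + Real.log M + |y.im| + σ.ht) := by
  obtain ⟨C, hC, h⟩ := Rf_shift'
  refine ⟨4 * C + Real.pi, by positivity, fun M hM σ y δ hσ h0 h1 => ?_⟩
  have hM0 : (0 : ℝ) < M := by exact_mod_cast hM
  have hpi := Real.pi_pos
  have hlM : 0 ≤ Real.log M := Real.log_natCast_nonneg M
  have hy := abs_nonneg y.im
  have A := h M hM (y + 1 / 2) δ h0 h1
  rw [show y + 1 / 2 - (δ : ℂ) = y - δ + 1 / 2 by ring, show (y + 1 / 2).im = y.im by simp] at A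
  rw [abs_le] at A
  rcases σ with v | s
  · have hv := abs_nonneg v.im
    have B := h M hM (y - v) δ h0 h1
    have D := h M hM (y + v) δ h0 h1
    rw [show y - v - (δ : ℂ) = y - δ - v by ring, show (y - v).im = y.im - v.im by simp] at B
    rw [show y + v - (δ : ℂ) = y - δ + v by ring, show (y + v).im = y.im + v.im by simp] at D
    rw [abs_le] at B D
    have m1 : |y.im - v.im| ≤ |y.im| + |v.im| := abs_sub _ _
    have m2 : |y.im + v.im| ≤ |y.im| + |v.im| := abs_add_le _ _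
    have n1 : C * |y.im - v.im| ≤ C * (|y.im| + |v.im|) := mul_le_mul_of_nonneg_left m1 hC.le
    have n2 : C * |y.im + v.im| ≤ C * (|y.im| + |v.im|) := mul_le_mul_of_nonneg_left m2 hC.le
    unfold se Sl.ht
    simp only
    rw [abs_le]
    have p1 := mul_nonneg hC.le hlM
    have p2 := mul_nonneg hC.le hy
    have p3 := mul_nonneg hC.le hv
    have p4 : 0 ≤ Real.pi * (1 + Real.log M + |y.im| + |v.im|) := by positivity
    constructor
    · linarith only [D.2, B.2, A.1, p4, p3, n2, n1]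
    · linarith only [B.1, A.2, p4, p3, n2, n1, D.1]
  · have hs : s = 1 ∨ s = -1 := hσ
    have hs' : |(s : ℝ)| = 1 := by
      rcases hs with rfl | rfl <;> simp
    unfold se Sl.ht
    simp only
    have e1 : (y - (δ : ℂ)).im = y.im := by simp
    have e2 : (y - (δ : ℂ)).re = y.re - δ := by simp
    rw [e1, e2]
    have e3 : M * (Rf (y - δ + 1 / 2) + Real.pi * s * (y.im * (1 - (y.re - δ)))) -
        M * (Rf (y + 1 / 2) + Real.pi * s * (y.im * (1 - y.re))) =
        (M * Rf (y - δ + 1 / 2) - M * Rf (y + 1 / 2)) + (M * δ) * (Real.pi * (s * y.im)) := by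
      ring
    rw [e3]
    refine (abs_add_le _ _).trans ?_
    have hMδ : M * δ ≤ 1 / 2 := by
      have h2 : M * δ ≤ M * (1 / (2 * M)) := mul_le_mul_of_nonneg_left h1 hM0.le
      have h3 : (M : ℝ) * (1 / (2 * M)) = 1 / 2 := by field_simp
      linarith only [h3, h2]
    have hMδ0 : 0 ≤ M * δ := by positivity
    have B : |(M * δ) * (Real.pi * (s * y.im))| ≤ Real.pi * |y.im| := by
      rw [abs_mul (M * δ), abs_mul Real.pi, abs_mul (s : ℝ), hs', one_mul, abs_of_nonneg hMδ0,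
        abs_of_pos hpi]
      have : 0 ≤ Real.pi * |y.im| := by positivity
      nlinarith only [hMδ, this]
    have A' := abs_le.mpr A
    have p1 := mul_nonneg hC.le hlM
    have p2 := mul_nonneg hC.le hy
    have p4 := mul_nonneg hpi.le hlM
    linarith only [p4, p2, p1, A', B, hpi, hC]

end Pool.Agent.S3
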