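import Pool.Agent.S3.Phase

/-!
# Stage 3: the principal `arsinh` and the function `q(u, w) = arsinh (sinh u / cosh w)`

For `|Im u| + |Im w| < π/2`: `cosh q = T / cosh w` with
`T = exp ((log cosh (u+w) + log cosh (u-w)) / 2)` (section 1.6 of the note of helper7).
-/

namespace Pool.Agent.S3

open Complex

/-- principal square root of `1 + z²` -/
noncomputable def csq (z : ℂ) : ℂ := (1 + z ^ 2) ^ (1 / 2 : ℂ)

/-- principal inverse hyperbolic sine -/
noncomputable def arsh (z : ℂ) : ℂ := log (z + (1 + z ^ 2) ^ (1 / 2 : ℂ))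

theorem arsh_def (z : ℂ) : arsh z = log (z + csq z) := rfl

theorem sqrt_sq {z : ℂ} : (z ^ (1 / 2 : ℂ)) ^ 2 = z := by
  rw [← Complex.cpow_nat_mul]
  norm_num

theorem sqrt_re_pos {z : ℂ} (h : z ∈ slitPlane) : 0 < (z ^ (1 / 2 : ℂ)).re := by
  have hz : z ≠ 0 := slitPlane_ne_zero h
  rw [cpow_def_of_ne_zero hz, exp_re]
  apply mul_pos (Real.exp_pos _)
  have h1 : (log z * (1 / 2 : ℂ)).im = z.arg / 2 := by
    rw [show (1 / 2 : ℂ) = ((1 / 2 : ℝ) : ℂ) by norm_num, im_mul_ofReal, log_im]; ring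
  rw [h1]
  have h2 := mem_slitPlane_iff_arg.1 h
  have h3 := Complex.arg_le_pi z
  have h4 := Complex.neg_pi_lt_arg z
  have h5 : z.arg < Real.pi := lt_of_le_of_ne h3 h2.1
  apply Real.cos_pos_of_mem_Ioo
  constructor <;> linarith

theorem csq_sq (z : ℂ) : csq z ^ 2 = 1 + z ^ 2 := sqrt_sq

theorem csq_re_pos {z : ℂ} (h : 1 + z ^ 2 ∈ slitPlane) : 0 < (csq z).re := sqrt_re_pos h

theorem add_mul_sub (z : ℂ) : (z + csq z) * (csq z - z) = 1 := by
  have := csq_sq z
  linear_combination this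

theorem add_ne (z : ℂ) : z + csq z ≠ 0 := by
  intro h
  have := add_mul_sub z
  rw [h, zero_mul] at this
  exact zero_ne_one this

theorem eq_of_sq {s t : ℂ} (h : s ^ 2 = t ^ 2) (hs : 0 < s.re) (ht : 0 < t.re) : s = t := by
  rcases sq_eq_sq_iff_eq_or_eq_neg.1 h with h1 | h1
  · exact h1
  · rw [h1, neg_re] at hs; linarith

theorem add_mem {z : ℂ} (h : 1 + z ^ 2 ∈ slitPlane) : z + csq z ∈ slitPlane := by
  rw [mem_slitPlane_iff]
  by_contra hc
  rw [not_or, not_lt, not_not] at hc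
  obtain ⟨h1, h2⟩ := hc
  -- `z + s = -r`, so `s - z = -1/r`, `2 s = -(r + 1/r)`
  have e1 := add_mul_sub z
  have h3 : z + csq z = ((z + csq z).re : ℂ) := by
    apply Complex.ext
    · simp
    · simp only [ofReal_im]; exact h2
  set r : ℝ := (z + csq z).re with hr
  have h4 : (r : ℂ) * (csq z - z) = 1 := by rw [← h3]; exact e1
  have h5 : csq z + csq z = (r : ℂ) + (csq z - z) := by rw [← h3]; ring
  have h6 : (r * (csq z - z).re) = 1 := by
    have := congrArg Complex.re h4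
    rwa [re_ofReal_mul, one_re] at this
  have h7 := congrArg Complex.re h5
  rw [add_re, add_re, ofReal_re] at h7
  have h8 := csq_re_pos h
  have h9 : (csq z - z).re ≤ 0 := by
    by_contra h10
    push Not at h10
    have := mul_nonpos_of_nonpos_of_nonneg h1 h10.le
    linarith
  linarith

theorem exp_arsh (z : ℂ) : exp (arsh z) = z + csq z := by
  rw [arsh_def, exp_log (add_ne z)]

theorem exp_neg_arsh (z : ℂ) : exp (-arsh z) = csq z - z := by
  rw [exp_neg, exp_arsh]
  exact inv_eq_of_mul_eq_one_right (add_mul_sub z)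

theorem sinh_arsh (z : ℂ) : sinh (arsh z) = z := by
  rw [Complex.sinh, exp_arsh, exp_neg_arsh]; ring

theorem cosh_arsh (z : ℂ) : cosh (arsh z) = csq z := by
  rw [Complex.cosh, exp_arsh, exp_neg_arsh]; ring

theorem hasDerivAt_csq {z : ℂ} (h : 1 + z ^ 2 ∈ slitPlane) :
    HasDerivAt csq (z / csq z) z := by
  have h1 : HasDerivAt (fun z : ℂ => 1 + z ^ 2) (2 * z) z := by
    have := (hasDerivAt_pow 2 z).const_add 1
    simpa using this
  have h2 := h1.cpow_const (c := (1 / 2 : ℂ)) h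
  have h3 : csq z ≠ 0 := by
    intro h0
    have := csq_re_pos h
    rw [h0] at this; simp at this
  have h4 : (1 / 2 : ℂ) * (1 + z ^ 2) ^ ((1 / 2 : ℂ) - 1) * (2 * z) = z / csq z := by
    have hz : (1 + z ^ 2) ≠ 0 := slitPlane_ne_zero h
    rw [cpow_sub _ _ hz, cpow_one]
    change (1 / 2 : ℂ) * (csq z / (1 + z ^ 2)) * (2 * z) = z / csq z
    rw [← csq_sq]
    field_simp
  rw [← h4]
  exact h2

theorem hasDerivAt_arsh {z : ℂ} (h : 1 + z ^ 2 ∈ slitPlane) :
    HasDerivAt arsh (1 / csq z) z := by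
  have h3 : csq z ≠ 0 := by
    intro h0
    have := csq_re_pos h
    rw [h0] at this; simp at this
  have h1 := ((hasDerivAt_id z).add (hasDerivAt_csq h)).clog (add_mem h)
  have h4 : (1 + z / csq z) / (z + csq z) = 1 / csq z := by
    have := add_ne z
    field_simp
    ring
  rw [← h4]
  exact h1

theorem arsh_im_lt {z : ℂ} (h : 1 + z ^ 2 ∈ slitPlane) : |(arsh z).im| < Real.pi / 2 := by
  have h1 := csq_re_pos h
  rw [← cosh_arsh] at h1
  have h2 : (cosh (arsh z)).re = Real.cosh (arsh z).re * Real.cos (arsh z).im := by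
    conv_lhs => rw [← re_add_im (arsh z)]
    exact cosh_re _ _
  rw [h2] at h1
  have h3 : 0 < Real.cos (arsh z).im := (pos_iff_pos_of_mul_pos h1).1 (Real.cosh_pos _)
  have h4 : |(arsh z).im| ≤ Real.pi := by
    rw [arsh_def, log_im]; exact abs_arg_le_pi _
  by_contra h5
  push Not at h5
  have h6 : Real.cos |(arsh z).im| ≤ 0 := by
    apply Real.cos_nonpos_of_pi_div_two_le_of_le h5
    linarith [Real.pi_pos]
  rw [Real.cos_abs] at h6
  linarith

/-- uniqueness -/
theorem eq_arsh {z q : ℂ} (h1 : sinh q = z) (h2 : |q.im| < Real.pi / 2) : q = arsh z := by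
  have h3 : 0 < (cosh q).re := by
    conv_rhs => rw [← re_add_im q]
    rw [cosh_re]
    exact mul_pos (Real.cosh_pos _) (cos_pos' h2)
  have h4 : (cosh q) ^ 2 = 1 + z ^ 2 := by rw [← h1, cosh_sq]; ring
  have h5 : 1 + z ^ 2 ∈ slitPlane := by
    rw [← h4, mem_slitPlane_iff]
    by_contra hc
    rw [not_or, not_lt, not_not] at hc
    obtain ⟨a, b⟩ := hc
    rw [sq, mul_re] at a
    rw [sq, mul_im] at b
    have hb : (cosh q).re * (cosh q).im = 0 := by linarith
    rcases mul_eq_zero.1 hb with hb | hb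
    · linarith
    · rw [hb] at a; nlinarith
  have h6 : cosh q = csq z := eq_of_sq (by rw [h4, csq_sq]) h3 (csq_re_pos h5)
  rw [arsh_def, ← h6, ← h1, sinh_add_cosh, log_exp]
  · linarith [(abs_lt.1 h2).1, Real.pi_pos]
  · linarith [(abs_lt.1 h2).2, Real.pi_pos]

end Pool.Agent.S3
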