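import Pool.Agent.S3.Gd
import Pool.Agent.S3.Opp

/-!
# Stage 3: the double integral at an opposite edge (section 2 of the note of helper7)

`AA θ θ' b xc xc' x x' = q(u,w) - Q + i b (gd u - gd u_c)`, `u = x + i θ`, `w = x' - i θ'`.
If `|x' - xc'| ≤ |x - xc|` then `Re (AA e^{-i φ})` has the sign of `x - xc`, `φ = arg cosh u`.
-/

namespace Pool.Agent.S3

open Complex

theorem re_exp_mul (z : ℂ) (ψ : ℝ) :
    (exp z * exp (-((ψ : ℂ) * I))).re = Real.exp z.re * Real.cos (z.im - ψ) := by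
  rw [← exp_add, exp_re]
  simp [sub_eq_add_neg]

theorem hasDerivAt_re {f : ℝ → ℂ} {f' : ℂ} {x : ℝ} (h : HasDerivAt f f' x) :
    HasDerivAt (fun x => (f x).re) f'.re x :=
  Complex.reCLM.hasFDerivAt.comp_hasDerivAt x h

/-- the derivative of `q` in the direction `(1, ρ)` -/
noncomputable def DD (ρ : ℝ) (u w : ℂ) : ℂ :=
  (cosh u * cosh w - ρ * sinh u * sinh w) / (cosh w * TT u w)

theorem DD_one {u w : ℂ} (h : Reg u w) :
    DD 1 u w = exp ((Lc (u - w) - Lc (u + w)) / 2 - Lc w) := by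
  have hw := cosh_ne h.right
  have e1 : exp ((Lc (u - w) - Lc (u + w)) / 2 - Lc w) * (cosh w * TT u w) = cosh (u - w) := by
    rw [TT]
    conv_lhs => rw [← exp_Lc h.right]
    rw [← exp_add, ← exp_add, ← exp_Lc h.sub]
    congr 1
    ring
  rw [DD, div_eq_iff (mul_ne_zero hw (TT_ne u w)), e1, cosh_sub]
  push_cast; ring

theorem DD_neg_one {u w : ℂ} (h : Reg u w) :
    DD (-1) u w = exp ((Lc (u + w) - Lc (u - w)) / 2 - Lc w) := by
  have hw := cosh_ne h.right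
  have e1 : exp ((Lc (u + w) - Lc (u - w)) / 2 - Lc w) * (cosh w * TT u w) = cosh (u + w) := by
    rw [TT]
    conv_lhs => rw [← exp_Lc h.right]
    rw [← exp_add, ← exp_add, ← exp_Lc h.add]
    congr 1
    ring
  rw [DD, div_eq_iff (mul_ne_zero hw (TT_ne u w)), e1, cosh_add]
  push_cast; ring

theorem DD_zero {u w : ℂ} (h : Reg u w) :
    DD 0 u w = exp (Lc u - (Lc (u + w) + Lc (u - w)) / 2) := by
  have hw := cosh_ne h.right
  have e1 : exp (Lc u - (Lc (u + w) + Lc (u - w)) / 2) * (cosh w * TT u w)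
      = cosh u * cosh w := by
    rw [TT]
    conv_rhs => rw [← exp_Lc h.right, ← exp_Lc h.left, ← exp_add]
    conv_lhs => rw [← exp_Lc h.right]
    rw [← exp_add, ← exp_add]
    congr 1
    ring
  rw [DD, div_eq_iff (mul_ne_zero hw (TT_ne u w)), e1]
  push_cast; ring

section

variable {θ θ' xc xc' b : ℝ}

theorem OppHyp.reg (h : OppHyp θ θ' xc xc') (x x' : ℝ) : Reg (UU x θ) (UU x' (-θ')) := by
  apply Reg_UU
  rw [abs_neg, abs_of_pos h.θ0, abs_of_pos h.θ0']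
  exact S_lt h.S

theorem OppHyp.reg' (h : OppHyp θ θ' xc xc') (x x' : ℝ) : Reg (UU x' (-θ')) (UU x θ) :=
  (h.reg x x').symm

/-- the three values of `ρ`, with the constraint of the case `ρ = 1` -/
def Dir (xc xc' ρ x x' : ℝ) : Prop := (ρ = 1 ∧ x - x' = xc - xc') ∨ ρ = -1 ∨ ρ = 0

theorem Lc_UU {x t : ℝ} (h : |t| < Real.pi / 2) : (Lc (UU x t)).im = aa x t := Lc_im x t h

theorem UU_add (x t x' t' : ℝ) : UU x t + UU x' t' = UU (x + x') (t + t') := by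
  apply Complex.ext <;> simp

theorem UU_sub (x t x' t' : ℝ) : UU x t - UU x' t' = UU (x - x') (t - t') := by
  apply Complex.ext <;> simp

/-- the phase bound -/
theorem DD_re_nonneg (h : OppHyp θ θ' xc xc') {ρ x x' ψ : ℝ} (hx : 0 ≤ x) (hx' : 0 ≤ x')
    (hd : Dir xc xc' ρ x x') (h0 : 0 ≤ ψ) (h1 : ψ ≤ θ) :
    0 ≤ (DD ρ (UU x θ) (UU x' (-θ')) * exp (-((ψ : ℂ) * I))).re := by
  have hr := h.reg x x'
  have aδ : |θ - θ'| < Real.pi / 2 := absδ h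
  have aS : |θ + θ'| < Real.pi / 2 := absS h
  have aθ' : |θ'| < Real.pi / 2 := by
    rw [abs_of_pos h.θ0']; exact θ_lt h.symm
  have aθ : |θ| < Real.pi / 2 := by
    rw [abs_of_pos h.θ0]; exact θ_lt h
  have i1 : (Lc (UU x θ + UU x' (-θ'))).im = aa (x + x') (θ - θ') := by
    rw [UU_add, ← sub_eq_add_neg]; exact Lc_UU aδ
  have i2 : (Lc (UU x θ - UU x' (-θ'))).im = aa (x - x') (θ + θ') := by
    rw [UU_sub, sub_neg_eq_add]; exact Lc_UU aS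
  have i3 : (Lc (UU x' (-θ'))).im = -aa x' θ' := by
    rw [Lc_UU (by rwa [abs_neg]), aa_neg_right]
  have i4 : (Lc (UU x θ)).im = aa x θ := Lc_UU aθ
  rcases hd with ⟨rfl, hd⟩ | rfl | rfl
  · rw [DD_one hr, re_exp_mul]
    apply mul_nonneg (Real.exp_pos _).le
    have e : ((Lc (UU x θ - UU x' (-θ')) - Lc (UU x θ + UU x' (-θ'))) / 2
        - Lc (UU x' (-θ'))).im - ψ
        = (aa (x - x') (θ + θ') - aa (x + x') (θ - θ')) / 2 + aa x' θ' - ψ := by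
      rw [sub_im, i3, show (2 : ℂ) = ((2 : ℝ) : ℂ) by norm_num, div_ofReal_im, sub_im, i1, i2]
      ring
    rw [e]
    have := abs_le.1 (opp_one h hx hx' hd h0 h1)
    exact Real.cos_nonneg_of_mem_Icc ⟨this.1, this.2⟩
  · rw [DD_neg_one hr, re_exp_mul]
    apply mul_nonneg (Real.exp_pos _).le
    have e : ((Lc (UU x θ + UU x' (-θ')) - Lc (UU x θ - UU x' (-θ'))) / 2
        - Lc (UU x' (-θ'))).im - ψ
        = (aa (x + x') (θ - θ') - aa (x - x') (θ + θ')) / 2 + aa x' θ' - ψ := by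
      rw [sub_im, i3, show (2 : ℂ) = ((2 : ℝ) : ℂ) by norm_num, div_ofReal_im, sub_im, i1, i2]
      ring
    rw [e]
    have := abs_le.1 (opp_neg_one h hx hx' h0 h1)
    exact Real.cos_nonneg_of_mem_Icc ⟨this.1, this.2⟩
  · rw [DD_zero hr, re_exp_mul]
    apply mul_nonneg (Real.exp_pos _).le
    have e : (Lc (UU x θ) - (Lc (UU x θ + UU x' (-θ')) + Lc (UU x θ - UU x' (-θ'))) / 2).im - ψ
        = aa x θ - ψ - (aa (x + x') (θ - θ') + aa (x - x') (θ + θ')) / 2 := by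
      rw [sub_im, i4, show (2 : ℂ) = ((2 : ℝ) : ℂ) by norm_num, div_ofReal_im, add_im, i1, i2]
      ring
    rw [e]
    have := abs_le.1 (opp_zero h hx hx' h0 h1)
    exact Real.cos_nonneg_of_mem_Icc ⟨this.1, this.2⟩

/-- the contribution of the Gaussian -/
theorem ib_re (h : OppHyp θ θ' xc xc') {x ψ : ℝ} :
    (I * b / cosh (UU x θ) * exp (-((ψ : ℂ) * I))).re
      = b * (Real.exp (-(Lc (UU x θ)).re) * Real.sin (aa x θ + ψ)) := by
  have aθ : |θ| < Real.pi / 2 := by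
    rw [abs_of_pos h.θ0]; exact θ_lt h
  have aθ' : |(UU x θ).im| < Real.pi / 2 := by simpa using aθ
  have i4 : (Lc (UU x θ)).im = aa x θ := Lc_UU aθ
  have e1 : I * b / cosh (UU x θ) * exp (-((ψ : ℂ) * I))
      = (b : ℂ) * (I * (exp (-Lc (UU x θ)) * exp (-((ψ : ℂ) * I)))) := by
    rw [← exp_Lc aθ', exp_neg (Lc (UU x θ))]
    ring
  rw [e1, re_ofReal_mul, mul_re, I_re, I_im, ← exp_add, exp_im]
  have e2 : (-Lc (UU x θ) + -((ψ : ℂ) * I)).re = -(Lc (UU x θ)).re := by simp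
  have e3 : (-Lc (UU x θ) + -((ψ : ℂ) * I)).im = -(aa x θ + ψ) := by
    simp [i4]; ring
  rw [e2, e3, Real.sin_neg]
  ring

theorem ib_re_pos (h : OppHyp θ θ' xc xc') {x ψ : ℝ} (hb : 0 < b) (hx : 0 < x) (h0 : 0 ≤ ψ)
    (h1 : ψ ≤ θ) : 0 < (I * b / cosh (UU x θ) * exp (-((ψ : ℂ) * I))).re := by
  rw [ib_re h]
  apply mul_pos hb
  apply mul_pos (Real.exp_pos _)
  have hθ := θ_lt h
  have a1 : 0 < aa x θ := by
    unfold aa
    rw [Real.arctan_pos]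
    apply mul_pos
    · rw [Real.tanh_eq_sinh_div_cosh]
      exact div_pos (Real.sinh_pos_iff.2 hx) (Real.cosh_pos x)
    · exact Real.tan_pos_of_pos_of_lt_pi_div_two h.θ0 hθ
  have a2 : aa x θ ≤ θ := aa_le_self x h.θ0.le hθ
  apply Real.sin_pos_of_pos_of_lt_pi <;> linarith

/-- the function `Re ((q + i b gd) e^{-iψ})` on the line of direction `(1, ρ)` -/
noncomputable def fl (θ θ' b ψ ρ c x : ℝ) : ℝ :=
  ((qq (UU x θ) (UU (c + ρ * x) (-θ')) + I * b * gd (UU x θ)) * exp (-((ψ : ℂ) * I))).re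

theorem hasDerivAt_fl (h : OppHyp θ θ' xc xc') (ψ ρ c x : ℝ) :
    HasDerivAt (fl θ θ' b ψ ρ c)
      ((DD ρ (UU x θ) (UU (c + ρ * x) (-θ')) * exp (-((ψ : ℂ) * I))).re
        + (I * b / cosh (UU x θ) * exp (-((ψ : ℂ) * I))).re) x := by
  have aθ : |θ| < Real.pi / 2 := by
    rw [abs_of_pos h.θ0]; exact θ_lt h
  have h1 : HasDerivAt (fun x : ℝ => UU (c + ρ * x) (-θ')) (ρ : ℂ) x := by
    have h2 : HasDerivAt (fun x : ℝ => c + ρ * x) ρ x := by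
      have := ((hasDerivAt_id x).const_mul ρ).const_add c
      simpa using this
    have := HasDerivAt.scomp (g₁ := fun y : ℝ => UU y (-θ')) (h := fun x : ℝ => c + ρ * x) x
      (hasDerivAt_UU (c + ρ * x) (-θ')) h2
    have e : ρ • (1 : ℂ) = (ρ : ℂ) := by simp
    rwa [e] at this
  have h3 := hasDerivAt_qq (h.reg x (c + ρ * x)) (hasDerivAt_UU x θ) h1
  have h4 : HasDerivAt (fun x : ℝ => I * (b : ℂ) * gd (UU x θ)) (I * b * (1 / cosh (UU x θ))) x :=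
    (hasDerivAt_gd_line aθ).const_mul (I * (b : ℂ))
  have h5 := ((h3.add h4).mul_const (exp (-((ψ : ℂ) * I))))
  have h6 := hasDerivAt_re h5
  have e : (((1 * cosh (UU x θ) * cosh (UU (c + ρ * x) (-θ'))
        - ρ * sinh (UU x θ) * sinh (UU (c + ρ * x) (-θ'))) /
          (cosh (UU (c + ρ * x) (-θ')) * TT (UU x θ) (UU (c + ρ * x) (-θ'))) +
        I * b * (1 / cosh (UU x θ))) * exp (-((ψ : ℂ) * I))).re
      = ((DD ρ (UU x θ) (UU (c + ρ * x) (-θ')) * exp (-((ψ : ℂ) * I))).re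
        + (I * b / cosh (UU x θ) * exp (-((ψ : ℂ) * I))).re) := by
    rw [← add_re, ← add_mul, one_mul, mul_one_div]
    rfl
  rw [← e]
  exact h6

theorem fl_strictMono (h : OppHyp θ θ' xc xc') (hb : 0 < b) {ψ ρ c x₁ x₂ : ℝ} (h0 : 0 ≤ ψ)
    (h1 : ψ ≤ θ) (hx : 0 ≤ x₁) (hd : ∀ x ∈ Set.Ioo x₁ x₂, 0 ≤ c + ρ * x)
    (hD : ∀ x ∈ Set.Ioo x₁ x₂, Dir xc xc' ρ x (c + ρ * x)) :
    StrictMonoOn (fl θ θ' b ψ ρ c) (Set.Icc x₁ x₂) := by
  apply strictMonoOn_of_deriv_pos (convex_Icc _ _)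
  · intro x _
    exact (hasDerivAt_fl h ψ ρ c x).continuousAt.continuousWithinAt
  · intro x hx'
    rw [interior_Icc] at hx'
    rw [(hasDerivAt_fl h ψ ρ c x).deriv]
    have hx0 : 0 < x := lt_of_le_of_lt hx hx'.1
    have := DD_re_nonneg h hx0.le (hd x hx') (hD x hx') h0 h1
    have := ib_re_pos h hb hx0 h0 h1
    linarith

/-- the function `a(t)` of the note -/
noncomputable def AA (θ θ' b xc xc' x x' : ℝ) : ℂ :=
  qq (UU x θ) (UU x' (-θ')) - qq (UU xc θ) (UU xc' (-θ'))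
    + I * b * (gd (UU x θ) - gd (UU xc θ))

theorem AA_re (θ θ' b xc xc' x x' ψ : ℝ) :
    (AA θ θ' b xc xc' x x' * exp (-((ψ : ℂ) * I))).re
      = fl θ θ' b ψ 0 x' x - fl θ θ' b ψ 0 xc' xc := by
  rw [fl, fl, ← sub_re, ← sub_mul]
  simp only [zero_mul, add_zero]
  congr 2
  rw [AA]; ring

theorem fl_congr {θ θ' b ψ ρ c ρ' c' x : ℝ} (h : c + ρ * x = c' + ρ' * x) :
    fl θ θ' b ψ ρ c x = fl θ θ' b ψ ρ' c' x := by
  rw [fl, fl, h]

/-- (K), `x` increases -/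
theorem AA_pos (h : OppHyp θ θ' xc xc') (hb : 0 < b) (hc : 0 ≤ xc) (hc' : 0 ≤ xc') {x x' ψ : ℝ}
    (hx' : 0 ≤ x') (h0 : 0 ≤ ψ) (h1 : ψ ≤ θ) (hx : xc < x) (hxx : |x' - xc'| ≤ x - xc) :
    0 < (AA θ θ' b xc xc' x x' * exp (-((ψ : ℂ) * I))).re := by
  rw [AA_re]
  set x₁ := xc + |x' - xc'| with hx₁
  have ha : 0 ≤ |x' - xc'| := abs_nonneg _
  have hx1 : xc ≤ x₁ := by linarith
  have hx2 : x₁ ≤ x := by linarith
  -- phase 2
  have p2 : StrictMonoOn (fl θ θ' b ψ 0 x') (Set.Icc x₁ x) :=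
    fl_strictMono h hb h0 h1 (by linarith) (fun y _ => by simpa using hx')
      (fun y _ => Or.inr (Or.inr rfl))
  have q2 : fl θ θ' b ψ 0 x' x₁ ≤ fl θ θ' b ψ 0 x' x :=
    p2.monotoneOn ⟨le_rfl, hx2⟩ ⟨hx2, le_rfl⟩ hx2
  -- phase 1
  have key : fl θ θ' b ψ 0 xc' xc ≤ fl θ θ' b ψ 0 x' x₁ ∧
      (xc < x₁ → fl θ θ' b ψ 0 xc' xc < fl θ θ' b ψ 0 x' x₁) := by
    rcases le_total xc' x' with hs | hs
    · rw [abs_of_nonneg (by linarith)] at hx₁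
      have p1 : StrictMonoOn (fl θ θ' b ψ 1 (xc' - xc)) (Set.Icc xc x₁) :=
        fl_strictMono h hb h0 h1 hc (fun y hy => by linarith [hy.1])
          (fun y hy => Or.inl ⟨rfl, by ring⟩)
      have e1 : fl θ θ' b ψ 1 (xc' - xc) xc = fl θ θ' b ψ 0 xc' xc := fl_congr (by ring)
      have e2 : fl θ θ' b ψ 1 (xc' - xc) x₁ = fl θ θ' b ψ 0 x' x₁ := fl_congr (by
        rw [hx₁]; ring)
      rw [← e1, ← e2]
      exact ⟨p1.monotoneOn ⟨le_rfl, hx1⟩ ⟨hx1, le_rfl⟩ hx1,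
        fun hlt => p1 ⟨le_rfl, hx1⟩ ⟨hx1, le_rfl⟩ hlt⟩
    · rw [abs_of_nonpos (by linarith)] at hx₁
      have p1 : StrictMonoOn (fl θ θ' b ψ (-1) (xc' + xc)) (Set.Icc xc x₁) :=
        fl_strictMono h hb h0 h1 hc (fun y hy => by linarith [hy.2])
          (fun y hy => Or.inr (Or.inl rfl))
      have e1 : fl θ θ' b ψ (-1) (xc' + xc) xc = fl θ θ' b ψ 0 xc' xc := fl_congr (by ring)
      have e2 : fl θ θ' b ψ (-1) (xc' + xc) x₁ = fl θ θ' b ψ 0 x' x₁ := fl_congr (by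
        rw [hx₁]; ring)
      rw [← e1, ← e2]
      exact ⟨p1.monotoneOn ⟨le_rfl, hx1⟩ ⟨hx1, le_rfl⟩ hx1,
        fun hlt => p1 ⟨le_rfl, hx1⟩ ⟨hx1, le_rfl⟩ hlt⟩
  rcases lt_or_ge xc x₁ with hlt | hge
  · have := key.2 hlt; linarith
  · have e : x₁ = xc := le_antisymm hge hx1
    have q3 : fl θ θ' b ψ 0 x' x₁ < fl θ θ' b ψ 0 x' x :=
      p2 ⟨le_rfl, hx2⟩ ⟨hx2, le_rfl⟩ (by rw [e]; exact hx)
    have := key.1
    linarith

/-- (K), `x` decreases -/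
theorem AA_neg (h : OppHyp θ θ' xc xc') (hb : 0 < b) (hc' : 0 ≤ xc') {x x' ψ : ℝ}
    (hx0 : 0 ≤ x) (hx' : 0 ≤ x') (h0 : 0 ≤ ψ) (h1 : ψ ≤ θ) (hx : x < xc)
    (hxx : |x' - xc'| ≤ xc - x) :
    (AA θ θ' b xc xc' x x' * exp (-((ψ : ℂ) * I))).re < 0 := by
  rw [AA_re]
  set x₁ := xc - |x' - xc'| with hx₁
  have ha : 0 ≤ |x' - xc'| := abs_nonneg _
  have hx1 : x₁ ≤ xc := by linarith
  have hx2 : x ≤ x₁ := by linarith
  have p2 : StrictMonoOn (fl θ θ' b ψ 0 x') (Set.Icc x x₁) :=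
    fl_strictMono h hb h0 h1 hx0 (fun y _ => by simpa using hx')
      (fun y _ => Or.inr (Or.inr rfl))
  have q2 : fl θ θ' b ψ 0 x' x ≤ fl θ θ' b ψ 0 x' x₁ :=
    p2.monotoneOn ⟨le_rfl, hx2⟩ ⟨hx2, le_rfl⟩ hx2
  have key : fl θ θ' b ψ 0 x' x₁ ≤ fl θ θ' b ψ 0 xc' xc ∧
      (x₁ < xc → fl θ θ' b ψ 0 x' x₁ < fl θ θ' b ψ 0 xc' xc) := by
    rcases le_total xc' x' with hs | hs
    · rw [abs_of_nonneg (by linarith)] at hx₁
      have p1 : StrictMonoOn (fl θ θ' b ψ (-1) (xc' + xc)) (Set.Icc x₁ xc) :=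
        fl_strictMono h hb h0 h1 (by linarith) (fun y hy => by linarith [hy.2])
          (fun y hy => Or.inr (Or.inl rfl))
      have e1 : fl θ θ' b ψ (-1) (xc' + xc) xc = fl θ θ' b ψ 0 xc' xc := fl_congr (by ring)
      have e2 : fl θ θ' b ψ (-1) (xc' + xc) x₁ = fl θ θ' b ψ 0 x' x₁ := fl_congr (by
        rw [hx₁]; ring)
      rw [← e1, ← e2]
      exact ⟨p1.monotoneOn ⟨le_rfl, hx1⟩ ⟨hx1, le_rfl⟩ hx1,
        fun hlt => p1 ⟨le_rfl, hx1⟩ ⟨hx1, le_rfl⟩ hlt⟩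
    · rw [abs_of_nonpos (by linarith)] at hx₁
      have p1 : StrictMonoOn (fl θ θ' b ψ 1 (xc' - xc)) (Set.Icc x₁ xc) :=
        fl_strictMono h hb h0 h1 (by linarith) (fun y hy => by linarith [hy.1])
          (fun y hy => Or.inl ⟨rfl, by ring⟩)
      have e1 : fl θ θ' b ψ 1 (xc' - xc) xc = fl θ θ' b ψ 0 xc' xc := fl_congr (by ring)
      have e2 : fl θ θ' b ψ 1 (xc' - xc) x₁ = fl θ θ' b ψ 0 x' x₁ := fl_congr (by
        rw [hx₁]; ring)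
      rw [← e1, ← e2]
      exact ⟨p1.monotoneOn ⟨le_rfl, hx1⟩ ⟨hx1, le_rfl⟩ hx1,
        fun hlt => p1 ⟨le_rfl, hx1⟩ ⟨hx1, le_rfl⟩ hlt⟩
  rcases lt_or_ge x₁ xc with hlt | hge
  · have := key.2 hlt; linarith
  · have e : x₁ = xc := le_antisymm hx1 hge
    have q3 : fl θ θ' b ψ 0 x' x < fl θ θ' b ψ 0 x' x₁ :=
      p2 ⟨le_rfl, hx2⟩ ⟨hx2, le_rfl⟩ (by rw [e]; exact hx)
    have := key.1
    linarith

/-- `Re (AA / cosh u)` -/
theorem AA_div_re (h : OppHyp θ θ' xc xc') (b x x' : ℝ) :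
    (AA θ θ' b xc xc' x x' / cosh (UU x θ)).re = Real.exp (-(Lc (UU x θ)).re) *
      (AA θ θ' b xc xc' x x' * exp (-((aa x θ : ℂ) * I))).re := by
  have aθ : |θ| < Real.pi / 2 := by
    rw [abs_of_pos h.θ0]; exact θ_lt h
  have aθ' : |(UU x θ).im| < Real.pi / 2 := by simpa using aθ
  have i4 : (Lc (UU x θ)).im = aa x θ := Lc_UU aθ
  rw [← re_ofReal_mul, ofReal_exp, div_eq_mul_inv, ← exp_Lc aθ', ← exp_neg]
  congr 1
  have e : -Lc (UU x θ) = (-(Lc (UU x θ)).re : ℝ) + -((aa x θ : ℂ) * I) := by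
    rw [← i4]
    apply Complex.ext <;> simp
  conv_lhs => rw [e, exp_add]
  push_cast
  ring

/-- the sign of `Re (AA / cosh u)` -/
theorem AA_div_pos (h : OppHyp θ θ' xc xc') (hb : 0 < b) (hc : 0 ≤ xc) (hc' : 0 ≤ xc') {x x' : ℝ}
    (hx' : 0 ≤ x') (hx : xc < x) (hxx : |x' - xc'| ≤ x - xc) :
    0 < (AA θ θ' b xc xc' x x' / cosh (UU x θ)).re := by
  rw [AA_div_re h]
  apply mul_pos (Real.exp_pos _)
  exact AA_pos h hb hc hc' hx' (aa_nonneg (by linarith) h.θ0.le (θ_lt h))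
    (aa_le_self x h.θ0.le (θ_lt h)) hx hxx

theorem AA_div_neg (h : OppHyp θ θ' xc xc') (hb : 0 < b) (hc' : 0 ≤ xc') {x x' : ℝ}
    (hx0 : 0 ≤ x) (hx' : 0 ≤ x') (hx : x < xc) (hxx : |x' - xc'| ≤ xc - x) :
    (AA θ θ' b xc xc' x x' / cosh (UU x θ)).re < 0 := by
  rw [AA_div_re h]
  apply mul_neg_of_pos_of_neg (Real.exp_pos _)
  exact AA_neg h hb hc' hx0 hx' (aa_nonneg hx0 h.θ0.le (θ_lt h))
    (aa_le_self x h.θ0.le (θ_lt h)) hx hxx

end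

end Pool.Agent.S3
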