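import Pool.Agent.S3.Gr1
import Pool.Agent.S3.HeLog
import Pool.Agent.S3.Mono

/-!
# Stage 3: the continuation of `ff` across the negative real axis

`fL` is the continuation of `ff` from `0 < Re z < 1` through the lower half plane; its cut is
`Re z = 0, Im z ≥ 0`. It is `fe` if `Im z < 0` or `0 < Re z`.
-/

namespace Pool.Agent.S3

open Complex
open Pool.Agent.H63.VC3 (hh ff ff_hasDerivAt)
open Pool.Agent.H25.RK (gdv gdv_re_lt)

theorem exp_neg_two_pi_add (z : ℂ) :
    exp (-(2 * Real.pi * I * (z + 1))) = exp (-(2 * Real.pi * I * z)) := by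
  rw [show -(2 * (Real.pi : ℂ) * I * (z + 1)) = -(2 * Real.pi * I * z) - 2 * Real.pi * I by ring,
    exp_sub, exp_two_pi_mul_I, div_one]

theorem exp_two_pi_add (z : ℂ) :
    exp (2 * Real.pi * I * (z + 1)) = exp (2 * Real.pi * I * z) := by
  rw [show 2 * (Real.pi : ℂ) * I * (z + 1) = 2 * Real.pi * I * z + 2 * Real.pi * I by ring,
    exp_add, exp_two_pi_mul_I, mul_one]

theorem fe_shift_lower {z : ℂ} (h : z.im < 0) : fe (z + 1) = fe z + Real.pi * I * z := by
  have hpi : (Real.pi : ℂ) ≠ 0 := by exact_mod_cast Real.pi_ne_zero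
  have hI := I_ne_zero
  have h1 : (z + 1).im = z.im := by simp
  rw [fe, fe, h1, if_neg (not_lt.2 h.le), if_pos h, if_neg (not_lt.2 h.le), if_pos h,
    exp_neg_two_pi_add]
  field_simp
  linear_combination (-12 * Real.pi ^ 2 * z) * I_sq

theorem fe_shift_upper {z : ℂ} (h : 0 < z.im) : fe (z + 1) = fe z - Real.pi * I * z := by
  have hpi : (Real.pi : ℂ) ≠ 0 := by exact_mod_cast Real.pi_ne_zero
  have hI := I_ne_zero
  have h1 : (z + 1).im = z.im := by simp
  rw [fe, fe, h1, if_pos h, if_pos h, exp_two_pi_add]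
  field_simp
  linear_combination (12 * Real.pi ^ 2 * z) * I_sq

theorem re_he {z : ℂ} (h : fdom z) : (he z).re = Real.log ‖2 * sin (Real.pi * z)‖ := by
  rw [← exp_he h, norm_exp, Real.log_exp]

/-- the growth function is the real part of `fe` -/
theorem Rf_eq_re_fe {z : ℂ} (h : fdom z) : Rf z = (fe z).re := by
  rcases h with h | h
  · have hd : ∀ t : ℝ, HasDerivAt (fun t : ℝ => Rf ((t : ℂ) + z.im * I)
        - (fe ((t : ℂ) + z.im * I)).re) 0 t := by
      intro t
      have hf : fdom ((t : ℂ) + z.im * I) := Or.inl (by simpa using h)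
      have hs : sin (Real.pi * ((t : ℂ) + z.im * I)) ≠ 0 := sin_ne_of_ne h
      have h1 := Rf_hasDerivAt hs
      have h2 : HasDerivAt (fun t : ℝ => (t : ℂ) + z.im * I) 1 t := by
        exact (HasDerivAt.ofReal_comp (hasDerivAt_id t)).add_const _
      have h3 := HasDerivAt.scomp (g₁ := fe) (h := fun t : ℝ => (t : ℂ) + z.im * I) t
        (fe_hasDerivAt hf) h2
      rw [one_smul] at h3
      have h4 := hasDerivAt_re h3
      rw [re_he hf] at h4
      have h5 := h1.sub h4
      rw [sub_self] at h5
      exact h5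
    have hc := is_const_of_deriv_eq_zero (fun t => (hd t).differentiableAt)
      (fun t => (hd t).deriv) z.re (1 / 2)
    simp only [re_add_im] at hc
    have hre : (((1 / 2 : ℝ) : ℂ) + z.im * I).re = 1 / 2 := by simp
    rw [Rf_eq_ff (z := ((1 / 2 : ℝ) : ℂ) + z.im * I) (by rw [hre]; norm_num)
      (by rw [hre]; norm_num), fe_eq_ff (z := ((1 / 2 : ℝ) : ℂ) + z.im * I)
      (by rw [hre]; norm_num) (by rw [hre]; norm_num), sub_self] at hc
    linarith
  · rw [Rf_eq_ff h.1 h.2, fe_eq_ff h.1 h.2]

/-- the continuation through the lower half plane -/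
noncomputable def fL (z : ℂ) : ℂ := if z.im < 0 ∨ 0 < z.re then fe z else ff (z + 1) - Real.pi * I * z

/-- its derivative -/
noncomputable def hL (z : ℂ) : ℂ := if z.im < 0 ∨ 0 < z.re then he z else hh (z + 1) - Real.pi * I

/-- the domain of `fL` -/
def domL (z : ℂ) : Prop := -1 < z.re ∧ z.re < 1 ∧ (z.im < 0 ∨ z.re ≠ 0)

theorem fL_eq_left {z : ℂ} (h0 : -1 < z.re) (h1 : z.re < 0) :
    fL z = ff (z + 1) - Real.pi * I * z := by
  rw [fL]
  split_ifs with h
  · have h2 : z.im < 0 := by
      rcases h with h | h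
      · exact h
      · linarith
    have h3 := fe_shift_lower h2
    rw [fe_eq_ff (z := z + 1) (by rw [add_re, one_re]; linarith)
      (by rw [add_re, one_re]; linarith)] at h3
    rw [h3]; ring
  · rfl

theorem hL_eq_left {z : ℂ} (h0 : -1 < z.re) (h1 : z.re < 0) :
    hL z = hh (z + 1) - Real.pi * I := by
  rw [hL]
  split_ifs with h
  · have h2 : z.im < 0 := by
      rcases h with h | h
      · exact h
      · linarith
    -- both are derivatives of the same function near `z`
    have hd1 := fe_hasDerivAt (z := z) (Or.inl h2.ne)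
    have hd2 : HasDerivAt (fun z => ff (z + 1) - Real.pi * I * z) (hh (z + 1) - Real.pi * I) z := by
      have h3 := (ff_hasDerivAt (z + 1) (by rw [add_re, one_re]; linarith)
        (by rw [add_re, one_re]; linarith)).comp_add_const z 1
      have h4 := ((hasDerivAt_id z).const_mul (Real.pi * I))
      rw [mul_one] at h4
      exact h3.sub h4
    have he1 : (fun z => ff (z + 1) - Real.pi * I * z) =ᶠ[nhds z] fe := by
      have o1 : ∀ᶠ y in nhds z, y.im < 0 :=
        Complex.continuous_im.continuousAt.eventually_lt_const h2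
      have o2 : ∀ᶠ y in nhds z, y.re < 0 :=
        Complex.continuous_re.continuousAt.eventually_lt_const h1
      have o3 : ∀ᶠ y in nhds z, -1 < y.re :=
        Complex.continuous_re.continuousAt.eventually_const_lt h0
      filter_upwards [o1, o2, o3] with y y1 y2 y3
      have h3 := fe_shift_lower y1
      rw [fe_eq_ff (z := y + 1) (by rw [add_re, one_re]; linarith)
        (by rw [add_re, one_re]; linarith)] at h3
      rw [h3]; ring
    exact (hd1.congr_of_eventuallyEq he1).unique hd2
  · rfl

theorem fL_hasDerivAt {z : ℂ} (h : domL z) : HasDerivAt fL (hL z) z := by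
  obtain ⟨h0, h1, h2⟩ := h
  rcases lt_trichotomy z.re 0 with h3 | h3 | h3
  · rw [hL_eq_left h0 h3]
    have h4 := (ff_hasDerivAt (z + 1) (by rw [add_re, one_re]; linarith)
      (by rw [add_re, one_re]; linarith)).comp_add_const z 1
    have h5 := ((hasDerivAt_id z).const_mul (Real.pi * I))
    rw [mul_one] at h5
    have h6 := h4.sub h5
    refine h6.congr_of_eventuallyEq ?_
    have o2 : ∀ᶠ y in nhds z, y.re < 0 :=
      Complex.continuous_re.continuousAt.eventually_lt_const h3
    have o3 : ∀ᶠ y in nhds z, -1 < y.re :=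
      Complex.continuous_re.continuousAt.eventually_const_lt h0
    filter_upwards [o2, o3] with y y2 y3
    rw [fL_eq_left y3 y2]
    rfl
  · have h4 : z.im < 0 := by
      rcases h2 with h2 | h2
      · exact h2
      · exact absurd h3 h2
    rw [hL, if_pos (Or.inl h4)]
    refine (fe_hasDerivAt (z := z) (Or.inl h4.ne)).congr_of_eventuallyEq ?_
    have o1 : ∀ᶠ y in nhds z, y.im < 0 :=
      Complex.continuous_im.continuousAt.eventually_lt_const h4
    filter_upwards [o1] with y y1
    rw [fL, if_pos (Or.inl y1)]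
  · rw [hL, if_pos (Or.inr h3)]
    refine (fe_hasDerivAt (z := z) (Or.inr ⟨h3, h1⟩)).congr_of_eventuallyEq ?_
    have o1 : ∀ᶠ y in nhds z, 0 < y.re :=
      Complex.continuous_re.continuousAt.eventually_const_lt h3
    filter_upwards [o1] with y y1
    rw [fL, if_pos (Or.inr y1)]

/-- two logarithms of the same number -/
theorem log_unique {a b : ℂ} (h : exp a = exp b) (h1 : |a.im - b.im| < 2 * Real.pi) : a = b := by
  rw [Complex.exp_eq_exp_iff_exists_int] at h
  obtain ⟨n, hn⟩ := h
  have h2 := congrArg Complex.im hn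
  have e : ((n : ℂ) * (2 * Real.pi * I)).im = n * (2 * Real.pi) := by
    have : ((n : ℂ) * (2 * Real.pi * I)) = ((n * (2 * Real.pi) : ℝ) : ℂ) * I := by
      push_cast; ring
    rw [this, im_ofReal_mul, I_im, mul_one]
  rw [add_im, e] at h2
  have h3 : |(n : ℝ) * (2 * Real.pi)| < 2 * Real.pi := by
    rw [show (n : ℝ) * (2 * Real.pi) = a.im - b.im by linarith]
    exact h1
  have hpi := Real.pi_pos
  rw [abs_mul, abs_of_pos (by linarith : (0 : ℝ) < 2 * Real.pi)] at h3
  have h4 : |(n : ℝ)| < 1 := by
    by_contra hc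
    push Not at hc
    nlinarith
  have h5 : |n| < 1 := by exact_mod_cast h4
  have h6 : n = 0 := Int.abs_lt_one_iff.1 h5
  rw [h6] at hn
  simpa using hn

theorem sin_pi_re (z : ℂ) : (2 * sin (Real.pi * z)).re
    = 2 * (Real.sin (Real.pi * z.re) * Real.cosh (Real.pi * z.im)) := by
  have e : (Real.pi : ℂ) * z = ((Real.pi * z.re : ℝ) : ℂ) + ((Real.pi * z.im : ℝ) : ℂ) * I := by
    apply Complex.ext <;> simp
  rw [e, Complex.sin_add, Complex.cos_mul_I, Complex.sin_mul_I, ← ofReal_cosh, ← ofReal_sinh,
    ← ofReal_sin, ← ofReal_cos]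
  have : (2 : ℂ) * (((Real.sin (Real.pi * z.re) : ℝ) : ℂ) * ((Real.cosh (Real.pi * z.im) : ℝ) : ℂ)
      + ((Real.cos (Real.pi * z.re) : ℝ) : ℂ) * (((Real.sinh (Real.pi * z.im) : ℝ) : ℂ) * I))
      = ((2 * (Real.sin (Real.pi * z.re) * Real.cosh (Real.pi * z.im)) : ℝ) : ℂ)
        + ((2 * (Real.cos (Real.pi * z.re) * Real.sinh (Real.pi * z.im)) : ℝ) : ℂ) * I := by
    push_cast; ring
  rw [this]
  simp only [add_re, ofReal_re, mul_re, I_re, I_im, ofReal_im, mul_zero, mul_one, sub_zero,
    add_zero]

/-- `hL z` is the logarithm of `2 sin (π z)` with imaginary part in `(-3π/2, π/2)` -/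
theorem hL_of_log {L z : ℂ} (h : exp L = 2 * sin (Real.pi * z)) (h2 : -(3 * Real.pi / 2) < L.im)
    (h3 : L.im < Real.pi / 2) (h0 : -1 / 2 < z.re) (h1 : z.re < 1) : domL z ∧ hL z = L := by
  have hpi := Real.pi_pos
  have hc : ∀ {x : ℝ}, -1 / 2 < x → x < 1 / 2 → 0 < Real.cos (Real.pi * x) := by
    intro x h4 h5
    apply Real.cos_pos_of_mem_Ioo
    constructor <;> nlinarith
  by_cases hA : z.im < 0 ∨ 0 < z.re
  · have hf : fdom z := by
      rcases hA with h4 | h4
      · exact Or.inl h4.ne
      · exact Or.inr ⟨h4, h1⟩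
    refine ⟨⟨by linarith, h1, ?_⟩, ?_⟩
    · rcases hA with h4 | h4
      · exact Or.inl h4
      · exact Or.inr h4.ne'
    rw [hL, if_pos hA]
    apply log_unique (by rw [exp_he hf, h])
    have h6 : -Real.pi ≤ (he z).im ∧ (he z).im ≤ Real.pi / 2 := by
      rw [he_eq_log hf h0 h1, log_im]
      refine ⟨(neg_pi_lt_arg _).le, ?_⟩
      rcases lt_or_ge 0 z.re with h4 | h4
      · have h5 : 0 ≤ (2 * sin (Real.pi * z)).re := by
          rw [sin_pi_re]
          have h7 : 0 ≤ Real.sin (Real.pi * z.re) := by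
            apply Real.sin_nonneg_of_nonneg_of_le_pi <;> nlinarith
          have := Real.cosh_pos (Real.pi * z.im)
          positivity
        exact (abs_le.1 (abs_arg_le_pi_div_two_iff.2 h5)).2
      · have h5 : z.im < 0 := by
          rcases hA with h6 | h6
          · exact h6
          · linarith
        have h6 : (2 * sin (Real.pi * z)).im < 0 := by
          rw [sin_pi_im]
          have h7 := hc h0 (by linarith : z.re < 1 / 2)
          have h8 : Real.sinh (Real.pi * z.im) < 0 := Real.sinh_neg_iff.2 (by nlinarith)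
          have := mul_neg_of_pos_of_neg h7 h8
          linarith
        have := arg_neg_iff.2 h6
        linarith
    rw [abs_lt]; constructor <;> linarith
  · have hA' := hA
    rw [not_or, not_lt, not_lt] at hA
    obtain ⟨h4, h5⟩ := hA
    have hre : z.re ≠ 0 := by
      intro h6
      -- `2 sin π z = 2 i sinh`
      have e1 := congrArg Complex.re h
      have e2 := congrArg Complex.im h
      rw [sin_pi_re, h6, mul_zero, Real.sin_zero, zero_mul, mul_zero, exp_re] at e1
      rw [sin_pi_im, h6, mul_zero, Real.cos_zero, one_mul, exp_im] at e2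
      have e3 : Real.cos L.im = 0 := by
        rcases mul_eq_zero.1 e1 with h7 | h7
        · exact absurd h7 (Real.exp_pos _).ne'
        · exact h7
      have e4 : 0 ≤ Real.sin L.im := by
        have h7 : 0 ≤ Real.sinh (Real.pi * z.im) := Real.sinh_nonneg_iff.2 (by positivity)
        have h8 : 0 ≤ Real.exp L.re * Real.sin L.im := by rw [e2]; linarith
        exact nonneg_of_mul_nonneg_right h8 (Real.exp_pos _)
      have e5 : Real.sin L.im = 1 := by
        have := Real.sin_sq_add_cos_sq L.im
        rw [e3] at this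
        nlinarith
      rw [Real.sin_eq_one_iff] at e5
      obtain ⟨k, hk⟩ := e5
      have k1 : (k : ℝ) < 0 := by nlinarith
      have k2 : (-1 : ℝ) < k := by nlinarith
      have k3 : k < 0 := by exact_mod_cast k1
      have k4 : -1 < k := by exact_mod_cast k2
      omega
    have hneg : z.re < 0 := lt_of_le_of_ne h5 hre
    refine ⟨⟨by linarith, h1, Or.inr hre⟩, ?_⟩
    rw [hL, if_neg hA']
    apply log_unique
    · rw [h, exp_sub, exp_pi_mul_I, hh, exp_log]
      · rw [mul_add, mul_one, Complex.sin_add_pi]; ring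
      · intro h6
        have := congrArg Complex.re h6
        rw [sin_pi_re, zero_re, add_re, one_re] at this
        have h7 : 0 < Real.sin (Real.pi * (z.re + 1)) := by
          apply Real.sin_pos_of_pos_of_lt_pi <;> nlinarith
        have h8 := Real.cosh_pos (Real.pi * (z + 1).im)
        have := mul_pos h7 h8
        linarith
    · have h6 : |(hh (z + 1)).im| ≤ Real.pi / 2 := by
        rw [hh, log_im]
        apply abs_arg_le_pi_div_two_iff.2
        rw [sin_pi_re, add_re, one_re]
        have h7 : 0 < Real.sin (Real.pi * (z.re + 1)) := by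
          apply Real.sin_pos_of_pos_of_lt_pi <;> nlinarith
        have h8 := Real.cosh_pos (Real.pi * (z + 1).im)
        positivity
      have e : (hh (z + 1) - Real.pi * I).im = (hh (z + 1)).im - Real.pi := by
        rw [sub_im, im_ofReal_mul, I_im, mul_one]
      have := abs_le.1 h6
      rw [e, abs_lt]; constructor <;> linarith

/-- real part of `fL` -/
theorem fL_re {z : ℂ} (h : domL z) :
    (fL z).re = Rf z + (if z.re < 0 ∧ 0 < z.im then 2 * Real.pi * z.im else 0) := by
  obtain ⟨h0, h1, h2⟩ := h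
  rcases lt_or_ge z.re 0 with h3 | h3
  · rw [fL_eq_left h0 h3]
    have h4 : Rf (z + 1) = (ff (z + 1)).re :=
      Rf_eq_ff (by rw [add_re, one_re]; linarith) (by rw [add_re, one_re]; linarith)
    have h5 := Rf_add_one z
    have e : (ff (z + 1) - Real.pi * I * z).re = (ff (z + 1)).re + Real.pi * z.im := by
      rw [sub_re, mul_assoc, re_ofReal_mul, mul_re, I_re, I_im]; ring
    rw [e, ← h4, h5]
    rcases lt_or_ge 0 z.im with h6 | h6
    · rw [if_pos ⟨h3, h6⟩, abs_of_pos h6]; ring
    · rw [if_neg (fun h7 => absurd h7.2 (not_lt.2 h6)), abs_of_nonpos h6]; ring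
  · rw [if_neg (fun h7 => absurd h7.1 (not_lt.2 h3)), add_zero]
    have h4 : z.im < 0 ∨ 0 < z.re := by
      rcases h2 with h2 | h2
      · exact Or.inl h2
      · exact Or.inr (lt_of_le_of_ne h3 h2.symm)
    rw [fL, if_pos h4, Rf_eq_re_fe]
    rcases h4 with h4 | h4
    · exact Or.inl h4.ne
    · exact Or.inr ⟨h4, h1⟩

end Pool.Agent.S3
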