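import Pool.Agent.S3.CritQ
import Pool.Agent.S3.FeL
import Pool.Agent.S3.PhiEx

/-!
# Stage 3: the edge potential `Φ` is the value of the potential at the critical point in `y`

`bridge_aux`: if `F₁, G₁, F₂, G₂` have derivatives `Lm (u, w), Lp (u, w), Lm (w, u), Lp (w, u)` at
`y ∓ v`, `y ∓ w` along a ray, then `Φ - (4 ff (y + 1/2) - F₁ (y - v) - G₁ (y + v) - F₂ (y - w) -
G₂ (y + w))` is constant along the ray.
-/

namespace Pool.Agent.S3

open Complex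
open Pool.Agent.H63.VC3 (hh ff ff_hasDerivAt ff_conj)
open Pool.Agent.H25.RK (gdv gdv_re_lt gdv_hasDerivAt)

theorem yy_curve {u w : ℝ → ℂ} {u' w' : ℂ} {s : ℝ} (h : Reg (u s) (w s)) (hu : HasDerivAt u u' s)
    (hw : HasDerivAt w w' s) : ∃ y' : ℂ, HasDerivAt (fun s => yy (u s) (w s)) y' s := by
  have e1 := HasDerivAt.scomp (g₁ := Lc) (h := fun s => u s + w s) s (hasDerivAt_Lc h.add)
    (hu.add hw)
  have e2 := HasDerivAt.scomp (g₁ := Lc) (h := fun s => u s - w s) s (hasDerivAt_Lc h.sub)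
    (hu.sub hw)
  have e3 := ((e1.add e2).div_const 2).cexp
  have e4 := HasDerivAt.scomp (g₁ := arsh) (h := fun s => TT (u s) (w s)) s
    (hasDerivAt_arsh (slitT h)) e3
  have e5 := HasDerivAt.scomp (g₁ := gdv) (h := fun s => arsh (TT (u s) (w s))) s
    (gdv_hasDerivAt (arshT_im h)) e4
  exact ⟨_, e5⟩

/-- the potential with the branches `F₁, G₁, F₂, G₂` -/
noncomputable def Pt (F₁ G₁ F₂ G₂ : ℂ → ℂ) (u w : ℂ) : ℂ :=
  4 * ff (yy u w + 1 / 2) - F₁ (yy u w - gdv u) - G₁ (yy u w + gdv u)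
    - F₂ (yy u w - gdv w) - G₂ (yy u w + gdv w)

theorem Pt_curve {F₁ G₁ F₂ G₂ : ℂ → ℂ} {u w : ℝ → ℂ} {u' w' : ℂ} {s : ℝ}
    (h : Reg (u s) (w s)) (hu : HasDerivAt u u' s) (hw : HasDerivAt w w' s)
    (h1 : HasDerivAt F₁ (Lm (u s) (w s)) (yy (u s) (w s) - gdv (u s)))
    (h2 : HasDerivAt G₁ (Lp (u s) (w s)) (yy (u s) (w s) + gdv (u s)))
    (h3 : HasDerivAt F₂ (Lm (w s) (u s)) (yy (u s) (w s) - gdv (w s)))
    (h4 : HasDerivAt G₂ (Lp (w s) (u s)) (yy (u s) (w s) + gdv (w s))) :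
    HasDerivAt (fun s => Pt F₁ G₁ F₂ G₂ (u s) (w s))
      (-2 * qq (u s) (w s) * u' / ((Real.pi : ℂ) * cosh (u s))
        - 2 * qq (w s) (u s) * w' / ((Real.pi : ℂ) * cosh (w s))) s := by
  obtain ⟨y', hy⟩ := yy_curve h hu hw
  have k1 := HasDerivAt.scomp (g₁ := gdv) (h := u) s (gdv_hasDerivAt h.left) hu
  have k2 := HasDerivAt.scomp (g₁ := gdv) (h := w) s (gdv_hasDerivAt h.right) hw
  have l0 : HasDerivAt ff (hh (yy (u s) (w s) + 1 / 2)) (yy (u s) (w s) + 1 / 2) := by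
    have y0 := yy_re_pos h
    have y1 := yy_re_lt h
    apply ff_hasDerivAt
    · rw [add_re]; norm_num; linarith
    · rw [add_re]; norm_num; linarith
  have m0 := (HasDerivAt.scomp (g₁ := ff) (h := fun s => yy (u s) (w s) + 1 / 2) s l0
    (hy.add_const (1 / 2))).const_mul 4
  have m1 := HasDerivAt.scomp (g₁ := F₁) (h := fun s => yy (u s) (w s) - gdv (u s)) s h1
    (hy.sub k1)
  have m2 := HasDerivAt.scomp (g₁ := G₁) (h := fun s => yy (u s) (w s) + gdv (u s)) s h2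
    (hy.add k1)
  have m3 := HasDerivAt.scomp (g₁ := F₂) (h := fun s => yy (u s) (w s) - gdv (w s)) s h3
    (hy.sub k2)
  have m4 := HasDerivAt.scomp (g₁ := G₂) (h := fun s => yy (u s) (w s) + gdv (w s)) s h4
    (hy.add k2)
  refine (((((m0.sub m1).sub m2).sub m3).sub m4)).congr_deriv ?_
  rw [hh_half h]
  simp only [smul_eq_mul]
  have hc : lcy (w s) (u s) = lcy (u s) (w s) := lcy_comm _ _
  rw [Lm, Lp, Lm, Lp, hc]
  have hu0 := cosh_ne h.left
  have hw0 := cosh_ne h.right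
  have hpi : (Real.pi : ℂ) ≠ 0 := by exact_mod_cast Real.pi_ne_zero
  field_simp
  ring

theorem bridge_aux {Φ : ℂ → ℂ → ℂ} (hΦ : IsPhi Φ) {u w : ℂ} (h : Reg u w) {F₁ G₁ F₂ G₂ : ℂ → ℂ}
    (h1 : ∀ s ∈ Set.Icc (0 : ℝ) 1, HasDerivAt F₁ (Lm (s * u) (s * w)) (yy (s * u) (s * w) - gdv (s * u)))
    (h2 : ∀ s ∈ Set.Icc (0 : ℝ) 1, HasDerivAt G₁ (Lp (s * u) (s * w)) (yy (s * u) (s * w) + gdv (s * u)))
    (h3 : ∀ s ∈ Set.Icc (0 : ℝ) 1, HasDerivAt F₂ (Lm (s * w) (s * u)) (yy (s * u) (s * w) - gdv (s * w)))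
    (h4 : ∀ s ∈ Set.Icc (0 : ℝ) 1, HasDerivAt G₂ (Lp (s * w) (s * u)) (yy (s * u) (s * w) + gdv (s * w))) :
    Φ (gd u / (Real.pi : ℂ)) (gd w / (Real.pi : ℂ)) - Pt F₁ G₁ F₂ G₂ u w
      = Φ 0 0 - Pt F₁ G₁ F₂ G₂ 0 0 := by
  have k := const_of_ray (g := fun s : ℝ =>
    Φ (gd ((s : ℂ) * u) / (Real.pi : ℂ)) (gd ((s : ℂ) * w) / (Real.pi : ℂ))
      - Pt F₁ G₁ F₂ G₂ ((s : ℂ) * u) ((s : ℂ) * w)) (by
      intro s hs
      have hr := h.smul hs.1 hs.2
      have d1 := hΦ.deriv (fun s : ℝ => (s : ℂ) * u) (fun s : ℝ => (s : ℂ) * w) u w s hr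
        (hasDerivAt_ray u s) (hasDerivAt_ray w s)
      have d2 := Pt_curve (u := fun s : ℝ => (s : ℂ) * u) (w := fun s : ℝ => (s : ℂ) * w) hr
        (hasDerivAt_ray u s) (hasDerivAt_ray w s) (h1 s hs) (h2 s hs) (h3 s hs) (h4 s hs)
      exact (d1.sub d2).congr_deriv (sub_self _))
  simp only [ofReal_one, one_mul, ofReal_zero, zero_mul, gd_zero, zero_div] at k
  exact k

/-! ### opposite quadrants -/

/-- `u` in the first quadrant, `w` in the fourth one -/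
structure QO (u w : ℂ) : Prop where
  reg : Reg u w
  ur : 0 ≤ u.re
  wr : 0 ≤ w.re
  ui : 0 ≤ u.im
  wi : w.im ≤ 0

theorem QO.smul {u w : ℂ} (h : QO u w) {s : ℝ} (h0 : 0 ≤ s) (h1 : s ≤ 1) :
    QO ((s : ℂ) * u) ((s : ℂ) * w) := by
  refine ⟨h.reg.smul h0 h1, ?_, ?_, ?_, ?_⟩
  · rw [re_ofReal_mul]; exact mul_nonneg h0 h.ur
  · rw [re_ofReal_mul]; exact mul_nonneg h0 h.wr
  · rw [im_ofReal_mul]; exact mul_nonneg h0 h.ui
  · rw [im_ofReal_mul]; exact mul_nonpos_of_nonneg_of_nonpos h0 h.wi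

theorem QO.conj {u w : ℂ} (h : QO u w) : QO ((starRingEnd ℂ) w) ((starRingEnd ℂ) u) := by
  refine ⟨h.reg.conj_left.conj_right.symm, ?_, ?_, ?_, ?_⟩
  · rw [conj_re]; exact h.wr
  · rw [conj_re]; exact h.ur
  · rw [conj_im]; linarith [h.wi]
  · rw [conj_im]; linarith [h.ui]

theorem Lm_im (u w : ℂ) : (Lm u w).im = (lcy u w).im + (Lc w).im - (Lc u).im - (qq u w).im := by
  rw [Lm]; simp only [add_im, sub_im, ofReal_im, zero_add]

theorem Lp_im (u w : ℂ) : (Lp u w).im = (lcy u w).im + (Lc w).im - (Lc u).im + (qq u w).im := by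
  rw [Lp]; simp only [add_im, sub_im, ofReal_im, zero_add]

theorem QO.facts {u w : ℂ} (h : QO u w) :
    0 ≤ (qq u w).im ∧ (qq u w).im < Real.pi / 2 ∧ 0 ≤ (Lc u).im ∧ (Lc w).im ≤ 0 ∧
    (Lc u).im - (Lc w).im < Real.pi / 2 ∧
    -(Lc u).im ≤ (lcy u w).im ∧ (lcy u w).im ≤ -(Lc w).im := by
  have q0 := qq_im_nonneg h.reg h.ur h.wr h.ui h.wi
  have q1 := (abs_lt.1 (arsh_im_lt (slit h.reg))).2
  have c1 := Lc_im_nonneg h.reg.left h.ur h.ui
  have c2 := Lc_im_nonpos h.reg.right h.wr h.wi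
  have g := neg_lcy_le h.reg (by linarith)
  have a1 := Lc_im_abs h.reg.left
  have a2 := Lc_im_abs h.reg.right
  rw [abs_of_nonneg c1] at a1
  rw [abs_of_nonpos c2] at a2
  have hR : |u.im| + |w.im| < Real.pi / 2 := h.reg
  exact ⟨q0, q1, c1, c2, by linarith, g.1, g.2⟩

theorem QO.Lm_im {u w : ℂ} (h : QO u w) :
    -(3 * Real.pi / 2) < (Lm u w).im ∧ (Lm u w).im ≤ 0 := by
  obtain ⟨h1, h2, h3, h4, h5, h6, h7⟩ := h.facts
  rw [S3.Lm_im]
  constructor <;> linarith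

theorem QO.Lp_im {u w : ℂ} (h : QO u w) : |(Lp u w).im| < Real.pi := by
  obtain ⟨h1, h2, h3, h4, h5, h6, h7⟩ := h.facts
  rw [S3.Lp_im, abs_lt]
  constructor <;> linarith

/-- the continuation through the upper half plane -/
noncomputable def fU (z : ℂ) : ℂ := (starRingEnd ℂ) (fL ((starRingEnd ℂ) z))

theorem fU_hasDerivAt {z : ℂ} (h : domL ((starRingEnd ℂ) z)) :
    HasDerivAt fU ((starRingEnd ℂ) (hL ((starRingEnd ℂ) z))) z := by
  have := (fL_hasDerivAt h).conj_conj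
  rw [conj_conj] at this
  exact this

theorem gdv_conj {u : ℂ} (h : |u.im| < Real.pi / 2) :
    gdv ((starRingEnd ℂ) u) = (starRingEnd ℂ) (gdv u) := by
  have hpi : (Real.pi : ℂ) ≠ 0 := by exact_mod_cast Real.pi_ne_zero
  have h1 := gd_eq (u := (starRingEnd ℂ) u) (by rwa [conj_im, abs_neg])
  rw [gd_conj h, gd_eq h, map_mul, conj_ofReal] at h1
  exact (mul_left_cancel₀ hpi h1).symm

theorem QO.dL {u w : ℂ} (h : QO u w) : domL (yy u w - gdv u) ∧ hL (yy u w - gdv u) = Lm u w := by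
  have b := (re_bounds h.reg).1
  exact hL_of_log (exp_Lm h.reg) h.Lm_im.1 (by linarith [h.Lm_im.2, Real.pi_pos]) b.1 b.2

theorem QO.dE {u w : ℂ} (h : QO u w) : fdom (yy u w + gdv u) ∧ he (yy u w + gdv u) = Lp u w := by
  have b := (re_bounds h.reg).2
  exact fdom_of_log (exp_Lp h.reg) h.Lp_im b.1 b.2

theorem QO.conj_eqs {u w : ℂ} (h : QO u w) :
    (starRingEnd ℂ) (yy ((starRingEnd ℂ) w) ((starRingEnd ℂ) u)) = yy u w ∧
    (starRingEnd ℂ) (gdv ((starRingEnd ℂ) w)) = gdv w ∧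
    (starRingEnd ℂ) (Lm ((starRingEnd ℂ) w) ((starRingEnd ℂ) u)) = Lm w u ∧
    (starRingEnd ℂ) (Lp ((starRingEnd ℂ) w) ((starRingEnd ℂ) u)) = Lp w u := by
  refine ⟨?_, ?_, ?_, ?_⟩
  · rw [yy_conj h.reg.symm, conj_conj, yy_comm]
  · rw [gdv_conj h.reg.right, conj_conj]
  · rw [Lm_conj h.reg.symm, conj_conj]
  · rw [Lp_conj h.reg.symm, conj_conj]

theorem QO.dL' {u w : ℂ} (h : QO u w) : domL ((starRingEnd ℂ) (yy u w - gdv w)) ∧
    (starRingEnd ℂ) (hL ((starRingEnd ℂ) (yy u w - gdv w))) = Lm w u := by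
  have h1 := h.conj.dL
  obtain ⟨e1, e2, e3, -⟩ := h.conj_eqs
  have e : yy ((starRingEnd ℂ) w) ((starRingEnd ℂ) u) - gdv ((starRingEnd ℂ) w)
      = (starRingEnd ℂ) (yy u w - gdv w) := by
    rw [← e1, ← e2, map_sub, conj_conj, conj_conj]
  rw [e] at h1
  exact ⟨h1.1, by rw [h1.2, e3]⟩

theorem QO.Lp_im' {u w : ℂ} (h : QO u w) : |(Lp w u).im| < Real.pi := by
  rw [← h.conj_eqs.2.2.2, conj_im, abs_neg]
  exact h.conj.Lp_im

theorem QO.dE' {u w : ℂ} (h : QO u w) : fdom (yy u w + gdv w) ∧ he (yy u w + gdv w) = Lp w u := by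
  have b := (re_bounds h.reg.symm).2
  have k := fdom_of_log (exp_Lp h.reg.symm) h.Lp_im' b.1 b.2
  rw [yy_comm] at k
  exact k

/-- the value of `Φ` at the origin -/
noncomputable def c00 : ℂ := 4 * ff (yy 0 0 + 1 / 2) - 4 * fe (yy 0 0)

theorem reg0 : Reg 0 0 := by
  unfold Reg; simp; exact Real.pi_pos

theorem gdv_zero : gdv 0 = 0 := by
  have hpi : (Real.pi : ℂ) ≠ 0 := by exact_mod_cast Real.pi_ne_zero
  have h := gd_eq (u := 0) (by simp; exact Real.pi_pos)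
  rw [gd_zero] at h
  exact (mul_eq_zero.1 h.symm).resolve_left hpi

theorem fL_yy0 : fL (yy 0 0) = fe (yy 0 0) := by
  rw [fL, if_pos (Or.inr (yy_re_pos reg0))]

theorem yy0_conj : (starRingEnd ℂ) (yy 0 0) = yy 0 0 := by
  have := yy_conj reg0
  rw [map_zero] at this
  exact this.symm

theorem fe_yy0 : fe (yy 0 0) = ff (yy 0 0) :=
  fe_eq_ff (yy_re_pos reg0) (by linarith [yy_re_lt reg0])

theorem fU_yy0 : fU (yy 0 0) = fe (yy 0 0) := by
  rw [fU, yy0_conj, fL_yy0, fe_yy0, ← ff_conj, yy0_conj]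

theorem Pt_zero (F₁ G₁ F₂ G₂ : ℂ → ℂ) (h1 : F₁ (yy 0 0) = fe (yy 0 0)) (h2 : G₁ (yy 0 0) = fe (yy 0 0))
    (h3 : F₂ (yy 0 0) = fe (yy 0 0)) (h4 : G₂ (yy 0 0) = fe (yy 0 0)) :
    Pt F₁ G₁ F₂ G₂ 0 0 = c00 := by
  rw [Pt, gdv_zero, sub_zero, add_zero, h1, h2, h3, h4, c00]
  ring

theorem icc_cast {u : ℂ} : ((1 : ℝ) : ℂ) * u = u := by rw [ofReal_one, one_mul]

/-- the bridge in opposite quadrants -/
theorem bridge_QO {Φ : ℂ → ℂ → ℂ} (hΦ : IsPhi Φ) (h0 : Φ 0 0 = c00) {u w : ℂ} (h : QO u w) :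
    Φ (gd u / (Real.pi : ℂ)) (gd w / (Real.pi : ℂ)) = Pt fL fe fU fe u w := by
  have k := bridge_aux hΦ h.reg (F₁ := fL) (G₁ := fe) (F₂ := fU) (G₂ := fe)
    (fun s hs => by
      have d := (h.smul hs.1 hs.2).dL
      rw [← d.2]; exact fL_hasDerivAt d.1)
    (fun s hs => by
      have d := (h.smul hs.1 hs.2).dE
      rw [← d.2]; exact fe_hasDerivAt d.1)
    (fun s hs => by
      have d := (h.smul hs.1 hs.2).dL'
      rw [← d.2]; exact fU_hasDerivAt d.1)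
    (fun s hs => by
      have d := (h.smul hs.1 hs.2).dE'
      rw [← d.2]; exact fe_hasDerivAt d.1)
  rw [h0, Pt_zero _ _ _ _ fL_yy0 rfl fU_yy0 rfl, sub_self] at k
  exact sub_eq_zero.1 k

theorem ff_half_re {u w : ℂ} (h : Reg u w) : (ff (yy u w + 1 / 2)).re = Rf (yy u w + 1 / 2) := by
  have y0 := yy_re_pos h
  have y1 := yy_re_lt h
  rw [Rf_eq_ff]
  · rw [add_re]; norm_num; linarith
  · rw [add_re]; norm_num; linarith

/-- the loss at an own vertex -/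
noncomputable def lossL (z : ℂ) : ℝ := if z.re < 0 ∧ 0 < z.im then 2 * Real.pi * z.im else 0

/-- the real part of the bridge in opposite quadrants -/
theorem bridge_QO_re {Φ : ℂ → ℂ → ℂ} (hΦ : IsPhi Φ) (h0 : Φ 0 0 = c00) {u w : ℂ} (h : QO u w) :
    (Φ (gd u / (Real.pi : ℂ)) (gd w / (Real.pi : ℂ))).re
      = EE (.op (gdv u)) (.op (gdv w)) (yy u w) - lossL (yy u w - gdv u)
        - lossL ((starRingEnd ℂ) (yy u w - gdv w)) := by
  have e4 : ∀ z : ℂ, (4 * z).re = 4 * z.re := fun z => by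
    rw [show (4 : ℂ) = ((4 : ℝ) : ℂ) by norm_num, re_ofReal_mul]
  rw [bridge_QO hΦ h0 h, Pt]
  simp only [sub_re]
  rw [e4, ff_half_re h.reg, fL_re h.dL.1, fU, conj_re, fL_re h.dL'.1, Rf_conj, ← Rf_eq_re_fe h.dE.1,
    ← Rf_eq_re_fe h.dE'.1, EE, se, se, lossL, lossL]
  ring

/-- with principal branches there is no loss -/
theorem QO.not_loss {u w : ℂ} (h : QO u w) (g : |(Lm u w).im| < Real.pi) :
    (yy u w - gdv u).im < 0 ∨ 0 < (yy u w - gdv u).re := by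
  have b := (re_bounds h.reg).1
  by_contra hc
  rw [not_or, not_lt, not_lt] at hc
  obtain ⟨c1, c2⟩ := hc
  have k := fdom_of_log (exp_Lm h.reg) g b.1 b.2
  have hf : 0 < (yy u w - gdv u).im := by
    rcases k.1 with k1 | k1
    · exact lt_of_le_of_ne c1 (Ne.symm k1)
    · linarith [k1.1]
  have e := congrArg Complex.im (exp_Lm h.reg)
  rw [exp_im, sin_pi_im] at e
  have hpi := Real.pi_pos
  have s1 : Real.sin (Lm u w).im ≤ 0 := by
    apply Real.sin_nonpos_of_nonpos_of_neg_pi_le h.Lm_im.2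
    have := (abs_lt.1 g).1
    linarith
  have s2 : 0 < Real.cos (Real.pi * (yy u w - gdv u).re) := by
    apply Real.cos_pos_of_mem_Ioo
    constructor <;> nlinarith [b.1]
  have s3 : 0 < Real.sinh (Real.pi * (yy u w - gdv u).im) := Real.sinh_pos_iff.2 (by positivity)
  have s4 := mul_pos s2 s3
  have s5 := mul_nonpos_of_nonneg_of_nonpos (Real.exp_pos (Lm u w).re).le s1
  linarith

theorem lossL_eq_zero {z : ℂ} (h : z.im < 0 ∨ 0 < z.re) : lossL z = 0 := by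
  rw [lossL, if_neg]
  rintro ⟨h1, h2⟩
  rcases h with h | h <;> linarith

theorem fe_conj {z : ℂ} (h : 0 < z.im) : fe ((starRingEnd ℂ) z) = (starRingEnd ℂ) (fe z) := by
  have hd : ∀ t : ℝ, HasDerivAt (fun t : ℝ => fe ((starRingEnd ℂ) ((t : ℂ) + z.im * I))
        - (starRingEnd ℂ) (fe ((t : ℂ) + z.im * I))) 0 t := by
    intro t
    have hi : ((t : ℂ) + z.im * I).im = z.im := by simp
    have hf : fdom ((t : ℂ) + z.im * I) := Or.inl (by rw [hi]; exact h.ne')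
    have hf' : fdom ((starRingEnd ℂ) ((t : ℂ) + z.im * I)) :=
      Or.inl (by rw [conj_im, hi]; linarith)
    have h2 : HasDerivAt (fun t : ℝ => (t : ℂ) + z.im * I) 1 t := by
      exact (HasDerivAt.ofReal_comp (hasDerivAt_id t)).add_const _
    have h3 := HasDerivAt.scomp (g₁ := fe) (h := fun t : ℝ => (t : ℂ) + z.im * I) t
      (fe_hasDerivAt hf) h2
    have h4 := HasDerivAt.scomp (g₁ := fe) (h := fun t : ℝ => (starRingEnd ℂ) ((t : ℂ) + z.im * I)) t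
      (fe_hasDerivAt hf') (hasDerivAt_conj h2)
    refine (h4.sub (hasDerivAt_conj h3)).congr_deriv ?_
    rw [he_conj (by rw [hi]; exact h)]
    simp
  have hc := is_const_of_deriv_eq_zero (fun t => (hd t).differentiableAt)
    (fun t => (hd t).deriv) z.re (1 / 2)
  simp only [re_add_im] at hc
  have hre : (((1 / 2 : ℝ) : ℂ) + z.im * I).re = 1 / 2 := by simp
  rw [fe_eq_ff (z := ((1 / 2 : ℝ) : ℂ) + z.im * I) (by rw [hre]; norm_num)
    (by rw [hre]; norm_num), fe_eq_ff (z := (starRingEnd ℂ) (((1 / 2 : ℝ) : ℂ) + z.im * I))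
    (by rw [conj_re, hre]; norm_num) (by rw [conj_re, hre]; norm_num), ff_conj, sub_self] at hc
  exact sub_eq_zero.1 hc

/-- the bridge in opposite quadrants, principal branches -/
theorem bridge_good {Φ : ℂ → ℂ → ℂ} (hΦ : IsPhi Φ) (h0 : Φ 0 0 = c00) {u w : ℂ} (h : QO u w)
    (g : Good u w) (g' : Good w u) :
    Φ (gd u / (Real.pi : ℂ)) (gd w / (Real.pi : ℂ))
      = sP (yy u w) (.op (gdv u)) + sP (yy u w) (.op (gdv w)) := by
  have k1 := h.not_loss g.1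
  have k2 := h.conj.not_loss (g'.conj h.reg.symm).1
  obtain ⟨e1, e2, e3, -⟩ := h.conj_eqs
  have e : yy ((starRingEnd ℂ) w) ((starRingEnd ℂ) u) - gdv ((starRingEnd ℂ) w)
      = (starRingEnd ℂ) (yy u w - gdv w) := by
    rw [← e1, ← e2, map_sub, conj_conj, conj_conj]
  rw [e] at k2
  have b := (re_bounds h.reg.symm).1
  rw [yy_comm] at b
  have f1 : fL (yy u w - gdv u) = fe (yy u w - gdv u) := by rw [fL, if_pos k1]
  have f2 : fU (yy u w - gdv w) = fe (yy u w - gdv w) := by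
    rw [fU, fL, if_pos k2]
    rcases lt_trichotomy (yy u w - gdv w).im 0 with hz | hz | hz
    · -- then `0 < Re`
      have hr : 0 < (yy u w - gdv w).re := by
        rcases k2 with k2 | k2
        · rw [conj_im] at k2; linarith
        · rwa [conj_re] at k2
      rw [fe_eq_ff (z := (starRingEnd ℂ) (yy u w - gdv w)) (by rwa [conj_re])
        (by rw [conj_re]; exact b.2), ff_conj, conj_conj, fe_eq_ff hr b.2]
    · have hr : 0 < (yy u w - gdv w).re := by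
        rcases k2 with k2 | k2
        · rw [conj_im] at k2; linarith
        · rwa [conj_re] at k2
      rw [fe_eq_ff (z := (starRingEnd ℂ) (yy u w - gdv w)) (by rwa [conj_re])
        (by rw [conj_re]; exact b.2), ff_conj, conj_conj, fe_eq_ff hr b.2]
    · rw [fe_conj hz, conj_conj]
  rw [bridge_QO hΦ h0 h, Pt, f1, f2, sP, sP]
  ring

end Pool.Agent.S3
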