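import Pool.Agent.S3.Bridge

/-!
# Stage 3: the bridge in equal quadrants, with imaginary parts at most `π / 3`
-/

namespace Pool.Agent.S3

open Complex
open Pool.Agent.H63.VC3 (hh ff ff_hasDerivAt ff_conj)
open Pool.Agent.H25.RK (gdv gdv_re_lt gdv_hasDerivAt)

/-- `|Im arsh z| ≤ |arg z|` in the right half plane -/
theorem arsh_im_le_arg {z : ℂ} (h : 1 + z ^ 2 ∈ slitPlane) (hz : 0 ≤ z.re) :
    |(arsh z).im| ≤ |arg z| := by
  have hpi := Real.pi_pos
  have b := abs_lt.1 (arsh_im_lt h)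
  have hargs := abs_arg_le_pi_div_two_iff.2 hz
  rcases eq_or_ne z 0 with h0 | h0
  · have : (arsh z).im = 0 := by
      rw [h0, arsh]
      simp
    rw [this, abs_zero]
    exact abs_nonneg _
  have n := normSq_sinh' (arsh z)
  rw [sinh_arsh] at n
  have e : z.im = Real.cosh (arsh z).re * Real.sin (arsh z).im := by rw [← sinh_im', sinh_arsh]
  have hn : 0 < ‖z‖ := norm_pos_iff.2 h0
  have s1 : Real.sin (arg z) * ‖z‖ = z.im := by
    rw [sin_arg]; field_simp
  have n2 : normSq z = ‖z‖ ^ 2 := normSq_eq_norm_sq z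
  have hc := Real.cosh_sq (arsh z).re
  have s2 := Real.sin_sq_add_cos_sq (arsh z).im
  -- `sin² (arg z) ≥ sin² r`
  have s3 : Real.sin (arsh z).im ^ 2 ≤ Real.sin (arg z) ^ 2 := by
    have k1 : Real.sin (arg z) ^ 2 * ‖z‖ ^ 2
        = Real.cosh (arsh z).re ^ 2 * Real.sin (arsh z).im ^ 2 := by
      rw [← mul_pow, s1, e]; ring
    have k2 : Real.sin (arsh z).im ^ 2 * ‖z‖ ^ 2
        ≤ Real.cosh (arsh z).re ^ 2 * Real.sin (arsh z).im ^ 2 := by
      rw [← n2, n, hc]
      nlinarith [sq_nonneg (Real.sin (arsh z).im), sq_nonneg (Real.cos (arsh z).im)]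
    rw [← k1] at k2
    exact le_of_mul_le_mul_right k2 (by positivity)
  have s4 : |Real.sin (arsh z).im| ≤ |Real.sin (arg z)| := sq_le_sq.1 s3
  have s5 : ∀ t : ℝ, |t| ≤ Real.pi / 2 → |Real.sin t| = Real.sin |t| := by
    intro t ht
    rcases le_total 0 t with h1 | h1
    · rw [abs_of_nonneg h1] at ht ⊢
      exact abs_of_nonneg (Real.sin_nonneg_of_nonneg_of_le_pi h1 (by linarith))
    · rw [abs_of_nonpos h1] at ht ⊢
      rw [Real.sin_neg]
      exact abs_of_nonpos (Real.sin_nonpos_of_nonpos_of_neg_pi_le h1 (by linarith))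
  rw [s5 _ (arsh_im_lt h).le, s5 _ hargs] at s4
  by_contra hcn
  push Not at hcn
  have := Real.sin_lt_sin_of_lt_of_le_pi_div_two (x := |arg z|) (y := |(arsh z).im|)
    (by linarith [abs_nonneg (arg z)]) (arsh_im_lt h).le hcn
  linarith

theorem arsh_im_nonpos {z : ℂ} (h : 1 + z ^ 2 ∈ slitPlane) (hz : z.im ≤ 0) : (arsh z).im ≤ 0 := by
  have h' : 1 + (-z) ^ 2 ∈ slitPlane := by rwa [neg_sq]
  have := arsh_im_nonneg h' (by rw [neg_im]; linarith)
  rw [arsh_neg h, neg_im] at this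
  linarith

/-- `arg sinh u` -/
noncomputable def al (u : ℂ) : ℝ := (log (sinh u)).im

theorem al_bounds {u : ℂ} (h : |u.im| < Real.pi / 2) (h0 : 0 ≤ u.re) (h1 : 0 ≤ u.im) :
    0 ≤ al u ∧ al u ≤ Real.pi / 2 := by
  have a1 : 0 ≤ (sinh u).re := by
    rw [sinh_re']
    exact mul_nonneg (Real.sinh_nonneg_iff.2 h0) (cos_pos' h).le
  have a2 : 0 ≤ (sinh u).im := by
    rw [sinh_im']
    apply mul_nonneg (Real.cosh_pos _).le
    rw [abs_of_nonneg h1] at h
    exact Real.sin_nonneg_of_nonneg_of_le_pi h1 (by linarith [Real.pi_pos])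
  rw [al, log_im]
  have k1 := abs_arg_le_pi_div_two_iff.2 a1
  have k2 := arg_nonneg_iff.2 a2
  exact ⟨k2, (abs_le.1 k1).2⟩

/-- `2 φ + α < π` if `tan² θ ≤ 3` -/
theorem two_phi_al {u : ℂ} (h0 : 0 ≤ u.re) (h1 : 0 ≤ u.im) (h3 : u.im ≤ Real.pi / 3) :
    2 * (Lc u).im + al u < Real.pi := by
  have hpi := Real.pi_pos
  have h : |u.im| < Real.pi / 2 := by rw [abs_of_nonneg h1]; linarith
  have ha := al_bounds h h0 h1
  have hl0 := Lc_im_nonneg h h0 h1
  have hl1 := Lc_im_abs h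
  rw [abs_of_nonneg hl0, abs_of_nonneg h1] at hl1
  rcases h1.eq_or_lt with h4 | h4
  · -- real
    have : (Lc u).im = 0 := by linarith
    rw [this]
    linarith
  by_contra hc
  push Not at hc
  have hs : sinh u ≠ 0 := by
    intro h5
    have := congrArg Complex.im h5
    rw [sinh_im', zero_im] at this
    have h6 : 0 < Real.sin u.im := Real.sin_pos_of_pos_of_lt_pi h4 (by linarith)
    have := mul_pos (Real.cosh_pos u.re) h6
    linarith
  have e1 : exp (2 * Lc u + log (sinh u)) = cosh u ^ 2 * sinh u := by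
    rw [exp_add, two_mul, exp_add, exp_Lc h, exp_log hs, sq]
  have e2 : (exp (2 * Lc u + log (sinh u))).im ≤ 0 := by
    rw [exp_im]
    apply mul_nonpos_of_nonneg_of_nonpos (Real.exp_pos _).le
    have e3 : (2 * Lc u + log (sinh u)).im = 2 * (Lc u).im + al u := by
      rw [add_im, al, show (2 : ℂ) = ((2 : ℝ) : ℂ) by norm_num, im_ofReal_mul]
    rw [e3, ← Real.sin_sub_two_pi]
    apply Real.sin_nonpos_of_nonpos_of_neg_pi_le <;> linarith
  rw [e1] at e2
  have hsn : 0 < Real.sin u.im := Real.sin_pos_of_pos_of_lt_pi h4 (by linarith)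
  have hcs : 1 / 2 ≤ Real.cos u.im := by
    rw [← Real.cos_pi_div_three]
    exact Real.cos_le_cos_of_nonneg_of_le_pi h1 (by linarith) h3
  have hC := Real.cosh_pos u.re
  have hC2 := Real.cosh_sq u.re
  have hsc := Real.sin_sq_add_cos_sq u.im
  have e4 : (cosh u ^ 2 * sinh u).im = Real.cosh u.re * Real.sin u.im *
      (Real.cos u.im ^ 2 + Real.sinh u.re ^ 2 * (3 * Real.cos u.im ^ 2 - Real.sin u.im ^ 2)) := by
    rw [sq, mul_im, mul_re, mul_im, cosh_re', cosh_im', sinh_re', sinh_im']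
    linear_combination (Real.cosh u.re * Real.sin u.im * Real.cos u.im ^ 2) * hC2
  rw [e4] at e2
  have k1 : 0 ≤ 3 * Real.cos u.im ^ 2 - Real.sin u.im ^ 2 := by nlinarith
  have k2 : 0 < Real.cos u.im ^ 2 + Real.sinh u.re ^ 2 * (3 * Real.cos u.im ^ 2 - Real.sin u.im ^ 2) := by
    have := mul_nonneg (sq_nonneg (Real.sinh u.re)) k1
    have : 0 < Real.cos u.im ^ 2 := by positivity
    linarith
  have := mul_pos (mul_pos hC hsn) k2
  linarith

/-- both in the first quadrant, imaginary parts at most `π / 3` -/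
structure QS (u w : ℂ) : Prop where
  reg : Reg u w
  ur : 0 ≤ u.re
  wr : 0 ≤ w.re
  ui : 0 ≤ u.im
  wi : 0 ≤ w.im
  u3 : u.im ≤ Real.pi / 3
  w3 : w.im ≤ Real.pi / 3

theorem QS.smul {u w : ℂ} (h : QS u w) {s : ℝ} (h0 : 0 ≤ s) (h1 : s ≤ 1) :
    QS ((s : ℂ) * u) ((s : ℂ) * w) := by
  have hpi := Real.pi_pos
  refine ⟨h.reg.smul h0 h1, ?_, ?_, ?_, ?_, ?_, ?_⟩
  · rw [re_ofReal_mul]; exact mul_nonneg h0 h.ur
  · rw [re_ofReal_mul]; exact mul_nonneg h0 h.wr
  · rw [im_ofReal_mul]; exact mul_nonneg h0 h.ui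
  · rw [im_ofReal_mul]; exact mul_nonneg h0 h.wi
  · rw [im_ofReal_mul]
    have := mul_le_mul h1 h.u3 h.ui zero_le_one
    linarith
  · rw [im_ofReal_mul]
    have := mul_le_mul h1 h.w3 h.wi zero_le_one
    linarith

theorem QS.symm {u w : ℂ} (h : QS u w) : QS w u :=
  ⟨h.reg.symm, h.wr, h.ur, h.wi, h.ui, h.w3, h.u3⟩

/-- the imaginary part of `q` in equal quadrants -/
theorem QS.q_im {u w : ℂ} (h : QS u w) :
    ((Lc w).im ≤ al u ∧ 0 ≤ (qq u w).im ∧ (qq u w).im ≤ al u - (Lc w).im) ∨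
    ((qq u w).im ≤ 0 ∧ -(qq u w).im ≤ (Lc w).im) := by
  have hpi := Real.pi_pos
  have ha := al_bounds h.reg.left h.ur h.ui
  have hl0 := Lc_im_nonneg h.reg.right h.wr h.wi
  have hl1 := Lc_im_abs h.reg.right
  have hw := h.reg.right
  rw [abs_of_nonneg hl0] at hl1
  have hq := arsh_im_lt (slit h.reg)
  rcases eq_or_ne (sinh u) 0 with h0 | h0
  · right
    have : qq u w = 0 := by rw [qq, h0, zero_div, arsh]; simp
    rw [this, zero_im]
    exact ⟨le_rfl, by linarith⟩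
  have e1 : log (sinh u / cosh w) = log (sinh u) - Lc w := by
    symm
    apply eq_log_of
    · rw [exp_sub, exp_log h0, exp_Lc h.reg.right]
    · rw [sub_im]; change -Real.pi < al u - (Lc w).im; linarith
    · rw [sub_im]; change al u - (Lc w).im ≤ Real.pi; linarith
  have e2 : arg (sinh u / cosh w) = al u - (Lc w).im := by
    rw [← log_im, e1, sub_im, al]
  have hre : 0 ≤ (sinh u / cosh w).re := by
    rw [← abs_arg_le_pi_div_two_iff, e2, abs_le]
    constructor <;> linarith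
  have k := arsh_im_le_arg (slit h.reg) hre
  rw [e2] at k
  change |(qq u w).im| ≤ _ at k
  rcases le_total (Lc w).im (al u) with h1 | h1
  · left
    have : 0 ≤ (sinh u / cosh w).im := by
      rw [← arg_nonneg_iff, e2]; linarith
    have k2 : 0 ≤ (qq u w).im := arsh_im_nonneg (slit h.reg) this
    rw [abs_of_nonneg k2, abs_of_nonneg (by linarith)] at k
    exact ⟨h1, k2, k⟩
  · right
    have : (sinh u / cosh w).im ≤ 0 := by
      rcases h1.eq_or_lt with h1' | h1'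
      · have : arg (sinh u / cosh w) = 0 := by rw [e2]; linarith
        rw [arg_eq_zero_iff_zero_le.1 this |>.2.symm]
        simp
      · have : arg (sinh u / cosh w) < 0 := by rw [e2]; linarith
        exact (arg_neg_iff.1 this).le
    have k2 : (qq u w).im ≤ 0 := arsh_im_nonpos (slit h.reg) this
    rw [abs_of_nonpos k2, abs_of_nonpos (by linarith)] at k
    exact ⟨k2, by linarith⟩

/-- principal branches in equal quadrants -/
theorem QS.good {u w : ℂ} (h : QS u w) : Good u w := by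
  have hpi := Real.pi_pos
  have ha := al_bounds h.reg.left h.ur h.ui
  have hφ0 := Lc_im_nonneg h.reg.left h.ur h.ui
  have hψ0 := Lc_im_nonneg h.reg.right h.wr h.wi
  have hφ1 := Lc_im_abs h.reg.left
  have hψ1 := Lc_im_abs h.reg.right
  have hl := h.reg.left
  have hr := h.reg.right
  rw [abs_of_nonneg hφ0] at hφ1
  rw [abs_of_nonneg hψ0] at hψ1
  have h2 := two_phi_al h.ur h.ui h.u3
  have hγ : (-(Lc u).im ≤ (lcy u w).im ∧ (lcy u w).im ≤ -(Lc w).im) ∨
      (-(Lc w).im ≤ (lcy u w).im ∧ (lcy u w).im ≤ -(Lc u).im ∧ (Lc u).im ≤ (Lc w).im) := by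
    rcases le_total (Lc w).im (Lc u).im with h3 | h3
    · exact Or.inl (neg_lcy_le h.reg h3)
    · right
      have := neg_lcy_le h.reg.symm h3
      rw [lcy_comm] at this
      exact ⟨this.1, this.2, h3⟩
  unfold Good
  rw [Lm_im, Lp_im, abs_lt, abs_lt]
  rcases h.q_im with ⟨q1, q2, q3⟩ | ⟨q1, q2⟩ <;> rcases hγ with ⟨g1, g2⟩ | ⟨g1, g2, g3⟩ <;>
    refine ⟨⟨?_, ?_⟩, ?_, ?_⟩ <;> linarith

theorem QS.dm {u w : ℂ} (h : QS u w) : fdom (yy u w - gdv u) ∧ he (yy u w - gdv u) = Lm u w :=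
  he_sub_eq h.reg h.good

theorem QS.dp {u w : ℂ} (h : QS u w) : fdom (yy u w + gdv u) ∧ he (yy u w + gdv u) = Lp u w :=
  he_add_eq h.reg h.good

/-- the bridge in equal quadrants -/
theorem bridge_QS {Φ : ℂ → ℂ → ℂ} (hΦ : IsPhi Φ) (h0 : Φ 0 0 = c00) {u w : ℂ} (h : QS u w) :
    Φ (gd u / (Real.pi : ℂ)) (gd w / (Real.pi : ℂ))
      = sP (yy u w) (.op (gdv u)) + sP (yy u w) (.op (gdv w)) := by
  have k := bridge_aux hΦ h.reg (F₁ := fe) (G₁ := fe) (F₂ := fe) (G₂ := fe)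
    (fun s hs => by
      have d := (h.smul hs.1 hs.2).dm
      rw [← d.2]; exact fe_hasDerivAt d.1)
    (fun s hs => by
      have d := (h.smul hs.1 hs.2).dp
      rw [← d.2]; exact fe_hasDerivAt d.1)
    (fun s hs => by
      have d := (h.smul hs.1 hs.2).symm.dm
      rw [← d.2, yy_comm]; exact fe_hasDerivAt (by rw [yy_comm] at d; exact d.1))
    (fun s hs => by
      have d := (h.smul hs.1 hs.2).symm.dp
      rw [← d.2, yy_comm]; exact fe_hasDerivAt (by rw [yy_comm] at d; exact d.1))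
  rw [h0, Pt_zero _ _ _ _ rfl rfl rfl rfl, sub_self] at k
  rw [sub_eq_zero.1 k, Pt, sP, sP]
  ring

end Pool.Agent.S3
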