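import Pool.Agent.S3.FlatM

/-!
# The free-time criterion in polar coordinates

`U = a (C₁ + i S₁)`, `V = b (C₂ - i S₂)`; the criterion is monotone in a common factor of `U`, `V`.
-/

set_option autoImplicit false

namespace Pool.Agent.S3

open Complex

/-- The point with modulus `a` and direction `(C, S)`. -/
noncomputable def pU (a C S : ℝ) : ℂ := (a : ℂ) * ((C : ℂ) + S * I)

theorem pU_re (a C S : ℝ) : (pU a C S).re = a * C := by
  simp [pU]

theorem pU_im (a C S : ℝ) : (pU a C S).im = a * S := by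
  simp [pU]

theorem pU_norm {a C S : ℝ} (ha : 0 ≤ a) (h : C ^ 2 + S ^ 2 = 1) : ‖pU a C S‖ = a := by
  have h1 : ‖pU a C S‖ ^ 2 = a ^ 2 := by
    rw [← normSq_eq_norm_sq, normSq_apply, pU_re, pU_im]
    linear_combination a ^ 2 * h
  exact (pow_left_inj₀ (norm_nonneg _) ha two_ne_zero).mp h1

theorem pU_conj (a C S : ℝ) : (starRingEnd ℂ) (pU a C S) = pU a C (-S) := by
  simp only [pU, map_mul, map_add, conj_ofReal, conj_I, ofReal_neg]
  ring

theorem pU_smul (s a C S : ℝ) : (s : ℂ) * pU a C S = pU (s * a) C S := by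
  simp only [pU, ofReal_mul]
  ring

/-- Every nonzero complex number is a `pU`. -/
theorem pU_self {z : ℂ} (hz : z ≠ 0) : pU ‖z‖ (z.re / ‖z‖) (z.im / ‖z‖) = z := by
  have h : ‖z‖ ≠ 0 := norm_ne_zero_iff.mpr hz
  apply Complex.ext
  · rw [pU_re]
    field_simp
  · rw [pU_im]
    field_simp

/-! ### The two alternatives without the conditions on the real parts -/

/-- First alternative. -/
def FA (U V : ℂ) : Prop := ‖U - V‖ ^ 2 * ‖U + V - 1‖ < 4 * (‖U‖ * ‖V‖) * (U + V - 1).re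

/-- Second alternative. -/
def FN (U V : ℂ) : Prop :=
  0 ≤ (U + V).im ∧ ∃ c σ : ℝ, 0 < c ∧ 0 < σ ∧ c ^ 2 + σ ^ 2 = 1 ∧
    ‖U - V‖ ^ 2 < 4 * c * (‖U‖ * ‖V‖) ∧
    c * (1 + ‖U + V - 1‖) < c * (U + V).re + σ * (U + V).im ∧
    (‖U‖ ^ 2 - ‖V‖ ^ 2) ^ 2 *
        ((1 + ‖U + V - 1‖) ^ 2 - (c * (U + V).re + σ * (U + V).im) ^ 2) <
      4 * (1 + ‖U + V - 1‖) *
        ((c * (U + V).re + σ * (U + V).im) - c * (1 + ‖U + V - 1‖)) *
        (((c : ℂ) + σ * I) * (U * V * (starRingEnd ℂ) (U + V) ^ 2)).re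

/-- The criterion. -/
def FM0 (U V : ℂ) : Prop := FA U V ∨ FN U V ∨ FN ((starRingEnd ℂ) U) ((starRingEnd ℂ) V)

theorem FM0.flatM {U V : ℂ} (h : FM0 U V) (hU : 1 / 2 < U.re) (hV : 1 / 2 < V.re) :
    FlatM U V := by
  rcases h with h | ⟨h1, h2⟩ | ⟨h1, h2⟩
  · refine Or.inl ⟨?_, hU, hV, Or.inl h⟩
    rw [sub_re, add_re, one_re]
    linarith only [hV, hU]
  · exact Or.inr (Or.inl ⟨hU, hV, h1, h2⟩)
  · exact Or.inr (Or.inr ⟨by rw [conj_re]; exact hU, by rw [conj_re]; exact hV, h1, h2⟩)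

theorem FA.symm {U V : ℂ} (h : FA U V) : FA V U := by
  unfold FA at h ⊢
  rw [norm_sub_rev, add_comm V U, mul_comm ‖V‖ ‖U‖]
  exact h

theorem FN.symm {U V : ℂ} (h : FN U V) : FN V U := by
  unfold FN at h ⊢
  rw [norm_sub_rev, add_comm V U, mul_comm ‖V‖ ‖U‖, mul_comm V U]
  have e : (‖V‖ ^ 2 - ‖U‖ ^ 2) ^ 2 = (‖U‖ ^ 2 - ‖V‖ ^ 2) ^ 2 := by ring
  rw [e]
  exact h

theorem FM0.symm {U V : ℂ} (h : FM0 U V) : FM0 V U := by
  rcases h with h | h | h
  · exact Or.inl h.symm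
  · exact Or.inr (Or.inl h.symm)
  · exact Or.inr (Or.inr h.symm)

theorem FM0.conj {U V : ℂ} (h : FM0 U V) : FM0 ((starRingEnd ℂ) U) ((starRingEnd ℂ) V) := by
  rcases h with h | h | h
  · refine Or.inl ?_
    unfold FA at h ⊢
    have e1 : (starRingEnd ℂ) U + (starRingEnd ℂ) V - 1 = (starRingEnd ℂ) (U + V - 1) := by
      rw [map_sub, map_add, map_one]
    rw [e1, ← map_sub, norm_conj, norm_conj, norm_conj, norm_conj, conj_re]
    exact h
  · refine Or.inr (Or.inr ?_)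
    rw [conj_conj, conj_conj]
    exact h
  · exact Or.inr (Or.inl h)

/-! ### The function of the criterion -/

private theorem fp_mono {c p d P D : ℝ} (hc : 0 < c) (hc1 : c < 1) (hp : 0 < p) (hpP : p ≤ P)
    (hD : 0 ≤ D) (hDd : D ≤ d) (hn : 0 < (1 - c) * p - c * d) :
    (1 + p + d) * ((1 - c) * p - c * d) * ((1 - c + D) * (1 + c + 2 * P + D)) ≤
      (1 + P + D) * ((1 - c) * P - c * D) * ((1 - c + d) * (1 + c + 2 * p + d)) := by
  have hd : 0 ≤ d := hD.trans hDd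
  have hP : 0 < P := hp.trans_le hpP
  have c1 : 0 < 1 - c := by linarith only [hc1]
  have g1 : 0 ≤ P - p := sub_nonneg.mpr hpP
  have g2 : 0 ≤ d - D := sub_nonneg.mpr hDd
  have h1 : (1 + p + d) * (1 - c + D) ≤ (1 + P + D) * (1 - c + d) := by
    have e : (1 + P + D) * (1 - c + d) - (1 + p + d) * (1 - c + D) =
        (1 - c) * (P - p) + c * (d - D) + d * (P - p) + p * (d - D) := by ring
    have : 0 ≤ (1 - c) * (P - p) + c * (d - D) + d * (P - p) + p * (d - D) := by positivity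
    linarith only [this]
  have h2 : ((1 - c) * p - c * d) * (1 + c + 2 * P + D) ≤
      ((1 - c) * P - c * D) * (1 + c + 2 * p + d) := by
    have e : ((1 - c) * P - c * D) * (1 + c + 2 * p + d) -
        ((1 - c) * p - c * d) * (1 + c + 2 * P + D) =
        (1 - c) * (1 + c) * (P - p) + c * (1 + c) * (d - D) +
          (1 + c) * (d * (P - p) + p * (d - D)) := by ring
    have : 0 ≤ (1 - c) * (1 + c) * (P - p) + c * (1 + c) * (d - D) +
          (1 + c) * (d * (P - p) + p * (d - D)) := by positivity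
    linarith only [this]
  have h3 : 0 ≤ (1 + p + d) * (1 - c + D) := by positivity
  have h4 : 0 ≤ ((1 - c) * P - c * D) * (1 + c + 2 * p + d) :=
    le_trans (mul_nonneg hn.le (by positivity)) h2
  calc (1 + p + d) * ((1 - c) * p - c * d) * ((1 - c + D) * (1 + c + 2 * P + D))
      = ((1 + p + d) * (1 - c + D)) * (((1 - c) * p - c * d) * (1 + c + 2 * P + D)) := by ring
    _ ≤ ((1 + p + d) * (1 - c + D)) * (((1 - c) * P - c * D) * (1 + c + 2 * p + d)) :=
        mul_le_mul_of_nonneg_left h2 h3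
    _ ≤ ((1 + P + D) * (1 - c + d)) * (((1 - c) * P - c * D) * (1 + c + 2 * p + d)) :=
        mul_le_mul_of_nonneg_right h1 h4
    _ = _ := by ring

/-- `X = |N|`, `P₁ = Re (e^{-iψ} N)`, `P₂ = Im (e^{-iψ} N)`. -/
private theorem fp_X {X P1 P2 p d : ℝ} (hX : 0 ≤ X) (hXP : X ^ 2 = P1 ^ 2 + P2 ^ 2) (hp : 0 < p)
    (hpP : p ≤ P1) (hd : P2 ^ 2 ≤ 2 * d * p) : 0 ≤ X - P1 ∧ X - P1 ≤ d := by
  have hP1 : 0 < P1 := hp.trans_le hpP
  have h1 : P1 ≤ X := by
    apply le_of_sq_le_sq ?_ hX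
    linarith only [sq_nonneg P2, hXP]
  refine ⟨by linarith only [h1], ?_⟩
  by_contra hlt
  push Not at hlt
  have h2 : (X - P1) * (X + P1) = P2 ^ 2 := by linear_combination hXP
  have h3 : (X - P1) * (2 * p) ≤ P2 ^ 2 := by
    rw [← h2]
    apply mul_le_mul_of_nonneg_left ?_ (by linarith only [h1])
    linarith only [h1, hpP]
  linarith only [h3, hd, mul_pos (sub_pos.2 hp) (sub_pos.2 hlt)]

/-- **The leaf criterion.** -/
theorem flatN_polar {a b C1 S1 C2 S2 c σ p d B sh : ℝ} (ha : 0 < a) (hb : 0 < b)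
    (h1 : C1 ^ 2 + S1 ^ 2 = 1) (h2 : C2 ^ 2 + S2 ^ 2 = 1)
    (hn : 0 ≤ a * S1 - b * S2) (hc : 0 < c) (hσ : 0 < σ)
    (hcs : c ^ 2 + σ ^ 2 = 1)
    (hK : b / a + a / b - 2 * (C1 * C2 - S1 * S2) < 4 * c)
    (hp : 0 < p) (hpP : p ≤ c * (a * C1 + b * C2 - 1) + σ * (a * S1 - b * S2))
    (hd : (c * (a * S1 - b * S2) - σ * (a * C1 + b * C2 - 1)) ^ 2 ≤ 2 * d * p)
    (hnum : 0 < (1 - c) * p - c * d) (hB : 0 < B)
    (hBle : B ≤ c * (2 + (b / a + a / b) * (C1 * C2 - S1 * S2)) +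
      σ * ((a / b - b / a) * (S1 * C2 + C1 * S2)))
    (hsh : (b / a - a / b) ^ 2 ≤ sh)
    (hfin : sh * ((1 - c + d) * (1 + c + 2 * p + d)) <
      4 * ((1 + p + d) * ((1 - c) * p - c * d)) * B) :
    FN (pU a C1 S1) (pU b C2 (-S2)) := by
  have hn1 := pU_norm ha.le h1
  have hn2 : ‖pU b C2 (-S2)‖ = b := pU_norm hb.le (by rw [← h2]; ring)
  have hab : 0 < a * b := mul_pos ha hb
  have hc1 : c < 1 := by (refine lt_of_not_ge fun hng => ?_; linarith only [hng, mul_pos hσ hσ, hcs,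
                           mul_nonneg (sub_nonneg.2 hng) (sub_nonneg.2 hng)])
  have hd0 : 0 ≤ d := by
    have h3 : 0 ≤ 2 * d * p := (sq_nonneg _).trans hd
    by_contra hneg
    push Not at hneg
    linarith only [hd, sq_nonneg (c * (a * S1 - b * S2) - σ * (a * C1 + b * C2 - 1)),
      mul_pos (sub_pos.2 hp) (sub_pos.2 hneg)]
  set nr := a * C1 + b * C2 with hnr
  set ni := a * S1 - b * S2 with hni
  have enr : (pU a C1 S1 + pU b C2 (-S2)).re = nr := by rw [add_re, pU_re, pU_re]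
  have eni : (pU a C1 S1 + pU b C2 (-S2)).im = ni := by
    rw [add_im, pU_im, pU_im, hni]
    ring
  refine ⟨by rw [eni]; exact hn, c, σ, hc, hσ, hcs, ?_, ?_, ?_⟩
  · rw [hn1, hn2, ← normSq_eq_norm_sq, normSq_apply, sub_re, sub_im, pU_re, pU_re, pU_im, pU_im]
    have e1 : (b / a + a / b) * (a * b) = b ^ 2 + a ^ 2 := by field_simp
    have h3 := mul_lt_mul_of_pos_right hK hab
    have e2 : (a * C1 - b * C2) * (a * C1 - b * C2) + (a * S1 - b * -S2) * (a * S1 - b * -S2) =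
        a ^ 2 + b ^ 2 - 2 * (C1 * C2 - S1 * S2) * (a * b) := by
      linear_combination a ^ 2 * h1 + b ^ 2 * h2
    rw [e2]
    rw [sub_mul, e1] at h3
    linarith only [h3]
  all_goals
    rw [enr, eni]
    set X := ‖pU a C1 S1 + pU b C2 (-S2) - 1‖ with hX
    have hX0 : 0 ≤ X := norm_nonneg _
    have hX2 : X ^ 2 = (c * (nr - 1) + σ * ni) ^ 2 + (c * ni - σ * (nr - 1)) ^ 2 := by
      rw [hX, ← normSq_eq_norm_sq, normSq_apply, sub_re, sub_im, one_re, one_im, enr, eni]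
      linear_combination (-((nr - 1) ^ 2 + ni ^ 2)) * hcs
    obtain ⟨hD0, hDd⟩ := fp_X hX0 hX2 hp hpP hd
    set P := c * (nr - 1) + σ * ni with hP
    have eP : c * nr + σ * ni = c + P := by rw [hP]; ring
    rw [eP]
    have h5 := fp_mono hc hc1 hp hpP hD0 hDd hnum
    set D := X - P with hDdef
    have hXe : X = P + D := by rw [hDdef]; ring
    rw [hXe]
    have hP0 : 0 < P := hp.trans_le hpP
    have h6 : 0 < (1 - c) * P - c * D := by
      have g1 : (1 - c) * p ≤ (1 - c) * P := mul_le_mul_of_nonneg_left hpP (by linarith only [hc1])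
      have g2 : c * D ≤ c * d := mul_le_mul_of_nonneg_left hDd hc.le
      linarith only [g2, g1, hnum]
  · have e9 : c + P - c * (1 + (P + D)) = (1 - c) * P - c * D := by ring
    linarith only [h6]
  · rw [hn1, hn2]
    have e3 : (((c : ℂ) + σ * I) * (pU a C1 S1 * pU b C2 (-S2) *
        (starRingEnd ℂ) (pU a C1 S1 + pU b C2 (-S2)) ^ 2)).re =
        (a * b) ^ 2 * (c * (2 + (b / a + a / b) * (C1 * C2 - S1 * S2)) +
          σ * ((a / b - b / a) * (S1 * C2 + C1 * S2))) := by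
      have e4 : (a * b) ^ 2 * (c * (2 + (b / a + a / b) * (C1 * C2 - S1 * S2)) +
          σ * ((a / b - b / a) * (S1 * C2 + C1 * S2))) =
          a * b * (c * (2 * (a * b) + (a ^ 2 + b ^ 2) * (C1 * C2 - S1 * S2)) +
            σ * ((a ^ 2 - b ^ 2) * (S1 * C2 + C1 * S2))) := by
        field_simp
        ring
      rw [e4]
      have e5 : pU a C1 S1 * pU b C2 (-S2) * (starRingEnd ℂ) (pU a C1 S1 + pU b C2 (-S2)) ^ 2 =
          ((a * b * (2 * (a * b) * (C1 ^ 2 + S1 ^ 2) * (C2 ^ 2 + S2 ^ 2) +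
            (a ^ 2 * (C1 ^ 2 + S1 ^ 2) + b ^ 2 * (C2 ^ 2 + S2 ^ 2)) * (C1 * C2 - S1 * S2)) : ℝ) : ℂ) +
          ((-(a * b * ((a ^ 2 * (C1 ^ 2 + S1 ^ 2) - b ^ 2 * (C2 ^ 2 + S2 ^ 2)) *
            (S1 * C2 + C1 * S2))) : ℝ) : ℂ) * I := by
        apply Complex.ext <;>
        simp only [pU, pow_two, map_add, map_mul, conj_ofReal, conj_I, mul_re, mul_im, add_re,
          add_im, ofReal_re, ofReal_im, I_re, I_im, mul_zero, zero_mul, sub_zero, zero_add,
          add_zero, mul_one, neg_re, neg_im, conj_re, conj_im] <;> ring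
      rw [e5, h1, h2]
      simp only [mul_re, mul_im, add_re, add_im, ofReal_re, ofReal_im, I_re, I_im, mul_zero,
        zero_mul, sub_zero, zero_add, add_zero, mul_one]
      ring
    rw [e3]
    set B' := c * (2 + (b / a + a / b) * (C1 * C2 - S1 * S2)) +
          σ * ((a / b - b / a) * (S1 * C2 + C1 * S2)) with hB'
    have hB'0 : 0 < B' := hB.trans_le hBle
    have e6 : (a ^ 2 - b ^ 2) ^ 2 = (a * b) ^ 2 * (b / a - a / b) ^ 2 := by
      field_simp
      ring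
    rw [e6]
    have hden : 0 < (1 - c + d) * (1 + c + 2 * p + d) := by
      have : 0 < 1 - c := by linarith only [hc1]
      positivity
    have hden' : 0 < (1 - c + D) * (1 + c + 2 * P + D) := by
      have : 0 < 1 - c := by linarith only [hc1]
      positivity
    have h7 : sh * ((1 - c + D) * (1 + c + 2 * P + D)) <
        4 * ((1 + P + D) * ((1 - c) * P - c * D)) * B := by
      have h8 : sh * ((1 - c + d) * (1 + c + 2 * p + d)) * ((1 - c + D) * (1 + c + 2 * P + D)) <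
          4 * ((1 + p + d) * ((1 - c) * p - c * d)) * B * ((1 - c + D) * (1 + c + 2 * P + D)) :=
        mul_lt_mul_of_pos_right hfin hden'
      have h9 : 4 * B * ((1 + p + d) * ((1 - c) * p - c * d) *
          ((1 - c + D) * (1 + c + 2 * P + D))) ≤
          4 * B * ((1 + P + D) * ((1 - c) * P - c * D) * ((1 - c + d) * (1 + c + 2 * p + d))) :=
        mul_le_mul_of_nonneg_left h5 (by positivity)
      have h10 : sh * ((1 - c + D) * (1 + c + 2 * P + D)) * ((1 - c + d) * (1 + c + 2 * p + d)) <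
          4 * ((1 + P + D) * ((1 - c) * P - c * D)) * B * ((1 - c + d) * (1 + c + 2 * p + d)) := by
        calc sh * ((1 - c + D) * (1 + c + 2 * P + D)) * ((1 - c + d) * (1 + c + 2 * p + d))
            = sh * ((1 - c + d) * (1 + c + 2 * p + d)) * ((1 - c + D) * (1 + c + 2 * P + D)) := by
              ring
          _ < 4 * ((1 + p + d) * ((1 - c) * p - c * d)) * B *
              ((1 - c + D) * (1 + c + 2 * P + D)) := h8
          _ = 4 * B * ((1 + p + d) * ((1 - c) * p - c * d) *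
              ((1 - c + D) * (1 + c + 2 * P + D))) := by ring
          _ ≤ 4 * B * ((1 + P + D) * ((1 - c) * P - c * D) *
              ((1 - c + d) * (1 + c + 2 * p + d))) := h9
          _ = _ := by ring
      exact lt_of_mul_lt_mul_right h10 hden.le
    have h11 : (b / a - a / b) ^ 2 * ((1 - c + D) * (1 + c + 2 * P + D)) ≤
        sh * ((1 - c + D) * (1 + c + 2 * P + D)) := mul_le_mul_of_nonneg_right hsh hden'.le
    have h12 : 4 * ((1 + P + D) * ((1 - c) * P - c * D)) * B ≤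
        4 * ((1 + P + D) * ((1 - c) * P - c * D)) * B' :=
      mul_le_mul_of_nonneg_left hBle (by positivity)
    have h13 : (b / a - a / b) ^ 2 * ((1 - c + D) * (1 + c + 2 * P + D)) <
        4 * ((1 + P + D) * ((1 - c) * P - c * D)) * B' := by linarith only [h12, h11, h7]
    have h14 := mul_lt_mul_of_pos_left h13 (show 0 < (a * b) ^ 2 by positivity)
    have e7 : (1 + (P + D)) ^ 2 - (c + P) ^ 2 = (1 - c + D) * (1 + c + 2 * P + D) := by ring
    have e8 : c + P - c * (1 + (P + D)) = (1 - c) * P - c * D := by ring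
    rw [e7, e8]
    calc (a * b) ^ 2 * (b / a - a / b) ^ 2 * ((1 - c + D) * (1 + c + 2 * P + D))
        = (a * b) ^ 2 * ((b / a - a / b) ^ 2 * ((1 - c + D) * (1 + c + 2 * P + D))) := by ring
      _ < (a * b) ^ 2 * (4 * ((1 + P + D) * ((1 - c) * P - c * D)) * B') := h14
      _ = _ := by ring

/-- The first alternative in polar coordinates. -/
theorem flatA_polar {a b C1 S1 C2 S2 c σ : ℝ} (ha : 0 < a) (hb : 0 < b)
    (h1 : C1 ^ 2 + S1 ^ 2 = 1) (h2 : C2 ^ 2 + S2 ^ 2 = 1) (hNr : 0 < a * C1 + b * C2 - 1)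
    (hcs : c ^ 2 + σ ^ 2 = 1)
    (hK : b / a + a / b - 2 * (C1 * C2 - S1 * S2) < 4 * c)
    (hN : (c * (a * S1 - b * S2)) ^ 2 ≤ (σ * (a * C1 + b * C2 - 1)) ^ 2) :
    FA (pU a C1 S1) (pU b C2 (-S2)) := by
  have hn1 := pU_norm ha.le h1
  have hn2 : ‖pU b C2 (-S2)‖ = b := pU_norm hb.le (by rw [← h2]; ring)
  have hab : 0 < a * b := mul_pos ha hb
  have enr : (pU a C1 S1 + pU b C2 (-S2) - 1).re = a * C1 + b * C2 - 1 := by
    rw [sub_re, add_re, pU_re, pU_re, one_re]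
  have eni : (pU a C1 S1 + pU b C2 (-S2) - 1).im = a * S1 - b * S2 := by
    rw [sub_im, add_im, pU_im, pU_im, one_im]
    ring
  unfold FA
  rw [enr, hn1, hn2]
  have e0 : ‖pU a C1 S1 - pU b C2 (-S2)‖ ^ 2 < 4 * c * (a * b) := by
    rw [← normSq_eq_norm_sq, normSq_apply, sub_re, sub_im, pU_re, pU_re, pU_im, pU_im]
    have e1 : (b / a + a / b) * (a * b) = b ^ 2 + a ^ 2 := by field_simp
    have h3 := mul_lt_mul_of_pos_right hK hab
    have e2 : (a * C1 - b * C2) * (a * C1 - b * C2) + (a * S1 - b * -S2) * (a * S1 - b * -S2) =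
        a ^ 2 + b ^ 2 - 2 * (C1 * C2 - S1 * S2) * (a * b) := by
      linear_combination a ^ 2 * h1 + b ^ 2 * h2
    rw [e2]
    rw [sub_mul, e1] at h3
    linarith only [h3]
  have hN0 : 0 < ‖pU a C1 S1 + pU b C2 (-S2) - 1‖ := by
    rw [norm_pos_iff]
    intro h0
    have := congrArg Complex.re h0
    rw [enr, zero_re] at this
    linarith only [this, hNr]
  have hcN : c * ‖pU a C1 S1 + pU b C2 (-S2) - 1‖ ≤ a * C1 + b * C2 - 1 := by
    apply le_of_sq_le_sq ?_ hNr.le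
    rw [mul_pow, ← normSq_eq_norm_sq, normSq_apply, enr, eni]
    linarith only [hN, mul_nonneg (mul_self_nonneg (a * C1 + b * C2 - 1)) (sub_nonneg.2 hcs.le),
      mul_nonneg (mul_self_nonneg (a * C1 + b * C2 - 1)) (sub_nonneg.2 hcs.ge)]
  calc ‖pU a C1 S1 - pU b C2 (-S2)‖ ^ 2 * ‖pU a C1 S1 + pU b C2 (-S2) - 1‖
      < 4 * c * (a * b) * ‖pU a C1 S1 + pU b C2 (-S2) - 1‖ := mul_lt_mul_of_pos_right e0 hN0
    _ = 4 * (a * b) * (c * ‖pU a C1 S1 + pU b C2 (-S2) - 1‖) := by ring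
    _ ≤ 4 * (a * b) * (a * C1 + b * C2 - 1) := mul_le_mul_of_nonneg_left hcN (by positivity)

/-! ### Scaling -/

theorem FN.smul {U V : ℂ} (h : FN U V) {s : ℝ} (hs : 1 ≤ s) :
    FN ((s : ℂ) * U) ((s : ℂ) * V) := by
  obtain ⟨hn, c, σ, hc, hσ, hcs, hK, hw, hM⟩ := h
  have hs0 : 0 < s := by linarith only [hs]
  have en : (s : ℂ) * U + (s : ℂ) * V = (s : ℂ) * (U + V) := by ring
  have ed : (s : ℂ) * U - (s : ℂ) * V = (s : ℂ) * (U - V) := by ring
  have hns : ‖(s : ℂ)‖ = s := by rw [norm_real, Real.norm_of_nonneg hs0.le]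
  set n : ℂ := U + V with hndef
  set S0 : ℝ := 1 + ‖n - 1‖ with hS0
  set w0 : ℝ := c * n.re + σ * n.im with hw0
  have hS0p : 0 < S0 := by positivity
  have hw0p : 0 < w0 := lt_trans (by positivity) hw
  have hw0S : w0 ≤ S0 := by
    have h1 : w0 ≤ ‖n‖ := by
      apply le_of_sq_le_sq ?_ (norm_nonneg _)
      rw [← normSq_eq_norm_sq, normSq_apply, hw0]
      linarith only [sq_nonneg (c * n.im - σ * n.re),
        mul_nonneg (mul_self_nonneg (n.re)) (sub_nonneg.2 hcs.le),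
        mul_nonneg (mul_self_nonneg (n.re)) (sub_nonneg.2 hcs.ge),
        mul_nonneg (mul_self_nonneg (n.im)) (sub_nonneg.2 hcs.le),
        mul_nonneg (mul_self_nonneg (n.im)) (sub_nonneg.2 hcs.ge)]
    have h2 : ‖n‖ ≤ S0 := by
      calc ‖n‖ = ‖(n - 1) + 1‖ := by ring_nf
        _ ≤ ‖n - 1‖ + ‖(1 : ℂ)‖ := norm_add_le _ _
        _ = S0 := by rw [norm_one, hS0]; ring
    linarith only [h2, h1]
  set K0 : ℝ := (‖U‖ ^ 2 - ‖V‖ ^ 2) ^ 2 with hK0
  set R0 : ℝ := (((c : ℂ) + σ * I) * (U * V * (starRingEnd ℂ) n ^ 2)).re with hR0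
  have hK0p : 0 ≤ K0 := by positivity
  have hwc : 0 < w0 - c * S0 := by linarith only [hw]
  have hR0p : 0 < R0 := by
    by_contra hneg
    push Not at hneg
    have h1 : 0 ≤ K0 * (S0 ^ 2 - w0 ^ 2) := by
      apply mul_nonneg hK0p
      linarith only [mul_nonneg (sub_nonneg.2 hw0p.le) (sub_nonneg.2 hw0S),
        mul_nonneg (sub_nonneg.2 hS0p.le) (sub_nonneg.2 hw0S)]
    have h2 : 4 * S0 * (w0 - c * S0) * R0 ≤ 0 :=
      mul_nonpos_of_nonneg_of_nonpos (by positivity) hneg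
    linarith only [h2, h1, hM]
  set S : ℝ := 1 + ‖(s : ℂ) * n - 1‖ with hS
  have hSp : 0 < S := by positivity
  have hSle : S ≤ s * S0 := by
    have h1 : ‖(s : ℂ) * n - 1‖ ≤ s * ‖n - 1‖ + (s - 1) := by
      have e : (s : ℂ) * n - 1 = (s : ℂ) * (n - 1) + ((s - 1 : ℝ) : ℂ) := by
        push_cast
        ring
      rw [e]
      refine (norm_add_le _ _).trans ?_
      rw [norm_mul, hns, norm_real, Real.norm_of_nonneg (by linarith only [hs])]
    rw [hS, hS0]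
    linarith only [h1]
  refine ⟨?_, c, σ, hc, hσ, hcs, ?_, ?_, ?_⟩
  · rw [en, im_ofReal_mul]
    positivity
  · rw [ed, norm_mul, norm_mul, norm_mul, hns]
    have := mul_lt_mul_of_pos_left hK (show 0 < s ^ 2 by positivity)
    linarith only [this]
  · rw [en, re_ofReal_mul, im_ofReal_mul, ← hS]
    have h1 : c * S ≤ c * (s * S0) := mul_le_mul_of_nonneg_left hSle hc.le
    have h2 : s * (c * S0) < s * w0 := mul_lt_mul_of_pos_left (by linarith only [hw]) hs0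
    rw [hw0] at h2
    linarith only [h2, h1]
  · rw [en, re_ofReal_mul, im_ofReal_mul, norm_mul, norm_mul, hns, ← hS]
    have e1 : c * (s * n.re) + σ * (s * n.im) = s * w0 := by rw [hw0]; ring
    have e2 : (((c : ℂ) + σ * I) * ((s : ℂ) * U * ((s : ℂ) * V) *
        (starRingEnd ℂ) ((s : ℂ) * n) ^ 2)).re = s ^ 4 * R0 := by
      have : ((c : ℂ) + σ * I) * ((s : ℂ) * U * ((s : ℂ) * V) * (starRingEnd ℂ) ((s : ℂ) * n) ^ 2) =
          ((s ^ 4 : ℝ) : ℂ) * (((c : ℂ) + σ * I) * (U * V * (starRingEnd ℂ) n ^ 2)) := by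
        rw [map_mul, conj_ofReal]
        push_cast
        ring
      rw [this, re_ofReal_mul]
    rw [e1, e2]
    have e3 : ((s * ‖U‖) ^ 2 - (s * ‖V‖) ^ 2) ^ 2 = s ^ 4 * K0 := by rw [hK0]; ring
    rw [e3]
    have key : K0 * (S ^ 2 - (s * w0) ^ 2) < 4 * S * (s * w0 - c * S) * R0 := by
      have h1 : K0 * (S0 ^ 2 - w0 ^ 2) * S ^ 2 < 4 * S0 * (w0 - c * S0) * R0 * S ^ 2 :=
        mul_lt_mul_of_pos_right hM (by positivity)
      have h2 : K0 * w0 ^ 2 * S ^ 2 ≤ K0 * w0 ^ 2 * (s * S0) ^ 2 := by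
        apply mul_le_mul_of_nonneg_left ?_ (by positivity)
        exact pow_le_pow_left₀ hSp.le hSle 2
      have h3 : R0 * S0 * w0 * S * S ≤ R0 * S0 * w0 * S * (s * S0) :=
        mul_le_mul_of_nonneg_left hSle (by positivity)
      have h4 : K0 * (S ^ 2 - (s * w0) ^ 2) * S0 ^ 2 < 4 * S * (s * w0 - c * S) * R0 * S0 ^ 2 := by
        have e1 : K0 * (S ^ 2 - (s * w0) ^ 2) * S0 ^ 2 = K0 * (S0 ^ 2 - w0 ^ 2) * S ^ 2 +
            K0 * w0 ^ 2 * S ^ 2 - K0 * w0 ^ 2 * (s * S0) ^ 2 := by ring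
        have e2 : 4 * S * (s * w0 - c * S) * R0 * S0 ^ 2 = 4 * S0 * (w0 - c * S0) * R0 * S ^ 2 +
            4 * (R0 * S0 * w0 * S * (s * S0)) - 4 * (R0 * S0 * w0 * S * S) := by ring
        rw [e1, e2]
        linarith only [h3, h2, h1]
      exact lt_of_mul_lt_mul_right h4 (by positivity)
    have h5 := mul_lt_mul_of_pos_left key (show 0 < s ^ 4 by positivity)
    calc s ^ 4 * K0 * (S ^ 2 - (s * w0) ^ 2) = s ^ 4 * (K0 * (S ^ 2 - (s * w0) ^ 2)) := by ring
      _ < s ^ 4 * (4 * S * (s * w0 - c * S) * R0) := h5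
      _ = _ := by ring

/-- The first alternative is also monotone. -/
theorem FA.smul {U V : ℂ} (h : FA U V) {s : ℝ} (hs : 1 ≤ s) :
    FA ((s : ℂ) * U) ((s : ℂ) * V) := by
  unfold FA at h ⊢
  have hs0 : 0 < s := by linarith only [hs]
  have en : (s : ℂ) * U + (s : ℂ) * V = (s : ℂ) * (U + V) := by ring
  have ed : (s : ℂ) * U - (s : ℂ) * V = (s : ℂ) * (U - V) := by ring
  have hns : ‖(s : ℂ)‖ = s := by rw [norm_real, Real.norm_of_nonneg hs0.le]
  have hpos : 0 < 4 * (‖U‖ * ‖V‖) * (U + V - 1).re := lt_of_le_of_lt (by positivity) h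
  have hN : 0 < (U + V - 1).re := pos_of_mul_pos_right hpos (by positivity)
  have hUV : 0 < 4 * (‖U‖ * ‖V‖) := (mul_pos_iff_of_pos_right hN).mp hpos
  have h0 : 0 < ‖U + V - 1‖ := lt_of_lt_of_le hN (re_le_norm _)
  have hN' : 0 < ((s : ℂ) * (U + V) - 1).re := by
    rw [sub_re, one_re] at hN
    rw [sub_re, re_ofReal_mul, one_re]
    linarith only [hN, hs, mul_nonneg (sub_nonneg.2 hs) (sub_nonneg.2 hN.le)]
  have h1 : (U + V - 1).re * ‖(s : ℂ) * (U + V) - 1‖ ≤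
      ((s : ℂ) * (U + V) - 1).re * ‖U + V - 1‖ := by
    apply le_of_sq_le_sq ?_ (by positivity)
    rw [mul_pow, mul_pow, ← normSq_eq_norm_sq, ← normSq_eq_norm_sq, normSq_apply, normSq_apply]
    simp only [sub_re, sub_im, one_re, one_im, re_ofReal_mul, im_ofReal_mul] at hN hN' ⊢
    set x := (U + V).re
    set y := (U + V).im
    have h2 : 0 ≤ s * (x - 1) := by linarith only [hN,
                                      mul_nonneg (sub_nonneg.2 hs) (sub_nonneg.2 hN.le)]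
    have h3 : s * (x - 1) ≤ s * x - 1 := by linarith only [hs]
    have h4 : (s * (x - 1)) ^ 2 ≤ (s * x - 1) ^ 2 := pow_le_pow_left₀ h2 h3 2
    linarith only [mul_le_mul_of_nonneg_right h4 (sq_nonneg y)]
  rw [en, ed, norm_mul, norm_mul, norm_mul, hns]
  have h6 : ‖U - V‖ ^ 2 * ‖(s : ℂ) * (U + V) - 1‖ <
      4 * (‖U‖ * ‖V‖) * ((s : ℂ) * (U + V) - 1).re := by
    refine lt_of_mul_lt_mul_right ?_ h0.le
    have hpos : 0 < ‖(s : ℂ) * (U + V) - 1‖ := lt_of_lt_of_le hN' (re_le_norm _)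
    calc ‖U - V‖ ^ 2 * ‖(s : ℂ) * (U + V) - 1‖ * ‖U + V - 1‖
        = (‖U - V‖ ^ 2 * ‖U + V - 1‖) * ‖(s : ℂ) * (U + V) - 1‖ := by ring
      _ < (4 * (‖U‖ * ‖V‖) * (U + V - 1).re) * ‖(s : ℂ) * (U + V) - 1‖ :=
          mul_lt_mul_of_pos_right h hpos
      _ = 4 * (‖U‖ * ‖V‖) * ((U + V - 1).re * ‖(s : ℂ) * (U + V) - 1‖) := by ring
      _ ≤ 4 * (‖U‖ * ‖V‖) * (((s : ℂ) * (U + V) - 1).re * ‖U + V - 1‖) :=
          mul_le_mul_of_nonneg_left h1 hUV.le
      _ = _ := by ring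
  have h7 := mul_lt_mul_of_pos_left h6 (show 0 < s ^ 2 by positivity)
  calc (s * ‖U - V‖) ^ 2 * ‖(s : ℂ) * (U + V) - 1‖
      = s ^ 2 * (‖U - V‖ ^ 2 * ‖(s : ℂ) * (U + V) - 1‖) := by ring
    _ < s ^ 2 * (4 * (‖U‖ * ‖V‖) * ((s : ℂ) * (U + V) - 1).re) := h7
    _ = _ := by ring

theorem FM0.smul {U V : ℂ} (h : FM0 U V) {s : ℝ} (hs : 1 ≤ s) :
    FM0 ((s : ℂ) * U) ((s : ℂ) * V) := by
  rcases h with h | h | h
  · exact Or.inl (h.smul hs)
  · exact Or.inr (Or.inl (h.smul hs))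
  · refine Or.inr (Or.inr ?_)
    have := h.smul hs
    rw [map_mul, map_mul, conj_ofReal]
    exact this

end Pool.Agent.S3
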