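import Pool.Agent.S3.NI

/-!
# Logarithm and arctangent bounds by kernel evaluation
-/

set_option autoImplicit false

namespace Pool.Agent.S3.NI

open Real

/-- A function with nonnegative derivative on `[0, ∞)`. -/
theorem le_of_der {f f' : ℝ → ℝ} {a x : ℝ} (h : ∀ x, a ≤ x → HasDerivAt f (f' x) x)
    (h' : ∀ x, a ≤ x → 0 ≤ f' x) (hx : a ≤ x) : f a ≤ f x := by
  have hm : MonotoneOn f (Set.Ici a) := by
    apply monotoneOn_of_deriv_nonneg (convex_Ici a)
    · exact fun x hx => (h x hx).continuousAt.continuousWithinAt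
    · intro x hx
      rw [interior_Ici] at hx
      exact (h x (le_of_lt hx)).differentiableAt.differentiableWithinAt
    · intro x hx
      rw [interior_Ici] at hx
      rw [(h x (le_of_lt hx)).deriv]
      exact h' x (le_of_lt hx)
  exact hm (Set.mem_Ici.2 le_rfl) (Set.mem_Ici.2 hx) hx

theorem log_ge {m : ℝ} (hm : 1 ≤ m) : 3 * (m ^ 2 - 1) / (m ^ 2 + 4 * m + 1) ≤ Real.log m := by
  have h := le_of_der (f := fun m : ℝ => Real.log m - 3 * (m ^ 2 - 1) / (m ^ 2 + 4 * m + 1))
    (f' := fun m => (m - 1) ^ 4 / (m * (m ^ 2 + 4 * m + 1) ^ 2)) (a := 1) (x := m) ?_ ?_ hm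
  · simp only [Real.log_one] at h
    norm_num at h
    linarith
  · intro x hx
    have hx0 : x ≠ 0 := by positivity
    have hd : x ^ 2 + 4 * x + 1 ≠ 0 := by positivity
    have h1 := Real.hasDerivAt_log hx0
    have h2 : HasDerivAt (fun m : ℝ => 3 * (m ^ 2 - 1)) (6 * x) x :=
      (((hasDerivAt_pow 2 x).sub_const 1).const_mul 3).congr_deriv (by norm_num; ring)
    have h3 : HasDerivAt (fun m : ℝ => m ^ 2 + 4 * m + 1) (2 * x + 4) x :=
      (((hasDerivAt_pow 2 x).add ((hasDerivAt_id' x).const_mul 4)).add_const 1).congr_deriv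
        (by norm_num)
    refine (h1.sub (h2.div h3 hd)).congr_deriv ?_
    field_simp
    ring
  · intro x hx
    positivity

theorem arctan_le {u : ℝ} (hu : 0 ≤ u) :
    Real.arctan u ≤ u * (15 + 4 * u ^ 2) / (15 + 9 * u ^ 2) := by
  have h := le_of_der (f := fun u : ℝ => u * (15 + 4 * u ^ 2) / (15 + 9 * u ^ 2) - Real.arctan u)
    (f' := fun u => 4 * u ^ 6 / ((1 + u ^ 2) * (5 + 3 * u ^ 2) ^ 2)) (a := 0) (x := u) ?_ ?_ hu
  · simp only [Real.arctan_zero] at h
    norm_num at h
    linarith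
  · intro x hx
    have hd : 15 + 9 * x ^ 2 ≠ 0 := by positivity
    have h1 := Real.hasDerivAt_arctan x
    have h2 : HasDerivAt (fun u : ℝ => u * (15 + 4 * u ^ 2)) (15 + 12 * x ^ 2) x :=
      ((hasDerivAt_id' x).mul (((hasDerivAt_pow 2 x).const_mul 4).const_add 15)).congr_deriv
        (by norm_num; ring)
    have h3 : HasDerivAt (fun u : ℝ => 15 + 9 * u ^ 2) (18 * x) x :=
      (((hasDerivAt_pow 2 x).const_mul 9).const_add 15).congr_deriv (by norm_num; ring)
    refine ((h2.div h3 hd).sub h1).congr_deriv ?_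
    have h4 : (5 + 3 * x ^ 2) ≠ 0 := by positivity
    have h5 : 15 + 9 * x ^ 2 = 3 * (5 + 3 * x ^ 2) := by ring
    rw [h5]
    field_simp
    ring
  · intro x hx
    positivity

theorem le_arctan {u : ℝ} (hu : 0 ≤ u) :
    u * (105 + 55 * u ^ 2) / (105 + 90 * u ^ 2 + 9 * u ^ 4) ≤ Real.arctan u := by
  have h := le_of_der (f := fun u : ℝ => Real.arctan u -
      u * (105 + 55 * u ^ 2) / (105 + 90 * u ^ 2 + 9 * u ^ 4))
    (f' := fun u => 64 * u ^ 8 / ((1 + u ^ 2) * (35 + 30 * u ^ 2 + 3 * u ^ 4) ^ 2)) (a := 0)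
    (x := u) ?_ ?_ hu
  · simp only [Real.arctan_zero] at h
    norm_num at h
    linarith
  · intro x hx
    have hd : 105 + 90 * x ^ 2 + 9 * x ^ 4 ≠ 0 := by positivity
    have h1 := Real.hasDerivAt_arctan x
    have h2 : HasDerivAt (fun u : ℝ => u * (105 + 55 * u ^ 2)) (105 + 165 * x ^ 2) x :=
      ((hasDerivAt_id' x).mul (((hasDerivAt_pow 2 x).const_mul 55).const_add 105)).congr_deriv
        (by norm_num; ring)
    have h3 : HasDerivAt (fun u : ℝ => 105 + 90 * u ^ 2 + 9 * u ^ 4) (180 * x + 36 * x ^ 3) x :=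
      ((((hasDerivAt_pow 2 x).const_mul 90).const_add 105).add
        ((hasDerivAt_pow 4 x).const_mul 9)).congr_deriv (by norm_num; ring)
    refine (h1.sub (h2.div h3 hd)).congr_deriv ?_
    have h4 : (35 + 30 * x ^ 2 + 3 * x ^ 4) ≠ 0 := by positivity
    have h5 : 105 + 90 * x ^ 2 + 9 * x ^ 4 = 3 * (35 + 30 * x ^ 2 + 3 * x ^ 4) := by ring
    rw [h5]
    field_simp
    ring
  · intro x hx
    positivity

/-! ### The logarithm -/

def lg (y : ℕ) : ℕ := Nat.div (Nat.mul 3221225472 (Nat.sub (Nat.mul y y) 1152921504606846976))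
  (Nat.add (Nat.add (Nat.mul y y) (Nat.mul 4294967296 y)) 1152921504606846976)

/-- Lower bound of `log y` (scaled), for `y ≥ 1`. -/
def lnLo : ℕ → ℕ → ℕ
  | 0, y => lg y
  | n + 1, y => bif Nat.ble 2147483648 y then Nat.add 744261117 (lnLo n (Nat.div y 2)) else lg y

theorem cast_mul' (a b : ℕ) : ((Nat.mul a b : ℕ) : ℝ) = (a : ℝ) * b := Nat.cast_mul a b

theorem cast_add' (a b : ℕ) : ((Nat.add a b : ℕ) : ℝ) = (a : ℝ) + b := Nat.cast_add a b

theorem cast_sub' {a b : ℕ} (h : b ≤ a) : ((Nat.sub a b : ℕ) : ℝ) = (a : ℝ) - b := Nat.cast_sub h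

theorem lg_le {y : ℕ} (hy : 1073741824 ≤ y) :
    (lg y : ℝ) ≤ Real.log (y / 1073741824) * 1073741824 := by
  have hy' : (1073741824 : ℝ) ≤ y := by exact_mod_cast hy
  have h1 : (1 : ℝ) ≤ y / 1073741824 := by rw [le_div_iff₀ (by norm_num)]; linarith
  have h2 := mul_le_mul_of_nonneg_right (log_ge h1) (by norm_num : (0 : ℝ) ≤ 1073741824)
  refine le_trans (nat_div_le _ _) (le_trans (le_of_eq ?_) h2)
  have h3 : 1152921504606846976 ≤ Nat.mul y y := by
    have : 1073741824 * 1073741824 ≤ y * y := Nat.mul_le_mul hy hy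
    have e : Nat.mul y y = y * y := rfl
    rw [e]
    omega
  rw [cast_mul', cast_sub' h3, cast_mul', cast_add', cast_add', cast_mul', cast_mul']
  push_cast
  have h4 : (0 : ℝ) < y := by linarith
  field_simp
  ring

theorem lnLo_succ (n y : ℕ) : lnLo (n + 1) y =
    bif Nat.ble 2147483648 y then Nat.add 744261117 (lnLo n (Nat.div y 2)) else lg y := rfl

theorem log_half {y : ℝ} (hy : 0 < y) :
    744261117 + Real.log (y / 2 / 1073741824) * 1073741824 ≤
      Real.log (y / 1073741824) * 1073741824 := by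
  have h6 : y / 1073741824 = 2 * (y / 2 / 1073741824) := by ring
  have h7 : (0 : ℝ) < y / 2 / 1073741824 := by positivity
  have h8 := Real.log_two_gt_d9
  have h9 : Real.log (y / 1073741824) = Real.log 2 + Real.log (y / 2 / 1073741824) := by
    rw [← Real.log_mul (by norm_num) h7.ne', ← h6]
  rw [h9]
  linarith

theorem lnLo_le (n : ℕ) : ∀ {y : ℕ}, 1073741824 ≤ y →
    (lnLo n y : ℝ) ≤ Real.log (y / 1073741824) * 1073741824 := by
  induction n with
  | zero => intro y hy; exact lg_le hy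
  | succ n ih =>
    intro y hy
    rw [lnLo_succ]
    rcases h : Nat.ble 2147483648 y with _ | _
    · rw [cond_false]
      exact lg_le hy
    · rw [Nat.ble_eq] at h
      have h1 : 1073741824 ≤ Nat.div y 2 := by
        have e : Nat.div y 2 = y / 2 := rfl
        rw [e]
        omega
      have h2 := ih h1
      have h3 : ((Nat.div y 2 : ℕ) : ℝ) ≤ (y : ℝ) / 2 := by
        have := nat_div_le y 2
        rwa [Nat.cast_ofNat] at this
      have h4 : (1073741824 : ℝ) ≤ ((Nat.div y 2 : ℕ) : ℝ) := by exact_mod_cast h1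
      have h0 : (0 : ℝ) < y := by linarith
      rw [cond_true, cast_add', Nat.cast_ofNat]
      have h5 : Real.log (((Nat.div y 2 : ℕ) : ℝ) / 1073741824) ≤ Real.log (y / 2 / 1073741824) := by
        apply Real.log_le_log
        · positivity
        · exact div_le_div_of_nonneg_right h3 (by norm_num)
      have h9 := log_half h0
      have h10 := mul_le_mul_of_nonneg_right h5 (by norm_num : (0 : ℝ) ≤ 1073741824)
      linarith

theorem Mem.lnLo {x : ℝ} {y : ℕ} (n : ℕ) (h : (y : ℝ) ≤ x * 1073741824) (hy : 1073741824 ≤ y) :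
    (NI.lnLo n y : ℝ) ≤ Real.log x * 1073741824 := by
  refine (lnLo_le n hy).trans ?_
  have hy' : (1073741824 : ℝ) ≤ y := by exact_mod_cast hy
  apply mul_le_mul_of_nonneg_right _ (by norm_num)
  apply Real.log_le_log (by positivity)
  rw [div_le_iff₀ (by norm_num)]
  exact h

/-! ### The arctangent -/

def aUp1' (u u2 : ℕ) : ℕ := Nat.succ (Nat.div
  (Nat.mul u (Nat.add 17293822569102704640 (Nat.mul 4 u2)))
  (Nat.add 17293822569102704640 (Nat.mul 9 u2)))
def aUp1 (u : ℕ) : ℕ := aUp1' u (Nat.mul u u)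
def aLo1' (u u2 : ℕ) : ℕ := Nat.div (Nat.mul u (Nat.add
    139568939557416166654899741329436180480 (Nat.mul 63410682753376583680 u2)))
  (Nat.add (Nat.add 139568939557416166654899741329436180480 (Nat.mul 103762935414616227840 u2))
    (Nat.mul 9 (Nat.mul u2 u2)))
def aLo1 (u : ℕ) : ℕ := aLo1' u (Nat.mul u u)
/-- upper bound of the arctangent -/
def atanUp (u : ℕ) : ℕ := bif Nat.ble u 1073741824 then aUp1 u
  else Nat.sub 1686629714 (aLo1 (Nat.div 1152921504606846976 u))
/-- lower bound of the arctangent -/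
def atanLo (u : ℕ) : ℕ := bif Nat.ble u 1073741824 then aLo1 u
  else Nat.sub 1686629713 (aUp1 (Nat.succ (Nat.div 1152921504606846976 u)))

theorem le_aUp1 (u : ℕ) : Real.arctan (u / 1073741824) * 1073741824 ≤ (aUp1 u : ℝ) := by
  have h0 : (0 : ℝ) ≤ u := u.cast_nonneg
  have h1 := mul_le_mul_of_nonneg_right (arctan_le (u := (u : ℝ) / 1073741824) (by positivity))
    (by norm_num : (0 : ℝ) ≤ 1073741824)
  have hp : 0 < Nat.add 17293822569102704640 (Nat.mul 9 (Nat.mul u u)) := by
    have : (0 : ℝ) < ((Nat.add 17293822569102704640 (Nat.mul 9 (Nat.mul u u)) : ℕ) : ℝ) := by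
      rw [cast_add', cast_mul', cast_mul']
      push_cast
      positivity
    exact_mod_cast this
  have h2 := le_succ_div (Nat.mul u (Nat.add 17293822569102704640 (Nat.mul 4 (Nat.mul u u)))) hp
  simp only [cast_mul', cast_add', Nat.cast_ofNat, Nat.cast_succ] at h2
  have h3 : (u : ℝ) / 1073741824 * (15 + 4 * ((u : ℝ) / 1073741824) ^ 2) /
      (15 + 9 * ((u : ℝ) / 1073741824) ^ 2) * 1073741824 =
      (u : ℝ) * (17293822569102704640 + 4 * (u * u)) / (17293822569102704640 + 9 * (u * u)) := by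
    have h4 : (0 : ℝ) < 17293822569102704640 + 9 * ((u : ℝ) * u) := by positivity
    have h5 : (0 : ℝ) < 15 + 9 * ((u : ℝ) / 1073741824) ^ 2 := by positivity
    rw [div_mul_eq_mul_div, div_eq_div_iff h5.ne' h4.ne']
    ring
  rw [h3] at h1
  unfold aUp1 aUp1'
  rw [Nat.cast_succ]
  exact h1.trans h2

theorem aLo1_le (u : ℕ) : (aLo1 u : ℝ) ≤ Real.arctan (u / 1073741824) * 1073741824 := by
  have h0 : (0 : ℝ) ≤ u := u.cast_nonneg
  have h1 := mul_le_mul_of_nonneg_right (le_arctan (u := (u : ℝ) / 1073741824) (by positivity))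
    (by norm_num : (0 : ℝ) ≤ 1073741824)
  have h2 := nat_div_le (Nat.mul u (Nat.add
    139568939557416166654899741329436180480 (Nat.mul 63410682753376583680 (Nat.mul u u))))
    (Nat.add (Nat.add 139568939557416166654899741329436180480
      (Nat.mul 103762935414616227840 (Nat.mul u u)))
    (Nat.mul 9 (Nat.mul (Nat.mul u u) (Nat.mul u u))))
  simp only [cast_mul', cast_add', Nat.cast_ofNat] at h2
  have h3 : (u : ℝ) / 1073741824 * (105 + 55 * ((u : ℝ) / 1073741824) ^ 2) /
      (105 + 90 * ((u : ℝ) / 1073741824) ^ 2 + 9 * ((u : ℝ) / 1073741824) ^ 4) * 1073741824 =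
      (u : ℝ) * (139568939557416166654899741329436180480 + 63410682753376583680 * (u * u)) /
      (139568939557416166654899741329436180480 + 103762935414616227840 * (u * u) +
        9 * (u * u * (u * u))) := by
    have h4 : (0 : ℝ) < 139568939557416166654899741329436180480 + 103762935414616227840 *
      ((u : ℝ) * u) + 9 * ((u : ℝ) * u * (u * u)) := by positivity
    have h5 : (0 : ℝ) < 105 + 90 * ((u : ℝ) / 1073741824) ^ 2 +
      9 * ((u : ℝ) / 1073741824) ^ 4 := by positivity
    rw [div_mul_eq_mul_div, div_eq_div_iff h5.ne' h4.ne']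
    ring
  rw [h3] at h1
  unfold aLo1 aLo1'
  exact h2.trans h1

theorem arctan_inv' {x : ℝ} (hx : 0 < x) : Real.arctan x = Real.pi / 2 - Real.arctan (1 / x) := by
  rw [one_div, Real.arctan_inv_of_pos hx]
  ring

theorem pi_lo : (1686629713 : ℝ) ≤ Real.pi / 2 * 1073741824 := by
  have := Real.pi_gt_d20
  linarith

theorem pi_hi : Real.pi / 2 * 1073741824 ≤ (1686629714 : ℝ) := by
  have := Real.pi_lt_d20
  linarith

theorem le_atanUp (u : ℕ) : Real.arctan (u / 1073741824) * 1073741824 ≤ (atanUp u : ℝ) := by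
  unfold atanUp
  rcases h : Nat.ble u 1073741824 with _ | _
  · rw [cond_false]
    have hu : ¬ u ≤ 1073741824 := fun hc => by
      rw [← Nat.ble_eq, h] at hc
      exact absurd hc (by decide)
    have hu' : (1073741824 : ℝ) < u := by exact_mod_cast (not_le.1 hu)
    have hx : 0 < (u : ℝ) / 1073741824 := by positivity
    rw [arctan_inv' hx]
    refine le_nsub ?_
    rw [Nat.cast_ofNat]
    have h1 := aLo1_le (Nat.div 1152921504606846976 u)
    have h2 := nat_div_le 1152921504606846976 u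
    rw [Nat.cast_ofNat] at h2
    have h3 : ((Nat.div 1152921504606846976 u : ℕ) : ℝ) / 1073741824 ≤ 1 / ((u : ℝ) / 1073741824) := by
      rw [div_le_iff₀ (by norm_num)]
      refine h2.trans (le_of_eq ?_)
      have : (u : ℝ) ≠ 0 := by positivity
      field_simp
      norm_num
    have h4 := Real.arctan_strictMono.monotone h3
    have h5 := pi_hi
    have h6 := mul_le_mul_of_nonneg_right h4 (by norm_num : (0 : ℝ) ≤ 1073741824)
    linarith
  · rw [cond_true]
    exact le_aUp1 u

theorem atanLo_le (u : ℕ) : (atanLo u : ℝ) ≤ Real.arctan (u / 1073741824) * 1073741824 := by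
  unfold atanLo
  have h0 : (0 : ℝ) ≤ Real.arctan (u / 1073741824) * 1073741824 := by
    have := Real.arctan_nonneg.2 (by positivity : (0 : ℝ) ≤ (u : ℝ) / 1073741824)
    positivity
  rcases h : Nat.ble u 1073741824 with _ | _
  · rw [cond_false]
    have hu : ¬ u ≤ 1073741824 := fun hc => by
      rw [← Nat.ble_eq, h] at hc
      exact absurd hc (by decide)
    have hu' : (1073741824 : ℝ) < u := by exact_mod_cast (not_le.1 hu)
    have hx : 0 < (u : ℝ) / 1073741824 := by positivity
    refine nsub_le ?_ h0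
    rw [Nat.cast_ofNat, arctan_inv' hx]
    have h1 := le_aUp1 (Nat.succ (Nat.div 1152921504606846976 u))
    have h2 := le_succ_div 1152921504606846976 (d := u) (by
      have : (0 : ℝ) < u := by linarith
      exact_mod_cast this)
    rw [Nat.cast_ofNat] at h2
    have h3 : 1 / ((u : ℝ) / 1073741824) ≤
        ((Nat.succ (Nat.div 1152921504606846976 u) : ℕ) : ℝ) / 1073741824 := by
      rw [le_div_iff₀ (by norm_num)]
      refine le_trans (le_of_eq ?_) h2
      have : (u : ℝ) ≠ 0 := by positivity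
      field_simp
      norm_num
    have h4 := Real.arctan_strictMono.monotone h3
    have h5 := pi_lo
    have h6 := mul_le_mul_of_nonneg_right h4 (by norm_num : (0 : ℝ) ≤ 1073741824)
    linarith
  · rw [cond_true]
    exact aLo1_le u

/-- upper bound of `arctan (a / b)` -/
def qUp (a b : ℕ) : ℕ := atanUp (Nat.succ (Nat.div (Nat.mul a 1073741824) b))
/-- lower bound of `arctan (a / b)` -/
def qLo (a b : ℕ) : ℕ := atanLo (Nat.div (Nat.mul a 1073741824) b)

theorem le_qUp {x y : ℝ} {a b : ℕ} (hb : 0 < b) (hx : x * 1073741824 ≤ a)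
    (hy : (b : ℝ) ≤ y * 1073741824) : Real.arctan (x / y) * 1073741824 ≤ (qUp a b : ℝ) := by
  have hb' : (0 : ℝ) < b := by exact_mod_cast hb
  have hy0 : 0 < y := by
    by_contra hc
    push Not at hc
    nlinarith
  refine le_trans ?_ (le_atanUp _)
  apply mul_le_mul_of_nonneg_right _ (by norm_num)
  apply Real.arctan_strictMono.monotone
  have h1 := le_succ_div (Nat.mul a 1073741824) hb
  rw [cast_mul', Nat.cast_ofNat] at h1
  rw [le_div_iff₀ (by norm_num)]
  refine le_trans ?_ h1
  rw [le_div_iff₀ hb', div_mul_eq_mul_div, div_mul_eq_mul_div, div_le_iff₀ hy0]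
  have ha : (0 : ℝ) ≤ a := a.cast_nonneg
  rcases le_total 0 x with hx0 | hx0
  · calc x * 1073741824 * b ≤ a * b := mul_le_mul_of_nonneg_right hx hb'.le
      _ ≤ a * (y * 1073741824) := mul_le_mul_of_nonneg_left hy ha
      _ = a * 1073741824 * y := by ring
  · have h2 : x * 1073741824 * b ≤ 0 := by
      have := mul_nonneg (neg_nonneg.2 hx0) hb'.le
      nlinarith
    exact h2.trans (by positivity)

theorem qLo_le {x y : ℝ} {a b : ℕ} (hy0 : 0 < y) (hx : (a : ℝ) ≤ x * 1073741824)
    (hy : y * 1073741824 ≤ b) : (qLo a b : ℝ) ≤ Real.arctan (x / y) * 1073741824 := by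
  refine le_trans (atanLo_le _) ?_
  apply mul_le_mul_of_nonneg_right _ (by norm_num)
  apply Real.arctan_strictMono.monotone
  have hb' : (0 : ℝ) < b := lt_of_lt_of_le (by positivity) hy
  have h1 := nat_div_le (Nat.mul a 1073741824) b
  rw [cast_mul', Nat.cast_ofNat] at h1
  rw [div_le_iff₀ (by norm_num)]
  refine h1.trans ?_
  rw [div_le_iff₀ hb', div_mul_eq_mul_div, div_mul_eq_mul_div, le_div_iff₀ hy0]
  have ha : (0 : ℝ) ≤ a := a.cast_nonneg
  calc (a : ℝ) * 1073741824 * y = a * (y * 1073741824) := by ring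
    _ ≤ a * b := mul_le_mul_of_nonneg_left hy ha
    _ ≤ x * 1073741824 * b := mul_le_mul_of_nonneg_right hx hb'.le

end Pool.Agent.S3.NI
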