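import Pool.Agent.S3.Arsh

/-!
# Stage 3: the function `q(u, w) = arsinh (sinh u / cosh w)` on `|Im u| + |Im w| < π/2`
-/

namespace Pool.Agent.S3

open Complex

/-- `log cosh` -/
noncomputable def Lc (z : ℂ) : ℂ := log (cosh z)

/-- `T(u, w) = √cosh (u + w) √cosh (u - w)` -/
noncomputable def TT (u w : ℂ) : ℂ := exp ((Lc (u + w) + Lc (u - w)) / 2)

/-- `q(u, w)` -/
noncomputable def qq (u w : ℂ) : ℂ := arsh (sinh u / cosh w)

theorem cosh_re' (z : ℂ) : (cosh z).re = Real.cosh z.re * Real.cos z.im := by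
  conv_lhs => rw [← re_add_im z]
  exact cosh_re _ _

theorem cosh_im' (z : ℂ) : (cosh z).im = Real.sinh z.re * Real.sin z.im := by
  conv_lhs => rw [← re_add_im z]
  exact cosh_im _ _

theorem sinh_re' (z : ℂ) : (sinh z).re = Real.sinh z.re * Real.cos z.im := by
  conv_lhs => rw [← re_add_im z]
  exact sinh_re _ _

theorem sinh_im' (z : ℂ) : (sinh z).im = Real.cosh z.re * Real.sin z.im := by
  conv_lhs => rw [← re_add_im z]
  exact sinh_im _ _

theorem cosh_re_pos {z : ℂ} (h : |z.im| < Real.pi / 2) : 0 < (cosh z).re := by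
  rw [cosh_re']
  exact mul_pos (Real.cosh_pos _) (cos_pos' h)

theorem cosh_mem {z : ℂ} (h : |z.im| < Real.pi / 2) : cosh z ∈ slitPlane :=
  mem_slitPlane_iff.2 (Or.inl (cosh_re_pos h))

theorem cosh_ne {z : ℂ} (h : |z.im| < Real.pi / 2) : cosh z ≠ 0 := slitPlane_ne_zero (cosh_mem h)

theorem hasDerivAt_Lc {z : ℂ} (h : |z.im| < Real.pi / 2) : HasDerivAt Lc (tanh z) z := by
  have := (Complex.hasDerivAt_cosh z).clog (cosh_mem h)
  rw [tanh_eq_sinh_div_cosh]
  exact this

theorem exp_Lc {z : ℂ} (h : |z.im| < Real.pi / 2) : exp (Lc z) = cosh z := exp_log (cosh_ne h)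

theorem Lc_im (x t : ℝ) (h : |t| < Real.pi / 2) : (Lc (x + t * I)).im = aa x t := by
  rw [Lc, log_cosh h]
  simp

/-- the region -/
def Reg (u w : ℂ) : Prop := |u.im| + |w.im| < Real.pi / 2

theorem Reg.symm {u w : ℂ} (h : Reg u w) : Reg w u := by
  unfold Reg at *; linarith

theorem Reg.left {u w : ℂ} (h : Reg u w) : |u.im| < Real.pi / 2 := by
  unfold Reg at h
  have := abs_nonneg w.im
  linarith

theorem Reg.right {u w : ℂ} (h : Reg u w) : |w.im| < Real.pi / 2 := h.symm.left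

theorem Reg.add {u w : ℂ} (h : Reg u w) : |(u + w).im| < Real.pi / 2 := by
  unfold Reg at h
  rw [add_im]
  exact lt_of_le_of_lt (abs_add_le _ _) h

theorem Reg.sub {u w : ℂ} (h : Reg u w) : |(u - w).im| < Real.pi / 2 := by
  unfold Reg at h
  rw [sub_im]
  exact lt_of_le_of_lt (abs_sub _ _) h

theorem Reg.smul {u w : ℂ} (h : Reg u w) {s : ℝ} (h0 : 0 ≤ s) (h1 : s ≤ 1) :
    Reg (s * u) (s * w) := by
  unfold Reg at *
  rw [im_ofReal_mul, im_ofReal_mul, abs_mul, abs_mul, abs_of_nonneg h0]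
  have : s * (|u.im| + |w.im|) ≤ 1 * (|u.im| + |w.im|) :=
    mul_le_mul_of_nonneg_right h1 (by positivity)
  linarith

theorem Reg.neg_left {u w : ℂ} (h : Reg u w) : Reg (-u) w := by
  unfold Reg at *; rwa [neg_im, abs_neg]

theorem Reg.neg_right {u w : ℂ} (h : Reg u w) : Reg u (-w) := by
  unfold Reg at *; rwa [neg_im, abs_neg]

theorem Reg.conj_left {u w : ℂ} (h : Reg u w) : Reg ((starRingEnd ℂ) u) w := by
  unfold Reg at *; rwa [conj_im, abs_neg]

theorem Reg.conj_right {u w : ℂ} (h : Reg u w) : Reg u ((starRingEnd ℂ) w) := by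
  unfold Reg at *; rwa [conj_im, abs_neg]

/-- `(sinh u / cosh w)²` avoids `(-∞, -1]` -/
theorem slit {u w : ℂ} (h : Reg u w) : 1 + (sinh u / cosh w) ^ 2 ∈ slitPlane := by
  have hw := cosh_ne h.right
  rw [mem_slitPlane_iff]
  by_contra hc
  rw [not_or, not_lt, not_not] at hc
  obtain ⟨h1, h2⟩ := hc
  set z : ℂ := sinh u / cosh w with hz
  have hz1 : z * cosh w = sinh u := by rw [hz]; field_simp
  rw [add_re, one_re, sq, mul_re] at h1
  rw [add_im, one_im, sq, mul_im] at h2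
  -- `z = i r` with `|r| ≥ 1`
  have h3 : z.re * z.im = 0 := by linarith
  have h4 : z.re = 0 := by
    rcases mul_eq_zero.1 h3 with h4 | h4
    · exact h4
    · rw [h4] at h1; nlinarith [mul_self_nonneg z.re]
  rw [h4] at h1
  have h5 : 1 ≤ z.im ^ 2 := by nlinarith
  have e1 := congrArg Complex.re hz1
  have e2 := congrArg Complex.im hz1
  rw [mul_re, h4, zero_mul, zero_sub, cosh_im', sinh_re'] at e1
  rw [mul_im, h4, zero_mul, zero_add, cosh_re', sinh_im'] at e2
  have hr := h.right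
  have hl := h.left
  have c1 := cos_pos' hl
  have c2 := cos_pos' hr
  -- `|sin t| < cos t'`, `|sin t'| < cos t`
  have key : ∀ a b : ℝ, |a| + |b| < Real.pi / 2 → Real.sin a ^ 2 < Real.cos b ^ 2 := by
    intro a b hab
    have k1 : |Real.sin a| < Real.cos b := by
      rw [← Real.cos_abs b, ← Real.sin_pi_div_two_sub |b|]
      have hpi := Real.pi_pos
      have k2 : |Real.sin a| = Real.sin |a| := by
        rcases le_total 0 a with ha | ha
        · rw [abs_of_nonneg ha, abs_of_nonneg]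
          apply Real.sin_nonneg_of_nonneg_of_le_pi ha
          have := abs_nonneg b
          rw [abs_of_nonneg ha] at hab
          linarith
        · rw [abs_of_nonpos ha, Real.sin_neg, abs_of_nonpos]
          apply Real.sin_nonpos_of_nonpos_of_neg_pi_le ha
          have := abs_nonneg b
          rw [abs_of_nonpos ha] at hab
          linarith
      rw [k2]
      have ha := abs_nonneg a
      have hb := abs_nonneg b
      apply Real.sin_lt_sin_of_lt_of_le_pi_div_two <;> linarith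
    have k3 := abs_nonneg (Real.sin a)
    rw [← sq_abs (Real.sin a)]
    exact pow_lt_pow_left₀ k1 k3 (by norm_num)
  have k1 := key _ _ h
  have k2 := key _ _ h.symm
  set r := z.im
  set X := u.re
  set X' := w.re
  set t := u.im
  set t' := w.im
  have hX := Real.cosh_sq X
  have hX' := Real.cosh_sq X'
  -- squares
  have f1 : r ^ 2 * (Real.sinh X' ^ 2 * Real.sin t' ^ 2) = Real.sinh X ^ 2 * Real.cos t ^ 2 := by
    have : (-(r * (Real.sinh X' * Real.sin t'))) ^ 2 = (Real.sinh X * Real.cos t) ^ 2 := by rw [e1]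
    linear_combination this
  have f2 : r ^ 2 * (Real.cosh X' ^ 2 * Real.cos t' ^ 2) = Real.cosh X ^ 2 * Real.sin t ^ 2 := by
    have : (r * (Real.cosh X' * Real.cos t')) ^ 2 = (Real.cosh X * Real.sin t) ^ 2 := by rw [e2]
    linear_combination this
  have p1 : 0 < Real.cos t ^ 2 := by positivity
  have p2 : 0 < Real.cos t' ^ 2 := by positivity
  have g1 : Real.sinh X ^ 2 ≤ r ^ 2 * Real.sinh X' ^ 2 := by
    have : Real.sinh X ^ 2 * Real.cos t ^ 2 ≤ (r ^ 2 * Real.sinh X' ^ 2) * Real.cos t ^ 2 := by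
      rw [← f1]
      have : 0 ≤ r ^ 2 * Real.sinh X' ^ 2 := by positivity
      nlinarith
    exact le_of_mul_le_mul_right this p1
  have g2 : r ^ 2 * Real.cosh X' ^ 2 < Real.cosh X ^ 2 := by
    have : (r ^ 2 * Real.cosh X' ^ 2) * Real.cos t' ^ 2 < Real.cosh X ^ 2 * Real.cos t' ^ 2 := by
      have h6 : (r ^ 2 * Real.cosh X' ^ 2) * Real.cos t' ^ 2 = Real.cosh X ^ 2 * Real.sin t ^ 2 := by
        rw [← f2]; ring
      rw [h6]
      have := Real.cosh_pos X
      exact mul_lt_mul_of_pos_left k1 (by positivity)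
    exact lt_of_mul_lt_mul_right this p2.le
  nlinarith

theorem TT_ne (u w : ℂ) : TT u w ≠ 0 := exp_ne_zero _

theorem TT_sq {u w : ℂ} (h : Reg u w) : TT u w ^ 2 = cosh w ^ 2 + sinh u ^ 2 := by
  rw [TT, ← exp_nat_mul]
  have e : ((2 : ℕ) : ℂ) * ((Lc (u + w) + Lc (u - w)) / 2) = Lc (u + w) + Lc (u - w) := by
    push_cast; ring
  rw [e, exp_add, exp_Lc h.add, exp_Lc h.sub, cosh_add, cosh_sub]
  have h1 := cosh_sq u
  have h2 := cosh_sq w
  linear_combination (cosh w ^ 2) * h1 + sinh u ^ 2 * h2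

theorem TT_div_sq {u w : ℂ} (h : Reg u w) :
    (TT u w / cosh w) ^ 2 = 1 + (sinh u / cosh w) ^ 2 := by
  have hw := cosh_ne h.right
  rw [div_pow, TT_sq h, div_pow]
  field_simp

theorem continuous_TT_smul {u w : ℂ} (h : Reg u w) :
    ContinuousOn (fun s : ℝ => (TT (s * u) (s * w) / cosh (s * w)).re) (Set.Icc 0 1) := by
  intro s hs
  have hr := h.smul hs.1 hs.2
  apply ContinuousAt.continuousWithinAt
  have hc : ∀ a : ℂ, ContinuousAt (fun s : ℝ => ((s : ℂ) * a)) s := fun a => by fun_prop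
  have c1 : ContinuousAt (fun s : ℝ => Lc ((s : ℂ) * u + (s : ℂ) * w)) s :=
    ContinuousAt.comp' (hasDerivAt_Lc hr.add).continuousAt ((hc u).add (hc w))
  have c2 : ContinuousAt (fun s : ℝ => Lc ((s : ℂ) * u - (s : ℂ) * w)) s :=
    ContinuousAt.comp' (hasDerivAt_Lc hr.sub).continuousAt ((hc u).sub (hc w))
  have c3 : ContinuousAt (fun s : ℝ => cosh ((s : ℂ) * w)) s := by fun_prop
  have c4 : ContinuousAt (fun s : ℝ => TT ((s : ℂ) * u) ((s : ℂ) * w)) s :=
    ((c1.add c2).div_const 2).cexp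
  exact Complex.continuous_re.continuousAt.comp (c4.div c3 (cosh_ne hr.right))

/-- 1.6 -/
theorem TT_div_re_pos {u w : ℂ} (h : Reg u w) : 0 < (TT u w / cosh w).re := by
  by_contra hc
  push Not at hc
  have h0 : (TT ((0 : ℝ) * u) ((0 : ℝ) * w) / cosh ((0 : ℝ) * w)).re = 1 := by
    simp [TT, Lc]
  have h1 : (TT ((1 : ℝ) * u) ((1 : ℝ) * w) / cosh ((1 : ℝ) * w)).re ≤ 0 := by
    simpa using hc
  have h2 : (0 : ℝ) ∈ Set.Icc (TT ((1 : ℝ) * u) ((1 : ℝ) * w) / cosh ((1 : ℝ) * w)).re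
      (TT ((0 : ℝ) * u) ((0 : ℝ) * w) / cosh ((0 : ℝ) * w)).re := ⟨h1, by rw [h0]; norm_num⟩
  obtain ⟨s, hs, hs0⟩ := intermediate_value_Icc' (by norm_num) (continuous_TT_smul h) h2
  have hr := h.smul hs.1 hs.2
  have h3 := slit hr
  rw [← TT_div_sq hr, mem_slitPlane_iff] at h3
  simp only at hs0
  rw [sq, mul_re, mul_im, hs0] at h3
  rcases h3 with h3 | h3
  · nlinarith [mul_self_nonneg (TT (s * u) (s * w) / cosh (s * w)).im]
  · apply h3; ring

theorem csq_eq {u w : ℂ} (h : Reg u w) : csq (sinh u / cosh w) = TT u w / cosh w :=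
  eq_of_sq (by rw [csq_sq, TT_div_sq h]) (csq_re_pos (slit h)) (TT_div_re_pos h)

theorem cosh_qq {u w : ℂ} (h : Reg u w) : cosh (qq u w) = TT u w / cosh w := by
  rw [qq, cosh_arsh, csq_eq h]

theorem sinh_qq (u w : ℂ) : sinh (qq u w) = sinh u / cosh w := sinh_arsh _

/-- derivative of `q` along a differentiable path -/
theorem hasDerivAt_qq {u w : ℝ → ℂ} {u' w' : ℂ} {s : ℝ} (h : Reg (u s) (w s))
    (hu : HasDerivAt u u' s) (hw : HasDerivAt w w' s) :
    HasDerivAt (fun s => qq (u s) (w s))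
      ((u' * cosh (u s) * cosh (w s) - w' * sinh (u s) * sinh (w s))
        / (cosh (w s) * TT (u s) (w s))) s := by
  have hc := cosh_ne h.right
  have hT := TT_ne (u s) (w s)
  have h1 : HasDerivAt (fun s => sinh (u s)) (cosh (u s) * u') s := by
    have := HasDerivAt.scomp s (Complex.hasDerivAt_sinh (u s)) hu
    rwa [smul_eq_mul, mul_comm] at this
  have h2 : HasDerivAt (fun s => cosh (w s)) (sinh (w s) * w') s := by
    have := HasDerivAt.scomp s (Complex.hasDerivAt_cosh (w s)) hw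
    rwa [smul_eq_mul, mul_comm] at this
  have h3 : HasDerivAt (fun s => sinh (u s) / cosh (w s))
      ((cosh (u s) * u' * cosh (w s) - sinh (u s) * (sinh (w s) * w')) / cosh (w s) ^ 2) s :=
    h1.div h2 hc
  have h4 : HasDerivAt (fun s => arsh (sinh (u s) / cosh (w s)))
      (((cosh (u s) * u' * cosh (w s) - sinh (u s) * (sinh (w s) * w')) / cosh (w s) ^ 2) •
        (1 / csq (sinh (u s) / cosh (w s)))) s :=
    HasDerivAt.scomp (g₁ := arsh) (h := fun s => sinh (u s) / cosh (w s)) s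
      (hasDerivAt_arsh (slit h)) h3
  have h5 : (((cosh (u s) * u' * cosh (w s) - sinh (u s) * (sinh (w s) * w')) / cosh (w s) ^ 2) •
        (1 / csq (sinh (u s) / cosh (w s)))) =
      ((u' * cosh (u s) * cosh (w s) - w' * sinh (u s) * sinh (w s))
        / (cosh (w s) * TT (u s) (w s))) := by
    rw [csq_eq h, smul_eq_mul]
    field_simp
  rw [← h5]
  exact h4

end Pool.Agent.S3
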