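import Pool.Agent.S3.HeLog
import Pool.Agent.S3.Refl2

/-!
# Stage 3: the critical point in `y`

`yy u w`: `tan (π y) = TT u w`, `1 / cos² (π y) = cosh² u + cosh² w`, `0 < Re y < 1/2`,
`sin π (y ∓ v) = cos (π y) (cosh w / cosh u) e^{∓ q(u,w)}` for `v = gdv u`.
-/

namespace Pool.Agent.S3

open Complex
open Pool.Agent.H25.RK (gdv)

/-- the critical point in `y` -/
noncomputable def yy (u w : ℂ) : ℂ := gdv (arsh (TT u w))

theorem one_add_TT_sq {u w : ℂ} (h : Reg u w) : 1 + TT u w ^ 2 = cosh u ^ 2 + cosh w ^ 2 := by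
  rw [TT_sq h, cosh_sq u]; ring

theorem cosh_sub_comm (u w : ℂ) : cosh (w - u) = cosh (u - w) := by
  rw [← neg_sub, cosh_neg]

theorem TT_comm (u w : ℂ) : TT w u = TT u w := by
  unfold TT Lc
  rw [cosh_sub_comm, add_comm w u]

theorem TT_neg_left (u w : ℂ) : TT (-u) w = TT u w := by
  unfold TT Lc
  rw [show -u + w = -(u - w) by ring, show -u - w = -(u + w) by ring, cosh_neg, cosh_neg]
  congr 1
  ring

theorem TT_neg_right (u w : ℂ) : TT u (-w) = TT u w := by
  rw [TT_comm, TT_neg_left, TT_comm]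

theorem yy_comm (u w : ℂ) : yy w u = yy u w := by rw [yy, TT_comm, yy]

theorem yy_neg_left (u w : ℂ) : yy (-u) w = yy u w := by rw [yy, TT_neg_left, yy]

theorem yy_neg_right (u w : ℂ) : yy u (-w) = yy u w := by rw [yy, TT_neg_right, yy]

theorem Lc_im_abs {z : ℂ} (h : |z.im| < Real.pi / 2) : |(Lc z).im| ≤ |z.im| := by
  have e : (Lc z).im = aa z.re z.im := by
    conv_lhs => rw [← re_add_im z]
    exact Lc_im _ _ h
  rw [e]
  exact abs_aa_le _ h

theorem TT_re_pos {u w : ℂ} (h : Reg u w) : 0 < (TT u w).re := by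
  rw [TT, exp_re]
  apply mul_pos (Real.exp_pos _)
  apply cos_pos'
  rw [show (2 : ℂ) = ((2 : ℝ) : ℂ) by norm_num, div_ofReal_im, add_im, abs_div, abs_two]
  have h1 := lt_of_le_of_lt (Lc_im_abs h.add) h.add
  have h2 := lt_of_le_of_lt (Lc_im_abs h.sub) h.sub
  have := abs_add_le (Lc (u + w)).im (Lc (u - w)).im
  rw [div_lt_iff₀ (by norm_num)]
  linarith

/-- the sum of two numbers whose arguments differ by less than `π` -/
theorem sum_mem_slit {a b : ℂ} (h : |a.im| + |b.im| < Real.pi) : exp a + exp b ∈ slitPlane := by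
  have h1 := abs_nonneg a.im
  have h2 := abs_nonneg b.im
  set μ : ℝ := (a.im + b.im) / 2 with hμ
  have hμ1 : |μ| < Real.pi / 2 := by
    rw [hμ, abs_div, abs_two, div_lt_iff₀ (by norm_num)]
    have := abs_add_le a.im b.im
    linarith
  have hδ : |(a.im - b.im) / 2| < Real.pi / 2 := by
    rw [abs_div, abs_two, div_lt_iff₀ (by norm_num)]
    have := abs_sub a.im b.im
    linarith
  have hre : 0 < ((exp a + exp b) * exp (-((μ : ℂ) * I))).re := by
    rw [add_mul, add_re, re_exp_mul, re_exp_mul]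
    have e1 : a.im - μ = (a.im - b.im) / 2 := by rw [hμ]; ring
    have e2 : b.im - μ = -((a.im - b.im) / 2) := by rw [hμ]; ring
    rw [e1, e2, Real.cos_neg]
    have := cos_pos' hδ
    have := Real.exp_pos a.re
    have := Real.exp_pos b.re
    positivity
  rw [mem_slitPlane_iff]
  by_contra hc
  rw [not_or, not_lt, not_not] at hc
  obtain ⟨c1, c2⟩ := hc
  have e3 : exp a + exp b = (((exp a + exp b).re : ℝ) : ℂ) := by
    apply Complex.ext
    · simp
    · rw [ofReal_im]; exact c2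
  rw [e3, re_ofReal_mul, exp_re] at hre
  have e4 : (-((μ : ℂ) * I)).im = -μ := by simp
  have e5 : (-((μ : ℂ) * I)).re = 0 := by simp
  rw [e4, e5, Real.exp_zero, one_mul, Real.cos_neg] at hre
  have := cos_pos' hμ1
  nlinarith

theorem cosh_sq_exp {z : ℂ} (h : |z.im| < Real.pi / 2) : cosh z ^ 2 = exp (2 * Lc z) := by
  rw [two_mul, exp_add, exp_Lc h, sq]

theorem slitT {u w : ℂ} (h : Reg u w) : 1 + TT u w ^ 2 ∈ slitPlane := by
  rw [one_add_TT_sq h, cosh_sq_exp h.left, cosh_sq_exp h.right]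
  apply sum_mem_slit
  have h1 := Lc_im_abs h.left
  have h2 := Lc_im_abs h.right
  have e : ∀ z : ℂ, (2 * z).im = 2 * z.im := fun z => by
    rw [show (2 : ℂ) = ((2 : ℝ) : ℂ) by norm_num, im_ofReal_mul]
  rw [e, e, abs_mul, abs_mul, abs_two]
  unfold Reg at h
  linarith

theorem arshT_im {u w : ℂ} (h : Reg u w) : |(arsh (TT u w)).im| < Real.pi / 2 :=
  arsh_im_lt (slitT h)

theorem pi_yy {u w : ℂ} (h : Reg u w) : (Real.pi : ℂ) * yy u w = gd (arsh (TT u w)) := by
  rw [yy, gd_eq (arshT_im h)]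

theorem cos_yy {u w : ℂ} (h : Reg u w) : cos (Real.pi * yy u w) = 1 / csq (TT u w) := by
  rw [pi_yy h, cos_gd (arshT_im h), cosh_arsh]

theorem csqT_ne {u w : ℂ} (h : Reg u w) : csq (TT u w) ≠ 0 := by
  intro h0
  have := csq_re_pos (slitT h)
  rw [h0] at this; simp at this

theorem cos_yy_ne {u w : ℂ} (h : Reg u w) : cos (Real.pi * yy u w) ≠ 0 := by
  rw [cos_yy h]; exact one_div_ne_zero (csqT_ne h)

theorem sin_yy {u w : ℂ} (h : Reg u w) :
    sin (Real.pi * yy u w) = TT u w * cos (Real.pi * yy u w) := by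
  rw [cos_yy h, pi_yy h, sin_gd (arshT_im h), tanh_eq_sinh_div_cosh, sinh_arsh, cosh_arsh]
  ring

theorem cos_yy_re_pos {u w : ℂ} (h : Reg u w) : 0 < (cos (Real.pi * yy u w)).re := by
  rw [cos_yy h, one_div, inv_re]
  exact div_pos (csq_re_pos (slitT h)) (normSq_pos.2 (csqT_ne h))

theorem cos_yy_sq {u w : ℂ} (h : Reg u w) :
    cos (Real.pi * yy u w) ^ 2 * (cosh u ^ 2 + cosh w ^ 2) = 1 := by
  rw [cos_yy h, ← one_add_TT_sq h, ← csq_sq]
  have := csqT_ne h
  field_simp

theorem yy_re_pos {u w : ℂ} (h : Reg u w) : 0 < (yy u w).re := by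
  have h1 : 0 < (gd (arsh (TT u w))).re := by
    rw [← UU_eta (arsh (TT u w))]
    apply gd_re_pos _ (arshT_im h)
    have h2 := TT_re_pos h
    have h3 : (TT u w).re = Real.sinh (arsh (TT u w)).re * Real.cos (arsh (TT u w)).im := by
      rw [← sinh_re', sinh_arsh]
    rw [h3] at h2
    exact Real.sinh_pos_iff.1 ((pos_iff_pos_of_mul_pos h2).2 (cos_pos' (arshT_im h)))
  rw [← pi_yy h, re_ofReal_mul] at h1
  exact (pos_iff_pos_of_mul_pos h1).1 Real.pi_pos

theorem yy_re_lt {u w : ℂ} (h : Reg u w) : (yy u w).re < 1 / 2 := by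
  have h1 := (abs_lt.1 (gd_re_lt (arshT_im h))).2
  rw [← pi_yy h, re_ofReal_mul] at h1
  have := Real.pi_pos
  nlinarith

theorem cos_pi_gdv {u : ℂ} (h : |u.im| < Real.pi / 2) : cos (Real.pi * gdv u) = 1 / cosh u := by
  rw [← gd_eq h, cos_gd h]

theorem sin_pi_gdv {u : ℂ} (h : |u.im| < Real.pi / 2) : sin (Real.pi * gdv u) = tanh u := by
  rw [← gd_eq h, sin_gd h]

theorem TT_sub_sinh {u w : ℂ} (h : Reg u w) :
    TT u w - sinh u = cosh w * exp (-qq u w) ∧ TT u w + sinh u = cosh w * exp (qq u w) := by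
  have hw := cosh_ne h.right
  have h1 := cosh_qq h
  have h2 := sinh_qq u w
  have h3 : TT u w = cosh w * cosh (qq u w) := by rw [h1]; field_simp
  have h4 : sinh u = cosh w * sinh (qq u w) := by rw [h2]; field_simp
  constructor
  · rw [← cosh_sub_sinh, mul_sub, ← h3, ← h4]
  · rw [← cosh_add_sinh, mul_add, ← h3, ← h4]

theorem sin_yy_sub {u w : ℂ} (h : Reg u w) : sin (Real.pi * (yy u w - gdv u))
    = cos (Real.pi * yy u w) * (cosh w / cosh u) * exp (-qq u w) := by
  have hu := cosh_ne h.left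
  rw [mul_sub, Complex.sin_sub, sin_yy h, cos_pi_gdv h.left, sin_pi_gdv h.left,
    tanh_eq_sinh_div_cosh]
  have := (TT_sub_sinh h).1
  field_simp
  linear_combination (cos (Real.pi * yy u w)) * this

theorem sin_yy_add {u w : ℂ} (h : Reg u w) : sin (Real.pi * (yy u w + gdv u))
    = cos (Real.pi * yy u w) * (cosh w / cosh u) * exp (qq u w) := by
  have hu := cosh_ne h.left
  rw [mul_add, Complex.sin_add, sin_yy h, cos_pi_gdv h.left, sin_pi_gdv h.left,
    tanh_eq_sinh_div_cosh]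
  have := (TT_sub_sinh h).2
  field_simp
  linear_combination (cos (Real.pi * yy u w)) * this

/-- `log cos (π y)` -/
noncomputable def lcy (u w : ℂ) : ℂ := log (cos (Real.pi * yy u w))

theorem lcy_comm (u w : ℂ) : lcy w u = lcy u w := by rw [lcy, yy_comm, lcy]

theorem exp_lcy {u w : ℂ} (h : Reg u w) : exp (lcy u w) = cos (Real.pi * yy u w) :=
  exp_log (cos_yy_ne h)

theorem lcy_im_lt {u w : ℂ} (h : Reg u w) : |(lcy u w).im| < Real.pi / 2 := by
  rw [lcy, log_im]
  exact abs_arg_lt_pi_div_two_iff.2 (Or.inl (cos_yy_re_pos h))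

/-- `γ = arg cos (π y)` lies between `-arg cosh u` and `-arg cosh w`. -/
theorem neg_lcy_le {u w : ℂ} (h : Reg u w) (hle : (Lc w).im ≤ (Lc u).im) :
    -(Lc u).im ≤ (lcy u w).im ∧ (lcy u w).im ≤ -(Lc w).im := by
  have h1 := cos_yy_sq h
  have hγ := abs_lt.1 (lcy_im_lt h)
  have a1 := abs_le.1 (Lc_im_abs h.left)
  have a2 := abs_le.1 (Lc_im_abs h.right)
  have hR : |u.im| + |w.im| < Real.pi / 2 := h
  have n1 := abs_nonneg u.im
  have n2 := abs_nonneg w.im
  have hpi := Real.pi_pos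
  rw [← exp_lcy h, cosh_sq_exp h.left, cosh_sq_exp h.right] at h1
  -- `exp (2 Lc u) + exp (2 Lc w) = exp (-2 lcy)`
  have h2 : exp (2 * Lc u) + exp (2 * Lc w) = exp (-(2 * lcy u w)) := by
    have h3 : exp (lcy u w) ^ 2 * exp (-(2 * lcy u w)) = 1 := by
      rw [sq, ← exp_add, ← exp_add, ← exp_zero]
      congr 1; ring
    have h4 : exp (lcy u w) ^ 2 ≠ 0 := pow_ne_zero _ (exp_ne_zero _)
    exact mul_left_cancel₀ h4 (by rw [h1, h3])
  have e2 : ∀ z : ℂ, (2 * z).im = 2 * z.im := fun z => by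
    rw [show (2 : ℂ) = ((2 : ℝ) : ℂ) by norm_num, im_ofReal_mul]
  have im_exp_mul : ∀ (z : ℂ) (ψ : ℝ), (exp z * exp (-((ψ : ℂ) * I))).im
      = Real.exp z.re * Real.sin (z.im - ψ) := by
    intro z ψ
    rw [← exp_add, exp_im]
    simp [sub_eq_add_neg]
  set α := (Lc u).im
  set β := (Lc w).im
  set γ := (lcy u w).im
  have key : ∀ ψ : ℝ, Real.exp (2 * Lc u).re * Real.sin (2 * α - ψ)
      + Real.exp (2 * Lc w).re * Real.sin (2 * β - ψ)
      = Real.exp (-(2 * lcy u w)).re * Real.sin (-(2 * γ) - ψ) := by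
    intro ψ
    have := congrArg (fun z => (z * exp (-((ψ : ℂ) * I))).im) h2
    simp only [add_mul, add_im, im_exp_mul] at this
    rw [e2, e2, neg_im, e2] at this
    exact this
  have re_key : Real.exp (2 * Lc u).re * Real.cos (2 * α - (α + β))
      + Real.exp (2 * Lc w).re * Real.cos (2 * β - (α + β))
      = Real.exp (-(2 * lcy u w)).re * Real.cos (-(2 * γ) - (α + β)) := by
    have := congrArg (fun z => (z * exp (-(((α + β : ℝ) : ℂ) * I))).re) h2
    simp only [add_mul, add_re, re_exp_mul] at this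
    rw [e2, e2, neg_im, e2] at this
    exact this
  have hδ : α - β < Real.pi / 2 := by linarith
  have hc0 : 0 < Real.cos (-(2 * γ) - (α + β)) := by
    have c1 : 0 < Real.cos (2 * α - (α + β)) := by
      apply Real.cos_pos_of_mem_Ioo; constructor <;> linarith
    have c2 : 0 < Real.cos (2 * β - (α + β)) := by
      apply Real.cos_pos_of_mem_Ioo; constructor <;> linarith
    have p1 := mul_pos (Real.exp_pos (2 * Lc u).re) c1
    have p2 := mul_pos (Real.exp_pos (2 * Lc w).re) c2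
    have p3 : 0 < Real.exp (-(2 * lcy u w)).re * Real.cos (-(2 * γ) - (α + β)) := by linarith
    exact (pos_iff_pos_of_mul_pos p3).1 (Real.exp_pos _)
  have hm : -(Real.pi / 2) < -(2 * γ) - (α + β) ∧ -(2 * γ) - (α + β) < Real.pi / 2 := by
    constructor
    · by_contra hc
      push Not at hc
      have : Real.cos (-(2 * γ) - (α + β)) ≤ 0 := by
        rw [← Real.cos_neg]
        apply Real.cos_nonpos_of_pi_div_two_le_of_le <;> linarith
      linarith
    · by_contra hc
      push Not at hc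
      have : Real.cos (-(2 * γ) - (α + β)) ≤ 0 := by
        apply Real.cos_nonpos_of_pi_div_two_le_of_le <;> linarith
      linarith
  constructor
  · -- `-γ ≤ α`
    by_contra hc
    push Not at hc
    have k := key (2 * α)
    rw [sub_self, Real.sin_zero, mul_zero, zero_add] at k
    have s1 : Real.sin (2 * β - 2 * α) ≤ 0 := by
      apply Real.sin_nonpos_of_nonpos_of_neg_pi_le
      · linarith
      · linarith
    have s2 : 0 < Real.sin (-(2 * γ) - 2 * α) := by
      apply Real.sin_pos_of_pos_of_lt_pi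
      · linarith
      · linarith
    have := mul_pos (Real.exp_pos (-(2 * lcy u w)).re) s2
    have := mul_nonneg (Real.exp_pos (2 * Lc w).re).le (neg_nonneg.2 s1)
    linarith
  · -- `β ≤ -γ`
    by_contra hc
    push Not at hc
    have k := key (2 * β)
    rw [sub_self, Real.sin_zero, mul_zero, add_zero] at k
    have s1 : 0 ≤ Real.sin (2 * α - 2 * β) := by
      apply Real.sin_nonneg_of_nonneg_of_le_pi
      · linarith
      · linarith
    have s2 : Real.sin (-(2 * γ) - 2 * β) < 0 := by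
      apply Real.sin_neg_of_neg_of_neg_pi_lt
      · linarith
      · linarith
    have := mul_nonneg (Real.exp_pos (2 * Lc u).re).le s1
    have := mul_neg_of_pos_of_neg (Real.exp_pos (-(2 * lcy u w)).re) s2
    linarith

end Pool.Agent.S3
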