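import Pool.Agent.S3.Ys

/-!
# Stage 3: the critical equations at an open-open edge, pointwise

`Lm u w`, `Lp u w` are logarithms of `2 sin π (y ∓ v)`. If their imaginary parts are in `(-π, π)`
then `he (y ∓ v)` are equal to them, so `ey (op v) = 2 Lc u - 2 Lc w`, `ev = -2 q(u, w)`.
-/

namespace Pool.Agent.S3

open Complex
open Pool.Agent.H63.VC3 (hh)
open Pool.Agent.H25.RK (gdv gdv_re_lt)

/-- logarithm of `2 sin π (y - v)` -/
noncomputable def Lm (u w : ℂ) : ℂ := Real.log 2 + lcy u w + Lc w - Lc u - qq u w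

/-- logarithm of `2 sin π (y + v)` -/
noncomputable def Lp (u w : ℂ) : ℂ := Real.log 2 + lcy u w + Lc w - Lc u + qq u w

/-- `Im L` is in `(-π, π)` -/
def Good (u w : ℂ) : Prop := |(Lm u w).im| < Real.pi ∧ |(Lp u w).im| < Real.pi

theorem exp_log_two : exp ((Real.log 2 : ℝ) : ℂ) = 2 := by
  rw [← ofReal_exp, Real.exp_log (by norm_num)]; norm_num

theorem exp_Lm {u w : ℂ} (h : Reg u w) : exp (Lm u w) = 2 * sin (Real.pi * (yy u w - gdv u)) := by
  rw [sin_yy_sub h, ← exp_lcy h, ← exp_Lc h.left, ← exp_Lc h.right, Lm]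
  rw [show (Real.log 2 : ℂ) + lcy u w + Lc w - Lc u - qq u w
    = (Real.log 2 : ℂ) + (lcy u w + (Lc w - Lc u) + -qq u w) by ring, exp_add, exp_log_two,
    exp_add, exp_add, exp_sub]

theorem exp_Lp {u w : ℂ} (h : Reg u w) : exp (Lp u w) = 2 * sin (Real.pi * (yy u w + gdv u)) := by
  rw [sin_yy_add h, ← exp_lcy h, ← exp_Lc h.left, ← exp_Lc h.right, Lp]
  rw [show (Real.log 2 : ℂ) + lcy u w + Lc w - Lc u + qq u w
    = (Real.log 2 : ℂ) + (lcy u w + (Lc w - Lc u) + qq u w) by ring, exp_add, exp_log_two,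
    exp_add, exp_add, exp_sub]

/-- a logarithm of `2 sin (π z)` with small imaginary part -/
theorem fdom_of_log {L z : ℂ} (h : exp L = 2 * sin (Real.pi * z)) (hL : |L.im| < Real.pi)
    (h0 : -1 / 2 < z.re) (h1 : z.re < 1) : fdom z ∧ he z = L := by
  have hL' := abs_lt.1 hL
  have hf : fdom z := by
    by_contra hc
    unfold fdom at hc
    push Not at hc
    obtain ⟨c1, c2⟩ := hc
    have c3 : z.re ≤ 0 := by
      by_contra hc3
      push Not at hc3
      have := c2 hc3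
      linarith
    -- `2 sin π z` is real and nonpositive
    have e1 : z = ((z.re : ℝ) : ℂ) := by
      apply Complex.ext
      · simp
      · rw [ofReal_im]; exact c1
    have e2 : 2 * sin (Real.pi * z) = ((2 * Real.sin (Real.pi * z.re) : ℝ) : ℂ) := by
      conv_lhs => rw [e1]
      push_cast; ring
    have c4 : Real.sin (Real.pi * z.re) ≤ 0 := by
      apply Real.sin_nonpos_of_nonpos_of_neg_pi_le
      · exact mul_nonpos_of_nonneg_of_nonpos Real.pi_pos.le c3
      · have := Real.pi_pos; nlinarith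
    have h2 : (exp L).im = 0 := by rw [h, e2, ofReal_im]
    have h3 : (exp L).re ≤ 0 := by rw [h, e2, ofReal_re]; linarith
    have h4 := exp_ne_zero L
    have h5 : exp L ∈ slitPlane := by
      rw [mem_slitPlane_iff_arg, arg_exp]
      · refine ⟨?_, h4⟩
        rw [(toIocMod_eq_self Real.two_pi_pos).2 ⟨by linarith, by linarith [Real.pi_pos]⟩]
        linarith
    rw [mem_slitPlane_iff] at h5
    rcases h5 with h5 | h5
    · linarith
    · exact h5 h2
  refine ⟨hf, ?_⟩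
  rw [he_eq_log hf h0 h1, ← h, log_exp hL'.1 hL'.2.le]

theorem re_bounds {u w : ℂ} (h : Reg u w) :
    (-1 / 2 < (yy u w - gdv u).re ∧ (yy u w - gdv u).re < 1) ∧
    (-1 / 2 < (yy u w + gdv u).re ∧ (yy u w + gdv u).re < 1) := by
  have h1 := yy_re_pos h
  have h2 := yy_re_lt h
  have h3 := abs_lt.1 (gdv_re_lt h.left)
  rw [sub_re, add_re]
  refine ⟨⟨by linarith, by linarith⟩, by linarith, by linarith⟩

theorem he_sub_eq {u w : ℂ} (h : Reg u w) (g : Good u w) :
    fdom (yy u w - gdv u) ∧ he (yy u w - gdv u) = Lm u w :=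
  fdom_of_log (exp_Lm h) g.1 (re_bounds h).1.1 (re_bounds h).1.2

theorem he_add_eq {u w : ℂ} (h : Reg u w) (g : Good u w) :
    fdom (yy u w + gdv u) ∧ he (yy u w + gdv u) = Lp u w :=
  fdom_of_log (exp_Lp h) g.2 (re_bounds h).2.1 (re_bounds h).2.2

theorem hh_half {u w : ℂ} (h : Reg u w) : hh (yy u w + 1 / 2) = Real.log 2 + lcy u w := by
  rw [hh, mul_add, show (Real.pi : ℂ) * (1 / 2) = (Real.pi : ℂ) / 2 by ring,
    Complex.sin_add_pi_div_two, ← exp_lcy h, ← exp_log_two, ← exp_add, log_exp]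
  · have := (abs_lt.1 (lcy_im_lt h)).1
    rw [add_im, ofReal_im]; linarith [Real.pi_pos]
  · have := (abs_lt.1 (lcy_im_lt h)).2
    rw [add_im, ofReal_im]; linarith [Real.pi_pos]

theorem sdom_op {u w : ℂ} (h : Reg u w) (g : Good u w) : sdom (yy u w) (.op (gdv u)) :=
  ⟨yy_re_pos h, yy_re_lt h, (he_sub_eq h g).1, (he_add_eq h g).1⟩

theorem ey_op {u w : ℂ} (h : Reg u w) (g : Good u w) :
    ey (yy u w) (.op (gdv u)) = 2 * Lc u - 2 * Lc w := by
  rw [ey, hh_half h, (he_sub_eq h g).2, (he_add_eq h g).2, Lm, Lp]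
  ring

theorem ev_op {u w : ℂ} (h : Reg u w) (g : Good u w) :
    ev (yy u w) (gdv u) = -2 * qq u w := by
  rw [ev, (he_sub_eq h g).2, (he_add_eq h g).2, Lm, Lp]
  ring

/-- the critical equation in `y` -/
theorem ey_add_eq {u w : ℂ} (h : Reg u w) (g : Good u w) (g' : Good w u) :
    ey (yy u w) (.op (gdv u)) + ey (yy u w) (.op (gdv w)) = 0 := by
  have h2 := ey_op h.symm g'
  rw [yy_comm] at h2
  rw [ey_op h g, h2]
  ring

/-! ### second derivatives -/

theorem ct_half {u w : ℂ} (h : Reg u w) : ct (yy u w + 1 / 2) = -(Real.pi * TT u w) := by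
  have hc := cos_yy_ne h
  rw [ct, mul_add, show (Real.pi : ℂ) * (1 / 2) = (Real.pi : ℂ) / 2 by ring,
    Complex.sin_add_pi_div_two, Complex.cos_add_pi_div_two, sin_yy h]
  field_simp

theorem ct_add_sub {u w : ℂ} (h : Reg u w) :
    ct (yy u w - gdv u) + ct (yy u w + gdv u)
      = 2 * Real.pi * TT u w * cosh u ^ 2 / cosh w ^ 2 ∧
    ct (yy u w - gdv u) - ct (yy u w + gdv u)
      = 2 * Real.pi * sinh u * (1 + TT u w ^ 2) / cosh w ^ 2 := by
  have hu := cosh_ne h.left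
  have hw := cosh_ne h.right
  have hC := cos_yy_ne h
  have hT := TT_sq h
  have hC2 : cos (Real.pi * yy u w) ^ 2 * (1 + TT u w ^ 2) = 1 := by
    rw [one_add_TT_sq h]; exact cos_yy_sq h
  have h1 := TT_sub_sinh h
  have n1 : TT u w - sinh u ≠ 0 := by rw [h1.1]; exact mul_ne_zero hw (exp_ne_zero _)
  have n2 : TT u w + sinh u ≠ 0 := by rw [h1.2]; exact mul_ne_zero hw (exp_ne_zero _)
  have e1 : sin (Real.pi * (yy u w - gdv u))
      = cos (Real.pi * yy u w) / cosh u * (TT u w - sinh u) := by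
    rw [sin_yy_sub h, h1.1]; ring
  have e2 : sin (Real.pi * (yy u w + gdv u))
      = cos (Real.pi * yy u w) / cosh u * (TT u w + sinh u) := by
    rw [sin_yy_add h, h1.2]; ring
  have e3 : cos (Real.pi * (yy u w - gdv u))
      = cos (Real.pi * yy u w) / cosh u * (1 + TT u w * sinh u) := by
    rw [mul_sub, Complex.cos_sub, sin_yy h, cos_pi_gdv h.left, sin_pi_gdv h.left,
      tanh_eq_sinh_div_cosh]
    ring
  have e4 : cos (Real.pi * (yy u w + gdv u))
      = cos (Real.pi * yy u w) / cosh u * (1 - TT u w * sinh u) := by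
    rw [mul_add, Complex.cos_add, sin_yy h, cos_pi_gdv h.left, sin_pi_gdv h.left,
      tanh_eq_sinh_div_cosh]
    ring
  have hq : cos (Real.pi * yy u w) / cosh u ≠ 0 := div_ne_zero hC hu
  have f1 : ct (yy u w - gdv u) = Real.pi * (1 + TT u w * sinh u) / (TT u w - sinh u) := by
    rw [ct, e1, e3]
    field_simp
  have f2 : ct (yy u w + gdv u) = Real.pi * (1 - TT u w * sinh u) / (TT u w + sinh u) := by
    rw [ct, e2, e4]
    field_simp
  have h3 : (TT u w - sinh u) * (TT u w + sinh u) = cosh w ^ 2 := by linear_combination hT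
  have h4 := cosh_sq u
  constructor
  · rw [f1, f2, div_add_div _ _ n1 n2, h3]
    congr 1
    linear_combination (-2 * Real.pi * TT u w) * h4
  · rw [f1, f2, div_sub_div _ _ n1 n2, h3]
    congr 1
    ring

theorem eyy_op {u w : ℂ} (h : Reg u w) : eyy (yy u w) (.op (gdv u))
    = -(2 * Real.pi * TT u w * (1 + TT u w ^ 2) / cosh w ^ 2) := by
  have hw := cosh_ne h.right
  rw [eyy, ct_half h, sub_sub, (ct_add_sub h).1, one_add_TT_sq h]
  field_simp
  ring

theorem eyv_op {u w : ℂ} (h : Reg u w) : eyv (yy u w) (gdv u)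
    = 2 * Real.pi * sinh u * (1 + TT u w ^ 2) / cosh w ^ 2 := by
  rw [eyv, (ct_add_sub h).2]

theorem evv_op {u w : ℂ} (h : Reg u w) : evv (yy u w) (gdv u)
    = -(2 * Real.pi * TT u w * cosh u ^ 2 / cosh w ^ 2) := by
  rw [evv, ← (ct_add_sub h).1]; ring

/-- `E_yy` -/
theorem A_op {u w : ℂ} (h : Reg u w) :
    eyy (yy u w) (.op (gdv u)) + eyy (yy u w) (.op (gdv w))
      = -(2 * Real.pi * TT u w * (1 + TT u w ^ 2) ^ 2 / (cosh u ^ 2 * cosh w ^ 2)) := by
  have hu := cosh_ne h.left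
  have hw := cosh_ne h.right
  have h2 := eyy_op h.symm
  rw [yy_comm, TT_comm] at h2
  have h3 := one_add_TT_sq h
  rw [eyy_op h, h2]
  field_simp
  linear_combination (TT u w * (1 + TT u w ^ 2)) * h3

theorem one_add_TT_sq_ne {u w : ℂ} (h : Reg u w) : 1 + TT u w ^ 2 ≠ 0 :=
  slitPlane_ne_zero (slitT h)

theorem A_op_ne {u w : ℂ} (h : Reg u w) :
    eyy (yy u w) (.op (gdv u)) + eyy (yy u w) (.op (gdv w)) ≠ 0 := by
  rw [A_op h, neg_ne_zero]
  have hu := cosh_ne h.left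
  have hw := cosh_ne h.right
  have hpi : (Real.pi : ℂ) ≠ 0 := by exact_mod_cast Real.pi_ne_zero
  have h1 := one_add_TT_sq_ne h
  have h2 := TT_ne u w
  exact div_ne_zero (mul_ne_zero (mul_ne_zero (mul_ne_zero two_ne_zero hpi) h2)
    (pow_ne_zero _ h1)) (mul_ne_zero (pow_ne_zero _ hu) (pow_ne_zero _ hw))

/-- the form of an edge -/
theorem qf_op {u w : ℂ} (h : Reg u w) (β β' a b : ℂ) :
    (evv (yy u w) (gdv u) + I * β) * dgv u ^ 2 * a ^ 2
      + (evv (yy u w) (gdv w) + I * β') * dgv w ^ 2 * b ^ 2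
      - (eyv (yy u w) (gdv u) * dgv u * a + eyv (yy u w) (gdv w) * dgv w * b) ^ 2
        / (eyy (yy u w) (.op (gdv u)) + eyy (yy u w) (.op (gdv w)))
      = -(2 / Real.pi) * ((a ^ 2 + b ^ 2 - 2 * tanh u * tanh w * (a * b)) / TT u w)
        + I / Real.pi ^ 2 * (β * a ^ 2 / cosh u ^ 2 + β' * b ^ 2 / cosh w ^ 2) := by
  have hu := cosh_ne h.left
  have hw := cosh_ne h.right
  have hpi : (Real.pi : ℂ) ≠ 0 := by exact_mod_cast Real.pi_ne_zero
  have h1 := one_add_TT_sq_ne h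
  have h2 := TT_ne u w
  have s1 := evv_op h.symm
  have s2 := eyv_op h.symm
  rw [yy_comm, TT_comm] at s1 s2
  have hT := TT_sq h
  have hT' := TT_sq h.symm
  rw [TT_comm] at hT'
  have k1 : TT u w ^ 2 - sinh u ^ 2 = cosh w ^ 2 := by linear_combination hT
  have k2 : TT u w ^ 2 - sinh w ^ 2 = cosh u ^ 2 := by linear_combination hT'
  have e1 : (a ^ 2 + b ^ 2 - 2 * (sinh u / cosh u) * (sinh w / cosh w) * (a * b))
      = (TT u w ^ 2 - sinh u ^ 2) / cosh w ^ 2 * a ^ 2
        + (TT u w ^ 2 - sinh w ^ 2) / cosh u ^ 2 * b ^ 2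
        - 2 * (sinh u / cosh u) * (sinh w / cosh w) * (a * b) := by
    rw [k1, k2, div_self (pow_ne_zero _ hw), div_self (pow_ne_zero _ hu)]
    ring
  rw [A_op h, evv_op h, eyv_op h, s1, s2, dgv, dgv, tanh_eq_sinh_div_cosh, tanh_eq_sinh_div_cosh,
    e1]
  set N : ℂ := 1 + TT u w ^ 2 with hN
  clear_value N
  field_simp
  ring

end Pool.Agent.S3
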