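import Pool.Agent.S3.CritO

/-!
# Stage 3: open-open edges in the frame `u = x + i θ`, `w = x' - i θ'`

* `good_own`, `good_oth`: the condition `(H-alpha)` gives `Good`;
* `qf_neg`: the form of an edge is negative definite.
-/

namespace Pool.Agent.S3

open Complex
open Pool.Agent.H25.RK (gdv)

theorem Lc_conj {z : ℂ} (h : |z.im| < Real.pi / 2) :
    Lc ((starRingEnd ℂ) z) = (starRingEnd ℂ) (Lc z) := by
  rw [Lc, Lc, ← conj_cosh', log_conj]
  intro h0
  have := lt_of_le_of_lt (Lc_im_abs h) h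
  rw [Lc, log_im, h0, abs_of_pos Real.pi_pos] at this
  linarith only [Real.pi_pos, this]

theorem TT_conj {u w : ℂ} (h : Reg u w) :
    TT ((starRingEnd ℂ) u) ((starRingEnd ℂ) w) = (starRingEnd ℂ) (TT u w) := by
  rw [TT, TT, ← map_add, ← map_sub, Lc_conj h.add, Lc_conj h.sub, ← exp_conj]
  congr 1
  rw [map_div₀, map_add, Complex.conj_ofNat]

theorem yy_conj {u w : ℂ} (h : Reg u w) :
    yy ((starRingEnd ℂ) u) ((starRingEnd ℂ) w) = (starRingEnd ℂ) (yy u w) := by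
  have hr : Reg ((starRingEnd ℂ) u) ((starRingEnd ℂ) w) := h.conj_left.conj_right
  have h1 := pi_yy hr
  rw [TT_conj h, arsh_conj (slitT h), gd_conj (arshT_im h), ← pi_yy h, map_mul, conj_ofReal] at h1
  have hpi : (Real.pi : ℂ) ≠ 0 := by exact_mod_cast Real.pi_ne_zero
  exact mul_left_cancel₀ hpi h1

theorem lcy_conj {u w : ℂ} (h : Reg u w) :
    lcy ((starRingEnd ℂ) u) ((starRingEnd ℂ) w) = (starRingEnd ℂ) (lcy u w) := by
  rw [lcy, yy_conj h, lcy, ← log_conj]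
  · rw [← cos_conj, map_mul, conj_ofReal]
  · intro h0
    have := lcy_im_lt h
    rw [lcy, log_im, h0, abs_of_pos Real.pi_pos] at this
    linarith only [Real.pi_pos, this]

theorem Lm_conj {u w : ℂ} (h : Reg u w) :
    Lm ((starRingEnd ℂ) u) ((starRingEnd ℂ) w) = (starRingEnd ℂ) (Lm u w) := by
  rw [Lm, Lm, lcy_conj h, Lc_conj h.left, Lc_conj h.right, qq_conj h]
  simp only [map_add, map_sub, conj_ofReal]

theorem Lp_conj {u w : ℂ} (h : Reg u w) :
    Lp ((starRingEnd ℂ) u) ((starRingEnd ℂ) w) = (starRingEnd ℂ) (Lp u w) := by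
  rw [Lp, Lp, lcy_conj h, Lc_conj h.left, Lc_conj h.right, qq_conj h]
  simp only [map_add, map_sub, conj_ofReal]

theorem Good.conj {u w : ℂ} (h : Reg u w) (g : Good u w) :
    Good ((starRingEnd ℂ) u) ((starRingEnd ℂ) w) := by
  unfold Good at *
  rwa [Lm_conj h, Lp_conj h, conj_im, conj_im, abs_neg, abs_neg]

theorem Lc_neg (z : ℂ) : Lc (-z) = Lc z := by rw [Lc, cosh_neg, Lc]

theorem Lm_neg_left {u w : ℂ} (h : Reg u w) : Lm (-u) w = Lp u w := by
  rw [Lm, Lp, lcy, yy_neg_left, ← lcy, qq_neg_left h, Lc_neg]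
  ring

theorem Lp_neg_left {u w : ℂ} (h : Reg u w) : Lp (-u) w = Lm u w := by
  rw [Lm, Lp, lcy, yy_neg_left, ← lcy, qq_neg_left h, Lc_neg]
  ring

theorem Lm_neg_right {u w : ℂ} : Lm u (-w) = Lm u w := by
  rw [Lm, Lm, lcy, yy_neg_right, ← lcy, qq_neg_right, Lc_neg]

theorem Lp_neg_right {u w : ℂ} : Lp u (-w) = Lp u w := by
  rw [Lp, Lp, lcy, yy_neg_right, ← lcy, qq_neg_right, Lc_neg]

theorem Good.neg_left {u w : ℂ} (h : Reg u w) (g : Good u w) : Good (-u) w := by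
  unfold Good at *
  rw [Lm_neg_left h, Lp_neg_left h]
  exact ⟨g.2, g.1⟩

theorem Good.neg_right {u w : ℂ} (g : Good u w) : Good u (-w) := by
  unfold Good at *
  rwa [Lm_neg_right, Lp_neg_right]

/-- `Im q ≥ 0` in the opposite quadrant -/
theorem qq_im_nonneg {u w : ℂ} (h : Reg u w) (hu : 0 ≤ u.re) (hw : 0 ≤ w.re) (hu' : 0 ≤ u.im)
    (hw' : w.im ≤ 0) : 0 ≤ (qq u w).im := by
  have hpi := Real.pi_pos
  have hl := h.left
  have hr := h.right
  have hc := cosh_ne h.right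
  have hn0 : 0 < normSq (cosh w) := normSq_pos.2 hc
  apply arsh_im_nonneg (slit h)
  rw [div_eq_mul_inv, inv_def, ← mul_assoc, im_mul_ofReal]
  apply mul_nonneg _ (inv_pos.2 hn0).le
  rw [mul_im, conj_re, conj_im]
  have a1 : 0 ≤ (sinh u).re := by
    rw [sinh_re']
    exact mul_nonneg (Real.sinh_nonneg_iff.2 hu) (cos_pos' hl).le
  have a2 : 0 ≤ (sinh u).im := by
    rw [sinh_im']
    apply mul_nonneg (Real.cosh_pos _).le
    rw [abs_of_nonneg hu'] at hl
    exact Real.sin_nonneg_of_nonneg_of_le_pi hu' (by linarith only [hl, hpi])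
  have a3 : 0 ≤ (cosh w).re := (cosh_re_pos h.right).le
  have a4 : (cosh w).im ≤ 0 := by
    rw [cosh_im']
    rw [abs_of_nonpos hw'] at hr
    have := mul_nonneg (Real.sinh_nonneg_iff.2 hw)
      (neg_nonneg.2 (Real.sin_nonpos_of_nonpos_of_neg_pi_le hw' (by linarith only [hr, hpi])))
    linarith only [this]
  have b1 := mul_nonneg a1 (neg_nonneg.2 a4)
  have b2 := mul_nonneg a2 a3
  linarith only [b2, b1]

theorem Lc_im_nonneg {z : ℂ} (h : |z.im| < Real.pi / 2) (h0 : 0 ≤ z.re) (h1 : 0 ≤ z.im) :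
    0 ≤ (Lc z).im := by
  have e : (Lc z).im = aa z.re z.im := by
    conv_lhs => rw [← re_add_im z]
    exact Lc_im _ _ h
  rw [e]
  rw [abs_of_nonneg h1] at h
  exact aa_nonneg h0 h1 h

theorem Lc_im_nonpos {z : ℂ} (h : |z.im| < Real.pi / 2) (h0 : 0 ≤ z.re) (h1 : z.im ≤ 0) :
    (Lc z).im ≤ 0 := by
  have e := congrArg Complex.im (Lc_conj h)
  rw [conj_im] at e
  have := Lc_im_nonneg (z := (starRingEnd ℂ) z) (by rwa [conj_im, abs_neg]) (by rwa [conj_re])
    (by rw [conj_im]; linarith only [h1])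
  linarith only [this, e]

/-- own vertex -/
theorem good_own {u w : ℂ} (h : Reg u w) (hu : 0 ≤ u.re) (hw : 0 ≤ w.re) (hu' : 0 ≤ u.im)
    (hw' : w.im ≤ 0)
    (hα : (Lc u).im - (Lc w).im - (lcy u w).im + (qq u w).im < Real.pi) : Good u w := by
  have hpi := Real.pi_pos
  have q0 := qq_im_nonneg h hu hw hu' hw'
  have q1 := (abs_lt.1 (arsh_im_lt (slit h))).2
  have c1 := Lc_im_nonneg h.left hu hu'
  have c2 := Lc_im_nonpos h.right hw hw'
  have g := neg_lcy_le h (by linarith only [c2, c1])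
  have em : (Lm u w).im = (lcy u w).im + (Lc w).im - (Lc u).im - (qq u w).im := by
    rw [Lm]; simp only [add_im, sub_im, ofReal_im, zero_add]
  have ep : (Lp u w).im = (lcy u w).im + (Lc w).im - (Lc u).im + (qq u w).im := by
    rw [Lp]; simp only [add_im, sub_im, ofReal_im, zero_add]
  change (qq u w).im < Real.pi / 2 at q1
  constructor
  · rw [em, abs_lt]; constructor <;> linarith [g.2]
  · rw [ep, abs_lt]; constructor <;> linarith [g.2]

/-- other vertex -/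
theorem good_oth {u w : ℂ} (h : Reg u w) (hu : 0 ≤ u.re) (hw : 0 ≤ w.re) (hu' : 0 ≤ u.im)
    (hw' : w.im ≤ 0)
    (hα : (Lc u).im - (Lc w).im + (lcy u w).im - (qq w u).im < Real.pi) : Good w u := by
  have h1 := h.symm.conj_left.conj_right
  have g := good_own h1 (by rwa [conj_re]) (by rwa [conj_re]) (by rw [conj_im]; linarith only [hw'])
    (by rw [conj_im]; linarith only [hu']) (by
      rw [Lc_conj h.right, Lc_conj h.left, lcy_conj h.symm, lcy_comm, qq_conj h.symm]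
      simp only [conj_im]
      linarith only [hα])
  have := g.conj h1
  rwa [conj_conj, conj_conj] at this

section

variable {θ θ' xc xc' b b' : ℝ}

theorem one_sub_div_TT (h : OppHyp θ θ' xc xc') (ρ x x' : ℝ) :
    ((1 - ρ * (tanh (UU x θ) * tanh (UU x' (-θ')))) / TT (UU x θ) (UU x' (-θ'))).re
      = Real.exp (-(Lc (UU x θ)).re) *
        (DD ρ (UU x θ) (UU x' (-θ')) * exp (-((aa x θ : ℂ) * I))).re := by
  have aθ : |θ| < Real.pi / 2 := by
    rw [abs_of_pos h.θ0]; exact θ_lt h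
  have aθ' : |(UU x θ).im| < Real.pi / 2 := by simpa using aθ
  have hr := h.reg x x'
  have i4 : (Lc (UU x θ)).im = aa x θ := Lc_UU aθ
  have hu := cosh_ne hr.left
  have hw := cosh_ne hr.right
  have e0 : (1 - ρ * (tanh (UU x θ) * tanh (UU x' (-θ')))) / TT (UU x θ) (UU x' (-θ'))
      = DD ρ (UU x θ) (UU x' (-θ')) / cosh (UU x θ) := by
    have hT := TT_ne (UU x θ) (UU x' (-θ'))
    rw [DD, tanh_eq_sinh_div_cosh, tanh_eq_sinh_div_cosh]
    field_simp
  rw [e0, ← re_ofReal_mul, ofReal_exp, div_eq_mul_inv, ← exp_Lc aθ', ← exp_neg]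
  congr 1
  have e : -Lc (UU x θ) = (-(Lc (UU x θ)).re : ℝ) + -((aa x θ : ℂ) * I) := by
    rw [← i4]
    apply Complex.ext <;> simp
  conv_lhs => rw [e, exp_add]
  push_cast
  ring

/-- `|Re (tanh u tanh w / T)| ≤ Re (1 / T)` at the critical point -/
theorem dom_TT (h : OppHyp θ θ' xc xc') (hc : 0 ≤ xc) (hc' : 0 ≤ xc') :
    |(tanh (UU xc θ) * tanh (UU xc' (-θ')) / TT (UU xc θ) (UU xc' (-θ'))).re|
      ≤ (1 / TT (UU xc θ) (UU xc' (-θ'))).re := by
  have a0 := aa_nonneg hc h.θ0.le (θ_lt h)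
  have a1 := aa_le_self xc h.θ0.le (θ_lt h)
  have k1 := DD_re_nonneg (ρ := 1) h hc hc' (Or.inl ⟨rfl, rfl⟩) a0 a1
  have k2 := DD_re_nonneg (ρ := -1) h hc hc' (Or.inr (Or.inl rfl)) a0 a1
  have e1 := one_sub_div_TT h 1 xc xc'
  have e2 := one_sub_div_TT h (-1) xc xc'
  have p1 := mul_nonneg (Real.exp_pos (-(Lc (UU xc θ)).re)).le k1
  have p2 := mul_nonneg (Real.exp_pos (-(Lc (UU xc θ)).re)).le k2
  rw [← e1] at p1
  rw [← e2] at p2
  rw [sub_div, sub_re] at p1 p2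
  rw [ofReal_one, one_mul] at p1
  rw [ofReal_neg, ofReal_one, neg_one_mul, neg_div, neg_re] at p2
  rw [abs_le]
  constructor <;> linarith

/-- `Re (i / cosh² u)` -/
theorem I_div_cosh_sq_re {z : ℂ} (h : |z.im| < Real.pi / 2) :
    (I / cosh z ^ 2).re = Real.exp (-(2 * (Lc z).re)) * Real.sin (2 * (Lc z).im) := by
  rw [cosh_sq_exp h, div_eq_mul_inv, ← exp_neg, mul_re, I_re, I_im, exp_im]
  have e1 : (-(2 * Lc z)).re = -(2 * (Lc z).re) := by
    rw [neg_re, show (2 : ℂ) = ((2 : ℝ) : ℂ) by norm_num, re_ofReal_mul]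
  have e2 : (-(2 * Lc z)).im = -(2 * (Lc z).im) := by
    rw [neg_im, show (2 : ℂ) = ((2 : ℝ) : ℂ) by norm_num, im_ofReal_mul]
  rw [e1, e2, Real.sin_neg]
  ring

theorem aa_pos {x t : ℝ} (hx : 0 < x) (h0 : 0 < t) (h1 : t < Real.pi / 2) : 0 < aa x t := by
  unfold aa
  rw [Real.arctan_pos]
  apply mul_pos
  · rw [Real.tanh_eq_sinh_div_cosh]
    exact div_pos (Real.sinh_pos_iff.2 hx) (Real.cosh_pos x)
  · exact Real.tan_pos_of_pos_of_lt_pi_div_two h0 h1

/-- The form of an open-open edge is negative definite. -/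
theorem qf_neg (h : OppHyp θ θ' xc xc') (hb : 0 < b) (hb' : 0 < b') (hc : 0 < xc) (hc' : 0 < xc')
    {p q : ℝ} (hpq : p ≠ 0 ∨ q ≠ 0) :
    (-(2 / Real.pi) * (((p : ℂ) ^ 2 + (q : ℂ) ^ 2
        - 2 * tanh (UU xc θ) * tanh (UU xc' (-θ')) * ((p : ℂ) * q))
          / TT (UU xc θ) (UU xc' (-θ')))
      + I / (Real.pi : ℂ) ^ 2 * (((-(2 * Real.pi * b) : ℝ) : ℂ) * (p : ℂ) ^ 2 / cosh (UU xc θ) ^ 2
        + ((2 * Real.pi * b' : ℝ) : ℂ) * (q : ℂ) ^ 2 / cosh (UU xc' (-θ')) ^ 2)).re < 0 := by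
  have hpi := Real.pi_pos
  have hpi' : (Real.pi : ℂ) ≠ 0 := by exact_mod_cast Real.pi_ne_zero
  have aθ : |(UU xc θ).im| < Real.pi / 2 := by
    rw [UU_im, abs_of_pos h.θ0]; exact θ_lt h
  have aθ' : |(UU xc' (-θ')).im| < Real.pi / 2 := by
    rw [UU_im, abs_neg, abs_of_pos h.θ0']; exact θ_lt h.symm
  have d := dom_TT h hc.le hc'.le
  set P := (1 / TT (UU xc θ) (UU xc' (-θ'))).re with hP
  set M := (tanh (UU xc θ) * tanh (UU xc' (-θ')) / TT (UU xc θ) (UU xc' (-θ'))).re with hM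
  have s1 := I_div_cosh_sq_re aθ
  have s2 := I_div_cosh_sq_re aθ'
  have f1 : (Lc (UU xc θ)).im = aa xc θ := Lc_UU (by simpa using aθ)
  have f2 : (Lc (UU xc' (-θ'))).im = -aa xc' θ' := by
    rw [Lc_UU (by simpa using aθ'), aa_neg_right]
  have g1 := aa_pos hc h.θ0 (θ_lt h)
  have g2 := aa_pos hc' h.θ0' (θ_lt h.symm)
  have g3 := aa_le_self xc h.θ0.le (θ_lt h)
  have g4 := aa_le_self xc' h.θ0'.le (θ_lt h.symm)
  have hθ := θ_lt h
  have hθ' := θ_lt h.symm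
  have t1 : 0 < (I / cosh (UU xc θ) ^ 2).re := by
    rw [s1, f1]
    apply mul_pos (Real.exp_pos _)
    apply Real.sin_pos_of_pos_of_lt_pi <;> linarith
  have t2 : (I / cosh (UU xc' (-θ')) ^ 2).re < 0 := by
    rw [s2, f2, show 2 * -aa xc' θ' = -(2 * aa xc' θ') by ring, Real.sin_neg]
    have : 0 < Real.sin (2 * aa xc' θ') := by
      apply Real.sin_pos_of_pos_of_lt_pi <;> linarith
    have := mul_pos (Real.exp_pos (-(2 * (Lc (UU xc' (-θ'))).re))) this
    linarith only [this]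
  have e : (-(2 / Real.pi) * (((p : ℂ) ^ 2 + (q : ℂ) ^ 2
        - 2 * tanh (UU xc θ) * tanh (UU xc' (-θ')) * ((p : ℂ) * q))
          / TT (UU xc θ) (UU xc' (-θ')))
      + I / (Real.pi : ℂ) ^ 2 * (((-(2 * Real.pi * b) : ℝ) : ℂ) * (p : ℂ) ^ 2 / cosh (UU xc θ) ^ 2
        + ((2 * Real.pi * b' : ℝ) : ℂ) * (q : ℂ) ^ 2 / cosh (UU xc' (-θ')) ^ 2))
      = ((-(2 / Real.pi) * (p ^ 2 + q ^ 2) : ℝ) : ℂ) * (1 / TT (UU xc θ) (UU xc' (-θ')))
        + ((4 / Real.pi * (p * q) : ℝ) : ℂ) *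
          (tanh (UU xc θ) * tanh (UU xc' (-θ')) / TT (UU xc θ) (UU xc' (-θ')))
        + ((-(2 * b / Real.pi) * p ^ 2 : ℝ) : ℂ) * (I / cosh (UU xc θ) ^ 2)
        + ((2 * b' / Real.pi * q ^ 2 : ℝ) : ℂ) * (I / cosh (UU xc' (-θ')) ^ 2) := by
    push_cast
    field_simp
    ring
  rw [e]
  simp only [add_re, re_ofReal_mul]
  rw [← hP, ← hM]
  have hd := abs_le.1 d
  have hP0 : 0 ≤ P := by linarith only [hd.2, hd.1]
  have hform : 2 * (p * q) * M ≤ (p ^ 2 + q ^ 2) * P := by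
    rcases le_total 0 (p * q) with h0 | h0
    · have := mul_le_mul_of_nonneg_left hd.2 h0
      linarith only [mul_nonneg (sq_nonneg (p - q)) hP0, this]
    · have := mul_le_mul_of_nonneg_left (show -M ≤ P by linarith only [hd.1]) (neg_nonneg.2 h0)
      linarith only [mul_nonneg (sq_nonneg (p + q)) hP0, this]
  have hform2 : -(2 / Real.pi) * (p ^ 2 + q ^ 2) * P + 4 / Real.pi * (p * q) * M ≤ 0 := by
    have : -(2 / Real.pi) * (p ^ 2 + q ^ 2) * P + 4 / Real.pi * (p * q) * M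
        = -(2 / Real.pi) * ((p ^ 2 + q ^ 2) * P - 2 * (p * q) * M) := by ring
    rw [this]
    have h2 : 0 < 2 / Real.pi := by positivity
    linarith only [mul_nonneg (sub_nonneg.2 hform) (sub_nonneg.2 h2.le)]
  have n1 : -(2 * b / Real.pi) * p ^ 2 * (I / cosh (UU xc θ) ^ 2).re ≤ 0 := by
    have : 0 ≤ 2 * b / Real.pi * p ^ 2 * (I / cosh (UU xc θ) ^ 2).re := by positivity
    linarith only [this]
  have n2 : 2 * b' / Real.pi * q ^ 2 * (I / cosh (UU xc' (-θ')) ^ 2).re ≤ 0 :=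
    mul_nonpos_of_nonneg_of_nonpos (by positivity) t2.le
  rcases hpq with h0 | h0
  · have : -(2 * b / Real.pi) * p ^ 2 * (I / cosh (UU xc θ) ^ 2).re < 0 := by
      have h1 : 0 < p ^ 2 := by positivity
      have : 0 < 2 * b / Real.pi * p ^ 2 * (I / cosh (UU xc θ) ^ 2).re := by positivity
      linarith only [this]
    linarith only [this, n2, hform2]
  · have : 2 * b' / Real.pi * q ^ 2 * (I / cosh (UU xc' (-θ')) ^ 2).re < 0 := by
      have h1 : 0 < q ^ 2 := by positivity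
      exact mul_neg_of_pos_of_neg (by positivity) t2
    linarith only [this, n1, hform2]

end

end Pool.Agent.S3
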