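import Pool.Agent.H25.RK.DGI
import Pool.Agent.H25.RK.DGf
import Pool.Agent.H63.GO.MTaylor
import Pool.Agent.H63.VC.Asym
import Pool.Agent.H63.VC.EndB
import Pool.Agent.H63.VC.Riem
import Pool.Agent.H63.VC.SlowL
import Pool.Agent.H63.VC.SlowU
import Pool.Agent.H63.VC3.CritB
import Pool.Agent.H63.VC3.Upper
import Pool.Agent.H63.VC4.GaussN
import Pool.Agent.H63.VC4.KBN
import Pool.Agent.H63.VC4.LaplaceN
import Pool.Agent.H63.VC4.UpperN
import Pool.Agent.H63.VC5.Defs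
import Pool.Agent.H63.VC6.LocU
import Pool.Agent.H63.VC6.SlotU
import Pool.Agent.H63.VC7.Link
import Pool.Agent.S3.Asm.Def
import Pool.Agent.S3.Edge
import Pool.Agent.S3.Gr6

/-!
# From curves to polygons
-/

namespace Pool.Agent.S3

open Complex Filter Topology

/-- a polygon with abscissas `t` and heights `h` from `z` to `w` on which `P` holds, `Q` holds for
one of its horizontal sides -/
structure Curve_PC (P : ℂ → Prop) (Q : ℝ → ℝ → ℝ → Prop) (z w : ℂ) (n : ℕ) (t h : ℕ → ℝ) :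
    Prop where
  n1 : 1 ≤ n
  t0 : t 0 = z.re
  tn : t n = w.re
  mono : ∀ i < n, t i ≤ t (i + 1)
  ht : ∀ i < n, |h i| ≤ 1
  hor : ∀ i < n, ∀ x ∈ Set.Icc (t i) (t (i + 1)), P (x + h i * I)
  ver0 : ∀ Y ∈ Set.uIcc z.im (h 0), P (t 0 + Y * I)
  ver : ∀ i, i + 1 < n → ∀ Y ∈ Set.uIcc (h i) (h (i + 1)), P (t (i + 1) + Y * I)
  vern : ∀ Y ∈ Set.uIcc (h (n - 1)) w.im, P (t n + Y * I)
  q : ∃ i < n, Q (t i) (t (i + 1)) (h i)

/-- there is a polygon from `z` to `w` -/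
def Curve_PQ (P : ℂ → Prop) (Q : ℝ → ℝ → ℝ → Prop) (z w : ℂ) : Prop :=
  ∃ (n : ℕ) (t h : ℕ → ℝ), Curve_PC P Q z w n t h

theorem Curve_PC.of_q {P : ℂ → Prop} {Q Q' : ℝ → ℝ → ℝ → Prop} {z w : ℂ} {n : ℕ} {t h : ℕ → ℝ}
    (H : Curve_PC P Q z w n t h) (hq : ∃ i < n, Q' (t i) (t (i + 1)) (h i)) :
    Curve_PC P Q' z w n t h :=
  ⟨H.n1, H.t0, H.tn, H.mono, H.ht, H.hor, H.ver0, H.ver, H.vern, hq⟩

theorem Curve_concat {P : ℂ → Prop} {Q1 Q2 : ℝ → ℝ → ℝ → Prop} {z w u : ℂ}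
    (H1 : Curve_PQ P Q1 z w) (H2 : Curve_PQ P Q2 w u) :
    ∃ (n : ℕ) (t h : ℕ → ℝ), Curve_PC P Q1 z u n t h ∧ Curve_PC P Q2 z u n t h := by
  obtain ⟨n1, t1, h1, A⟩ := H1
  obtain ⟨n2, t2, h2, B⟩ := H2
  have hA1 := A.n1
  have hB1 := B.n1
  obtain ⟨t, ht⟩ : ∃ t : ℕ → ℝ, t = fun i => if i ≤ n1 then t1 i else t2 (i - n1) := ⟨_, rfl⟩
  obtain ⟨h, hh⟩ : ∃ h : ℕ → ℝ, h = fun i => if i < n1 then h1 i else h2 (i - n1) := ⟨_, rfl⟩
  have htl : ∀ i, i ≤ n1 → t i = t1 i := fun i hi => by rw [ht]; exact if_pos hi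
  have htr : ∀ i, n1 ≤ i → t i = t2 (i - n1) := by
    intro i hi
    rcases Nat.eq_or_lt_of_le hi with h' | h'
    · subst h'
      rw [htl _ le_rfl, A.tn, Nat.sub_self, B.t0]
    · rw [ht]
      exact if_neg (by omega)
  have hhl : ∀ i, i < n1 → h i = h1 i := fun i hi => by rw [hh]; exact if_pos hi
  have hhr : ∀ i, n1 ≤ i → h i = h2 (i - n1) := fun i hi => by rw [hh]; exact if_neg (by omega)
  have key : ∀ Q : ℝ → ℝ → ℝ → Prop, (∃ i < n1 + n2, Q (t i) (t (i + 1)) (h i)) →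
      Curve_PC P Q z u (n1 + n2) t h := by
    intro Q hQ
    refine ⟨by omega, ?_, ?_, ?_, ?_, ?_, ?_, ?_, ?_, hQ⟩
    · rw [htl 0 (Nat.zero_le _), A.t0]
    · rw [htr _ (by omega), Nat.add_sub_cancel_left, B.tn]
    · intro i hi
      rcases lt_or_ge i n1 with h' | h'
      · rw [htl i h'.le, htl (i + 1) (by omega)]
        exact A.mono i h'
      · rw [htr i h', htr (i + 1) (by omega), show i + 1 - n1 = i - n1 + 1 by omega]
        exact B.mono _ (by omega)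
    · intro i hi
      rcases lt_or_ge i n1 with h' | h'
      · rw [hhl i h']
        exact A.ht i h'
      · rw [hhr i h']
        exact B.ht _ (by omega)
    · intro i hi x hx
      rcases lt_or_ge i n1 with h' | h'
      · rw [htl i h'.le, htl (i + 1) (by omega)] at hx
        rw [hhl i h']
        exact A.hor i h' x hx
      · rw [htr i h', htr (i + 1) (by omega), show i + 1 - n1 = i - n1 + 1 by omega] at hx
        rw [hhr i h']
        exact B.hor _ (by omega) x hx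
    · intro Y hY
      rw [hhl 0 (by omega)] at hY
      rw [htl 0 (Nat.zero_le _)]
      exact A.ver0 Y hY
    · intro i hi Y hY
      rcases lt_trichotomy (i + 1) n1 with h' | h' | h'
      · rw [hhl i (by omega), hhl (i + 1) h'] at hY
        rw [htl (i + 1) h'.le]
        exact A.ver i h' Y hY
      · rw [hhl i (by omega), hhr (i + 1) (by omega), show i + 1 - n1 = 0 by omega] at hY
        have hi' : i = n1 - 1 := by omega
        have hY' : Y ∈ Set.uIcc (h1 i) w.im ∪ Set.uIcc w.im (h2 0) :=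
          Set.uIcc_subset_uIcc_union_uIcc hY
        rcases hY' with hY' | hY'
        · rw [htl (i + 1) h'.le, h']
          rw [hi'] at hY'
          exact A.vern Y hY'
        · rw [htr (i + 1) h'.ge, show i + 1 - n1 = 0 by omega]
          exact B.ver0 Y hY'
      · rw [hhr i (by omega), hhr (i + 1) (by omega), show i + 1 - n1 = i - n1 + 1 by omega] at hY
        rw [htr (i + 1) (by omega), show i + 1 - n1 = i - n1 + 1 by omega]
        exact B.ver _ (by omega) Y hY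
    · intro Y hY
      rw [hhr (n1 + n2 - 1) (by omega), show n1 + n2 - 1 - n1 = n2 - 1 by omega] at hY
      rw [htr _ (by omega), Nat.add_sub_cancel_left]
      exact B.vern Y hY
  refine ⟨n1 + n2, t, h, key Q1 ?_, key Q2 ?_⟩
  · obtain ⟨i, hi, hq⟩ := A.q
    refine ⟨i, by omega, ?_⟩
    rw [htl i hi.le, htl (i + 1) (by omega), hhl i hi]
    exact hq
  · obtain ⟨i, hi, hq⟩ := B.q
    refine ⟨n1 + i, by omega, ?_⟩
    rw [htr (n1 + i) (by omega), htr (n1 + i + 1) (by omega), hhr (n1 + i) (by omega),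
      show n1 + i + 1 - n1 = i + 1 by omega, Nat.add_sub_cancel_left]
    exact hq

/-- no condition on the sides -/
def Curve_Tr : ℝ → ℝ → ℝ → Prop := fun _ _ _ => True

theorem Curve_trans_left {P : ℂ → Prop} {Q1 Q2 : ℝ → ℝ → ℝ → Prop} {z w u : ℂ}
    (H1 : Curve_PQ P Q1 z w) (H2 : Curve_PQ P Q2 w u) : Curve_PQ P Q1 z u := by
  obtain ⟨n, t, h, H, -⟩ := Curve_concat H1 H2
  exact ⟨n, t, h, H⟩

theorem Curve_trans_right {P : ℂ → Prop} {Q1 Q2 : ℝ → ℝ → ℝ → Prop} {z w u : ℂ}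
    (H1 : Curve_PQ P Q1 z w) (H2 : Curve_PQ P Q2 w u) : Curve_PQ P Q2 z u := by
  obtain ⟨n, t, h, -, H⟩ := Curve_concat H1 H2
  exact ⟨n, t, h, H⟩

/-- one horizontal side at the height `y` -/
theorem Curve_one {P : ℂ → Prop} {Q : ℝ → ℝ → ℝ → Prop} {z w : ℂ} (y : ℝ) (hzw : z.re ≤ w.re)
    (hy : |y| ≤ 1) (h0 : ∀ Y ∈ Set.uIcc z.im y, P (z.re + Y * I))
    (h1 : ∀ x ∈ Set.Icc z.re w.re, P (x + y * I))
    (h2 : ∀ Y ∈ Set.uIcc y w.im, P (w.re + Y * I)) (hQ : Q z.re w.re y) : Curve_PQ P Q z w := by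
  refine ⟨1, fun i => if i = 0 then z.re else w.re, fun _ => y, ?_⟩
  refine ⟨le_rfl, by simp, by simp, ?_, ?_, ?_, ?_, ?_, ?_, ?_⟩
  · intro i hi
    have : i = 0 := by omega
    subst this
    simpa using hzw
  · intro i _
    exact hy
  · intro i hi x hx
    have : i = 0 := by omega
    subst this
    exact h1 x (by simpa using hx)
  · intro Y hY
    simpa using h0 Y hY
  · intro i hi
    omega
  · intro Y hY
    simpa using h2 Y hY
  · exact ⟨0, Nat.one_pos, by simpa using hQ⟩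

/-- two points in an axis-parallel box on which `P` holds -/
theorem Curve_box {P : ℂ → Prop} {z w c : ℂ} {r : ℝ}
    (hP : ∀ v : ℂ, |v.re - c.re| < r → |v.im - c.im| < r → P v) (hzw : z.re ≤ w.re)
    (hz1 : |z.re - c.re| < r) (hz2 : |z.im - c.im| < r) (hw1 : |w.re - c.re| < r)
    (hw2 : |w.im - c.im| < r) (hy : |z.im| ≤ 1) : Curve_PQ P Curve_Tr z w := by
  rw [abs_lt] at hz1 hz2 hw1 hw2
  refine Curve_one z.im hzw hy ?_ ?_ ?_ trivial
  · intro Y hY
    rw [Set.uIcc_self, Set.mem_singleton_iff] at hY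
    subst hY
    refine hP _ ?_ ?_ <;> rw [abs_lt] <;> simp <;> constructor <;> linarith
  · intro x hx
    refine hP _ ?_ ?_ <;> rw [abs_lt] <;> simp <;> constructor <;> linarith [hx.1, hx.2]
  · intro Y hY
    rw [Set.mem_uIcc] at hY
    refine hP _ ?_ ?_ <;> rw [abs_lt] <;> simp <;> constructor <;>
      rcases hY with hY | hY <;> linarith [hY.1, hY.2]

theorem Curve_box_of_open {P : ℂ → Prop} (hP : IsOpen {v | P v}) {c : ℂ} (hc : P c) :
    ∃ r : ℝ, 0 < r ∧ ∀ v : ℂ, |v.re - c.re| < r → |v.im - c.im| < r → P v := by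
  obtain ⟨ε, hε, h⟩ := Metric.isOpen_iff.1 hP c hc
  refine ⟨ε / 2, by positivity, fun v h1 h2 => ?_⟩
  apply h
  rw [Metric.mem_ball, dist_eq_norm]
  have := Complex.norm_le_abs_re_add_abs_im (v - c)
  rw [sub_re, sub_im] at this
  linarith

/-- a curve inside an open set can be replaced by a polygon -/
theorem Curve_follow {P : ℂ → Prop} (hP : IsOpen {v | P v}) {c : ℝ → ℂ} {a b : ℝ} (hab : a ≤ b)
    (hc : ContinuousOn c (Set.Icc a b)) (hmono : MonotoneOn (fun s => (c s).re) (Set.Icc a b))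
    (him : ∀ s ∈ Set.Icc a b, |(c s).im| ≤ 1) (hE : ∀ s ∈ Set.Icc a b, P (c s)) :
    Curve_PQ P Curve_Tr (c a) (c b) := by
  -- an open cover of the interval
  have hcov : ∀ s : Set.Icc a b, ∃ r : ℝ, 0 < r ∧
      ∀ v : ℂ, |v.re - (c s).re| < r → |v.im - (c s).im| < r → P v := fun s =>
    Curve_box_of_open hP (hE s s.2)
  choose r hr0 hr using hcov
  have hcr : ContinuousOn (fun s => (c s).re) (Set.Icc a b) :=
    Complex.continuous_re.comp_continuousOn hc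
  have hci : ContinuousOn (fun s => (c s).im) (Set.Icc a b) :=
    Complex.continuous_im.comp_continuousOn hc
  have hc1 : ∀ s : Set.Icc a b, IsOpen {x : Set.Icc a b | |(c x).re - (c s).re| < r s ∧
      |(c x).im - (c s).im| < r s} := by
    intro s
    have h1 : Continuous fun x : Set.Icc a b => (c x).re := continuousOn_iff_continuous_domRestrict.1 hcr
    have h2 : Continuous fun x : Set.Icc a b => (c x).im := continuousOn_iff_continuous_domRestrict.1 hci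
    exact (isOpen_lt ((h1.sub continuous_const).abs) continuous_const).inter
      (isOpen_lt ((h2.sub continuous_const).abs) continuous_const)
  have hc2 : Set.univ ⊆ ⋃ s : Set.Icc a b, {x : Set.Icc a b | |(c x).re - (c s).re| < r s ∧
      |(c x).im - (c s).im| < r s} := by
    intro s _
    refine Set.mem_iUnion.2 ⟨s, ?_⟩
    simp [hr0 s]
  obtain ⟨t, ht0, htm, ⟨N, hN⟩, ht⟩ := exists_monotone_Icc_subset_open_cover_Icc hab hc1 hc2
  have key : ∀ n, Curve_PQ P Curve_Tr (c (t 0)) (c (t n)) := by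
    intro n
    induction n with
    | zero =>
      obtain ⟨s, hs⟩ := ht 0
      have h0 := hs (Set.left_mem_Icc.2 (htm (Nat.zero_le 1)))
      exact Curve_box (hr s) le_rfl h0.1 h0.2 h0.1 h0.2 (him _ (t 0).2)
    | succ n ih =>
      obtain ⟨s, hs⟩ := ht n
      have h0 := hs (Set.left_mem_Icc.2 (htm (Nat.le_succ n)))
      have h1 := hs (Set.right_mem_Icc.2 (htm (Nat.le_succ n)))
      exact Curve_trans_left ih (Curve_box (hr s) (hmono (t n).2 (t (n + 1)).2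
        (htm (Nat.le_succ n))) h0.1 h0.2 h1.1 h1.2 (him _ (t n).2))
  have h := key N
  rw [ht0, hN N le_rfl] at h
  exact h

theorem Curve_se_cont (σ : Sl) : Continuous fun y => se y σ := by
  have h := Rf_continuous
  cases σ with
  | op v =>
    show Continuous fun y => 2 * Rf (y + 1 / 2) - Rf (y - v) - Rf (y + v)
    fun_prop
  | cl s =>
    show Continuous fun y => Rf (y + 1 / 2) + Real.pi * s * (y.im * (1 - y.re))
    fun_prop

theorem Curve_EE_cont (σ τ : Sl) : Continuous fun y => EE σ τ y :=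
  (Curve_se_cont σ).add (Curve_se_cont τ)

theorem Curve_Rf_one : Rf 1 = 0 := by
  have h1 := Rf_one_sub 0
  have h2 := Rf_add_one 0
  rw [sub_zero] at h1
  rw [zero_add] at h2
  simp at h2
  linarith

theorem Curve_se_half (σ : Sl) : se (1 / 2) σ = 0 := by
  cases σ with
  | op v =>
    show 2 * Rf (1 / 2 + 1 / 2) - Rf (1 / 2 - v) - Rf (1 / 2 + v) = 0
    have h1 := Rf_one_sub (1 / 2 + v)
    rw [show (1 : ℂ) - (1 / 2 + v) = 1 / 2 - v by ring] at h1
    rw [show (1 / 2 : ℂ) + 1 / 2 = 1 by norm_num, Curve_Rf_one, h1]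
    ring
  | cl s =>
    show Rf (1 / 2 + 1 / 2) + Real.pi * s * ((1 / 2 : ℂ).im * (1 - (1 / 2 : ℂ).re)) = 0
    rw [show (1 / 2 : ℂ) + 1 / 2 = 1 by norm_num, Curve_Rf_one]
    norm_num

theorem Curve_EE_half (σ τ : Sl) : EE σ τ (1 / 2) = 0 := by
  rw [EE, Curve_se_half, Curve_se_half, add_zero]

/-- the end of the polygon -/
theorem Curve_end {P : ℂ → Prop} (hP : IsOpen {v | P v}) (hP2 : P (1 / 2)) {c : ℝ → ℂ}
    (hmono : MonotoneOn (fun s => (c s).re) (Set.Ici 0))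
    (him : ∀ s, 0 ≤ s → |(c s).im| ≤ 1) (hlim : Tendsto c atTop (𝓝 (1 / 2))) (a : ℝ) :
    ∃ S : ℝ, a ≤ S ∧ 0 ≤ S ∧ Curve_PQ P Curve_Tr (c S) (1 / 2) := by
  obtain ⟨r, hr0, hr⟩ := Curve_box_of_open hP hP2
  have hre : Tendsto (fun s => (c s).re) atTop (𝓝 (1 / 2 : ℂ).re) :=
    (Complex.continuous_re.tendsto _).comp hlim
  have him' : Tendsto (fun s => (c s).im) atTop (𝓝 (1 / 2 : ℂ).im) :=
    (Complex.continuous_im.tendsto _).comp hlim
  have e1 : ∀ᶠ s in atTop, |(c s).re - (1 / 2 : ℂ).re| < r := by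
    have := (Metric.tendsto_nhds.1 hre) r hr0
    simpa [Real.dist_eq] using this
  have e2 : ∀ᶠ s in atTop, |(c s).im - (1 / 2 : ℂ).im| < r := by
    have := (Metric.tendsto_nhds.1 him') r hr0
    simpa [Real.dist_eq] using this
  obtain ⟨S, h1, h2, h3, h4⟩ := (e1.and (e2.and ((eventually_ge_atTop a).and
    (eventually_ge_atTop 0)))).exists
  have hle : (c S).re ≤ (1 / 2 : ℂ).re := by
    refine ge_of_tendsto hre ?_
    filter_upwards [eventually_ge_atTop S] with s hs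
    exact hmono h4 (h4.trans hs) hs
  refine ⟨S, h3, h4, Curve_box hr hle h1 h2 ?_ ?_ (him S h4)⟩
  · simpa using hr0
  · simpa using hr0

theorem Curve_final {P : ℂ → Prop} {Q : ℝ → ℝ → ℝ → Prop} (H : Curve_PQ P Q 0 (1 / 2)) :
    ∃ (n : ℕ) (t h : ℕ → ℝ), Pgn n t h ∧ PolOn n t h P ∧
      ∃ i < n, Q (t i) (t (i + 1)) (h i) := by
  obtain ⟨n, t, h, H⟩ := H
  refine ⟨n, t, h, ⟨H.n1, ?_, ?_, H.mono, H.ht⟩, ⟨H.hor, ?_, H.ver, ?_⟩, H.q⟩
  · rw [H.t0, zero_re]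
  · rw [H.tn]
    norm_num
  · have := H.ver0
    rwa [zero_im] at this
  · have := H.vern
    have e : (1 / 2 : ℂ).im = 0 := by norm_num
    rwa [e] at this

section Curve_deriv

open Pool.Agent.H63.VC hiding ext
open Pool.Agent.H63.VC3 Pool.Agent.H63.VC4 Pool.Agent.H63.VC6 Pool.Agent.H63.VC7 Complex
open Pool.Agent.H25.RK

theorem Curve_sP_deriv {y : ℂ} {σ : Sl} (h : sdom y σ) :
    HasDerivAt (fun y => sP y σ) (ey y σ) y := by
  cases σ with
  | op v =>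
    obtain ⟨h0, h1, h2, h3⟩ := h
    have hs := Pot_shift h0 h1
    have e1 : HasDerivAt (fun y : ℂ => ff (y + 1 / 2)) (hh (y + 1 / 2)) y :=
      HasDerivAt.comp_add_const y (1 / 2) (ff_hasDerivAt _ hs.1 hs.2)
    have e2 : HasDerivAt (fun y : ℂ => fe (y - v)) (he (y - v)) y :=
      HasDerivAt.comp_sub_const y v (fe_hasDerivAt h2)
    have e3 : HasDerivAt (fun y : ℂ => fe (y + v)) (he (y + v)) y :=
      HasDerivAt.comp_add_const y v (fe_hasDerivAt h3)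
    exact ((e1.const_mul 2).sub e2).sub e3
  | cl s =>
    obtain ⟨h0, h1⟩ := h
    have hs := Pot_shift h0 h1
    have e1 : HasDerivAt (fun y : ℂ => ff (y + 1 / 2)) (hh (y + 1 / 2)) y :=
      HasDerivAt.comp_add_const y (1 / 2) (ff_hasDerivAt _ hs.1 hs.2)
    have e2 : HasDerivAt (fun y : ℂ => y - y ^ 2 / 2 - 7 / 8) (1 - y) y := by
      have h5 := ((hasDerivAt_id y).sub (((hasDerivAt_id y).pow 2).div_const 2)).sub_const (7 / 8)
      refine h5.congr_deriv ?_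
      simp
    exact e1.sub (e2.const_mul (Real.pi * I * s))

theorem Curve_ey_deriv {y : ℂ} {σ : Sl} (h : sdom y σ) :
    HasDerivAt (fun y => ey y σ) (eyy y σ) y := by
  cases σ with
  | op v =>
    obtain ⟨h0, h1, h2, h3⟩ := h
    have hs := Pot_shift h0 h1
    have e1 : HasDerivAt (fun y : ℂ => hh (y + 1 / 2)) (ct (y + 1 / 2)) y :=
      HasDerivAt.comp_add_const y (1 / 2) (Pot_hh_deriv hs.1 hs.2)
    have e2 : HasDerivAt (fun y : ℂ => he (y - v)) (ct (y - v)) y :=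
      HasDerivAt.comp_sub_const y v (he_hasDerivAt h2)
    have e3 : HasDerivAt (fun y : ℂ => he (y + v)) (ct (y + v)) y :=
      HasDerivAt.comp_add_const y v (he_hasDerivAt h3)
    exact ((e1.const_mul 2).sub e2).sub e3
  | cl s =>
    obtain ⟨h0, h1⟩ := h
    have hs := Pot_shift h0 h1
    have e1 : HasDerivAt (fun y : ℂ => hh (y + 1 / 2)) (ct (y + 1 / 2)) y :=
      HasDerivAt.comp_add_const y (1 / 2) (Pot_hh_deriv hs.1 hs.2)
    have e2 : HasDerivAt (fun y : ℂ => 1 - y) (-1) y := (hasDerivAt_id y).const_sub 1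
    have e3 := e1.sub (e2.const_mul (Real.pi * I * s : ℂ))
    refine e3.congr_deriv ?_
    show ct (y + 1 / 2) - Real.pi * I * s * -1 = ct (y + 1 / 2) + Real.pi * I * s
    ring

theorem Curve_sdom_open (σ : Sl) : IsOpen {y | sdom y σ} := by
  have h0 : IsOpen {y : ℂ | 0 < y.re ∧ y.re < 1 / 2} :=
    (isOpen_lt continuous_const Complex.continuous_re).inter
      (isOpen_lt Complex.continuous_re continuous_const)
  cases σ with
  | op v =>
    have h1 : IsOpen {y : ℂ | fdom (y - v)} := fdom_open.preimage (by fun_prop)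
    have h2 : IsOpen {y : ℂ | fdom (y + v)} := fdom_open.preimage (by fun_prop)
    have h3 := (h0.inter h1).inter h2
    convert h3 using 1
    ext y
    constructor
    · rintro ⟨a, b, c, d⟩
      exact ⟨⟨⟨a, b⟩, c⟩, d⟩
    · rintro ⟨⟨⟨a, b⟩, c⟩, d⟩
      exact ⟨a, b, c, d⟩
  | cl s => exact h0

theorem Curve_se_eq {y : ℂ} {σ : Sl} (h : sdom y σ) : se y σ = (sP y σ).re := by
  cases σ with
  | op v =>
    obtain ⟨h0, h1, h2, h3⟩ := h
    have hs := Pot_shift h0 h1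
    show 2 * Rf (y + 1 / 2) - Rf (y - v) - Rf (y + v) =
      (2 * ff (y + 1 / 2) - fe (y - v) - fe (y + v)).re
    rw [Rf_eq_ff hs.1 hs.2, Rf_eq_fe h2, Rf_eq_fe h3, sub_re, sub_re, mul_re]
    norm_num
  | cl s =>
    obtain ⟨h0, h1⟩ := h
    have hs := Pot_shift h0 h1
    show Rf (y + 1 / 2) + Real.pi * s * (y.im * (1 - y.re)) =
      (ff (y + 1 / 2) - Real.pi * I * s * (y - y ^ 2 / 2 - 7 / 8)).re
    have e : (Real.pi * I * s * (y - y ^ 2 / 2 - 7 / 8) : ℂ).re =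
        -(Real.pi * s * (y.im * (1 - y.re))) := by
      have e1 : (Real.pi * I * s * (y - y ^ 2 / 2 - 7 / 8) : ℂ) =
          ((Real.pi * s : ℝ) : ℂ) * (I * (y - y ^ 2 / 2 - 7 / 8)) := by
        push_cast
        ring
      have e2 : (y - y ^ 2 / 2 - 7 / 8 : ℂ).im = y.im * (1 - y.re) := by
        have e3 : (y - y ^ 2 / 2 - 7 / 8 : ℂ) = y - ((1 / 2 : ℝ) : ℂ) * y ^ 2 - ((7 / 8 : ℝ) : ℂ) := by
          push_cast
          ring
        rw [e3, sub_im, sub_im, im_ofReal_mul, ofReal_im, pow_two, mul_im]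
        ring
      rw [e1, re_ofReal_mul, mul_re, I_re, I_im, e2]
      ring
    rw [Rf_eq_ff hs.1 hs.2, sub_re, e]
    ring

/-- the growth near a critical point -/
theorem Curve_taylor {σ τ : Sl} {yc : ℂ} (hdσ : sdom yc σ) (hdτ : sdom yc τ)
    (hcrit : ey yc σ + ey yc τ = 0) {ε : ℝ} (hε : 0 < ε) :
    ∃ δ : ℝ, 0 < δ ∧ ∀ w : ℂ, ‖w‖ < δ →
      EE σ τ (yc + w) ≤ EE σ τ yc + ((eyy yc σ + eyy yc τ) * w ^ 2).re / 2 + ε * ‖w‖ ^ 2 := by
  obtain ⟨A, hA⟩ : ∃ A : ℂ, A = eyy yc σ + eyy yc τ := ⟨_, rfl⟩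
  rw [← hA]
  have hopen : IsOpen {y | sdom y σ ∧ sdom y τ} := (Curve_sdom_open σ).inter (Curve_sdom_open τ)
  obtain ⟨δ1, hδ1, hball⟩ := Metric.isOpen_iff.1 hopen yc ⟨hdσ, hdτ⟩
  -- the derivative
  have hd : HasDerivAt (fun y => ey y σ + ey y τ) A yc := by
    rw [hA]
    exact (Curve_ey_deriv hdσ).add (Curve_ey_deriv hdτ)
  have hlo := hd.isLittleO
  rw [Asymptotics.isLittleO_iff] at hlo
  have h1 := hlo hε
  rw [Metric.eventually_nhds_iff] at h1
  obtain ⟨δ2, hδ2, h2⟩ := h1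
  refine ⟨min δ1 δ2, lt_min hδ1 hδ2, fun w hw => ?_⟩
  have hw1 : ‖w‖ < δ1 := hw.trans_le (min_le_left _ _)
  have hw2 : ‖w‖ < δ2 := hw.trans_le (min_le_right _ _)
  have hdom : ∀ v : ℂ, ‖v‖ ≤ ‖w‖ → sdom (yc + v) σ ∧ sdom (yc + v) τ := by
    intro v hv
    apply hball
    rw [Metric.mem_ball, dist_eq_norm, add_sub_cancel_left]
    exact hv.trans_lt hw1
  -- the function
  obtain ⟨K, hK⟩ : ∃ K : ℂ → ℂ, K = fun v => sP (yc + v) σ + sP (yc + v) τ - A * v ^ 2 / 2 :=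
    ⟨_, rfl⟩
  have hKd : ∀ v ∈ Metric.closedBall (0 : ℂ) ‖w‖,
      HasDerivWithinAt K (ey (yc + v) σ + ey (yc + v) τ - A * v) (Metric.closedBall (0 : ℂ) ‖w‖) v := by
    intro v hv
    rw [mem_closedBall_zero_iff] at hv
    obtain ⟨a, b⟩ := hdom v hv
    have e1 : HasDerivAt (fun v : ℂ => sP (yc + v) σ) (ey (yc + v) σ) v :=
      HasDerivAt.comp_const_add yc v (Curve_sP_deriv a)
    have e2 : HasDerivAt (fun v : ℂ => sP (yc + v) τ) (ey (yc + v) τ) v :=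
      HasDerivAt.comp_const_add yc v (Curve_sP_deriv b)
    have e3 : HasDerivAt (fun v : ℂ => A * v ^ 2 / 2) (A * v) v := by
      have h5 := (((hasDerivAt_id v).pow 2).const_mul A).div_const 2
      refine h5.congr_deriv ?_
      simp
      ring
    rw [hK]
    exact ((e1.add e2).sub e3).hasDerivWithinAt
  have hKb : ∀ v ∈ Metric.closedBall (0 : ℂ) ‖w‖,
      ‖ey (yc + v) σ + ey (yc + v) τ - A * v‖ ≤ ε * ‖w‖ := by
    intro v hv
    rw [mem_closedBall_zero_iff] at hv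
    have h3 := h2 (y := yc + v) (by
      rw [dist_eq_norm, add_sub_cancel_left]
      exact hv.trans_lt hw2)
    rw [hcrit, sub_zero, add_sub_cancel_left, smul_eq_mul, mul_comm v A] at h3
    exact h3.trans (mul_le_mul_of_nonneg_left hv hε.le)
  have hmv := (convex_closedBall (0 : ℂ) ‖w‖).norm_image_sub_le_of_norm_hasDerivWithin_le
    hKd hKb (x := 0) (y := w) (by simp) (by simp)
  rw [sub_zero] at hmv
  have e0 : K 0 = sP yc σ + sP yc τ := by
    rw [hK]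
    simp
  have e1 : K w = sP (yc + w) σ + sP (yc + w) τ - A * w ^ 2 / 2 := by rw [hK]
  rw [e0, e1] at hmv
  have hre := (Complex.abs_re_le_norm _).trans hmv
  have hre2 := (abs_le.1 hre).2
  obtain ⟨a, b⟩ := hdom w le_rfl
  have e2 : EE σ τ (yc + w) = (sP (yc + w) σ).re + (sP (yc + w) τ).re := by
    rw [EE, Curve_se_eq a, Curve_se_eq b]
  have e3 : EE σ τ yc = (sP yc σ).re + (sP yc τ).re := by
    rw [EE, Curve_se_eq hdσ, Curve_se_eq hdτ]
  have e4 : (A * w ^ 2 / 2).re = (A * w ^ 2).re / 2 := by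
    rw [show A * w ^ 2 / 2 = ((1 / 2 : ℝ) : ℂ) * (A * w ^ 2) by push_cast; ring, re_ofReal_mul]
    ring
  simp only [sub_re, add_re, e4] at hre2
  rw [e2, e3]
  nlinarith

end Curve_deriv

/-- directions near `c'` -/
theorem Curve_cone {A c' : ℂ} (hA : A.re < 0) (hA' : (A * c' ^ 2).re < 0) (hre : 0 < c'.re) :
    ∃ κ : ℝ, 0 < κ ∧ ∃ ρ : ℝ, 0 < ρ ∧ ∀ u : ℂ, ‖u - c'‖ ≤ ρ →
      0 < u.re ∧ ‖u‖ ≤ ‖c'‖ + 1 ∧ A.re * u.re ^ 2 ≤ -κ ∧ (A * u ^ 2).re ≤ -κ := by
  obtain ⟨κ, hκ⟩ : ∃ κ : ℝ, κ = min (-(A.re * c'.re ^ 2)) (-(A * c' ^ 2).re) / 2 := ⟨_, rfl⟩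
  have h1 : 0 < -(A.re * c'.re ^ 2) := by
    have := pow_pos hre 2
    nlinarith
  have hκ0 : 0 < κ := by
    rw [hκ]
    have := lt_min h1 (neg_pos.2 hA')
    positivity
  have e1 : A.re * c'.re ^ 2 < -κ := by
    have := min_le_left (-(A.re * c'.re ^ 2)) (-(A * c' ^ 2).re)
    have h3 : κ < -(A.re * c'.re ^ 2) := by linarith
    linarith
  have e2 : (A * c' ^ 2).re < -κ := by
    have := min_le_right (-(A.re * c'.re ^ 2)) (-(A * c' ^ 2).re)
    have h3 : κ < -(A * c' ^ 2).re := by linarith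
    linarith
  have c1 : Continuous fun u : ℂ => u.re := Complex.continuous_re
  have c2 : Continuous fun u : ℂ => A.re * u.re ^ 2 := by fun_prop
  have c3 : Continuous fun u : ℂ => (A * u ^ 2).re := by fun_prop
  have c4 : Continuous fun u : ℂ => ‖u‖ := by fun_prop
  have f1 : ∀ᶠ u in 𝓝 c', 0 < u.re := (isOpen_lt continuous_const c1).mem_nhds hre
  have f2 : ∀ᶠ u in 𝓝 c', ‖u‖ < ‖c'‖ + 1 := (isOpen_lt c4 continuous_const).mem_nhds (by
    show ‖c'‖ < ‖c'‖ + 1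
    linarith)
  have f3 : ∀ᶠ u in 𝓝 c', A.re * u.re ^ 2 < -κ := (isOpen_lt c2 continuous_const).mem_nhds e1
  have f4 : ∀ᶠ u in 𝓝 c', (A * u ^ 2).re < -κ := (isOpen_lt c3 continuous_const).mem_nhds e2
  have hev : ∀ᶠ u in 𝓝 c', 0 < u.re ∧ ‖u‖ < ‖c'‖ + 1 ∧ A.re * u.re ^ 2 < -κ ∧
      (A * u ^ 2).re < -κ := f1.and (f2.and (f3.and f4))
  rw [Metric.eventually_nhds_iff] at hev
  obtain ⟨ρ, hρ, h⟩ := hev
  refine ⟨κ, hκ0, ρ / 2, by positivity, fun u hu => ?_⟩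
  obtain ⟨a, b, c, d⟩ := h (y := u) (by rw [dist_eq_norm]; linarith)
  exact ⟨a, b.le, c.le, d.le⟩

/-- convexity between the directions `u.re` and `u` -/
theorem Curve_conv {A u : ℂ} {κ l : ℝ} (hA : A.re < 0) (h0 : A.re * u.re ^ 2 ≤ -κ)
    (h1 : (A * u ^ 2).re ≤ -κ) (hl0 : 0 ≤ l) (hl1 : l ≤ 1) :
    (A * ((u.re : ℂ) + (l * u.im : ℝ) * I) ^ 2).re ≤ -κ := by
  have e : ∀ x y : ℝ, (A * ((x : ℂ) + (y : ℝ) * I) ^ 2).re =
      A.re * (x ^ 2 - y ^ 2) - 2 * x * y * A.im := by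
    intro x y
    simp only [pow_two, mul_re, add_re, ofReal_re, I_re, ofReal_im, I_im, add_im, mul_im]
    ring
  have e1 : (A * u ^ 2).re = A.re * (u.re ^ 2 - u.im ^ 2) - 2 * u.re * u.im * A.im := by
    have := e u.re u.im
    rwa [Complex.re_add_im] at this
  rw [e1] at h1
  rw [e]
  -- `f(l) ≤ (1 - l) f(0) + l f(1)`
  have h2 : 0 ≤ (l - l ^ 2) * (-A.re * u.im ^ 2) := by
    apply mul_nonneg
    · nlinarith
    · have := sq_nonneg u.im
      nlinarith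
  nlinarith [mul_le_mul_of_nonneg_left h0 (sub_nonneg.2 hl1), mul_le_mul_of_nonneg_left h1 hl0]

theorem Curve_PQ.mono {P P' : ℂ → Prop} {Q : ℝ → ℝ → ℝ → Prop} {z w : ℂ}
    (h : ∀ v, P v → P' v) (H : Curve_PQ P Q z w) : Curve_PQ P' Q z w := by
  obtain ⟨n, t, h', H⟩ := H
  exact ⟨n, t, h', H.n1, H.t0, H.tn, H.mono, H.ht, fun i hi x hx => h _ (H.hor i hi x hx),
    fun Y hY => h _ (H.ver0 Y hY), fun i hi Y hY => h _ (H.ver i hi Y hY),
    fun Y hY => h _ (H.vern Y hY), H.q⟩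

/-- the double sector at the critical point -/
theorem Curve_local {σ τ : Sl} {L : ℝ} {yc c' : ℂ} (hre : 0 < c'.re) (hEc : EE σ τ yc = L)
    (hdσ : sdom yc σ) (hdτ : sdom yc τ) (hcrit : ey yc σ + ey yc τ = 0)
    (hA : (eyy yc σ + eyy yc τ).re < 0) (hA' : ((eyy yc σ + eyy yc τ) * c' ^ 2).re < 0) :
    ∃ e0 : ℝ, 0 < e0 ∧ ∃ ρ : ℝ, 0 < ρ ∧ ∀ e : ℝ, e ≠ 0 → |e| < e0 → ∀ z : ℂ,
      ‖z - yc - e * c'‖ ≤ ρ * |e| →
      0 < (z.re - yc.re) * e ∧
      (∀ Y ∈ Set.uIcc z.im yc.im, EE σ τ (z.re + Y * I) < L) ∧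
      (∀ x ∈ Set.uIcc z.re yc.re, x ≠ yc.re → EE σ τ (x + yc.im * I) < L) := by
  obtain ⟨A, hAe⟩ : ∃ A : ℂ, A = eyy yc σ + eyy yc τ := ⟨_, rfl⟩
  rw [← hAe] at hA hA'
  obtain ⟨κ, hκ, ρ, hρ, hcone⟩ := Curve_cone hA hA' hre
  obtain ⟨R, hR⟩ : ∃ R : ℝ, R = ‖c'‖ + 1 := ⟨_, rfl⟩
  have hR0 : 0 < R := by rw [hR]; positivity
  obtain ⟨ε, hε⟩ : ∃ ε : ℝ, ε = min (κ / (4 * R ^ 2)) (-A.re / 4) := ⟨_, rfl⟩
  have hε0 : 0 < ε := by
    rw [hε]
    exact lt_min (by positivity) (by linarith)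
  have hε1 : ε * R ^ 2 ≤ κ / 4 := by
    have h1 : ε ≤ κ / (4 * R ^ 2) := by rw [hε]; exact min_le_left _ _
    calc ε * R ^ 2 ≤ κ / (4 * R ^ 2) * R ^ 2 := mul_le_mul_of_nonneg_right h1 (by positivity)
      _ = κ / 4 := by field_simp
  have hε2 : ε ≤ -A.re / 4 := by rw [hε]; exact min_le_right _ _
  obtain ⟨δ, hδ, htay⟩ := Curve_taylor hdσ hdτ hcrit hε0
  rw [← hAe, hEc] at htay
  refine ⟨δ / R, by positivity, ρ, hρ, fun e he0 he z hz => ?_⟩
  obtain ⟨u, hu⟩ : ∃ u : ℂ, u = (z - yc) / e := ⟨_, rfl⟩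
  have he0' : (e : ℂ) ≠ 0 := by exact_mod_cast he0
  have hzu : z = yc + e * u := by
    rw [hu]
    field_simp
    ring
  have hu' : ‖u - c'‖ ≤ ρ := by
    have h1 : z - yc - e * c' = e * (u - c') := by rw [hzu]; ring
    rw [h1, norm_mul, Complex.norm_real, Real.norm_eq_abs, mul_comm ρ] at hz
    exact le_of_mul_le_mul_left hz (abs_pos.2 he0)
  obtain ⟨hu0, hu1, hu2, hu3⟩ := hcone u hu'
  rw [← hR] at hu1
  have hzr : z.re = yc.re + e * u.re := by rw [hzu, add_re, re_ofReal_mul]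
  have hzi : z.im = yc.im + e * u.im := by rw [hzu, add_im, im_ofReal_mul]
  have hsmall : |e| * R < δ := by
    rw [lt_div_iff₀ hR0] at he
    exact he
  have he2 : 0 < e ^ 2 := by positivity
  refine ⟨?_, ?_, ?_⟩
  · rw [hzr]
    have : 0 < e ^ 2 * u.re := by positivity
    nlinarith
  · intro Y hY
    -- `Y = yc.im + l e u.im`
    obtain ⟨l, hl0, hl1, hl⟩ : ∃ l : ℝ, 0 ≤ l ∧ l ≤ 1 ∧ Y = yc.im + l * (e * u.im) := by
      rw [← segment_eq_uIcc, segment_eq_image'] at hY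
      obtain ⟨m, hm, hm'⟩ := hY
      refine ⟨1 - m, by linarith [hm.2], by linarith [hm.1], ?_⟩
      rw [← hm', hzi]
      show yc.im + e * u.im + m * (yc.im - (yc.im + e * u.im)) = yc.im + (1 - m) * (e * u.im)
      ring
    have e1 : ((z.re : ℂ) + Y * I) = yc + e * ((u.re : ℂ) + (l * u.im : ℝ) * I) := by
      apply Complex.ext
      · simp [hzr]
      · simp [hl]
        ring
    have hconv := Curve_conv hA hu2 hu3 hl0 hl1
    obtain ⟨x, hx⟩ : ∃ x : ℂ, x = (u.re : ℂ) + (l * u.im : ℝ) * I := ⟨_, rfl⟩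
    rw [← hx] at hconv e1
    have hxR : ‖x‖ ≤ R := by
      have h3 : ‖x‖ ^ 2 ≤ ‖u‖ ^ 2 := by
        rw [← Complex.normSq_eq_norm_sq, ← Complex.normSq_eq_norm_sq, normSq_apply, normSq_apply]
        have hxr : x.re = u.re := by rw [hx]; simp
        have hxi : x.im = l * u.im := by rw [hx]; simp
        rw [hxr, hxi]
        have : l * l ≤ 1 := by nlinarith
        nlinarith [mul_self_nonneg u.im]
      have h4 : ‖x‖ ≤ ‖u‖ := by
        exact le_of_sq_le_sq h3 (norm_nonneg _)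
      exact h4.trans hu1
    have hn : ‖(e : ℂ) * x‖ ≤ |e| * R := by
      rw [norm_mul, Complex.norm_real, Real.norm_eq_abs]
      exact mul_le_mul_of_nonneg_left hxR (abs_nonneg _)
    have h5 := htay (e * x) (hn.trans_lt hsmall)
    rw [e1]
    have e2 : (A * (e * x) ^ 2).re = e ^ 2 * (A * x ^ 2).re := by
      rw [show A * (e * x) ^ 2 = ((e ^ 2 : ℝ) : ℂ) * (A * x ^ 2) by push_cast; ring, re_ofReal_mul]
    have e3 : ‖(e : ℂ) * x‖ ^ 2 = e ^ 2 * ‖x‖ ^ 2 := by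
      rw [norm_mul, Complex.norm_real, Real.norm_eq_abs, mul_pow, sq_abs]
    rw [e2, e3] at h5
    have h6 : ‖x‖ ^ 2 ≤ R ^ 2 := pow_le_pow_left₀ (norm_nonneg _) hxR 2
    have h7 : e ^ 2 * (A * x ^ 2).re ≤ e ^ 2 * (-κ) := mul_le_mul_of_nonneg_left hconv he2.le
    have h8 : ε * (e ^ 2 * ‖x‖ ^ 2) ≤ e ^ 2 * (κ / 4) := by
      calc ε * (e ^ 2 * ‖x‖ ^ 2) = e ^ 2 * (ε * ‖x‖ ^ 2) := by ring
        _ ≤ e ^ 2 * (ε * R ^ 2) := mul_le_mul_of_nonneg_left
            (mul_le_mul_of_nonneg_left h6 hε0.le) he2.le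
        _ ≤ e ^ 2 * (κ / 4) := mul_le_mul_of_nonneg_left hε1 he2.le
    have h9 : 0 < e ^ 2 * κ := by positivity
    nlinarith
  · intro x hx hxne
    obtain ⟨d, hd⟩ : ∃ d : ℝ, x = yc.re + d := ⟨x - yc.re, by ring⟩
    have hd0 : d ≠ 0 := by
      intro h
      apply hxne
      rw [hd, h, add_zero]
    have hdle : |d| ≤ |e| * u.re := by
      have h3 : |x - yc.re| ≤ |z.re - yc.re| := by
        have := Set.abs_sub_left_of_mem_uIcc (a := yc.re) (b := z.re) (c := x)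
          (by rwa [Set.uIcc_comm])
        exact this
      rw [hd, hzr, add_sub_cancel_left, add_sub_cancel_left, abs_mul, abs_of_pos hu0] at h3
      exact h3
    have e1 : ((x : ℂ) + yc.im * I) = yc + (d : ℂ) := by
      apply Complex.ext
      · simp [hd]
      · simp
    have hn : ‖(d : ℂ)‖ < δ := by
      rw [Complex.norm_real, Real.norm_eq_abs]
      have h3 : u.re ≤ R := (Complex.re_le_norm u).trans hu1
      calc |d| ≤ |e| * u.re := hdle
        _ ≤ |e| * R := mul_le_mul_of_nonneg_left h3 (abs_nonneg _)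
        _ < δ := hsmall
    have h5 := htay d hn
    rw [e1]
    have e2 : (A * (d : ℂ) ^ 2).re = d ^ 2 * A.re := by
      rw [show A * (d : ℂ) ^ 2 = ((d ^ 2 : ℝ) : ℂ) * A by push_cast; ring, re_ofReal_mul]
    rw [e2, Complex.norm_real, Real.norm_eq_abs, sq_abs] at h5
    have hd2 : 0 < d ^ 2 := by positivity
    have h6 : ε * d ^ 2 ≤ -A.re / 4 * d ^ 2 := mul_le_mul_of_nonneg_right hε2 hd2.le
    nlinarith

/-- A curve with growth less than `L` can be replaced by a polygon. -/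
theorem EdgeOK_of_curve {σ τ : Sl} {L : ℝ} (c : ℝ → ℂ) (hc : ContinuousOn c (Set.Ici 0))
    (h0 : c 0 = 0) (hmono : MonotoneOn (fun s => (c s).re) (Set.Ici 0))
    (him : ∀ s, 0 ≤ s → |(c s).im| ≤ 1) (hlim : Tendsto c atTop (𝓝 (1 / 2)))
    (hB : B0 σ + B0 τ < L) (hmid : ∀ y ∈ Set.Icc (-(1 / 10) : ℝ) 0, EE σ τ y < L) (hL : 0 < L)
    (hE : ∀ s, 0 ≤ s → EE σ τ (c s) < L) : EdgeOK σ τ L := by
  have hU : IsOpen {v : ℂ | EE σ τ v < L} := isOpen_lt (Curve_EE_cont σ τ) continuous_const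
  obtain ⟨S, -, hS, H2⟩ := Curve_end (P := fun y => EE σ τ y < L) hU
    (by rw [Curve_EE_half]; exact hL) hmono him hlim 0
  have hsub : Set.Icc 0 S ⊆ Set.Ici 0 := fun s hs => hs.1
  have H1 := Curve_follow (P := fun y => EE σ τ y < L) hU hS (hc.mono hsub) (hmono.mono hsub)
    (fun s hs => him s hs.1) (fun s hs => hE s hs.1)
  rw [h0] at H1
  obtain ⟨n, t, h, h1, h2, -⟩ := Curve_final (Curve_trans_left H1 H2)
  exact ⟨hB, hmid, n, t, h, h1, h2⟩

/-- The same at the critical point. -/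
theorem EdgeC_of_curve {σ τ : Sl} {L : ℝ} {yc : ℂ} (c : ℝ → ℂ) (hc : ContinuousOn c (Set.Ici 0))
    (h0 : c 0 = 0) (hmono : MonotoneOn (fun s => (c s).re) (Set.Ici 0))
    (him : ∀ s, 0 ≤ s → |(c s).im| ≤ 1) (hlim : Tendsto c atTop (𝓝 (1 / 2)))
    (hB : B0 σ + B0 τ < L) (hmid : ∀ y ∈ Set.Icc (-(1 / 10) : ℝ) 0, EE σ τ y < L) (hL : 0 < L)
    {s0 : ℝ} (hs0 : 0 < s0) (hyc : c s0 = yc) {c' : ℂ} (hc' : HasDerivAt c c' s0)
    (hre : 0 < c'.re) (hE : ∀ s, 0 ≤ s → s ≠ s0 → EE σ τ (c s) < L) (hEc : EE σ τ yc = L)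
    (hdσ : sdom yc σ) (hdτ : sdom yc τ) (hcrit : ey yc σ + ey yc τ = 0)
    (hA : (eyy yc σ + eyy yc τ).re < 0) (hA' : ((eyy yc σ + eyy yc τ) * c' ^ 2).re < 0) :
    EdgeC σ τ yc L := by
  have hU : IsOpen {v : ℂ | EE σ τ v < L} := isOpen_lt (Curve_EE_cont σ τ) continuous_const
  obtain ⟨e0, he0, ρ, hρ, hloc⟩ := Curve_local hre hEc hdσ hdτ hcrit hA hA'
  -- the derivative of the curve
  have hlo := hc'.isLittleO
  rw [Asymptotics.isLittleO_iff] at hlo
  have h1 := hlo hρ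
  rw [Metric.eventually_nhds_iff] at h1
  obtain ⟨δ, hδ, h2⟩ := h1
  obtain ⟨e, he⟩ : ∃ e : ℝ, e = min (min (e0 / 2) (δ / 2)) (s0 / 2) := ⟨_, rfl⟩
  have hepos : 0 < e := by
    rw [he]
    exact lt_min (lt_min (by positivity) (by positivity)) (by positivity)
  have hee0 : e < e0 := by
    have h3 : e ≤ e0 / 2 := by rw [he]; exact (min_le_left _ _).trans (min_le_left _ _)
    linarith
  have heδ : e < δ := by
    have h3 : e ≤ δ / 2 := by rw [he]; exact (min_le_left _ _).trans (min_le_right _ _)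
    linarith
  have hes : e < s0 := by
    have h3 : e ≤ s0 / 2 := by rw [he]; exact min_le_right _ _
    linarith
  have hcs : ∀ d : ℝ, |d| < δ → ‖c (s0 + d) - yc - d * c'‖ ≤ ρ * |d| := by
    intro d hd
    have h3 := h2 (y := s0 + d) (by rw [Real.dist_eq, add_sub_cancel_left]; exact hd)
    rw [add_sub_cancel_left, hyc, Complex.real_smul, Real.norm_eq_abs] at h3
    exact h3
  obtain ⟨a1, a2, a3⟩ := hloc (-e) (neg_ne_zero.2 hepos.ne') (by rw [abs_neg, abs_of_pos hepos]; exact hee0)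
    (c (s0 + -e)) (hcs (-e) (by rw [abs_neg, abs_of_pos hepos]; exact heδ))
  obtain ⟨b1, b2, b3⟩ := hloc e hepos.ne' (by rw [abs_of_pos hepos]; exact hee0)
    (c (s0 + e)) (hcs e (by rw [abs_of_pos hepos]; exact heδ))
  have hz : (c (s0 + -e)).re < yc.re := by nlinarith
  have hw : yc.re < (c (s0 + e)).re := by nlinarith
  -- the local polygon
  have H2 : Curve_PQ (fun y => EE σ τ y < L ∨ y = yc)
      (fun a b y => a < yc.re ∧ yc.re < b ∧ yc.im = y) (c (s0 + -e)) (c (s0 + e)) := by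
    refine Curve_one yc.im (hz.trans hw).le ?_ ?_ ?_ ?_ ⟨hz, hw, rfl⟩
    · have := him s0 hs0.le
      rwa [hyc] at this
    · intro Y hY
      exact Or.inl (a2 Y hY)
    · intro x hx
      by_cases hxy : x = yc.re
      · right
        rw [hxy, Complex.re_add_im]
      · left
        rcases le_total x yc.re with h | h
        · exact a3 x (Set.mem_uIcc.2 (Or.inl ⟨hx.1, h⟩)) hxy
        · exact b3 x (Set.mem_uIcc.2 (Or.inr ⟨h, hx.2⟩)) hxy
    · intro Y hY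
      exact Or.inl (b2 Y (by rwa [Set.uIcc_comm]))
  have hor : ∀ v : ℂ, EE σ τ v < L → (EE σ τ v < L ∨ v = yc) := fun v h => Or.inl h
  -- the first part
  have hsub1 : Set.Icc 0 (s0 + -e) ⊆ Set.Ici 0 := fun s hs => hs.1
  have H1 := (Curve_follow (P := fun y => EE σ τ y < L) hU (by linarith : (0 : ℝ) ≤ s0 + -e)
    (hc.mono hsub1) (hmono.mono hsub1) (fun s hs => him s hs.1)
    (fun s hs => hE s hs.1 (by
      have := hs.2
      intro h
      linarith))).mono hor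
  -- the last part
  obtain ⟨S, hS1, hS, H4⟩ := Curve_end (P := fun y => EE σ τ y < L) hU
    (by rw [Curve_EE_half]; exact hL) hmono him hlim (s0 + e)
  have hsub2 : Set.Icc (s0 + e) S ⊆ Set.Ici 0 := fun s hs => by
    have := hs.1
    show (0 : ℝ) ≤ s
    linarith
  have H3 := (Curve_follow (P := fun y => EE σ τ y < L) hU hS1
    (hc.mono hsub2) (hmono.mono hsub2) (fun s hs => him s (hsub2 hs))
    (fun s hs => hE s (hsub2 hs) (by
      have := hs.1
      intro h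
      linarith))).mono hor
  rw [h0] at H1
  have H := Curve_trans_left (Curve_trans_right H1 H2) (Curve_trans_left H3 (H4.mono hor))
  obtain ⟨n, t, h, k1, k2, k3⟩ := Curve_final H
  exact ⟨hB, hmid, hEc, n, t, h, k1, k2, k3⟩

end Pool.Agent.S3
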