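import Pool.Agent.S3.Es11

/-!
# Open-open edges: numerical lower bounds at the test point
-/

set_option autoImplicit false

namespace Pool.Agent.S3

section

variable {Φ : ℂ → ℂ → ℂ} {x x' : ℝ}

/-- The corner (.5, .5). -/
theorem gx_c1 (hΦ : IsPhi Φ) (h0 : Φ 0 0 = c00) :
    609 / 10000 ≤ gx Φ (1 / 2) (1 / 2) := by
  have k0 : 0 ≤ gx Φ (16 / 25) (16 / 25) := gx_nonneg hΦ h0 (by constructor <;> norm_num)
  have k1 := leg_num hΦ (xa := 57 / 100) (xb := 16 / 25) (x' := 16 / 25)
    (9 / 25) (137 / 1000) (19 / 10) (3 / 500) (297 / 250) (763 / 100000)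
    (by constructor <;> norm_num) (by norm_num) (by norm_num) (by norm_num) (by norm_num)
    (by norm_num) (by norm_num) (by norm_num) (by norm_num) (by norm_num)
    (by rw [Dt]; norm_num) (by rw [Dt]; norm_num) (by rw [Dt]; norm_num) (by norm_num)
  have k2 := leg_num hΦ (xa := 1 / 2) (xb := 57 / 100) (x' := 16 / 25)
    (7 / 25) (67 / 250) (77 / 50) (23 / 1000) (144 / 125) (249 / 20000)
    (by constructor <;> norm_num) (by norm_num) (by norm_num) (by norm_num) (by norm_num)
    (by norm_num) (by norm_num) (by norm_num) (by norm_num) (by norm_num)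
    (by rw [Dt]; norm_num) (by rw [Dt]; norm_num) (by rw [Dt]; norm_num) (by norm_num)
  have k3 := leg_num' hΦ (xa := 57 / 100) (xb := 16 / 25) (x' := 1 / 2)
    (9 / 25) (61 / 125) (13 / 20) (37 / 500) (297 / 250) (383 / 20000)
    (by constructor <;> norm_num) (by norm_num) (by norm_num) (by norm_num) (by norm_num)
    (by norm_num) (by norm_num) (by norm_num) (by norm_num) (by norm_num)
    (by rw [Dt]; norm_num) (by rw [Dt]; norm_num) (by rw [Dt]; norm_num) (by norm_num)
  have k4 := leg_num' hΦ (xa := 1 / 2) (xb := 57 / 100) (x' := 1 / 2)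
    (7 / 25) (107 / 200) (3 / 4) (87 / 1000) (144 / 125) (2171 / 100000)
    (by constructor <;> norm_num) (by norm_num) (by norm_num) (by norm_num) (by norm_num)
    (by norm_num) (by norm_num) (by norm_num) (by norm_num) (by norm_num)
    (by rw [Dt]; norm_num) (by rw [Dt]; norm_num) (by rw [Dt]; norm_num) (by norm_num)
  linarith

/-- The corner (.53, .5). -/
theorem gx_c2 (hΦ : IsPhi Φ) (h0 : Φ 0 0 = c00) :
    519 / 10000 ≤ gx Φ (53 / 100) (1 / 2) := by
  have k0 : 0 ≤ gx Φ (16 / 25) (16 / 25) := gx_nonneg hΦ h0 (by constructor <;> norm_num)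
  have k1 := leg_num hΦ (xa := 29 / 50) (xb := 16 / 25) (x' := 16 / 25)
    (37 / 100) (141 / 1000) (19 / 10) (3 / 500) (297 / 250) (159 / 25000)
    (by constructor <;> norm_num) (by norm_num) (by norm_num) (by norm_num) (by norm_num)
    (by norm_num) (by norm_num) (by norm_num) (by norm_num) (by norm_num)
    (by rw [Dt]; norm_num) (by rw [Dt]; norm_num) (by rw [Dt]; norm_num) (by norm_num)
  have k2 := leg_num hΦ (xa := 53 / 100) (xb := 29 / 50) (x' := 16 / 25)
    (3 / 10) (51 / 200) (79 / 50) (21 / 1000) (1157 / 1000) (81 / 10000)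
    (by constructor <;> norm_num) (by norm_num) (by norm_num) (by norm_num) (by norm_num)
    (by norm_num) (by norm_num) (by norm_num) (by norm_num) (by norm_num)
    (by rw [Dt]; norm_num) (by rw [Dt]; norm_num) (by rw [Dt]; norm_num) (by norm_num)
  have k3 := leg_num' hΦ (xa := 57 / 100) (xb := 16 / 25) (x' := 53 / 100)
    (9 / 25) (437 / 1000) (37 / 50) (3 / 50) (297 / 250) (217 / 12500)
    (by constructor <;> norm_num) (by norm_num) (by norm_num) (by norm_num) (by norm_num)
    (by norm_num) (by norm_num) (by norm_num) (by norm_num) (by norm_num)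
    (by rw [Dt]; norm_num) (by rw [Dt]; norm_num) (by rw [Dt]; norm_num) (by norm_num)
  have k4 := leg_num' hΦ (xa := 1 / 2) (xb := 57 / 100) (x' := 53 / 100)
    (7 / 25) (49 / 100) (21 / 25) (37 / 500) (144 / 125) (2009 / 100000)
    (by constructor <;> norm_num) (by norm_num) (by norm_num) (by norm_num) (by norm_num)
    (by norm_num) (by norm_num) (by norm_num) (by norm_num) (by norm_num)
    (by rw [Dt]; norm_num) (by rw [Dt]; norm_num) (by rw [Dt]; norm_num) (by norm_num)
  linarith

/-- The corner (.56, .4531). -/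
theorem gx_c3 (hΦ : IsPhi Φ) (h0 : Φ 0 0 = c00) :
    71 / 1250 ≤ gx Φ (14 / 25) (4531 / 10000) := by
  have k0 : 0 ≤ gx Φ (16 / 25) (16 / 25) := gx_nonneg hΦ h0 (by constructor <;> norm_num)
  have k1 := leg_num hΦ (xa := 3 / 5) (xb := 16 / 25) (x' := 16 / 25)
    (19 / 50) (18 / 125) (197 / 100) (3 / 500) (297 / 250) (393 / 100000)
    (by constructor <;> norm_num) (by norm_num) (by norm_num) (by norm_num) (by norm_num)
    (by norm_num) (by norm_num) (by norm_num) (by norm_num) (by norm_num)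
    (by rw [Dt]; norm_num) (by rw [Dt]; norm_num) (by rw [Dt]; norm_num) (by norm_num)
  have k2 := leg_num hΦ (xa := 14 / 25) (xb := 3 / 5) (x' := 16 / 25)
    (33 / 100) (223 / 1000) (33 / 20) (2 / 125) (1167 / 1000) (279 / 50000)
    (by constructor <;> norm_num) (by norm_num) (by norm_num) (by norm_num) (by norm_num)
    (by norm_num) (by norm_num) (by norm_num) (by norm_num) (by norm_num)
    (by rw [Dt]; norm_num) (by rw [Dt]; norm_num) (by rw [Dt]; norm_num) (by norm_num)
  have k3 := leg_num' hΦ (xa := 11 / 20) (xb := 16 / 25) (x' := 14 / 25)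
    (7 / 20) (377 / 1000) (87 / 100) (9 / 200) (297 / 250) (1003 / 50000)
    (by constructor <;> norm_num) (by norm_num) (by norm_num) (by norm_num) (by norm_num)
    (by norm_num) (by norm_num) (by norm_num) (by norm_num) (by norm_num)
    (by rw [Dt]; norm_num) (by rw [Dt]; norm_num) (by rw [Dt]; norm_num) (by norm_num)
  have k4 := leg_num' hΦ (xa := 4531 / 10000) (xb := 11 / 20) (x' := 14 / 25)
    (1 / 4) (457 / 1000) (49 / 50) (13 / 200) (571 / 500) (109 / 4000)
    (by constructor <;> norm_num) (by norm_num) (by norm_num) (by norm_num) (by norm_num)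
    (by norm_num) (by norm_num) (by norm_num) (by norm_num) (by norm_num)
    (by rw [Dt]; norm_num) (by rw [Dt]; norm_num) (by rw [Dt]; norm_num) (by norm_num)
  linarith

/-- The corner (.585, .4). -/
theorem gx_c4 (hΦ : IsPhi Φ) (h0 : Φ 0 0 = c00) :
    329 / 5000 ≤ gx Φ (117 / 200) (2 / 5) := by
  have k0 : 0 ≤ gx Φ (16 / 25) (16 / 25) := gx_nonneg hΦ h0 (by constructor <;> norm_num)
  have k1 := leg_num hΦ (xa := 117 / 200) (xb := 16 / 25) (x' := 16 / 25)
    (37 / 100) (141 / 1000) (48 / 25) (3 / 500) (297 / 250) (571 / 100000)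
    (by constructor <;> norm_num) (by norm_num) (by norm_num) (by norm_num) (by norm_num)
    (by norm_num) (by norm_num) (by norm_num) (by norm_num) (by norm_num)
    (by rw [Dt]; norm_num) (by rw [Dt]; norm_num) (by rw [Dt]; norm_num) (by norm_num)
  have k2 := leg_num' hΦ (xa := 11 / 20) (xb := 16 / 25) (x' := 117 / 200)
    (7 / 20) (8 / 25) (51 / 50) (33 / 1000) (297 / 250) (441 / 25000)
    (by constructor <;> norm_num) (by norm_num) (by norm_num) (by norm_num) (by norm_num)
    (by norm_num) (by norm_num) (by norm_num) (by norm_num) (by norm_num)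
    (by rw [Dt]; norm_num) (by rw [Dt]; norm_num) (by rw [Dt]; norm_num) (by norm_num)
  have k3 := leg_num' hΦ (xa := 47 / 100) (xb := 11 / 20) (x' := 117 / 200)
    (13 / 50) (52 / 125) (107 / 100) (27 / 500) (571 / 500) (1023 / 50000)
    (by constructor <;> norm_num) (by norm_num) (by norm_num) (by norm_num) (by norm_num)
    (by norm_num) (by norm_num) (by norm_num) (by norm_num) (by norm_num)
    (by rw [Dt]; norm_num) (by rw [Dt]; norm_num) (by rw [Dt]; norm_num) (by norm_num)
  have k4 := leg_num' hΦ (xa := 2 / 5) (xb := 47 / 100) (x' := 117 / 200)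
    (19 / 100) (509 / 1000) (111 / 100) (2 / 25) (221 / 200) (2209 / 100000)
    (by constructor <;> norm_num) (by norm_num) (by norm_num) (by norm_num) (by norm_num)
    (by norm_num) (by norm_num) (by norm_num) (by norm_num) (by norm_num)
    (by rw [Dt]; norm_num) (by rw [Dt]; norm_num) (by rw [Dt]; norm_num) (by norm_num)
  linarith

/-- The corner (.61, .35). -/
theorem gx_c5 (hΦ : IsPhi Φ) (h0 : Φ 0 0 = c00) :
    733 / 10000 ≤ gx Φ (61 / 100) (7 / 20) := by
  have k0 : 0 ≤ gx Φ (16 / 25) (16 / 25) := gx_nonneg hΦ h0 (by constructor <;> norm_num)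
  have k1 := leg_num hΦ (xa := 61 / 100) (xb := 16 / 25) (x' := 16 / 25)
    (39 / 100) (73 / 500) 2 (7 / 1000) (297 / 250) (141 / 50000)
    (by constructor <;> norm_num) (by norm_num) (by norm_num) (by norm_num) (by norm_num)
    (by norm_num) (by norm_num) (by norm_num) (by norm_num) (by norm_num)
    (by rw [Dt]; norm_num) (by rw [Dt]; norm_num) (by rw [Dt]; norm_num) (by norm_num)
  have k2 := leg_num' hΦ (xa := 14 / 25) (xb := 16 / 25) (x' := 61 / 100)
    (9 / 25) (51 / 200) (61 / 50) (21 / 1000) (297 / 250) (651 / 50000)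
    (by constructor <;> norm_num) (by norm_num) (by norm_num) (by norm_num) (by norm_num)
    (by norm_num) (by norm_num) (by norm_num) (by norm_num) (by norm_num)
    (by rw [Dt]; norm_num) (by rw [Dt]; norm_num) (by rw [Dt]; norm_num) (by norm_num)
  have k3 := leg_num' hΦ (xa := 47 / 100) (xb := 14 / 25) (x' := 61 / 100)
    (13 / 50) (44 / 125) (31 / 25) (39 / 1000) (1147 / 1000) (2037 / 100000)
    (by constructor <;> norm_num) (by norm_num) (by norm_num) (by norm_num) (by norm_num)
    (by norm_num) (by norm_num) (by norm_num) (by norm_num) (by norm_num)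
    (by rw [Dt]; norm_num) (by rw [Dt]; norm_num) (by rw [Dt]; norm_num) (by norm_num)
  have k4 := leg_num' hΦ (xa := 7 / 20) (xb := 47 / 100) (x' := 61 / 100)
    (17 / 100) (58 / 125) (123 / 100) (67 / 1000) (221 / 200) (3717 / 100000)
    (by constructor <;> norm_num) (by norm_num) (by norm_num) (by norm_num) (by norm_num)
    (by norm_num) (by norm_num) (by norm_num) (by norm_num) (by norm_num)
    (by rw [Dt]; norm_num) (by rw [Dt]; norm_num) (by rw [Dt]; norm_num) (by norm_num)
  linarith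

/-- The corner (.607, .391). -/
theorem gx_c6 (hΦ : IsPhi Φ) (h0 : Φ 0 0 = c00) :
    38 / 625 ≤ gx Φ (607 / 1000) (391 / 1000) := by
  have k0 : 0 ≤ gx Φ (16 / 25) (16 / 25) := gx_nonneg hΦ h0 (by constructor <;> norm_num)
  have k1 := leg_num hΦ (xa := 607 / 1000) (xb := 16 / 25) (x' := 16 / 25)
    (19 / 50) (18 / 125) (103 / 50) (3 / 500) (297 / 250) (157 / 50000)
    (by constructor <;> norm_num) (by norm_num) (by norm_num) (by norm_num) (by norm_num)
    (by norm_num) (by norm_num) (by norm_num) (by norm_num) (by norm_num)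
    (by rw [Dt]; norm_num) (by rw [Dt]; norm_num) (by rw [Dt]; norm_num) (by norm_num)
  have k2 := leg_num' hΦ (xa := 14 / 25) (xb := 16 / 25) (x' := 607 / 1000)
    (9 / 25) (33 / 125) (59 / 50) (11 / 500) (297 / 250) (667 / 50000)
    (by constructor <;> norm_num) (by norm_num) (by norm_num) (by norm_num) (by norm_num)
    (by norm_num) (by norm_num) (by norm_num) (by norm_num) (by norm_num)
    (by rw [Dt]; norm_num) (by rw [Dt]; norm_num) (by rw [Dt]; norm_num) (by norm_num)
  have k3 := leg_num' hΦ (xa := 47 / 100) (xb := 14 / 25) (x' := 607 / 1000)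
    (13 / 50) (179 / 500) (123 / 100) (41 / 1000) (1147 / 1000) (129 / 6250)
    (by constructor <;> norm_num) (by norm_num) (by norm_num) (by norm_num) (by norm_num)
    (by norm_num) (by norm_num) (by norm_num) (by norm_num) (by norm_num)
    (by rw [Dt]; norm_num) (by rw [Dt]; norm_num) (by rw [Dt]; norm_num) (by norm_num)
  have k4 := leg_num' hΦ (xa := 391 / 1000) (xb := 47 / 100) (x' := 607 / 1000)
    (9 / 50) (473 / 1000) (5 / 4) (69 / 1000) (221 / 200) (2377 / 100000)
    (by constructor <;> norm_num) (by norm_num) (by norm_num) (by norm_num) (by norm_num)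
    (by norm_num) (by norm_num) (by norm_num) (by norm_num) (by norm_num)
    (by rw [Dt]; norm_num) (by rw [Dt]; norm_num) (by rw [Dt]; norm_num) (by norm_num)
  linarith

/-- The corner (.65, .391). -/
theorem gx_d1 (hΦ : IsPhi Φ) (h0 : Φ 0 0 = c00) :
    111 / 2500 ≤ gx Φ (13 / 20) (391 / 1000) := by
  have k0 : 0 ≤ gx Φ (13 / 20) (31 / 50) := gx_nonneg hΦ h0 (by constructor <;> norm_num)
  have k1 := leg_num' hΦ (xa := 57 / 100) (xb := 31 / 50) (x' := 13 / 20)
    (7 / 20) (69 / 500) (21 / 10) (3 / 500) (1177 / 1000) (103 / 20000)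
    (by constructor <;> norm_num) (by norm_num) (by norm_num) (by norm_num) (by norm_num)
    (by norm_num) (by norm_num) (by norm_num) (by norm_num) (by norm_num)
    (by rw [Dt]; norm_num) (by rw [Dt]; norm_num) (by rw [Dt]; norm_num) (by norm_num)
  have k2 := leg_num' hΦ (xa := 13 / 25) (xb := 57 / 100) (x' := 13 / 20)
    (29 / 100) (121 / 500) (43 / 25) (19 / 1000) (144 / 125) (787 / 100000)
    (by constructor <;> norm_num) (by norm_num) (by norm_num) (by norm_num) (by norm_num)
    (by norm_num) (by norm_num) (by norm_num) (by norm_num) (by norm_num)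
    (by rw [Dt]; norm_num) (by rw [Dt]; norm_num) (by rw [Dt]; norm_num) (by norm_num)
  have k3 := leg_num' hΦ (xa := 23 / 50) (xb := 13 / 25) (x' := 13 / 20)
    (6 / 25) (41 / 125) (151 / 100) (17 / 500) (141 / 125) (79 / 6250)
    (by constructor <;> norm_num) (by norm_num) (by norm_num) (by norm_num) (by norm_num)
    (by norm_num) (by norm_num) (by norm_num) (by norm_num) (by norm_num)
    (by rw [Dt]; norm_num) (by rw [Dt]; norm_num) (by rw [Dt]; norm_num) (by norm_num)
  have k4 := leg_num' hΦ (xa := 391 / 1000) (xb := 23 / 50) (x' := 13 / 20)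
    (9 / 50) (211 / 500) (36 / 25) (7 / 125) (1101 / 1000) (1881 / 100000)
    (by constructor <;> norm_num) (by norm_num) (by norm_num) (by norm_num) (by norm_num)
    (by norm_num) (by norm_num) (by norm_num) (by norm_num) (by norm_num)
    (by rw [Dt]; norm_num) (by rw [Dt]; norm_num) (by rw [Dt]; norm_num) (by norm_num)
  linarith

/-- The corner (.65, .28). -/
theorem gx_d2 (hΦ : IsPhi Φ) (h0 : Φ 0 0 = c00) :
    53 / 625 ≤ gx Φ (13 / 20) (7 / 25) := by
  have k0 := gx_d1 hΦ h0
  have k1 := leg_num' hΦ (xa := 33 / 100) (xb := 391 / 1000) (x' := 13 / 20)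
    (13 / 100) (529 / 1000) (137 / 100) (43 / 500) (537 / 500) (2063 / 100000)
    (by constructor <;> norm_num) (by norm_num) (by norm_num) (by norm_num) (by norm_num)
    (by norm_num) (by norm_num) (by norm_num) (by norm_num) (by norm_num)
    (by rw [Dt]; norm_num) (by rw [Dt]; norm_num) (by rw [Dt]; norm_num) (by norm_num)
  have k2 := leg_num' hΦ (xa := 7 / 25) (xb := 33 / 100) (x' := 13 / 20)
    (9 / 100) (311 / 500) (33 / 25) (23 / 200) (527 / 500) (989 / 50000)
    (by constructor <;> norm_num) (by norm_num) (by norm_num) (by norm_num) (by norm_num)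
    (by norm_num) (by norm_num) (by norm_num) (by norm_num) (by norm_num)
    (by rw [Dt]; norm_num) (by rw [Dt]; norm_num) (by rw [Dt]; norm_num) (by norm_num)
  linarith

/-- The corner (.65, .2). -/
theorem gx_d3 (hΦ : IsPhi Φ) (h0 : Φ 0 0 = c00) :
    121 / 1000 ≤ gx Φ (13 / 20) (1 / 5) := by
  have k0 := gx_d2 hΦ h0
  have k1 := leg_num' hΦ (xa := 1 / 5) (xb := 7 / 25) (x' := 13 / 20)
    (1 / 20) (69 / 100) (61 / 50) (139 / 1000) (1039 / 1000) (3621 / 100000)
    (by constructor <;> norm_num) (by norm_num) (by norm_num) (by norm_num) (by norm_num)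
    (by norm_num) (by norm_num) (by norm_num) (by norm_num) (by norm_num)
    (by rw [Dt]; norm_num) (by rw [Dt]; norm_num) (by rw [Dt]; norm_num) (by norm_num)
  linarith

/-- The corner (.65, .1). -/
theorem gx_d4 (hΦ : IsPhi Φ) (h0 : Φ 0 0 = c00) :
    347 / 2000 ≤ gx Φ (13 / 20) (1 / 10) := by
  have k0 := gx_d3 hΦ h0
  have k1 := leg_num' hΦ (xa := 1 / 10) (xb := 1 / 5) (x' := 13 / 20)
    (1 / 50) (799 / 1000) (43 / 50) (9 / 50) (51 / 50) (1051 / 20000)
    (by constructor <;> norm_num) (by norm_num) (by norm_num) (by norm_num) (by norm_num)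
    (by norm_num) (by norm_num) (by norm_num) (by norm_num) (by norm_num)
    (by rw [Dt]; norm_num) (by rw [Dt]; norm_num) (by rw [Dt]; norm_num) (by norm_num)
  linarith

/-! ### Regions -/

private theorem sq_lt' {a b : ℝ} (h : a ^ 2 ≤ b ^ 2) (hb : 0 ≤ b) : a ≤ b :=
  le_of_sq_le_sq h hb

/-- The joint region of two points. -/
theorem gx_joint (hΦ : IsPhi Φ) (h0 : Φ 0 0 = c00) (hx : 0 ≤ x) (hx' : 0 ≤ x')
    (hj : x ^ 2 + 69 / 100 * x' ^ 2 ≤ 169 / 400) (hj' : x' ^ 2 + 69 / 100 * x ^ 2 ≤ 169 / 400) :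
    519 / 10000 ≤ gx Φ x x' := by
  have key : ∀ {Ψ : ℂ → ℂ → ℂ}, IsPhi Ψ → Ψ 0 0 = c00 → ∀ {x x' : ℝ}, 0 ≤ x → 0 ≤ x' →
      x' ≤ x → x ^ 2 + 69 / 100 * x' ^ 2 ≤ 169 / 400 → x' ^ 2 + 69 / 100 * x ^ 2 ≤ 169 / 400 →
      519 / 10000 ≤ gx Ψ x x' := by
    intro Ψ hΨ hΨ0 x x' hx hx' hle hj hj'
    rcases le_total x (1 / 2) with h | h
    · have k := gx_c1 hΨ hΨ0
      have k2 := gx_anti hΨ (x := x) (y := 1 / 2) (x' := x') (y' := 1 / 2)
        (by constructor <;> norm_num) hx h hx' (hle.trans h)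
      linarith
    rcases le_total x (53 / 100) with h2 | h2
    · have k := gx_c2 hΨ hΨ0
      have k2 := gx_anti hΨ (x := x) (y := 53 / 100) (x' := x') (y' := 1 / 2)
        (by constructor <;> norm_num) hx h2 hx' (sq_lt' (by nlinarith) (by norm_num))
      linarith
    rcases le_total x (56 / 100) with h3 | h3
    · have k := gx_c3 hΨ hΨ0
      have k2 := gx_anti hΨ (x := x) (y := 14 / 25) (x' := x') (y' := 4531 / 10000)
        (by constructor <;> norm_num) hx (by linarith) hx' (sq_lt' (by nlinarith) (by norm_num))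
      linarith
    rcases le_total x (585 / 1000) with h4 | h4
    · have k := gx_c4 hΨ hΨ0
      have k2 := gx_anti hΨ (x := x) (y := 117 / 200) (x' := x') (y' := 2 / 5)
        (by constructor <;> norm_num) hx (by linarith) hx' (sq_lt' (by nlinarith) (by norm_num))
      linarith
    rcases le_total x (61 / 100) with h5 | h5
    · have k := gx_c5 hΨ hΨ0
      have k2 := gx_anti hΨ (x := x) (y := 61 / 100) (x' := x') (y' := 7 / 20)
        (by constructor <;> norm_num) hx (by linarith) hx' (sq_lt' (by nlinarith) (by norm_num))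
      linarith
    · have k := gx_d2 hΨ hΨ0
      have k2 := gx_anti hΨ (x := x) (y := 13 / 20) (x' := x') (y' := 7 / 25)
        (by constructor <;> norm_num) hx (sq_lt' (by nlinarith) (by norm_num)) hx'
        (sq_lt' (by nlinarith) (by norm_num))
      linarith
  rcases le_total x' x with h | h
  · exact key hΦ h0 hx hx' h hj hj'
  · have l : Lv x x' := by
      have s1 : x ^ 2 ≤ x' ^ 2 := pow_le_pow_left₀ hx h 2
      have a2 : x' ≤ 13 / 20 := sq_lt' (by nlinarith [sq_nonneg x]) (by norm_num)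
      refine ⟨hx, hx', h.trans a2, a2, ?_⟩
      left
      have : x ^ 2 < (13 / 20) ^ 2 := by nlinarith [sq_nonneg x]
      by_contra hc
      push Not at hc
      have := pow_le_pow_left₀ (by norm_num : (0 : ℝ) ≤ 13 / 20) hc 2
      linarith
    rw [← gx_swap hΦ l]
    exact key hΦ.swap h0 hx' hx h hj' hj

/-- A high point and a low point. -/
theorem gx_low (hΦ : IsPhi Φ) (h0 : Φ 0 0 = c00) (hx : 0 ≤ x) (hx' : 0 ≤ x')
    (h1 : x ≤ 13 / 20) :
    (x' ≤ 391 / 1000 → 111 / 2500 ≤ gx Φ x x') ∧ (x' ≤ 28 / 100 → 53 / 625 ≤ gx Φ x x') ∧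
      (x' ≤ 1 / 5 → 121 / 1000 ≤ gx Φ x x') ∧ (x' ≤ 1 / 10 → 347 / 2000 ≤ gx Φ x x') := by
  refine ⟨fun h => ?_, fun h => ?_, fun h => ?_, fun h => ?_⟩
  · have k := gx_d1 hΦ h0
    have k2 := gx_anti hΦ (x := x) (y := 13 / 20) (x' := x') (y' := 391 / 1000)
        (by constructor <;> norm_num) hx h1 hx' h
    linarith
  · have k := gx_d2 hΦ h0
    have k2 := gx_anti hΦ (x := x) (y := 13 / 20) (x' := x') (y' := 7 / 25)
        (by constructor <;> norm_num) hx h1 hx' (by linarith)
    linarith
  · have k := gx_d3 hΦ h0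
    have k2 := gx_anti hΦ (x := x) (y := 13 / 20) (x' := x') (y' := 1 / 5)
        (by constructor <;> norm_num) hx h1 hx' h
    linarith
  · have k := gx_d4 hΦ h0
    have k2 := gx_anti hΦ (x := x) (y := 13 / 20) (x' := x') (y' := 1 / 10)
        (by constructor <;> norm_num) hx h1 hx' h
    linarith

/-- The joint region, the second point low. -/
theorem gx_joint_low (hΦ : IsPhi Φ) (h0 : Φ 0 0 = c00) (hx : 0 ≤ x) (hx' : 0 ≤ x')
    (hj : x ^ 2 + 69 / 100 * x' ^ 2 ≤ 169 / 400) (h1 : x' ≤ 391 / 1000) :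
    38 / 625 ≤ gx Φ x x' := by
  rcases le_total x' (28 / 100) with h | h
  · have k := (gx_low hΦ h0 hx hx' (sq_lt' (by nlinarith [sq_nonneg x']) (by norm_num))).2.1 h
    linarith
  · have k := gx_c6 hΦ h0
    have k2 := gx_anti hΦ (x := x) (y := 607 / 1000) (x' := x') (y' := 391 / 1000)
        (by constructor <;> norm_num) hx (sq_lt' (by nlinarith [sq_nonneg (x' - 28 / 100)]) (by norm_num)) hx' h1
    linarith

end

end Pool.Agent.S3
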