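import Pool.Agent.S3.Es11

/-!
# Open-open edges: numerical lower bounds at the test point, second list

The pairs `(t, k)` of squared slopes of an inner vertex of multiplicity two and of a neighbour.
-/

set_option autoImplicit false

namespace Pool.Agent.S3

section

variable {Φ : ℂ → ℂ → ℂ} {x x' τ τ' : ℝ}

/-- The corner (.518, .518). -/
theorem gx_e1 (hΦ : IsPhi Φ) (h0 : Φ 0 0 = c00) :
    503 / 10000 ≤ gx Φ (259 / 500) (259 / 500) := by
  have k0 : 0 ≤ gx Φ (16 / 25) (16 / 25) := gx_nonneg hΦ h0 (by constructor <;> norm_num)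
  have k1 := leg_num hΦ (xa := 3 / 5) (xb := 16 / 25) (x' := 16 / 25)
    (19 / 50) (18 / 125) (197 / 100) (3 / 500) (297 / 250) (393 / 100000)
    (by constructor <;> norm_num) (by norm_num) (by norm_num) (by norm_num) (by norm_num)
    (by norm_num) (by norm_num) (by norm_num) (by norm_num) (by norm_num)
    (by rw [Dt]; norm_num) (by rw [Dt]; norm_num) (by rw [Dt]; norm_num) (by norm_num)
  have k2 := leg_num hΦ (xa := 14 / 25) (xb := 3 / 5) (x' := 16 / 25)
    (33 / 100) (223 / 1000) (33 / 20) (2 / 125) (1167 / 1000) (279 / 50000)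
    (by constructor <;> norm_num) (by norm_num) (by norm_num) (by norm_num) (by norm_num)
    (by norm_num) (by norm_num) (by norm_num) (by norm_num) (by norm_num)
    (by rw [Dt]; norm_num) (by rw [Dt]; norm_num) (by rw [Dt]; norm_num) (by norm_num)
  have k3 := leg_num hΦ (xa := 259 / 500) (xb := 14 / 25) (x' := 16 / 25)
    (29 / 100) (29 / 100) (3 / 2) (27 / 1000) (1147 / 1000) (749 / 100000)
    (by constructor <;> norm_num) (by norm_num) (by norm_num) (by norm_num) (by norm_num)
    (by norm_num) (by norm_num) (by norm_num) (by norm_num) (by norm_num)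
    (by rw [Dt]; norm_num) (by rw [Dt]; norm_num) (by rw [Dt]; norm_num) (by norm_num)
  have k4 := leg_num' hΦ (xa := 29 / 50) (xb := 16 / 25) (x' := 259 / 500)
    (37 / 100) (459 / 1000) (17 / 25) (33 / 500) (297 / 250) (1541 / 100000)
    (by constructor <;> norm_num) (by norm_num) (by norm_num) (by norm_num) (by norm_num)
    (by norm_num) (by norm_num) (by norm_num) (by norm_num) (by norm_num)
    (by rw [Dt]; norm_num) (by rw [Dt]; norm_num) (by rw [Dt]; norm_num) (by norm_num)
  have k5 := leg_num' hΦ (xa := 259 / 500) (xb := 29 / 50) (x' := 259 / 500)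
    (3 / 10) (251 / 500) (77 / 100) (39 / 500) (1157 / 1000) (1793 / 100000)
    (by constructor <;> norm_num) (by norm_num) (by norm_num) (by norm_num) (by norm_num)
    (by norm_num) (by norm_num) (by norm_num) (by norm_num) (by norm_num)
    (by rw [Dt]; norm_num) (by rw [Dt]; norm_num) (by rw [Dt]; norm_num) (by norm_num)
  linarith

/-- The corner (.5241, .5035). -/
theorem gx_e2 (hΦ : IsPhi Φ) (h0 : Φ 0 0 = c00) :
    33 / 625 ≤ gx Φ (5241 / 10000) (1007 / 2000) := by
  have k0 : 0 ≤ gx Φ (16 / 25) (16 / 25) := gx_nonneg hΦ h0 (by constructor <;> norm_num)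
  have k1 := leg_num hΦ (xa := 3 / 5) (xb := 16 / 25) (x' := 16 / 25)
    (19 / 50) (18 / 125) (197 / 100) (3 / 500) (297 / 250) (393 / 100000)
    (by constructor <;> norm_num) (by norm_num) (by norm_num) (by norm_num) (by norm_num)
    (by norm_num) (by norm_num) (by norm_num) (by norm_num) (by norm_num)
    (by rw [Dt]; norm_num) (by rw [Dt]; norm_num) (by rw [Dt]; norm_num) (by norm_num)
  have k2 := leg_num hΦ (xa := 14 / 25) (xb := 3 / 5) (x' := 16 / 25)
    (33 / 100) (223 / 1000) (33 / 20) (2 / 125) (1167 / 1000) (279 / 50000)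
    (by constructor <;> norm_num) (by norm_num) (by norm_num) (by norm_num) (by norm_num)
    (by norm_num) (by norm_num) (by norm_num) (by norm_num) (by norm_num)
    (by rw [Dt]; norm_num) (by rw [Dt]; norm_num) (by rw [Dt]; norm_num) (by norm_num)
  have k3 := leg_num hΦ (xa := 5241 / 10000) (xb := 14 / 25) (x' := 16 / 25)
    (29 / 100) (29 / 100) (3 / 2) (27 / 1000) (1147 / 1000) (631 / 100000)
    (by constructor <;> norm_num) (by norm_num) (by norm_num) (by norm_num) (by norm_num)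
    (by norm_num) (by norm_num) (by norm_num) (by norm_num) (by norm_num)
    (by rw [Dt]; norm_num) (by rw [Dt]; norm_num) (by rw [Dt]; norm_num) (by norm_num)
  have k4 := leg_num' hΦ (xa := 57 / 100) (xb := 16 / 25) (x' := 5241 / 10000)
    (9 / 25) (447 / 1000) (18 / 25) (31 / 500) (297 / 250) (1771 / 100000)
    (by constructor <;> norm_num) (by norm_num) (by norm_num) (by norm_num) (by norm_num)
    (by norm_num) (by norm_num) (by norm_num) (by norm_num) (by norm_num)
    (by rw [Dt]; norm_num) (by rw [Dt]; norm_num) (by rw [Dt]; norm_num) (by norm_num)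
  have k5 := leg_num' hΦ (xa := 1007 / 2000) (xb := 57 / 100) (x' := 5241 / 10000)
    (7 / 25) (499 / 1000) (21 / 25) (77 / 1000) (144 / 125) (121 / 6250)
    (by constructor <;> norm_num) (by norm_num) (by norm_num) (by norm_num) (by norm_num)
    (by norm_num) (by norm_num) (by norm_num) (by norm_num) (by norm_num)
    (by rw [Dt]; norm_num) (by rw [Dt]; norm_num) (by rw [Dt]; norm_num) (by norm_num)
  linarith

/-- The corner (.5321, .4821). -/
theorem gx_e3 (hΦ : IsPhi Φ) (h0 : Φ 0 0 = c00) :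
    567 / 10000 ≤ gx Φ (5321 / 10000) (4821 / 10000) := by
  have k0 : 0 ≤ gx Φ (16 / 25) (16 / 25) := gx_nonneg hΦ h0 (by constructor <;> norm_num)
  have k1 := leg_num hΦ (xa := 117 / 200) (xb := 16 / 25) (x' := 16 / 25)
    (37 / 100) (141 / 1000) (48 / 25) (3 / 500) (297 / 250) (571 / 100000)
    (by constructor <;> norm_num) (by norm_num) (by norm_num) (by norm_num) (by norm_num)
    (by norm_num) (by norm_num) (by norm_num) (by norm_num) (by norm_num)
    (by rw [Dt]; norm_num) (by rw [Dt]; norm_num) (by rw [Dt]; norm_num) (by norm_num)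
  have k2 := leg_num hΦ (xa := 5321 / 10000) (xb := 117 / 200) (x' := 16 / 25)
    (31 / 100) (31 / 125) (31 / 20) (1 / 50) (1159 / 1000) (839 / 100000)
    (by constructor <;> norm_num) (by norm_num) (by norm_num) (by norm_num) (by norm_num)
    (by norm_num) (by norm_num) (by norm_num) (by norm_num) (by norm_num)
    (by rw [Dt]; norm_num) (by rw [Dt]; norm_num) (by rw [Dt]; norm_num) (by norm_num)
  have k3 := leg_num' hΦ (xa := 14 / 25) (xb := 16 / 25) (x' := 5321 / 10000)
    (9 / 25) (433 / 1000) (73 / 100) (59 / 1000) (297 / 250) (1981 / 100000)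
    (by constructor <;> norm_num) (by norm_num) (by norm_num) (by norm_num) (by norm_num)
    (by norm_num) (by norm_num) (by norm_num) (by norm_num) (by norm_num)
    (by rw [Dt]; norm_num) (by rw [Dt]; norm_num) (by rw [Dt]; norm_num) (by norm_num)
  have k4 := leg_num' hΦ (xa := 4821 / 10000) (xb := 14 / 25) (x' := 5321 / 10000)
    (27 / 100) (99 / 200) (43 / 50) (19 / 250) (1147 / 1000) (571 / 25000)
    (by constructor <;> norm_num) (by norm_num) (by norm_num) (by norm_num) (by norm_num)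
    (by norm_num) (by norm_num) (by norm_num) (by norm_num) (by norm_num)
    (by rw [Dt]; norm_num) (by rw [Dt]; norm_num) (by rw [Dt]; norm_num) (by norm_num)
  linarith

/-- The corner (.54, .4597). -/
theorem gx_e4 (hΦ : IsPhi Φ) (h0 : Φ 0 0 = c00) :
    611 / 10000 ≤ gx Φ (27 / 50) (4597 / 10000) := by
  have k0 : 0 ≤ gx Φ (16 / 25) (16 / 25) := gx_nonneg hΦ h0 (by constructor <;> norm_num)
  have k1 := leg_num hΦ (xa := 59 / 100) (xb := 16 / 25) (x' := 16 / 25)
    (37 / 100) (141 / 1000) (99 / 50) (3 / 500) (297 / 250) (51 / 10000)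
    (by constructor <;> norm_num) (by norm_num) (by norm_num) (by norm_num) (by norm_num)
    (by norm_num) (by norm_num) (by norm_num) (by norm_num) (by norm_num)
    (by rw [Dt]; norm_num) (by rw [Dt]; norm_num) (by rw [Dt]; norm_num) (by norm_num)
  have k2 := leg_num hΦ (xa := 27 / 50) (xb := 59 / 100) (x' := 16 / 25)
    (31 / 100) (119 / 500) (81 / 50) (9 / 500) (581 / 500) (381 / 50000)
    (by constructor <;> norm_num) (by norm_num) (by norm_num) (by norm_num) (by norm_num)
    (by norm_num) (by norm_num) (by norm_num) (by norm_num) (by norm_num)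
    (by rw [Dt]; norm_num) (by rw [Dt]; norm_num) (by rw [Dt]; norm_num) (by norm_num)
  have k3 := leg_num' hΦ (xa := 11 / 20) (xb := 16 / 25) (x' := 27 / 50)
    (7 / 20) (52 / 125) (39 / 50) (27 / 500) (297 / 250) (87 / 4000)
    (by constructor <;> norm_num) (by norm_num) (by norm_num) (by norm_num) (by norm_num)
    (by norm_num) (by norm_num) (by norm_num) (by norm_num) (by norm_num)
    (by rw [Dt]; norm_num) (by rw [Dt]; norm_num) (by rw [Dt]; norm_num) (by norm_num)
  have k4 := leg_num' hΦ (xa := 4597 / 10000) (xb := 11 / 20) (x' := 27 / 50)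
    (1 / 4) (489 / 1000) (91 / 100) (37 / 500) (571 / 500) (667 / 25000)
    (by constructor <;> norm_num) (by norm_num) (by norm_num) (by norm_num) (by norm_num)
    (by norm_num) (by norm_num) (by norm_num) (by norm_num) (by norm_num)
    (by rw [Dt]; norm_num) (by rw [Dt]; norm_num) (by rw [Dt]; norm_num) (by norm_num)
  linarith

/-- The corner (.5497, .4361). -/
theorem gx_e5 (hΦ : IsPhi Φ) (h0 : Φ 0 0 = c00) :
    131 / 2000 ≤ gx Φ (5497 / 10000) (4361 / 10000) := by
  have k0 : 0 ≤ gx Φ (16 / 25) (16 / 25) := gx_nonneg hΦ h0 (by constructor <;> norm_num)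
  have k1 := leg_num hΦ (xa := 5497 / 10000) (xb := 16 / 25) (x' := 16 / 25)
    (7 / 20) (131 / 1000) (46 / 25) (1 / 200) (297 / 250) (207 / 20000)
    (by constructor <;> norm_num) (by norm_num) (by norm_num) (by norm_num) (by norm_num)
    (by norm_num) (by norm_num) (by norm_num) (by norm_num) (by norm_num)
    (by rw [Dt]; norm_num) (by rw [Dt]; norm_num) (by rw [Dt]; norm_num) (by norm_num)
  have k2 := leg_num' hΦ (xa := 57 / 100) (xb := 16 / 25) (x' := 5497 / 10000)
    (9 / 25) (399 / 1000) (41 / 50) (1 / 20) (297 / 250) (401 / 25000)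
    (by constructor <;> norm_num) (by norm_num) (by norm_num) (by norm_num) (by norm_num)
    (by norm_num) (by norm_num) (by norm_num) (by norm_num) (by norm_num)
    (by rw [Dt]; norm_num) (by rw [Dt]; norm_num) (by rw [Dt]; norm_num) (by norm_num)
  have k3 := leg_num' hΦ (xa := 1 / 2) (xb := 57 / 100) (x' := 5497 / 10000)
    (7 / 25) (229 / 500) (91 / 100) (13 / 200) (144 / 125) (947 / 50000)
    (by constructor <;> norm_num) (by norm_num) (by norm_num) (by norm_num) (by norm_num)
    (by norm_num) (by norm_num) (by norm_num) (by norm_num) (by norm_num)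
    (by rw [Dt]; norm_num) (by rw [Dt]; norm_num) (by rw [Dt]; norm_num) (by norm_num)
  have k4 := leg_num' hΦ (xa := 4361 / 10000) (xb := 1 / 2) (x' := 5497 / 10000)
    (11 / 50) (527 / 1000) (19 / 20) (17 / 200) (1119 / 1000) (1013 / 50000)
    (by constructor <;> norm_num) (by norm_num) (by norm_num) (by norm_num) (by norm_num)
    (by norm_num) (by norm_num) (by norm_num) (by norm_num) (by norm_num)
    (by rw [Dt]; norm_num) (by rw [Dt]; norm_num) (by rw [Dt]; norm_num) (by norm_num)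
  linarith

/-- The corner (.5611, .4111). -/
theorem gx_e6 (hΦ : IsPhi Φ) (h0 : Φ 0 0 = c00) :
    703 / 10000 ≤ gx Φ (5611 / 10000) (4111 / 10000) := by
  have k0 : 0 ≤ gx Φ (16 / 25) (16 / 25) := gx_nonneg hΦ h0 (by constructor <;> norm_num)
  have k1 := leg_num hΦ (xa := 5611 / 10000) (xb := 16 / 25) (x' := 16 / 25)
    (9 / 25) (137 / 1000) (183 / 100) (3 / 500) (297 / 250) (221 / 25000)
    (by constructor <;> norm_num) (by norm_num) (by norm_num) (by norm_num) (by norm_num)
    (by norm_num) (by norm_num) (by norm_num) (by norm_num) (by norm_num)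
    (by rw [Dt]; norm_num) (by rw [Dt]; norm_num) (by rw [Dt]; norm_num) (by norm_num)
  have k2 := leg_num' hΦ (xa := 57 / 100) (xb := 16 / 25) (x' := 5611 / 10000)
    (9 / 25) (47 / 125) (22 / 25) (9 / 200) (297 / 250) (61 / 4000)
    (by constructor <;> norm_num) (by norm_num) (by norm_num) (by norm_num) (by norm_num)
    (by norm_num) (by norm_num) (by norm_num) (by norm_num) (by norm_num)
    (by rw [Dt]; norm_num) (by rw [Dt]; norm_num) (by rw [Dt]; norm_num) (by norm_num)
  have k3 := leg_num' hΦ (xa := 49 / 100) (xb := 57 / 100) (x' := 5611 / 10000)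
    (7 / 25) (219 / 500) (19 / 20) (3 / 50) (144 / 125) (263 / 12500)
    (by constructor <;> norm_num) (by norm_num) (by norm_num) (by norm_num) (by norm_num)
    (by norm_num) (by norm_num) (by norm_num) (by norm_num) (by norm_num)
    (by rw [Dt]; norm_num) (by rw [Dt]; norm_num) (by rw [Dt]; norm_num) (by norm_num)
  have k4 := leg_num' hΦ (xa := 4111 / 10000) (xb := 49 / 100) (x' := 5611 / 10000)
    (1 / 5) (259 / 500) (21 / 20) (41 / 500) (557 / 500) (1261 / 50000)
    (by constructor <;> norm_num) (by norm_num) (by norm_num) (by norm_num) (by norm_num)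
    (by norm_num) (by norm_num) (by norm_num) (by norm_num) (by norm_num)
    (by rw [Dt]; norm_num) (by rw [Dt]; norm_num) (by rw [Dt]; norm_num) (by norm_num)
  linarith

/-- The corner (.5723, .3846). -/
theorem gx_e7 (hΦ : IsPhi Φ) (h0 : Φ 0 0 = c00) :
    151 / 2000 ≤ gx Φ (5723 / 10000) (1923 / 5000) := by
  have k0 : 0 ≤ gx Φ (16 / 25) (16 / 25) := gx_nonneg hΦ h0 (by constructor <;> norm_num)
  have k1 := leg_num hΦ (xa := 5723 / 10000) (xb := 16 / 25) (x' := 16 / 25)
    (9 / 25) (137 / 1000) (48 / 25) (3 / 500) (297 / 250) (183 / 25000)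
    (by constructor <;> norm_num) (by norm_num) (by norm_num) (by norm_num) (by norm_num)
    (by norm_num) (by norm_num) (by norm_num) (by norm_num) (by norm_num)
    (by rw [Dt]; norm_num) (by rw [Dt]; norm_num) (by rw [Dt]; norm_num) (by norm_num)
  have k2 := leg_num' hΦ (xa := 14 / 25) (xb := 16 / 25) (x' := 5723 / 10000)
    (9 / 25) (44 / 125) (23 / 25) (39 / 1000) (297 / 250) (833 / 50000)
    (by constructor <;> norm_num) (by norm_num) (by norm_num) (by norm_num) (by norm_num)
    (by norm_num) (by norm_num) (by norm_num) (by norm_num) (by norm_num)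
    (by rw [Dt]; norm_num) (by rw [Dt]; norm_num) (by rw [Dt]; norm_num) (by norm_num)
  have k3 := leg_num' hΦ (xa := 12 / 25) (xb := 14 / 25) (x' := 5723 / 10000)
    (27 / 100) (429 / 1000) 1 (29 / 500) (1147 / 1000) (1041 / 50000)
    (by constructor <;> norm_num) (by norm_num) (by norm_num) (by norm_num) (by norm_num)
    (by norm_num) (by norm_num) (by norm_num) (by norm_num) (by norm_num)
    (by rw [Dt]; norm_num) (by rw [Dt]; norm_num) (by rw [Dt]; norm_num) (by norm_num)
  have k4 := leg_num' hΦ (xa := 1923 / 5000) (xb := 12 / 25) (x' := 5723 / 10000)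
    (9 / 50) (509 / 1000) (28 / 25) (2 / 25) (111 / 100) (3077 / 100000)
    (by constructor <;> norm_num) (by norm_num) (by norm_num) (by norm_num) (by norm_num)
    (by norm_num) (by norm_num) (by norm_num) (by norm_num) (by norm_num)
    (by rw [Dt]; norm_num) (by rw [Dt]; norm_num) (by rw [Dt]; norm_num) (by norm_num)
  linarith

/-- The corner (.585, .3561). -/
theorem gx_e8 (hΦ : IsPhi Φ) (h0 : Φ 0 0 = c00) :
    81 / 1000 ≤ gx Φ (117 / 200) (3561 / 10000) := by
  have k0 : 0 ≤ gx Φ (16 / 25) (16 / 25) := gx_nonneg hΦ h0 (by constructor <;> norm_num)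
  have k1 := leg_num hΦ (xa := 117 / 200) (xb := 16 / 25) (x' := 16 / 25)
    (37 / 100) (141 / 1000) (48 / 25) (3 / 500) (297 / 250) (571 / 100000)
    (by constructor <;> norm_num) (by norm_num) (by norm_num) (by norm_num) (by norm_num)
    (by norm_num) (by norm_num) (by norm_num) (by norm_num) (by norm_num)
    (by rw [Dt]; norm_num) (by rw [Dt]; norm_num) (by rw [Dt]; norm_num) (by norm_num)
  have k2 := leg_num' hΦ (xa := 14 / 25) (xb := 16 / 25) (x' := 117 / 200)
    (9 / 25) (323 / 1000) 1 (33 / 1000) (297 / 250) (389 / 25000)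
    (by constructor <;> norm_num) (by norm_num) (by norm_num) (by norm_num) (by norm_num)
    (by norm_num) (by norm_num) (by norm_num) (by norm_num) (by norm_num)
    (by rw [Dt]; norm_num) (by rw [Dt]; norm_num) (by rw [Dt]; norm_num) (by norm_num)
  have k3 := leg_num' hΦ (xa := 23 / 50) (xb := 14 / 25) (x' := 117 / 200)
    (13 / 50) (201 / 500) (27 / 25) (51 / 1000) (1147 / 1000) (253 / 10000)
    (by constructor <;> norm_num) (by norm_num) (by norm_num) (by norm_num) (by norm_num)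
    (by norm_num) (by norm_num) (by norm_num) (by norm_num) (by norm_num)
    (by rw [Dt]; norm_num) (by rw [Dt]; norm_num) (by rw [Dt]; norm_num) (by norm_num)
  have k4 := leg_num' hΦ (xa := 3561 / 10000) (xb := 23 / 50) (x' := 117 / 200)
    (4 / 25) (513 / 1000) (59 / 50) (81 / 1000) (1101 / 1000) (69 / 2000)
    (by constructor <;> norm_num) (by norm_num) (by norm_num) (by norm_num) (by norm_num)
    (by norm_num) (by norm_num) (by norm_num) (by norm_num) (by norm_num)
    (by rw [Dt]; norm_num) (by rw [Dt]; norm_num) (by rw [Dt]; norm_num) (by norm_num)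
  linarith

/-- The corner (.5993, .325). -/
theorem gx_e9 (hΦ : IsPhi Φ) (h0 : Φ 0 0 = c00) :
    863 / 10000 ≤ gx Φ (5993 / 10000) (13 / 40) := by
  have k0 : 0 ≤ gx Φ (16 / 25) (16 / 25) := gx_nonneg hΦ h0 (by constructor <;> norm_num)
  have k1 := leg_num hΦ (xa := 5993 / 10000) (xb := 16 / 25) (x' := 16 / 25)
    (19 / 50) (18 / 125) (199 / 100) (3 / 500) (297 / 250) (201 / 50000)
    (by constructor <;> norm_num) (by norm_num) (by norm_num) (by norm_num) (by norm_num)
    (by norm_num) (by norm_num) (by norm_num) (by norm_num) (by norm_num)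
    (by rw [Dt]; norm_num) (by rw [Dt]; norm_num) (by rw [Dt]; norm_num) (by norm_num)
  have k2 := leg_num' hΦ (xa := 57 / 100) (xb := 16 / 25) (x' := 5993 / 10000)
    (9 / 25) (143 / 500) (57 / 50) (13 / 500) (297 / 250) (611 / 50000)
    (by constructor <;> norm_num) (by norm_num) (by norm_num) (by norm_num) (by norm_num)
    (by norm_num) (by norm_num) (by norm_num) (by norm_num) (by norm_num)
    (by rw [Dt]; norm_num) (by rw [Dt]; norm_num) (by rw [Dt]; norm_num) (by norm_num)
  have k3 := leg_num' hΦ (xa := 23 / 50) (xb := 57 / 100) (x' := 5993 / 10000)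
    (13 / 50) (359 / 1000) (59 / 50) (41 / 1000) (144 / 125) (161 / 6250)
    (by constructor <;> norm_num) (by norm_num) (by norm_num) (by norm_num) (by norm_num)
    (by norm_num) (by norm_num) (by norm_num) (by norm_num) (by norm_num)
    (by rw [Dt]; norm_num) (by rw [Dt]; norm_num) (by rw [Dt]; norm_num) (by norm_num)
  have k4 := leg_num' hΦ (xa := 13 / 40) (xb := 23 / 50) (x' := 5993 / 10000)
    (3 / 20) (243 / 500) (61 / 50) (73 / 1000) (1101 / 1000) (1109 / 25000)
    (by constructor <;> norm_num) (by norm_num) (by norm_num) (by norm_num) (by norm_num)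
    (by norm_num) (by norm_num) (by norm_num) (by norm_num) (by norm_num)
    (by rw [Dt]; norm_num) (by rw [Dt]; norm_num) (by rw [Dt]; norm_num) (by norm_num)
  linarith

/-- The corner (.6302, .2907). -/
theorem gx_e10 (hΦ : IsPhi Φ) (h0 : Φ 0 0 = c00) :
    877 / 10000 ≤ gx Φ (3151 / 5000) (2907 / 10000) := by
  have k0 : 0 ≤ gx Φ (16 / 25) (16 / 25) := gx_nonneg hΦ h0 (by constructor <;> norm_num)
  have k1 := leg_num hΦ (xa := 3151 / 5000) (xb := 16 / 25) (x' := 16 / 25)
    (2 / 5) (37 / 250) (107 / 50) (7 / 1000) (297 / 250) (83 / 100000)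
    (by constructor <;> norm_num) (by norm_num) (by norm_num) (by norm_num) (by norm_num)
    (by norm_num) (by norm_num) (by norm_num) (by norm_num) (by norm_num)
    (by rw [Dt]; norm_num) (by rw [Dt]; norm_num) (by rw [Dt]; norm_num) (by norm_num)
  have k2 := leg_num' hΦ (xa := 29 / 50) (xb := 16 / 25) (x' := 3151 / 5000)
    (37 / 100) (187 / 1000) (79 / 50) (11 / 1000) (297 / 250) (753 / 100000)
    (by constructor <;> norm_num) (by norm_num) (by norm_num) (by norm_num) (by norm_num)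
    (by norm_num) (by norm_num) (by norm_num) (by norm_num) (by norm_num)
    (by rw [Dt]; norm_num) (by rw [Dt]; norm_num) (by rw [Dt]; norm_num) (by norm_num)
  have k3 := leg_num' hΦ (xa := 13 / 25) (xb := 29 / 50) (x' := 3151 / 5000)
    (3 / 10) (141 / 500) (141 / 100) (13 / 500) (1157 / 1000) (107 / 10000)
    (by constructor <;> norm_num) (by norm_num) (by norm_num) (by norm_num) (by norm_num)
    (by norm_num) (by norm_num) (by norm_num) (by norm_num) (by norm_num)
    (by rw [Dt]; norm_num) (by rw [Dt]; norm_num) (by rw [Dt]; norm_num) (by norm_num)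
  have k4 := leg_num' hΦ (xa := 21 / 50) (xb := 13 / 25) (x' := 3151 / 5000)
    (11 / 50) (363 / 1000) (34 / 25) (21 / 500) (141 / 125) (76 / 3125)
    (by constructor <;> norm_num) (by norm_num) (by norm_num) (by norm_num) (by norm_num)
    (by norm_num) (by norm_num) (by norm_num) (by norm_num) (by norm_num)
    (by rw [Dt]; norm_num) (by rw [Dt]; norm_num) (by rw [Dt]; norm_num) (by norm_num)
  have k5 := leg_num' hΦ (xa := 2907 / 10000) (xb := 21 / 50) (x' := 3151 / 5000)
    (13 / 100) (503 / 1000) (127 / 100) (39 / 500) (217 / 200) (2219 / 50000)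
    (by constructor <;> norm_num) (by norm_num) (by norm_num) (by norm_num) (by norm_num)
    (by norm_num) (by norm_num) (by norm_num) (by norm_num) (by norm_num)
    (by rw [Dt]; norm_num) (by rw [Dt]; norm_num) (by rw [Dt]; norm_num) (by norm_num)
  linarith

/-- The corner (.65, .2056). -/
theorem gx_e11 (hΦ : IsPhi Φ) (h0 : Φ 0 0 = c00) :
    1157 / 10000 ≤ gx Φ (13 / 20) (257 / 1250) := by
  have k0 : 0 ≤ gx Φ (13 / 20) (31 / 50) := gx_nonneg hΦ h0 (by constructor <;> norm_num)
  have k1 := leg_num' hΦ (xa := 57 / 100) (xb := 31 / 50) (x' := 13 / 20)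
    (7 / 20) (69 / 500) (21 / 10) (3 / 500) (1177 / 1000) (103 / 20000)
    (by constructor <;> norm_num) (by norm_num) (by norm_num) (by norm_num) (by norm_num)
    (by norm_num) (by norm_num) (by norm_num) (by norm_num) (by norm_num)
    (by rw [Dt]; norm_num) (by rw [Dt]; norm_num) (by rw [Dt]; norm_num) (by norm_num)
  have k2 := leg_num' hΦ (xa := 13 / 25) (xb := 57 / 100) (x' := 13 / 20)
    (29 / 100) (121 / 500) (43 / 25) (19 / 1000) (144 / 125) (787 / 100000)
    (by constructor <;> norm_num) (by norm_num) (by norm_num) (by norm_num) (by norm_num)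
    (by norm_num) (by norm_num) (by norm_num) (by norm_num) (by norm_num)
    (by rw [Dt]; norm_num) (by rw [Dt]; norm_num) (by rw [Dt]; norm_num) (by norm_num)
  have k3 := leg_num' hΦ (xa := 11 / 25) (xb := 13 / 25) (x' := 13 / 20)
    (23 / 100) (13 / 40) (151 / 100) (17 / 500) (141 / 125) (87 / 5000)
    (by constructor <;> norm_num) (by norm_num) (by norm_num) (by norm_num) (by norm_num)
    (by norm_num) (by norm_num) (by norm_num) (by norm_num) (by norm_num)
    (by rw [Dt]; norm_num) (by rw [Dt]; norm_num) (by rw [Dt]; norm_num) (by norm_num)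
  have k4 := leg_num' hΦ (xa := 33 / 100) (xb := 11 / 25) (x' := 13 / 20)
    (3 / 20) (223 / 500) (7 / 5) (31 / 500) (1093 / 1000) (67 / 2000)
    (by constructor <;> norm_num) (by norm_num) (by norm_num) (by norm_num) (by norm_num)
    (by norm_num) (by norm_num) (by norm_num) (by norm_num) (by norm_num)
    (by rw [Dt]; norm_num) (by rw [Dt]; norm_num) (by rw [Dt]; norm_num) (by norm_num)
  have k5 := leg_num' hΦ (xa := 257 / 1250) (xb := 33 / 100) (x' := 13 / 20)
    (7 / 100) (153 / 250) (5 / 4) (14 / 125) (527 / 500) (2591 / 50000)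
    (by constructor <;> norm_num) (by norm_num) (by norm_num) (by norm_num) (by norm_num)
    (by norm_num) (by norm_num) (by norm_num) (by norm_num) (by norm_num)
    (by rw [Dt]; norm_num) (by rw [Dt]; norm_num) (by rw [Dt]; norm_num) (by norm_num)
  linarith

/-! ### Regions -/

/-- The joint bounds of the squared slopes `t`, `k`. -/
structure Jt (t k : ℝ) : Prop where
  t1 : t ≤ 1
  j1 : 1 / 10 < k → t ≤ 94 / 100
  j2 : 1 / 5 < k → t ≤ 85 / 100
  j25 : 1 / 4 < k → t ≤ 81 / 100
  j3 : 3 / 10 < k → t ≤ 775 / 1000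
  j35 : 7 / 20 < k → t ≤ 745 / 1000
  j4 : 2 / 5 < k → t ≤ 715 / 1000
  j45 : 9 / 20 < k → t ≤ 69 / 100
  j5 : 1 / 2 < k → t ≤ 67 / 100
  j55 : 11 / 20 < k → t ≤ 65 / 100
  j6 : 3 / 5 < k → t ≤ 635 / 1000

private theorem le_c {τ T X : ℝ} (h : τ ^ 2 ≤ T) (hX : 0 ≤ X) (hT : T * (169 / 400) ≤ X ^ 2) :
    τ * (13 / 20) ≤ X := by
  apply le_of_sq_le_sq _ hX
  have : (τ * (13 / 20)) ^ 2 = τ ^ 2 * (169 / 400) := by ring
  rw [this]
  linarith

/-- Lower bounds at the test point from the joint bounds. -/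
theorem gx_Jt (hΦ : IsPhi Φ) (h0 : Φ 0 0 = c00) (hτ : 0 ≤ τ) (hτ' : 0 ≤ τ')
    (J : Jt (τ ^ 2) (τ' ^ 2)) :
    (τ' ^ 2 ≤ 1 / 10 → 1157 / 10000 ≤ gx Φ (τ * (13 / 20)) (τ' * (13 / 20))) ∧
    (τ' ^ 2 ≤ 1 / 5 → 877 / 10000 ≤ gx Φ (τ * (13 / 20)) (τ' * (13 / 20))) ∧
    (τ' ^ 2 ≤ 1 / 4 → 863 / 10000 ≤ gx Φ (τ * (13 / 20)) (τ' * (13 / 20))) ∧
    (τ' ^ 2 ≤ 3 / 10 → 81 / 1000 ≤ gx Φ (τ * (13 / 20)) (τ' * (13 / 20))) ∧
    (τ' ^ 2 ≤ 7 / 20 → 151 / 2000 ≤ gx Φ (τ * (13 / 20)) (τ' * (13 / 20))) ∧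
    (τ' ^ 2 ≤ 2 / 5 → 703 / 10000 ≤ gx Φ (τ * (13 / 20)) (τ' * (13 / 20))) ∧
    (τ' ^ 2 ≤ 9 / 20 → 131 / 2000 ≤ gx Φ (τ * (13 / 20)) (τ' * (13 / 20))) ∧
    (τ' ^ 2 ≤ 1 / 2 → 611 / 10000 ≤ gx Φ (τ * (13 / 20)) (τ' * (13 / 20))) ∧
    (τ' ^ 2 ≤ 11 / 20 → 567 / 10000 ≤ gx Φ (τ * (13 / 20)) (τ' * (13 / 20))) ∧
    (τ' ^ 2 ≤ 3 / 5 → 33 / 625 ≤ gx Φ (τ * (13 / 20)) (τ' * (13 / 20))) ∧
    (τ' ≤ τ ∨ τ' ^ 2 ≤ 3 / 5 → 503 / 10000 ≤ gx Φ (τ * (13 / 20)) (τ' * (13 / 20))) := by
  have a0 : 0 ≤ τ * (13 / 20) := by positivity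
  have a0' : 0 ≤ τ' * (13 / 20) := by positivity
  have p0 : τ' ^ 2 ≤ 1 / 10 → 1157 / 10000 ≤ gx Φ (τ * (13 / 20)) (τ' * (13 / 20)) := fun h =>
    (gx_e11 hΦ h0).trans (gx_anti hΦ (by constructor <;> norm_num) a0
      (le_c J.t1 (by norm_num) (by norm_num)) a0' (le_c h (by norm_num) (by norm_num)))
  have p1 : τ' ^ 2 ≤ 1 / 5 → 877 / 10000 ≤ gx Φ (τ * (13 / 20)) (τ' * (13 / 20)) := fun h => by
    rcases le_or_gt (τ' ^ 2) (1 / 10) with e | e
    · have := p0 e
      linarith
    · exact (gx_e10 hΦ h0).trans (gx_anti hΦ (by constructor <;> norm_num) a0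
        (le_c (J.j1 e) (by norm_num) (by norm_num)) a0' (le_c h (by norm_num) (by norm_num)))
  have p2 : τ' ^ 2 ≤ 1 / 4 → 863 / 10000 ≤ gx Φ (τ * (13 / 20)) (τ' * (13 / 20)) := fun h => by
    rcases le_or_gt (τ' ^ 2) (1 / 5) with e | e
    · have := p1 e
      linarith
    · exact (gx_e9 hΦ h0).trans (gx_anti hΦ (by constructor <;> norm_num) a0
        (le_c (J.j2 e) (by norm_num) (by norm_num)) a0' (le_c h (by norm_num) (by norm_num)))
  have p3 : τ' ^ 2 ≤ 3 / 10 → 81 / 1000 ≤ gx Φ (τ * (13 / 20)) (τ' * (13 / 20)) := fun h => by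
    rcases le_or_gt (τ' ^ 2) (1 / 4) with e | e
    · have := p2 e
      linarith
    · exact (gx_e8 hΦ h0).trans (gx_anti hΦ (by constructor <;> norm_num) a0
        (le_c (J.j25 e) (by norm_num) (by norm_num)) a0' (le_c h (by norm_num) (by norm_num)))
  have p4 : τ' ^ 2 ≤ 7 / 20 → 151 / 2000 ≤ gx Φ (τ * (13 / 20)) (τ' * (13 / 20)) := fun h => by
    rcases le_or_gt (τ' ^ 2) (3 / 10) with e | e
    · have := p3 e
      linarith
    · exact (gx_e7 hΦ h0).trans (gx_anti hΦ (by constructor <;> norm_num) a0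
        (le_c (J.j3 e) (by norm_num) (by norm_num)) a0' (le_c h (by norm_num) (by norm_num)))
  have p5 : τ' ^ 2 ≤ 2 / 5 → 703 / 10000 ≤ gx Φ (τ * (13 / 20)) (τ' * (13 / 20)) := fun h => by
    rcases le_or_gt (τ' ^ 2) (7 / 20) with e | e
    · have := p4 e
      linarith
    · exact (gx_e6 hΦ h0).trans (gx_anti hΦ (by constructor <;> norm_num) a0
        (le_c (J.j35 e) (by norm_num) (by norm_num)) a0' (le_c h (by norm_num) (by norm_num)))
  have p6 : τ' ^ 2 ≤ 9 / 20 → 131 / 2000 ≤ gx Φ (τ * (13 / 20)) (τ' * (13 / 20)) := fun h => by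
    rcases le_or_gt (τ' ^ 2) (2 / 5) with e | e
    · have := p5 e
      linarith
    · exact (gx_e5 hΦ h0).trans (gx_anti hΦ (by constructor <;> norm_num) a0
        (le_c (J.j4 e) (by norm_num) (by norm_num)) a0' (le_c h (by norm_num) (by norm_num)))
  have p7 : τ' ^ 2 ≤ 1 / 2 → 611 / 10000 ≤ gx Φ (τ * (13 / 20)) (τ' * (13 / 20)) := fun h => by
    rcases le_or_gt (τ' ^ 2) (9 / 20) with e | e
    · have := p6 e
      linarith
    · exact (gx_e4 hΦ h0).trans (gx_anti hΦ (by constructor <;> norm_num) a0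
        (le_c (J.j45 e) (by norm_num) (by norm_num)) a0' (le_c h (by norm_num) (by norm_num)))
  have p8 : τ' ^ 2 ≤ 11 / 20 → 567 / 10000 ≤ gx Φ (τ * (13 / 20)) (τ' * (13 / 20)) := fun h => by
    rcases le_or_gt (τ' ^ 2) (1 / 2) with e | e
    · have := p7 e
      linarith
    · exact (gx_e3 hΦ h0).trans (gx_anti hΦ (by constructor <;> norm_num) a0
        (le_c (J.j5 e) (by norm_num) (by norm_num)) a0' (le_c h (by norm_num) (by norm_num)))
  have p9 : τ' ^ 2 ≤ 3 / 5 → 33 / 625 ≤ gx Φ (τ * (13 / 20)) (τ' * (13 / 20)) := fun h => by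
    rcases le_or_gt (τ' ^ 2) (11 / 20) with e | e
    · have := p8 e
      linarith
    · exact (gx_e2 hΦ h0).trans (gx_anti hΦ (by constructor <;> norm_num) a0
        (le_c (J.j55 e) (by norm_num) (by norm_num)) a0' (le_c h (by norm_num) (by norm_num)))
  refine ⟨p0, p1, p2, p3, p4, p5, p6, p7, p8, p9, fun hle => ?_⟩
  rcases le_or_gt (τ' ^ 2) (3 / 5) with e | e
  · have := p9 e
    linarith
  · rcases hle with hle | hle
    · have s : τ' ^ 2 ≤ τ ^ 2 := pow_le_pow_left₀ hτ' hle 2
      exact (gx_e1 hΦ h0).trans (gx_anti hΦ (by constructor <;> norm_num) a0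
        (le_c (J.j6 e) (by norm_num) (by norm_num)) a0'
        (le_c (s.trans (J.j6 e)) (by norm_num) (by norm_num)))
    · exact absurd hle (not_le.2 e)

theorem Jt.lv (J : Jt (τ ^ 2) (τ' ^ 2)) (J' : Jt (τ' ^ 2) (τ ^ 2)) (hτ : 0 ≤ τ) (hτ' : 0 ≤ τ') :
    Lv (τ * (13 / 20)) (τ' * (13 / 20)) := by
  refine ⟨by positivity, by positivity, le_c J.t1 (by norm_num) (by norm_num),
    le_c J'.t1 (by norm_num) (by norm_num), ?_⟩
  by_contra hc
  push Not at hc
  obtain ⟨c1, c2⟩ := hc
  have e1 : 1 ≤ τ := by linarith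
  have e2 : 1 ≤ τ' := by linarith
  have := J.j1 (by nlinarith)
  nlinarith

/-- Two inner vertices of multiplicity two. -/
theorem gx_22 (hΦ : IsPhi Φ) (h0 : Φ 0 0 = c00) (hτ : 0 ≤ τ) (hτ' : 0 ≤ τ')
    (J : Jt (τ ^ 2) (τ' ^ 2)) (J' : Jt (τ' ^ 2) (τ ^ 2)) :
    503 / 10000 ≤ gx Φ (τ * (13 / 20)) (τ' * (13 / 20)) := by
  rcases le_total τ' τ with h | h
  · exact (gx_Jt hΦ h0 hτ hτ' J).2.2.2.2.2.2.2.2.2.2 (Or.inl h)
  · rw [← gx_swap hΦ (J.lv J' hτ hτ')]
    exact (gx_Jt hΦ.swap h0 hτ' hτ J').2.2.2.2.2.2.2.2.2.2 (Or.inl h)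

end

end Pool.Agent.S3
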