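import Pool.Agent.S3.Es9

/-!
# Open-open edges: lower bounds at the test point

`gx Φ x x' = re Φ - π (im v + im w)` at the points above `T = arccos (13/20)` with
`sinh (π im v) = x`, `sinh (π im w) = x'`.
-/

set_option autoImplicit false

namespace Pool.Agent.S3

open Complex
open Pool.Agent.H25.RK (gdv gdv_re_lt gdv_hasDerivAt)

/-- The test point. -/
noncomputable def T13 : ℝ := Real.arccos (13 / 20)

theorem cos_T13 : Real.cos T13 = 13 / 20 := Real.cos_arccos (by norm_num) (by norm_num)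

theorem T13_pos : 0 < T13 := Real.arccos_pos.2 (by norm_num)

theorem T13_lt : T13 < Real.pi / 2 := Real.arccos_lt_pi_div_two.2 (by norm_num)

theorem T13_abs : |T13| < Real.pi / 2 := by rw [abs_of_pos T13_pos]; exact T13_lt

/-- `re Φ - π (im v + im w)` at the test point. -/
noncomputable def gx (Φ : ℂ → ℂ → ℂ) (x x' : ℝ) : ℝ :=
  FP Φ (UU T13 (Real.arsinh x)) (UU T13 (-(Real.arsinh x'))) - Real.arsinh x - Real.arsinh x'

section

variable {Φ : ℂ → ℂ → ℂ} {x x' y y' : ℝ}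

theorem igd_im_le_quarter {R η : ℝ} (aR : |R| < Real.pi / 2) (h : Real.sinh η ≤ Real.cos R) :
    (igd (UU R η)).im ≤ Real.pi / 4 := by
  by_contra hc
  push Not at hc
  have cR := cos_pos' aR
  have a1 := abs_lt.1 (igd_im_lt (UU_re_lt (η := η) aR))
  have h2 : Real.tan (Real.pi / 4) < Real.tan (igd (UU R η)).im :=
    Real.tan_lt_tan_of_lt_of_lt_pi_div_two (by linarith [Real.pi_pos]) a1.2 hc
  rw [Real.tan_pi_div_four, tan_igd_UU aR, lt_div_iff₀ cR] at h2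
  linarith

/-- Below the level one. -/
structure Lv (x x' : ℝ) : Prop where
  x0 : 0 ≤ x
  x0' : 0 ≤ x'
  x1 : x ≤ 13 / 20
  x1' : x' ≤ 13 / 20
  lt : x < 13 / 20 ∨ x' < 13 / 20

theorem Lv.reg (h : Lv x x') :
    Reg (igd (UU T13 (Real.arsinh x))) (igd (UU T13 (-(Real.arsinh x')))) := by
  have t3 := igd_im_nonneg T13_abs (Real.arsinh_nonneg_iff.2 h.x0)
  have t4 := igd_im_nonneg T13_abs (Real.arsinh_nonneg_iff.2 h.x0')
  have t1 := igd_im_le_quarter (η := Real.arsinh x) T13_abs (by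
    rw [Real.sinh_arsinh, cos_T13]; exact h.x1)
  have t2 := igd_im_le_quarter (η := Real.arsinh x') T13_abs (by
    rw [Real.sinh_arsinh, cos_T13]; exact h.x1')
  unfold Reg
  rw [igd_im_neg T13_abs, abs_neg, abs_of_nonneg t3, abs_of_nonneg t4]
  rcases h.lt with h1 | h1
  · have := igd_im_lt_quarter (η := Real.arsinh x) T13_abs (by
      rw [Real.sinh_arsinh, cos_T13]; exact h1)
    linarith
  · have := igd_im_lt_quarter (η := Real.arsinh x') T13_abs (by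
      rw [Real.sinh_arsinh, cos_T13]; exact h1)
    linarith

theorem Lv.symm (h : Lv x x') : Lv x' x := ⟨h.x0', h.x0, h.x1', h.x1, h.lt.symm⟩

theorem Lv.mono (h : Lv y y') (h0 : 0 ≤ x) (h1 : x ≤ y) (h0' : 0 ≤ x') (h1' : x' ≤ y') :
    Lv x x' := ⟨h0, h0', h1.trans h.x1, h1'.trans h.x1',
      h.lt.imp (fun h => lt_of_le_of_lt h1 h) (fun h => lt_of_le_of_lt h1' h)⟩

theorem gx_swap (hΦ : IsPhi Φ) (h : Lv x x') :
    gx (fun v w => Φ w v) x' x = gx Φ x x' := by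
  rw [gx, gx, FP_flip hΦ T13_abs T13_abs h.reg]
  ring

theorem gx_anti_left (hΦ : IsPhi Φ) (h : Lv y x') (h0 : 0 ≤ x) (hxy : x ≤ y) :
    gx Φ y x' ≤ gx Φ x x' := by
  rcases hxy.eq_or_lt with e | e
  · rw [e]
  · have k := FP_up hΦ T13_abs (Real.arsinh_nonneg_iff.2 h0) (Real.arsinh_lt_arsinh.2 e) h.reg
    rw [gd_igd (UU_re_lt T13_abs)] at k
    rw [gx, gx]
    linarith

theorem gx_anti (hΦ : IsPhi Φ) (h : Lv y y') (h0 : 0 ≤ x) (hxy : x ≤ y) (h0' : 0 ≤ x')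
    (hxy' : x' ≤ y') : gx Φ y y' ≤ gx Φ x x' := by
  have k1 := gx_anti_left hΦ h h0 hxy
  have l2 : Lv x y' := h.mono h0 hxy h.x0' le_rfl
  have k2 := gx_anti_left hΦ.swap l2.symm h0' hxy'
  rw [gx_swap hΦ l2, gx_swap hΦ (h.mono h0 hxy h0' hxy')] at k2
  linarith

/-- `re Φ + π im v` increases. -/
theorem FP_up2 (hΦ : IsPhi Φ) {R : ℝ} (hR : |R| < Real.pi / 2) {a b : ℝ} (ha : 0 ≤ a)
    (hab : a ≤ b) {w : ℂ} (h : Reg (igd (UU R b)) w) :
    FP Φ (UU R a) (gd w) + a ≤ FP Φ (UU R b) (gd w) + b := by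
  have hd : ∀ s ∈ Set.Icc a b, HasDerivAt (fun s => FP Φ (UU R s) (gd w) + s)
      (2 / Real.pi * (qq (igd (UU R s)) w).im + 1) s := fun s hs =>
    (hasDerivAt_FP_vert hΦ hR (reg_vert hR ha hs.1 hs.2 h)).add (hasDerivAt_id s)
  have key : MonotoneOn (fun s => FP Φ (UU R s) (gd w) + s) (Set.Icc a b) := by
    apply monotoneOn_of_deriv_nonneg (convex_Icc a b)
    · exact fun s hs => (hd s hs).continuousAt.continuousWithinAt
    · exact fun s hs => (hd s (interior_subset hs)).differentiableAt.differentiableWithinAt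
    · intro s hs
      rw [interior_Icc] at hs
      rw [(hd s ⟨hs.1.le, hs.2.le⟩).deriv]
      have h1 := (abs_lt.1 (qq_im_lt (reg_vert hR ha hs.1.le hs.2.le h))).1
      have hpi := Real.pi_pos
      have h2 : 2 / Real.pi * (-(Real.pi / 2)) ≤ 2 / Real.pi * (qq (igd (UU R s)) w).im :=
        mul_le_mul_of_nonneg_left h1.le (by positivity)
      have h3 : 2 / Real.pi * (-(Real.pi / 2)) = -1 := by field_simp
      linarith
  exact key ⟨le_rfl, hab⟩ ⟨hab, le_rfl⟩ hab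

theorem gx_nonneg' (hΦ : IsPhi Φ) (h0 : Φ 0 0 = c00) (hx : 0 ≤ x) (hx1 : x < 13 / 20) :
    0 ≤ gx Φ x x := by
  have k := FP_sym hΦ h0 (R := T13) (η := Real.arsinh x) T13_pos.le T13_lt
    (Real.arsinh_nonneg_iff.2 hx) (by rw [Real.sinh_arsinh, cos_T13]; exact hx1)
  rw [gx]
  linarith

theorem gx_nonneg_lt (hΦ : IsPhi Φ) (h0 : Φ 0 0 = c00) (hx : 0 ≤ x) (hx1 : x < 13 / 20)
    (hx' : 0 ≤ x') (hx1' : x' < 13 / 20) : 0 ≤ gx Φ x x' := by
  have m0 : 0 ≤ max x x' := hx.trans (le_max_left _ _)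
  have m1 : max x x' < 13 / 20 := max_lt hx1 hx1'
  have k := gx_nonneg' hΦ h0 m0 m1
  have k2 := gx_anti hΦ (⟨m0, m0, m1.le, m1.le, Or.inl m1⟩ : Lv (max x x') (max x x')) hx
    (le_max_left _ _) hx' (le_max_right _ _)
  linarith

/-- The first point at the level one. -/
theorem gx_nonneg_one (hΦ : IsPhi Φ) (h0 : Φ 0 0 = c00) (hx' : 0 ≤ x') (hx1' : x' < 13 / 20) :
    0 ≤ gx Φ (13 / 20) x' := by
  by_contra hc
  push Not at hc
  obtain ⟨g, hg⟩ : ∃ g, g = gx Φ (13 / 20) x' := ⟨_, rfl⟩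
  rw [← hg] at hc
  set y := max x' (13 / 20 + g / 4) with hy
  have y0 : 0 ≤ y := hx'.trans (le_max_left _ _)
  have y1 : y < 13 / 20 := max_lt hx1' (by linarith)
  have k1 := gx_nonneg_lt hΦ h0 y0 y1 hx' hx1'
  have l : Lv (13 / 20) x' := ⟨by norm_num, hx', le_rfl, hx1'.le, Or.inr hx1'⟩
  have k2 := FP_up2 hΦ T13_abs (Real.arsinh_nonneg_iff.2 y0) (Real.arsinh_le_arsinh.2 y1.le) l.reg
  rw [gd_igd (UU_re_lt T13_abs)] at k2
  have k3 : Real.arsinh (13 / 20) - Real.arsinh y ≤ 13 / 20 - y := by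
    have := Real.sinh_sub_id_strictMono.monotone (Real.arsinh_le_arsinh.2 y1.le)
    simp only [Real.sinh_arsinh] at this
    linarith
  have k4 : 13 / 20 + g / 4 ≤ y := le_max_right _ _
  rw [gx] at hg k1
  linarith

theorem gx_nonneg (hΦ : IsPhi Φ) (h0 : Φ 0 0 = c00) (h : Lv x x') : 0 ≤ gx Φ x x' := by
  rcases h.x1.lt_or_eq with e | e
  · rcases h.x1'.lt_or_eq with e' | e'
    · exact gx_nonneg_lt hΦ h0 h.x0 e h.x0' e'
    · rw [← gx_swap hΦ h, e']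
      exact gx_nonneg_one hΦ.swap h0 h.x0 e
  · rcases h.lt with e' | e'
    · rw [e] at e'
      exact absurd e' (lt_irrefl _)
    · rw [e]
      exact gx_nonneg_one hΦ h0 h.x0' e'

/-! ### Numerical legs -/

theorem phi_tangent {y y0 : ℝ} (hy : 0 ≤ y) (h0 : 0 ≤ y0) (h1 : y0 ≤ 1) :
    y * (1 + y) / (169 / 400 + y) ^ 2 ≤ y0 * (1 + y0) / (169 / 400 + y0) ^ 2 +
      (169 / 400 - 31 / 200 * y0) / (169 / 400 + y0) ^ 3 * (y - y0) := by
  have e : y0 * (1 + y0) / (169 / 400 + y0) ^ 2 +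
      (169 / 400 - 31 / 200 * y0) / (169 / 400 + y0) ^ 3 * (y - y0) -
      y * (1 + y) / (169 / 400 + y) ^ 2 =
      (y - y0) ^ 2 * (169 / 400 * (231 / 400) * (2 * (169 / 400 + y) + (169 / 400 + y0)) -
        31 / 200 * ((169 / 400 + y0) * (169 / 400 + y))) /
        ((169 / 400 + y0) ^ 3 * (169 / 400 + y) ^ 2) := by
    have a1 : 169 / 400 + y ≠ 0 := by positivity
    have a2 : 169 / 400 + y0 ≠ 0 := by positivity
    field_simp
    ring
  have h2 : 0 ≤ 169 / 400 * (231 / 400) * (2 * (169 / 400 + y) + (169 / 400 + y0)) -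
        31 / 200 * ((169 / 400 + y0) * (169 / 400 + y)) := by nlinarith
  have h3 : 0 ≤ (y - y0) ^ 2 * (169 / 400 * (231 / 400) * (2 * (169 / 400 + y) +
      (169 / 400 + y0)) - 31 / 200 * ((169 / 400 + y0) * (169 / 400 + y))) /
        ((169 / 400 + y0) ^ 3 * (169 / 400 + y) ^ 2) := by positivity
  linarith

/-- The tangent minorant of `Dd`. -/
noncomputable def Dt (y0 x x' : ℝ) : ℝ :=
  169 / 400 * (1 + x' ^ 2) / (169 / 400 + x' ^ 2) - (169 / 400 + x' ^ 2) *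
    (y0 * (1 + y0) / (169 / 400 + y0) ^ 2 +
      (169 / 400 - 31 / 200 * y0) / (169 / 400 + y0) ^ 3 * (x ^ 2 - y0))

theorem Dt_le {y0 : ℝ} (h0 : 0 ≤ y0) (h1 : y0 ≤ 1) : Dt y0 x x' ≤ Dd (13 / 20) (13 / 20) x x' := by
  have k := phi_tangent (sq_nonneg x) h0 h1
  have e : Dd (13 / 20) (13 / 20) x x' = 169 / 400 * (1 + x' ^ 2) / (169 / 400 + x' ^ 2) -
      (169 / 400 + x' ^ 2) * (x ^ 2 * (1 + x ^ 2) / (169 / 400 + x ^ 2) ^ 2) := by
    rw [Dd]
    norm_num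
    ring
  rw [e, Dt]
  have := mul_le_mul_of_nonneg_left k (by positivity : 0 ≤ 169 / 400 + x' ^ 2)
  linarith

theorem leg_num (hΦ : IsPhi Φ) {xa xb x' : ℝ} (y0 m0 m1 e C G : ℝ) (l : Lv xb x')
    (hxa : 0 ≤ xa) (hab : xa < xb) (hy0 : 0 ≤ y0) (hy1 : y0 ≤ 1)
    (hm0 : 0 ≤ m0) (hm1 : 0 ≤ m1) (he : 0 ≤ e) (hC0 : 0 < C) (hC : 1 + xb ^ 2 ≤ C ^ 2)
    (h1 : 3 * e ≤ Dt y0 xb x') (h2 : m0 ^ 2 ≤ (1 + e) * Dt y0 xb x')
    (h3 : (m0 + m1 * (xb - xa)) ^ 2 ≤ (1 + e) * Dt y0 xa x')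
    (hG : G ≤ 6366 / 10000 * ((m0 * (xb - xa) + m1 * (xb - xa) ^ 2 / 2) / C)) :
    gx Φ xb x' + G ≤ gx Φ xa x' := by
  have hpi := Real.pi_pos
  have k := leg_gain hΦ (R := T13) (R' := T13) (a := Real.arsinh xa) (b := Real.arsinh xb)
    (η' := Real.arsinh x') (m0 := m0) (m1 := m1) (e := e) T13_abs T13_abs
    (Real.arsinh_nonneg_iff.2 hxa) (Real.arsinh_le_arsinh.2 hab.le) l.reg hm0 hm1 he (by
      intro x k1 k2
      rw [Real.sinh_arsinh] at k1 k2 ⊢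
      rw [Real.sinh_arsinh, cos_T13]
      have d := Dt_le (x := x) (x' := x') hy0 hy1
      obtain ⟨α, hα⟩ : ∃ α, α = 169 / 400 * (1 + x' ^ 2) / (169 / 400 + x' ^ 2) -
        (169 / 400 + x' ^ 2) * (y0 * (1 + y0) / (169 / 400 + y0) ^ 2 -
        (169 / 400 - 31 / 200 * y0) / (169 / 400 + y0) ^ 3 * y0) := ⟨_, rfl⟩
      obtain ⟨β, hβ⟩ : ∃ β, β = (169 / 400 + x' ^ 2) *
        ((169 / 400 - 31 / 200 * y0) / (169 / 400 + y0) ^ 3) := ⟨_, rfl⟩
      have ed : ∀ z, Dt y0 z x' = α - β * z ^ 2 := fun z => by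
        rw [Dt, hα, hβ]; ring
      have β0 : 0 ≤ β := by
        rw [hβ]
        have : 0 ≤ 169 / 400 - 31 / 200 * y0 := by linarith
        positivity
      rw [ed] at h1 h2 h3 d
      have x0 : 0 ≤ x := hxa.trans k1
      have sq1 : x ^ 2 ≤ xb ^ 2 := pow_le_pow_left₀ x0 k2 2
      have m1' := mul_le_mul_of_nonneg_left sq1 β0
      refine ⟨by linarith, ?_⟩
      have q : (m0 + m1 * (xb - x)) ^ 2 ≤ (1 + e) * (α - β * x ^ 2) := by
        have id1 : (xb - xa) * ((1 + e) * (α - β * x ^ 2) - (m0 + m1 * (xb - x)) ^ 2) =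
            (xb - x) * ((1 + e) * (α - β * xa ^ 2) - (m0 + m1 * (xb - xa)) ^ 2) +
            (x - xa) * ((1 + e) * (α - β * xb ^ 2) - m0 ^ 2) +
            (β * (1 + e) + m1 ^ 2) * ((x - xa) * (xb - x) * (xb - xa)) := by ring
        have t1 := mul_nonneg (sub_nonneg.2 k2) (sub_nonneg.2 h3)
        have t2 := mul_nonneg (sub_nonneg.2 k1) (sub_nonneg.2 h2)
        have t3 : 0 ≤ (β * (1 + e) + m1 ^ 2) * ((x - xa) * (xb - x) * (xb - xa)) :=
          mul_nonneg (by positivity) (mul_nonneg (mul_nonneg (by linarith) (by linarith))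
            (by linarith))
        have t4 : 0 ≤ (xb - xa) * ((1 + e) * (α - β * x ^ 2) - (m0 + m1 * (xb - x)) ^ 2) := by
          rw [id1]; linarith
        have t5 : 0 ≤ (1 + e) * (α - β * x ^ 2) - (m0 + m1 * (xb - x)) ^ 2 :=
          nonneg_of_mul_nonneg_right t4 (by linarith)
        linarith
      refine q.trans ?_
      exact mul_le_mul_of_nonneg_left d (by linarith))
  rw [Real.sinh_arsinh, Real.sinh_arsinh] at k
  have cb := Real.cosh_pos (Real.arsinh xb)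
  have cC : Real.cosh (Real.arsinh xb) ≤ C := by
    apply le_of_sq_le_sq _ hC0.le
    rw [Real.cosh_sq, Real.sinh_arsinh]
    linarith
  have N0 : 0 ≤ m0 * (xb - xa) + m1 * (xb - xa) ^ 2 / 2 := by
    have := mul_nonneg hm0 (sub_nonneg.2 hab.le)
    positivity
  have g1 : (m0 * (xb - xa) + m1 * (xb - xa) ^ 2 / 2) / C ≤
      (m0 * (xb - xa) + m1 * (xb - xa) ^ 2 / 2) / Real.cosh (Real.arsinh xb) :=
    div_le_div_of_nonneg_left N0 cb cC
  have p2 : 6366 / 10000 ≤ 2 / Real.pi := by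
    rw [le_div_iff₀ hpi]
    have := Real.pi_lt_d4
    linarith
  have g2 : 6366 / 10000 * ((m0 * (xb - xa) + m1 * (xb - xa) ^ 2 / 2) / C) ≤
      2 / Real.pi * ((m0 * (xb - xa) + m1 * (xb - xa) ^ 2 / 2) / Real.cosh (Real.arsinh xb)) :=
    mul_le_mul p2 g1 (by positivity) (by positivity)
  rw [gx, gx]
  linarith

/-- The second coordinate. -/
theorem leg_num' (hΦ : IsPhi Φ) {xa xb x' : ℝ} (y0 m0 m1 e C G : ℝ) (l : Lv xb x')
    (hxa : 0 ≤ xa) (hab : xa < xb) (hy0 : 0 ≤ y0) (hy1 : y0 ≤ 1)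
    (hm0 : 0 ≤ m0) (hm1 : 0 ≤ m1) (he : 0 ≤ e) (hC0 : 0 < C) (hC : 1 + xb ^ 2 ≤ C ^ 2)
    (h1 : 3 * e ≤ Dt y0 xb x') (h2 : m0 ^ 2 ≤ (1 + e) * Dt y0 xb x')
    (h3 : (m0 + m1 * (xb - xa)) ^ 2 ≤ (1 + e) * Dt y0 xa x')
    (hG : G ≤ 6366 / 10000 * ((m0 * (xb - xa) + m1 * (xb - xa) ^ 2 / 2) / C)) :
    gx Φ x' xb + G ≤ gx Φ x' xa := by
  have k := leg_num hΦ.swap y0 m0 m1 e C G l hxa hab hy0 hy1 hm0 hm1 he hC0 hC h1 h2 h3 hG
  rw [gx_swap hΦ l.symm, gx_swap hΦ (l.mono hxa hab.le l.x0' le_rfl).symm] at k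
  exact k

end

end Pool.Agent.S3
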