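import Pool.Agent.S3.Es10
import Pool.Agent.S3.Es11

/-!
# Open-open edges: bounds of the losses at the test point
-/

set_option autoImplicit false

namespace Pool.Agent.S3

open Complex
open Pool.Agent.H25.RK (gdv gdv_re_lt gdv_hasDerivAt)

/-! ### Elementary bounds -/

private theorem s3 {x : ℝ} (hx : 0 ≤ x) : x - x ^ 3 / 6 ≤ Real.sin x := by
  have h := LowA_pos (b := x) (f := fun x => Real.sin x - (x - x ^ 3 / 6))
    (f' := fun x => Real.cos x - (1 - x ^ 2 / 2))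
    (fun x _ _ => by
      have h1 := (Real.hasDerivAt_sin x).sub ((hasDerivAt_id' x).sub ((hasDerivAt_pow 3 x).div_const 6))
      refine h1.congr_deriv ?_
      norm_num
      try ring)
    (by simp) (fun x hx _ => by linarith [Real.one_sub_sq_div_two_le_cos (x := x)]) hx le_rfl
  linarith

private theorem c4 {x : ℝ} (hx : 0 ≤ x) : Real.cos x ≤ 1 - x ^ 2 / 2 + x ^ 4 / 24 := by
  have h := LowA_pos (b := x) (f := fun x => 1 - x ^ 2 / 2 + x ^ 4 / 24 - Real.cos x)
    (f' := fun x => Real.sin x - (x - x ^ 3 / 6))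
    (fun x _ _ => by
      have h1 := (((hasDerivAt_const x (1 : ℝ)).sub ((hasDerivAt_pow 2 x).div_const 2)).add
        ((hasDerivAt_pow 4 x).div_const 24)).sub (Real.hasDerivAt_cos x)
      refine h1.congr_deriv ?_
      norm_num
      try ring)
    (by simp) (fun x hx _ => by linarith [s3 hx]) hx le_rfl
  linarith

private theorem s5 {x : ℝ} (hx : 0 ≤ x) : Real.sin x ≤ x - x ^ 3 / 6 + x ^ 5 / 120 := by
  have h := LowA_pos (b := x) (f := fun x => x - x ^ 3 / 6 + x ^ 5 / 120 - Real.sin x)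
    (f' := fun x => 1 - x ^ 2 / 2 + x ^ 4 / 24 - Real.cos x)
    (fun x _ _ => by
      have h1 := (((hasDerivAt_id' x).sub ((hasDerivAt_pow 3 x).div_const 6)).add
        ((hasDerivAt_pow 5 x).div_const 120)).sub (Real.hasDerivAt_sin x)
      refine h1.congr_deriv ?_
      norm_num
      try ring)
    (by simp) (fun x hx _ => by linarith [c4 hx]) hx le_rfl
  linarith

private theorem c6 {x : ℝ} (hx : 0 ≤ x) :
    1 - x ^ 2 / 2 + x ^ 4 / 24 - x ^ 6 / 720 ≤ Real.cos x := by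
  have h := LowA_pos (b := x) (f := fun x => Real.cos x - (1 - x ^ 2 / 2 + x ^ 4 / 24 - x ^ 6 / 720))
    (f' := fun x => x - x ^ 3 / 6 + x ^ 5 / 120 - Real.sin x)
    (fun x _ _ => by
      have h1 := (Real.hasDerivAt_cos x).sub ((((hasDerivAt_const x (1 : ℝ)).sub
        ((hasDerivAt_pow 2 x).div_const 2)).add
        ((hasDerivAt_pow 4 x).div_const 24)).sub ((hasDerivAt_pow 6 x).div_const 720))
      refine h1.congr_deriv ?_
      norm_num
      try ring)
    (by simp) (fun x hx _ => by linarith [s5 hx]) hx le_rfl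
  linarith

theorem T13_ge : 8631 / 10000 ≤ T13 := by
  have h := c6 (x := 8631 / 10000) (by norm_num)
  have h2 : Real.cos T13 ≤ Real.cos (8631 / 10000) := by
    rw [cos_T13]
    norm_num at h
    linarith
  by_contra hc
  push Not at hc
  have := Real.cos_lt_cos_of_nonneg_of_le_pi T13_pos.le (by linarith [Real.pi_gt_three]) hc
  linarith

theorem T13_le : T13 ≤ 8633 / 10000 := by
  have h := c4 (x := 8633 / 20000) (by norm_num)
  have h3 : Real.cos (8633 / 10000) = 2 * Real.cos (8633 / 20000) ^ 2 - 1 := by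
    rw [← Real.cos_two_mul]; norm_num
  have h4 : 0 ≤ Real.cos (8633 / 20000) :=
    Real.cos_nonneg_of_mem_Icc ⟨by linarith [Real.pi_gt_three], by linarith [Real.pi_gt_three]⟩
  have h5 : Real.cos (8633 / 20000) ≤ 908286 / 1000000 := by
    norm_num at h ⊢
    linarith
  have h2 : Real.cos (8633 / 10000) ≤ Real.cos T13 := by
    rw [cos_T13, h3]
    nlinarith
  by_contra hc
  push Not at hc
  have := Real.cos_lt_cos_of_nonneg_of_le_pi (by norm_num) (by linarith [T13_lt, Real.pi_pos]) hc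
  linarith

theorem sin_T13_sq : Real.sin T13 ^ 2 = 231 / 400 := by
  have := Real.sin_sq_add_cos_sq T13
  rw [cos_T13] at this
  linarith

theorem sin_T13_pos : 0 < Real.sin T13 :=
  Real.sin_pos_of_pos_of_lt_pi T13_pos (by linarith [T13_lt, Real.pi_pos])

theorem sin_T13_ge : 7599 / 10000 ≤ Real.sin T13 := by
  have := sin_T13_sq
  have := sin_T13_pos
  nlinarith

theorem sin_T13_le : Real.sin T13 ≤ 76 / 100 := by
  have := sin_T13_sq
  have := sin_T13_pos
  nlinarith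

/-- `J cosh J ≤ sinh J (1 + sinh² J / 3)`. -/
theorem fJ_le {J : ℝ} (hJ : 0 ≤ J) :
    J * Real.cosh J ≤ Real.sinh J * (1 + Real.sinh J ^ 2 / 3) := by
  have h := LowA_pos (b := J)
    (f := fun x => Real.sinh x * (1 + Real.sinh x ^ 2 / 3) - x * Real.cosh x)
    (f' := fun x => Real.sinh x * (Real.sinh x * Real.cosh x - x))
    (fun x _ _ => by
      have k := Real.hasDerivAt_sinh x
      have h1 := (k.mul (((k.pow 2).div_const 3).const_add 1)).sub
        ((hasDerivAt_id' x).mul (Real.hasDerivAt_cosh x))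
      refine h1.congr_deriv ?_
      simp only [Nat.cast_ofNat, Pi.pow_apply]
      ring)
    (by simp) (fun x hx _ => by
      have s0 : 0 ≤ Real.sinh x := Real.sinh_nonneg_iff.2 hx
      have s1 : x ≤ Real.sinh x := Real.self_le_sinh_iff.2 hx
      have c1 := Real.one_le_cosh x
      exact mul_nonneg s0 (by nlinarith)) hJ le_rfl
  linarith

/-- `sinh x - sinh³ x / 6 ≤ x`. -/
theorem arsh_three {J : ℝ} (hJ : 0 ≤ J) (h1 : Real.sinh J ^ 2 ≤ 1) :
    Real.sinh J - Real.sinh J ^ 3 / 6 ≤ J := by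
  have h := LowA_pos (b := J)
    (f := fun x => x - (Real.sinh x - Real.sinh x ^ 3 / 6))
    (f' := fun x => 1 - Real.cosh x * (1 - Real.sinh x ^ 2 / 2))
    (fun x _ _ => by
      have k := Real.hasDerivAt_sinh x
      have h1 := (hasDerivAt_id' x).sub (k.sub ((k.pow 3).div_const 6))
      refine h1.congr_deriv ?_
      norm_num
      ring)
    (by simp) (fun x hx hxJ => by
      have s0 : 0 ≤ Real.sinh x := Real.sinh_nonneg_iff.2 hx
      have s1 : Real.sinh x ≤ Real.sinh J := Real.sinh_le_sinh.2 hxJ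
      have s2 : Real.sinh x ^ 2 ≤ 1 := (pow_le_pow_left₀ s0 s1 2).trans h1
      have c1 := Real.one_le_cosh x
      have c2 := Real.cosh_sq x
      have e : (Real.cosh x * (1 - Real.sinh x ^ 2 / 2)) ^ 2 ≤ 1 ^ 2 := by
        have : (Real.cosh x * (1 - Real.sinh x ^ 2 / 2)) ^ 2 =
            1 - (Real.sinh x ^ 2) ^ 2 * (3 / 4 - Real.sinh x ^ 2 / 4) := by
          rw [mul_pow, c2]; ring
        rw [this]
        have : 0 ≤ (Real.sinh x ^ 2) ^ 2 * (3 / 4 - Real.sinh x ^ 2 / 4) :=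
          mul_nonneg (sq_nonneg _) (by linarith)
        linarith
      have := le_of_sq_le_sq e (by norm_num)
      linarith) hJ le_rfl
  linarith

/-- `sinh J (1 + sinh² J / 4) ≤ J cosh J` for `sinh² J ≤ 169/400`. -/
theorem fJ_ge {J : ℝ} (hJ : 0 ≤ J) (h1 : Real.sinh J ^ 2 ≤ 169 / 400) :
    Real.sinh J * (1 + Real.sinh J ^ 2 / 4) ≤ J * Real.cosh J := by
  have h := LowA_pos (b := J)
    (f := fun x => x * Real.cosh x - Real.sinh x * (1 + Real.sinh x ^ 2 / 4))
    (f' := fun x => Real.sinh x * (x - 3 / 4 * (Real.sinh x * Real.cosh x)))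
    (fun x _ _ => by
      have k := Real.hasDerivAt_sinh x
      have h1 := ((hasDerivAt_id' x).mul (Real.hasDerivAt_cosh x)).sub
        (k.mul (((k.pow 2).div_const 4).const_add 1))
      refine h1.congr_deriv ?_
      simp only [Nat.cast_ofNat, Pi.pow_apply]
      ring)
    (by simp) (fun x hx hxJ => by
      have s0 : 0 ≤ Real.sinh x := Real.sinh_nonneg_iff.2 hx
      have s1 : Real.sinh x ≤ Real.sinh J := Real.sinh_le_sinh.2 hxJ
      have s2 : Real.sinh x ^ 2 ≤ 169 / 400 := (pow_le_pow_left₀ s0 s1 2).trans h1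
      have k := arsh_three hx (s2.trans (by norm_num))
      have c1 := Real.one_le_cosh x
      have c2 := Real.cosh_sq x
      have c3 : Real.cosh x ≤ 1 + Real.sinh x ^ 2 / 2 := by nlinarith
      have c4 := mul_le_mul_of_nonneg_left c3 s0
      apply mul_nonneg s0
      have : Real.sinh x ^ 3 = Real.sinh x * Real.sinh x ^ 2 := by ring
      nlinarith) hJ le_rfl
  linarith

section

variable {τ b P : ℝ}

theorem sJ_T13_sq (τ : ℝ) : sJ τ T13 ^ 2 = 231 / 400 * τ ^ 2 / (1 + 169 / 400 * τ ^ 2) := by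
  have h1 := Real.cosh_sq (hJ τ T13)
  rw [sinh_hJ, cos_T13] at h1
  rw [sJ, div_pow, mul_pow, sin_T13_sq, h1]
  congr 1 <;> ring

theorem sJ_T13_le {t S : ℝ} (ht : τ ^ 2 ≤ t) (hS : 0 ≤ S)
    (h : 231 / 400 * t ≤ S ^ 2 * (1 + 169 / 400 * t)) : sJ τ T13 ≤ S := by
  apply le_of_sq_le_sq _ hS
  rw [sJ_T13_sq, div_le_iff₀ (by positivity)]
  have t0 : 0 ≤ t := (sq_nonneg τ).trans ht
  -- `x / (1 + c x)` increases
  have k : S ^ 2 * (169 / 400) ≤ 231 / 400 ∨ 231 / 400 ≤ S ^ 2 * (169 / 400) := le_total _ _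
  rcases k with k | k
  · nlinarith
  · nlinarith [sq_nonneg τ]

/-- The deviation at the test point. -/
noncomputable def Dev (τ b P : ℝ) : ℝ := P / b + T13 - hJ τ T13 / sJ τ T13

theorem lossJ_eq : lossJ τ b P T13 = b * sJ τ T13 / (2 * Real.pi) * Dev τ b P ^ 2 := rfl

theorem ratio_bounds (hτ : 0 < τ) (h1 : τ ^ 2 ≤ 1) :
    8552 / 10000 * (1 + 169 / 1600 * τ ^ 2) ≤ hJ τ T13 / sJ τ T13 ∧
      hJ τ T13 / sJ τ T13 ≤ 8554 / 10000 * (1 + 169 / 1200 * τ ^ 2) := by
  have s0 := sJ_pos hτ T13_pos T13_lt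
  have j0 : 0 ≤ hJ τ T13 := hJ_nonneg hτ.le (by rw [cos_T13]; norm_num)
  have sh := sinh_hJ τ T13
  rw [cos_T13] at sh
  have ch := Real.cosh_pos (hJ τ T13)
  have e : hJ τ T13 / sJ τ T13 = hJ τ T13 * Real.cosh (hJ τ T13) / (τ * Real.sin T13) := by
    rw [sJ, div_div_eq_mul_div]
  have sp := sin_T13_pos
  have sl := sin_T13_le
  have sg := sin_T13_ge
  have k1 := fJ_le j0
  have k2 := fJ_ge j0 (by rw [sh]; nlinarith)
  rw [sh] at k1 k2
  rw [e]
  constructor
  · rw [le_div_iff₀ (by positivity)]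
    refine le_trans ?_ k2
    have : 8552 / 10000 * Real.sin T13 ≤ 13 / 20 := by linarith
    have := mul_le_mul_of_nonneg_left this (by positivity : 0 ≤ τ * (1 + 169 / 1600 * τ ^ 2))
    nlinarith
  · rw [div_le_iff₀ (by positivity)]
    refine k1.trans ?_
    have : 13 / 20 ≤ 8554 / 10000 * Real.sin T13 := by linarith
    have := mul_le_mul_of_nonneg_left this (by positivity : 0 ≤ τ * (1 + 169 / 1200 * τ ^ 2))
    nlinarith

theorem Dev_bounds {p1 p2 : ℝ} (hτ : 0 < τ) (h1 : τ ^ 2 ≤ 1) (hp1 : p1 ≤ P / b)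
    (hp2 : P / b ≤ p2) :
    p1 + 77 / 10000 - 1205 / 10000 * τ ^ 2 ≤ Dev τ b P ∧
      Dev τ b P ≤ p2 + 81 / 10000 - 903 / 10000 * τ ^ 2 := by
  obtain ⟨a, c⟩ := ratio_bounds hτ h1
  have t1 := T13_ge
  have t2 := T13_le
  have t0 := sq_nonneg τ
  unfold Dev
  constructor <;> nlinarith

theorem loss_le {p1 p2 B d : ℝ} (hτ : 0 < τ) (h1 : τ ^ 2 ≤ 1) (hp1 : p1 ≤ P / b)
    (hp2 : P / b ≤ p2) (hB : b * sJ τ T13 ≤ B) (hB0 : 0 ≤ B)
    (d1 : -d ≤ p1 + 77 / 10000 - 1205 / 10000 * τ ^ 2)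
    (d2 : p2 + 81 / 10000 - 903 / 10000 * τ ^ 2 ≤ d) :
    lossJ τ b P T13 ≤ 15916 / 100000 * (B * d ^ 2) := by
  have hpi := Real.pi_pos
  obtain ⟨a, c⟩ := Dev_bounds hτ h1 hp1 hp2
  have k : Dev τ b P ^ 2 ≤ d ^ 2 := sq_le_sq' (by linarith) (by linarith)
  have p : 1 / (2 * Real.pi) ≤ 15916 / 100000 := by
    rw [div_le_iff₀ (by positivity)]
    have := Real.pi_gt_d4
    linarith
  rw [lossJ_eq]
  calc b * sJ τ T13 / (2 * Real.pi) * Dev τ b P ^ 2 =
      1 / (2 * Real.pi) * (b * sJ τ T13 * Dev τ b P ^ 2) := by ring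
    _ ≤ 1 / (2 * Real.pi) * (B * d ^ 2) :=
        mul_le_mul_of_nonneg_left (mul_le_mul hB k (sq_nonneg _) hB0) (by positivity)
    _ ≤ 15916 / 100000 * (B * d ^ 2) := mul_le_mul_of_nonneg_right p (by positivity)

/-- The loss of an inner vertex of multiplicity two. -/
theorem loss_two {t S L : ℝ} (hτ : 0 < τ) (ht : τ ^ 2 ≤ t) (ht1 : t ≤ 1) (hb : 0 < b)
    (hb1 : b ≤ 5 / 3) (hp1 : -(7 / 20) ≤ P / b) (hp2 : P / b ≤ 9 / 20) (hS : 0 ≤ S)
    (h1 : 231 / 400 * t ≤ S ^ 2 * (1 + 169 / 400 * t))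
    (h2 : 15916 / 100000 * (5 / 3 * S * (3423 / 10000 + 1205 / 10000 * t) ^ 2) ≤ L)
    (h3 : 245 / 10000 ≤ L) : lossJ τ b P T13 ≤ L := by
  have hpi := Real.pi_pos
  have τ1 : τ ^ 2 ≤ 1 := ht.trans ht1
  obtain ⟨a, c⟩ := Dev_bounds hτ τ1 hp1 hp2
  have s0 := sJ_pos hτ T13_pos T13_lt
  have s1 := sJ_T13_le ht hS h1
  have p : 1 / (2 * Real.pi) ≤ 15916 / 100000 := by
    rw [div_le_iff₀ (by positivity)]
    have := Real.pi_gt_d4
    linarith
  have t0 := sq_nonneg τ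
  rw [lossJ_eq]
  have e : b * sJ τ T13 / (2 * Real.pi) * Dev τ b P ^ 2 =
      1 / (2 * Real.pi) * (b * (sJ τ T13 * Dev τ b P ^ 2)) := by ring
  rw [e]
  have n0 : 0 ≤ sJ τ T13 * Dev τ b P ^ 2 := by positivity
  have q : 1 / (2 * Real.pi) * (b * (sJ τ T13 * Dev τ b P ^ 2)) ≤
      15916 / 100000 * (5 / 3 * (sJ τ T13 * Dev τ b P ^ 2)) :=
    mul_le_mul p (mul_le_mul_of_nonneg_right hb1 n0) (by positivity) (by norm_num)
  refine q.trans ?_
  rcases le_total (Dev τ b P) 0 with hD | hD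
  · refine le_trans ?_ h2
    have k : Dev τ b P ^ 2 ≤ (3423 / 10000 + 1205 / 10000 * t) ^ 2 :=
      sq_le_sq' (by linarith) (by linarith)
    have := mul_le_mul s1 k (sq_nonneg _) hS
    linarith
  · refine le_trans ?_ h3
    -- `s D² ≤ 923/10000`
    have key : sJ τ T13 * Dev τ b P ^ 2 ≤ 923 / 10000 := by
      apply le_of_sq_le_sq _ (by norm_num)
      have k1 : Dev τ b P ≤ 4581 / 10000 - 903 / 10000 * τ ^ 2 := by linarith
      have k2 : Dev τ b P ^ 4 ≤ (4581 / 10000 - 903 / 10000 * τ ^ 2) ^ 4 :=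
        pow_le_pow_left₀ hD k1 4
      rw [mul_pow, sJ_T13_sq, ← pow_mul]
      norm_num only
      rw [div_mul_eq_mul_div, div_le_iff₀ (by positivity)]
      have k3 : 231 / 400 * τ ^ 2 * Dev τ b P ^ 4 ≤
          231 / 400 * τ ^ 2 * (4581 / 10000 - 903 / 10000 * τ ^ 2) ^ 4 :=
        mul_le_mul_of_nonneg_left k2 (by positivity)
      refine k3.trans ?_
      obtain ⟨y, hy⟩ : ∃ y, y = τ ^ 2 := ⟨_, rfl⟩
      rw [← hy] at t0 τ1 ⊢
      -- polynomial inequality
      have w0 : 0 ≤ 4581 / 10000 - 903 / 10000 * y := by linarith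
      have z1 : (4581 / 10000 - 903 / 10000 * y) ^ 2 ≤ 2099 / 10000 - 745 / 10000 * y := by
        nlinarith
      have z2 : (4581 / 10000 - 903 / 10000 * y) ^ 4 ≤ (2099 / 10000 - 745 / 10000 * y) ^ 2 := by
        have := pow_le_pow_left₀ (sq_nonneg (4581 / 10000 - 903 / 10000 * y)) z1 2
        calc (4581 / 10000 - 903 / 10000 * y) ^ 4 =
            ((4581 / 10000 - 903 / 10000 * y) ^ 2) ^ 2 := by ring
          _ ≤ _ := this
      have z3 : (2099 / 10000 - 745 / 10000 * y) ^ 2 ≤ 441 / 10000 - 257 / 10000 * y := by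
        nlinarith
      have z4 : 231 / 400 * y * (4581 / 10000 - 903 / 10000 * y) ^ 4 ≤
          231 / 400 * y * (441 / 10000 - 257 / 10000 * y) :=
        mul_le_mul_of_nonneg_left (z2.trans z3) (by positivity)
      refine z4.trans ?_
      nlinarith [sq_nonneg (y - 3 / 4)]
    linarith

end

end Pool.Agent.S3
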