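import Pool.Agent.S3.Es16

/-!
# Open-open edges next to an inner vertex of multiplicity two: `EndAll`
-/

set_option autoImplicit false

namespace Pool.Agent.S3

open Complex
open Pool.Agent.H25.RK (gdv gdv_re_lt gdv_hasDerivAt)

/-- The number `P = π / 2 - im q - b re z` of a vertex at an edge. -/
noncomputable def Pe (θ θ' xc xc' b : ℝ) : ℝ :=
  Real.pi / 2 - (qq (UU xc θ) (UU xc' (-θ'))).im - b * (Real.pi * (gdv (UU xc θ)).re)

/-- The loss of a vertex at an edge. -/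
noncomputable def Le (θ θ' xc xc' b : ℝ) : ℝ := lossJ (Real.tan θ) b (Pe θ θ' xc xc' b) T13

/-- The bounds of the loss `ℓ` of a neighbour of multiplicity at least three, `k = tan² θ`. -/
def L3 (k ℓ : ℝ) : Prop :=
  (k ≤ 1 / 10 ∧ ℓ ≤ 7 / 100) ∨ (k ≤ 1 / 5 ∧ ℓ ≤ 45 / 1000) ∨ (k ≤ 2 / 5 ∧ ℓ ≤ 41 / 1000)

section

variable {Φ : ℂ → ℂ → ℂ} {θ θ' xc xc' b b' v1 v1' μ μ' τ P : ℝ}

/-- A vertex of multiplicity at least three with `|P / b| ≤ 2 / 5`. -/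
theorem L3.of_le (hτ : 0 < τ) (h1 : τ ^ 2 ≤ 37 / 100) (hb : 0 < b) (hbτ : b * τ ≤ 7 / 4)
    (hp1 : -(2 / 5) ≤ P / b) (hp2 : P / b ≤ 2 / 5) : L3 (τ ^ 2) (lossJ τ b P T13) := by
  refine Or.inr (Or.inr ⟨h1.trans (by norm_num), ?_⟩)
  have s1 : b * sJ τ T13 ≤ 133 / 100 := by
    have h2 : sJ τ T13 ≤ τ * (76 / 100) := by
      unfold sJ
      rw [div_le_iff₀ (Real.cosh_pos _)]
      have := Real.one_le_cosh (hJ τ T13)
      have := sin_T13_le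
      have := sin_T13_pos
      have : τ * Real.sin T13 ≤ τ * (76 / 100) := mul_le_mul_of_nonneg_left (by linarith) hτ.le
      nlinarith [mul_pos hτ (by norm_num : (0 : ℝ) < 76 / 100)]
    have := mul_le_mul_of_nonneg_left h2 hb.le
    linarith
  have k := loss_le (d := 437 / 1000) hτ (by linarith) hp1 hp2 s1 (by norm_num) (by linarith)
    (by nlinarith [sq_nonneg τ])
  norm_num at k
  linarith

/-- An end of multiplicity three. -/
theorem L3.of_end3 (hτ : 0 < τ) (h1 : τ ^ 2 ≤ 3 / 20) (hb : b = 3)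
    (hP : P / b = -(Real.pi / 6)) : L3 (τ ^ 2) (lossJ τ b P T13) := by
  refine Or.inr (Or.inl ⟨by linarith, ?_⟩)
  have p1 := Real.pi_lt_d4
  have p2 := Real.pi_gt_d4
  have s1 : b * sJ τ T13 ≤ 858 / 1000 := by
    have h2 : sJ τ T13 ≤ 286 / 1000 := sJ_T13_le h1 (by norm_num) (by norm_num)
    rw [hb]
    linarith
  have k := loss_le (p1 := -(5237 / 10000)) (p2 := 0) (d := 5341 / 10000) hτ (by linarith)
    (by rw [hP]; linarith) (by rw [hP]; linarith) s1 (by norm_num) (by linarith)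
    (by nlinarith [sq_nonneg τ])
  norm_num at k
  linarith

/-- **Row (d)**: two inner vertices of multiplicity two. -/
theorem endAll_22 (hΦ : IsPhi Φ) (h0 : Φ 0 0 = c00) (ho : OppHyp θ θ' xc xc')
    (hs : Split θ θ' xc xc' b b') (hc : 0 < xc) (hc' : 0 < xc')
    (J : Jt (Real.tan θ ^ 2) (Real.tan θ' ^ 2)) (J' : Jt (Real.tan θ' ^ 2) (Real.tan θ ^ 2))
    (hl : L2 (Real.tan θ ^ 2) (Le θ θ' xc xc' b))
    (hl' : L2 (Real.tan θ' ^ 2) (Le θ' θ xc' xc b')) (p0 : 0 < v1) (p1 : v1 < 1 / 2)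
    (p0' : 0 < v1') (p1' : v1' < 1 / 2) (hμ : μ ≤ Real.pi) (hμ' : μ' ≤ Real.pi) :
    EndAll Φ θ θ' xc xc' b b' v1 v1' μ μ' := by
  have tp : 0 < Real.tan θ := Real.tan_pos_of_pos_of_lt_pi_div_two ho.θ0 (θ_lt ho)
  have tp' : 0 < Real.tan θ' := Real.tan_pos_of_pos_of_lt_pi_div_two ho.θ0' (θ_lt ho.symm)
  have key : Le θ θ' xc xc' b + Le θ' θ xc' xc b' +
      (exc (Real.tan θ ^ 2) + exc (Real.tan θ' ^ 2)) <
      gx Φ (Real.tan θ * (13 / 20)) (Real.tan θ' * (13 / 20)) := by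
    rcases le_total (Real.tan θ') (Real.tan θ) with h | h
    · exact sum22 hΦ h0 tp.le tp'.le h J hl hl'
    · have k := sum22 hΦ.swap h0 tp'.le tp.le h J' hl' hl
      rw [gx_swap hΦ (J.lv J' tp.le tp'.le)] at k
      linarith
  refine endAll_sep (ε := exc (Real.tan θ ^ 2)) (ε' := exc (Real.tan θ' ^ 2)) hΦ ho hs hc hc'
    T13_pos T13_lt T13_pos T13_lt (g := gx Φ (Real.tan θ * (13 / 20)) (Real.tan θ' * (13 / 20)))
    ?_ key (Exc_exc J.t1) (Exc_exc J'.t1) p0 p1 p0' p1' hμ hμ'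
  rw [gx, hJ, hJ, cos_T13]

theorem Jt.lv' {τ τ' : ℝ} (J : Jt (τ ^ 2) (τ' ^ 2)) (h : τ' ^ 2 ≤ 2 / 5) (hτ : 0 ≤ τ)
    (hτ' : 0 ≤ τ') : Lv (τ * (13 / 20)) (τ' * (13 / 20)) := by
  have a1 : τ ≤ 1 := by nlinarith [J.t1]
  have a2 : τ' < 1 := by nlinarith
  exact ⟨by positivity, by positivity, by linarith, by linarith, Or.inr (by linarith)⟩

theorem L3.le {k ℓ : ℝ} (h : L3 k ℓ) : k ≤ 2 / 5 := by
  rcases h with h | h | h <;> linarith [h.1]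

/-- **Row (d)**: an inner vertex of multiplicity two, then a vertex of multiplicity at least
three. -/
theorem endAll_2p (hΦ : IsPhi Φ) (h0 : Φ 0 0 = c00) (ho : OppHyp θ θ' xc xc')
    (hs : Split θ θ' xc xc' b b') (hc : 0 < xc) (hc' : 0 < xc')
    (J : Jt (Real.tan θ ^ 2) (Real.tan θ' ^ 2))
    (hl : L2 (Real.tan θ ^ 2) (Le θ θ' xc xc' b))
    (hl' : L3 (Real.tan θ' ^ 2) (Le θ' θ xc' xc b')) (p0 : 0 < v1) (p1 : v1 < 1 / 2)
    (p0' : 0 < v1') (p1' : v1' < 1 / 2) (hμ : μ ≤ Real.pi) (hμ' : μ' ≤ Real.pi) :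
    EndAll Φ θ θ' xc xc' b b' v1 v1' μ μ' := by
  have tp : 0 < Real.tan θ := Real.tan_pos_of_pos_of_lt_pi_div_two ho.θ0 (θ_lt ho)
  have tp' : 0 < Real.tan θ' := Real.tan_pos_of_pos_of_lt_pi_div_two ho.θ0' (θ_lt ho.symm)
  have key := sum2p hΦ h0 tp.le tp'.le J hl hl'
  refine endAll_sep (ε := exc (Real.tan θ ^ 2)) (ε' := exc (Real.tan θ' ^ 2)) hΦ ho hs hc hc'
    T13_pos T13_lt T13_pos T13_lt (g := gx Φ (Real.tan θ * (13 / 20)) (Real.tan θ' * (13 / 20)))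
    ?_ key (Exc_exc J.t1) (Exc_exc (hl'.le.trans (by norm_num))) p0 p1 p0' p1' hμ hμ'
  rw [gx, hJ, hJ, cos_T13]

/-- **Row (d)**: a vertex of multiplicity at least three, then an inner vertex of multiplicity
two. -/
theorem endAll_p2 (hΦ : IsPhi Φ) (h0 : Φ 0 0 = c00) (ho : OppHyp θ θ' xc xc')
    (hs : Split θ θ' xc xc' b b') (hc : 0 < xc) (hc' : 0 < xc')
    (J : Jt (Real.tan θ' ^ 2) (Real.tan θ ^ 2))
    (hl : L3 (Real.tan θ ^ 2) (Le θ θ' xc xc' b))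
    (hl' : L2 (Real.tan θ' ^ 2) (Le θ' θ xc' xc b')) (p0 : 0 < v1) (p1 : v1 < 1 / 2)
    (p0' : 0 < v1') (p1' : v1' < 1 / 2) (hμ : μ ≤ Real.pi) (hμ' : μ' ≤ Real.pi) :
    EndAll Φ θ θ' xc xc' b b' v1 v1' μ μ' := by
  have tp : 0 < Real.tan θ := Real.tan_pos_of_pos_of_lt_pi_div_two ho.θ0 (θ_lt ho)
  have tp' : 0 < Real.tan θ' := Real.tan_pos_of_pos_of_lt_pi_div_two ho.θ0' (θ_lt ho.symm)
  have key := sum2p hΦ.swap h0 tp'.le tp.le J hl' hl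
  rw [gx_swap hΦ (J.lv' hl.le tp'.le tp.le).symm] at key
  refine endAll_sep (ε := exc (Real.tan θ ^ 2)) (ε' := exc (Real.tan θ' ^ 2)) hΦ ho hs hc hc'
    T13_pos T13_lt T13_pos T13_lt (g := gx Φ (Real.tan θ * (13 / 20)) (Real.tan θ' * (13 / 20)))
    ?_ ?_ (Exc_exc (hl.le.trans (by norm_num))) (Exc_exc J.t1) p0 p1 p0' p1' hμ hμ'
  · rw [gx, hJ, hJ, cos_T13]
  · unfold Le Pe at key
    linarith

end

end Pool.Agent.S3
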