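import Pool.Agent.S3.Es2

/-!
# Open-open edges: the bound is separable

On the `u`-line `sinh J = τ cos R` the function `(P + b R) J` is at most
`b s / 4 (P / b + T + J_T / s) ²` for every test point `T`, where `s` is the slope at `T`.
-/

set_option autoImplicit false

namespace Pool.Agent.S3

open Complex
open Pool.Agent.H25.RK (gdv gdv_re_lt gdv_hasDerivAt)

section

variable {Φ : ℂ → ℂ → ℂ} {θ θ' xc xc' b b' T T' τ : ℝ} {v w : ℂ}

/-- The height of the line of slope `τ` at `R`. -/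
noncomputable def hJ (τ R : ℝ) : ℝ := Real.arsinh (τ * Real.cos R)

theorem sinh_hJ (τ R : ℝ) : Real.sinh (hJ τ R) = τ * Real.cos R := Real.sinh_arsinh _

/-- The slope at `T`. -/
noncomputable def sJ (τ T : ℝ) : ℝ := τ * Real.sin T / Real.cosh (hJ τ T)

theorem hJ_nonneg (hτ : 0 ≤ τ) {R : ℝ} (hc : 0 ≤ Real.cos R) : 0 ≤ hJ τ R := by
  rw [← Real.sinh_nonneg_iff, sinh_hJ]
  exact mul_nonneg hτ hc

theorem hasDerivAt_hJ (τ R : ℝ) : HasDerivAt (hJ τ) (-(sJ τ R)) R := by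
  have h := ((Real.hasDerivAt_cos R).const_mul τ).arsinh
  refine h.congr_deriv ?_
  have e : Real.cosh (hJ τ R) = √(1 + (τ * Real.cos R) ^ 2) := by
    rw [hJ, Real.cosh_arsinh]
  rw [sJ, e, smul_eq_mul]
  ring

theorem sJ_mono (hτ : 0 ≤ τ) {R R' : ℝ} (h0 : 0 ≤ R) (h : R ≤ R') (h' : R' ≤ Real.pi / 2) :
    sJ τ R ≤ sJ τ R' := by
  have hpi := Real.pi_pos
  have c0 : 0 ≤ Real.cos R' := Real.cos_nonneg_of_mem_Icc ⟨by linarith, h'⟩
  have c1 : 0 ≤ Real.cos R := Real.cos_nonneg_of_mem_Icc ⟨by linarith, by linarith⟩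
  have s0 : 0 ≤ Real.sin R' := Real.sin_nonneg_of_nonneg_of_le_pi (h0.trans h) (by linarith)
  have j : hJ τ R' ≤ hJ τ R := by
    rw [← Real.sinh_le_sinh, sinh_hJ, sinh_hJ]
    exact mul_le_mul_of_nonneg_left
      (Real.cos_le_cos_of_nonneg_of_le_pi h0 (by linarith) h) hτ
  have k : Real.cosh (hJ τ R') ≤ Real.cosh (hJ τ R) := by
    rw [Real.cosh_le_cosh, abs_of_nonneg (hJ_nonneg hτ c0), abs_of_nonneg (hJ_nonneg hτ c1)]
    exact j
  have s1 : Real.sin R ≤ Real.sin R' :=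
    Real.sin_le_sin_of_le_of_le_pi_div_two (by linarith) h' h
  unfold sJ
  apply div_le_div₀ (mul_nonneg hτ s0) (mul_le_mul_of_nonneg_left s1 hτ) (Real.cosh_pos _) k

/-- The height is below its tangents. -/
theorem hJ_tangent (hτ : 0 ≤ τ) {R : ℝ} (h0 : 0 ≤ R) (h1 : R ≤ Real.pi / 2) (hT : 0 ≤ T)
    (hT1 : T ≤ Real.pi / 2) : hJ τ R ≤ hJ τ T - sJ τ T * (R - T) := by
  have hd : ∀ x, HasDerivAt (fun x => hJ τ x + sJ τ T * x) (-(sJ τ x) + sJ τ T) x := fun x =>
    ((hasDerivAt_hJ τ x).add ((hasDerivAt_id' x).const_mul (sJ τ T))).congr_deriv (by ring)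
  rcases le_total R T with h | h
  · have key : MonotoneOn (fun x => hJ τ x + sJ τ T * x) (Set.Icc R T) := by
      apply monotoneOn_of_deriv_nonneg (convex_Icc R T)
      · exact fun t _ => (hd t).continuousAt.continuousWithinAt
      · exact fun t _ => (hd t).differentiableAt.differentiableWithinAt
      · intro t ht
        rw [interior_Icc] at ht
        rw [(hd t).deriv]
        have := sJ_mono hτ (h0.trans ht.1.le) ht.2.le hT1
        linarith
    have := key ⟨le_rfl, h⟩ ⟨h, le_rfl⟩ h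
    simp only at this
    linarith
  · have key : AntitoneOn (fun x => hJ τ x + sJ τ T * x) (Set.Icc T R) := by
      apply antitoneOn_of_deriv_nonpos (convex_Icc T R)
      · exact fun t _ => (hd t).continuousAt.continuousWithinAt
      · exact fun t _ => (hd t).differentiableAt.differentiableWithinAt
      · intro t ht
        rw [interior_Icc] at ht
        rw [(hd t).deriv]
        have := sJ_mono hτ hT ht.1.le (ht.2.le.trans h1)
        linarith
    have := key ⟨le_rfl, h⟩ ⟨h, le_rfl⟩ h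
    simp only at this
    linarith

/-- The loss at the test point `T`. -/
noncomputable def lossJ (τ b P T : ℝ) : ℝ :=
  b * sJ τ T / (2 * Real.pi) * (P / b + T - hJ τ T / sJ τ T) ^ 2

theorem sJ_pos (hτ : 0 < τ) (hT : 0 < T) (hT1 : T < Real.pi / 2) : 0 < sJ τ T := by
  unfold sJ
  have := Real.sin_pos_of_pos_of_lt_pi hT (by linarith [Real.pi_pos])
  have := Real.cosh_pos (hJ τ T)
  positivity

theorem sep_bound (hτ : 0 < τ) (hb : 0 < b) {P R : ℝ} (h0 : 0 ≤ R) (h1 : R < Real.pi / 2)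
    (hT : 0 < T) (hT1 : T < Real.pi / 2) :
    2 / Real.pi * ((P + b * R) * hJ τ R) ≤
      2 / Real.pi * ((P + b * T) * hJ τ T) + lossJ τ b P T := by
  have hpi := Real.pi_pos
  have s0 := sJ_pos hτ hT hT1
  have j0 : 0 ≤ hJ τ R := hJ_nonneg hτ.le (Real.cos_nonneg_of_mem_Icc ⟨by linarith, h1.le⟩)
  have jt := hJ_tangent hτ.le h0 h1.le hT.le hT1.le
  set s := sJ τ T with hs
  set J := hJ τ T with hJ'
  have e : 2 / Real.pi * ((P + b * T) * J) + lossJ τ b P T =
      2 / Real.pi * (b * s / 4 * (P / b + T + J / s) ^ 2) := by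
    rw [lossJ, ← hs, ← hJ']
    field_simp
    ring
  rw [e]
  apply mul_le_mul_of_nonneg_left _ (by positivity)
  rcases le_total (P + b * R) 0 with h | h
  · have : (P + b * R) * hJ τ R ≤ 0 := mul_nonpos_of_nonpos_of_nonneg h j0
    have : 0 ≤ b * s / 4 * (P / b + T + J / s) ^ 2 := by positivity
    linarith
  · have k1 := mul_le_mul_of_nonneg_left jt h
    have k2 : b * s / 4 * (P / b + T + J / s) ^ 2 - (P + b * R) * (J - s * (R - T)) =
        b * s / 4 * ((P / b + R) - (J / s - (R - T))) ^ 2 := by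
      field_simp
      ring
    have : 0 ≤ b * s / 4 * ((P / b + R) - (J / s - (R - T))) ^ 2 := by positivity
    linarith

/-- `π im v - ell v` on the line, explicitly. -/
theorem tE_eq {Q : ℂ} (hQ : Q.re = b * (Real.pi * (gdv (UU xc θ)).im)) (x : ℝ) :
    tE θ b xc Q x = 2 / Real.pi * (((Real.pi / 2 - Q.im - b * (Real.pi * (gdv (UU xc θ)).re)) +
      b * (Real.pi * (gdv (UU x θ)).re)) * (Real.pi * (gdv (UU x θ)).im)) +
      2 / Real.pi * (Q.im * (Real.pi * (gdv (UU xc θ)).im)) := by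
  have hpi := Real.pi_pos
  rw [tE, ell]
  simp only [add_re, mul_re, mul_im, sub_re, sub_im, sq, I_re, I_im, ofReal_re, ofReal_im,
    re_ofNat, im_ofNat, div_ofNat_re, div_ofNat_im]
  rw [hQ]
  field_simp
  ring

theorem line_hJ (hθ : |θ| < Real.pi / 2) (x : ℝ) : Real.pi * (gdv (UU x θ)).im =
    hJ (Real.tan θ) (Real.pi * (gdv (UU x θ)).re) := by
  rw [← Real.sinh_inj, sinh_hJ, line_im_bl hθ, sinh_pi_bl]

/-- The point of the line above `T`. -/
theorem exists_xT (hθ : |θ| < Real.pi / 2) (hT : 0 ≤ T) (hT1 : T < Real.pi / 2) :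
    ∃ x : ℝ, 0 ≤ x ∧ Real.pi * (gdv (UU x θ)).re = T := by
  have hpi := Real.pi_gt_three
  set a : ℝ := T / Real.pi with ha
  have a0 : 0 ≤ a := by positivity
  have a1 : a < 1 / 2 := by
    rw [ha, div_lt_iff₀ (by linarith)]; linarith
  set p : ℂ := (a : ℂ) + ((bl θ a : ℝ) : ℂ) * I with hp
  have pr : p.re = a := by simp [hp]
  have pim : p.im = bl θ a := by simp [hp]
  have habs : |p.re| < 1 / 2 := by rw [pr, abs_of_nonneg a0]; exact a1
  have h1 := line_exists habs hθ (by rw [pim, pr])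
  refine ⟨(uof p).re, uof_re_nonneg habs (by rw [pr]; exact a0), ?_⟩
  rw [← h1, pr, ha]
  field_simp

/-- **The separable bound.** -/
theorem B0_sep_add (hΦ : IsPhi Φ) (ho : OppHyp θ θ' xc xc')
    (hs : Split θ θ' xc xc' b b') (hc : 0 < xc) (hc' : 0 < xc')
    (hT : 0 < T) (hT1 : T < Real.pi / 2) (hT' : 0 < T') (hT1' : T' < Real.pi / 2) {g δ : ℝ}
    (hg : g ≤ FP Φ (UU T (hJ (Real.tan θ) T)) (UU T' (-(hJ (Real.tan θ') T'))) -
      hJ (Real.tan θ) T - hJ (Real.tan θ') T')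
    (hl : lossJ (Real.tan θ) b
        (Real.pi / 2 - (qq (UU xc θ) (UU xc' (-θ'))).im - b * (Real.pi * (gdv (UU xc θ)).re)) T +
      lossJ (Real.tan θ') b'
        (Real.pi / 2 - (qq (UU xc' θ') (UU xc (-θ))).im -
          b' * (Real.pi * (gdv (UU xc' θ')).re)) T' + δ < g)
    (hv : 0 ≤ v.re) (hv1 : v.re < 1 / 2) (hv' : v.im = bl θ v.re) (hw : 0 ≤ w.re)
    (hw1 : w.re < 1 / 2) (hw' : w.im = bl θ' w.re) :
    Real.pi * (v.im + w.im) + δ < L0 Φ θ θ' b b' xc xc' v w := by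
  have hpi := Real.pi_pos
  have aθ : |θ| < Real.pi / 2 := by rw [abs_of_pos ho.θ0]; exact θ_lt ho
  have aθ' : |θ'| < Real.pi / 2 := by rw [abs_of_pos ho.θ0']; exact θ_lt ho.symm
  have tp : 0 < Real.tan θ := Real.tan_pos_of_pos_of_lt_pi_div_two ho.θ0 (θ_lt ho)
  have tp' : 0 < Real.tan θ' := Real.tan_pos_of_pos_of_lt_pi_div_two ho.θ0' (θ_lt ho.symm)
  have ev := line_exists (by rw [abs_of_nonneg hv]; exact hv1) aθ hv'
  have ew := line_exists (by rw [abs_of_nonneg hw]; exact hw1) aθ' hw'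
  have hQ : (qq (UU xc θ) (UU xc' (-θ'))).re = b * (Real.pi * (gdv (UU xc θ)).im) := by
    rw [hs.hQ, gd_eq (by rw [UU_im]; exact aθ), im_ofReal_mul]
  have hQ' : (qq (UU xc' θ') (UU xc (-θ))).re = b' * (Real.pi * (gdv (UU xc' θ')).im) := by
    rw [hs.hQ', gd_eq (by rw [UU_im]; exact aθ'), im_ofReal_mul]
  obtain ⟨X, x0, x1⟩ := exists_xT (T := T) aθ hT.le hT1
  obtain ⟨X', y0, y1⟩ := exists_xT (T := T') aθ' hT'.le hT1'
  have l := L0_line (Φ := Φ) (b := b) (b' := b') ho X X'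
  have d := Dfun_main hΦ ho hs hc hc' X X'
  -- the value at the test points
  have i1 := line_hJ aθ X
  have i2 := line_hJ aθ' X'
  rw [x1] at i1
  rw [y1] at i2
  have pc : (Real.pi : ℂ) ≠ 0 := by exact_mod_cast hpi.ne'
  have g1 : UU T (hJ (Real.tan θ) T) = (Real.pi : ℂ) * gdv (UU X θ) := by
    rw [← UU_pi, x1, i1]
  have g2 : UU T' (hJ (Real.tan θ') T') = (Real.pi : ℂ) * gdv (UU X' θ') := by
    rw [← UU_pi, y1, i2]
  rw [← UU_conj, g1, g2, FP, map_mul, conj_ofReal, mul_div_cancel_left₀ _ pc,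
    mul_div_cancel_left₀ _ pc] at hg
  -- the losses
  have k1 := sep_bound (τ := Real.tan θ) (b := b) (T := T)
    (P := Real.pi / 2 - (qq (UU xc θ) (UU xc' (-θ'))).im - b * (Real.pi * (gdv (UU xc θ)).re))
    (R := Real.pi * v.re) tp hs.b0 (mul_nonneg hpi.le hv) (by nlinarith) hT hT1
  have k2 := sep_bound (τ := Real.tan θ') (b := b') (T := T')
    (P := Real.pi / 2 - (qq (UU xc' θ') (UU xc (-θ))).im - b' * (Real.pi * (gdv (UU xc' θ')).re))
    (R := Real.pi * w.re) tp' hs.b0' (mul_nonneg hpi.le hw) (by nlinarith) hT' hT1'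
  have t1 := tE_eq hQ (uof v).re
  have t2 := tE_eq hQ X
  have t3 := tE_eq hQ' (uof w).re
  have t4 := tE_eq hQ' X'
  rw [line_hJ aθ, ← ev] at t1
  rw [line_hJ aθ, x1] at t2
  rw [line_hJ aθ', ← ew] at t3
  rw [line_hJ aθ', y1] at t4
  simp only [tE, ← ev] at t1
  simp only [tE] at t2
  simp only [tE, ← ew] at t3
  simp only [tE] at t4
  rw [← i1] at hg k1 t2
  rw [← i2] at hg k2 t4
  rw [L0] at l ⊢
  linarith

/-- The separable bound without excess. -/
theorem B0_sep (hΦ : IsPhi Φ) (ho : OppHyp θ θ' xc xc')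
    (hs : Split θ θ' xc xc' b b') (hc : 0 < xc) (hc' : 0 < xc')
    (hT : 0 < T) (hT1 : T < Real.pi / 2) (hT' : 0 < T') (hT1' : T' < Real.pi / 2) {g : ℝ}
    (hg : g ≤ FP Φ (UU T (hJ (Real.tan θ) T)) (UU T' (-(hJ (Real.tan θ') T'))) -
      hJ (Real.tan θ) T - hJ (Real.tan θ') T')
    (hl : lossJ (Real.tan θ) b
        (Real.pi / 2 - (qq (UU xc θ) (UU xc' (-θ'))).im - b * (Real.pi * (gdv (UU xc θ)).re)) T +
      lossJ (Real.tan θ') b'
        (Real.pi / 2 - (qq (UU xc' θ') (UU xc (-θ))).im -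
          b' * (Real.pi * (gdv (UU xc' θ')).re)) T' < g)
    (hv : 0 ≤ v.re) (hv1 : v.re < 1 / 2) (hv' : v.im = bl θ v.re) (hw : 0 ≤ w.re)
    (hw1 : w.re < 1 / 2) (hw' : w.im = bl θ' w.re) :
    Real.pi * (v.im + w.im) < L0 Φ θ θ' b b' xc xc' v w := by
  have := B0_sep_add (δ := 0) hΦ ho hs hc hc' hT hT1 hT' hT1' hg (by linarith) hv hv1 hv' hw hw1 hw'
  linarith

end

end Pool.Agent.S3
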