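import Pool.Agent.S3.Es3

/-!
# Open-open edges: the middle interval for higher points

For `sinh² (π im v) ≤ 4/5 cos² (π re v)` the estimate `se y (op v) ≤ π im v` on `-1/10 ≤ y ≤ 0`
persists; for `sinh² (π im v) ≤ cos² (π re v)` it holds with an excess of `82/10000`.
-/

set_option autoImplicit false

namespace Pool.Agent.S3

open Complex MeasureTheory

section

variable {v : ℂ}

private theorem mid_alg8 {c k s : ℝ} (hc : 9 / 10 ≤ c) (hk : 0 ≤ k) (hk1 : k ≤ 1) (hs : 0 ≤ s)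
    (hs1 : s ≤ 4 / 5 * k) : (k + s) ^ 2 ≤ 2 * c * (k + 2 * k * s - s) := by
  rcases hk.eq_or_lt with h0 | h0
  · rw [← h0] at hs1 ⊢
    have : s = 0 := by linarith
    rw [this]; simp
  · obtain ⟨τ, hτ⟩ : ∃ τ, τ = s / k := ⟨_, rfl⟩
    have e : s = τ * k := by rw [hτ]; field_simp
    have τ0 : 0 ≤ τ := by rw [hτ]; positivity
    have τ1 : τ ≤ 4 / 5 := by
      rw [hτ, div_le_iff₀ h0]; exact hs1
    rw [e]
    have h1 : 0 ≤ k + 2 * k * (τ * k) - τ * k := by nlinarith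
    have h2 : (k + τ * k) ^ 2 ≤ 2 * (9 / 10) * (k + 2 * k * (τ * k) - τ * k) := by
      have h3 : k * (1 + τ) ^ 2 ≤ 2 * (9 / 10) * (1 - τ + 2 * τ * k) := by
        have t1 : 0 ≤ (1 - k) * (4 / 5 - τ) := mul_nonneg (by linarith) (by linarith)
        have t2 : 0 ≤ k * (τ * (4 / 5 - τ)) := mul_nonneg h0.le (mul_nonneg τ0 (by linarith))
        nlinarith
      nlinarith
    nlinarith

private theorem mid_alg1 {c k s : ℝ} (hc : 9 / 10 ≤ c) (hc1 : c ≤ 1) (hk : 0 ≤ k) (hk1 : k ≤ 1)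
    (hs : 0 ≤ s) (hs1 : s ≤ k) :
    (k + s) ^ 2 - 2 * c * (k + 2 * k * s - s) ≤ 4 * (1 - c) := by
  -- increasing in `s`, convex in `k`
  have h1 : (k + s) ^ 2 - 2 * c * (k + 2 * k * s - s) ≤ (k + k) ^ 2 - 2 * c * (k + 2 * k * k - k) := by
    have e : (k + k) ^ 2 - 2 * c * (k + 2 * k * k - k) - ((k + s) ^ 2 - 2 * c * (k + 2 * k * s - s)) =
        (k - s) * (3 * k + s + 2 * c * (1 - 2 * k)) := by ring
    have h2 : 0 ≤ 3 * k + s + 2 * c * (1 - 2 * k) := by nlinarith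
    have := mul_nonneg (sub_nonneg.2 hs1) h2
    linarith
  have h3 : (k + k) ^ 2 - 2 * c * (k + 2 * k * k - k) = 4 * (1 - c) * k ^ 2 := by ring
  have h4 : k ^ 2 ≤ 1 := by nlinarith
  have h5 : 4 * (1 - c) * k ^ 2 ≤ 4 * (1 - c) * 1 :=
    mul_le_mul_of_nonneg_left h4 (by linarith)
  linarith

private theorem mid_normsq (c : ℝ) (v : ℂ) :
    ‖(c : ℂ) - cos (Real.pi * v) ^ 2‖ ^ 2 = c ^ 2 +
      ((Real.cos (Real.pi * v.re) ^ 2 + Real.sinh (Real.pi * v.im) ^ 2) ^ 2 -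
      2 * c * (Real.cos (Real.pi * v.re) ^ 2 + 2 * Real.cos (Real.pi * v.re) ^ 2 *
        Real.sinh (Real.pi * v.im) ^ 2 - Real.sinh (Real.pi * v.im) ^ 2)) := by
  set R := Real.pi * v.re with hR
  set J := Real.pi * v.im with hJ
  have h1 := Real.cosh_sq J
  have h2 := Real.sin_sq_add_cos_sq R
  rw [← normSq_eq_norm_sq, normSq_apply, sub_re, sub_im, ofReal_re, ofReal_im, sq (cos _), mul_re,
    mul_im, wcos_re, wcos_im, pi_mul_re, pi_mul_im, ← hR, ← hJ]
  have e : (c - (Real.cos R * Real.cosh J * (Real.cos R * Real.cosh J) -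
      -(Real.sin R * Real.sinh J) * -(Real.sin R * Real.sinh J))) *
      (c - (Real.cos R * Real.cosh J * (Real.cos R * Real.cosh J) -
      -(Real.sin R * Real.sinh J) * -(Real.sin R * Real.sinh J))) +
      (0 - (Real.cos R * Real.cosh J * -(Real.sin R * Real.sinh J) +
      -(Real.sin R * Real.sinh J) * (Real.cos R * Real.cosh J))) *
      (0 - (Real.cos R * Real.cosh J * -(Real.sin R * Real.sinh J) +
      -(Real.sin R * Real.sinh J) * (Real.cos R * Real.cosh J))) =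
      c ^ 2 - 2 * c * (Real.cos R ^ 2 * Real.cosh J ^ 2 - Real.sin R ^ 2 * Real.sinh J ^ 2) +
      (Real.cos R ^ 2 * Real.cosh J ^ 2 + Real.sin R ^ 2 * Real.sinh J ^ 2) ^ 2 := by ring
  have hs : Real.sin R ^ 2 = 1 - Real.cos R ^ 2 := by linarith
  rw [e, h1, hs]
  ring

/-- The middle interval, from a lower bound `-K s²` for the growth rate. -/
private theorem se_mid_gen {K : ℝ} (h : ∀ c : ℝ, 9 / 10 ≤ c → c ≤ 1 →
      ‖(c : ℂ) - cos (Real.pi * v) ^ 2‖ ^ 2 ≤ c ^ 2 * Real.exp (K * (1 - c)))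
    (hK : 0 ≤ K) {y : ℝ} (hy : y ∈ Set.Icc (-(1 / 10) : ℝ) 0) :
    se y (.op v) ≤ Real.pi * |v.im| + K * Real.pi ^ 2 / 6000 := by
  obtain ⟨t, ht⟩ : ∃ t : ℝ, t = -y := ⟨_, rfl⟩
  have t0 : 0 ≤ t := by rw [ht]; linarith [hy.2]
  have t1 : t ≤ 1 / 10 := by rw [ht]; linarith [hy.1]
  have ey : (y : ℂ) = -(t : ℂ) := by rw [ht]; push_cast; ring
  have h1 := EE_sub_eq v v 0 0 t
  have hi : IntervalIntegrable (fun s : ℝ => K * Real.pi ^ 2 * s ^ 2) volume 0 t :=
    (by fun_prop : Continuous (fun s : ℝ => K * Real.pi ^ 2 * s ^ 2)).intervalIntegrable _ _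
  have h2 : 0 ≤ ∫ s in (0 : ℝ)..t, (flatG v v 0 s + K * Real.pi ^ 2 * s ^ 2) := by
    apply intervalIntegral.integral_nonneg_of_ae_restrict t0
    rw [Filter.EventuallyLE, ae_restrict_iff' measurableSet_Icc]
    filter_upwards [flatG_ae v v 0] with s hs hs'
    obtain ⟨g1, g2, -, g4⟩ := hs
    rw [Pi.zero_apply, g4]
    have ec : cos (Real.pi * ((s : ℂ) + ((0 : ℝ) : ℂ) * I)) ^ 2 =
        ((Real.cos (Real.pi * s) ^ 2 : ℝ) : ℂ) := by
      have : (Real.pi : ℂ) * ((s : ℂ) + ((0 : ℝ) : ℂ) * I) = ((Real.pi * s : ℝ) : ℂ) := by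
        push_cast; ring
      rw [this, ← ofReal_cos, ofReal_pow]
    rw [ec] at g2 ⊢
    have hc := cos_sq_ge hs'.1 (hs'.2.trans t1)
    have sc := Real.sin_sq_add_cos_sq (Real.pi * s)
    have hc1 : Real.cos (Real.pi * s) ^ 2 ≤ 1 := by nlinarith [sq_nonneg (Real.sin (Real.pi * s))]
    have hn := h _ hc hc1
    have n2 := norm_pos_iff.mpr g2
    have cp : 0 < Real.cos (Real.pi * s) ^ 2 := by linarith
    have s0 : 0 ≤ Real.pi * s := mul_nonneg Real.pi_pos.le hs'.1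
    have s1 : 1 - Real.cos (Real.pi * s) ^ 2 ≤ (Real.pi * s) ^ 2 := by
      have a1 := Real.sin_le s0
      have a2 : 0 ≤ Real.sin (Real.pi * s) := Real.sin_nonneg_of_nonneg_of_le_pi s0 (by
        nlinarith [Real.pi_pos, hs'.2])
      have := pow_le_pow_left₀ a2 a1 2
      linarith
    have lg : Real.log (‖((Real.cos (Real.pi * s) ^ 2 : ℝ) : ℂ) - cos (Real.pi * v) ^ 2‖ *
        ‖((Real.cos (Real.pi * s) ^ 2 : ℝ) : ℂ) - cos (Real.pi * v) ^ 2‖) ≤
        Real.log ((Real.cos (Real.pi * s) ^ 2) ^ 2) + K * (1 - Real.cos (Real.pi * s) ^ 2) := by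
      rw [← Real.log_exp (K * (1 - Real.cos (Real.pi * s) ^ 2)), ← Real.log_mul (by positivity)
        (Real.exp_pos _).ne']
      apply Real.log_le_log (by positivity)
      rw [← sq]
      exact hn
    rw [Complex.norm_real, Real.norm_of_nonneg cp.le]
    have : K * (1 - Real.cos (Real.pi * s) ^ 2) ≤ K * Real.pi ^ 2 * s ^ 2 := by
      have := mul_le_mul_of_nonneg_left s1 hK
      calc _ ≤ K * (Real.pi * s) ^ 2 := this
        _ = _ := by ring
    linarith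
  rw [intervalIntegral.integral_add (flatG_int v v 0 0 t) hi, ← h1] at h2
  have e3 : ∫ s in (0 : ℝ)..t, K * Real.pi ^ 2 * s ^ 2 = K * Real.pi ^ 2 * (t ^ 3 / 3) := by
    rw [intervalIntegral.integral_const_mul, integral_pow]
    norm_num
  rw [e3] at h2
  have e0 : (((0 : ℝ) : ℂ) + ((0 : ℝ) : ℂ) * I) = 0 := by simp
  have et : ((t : ℂ) + ((0 : ℝ) : ℂ) * I) = (t : ℂ) := by simp
  rw [e0, et, EE, EE, se_zero_op] at h2
  have h3 : se y (.op v) + se t (.op v) = 2 * (Real.pi * |v.im|) := by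
    have a1 : Rf (-(t : ℂ) + 1 / 2) = -Rf ((t : ℂ) + 1 / 2) := by
      have := Rf_one_sub ((t : ℂ) + 1 / 2)
      have e : (1 : ℂ) - ((t : ℂ) + 1 / 2) = -(t : ℂ) + 1 / 2 := by ring
      rwa [e] at this
    have a2 : Rf (-(t : ℂ) - v) = -Rf ((t : ℂ) + v) - Real.pi * |v.im| := by
      have := Rf_neg ((t : ℂ) + v)
      have e : -((t : ℂ) + v) = -(t : ℂ) - v := by ring
      rwa [e, add_im, ofReal_im, zero_add] at this
    have a3 : Rf (-(t : ℂ) + v) = -Rf ((t : ℂ) - v) - Real.pi * |v.im| := by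
      have := Rf_neg ((t : ℂ) - v)
      have e : -((t : ℂ) - v) = -(t : ℂ) + v := by ring
      rwa [e, sub_im, ofReal_im, zero_sub, abs_neg] at this
    rw [ey]
    simp only [se]
    rw [a1, a2, a3]
    ring
  have t3 : t ^ 3 ≤ 1 / 1000 := by
    have := pow_le_pow_left₀ t0 t1 3
    norm_num at this
    linarith
  have h4 : K * Real.pi ^ 2 * (t ^ 3 / 3) ≤ K * Real.pi ^ 2 * (1 / 3000) :=
    mul_le_mul_of_nonneg_left (by linarith) (by positivity)
  linarith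

/-- The middle interval, `tan² θ ≤ 4/5`. -/
theorem se_mid8 (h : Real.sinh (Real.pi * v.im) ^ 2 ≤ 4 / 5 * Real.cos (Real.pi * v.re) ^ 2)
    {y : ℝ} (hy : y ∈ Set.Icc (-(1 / 10) : ℝ) 0) : se y (.op v) ≤ Real.pi * |v.im| := by
  have k := se_mid_gen (v := v) (K := 0) (fun c hc hc1 => by
    rw [mid_normsq, zero_mul, Real.exp_zero, mul_one]
    have h2 := Real.sin_sq_add_cos_sq (Real.pi * v.re)
    have hk : Real.cos (Real.pi * v.re) ^ 2 ≤ 1 := by
      nlinarith [sq_nonneg (Real.sin (Real.pi * v.re))]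
    have := mid_alg8 hc (sq_nonneg (Real.cos (Real.pi * v.re))) hk
      (sq_nonneg (Real.sinh (Real.pi * v.im))) h
    linarith) le_rfl hy
  linarith

/-- The middle interval, `tan² θ ≤ 1`. -/
theorem se_mid1 (h : Real.sinh (Real.pi * v.im) ^ 2 ≤ Real.cos (Real.pi * v.re) ^ 2)
    {y : ℝ} (hy : y ∈ Set.Icc (-(1 / 10) : ℝ) 0) :
    se y (.op v) ≤ Real.pi * |v.im| + 82 / 10000 := by
  have k := se_mid_gen (v := v) (K := 494 / 100) (fun c hc hc1 => by
    rw [mid_normsq]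
    have h2 := Real.sin_sq_add_cos_sq (Real.pi * v.re)
    have hk : Real.cos (Real.pi * v.re) ^ 2 ≤ 1 := by
      nlinarith [sq_nonneg (Real.sin (Real.pi * v.re))]
    have k1 := mid_alg1 hc hc1 (sq_nonneg (Real.cos (Real.pi * v.re))) hk
      (sq_nonneg (Real.sinh (Real.pi * v.im))) h
    have k2 := Real.add_one_le_exp (494 / 100 * (1 - c))
    have k3 : c ^ 2 * (494 / 100 * (1 - c) + 1) ≤ c ^ 2 * Real.exp (494 / 100 * (1 - c)) :=
      mul_le_mul_of_nonneg_left k2 (sq_nonneg _)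
    have k4 : 4 * (1 - c) ≤ c ^ 2 * (494 / 100 * (1 - c)) := by
      have : 81 / 100 ≤ c ^ 2 := by nlinarith
      have := mul_le_mul_of_nonneg_right this (by linarith : 0 ≤ 494 / 100 * (1 - c))
      linarith
    linarith) (by norm_num) hy
  have hp : Real.pi ^ 2 ≤ 98699 / 10000 := by
    have h1 := Real.pi_lt_d6
    have h2 := Real.pi_pos
    nlinarith
  linarith

end

end Pool.Agent.S3
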