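import Pool.Agent.S3.Es10
import Pool.Agent.S3.Es8

/-!
# Open-open edges: the estimates at the ends from a test point
-/

set_option autoImplicit false

namespace Pool.Agent.S3

open Complex
open Pool.Agent.H25.RK (gdv gdv_re_lt gdv_hasDerivAt)

section

variable {Φ : ℂ → ℂ → ℂ} {θ θ' xc xc' b b' v1 v1' μ μ' T T' : ℝ} {v w : ℂ}

theorem G0_sinh' (hv : v ∈ G0 θ v1) : Real.sinh (Real.pi * v.im) ^ 2 ≤
    Real.tan θ ^ 2 * Real.cos (Real.pi * v.re) ^ 2 := by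
  have hb : ∀ a : ℝ, Real.sinh (Real.pi * bl θ a) ^ 2 =
      Real.tan θ ^ 2 * Real.cos (Real.pi * a) ^ 2 := by
    intro a
    rw [sinh_pi_bl, mul_pow]
  rcases hv with ⟨-, h⟩ | ⟨h1, h2, h3⟩ | ⟨-, -, h⟩
  · rw [h]; exact (hb _).le
  · have e1 : Real.cos (Real.pi * v.re) = Real.cos (Real.pi * v1) := by
      rw [← h1, ← Real.cos_abs, abs_mul, abs_of_pos Real.pi_pos]
    have e2 : Real.sinh (Real.pi * v.im) ≤ Real.sinh (Real.pi * bl θ v1) :=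
      Real.sinh_le_sinh.2 (mul_le_mul_of_nonneg_left h3 Real.pi_pos.le)
    have e3 : 0 ≤ Real.sinh (Real.pi * v.im) :=
      Real.sinh_nonneg_iff.2 (mul_nonneg Real.pi_pos.le h2)
    rw [e1]
    exact (pow_le_pow_left₀ e3 e2 2).trans (hb v1).le
  · rw [h, mul_zero, Real.sinh_zero, zero_pow two_ne_zero]
    positivity

/-- The comparison point on the line. -/
theorem pl_line14 (h0θ : 0 < θ) (hθ : θ < Real.pi / 2) (p0 : 0 < v1) (p1 : v1 < 1 / 2)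
    (hv : v ∈ G0 θ v1) (h0 : 0 ≤ v.re) :
    0 ≤ (pl θ v1 v).re ∧ (pl θ v1 v).re < 1 / 2 ∧ (pl θ v1 v).im = bl θ (pl θ v1 v).re ∧
      v.im ≤ (pl θ v1 v).im ∧ 0 ≤ v.im := by
  have e1 : max (-v1) (min v1 v.re) = min v1 v.re := by
    apply max_eq_right
    have : 0 ≤ min v1 v.re := le_min p0.le h0
    linarith
  have er : (pl θ v1 v).re = min v1 v.re := by
    unfold pl; rw [e1]; simp
  have ei : (pl θ v1 v).im = bl θ (min v1 v.re) := by
    unfold pl; rw [e1]; simp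
  have m0 : 0 ≤ min v1 v.re := le_min p0.le h0
  have m1 : min v1 v.re ≤ v1 := min_le_left _ _
  have bn : 0 ≤ bl θ (min v1 v.re) :=
    bl_nonneg h0θ.le hθ (by rw [abs_of_nonneg m0]; linarith)
  have him : 0 ≤ v.im ∧ v.im ≤ bl θ (min v1 v.re) := by
    rcases hv with ⟨a, c⟩ | ⟨a, c, d⟩ | ⟨a, c, d⟩
    · rw [abs_of_nonneg h0] at a
      rw [min_eq_right a] at bn ⊢
      rw [c]; exact ⟨bn, le_rfl⟩
    · rw [abs_of_nonneg h0] at a
      rw [a, min_self]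
      exact ⟨c, d⟩
    · rw [d]; exact ⟨le_rfl, bn⟩
  exact ⟨by rw [er]; exact m0, by rw [er]; linarith, by rw [ei, er], by rw [ei]; exact him.2, him.1⟩

/-- The excess on the middle interval. -/
def Exc (θ ε : ℝ) : Prop :=
  (Real.tan θ ^ 2 ≤ 4 / 5 ∧ 0 ≤ ε) ∨ (Real.tan θ ^ 2 ≤ 1 ∧ 82 / 10000 ≤ ε)

theorem Exc.se {ε : ℝ} (h : Exc θ ε) (hv : v ∈ G0 θ v1) {y : ℝ}
    (hy : y ∈ Set.Icc (-(1 / 10) : ℝ) 0) : se y (.op v) ≤ Real.pi * |v.im| + ε := by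
  have k := G0_sinh' hv
  have c0 := sq_nonneg (Real.cos (Real.pi * v.re))
  rcases h with ⟨h1, h2⟩ | ⟨h1, h2⟩
  · have := se_mid8 (v := v) (k.trans (mul_le_mul_of_nonneg_right h1 c0)) hy
    linarith
  · have := se_mid1 (v := v) (k.trans (by nlinarith)) hy
    linarith

theorem Exc.nonneg {ε : ℝ} (h : Exc θ ε) : 0 ≤ ε := by
  rcases h with ⟨-, h⟩ | ⟨-, h⟩
  · exact h
  · linarith

/-- **The estimates at the ends and on the middle interval**, from the value at a test point. -/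
theorem endAll_sep (hΦ : IsPhi Φ) (ho : OppHyp θ θ' xc xc')
    (hs : Split θ θ' xc xc' b b') (hc : 0 < xc) (hc' : 0 < xc')
    (hT : 0 < T) (hT1 : T < Real.pi / 2) (hT' : 0 < T') (hT1' : T' < Real.pi / 2) {g ε ε' : ℝ}
    (hg : g ≤ FP Φ (UU T (hJ (Real.tan θ) T)) (UU T' (-(hJ (Real.tan θ') T'))) -
      hJ (Real.tan θ) T - hJ (Real.tan θ') T')
    (hl : lossJ (Real.tan θ) b
        (Real.pi / 2 - (qq (UU xc θ) (UU xc' (-θ'))).im - b * (Real.pi * (gdv (UU xc θ)).re)) T +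
      lossJ (Real.tan θ') b'
        (Real.pi / 2 - (qq (UU xc' θ') (UU xc (-θ))).im -
          b' * (Real.pi * (gdv (UU xc' θ')).re)) T' + (ε + ε') < g)
    (hε : Exc θ ε) (hε' : Exc θ' ε') (p0 : 0 < v1) (p1 : v1 < 1 / 2) (p0' : 0 < v1')
    (p1' : v1' < 1 / 2) (hμ : μ ≤ Real.pi) (hμ' : μ' ≤ Real.pi) :
    EndAll Φ θ θ' xc xc' b b' v1 v1' μ μ' := by
  intro v w hv v0 hw w0
  obtain ⟨a1, a2, a3, a4, a5⟩ := pl_line14 ho.θ0 (θ_lt ho) p0 p1 hv v0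
  obtain ⟨b1, b2, b3, b4, b5⟩ := pl_line14 ho.θ0' (θ_lt ho.symm) p0' p1' hw w0
  have k := B0_sep_add (δ := ε + ε') hΦ ho hs hc hc' hT hT1 hT' hT1' hg hl a1 a2 a3 b1 b2 b3
  have key : Real.pi * (v.im + w.im) + (ε + ε') < LM Φ θ θ' b b' xc xc' v1 v1' μ μ' v w := by
    rw [LM]
    have m1 := mul_le_mul_of_nonneg_right hμ (sub_nonneg.2 a4)
    have m2 := mul_le_mul_of_nonneg_right hμ' (sub_nonneg.2 b4)
    linarith
  have e0 := hε.nonneg
  have e0' := hε'.nonneg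
  refine ⟨by linarith, fun y hy => lt_of_le_of_lt ?_ key⟩
  have s1 := hε.se hv hy
  have s2 := hε'.se hw hy
  rw [abs_of_nonneg a5] at s1
  rw [abs_of_nonneg b5] at s2
  rw [EE]
  linarith

end

end Pool.Agent.S3
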