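import Pool.Agent.S3.Es13
import Pool.Agent.S3.Es14
import Pool.Agent.S3.Es15

/-!
# Open-open edges next to an inner vertex of multiplicity two: the estimates at the ends
-/

set_option autoImplicit false

namespace Pool.Agent.S3

open Complex
open Pool.Agent.H25.RK (gdv gdv_re_lt gdv_hasDerivAt)

section

variable {Φ : ℂ → ℂ → ℂ} {θ θ' xc xc' b b' v1 v1' μ μ' T T' τ τ' t ℓ : ℝ} {v w : ℂ}

/-- The corner (.518, .518), refined. -/
theorem gx_e0 (hΦ : IsPhi Φ) (h0 : Φ 0 0 = c00) :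
    513 / 10000 ≤ gx Φ (259 / 500) (259 / 500) := by
  have k0 : 0 ≤ gx Φ (16 / 25) (16 / 25) := gx_nonneg hΦ h0 (by constructor <;> norm_num)
  have k1 := leg_num hΦ (xa := 61 / 100) (xb := 16 / 25) (x' := 16 / 25)
    (39 / 100) (73 / 500) 2 (7 / 1000) (297 / 250) (141 / 50000)
    (by constructor <;> norm_num) (by norm_num) (by norm_num) (by norm_num) (by norm_num)
    (by norm_num) (by norm_num) (by norm_num) (by norm_num) (by norm_num)
    (by rw [Dt]; norm_num) (by rw [Dt]; norm_num) (by rw [Dt]; norm_num) (by norm_num)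
  have k2 := leg_num hΦ (xa := 29 / 50) (xb := 61 / 100) (x' := 16 / 25)
    (7 / 20) (103 / 500) (173 / 100) (7 / 500) (293 / 250) (377 / 100000)
    (by constructor <;> norm_num) (by norm_num) (by norm_num) (by norm_num) (by norm_num)
    (by norm_num) (by norm_num) (by norm_num) (by norm_num) (by norm_num)
    (by rw [Dt]; norm_num) (by rw [Dt]; norm_num) (by rw [Dt]; norm_num) (by norm_num)
  have k3 := leg_num' hΦ (xa := 61 / 100) (xb := 16 / 25) (x' := 29 / 50)
    (39 / 100) (169 / 500) (93 / 100) (9 / 250) (297 / 250) (113 / 20000)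
    (by constructor <;> norm_num) (by norm_num) (by norm_num) (by norm_num) (by norm_num)
    (by norm_num) (by norm_num) (by norm_num) (by norm_num) (by norm_num)
    (by rw [Dt]; norm_num) (by rw [Dt]; norm_num) (by rw [Dt]; norm_num) (by norm_num)
  have k4 := leg_num' hΦ (xa := 29 / 50) (xb := 61 / 100) (x' := 29 / 50)
    (7 / 20) (367 / 1000) 1 (43 / 1000) (293 / 250) (311 / 50000)
    (by constructor <;> norm_num) (by norm_num) (by norm_num) (by norm_num) (by norm_num)
    (by norm_num) (by norm_num) (by norm_num) (by norm_num) (by norm_num)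
    (by rw [Dt]; norm_num) (by rw [Dt]; norm_num) (by rw [Dt]; norm_num) (by norm_num)
  have k5 := leg_num hΦ (xa := 11 / 20) (xb := 29 / 50) (x' := 29 / 50)
    (31 / 100) (397 / 1000) (103 / 100) (1 / 20) (1157 / 1000) (17 / 2500)
    (by constructor <;> norm_num) (by norm_num) (by norm_num) (by norm_num) (by norm_num)
    (by norm_num) (by norm_num) (by norm_num) (by norm_num) (by norm_num)
    (by rw [Dt]; norm_num) (by rw [Dt]; norm_num) (by rw [Dt]; norm_num) (by norm_num)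
  have k6 := leg_num hΦ (xa := 259 / 500) (xb := 11 / 20) (x' := 29 / 50)
    (7 / 25) (429 / 1000) (103 / 100) (29 / 500) (571 / 500) (397 / 50000)
    (by constructor <;> norm_num) (by norm_num) (by norm_num) (by norm_num) (by norm_num)
    (by norm_num) (by norm_num) (by norm_num) (by norm_num) (by norm_num)
    (by rw [Dt]; norm_num) (by rw [Dt]; norm_num) (by rw [Dt]; norm_num) (by norm_num)
  have k7 := leg_num' hΦ (xa := 11 / 20) (xb := 29 / 50) (x' := 259 / 500)
    (31 / 100) (503 / 1000) (4 / 5) (39 / 500) (1157 / 1000) (17 / 2000)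
    (by constructor <;> norm_num) (by norm_num) (by norm_num) (by norm_num) (by norm_num)
    (by norm_num) (by norm_num) (by norm_num) (by norm_num) (by norm_num)
    (by rw [Dt]; norm_num) (by rw [Dt]; norm_num) (by rw [Dt]; norm_num) (by norm_num)
  have k8 := leg_num' hΦ (xa := 259 / 500) (xb := 11 / 20) (x' := 259 / 500)
    (7 / 25) (66 / 125) (39 / 50) (17 / 200) (571 / 500) (241 / 25000)
    (by constructor <;> norm_num) (by norm_num) (by norm_num) (by norm_num) (by norm_num)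
    (by norm_num) (by norm_num) (by norm_num) (by norm_num) (by norm_num)
    (by rw [Dt]; norm_num) (by rw [Dt]; norm_num) (by rw [Dt]; norm_num) (by norm_num)
  linarith

/-- The bounds of the loss `ℓ` of an inner vertex of multiplicity two, `t = tan² θ`. -/
structure L2 (t ℓ : ℝ) : Prop where
  l0 : ℓ ≤ 363 / 10000
  l1 : t ≤ 94 / 100 → ℓ ≤ 344 / 10000
  l2 : t ≤ 85 / 100 → ℓ ≤ 316 / 10000
  l25 : t ≤ 81 / 100 → ℓ ≤ 304 / 10000
  l3 : t ≤ 775 / 1000 → ℓ ≤ 293 / 10000
  l35 : t ≤ 745 / 1000 → ℓ ≤ 284 / 10000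
  l4 : t ≤ 715 / 1000 → ℓ ≤ 275 / 10000
  l45 : t ≤ 69 / 100 → ℓ ≤ 268 / 10000
  l5 : t ≤ 67 / 100 → ℓ ≤ 262 / 10000
  l55 : t ≤ 65 / 100 → ℓ ≤ 256 / 10000
  l6 : t ≤ 635 / 1000 → ℓ ≤ 252 / 10000
  l7 : t ≤ 3 / 5 → ℓ ≤ 250 / 10000

theorem L2.of_le (h : ℓ ≤ 1 / 40) : L2 t ℓ := by
  constructor <;> intros <;> linarith

theorem L2.of_two {P : ℝ} (hτ : 0 < τ) (ht1 : τ ^ 2 ≤ 1) (hb : 0 < b)
    (hb1 : b ≤ 5 / 3) (hp1 : -(7 / 20) ≤ P / b) (hp2 : P / b ≤ 9 / 20) :
    L2 (τ ^ 2) (lossJ τ b P T13) := by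
  constructor
  · exact loss_two (S := 1593 / 2500) hτ ht1 le_rfl hb hb1 hp1 hp2 (by norm_num) (by norm_num)
      (by norm_num) (by norm_num)
  · exact fun h => loss_two (S := 3117 / 5000) hτ h (by norm_num) hb hb1 hp1 hp2 (by norm_num)
      (by norm_num) (by norm_num) (by norm_num)
  · exact fun h => loss_two (S := 601 / 1000) hτ h (by norm_num) hb hb1 hp1 hp2 (by norm_num)
      (by norm_num) (by norm_num) (by norm_num)
  · exact fun h => loss_two (S := 369 / 625) hτ h (by norm_num) hb hb1 hp1 hp2 (by norm_num)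
      (by norm_num) (by norm_num) (by norm_num)
  · exact fun h => loss_two (S := 5807 / 10000) hτ h (by norm_num) hb hb1 hp1 hp2 (by norm_num)
      (by norm_num) (by norm_num) (by norm_num)
  · exact fun h => loss_two (S := 5721 / 10000) hτ h (by norm_num) hb hb1 hp1 hp2 (by norm_num)
      (by norm_num) (by norm_num) (by norm_num)
  · exact fun h => loss_two (S := 352 / 625) hτ h (by norm_num) hb hb1 hp1 hp2 (by norm_num)
      (by norm_num) (by norm_num) (by norm_num)
  · exact fun h => loss_two (S := 1111 / 2000) hτ h (by norm_num) hb hb1 hp1 hp2 (by norm_num)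
      (by norm_num) (by norm_num) (by norm_num)
  · exact fun h => loss_two (S := 1373 / 2500) hτ h (by norm_num) hb hb1 hp1 hp2 (by norm_num)
      (by norm_num) (by norm_num) (by norm_num)
  · exact fun h => loss_two (S := 5427 / 10000) hτ h (by norm_num) hb hb1 hp1 hp2 (by norm_num)
      (by norm_num) (by norm_num) (by norm_num)
  · exact fun h => loss_two (S := 2689 / 5000) hτ h (by norm_num) hb hb1 hp1 hp2 (by norm_num)
      (by norm_num) (by norm_num) (by norm_num)
  · exact fun h => loss_two (S := 2629 / 5000) hτ h (by norm_num) hb hb1 hp1 hp2 (by norm_num)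
      (by norm_num) (by norm_num) (by norm_num)

/-- The excess of a vertex. -/
noncomputable def exc (t : ℝ) : ℝ := if t ≤ 4 / 5 then 0 else 82 / 10000

theorem exc_nonneg (t : ℝ) : 0 ≤ exc t := by
  unfold exc
  split_ifs <;> norm_num

theorem exc_le (t : ℝ) : exc t ≤ 82 / 10000 := by
  unfold exc
  split_ifs <;> norm_num

theorem exc_zero (h : t ≤ 4 / 5) : exc t = 0 := by
  unfold exc
  rw [if_pos h]

theorem Exc_exc (h : Real.tan θ ^ 2 ≤ 1) : Exc θ (exc (Real.tan θ ^ 2)) := by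
  unfold Exc exc
  split_ifs with h1
  · exact Or.inl ⟨h1, le_rfl⟩
  · exact Or.inr ⟨h, le_rfl⟩

/-- Two inner vertices of multiplicity two, `k ≤ t`. -/
theorem sum22 (hΦ : IsPhi Φ) (h0 : Φ 0 0 = c00) (hτ : 0 ≤ τ) (hτ' : 0 ≤ τ') (hle : τ' ≤ τ)
    (J : Jt (τ ^ 2) (τ' ^ 2)) {ℓ ℓ' : ℝ} (hl : L2 (τ ^ 2) ℓ) (hl' : L2 (τ' ^ 2) ℓ') :
    ℓ + ℓ' + (exc (τ ^ 2) + exc (τ' ^ 2)) < gx Φ (τ * (13 / 20)) (τ' * (13 / 20)) := by
  obtain ⟨p0, p1, p2, p3, p4, p5, p6, p7, p8, p9, -⟩ := gx_Jt hΦ h0 hτ hτ' J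
  have s : τ' ^ 2 ≤ τ ^ 2 := pow_le_pow_left₀ hτ' hle 2
  have x1 := exc_le (τ ^ 2)
  rcases le_or_gt (τ' ^ 2) (1 / 10) with e | e
  · have := p0 e
    have := hl.l0
    have := hl'.l7 (by linarith)
    have := exc_zero (t := τ' ^ 2) (by linarith)
    linarith
  rcases le_or_gt (τ' ^ 2) (1 / 5) with e2 | e2
  · have := p1 e2
    have jt := J.j1 e
    have := hl.l1 jt
    have := hl'.l7 (by linarith)
    have := exc_zero (t := τ' ^ 2) (by linarith)
    linarith
  clear e
  rename' e2 => e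
  rcases le_or_gt (τ' ^ 2) (1 / 4) with e2 | e2
  · have := p2 e2
    have jt := J.j2 e
    have := hl.l2 jt
    have := hl'.l7 (by linarith)
    have := exc_zero (t := τ' ^ 2) (by linarith)
    linarith
  clear e
  rename' e2 => e
  rcases le_or_gt (τ' ^ 2) (3 / 10) with e2 | e2
  · have := p3 e2
    have jt := J.j25 e
    have := hl.l25 jt
    have := hl'.l7 (by linarith)
    have := exc_zero (t := τ' ^ 2) (by linarith)
    linarith
  clear e
  rename' e2 => e
  rcases le_or_gt (τ' ^ 2) (7 / 20) with e2 | e2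
  · have := p4 e2
    have jt := J.j3 e
    have := hl.l3 jt
    have := hl'.l7 (by linarith)
    have := exc_zero (t := τ' ^ 2) (by linarith)
    have := exc_zero (t := τ ^ 2) (by linarith)
    linarith
  clear e
  rename' e2 => e
  rcases le_or_gt (τ' ^ 2) (2 / 5) with e2 | e2
  · have := p5 e2
    have jt := J.j35 e
    have := hl.l35 jt
    have := hl'.l7 (by linarith)
    have := exc_zero (t := τ' ^ 2) (by linarith)
    have := exc_zero (t := τ ^ 2) (by linarith)
    linarith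
  clear e
  rename' e2 => e
  rcases le_or_gt (τ' ^ 2) (9 / 20) with e2 | e2
  · have := p6 e2
    have jt := J.j4 e
    have := hl.l4 jt
    have := hl'.l7 (by linarith)
    have := exc_zero (t := τ' ^ 2) (by linarith)
    have := exc_zero (t := τ ^ 2) (by linarith)
    linarith
  clear e
  rename' e2 => e
  rcases le_or_gt (τ' ^ 2) (1 / 2) with e2 | e2
  · have := p7 e2
    have jt := J.j45 e
    have := hl.l45 jt
    have := hl'.l7 (by linarith)
    have := exc_zero (t := τ' ^ 2) (by linarith)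
    have := exc_zero (t := τ ^ 2) (by linarith)
    linarith
  clear e
  rename' e2 => e
  rcases le_or_gt (τ' ^ 2) (11 / 20) with e2 | e2
  · have := p8 e2
    have jt := J.j5 e
    have := hl.l5 jt
    have := hl'.l7 (by linarith)
    have := exc_zero (t := τ' ^ 2) (by linarith)
    have := exc_zero (t := τ ^ 2) (by linarith)
    linarith
  clear e
  rename' e2 => e
  rcases le_or_gt (τ' ^ 2) (3 / 5) with e2 | e2
  · have := p9 e2
    have jt := J.j55 e
    have := hl.l55 jt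
    have := hl'.l7 (by linarith)
    have := exc_zero (t := τ' ^ 2) (by linarith)
    have := exc_zero (t := τ ^ 2) (by linarith)
    linarith
  clear e
  rename' e2 => e
  have jt := J.j6 e
  have h1 := hl.l6 jt
  have h2 := hl'.l6 (s.trans jt)
  have h3 := exc_zero (t := τ' ^ 2) (by linarith)
  have h4 := exc_zero (t := τ ^ 2) (by linarith)
  have g : 513 / 10000 ≤ gx Φ (τ * (13 / 20)) (τ' * (13 / 20)) := by
    have le_c : ∀ {τ : ℝ}, τ ^ 2 ≤ 635 / 1000 → τ * (13 / 20) ≤ 259 / 500 := by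
      intro τ h
      apply le_of_sq_le_sq _ (by norm_num)
      have : (τ * (13 / 20)) ^ 2 = τ ^ 2 * (169 / 400) := by ring
      rw [this]
      linarith
    exact (gx_e0 hΦ h0).trans (gx_anti hΦ (by constructor <;> norm_num) (by positivity)
      (le_c jt) (by positivity) (le_c (s.trans jt)))
  linarith

/-- An inner vertex of multiplicity two and a vertex of multiplicity at least three. -/
theorem sum2p (hΦ : IsPhi Φ) (h0 : Φ 0 0 = c00) (hτ : 0 ≤ τ) (hτ' : 0 ≤ τ')
    (J : Jt (τ ^ 2) (τ' ^ 2)) {ℓ ℓ' : ℝ} (hl : L2 (τ ^ 2) ℓ)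
    (hl' : (τ' ^ 2 ≤ 1 / 10 ∧ ℓ' ≤ 7 / 100) ∨ (τ' ^ 2 ≤ 1 / 5 ∧ ℓ' ≤ 45 / 1000) ∨
      (τ' ^ 2 ≤ 2 / 5 ∧ ℓ' ≤ 41 / 1000)) :
    ℓ + ℓ' + (exc (τ ^ 2) + exc (τ' ^ 2)) < gx Φ (τ * (13 / 20)) (τ' * (13 / 20)) := by
  obtain ⟨p0, p1, p2, p3, p4, p5, -⟩ := gx_Jt hΦ h0 hτ hτ' J
  have x1 := exc_le (τ ^ 2)
  have k0 : τ' ^ 2 ≤ 2 / 5 := by
    rcases hl' with h | h | h <;> linarith [h.1]
  have x2 := exc_zero (t := τ' ^ 2) (by linarith)
  rcases le_or_gt (τ' ^ 2) (1 / 10) with e | e
  · have := p0 e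
    have := hl.l0
    rcases hl' with h | h | h <;> linarith [h.2]
  have hl2 : (τ' ^ 2 ≤ 1 / 5 ∧ ℓ' ≤ 45 / 1000) ∨ (τ' ^ 2 ≤ 2 / 5 ∧ ℓ' ≤ 41 / 1000) := by
    rcases hl' with h | h | h
    · exact absurd h.1 (not_le.2 e)
    · exact Or.inl h
    · exact Or.inr h
  rcases le_or_gt (τ' ^ 2) (1 / 5) with e2 | e2
  · have := p1 e2
    have := hl.l1 (J.j1 e)
    rcases hl2 with h | h <;> linarith [h.2]
  have hl3 : ℓ' ≤ 41 / 1000 := by
    rcases hl2 with h | h
    · exact absurd h.1 (not_le.2 e2)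
    · exact h.2
  rcases le_or_gt (τ' ^ 2) (1 / 4) with e3 | e3
  · have := p2 e3
    have := hl.l2 (J.j2 e2)
    linarith
  rcases le_or_gt (τ' ^ 2) (3 / 10) with e4 | e4
  · have := p3 e4
    have := hl.l25 (J.j25 e3)
    linarith
  rcases le_or_gt (τ' ^ 2) (7 / 20) with e5 | e5
  · have := p4 e5
    have jt := J.j3 e4
    have := hl.l3 jt
    have := exc_zero (t := τ ^ 2) (by linarith)
    linarith
  · have := p5 k0
    have jt := J.j35 e5
    have := hl.l35 jt
    have := exc_zero (t := τ ^ 2) (by linarith)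
    linarith

end

end Pool.Agent.S3
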