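import Pool.Agent.S3.Es9

/-!
# Open-open edges: two test points

Lower bounds of `re Φ - π (im v + im w)` at general test points: vertical legs, upper legs and the
gain of a horizontal move to the left.
-/

set_option autoImplicit false

namespace Pool.Agent.S3.TT

open Complex
open Pool.Agent.H25.RK (gdv gdv_re_lt gdv_hasDerivAt)

/-! ### The exact relations for `sinh q = z` -/

theorem sinh_rel (q : ℂ) : Real.cos q.im ^ 2 * Real.sinh q.re ^ 2 = (sinh q).re ^ 2 ∧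
    Real.cos q.im ^ 2 - Real.sinh q.re ^ 2 = 1 - normSq (sinh q) := by
  have r := Real.cosh_sq q.re
  have s := Real.sin_sq_add_cos_sq q.im
  constructor
  · rw [sinh_re']; ring
  · rw [normSq_apply, sinh_re', sinh_im']
    linear_combination Real.sin q.im ^ 2 * r + (Real.sinh q.re ^ 2 + 1) * s

/-- A lower bound of `|re q|`. -/
theorem sinh_sq_ge {q : ℂ} {m r g : ℝ} (hr : 0 ≤ r) (hr1 : r ≤ (sinh q).re)
    (hg : 1 - normSq (sinh q) ≤ g) (h : m ^ 2 * (m ^ 2 + g) ≤ r ^ 2) :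
    m ^ 2 ≤ Real.sinh q.re ^ 2 := by
  obtain ⟨h1, h2⟩ := sinh_rel q
  have r2 : r ^ 2 ≤ (sinh q).re ^ 2 := pow_le_pow_left₀ hr hr1 2
  by_contra hc
  push Not at hc
  set s := Real.sinh q.re ^ 2 with hs
  set c := Real.cos q.im ^ 2 with hcc
  have s0 : 0 ≤ s := sq_nonneg _
  have c0 : 0 ≤ c := sq_nonneg _
  have m0 : 0 < m ^ 2 := lt_of_le_of_lt s0 hc
  -- `c s ≥ m² (m² + g) > m² c`
  have k1 : c < m ^ 2 + g := by linarith
  have k2 : m ^ 2 * c < m ^ 2 * (m ^ 2 + g) := mul_lt_mul_of_pos_left k1 m0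
  have k3 : c * s ≤ c * m ^ 2 := mul_le_mul_of_nonneg_left hc.le c0
  linarith

/-- An upper bound of `cos im q`. -/
theorem cos_sq_le {q : ℂ} {M r g : ℝ} (hr1 : |(sinh q).re| ≤ r)
    (hg : 1 - normSq (sinh q) ≤ g) (hM : g ≤ M ^ 2) (h : r ^ 2 ≤ M ^ 2 * (M ^ 2 - g)) :
    Real.cos q.im ^ 2 ≤ M ^ 2 := by
  obtain ⟨h1, h2⟩ := sinh_rel q
  have r2 : (sinh q).re ^ 2 ≤ r ^ 2 := by
    have := abs_le.1 hr1
    exact sq_le_sq' (by linarith) this.2
  by_contra hc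
  push Not at hc
  set s := Real.sinh q.re ^ 2 with hs
  set c := Real.cos q.im ^ 2 with hcc
  have s0 : 0 ≤ s := sq_nonneg _
  have k1 : M ^ 2 - g < s := by linarith
  have k0 : 0 ≤ M ^ 2 - g := by linarith
  have k2 : M ^ 2 * (M ^ 2 - g) < c * s := by
    have a1 : M ^ 2 * (M ^ 2 - g) ≤ c * (M ^ 2 - g) := mul_le_mul_of_nonneg_right hc.le k0
    have a2 : c * (M ^ 2 - g) < c * s := mul_lt_mul_of_pos_left k1
      (lt_of_le_of_lt (sq_nonneg M) hc)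
    linarith
  linarith

/-! ### The quotient -/

theorem tan_UU_re {R η : ℝ} (hR : |R| < Real.pi / 2) : (tan (UU R η)).re =
    Real.sin R * Real.cos R / (Real.cos R ^ 2 + Real.sinh η ^ 2) := by
  have hn : cos (UU R η) ≠ 0 := cos_ne' (UU_re_lt hR)
  have cR := cos_pos' hR
  have hN : normSq (cos (UU R η)) = Real.cos R ^ 2 + Real.sinh η ^ 2 := by
    rw [normSq_apply, wcos_re, wcos_im, UU_re, UU_im]
    have a := Real.cosh_sq η
    have b := Real.sin_sq_add_cos_sq R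
    linear_combination (Real.cos R ^ 2) * a + (Real.sinh η ^ 2) * b
  have e1 : tan (UU R η) = (sin (UU R η) * (starRingEnd ℂ) (cos (UU R η))) /
        ((normSq (cos (UU R η)) : ℝ) : ℂ) := by
    have hc : (starRingEnd ℂ) (cos (UU R η)) ≠ 0 := (map_ne_zero _).2 hn
    rw [Complex.tan_eq_sin_div_cos, normSq_eq_conj_mul_self]
    field_simp
  have s1 : (sin (UU R η) * (starRingEnd ℂ) (cos (UU R η))).re = Real.sin R * Real.cos R := by
    rw [mul_re, conj_re, conj_im, wsin_re, wsin_im, wcos_re, wcos_im, UU_re, UU_im]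
    have := Real.cosh_sq η
    linear_combination (Real.sin R * Real.cos R) * this
  rw [e1, div_ofReal_re, s1, hN]

theorem zq {R R' η η' : ℝ} (aR' : |R'| < Real.pi / 2) :
    sinh (qq (igd (UU R η)) (igd (UU R' (-η')))) = tan (UU R η) * cos (UU R' (-η')) := by
  rw [sinh_qq, sinh_igd, cosh_igd (UU_re_lt aR'), div_eq_mul_one_div, one_div_one_div]

theorem zq_re {R R' η η' : ℝ} (aR : |R| < Real.pi / 2) (aR' : |R'| < Real.pi / 2) :
    (sinh (qq (igd (UU R η)) (igd (UU R' (-η'))))).re =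
      (Real.sin R * Real.cos R * (Real.cos R' * Real.cosh η') -
        Real.sinh η * Real.cosh η * (Real.sin R' * Real.sinh η')) /
        (Real.cos R ^ 2 + Real.sinh η ^ 2) := by
  rw [zq aR', mul_re, tan_UU_re aR, tan_UU_im aR, wcos_re, wcos_im, UU_re, UU_im, Real.cosh_neg,
    Real.sinh_neg]
  ring

theorem zq_normSq {R R' η η' : ℝ} (aR : |R| < Real.pi / 2) (aR' : |R'| < Real.pi / 2) :
    normSq (sinh (qq (igd (UU R η)) (igd (UU R' (-η'))))) =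
      (1 - Real.cos R ^ 2 + Real.sinh η ^ 2) / (Real.cos R ^ 2 + Real.sinh η ^ 2) *
        (Real.cos R' ^ 2 + Real.sinh η' ^ 2) := by
  have cR := cos_pos' aR
  have n1 : normSq (cos (UU R' (-η'))) = Real.cos R' ^ 2 + Real.sinh η' ^ 2 := by
    rw [normSq_apply, wcos_re, wcos_im, UU_re, UU_im, Real.cosh_neg, Real.sinh_neg]
    have a := Real.cosh_sq η'
    have b := Real.sin_sq_add_cos_sq R'
    linear_combination (Real.cos R' ^ 2) * a + (Real.sinh η' ^ 2) * b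
  have n2 : normSq (tan (UU R η)) =
      (1 - Real.cos R ^ 2 + Real.sinh η ^ 2) / (Real.cos R ^ 2 + Real.sinh η ^ 2) := by
    have np : Real.cos R ^ 2 + Real.sinh η ^ 2 ≠ 0 := by positivity
    rw [normSq_apply, tan_UU_re aR, tan_UU_im aR]
    field_simp
    have a := Real.cosh_sq η
    have b : Real.sin R ^ 2 = 1 - Real.cos R ^ 2 := by
      have := Real.sin_sq_add_cos_sq R
      linarith
    rw [a, b]
    ring
  rw [zq aR', normSq_mul, n1, n2]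

/-! ### Points -/

/-- A test point. -/
structure Pt (T c : ℝ) : Prop where
  pos : 0 < T
  lt : T < Real.pi / 2
  cos : Real.cos T = c

theorem Pt.abs {T c : ℝ} (h : Pt T c) : |T| < Real.pi / 2 := by
  rw [abs_of_pos h.pos]; exact h.lt

theorem Pt.c0 {T c : ℝ} (h : Pt T c) : 0 < c := by
  rw [← h.cos]; exact cos_pos' h.abs

theorem Pt_arccos {c : ℝ} (h0 : 0 < c) (h1 : c < 1) : Pt (Real.arccos c) c :=
  ⟨Real.arccos_pos.2 h1, Real.arccos_lt_pi_div_two.2 h0,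
    Real.cos_arccos (by linarith) h1.le⟩

/-- `re Φ - π (im v + im w)` at two test points. -/
noncomputable def gT (Φ : ℂ → ℂ → ℂ) (T T' x x' : ℝ) : ℝ :=
  FP Φ (UU T (Real.arsinh x)) (UU T' (-(Real.arsinh x'))) - Real.arsinh x - Real.arsinh x'

section

variable {Φ : ℂ → ℂ → ℂ} {T T' c c' x x' y y' : ℝ}

/-- `x x' < c c'` means that the heights are regular. -/
theorem reg_lt (h : Pt T c) (h' : Pt T' c') (hx : 0 ≤ x) (hx' : 0 ≤ x')
    (hl : x * x' < c * c') :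
    Reg (igd (UU T (Real.arsinh x))) (igd (UU T' (-(Real.arsinh x')))) := by
  have t3 := igd_im_nonneg h.abs (Real.arsinh_nonneg_iff.2 hx)
  have t4 := igd_im_nonneg h'.abs (Real.arsinh_nonneg_iff.2 hx')
  have a1 := (abs_lt.1 (igd_im_lt (UU_re_lt (η := Real.arsinh x) h.abs))).2
  have a2 := (abs_lt.1 (igd_im_lt (UU_re_lt (η := Real.arsinh x') h'.abs))).2
  unfold Reg
  rw [igd_im_neg h'.abs, abs_neg, abs_of_nonneg t3, abs_of_nonneg t4]
  by_contra hc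
  push Not at hc
  set α := (igd (UU T (Real.arsinh x))).im with hα
  set β := (igd (UU T' (Real.arsinh x'))).im with hβ
  have e1 : Real.tan α = x / c := by
    rw [hα, tan_igd_UU h.abs, Real.sinh_arsinh, h.cos]
  have e2 : Real.tan β = x' / c' := by
    rw [hβ, tan_igd_UU h'.abs, Real.sinh_arsinh, h'.cos]
  have c0 := h.c0
  have c0' := h'.c0
  -- `β ≥ π/2 - α`, so `tan β ≥ cot α`
  have sα : 0 ≤ Real.sin α := Real.sin_nonneg_of_nonneg_of_le_pi t3 (by linarith [Real.pi_pos])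
  have cα : 0 < Real.cos α := Real.cos_pos_of_mem_Ioo ⟨by linarith [Real.pi_pos], a1⟩
  have cβ : 0 < Real.cos β := Real.cos_pos_of_mem_Ioo ⟨by linarith [Real.pi_pos], a2⟩
  have k : Real.cos (α + β) ≤ 0 := by
    apply Real.cos_nonpos_of_pi_div_two_le_of_le hc
    linarith
  rw [Real.cos_add] at k
  have k2 : 1 ≤ Real.tan α * Real.tan β := by
    rw [Real.tan_eq_sin_div_cos, Real.tan_eq_sin_div_cos, div_mul_div_comm, le_div_iff₀
      (by positivity)]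
    linarith
  rw [e1, e2, div_mul_div_comm, le_div_iff₀ (by positivity)] at k2
  linarith

theorem gT_swap (hΦ : IsPhi Φ) (h : Pt T c) (h' : Pt T' c') (hx : 0 ≤ x) (hx' : 0 ≤ x')
    (hl : x * x' < c * c') : gT (fun v w => Φ w v) T' T x' x = gT Φ T T' x x' := by
  rw [gT, gT, FP_flip hΦ h.abs h'.abs (reg_lt h h' hx hx' hl)]
  ring

theorem gT_anti_left (hΦ : IsPhi Φ) (h : Pt T c) (h' : Pt T' c') (hx : 0 ≤ x) (hxy : x ≤ y)
    (hx' : 0 ≤ x') (hl : y * x' < c * c') : gT Φ T T' y x' ≤ gT Φ T T' x x' := by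
  rcases hxy.eq_or_lt with e | e
  · rw [e]
  · have k := FP_up hΦ h.abs (Real.arsinh_nonneg_iff.2 hx) (Real.arsinh_lt_arsinh.2 e)
      (reg_lt h h' (hx.trans hxy) hx' hl)
    rw [gd_igd (UU_re_lt h'.abs)] at k
    rw [gT, gT]
    linarith

theorem gT_anti (hΦ : IsPhi Φ) (h : Pt T c) (h' : Pt T' c') (hx : 0 ≤ x) (hxy : x ≤ y)
    (hx' : 0 ≤ x') (hxy' : x' ≤ y') (hl : y * y' < c * c') :
    gT Φ T T' y y' ≤ gT Φ T T' x x' := by
  have k1 := gT_anti_left hΦ h h' hx hxy (hx'.trans hxy') hl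
  have l2 : x * y' < c * c' := lt_of_le_of_lt
    (mul_le_mul_of_nonneg_right hxy (hx'.trans hxy')) hl
  have l3 : x * x' < c * c' := lt_of_le_of_lt (mul_le_mul_of_nonneg_left hxy' hx) l2
  have k2 := gT_anti_left hΦ.swap h' h hx' hxy' hx (by rw [mul_comm, mul_comm c']; exact l2)
  rw [gT_swap hΦ h h' hx (hx'.trans hxy') l2, gT_swap hΦ h h' hx hx' l3] at k2
  linarith

theorem gT_nonneg (hΦ : IsPhi Φ) (h0 : Φ 0 0 = c00) (h : Pt T c) (hx : 0 ≤ x) (hx1 : x < c) :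
    0 ≤ gT Φ T T x x := by
  have k := FP_sym hΦ h0 (R := T) (η := Real.arsinh x) h.pos.le h.lt
    (Real.arsinh_nonneg_iff.2 hx) (by rw [Real.sinh_arsinh, h.cos]; exact hx1)
  rw [gT]
  linarith

/-! ### Lower legs -/

theorem phi_tangent' {k y y0 : ℝ} (hk : 0 < k) (hk1 : k < 1) (hy : 0 ≤ y) (h0 : 0 ≤ y0)
    (h1 : (1 - 2 * k) * (k + y0) ≤ 2 * (k * (1 - k))) :
    y * (1 + y) / (k + y) ^ 2 ≤ y0 * (1 + y0) / (k + y0) ^ 2 +
      (k - (1 - 2 * k) * y0) / (k + y0) ^ 3 * (y - y0) := by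
  have e : y0 * (1 + y0) / (k + y0) ^ 2 +
      (k - (1 - 2 * k) * y0) / (k + y0) ^ 3 * (y - y0) - y * (1 + y) / (k + y) ^ 2 =
      (y - y0) ^ 2 * (k * (1 - k) * (2 * (k + y) + (k + y0)) -
        (1 - 2 * k) * ((k + y0) * (k + y))) / ((k + y0) ^ 3 * (k + y) ^ 2) := by
    have a1 : k + y ≠ 0 := by positivity
    have a2 : k + y0 ≠ 0 := by positivity
    field_simp
    ring
  have h2 : 0 ≤ k * (1 - k) * (2 * (k + y) + (k + y0)) -
        (1 - 2 * k) * ((k + y0) * (k + y)) := by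
    have a := mul_le_mul_of_nonneg_right h1 (by positivity : 0 ≤ k + y)
    have b : 0 ≤ k * (1 - k) * (k + y0) := by
      have : 0 < 1 - k := by linarith
      positivity
    nlinarith
  have h3 : 0 ≤ (y - y0) ^ 2 * (k * (1 - k) * (2 * (k + y) + (k + y0)) -
        (1 - 2 * k) * ((k + y0) * (k + y))) / ((k + y0) ^ 3 * (k + y) ^ 2) := by positivity
  linarith

/-- The tangent minorant of `Dd c c`. -/
noncomputable def Dtc (c y0 x x' : ℝ) : ℝ :=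
  c ^ 2 * (1 + x' ^ 2) / (c ^ 2 + x' ^ 2) - (c ^ 2 + x' ^ 2) *
    (y0 * (1 + y0) / (c ^ 2 + y0) ^ 2 +
      (c ^ 2 - (1 - 2 * c ^ 2) * y0) / (c ^ 2 + y0) ^ 3 * (x ^ 2 - y0))

theorem Dtc_le {y0 : ℝ} (hc : 0 < c) (hc1 : c < 1) (h0 : 0 ≤ y0)
    (h1 : (1 - 2 * c ^ 2) * (c ^ 2 + y0) ≤ 2 * (c ^ 2 * (1 - c ^ 2))) :
    Dtc c y0 x x' ≤ Dd c c x x' := by
  have k := phi_tangent' (k := c ^ 2) (by positivity) (by nlinarith) (sq_nonneg x) h0 h1
  rw [Dd, Dtc]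
  have := mul_le_mul_of_nonneg_left k (by positivity : 0 ≤ c ^ 2 + x' ^ 2)
  have e : (c ^ 2 + x' ^ 2) * (x ^ 2 * (1 + x ^ 2)) / (c ^ 2 + x ^ 2) ^ 2 =
      (c ^ 2 + x' ^ 2) * (x ^ 2 * (1 + x ^ 2) / (c ^ 2 + x ^ 2) ^ 2) := by ring
  rw [e]
  linarith

/-- A vertical leg of the first point, downwards. -/
theorem leg_c (hΦ : IsPhi Φ) (h : Pt T c) {xa xb x' : ℝ} (y0 m0 m1 e C G : ℝ)
    (hl : xb * x' < c * c) (hc1 : c < 1) (hx' : 0 ≤ x')
    (hxa : 0 ≤ xa) (hab : xa < xb) (hy0 : 0 ≤ y0)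
    (hy1 : (1 - 2 * c ^ 2) * (c ^ 2 + y0) ≤ 2 * (c ^ 2 * (1 - c ^ 2)))
    (hβ : 0 ≤ c ^ 2 - (1 - 2 * c ^ 2) * y0)
    (hm0 : 0 ≤ m0) (hm1 : 0 ≤ m1) (he : 0 ≤ e) (hC0 : 0 < C) (hC : 1 + xb ^ 2 ≤ C ^ 2)
    (h1 : 3 * e ≤ Dtc c y0 xb x') (h2 : m0 ^ 2 ≤ (1 + e) * Dtc c y0 xb x')
    (h3 : (m0 + m1 * (xb - xa)) ^ 2 ≤ (1 + e) * Dtc c y0 xa x')
    (hG : G ≤ 6366 / 10000 * ((m0 * (xb - xa) + m1 * (xb - xa) ^ 2 / 2) / C)) :
    gT Φ T T xb x' + G ≤ gT Φ T T xa x' := by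
  have hpi := Real.pi_pos
  have c0 := h.c0
  have k := leg_gain hΦ (R := T) (R' := T) (a := Real.arsinh xa) (b := Real.arsinh xb)
    (η' := Real.arsinh x') (m0 := m0) (m1 := m1) (e := e) h.abs h.abs
    (Real.arsinh_nonneg_iff.2 hxa) (Real.arsinh_le_arsinh.2 hab.le)
    (reg_lt h h (hxa.trans hab.le) hx' hl) hm0 hm1 he (by
      intro x k1 k2
      rw [Real.sinh_arsinh] at k1 k2 ⊢
      rw [Real.sinh_arsinh, h.cos]
      have d := Dtc_le (x := x) (x' := x') c0 hc1 hy0 hy1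
      obtain ⟨α, hα⟩ : ∃ α, α = c ^ 2 * (1 + x' ^ 2) / (c ^ 2 + x' ^ 2) -
        (c ^ 2 + x' ^ 2) * (y0 * (1 + y0) / (c ^ 2 + y0) ^ 2 -
        (c ^ 2 - (1 - 2 * c ^ 2) * y0) / (c ^ 2 + y0) ^ 3 * y0) := ⟨_, rfl⟩
      obtain ⟨β, hβ'⟩ : ∃ β, β = (c ^ 2 + x' ^ 2) *
        ((c ^ 2 - (1 - 2 * c ^ 2) * y0) / (c ^ 2 + y0) ^ 3) := ⟨_, rfl⟩
      have ed : ∀ z, Dtc c y0 z x' = α - β * z ^ 2 := fun z => by
        rw [Dtc, hα, hβ']; ring
      have β0 : 0 ≤ β := by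
        rw [hβ']
        positivity
      rw [ed] at h1 h2 h3 d
      have x0 : 0 ≤ x := hxa.trans k1
      have sq1 : x ^ 2 ≤ xb ^ 2 := pow_le_pow_left₀ x0 k2 2
      have m1' := mul_le_mul_of_nonneg_left sq1 β0
      refine ⟨by linarith, ?_⟩
      have q : (m0 + m1 * (xb - x)) ^ 2 ≤ (1 + e) * (α - β * x ^ 2) := by
        have id1 : (xb - xa) * ((1 + e) * (α - β * x ^ 2) - (m0 + m1 * (xb - x)) ^ 2) =
            (xb - x) * ((1 + e) * (α - β * xa ^ 2) - (m0 + m1 * (xb - xa)) ^ 2) +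
            (x - xa) * ((1 + e) * (α - β * xb ^ 2) - m0 ^ 2) +
            (β * (1 + e) + m1 ^ 2) * ((x - xa) * (xb - x) * (xb - xa)) := by ring
        have t1 := mul_nonneg (sub_nonneg.2 k2) (sub_nonneg.2 h3)
        have t2 := mul_nonneg (sub_nonneg.2 k1) (sub_nonneg.2 h2)
        have t3 : 0 ≤ (β * (1 + e) + m1 ^ 2) * ((x - xa) * (xb - x) * (xb - xa)) :=
          mul_nonneg (by positivity) (mul_nonneg (mul_nonneg (by linarith) (by linarith))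
            (by linarith))
        have t4 : 0 ≤ (xb - xa) * ((1 + e) * (α - β * x ^ 2) - (m0 + m1 * (xb - x)) ^ 2) := by
          rw [id1]; linarith
        have t5 : 0 ≤ (1 + e) * (α - β * x ^ 2) - (m0 + m1 * (xb - x)) ^ 2 :=
          nonneg_of_mul_nonneg_right t4 (by linarith)
        linarith
      refine q.trans ?_
      exact mul_le_mul_of_nonneg_left d (by linarith))
  rw [Real.sinh_arsinh, Real.sinh_arsinh] at k
  have cb := Real.cosh_pos (Real.arsinh xb)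
  have cC : Real.cosh (Real.arsinh xb) ≤ C := by
    apply le_of_sq_le_sq _ hC0.le
    rw [Real.cosh_sq, Real.sinh_arsinh]
    linarith
  have N0 : 0 ≤ m0 * (xb - xa) + m1 * (xb - xa) ^ 2 / 2 := by
    have := mul_nonneg hm0 (sub_nonneg.2 hab.le)
    positivity
  have g1 : (m0 * (xb - xa) + m1 * (xb - xa) ^ 2 / 2) / C ≤
      (m0 * (xb - xa) + m1 * (xb - xa) ^ 2 / 2) / Real.cosh (Real.arsinh xb) :=
    div_le_div_of_nonneg_left N0 cb cC
  have p2 : 6366 / 10000 ≤ 2 / Real.pi := by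
    rw [le_div_iff₀ hpi]
    have := Real.pi_lt_d4
    linarith
  have g2 : 6366 / 10000 * ((m0 * (xb - xa) + m1 * (xb - xa) ^ 2 / 2) / C) ≤
      2 / Real.pi * ((m0 * (xb - xa) + m1 * (xb - xa) ^ 2 / 2) / Real.cosh (Real.arsinh xb)) :=
    mul_le_mul p2 g1 (by positivity) (by positivity)
  rw [gT, gT]
  linarith

/-- A vertical leg of the second point. -/
theorem leg_c' (hΦ : IsPhi Φ) (h : Pt T c) {xa xb x' : ℝ} (y0 m0 m1 e C G : ℝ)
    (hl : xb * x' < c * c) (hc1 : c < 1) (hx' : 0 ≤ x')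
    (hxa : 0 ≤ xa) (hab : xa < xb) (hy0 : 0 ≤ y0)
    (hy1 : (1 - 2 * c ^ 2) * (c ^ 2 + y0) ≤ 2 * (c ^ 2 * (1 - c ^ 2)))
    (hβ : 0 ≤ c ^ 2 - (1 - 2 * c ^ 2) * y0)
    (hm0 : 0 ≤ m0) (hm1 : 0 ≤ m1) (he : 0 ≤ e) (hC0 : 0 < C) (hC : 1 + xb ^ 2 ≤ C ^ 2)
    (h1 : 3 * e ≤ Dtc c y0 xb x') (h2 : m0 ^ 2 ≤ (1 + e) * Dtc c y0 xb x')
    (h3 : (m0 + m1 * (xb - xa)) ^ 2 ≤ (1 + e) * Dtc c y0 xa x')
    (hG : G ≤ 6366 / 10000 * ((m0 * (xb - xa) + m1 * (xb - xa) ^ 2 / 2) / C)) :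
    gT Φ T T x' xb + G ≤ gT Φ T T x' xa := by
  have k := leg_c hΦ.swap h y0 m0 m1 e C G hl hc1 hx' hxa hab hy0 hy1 hβ hm0 hm1 he hC0 hC h1
    h2 h3 hG
  have l : xa * x' ≤ xb * x' := mul_le_mul_of_nonneg_right hab.le hx'
  rw [gT_swap hΦ h h hx' (hxa.trans hab.le) (by rw [mul_comm x']; exact hl),
    gT_swap hΦ h h hx' hxa (by rw [mul_comm x']; linarith)] at k
  exact k

end

end Pool.Agent.S3.TT
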