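import Pool.Agent.S3.Es15
import Pool.Agent.S3.Es18
import Pool.Agent.S3.Es7

/-!
# Open-open edges: upper legs and horizontal gains
-/

set_option autoImplicit false

namespace Pool.Agent.S3.TT

open Complex
open Pool.Agent.H25.RK (gdv gdv_re_lt gdv_hasDerivAt)

section

variable {Φ : ℂ → ℂ → ℂ} {T T' c c' x x' y y' : ℝ}

theorem frac_anti {a b x : ℝ} (ha : 0 < a) (hab : a ≤ b) :
    (1 - b + x ^ 2) / (b + x ^ 2) ≤ (1 - a + x ^ 2) / (a + x ^ 2) := by
  have p1 : 0 < a + x ^ 2 := by positivity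
  have p2 : 0 < b + x ^ 2 := by
    have : 0 < b := lt_of_lt_of_le ha hab
    positivity
  rw [div_le_div_iff₀ p2 p1]
  nlinarith [sq_nonneg x, mul_nonneg (sub_nonneg.2 hab) (sq_nonneg x)]

theorem frac_anti' {c x y : ℝ} (hc : 0 < c) (h : c ≤ 1 / 2) (hxy : x ^ 2 ≤ y ^ 2) :
    (1 - c + y ^ 2) / (c + y ^ 2) ≤ (1 - c + x ^ 2) / (c + x ^ 2) := by
  have p1 : 0 < c + x ^ 2 := by positivity
  have p2 : 0 < c + y ^ 2 := by positivity
  rw [div_le_div_iff₀ p2 p1]
  nlinarith [mul_nonneg (sub_nonneg.2 hxy) (by linarith : (0 : ℝ) ≤ 1 - 2 * c)]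

theorem zq_im_nonneg {R R' η η' : ℝ} (hR : 0 < R) (hR1 : R < Real.pi / 2) (hR' : 0 < R')
    (hR1' : R' < Real.pi / 2) (hη : 0 ≤ η) (hη' : 0 ≤ η')
    (hr : Reg (igd (UU R η)) (igd (UU R' (-η')))) :
    0 ≤ (qq (igd (UU R η)) (igd (UU R' (-η')))).im := by
  have aR : |R| < Real.pi / 2 := by rw [abs_of_pos hR]; exact hR1
  have aR' : |R'| < Real.pi / 2 := by rw [abs_of_pos hR']; exact hR1'
  have h := zq (R := R) (η := η) (η' := η') aR'
  have h2 := congrArg Complex.im h
  rw [sinh_im', mul_im, tan_UU_re aR, tan_UU_im aR, wcos_re, wcos_im, UU_re, UU_im,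
    Real.cosh_neg, Real.sinh_neg] at h2
  have cR := cos_pos' aR
  have cR' := cos_pos' aR'
  have sR : 0 < Real.sin R := Real.sin_pos_of_pos_of_lt_pi hR (by linarith [Real.pi_pos])
  have sR' : 0 < Real.sin R' := Real.sin_pos_of_pos_of_lt_pi hR' (by linarith [Real.pi_pos])
  have s1 : 0 ≤ Real.sinh η := Real.sinh_nonneg_iff.2 hη
  have s2 : 0 ≤ Real.sinh η' := Real.sinh_nonneg_iff.2 hη'
  have c1 := Real.cosh_pos η
  have c2 := Real.cosh_pos η'
  set q := qq (igd (UU R η)) (igd (UU R' (-η'))) with hq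
  have k : 0 ≤ Real.cosh q.re * Real.sin q.im := by
    rw [h2]
    have : 0 ≤ Real.sin R * Real.cos R / (Real.cos R ^ 2 + Real.sinh η ^ 2) := by positivity
    have : 0 ≤ Real.sinh η * Real.cosh η / (Real.cos R ^ 2 + Real.sinh η ^ 2) := by positivity
    have e : -(Real.sin R' * -Real.sinh η') = Real.sin R' * Real.sinh η' := by ring
    rw [e]
    positivity
  have k2 : 0 ≤ Real.sin q.im := nonneg_of_mul_nonneg_right k (Real.cosh_pos _)
  by_contra hc
  push Not at hc
  have b1 : -(Real.pi) < q.im := by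
    have := (abs_lt.1 (qq_im_lt hr)).1
    linarith [Real.pi_pos]
  have := Real.sin_neg_of_neg_of_neg_pi_lt hc b1
  linarith

/-! ### Upper legs -/

/-- Raising the first point. -/
theorem upper_leg (hΦ : IsPhi Φ) (h : Pt T c) {xa xb x' : ℝ} (A M r g CHa CHb CH' SU L : ℝ)
    (hl : xb * x' < c * c) (hc1 : c ^ 2 ≤ 1 / 2) (hx' : 0 ≤ x') (hxa : 0 ≤ xa) (hab : xa ≤ xb)
    (hCHa0 : 0 < CHa) (hCHa : CHa ^ 2 ≤ 1 + xa ^ 2) (hCHb0 : 0 ≤ CHb) (hCHb : 1 + xb ^ 2 ≤ CHb ^ 2)
    (hCH0 : 0 ≤ CH') (hCH : 1 + x' ^ 2 ≤ CH' ^ 2) (hSU0 : 0 ≤ SU) (hSU : 1 - c ^ 2 ≤ SU ^ 2)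
    (u1 : xb * CHb * x' ≤ c ^ 2) (u0 : xa * CHa * x' ≤ c ^ 2 * CH')
    (u2 : SU * (c ^ 2 * CH' - xa * CHa * x') ≤ r * (c ^ 2 + xa ^ 2))
    (u3 : 1 - (1 - c ^ 2 + xb ^ 2) / (c ^ 2 + xb ^ 2) * (c ^ 2 + x' ^ 2) ≤ g)
    (u4 : g ≤ M ^ 2) (u5 : r ^ 2 ≤ M ^ 2 * (M ^ 2 - g)) (hM0 : 0 ≤ M) (hA0 : 0 ≤ A)
    (hA : A ≤ 3 / 2) (u6 : M ≤ A - A ^ 3 / 6)
    (hL : 6367 / 10000 * (A * ((xb - xa) / CHa)) ≤ L) :
    gT Φ T T xa x' - L ≤ gT Φ T T xb x' := by
  have hpi := Real.pi_pos
  have hpi3 := Real.pi_gt_three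
  have c0 := h.c0
  have a0 : 0 ≤ Real.arsinh xa := Real.arsinh_nonneg_iff.2 hxa
  have aab : Real.arsinh xa ≤ Real.arsinh xb := Real.arsinh_le_arsinh.2 hab
  set w := igd (UU T (-(Real.arsinh x'))) with hw
  have gw : gd w = UU T (-(Real.arsinh x')) := gd_igd (UU_re_lt h.abs)
  have hr0 := reg_lt h h (hxa.trans hab) hx' hl
  have hreg : ∀ s ∈ Set.Icc (Real.arsinh xa) (Real.arsinh xb), Reg (igd (UU T s)) w :=
    fun s hs => reg_vert h.abs a0 hs.1 hs.2 hr0
  have hd : ∀ s ∈ Set.Icc (Real.arsinh xa) (Real.arsinh xb), HasDerivAt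
      (fun s => FP Φ (UU T s) (gd w) - s + 2 / Real.pi * A * s)
      (2 / Real.pi * (qq (igd (UU T s)) w).im - 1 + 2 / Real.pi * A) s := by
    intro s hs
    have k1 := hasDerivAt_FP_vert hΦ h.abs (hreg s hs)
    refine ((k1.sub (hasDerivAt_id s)).add ((hasDerivAt_id s).const_mul
      (2 / Real.pi * A))).congr_deriv ?_
    simp
  have key : MonotoneOn (fun s => FP Φ (UU T s) (gd w) - s + 2 / Real.pi * A * s)
      (Set.Icc (Real.arsinh xa) (Real.arsinh xb)) := by
    apply monotoneOn_of_deriv_nonneg (convex_Icc _ _)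
    · exact fun t ht => (hd t ht).continuousAt.continuousWithinAt
    · intro t ht
      exact (hd t (interior_subset ht)).differentiableAt.differentiableWithinAt
    · intro t ht
      have hr := hreg t (interior_subset ht)
      rw [(hd t (interior_subset ht)).deriv]
      rw [interior_Icc] at ht
      have t0 : 0 ≤ t := a0.trans ht.1.le
      obtain ⟨x, hx⟩ : ∃ x, x = Real.sinh t := ⟨_, rfl⟩
      have x1 : xa ≤ x := by
        rw [hx, ← Real.sinh_arsinh xa]; exact Real.sinh_le_sinh.2 ht.1.le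
      have x2 : x ≤ xb := by
        rw [hx, ← Real.sinh_arsinh xb]; exact Real.sinh_le_sinh.2 ht.2.le
      have x0 : 0 ≤ x := hxa.trans x1
      have qi := abs_lt.1 (qq_im_lt hr)
      have q0 := zq_im_nonneg (η := t) (η' := Real.arsinh x') h.pos h.lt h.pos h.lt t0
        (Real.arsinh_nonneg_iff.2 hx') hr
      have zr := zq_re (η := t) (η' := Real.arsinh x') h.abs h.abs
      have zn := zq_normSq (η := t) (η' := Real.arsinh x') h.abs h.abs
      rw [← hw] at q0 zr zn
      rw [h.cos, Real.sinh_arsinh, ← hx] at zr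
      rw [h.cos, Real.sinh_arsinh, ← hx] at zn
      -- the hyperbolic cosines
      have ch := Real.cosh_sq t
      rw [← hx] at ch
      have ch0 := Real.cosh_pos t
      have cx := Real.cosh_sq (Real.arsinh x')
      rw [Real.sinh_arsinh] at cx
      have cx0 := Real.cosh_pos (Real.arsinh x')
      have ch1 : CHa ≤ Real.cosh t := by
        apply le_of_sq_le_sq _ ch0.le
        have := pow_le_pow_left₀ hxa x1 2
        linarith
      have ch2 : Real.cosh t ≤ CHb := by
        apply le_of_sq_le_sq _ hCHb0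
        have := pow_le_pow_left₀ x0 x2 2
        linarith
      have cx1 : Real.cosh (Real.arsinh x') ≤ CH' := by
        apply le_of_sq_le_sq _ hCH0
        linarith
      have cx2 := Real.one_le_cosh (Real.arsinh x')
      have sT0 : 0 < Real.sin T := Real.sin_pos_of_pos_of_lt_pi h.pos (by linarith [h.lt])
      have sT : Real.sin T ≤ SU := by
        apply le_of_sq_le_sq _ hSU0
        have := Real.sin_sq_add_cos_sq T
        rw [h.cos] at this
        linarith
      have np : 0 < c ^ 2 + x ^ 2 := by positivity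
      have zr' : (sinh (qq (igd (UU T t)) w)).re =
          Real.sin T * (c ^ 2 * Real.cosh (Real.arsinh x') - x * Real.cosh t * x') /
            (c ^ 2 + x ^ 2) := by
        rw [zr]; ring
      have N0 : 0 ≤ c ^ 2 * Real.cosh (Real.arsinh x') - x * Real.cosh t * x' := by
        have a1 : x * Real.cosh t ≤ xb * CHb := mul_le_mul x2 ch2 ch0.le (hxa.trans hab)
        have a2 := mul_le_mul_of_nonneg_right a1 hx'
        have a3 : c ^ 2 * 1 ≤ c ^ 2 * Real.cosh (Real.arsinh x') :=
          mul_le_mul_of_nonneg_left cx2 (sq_nonneg c)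
        linarith
      have N1 : c ^ 2 * Real.cosh (Real.arsinh x') - x * Real.cosh t * x' ≤
          c ^ 2 * CH' - xa * CHa * x' := by
        have a1 : xa * CHa ≤ x * Real.cosh t := mul_le_mul x1 ch1 hCHa0.le x0
        have a2 := mul_le_mul_of_nonneg_right a1 hx'
        have a3 := mul_le_mul_of_nonneg_left cx1 (sq_nonneg c)
        linarith
      have r0 : 0 ≤ r := by
        have : 0 ≤ r * (c ^ 2 + xa ^ 2) :=
          (mul_nonneg hSU0 (by linarith)).trans u2
        exact nonneg_of_mul_nonneg_left this (by positivity)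
      have zb : |(sinh (qq (igd (UU T t)) w)).re| ≤ r := by
        rw [zr', abs_of_nonneg (by positivity), div_le_iff₀ np]
        calc Real.sin T * (c ^ 2 * Real.cosh (Real.arsinh x') - x * Real.cosh t * x') ≤
            SU * (c ^ 2 * CH' - xa * CHa * x') :=
              mul_le_mul sT N1 N0 hSU0
          _ ≤ r * (c ^ 2 + xa ^ 2) := u2
          _ ≤ r * (c ^ 2 + x ^ 2) := by
              apply mul_le_mul_of_nonneg_left _ r0
              have := pow_le_pow_left₀ hxa x1 2
              linarith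
      have gb : 1 - normSq (sinh (qq (igd (UU T t)) w)) ≤ g := by
        rw [zn]
        refine le_trans ?_ u3
        have := frac_anti' (c := c ^ 2) (x := x) (y := xb) (by positivity) hc1
          (pow_le_pow_left₀ x0 x2 2)
        have := mul_le_mul_of_nonneg_right this (by positivity : 0 ≤ c ^ 2 + x' ^ 2)
        linarith
      have k1 := cos_sq_le zb gb u4 u5
      have cq : 0 < Real.cos (qq (igd (UU T t)) w).im :=
        Real.cos_pos_of_mem_Ioo ⟨by linarith [qi.1], qi.2⟩
      have k2 : Real.cos (qq (igd (UU T t)) w).im ≤ M := le_of_sq_le_sq k1 hM0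
      have k3 : Real.pi / 2 - (qq (igd (UU T t)) w).im ≤ A := by
        by_contra hc
        push Not at hc
        have s1 : Real.sin A < Real.sin (Real.pi / 2 - (qq (igd (UU T t)) w).im) :=
          Real.sin_lt_sin_of_lt_of_le_pi_div_two (by linarith) (by linarith) hc
        rw [Real.sin_pi_div_two_sub] at s1
        have s2 : A - A ^ 3 / 6 ≤ Real.sin A := by
          have h := LowA_pos (b := A) (f := fun x => Real.sin x - (x - x ^ 3 / 6))
            (f' := fun x => Real.cos x - (1 - x ^ 2 / 2))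
            (fun x _ _ => by
              have h1 := (Real.hasDerivAt_sin x).sub ((hasDerivAt_id' x).sub
                ((hasDerivAt_pow 3 x).div_const 6))
              refine h1.congr_deriv ?_
              norm_num
              try ring)
            (by simp) (fun x hx _ => by linarith [Real.one_sub_sq_div_two_le_cos (x := x)])
            hA0 le_rfl
          linarith
        linarith
      have e : 2 / Real.pi * (qq (igd (UU T t)) w).im - 1 =
          -(2 / Real.pi * (Real.pi / 2 - (qq (igd (UU T t)) w).im)) := by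
        field_simp
        ring
      have k4 : 2 / Real.pi * (Real.pi / 2 - (qq (igd (UU T t)) w).im) ≤ 2 / Real.pi * A :=
        mul_le_mul_of_nonneg_left k3 (by positivity)
      linarith
  have k := key ⟨le_rfl, aab⟩ ⟨aab, le_rfl⟩ aab
  simp only [gw] at k
  -- the length of the leg
  have len : Real.arsinh xb - Real.arsinh xa ≤ (xb - xa) / CHa := by
    have hd2 : ∀ s ∈ Set.Icc (Real.arsinh xa) (Real.arsinh xb), HasDerivAt
        (fun s => Real.sinh s - CHa * s) (Real.cosh s - CHa) s := fun s _ =>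
      ((Real.hasDerivAt_sinh s).sub ((hasDerivAt_id' s).const_mul CHa)).congr_deriv (by ring)
    have key2 : MonotoneOn (fun s => Real.sinh s - CHa * s)
        (Set.Icc (Real.arsinh xa) (Real.arsinh xb)) := by
      apply monotoneOn_of_deriv_nonneg (convex_Icc _ _)
      · exact fun t ht => (hd2 t ht).continuousAt.continuousWithinAt
      · intro t ht
        exact (hd2 t (interior_subset ht)).differentiableAt.differentiableWithinAt
      · intro t ht
        rw [(hd2 t (interior_subset ht)).deriv]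
        rw [interior_Icc] at ht
        have : CHa ≤ Real.cosh t := by
          apply le_of_sq_le_sq _ (Real.cosh_pos t).le
          rw [Real.cosh_sq]
          have h1 : xa ≤ Real.sinh t := by
            rw [← Real.sinh_arsinh xa]; exact Real.sinh_le_sinh.2 ht.1.le
          have := pow_le_pow_left₀ hxa h1 2
          linarith
        linarith
    have := key2 ⟨le_rfl, aab⟩ ⟨aab, le_rfl⟩ aab
    simp only [Real.sinh_arsinh] at this
    rw [le_div_iff₀ hCHa0]
    linarith
  have p2 : 2 / Real.pi ≤ 6367 / 10000 := by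
    rw [div_le_iff₀ hpi]
    have := Real.pi_gt_d4
    linarith
  have len0 : 0 ≤ Real.arsinh xb - Real.arsinh xa := by linarith
  have f1 : 2 / Real.pi * A * (Real.arsinh xb - Real.arsinh xa) ≤ L := by
    refine le_trans ?_ hL
    have a1 : A * (Real.arsinh xb - Real.arsinh xa) ≤ A * ((xb - xa) / CHa) :=
      mul_le_mul_of_nonneg_left len hA0
    have a2 : 0 ≤ A * (Real.arsinh xb - Real.arsinh xa) := mul_nonneg hA0 len0
    calc 2 / Real.pi * A * (Real.arsinh xb - Real.arsinh xa) =
        2 / Real.pi * (A * (Real.arsinh xb - Real.arsinh xa)) := by ring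
      _ ≤ 6367 / 10000 * (A * ((xb - xa) / CHa)) :=
          mul_le_mul p2 a1 a2 (by norm_num)
  rw [gT, gT]
  linarith

/-! ### Horizontal gains -/

/-- Moving the first point to the left. -/
theorem hor_gain (hΦ : IsPhi Φ) {T1 T2 c1 c2 : ℝ} (h1 : Pt T1 c1) (h2 : Pt T2 c2)
    (h' : Pt T' c') (h12 : c2 ≤ c1) (S CH CH' SU' SU m m' g r G : ℝ) (hx : 0 ≤ x) (hx' : 0 ≤ x')
    (hl : x * x' < c2 * c') (hCH0 : 0 ≤ CH) (hCH : 1 + x ^ 2 ≤ CH ^ 2) (hCH0' : 0 ≤ CH')
    (hCH' : CH' ^ 2 ≤ 1 + x' ^ 2) (hSU0' : 0 ≤ SU') (hSU' : 1 - c' ^ 2 ≤ SU' ^ 2)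
    (hSU0 : 0 < SU) (hSU : 1 - c2 ^ 2 ≤ SU ^ 2) (hS0 : 0 ≤ S)
    (hS1 : S ^ 2 ≤ c1 ^ 2 * (1 - c1 ^ 2)) (hS2 : S ^ 2 ≤ c2 ^ 2 * (1 - c2 ^ 2))
    (u0 : 0 ≤ r) (u1 : r * (c1 ^ 2 + x ^ 2) ≤ S * (c' * CH') - x * CH * (SU' * x'))
    (u2 : 1 - (1 - c1 ^ 2 + x ^ 2) / (c1 ^ 2 + x ^ 2) * (c' ^ 2 + x' ^ 2) ≤ g)
    (hm : 0 ≤ m) (hm1 : m ≤ 1) (u3 : m ^ 2 * (m ^ 2 + g) ≤ r ^ 2) (hm' : 0 ≤ m')
    (u4 : m' ≤ m - m ^ 3 / 6) (hG : G ≤ 6366 / 10000 * (m' * ((c1 - c2) / SU))) :
    gT Φ T2 T' x x' + G ≤ gT Φ T1 T' x x' := by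
  have hpi := Real.pi_pos
  have c10 := h1.c0
  have c20 := h2.c0
  have c0' := h'.c0
  have T12 : T1 ≤ T2 := by
    by_contra hc
    push Not at hc
    have := Real.cos_lt_cos_of_nonneg_of_le_pi h2.pos.le (by linarith [h1.lt]) hc
    rw [h1.cos, h2.cos] at this
    linarith
  have ax : 0 ≤ Real.arsinh x := Real.arsinh_nonneg_iff.2 hx
  set w := igd (UU T' (-(Real.arsinh x'))) with hw
  have gw : gd w = UU T' (-(Real.arsinh x')) := gd_igd (UU_re_lt h'.abs)
  have hr0 := reg_lt h2 h' hx hx' hl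
  have aρ : ∀ s ∈ Set.Icc T1 T2, |s| < Real.pi / 2 := fun s hs => by
    rw [abs_of_pos (lt_of_lt_of_le h1.pos hs.1)]; linarith [hs.2, h2.lt]
  have hreg : ∀ s ∈ Set.Icc T1 T2, Reg (igd (UU s (Real.arsinh x))) w := fun s hs =>
    reg_hor ax (h1.pos.le.trans hs.1) hs.2 h2.lt hr0
  have hd : ∀ s ∈ Set.Icc T1 T2, HasDerivAt
      (fun s => FP Φ (UU s (Real.arsinh x)) (gd w) + 2 / Real.pi * m' * s)
      (-(2 / Real.pi) * (qq (igd (UU s (Real.arsinh x))) w).re + 2 / Real.pi * m') s := by
    intro s hs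
    have k1 := hasDerivAt_FP_hor hΦ (η := Real.arsinh x) (aρ s hs) (hreg s hs)
    refine (k1.add ((hasDerivAt_id s).const_mul (2 / Real.pi * m'))).congr_deriv ?_
    simp
  have key : AntitoneOn (fun s => FP Φ (UU s (Real.arsinh x)) (gd w) + 2 / Real.pi * m' * s)
      (Set.Icc T1 T2) := by
    apply antitoneOn_of_deriv_nonpos (convex_Icc _ _)
    · exact fun t ht => (hd t ht).continuousAt.continuousWithinAt
    · intro t ht
      exact (hd t (interior_subset ht)).differentiableAt.differentiableWithinAt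
    · intro t ht
      have ht' := interior_subset ht
      have hr := hreg t ht'
      have at' := aρ t ht'
      rw [(hd t ht').deriv]
      have zr := zq_re (η := Real.arsinh x) (η' := Real.arsinh x') at' h'.abs
      have zn := zq_normSq (η := Real.arsinh x) (η' := Real.arsinh x') at' h'.abs
      rw [← hw, h'.cos, Real.sinh_arsinh, Real.sinh_arsinh] at zr
      rw [← hw, h'.cos, Real.sinh_arsinh, Real.sinh_arsinh] at zn
      have cρ := cos_pos' at'
      have cρ1 : Real.cos t ≤ c1 := by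
        rw [← h1.cos]
        exact Real.cos_le_cos_of_nonneg_of_le_pi h1.pos.le (by linarith [ht'.2, h2.lt]) ht'.1
      have ch := Real.cosh_sq (Real.arsinh x)
      rw [Real.sinh_arsinh] at ch
      have ch0 := Real.cosh_pos (Real.arsinh x)
      have cx := Real.cosh_sq (Real.arsinh x')
      rw [Real.sinh_arsinh] at cx
      have cx0 := Real.cosh_pos (Real.arsinh x')
      have ch1 : Real.cosh (Real.arsinh x) ≤ CH := by
        apply le_of_sq_le_sq _ hCH0
        linarith
      have cx1 : CH' ≤ Real.cosh (Real.arsinh x') := by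
        apply le_of_sq_le_sq _ cx0.le
        linarith
      have sT0 : 0 < Real.sin T' := Real.sin_pos_of_pos_of_lt_pi h'.pos (by linarith [h'.lt])
      have sT : Real.sin T' ≤ SU' := by
        apply le_of_sq_le_sq _ hSU0'
        have := Real.sin_sq_add_cos_sq T'
        rw [h'.cos] at this
        linarith
      have hsc : S ≤ Real.sin t * Real.cos t := by
        have e1 : S ≤ Real.sin T1 * Real.cos T1 := by
          have s1 : 0 < Real.sin T1 := Real.sin_pos_of_pos_of_lt_pi h1.pos (by linarith [h1.lt])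
          apply le_of_sq_le_sq _ (by rw [h1.cos]; positivity)
          have := Real.sin_sq_add_cos_sq T1
          rw [h1.cos] at this ⊢
          rw [mul_pow]
          have e : Real.sin T1 ^ 2 = 1 - c1 ^ 2 := by linarith
          rw [e]
          linarith
        have e2 : S ≤ Real.sin T2 * Real.cos T2 := by
          have s1 : 0 < Real.sin T2 := Real.sin_pos_of_pos_of_lt_pi h2.pos (by linarith [h2.lt])
          apply le_of_sq_le_sq _ (by rw [h2.cos]; positivity)
          have := Real.sin_sq_add_cos_sq T2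
          rw [h2.cos] at this ⊢
          rw [mul_pow]
          have e : Real.sin T2 ^ 2 = 1 - c2 ^ 2 := by linarith
          rw [e]
          linarith
        rcases sin_mul_cos_ge h1.pos.le ht'.1 ht'.2 h2.lt.le with hh | hh <;> linarith
      have np : 0 < Real.cos t ^ 2 + x ^ 2 := by positivity
      have cρ2 : Real.cos t ^ 2 ≤ c1 ^ 2 := pow_le_pow_left₀ cρ.le cρ1 2
      have rb : r ≤ (sinh (qq (igd (UU t (Real.arsinh x))) w)).re := by
        rw [zr, le_div_iff₀ np]
        calc r * (Real.cos t ^ 2 + x ^ 2) ≤ r * (c1 ^ 2 + x ^ 2) :=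
              mul_le_mul_of_nonneg_left (by linarith) u0
          _ ≤ S * (c' * CH') - x * CH * (SU' * x') := u1
          _ ≤ _ := by
              have a1 : S * (c' * CH') ≤ Real.sin t * Real.cos t *
                  (c' * Real.cosh (Real.arsinh x')) :=
                mul_le_mul hsc (mul_le_mul_of_nonneg_left cx1 c0'.le) (by positivity)
                  (hS0.trans hsc)
              have a2 : x * Real.cosh (Real.arsinh x) * (Real.sin T' * x') ≤
                  x * CH * (SU' * x') :=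
                mul_le_mul (mul_le_mul_of_nonneg_left ch1 hx)
                  (mul_le_mul_of_nonneg_right sT hx') (by positivity) (by positivity)
              linarith
      have gb : 1 - normSq (sinh (qq (igd (UU t (Real.arsinh x))) w)) ≤ g := by
        rw [zn]
        refine le_trans ?_ u2
        have := frac_anti (a := Real.cos t ^ 2) (b := c1 ^ 2) (x := x) (by positivity) cρ2
        have := mul_le_mul_of_nonneg_right this (by positivity : 0 ≤ c' ^ 2 + x' ^ 2)
        linarith
      have k1 := sinh_sq_ge u0 rb gb u3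
      have qi := abs_lt.1 (qq_im_lt hr)
      have cq : 0 < Real.cos (qq (igd (UU t (Real.arsinh x))) w).im :=
        Real.cos_pos_of_mem_Ioo ⟨by linarith [qi.1], qi.2⟩
      have sh0 : 0 ≤ Real.sinh (qq (igd (UU t (Real.arsinh x))) w).re := by
        have e := sinh_re' (qq (igd (UU t (Real.arsinh x))) w)
        have : 0 ≤ Real.sinh (qq (igd (UU t (Real.arsinh x))) w).re *
            Real.cos (qq (igd (UU t (Real.arsinh x))) w).im := by
          rw [← e]; linarith
        exact nonneg_of_mul_nonneg_left this cq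
      have k2 : m ≤ Real.sinh (qq (igd (UU t (Real.arsinh x))) w).re := le_of_sq_le_sq k1 sh0
      have k3 : m' ≤ (qq (igd (UU t (Real.arsinh x))) w).re := by
        have a1 : Real.arsinh m ≤ (qq (igd (UU t (Real.arsinh x))) w).re := by
          rw [← Real.sinh_le_sinh, Real.sinh_arsinh]; exact k2
        have a2 := arsh_three (J := Real.arsinh m) (Real.arsinh_nonneg_iff.2 hm) (by
          rw [Real.sinh_arsinh]
          exact pow_le_one₀ hm hm1)
        rw [Real.sinh_arsinh] at a2
        linarith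
      have k4 := mul_le_mul_of_nonneg_left k3 (by positivity : 0 ≤ 2 / Real.pi)
      linarith
  have k := key ⟨le_rfl, T12⟩ ⟨T12, le_rfl⟩ T12
  simp only [gw] at k
  have len : (c1 - c2) / SU ≤ T2 - T1 := by
    have hs : ∀ s ∈ Set.Icc T1 T2, Real.sin s ≤ SU := by
      intro s hs
      have a1 : Real.sin s ≤ Real.sin T2 := Real.sin_le_sin_of_le_of_le_pi_div_two
        (by linarith [hs.1, h1.pos]) h2.lt.le hs.2
      have a2 : Real.sin T2 ≤ SU := by
        apply le_of_sq_le_sq _ hSU0.le
        have := Real.sin_sq_add_cos_sq T2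
        rw [h2.cos] at this
        linarith
      linarith
    have hd2 : ∀ s ∈ Set.Icc T1 T2, HasDerivAt
        (fun s => Real.cos s + SU * s) (-Real.sin s + SU) s := fun s _ =>
      ((Real.hasDerivAt_cos s).add ((hasDerivAt_id' s).const_mul SU)).congr_deriv (by ring)
    have key2 : MonotoneOn (fun s => Real.cos s + SU * s) (Set.Icc T1 T2) := by
      apply monotoneOn_of_deriv_nonneg (convex_Icc _ _)
      · exact fun t ht => (hd2 t ht).continuousAt.continuousWithinAt
      · intro t ht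
        exact (hd2 t (interior_subset ht)).differentiableAt.differentiableWithinAt
      · intro t ht
        rw [(hd2 t (interior_subset ht)).deriv]
        have := hs t (interior_subset ht)
        linarith
    have := key2 ⟨le_rfl, T12⟩ ⟨T12, le_rfl⟩ T12
    simp only [h1.cos, h2.cos] at this
    rw [div_le_iff₀ hSU0]
    linarith
  have p2 : 6366 / 10000 ≤ 2 / Real.pi := by
    rw [le_div_iff₀ hpi]
    have := Real.pi_lt_d4
    linarith
  have f1 : G ≤ 2 / Real.pi * m' * (T2 - T1) := by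
    refine hG.trans ?_
    have a0 : 0 ≤ (c1 - c2) / SU := div_nonneg (by linarith) hSU0.le
    have a1 : m' * ((c1 - c2) / SU) ≤ m' * (T2 - T1) := mul_le_mul_of_nonneg_left len hm'
    calc 6366 / 10000 * (m' * ((c1 - c2) / SU)) ≤ 2 / Real.pi * (m' * (T2 - T1)) :=
          mul_le_mul p2 a1 (mul_nonneg hm' a0) (by positivity)
      _ = _ := by ring
  rw [gT, gT]
  linarith

end

end Pool.Agent.S3.TT
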