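import Pool.Agent.S3.Es1
import Pool.Agent.S3.W.Vert

/-!
# Open-open edges: the bound exceeds the value at the ends of the polygon

For points `v`, `w` of the two `u`-lines `π (im v + im w) < L0 v w`. For `π re v`, `π re w ≥ 3/5` this
follows from `π (im v + im w) < re Φ (v, conj w) ≤ L0 v w`; `π im v - ell v` increases on
`0 ≤ π re v ≤ 3/5`.
-/

set_option autoImplicit false

namespace Pool.Agent.S3

open Complex
open Pool.Agent.H25.RK (gdv gdv_re_lt gdv_hasDerivAt)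

section

variable {Φ : ℂ → ℂ → ℂ} {θ θ' xc xc' b b' : ℝ} {v w : ℂ}

theorem Ht.tan_le (h : Ht θ) : Real.tan θ ≤ 601 / 1000 := by
  have := h.tan
  nlinarith

theorem Und.cos_ge (h : Und θ v) : 1 / 2 ≤ Real.cos (Real.pi * v.re) := by
  have hpi := Real.pi_pos
  rw [← Real.cos_pi_div_three]
  apply Real.cos_le_cos_of_nonneg_of_le_pi
  · exact mul_nonneg hpi.le h.re0
  · linarith
  · nlinarith [h.re1]

theorem UU_pi (v : ℂ) : UU (Real.pi * v.re) (Real.pi * v.im) = (Real.pi : ℂ) * v := by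
  rw [← pi_mul_re, ← pi_mul_im, UU_eta]

theorem Und.FP_lt (hΦ : IsPhi Φ) (h0 : Φ 0 0 = c00) (hθ : Ht θ) (hθ' : Ht θ') (hv : Und θ v)
    (hw : Und θ' w) (c : Real.cos (Real.pi * v.re) ≤ 83 / 100)
    (c' : Real.cos (Real.pi * w.re) ≤ 83 / 100) :
    Real.pi * v.im + Real.pi * w.im < (Φ v ((starRingEnd ℂ) w)).re := by
  have hpi := Real.pi_pos
  have pc : (Real.pi : ℂ) ≠ 0 := by exact_mod_cast hpi.ne'
  have key : ∀ {θ : ℝ} {v : ℂ}, Ht θ → Und θ v →
      Real.sinh (Real.pi * v.im) ≤ 601 / 1000 * Real.cos (Real.pi * v.re) := by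
    intro θ v hθ hv
    have h1 : Real.sinh (Real.pi * v.im) ≤ Real.sinh (Real.pi * bl θ v.re) :=
      Real.sinh_le_sinh.2 (mul_le_mul_of_nonneg_left hv.im1 hpi.le)
    rw [sinh_pi_bl] at h1
    have h2 := hv.cos_ge
    have h3 := hθ.tan_le
    nlinarith
  have a1 : Real.pi * v.re < Real.pi / 2 := by nlinarith [hv.re1]
  have a2 : Real.pi * w.re < Real.pi / 2 := by nlinarith [hw.re1]
  have k := FP_lines hΦ h0 (mul_nonneg hpi.le hv.re0) a1 (mul_nonneg hpi.le hw.re0) a2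
    hv.cos_ge c hw.cos_ge c' (mul_nonneg hpi.le hv.im0) (mul_nonneg hpi.le hw.im0)
    (key hθ hv) (key hθ' hw)
  rw [← UU_conj, UU_pi, UU_pi, FP, map_mul, conj_ofReal, mul_div_cancel_left₀ _ pc,
    mul_div_cancel_left₀ _ pc] at k
  exact k

/-! ### The function `π im v - ell v` on the line -/

/-- `π im v - ell v` on the `u`-line. -/
noncomputable def tE (θ b xc : ℝ) (Q : ℂ) (x : ℝ) : ℝ :=
  Real.pi * (gdv (UU x θ)).im - ell (gdv (UU xc θ)) Q (-2 * Real.pi * b) (gdv (UU x θ))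

theorem hasDerivAt_line (hθ : |θ| < Real.pi / 2) (x : ℝ) :
    HasDerivAt (fun x : ℝ => gdv (UU x θ)) (cos (Real.pi * gdv (UU x θ)) / Real.pi) x := by
  have h' : |(UU x θ).im| < Real.pi / 2 := by rwa [UU_im]
  have := HasDerivAt.scomp (g₁ := gdv) (h := fun x : ℝ => UU x θ) x (gdv_hasDerivAt h')
    (hasDerivAt_UU x θ)
  refine this.congr_deriv ?_
  have hpi : (Real.pi : ℂ) ≠ 0 := by exact_mod_cast Real.pi_ne_zero
  rw [cos_pi_gdv h', smul_eq_mul, one_mul]
  have := cosh_ne h'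
  field_simp

theorem hasDerivAt_tE (hθ : |θ| < Real.pi / 2) (Q : ℂ) (x : ℝ) :
    HasDerivAt (tE θ b xc Q)
      ((2 * Q.re / Real.pi + 2 * b * ((gdv (UU x θ)).im - (gdv (UU xc θ)).im)) *
        (Real.cos (Real.pi * (gdv (UU x θ)).re) * Real.cosh (Real.pi * (gdv (UU x θ)).im)) +
       (-1 + 2 * Q.im / Real.pi - 2 * b * ((gdv (UU x θ)).re - (gdv (UU xc θ)).re)) *
        (Real.sin (Real.pi * (gdv (UU x θ)).re) * Real.sinh (Real.pi * (gdv (UU x θ)).im))) x := by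
  have hpi : (Real.pi : ℂ) ≠ 0 := by exact_mod_cast Real.pi_ne_zero
  have hpr := Real.pi_pos
  have h1 := hasDerivAt_line hθ x
  have h2 := h1.const_mul (-I * Real.pi)
  have k1 := h1.sub_const (gdv (UU xc θ))
  have h3 := k1.const_mul (2 * Q)
  have h4 := (k1.pow 2).const_mul (I * ((-2 * Real.pi * b : ℝ) : ℂ) / 2)
  have h5 := hasDerivAt_re ((h2.add h3).add h4)
  have e : tE θ b xc Q = fun x : ℝ => ((-I * Real.pi) * gdv (UU x θ) +
      (2 * Q) * (gdv (UU x θ) - gdv (UU xc θ)) + (I * ((-2 * Real.pi * b : ℝ) : ℂ) / 2) *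
      (gdv (UU x θ) - gdv (UU xc θ)) ^ 2).re := by
    funext y
    rw [tE, ell]
    have : ((-I * Real.pi) * gdv (UU y θ)).re = Real.pi * (gdv (UU y θ)).im := by
      rw [mul_assoc, mul_re, pi_mul_re, pi_mul_im, neg_re, neg_im, I_re, I_im]
      ring
    simp only [add_re]
    rw [this]
    ring
  rw [e]
  refine h5.congr_deriv ?_
  have e2 : (-I * Real.pi) * (cos (Real.pi * gdv (UU x θ)) / Real.pi) +
      (2 * Q) * (cos (Real.pi * gdv (UU x θ)) / Real.pi) +
      (I * ((-2 * Real.pi * b : ℝ) : ℂ) / 2) * ((2 : ℕ) * (gdv (UU x θ) - gdv (UU xc θ)) ^ (2 - 1) *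
        (cos (Real.pi * gdv (UU x θ)) / Real.pi)) =
      (-I + ((2 / Real.pi : ℝ) : ℂ) * Q + ((-(2 * b) : ℝ) : ℂ) *
        (I * (gdv (UU x θ) - gdv (UU xc θ)))) * cos (Real.pi * gdv (UU x θ)) := by
    push_cast
    field_simp
  rw [e2, mul_re, wcos_re, wcos_im, pi_mul_re, pi_mul_im]
  simp only [add_re, add_im, neg_re, neg_im, I_re, I_im, mul_re, mul_im, sub_re, sub_im,
    ofReal_re, ofReal_im]
  ring

theorem line_strictMono (hθ : |θ| < Real.pi / 2) :
    StrictMono (fun x : ℝ => (gdv (UU x θ)).re) := by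
  apply strictMono_of_deriv_pos
  intro x
  have h1 := hasDerivAt_re (hasDerivAt_line hθ x)
  rw [h1.deriv, div_ofReal_re]
  apply div_pos _ Real.pi_pos
  have h' : |(UU x θ).im| < Real.pi / 2 := by rwa [UU_im]
  exact cos_re_pos' (pi_re_lt (gdv_re_lt h'))

theorem line_zero (hθ : |θ| < Real.pi / 2) : (gdv (UU 0 θ)).re = 0 := by
  have h := congrArg Complex.re (gdv_refl (x := 0) hθ)
  rw [neg_zero, neg_re, conj_re] at h
  linarith

theorem line_re_nonneg (hθ : |θ| < Real.pi / 2) {x : ℝ} (hx : 0 ≤ x) :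
    0 ≤ (gdv (UU x θ)).re := by
  have := (line_strictMono hθ).monotone hx
  simp only [line_zero hθ] at this
  exact this

theorem lin_und (hθ : Ht θ) {x : ℝ} (hx : 0 ≤ x) (h : (gdv (UU x θ)).re ≤ 1 / 3) :
    Und θ (gdv (UU x θ)) := by
  have h1 := line_im_bl (x := x) hθ.abs
  have h2 := line_re_nonneg hθ.abs hx
  refine ⟨h2, h, ?_, h1.le⟩
  rw [h1]
  exact bl_nonneg hθ.pos.le hθ.lt (by rw [abs_of_nonneg h2]; linarith)

theorem cos_35_ge : 8252 / 10000 ≤ Real.cos (3 / 5) := by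
  have h1 : 1 - (3 / 40 : ℝ) ^ 2 / 2 ≤ Real.cos (3 / 40) := Real.one_sub_sq_div_two_le_cos
  have h2 : Real.cos (3 / 20) = 2 * Real.cos (3 / 40) ^ 2 - 1 := by
    rw [← Real.cos_two_mul]; norm_num
  have h3 : Real.cos (3 / 10) = 2 * Real.cos (3 / 20) ^ 2 - 1 := by
    rw [← Real.cos_two_mul]; norm_num
  have h4 : Real.cos (3 / 5) = 2 * Real.cos (3 / 10) ^ 2 - 1 := by
    rw [← Real.cos_two_mul]; norm_num
  have k1 : (9971875 / 10000000 : ℝ) ≤ Real.cos (3 / 40) := by norm_num at h1 ⊢; linarith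
  have k2 : (98876 / 100000 : ℝ) ≤ Real.cos (3 / 20) := by rw [h2]; nlinarith
  have k3 : (95529 / 100000 : ℝ) ≤ Real.cos (3 / 10) := by rw [h3]; nlinarith
  rw [h4]; nlinarith

theorem cos_35_le : Real.cos (3 / 5) ≤ 83 / 100 := by
  have h1 := Real.cos_bound (x := 3 / 10) (by rw [abs_of_pos] <;> norm_num)
  have h2 := (abs_le.1 h1).2
  have h4 : Real.cos (3 / 5) = 2 * Real.cos (3 / 10) ^ 2 - 1 := by
    rw [← Real.cos_two_mul]; norm_num
  rw [abs_of_pos (by norm_num : (0 : ℝ) < 3 / 10)] at h2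
  have k1 : Real.cos (3 / 10) ≤ 9555 / 10000 := by norm_num at h2 ⊢; linarith
  have k2 : 0 ≤ Real.cos (3 / 10) :=
    Real.cos_nonneg_of_mem_Icc ⟨by linarith [Real.pi_gt_three], by linarith [Real.pi_gt_three]⟩
  rw [h4]; nlinarith

theorem kappa {R : ℝ} (h0 : 0 ≤ R) (h : R ≤ 3 / 5) :
    (43 / 50 + R) * Real.sin R ≤ Real.cos R := by
  have hpi := Real.pi_gt_three
  have h1 : Real.sin R ≤ Real.sin (3 / 5) :=
    Real.sin_le_sin_of_le_of_le_pi_div_two (by linarith) (by linarith) h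
  have h2 : Real.cos (3 / 5) ≤ Real.cos R :=
    Real.cos_le_cos_of_nonneg_of_le_pi h0 (by linarith) h
  have h3 : 0 ≤ Real.sin R := Real.sin_nonneg_of_nonneg_of_le_pi h0 (by linarith)
  have h4 := cos_35_ge
  have h5 := Real.sin_sq_add_cos_sq (3 / 5)
  have h6 : Real.sin (3 / 5) ≤ 565 / 1000 := by nlinarith
  nlinarith

/-- `π im v - ell v` increases on `0 ≤ π re v ≤ 3/5`. -/
theorem tE_mono (hθ : Ht θ) (hb : 0 < b) {Q : ℂ}
    (hQ : Q.re = b * (Real.pi * (gdv (UU xc θ)).im))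
    (hq : Real.pi / 2 - Q.im ≤ b * (43 / 50 + Real.pi * (gdv (UU xc θ)).re)) {x y : ℝ}
    (hx : 0 ≤ x) (hxy : x ≤ y) (hy : Real.pi * (gdv (UU y θ)).re ≤ 3 / 5) :
    tE θ b xc Q x ≤ tE θ b xc Q y := by
  have hd : ∀ s, HasDerivAt (tE θ b xc Q) _ s := fun s => hasDerivAt_tE hθ.abs Q s
  have hpi := Real.pi_pos
  have key : MonotoneOn (tE θ b xc Q) (Set.Icc x y) := by
    apply monotoneOn_of_deriv_nonneg (convex_Icc x y)
    · exact fun s _ => (hd s).continuousAt.continuousWithinAt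
    · exact fun s _ => (hd s).differentiableAt.differentiableWithinAt
    · intro s hs
      rw [interior_Icc] at hs
      rw [(hd s).deriv]
      have m := (line_strictMono hθ.abs).monotone hs.2.le
      have r0 := line_re_nonneg hθ.abs (hx.trans hs.1.le)
      set R := Real.pi * (gdv (UU s θ)).re with hR
      set J := Real.pi * (gdv (UU s θ)).im with hJ
      have R0 : 0 ≤ R := mul_nonneg hpi.le r0
      have R1 : R ≤ 3 / 5 := (mul_le_mul_of_nonneg_left m hpi.le).trans hy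
      have J0 : 0 ≤ J := by
        apply mul_nonneg hpi.le
        rw [line_im_bl hθ.abs]
        apply bl_nonneg hθ.pos.le hθ.lt
        have h' : |(UU s θ).im| < Real.pi / 2 := by rw [UU_im]; exact hθ.abs
        exact (gdv_re_lt h').le
      have k1 := kappa R0 R1
      have s0 : 0 ≤ Real.sin R := Real.sin_nonneg_of_nonneg_of_le_pi R0
        (by linarith [Real.pi_gt_three])
      have sh0 : 0 ≤ Real.sinh J := Real.sinh_nonneg_iff.2 J0
      have ch0 := Real.cosh_pos J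
      have c0 : 0 ≤ Real.cos R := le_trans (mul_nonneg (by linarith) s0) k1
      -- `sinh J ≤ J cosh J`
      have k2 : Real.sinh J ≤ J * Real.cosh J := sinh_le_mul_cosh J0
      have k3 : Real.pi / 2 - Q.im + b * (R - Real.pi * (gdv (UU xc θ)).re) ≤
          b * (43 / 50 + R) := by linarith
      have k4 : (Real.pi / 2 - Q.im + b * (R - Real.pi * (gdv (UU xc θ)).re)) *
          (Real.sin R * Real.sinh J) ≤ b * (J * Real.cosh J * Real.cos R) := by
        have t0 : 0 ≤ Real.sin R * Real.sinh J := mul_nonneg s0 sh0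
        have t1 := mul_le_mul_of_nonneg_right k3 t0
        have t2 := mul_le_mul_of_nonneg_right k1 sh0
        have t3 := mul_le_mul_of_nonneg_left k2 c0
        have t4 : (43 / 50 + R) * (Real.sin R * Real.sinh J) ≤ J * Real.cosh J * Real.cos R := by
          nlinarith
        have t5 := mul_le_mul_of_nonneg_left t4 hb.le
        linarith
      have e : ((2 * Q.re / Real.pi + 2 * b * ((gdv (UU s θ)).im - (gdv (UU xc θ)).im)) *
        (Real.cos R * Real.cosh J) +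
       (-1 + 2 * Q.im / Real.pi - 2 * b * ((gdv (UU s θ)).re - (gdv (UU xc θ)).re)) *
        (Real.sin R * Real.sinh J)) = 2 / Real.pi * (b * (J * Real.cosh J * Real.cos R) -
        (Real.pi / 2 - Q.im + b * (R - Real.pi * (gdv (UU xc θ)).re)) *
          (Real.sin R * Real.sinh J)) := by
        rw [hQ, hJ, hR]
        field_simp
        ring
      rw [e]
      apply mul_nonneg (by positivity)
      linarith
  exact key ⟨le_rfl, hxy⟩ ⟨hxy, le_rfl⟩ hxy

/-- The point of the line with `π re v = 3/5`. -/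
theorem exists_xb (hθ : Ht θ) : ∃ xb : ℝ, 0 ≤ xb ∧ Real.pi * (gdv (UU xb θ)).re = 3 / 5 := by
  have hpi := Real.pi_gt_three
  set a : ℝ := 3 / 5 / Real.pi with ha
  have a0 : 0 ≤ a := by positivity
  have a1 : a < 1 / 2 := by
    rw [ha, div_lt_iff₀ (by linarith)]; linarith
  set p : ℂ := (a : ℂ) + ((bl θ a : ℝ) : ℂ) * I with hp
  have pr : p.re = a := by simp [hp]
  have pim : p.im = bl θ a := by simp [hp]
  have habs : |p.re| < 1 / 2 := by rw [pr, abs_of_nonneg a0]; exact a1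
  have h1 := line_exists habs hθ.abs (by rw [pim, pr])
  refine ⟨(uof p).re, uof_re_nonneg habs (by rw [pr]; exact a0), ?_⟩
  rw [← h1, pr, ha]
  field_simp

/-- The comparison point of the line. -/
theorem tE_far (hθ : Ht θ) (hb : 0 < b) {Q : ℂ}
    (hQ : Q.re = b * (Real.pi * (gdv (UU xc θ)).im))
    (hq : Real.pi / 2 - Q.im ≤ b * (43 / 50 + Real.pi * (gdv (UU xc θ)).re)) {x : ℝ}
    (hx : 0 ≤ x) (hx' : (gdv (UU x θ)).re ≤ 1 / 3) :
    ∃ X : ℝ, 0 ≤ X ∧ Und θ (gdv (UU X θ)) ∧ Real.cos (Real.pi * (gdv (UU X θ)).re) ≤ 83 / 100 ∧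
      tE θ b xc Q x ≤ tE θ b xc Q X := by
  obtain ⟨xb, h0, h1⟩ := exists_xb hθ
  have hpi := Real.pi_gt_three
  rcases le_total x xb with h | h
  · refine ⟨xb, h0, lin_und hθ h0 ?_, ?_, tE_mono hθ hb hQ hq hx h h1.le⟩
    · nlinarith
    · rw [h1]; exact cos_35_le
  · refine ⟨x, hx, lin_und hθ hx hx', ?_, le_rfl⟩
    have m := (line_strictMono hθ.abs).monotone h
    have m' := mul_le_mul_of_nonneg_left m Real.pi_pos.le
    rw [h1] at m'
    refine le_trans ?_ cos_35_le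
    apply Real.cos_le_cos_of_nonneg_of_le_pi (by norm_num) _ m'
    nlinarith

/-- **The bound exceeds the value at the ends**, for points of the lines. -/
theorem B0_line (hΦ : IsPhi Φ) (h0 : Φ 0 0 = c00) (ho : OppHyp θ θ' xc xc')
    (hs : Split θ θ' xc xc' b b') (hc : 0 < xc) (hc' : 0 < xc') (hθ : Ht θ) (hθ' : Ht θ')
    (hb : Real.pi / 2 - (qq (UU xc θ) (UU xc' (-θ'))).im ≤
      b * (43 / 50 + Real.pi * (gdv (UU xc θ)).re))
    (hb' : Real.pi / 2 - (qq (UU xc' θ') (UU xc (-θ))).im ≤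
      b' * (43 / 50 + Real.pi * (gdv (UU xc' θ')).re))
    (hv : Und θ v) (hv' : v.im = bl θ v.re) (hw : Und θ' w) (hw' : w.im = bl θ' w.re) :
    Real.pi * (v.im + w.im) < L0 Φ θ θ' b b' xc xc' v w := by
  have ev := line_exists hv.abs hθ.abs hv'
  have ew := line_exists hw.abs hθ'.abs hw'
  have hQ : (qq (UU xc θ) (UU xc' (-θ'))).re = b * (Real.pi * (gdv (UU xc θ)).im) := by
    rw [hs.hQ, gd_eq (by rw [UU_im]; exact hθ.abs), im_ofReal_mul]
  have hQ' : (qq (UU xc' θ') (UU xc (-θ))).re = b' * (Real.pi * (gdv (UU xc' θ')).im) := by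
    rw [hs.hQ', gd_eq (by rw [UU_im]; exact hθ'.abs), im_ofReal_mul]
  obtain ⟨X, x1, x2, x3, x4⟩ := tE_far hθ hs.b0 hQ hb (hv.u hθ).1 (by rw [← ev]; exact hv.re1)
  obtain ⟨X', y1, y2, y3, y4⟩ := tE_far hθ' hs.b0' hQ' hb' (hw.u hθ').1
    (by rw [← ew]; exact hw.re1)
  have g := x2.FP_lt hΦ h0 hθ hθ' y2 x3 y3
  have l := L0_line (Φ := Φ) (b := b) (b' := b') ho X X'
  have d := Dfun_main hΦ ho hs hc hc' X X'
  simp only [tE, ← ev] at x4
  simp only [tE, ← ew] at y4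
  rw [L0] at l ⊢
  linarith

end

end Pool.Agent.S3
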