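import Pool.Agent.S3.Es17
import Pool.Agent.S3.Es19

/-!
# Open-open edges: the middle interval with a graded excess, general test points
-/

set_option autoImplicit false

namespace Pool.Agent.S3.TT

open Complex MeasureTheory
open Pool.Agent.H25.RK (gdv gdv_re_lt gdv_hasDerivAt)

section

variable {Φ : ℂ → ℂ → ℂ} {θ θ' xc xc' b b' v1 v1' μ μ' T T' c : ℝ} {v w : ℂ}

theorem upper_leg' (hΦ : IsPhi Φ) (h : Pt T c) {xa xb x' : ℝ} (A M r g CHa CHb CH' SU L : ℝ)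
    (hl : xb * x' < c * c) (hc1 : c ^ 2 ≤ 1 / 2) (hx' : 0 ≤ x') (hxa : 0 ≤ xa) (hab : xa ≤ xb)
    (hCHa0 : 0 < CHa) (hCHa : CHa ^ 2 ≤ 1 + xa ^ 2) (hCHb0 : 0 ≤ CHb) (hCHb : 1 + xb ^ 2 ≤ CHb ^ 2)
    (hCH0 : 0 ≤ CH') (hCH : 1 + x' ^ 2 ≤ CH' ^ 2) (hSU0 : 0 ≤ SU) (hSU : 1 - c ^ 2 ≤ SU ^ 2)
    (u1 : xb * CHb * x' ≤ c ^ 2) (u0 : xa * CHa * x' ≤ c ^ 2 * CH')
    (u2 : SU * (c ^ 2 * CH' - xa * CHa * x') ≤ r * (c ^ 2 + xa ^ 2))
    (u3 : 1 - (1 - c ^ 2 + xb ^ 2) / (c ^ 2 + xb ^ 2) * (c ^ 2 + x' ^ 2) ≤ g)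
    (u4 : g ≤ M ^ 2) (u5 : r ^ 2 ≤ M ^ 2 * (M ^ 2 - g)) (hM0 : 0 ≤ M) (hA0 : 0 ≤ A)
    (hA : A ≤ 3 / 2) (u6 : M ≤ A - A ^ 3 / 6)
    (hL : 6367 / 10000 * (A * ((xb - xa) / CHa)) ≤ L) :
    gT Φ T T x' xa - L ≤ gT Φ T T x' xb := by
  have k := upper_leg hΦ.swap h A M r g CHa CHb CH' SU L hl hc1 hx' hxa hab hCHa0 hCHa hCHb0
    hCHb hCH0 hCH hSU0 hSU u1 u0 u2 u3 u4 u5 hM0 hA0 hA u6 hL
  have l : xa * x' ≤ xb * x' := mul_le_mul_of_nonneg_right hab hx'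
  rw [gT_swap hΦ h h hx' (hxa.trans hab) (by rw [mul_comm x']; exact hl),
    gT_swap hΦ h h hx' hxa (by rw [mul_comm x']; linarith)] at k
  exact k

private theorem mid_normsq (c : ℝ) (v : ℂ) :
    ‖(c : ℂ) - cos (Real.pi * v) ^ 2‖ ^ 2 = c ^ 2 +
      ((Real.cos (Real.pi * v.re) ^ 2 + Real.sinh (Real.pi * v.im) ^ 2) ^ 2 -
      2 * c * (Real.cos (Real.pi * v.re) ^ 2 + 2 * Real.cos (Real.pi * v.re) ^ 2 *
        Real.sinh (Real.pi * v.im) ^ 2 - Real.sinh (Real.pi * v.im) ^ 2)) := by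
  set R := Real.pi * v.re with hR
  set J := Real.pi * v.im with hJ
  have h1 := Real.cosh_sq J
  have h2 := Real.sin_sq_add_cos_sq R
  rw [← normSq_eq_norm_sq, normSq_apply, sub_re, sub_im, ofReal_re, ofReal_im, sq (cos _), mul_re,
    mul_im, wcos_re, wcos_im, pi_mul_re, pi_mul_im, ← hR, ← hJ]
  have e : (c - (Real.cos R * Real.cosh J * (Real.cos R * Real.cosh J) -
      -(Real.sin R * Real.sinh J) * -(Real.sin R * Real.sinh J))) *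
      (c - (Real.cos R * Real.cosh J * (Real.cos R * Real.cosh J) -
      -(Real.sin R * Real.sinh J) * -(Real.sin R * Real.sinh J))) +
      (0 - (Real.cos R * Real.cosh J * -(Real.sin R * Real.sinh J) +
      -(Real.sin R * Real.sinh J) * (Real.cos R * Real.cosh J))) *
      (0 - (Real.cos R * Real.cosh J * -(Real.sin R * Real.sinh J) +
      -(Real.sin R * Real.sinh J) * (Real.cos R * Real.cosh J))) =
      c ^ 2 - 2 * c * (Real.cos R ^ 2 * Real.cosh J ^ 2 - Real.sin R ^ 2 * Real.sinh J ^ 2) +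
      (Real.cos R ^ 2 * Real.cosh J ^ 2 + Real.sin R ^ 2 * Real.sinh J ^ 2) ^ 2 := by ring
  have hs : Real.sin R ^ 2 = 1 - Real.cos R ^ 2 := by linarith
  rw [e, h1, hs]
  ring

/-- The middle interval, from a lower bound `-K s²` for the growth rate. -/
private theorem se_mid_gen {K : ℝ} (h : ∀ c : ℝ, 9 / 10 ≤ c → c ≤ 1 →
      ‖(c : ℂ) - cos (Real.pi * v) ^ 2‖ ^ 2 ≤ c ^ 2 * Real.exp (K * (1 - c)))
    (hK : 0 ≤ K) {y : ℝ} (hy : y ∈ Set.Icc (-(1 / 10) : ℝ) 0) :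
    se y (.op v) ≤ Real.pi * |v.im| + K * Real.pi ^ 2 / 6000 := by
  obtain ⟨t, ht⟩ : ∃ t : ℝ, t = -y := ⟨_, rfl⟩
  have t0 : 0 ≤ t := by rw [ht]; linarith [hy.2]
  have t1 : t ≤ 1 / 10 := by rw [ht]; linarith [hy.1]
  have ey : (y : ℂ) = -(t : ℂ) := by rw [ht]; push_cast; ring
  have h1 := EE_sub_eq v v 0 0 t
  have hi : IntervalIntegrable (fun s : ℝ => K * Real.pi ^ 2 * s ^ 2) volume 0 t :=
    (by fun_prop : Continuous (fun s : ℝ => K * Real.pi ^ 2 * s ^ 2)).intervalIntegrable _ _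
  have h2 : 0 ≤ ∫ s in (0 : ℝ)..t, (flatG v v 0 s + K * Real.pi ^ 2 * s ^ 2) := by
    apply intervalIntegral.integral_nonneg_of_ae_restrict t0
    rw [Filter.EventuallyLE, ae_restrict_iff' measurableSet_Icc]
    filter_upwards [flatG_ae v v 0] with s hs hs'
    obtain ⟨g1, g2, -, g4⟩ := hs
    rw [Pi.zero_apply, g4]
    have ec : cos (Real.pi * ((s : ℂ) + ((0 : ℝ) : ℂ) * I)) ^ 2 =
        ((Real.cos (Real.pi * s) ^ 2 : ℝ) : ℂ) := by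
      have : (Real.pi : ℂ) * ((s : ℂ) + ((0 : ℝ) : ℂ) * I) = ((Real.pi * s : ℝ) : ℂ) := by
        push_cast; ring
      rw [this, ← ofReal_cos, ofReal_pow]
    rw [ec] at g2 ⊢
    have hc := cos_sq_ge hs'.1 (hs'.2.trans t1)
    have sc := Real.sin_sq_add_cos_sq (Real.pi * s)
    have hc1 : Real.cos (Real.pi * s) ^ 2 ≤ 1 := by nlinarith [sq_nonneg (Real.sin (Real.pi * s))]
    have hn := h _ hc hc1
    have n2 := norm_pos_iff.mpr g2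
    have cp : 0 < Real.cos (Real.pi * s) ^ 2 := by linarith
    have s0 : 0 ≤ Real.pi * s := mul_nonneg Real.pi_pos.le hs'.1
    have s1 : 1 - Real.cos (Real.pi * s) ^ 2 ≤ (Real.pi * s) ^ 2 := by
      have a1 := Real.sin_le s0
      have a2 : 0 ≤ Real.sin (Real.pi * s) := Real.sin_nonneg_of_nonneg_of_le_pi s0 (by
        nlinarith [Real.pi_pos, hs'.2])
      have := pow_le_pow_left₀ a2 a1 2
      linarith
    have lg : Real.log (‖((Real.cos (Real.pi * s) ^ 2 : ℝ) : ℂ) - cos (Real.pi * v) ^ 2‖ *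
        ‖((Real.cos (Real.pi * s) ^ 2 : ℝ) : ℂ) - cos (Real.pi * v) ^ 2‖) ≤
        Real.log ((Real.cos (Real.pi * s) ^ 2) ^ 2) + K * (1 - Real.cos (Real.pi * s) ^ 2) := by
      rw [← Real.log_exp (K * (1 - Real.cos (Real.pi * s) ^ 2)), ← Real.log_mul (by positivity)
        (Real.exp_pos _).ne']
      apply Real.log_le_log (by positivity)
      rw [← sq]
      exact hn
    rw [Complex.norm_real, Real.norm_of_nonneg cp.le]
    have : K * (1 - Real.cos (Real.pi * s) ^ 2) ≤ K * Real.pi ^ 2 * s ^ 2 := by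
      have := mul_le_mul_of_nonneg_left s1 hK
      calc _ ≤ K * (Real.pi * s) ^ 2 := this
        _ = _ := by ring
    linarith
  rw [intervalIntegral.integral_add (flatG_int v v 0 0 t) hi, ← h1] at h2
  have e3 : ∫ s in (0 : ℝ)..t, K * Real.pi ^ 2 * s ^ 2 = K * Real.pi ^ 2 * (t ^ 3 / 3) := by
    rw [intervalIntegral.integral_const_mul, integral_pow]
    norm_num
  rw [e3] at h2
  have e0 : (((0 : ℝ) : ℂ) + ((0 : ℝ) : ℂ) * I) = 0 := by simp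
  have et : ((t : ℂ) + ((0 : ℝ) : ℂ) * I) = (t : ℂ) := by simp
  rw [e0, et, EE, EE, se_zero_op] at h2
  have h3 : se y (.op v) + se t (.op v) = 2 * (Real.pi * |v.im|) := by
    have a1 : Rf (-(t : ℂ) + 1 / 2) = -Rf ((t : ℂ) + 1 / 2) := by
      have := Rf_one_sub ((t : ℂ) + 1 / 2)
      have e : (1 : ℂ) - ((t : ℂ) + 1 / 2) = -(t : ℂ) + 1 / 2 := by ring
      rwa [e] at this
    have a2 : Rf (-(t : ℂ) - v) = -Rf ((t : ℂ) + v) - Real.pi * |v.im| := by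
      have := Rf_neg ((t : ℂ) + v)
      have e : -((t : ℂ) + v) = -(t : ℂ) - v := by ring
      rwa [e, add_im, ofReal_im, zero_add] at this
    have a3 : Rf (-(t : ℂ) + v) = -Rf ((t : ℂ) - v) - Real.pi * |v.im| := by
      have := Rf_neg ((t : ℂ) - v)
      have e : -((t : ℂ) - v) = -(t : ℂ) + v := by ring
      rwa [e, sub_im, ofReal_im, zero_sub, abs_neg] at this
    rw [ey]
    simp only [se]
    rw [a1, a2, a3]
    ring
  have t3 : t ^ 3 ≤ 1 / 1000 := by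
    have := pow_le_pow_left₀ t0 t1 3
    norm_num at this
    linarith
  have h4 : K * Real.pi ^ 2 * (t ^ 3 / 3) ≤ K * Real.pi ^ 2 * (1 / 3000) :=
    mul_le_mul_of_nonneg_left (by linarith) (by positivity)
  linarith

/-- Moving the second point to the left. -/
theorem hor_gain' (hΦ : IsPhi Φ) {T1 T2 c1 c2 x x' : ℝ} (h1 : Pt T1 c1) (h2 : Pt T2 c2)
    (h : Pt T c) (h12 : c2 ≤ c1) (S CH CH' SU' SU m m' g r G : ℝ) (hx' : 0 ≤ x') (hx : 0 ≤ x)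
    (hl : x' * x < c2 * c) (hCH0 : 0 ≤ CH) (hCH : 1 + x' ^ 2 ≤ CH ^ 2) (hCH0' : 0 ≤ CH')
    (hCH' : CH' ^ 2 ≤ 1 + x ^ 2) (hSU0' : 0 ≤ SU') (hSU' : 1 - c ^ 2 ≤ SU' ^ 2)
    (hSU0 : 0 < SU) (hSU : 1 - c2 ^ 2 ≤ SU ^ 2) (hS0 : 0 ≤ S)
    (hS1 : S ^ 2 ≤ c1 ^ 2 * (1 - c1 ^ 2)) (hS2 : S ^ 2 ≤ c2 ^ 2 * (1 - c2 ^ 2))
    (u0 : 0 ≤ r) (u1 : r * (c1 ^ 2 + x' ^ 2) ≤ S * (c * CH') - x' * CH * (SU' * x))
    (u2 : 1 - (1 - c1 ^ 2 + x' ^ 2) / (c1 ^ 2 + x' ^ 2) * (c ^ 2 + x ^ 2) ≤ g)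
    (hm : 0 ≤ m) (hm1 : m ≤ 1) (u3 : m ^ 2 * (m ^ 2 + g) ≤ r ^ 2) (hm' : 0 ≤ m')
    (u4 : m' ≤ m - m ^ 3 / 6) (hG : G ≤ 6366 / 10000 * (m' * ((c1 - c2) / SU))) :
    gT Φ T T2 x x' + G ≤ gT Φ T T1 x x' := by
  have k := hor_gain hΦ.swap h1 h2 h h12 S CH CH' SU' SU m m' g r G hx' hx hl hCH0 hCH hCH0'
    hCH' hSU0' hSU' hSU0 hSU hS0 hS1 hS2 u0 u1 u2 hm hm1 u3 hm' u4 hG
  have l2 : x * x' < c * c2 := by rw [mul_comm, mul_comm c]; exact hl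
  have l1 : x * x' < c * c1 := lt_of_lt_of_le l2 (mul_le_mul_of_nonneg_left h12 h.c0.le)
  rw [gT_swap hΦ h h2 hx hx' l2, gT_swap hΦ h h1 hx hx' l1] at k
  exact k

/-- From a corner to all smaller slopes. -/
theorem gT_of (hΦ : IsPhi Φ) {c' V x x' τ τ' t k : ℝ} (h : Pt T c) (h' : Pt T' c')
    (hV : V ≤ gT Φ T T' x x') (hx : 0 ≤ x) (hx' : 0 ≤ x') (hl : x * x' < c * c')
    (e : t * c ^ 2 ≤ x ^ 2) (e' : k * c' ^ 2 ≤ x' ^ 2) (hτ : 0 ≤ τ) (hτ' : 0 ≤ τ')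
    (ht : τ ^ 2 ≤ t) (hk : τ' ^ 2 ≤ k) : V ≤ gT Φ T T' (τ * c) (τ' * c') := by
  have c0 := h.c0
  have c0' := h'.c0
  have a1 : τ * c ≤ x := by
    apply le_of_sq_le_sq _ hx
    rw [mul_pow]
    exact (mul_le_mul_of_nonneg_right ht (sq_nonneg c)).trans e
  have a2 : τ' * c' ≤ x' := by
    apply le_of_sq_le_sq _ hx'
    rw [mul_pow]
    exact (mul_le_mul_of_nonneg_right hk (sq_nonneg c')).trans e'
  exact hV.trans (gT_anti hΦ h h' (mul_nonneg hτ c0.le) a1 (mul_nonneg hτ' c0'.le) a2 hl)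

/-- The growth rate for `sinh² (π im v) ≤ t0 cos² (π re v)`. -/
private theorem mid_algT {c k s t0 K : ℝ} (hc : 9 / 10 ≤ c) (hc1 : c ≤ 1) (hk : 0 ≤ k)
    (hk1 : k ≤ 1) (hs : 0 ≤ s) (ht1 : t0 ≤ 1) (hs1 : s ≤ t0 * k)
    (hK0 : 0 ≤ K) (hK : (1 + t0) * (1 + t0 - 2 * c) ≤ K * (1 - c) * c ^ 2) :
    (k + s) ^ 2 - 2 * c * (k + 2 * k * s - s) ≤ K * (1 - c) * c ^ 2 := by
  have h1 : (k + s) ^ 2 - 2 * c * (k + 2 * k * s - s) ≤
      (k + t0 * k) ^ 2 - 2 * c * (k + 2 * k * (t0 * k) - t0 * k) := by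
    have e : (k + t0 * k) ^ 2 - 2 * c * (k + 2 * k * (t0 * k) - t0 * k) -
        ((k + s) ^ 2 - 2 * c * (k + 2 * k * s - s)) =
        (t0 * k - s) * (2 * k + t0 * k + s + 2 * c * (1 - 2 * k)) := by ring
    have h2 : 0 ≤ 2 * k + t0 * k + s + 2 * c * (1 - 2 * k) := by
      have a1 : 0 ≤ t0 * k := hs.trans hs1
      have a2 : 0 ≤ 2 * k * (1 - c) := by
        have := mul_nonneg hk (sub_nonneg.2 hc1)
        linarith
      have a3 : 0 ≤ 2 * c * (1 - k) := mul_nonneg (by linarith) (by linarith)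
      have e2 : 2 * k + t0 * k + s + 2 * c * (1 - 2 * k) =
        2 * k * (1 - c) + 2 * c * (1 - k) + t0 * k + s := by ring
      rw [e2]
      linarith
    have := mul_nonneg (sub_nonneg.2 hs1) h2
    linarith
  have e : (k + t0 * k) ^ 2 - 2 * c * (k + 2 * k * (t0 * k) - t0 * k) =
      k * (k * ((1 + t0) ^ 2 - 4 * c * t0) - 2 * c * (1 - t0)) := by ring
  have R0 : 0 ≤ K * (1 - c) * c ^ 2 :=
    mul_nonneg (mul_nonneg hK0 (by linarith)) (sq_nonneg _)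
  have h3 : k * ((1 + t0) ^ 2 - 4 * c * t0) - 2 * c * (1 - t0) ≤ K * (1 - c) * c ^ 2 := by
    rcases le_total 0 ((1 + t0) ^ 2 - 4 * c * t0) with hp | hp
    · have := mul_le_mul_of_nonneg_right hk1 hp
      have e3 : (1 + t0) * (1 + t0 - 2 * c) =
        1 * ((1 + t0) ^ 2 - 4 * c * t0) - 2 * c * (1 - t0) := by ring
      rw [e3] at hK
      linarith
    · have a1 : k * ((1 + t0) ^ 2 - 4 * c * t0) ≤ 0 := mul_nonpos_of_nonneg_of_nonpos hk hp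
      have a2 : 0 ≤ 2 * c * (1 - t0) := mul_nonneg (by linarith) (by linarith)
      linarith
  have h4 : k * (k * ((1 + t0) ^ 2 - 4 * c * t0) - 2 * c * (1 - t0)) ≤ K * (1 - c) * c ^ 2 := by
    calc _ ≤ k * (K * (1 - c) * c ^ 2) := mul_le_mul_of_nonneg_left h3 hk
      _ ≤ 1 * (K * (1 - c) * c ^ 2) := mul_le_mul_of_nonneg_right hk1 R0
      _ = _ := one_mul _
  linarith

/-- The middle interval, `tan² θ ≤ t0`. -/
theorem se_mid_T {t0 K ε : ℝ} (ht1 : t0 ≤ 1) (hK0 : 0 ≤ K)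
    (hK : ∀ c : ℝ, 9 / 10 ≤ c → c ≤ 1 → (1 + t0) * (1 + t0 - 2 * c) ≤ K * (1 - c) * c ^ 2)
    (hε : K * (98699 / 10000) ≤ 6000 * ε)
    (h : Real.sinh (Real.pi * v.im) ^ 2 ≤ t0 * Real.cos (Real.pi * v.re) ^ 2)
    {y : ℝ} (hy : y ∈ Set.Icc (-(1 / 10) : ℝ) 0) : se y (.op v) ≤ Real.pi * |v.im| + ε := by
  have k := se_mid_gen (v := v) (K := K) (fun c hc hc1 => by
    rw [mid_normsq]
    have h2 := Real.sin_sq_add_cos_sq (Real.pi * v.re)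
    have hk : Real.cos (Real.pi * v.re) ^ 2 ≤ 1 := by
      nlinarith [sq_nonneg (Real.sin (Real.pi * v.re))]
    have k1 := mid_algT hc hc1 (sq_nonneg (Real.cos (Real.pi * v.re))) hk
      (sq_nonneg (Real.sinh (Real.pi * v.im))) ht1 h hK0 (hK c hc hc1)
    have k2 := Real.add_one_le_exp (K * (1 - c))
    have k3 : c ^ 2 * (K * (1 - c) + 1) ≤ c ^ 2 * Real.exp (K * (1 - c)) :=
      mul_le_mul_of_nonneg_left k2 (sq_nonneg _)
    linarith) hK0 hy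
  have hp : Real.pi ^ 2 ≤ 98699 / 10000 := by
    have h1 := Real.pi_lt_d6
    have h2 := Real.pi_pos
    nlinarith
  have := mul_le_mul_of_nonneg_left hp hK0
  linarith

/-- The excess of a vertex, graded. -/
noncomputable def ex4 (t : ℝ) : ℝ :=
  if t ≤ 4 / 5 then 0 else if t ≤ 17 / 20 then 19 / 10000 else
    if t ≤ 47 / 50 then 56 / 10000 else 82 / 10000

theorem ex4_nonneg (t : ℝ) : 0 ≤ ex4 t := by
  unfold ex4
  split_ifs <;> norm_num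

theorem ex4_le {t : ℝ} : ex4 t ≤ 82 / 10000 ∧ (t ≤ 47 / 50 → ex4 t ≤ 56 / 10000) ∧
    (t ≤ 17 / 20 → ex4 t ≤ 19 / 10000) ∧ (t ≤ 4 / 5 → ex4 t ≤ 0) := by
  unfold ex4
  refine ⟨?_, fun h => ?_, fun h => ?_, fun h => ?_⟩
  · split_ifs <;> norm_num
  · split_ifs <;> norm_num
  · split_ifs <;> norm_num
  · rw [if_pos h]

theorem ex4_se {t : ℝ} (ht : t ≤ 1)
    (h : Real.sinh (Real.pi * v.im) ^ 2 ≤ t * Real.cos (Real.pi * v.re) ^ 2)
    {y : ℝ} (hy : y ∈ Set.Icc (-(1 / 10) : ℝ) 0) : se y (.op v) ≤ Real.pi * |v.im| + ex4 t := by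
  have c0 := sq_nonneg (Real.cos (Real.pi * v.re))
  unfold ex4
  split_ifs with h1 h2 h3
  · have := se_mid8 (v := v) (h.trans (mul_le_mul_of_nonneg_right h1 c0)) hy
    linarith
  · refine se_mid_T (t0 := 17 / 20) (K := 115 / 100) (by norm_num) (by norm_num) ?_ (by norm_num)
      (h.trans (mul_le_mul_of_nonneg_right h2 c0)) hy
    intro c hc hc1
    nlinarith [mul_nonneg (sub_nonneg.2 hc) (sub_nonneg.2 hc1),
      mul_nonneg (mul_nonneg (sub_nonneg.2 hc) (sub_nonneg.2 hc1)) (sub_nonneg.2 hc)]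
  · refine se_mid_T (t0 := 47 / 50) (K := 34 / 10) (by norm_num) (by norm_num) ?_ (by norm_num)
      (h.trans (mul_le_mul_of_nonneg_right h3 c0)) hy
    intro c hc hc1
    nlinarith [mul_nonneg (sub_nonneg.2 hc) (sub_nonneg.2 hc1),
      mul_nonneg (mul_nonneg (sub_nonneg.2 hc) (sub_nonneg.2 hc1)) (sub_nonneg.2 hc)]
  · have := se_mid1 (v := v) (h.trans (by nlinarith)) hy
    linarith

/-- **The estimates at the ends and on the middle interval**, from the value at a test point,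
with the graded excess. -/
theorem endAll_ex (hΦ : IsPhi Φ) (ho : OppHyp θ θ' xc xc')
    (hs : Split θ θ' xc xc' b b') (hc : 0 < xc) (hc' : 0 < xc')
    (hT : 0 < T) (hT1 : T < Real.pi / 2) (hT' : 0 < T') (hT1' : T' < Real.pi / 2) {g : ℝ}
    (hg : g ≤ FP Φ (UU T (hJ (Real.tan θ) T)) (UU T' (-(hJ (Real.tan θ') T'))) -
      hJ (Real.tan θ) T - hJ (Real.tan θ') T')
    (hl : lossJ (Real.tan θ) b (Pe θ θ' xc xc' b) T + lossJ (Real.tan θ') b' (Pe θ' θ xc' xc b') T' +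
      (ex4 (Real.tan θ ^ 2) + ex4 (Real.tan θ' ^ 2)) < g)
    (ht : Real.tan θ ^ 2 ≤ 1) (ht' : Real.tan θ' ^ 2 ≤ 1) (p0 : 0 < v1) (p1 : v1 < 1 / 2)
    (p0' : 0 < v1') (p1' : v1' < 1 / 2) (hμ : μ ≤ Real.pi) (hμ' : μ' ≤ Real.pi) :
    EndAll Φ θ θ' xc xc' b b' v1 v1' μ μ' := by
  intro v w hv v0 hw w0
  obtain ⟨a1, a2, a3, a4, a5⟩ := pl_line14 ho.θ0 (θ_lt ho) p0 p1 hv v0
  obtain ⟨b1, b2, b3, b4, b5⟩ := pl_line14 ho.θ0' (θ_lt ho.symm) p0' p1' hw w0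
  have k := B0_sep_add (δ := ex4 (Real.tan θ ^ 2) + ex4 (Real.tan θ' ^ 2)) hΦ ho hs hc hc' hT hT1
    hT' hT1' hg (by unfold Pe at hl; linarith) a1 a2 a3 b1 b2 b3
  have key : Real.pi * (v.im + w.im) + (ex4 (Real.tan θ ^ 2) + ex4 (Real.tan θ' ^ 2)) <
      LM Φ θ θ' b b' xc xc' v1 v1' μ μ' v w := by
    rw [LM]
    have m1 := mul_le_mul_of_nonneg_right hμ (sub_nonneg.2 a4)
    have m2 := mul_le_mul_of_nonneg_right hμ' (sub_nonneg.2 b4)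
    linarith
  have e0 := ex4_nonneg (Real.tan θ ^ 2)
  have e0' := ex4_nonneg (Real.tan θ' ^ 2)
  refine ⟨by linarith, fun y hy => lt_of_le_of_lt ?_ key⟩
  have s1 := ex4_se ht (G0_sinh' hv) hy
  have s2 := ex4_se ht' (G0_sinh' hw) hy
  rw [abs_of_nonneg a5] at s1
  rw [abs_of_nonneg b5] at s2
  rw [EE]
  linarith

/-- The value at the test points. -/
theorem gT_eq (h : Pt T c) {c' : ℝ} (h' : Pt T' c') : gT Φ T T' (Real.tan θ * c) (Real.tan θ' * c') =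
    FP Φ (UU T (hJ (Real.tan θ) T)) (UU T' (-(hJ (Real.tan θ') T'))) -
      hJ (Real.tan θ) T - hJ (Real.tan θ') T' := by
  rw [gT, hJ, hJ, h.cos, h'.cos]

end

end Pool.Agent.S3.TT
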