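import Pool.Agent.S3.Es20

/-!
# Open-open edges next to an inner vertex of multiplicity two: corners for two test points (Es21)
-/

set_option autoImplicit false

namespace Pool.Agent.S3.TT

section

variable {Φ : ℂ → ℂ → ℂ}

/-- The corner pp, (.5, .5). -/
theorem gpp1 (hΦ : IsPhi Φ) (h0 : Φ 0 0 = c00) : 493 / 5000 ≤
    gT Φ (Real.arccos (18 / 25)) (Real.arccos (18 / 25)) (1273 / 2500) (1273 / 2500) := by
  have p : Pt (Real.arccos (18 / 25)) (18 / 25) := Pt_arccos (by norm_num) (by norm_num)
  have k0 : 0 ≤ gT Φ (Real.arccos (18 / 25)) (Real.arccos (18 / 25)) (71 / 100) (71 / 100) :=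
    gT_nonneg hΦ h0 p (by norm_num) (by norm_num)
  have k1 := leg_c hΦ p (xa := (61 / 100)) (xb := (71 / 100)) (x' := (71 / 100))
    (43 / 100) (127 / 1000) (191 / 100) (1 / 200) (1227 / 1000) (577 / 50000)
    (by norm_num) (by norm_num) (by norm_num) (by norm_num) (by norm_num) (by norm_num)
    (by norm_num) (by norm_num) (by norm_num) (by norm_num) (by norm_num) (by norm_num)
    (by norm_num) (by rw [Dtc]; norm_num) (by rw [Dtc]; norm_num) (by rw [Dtc]; norm_num)
    (by norm_num)
  have k2 := leg_c hΦ p (xa := (1273 / 2500)) (xb := (61 / 100)) (x' := (71 / 100))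
    (31 / 100) (159 / 500) (7 / 5) (4 / 125) (293 / 250) (2127 / 100000)
    (by norm_num) (by norm_num) (by norm_num) (by norm_num) (by norm_num) (by norm_num)
    (by norm_num) (by norm_num) (by norm_num) (by norm_num) (by norm_num) (by norm_num)
    (by norm_num) (by rw [Dtc]; norm_num) (by rw [Dtc]; norm_num) (by rw [Dtc]; norm_num)
    (by norm_num)
  have k3 := leg_c' hΦ p (xa := (643 / 1000)) (xb := (71 / 100)) (x' := (1273 / 2500))
    (9 / 20) (273 / 500) (59 / 100) (91 / 1000) (1227 / 1000) (983 / 50000)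
    (by norm_num) (by norm_num) (by norm_num) (by norm_num) (by norm_num) (by norm_num)
    (by norm_num) (by norm_num) (by norm_num) (by norm_num) (by norm_num) (by norm_num)
    (by norm_num) (by rw [Dtc]; norm_num) (by rw [Dtc]; norm_num) (by rw [Dtc]; norm_num)
    (by norm_num)
  have k4 := leg_c' hΦ p (xa := (72 / 125)) (xb := (643 / 1000)) (x' := (1273 / 2500))
    (37 / 100) (589 / 1000) (16 / 25) (13 / 125) (1189 / 1000) (2189 / 100000)
    (by norm_num) (by norm_num) (by norm_num) (by norm_num) (by norm_num) (by norm_num)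
    (by norm_num) (by norm_num) (by norm_num) (by norm_num) (by norm_num) (by norm_num)
    (by norm_num) (by rw [Dtc]; norm_num) (by rw [Dtc]; norm_num) (by rw [Dtc]; norm_num)
    (by norm_num)
  have k5 := leg_c' hΦ p (xa := (1273 / 2500)) (xb := (72 / 125)) (x' := (1273 / 2500))
    (29 / 100) (159 / 250) (71 / 100) (3 / 25) (231 / 200) (607 / 25000)
    (by norm_num) (by norm_num) (by norm_num) (by norm_num) (by norm_num) (by norm_num)
    (by norm_num) (by norm_num) (by norm_num) (by norm_num) (by norm_num) (by norm_num)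
    (by norm_num) (by rw [Dtc]; norm_num) (by rw [Dtc]; norm_num) (by rw [Dtc]; norm_num)
    (by norm_num)
  linarith

/-- The corner pp, (.65, .635). -/
theorem gpp2 (hΦ : IsPhi Φ) (h0 : Φ 0 0 = c00) : 539 / 10000 ≤
    gT Φ (Real.arccos (18 / 25)) (Real.arccos (18 / 25)) (1161 / 2000) (2869 / 5000) := by
  have p : Pt (Real.arccos (18 / 25)) (18 / 25) := Pt_arccos (by norm_num) (by norm_num)
  have k0 : 0 ≤ gT Φ (Real.arccos (18 / 25)) (Real.arccos (18 / 25)) (71 / 100) (71 / 100) :=
    gT_nonneg hΦ h0 p (by norm_num) (by norm_num)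
  have k1 := leg_c hΦ p (xa := (129 / 200)) (xb := (71 / 100)) (x' := (71 / 100))
    (23 / 50) (139 / 1000) (49 / 25) (3 / 500) (1227 / 1000) (683 / 100000)
    (by norm_num) (by norm_num) (by norm_num) (by norm_num) (by norm_num) (by norm_num)
    (by norm_num) (by norm_num) (by norm_num) (by norm_num) (by norm_num) (by norm_num)
    (by norm_num) (by rw [Dtc]; norm_num) (by rw [Dtc]; norm_num) (by rw [Dtc]; norm_num)
    (by norm_num)
  have k2 := leg_c hΦ p (xa := (1161 / 2000)) (xb := (129 / 200)) (x' := (71 / 100))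
    (37 / 100) (267 / 1000) (153 / 100) (23 / 1000) (119 / 100) (1091 / 100000)
    (by norm_num) (by norm_num) (by norm_num) (by norm_num) (by norm_num) (by norm_num)
    (by norm_num) (by norm_num) (by norm_num) (by norm_num) (by norm_num) (by norm_num)
    (by norm_num) (by rw [Dtc]; norm_num) (by rw [Dtc]; norm_num) (by rw [Dtc]; norm_num)
    (by norm_num)
  have k3 := leg_c' hΦ p (xa := (133 / 200)) (xb := (71 / 100)) (x' := (1161 / 2000))
    (47 / 100) (56 / 125) (73 / 100) (63 / 1000) (1227 / 1000) (271 / 25000)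
    (by norm_num) (by norm_num) (by norm_num) (by norm_num) (by norm_num) (by norm_num)
    (by norm_num) (by norm_num) (by norm_num) (by norm_num) (by norm_num) (by norm_num)
    (by norm_num) (by rw [Dtc]; norm_num) (by rw [Dtc]; norm_num) (by rw [Dtc]; norm_num)
    (by norm_num)
  have k4 := leg_c' hΦ p (xa := (619 / 1000)) (xb := (133 / 200)) (x' := (1161 / 2000))
    (41 / 100) (483 / 1000) (39 / 50) (9 / 125) (1201 / 1000) (1221 / 100000)
    (by norm_num) (by norm_num) (by norm_num) (by norm_num) (by norm_num) (by norm_num)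
    (by norm_num) (by norm_num) (by norm_num) (by norm_num) (by norm_num) (by norm_num)
    (by norm_num) (by rw [Dtc]; norm_num) (by rw [Dtc]; norm_num) (by rw [Dtc]; norm_num)
    (by norm_num)
  have k5 := leg_c' hΦ p (xa := (2869 / 5000)) (xb := (619 / 1000)) (x' := (1161 / 2000))
    (7 / 20) (521 / 1000) (21 / 25) (83 / 1000) (1177 / 1000) (33 / 2500)
    (by norm_num) (by norm_num) (by norm_num) (by norm_num) (by norm_num) (by norm_num)
    (by norm_num) (by norm_num) (by norm_num) (by norm_num) (by norm_num) (by norm_num)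
    (by norm_num) (by rw [Dtc]; norm_num) (by rw [Dtc]; norm_num) (by rw [Dtc]; norm_num)
    (by norm_num)
  linarith

/-- The corner pp, (.715, .55). -/
theorem gpp3 (hΦ : IsPhi Φ) (h0 : Φ 0 0 = c00) : 577 / 10000 ≤
    gT Φ (Real.arccos (18 / 25)) (Real.arccos (18 / 25)) (6089 / 10000) (267 / 500) := by
  have p : Pt (Real.arccos (18 / 25)) (18 / 25) := Pt_arccos (by norm_num) (by norm_num)
  have k0 : 0 ≤ gT Φ (Real.arccos (18 / 25)) (Real.arccos (18 / 25)) (71 / 100) (71 / 100) :=
    gT_nonneg hΦ h0 p (by norm_num) (by norm_num)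
  have k1 := leg_c hΦ p (xa := (659 / 1000)) (xb := (71 / 100)) (x' := (71 / 100))
    (23 / 50) (139 / 1000) (209 / 100) (3 / 500) (1227 / 1000) (127 / 25000)
    (by norm_num) (by norm_num) (by norm_num) (by norm_num) (by norm_num) (by norm_num)
    (by norm_num) (by norm_num) (by norm_num) (by norm_num) (by norm_num) (by norm_num)
    (by norm_num) (by rw [Dtc]; norm_num) (by rw [Dtc]; norm_num) (by rw [Dtc]; norm_num)
    (by norm_num)
  have k2 := leg_c hΦ p (xa := (6089 / 10000)) (xb := (659 / 1000)) (x' := (71 / 100))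
    (2 / 5) (123 / 500) (157 / 100) (19 / 1000) (599 / 500) (759 / 100000)
    (by norm_num) (by norm_num) (by norm_num) (by norm_num) (by norm_num) (by norm_num)
    (by norm_num) (by norm_num) (by norm_num) (by norm_num) (by norm_num) (by norm_num)
    (by norm_num) (by rw [Dtc]; norm_num) (by rw [Dtc]; norm_num) (by rw [Dtc]; norm_num)
    (by norm_num)
  have k3 := leg_c' hΦ p (xa := (651 / 1000)) (xb := (71 / 100)) (x' := (6089 / 10000))
    (23 / 50) (2 / 5) (43 / 50) (1 / 20) (1227 / 1000) (651 / 50000)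
    (by norm_num) (by norm_num) (by norm_num) (by norm_num) (by norm_num) (by norm_num)
    (by norm_num) (by norm_num) (by norm_num) (by norm_num) (by norm_num) (by norm_num)
    (by norm_num) (by rw [Dtc]; norm_num) (by rw [Dtc]; norm_num) (by rw [Dtc]; norm_num)
    (by norm_num)
  have k4 := leg_c' hΦ p (xa := (593 / 1000)) (xb := (651 / 1000)) (x' := (6089 / 10000))
    (19 / 50) (453 / 1000) (89 / 100) (8 / 125) (597 / 500) (37 / 2500)
    (by norm_num) (by norm_num) (by norm_num) (by norm_num) (by norm_num) (by norm_num)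
    (by norm_num) (by norm_num) (by norm_num) (by norm_num) (by norm_num) (by norm_num)
    (by norm_num) (by rw [Dtc]; norm_num) (by rw [Dtc]; norm_num) (by rw [Dtc]; norm_num)
    (by norm_num)
  have k5 := leg_c' hΦ p (xa := (267 / 500)) (xb := (593 / 1000)) (x' := (6089 / 10000))
    (31 / 100) (507 / 1000) (93 / 100) (79 / 1000) (1163 / 1000) (69 / 4000)
    (by norm_num) (by norm_num) (by norm_num) (by norm_num) (by norm_num) (by norm_num)
    (by norm_num) (by norm_num) (by norm_num) (by norm_num) (by norm_num) (by norm_num)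
    (by norm_num) (by rw [Dtc]; norm_num) (by rw [Dtc]; norm_num) (by rw [Dtc]; norm_num)
    (by norm_num)
  linarith

/-- The corner pp, (.81, .4). -/
theorem gpp4 (hΦ : IsPhi Φ) (h0 : Φ 0 0 = c00) : 703 / 10000 ≤
    gT Φ (Real.arccos (18 / 25)) (Real.arccos (18 / 25)) (81 / 125) (2277 / 5000) := by
  have p : Pt (Real.arccos (18 / 25)) (18 / 25) := Pt_arccos (by norm_num) (by norm_num)
  have k0 : 0 ≤ gT Φ (Real.arccos (18 / 25)) (Real.arccos (18 / 25)) (71 / 100) (71 / 100) :=
    gT_nonneg hΦ h0 p (by norm_num) (by norm_num)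
  have k1 := leg_c hΦ p (xa := (679 / 1000)) (xb := (71 / 100)) (x' := (71 / 100))
    (12 / 25) (143 / 1000) (219 / 100) (3 / 500) (1227 / 1000) (71 / 25000)
    (by norm_num) (by norm_num) (by norm_num) (by norm_num) (by norm_num) (by norm_num)
    (by norm_num) (by norm_num) (by norm_num) (by norm_num) (by norm_num) (by norm_num)
    (by norm_num) (by rw [Dtc]; norm_num) (by rw [Dtc]; norm_num) (by rw [Dtc]; norm_num)
    (by norm_num)
  have k2 := leg_c hΦ p (xa := (81 / 125)) (xb := (679 / 1000)) (x' := (71 / 100))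
    (11 / 25) (211 / 1000) (87 / 50) (7 / 500) (1209 / 1000) (97 / 25000)
    (by norm_num) (by norm_num) (by norm_num) (by norm_num) (by norm_num) (by norm_num)
    (by norm_num) (by norm_num) (by norm_num) (by norm_num) (by norm_num) (by norm_num)
    (by norm_num) (by rw [Dtc]; norm_num) (by rw [Dtc]; norm_num) (by rw [Dtc]; norm_num)
    (by norm_num)
  have k3 := leg_c' hΦ p (xa := (5 / 8)) (xb := (71 / 100)) (x' := (81 / 125))
    (11 / 25) (161 / 500) (107 / 100) (33 / 1000) (1227 / 1000) (81 / 5000)
    (by norm_num) (by norm_num) (by norm_num) (by norm_num) (by norm_num) (by norm_num)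
    (by norm_num) (by norm_num) (by norm_num) (by norm_num) (by norm_num) (by norm_num)
    (by norm_num) (by rw [Dtc]; norm_num) (by rw [Dtc]; norm_num) (by rw [Dtc]; norm_num)
    (by norm_num)
  have k4 := leg_c' hΦ p (xa := (27 / 50)) (xb := (5 / 8)) (x' := (81 / 125))
    (17 / 50) (52 / 125) (26 / 25) (27 / 500) (59 / 50) (211 / 10000)
    (by norm_num) (by norm_num) (by norm_num) (by norm_num) (by norm_num) (by norm_num)
    (by norm_num) (by norm_num) (by norm_num) (by norm_num) (by norm_num) (by norm_num)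
    (by norm_num) (by rw [Dtc]; norm_num) (by rw [Dtc]; norm_num) (by rw [Dtc]; norm_num)
    (by norm_num)
  have k5 := leg_c' hΦ p (xa := (2277 / 5000)) (xb := (27 / 50)) (x' := (81 / 125))
    (6 / 25) (509 / 1000) (109 / 100) (2 / 25) (1137 / 1000) (2629 / 100000)
    (by norm_num) (by norm_num) (by norm_num) (by norm_num) (by norm_num) (by norm_num)
    (by norm_num) (by norm_num) (by norm_num) (by norm_num) (by norm_num) (by norm_num)
    (by norm_num) (by rw [Dtc]; norm_num) (by rw [Dtc]; norm_num) (by rw [Dtc]; norm_num)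
    (by norm_num)
  linarith

/-- The corner pp, (.94, .25). -/
theorem gpp5 (hΦ : IsPhi Φ) (h0 : Φ 0 0 = c00) : 849 / 10000 ≤
    gT Φ (Real.arccos (18 / 25)) (Real.arccos (18 / 25)) (6981 / 10000) (9 / 25) := by
  have p : Pt (Real.arccos (18 / 25)) (18 / 25) := Pt_arccos (by norm_num) (by norm_num)
  have k0 : 0 ≤ gT Φ (Real.arccos (18 / 25)) (Real.arccos (18 / 25)) (71 / 100) (71 / 100) :=
    gT_nonneg hΦ h0 p (by norm_num) (by norm_num)
  have k1 := leg_c hΦ p (xa := (88 / 125)) (xb := (71 / 100)) (x' := (71 / 100))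
    (49 / 100) (18 / 125) (5 / 2) (3 / 500) (1227 / 1000) (47 / 100000)
    (by norm_num) (by norm_num) (by norm_num) (by norm_num) (by norm_num) (by norm_num)
    (by norm_num) (by norm_num) (by norm_num) (by norm_num) (by norm_num) (by norm_num)
    (by norm_num) (by rw [Dtc]; norm_num) (by rw [Dtc]; norm_num) (by rw [Dtc]; norm_num)
    (by norm_num)
  have k2 := leg_c hΦ p (xa := (6981 / 10000)) (xb := (88 / 125)) (x' := (71 / 100))
    (49 / 100) (4 / 25) (11 / 5) (1 / 125) (1223 / 1000) (51 / 100000)
    (by norm_num) (by norm_num) (by norm_num) (by norm_num) (by norm_num) (by norm_num)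
    (by norm_num) (by norm_num) (by norm_num) (by norm_num) (by norm_num) (by norm_num)
    (by norm_num) (by rw [Dtc]; norm_num) (by rw [Dtc]; norm_num) (by rw [Dtc]; norm_num)
    (by norm_num)
  have k3 := leg_c' hΦ p (xa := (593 / 1000)) (xb := (71 / 100)) (x' := (6981 / 10000))
    (21 / 50) (22 / 125) (79 / 50) (1 / 100) (1227 / 1000) (1629 / 100000)
    (by norm_num) (by norm_num) (by norm_num) (by norm_num) (by norm_num) (by norm_num)
    (by norm_num) (by norm_num) (by norm_num) (by norm_num) (by norm_num) (by norm_num)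
    (by norm_num) (by rw [Dtc]; norm_num) (by rw [Dtc]; norm_num) (by rw [Dtc]; norm_num)
    (by norm_num)
  have k4 := leg_c' hΦ p (xa := (477 / 1000)) (xb := (593 / 1000)) (x' := (6981 / 10000))
    (7 / 25) (181 / 500) (33 / 25) (21 / 500) (1163 / 1000) (87 / 3125)
    (by norm_num) (by norm_num) (by norm_num) (by norm_num) (by norm_num) (by norm_num)
    (by norm_num) (by norm_num) (by norm_num) (by norm_num) (by norm_num) (by norm_num)
    (by norm_num) (by rw [Dtc]; norm_num) (by rw [Dtc]; norm_num) (by rw [Dtc]; norm_num)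
    (by norm_num)
  have k5 := leg_c' hΦ p (xa := (9 / 25)) (xb := (477 / 1000)) (x' := (6981 / 10000))
    (17 / 100) (521 / 1000) (123 / 100) (83 / 1000) (277 / 250) (797 / 20000)
    (by norm_num) (by norm_num) (by norm_num) (by norm_num) (by norm_num) (by norm_num)
    (by norm_num) (by norm_num) (by norm_num) (by norm_num) (by norm_num) (by norm_num)
    (by norm_num) (by rw [Dtc]; norm_num) (by rw [Dtc]; norm_num) (by rw [Dtc]; norm_num)
    (by norm_num)
  linarith

/-- The corner pp, (1, .1). -/
theorem gpp6 (hΦ : IsPhi Φ) (h0 : Φ 0 0 = c00) : 311 / 2500 ≤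
    gT Φ (Real.arccos (18 / 25)) (Real.arccos (18 / 25)) (18 / 25) (2277 / 10000) := by
  have p : Pt (Real.arccos (13 / 20)) (13 / 20) := Pt_arccos (by norm_num) (by norm_num)
  have k0 : 0 ≤ gT Φ (Real.arccos (13 / 20)) (Real.arccos (13 / 20)) (16 / 25) (16 / 25) :=
    gT_nonneg hΦ h0 p (by norm_num) (by norm_num)
  have k1 := leg_c' hΦ p (xa := (503 / 1000)) (xb := (16 / 25)) (x' := (16 / 25))
    (33 / 100) (57 / 500) (44 / 25) (1 / 250) (297 / 250) (1721 / 100000)
    (by norm_num) (by norm_num) (by norm_num) (by norm_num) (by norm_num) (by norm_num)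
    (by norm_num) (by norm_num) (by norm_num) (by norm_num) (by norm_num) (by norm_num)
    (by norm_num) (by rw [Dtc]; norm_num) (by rw [Dtc]; norm_num) (by rw [Dtc]; norm_num)
    (by norm_num)
  have k2 := leg_c' hΦ p (xa := (73 / 200)) (xb := (503 / 1000)) (x' := (16 / 25))
    (19 / 100) (9 / 25) (7 / 5) (41 / 1000) (28 / 25) (3581 / 100000)
    (by norm_num) (by norm_num) (by norm_num) (by norm_num) (by norm_num) (by norm_num)
    (by norm_num) (by norm_num) (by norm_num) (by norm_num) (by norm_num) (by norm_num)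
    (by norm_num) (by rw [Dtc]; norm_num) (by rw [Dtc]; norm_num) (by rw [Dtc]; norm_num)
    (by norm_num)
  have k3 := leg_c' hΦ p (xa := (2277 / 10000)) (xb := (73 / 200)) (x' := (16 / 25))
    (9 / 100) (569 / 1000) (5 / 4) (49 / 500) (213 / 200) (2687 / 50000)
    (by norm_num) (by norm_num) (by norm_num) (by norm_num) (by norm_num) (by norm_num)
    (by norm_num) (by norm_num) (by norm_num) (by norm_num) (by norm_num) (by norm_num)
    (by norm_num) (by rw [Dtc]; norm_num) (by rw [Dtc]; norm_num) (by rw [Dtc]; norm_num)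
    (by norm_num)
  have k4 := upper_leg hΦ p (xa := (16 / 25)) (xb := (17 / 25)) (x' := (2277 / 10000))
    (839 / 1000) (37 / 50) (119 / 500) (2213 / 5000) (1187 / 1000) (121 / 100) (513 / 500) (19 / 25) (1801 / 100000)
    (by norm_num) (by norm_num) (by norm_num) (by norm_num) (by norm_num) (by norm_num)
    (by norm_num) (by norm_num) (by norm_num) (by norm_num) (by norm_num) (by norm_num)
    (by norm_num) (by norm_num) (by norm_num) (by norm_num) (by norm_num) (by norm_num)
    (by norm_num) (by norm_num) (by norm_num) (by norm_num) (by norm_num) (by norm_num)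
  have k5 := upper_leg hΦ p (xa := (17 / 25)) (xb := (18 / 25)) (x' := (2277 / 10000))
    (823 / 1000) (73 / 100) (529 / 2500) (1119 / 2500) (1209 / 1000) (1233 / 1000) (513 / 500) (19 / 25) (867 / 50000)
    (by norm_num) (by norm_num) (by norm_num) (by norm_num) (by norm_num) (by norm_num)
    (by norm_num) (by norm_num) (by norm_num) (by norm_num) (by norm_num) (by norm_num)
    (by norm_num) (by norm_num) (by norm_num) (by norm_num) (by norm_num) (by norm_num)
    (by norm_num) (by norm_num) (by norm_num) (by norm_num) (by norm_num) (by norm_num)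
  have q6 : Pt (Real.arccos (137 / 200)) (137 / 200) := Pt_arccos (by norm_num) (by norm_num)
  have k6 := hor_gain hΦ (x := (18 / 25)) (x' := (2277 / 10000)) q6 p p
    (by norm_num) (4939 / 10000) (1233 / 1000) (41 / 40) (19 / 25) (19 / 25) (119 / 500) (2357 / 10000) (4961 / 10000) (111 / 625) (691 / 100000)
    (by norm_num) (by norm_num) (by norm_num) (by norm_num) (by norm_num) (by norm_num)
    (by norm_num) (by norm_num) (by norm_num) (by norm_num) (by norm_num) (by norm_num)
    (by norm_num) (by norm_num) (by norm_num) (by norm_num) (by norm_num) (by norm_num)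
    (by norm_num) (by norm_num) (by norm_num) (by norm_num) (by norm_num)
  have q7 : Pt (Real.arccos (18 / 25)) (18 / 25) := Pt_arccos (by norm_num) (by norm_num)
  have k7 := hor_gain hΦ (x := (18 / 25)) (x' := (2277 / 10000)) q7 q6 p
    (by norm_num) (499 / 1000) (1233 / 1000) (41 / 40) (19 / 25) (3643 / 5000) (223 / 1000) (2211 / 10000) (217 / 400) (431 / 2500) (169 / 25000)
    (by norm_num) (by norm_num) (by norm_num) (by norm_num) (by norm_num) (by norm_num)
    (by norm_num) (by norm_num) (by norm_num) (by norm_num) (by norm_num) (by norm_num)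
    (by norm_num) (by norm_num) (by norm_num) (by norm_num) (by norm_num) (by norm_num)
    (by norm_num) (by norm_num) (by norm_num) (by norm_num) (by norm_num)
  have q8 : Pt (Real.arccos (18 / 25)) (18 / 25) := Pt_arccos (by norm_num) (by norm_num)
  have k8 := hor_gain' hΦ (x := (18 / 25)) (x' := (2277 / 10000)) q8 p q7
    (by norm_num) (4939 / 10000) (513 / 500) (154 / 125) (347 / 500) (19 / 25) (37 / 50) (1681 / 2500) (151 / 5000) (1127 / 2000) (1971 / 50000)
    (by norm_num) (by norm_num) (by norm_num) (by norm_num) (by norm_num) (by norm_num)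
    (by norm_num) (by norm_num) (by norm_num) (by norm_num) (by norm_num) (by norm_num)
    (by norm_num) (by norm_num) (by norm_num) (by norm_num) (by norm_num) (by norm_num)
    (by norm_num) (by norm_num) (by norm_num) (by norm_num) (by norm_num)
  linarith

/-- The corner nn, (.635, .635). -/
theorem gnn1 (hΦ : IsPhi Φ) (h0 : Φ 0 0 = c00) : 477 / 10000 ≤
    gT Φ (Real.arccos (31 / 50)) (Real.arccos (31 / 50)) (4941 / 10000) (4941 / 10000) := by
  have p : Pt (Real.arccos (31 / 50)) (31 / 50) := Pt_arccos (by norm_num) (by norm_num)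
  have k0 : 0 ≤ gT Φ (Real.arccos (31 / 50)) (Real.arccos (31 / 50)) (61 / 100) (61 / 100) :=
    gT_nonneg hΦ h0 p (by norm_num) (by norm_num)
  have k1 := leg_c hΦ p (xa := (69 / 125)) (xb := (61 / 100)) (x' := (61 / 100))
    (33 / 100) (7 / 50) (191 / 100) (3 / 500) (293 / 250) (123 / 20000)
    (by norm_num) (by norm_num) (by norm_num) (by norm_num) (by norm_num) (by norm_num)
    (by norm_num) (by norm_num) (by norm_num) (by norm_num) (by norm_num) (by norm_num)
    (by norm_num) (by rw [Dtc]; norm_num) (by rw [Dtc]; norm_num) (by rw [Dtc]; norm_num)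
    (by norm_num)
  have k2 := leg_c hΦ p (xa := (4941 / 10000)) (xb := (69 / 125)) (x' := (61 / 100))
    (27 / 100) (1 / 4) (31 / 20) (1 / 50) (1143 / 1000) (19 / 2000)
    (by norm_num) (by norm_num) (by norm_num) (by norm_num) (by norm_num) (by norm_num)
    (by norm_num) (by norm_num) (by norm_num) (by norm_num) (by norm_num) (by norm_num)
    (by norm_num) (by rw [Dtc]; norm_num) (by rw [Dtc]; norm_num) (by rw [Dtc]; norm_num)
    (by norm_num)
  have k3 := leg_c' hΦ p (xa := (571 / 1000)) (xb := (61 / 100)) (x' := (4941 / 10000))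
    (17 / 50) (23 / 50) (33 / 50) (33 / 500) (293 / 250) (1001 / 100000)
    (by norm_num) (by norm_num) (by norm_num) (by norm_num) (by norm_num) (by norm_num)
    (by norm_num) (by norm_num) (by norm_num) (by norm_num) (by norm_num) (by norm_num)
    (by norm_num) (by rw [Dtc]; norm_num) (by rw [Dtc]; norm_num) (by rw [Dtc]; norm_num)
    (by norm_num)
  have k4 := leg_c' hΦ p (xa := (533 / 1000)) (xb := (571 / 1000)) (x' := (4941 / 10000))
    (3 / 10) (487 / 1000) (73 / 100) (73 / 1000) (144 / 125) (1051 / 100000)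
    (by norm_num) (by norm_num) (by norm_num) (by norm_num) (by norm_num) (by norm_num)
    (by norm_num) (by norm_num) (by norm_num) (by norm_num) (by norm_num) (by norm_num)
    (by norm_num) (by rw [Dtc]; norm_num) (by rw [Dtc]; norm_num) (by rw [Dtc]; norm_num)
    (by norm_num)
  have k5 := leg_c' hΦ p (xa := (4941 / 10000)) (xb := (533 / 1000)) (x' := (4941 / 10000))
    (13 / 50) (129 / 250) (79 / 100) (41 / 500) (567 / 500) (29 / 2500)
    (by norm_num) (by norm_num) (by norm_num) (by norm_num) (by norm_num) (by norm_num)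
    (by norm_num) (by norm_num) (by norm_num) (by norm_num) (by norm_num) (by norm_num)
    (by norm_num) (by rw [Dtc]; norm_num) (by rw [Dtc]; norm_num) (by rw [Dtc]; norm_num)
    (by norm_num)
  linarith

/-- The corner nn, (.65, .6). -/
theorem gnn2 (hΦ : IsPhi Φ) (h0 : Φ 0 0 = c00) : 503 / 10000 ≤
    gT Φ (Real.arccos (31 / 50)) (Real.arccos (31 / 50)) (4999 / 10000) (4803 / 10000) := by
  have p : Pt (Real.arccos (31 / 50)) (31 / 50) := Pt_arccos (by norm_num) (by norm_num)
  have k0 : 0 ≤ gT Φ (Real.arccos (31 / 50)) (Real.arccos (31 / 50)) (61 / 100) (61 / 100) :=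
    gT_nonneg hΦ h0 p (by norm_num) (by norm_num)
  have k1 := leg_c hΦ p (xa := (111 / 200)) (xb := (61 / 100)) (x' := (61 / 100))
    (17 / 50) (18 / 125) (183 / 100) (3 / 500) (293 / 250) (29 / 5000)
    (by norm_num) (by norm_num) (by norm_num) (by norm_num) (by norm_num) (by norm_num)
    (by norm_num) (by norm_num) (by norm_num) (by norm_num) (by norm_num) (by norm_num)
    (by norm_num) (by rw [Dtc]; norm_num) (by rw [Dtc]; norm_num) (by rw [Dtc]; norm_num)
    (by norm_num)
  have k2 := leg_c hΦ p (xa := (4999 / 10000)) (xb := (111 / 200)) (x' := (61 / 100))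
    (27 / 100) (243 / 1000) (163 / 100) (19 / 1000) (143 / 125) (441 / 50000)
    (by norm_num) (by norm_num) (by norm_num) (by norm_num) (by norm_num) (by norm_num)
    (by norm_num) (by norm_num) (by norm_num) (by norm_num) (by norm_num) (by norm_num)
    (by norm_num) (by rw [Dtc]; norm_num) (by rw [Dtc]; norm_num) (by rw [Dtc]; norm_num)
    (by norm_num)
  have k3 := leg_c' hΦ p (xa := (567 / 1000)) (xb := (61 / 100)) (x' := (4999 / 10000))
    (17 / 50) (449 / 1000) (69 / 100) (63 / 1000) (293 / 250) (1083 / 100000)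
    (by norm_num) (by norm_num) (by norm_num) (by norm_num) (by norm_num) (by norm_num)
    (by norm_num) (by norm_num) (by norm_num) (by norm_num) (by norm_num) (by norm_num)
    (by norm_num) (by rw [Dtc]; norm_num) (by rw [Dtc]; norm_num) (by rw [Dtc]; norm_num)
    (by norm_num)
  have k4 := leg_c' hΦ p (xa := (131 / 250)) (xb := (567 / 1000)) (x' := (4999 / 10000))
    (29 / 100) (479 / 1000) (79 / 100) (71 / 1000) (23 / 20) (59 / 5000)
    (by norm_num) (by norm_num) (by norm_num) (by norm_num) (by norm_num) (by norm_num)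
    (by norm_num) (by norm_num) (by norm_num) (by norm_num) (by norm_num) (by norm_num)
    (by norm_num) (by rw [Dtc]; norm_num) (by rw [Dtc]; norm_num) (by rw [Dtc]; norm_num)
    (by norm_num)
  have k5 := leg_c' hΦ p (xa := (4803 / 10000)) (xb := (131 / 250)) (x' := (4999 / 10000))
    (1 / 4) (257 / 500) (41 / 50) (81 / 1000) (1129 / 1000) (131 / 10000)
    (by norm_num) (by norm_num) (by norm_num) (by norm_num) (by norm_num) (by norm_num)
    (by norm_num) (by norm_num) (by norm_num) (by norm_num) (by norm_num) (by norm_num)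
    (by norm_num) (by rw [Dtc]; norm_num) (by rw [Dtc]; norm_num) (by rw [Dtc]; norm_num)
    (by norm_num)
  linarith

/-- The corner nn, (.69, .55). -/
theorem gnn3 (hΦ : IsPhi Φ) (h0 : Φ 0 0 = c00) : 263 / 5000 ≤
    gT Φ (Real.arccos (31 / 50)) (Real.arccos (31 / 50)) (5151 / 10000) (4599 / 10000) := by
  have p : Pt (Real.arccos (31 / 50)) (31 / 50) := Pt_arccos (by norm_num) (by norm_num)
  have k0 : 0 ≤ gT Φ (Real.arccos (31 / 50)) (Real.arccos (31 / 50)) (123 / 200) (123 / 200) :=
    gT_nonneg hΦ h0 p (by norm_num) (by norm_num)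
  have k1 := leg_c hΦ p (xa := (291 / 500)) (xb := (123 / 200)) (x' := (123 / 200))
    (7 / 20) (1 / 10) (62 / 25) (3 / 1000) (587 / 500) (63 / 25000)
    (by norm_num) (by norm_num) (by norm_num) (by norm_num) (by norm_num) (by norm_num)
    (by norm_num) (by norm_num) (by norm_num) (by norm_num) (by norm_num) (by norm_num)
    (by norm_num) (by rw [Dtc]; norm_num) (by rw [Dtc]; norm_num) (by rw [Dtc]; norm_num)
    (by norm_num)
  have k2 := leg_c hΦ p (xa := (137 / 250)) (xb := (291 / 500)) (x' := (123 / 200))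
    (31 / 100) (179 / 1000) (191 / 100) (1 / 100) (579 / 500) (79 / 20000)
    (by norm_num) (by norm_num) (by norm_num) (by norm_num) (by norm_num) (by norm_num)
    (by norm_num) (by norm_num) (by norm_num) (by norm_num) (by norm_num) (by norm_num)
    (by norm_num) (by rw [Dtc]; norm_num) (by rw [Dtc]; norm_num) (by rw [Dtc]; norm_num)
    (by norm_num)
  have k3 := leg_c hΦ p (xa := (5151 / 10000)) (xb := (137 / 250)) (x' := (123 / 200))
    (7 / 25) (61 / 250) (41 / 25) (19 / 1000) (1141 / 1000) (497 / 100000)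
    (by norm_num) (by norm_num) (by norm_num) (by norm_num) (by norm_num) (by norm_num)
    (by norm_num) (by norm_num) (by norm_num) (by norm_num) (by norm_num) (by norm_num)
    (by norm_num) (by rw [Dtc]; norm_num) (by rw [Dtc]; norm_num) (by rw [Dtc]; norm_num)
    (by norm_num)
  have k4 := leg_c' hΦ p (xa := (563 / 1000)) (xb := (123 / 200)) (x' := (5151 / 10000))
    (17 / 50) (52 / 125) (3 / 4) (27 / 500) (587 / 500) (1227 / 100000)
    (by norm_num) (by norm_num) (by norm_num) (by norm_num) (by norm_num) (by norm_num)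
    (by norm_num) (by norm_num) (by norm_num) (by norm_num) (by norm_num) (by norm_num)
    (by norm_num) (by rw [Dtc]; norm_num) (by rw [Dtc]; norm_num) (by rw [Dtc]; norm_num)
    (by norm_num)
  have k5 := leg_c' hΦ p (xa := (64 / 125)) (xb := (563 / 1000)) (x' := (5151 / 10000))
    (7 / 25) (91 / 200) (21 / 25) (8 / 125) (287 / 250) (1347 / 100000)
    (by norm_num) (by norm_num) (by norm_num) (by norm_num) (by norm_num) (by norm_num)
    (by norm_num) (by norm_num) (by norm_num) (by norm_num) (by norm_num) (by norm_num)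
    (by norm_num) (by rw [Dtc]; norm_num) (by rw [Dtc]; norm_num) (by rw [Dtc]; norm_num)
    (by norm_num)
  have k6 := leg_c' hΦ p (xa := (4599 / 10000)) (xb := (64 / 125)) (x' := (5151 / 10000))
    (23 / 100) (499 / 1000) (47 / 50) (77 / 1000) (281 / 250) (193 / 12500)
    (by norm_num) (by norm_num) (by norm_num) (by norm_num) (by norm_num) (by norm_num)
    (by norm_num) (by norm_num) (by norm_num) (by norm_num) (by norm_num) (by norm_num)
    (by norm_num) (by rw [Dtc]; norm_num) (by rw [Dtc]; norm_num) (by rw [Dtc]; norm_num)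
    (by norm_num)
  linarith

/-- The corner nn, (.8, .45). -/
theorem gnn4 (hΦ : IsPhi Φ) (h0 : Φ 0 0 = c00) : 33 / 625 ≤
    gT Φ (Real.arccos (31 / 50)) (Real.arccos (31 / 50)) (2773 / 5000) (52 / 125) := by
  have p : Pt (Real.arccos (31 / 50)) (31 / 50) := Pt_arccos (by norm_num) (by norm_num)
  have k0 : 0 ≤ gT Φ (Real.arccos (31 / 50)) (Real.arccos (31 / 50)) (61 / 100) (61 / 100) :=
    gT_nonneg hΦ h0 p (by norm_num) (by norm_num)
  have k1 := leg_c hΦ p (xa := (291 / 500)) (xb := (61 / 100)) (x' := (61 / 100))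
    (7 / 20) (147 / 1000) 2 (7 / 1000) (293 / 250) (133 / 50000)
    (by norm_num) (by norm_num) (by norm_num) (by norm_num) (by norm_num) (by norm_num)
    (by norm_num) (by norm_num) (by norm_num) (by norm_num) (by norm_num) (by norm_num)
    (by norm_num) (by rw [Dtc]; norm_num) (by rw [Dtc]; norm_num) (by rw [Dtc]; norm_num)
    (by norm_num)
  have k2 := leg_c hΦ p (xa := (2773 / 5000)) (xb := (291 / 500)) (x' := (61 / 100))
    (8 / 25) (101 / 500) (171 / 100) (13 / 1000) (579 / 500) (339 / 100000)
    (by norm_num) (by norm_num) (by norm_num) (by norm_num) (by norm_num) (by norm_num)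
    (by norm_num) (by norm_num) (by norm_num) (by norm_num) (by norm_num) (by norm_num)
    (by norm_num) (by rw [Dtc]; norm_num) (by rw [Dtc]; norm_num) (by rw [Dtc]; norm_num)
    (by norm_num)
  have k3 := leg_c' hΦ p (xa := (109 / 200)) (xb := (61 / 100)) (x' := (2773 / 5000))
    (33 / 100) (83 / 250) (19 / 20) (7 / 200) (293 / 250) (1281 / 100000)
    (by norm_num) (by norm_num) (by norm_num) (by norm_num) (by norm_num) (by norm_num)
    (by norm_num) (by norm_num) (by norm_num) (by norm_num) (by norm_num) (by norm_num)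
    (by norm_num) (by rw [Dtc]; norm_num) (by rw [Dtc]; norm_num) (by rw [Dtc]; norm_num)
    (by norm_num)
  have k4 := leg_c' hΦ p (xa := (481 / 1000)) (xb := (109 / 200)) (x' := (2773 / 5000))
    (13 / 50) (79 / 200) (53 / 50) (49 / 1000) (1139 / 1000) (767 / 50000)
    (by norm_num) (by norm_num) (by norm_num) (by norm_num) (by norm_num) (by norm_num)
    (by norm_num) (by norm_num) (by norm_num) (by norm_num) (by norm_num) (by norm_num)
    (by norm_num) (by rw [Dtc]; norm_num) (by rw [Dtc]; norm_num) (by rw [Dtc]; norm_num)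
    (by norm_num)
  have k5 := leg_c' hΦ p (xa := (52 / 125)) (xb := (481 / 1000)) (x' := (2773 / 5000))
    (1 / 5) (93 / 200) (28 / 25) (67 / 1000) (111 / 100) (1869 / 100000)
    (by norm_num) (by norm_num) (by norm_num) (by norm_num) (by norm_num) (by norm_num)
    (by norm_num) (by norm_num) (by norm_num) (by norm_num) (by norm_num) (by norm_num)
    (by norm_num) (by rw [Dtc]; norm_num) (by rw [Dtc]; norm_num) (by rw [Dtc]; norm_num)
    (by norm_num)
  linarith

/-- The corner nn, (.81, .3). -/
theorem gnn5 (hΦ : IsPhi Φ) (h0 : Φ 0 0 = c00) : 769 / 10000 ≤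
    gT Φ (Real.arccos (31 / 50)) (Real.arccos (31 / 50)) (279 / 500) (849 / 2500) := by
  have p : Pt (Real.arccos (31 / 50)) (31 / 50) := Pt_arccos (by norm_num) (by norm_num)
  have k0 : 0 ≤ gT Φ (Real.arccos (31 / 50)) (Real.arccos (31 / 50)) (61 / 100) (61 / 100) :=
    gT_nonneg hΦ h0 p (by norm_num) (by norm_num)
  have k1 := leg_c hΦ p (xa := (73 / 125)) (xb := (61 / 100)) (x' := (61 / 100))
    (7 / 20) (147 / 1000) 2 (7 / 1000) (293 / 250) (61 / 25000)
    (by norm_num) (by norm_num) (by norm_num) (by norm_num) (by norm_num) (by norm_num)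
    (by norm_num) (by norm_num) (by norm_num) (by norm_num) (by norm_num) (by norm_num)
    (by norm_num) (by rw [Dtc]; norm_num) (by rw [Dtc]; norm_num) (by rw [Dtc]; norm_num)
    (by norm_num)
  have k2 := leg_c hΦ p (xa := (279 / 500)) (xb := (73 / 125)) (x' := (61 / 100))
    (8 / 25) (99 / 500) (44 / 25) (13 / 1000) (1159 / 1000) (63 / 20000)
    (by norm_num) (by norm_num) (by norm_num) (by norm_num) (by norm_num) (by norm_num)
    (by norm_num) (by norm_num) (by norm_num) (by norm_num) (by norm_num) (by norm_num)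
    (by norm_num) (by rw [Dtc]; norm_num) (by rw [Dtc]; norm_num) (by rw [Dtc]; norm_num)
    (by norm_num)
  have k3 := leg_c' hΦ p (xa := (13 / 25)) (xb := (61 / 100)) (x' := (279 / 500))
    (8 / 25) (321 / 1000) (49 / 50) (33 / 1000) (293 / 250) (223 / 12500)
    (by norm_num) (by norm_num) (by norm_num) (by norm_num) (by norm_num) (by norm_num)
    (by norm_num) (by norm_num) (by norm_num) (by norm_num) (by norm_num) (by norm_num)
    (by norm_num) (by rw [Dtc]; norm_num) (by rw [Dtc]; norm_num) (by rw [Dtc]; norm_num)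
    (by norm_num)
  have k4 := leg_c' hΦ p (xa := (43 / 100)) (xb := (13 / 25)) (x' := (279 / 500))
    (11 / 50) (41 / 100) (57 / 50) (53 / 1000) (141 / 125) (2343 / 100000)
    (by norm_num) (by norm_num) (by norm_num) (by norm_num) (by norm_num) (by norm_num)
    (by norm_num) (by norm_num) (by norm_num) (by norm_num) (by norm_num) (by norm_num)
    (by norm_num) (by rw [Dtc]; norm_num) (by rw [Dtc]; norm_num) (by rw [Dtc]; norm_num)
    (by norm_num)
  have k5 := leg_c' hΦ p (xa := (849 / 2500)) (xb := (43 / 100)) (x' := (279 / 500))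
    (3 / 20) (259 / 500) (29 / 25) (41 / 500) (1089 / 1000) (1507 / 50000)
    (by norm_num) (by norm_num) (by norm_num) (by norm_num) (by norm_num) (by norm_num)
    (by norm_num) (by norm_num) (by norm_num) (by norm_num) (by norm_num) (by norm_num)
    (by norm_num) (by rw [Dtc]; norm_num) (by rw [Dtc]; norm_num) (by rw [Dtc]; norm_num)
    (by norm_num)
  linarith

/-- The corner nn, (1, .25). -/
theorem gnn6 (hΦ : IsPhi Φ) (h0 : Φ 0 0 = c00) : 609 / 10000 ≤
    gT Φ (Real.arccos (31 / 50)) (Real.arccos (31 / 50)) (31 / 50) (31 / 100) := by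
  have p : Pt (Real.arccos (31 / 50)) (31 / 50) := Pt_arccos (by norm_num) (by norm_num)
  have k0 : 0 ≤ gT Φ (Real.arccos (31 / 50)) (Real.arccos (31 / 50)) (61 / 100) (61 / 100) :=
    gT_nonneg hΦ h0 p (by norm_num) (by norm_num)
  have k1 := leg_c' hΦ p (xa := (51 / 100)) (xb := (61 / 100)) (x' := (61 / 100))
    (31 / 100) (127 / 1000) (91 / 50) (1 / 200) (293 / 250) (37 / 3125)
    (by norm_num) (by norm_num) (by norm_num) (by norm_num) (by norm_num) (by norm_num)
    (by norm_num) (by norm_num) (by norm_num) (by norm_num) (by norm_num) (by norm_num)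
    (by norm_num) (by rw [Dtc]; norm_num) (by rw [Dtc]; norm_num) (by rw [Dtc]; norm_num)
    (by norm_num)
  have k2 := leg_c' hΦ p (xa := (41 / 100)) (xb := (51 / 100)) (x' := (61 / 100))
    (21 / 100) (77 / 250) (3 / 2) (3 / 100) (1123 / 1000) (2171 / 100000)
    (by norm_num) (by norm_num) (by norm_num) (by norm_num) (by norm_num) (by norm_num)
    (by norm_num) (by norm_num) (by norm_num) (by norm_num) (by norm_num) (by norm_num)
    (by norm_num) (by rw [Dtc]; norm_num) (by rw [Dtc]; norm_num) (by rw [Dtc]; norm_num)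
    (by norm_num)
  have k3 := leg_c' hΦ p (xa := (31 / 100)) (xb := (41 / 100)) (x' := (61 / 100))
    (13 / 100) (58 / 125) (141 / 100) (67 / 1000) (1081 / 1000) (3147 / 100000)
    (by norm_num) (by norm_num) (by norm_num) (by norm_num) (by norm_num) (by norm_num)
    (by norm_num) (by norm_num) (by norm_num) (by norm_num) (by norm_num) (by norm_num)
    (by norm_num) (by rw [Dtc]; norm_num) (by rw [Dtc]; norm_num) (by rw [Dtc]; norm_num)
    (by norm_num)
  have k4 := upper_leg hΦ p (xa := (61 / 100)) (xb := (31 / 50)) (x' := (31 / 100))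
    (743 / 1000) (337 / 500) (1879 / 10000) (3 / 8) (1171 / 1000) (1177 / 1000) (1047 / 1000) (157 / 200) (101 / 25000)
    (by norm_num) (by norm_num) (by norm_num) (by norm_num) (by norm_num) (by norm_num)
    (by norm_num) (by norm_num) (by norm_num) (by norm_num) (by norm_num) (by norm_num)
    (by norm_num) (by norm_num) (by norm_num) (by norm_num) (by norm_num) (by norm_num)
    (by norm_num) (by norm_num) (by norm_num) (by norm_num) (by norm_num) (by norm_num)
  linarith

end

end Pool.Agent.S3.TT
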