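import Pool.Agent.S3.Es19

/-!
# Open-open edges next to an inner vertex of multiplicity two: corners for two test points (Es22)
-/

set_option autoImplicit false

namespace Pool.Agent.S3.TT

section

variable {Φ : ℂ → ℂ → ℂ}

/-- The corner pn, (.635, .635). -/
theorem gpn1 (hΦ : IsPhi Φ) (h0 : Φ 0 0 = c00) : 211 / 5000 ≤
    gT Φ (Real.arccos (18 / 25)) (Real.arccos (31 / 50)) (2869 / 5000) (4941 / 10000) := by
  have p : Pt (Real.arccos (31 / 50)) (31 / 50) := Pt_arccos (by norm_num) (by norm_num)
  have k0 : 0 ≤ gT Φ (Real.arccos (31 / 50)) (Real.arccos (31 / 50)) (123 / 200) (123 / 200) :=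
    gT_nonneg hΦ h0 p (by norm_num) (by norm_num)
  have k1 := leg_c hΦ p (xa := (121 / 200)) (xb := (123 / 200)) (x' := (123 / 200))
    (37 / 100) (21 / 200) (27 / 10) (3 / 1000) (587 / 500) (2 / 3125)
    (by norm_num) (by norm_num) (by norm_num) (by norm_num) (by norm_num) (by norm_num)
    (by norm_num) (by norm_num) (by norm_num) (by norm_num) (by norm_num) (by norm_num)
    (by norm_num) (by rw [Dtc]; norm_num) (by rw [Dtc]; norm_num) (by rw [Dtc]; norm_num)
    (by norm_num)
  have k2 := leg_c hΦ p (xa := (297 / 500)) (xb := (121 / 200)) (x' := (123 / 200))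
    (7 / 20) (131 / 1000) (49 / 20) (1 / 200) (1169 / 1000) (43 / 50000)
    (by norm_num) (by norm_num) (by norm_num) (by norm_num) (by norm_num) (by norm_num)
    (by norm_num) (by norm_num) (by norm_num) (by norm_num) (by norm_num) (by norm_num)
    (by norm_num) (by rw [Dtc]; norm_num) (by rw [Dtc]; norm_num) (by rw [Dtc]; norm_num)
    (by norm_num)
  have k3 := leg_c hΦ p (xa := (73 / 125)) (xb := (297 / 500)) (x' := (123 / 200))
    (17 / 50) (157 / 1000) (11 / 5) (1 / 125) (291 / 250) (91 / 100000)
    (by norm_num) (by norm_num) (by norm_num) (by norm_num) (by norm_num) (by norm_num)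
    (by norm_num) (by norm_num) (by norm_num) (by norm_num) (by norm_num) (by norm_num)
    (by norm_num) (by rw [Dtc]; norm_num) (by rw [Dtc]; norm_num) (by rw [Dtc]; norm_num)
    (by norm_num)
  have k4 := leg_c hΦ p (xa := (2869 / 5000)) (xb := (73 / 125)) (x' := (123 / 200))
    (33 / 100) (179 / 1000) (49 / 25) (1 / 100) (1159 / 1000) (21 / 20000)
    (by norm_num) (by norm_num) (by norm_num) (by norm_num) (by norm_num) (by norm_num)
    (by norm_num) (by norm_num) (by norm_num) (by norm_num) (by norm_num) (by norm_num)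
    (by norm_num) (by rw [Dtc]; norm_num) (by rw [Dtc]; norm_num) (by rw [Dtc]; norm_num)
    (by norm_num)
  have k5 := leg_c' hΦ p (xa := (119 / 200)) (xb := (123 / 200)) (x' := (2869 / 5000))
    (9 / 25) (279 / 1000) (11 / 10) (1 / 40) (587 / 500) (157 / 50000)
    (by norm_num) (by norm_num) (by norm_num) (by norm_num) (by norm_num) (by norm_num)
    (by norm_num) (by norm_num) (by norm_num) (by norm_num) (by norm_num) (by norm_num)
    (by norm_num) (by rw [Dtc]; norm_num) (by rw [Dtc]; norm_num) (by rw [Dtc]; norm_num)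
    (by norm_num)
  have k6 := leg_c' hΦ p (xa := (23 / 40)) (xb := (119 / 200)) (x' := (2869 / 5000))
    (17 / 50) (301 / 1000) (11 / 10) (29 / 1000) (291 / 250) (341 / 100000)
    (by norm_num) (by norm_num) (by norm_num) (by norm_num) (by norm_num) (by norm_num)
    (by norm_num) (by norm_num) (by norm_num) (by norm_num) (by norm_num) (by norm_num)
    (by norm_num) (by rw [Dtc]; norm_num) (by rw [Dtc]; norm_num) (by rw [Dtc]; norm_num)
    (by norm_num)
  have k7 := leg_c' hΦ p (xa := (111 / 200)) (xb := (23 / 40)) (x' := (2869 / 5000))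
    (31 / 100) (323 / 1000) (23 / 20) (33 / 1000) (577 / 500) (369 / 100000)
    (by norm_num) (by norm_num) (by norm_num) (by norm_num) (by norm_num) (by norm_num)
    (by norm_num) (by norm_num) (by norm_num) (by norm_num) (by norm_num) (by norm_num)
    (by norm_num) (by rw [Dtc]; norm_num) (by rw [Dtc]; norm_num) (by rw [Dtc]; norm_num)
    (by norm_num)
  have k8 := leg_c' hΦ p (xa := (267 / 500)) (xb := (111 / 200)) (x' := (2869 / 5000))
    (29 / 100) (173 / 500) (57 / 50) (19 / 500) (143 / 125) (209 / 50000)
    (by norm_num) (by norm_num) (by norm_num) (by norm_num) (by norm_num) (by norm_num)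
    (by norm_num) (by norm_num) (by norm_num) (by norm_num) (by norm_num) (by norm_num)
    (by norm_num) (by rw [Dtc]; norm_num) (by rw [Dtc]; norm_num) (by rw [Dtc]; norm_num)
    (by norm_num)
  have k9 := leg_c' hΦ p (xa := (257 / 500)) (xb := (267 / 500)) (x' := (2869 / 5000))
    (27 / 100) (371 / 1000) (23 / 20) (11 / 250) (567 / 500) (429 / 100000)
    (by norm_num) (by norm_num) (by norm_num) (by norm_num) (by norm_num) (by norm_num)
    (by norm_num) (by norm_num) (by norm_num) (by norm_num) (by norm_num) (by norm_num)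
    (by norm_num) (by rw [Dtc]; norm_num) (by rw [Dtc]; norm_num) (by rw [Dtc]; norm_num)
    (by norm_num)
  have k10 := leg_c' hΦ p (xa := (4941 / 10000)) (xb := (257 / 500)) (x' := (2869 / 5000))
    (1 / 4) (79 / 200) (23 / 20) (49 / 1000) (9 / 8) (457 / 100000)
    (by norm_num) (by norm_num) (by norm_num) (by norm_num) (by norm_num) (by norm_num)
    (by norm_num) (by norm_num) (by norm_num) (by norm_num) (by norm_num) (by norm_num)
    (by norm_num) (by rw [Dtc]; norm_num) (by rw [Dtc]; norm_num) (by rw [Dtc]; norm_num)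
    (by norm_num)
  have q11 : Pt (Real.arccos (16 / 25)) (16 / 25) := Pt_arccos (by norm_num) (by norm_num)
  have k11 := hor_gain hΦ (x := (2869 / 5000)) (x' := (4941 / 10000)) q11 p p
    (by norm_num) (304 / 625) (1153 / 1000) (223 / 200) (7847 / 10000) (7847 / 10000) (21 / 100) (521 / 2500) (2177 / 10000) (1079 / 10000) (169 / 50000)
    (by norm_num) (by norm_num) (by norm_num) (by norm_num) (by norm_num) (by norm_num)
    (by norm_num) (by norm_num) (by norm_num) (by norm_num) (by norm_num) (by norm_num)
    (by norm_num) (by norm_num) (by norm_num) (by norm_num) (by norm_num) (by norm_num)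
    (by norm_num) (by norm_num) (by norm_num) (by norm_num) (by norm_num)
  have q12 : Pt (Real.arccos (33 / 50)) (33 / 50) := Pt_arccos (by norm_num) (by norm_num)
  have k12 := hor_gain hΦ (x := (2869 / 5000)) (x' := (4941 / 10000)) q12 q11 p
    (by norm_num) (4917 / 10000) (1153 / 1000) (223 / 200) (7847 / 10000) (1921 / 2500) (197 / 1000) (1957 / 10000) (2657 / 10000) (109 / 1000) (81 / 25000)
    (by norm_num) (by norm_num) (by norm_num) (by norm_num) (by norm_num) (by norm_num)
    (by norm_num) (by norm_num) (by norm_num) (by norm_num) (by norm_num) (by norm_num)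
    (by norm_num) (by norm_num) (by norm_num) (by norm_num) (by norm_num) (by norm_num)
    (by norm_num) (by norm_num) (by norm_num) (by norm_num) (by norm_num)
  have q13 : Pt (Real.arccos (17 / 25)) (17 / 25) := Pt_arccos (by norm_num) (by norm_num)
  have k13 := hor_gain hΦ (x := (2869 / 5000)) (x' := (4941 / 10000)) q13 q12 p
    (by norm_num) (2479 / 5000) (1153 / 1000) (223 / 200) (7847 / 10000) (7513 / 10000) (37 / 200) (1839 / 10000) (1559 / 5000) (1089 / 10000) (311 / 100000)
    (by norm_num) (by norm_num) (by norm_num) (by norm_num) (by norm_num) (by norm_num)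
    (by norm_num) (by norm_num) (by norm_num) (by norm_num) (by norm_num) (by norm_num)
    (by norm_num) (by norm_num) (by norm_num) (by norm_num) (by norm_num) (by norm_num)
    (by norm_num) (by norm_num) (by norm_num) (by norm_num) (by norm_num)
  have q14 : Pt (Real.arccos (7 / 10)) (7 / 10) := Pt_arccos (by norm_num) (by norm_num)
  have k14 := hor_gain hΦ (x := (2869 / 5000)) (x' := (4941 / 10000)) q14 q13 p
    (by norm_num) (997 / 2000) (1153 / 1000) (223 / 200) (7847 / 10000) (7333 / 10000) (43 / 250) (1711 / 10000) (1781 / 5000) (43 / 400) (297 / 100000)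
    (by norm_num) (by norm_num) (by norm_num) (by norm_num) (by norm_num) (by norm_num)
    (by norm_num) (by norm_num) (by norm_num) (by norm_num) (by norm_num) (by norm_num)
    (by norm_num) (by norm_num) (by norm_num) (by norm_num) (by norm_num) (by norm_num)
    (by norm_num) (by norm_num) (by norm_num) (by norm_num) (by norm_num)
  have q15 : Pt (Real.arccos (18 / 25)) (18 / 25) := Pt_arccos (by norm_num) (by norm_num)
  have k15 := hor_gain hΦ (x := (2869 / 5000)) (x' := (4941 / 10000)) q15 q14 p
    (by norm_num) (1249 / 2500) (1153 / 1000) (223 / 200) (7847 / 10000) (3571 / 5000) (4 / 25) (1593 / 10000) (997 / 2500) (131 / 1250) (283 / 100000)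
    (by norm_num) (by norm_num) (by norm_num) (by norm_num) (by norm_num) (by norm_num)
    (by norm_num) (by norm_num) (by norm_num) (by norm_num) (by norm_num) (by norm_num)
    (by norm_num) (by norm_num) (by norm_num) (by norm_num) (by norm_num) (by norm_num)
    (by norm_num) (by norm_num) (by norm_num) (by norm_num) (by norm_num)
  linarith

/-- The corner pn, (.65, .6). -/
theorem gpn2 (hΦ : IsPhi Φ) (h0 : Φ 0 0 = c00) : 87 / 2000 ≤
    gT Φ (Real.arccos (18 / 25)) (Real.arccos (31 / 50)) (1161 / 2000) (4803 / 10000) := by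
  have p : Pt (Real.arccos (31 / 50)) (31 / 50) := Pt_arccos (by norm_num) (by norm_num)
  have k0 : 0 ≤ gT Φ (Real.arccos (31 / 50)) (Real.arccos (31 / 50)) (123 / 200) (123 / 200) :=
    gT_nonneg hΦ h0 p (by norm_num) (by norm_num)
  have k1 := leg_c hΦ p (xa := (303 / 500)) (xb := (123 / 200)) (x' := (123 / 200))
    (37 / 100) (21 / 200) (277 / 100) (3 / 1000) (587 / 500) (57 / 100000)
    (by norm_num) (by norm_num) (by norm_num) (by norm_num) (by norm_num) (by norm_num)
    (by norm_num) (by norm_num) (by norm_num) (by norm_num) (by norm_num) (by norm_num)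
    (by norm_num) (by rw [Dtc]; norm_num) (by rw [Dtc]; norm_num) (by rw [Dtc]; norm_num)
    (by norm_num)
  have k2 := leg_c hΦ p (xa := (299 / 500)) (xb := (303 / 500)) (x' := (123 / 200))
    (9 / 25) (13 / 100) (237 / 100) (1 / 200) (117 / 100) (3 / 5000)
    (by norm_num) (by norm_num) (by norm_num) (by norm_num) (by norm_num) (by norm_num)
    (by norm_num) (by norm_num) (by norm_num) (by norm_num) (by norm_num) (by norm_num)
    (by norm_num) (by rw [Dtc]; norm_num) (by rw [Dtc]; norm_num) (by rw [Dtc]; norm_num)
    (by norm_num)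
  have k3 := leg_c hΦ p (xa := (589 / 1000)) (xb := (299 / 500)) (x' := (123 / 200))
    (7 / 20) (149 / 1000) (111 / 50) (7 / 1000) (583 / 500) (39 / 50000)
    (by norm_num) (by norm_num) (by norm_num) (by norm_num) (by norm_num) (by norm_num)
    (by norm_num) (by norm_num) (by norm_num) (by norm_num) (by norm_num) (by norm_num)
    (by norm_num) (by rw [Dtc]; norm_num) (by rw [Dtc]; norm_num) (by rw [Dtc]; norm_num)
    (by norm_num)
  have k4 := leg_c hΦ p (xa := (1161 / 2000)) (xb := (589 / 1000)) (x' := (123 / 200))
    (17 / 50) (169 / 1000) 2 (9 / 1000) (1161 / 1000) (41 / 50000)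
    (by norm_num) (by norm_num) (by norm_num) (by norm_num) (by norm_num) (by norm_num)
    (by norm_num) (by norm_num) (by norm_num) (by norm_num) (by norm_num) (by norm_num)
    (by norm_num) (by rw [Dtc]; norm_num) (by rw [Dtc]; norm_num) (by rw [Dtc]; norm_num)
    (by norm_num)
  have k5 := leg_c' hΦ p (xa := (593 / 1000)) (xb := (123 / 200)) (x' := (1161 / 2000))
    (9 / 25) (129 / 500) (59 / 50) (21 / 1000) (587 / 500) (323 / 100000)
    (by norm_num) (by norm_num) (by norm_num) (by norm_num) (by norm_num) (by norm_num)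
    (by norm_num) (by norm_num) (by norm_num) (by norm_num) (by norm_num) (by norm_num)
    (by norm_num) (by rw [Dtc]; norm_num) (by rw [Dtc]; norm_num) (by rw [Dtc]; norm_num)
    (by norm_num)
  have k6 := leg_c' hΦ p (xa := (57 / 100)) (xb := (593 / 1000)) (x' := (1161 / 2000))
    (33 / 100) (71 / 250) (121 / 100) (13 / 500) (1163 / 1000) (3 / 800)
    (by norm_num) (by norm_num) (by norm_num) (by norm_num) (by norm_num) (by norm_num)
    (by norm_num) (by norm_num) (by norm_num) (by norm_num) (by norm_num) (by norm_num)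
    (by norm_num) (by rw [Dtc]; norm_num) (by rw [Dtc]; norm_num) (by rw [Dtc]; norm_num)
    (by norm_num)
  have k7 := leg_c' hΦ p (xa := (137 / 250)) (xb := (57 / 100)) (x' := (1161 / 2000))
    (31 / 100) (39 / 125) (59 / 50) (31 / 1000) (144 / 125) (79 / 20000)
    (by norm_num) (by norm_num) (by norm_num) (by norm_num) (by norm_num) (by norm_num)
    (by norm_num) (by norm_num) (by norm_num) (by norm_num) (by norm_num) (by norm_num)
    (by norm_num) (by rw [Dtc]; norm_num) (by rw [Dtc]; norm_num) (by rw [Dtc]; norm_num)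
    (by norm_num)
  have k8 := leg_c' hΦ p (xa := (21 / 40)) (xb := (137 / 250)) (x' := (1161 / 2000))
    (7 / 25) (169 / 500) (63 / 50) (9 / 250) (1141 / 1000) (113 / 25000)
    (by norm_num) (by norm_num) (by norm_num) (by norm_num) (by norm_num) (by norm_num)
    (by norm_num) (by norm_num) (by norm_num) (by norm_num) (by norm_num) (by norm_num)
    (by norm_num) (by rw [Dtc]; norm_num) (by rw [Dtc]; norm_num) (by rw [Dtc]; norm_num)
    (by norm_num)
  have k9 := leg_c' hΦ p (xa := (503 / 1000)) (xb := (21 / 40)) (x' := (1161 / 2000))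
    (13 / 50) (367 / 1000) (61 / 50) (43 / 1000) (113 / 100) (471 / 100000)
    (by norm_num) (by norm_num) (by norm_num) (by norm_num) (by norm_num) (by norm_num)
    (by norm_num) (by norm_num) (by norm_num) (by norm_num) (by norm_num) (by norm_num)
    (by norm_num) (by rw [Dtc]; norm_num) (by rw [Dtc]; norm_num) (by rw [Dtc]; norm_num)
    (by norm_num)
  have k10 := leg_c' hΦ p (xa := (4803 / 10000)) (xb := (503 / 1000)) (x' := (1161 / 2000))
    (6 / 25) (79 / 200) (123 / 100) (49 / 1000) (28 / 25) (527 / 100000)
    (by norm_num) (by norm_num) (by norm_num) (by norm_num) (by norm_num) (by norm_num)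
    (by norm_num) (by norm_num) (by norm_num) (by norm_num) (by norm_num) (by norm_num)
    (by norm_num) (by rw [Dtc]; norm_num) (by rw [Dtc]; norm_num) (by rw [Dtc]; norm_num)
    (by norm_num)
  have q11 : Pt (Real.arccos (16 / 25)) (16 / 25) := Pt_arccos (by norm_num) (by norm_num)
  have k11 := hor_gain hΦ (x := (1161 / 2000)) (x' := (4803 / 10000)) q11 p p
    (by norm_num) (304 / 625) (1157 / 1000) (1109 / 1000) (7847 / 10000) (7847 / 10000) (103 / 500) (409 / 2000) (59 / 250) (1089 / 10000) (331 / 100000)
    (by norm_num) (by norm_num) (by norm_num) (by norm_num) (by norm_num) (by norm_num)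
    (by norm_num) (by norm_num) (by norm_num) (by norm_num) (by norm_num) (by norm_num)
    (by norm_num) (by norm_num) (by norm_num) (by norm_num) (by norm_num) (by norm_num)
    (by norm_num) (by norm_num) (by norm_num) (by norm_num) (by norm_num)
  have q12 : Pt (Real.arccos (33 / 50)) (33 / 50) := Pt_arccos (by norm_num) (by norm_num)
  have k12 := hor_gain hΦ (x := (1161 / 2000)) (x' := (4803 / 10000)) q12 q11 p
    (by norm_num) (4917 / 10000) (1157 / 1000) (1109 / 1000) (7847 / 10000) (1921 / 2500) (97 / 500) (1927 / 10000) (353 / 1250) (1099 / 10000) (319 / 100000)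
    (by norm_num) (by norm_num) (by norm_num) (by norm_num) (by norm_num) (by norm_num)
    (by norm_num) (by norm_num) (by norm_num) (by norm_num) (by norm_num) (by norm_num)
    (by norm_num) (by norm_num) (by norm_num) (by norm_num) (by norm_num) (by norm_num)
    (by norm_num) (by norm_num) (by norm_num) (by norm_num) (by norm_num)
  have q13 : Pt (Real.arccos (17 / 25)) (17 / 25) := Pt_arccos (by norm_num) (by norm_num)
  have k13 := hor_gain hΦ (x := (1161 / 2000)) (x' := (4803 / 10000)) q13 q12 p
    (by norm_num) (2479 / 5000) (1157 / 1000) (1109 / 1000) (7847 / 10000) (7513 / 10000) (91 / 500) (1809 / 10000) (3271 / 10000) (1097 / 10000) (153 / 50000)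
    (by norm_num) (by norm_num) (by norm_num) (by norm_num) (by norm_num) (by norm_num)
    (by norm_num) (by norm_num) (by norm_num) (by norm_num) (by norm_num) (by norm_num)
    (by norm_num) (by norm_num) (by norm_num) (by norm_num) (by norm_num) (by norm_num)
    (by norm_num) (by norm_num) (by norm_num) (by norm_num) (by norm_num)
  have q14 : Pt (Real.arccos (7 / 10)) (7 / 10) := Pt_arccos (by norm_num) (by norm_num)
  have k14 := hor_gain hΦ (x := (1161 / 2000)) (x' := (4803 / 10000)) q14 q13 p
    (by norm_num) (997 / 2000) (1157 / 1000) (1109 / 1000) (7847 / 10000) (7333 / 10000) (171 / 1000) (1701 / 10000) (3701 / 10000) (1083 / 10000) (59 / 20000)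
    (by norm_num) (by norm_num) (by norm_num) (by norm_num) (by norm_num) (by norm_num)
    (by norm_num) (by norm_num) (by norm_num) (by norm_num) (by norm_num) (by norm_num)
    (by norm_num) (by norm_num) (by norm_num) (by norm_num) (by norm_num) (by norm_num)
    (by norm_num) (by norm_num) (by norm_num) (by norm_num) (by norm_num)
  have q15 : Pt (Real.arccos (18 / 25)) (18 / 25) := Pt_arccos (by norm_num) (by norm_num)
  have k15 := hor_gain hΦ (x := (1161 / 2000)) (x' := (4803 / 10000)) q15 q14 p
    (by norm_num) (1249 / 2500) (1157 / 1000) (1109 / 1000) (7847 / 10000) (3571 / 5000) (159 / 1000) (1583 / 10000) (2057 / 5000) (66 / 625) (141 / 50000)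
    (by norm_num) (by norm_num) (by norm_num) (by norm_num) (by norm_num) (by norm_num)
    (by norm_num) (by norm_num) (by norm_num) (by norm_num) (by norm_num) (by norm_num)
    (by norm_num) (by norm_num) (by norm_num) (by norm_num) (by norm_num) (by norm_num)
    (by norm_num) (by norm_num) (by norm_num) (by norm_num) (by norm_num)
  linarith

/-- The corner pn, (.67, .55). -/
theorem gpn3 (hΦ : IsPhi Φ) (h0 : Φ 0 0 = c00) : 449 / 10000 ≤
    gT Φ (Real.arccos (18 / 25)) (Real.arccos (31 / 50)) (2947 / 5000) (4599 / 10000) := by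
  have p : Pt (Real.arccos (31 / 50)) (31 / 50) := Pt_arccos (by norm_num) (by norm_num)
  have k0 : 0 ≤ gT Φ (Real.arccos (31 / 50)) (Real.arccos (31 / 50)) (123 / 200) (123 / 200) :=
    gT_nonneg hΦ h0 p (by norm_num) (by norm_num)
  have k1 := leg_c hΦ p (xa := (301 / 500)) (xb := (123 / 200)) (x' := (123 / 200))
    (37 / 100) (21 / 200) (261 / 100) (3 / 1000) (587 / 500) (17 / 20000)
    (by norm_num) (by norm_num) (by norm_num) (by norm_num) (by norm_num) (by norm_num)
    (by norm_num) (by norm_num) (by norm_num) (by norm_num) (by norm_num) (by norm_num)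
    (by norm_num) (by rw [Dtc]; norm_num) (by rw [Dtc]; norm_num) (by rw [Dtc]; norm_num)
    (by norm_num)
  have k2 := leg_c hΦ p (xa := (2947 / 5000)) (xb := (301 / 500)) (x' := (123 / 200))
    (7 / 20) (139 / 1000) (23 / 10) (3 / 500) (146 / 125) (21 / 20000)
    (by norm_num) (by norm_num) (by norm_num) (by norm_num) (by norm_num) (by norm_num)
    (by norm_num) (by norm_num) (by norm_num) (by norm_num) (by norm_num) (by norm_num)
    (by norm_num) (by rw [Dtc]; norm_num) (by rw [Dtc]; norm_num) (by rw [Dtc]; norm_num)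
    (by norm_num)
  have k3 := leg_c' hΦ p (xa := (72 / 125)) (xb := (123 / 200)) (x' := (2947 / 5000))
    (7 / 20) (227 / 1000) (133 / 100) (2 / 125) (587 / 500) (267 / 50000)
    (by norm_num) (by norm_num) (by norm_num) (by norm_num) (by norm_num) (by norm_num)
    (by norm_num) (by norm_num) (by norm_num) (by norm_num) (by norm_num) (by norm_num)
    (by norm_num) (by rw [Dtc]; norm_num) (by rw [Dtc]; norm_num) (by rw [Dtc]; norm_num)
    (by norm_num)
  have k4 := leg_c' hΦ p (xa := (537 / 1000)) (xb := (72 / 125)) (x' := (2947 / 5000))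
    (31 / 100) (7 / 25) (5 / 4) (1 / 40) (231 / 200) (327 / 50000)
    (by norm_num) (by norm_num) (by norm_num) (by norm_num) (by norm_num) (by norm_num)
    (by norm_num) (by norm_num) (by norm_num) (by norm_num) (by norm_num) (by norm_num)
    (by norm_num) (by rw [Dtc]; norm_num) (by rw [Dtc]; norm_num) (by rw [Dtc]; norm_num)
    (by norm_num)
  have k5 := leg_c' hΦ p (xa := (499 / 1000)) (xb := (537 / 1000)) (x' := (2947 / 5000))
    (13 / 50) (33 / 100) (131 / 100) (7 / 200) (142 / 125) (151 / 20000)
    (by norm_num) (by norm_num) (by norm_num) (by norm_num) (by norm_num) (by norm_num)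
    (by norm_num) (by norm_num) (by norm_num) (by norm_num) (by norm_num) (by norm_num)
    (by norm_num) (by rw [Dtc]; norm_num) (by rw [Dtc]; norm_num) (by rw [Dtc]; norm_num)
    (by norm_num)
  have k6 := leg_c' hΦ p (xa := (4599 / 10000)) (xb := (499 / 1000)) (x' := (2947 / 5000))
    (23 / 100) (381 / 1000) (13 / 10) (23 / 500) (559 / 500) (113 / 12500)
    (by norm_num) (by norm_num) (by norm_num) (by norm_num) (by norm_num) (by norm_num)
    (by norm_num) (by norm_num) (by norm_num) (by norm_num) (by norm_num) (by norm_num)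
    (by norm_num) (by rw [Dtc]; norm_num) (by rw [Dtc]; norm_num) (by rw [Dtc]; norm_num)
    (by norm_num)
  have q7 : Pt (Real.arccos (131 / 200)) (131 / 200) := Pt_arccos (by norm_num) (by norm_num)
  have k7 := hor_gain hΦ (x := (2947 / 5000)) (x' := (4599 / 10000)) q7 p p
    (by norm_num) (304 / 625) (1161 / 1000) (11 / 10) (7847 / 10000) (7847 / 10000) (189 / 1000) (939 / 5000) (369 / 1250) (1091 / 10000) (533 / 100000)
    (by norm_num) (by norm_num) (by norm_num) (by norm_num) (by norm_num) (by norm_num)
    (by norm_num) (by norm_num) (by norm_num) (by norm_num) (by norm_num) (by norm_num)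
    (by norm_num) (by norm_num) (by norm_num) (by norm_num) (by norm_num) (by norm_num)
    (by norm_num) (by norm_num) (by norm_num) (by norm_num) (by norm_num)
  have q8 : Pt (Real.arccos (69 / 100)) (69 / 100) := Pt_arccos (by norm_num) (by norm_num)
  have k8 := hor_gain hΦ (x := (2947 / 5000)) (x' := (4599 / 10000)) q8 q7 p
    (by norm_num) (4949 / 10000) (1161 / 1000) (11 / 10) (7847 / 10000) (7557 / 10000) (173 / 1000) (1721 / 10000) (231 / 625) (1099 / 10000) (507 / 100000)
    (by norm_num) (by norm_num) (by norm_num) (by norm_num) (by norm_num) (by norm_num)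
    (by norm_num) (by norm_num) (by norm_num) (by norm_num) (by norm_num) (by norm_num)
    (by norm_num) (by norm_num) (by norm_num) (by norm_num) (by norm_num) (by norm_num)
    (by norm_num) (by norm_num) (by norm_num) (by norm_num) (by norm_num)
  have q9 : Pt (Real.arccos (18 / 25)) (18 / 25) := Pt_arccos (by norm_num) (by norm_num)
  have k9 := hor_gain hΦ (x := (2947 / 5000)) (x' := (4599 / 10000)) q9 q8 p
    (by norm_num) (2497 / 5000) (1161 / 1000) (11 / 10) (7847 / 10000) (7239 / 10000) (4 / 25) (1593 / 10000) (859 / 2000) (1081 / 10000) (21 / 5000)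
    (by norm_num) (by norm_num) (by norm_num) (by norm_num) (by norm_num) (by norm_num)
    (by norm_num) (by norm_num) (by norm_num) (by norm_num) (by norm_num) (by norm_num)
    (by norm_num) (by norm_num) (by norm_num) (by norm_num) (by norm_num) (by norm_num)
    (by norm_num) (by norm_num) (by norm_num) (by norm_num) (by norm_num)
  linarith

/-- The corner pn, (.69, .5). -/
theorem gpn4 (hΦ : IsPhi Φ) (h0 : Φ 0 0 = c00) : 119 / 2500 ≤
    gT Φ (Real.arccos (18 / 25)) (Real.arccos (31 / 50)) (5981 / 10000) (877 / 2000) := by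
  have p : Pt (Real.arccos (31 / 50)) (31 / 50) := Pt_arccos (by norm_num) (by norm_num)
  have k0 : 0 ≤ gT Φ (Real.arccos (31 / 50)) (Real.arccos (31 / 50)) (123 / 200) (123 / 200) :=
    gT_nonneg hΦ h0 p (by norm_num) (by norm_num)
  have k1 := leg_c hΦ p (xa := (607 / 1000)) (xb := (123 / 200)) (x' := (123 / 200))
    (37 / 100) (21 / 200) (11 / 4) (3 / 1000) (587 / 500) (1 / 2000)
    (by norm_num) (by norm_num) (by norm_num) (by norm_num) (by norm_num) (by norm_num)
    (by norm_num) (by norm_num) (by norm_num) (by norm_num) (by norm_num) (by norm_num)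
    (by norm_num) (by rw [Dtc]; norm_num) (by rw [Dtc]; norm_num) (by rw [Dtc]; norm_num)
    (by norm_num)
  have k2 := leg_c hΦ p (xa := (5981 / 10000)) (xb := (607 / 1000)) (x' := (123 / 200))
    (9 / 25) (127 / 1000) (247 / 100) (1 / 200) (117 / 100) (33 / 50000)
    (by norm_num) (by norm_num) (by norm_num) (by norm_num) (by norm_num) (by norm_num)
    (by norm_num) (by norm_num) (by norm_num) (by norm_num) (by norm_num) (by norm_num)
    (by norm_num) (by rw [Dtc]; norm_num) (by rw [Dtc]; norm_num) (by rw [Dtc]; norm_num)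
    (by norm_num)
  have k3 := leg_c' hΦ p (xa := (571 / 1000)) (xb := (123 / 200)) (x' := (5981 / 10000))
    (7 / 20) (193 / 1000) (3 / 2) (3 / 250) (587 / 500) (539 / 100000)
    (by norm_num) (by norm_num) (by norm_num) (by norm_num) (by norm_num) (by norm_num)
    (by norm_num) (by norm_num) (by norm_num) (by norm_num) (by norm_num) (by norm_num)
    (by norm_num) (by rw [Dtc]; norm_num) (by rw [Dtc]; norm_num) (by rw [Dtc]; norm_num)
    (by norm_num)
  have k4 := leg_c' hΦ p (xa := (527 / 1000)) (xb := (571 / 1000)) (x' := (5981 / 10000))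
    (3 / 10) (13 / 50) (7 / 5) (11 / 500) (144 / 125) (707 / 100000)
    (by norm_num) (by norm_num) (by norm_num) (by norm_num) (by norm_num) (by norm_num)
    (by norm_num) (by norm_num) (by norm_num) (by norm_num) (by norm_num) (by norm_num)
    (by norm_num) (by rw [Dtc]; norm_num) (by rw [Dtc]; norm_num) (by rw [Dtc]; norm_num)
    (by norm_num)
  have k5 := leg_c' hΦ p (xa := (483 / 1000)) (xb := (527 / 1000)) (x' := (5981 / 10000))
    (1 / 4) (161 / 500) (7 / 5) (33 / 1000) (1131 / 1000) (873 / 100000)
    (by norm_num) (by norm_num) (by norm_num) (by norm_num) (by norm_num) (by norm_num)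
    (by norm_num) (by norm_num) (by norm_num) (by norm_num) (by norm_num) (by norm_num)
    (by norm_num) (by rw [Dtc]; norm_num) (by rw [Dtc]; norm_num) (by rw [Dtc]; norm_num)
    (by norm_num)
  have k6 := leg_c' hΦ p (xa := (877 / 2000)) (xb := (483 / 1000)) (x' := (5981 / 10000))
    (21 / 100) (77 / 200) (137 / 100) (47 / 1000) (1111 / 1000) (1059 / 100000)
    (by norm_num) (by norm_num) (by norm_num) (by norm_num) (by norm_num) (by norm_num)
    (by norm_num) (by norm_num) (by norm_num) (by norm_num) (by norm_num) (by norm_num)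
    (by norm_num) (by rw [Dtc]; norm_num) (by rw [Dtc]; norm_num) (by rw [Dtc]; norm_num)
    (by norm_num)
  have q7 : Pt (Real.arccos (131 / 200)) (131 / 200) := Pt_arccos (by norm_num) (by norm_num)
  have k7 := hor_gain hΦ (x := (5981 / 10000)) (x' := (877 / 2000)) q7 p p
    (by norm_num) (304 / 625) (583 / 500) (1091 / 1000) (7847 / 10000) (7847 / 10000) (189 / 1000) (939 / 5000) (3193 / 10000) (1131 / 10000) (533 / 100000)
    (by norm_num) (by norm_num) (by norm_num) (by norm_num) (by norm_num) (by norm_num)
    (by norm_num) (by norm_num) (by norm_num) (by norm_num) (by norm_num) (by norm_num)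
    (by norm_num) (by norm_num) (by norm_num) (by norm_num) (by norm_num) (by norm_num)
    (by norm_num) (by norm_num) (by norm_num) (by norm_num) (by norm_num)
  have q8 : Pt (Real.arccos (69 / 100)) (69 / 100) := Pt_arccos (by norm_num) (by norm_num)
  have k8 := hor_gain hΦ (x := (5981 / 10000)) (x' := (877 / 2000)) q8 q7 p
    (by norm_num) (4949 / 10000) (583 / 500) (1091 / 1000) (7847 / 10000) (7557 / 10000) (7 / 40) (1741 / 10000) (3903 / 10000) (71 / 625) (513 / 100000)
    (by norm_num) (by norm_num) (by norm_num) (by norm_num) (by norm_num) (by norm_num)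
    (by norm_num) (by norm_num) (by norm_num) (by norm_num) (by norm_num) (by norm_num)
    (by norm_num) (by norm_num) (by norm_num) (by norm_num) (by norm_num) (by norm_num)
    (by norm_num) (by norm_num) (by norm_num) (by norm_num) (by norm_num)
  have q9 : Pt (Real.arccos (18 / 25)) (18 / 25) := Pt_arccos (by norm_num) (by norm_num)
  have k9 := hor_gain hΦ (x := (5981 / 10000)) (x' := (877 / 2000)) q9 q8 p
    (by norm_num) (2497 / 5000) (583 / 500) (1091 / 1000) (7847 / 10000) (7239 / 10000) (81 / 500) (403 / 2500) (1119 / 2500) (279 / 2500) (17 / 4000)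
    (by norm_num) (by norm_num) (by norm_num) (by norm_num) (by norm_num) (by norm_num)
    (by norm_num) (by norm_num) (by norm_num) (by norm_num) (by norm_num) (by norm_num)
    (by norm_num) (by norm_num) (by norm_num) (by norm_num) (by norm_num) (by norm_num)
    (by norm_num) (by norm_num) (by norm_num) (by norm_num) (by norm_num)
  linarith

/-- The corner pn, (.715, .45). -/
theorem gpn5 (hΦ : IsPhi Φ) (h0 : Φ 0 0 = c00) : 31 / 625 ≤
    gT Φ (Real.arccos (18 / 25)) (Real.arccos (31 / 50)) (6089 / 10000) (52 / 125) := by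
  have p : Pt (Real.arccos (31 / 50)) (31 / 50) := Pt_arccos (by norm_num) (by norm_num)
  have k0 : 0 ≤ gT Φ (Real.arccos (31 / 50)) (Real.arccos (31 / 50)) (123 / 200) (123 / 200) :=
    gT_nonneg hΦ h0 p (by norm_num) (by norm_num)
  have k1 := leg_c hΦ p (xa := (153 / 250)) (xb := (123 / 200)) (x' := (123 / 200))
    (37 / 100) (21 / 200) 3 (3 / 1000) (587 / 500) (17 / 100000)
    (by norm_num) (by norm_num) (by norm_num) (by norm_num) (by norm_num) (by norm_num)
    (by norm_num) (by norm_num) (by norm_num) (by norm_num) (by norm_num) (by norm_num)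
    (by norm_num) (by rw [Dtc]; norm_num) (by rw [Dtc]; norm_num) (by rw [Dtc]; norm_num)
    (by norm_num)
  have k2 := leg_c hΦ p (xa := (6089 / 10000)) (xb := (153 / 250)) (x' := (123 / 200))
    (37 / 100) (57 / 500) (129 / 50) (1 / 250) (1173 / 1000) (19 / 100000)
    (by norm_num) (by norm_num) (by norm_num) (by norm_num) (by norm_num) (by norm_num)
    (by norm_num) (by norm_num) (by norm_num) (by norm_num) (by norm_num) (by norm_num)
    (by norm_num) (by rw [Dtc]; norm_num) (by rw [Dtc]; norm_num) (by rw [Dtc]; norm_num)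
    (by norm_num)
  have k3 := leg_c' hΦ p (xa := (113 / 200)) (xb := (123 / 200)) (x' := (6089 / 10000))
    (17 / 50) (137 / 1000) (97 / 50) (3 / 500) (587 / 500) (251 / 50000)
    (by norm_num) (by norm_num) (by norm_num) (by norm_num) (by norm_num) (by norm_num)
    (by norm_num) (by norm_num) (by norm_num) (by norm_num) (by norm_num) (by norm_num)
    (by norm_num) (by rw [Dtc]; norm_num) (by rw [Dtc]; norm_num) (by rw [Dtc]; norm_num)
    (by norm_num)
  have k4 := leg_c' hΦ p (xa := (129 / 250)) (xb := (113 / 200)) (x' := (6089 / 10000))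
    (29 / 100) (233 / 1000) (159 / 100) (17 / 1000) (1149 / 1000) (369 / 50000)
    (by norm_num) (by norm_num) (by norm_num) (by norm_num) (by norm_num) (by norm_num)
    (by norm_num) (by norm_num) (by norm_num) (by norm_num) (by norm_num) (by norm_num)
    (by norm_num) (by rw [Dtc]; norm_num) (by rw [Dtc]; norm_num) (by rw [Dtc]; norm_num)
    (by norm_num)
  have k5 := leg_c' hΦ p (xa := (233 / 500)) (xb := (129 / 250)) (x' := (6089 / 10000))
    (6 / 25) (39 / 125) (37 / 25) (31 / 1000) (563 / 500) (493 / 50000)
    (by norm_num) (by norm_num) (by norm_num) (by norm_num) (by norm_num) (by norm_num)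
    (by norm_num) (by norm_num) (by norm_num) (by norm_num) (by norm_num) (by norm_num)
    (by norm_num) (by rw [Dtc]; norm_num) (by rw [Dtc]; norm_num) (by rw [Dtc]; norm_num)
    (by norm_num)
  have k6 := leg_c' hΦ p (xa := (52 / 125)) (xb := (233 / 500)) (x' := (6089 / 10000))
    (19 / 100) (387 / 1000) (37 / 25) (47 / 1000) (138 / 125) (611 / 50000)
    (by norm_num) (by norm_num) (by norm_num) (by norm_num) (by norm_num) (by norm_num)
    (by norm_num) (by norm_num) (by norm_num) (by norm_num) (by norm_num) (by norm_num)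
    (by norm_num) (by rw [Dtc]; norm_num) (by rw [Dtc]; norm_num) (by rw [Dtc]; norm_num)
    (by norm_num)
  have q7 : Pt (Real.arccos (131 / 200)) (131 / 200) := Pt_arccos (by norm_num) (by norm_num)
  have k7 := hor_gain hΦ (x := (6089 / 10000)) (x' := (52 / 125)) q7 p p
    (by norm_num) (304 / 625) (1171 / 1000) (1083 / 1000) (7847 / 10000) (7847 / 10000) (19 / 100) (118 / 625) (3437 / 10000) (1173 / 10000) (67 / 12500)
    (by norm_num) (by norm_num) (by norm_num) (by norm_num) (by norm_num) (by norm_num)
    (by norm_num) (by norm_num) (by norm_num) (by norm_num) (by norm_num) (by norm_num)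
    (by norm_num) (by norm_num) (by norm_num) (by norm_num) (by norm_num) (by norm_num)
    (by norm_num) (by norm_num) (by norm_num) (by norm_num) (by norm_num)
  have q8 : Pt (Real.arccos (69 / 100)) (69 / 100) := Pt_arccos (by norm_num) (by norm_num)
  have k8 := hor_gain hΦ (x := (6089 / 10000)) (x' := (52 / 125)) q8 q7 p
    (by norm_num) (4949 / 10000) (1171 / 1000) (1083 / 1000) (7847 / 10000) (7557 / 10000) (22 / 125) (7 / 40) (4111 / 10000) (47 / 400) (103 / 20000)
    (by norm_num) (by norm_num) (by norm_num) (by norm_num) (by norm_num) (by norm_num)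
    (by norm_num) (by norm_num) (by norm_num) (by norm_num) (by norm_num) (by norm_num)
    (by norm_num) (by norm_num) (by norm_num) (by norm_num) (by norm_num) (by norm_num)
    (by norm_num) (by norm_num) (by norm_num) (by norm_num) (by norm_num)
  have q9 : Pt (Real.arccos (18 / 25)) (18 / 25) := Pt_arccos (by norm_num) (by norm_num)
  have k9 := hor_gain hΦ (x := (6089 / 10000)) (x' := (52 / 125)) q9 q8 p
    (by norm_num) (2497 / 5000) (1171 / 1000) (1083 / 1000) (7847 / 10000) (7239 / 10000) (41 / 250) (102 / 625) (4657 / 10000) (1153 / 10000) (43 / 10000)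
    (by norm_num) (by norm_num) (by norm_num) (by norm_num) (by norm_num) (by norm_num)
    (by norm_num) (by norm_num) (by norm_num) (by norm_num) (by norm_num) (by norm_num)
    (by norm_num) (by norm_num) (by norm_num) (by norm_num) (by norm_num) (by norm_num)
    (by norm_num) (by norm_num) (by norm_num) (by norm_num) (by norm_num)
  linarith

/-- The corner pn, (.745, .4). -/
theorem gpn6 (hΦ : IsPhi Φ) (h0 : Φ 0 0 = c00) : 101 / 2000 ≤
    gT Φ (Real.arccos (18 / 25)) (Real.arccos (31 / 50)) (1243 / 2000) (1961 / 5000) := by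
  have p : Pt (Real.arccos (31 / 50)) (31 / 50) := Pt_arccos (by norm_num) (by norm_num)
  have k0 : 0 ≤ gT Φ (Real.arccos (31 / 50)) (Real.arccos (31 / 50)) (61 / 100) (61 / 100) :=
    gT_nonneg hΦ h0 p (by norm_num) (by norm_num)
  have k1 := leg_c' hΦ p (xa := (537 / 1000)) (xb := (61 / 100)) (x' := (61 / 100))
    (33 / 100) (7 / 50) (179 / 100) (3 / 500) (293 / 250) (407 / 50000)
    (by norm_num) (by norm_num) (by norm_num) (by norm_num) (by norm_num) (by norm_num)
    (by norm_num) (by norm_num) (by norm_num) (by norm_num) (by norm_num) (by norm_num)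
    (by norm_num) (by rw [Dtc]; norm_num) (by rw [Dtc]; norm_num) (by rw [Dtc]; norm_num)
    (by norm_num)
  have k2 := leg_c' hΦ p (xa := (93 / 200)) (xb := (537 / 1000)) (x' := (61 / 100))
    (1 / 4) (34 / 125) (151 / 100) (3 / 125) (142 / 125) (329 / 25000)
    (by norm_num) (by norm_num) (by norm_num) (by norm_num) (by norm_num) (by norm_num)
    (by norm_num) (by norm_num) (by norm_num) (by norm_num) (by norm_num) (by norm_num)
    (by norm_num) (by rw [Dtc]; norm_num) (by rw [Dtc]; norm_num) (by rw [Dtc]; norm_num)
    (by norm_num)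
  have k3 := leg_c' hΦ p (xa := (1961 / 5000)) (xb := (93 / 200)) (x' := (61 / 100))
    (9 / 50) (383 / 1000) (37 / 25) (23 / 500) (1103 / 1000) (367 / 20000)
    (by norm_num) (by norm_num) (by norm_num) (by norm_num) (by norm_num) (by norm_num)
    (by norm_num) (by norm_num) (by norm_num) (by norm_num) (by norm_num) (by norm_num)
    (by norm_num) (by rw [Dtc]; norm_num) (by rw [Dtc]; norm_num) (by rw [Dtc]; norm_num)
    (by norm_num)
  have k4 := upper_leg hΦ p (xa := (61 / 100)) (xb := (1243 / 2000)) (x' := (1961 / 5000))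
    (16 / 25) (149 / 250) (1381 / 10000) (751 / 2500) (1171 / 1000) (589 / 500) (43 / 40) (157 / 200) (401 / 100000)
    (by norm_num) (by norm_num) (by norm_num) (by norm_num) (by norm_num) (by norm_num)
    (by norm_num) (by norm_num) (by norm_num) (by norm_num) (by norm_num) (by norm_num)
    (by norm_num) (by norm_num) (by norm_num) (by norm_num) (by norm_num) (by norm_num)
    (by norm_num) (by norm_num) (by norm_num) (by norm_num) (by norm_num) (by norm_num)
  have q5 : Pt (Real.arccos (131 / 200)) (131 / 200) := Pt_arccos (by norm_num) (by norm_num)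
  have k5 := hor_gain hΦ (x := (1243 / 2000)) (x' := (1961 / 5000)) q5 p p
    (by norm_num) (304 / 625) (589 / 500) (537 / 500) (7847 / 10000) (7847 / 10000) (19 / 100) (118 / 625) (3681 / 10000) (151 / 1250) (67 / 12500)
    (by norm_num) (by norm_num) (by norm_num) (by norm_num) (by norm_num) (by norm_num)
    (by norm_num) (by norm_num) (by norm_num) (by norm_num) (by norm_num) (by norm_num)
    (by norm_num) (by norm_num) (by norm_num) (by norm_num) (by norm_num) (by norm_num)
    (by norm_num) (by norm_num) (by norm_num) (by norm_num) (by norm_num)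
  have q6 : Pt (Real.arccos (69 / 100)) (69 / 100) := Pt_arccos (by norm_num) (by norm_num)
  have k6 := hor_gain hΦ (x := (1243 / 2000)) (x' := (1961 / 5000)) q6 q5 p
    (by norm_num) (4949 / 10000) (589 / 500) (537 / 500) (7847 / 10000) (7557 / 10000) (177 / 1000) (22 / 125) (54 / 125) (151 / 1250) (259 / 50000)
    (by norm_num) (by norm_num) (by norm_num) (by norm_num) (by norm_num) (by norm_num)
    (by norm_num) (by norm_num) (by norm_num) (by norm_num) (by norm_num) (by norm_num)
    (by norm_num) (by norm_num) (by norm_num) (by norm_num) (by norm_num) (by norm_num)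
    (by norm_num) (by norm_num) (by norm_num) (by norm_num) (by norm_num)
  have q7 : Pt (Real.arccos (18 / 25)) (18 / 25) := Pt_arccos (by norm_num) (by norm_num)
  have k7 := hor_gain hΦ (x := (1243 / 2000)) (x' := (1961 / 5000)) q7 q6 p
    (by norm_num) (2497 / 5000) (589 / 500) (537 / 500) (7847 / 10000) (7239 / 10000) (33 / 200) (821 / 5000) (4837 / 10000) (237 / 2000) (433 / 100000)
    (by norm_num) (by norm_num) (by norm_num) (by norm_num) (by norm_num) (by norm_num)
    (by norm_num) (by norm_num) (by norm_num) (by norm_num) (by norm_num) (by norm_num)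
    (by norm_num) (by norm_num) (by norm_num) (by norm_num) (by norm_num) (by norm_num)
    (by norm_num) (by norm_num) (by norm_num) (by norm_num) (by norm_num)
  linarith

/-- The corner pn, (.775, .35). -/
theorem gpn7 (hΦ : IsPhi Φ) (h0 : Φ 0 0 = c00) : 531 / 10000 ≤
    gT Φ (Real.arccos (18 / 25)) (Real.arccos (31 / 50)) (6339 / 10000) (917 / 2500) := by
  have p : Pt (Real.arccos (31 / 50)) (31 / 50) := Pt_arccos (by norm_num) (by norm_num)
  have k0 : 0 ≤ gT Φ (Real.arccos (31 / 50)) (Real.arccos (31 / 50)) (61 / 100) (61 / 100) :=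
    gT_nonneg hΦ h0 p (by norm_num) (by norm_num)
  have k1 := leg_c' hΦ p (xa := (529 / 1000)) (xb := (61 / 100)) (x' := (61 / 100))
    (8 / 25) (27 / 200) (91 / 50) (3 / 500) (293 / 250) (459 / 50000)
    (by norm_num) (by norm_num) (by norm_num) (by norm_num) (by norm_num) (by norm_num)
    (by norm_num) (by norm_num) (by norm_num) (by norm_num) (by norm_num) (by norm_num)
    (by norm_num) (by rw [Dtc]; norm_num) (by rw [Dtc]; norm_num) (by rw [Dtc]; norm_num)
    (by norm_num)
  have k2 := leg_c' hΦ p (xa := (56 / 125)) (xb := (529 / 1000)) (x' := (61 / 100))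
    (6 / 25) (71 / 250) (149 / 100) (13 / 500) (283 / 250) (49 / 3125)
    (by norm_num) (by norm_num) (by norm_num) (by norm_num) (by norm_num) (by norm_num)
    (by norm_num) (by norm_num) (by norm_num) (by norm_num) (by norm_num) (by norm_num)
    (by norm_num) (by rw [Dtc]; norm_num) (by rw [Dtc]; norm_num) (by rw [Dtc]; norm_num)
    (by norm_num)
  have k3 := leg_c' hΦ p (xa := (917 / 2500)) (xb := (56 / 125)) (x' := (61 / 100))
    (4 / 25) (203 / 500) (149 / 100) (13 / 250) (137 / 125) (11 / 500)
    (by norm_num) (by norm_num) (by norm_num) (by norm_num) (by norm_num) (by norm_num)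
    (by norm_num) (by norm_num) (by norm_num) (by norm_num) (by norm_num) (by norm_num)
    (by norm_num) (by rw [Dtc]; norm_num) (by rw [Dtc]; norm_num) (by rw [Dtc]; norm_num)
    (by norm_num)
  have k4 := upper_leg hΦ p (xa := (61 / 100)) (xb := (6339 / 10000)) (x' := (917 / 2500))
    (169 / 250) (78 / 125) (767 / 5000) (657 / 2000) (1171 / 1000) (148 / 125) (533 / 500) (157 / 200) (879 / 100000)
    (by norm_num) (by norm_num) (by norm_num) (by norm_num) (by norm_num) (by norm_num)
    (by norm_num) (by norm_num) (by norm_num) (by norm_num) (by norm_num) (by norm_num)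
    (by norm_num) (by norm_num) (by norm_num) (by norm_num) (by norm_num) (by norm_num)
    (by norm_num) (by norm_num) (by norm_num) (by norm_num) (by norm_num) (by norm_num)
  have q5 : Pt (Real.arccos (131 / 200)) (131 / 200) := Pt_arccos (by norm_num) (by norm_num)
  have k5 := hor_gain hΦ (x := (6339 / 10000)) (x' := (917 / 2500)) q5 p p
    (by norm_num) (304 / 625) (148 / 125) (213 / 200) (7847 / 10000) (7847 / 10000) (24 / 125) (477 / 2500) (981 / 2500) (253 / 2000) (541 / 100000)
    (by norm_num) (by norm_num) (by norm_num) (by norm_num) (by norm_num) (by norm_num)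
    (by norm_num) (by norm_num) (by norm_num) (by norm_num) (by norm_num) (by norm_num)
    (by norm_num) (by norm_num) (by norm_num) (by norm_num) (by norm_num) (by norm_num)
    (by norm_num) (by norm_num) (by norm_num) (by norm_num) (by norm_num)
  have q6 : Pt (Real.arccos (69 / 100)) (69 / 100) := Pt_arccos (by norm_num) (by norm_num)
  have k6 := hor_gain hΦ (x := (6339 / 10000)) (x' := (917 / 2500)) q6 q5 p
    (by norm_num) (4949 / 10000) (148 / 125) (213 / 200) (7847 / 10000) (7557 / 10000) (9 / 50) (179 / 1000) (4529 / 10000) (1261 / 10000) (527 / 100000)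
    (by norm_num) (by norm_num) (by norm_num) (by norm_num) (by norm_num) (by norm_num)
    (by norm_num) (by norm_num) (by norm_num) (by norm_num) (by norm_num) (by norm_num)
    (by norm_num) (by norm_num) (by norm_num) (by norm_num) (by norm_num) (by norm_num)
    (by norm_num) (by norm_num) (by norm_num) (by norm_num) (by norm_num)
  have q7 : Pt (Real.arccos (18 / 25)) (18 / 25) := Pt_arccos (by norm_num) (by norm_num)
  have k7 := hor_gain hΦ (x := (6339 / 10000)) (x' := (917 / 2500)) q7 q6 p
    (by norm_num) (2497 / 5000) (148 / 125) (213 / 200) (7847 / 10000) (7239 / 10000) (169 / 1000) (1681 / 10000) (5019 / 10000) (247 / 2000) (443 / 100000)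
    (by norm_num) (by norm_num) (by norm_num) (by norm_num) (by norm_num) (by norm_num)
    (by norm_num) (by norm_num) (by norm_num) (by norm_num) (by norm_num) (by norm_num)
    (by norm_num) (by norm_num) (by norm_num) (by norm_num) (by norm_num) (by norm_num)
    (by norm_num) (by norm_num) (by norm_num) (by norm_num) (by norm_num)
  linarith

/-- The corner pn, (.85, .3). -/
theorem gpn8 (hΦ : IsPhi Φ) (h0 : Φ 0 0 = c00) : 501 / 10000 ≤
    gT Φ (Real.arccos (18 / 25)) (Real.arccos (31 / 50)) (6639 / 10000) (849 / 2500) := by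
  have p : Pt (Real.arccos (31 / 50)) (31 / 50) := Pt_arccos (by norm_num) (by norm_num)
  have k0 : 0 ≤ gT Φ (Real.arccos (31 / 50)) (Real.arccos (31 / 50)) (61 / 100) (61 / 100) :=
    gT_nonneg hΦ h0 p (by norm_num) (by norm_num)
  have k1 := leg_c' hΦ p (xa := (271 / 500)) (xb := (61 / 100)) (x' := (61 / 100))
    (33 / 100) (7 / 50) (91 / 50) (3 / 500) (293 / 250) (149 / 20000)
    (by norm_num) (by norm_num) (by norm_num) (by norm_num) (by norm_num) (by norm_num)
    (by norm_num) (by norm_num) (by norm_num) (by norm_num) (by norm_num) (by norm_num)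
    (by norm_num) (by rw [Dtc]; norm_num) (by rw [Dtc]; norm_num) (by rw [Dtc]; norm_num)
    (by norm_num)
  have k2 := leg_c' hΦ p (xa := (19 / 40)) (xb := (271 / 500)) (x' := (61 / 100))
    (1 / 4) (131 / 500) (159 / 100) (11 / 500) (569 / 500) (1181 / 100000)
    (by norm_num) (by norm_num) (by norm_num) (by norm_num) (by norm_num) (by norm_num)
    (by norm_num) (by norm_num) (by norm_num) (by norm_num) (by norm_num) (by norm_num)
    (by norm_num) (by rw [Dtc]; norm_num) (by rw [Dtc]; norm_num) (by rw [Dtc]; norm_num)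
    (by norm_num)
  have k3 := leg_c' hΦ p (xa := (407 / 1000)) (xb := (19 / 40)) (x' := (61 / 100))
    (19 / 100) (46 / 125) (3 / 2) (43 / 1000) (277 / 250) (1637 / 100000)
    (by norm_num) (by norm_num) (by norm_num) (by norm_num) (by norm_num) (by norm_num)
    (by norm_num) (by norm_num) (by norm_num) (by norm_num) (by norm_num) (by norm_num)
    (by norm_num) (by rw [Dtc]; norm_num) (by rw [Dtc]; norm_num) (by rw [Dtc]; norm_num)
    (by norm_num)
  have k4 := leg_c' hΦ p (xa := (849 / 2500)) (xb := (407 / 1000)) (x' := (61 / 100))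
    (7 / 50) (237 / 500) (71 / 50) (7 / 100) (27 / 25) (2073 / 100000)
    (by norm_num) (by norm_num) (by norm_num) (by norm_num) (by norm_num) (by norm_num)
    (by norm_num) (by norm_num) (by norm_num) (by norm_num) (by norm_num) (by norm_num)
    (by norm_num) (by rw [Dtc]; norm_num) (by rw [Dtc]; norm_num) (by rw [Dtc]; norm_num)
    (by norm_num)
  have k5 := upper_leg hΦ p (xa := (61 / 100)) (xb := (637 / 1000)) (x' := (849 / 2500))
    (71 / 100) (13 / 20) (1699 / 10000) (3541 / 10000) (1171 / 1000) (593 / 500) (1057 / 1000) (157 / 200) (1043 / 100000)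
    (by norm_num) (by norm_num) (by norm_num) (by norm_num) (by norm_num) (by norm_num)
    (by norm_num) (by norm_num) (by norm_num) (by norm_num) (by norm_num) (by norm_num)
    (by norm_num) (by norm_num) (by norm_num) (by norm_num) (by norm_num) (by norm_num)
    (by norm_num) (by norm_num) (by norm_num) (by norm_num) (by norm_num) (by norm_num)
  have k6 := upper_leg hΦ p (xa := (637 / 1000)) (xb := (6639 / 10000)) (x' := (849 / 2500))
    (351 / 500) (161 / 250) (149 / 1000) (3603 / 10000) (237 / 200) (1201 / 1000) (1057 / 1000) (157 / 200) (203 / 20000)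
    (by norm_num) (by norm_num) (by norm_num) (by norm_num) (by norm_num) (by norm_num)
    (by norm_num) (by norm_num) (by norm_num) (by norm_num) (by norm_num) (by norm_num)
    (by norm_num) (by norm_num) (by norm_num) (by norm_num) (by norm_num) (by norm_num)
    (by norm_num) (by norm_num) (by norm_num) (by norm_num) (by norm_num) (by norm_num)
  have q7 : Pt (Real.arccos (131 / 200)) (131 / 200) := Pt_arccos (by norm_num) (by norm_num)
  have k7 := hor_gain hΦ (x := (6639 / 10000)) (x' := (849 / 2500)) q7 p p
    (by norm_num) (304 / 625) (1201 / 1000) (132 / 125) (7847 / 10000) (7847 / 10000) (181 / 1000) (9 / 50) (1047 / 2500) (609 / 5000) (511 / 100000)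
    (by norm_num) (by norm_num) (by norm_num) (by norm_num) (by norm_num) (by norm_num)
    (by norm_num) (by norm_num) (by norm_num) (by norm_num) (by norm_num) (by norm_num)
    (by norm_num) (by norm_num) (by norm_num) (by norm_num) (by norm_num) (by norm_num)
    (by norm_num) (by norm_num) (by norm_num) (by norm_num) (by norm_num)
  have q8 : Pt (Real.arccos (69 / 100)) (69 / 100) := Pt_arccos (by norm_num) (by norm_num)
  have k8 := hor_gain hΦ (x := (6639 / 10000)) (x' := (849 / 2500)) q8 q7 p
    (by norm_num) (4949 / 10000) (1201 / 1000) (132 / 125) (7847 / 10000) (7557 / 10000) (171 / 1000) (1701 / 10000) (4743 / 10000) (76 / 625) (501 / 100000)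
    (by norm_num) (by norm_num) (by norm_num) (by norm_num) (by norm_num) (by norm_num)
    (by norm_num) (by norm_num) (by norm_num) (by norm_num) (by norm_num) (by norm_num)
    (by norm_num) (by norm_num) (by norm_num) (by norm_num) (by norm_num) (by norm_num)
    (by norm_num) (by norm_num) (by norm_num) (by norm_num) (by norm_num)
  have q9 : Pt (Real.arccos (18 / 25)) (18 / 25) := Pt_arccos (by norm_num) (by norm_num)
  have k9 := hor_gain hΦ (x := (6639 / 10000)) (x' := (849 / 2500)) q9 q8 p
    (by norm_num) (2497 / 5000) (1201 / 1000) (132 / 125) (7847 / 10000) (7239 / 10000) (161 / 1000) (1603 / 10000) (1039 / 2000) (1193 / 10000) (211 / 50000)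
    (by norm_num) (by norm_num) (by norm_num) (by norm_num) (by norm_num) (by norm_num)
    (by norm_num) (by norm_num) (by norm_num) (by norm_num) (by norm_num) (by norm_num)
    (by norm_num) (by norm_num) (by norm_num) (by norm_num) (by norm_num) (by norm_num)
    (by norm_num) (by norm_num) (by norm_num) (by norm_num) (by norm_num)
  linarith

/-- The corner pn, (.94, .2). -/
theorem gpn9 (hΦ : IsPhi Φ) (h0 : Φ 0 0 = c00) : 36 / 625 ≤
    gT Φ (Real.arccos (18 / 25)) (Real.arccos (31 / 50)) (6981 / 10000) (2773 / 10000) := by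
  have p : Pt (Real.arccos (31 / 50)) (31 / 50) := Pt_arccos (by norm_num) (by norm_num)
  have k0 : 0 ≤ gT Φ (Real.arccos (31 / 50)) (Real.arccos (31 / 50)) (123 / 200) (123 / 200) :=
    gT_nonneg hΦ h0 p (by norm_num) (by norm_num)
  have k1 := leg_c' hΦ p (xa := (531 / 1000)) (xb := (123 / 200)) (x' := (123 / 200))
    (33 / 100) (11 / 125) (209 / 100) (1 / 500) (587 / 500) (1 / 125)
    (by norm_num) (by norm_num) (by norm_num) (by norm_num) (by norm_num) (by norm_num)
    (by norm_num) (by norm_num) (by norm_num) (by norm_num) (by norm_num) (by norm_num)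
    (by norm_num) (by rw [Dtc]; norm_num) (by rw [Dtc]; norm_num) (by rw [Dtc]; norm_num)
    (by norm_num)
  have k2 := leg_c' hΦ p (xa := (223 / 500)) (xb := (531 / 1000)) (x' := (123 / 200))
    (6 / 25) (133 / 500) (31 / 20) (23 / 1000) (1133 / 1000) (317 / 20000)
    (by norm_num) (by norm_num) (by norm_num) (by norm_num) (by norm_num) (by norm_num)
    (by norm_num) (by norm_num) (by norm_num) (by norm_num) (by norm_num) (by norm_num)
    (by norm_num) (by rw [Dtc]; norm_num) (by rw [Dtc]; norm_num) (by rw [Dtc]; norm_num)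
    (by norm_num)
  have k3 := leg_c' hΦ p (xa := (181 / 500)) (xb := (223 / 500)) (x' := (123 / 200))
    (4 / 25) (401 / 1000) (3 / 2) (51 / 1000) (219 / 200) (453 / 20000)
    (by norm_num) (by norm_num) (by norm_num) (by norm_num) (by norm_num) (by norm_num)
    (by norm_num) (by norm_num) (by norm_num) (by norm_num) (by norm_num) (by norm_num)
    (by norm_num) (by rw [Dtc]; norm_num) (by rw [Dtc]; norm_num) (by rw [Dtc]; norm_num)
    (by norm_num)
  have k4 := leg_c' hΦ p (xa := (2773 / 10000)) (xb := (181 / 500)) (x' := (123 / 200))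
    (1 / 10) (533 / 1000) (141 / 100) (87 / 1000) (133 / 125) (3003 / 100000)
    (by norm_num) (by norm_num) (by norm_num) (by norm_num) (by norm_num) (by norm_num)
    (by norm_num) (by norm_num) (by norm_num) (by norm_num) (by norm_num) (by norm_num)
    (by norm_num) (by rw [Dtc]; norm_num) (by rw [Dtc]; norm_num) (by rw [Dtc]; norm_num)
    (by norm_num)
  have k5 := upper_leg hΦ p (xa := (123 / 200)) (xb := (643 / 1000)) (x' := (2773 / 10000))
    (781 / 1000) (701 / 1000) (2049 / 10000) (4051 / 10000) (1173 / 1000) (1189 / 1000) (519 / 500) (157 / 200) (1187 / 100000)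
    (by norm_num) (by norm_num) (by norm_num) (by norm_num) (by norm_num) (by norm_num)
    (by norm_num) (by norm_num) (by norm_num) (by norm_num) (by norm_num) (by norm_num)
    (by norm_num) (by norm_num) (by norm_num) (by norm_num) (by norm_num) (by norm_num)
    (by norm_num) (by norm_num) (by norm_num) (by norm_num) (by norm_num) (by norm_num)
  have k6 := upper_leg hΦ p (xa := (643 / 1000)) (xb := (67 / 100)) (x' := (2773 / 10000))
    (771 / 1000) (347 / 500) (921 / 5000) (1027 / 2500) (297 / 250) (301 / 250) (519 / 500) (157 / 200) (279 / 25000)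
    (by norm_num) (by norm_num) (by norm_num) (by norm_num) (by norm_num) (by norm_num)
    (by norm_num) (by norm_num) (by norm_num) (by norm_num) (by norm_num) (by norm_num)
    (by norm_num) (by norm_num) (by norm_num) (by norm_num) (by norm_num) (by norm_num)
    (by norm_num) (by norm_num) (by norm_num) (by norm_num) (by norm_num) (by norm_num)
  have k7 := upper_leg hΦ p (xa := (67 / 100)) (xb := (6981 / 10000)) (x' := (2773 / 10000))
    (191 / 250) (689 / 1000) (827 / 5000) (1041 / 2500) (1203 / 1000) (61 / 50) (519 / 500) (157 / 200) (1137 / 100000)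
    (by norm_num) (by norm_num) (by norm_num) (by norm_num) (by norm_num) (by norm_num)
    (by norm_num) (by norm_num) (by norm_num) (by norm_num) (by norm_num) (by norm_num)
    (by norm_num) (by norm_num) (by norm_num) (by norm_num) (by norm_num) (by norm_num)
    (by norm_num) (by norm_num) (by norm_num) (by norm_num) (by norm_num) (by norm_num)
  have q8 : Pt (Real.arccos (131 / 200)) (131 / 200) := Pt_arccos (by norm_num) (by norm_num)
  have k8 := hor_gain hΦ (x := (6981 / 10000)) (x' := (2773 / 10000)) q8 p p
    (by norm_num) (304 / 625) (61 / 50) (1037 / 1000) (7847 / 10000) (7847 / 10000) (39 / 200) (1937 / 10000) (4673 / 10000) (139 / 1000) (549 / 100000)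
    (by norm_num) (by norm_num) (by norm_num) (by norm_num) (by norm_num) (by norm_num)
    (by norm_num) (by norm_num) (by norm_num) (by norm_num) (by norm_num) (by norm_num)
    (by norm_num) (by norm_num) (by norm_num) (by norm_num) (by norm_num) (by norm_num)
    (by norm_num) (by norm_num) (by norm_num) (by norm_num) (by norm_num)
  have q9 : Pt (Real.arccos (69 / 100)) (69 / 100) := Pt_arccos (by norm_num) (by norm_num)
  have k9 := hor_gain hΦ (x := (6981 / 10000)) (x' := (2773 / 10000)) q9 q8 p
    (by norm_num) (4949 / 10000) (61 / 50) (1037 / 1000) (7847 / 10000) (7557 / 10000) (37 / 200) (1839 / 10000) (5159 / 10000) (1379 / 10000) (271 / 50000)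
    (by norm_num) (by norm_num) (by norm_num) (by norm_num) (by norm_num) (by norm_num)
    (by norm_num) (by norm_num) (by norm_num) (by norm_num) (by norm_num) (by norm_num)
    (by norm_num) (by norm_num) (by norm_num) (by norm_num) (by norm_num) (by norm_num)
    (by norm_num) (by norm_num) (by norm_num) (by norm_num) (by norm_num)
  have q10 : Pt (Real.arccos (18 / 25)) (18 / 25) := Pt_arccos (by norm_num) (by norm_num)
  have k10 := hor_gain hΦ (x := (6981 / 10000)) (x' := (2773 / 10000)) q10 q9 p
    (by norm_num) (2497 / 5000) (61 / 50) (1037 / 1000) (7847 / 10000) (7239 / 10000) (22 / 125) (7 / 40) (1389 / 2500) (1349 / 10000) (461 / 100000)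
    (by norm_num) (by norm_num) (by norm_num) (by norm_num) (by norm_num) (by norm_num)
    (by norm_num) (by norm_num) (by norm_num) (by norm_num) (by norm_num) (by norm_num)
    (by norm_num) (by norm_num) (by norm_num) (by norm_num) (by norm_num) (by norm_num)
    (by norm_num) (by norm_num) (by norm_num) (by norm_num) (by norm_num)
  linarith

end

end Pool.Agent.S3.TT
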