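import Pool.Agent.S3.Es20

/-!
# Open-open edges next to an inner vertex of multiplicity two: corners for two test points (Es23)
-/

set_option autoImplicit false

namespace Pool.Agent.S3.TT

section

variable {Φ : ℂ → ℂ → ℂ}

/-- The corner pn, (1, .1). -/
theorem gpn10 (hΦ : IsPhi Φ) (h0 : Φ 0 0 = c00) : 767 / 10000 ≤
    gT Φ (Real.arccos (18 / 25)) (Real.arccos (31 / 50)) (18 / 25) (1961 / 10000) := by
  have p : Pt (Real.arccos (31 / 50)) (31 / 50) := Pt_arccos (by norm_num) (by norm_num)
  have k0 : 0 ≤ gT Φ (Real.arccos (31 / 50)) (Real.arccos (31 / 50)) (61 / 100) (61 / 100) :=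
    gT_nonneg hΦ h0 p (by norm_num) (by norm_num)
  have k1 := leg_c' hΦ p (xa := (59 / 125)) (xb := (61 / 100)) (x' := (61 / 100))
    (29 / 100) (103 / 1000) (46 / 25) (3 / 1000) (293 / 250) (1723 / 100000)
    (by norm_num) (by norm_num) (by norm_num) (by norm_num) (by norm_num) (by norm_num)
    (by norm_num) (by norm_num) (by norm_num) (by norm_num) (by norm_num) (by norm_num)
    (by norm_num) (by rw [Dtc]; norm_num) (by rw [Dtc]; norm_num) (by rw [Dtc]; norm_num)
    (by norm_num)
  have k2 := leg_c' hΦ p (xa := (167 / 500)) (xb := (59 / 125)) (x' := (61 / 100))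
    (4 / 25) (71 / 200) (37 / 25) (1 / 25) (553 / 500) (363 / 10000)
    (by norm_num) (by norm_num) (by norm_num) (by norm_num) (by norm_num) (by norm_num)
    (by norm_num) (by norm_num) (by norm_num) (by norm_num) (by norm_num) (by norm_num)
    (by norm_num) (by rw [Dtc]; norm_num) (by rw [Dtc]; norm_num) (by rw [Dtc]; norm_num)
    (by norm_num)
  have k3 := leg_c' hΦ p (xa := (1961 / 10000)) (xb := (167 / 500)) (x' := (61 / 100))
    (7 / 100) (573 / 1000) (13 / 10) (99 / 1000) (211 / 200) (5513 / 100000)
    (by norm_num) (by norm_num) (by norm_num) (by norm_num) (by norm_num) (by norm_num)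
    (by norm_num) (by norm_num) (by norm_num) (by norm_num) (by norm_num) (by norm_num)
    (by norm_num) (by rw [Dtc]; norm_num) (by rw [Dtc]; norm_num) (by rw [Dtc]; norm_num)
    (by norm_num)
  have k4 := upper_leg hΦ p (xa := (61 / 100)) (xb := (133 / 200)) (x' := (1961 / 10000))
    (87 / 100) (19 / 25) (327 / 1250) (4589 / 10000) (1171 / 1000) (1201 / 1000) (51 / 50) (157 / 200) (1301 / 50000)
    (by norm_num) (by norm_num) (by norm_num) (by norm_num) (by norm_num) (by norm_num)
    (by norm_num) (by norm_num) (by norm_num) (by norm_num) (by norm_num) (by norm_num)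
    (by norm_num) (by norm_num) (by norm_num) (by norm_num) (by norm_num) (by norm_num)
    (by norm_num) (by norm_num) (by norm_num) (by norm_num) (by norm_num) (by norm_num)
  have k5 := upper_leg hΦ p (xa := (133 / 200)) (xb := (18 / 25)) (x' := (1961 / 10000))
    (851 / 1000) (187 / 250) (1119 / 5000) (4689 / 10000) (6 / 5) (1233 / 1000) (51 / 50) (157 / 200) (621 / 25000)
    (by norm_num) (by norm_num) (by norm_num) (by norm_num) (by norm_num) (by norm_num)
    (by norm_num) (by norm_num) (by norm_num) (by norm_num) (by norm_num) (by norm_num)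
    (by norm_num) (by norm_num) (by norm_num) (by norm_num) (by norm_num) (by norm_num)
    (by norm_num) (by norm_num) (by norm_num) (by norm_num) (by norm_num) (by norm_num)
  have q6 : Pt (Real.arccos (131 / 200)) (131 / 200) := Pt_arccos (by norm_num) (by norm_num)
  have k6 := hor_gain hΦ (x := (18 / 25)) (x' := (1961 / 10000)) q6 p p
    (by norm_num) (304 / 625) (1233 / 1000) (1019 / 1000) (7847 / 10000) (7847 / 10000) (119 / 500) (2357 / 10000) (2569 / 5000) (1801 / 10000) (669 / 100000)
    (by norm_num) (by norm_num) (by norm_num) (by norm_num) (by norm_num) (by norm_num)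
    (by norm_num) (by norm_num) (by norm_num) (by norm_num) (by norm_num) (by norm_num)
    (by norm_num) (by norm_num) (by norm_num) (by norm_num) (by norm_num) (by norm_num)
    (by norm_num) (by norm_num) (by norm_num) (by norm_num) (by norm_num)
  have q7 : Pt (Real.arccos (69 / 100)) (69 / 100) := Pt_arccos (by norm_num) (by norm_num)
  have k7 := hor_gain hΦ (x := (18 / 25)) (x' := (1961 / 10000)) q7 q6 p
    (by norm_num) (4949 / 10000) (1233 / 1000) (1019 / 1000) (7847 / 10000) (7557 / 10000) (113 / 500) (28 / 125) (5569 / 10000) (177 / 1000) (33 / 5000)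
    (by norm_num) (by norm_num) (by norm_num) (by norm_num) (by norm_num) (by norm_num)
    (by norm_num) (by norm_num) (by norm_num) (by norm_num) (by norm_num) (by norm_num)
    (by norm_num) (by norm_num) (by norm_num) (by norm_num) (by norm_num) (by norm_num)
    (by norm_num) (by norm_num) (by norm_num) (by norm_num) (by norm_num)
  have q8 : Pt (Real.arccos (18 / 25)) (18 / 25) := Pt_arccos (by norm_num) (by norm_num)
  have k8 := hor_gain hΦ (x := (18 / 25)) (x' := (1961 / 10000)) q8 q7 p
    (by norm_num) (2497 / 5000) (1233 / 1000) (1019 / 1000) (7847 / 10000) (7239 / 10000) (43 / 200) (2133 / 10000) (2961 / 5000) (69 / 400) (281 / 50000)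
    (by norm_num) (by norm_num) (by norm_num) (by norm_num) (by norm_num) (by norm_num)
    (by norm_num) (by norm_num) (by norm_num) (by norm_num) (by norm_num) (by norm_num)
    (by norm_num) (by norm_num) (by norm_num) (by norm_num) (by norm_num) (by norm_num)
    (by norm_num) (by norm_num) (by norm_num) (by norm_num) (by norm_num)
  linarith

/-- The corner pn, (.6, .65). -/
theorem gpn11 (hΦ : IsPhi Φ) (h0 : Φ 0 0 = c00) : 57 / 1250 ≤
    gT Φ (Real.arccos (18 / 25)) (Real.arccos (31 / 50)) (2789 / 5000) (4999 / 10000) := by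
  have p : Pt (Real.arccos (31 / 50)) (31 / 50) := Pt_arccos (by norm_num) (by norm_num)
  have k0 : 0 ≤ gT Φ (Real.arccos (31 / 50)) (Real.arccos (31 / 50)) (123 / 200) (123 / 200) :=
    gT_nonneg hΦ h0 p (by norm_num) (by norm_num)
  have k1 := leg_c hΦ p (xa := (293 / 500)) (xb := (123 / 200)) (x' := (123 / 200))
    (9 / 25) (103 / 1000) (241 / 100) (3 / 1000) (587 / 500) (27 / 12500)
    (by norm_num) (by norm_num) (by norm_num) (by norm_num) (by norm_num) (by norm_num)
    (by norm_num) (by norm_num) (by norm_num) (by norm_num) (by norm_num) (by norm_num)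
    (by norm_num) (by rw [Dtc]; norm_num) (by rw [Dtc]; norm_num) (by rw [Dtc]; norm_num)
    (by norm_num)
  have k2 := leg_c hΦ p (xa := (2789 / 5000)) (xb := (293 / 500)) (x' := (123 / 200))
    (8 / 25) (43 / 250) (39 / 20) (9 / 1000) (29 / 25) (77 / 25000)
    (by norm_num) (by norm_num) (by norm_num) (by norm_num) (by norm_num) (by norm_num)
    (by norm_num) (by norm_num) (by norm_num) (by norm_num) (by norm_num) (by norm_num)
    (by norm_num) (by rw [Dtc]; norm_num) (by rw [Dtc]; norm_num) (by rw [Dtc]; norm_num)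
    (by norm_num)
  have k3 := leg_c' hΦ p (xa := (293 / 500)) (xb := (123 / 200)) (x' := (2789 / 5000))
    (9 / 25) (161 / 500) (93 / 100) (33 / 1000) (587 / 500) (527 / 100000)
    (by norm_num) (by norm_num) (by norm_num) (by norm_num) (by norm_num) (by norm_num)
    (by norm_num) (by norm_num) (by norm_num) (by norm_num) (by norm_num) (by norm_num)
    (by norm_num) (by rw [Dtc]; norm_num) (by rw [Dtc]; norm_num) (by rw [Dtc]; norm_num)
    (by norm_num)
  have k4 := leg_c' hΦ p (xa := (557 / 1000)) (xb := (293 / 500)) (x' := (2789 / 5000))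
    (8 / 25) (7 / 20) 1 (39 / 1000) (29 / 25) (29 / 5000)
    (by norm_num) (by norm_num) (by norm_num) (by norm_num) (by norm_num) (by norm_num)
    (by norm_num) (by norm_num) (by norm_num) (by norm_num) (by norm_num) (by norm_num)
    (by norm_num) (by rw [Dtc]; norm_num) (by rw [Dtc]; norm_num) (by rw [Dtc]; norm_num)
    (by norm_num)
  have k5 := leg_c' hΦ p (xa := (529 / 1000)) (xb := (557 / 1000)) (x' := (2789 / 5000))
    (29 / 100) (379 / 1000) (103 / 100) (9 / 200) (229 / 200) (153 / 25000)
    (by norm_num) (by norm_num) (by norm_num) (by norm_num) (by norm_num) (by norm_num)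
    (by norm_num) (by norm_num) (by norm_num) (by norm_num) (by norm_num) (by norm_num)
    (by norm_num) (by rw [Dtc]; norm_num) (by rw [Dtc]; norm_num) (by rw [Dtc]; norm_num)
    (by norm_num)
  have k6 := leg_c' hΦ p (xa := (4999 / 10000)) (xb := (529 / 1000)) (x' := (2789 / 5000))
    (13 / 50) (409 / 1000) (53 / 50) (53 / 1000) (283 / 250) (347 / 50000)
    (by norm_num) (by norm_num) (by norm_num) (by norm_num) (by norm_num) (by norm_num)
    (by norm_num) (by norm_num) (by norm_num) (by norm_num) (by norm_num) (by norm_num)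
    (by norm_num) (by rw [Dtc]; norm_num) (by rw [Dtc]; norm_num) (by rw [Dtc]; norm_num)
    (by norm_num)
  have q7 : Pt (Real.arccos (131 / 200)) (131 / 200) := Pt_arccos (by norm_num) (by norm_num)
  have k7 := hor_gain hΦ (x := (2789 / 5000)) (x' := (4999 / 10000)) q7 p p
    (by norm_num) (304 / 625) (573 / 500) (1117 / 1000) (7847 / 10000) (7847 / 10000) (43 / 200) (2133 / 10000) (2441 / 10000) (1163 / 10000) (121 / 20000)
    (by norm_num) (by norm_num) (by norm_num) (by norm_num) (by norm_num) (by norm_num)
    (by norm_num) (by norm_num) (by norm_num) (by norm_num) (by norm_num) (by norm_num)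
    (by norm_num) (by norm_num) (by norm_num) (by norm_num) (by norm_num) (by norm_num)
    (by norm_num) (by norm_num) (by norm_num) (by norm_num) (by norm_num)
  have q8 : Pt (Real.arccos (69 / 100)) (69 / 100) := Pt_arccos (by norm_num) (by norm_num)
  have k8 := hor_gain hΦ (x := (2789 / 5000)) (x' := (4999 / 10000)) q8 q7 p
    (by norm_num) (4949 / 10000) (573 / 500) (1117 / 1000) (7847 / 10000) (7557 / 10000) (193 / 1000) (959 / 5000) (409 / 1250) (73 / 625) (113 / 20000)
    (by norm_num) (by norm_num) (by norm_num) (by norm_num) (by norm_num) (by norm_num)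
    (by norm_num) (by norm_num) (by norm_num) (by norm_num) (by norm_num) (by norm_num)
    (by norm_num) (by norm_num) (by norm_num) (by norm_num) (by norm_num) (by norm_num)
    (by norm_num) (by norm_num) (by norm_num) (by norm_num) (by norm_num)
  have q9 : Pt (Real.arccos (18 / 25)) (18 / 25) := Pt_arccos (by norm_num) (by norm_num)
  have k9 := hor_gain hΦ (x := (2789 / 5000)) (x' := (4999 / 10000)) q9 q8 p
    (by norm_num) (2497 / 5000) (573 / 500) (1117 / 1000) (7847 / 10000) (7239 / 10000) (7 / 40) (1741 / 10000) (3939 / 10000) (573 / 5000) (459 / 100000)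
    (by norm_num) (by norm_num) (by norm_num) (by norm_num) (by norm_num) (by norm_num)
    (by norm_num) (by norm_num) (by norm_num) (by norm_num) (by norm_num) (by norm_num)
    (by norm_num) (by norm_num) (by norm_num) (by norm_num) (by norm_num) (by norm_num)
    (by norm_num) (by norm_num) (by norm_num) (by norm_num) (by norm_num)
  linarith

/-- The corner pn, (.55, .67). -/
theorem gpn12 (hΦ : IsPhi Φ) (h0 : Φ 0 0 = c00) : 523 / 10000 ≤
    gT Φ (Real.arccos (18 / 25)) (Real.arccos (31 / 50)) (267 / 500) (203 / 400) := by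
  have p : Pt (Real.arccos (31 / 50)) (31 / 50) := Pt_arccos (by norm_num) (by norm_num)
  have k0 : 0 ≤ gT Φ (Real.arccos (31 / 50)) (Real.arccos (31 / 50)) (123 / 200) (123 / 200) :=
    gT_nonneg hΦ h0 p (by norm_num) (by norm_num)
  have k1 := leg_c hΦ p (xa := (147 / 250)) (xb := (123 / 200)) (x' := (123 / 200))
    (9 / 25) (103 / 1000) (62 / 25) (3 / 1000) (587 / 500) (199 / 100000)
    (by norm_num) (by norm_num) (by norm_num) (by norm_num) (by norm_num) (by norm_num)
    (by norm_num) (by norm_num) (by norm_num) (by norm_num) (by norm_num) (by norm_num)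
    (by norm_num) (by rw [Dtc]; norm_num) (by rw [Dtc]; norm_num) (by rw [Dtc]; norm_num)
    (by norm_num)
  have k2 := leg_c hΦ p (xa := (561 / 1000)) (xb := (147 / 250)) (x' := (123 / 200))
    (33 / 100) (17 / 100) (47 / 25) (9 / 1000) (1161 / 1000) (289 / 100000)
    (by norm_num) (by norm_num) (by norm_num) (by norm_num) (by norm_num) (by norm_num)
    (by norm_num) (by norm_num) (by norm_num) (by norm_num) (by norm_num) (by norm_num)
    (by norm_num) (by rw [Dtc]; norm_num) (by rw [Dtc]; norm_num) (by rw [Dtc]; norm_num)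
    (by norm_num)
  have k3 := leg_c hΦ p (xa := (267 / 500)) (xb := (561 / 1000)) (x' := (123 / 200))
    (29 / 100) (11 / 50) (177 / 100) (3 / 200) (1147 / 1000) (73 / 20000)
    (by norm_num) (by norm_num) (by norm_num) (by norm_num) (by norm_num) (by norm_num)
    (by norm_num) (by norm_num) (by norm_num) (by norm_num) (by norm_num) (by norm_num)
    (by norm_num) (by rw [Dtc]; norm_num) (by rw [Dtc]; norm_num) (by rw [Dtc]; norm_num)
    (by norm_num)
  have k4 := leg_c' hΦ p (xa := (579 / 1000)) (xb := (123 / 200)) (x' := (267 / 500))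
    (7 / 20) (189 / 500) (4 / 5) (9 / 200) (587 / 500) (383 / 50000)
    (by norm_num) (by norm_num) (by norm_num) (by norm_num) (by norm_num) (by norm_num)
    (by norm_num) (by norm_num) (by norm_num) (by norm_num) (by norm_num) (by norm_num)
    (by norm_num) (by rw [Dtc]; norm_num) (by rw [Dtc]; norm_num) (by rw [Dtc]; norm_num)
    (by norm_num)
  have k5 := leg_c' hΦ p (xa := (543 / 1000)) (xb := (579 / 1000)) (x' := (267 / 500))
    (31 / 100) (407 / 1000) (22 / 25) (13 / 250) (289 / 250) (419 / 50000)
    (by norm_num) (by norm_num) (by norm_num) (by norm_num) (by norm_num) (by norm_num)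
    (by norm_num) (by norm_num) (by norm_num) (by norm_num) (by norm_num) (by norm_num)
    (by norm_num) (by rw [Dtc]; norm_num) (by rw [Dtc]; norm_num) (by rw [Dtc]; norm_num)
    (by norm_num)
  have k6 := leg_c' hΦ p (xa := (203 / 400)) (xb := (543 / 1000)) (x' := (267 / 500))
    (27 / 100) (439 / 1000) (19 / 20) (3 / 50) (569 / 500) (181 / 20000)
    (by norm_num) (by norm_num) (by norm_num) (by norm_num) (by norm_num) (by norm_num)
    (by norm_num) (by norm_num) (by norm_num) (by norm_num) (by norm_num) (by norm_num)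
    (by norm_num) (by rw [Dtc]; norm_num) (by rw [Dtc]; norm_num) (by rw [Dtc]; norm_num)
    (by norm_num)
  have q7 : Pt (Real.arccos (131 / 200)) (131 / 200) := Pt_arccos (by norm_num) (by norm_num)
  have k7 := hor_gain hΦ (x := (267 / 500)) (x' := (203 / 400)) q7 p p
    (by norm_num) (304 / 625) (567 / 500) (1121 / 1000) (7847 / 10000) (7847 / 10000) (1 / 4) (2473 / 10000) (461 / 2000) (339 / 2500) (351 / 50000)
    (by norm_num) (by norm_num) (by norm_num) (by norm_num) (by norm_num) (by norm_num)
    (by norm_num) (by norm_num) (by norm_num) (by norm_num) (by norm_num) (by norm_num)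
    (by norm_num) (by norm_num) (by norm_num) (by norm_num) (by norm_num) (by norm_num)
    (by norm_num) (by norm_num) (by norm_num) (by norm_num) (by norm_num)
  have q8 : Pt (Real.arccos (69 / 100)) (69 / 100) := Pt_arccos (by norm_num) (by norm_num)
  have k8 := hor_gain hΦ (x := (267 / 500)) (x' := (203 / 400)) q8 q7 p
    (by norm_num) (4949 / 10000) (567 / 500) (1121 / 1000) (7847 / 10000) (7557 / 10000) (111 / 500) (2201 / 10000) (1589 / 5000) (27 / 200) (81 / 12500)
    (by norm_num) (by norm_num) (by norm_num) (by norm_num) (by norm_num) (by norm_num)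
    (by norm_num) (by norm_num) (by norm_num) (by norm_num) (by norm_num) (by norm_num)
    (by norm_num) (by norm_num) (by norm_num) (by norm_num) (by norm_num) (by norm_num)
    (by norm_num) (by norm_num) (by norm_num) (by norm_num) (by norm_num)
  have q9 : Pt (Real.arccos (18 / 25)) (18 / 25) := Pt_arccos (by norm_num) (by norm_num)
  have k9 := hor_gain hΦ (x := (267 / 500)) (x' := (203 / 400)) q9 q8 p
    (by norm_num) (2497 / 5000) (567 / 500) (1121 / 1000) (7847 / 10000) (7239 / 10000) (201 / 1000) (499 / 2500) (31 / 80) (659 / 5000) (263 / 50000)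
    (by norm_num) (by norm_num) (by norm_num) (by norm_num) (by norm_num) (by norm_num)
    (by norm_num) (by norm_num) (by norm_num) (by norm_num) (by norm_num) (by norm_num)
    (by norm_num) (by norm_num) (by norm_num) (by norm_num) (by norm_num) (by norm_num)
    (by norm_num) (by norm_num) (by norm_num) (by norm_num) (by norm_num)
  linarith

/-- The corner pn, (.5, .67). -/
theorem gpn13 (hΦ : IsPhi Φ) (h0 : Φ 0 0 = c00) : 611 / 10000 ≤
    gT Φ (Real.arccos (18 / 25)) (Real.arccos (31 / 50)) (1273 / 2500) (203 / 400) := by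
  have p : Pt (Real.arccos (31 / 50)) (31 / 50) := Pt_arccos (by norm_num) (by norm_num)
  have k0 : 0 ≤ gT Φ (Real.arccos (31 / 50)) (Real.arccos (31 / 50)) (61 / 100) (61 / 100) :=
    gT_nonneg hΦ h0 p (by norm_num) (by norm_num)
  have k1 := leg_c hΦ p (xa := (14 / 25)) (xb := (61 / 100)) (x' := (61 / 100))
    (17 / 50) (18 / 125) (47 / 25) (3 / 500) (293 / 250) (259 / 50000)
    (by norm_num) (by norm_num) (by norm_num) (by norm_num) (by norm_num) (by norm_num)
    (by norm_num) (by norm_num) (by norm_num) (by norm_num) (by norm_num) (by norm_num)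
    (by norm_num) (by rw [Dtc]; norm_num) (by rw [Dtc]; norm_num) (by rw [Dtc]; norm_num)
    (by norm_num)
  have k2 := leg_c hΦ p (xa := (1273 / 2500)) (xb := (14 / 25)) (x' := (61 / 100))
    (7 / 25) (237 / 1000) (161 / 100) (9 / 500) (1147 / 1000) (783 / 100000)
    (by norm_num) (by norm_num) (by norm_num) (by norm_num) (by norm_num) (by norm_num)
    (by norm_num) (by norm_num) (by norm_num) (by norm_num) (by norm_num) (by norm_num)
    (by norm_num) (by rw [Dtc]; norm_num) (by rw [Dtc]; norm_num) (by rw [Dtc]; norm_num)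
    (by norm_num)
  have k3 := leg_c' hΦ p (xa := (72 / 125)) (xb := (61 / 100)) (x' := (1273 / 2500))
    (7 / 20) (433 / 1000) (67 / 100) (59 / 1000) (293 / 250) (41 / 5000)
    (by norm_num) (by norm_num) (by norm_num) (by norm_num) (by norm_num) (by norm_num)
    (by norm_num) (by norm_num) (by norm_num) (by norm_num) (by norm_num) (by norm_num)
    (by norm_num) (by rw [Dtc]; norm_num) (by rw [Dtc]; norm_num) (by rw [Dtc]; norm_num)
    (by norm_num)
  have k4 := leg_c' hΦ p (xa := (271 / 500)) (xb := (72 / 125)) (x' := (1273 / 2500))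
    (31 / 100) (457 / 1000) (19 / 25) (13 / 200) (231 / 200) (11 / 1250)
    (by norm_num) (by norm_num) (by norm_num) (by norm_num) (by norm_num) (by norm_num)
    (by norm_num) (by norm_num) (by norm_num) (by norm_num) (by norm_num) (by norm_num)
    (by norm_num) (by rw [Dtc]; norm_num) (by rw [Dtc]; norm_num) (by rw [Dtc]; norm_num)
    (by norm_num)
  have k5 := leg_c' hΦ p (xa := (203 / 400)) (xb := (271 / 500)) (x' := (1273 / 2500))
    (27 / 100) (121 / 250) (21 / 25) (73 / 1000) (569 / 500) (481 / 50000)
    (by norm_num) (by norm_num) (by norm_num) (by norm_num) (by norm_num) (by norm_num)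
    (by norm_num) (by norm_num) (by norm_num) (by norm_num) (by norm_num) (by norm_num)
    (by norm_num) (by rw [Dtc]; norm_num) (by rw [Dtc]; norm_num) (by rw [Dtc]; norm_num)
    (by norm_num)
  have q6 : Pt (Real.arccos (131 / 200)) (131 / 200) := Pt_arccos (by norm_num) (by norm_num)
  have k6 := hor_gain hΦ (x := (1273 / 2500)) (x' := (203 / 400)) q6 p p
    (by norm_num) (304 / 625) (1123 / 1000) (1121 / 1000) (7847 / 10000) (7847 / 10000) (36 / 125) (71 / 250) (2257 / 10000) (801 / 5000) (403 / 50000)
    (by norm_num) (by norm_num) (by norm_num) (by norm_num) (by norm_num) (by norm_num)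
    (by norm_num) (by norm_num) (by norm_num) (by norm_num) (by norm_num) (by norm_num)
    (by norm_num) (by norm_num) (by norm_num) (by norm_num) (by norm_num) (by norm_num)
    (by norm_num) (by norm_num) (by norm_num) (by norm_num) (by norm_num)
  have q7 : Pt (Real.arccos (69 / 100)) (69 / 100) := Pt_arccos (by norm_num) (by norm_num)
  have k7 := hor_gain hΦ (x := (1273 / 2500)) (x' := (203 / 400)) q7 q6 p
    (by norm_num) (4949 / 10000) (1123 / 1000) (1121 / 1000) (7847 / 10000) (7557 / 10000) (51 / 200) (1261 / 5000) (791 / 2500) (79 / 500) (743 / 100000)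
    (by norm_num) (by norm_num) (by norm_num) (by norm_num) (by norm_num) (by norm_num)
    (by norm_num) (by norm_num) (by norm_num) (by norm_num) (by norm_num) (by norm_num)
    (by norm_num) (by norm_num) (by norm_num) (by norm_num) (by norm_num) (by norm_num)
    (by norm_num) (by norm_num) (by norm_num) (by norm_num) (by norm_num)
  have q8 : Pt (Real.arccos (18 / 25)) (18 / 25) := Pt_arccos (by norm_num) (by norm_num)
  have k8 := hor_gain hΦ (x := (1273 / 2500)) (x' := (203 / 400)) q8 q7 p
    (by norm_num) (2497 / 5000) (1123 / 1000) (1121 / 1000) (7847 / 10000) (7239 / 10000) (23 / 100) (2279 / 10000) (777 / 2000) (767 / 5000) (601 / 100000)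
    (by norm_num) (by norm_num) (by norm_num) (by norm_num) (by norm_num) (by norm_num)
    (by norm_num) (by norm_num) (by norm_num) (by norm_num) (by norm_num) (by norm_num)
    (by norm_num) (by norm_num) (by norm_num) (by norm_num) (by norm_num) (by norm_num)
    (by norm_num) (by norm_num) (by norm_num) (by norm_num) (by norm_num)
  linarith

/-- The corner pn, (.5, .69). -/
theorem gpn14 (hΦ : IsPhi Φ) (h0 : Φ 0 0 = c00) : 303 / 5000 ≤
    gT Φ (Real.arccos (18 / 25)) (Real.arccos (31 / 50)) (1273 / 2500) (5151 / 10000) := by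
  have p : Pt (Real.arccos (31 / 50)) (31 / 50) := Pt_arccos (by norm_num) (by norm_num)
  have k0 : 0 ≤ gT Φ (Real.arccos (31 / 50)) (Real.arccos (31 / 50)) (123 / 200) (123 / 200) :=
    gT_nonneg hΦ h0 p (by norm_num) (by norm_num)
  have k1 := leg_c hΦ p (xa := (589 / 1000)) (xb := (123 / 200)) (x' := (123 / 200))
    (9 / 25) (103 / 1000) (5 / 2) (3 / 1000) (587 / 500) (191 / 100000)
    (by norm_num) (by norm_num) (by norm_num) (by norm_num) (by norm_num) (by norm_num)
    (by norm_num) (by norm_num) (by norm_num) (by norm_num) (by norm_num) (by norm_num)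
    (by norm_num) (by rw [Dtc]; norm_num) (by rw [Dtc]; norm_num) (by rw [Dtc]; norm_num)
    (by norm_num)
  have k2 := leg_c hΦ p (xa := (281 / 500)) (xb := (589 / 1000)) (x' := (123 / 200))
    (33 / 100) (167 / 1000) (49 / 25) (9 / 1000) (1161 / 1000) (143 / 50000)
    (by norm_num) (by norm_num) (by norm_num) (by norm_num) (by norm_num) (by norm_num)
    (by norm_num) (by norm_num) (by norm_num) (by norm_num) (by norm_num) (by norm_num)
    (by norm_num) (by rw [Dtc]; norm_num) (by rw [Dtc]; norm_num) (by rw [Dtc]; norm_num)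
    (by norm_num)
  have k3 := leg_c hΦ p (xa := (67 / 125)) (xb := (281 / 500)) (x' := (123 / 200))
    (3 / 10) (11 / 50) (173 / 100) (3 / 200) (287 / 250) (349 / 100000)
    (by norm_num) (by norm_num) (by norm_num) (by norm_num) (by norm_num) (by norm_num)
    (by norm_num) (by norm_num) (by norm_num) (by norm_num) (by norm_num) (by norm_num)
    (by norm_num) (by rw [Dtc]; norm_num) (by rw [Dtc]; norm_num) (by rw [Dtc]; norm_num)
    (by norm_num)
  have k4 := leg_c hΦ p (xa := (1273 / 2500)) (xb := (67 / 125)) (x' := (123 / 200))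
    (27 / 100) (53 / 200) (41 / 25) (11 / 500) (227 / 200) (431 / 100000)
    (by norm_num) (by norm_num) (by norm_num) (by norm_num) (by norm_num) (by norm_num)
    (by norm_num) (by norm_num) (by norm_num) (by norm_num) (by norm_num) (by norm_num)
    (by norm_num) (by rw [Dtc]; norm_num) (by rw [Dtc]; norm_num) (by rw [Dtc]; norm_num)
    (by norm_num)
  have k5 := leg_c' hΦ p (xa := (299 / 500)) (xb := (123 / 200)) (x' := (1273 / 2500))
    (9 / 25) (429 / 1000) (7 / 10) (29 / 500) (587 / 500) (1 / 250)
    (by norm_num) (by norm_num) (by norm_num) (by norm_num) (by norm_num) (by norm_num)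
    (by norm_num) (by norm_num) (by norm_num) (by norm_num) (by norm_num) (by norm_num)
    (by norm_num) (by rw [Dtc]; norm_num) (by rw [Dtc]; norm_num) (by rw [Dtc]; norm_num)
    (by norm_num)
  have k6 := leg_c' hΦ p (xa := (291 / 500)) (xb := (299 / 500)) (x' := (1273 / 2500))
    (17 / 50) (441 / 1000) (3 / 4) (61 / 1000) (583 / 500) (39 / 10000)
    (by norm_num) (by norm_num) (by norm_num) (by norm_num) (by norm_num) (by norm_num)
    (by norm_num) (by norm_num) (by norm_num) (by norm_num) (by norm_num) (by norm_num)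
    (by norm_num) (by rw [Dtc]; norm_num) (by rw [Dtc]; norm_num) (by rw [Dtc]; norm_num)
    (by norm_num)
  have k7 := leg_c' hΦ p (xa := (113 / 200)) (xb := (291 / 500)) (x' := (1273 / 2500))
    (8 / 25) (453 / 1000) (19 / 25) (8 / 125) (579 / 500) (429 / 100000)
    (by norm_num) (by norm_num) (by norm_num) (by norm_num) (by norm_num) (by norm_num)
    (by norm_num) (by norm_num) (by norm_num) (by norm_num) (by norm_num) (by norm_num)
    (by norm_num) (by rw [Dtc]; norm_num) (by rw [Dtc]; norm_num) (by rw [Dtc]; norm_num)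
    (by norm_num)
  have k8 := leg_c' hΦ p (xa := (137 / 250)) (xb := (113 / 200)) (x' := (1273 / 2500))
    (3 / 10) (233 / 500) (19 / 25) (67 / 1000) (1149 / 1000) (89 / 20000)
    (by norm_num) (by norm_num) (by norm_num) (by norm_num) (by norm_num) (by norm_num)
    (by norm_num) (by norm_num) (by norm_num) (by norm_num) (by norm_num) (by norm_num)
    (by norm_num) (by rw [Dtc]; norm_num) (by rw [Dtc]; norm_num) (by rw [Dtc]; norm_num)
    (by norm_num)
  have k9 := leg_c' hΦ p (xa := (133 / 250)) (xb := (137 / 250)) (x' := (1273 / 2500))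
    (29 / 100) (12 / 25) (81 / 100) (71 / 1000) (1141 / 1000) (217 / 50000)
    (by norm_num) (by norm_num) (by norm_num) (by norm_num) (by norm_num) (by norm_num)
    (by norm_num) (by norm_num) (by norm_num) (by norm_num) (by norm_num) (by norm_num)
    (by norm_num) (by rw [Dtc]; norm_num) (by rw [Dtc]; norm_num) (by rw [Dtc]; norm_num)
    (by norm_num)
  have k10 := leg_c' hΦ p (xa := (5151 / 10000)) (xb := (133 / 250)) (x' := (1273 / 2500))
    (27 / 100) (493 / 1000) (22 / 25) (3 / 40) (1133 / 1000) (19 / 4000)
    (by norm_num) (by norm_num) (by norm_num) (by norm_num) (by norm_num) (by norm_num)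
    (by norm_num) (by norm_num) (by norm_num) (by norm_num) (by norm_num) (by norm_num)
    (by norm_num) (by rw [Dtc]; norm_num) (by rw [Dtc]; norm_num) (by rw [Dtc]; norm_num)
    (by norm_num)
  have q11 : Pt (Real.arccos (16 / 25)) (16 / 25) := Pt_arccos (by norm_num) (by norm_num)
  have k11 := hor_gain hΦ (x := (1273 / 2500)) (x' := (5151 / 10000)) q11 p p
    (by norm_num) (304 / 625) (1123 / 1000) (281 / 250) (7847 / 10000) (7847 / 10000) (309 / 1000) (38 / 125) (1747 / 10000) (403 / 2500) (493 / 100000)
    (by norm_num) (by norm_num) (by norm_num) (by norm_num) (by norm_num) (by norm_num)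
    (by norm_num) (by norm_num) (by norm_num) (by norm_num) (by norm_num) (by norm_num)
    (by norm_num) (by norm_num) (by norm_num) (by norm_num) (by norm_num) (by norm_num)
    (by norm_num) (by norm_num) (by norm_num) (by norm_num) (by norm_num)
  have q12 : Pt (Real.arccos (33 / 50)) (33 / 50) := Pt_arccos (by norm_num) (by norm_num)
  have k12 := hor_gain hΦ (x := (1273 / 2500)) (x' := (5151 / 10000)) q12 q11 p
    (by norm_num) (4917 / 10000) (1123 / 1000) (281 / 250) (7847 / 10000) (1921 / 2500) (287 / 1000) (283 / 1000) (2299 / 10000) (401 / 2500) (117 / 25000)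
    (by norm_num) (by norm_num) (by norm_num) (by norm_num) (by norm_num) (by norm_num)
    (by norm_num) (by norm_num) (by norm_num) (by norm_num) (by norm_num) (by norm_num)
    (by norm_num) (by norm_num) (by norm_num) (by norm_num) (by norm_num) (by norm_num)
    (by norm_num) (by norm_num) (by norm_num) (by norm_num) (by norm_num)
  have q13 : Pt (Real.arccos (17 / 25)) (17 / 25) := Pt_arccos (by norm_num) (by norm_num)
  have k13 := hor_gain hΦ (x := (1273 / 2500)) (x' := (5151 / 10000)) q13 q12 p
    (by norm_num) (2479 / 5000) (1123 / 1000) (281 / 250) (7847 / 10000) (7513 / 10000) (133 / 500) (657 / 2500) (1413 / 5000) (99 / 625) (89 / 20000)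
    (by norm_num) (by norm_num) (by norm_num) (by norm_num) (by norm_num) (by norm_num)
    (by norm_num) (by norm_num) (by norm_num) (by norm_num) (by norm_num) (by norm_num)
    (by norm_num) (by norm_num) (by norm_num) (by norm_num) (by norm_num) (by norm_num)
    (by norm_num) (by norm_num) (by norm_num) (by norm_num) (by norm_num)
  have q14 : Pt (Real.arccos (7 / 10)) (7 / 10) := Pt_arccos (by norm_num) (by norm_num)
  have k14 := hor_gain hΦ (x := (1273 / 2500)) (x' := (5151 / 10000)) q14 q13 p
    (by norm_num) (997 / 2000) (1123 / 1000) (281 / 250) (7847 / 10000) (7333 / 10000) (247 / 1000) (611 / 2500) (333 / 1000) (1551 / 10000) (53 / 12500)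
    (by norm_num) (by norm_num) (by norm_num) (by norm_num) (by norm_num) (by norm_num)
    (by norm_num) (by norm_num) (by norm_num) (by norm_num) (by norm_num) (by norm_num)
    (by norm_num) (by norm_num) (by norm_num) (by norm_num) (by norm_num) (by norm_num)
    (by norm_num) (by norm_num) (by norm_num) (by norm_num) (by norm_num)
  have q15 : Pt (Real.arccos (18 / 25)) (18 / 25) := Pt_arccos (by norm_num) (by norm_num)
  have k15 := hor_gain hΦ (x := (1273 / 2500)) (x' := (5151 / 10000)) q15 q14 p
    (by norm_num) (1249 / 2500) (1123 / 1000) (281 / 250) (7847 / 10000) (3571 / 5000) (57 / 250) (113 / 500) (3811 / 10000) (94 / 625) (201 / 50000)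
    (by norm_num) (by norm_num) (by norm_num) (by norm_num) (by norm_num) (by norm_num)
    (by norm_num) (by norm_num) (by norm_num) (by norm_num) (by norm_num) (by norm_num)
    (by norm_num) (by norm_num) (by norm_num) (by norm_num) (by norm_num) (by norm_num)
    (by norm_num) (by norm_num) (by norm_num) (by norm_num) (by norm_num)
  linarith

/-- The corner pn, (.45, .715). -/
theorem gpn15 (hΦ : IsPhi Φ) (h0 : Φ 0 0 = c00) : 329 / 5000 ≤
    gT Φ (Real.arccos (18 / 25)) (Real.arccos (31 / 50)) (483 / 1000) (5243 / 10000) := by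
  have p : Pt (Real.arccos (31 / 50)) (31 / 50) := Pt_arccos (by norm_num) (by norm_num)
  have k0 : 0 ≤ gT Φ (Real.arccos (31 / 50)) (Real.arccos (31 / 50)) (61 / 100) (61 / 100) :=
    gT_nonneg hΦ h0 p (by norm_num) (by norm_num)
  have k1 := leg_c hΦ p (xa := (273 / 500)) (xb := (61 / 100)) (x' := (61 / 100))
    (33 / 100) (7 / 50) (37 / 20) (3 / 500) (293 / 250) (173 / 25000)
    (by norm_num) (by norm_num) (by norm_num) (by norm_num) (by norm_num) (by norm_num)
    (by norm_num) (by norm_num) (by norm_num) (by norm_num) (by norm_num) (by norm_num)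
    (by norm_num) (by rw [Dtc]; norm_num) (by rw [Dtc]; norm_num) (by rw [Dtc]; norm_num)
    (by norm_num)
  have k2 := leg_c hΦ p (xa := (483 / 1000)) (xb := (273 / 500)) (x' := (61 / 100))
    (13 / 50) (129 / 500) (157 / 100) (21 / 1000) (57 / 50) (1081 / 100000)
    (by norm_num) (by norm_num) (by norm_num) (by norm_num) (by norm_num) (by norm_num)
    (by norm_num) (by norm_num) (by norm_num) (by norm_num) (by norm_num) (by norm_num)
    (by norm_num) (by rw [Dtc]; norm_num) (by rw [Dtc]; norm_num) (by rw [Dtc]; norm_num)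
    (by norm_num)
  have k3 := leg_c' hΦ p (xa := (581 / 1000)) (xb := (61 / 100)) (x' := (483 / 1000))
    (7 / 20) (12 / 25) (31 / 50) (71 / 1000) (293 / 250) (77 / 10000)
    (by norm_num) (by norm_num) (by norm_num) (by norm_num) (by norm_num) (by norm_num)
    (by norm_num) (by norm_num) (by norm_num) (by norm_num) (by norm_num) (by norm_num)
    (by norm_num) (by rw [Dtc]; norm_num) (by rw [Dtc]; norm_num) (by rw [Dtc]; norm_num)
    (by norm_num)
  have k4 := leg_c' hΦ p (xa := (553 / 1000)) (xb := (581 / 1000)) (x' := (483 / 1000))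
    (8 / 25) (499 / 1000) (67 / 100) (77 / 1000) (1157 / 1000) (783 / 100000)
    (by norm_num) (by norm_num) (by norm_num) (by norm_num) (by norm_num) (by norm_num)
    (by norm_num) (by norm_num) (by norm_num) (by norm_num) (by norm_num) (by norm_num)
    (by norm_num) (by rw [Dtc]; norm_num) (by rw [Dtc]; norm_num) (by rw [Dtc]; norm_num)
    (by norm_num)
  have k5 := leg_c' hΦ p (xa := (5243 / 10000)) (xb := (553 / 1000)) (x' := (483 / 1000))
    (29 / 100) (519 / 1000) (69 / 100) (83 / 1000) (1143 / 1000) (169 / 20000)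
    (by norm_num) (by norm_num) (by norm_num) (by norm_num) (by norm_num) (by norm_num)
    (by norm_num) (by norm_num) (by norm_num) (by norm_num) (by norm_num) (by norm_num)
    (by norm_num) (by rw [Dtc]; norm_num) (by rw [Dtc]; norm_num) (by rw [Dtc]; norm_num)
    (by norm_num)
  have q6 : Pt (Real.arccos (131 / 200)) (131 / 200) := Pt_arccos (by norm_num) (by norm_num)
  have k6 := hor_gain hΦ (x := (483 / 1000)) (x' := (5243 / 10000)) q6 p p
    (by norm_num) (304 / 625) (1111 / 1000) (1129 / 1000) (7847 / 10000) (7847 / 10000) (163 / 500) (1601 / 5000) (399 / 2000) (1807 / 10000) (909 / 100000)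
    (by norm_num) (by norm_num) (by norm_num) (by norm_num) (by norm_num) (by norm_num)
    (by norm_num) (by norm_num) (by norm_num) (by norm_num) (by norm_num) (by norm_num)
    (by norm_num) (by norm_num) (by norm_num) (by norm_num) (by norm_num) (by norm_num)
    (by norm_num) (by norm_num) (by norm_num) (by norm_num) (by norm_num)
  have q7 : Pt (Real.arccos (69 / 100)) (69 / 100) := Pt_arccos (by norm_num) (by norm_num)
  have k7 := hor_gain hΦ (x := (483 / 1000)) (x' := (5243 / 10000)) q7 q6 p
    (by norm_num) (4949 / 10000) (1111 / 1000) (1129 / 1000) (7847 / 10000) (7557 / 10000) (287 / 1000) (283 / 1000) (2963 / 10000) (1771 / 10000) (417 / 50000)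
    (by norm_num) (by norm_num) (by norm_num) (by norm_num) (by norm_num) (by norm_num)
    (by norm_num) (by norm_num) (by norm_num) (by norm_num) (by norm_num) (by norm_num)
    (by norm_num) (by norm_num) (by norm_num) (by norm_num) (by norm_num) (by norm_num)
    (by norm_num) (by norm_num) (by norm_num) (by norm_num) (by norm_num)
  have q8 : Pt (Real.arccos (18 / 25)) (18 / 25) := Pt_arccos (by norm_num) (by norm_num)
  have k8 := hor_gain hΦ (x := (483 / 1000)) (x' := (5243 / 10000)) q8 q7 p
    (by norm_num) (2497 / 5000) (1111 / 1000) (1129 / 1000) (7847 / 10000) (7239 / 10000) (129 / 500) (2551 / 10000) (373 / 1000) (1713 / 10000) (673 / 100000)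
    (by norm_num) (by norm_num) (by norm_num) (by norm_num) (by norm_num) (by norm_num)
    (by norm_num) (by norm_num) (by norm_num) (by norm_num) (by norm_num) (by norm_num)
    (by norm_num) (by norm_num) (by norm_num) (by norm_num) (by norm_num) (by norm_num)
    (by norm_num) (by norm_num) (by norm_num) (by norm_num) (by norm_num)
  linarith

/-- The corner pn, (.4, .81). -/
theorem gpn16 (hΦ : IsPhi Φ) (h0 : Φ 0 0 = c00) : 41 / 625 ≤
    gT Φ (Real.arccos (18 / 25)) (Real.arccos (31 / 50)) (2277 / 5000) (279 / 500) := by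
  have p : Pt (Real.arccos (31 / 50)) (31 / 50) := Pt_arccos (by norm_num) (by norm_num)
  have k0 : 0 ≤ gT Φ (Real.arccos (31 / 50)) (Real.arccos (31 / 50)) (61 / 100) (61 / 100) :=
    gT_nonneg hΦ h0 p (by norm_num) (by norm_num)
  have k1 := leg_c hΦ p (xa := (533 / 1000)) (xb := (61 / 100)) (x' := (61 / 100))
    (8 / 25) (27 / 200) (37 / 20) (3 / 500) (293 / 250) (431 / 50000)
    (by norm_num) (by norm_num) (by norm_num) (by norm_num) (by norm_num) (by norm_num)
    (by norm_num) (by norm_num) (by norm_num) (by norm_num) (by norm_num) (by norm_num)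
    (by norm_num) (by rw [Dtc]; norm_num) (by rw [Dtc]; norm_num) (by rw [Dtc]; norm_num)
    (by norm_num)
  have k2 := leg_c hΦ p (xa := (2277 / 5000)) (xb := (533 / 1000)) (x' := (61 / 100))
    (6 / 25) (69 / 250) (153 / 100) (3 / 125) (567 / 500) (73 / 5000)
    (by norm_num) (by norm_num) (by norm_num) (by norm_num) (by norm_num) (by norm_num)
    (by norm_num) (by norm_num) (by norm_num) (by norm_num) (by norm_num) (by norm_num)
    (by norm_num) (by rw [Dtc]; norm_num) (by rw [Dtc]; norm_num) (by rw [Dtc]; norm_num)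
    (by norm_num)
  have k3 := leg_c' hΦ p (xa := (593 / 1000)) (xb := (61 / 100)) (x' := (2277 / 5000))
    (9 / 25) (527 / 1000) (13 / 25) (17 / 200) (293 / 250) (49 / 10000)
    (by norm_num) (by norm_num) (by norm_num) (by norm_num) (by norm_num) (by norm_num)
    (by norm_num) (by norm_num) (by norm_num) (by norm_num) (by norm_num) (by norm_num)
    (by norm_num) (by rw [Dtc]; norm_num) (by rw [Dtc]; norm_num) (by rw [Dtc]; norm_num)
    (by norm_num)
  have k4 := leg_c' hΦ p (xa := (23 / 40)) (xb := (593 / 1000)) (x' := (2277 / 5000))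
    (17 / 50) (67 / 125) (11 / 20) (11 / 125) (1163 / 1000) (133 / 25000)
    (by norm_num) (by norm_num) (by norm_num) (by norm_num) (by norm_num) (by norm_num)
    (by norm_num) (by norm_num) (by norm_num) (by norm_num) (by norm_num) (by norm_num)
    (by norm_num) (by rw [Dtc]; norm_num) (by rw [Dtc]; norm_num) (by rw [Dtc]; norm_num)
    (by norm_num)
  have k5 := leg_c' hΦ p (xa := (279 / 500)) (xb := (23 / 40)) (x' := (2277 / 5000))
    (8 / 25) (547 / 1000) (29 / 50) (91 / 1000) (577 / 500) (517 / 100000)
    (by norm_num) (by norm_num) (by norm_num) (by norm_num) (by norm_num) (by norm_num)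
    (by norm_num) (by norm_num) (by norm_num) (by norm_num) (by norm_num) (by norm_num)
    (by norm_num) (by rw [Dtc]; norm_num) (by rw [Dtc]; norm_num) (by rw [Dtc]; norm_num)
    (by norm_num)
  have q6 : Pt (Real.arccos (131 / 200)) (131 / 200) := Pt_arccos (by norm_num) (by norm_num)
  have k6 := hor_gain hΦ (x := (2277 / 5000)) (x' := (279 / 500)) q6 p p
    (by norm_num) (304 / 625) (1099 / 1000) (229 / 200) (7847 / 10000) (7847 / 10000) (37 / 100) (723 / 2000) (1491 / 10000) (991 / 5000) (513 / 50000)
    (by norm_num) (by norm_num) (by norm_num) (by norm_num) (by norm_num) (by norm_num)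
    (by norm_num) (by norm_num) (by norm_num) (by norm_num) (by norm_num) (by norm_num)
    (by norm_num) (by norm_num) (by norm_num) (by norm_num) (by norm_num) (by norm_num)
    (by norm_num) (by norm_num) (by norm_num) (by norm_num) (by norm_num)
  have q7 : Pt (Real.arccos (69 / 100)) (69 / 100) := Pt_arccos (by norm_num) (by norm_num)
  have k7 := hor_gain hΦ (x := (2277 / 5000)) (x' := (279 / 500)) q7 q6 p
    (by norm_num) (4949 / 10000) (1099 / 1000) (229 / 200) (7847 / 10000) (7557 / 10000) (161 / 500) (791 / 2500) (639 / 2500) (1933 / 10000) (233 / 25000)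
    (by norm_num) (by norm_num) (by norm_num) (by norm_num) (by norm_num) (by norm_num)
    (by norm_num) (by norm_num) (by norm_num) (by norm_num) (by norm_num) (by norm_num)
    (by norm_num) (by norm_num) (by norm_num) (by norm_num) (by norm_num) (by norm_num)
    (by norm_num) (by norm_num) (by norm_num) (by norm_num) (by norm_num)
  have q8 : Pt (Real.arccos (18 / 25)) (18 / 25) := Pt_arccos (by norm_num) (by norm_num)
  have k8 := hor_gain hΦ (x := (2277 / 5000)) (x' := (279 / 500)) q8 q7 p
    (by norm_num) (2497 / 5000) (1099 / 1000) (229 / 200) (7847 / 10000) (7239 / 10000) (287 / 1000) (283 / 1000) (849 / 2500) (373 / 2000) (373 / 50000)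
    (by norm_num) (by norm_num) (by norm_num) (by norm_num) (by norm_num) (by norm_num)
    (by norm_num) (by norm_num) (by norm_num) (by norm_num) (by norm_num) (by norm_num)
    (by norm_num) (by norm_num) (by norm_num) (by norm_num) (by norm_num) (by norm_num)
    (by norm_num) (by norm_num) (by norm_num) (by norm_num) (by norm_num)
  linarith

/-- The corner pn, (.25, 1). -/
theorem gpn17 (hΦ : IsPhi Φ) (h0 : Φ 0 0 = c00) : 101 / 1250 ≤
    gT Φ (Real.arccos (18 / 25)) (Real.arccos (31 / 50)) (9 / 25) (31 / 50) := by
  have p : Pt (Real.arccos (31 / 50)) (31 / 50) := Pt_arccos (by norm_num) (by norm_num)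
  have k0 : 0 ≤ gT Φ (Real.arccos (31 / 50)) (Real.arccos (31 / 50)) (61 / 100) (61 / 100) :=
    gT_nonneg hΦ h0 p (by norm_num) (by norm_num)
  have k1 := leg_c hΦ p (xa := (97 / 200)) (xb := (61 / 100)) (x' := (61 / 100))
    (3 / 10) (117 / 1000) (89 / 50) (1 / 250) (293 / 250) (1549 / 100000)
    (by norm_num) (by norm_num) (by norm_num) (by norm_num) (by norm_num) (by norm_num)
    (by norm_num) (by norm_num) (by norm_num) (by norm_num) (by norm_num) (by norm_num)
    (by norm_num) (by rw [Dtc]; norm_num) (by rw [Dtc]; norm_num) (by rw [Dtc]; norm_num)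
    (by norm_num)
  have k2 := leg_c hΦ p (xa := (9 / 25)) (xb := (97 / 200)) (x' := (61 / 100))
    (9 / 50) (171 / 500) (29 / 20) (37 / 1000) (139 / 125) (619 / 20000)
    (by norm_num) (by norm_num) (by norm_num) (by norm_num) (by norm_num) (by norm_num)
    (by norm_num) (by norm_num) (by norm_num) (by norm_num) (by norm_num) (by norm_num)
    (by norm_num) (by rw [Dtc]; norm_num) (by rw [Dtc]; norm_num) (by rw [Dtc]; norm_num)
    (by norm_num)
  have k3 := upper_leg' hΦ p (xa := (61 / 100)) (xb := (31 / 50)) (x' := (9 / 25))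
    (681 / 1000) (157 / 250) (393 / 2500) (663 / 2000) (1171 / 1000) (1177 / 1000) (1063 / 1000) (157 / 200) (371 / 100000)
    (by norm_num) (by norm_num) (by norm_num) (by norm_num) (by norm_num) (by norm_num)
    (by norm_num) (by norm_num) (by norm_num) (by norm_num) (by norm_num) (by norm_num)
    (by norm_num) (by norm_num) (by norm_num) (by norm_num) (by norm_num) (by norm_num)
    (by norm_num) (by norm_num) (by norm_num) (by norm_num) (by norm_num) (by norm_num)
  have q4 : Pt (Real.arccos (131 / 200)) (131 / 200) := Pt_arccos (by norm_num) (by norm_num)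
  have k4 := hor_gain hΦ (x := (9 / 25)) (x' := (31 / 50)) q4 p p
    (by norm_num) (304 / 625) (1063 / 1000) (147 / 125) (7847 / 10000) (7847 / 10000) (133 / 250) (5069 / 10000) (359 / 10000) (603 / 2000) (1439 / 100000)
    (by norm_num) (by norm_num) (by norm_num) (by norm_num) (by norm_num) (by norm_num)
    (by norm_num) (by norm_num) (by norm_num) (by norm_num) (by norm_num) (by norm_num)
    (by norm_num) (by norm_num) (by norm_num) (by norm_num) (by norm_num) (by norm_num)
    (by norm_num) (by norm_num) (by norm_num) (by norm_num) (by norm_num)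
  have q5 : Pt (Real.arccos (69 / 100)) (69 / 100) := Pt_arccos (by norm_num) (by norm_num)
  have k5 := hor_gain hΦ (x := (9 / 25)) (x' := (31 / 50)) q5 q4 p
    (by norm_num) (4949 / 10000) (1063 / 1000) (147 / 125) (7847 / 10000) (7557 / 10000) (58 / 125) (4473 / 10000) (853 / 5000) (2883 / 10000) (659 / 50000)
    (by norm_num) (by norm_num) (by norm_num) (by norm_num) (by norm_num) (by norm_num)
    (by norm_num) (by norm_num) (by norm_num) (by norm_num) (by norm_num) (by norm_num)
    (by norm_num) (by norm_num) (by norm_num) (by norm_num) (by norm_num) (by norm_num)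
    (by norm_num) (by norm_num) (by norm_num) (by norm_num) (by norm_num)
  have q6 : Pt (Real.arccos (18 / 25)) (18 / 25) := Pt_arccos (by norm_num) (by norm_num)
  have k6 := hor_gain hΦ (x := (9 / 25)) (x' := (31 / 50)) q6 q5 p
    (by norm_num) (2497 / 5000) (1063 / 1000) (147 / 125) (7847 / 10000) (7239 / 10000) (411 / 1000) (1997 / 5000) (2749 / 10000) (1373 / 5000) (1053 / 100000)
    (by norm_num) (by norm_num) (by norm_num) (by norm_num) (by norm_num) (by norm_num)
    (by norm_num) (by norm_num) (by norm_num) (by norm_num) (by norm_num) (by norm_num)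
    (by norm_num) (by norm_num) (by norm_num) (by norm_num) (by norm_num) (by norm_num)
    (by norm_num) (by norm_num) (by norm_num) (by norm_num) (by norm_num)
  linarith

end

end Pool.Agent.S3.TT
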