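import Pool.Agent.S3.Es20

/-!
# Open-open edges next to an inner vertex of multiplicity two: corners for two test points (Es24)
-/

set_option autoImplicit false

namespace Pool.Agent.S3.TT

section

variable {Φ : ℂ → ℂ → ℂ}

/-- The corner pT, (.67, .37). -/
theorem gpT1 (hΦ : IsPhi Φ) (h0 : Φ 0 0 = c00) : 161 / 2000 ≤
    gT Φ (Real.arccos (18 / 25)) (Real.arccos (13 / 20)) (2947 / 5000) (1977 / 5000) := by
  have p : Pt (Real.arccos (13 / 20)) (13 / 20) := Pt_arccos (by norm_num) (by norm_num)
  have k0 : 0 ≤ gT Φ (Real.arccos (13 / 20)) (Real.arccos (13 / 20)) (16 / 25) (16 / 25) :=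
    gT_nonneg hΦ h0 p (by norm_num) (by norm_num)
  have k1 := leg_c hΦ p (xa := (123 / 200)) (xb := (16 / 25)) (x' := (16 / 25))
    (39 / 100) (73 / 500) (52 / 25) (7 / 1000) (297 / 250) (23 / 10000)
    (by norm_num) (by norm_num) (by norm_num) (by norm_num) (by norm_num) (by norm_num)
    (by norm_num) (by norm_num) (by norm_num) (by norm_num) (by norm_num) (by norm_num)
    (by norm_num) (by rw [Dtc]; norm_num) (by rw [Dtc]; norm_num) (by rw [Dtc]; norm_num)
    (by norm_num)
  have k2 := leg_c hΦ p (xa := (2947 / 5000)) (xb := (123 / 200)) (x' := (16 / 25))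
    (9 / 25) (99 / 500) (7 / 4) (3 / 250) (587 / 500) (61 / 20000)
    (by norm_num) (by norm_num) (by norm_num) (by norm_num) (by norm_num) (by norm_num)
    (by norm_num) (by norm_num) (by norm_num) (by norm_num) (by norm_num) (by norm_num)
    (by norm_num) (by rw [Dtc]; norm_num) (by rw [Dtc]; norm_num) (by rw [Dtc]; norm_num)
    (by norm_num)
  have k3 := leg_c' hΦ p (xa := (279 / 500)) (xb := (16 / 25)) (x' := (2947 / 5000))
    (9 / 25) (39 / 125) (51 / 50) (31 / 1000) (297 / 250) (777 / 50000)
    (by norm_num) (by norm_num) (by norm_num) (by norm_num) (by norm_num) (by norm_num)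
    (by norm_num) (by norm_num) (by norm_num) (by norm_num) (by norm_num) (by norm_num)
    (by norm_num) (by rw [Dtc]; norm_num) (by rw [Dtc]; norm_num) (by rw [Dtc]; norm_num)
    (by norm_num)
  have k4 := leg_c' hΦ p (xa := (477 / 1000)) (xb := (279 / 500)) (x' := (2947 / 5000))
    (13 / 50) (397 / 1000) (113 / 100) (1 / 20) (573 / 500) (249 / 12500)
    (by norm_num) (by norm_num) (by norm_num) (by norm_num) (by norm_num) (by norm_num)
    (by norm_num) (by norm_num) (by norm_num) (by norm_num) (by norm_num) (by norm_num)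
    (by norm_num) (by rw [Dtc]; norm_num) (by rw [Dtc]; norm_num) (by rw [Dtc]; norm_num)
    (by norm_num)
  have k5 := leg_c' hΦ p (xa := (1977 / 5000)) (xb := (477 / 1000)) (x' := (2947 / 5000))
    (19 / 100) (123 / 250) (23 / 20) (3 / 40) (277 / 250) (1263 / 50000)
    (by norm_num) (by norm_num) (by norm_num) (by norm_num) (by norm_num) (by norm_num)
    (by norm_num) (by norm_num) (by norm_num) (by norm_num) (by norm_num) (by norm_num)
    (by norm_num) (by rw [Dtc]; norm_num) (by rw [Dtc]; norm_num) (by rw [Dtc]; norm_num)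
    (by norm_num)
  have q6 : Pt (Real.arccos (137 / 200)) (137 / 200) := Pt_arccos (by norm_num) (by norm_num)
  have k6 := hor_gain hΦ (x := (2947 / 5000)) (x' := (1977 / 5000)) q6 p p
    (by norm_num) (4939 / 10000) (1161 / 1000) (43 / 40) (19 / 25) (19 / 25) (32 / 125) (633 / 2500) (236 / 625) (427 / 2500) (371 / 50000)
    (by norm_num) (by norm_num) (by norm_num) (by norm_num) (by norm_num) (by norm_num)
    (by norm_num) (by norm_num) (by norm_num) (by norm_num) (by norm_num) (by norm_num)
    (by norm_num) (by norm_num) (by norm_num) (by norm_num) (by norm_num) (by norm_num)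
    (by norm_num) (by norm_num) (by norm_num) (by norm_num) (by norm_num)
  have q7 : Pt (Real.arccos (18 / 25)) (18 / 25) := Pt_arccos (by norm_num) (by norm_num)
  have k7 := hor_gain hΦ (x := (2947 / 5000)) (x' := (1977 / 5000)) q7 q6 p
    (by norm_num) (499 / 1000) (1161 / 1000) (43 / 40) (19 / 25) (3643 / 5000) (233 / 1000) (577 / 2500) (2229 / 5000) (413 / 2500) (141 / 20000)
    (by norm_num) (by norm_num) (by norm_num) (by norm_num) (by norm_num) (by norm_num)
    (by norm_num) (by norm_num) (by norm_num) (by norm_num) (by norm_num) (by norm_num)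
    (by norm_num) (by norm_num) (by norm_num) (by norm_num) (by norm_num) (by norm_num)
    (by norm_num) (by norm_num) (by norm_num) (by norm_num) (by norm_num)
  linarith

/-- The corner pT, (.715, .37). -/
theorem gpT2 (hΦ : IsPhi Φ) (h0 : Φ 0 0 = c00) : 367 / 5000 ≤
    gT Φ (Real.arccos (18 / 25)) (Real.arccos (13 / 20)) (6089 / 10000) (1977 / 5000) := by
  have p : Pt (Real.arccos (13 / 20)) (13 / 20) := Pt_arccos (by norm_num) (by norm_num)
  have k0 : 0 ≤ gT Φ (Real.arccos (13 / 20)) (Real.arccos (13 / 20)) (129 / 200) (129 / 200) :=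
    gT_nonneg hΦ h0 p (by norm_num) (by norm_num)
  have k1 := leg_c hΦ p (xa := (627 / 1000)) (xb := (129 / 200)) (x' := (129 / 200))
    (2 / 5) (103 / 1000) (68 / 25) (3 / 1000) (119 / 100) (61 / 50000)
    (by norm_num) (by norm_num) (by norm_num) (by norm_num) (by norm_num) (by norm_num)
    (by norm_num) (by norm_num) (by norm_num) (by norm_num) (by norm_num) (by norm_num)
    (by norm_num) (by rw [Dtc]; norm_num) (by rw [Dtc]; norm_num) (by rw [Dtc]; norm_num)
    (by norm_num)
  have k2 := leg_c hΦ p (xa := (6089 / 10000)) (xb := (627 / 1000)) (x' := (129 / 200))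
    (19 / 50) (151 / 1000) (43 / 20) (7 / 1000) (1181 / 1000) (83 / 50000)
    (by norm_num) (by norm_num) (by norm_num) (by norm_num) (by norm_num) (by norm_num)
    (by norm_num) (by norm_num) (by norm_num) (by norm_num) (by norm_num) (by norm_num)
    (by norm_num) (by rw [Dtc]; norm_num) (by rw [Dtc]; norm_num) (by rw [Dtc]; norm_num)
    (by norm_num)
  have k3 := leg_c' hΦ p (xa := (583 / 1000)) (xb := (129 / 200)) (x' := (6089 / 10000))
    (37 / 100) (253 / 1000) (5 / 4) (21 / 1000) (119 / 100) (967 / 100000)
    (by norm_num) (by norm_num) (by norm_num) (by norm_num) (by norm_num) (by norm_num)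
    (by norm_num) (by norm_num) (by norm_num) (by norm_num) (by norm_num) (by norm_num)
    (by norm_num) (by rw [Dtc]; norm_num) (by rw [Dtc]; norm_num) (by rw [Dtc]; norm_num)
    (by norm_num)
  have k4 := leg_c' hΦ p (xa := (13 / 25)) (xb := (583 / 1000)) (x' := (6089 / 10000))
    (3 / 10) (331 / 1000) (61 / 50) (7 / 200) (579 / 500) (1279 / 100000)
    (by norm_num) (by norm_num) (by norm_num) (by norm_num) (by norm_num) (by norm_num)
    (by norm_num) (by norm_num) (by norm_num) (by norm_num) (by norm_num) (by norm_num)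
    (by norm_num) (by rw [Dtc]; norm_num) (by rw [Dtc]; norm_num) (by rw [Dtc]; norm_num)
    (by norm_num)
  have k5 := leg_c' hΦ p (xa := (229 / 500)) (xb := (13 / 25)) (x' := (6089 / 10000))
    (6 / 25) (41 / 100) (6 / 5) (53 / 1000) (141 / 125) (391 / 25000)
    (by norm_num) (by norm_num) (by norm_num) (by norm_num) (by norm_num) (by norm_num)
    (by norm_num) (by norm_num) (by norm_num) (by norm_num) (by norm_num) (by norm_num)
    (by norm_num) (by rw [Dtc]; norm_num) (by rw [Dtc]; norm_num) (by rw [Dtc]; norm_num)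
    (by norm_num)
  have k6 := leg_c' hΦ p (xa := (1977 / 5000)) (xb := (229 / 500)) (x' := (6089 / 10000))
    (9 / 50) (489 / 1000) (31 / 25) (37 / 500) (11 / 10) (239 / 12500)
    (by norm_num) (by norm_num) (by norm_num) (by norm_num) (by norm_num) (by norm_num)
    (by norm_num) (by norm_num) (by norm_num) (by norm_num) (by norm_num) (by norm_num)
    (by norm_num) (by rw [Dtc]; norm_num) (by rw [Dtc]; norm_num) (by rw [Dtc]; norm_num)
    (by norm_num)
  have q7 : Pt (Real.arccos (137 / 200)) (137 / 200) := Pt_arccos (by norm_num) (by norm_num)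
  have k7 := hor_gain hΦ (x := (6089 / 10000)) (x' := (1977 / 5000)) q7 p p
    (by norm_num) (4939 / 10000) (1171 / 1000) (43 / 40) (19 / 25) (19 / 25) (59 / 250) (1169 / 5000) (947 / 2500) (1557 / 10000) (137 / 20000)
    (by norm_num) (by norm_num) (by norm_num) (by norm_num) (by norm_num) (by norm_num)
    (by norm_num) (by norm_num) (by norm_num) (by norm_num) (by norm_num) (by norm_num)
    (by norm_num) (by norm_num) (by norm_num) (by norm_num) (by norm_num) (by norm_num)
    (by norm_num) (by norm_num) (by norm_num) (by norm_num) (by norm_num)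
  have q8 : Pt (Real.arccos (18 / 25)) (18 / 25) := Pt_arccos (by norm_num) (by norm_num)
  have k8 := hor_gain hΦ (x := (6089 / 10000)) (x' := (1977 / 5000)) q8 q7 p
    (by norm_num) (499 / 1000) (1171 / 1000) (43 / 40) (19 / 25) (3643 / 5000) (43 / 200) (2133 / 10000) (1113 / 2500) (1511 / 10000) (163 / 25000)
    (by norm_num) (by norm_num) (by norm_num) (by norm_num) (by norm_num) (by norm_num)
    (by norm_num) (by norm_num) (by norm_num) (by norm_num) (by norm_num) (by norm_num)
    (by norm_num) (by norm_num) (by norm_num) (by norm_num) (by norm_num) (by norm_num)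
    (by norm_num) (by norm_num) (by norm_num) (by norm_num) (by norm_num)
  linarith

/-- The corner pT, (.75, .37). -/
theorem gpT3 (hΦ : IsPhi Φ) (h0 : Φ 0 0 = c00) : 671 / 10000 ≤
    gT Φ (Real.arccos (18 / 25)) (Real.arccos (13 / 20)) (1559 / 2500) (1977 / 5000) := by
  have p : Pt (Real.arccos (13 / 20)) (13 / 20) := Pt_arccos (by norm_num) (by norm_num)
  have k0 : 0 ≤ gT Φ (Real.arccos (13 / 20)) (Real.arccos (13 / 20)) (129 / 200) (129 / 200) :=
    gT_nonneg hΦ h0 p (by norm_num) (by norm_num)
  have k1 := leg_c hΦ p (xa := (317 / 500)) (xb := (129 / 200)) (x' := (129 / 200))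
    (2 / 5) (103 / 1000) (29 / 10) (3 / 1000) (119 / 100) (69 / 100000)
    (by norm_num) (by norm_num) (by norm_num) (by norm_num) (by norm_num) (by norm_num)
    (by norm_num) (by norm_num) (by norm_num) (by norm_num) (by norm_num) (by norm_num)
    (by norm_num) (by rw [Dtc]; norm_num) (by rw [Dtc]; norm_num) (by rw [Dtc]; norm_num)
    (by norm_num)
  have k2 := leg_c hΦ p (xa := (1559 / 2500)) (xb := (317 / 500)) (x' := (129 / 200))
    (39 / 100) (27 / 200) (12 / 5) (3 / 500) (237 / 200) (41 / 50000)
    (by norm_num) (by norm_num) (by norm_num) (by norm_num) (by norm_num) (by norm_num)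
    (by norm_num) (by norm_num) (by norm_num) (by norm_num) (by norm_num) (by norm_num)
    (by norm_num) (by rw [Dtc]; norm_num) (by rw [Dtc]; norm_num) (by rw [Dtc]; norm_num)
    (by norm_num)
  have k3 := leg_c' hΦ p (xa := (583 / 1000)) (xb := (129 / 200)) (x' := (1559 / 2500))
    (37 / 100) (203 / 1000) (37 / 25) (13 / 1000) (119 / 100) (33 / 4000)
    (by norm_num) (by norm_num) (by norm_num) (by norm_num) (by norm_num) (by norm_num)
    (by norm_num) (by norm_num) (by norm_num) (by norm_num) (by norm_num) (by norm_num)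
    (by norm_num) (by rw [Dtc]; norm_num) (by rw [Dtc]; norm_num) (by rw [Dtc]; norm_num)
    (by norm_num)
  have k4 := leg_c' hΦ p (xa := (13 / 25)) (xb := (583 / 1000)) (x' := (1559 / 2500))
    (3 / 10) (59 / 200) (67 / 50) (7 / 250) (579 / 500) (1167 / 100000)
    (by norm_num) (by norm_num) (by norm_num) (by norm_num) (by norm_num) (by norm_num)
    (by norm_num) (by norm_num) (by norm_num) (by norm_num) (by norm_num) (by norm_num)
    (by norm_num) (by rw [Dtc]; norm_num) (by rw [Dtc]; norm_num) (by rw [Dtc]; norm_num)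
    (by norm_num)
  have k5 := leg_c' hΦ p (xa := (229 / 500)) (xb := (13 / 25)) (x' := (1559 / 2500))
    (6 / 25) (383 / 1000) (129 / 100) (23 / 500) (141 / 125) (37 / 2500)
    (by norm_num) (by norm_num) (by norm_num) (by norm_num) (by norm_num) (by norm_num)
    (by norm_num) (by norm_num) (by norm_num) (by norm_num) (by norm_num) (by norm_num)
    (by norm_num) (by rw [Dtc]; norm_num) (by rw [Dtc]; norm_num) (by rw [Dtc]; norm_num)
    (by norm_num)
  have k6 := leg_c' hΦ p (xa := (1977 / 5000)) (xb := (229 / 500)) (x' := (1559 / 2500))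
    (9 / 50) (467 / 1000) (13 / 10) (17 / 250) (11 / 10) (1839 / 100000)
    (by norm_num) (by norm_num) (by norm_num) (by norm_num) (by norm_num) (by norm_num)
    (by norm_num) (by norm_num) (by norm_num) (by norm_num) (by norm_num) (by norm_num)
    (by norm_num) (by rw [Dtc]; norm_num) (by rw [Dtc]; norm_num) (by rw [Dtc]; norm_num)
    (by norm_num)
  have q7 : Pt (Real.arccos (137 / 200)) (137 / 200) := Pt_arccos (by norm_num) (by norm_num)
  have k7 := hor_gain hΦ (x := (1559 / 2500)) (x' := (1977 / 5000)) q7 p p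
    (by norm_num) (4939 / 10000) (1179 / 1000) (43 / 40) (19 / 25) (19 / 25) (221 / 1000) (137 / 625) (3797 / 10000) (1447 / 10000) (321 / 50000)
    (by norm_num) (by norm_num) (by norm_num) (by norm_num) (by norm_num) (by norm_num)
    (by norm_num) (by norm_num) (by norm_num) (by norm_num) (by norm_num) (by norm_num)
    (by norm_num) (by norm_num) (by norm_num) (by norm_num) (by norm_num) (by norm_num)
    (by norm_num) (by norm_num) (by norm_num) (by norm_num) (by norm_num)
  have q8 : Pt (Real.arccos (18 / 25)) (18 / 25) := Pt_arccos (by norm_num) (by norm_num)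
  have k8 := hor_gain hΦ (x := (1559 / 2500)) (x' := (1977 / 5000)) q8 q7 p
    (by norm_num) (499 / 1000) (1179 / 1000) (43 / 40) (19 / 25) (3643 / 5000) (201 / 1000) (499 / 2500) (4447 / 10000) (1407 / 10000) (61 / 10000)
    (by norm_num) (by norm_num) (by norm_num) (by norm_num) (by norm_num) (by norm_num)
    (by norm_num) (by norm_num) (by norm_num) (by norm_num) (by norm_num) (by norm_num)
    (by norm_num) (by norm_num) (by norm_num) (by norm_num) (by norm_num) (by norm_num)
    (by norm_num) (by norm_num) (by norm_num) (by norm_num) (by norm_num)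
  linarith

/-- The corner pT, (.775, .35). -/
theorem gpT4 (hΦ : IsPhi Φ) (h0 : Φ 0 0 = c00) : 27 / 400 ≤
    gT Φ (Real.arccos (18 / 25)) (Real.arccos (13 / 20)) (6339 / 10000) (1923 / 5000) := by
  have p : Pt (Real.arccos (13 / 20)) (13 / 20) := Pt_arccos (by norm_num) (by norm_num)
  have k0 : 0 ≤ gT Φ (Real.arccos (13 / 20)) (Real.arccos (13 / 20)) (129 / 200) (129 / 200) :=
    gT_nonneg hΦ h0 p (by norm_num) (by norm_num)
  have k1 := leg_c hΦ p (xa := (321 / 500)) (xb := (129 / 200)) (x' := (129 / 200))
    (41 / 100) (13 / 125) 3 (3 / 1000) (119 / 100) (17 / 100000)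
    (by norm_num) (by norm_num) (by norm_num) (by norm_num) (by norm_num) (by norm_num)
    (by norm_num) (by norm_num) (by norm_num) (by norm_num) (by norm_num) (by norm_num)
    (by norm_num) (by rw [Dtc]; norm_num) (by rw [Dtc]; norm_num) (by rw [Dtc]; norm_num)
    (by norm_num)
  have k2 := leg_c hΦ p (xa := (639 / 1000)) (xb := (321 / 500)) (x' := (129 / 200))
    (41 / 100) (113 / 1000) 3 (1 / 250) (1189 / 1000) (9 / 50000)
    (by norm_num) (by norm_num) (by norm_num) (by norm_num) (by norm_num) (by norm_num)
    (by norm_num) (by norm_num) (by norm_num) (by norm_num) (by norm_num) (by norm_num)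
    (by norm_num) (by rw [Dtc]; norm_num) (by rw [Dtc]; norm_num) (by rw [Dtc]; norm_num)
    (by norm_num)
  have k3 := leg_c hΦ p (xa := (637 / 1000)) (xb := (639 / 1000)) (x' := (129 / 200))
    (2 / 5) (61 / 500) (5 / 2) (1 / 250) (1187 / 1000) (13 / 100000)
    (by norm_num) (by norm_num) (by norm_num) (by norm_num) (by norm_num) (by norm_num)
    (by norm_num) (by norm_num) (by norm_num) (by norm_num) (by norm_num) (by norm_num)
    (by norm_num) (by rw [Dtc]; norm_num) (by rw [Dtc]; norm_num) (by rw [Dtc]; norm_num)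
    (by norm_num)
  have k4 := leg_c hΦ p (xa := (6339 / 10000)) (xb := (637 / 1000)) (x' := (129 / 200))
    (2 / 5) (127 / 1000) (129 / 50) (1 / 200) (593 / 500) (21 / 100000)
    (by norm_num) (by norm_num) (by norm_num) (by norm_num) (by norm_num) (by norm_num)
    (by norm_num) (by norm_num) (by norm_num) (by norm_num) (by norm_num) (by norm_num)
    (by norm_num) (by rw [Dtc]; norm_num) (by rw [Dtc]; norm_num) (by rw [Dtc]; norm_num)
    (by norm_num)
  have k5 := leg_c' hΦ p (xa := (301 / 500)) (xb := (129 / 200)) (x' := (6339 / 10000))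
    (19 / 50) (163 / 1000) (179 / 100) (1 / 125) (119 / 100) (463 / 100000)
    (by norm_num) (by norm_num) (by norm_num) (by norm_num) (by norm_num) (by norm_num)
    (by norm_num) (by norm_num) (by norm_num) (by norm_num) (by norm_num) (by norm_num)
    (by norm_num) (by rw [Dtc]; norm_num) (by rw [Dtc]; norm_num) (by rw [Dtc]; norm_num)
    (by norm_num)
  have k6 := leg_c' hΦ p (xa := (279 / 500)) (xb := (301 / 500)) (x' := (6339 / 10000))
    (33 / 100) (239 / 1000) (77 / 50) (9 / 500) (146 / 125) (327 / 50000)
    (by norm_num) (by norm_num) (by norm_num) (by norm_num) (by norm_num) (by norm_num)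
    (by norm_num) (by norm_num) (by norm_num) (by norm_num) (by norm_num) (by norm_num)
    (by norm_num) (by rw [Dtc]; norm_num) (by rw [Dtc]; norm_num) (by rw [Dtc]; norm_num)
    (by norm_num)
  have k7 := leg_c' hΦ p (xa := (103 / 200)) (xb := (279 / 500)) (x' := (6339 / 10000))
    (7 / 25) (307 / 1000) (73 / 50) (3 / 100) (573 / 500) (101 / 12500)
    (by norm_num) (by norm_num) (by norm_num) (by norm_num) (by norm_num) (by norm_num)
    (by norm_num) (by norm_num) (by norm_num) (by norm_num) (by norm_num) (by norm_num)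
    (by norm_num) (by rw [Dtc]; norm_num) (by rw [Dtc]; norm_num) (by rw [Dtc]; norm_num)
    (by norm_num)
  have k8 := leg_c' hΦ p (xa := (471 / 1000)) (xb := (103 / 200)) (x' := (6339 / 10000))
    (6 / 25) (371 / 1000) (69 / 50) (11 / 250) (9 / 8) (999 / 100000)
    (by norm_num) (by norm_num) (by norm_num) (by norm_num) (by norm_num) (by norm_num)
    (by norm_num) (by norm_num) (by norm_num) (by norm_num) (by norm_num) (by norm_num)
    (by norm_num) (by rw [Dtc]; norm_num) (by rw [Dtc]; norm_num) (by rw [Dtc]; norm_num)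
    (by norm_num)
  have k9 := leg_c' hΦ p (xa := (107 / 250)) (xb := (471 / 1000)) (x' := (6339 / 10000))
    (1 / 5) (87 / 200) (137 / 100) (59 / 1000) (553 / 500) (1149 / 100000)
    (by norm_num) (by norm_num) (by norm_num) (by norm_num) (by norm_num) (by norm_num)
    (by norm_num) (by norm_num) (by norm_num) (by norm_num) (by norm_num) (by norm_num)
    (by norm_num) (by rw [Dtc]; norm_num) (by rw [Dtc]; norm_num) (by rw [Dtc]; norm_num)
    (by norm_num)
  have k10 := leg_c' hΦ p (xa := (1923 / 5000)) (xb := (107 / 250)) (x' := (6339 / 10000))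
    (4 / 25) (62 / 125) (69 / 50) (19 / 250) (136 / 125) (267 / 20000)
    (by norm_num) (by norm_num) (by norm_num) (by norm_num) (by norm_num) (by norm_num)
    (by norm_num) (by norm_num) (by norm_num) (by norm_num) (by norm_num) (by norm_num)
    (by norm_num) (by rw [Dtc]; norm_num) (by rw [Dtc]; norm_num) (by rw [Dtc]; norm_num)
    (by norm_num)
  have q11 : Pt (Real.arccos (67 / 100)) (67 / 100) := Pt_arccos (by norm_num) (by norm_num)
  have k11 := hor_gain hΦ (x := (6339 / 10000)) (x' := (1923 / 5000)) q11 p p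
    (by norm_num) (4939 / 10000) (148 / 125) (1071 / 1000) (19 / 25) (19 / 25) (227 / 1000) (9 / 40) (3611 / 10000) (731 / 5000) (47 / 12500)
    (by norm_num) (by norm_num) (by norm_num) (by norm_num) (by norm_num) (by norm_num)
    (by norm_num) (by norm_num) (by norm_num) (by norm_num) (by norm_num) (by norm_num)
    (by norm_num) (by norm_num) (by norm_num) (by norm_num) (by norm_num) (by norm_num)
    (by norm_num) (by norm_num) (by norm_num) (by norm_num) (by norm_num)
  have q12 : Pt (Real.arccos (137 / 200)) (137 / 200) := Pt_arccos (by norm_num) (by norm_num)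
  have k12 := hor_gain hΦ (x := (6339 / 10000)) (x' := (1923 / 5000)) q12 q11 p
    (by norm_num) (4973 / 10000) (148 / 125) (1071 / 1000) (19 / 25) (464 / 625) (219 / 1000) (543 / 2500) (3893 / 10000) (291 / 2000) (279 / 100000)
    (by norm_num) (by norm_num) (by norm_num) (by norm_num) (by norm_num) (by norm_num)
    (by norm_num) (by norm_num) (by norm_num) (by norm_num) (by norm_num) (by norm_num)
    (by norm_num) (by norm_num) (by norm_num) (by norm_num) (by norm_num) (by norm_num)
    (by norm_num) (by norm_num) (by norm_num) (by norm_num) (by norm_num)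
  have q13 : Pt (Real.arccos (7 / 10)) (7 / 10) := Pt_arccos (by norm_num) (by norm_num)
  have k13 := hor_gain hΦ (x := (6339 / 10000)) (x' := (1923 / 5000)) q13 q12 p
    (by norm_num) (499 / 1000) (148 / 125) (1071 / 1000) (19 / 25) (3643 / 5000) (211 / 1000) (1047 / 5000) (521 / 1250) (287 / 2000) (137 / 50000)
    (by norm_num) (by norm_num) (by norm_num) (by norm_num) (by norm_num) (by norm_num)
    (by norm_num) (by norm_num) (by norm_num) (by norm_num) (by norm_num) (by norm_num)
    (by norm_num) (by norm_num) (by norm_num) (by norm_num) (by norm_num) (by norm_num)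
    (by norm_num) (by norm_num) (by norm_num) (by norm_num) (by norm_num)
  have q14 : Pt (Real.arccos (18 / 25)) (18 / 25) := Pt_arccos (by norm_num) (by norm_num)
  have k14 := hor_gain hΦ (x := (6339 / 10000)) (x' := (1923 / 5000)) q14 q13 p
    (by norm_num) (1249 / 2500) (148 / 125) (1071 / 1000) (19 / 25) (3571 / 5000) (99 / 500) (1967 / 10000) (1131 / 2500) (279 / 2000) (7 / 2000)
    (by norm_num) (by norm_num) (by norm_num) (by norm_num) (by norm_num) (by norm_num)
    (by norm_num) (by norm_num) (by norm_num) (by norm_num) (by norm_num) (by norm_num)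
    (by norm_num) (by norm_num) (by norm_num) (by norm_num) (by norm_num) (by norm_num)
    (by norm_num) (by norm_num) (by norm_num) (by norm_num) (by norm_num)
  linarith

/-- The corner pT, (.8, .3). -/
theorem gpT5 (hΦ : IsPhi Φ) (h0 : Φ 0 0 = c00) : 711 / 10000 ≤
    gT Φ (Real.arccos (18 / 25)) (Real.arccos (13 / 20)) (161 / 250) (3561 / 10000) := by
  have p : Pt (Real.arccos (13 / 20)) (13 / 20) := Pt_arccos (by norm_num) (by norm_num)
  have k0 : 0 ≤ gT Φ (Real.arccos (13 / 20)) (Real.arccos (13 / 20)) (16 / 25) (16 / 25) :=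
    gT_nonneg hΦ h0 p (by norm_num) (by norm_num)
  have k1 := leg_c' hΦ p (xa := (569 / 1000)) (xb := (16 / 25)) (x' := (16 / 25))
    (9 / 25) (137 / 1000) (47 / 25) (3 / 500) (297 / 250) (31 / 4000)
    (by norm_num) (by norm_num) (by norm_num) (by norm_num) (by norm_num) (by norm_num)
    (by norm_num) (by norm_num) (by norm_num) (by norm_num) (by norm_num) (by norm_num)
    (by norm_num) (by rw [Dtc]; norm_num) (by rw [Dtc]; norm_num) (by rw [Dtc]; norm_num)
    (by norm_num)
  have k2 := leg_c' hΦ p (xa := (249 / 500)) (xb := (569 / 1000)) (x' := (16 / 25))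
    (7 / 25) (27 / 100) (153 / 100) (23 / 1000) (1151 / 1000) (1273 / 100000)
    (by norm_num) (by norm_num) (by norm_num) (by norm_num) (by norm_num) (by norm_num)
    (by norm_num) (by norm_num) (by norm_num) (by norm_num) (by norm_num) (by norm_num)
    (by norm_num) (by rw [Dtc]; norm_num) (by rw [Dtc]; norm_num) (by rw [Dtc]; norm_num)
    (by norm_num)
  have k3 := leg_c' hΦ p (xa := (427 / 1000)) (xb := (249 / 500)) (x' := (16 / 25))
    (21 / 100) (19 / 50) (143 / 100) (23 / 500) (559 / 500) (1741 / 100000)
    (by norm_num) (by norm_num) (by norm_num) (by norm_num) (by norm_num) (by norm_num)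
    (by norm_num) (by norm_num) (by norm_num) (by norm_num) (by norm_num) (by norm_num)
    (by norm_num) (by rw [Dtc]; norm_num) (by rw [Dtc]; norm_num) (by rw [Dtc]; norm_num)
    (by norm_num)
  have k4 := leg_c' hΦ p (xa := (3561 / 10000)) (xb := (427 / 1000)) (x' := (16 / 25))
    (3 / 20) (243 / 500) (69 / 50) (73 / 1000) (136 / 125) (2219 / 100000)
    (by norm_num) (by norm_num) (by norm_num) (by norm_num) (by norm_num) (by norm_num)
    (by norm_num) (by norm_num) (by norm_num) (by norm_num) (by norm_num) (by norm_num)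
    (by norm_num) (by rw [Dtc]; norm_num) (by rw [Dtc]; norm_num) (by rw [Dtc]; norm_num)
    (by norm_num)
  have k5 := upper_leg hΦ p (xa := (16 / 25)) (xb := (161 / 250)) (x' := (3561 / 10000))
    (701 / 1000) (643 / 1000) (407 / 2500) (349 / 1000) (1187 / 1000) (119 / 100) (531 / 500) (19 / 25) (151 / 100000)
    (by norm_num) (by norm_num) (by norm_num) (by norm_num) (by norm_num) (by norm_num)
    (by norm_num) (by norm_num) (by norm_num) (by norm_num) (by norm_num) (by norm_num)
    (by norm_num) (by norm_num) (by norm_num) (by norm_num) (by norm_num) (by norm_num)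
    (by norm_num) (by norm_num) (by norm_num) (by norm_num) (by norm_num) (by norm_num)
  have q6 : Pt (Real.arccos (137 / 200)) (137 / 200) := Pt_arccos (by norm_num) (by norm_num)
  have k6 := hor_gain hΦ (x := (161 / 250)) (x' := (3561 / 10000)) q6 p p
    (by norm_num) (4939 / 10000) (119 / 100) (1061 / 1000) (19 / 25) (19 / 25) (221 / 1000) (137 / 625) (33 / 80) (1507 / 10000) (321 / 50000)
    (by norm_num) (by norm_num) (by norm_num) (by norm_num) (by norm_num) (by norm_num)
    (by norm_num) (by norm_num) (by norm_num) (by norm_num) (by norm_num) (by norm_num)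
    (by norm_num) (by norm_num) (by norm_num) (by norm_num) (by norm_num) (by norm_num)
    (by norm_num) (by norm_num) (by norm_num) (by norm_num) (by norm_num)
  have q7 : Pt (Real.arccos (18 / 25)) (18 / 25) := Pt_arccos (by norm_num) (by norm_num)
  have k7 := hor_gain hΦ (x := (161 / 250)) (x' := (3561 / 10000)) q7 q6 p
    (by norm_num) (499 / 1000) (119 / 100) (1061 / 1000) (19 / 25) (3643 / 5000) (51 / 250) (81 / 400) (1181 / 2500) (293 / 2000) (619 / 100000)
    (by norm_num) (by norm_num) (by norm_num) (by norm_num) (by norm_num) (by norm_num)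
    (by norm_num) (by norm_num) (by norm_num) (by norm_num) (by norm_num) (by norm_num)
    (by norm_num) (by norm_num) (by norm_num) (by norm_num) (by norm_num) (by norm_num)
    (by norm_num) (by norm_num) (by norm_num) (by norm_num) (by norm_num)
  linarith

/-- The corner pT, (.81, .3). -/
theorem gpT6 (hΦ : IsPhi Φ) (h0 : Φ 0 0 = c00) : 89 / 1250 ≤
    gT Φ (Real.arccos (18 / 25)) (Real.arccos (13 / 20)) (81 / 125) (3561 / 10000) := by
  have p : Pt (Real.arccos (13 / 20)) (13 / 20) := Pt_arccos (by norm_num) (by norm_num)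
  have k0 : 0 ≤ gT Φ (Real.arccos (13 / 20)) (Real.arccos (13 / 20)) (129 / 200) (129 / 200) :=
    gT_nonneg hΦ h0 p (by norm_num) (by norm_num)
  have k1 := leg_c' hΦ p (xa := (597 / 1000)) (xb := (129 / 200)) (x' := (129 / 200))
    (19 / 50) (97 / 1000) (237 / 100) (3 / 1000) (119 / 100) (79 / 20000)
    (by norm_num) (by norm_num) (by norm_num) (by norm_num) (by norm_num) (by norm_num)
    (by norm_num) (by norm_num) (by norm_num) (by norm_num) (by norm_num) (by norm_num)
    (by norm_num) (by rw [Dtc]; norm_num) (by rw [Dtc]; norm_num) (by rw [Dtc]; norm_num)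
    (by norm_num)
  have k2 := leg_c' hΦ p (xa := (549 / 1000)) (xb := (597 / 1000)) (x' := (129 / 200))
    (8 / 25) (209 / 1000) (7 / 4) (7 / 500) (233 / 200) (329 / 50000)
    (by norm_num) (by norm_num) (by norm_num) (by norm_num) (by norm_num) (by norm_num)
    (by norm_num) (by norm_num) (by norm_num) (by norm_num) (by norm_num) (by norm_num)
    (by norm_num) (by rw [Dtc]; norm_num) (by rw [Dtc]; norm_num) (by rw [Dtc]; norm_num)
    (by norm_num)
  have k3 := leg_c' hΦ p (xa := (501 / 1000)) (xb := (549 / 1000)) (x' := (129 / 200))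
    (27 / 100) (293 / 1000) (39 / 25) (27 / 1000) (1141 / 1000) (221 / 25000)
    (by norm_num) (by norm_num) (by norm_num) (by norm_num) (by norm_num) (by norm_num)
    (by norm_num) (by norm_num) (by norm_num) (by norm_num) (by norm_num) (by norm_num)
    (by norm_num) (by rw [Dtc]; norm_num) (by rw [Dtc]; norm_num) (by rw [Dtc]; norm_num)
    (by norm_num)
  have k4 := leg_c' hΦ p (xa := (113 / 250)) (xb := (501 / 1000)) (x' := (129 / 200))
    (11 / 50) (46 / 125) (151 / 100) (43 / 1000) (1119 / 1000) (141 / 12500)
    (by norm_num) (by norm_num) (by norm_num) (by norm_num) (by norm_num) (by norm_num)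
    (by norm_num) (by norm_num) (by norm_num) (by norm_num) (by norm_num) (by norm_num)
    (by norm_num) (by rw [Dtc]; norm_num) (by rw [Dtc]; norm_num) (by rw [Dtc]; norm_num)
    (by norm_num)
  have k5 := leg_c' hΦ p (xa := (101 / 250)) (xb := (113 / 250)) (x' := (129 / 200))
    (9 / 50) (111 / 250) (143 / 100) (31 / 500) (549 / 500) (1331 / 100000)
    (by norm_num) (by norm_num) (by norm_num) (by norm_num) (by norm_num) (by norm_num)
    (by norm_num) (by norm_num) (by norm_num) (by norm_num) (by norm_num) (by norm_num)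
    (by norm_num) (by rw [Dtc]; norm_num) (by rw [Dtc]; norm_num) (by rw [Dtc]; norm_num)
    (by norm_num)
  have k6 := leg_c' hΦ p (xa := (3561 / 10000)) (xb := (101 / 250)) (x' := (129 / 200))
    (7 / 50) (129 / 250) (141 / 100) (41 / 500) (1079 / 1000) (1553 / 100000)
    (by norm_num) (by norm_num) (by norm_num) (by norm_num) (by norm_num) (by norm_num)
    (by norm_num) (by norm_num) (by norm_num) (by norm_num) (by norm_num) (by norm_num)
    (by norm_num) (by rw [Dtc]; norm_num) (by rw [Dtc]; norm_num) (by rw [Dtc]; norm_num)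
    (by norm_num)
  have k7 := upper_leg hΦ p (xa := (129 / 200)) (xb := (81 / 125)) (x' := (3561 / 10000))
    (699 / 1000) (321 / 500) (199 / 1250) (3497 / 10000) (1189 / 1000) (149 / 125) (531 / 500) (19 / 25) (113 / 100000)
    (by norm_num) (by norm_num) (by norm_num) (by norm_num) (by norm_num) (by norm_num)
    (by norm_num) (by norm_num) (by norm_num) (by norm_num) (by norm_num) (by norm_num)
    (by norm_num) (by norm_num) (by norm_num) (by norm_num) (by norm_num) (by norm_num)
    (by norm_num) (by norm_num) (by norm_num) (by norm_num) (by norm_num) (by norm_num)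
  have q8 : Pt (Real.arccos (67 / 100)) (67 / 100) := Pt_arccos (by norm_num) (by norm_num)
  have k8 := hor_gain hΦ (x := (81 / 125)) (x' := (3561 / 10000)) q8 p p
    (by norm_num) (4939 / 10000) (149 / 125) (1061 / 1000) (19 / 25) (19 / 25) (57 / 250) (113 / 500) (3861 / 10000) (757 / 5000) (189 / 50000)
    (by norm_num) (by norm_num) (by norm_num) (by norm_num) (by norm_num) (by norm_num)
    (by norm_num) (by norm_num) (by norm_num) (by norm_num) (by norm_num) (by norm_num)
    (by norm_num) (by norm_num) (by norm_num) (by norm_num) (by norm_num) (by norm_num)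
    (by norm_num) (by norm_num) (by norm_num) (by norm_num) (by norm_num)
  have q9 : Pt (Real.arccos (137 / 200)) (137 / 200) := Pt_arccos (by norm_num) (by norm_num)
  have k9 := hor_gain hΦ (x := (81 / 125)) (x' := (3561 / 10000)) q9 q8 p
    (by norm_num) (4973 / 10000) (149 / 125) (1061 / 1000) (19 / 25) (464 / 625) (221 / 1000) (137 / 625) (4127 / 10000) (753 / 5000) (281 / 100000)
    (by norm_num) (by norm_num) (by norm_num) (by norm_num) (by norm_num) (by norm_num)
    (by norm_num) (by norm_num) (by norm_num) (by norm_num) (by norm_num) (by norm_num)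
    (by norm_num) (by norm_num) (by norm_num) (by norm_num) (by norm_num) (by norm_num)
    (by norm_num) (by norm_num) (by norm_num) (by norm_num) (by norm_num)
  have q10 : Pt (Real.arccos (7 / 10)) (7 / 10) := Pt_arccos (by norm_num) (by norm_num)
  have k10 := hor_gain hΦ (x := (81 / 125)) (x' := (3561 / 10000)) q10 q9 p
    (by norm_num) (499 / 1000) (149 / 125) (1061 / 1000) (19 / 25) (3643 / 5000) (213 / 1000) (2113 / 10000) (4387 / 10000) (371 / 2500) (69 / 25000)
    (by norm_num) (by norm_num) (by norm_num) (by norm_num) (by norm_num) (by norm_num)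
    (by norm_num) (by norm_num) (by norm_num) (by norm_num) (by norm_num) (by norm_num)
    (by norm_num) (by norm_num) (by norm_num) (by norm_num) (by norm_num) (by norm_num)
    (by norm_num) (by norm_num) (by norm_num) (by norm_num) (by norm_num)
  have q11 : Pt (Real.arccos (18 / 25)) (18 / 25) := Pt_arccos (by norm_num) (by norm_num)
  have k11 := hor_gain hΦ (x := (81 / 125)) (x' := (3561 / 10000)) q11 q10 p
    (by norm_num) (1249 / 2500) (149 / 125) (1061 / 1000) (19 / 25) (3571 / 5000) (201 / 1000) (499 / 2500) (4723 / 10000) (361 / 2500) (71 / 20000)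
    (by norm_num) (by norm_num) (by norm_num) (by norm_num) (by norm_num) (by norm_num)
    (by norm_num) (by norm_num) (by norm_num) (by norm_num) (by norm_num) (by norm_num)
    (by norm_num) (by norm_num) (by norm_num) (by norm_num) (by norm_num) (by norm_num)
    (by norm_num) (by norm_num) (by norm_num) (by norm_num) (by norm_num)
  linarith

/-- The corner pT, (.85, .25). -/
theorem gpT7 (hΦ : IsPhi Φ) (h0 : Φ 0 0 = c00) : 181 / 2500 ≤
    gT Φ (Real.arccos (18 / 25)) (Real.arccos (13 / 20)) (6639 / 10000) (13 / 40) := by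
  have p : Pt (Real.arccos (13 / 20)) (13 / 20) := Pt_arccos (by norm_num) (by norm_num)
  have k0 : 0 ≤ gT Φ (Real.arccos (13 / 20)) (Real.arccos (13 / 20)) (16 / 25) (16 / 25) :=
    gT_nonneg hΦ h0 p (by norm_num) (by norm_num)
  have k1 := leg_c' hΦ p (xa := (107 / 200)) (xb := (16 / 25)) (x' := (16 / 25))
    (17 / 50) (31 / 250) (46 / 25) (1 / 200) (297 / 250) (1241 / 100000)
    (by norm_num) (by norm_num) (by norm_num) (by norm_num) (by norm_num) (by norm_num)
    (by norm_num) (by norm_num) (by norm_num) (by norm_num) (by norm_num) (by norm_num)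
    (by norm_num) (by rw [Dtc]; norm_num) (by rw [Dtc]; norm_num) (by rw [Dtc]; norm_num)
    (by norm_num)
  have k2 := leg_c' hΦ p (xa := (43 / 100)) (xb := (107 / 200)) (x' := (16 / 25))
    (23 / 100) (317 / 1000) (73 / 50) (4 / 125) (227 / 200) (1159 / 50000)
    (by norm_num) (by norm_num) (by norm_num) (by norm_num) (by norm_num) (by norm_num)
    (by norm_num) (by norm_num) (by norm_num) (by norm_num) (by norm_num) (by norm_num)
    (by norm_num) (by rw [Dtc]; norm_num) (by rw [Dtc]; norm_num) (by rw [Dtc]; norm_num)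
    (by norm_num)
  have k3 := leg_c' hΦ p (xa := (13 / 40)) (xb := (43 / 100)) (x' := (16 / 25))
    (7 / 50) (119 / 250) (69 / 50) (7 / 100) (1089 / 1000) (1683 / 50000)
    (by norm_num) (by norm_num) (by norm_num) (by norm_num) (by norm_num) (by norm_num)
    (by norm_num) (by norm_num) (by norm_num) (by norm_num) (by norm_num) (by norm_num)
    (by norm_num) (by rw [Dtc]; norm_num) (by rw [Dtc]; norm_num) (by rw [Dtc]; norm_num)
    (by norm_num)
  have k4 := upper_leg hΦ p (xa := (16 / 25)) (xb := (6639 / 10000)) (x' := (13 / 40))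
    (369 / 500) (671 / 1000) (361 / 2000) (3771 / 10000) (1187 / 1000) (1201 / 1000) (263 / 250) (19 / 25) (947 / 100000)
    (by norm_num) (by norm_num) (by norm_num) (by norm_num) (by norm_num) (by norm_num)
    (by norm_num) (by norm_num) (by norm_num) (by norm_num) (by norm_num) (by norm_num)
    (by norm_num) (by norm_num) (by norm_num) (by norm_num) (by norm_num) (by norm_num)
    (by norm_num) (by norm_num) (by norm_num) (by norm_num) (by norm_num) (by norm_num)
  have q5 : Pt (Real.arccos (137 / 200)) (137 / 200) := Pt_arccos (by norm_num) (by norm_num)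
  have k5 := hor_gain hΦ (x := (6639 / 10000)) (x' := (13 / 40)) q5 p p
    (by norm_num) (4939 / 10000) (1201 / 1000) (1051 / 1000) (19 / 25) (19 / 25) (221 / 1000) (137 / 625) (2181 / 5000) (1543 / 10000) (321 / 50000)
    (by norm_num) (by norm_num) (by norm_num) (by norm_num) (by norm_num) (by norm_num)
    (by norm_num) (by norm_num) (by norm_num) (by norm_num) (by norm_num) (by norm_num)
    (by norm_num) (by norm_num) (by norm_num) (by norm_num) (by norm_num) (by norm_num)
    (by norm_num) (by norm_num) (by norm_num) (by norm_num) (by norm_num)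
  have q6 : Pt (Real.arccos (18 / 25)) (18 / 25) := Pt_arccos (by norm_num) (by norm_num)
  have k6 := hor_gain hΦ (x := (6639 / 10000)) (x' := (13 / 40)) q6 q5 p
    (by norm_num) (499 / 1000) (1201 / 1000) (1051 / 1000) (19 / 25) (3643 / 5000) (41 / 200) (407 / 2000) (2461 / 5000) (3 / 20) (311 / 50000)
    (by norm_num) (by norm_num) (by norm_num) (by norm_num) (by norm_num) (by norm_num)
    (by norm_num) (by norm_num) (by norm_num) (by norm_num) (by norm_num) (by norm_num)
    (by norm_num) (by norm_num) (by norm_num) (by norm_num) (by norm_num) (by norm_num)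
    (by norm_num) (by norm_num) (by norm_num) (by norm_num) (by norm_num)
  linarith

/-- The corner pT, (.94, .2). -/
theorem gpT8 (hΦ : IsPhi Φ) (h0 : Φ 0 0 = c00) : 187 / 2500 ≤
    gT Φ (Real.arccos (18 / 25)) (Real.arccos (13 / 20)) (6981 / 10000) (2907 / 10000) := by
  have p : Pt (Real.arccos (13 / 20)) (13 / 20) := Pt_arccos (by norm_num) (by norm_num)
  have k0 : 0 ≤ gT Φ (Real.arccos (13 / 20)) (Real.arccos (13 / 20)) (129 / 200) (129 / 200) :=
    gT_nonneg hΦ h0 p (by norm_num) (by norm_num)
  have k1 := leg_c' hΦ p (xa := (293 / 500)) (xb := (129 / 200)) (x' := (129 / 200))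
    (37 / 100) (91 / 1000) (47 / 20) (1 / 500) (119 / 100) (253 / 50000)
    (by norm_num) (by norm_num) (by norm_num) (by norm_num) (by norm_num) (by norm_num)
    (by norm_num) (by norm_num) (by norm_num) (by norm_num) (by norm_num) (by norm_num)
    (by norm_num) (by rw [Dtc]; norm_num) (by rw [Dtc]; norm_num) (by rw [Dtc]; norm_num)
    (by norm_num)
  have k2 := leg_c' hΦ p (xa := (527 / 1000)) (xb := (293 / 500)) (x' := (129 / 200))
    (31 / 100) (23 / 100) (81 / 50) (17 / 1000) (29 / 25) (899 / 100000)
    (by norm_num) (by norm_num) (by norm_num) (by norm_num) (by norm_num) (by norm_num)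
    (by norm_num) (by norm_num) (by norm_num) (by norm_num) (by norm_num) (by norm_num)
    (by norm_num) (by rw [Dtc]; norm_num) (by rw [Dtc]; norm_num) (by rw [Dtc]; norm_num)
    (by norm_num)
  have k3 := leg_c' hΦ p (xa := (117 / 250)) (xb := (527 / 1000)) (x' := (129 / 200))
    (6 / 25) (163 / 500) (77 / 50) (17 / 500) (1131 / 1000) (1233 / 100000)
    (by norm_num) (by norm_num) (by norm_num) (by norm_num) (by norm_num) (by norm_num)
    (by norm_num) (by norm_num) (by norm_num) (by norm_num) (by norm_num) (by norm_num)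
    (by norm_num) (by rw [Dtc]; norm_num) (by rw [Dtc]; norm_num) (by rw [Dtc]; norm_num)
    (by norm_num)
  have k4 := leg_c' hΦ p (xa := (409 / 1000)) (xb := (117 / 250)) (x' := (129 / 200))
    (19 / 100) (419 / 1000) (71 / 50) (11 / 200) (221 / 200) (783 / 50000)
    (by norm_num) (by norm_num) (by norm_num) (by norm_num) (by norm_num) (by norm_num)
    (by norm_num) (by norm_num) (by norm_num) (by norm_num) (by norm_num) (by norm_num)
    (by norm_num) (by rw [Dtc]; norm_num) (by rw [Dtc]; norm_num) (by rw [Dtc]; norm_num)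
    (by norm_num)
  have k5 := leg_c' hΦ p (xa := (7 / 20)) (xb := (409 / 1000)) (x' := (129 / 200))
    (7 / 50) (507 / 1000) (7 / 5) (79 / 1000) (1081 / 1000) (381 / 20000)
    (by norm_num) (by norm_num) (by norm_num) (by norm_num) (by norm_num) (by norm_num)
    (by norm_num) (by norm_num) (by norm_num) (by norm_num) (by norm_num) (by norm_num)
    (by norm_num) (by rw [Dtc]; norm_num) (by rw [Dtc]; norm_num) (by rw [Dtc]; norm_num)
    (by norm_num)
  have k6 := leg_c' hΦ p (xa := (2907 / 10000)) (xb := (7 / 20)) (x' := (129 / 200))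
    (1 / 10) (149 / 250) (133 / 100) (107 / 1000) (53 / 50) (2263 / 100000)
    (by norm_num) (by norm_num) (by norm_num) (by norm_num) (by norm_num) (by norm_num)
    (by norm_num) (by norm_num) (by norm_num) (by norm_num) (by norm_num) (by norm_num)
    (by norm_num) (by rw [Dtc]; norm_num) (by rw [Dtc]; norm_num) (by rw [Dtc]; norm_num)
    (by norm_num)
  have k7 := upper_leg hΦ p (xa := (129 / 200)) (xb := (663 / 1000)) (x' := (2907 / 10000))
    (193 / 250) (139 / 200) (197 / 1000) (4019 / 10000) (1189 / 1000) (6 / 5) (521 / 500) (19 / 25) (149 / 20000)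
    (by norm_num) (by norm_num) (by norm_num) (by norm_num) (by norm_num) (by norm_num)
    (by norm_num) (by norm_num) (by norm_num) (by norm_num) (by norm_num) (by norm_num)
    (by norm_num) (by norm_num) (by norm_num) (by norm_num) (by norm_num) (by norm_num)
    (by norm_num) (by norm_num) (by norm_num) (by norm_num) (by norm_num) (by norm_num)
  have k8 := upper_leg hΦ p (xa := (663 / 1000)) (xb := (17 / 25)) (x' := (2907 / 10000))
    (153 / 200) (69 / 100) (461 / 2500) (2021 / 5000) (1199 / 1000) (121 / 100) (521 / 500) (19 / 25) (691 / 100000)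
    (by norm_num) (by norm_num) (by norm_num) (by norm_num) (by norm_num) (by norm_num)
    (by norm_num) (by norm_num) (by norm_num) (by norm_num) (by norm_num) (by norm_num)
    (by norm_num) (by norm_num) (by norm_num) (by norm_num) (by norm_num) (by norm_num)
    (by norm_num) (by norm_num) (by norm_num) (by norm_num) (by norm_num) (by norm_num)
  have k9 := upper_leg hΦ p (xa := (17 / 25)) (xb := (6981 / 10000)) (x' := (2907 / 10000))
    (759 / 1000) (343 / 500) (1729 / 10000) (4067 / 10000) (1209 / 1000) (61 / 50) (521 / 500) (19 / 25) (181 / 25000)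
    (by norm_num) (by norm_num) (by norm_num) (by norm_num) (by norm_num) (by norm_num)
    (by norm_num) (by norm_num) (by norm_num) (by norm_num) (by norm_num) (by norm_num)
    (by norm_num) (by norm_num) (by norm_num) (by norm_num) (by norm_num) (by norm_num)
    (by norm_num) (by norm_num) (by norm_num) (by norm_num) (by norm_num) (by norm_num)
  have q10 : Pt (Real.arccos (67 / 100)) (67 / 100) := Pt_arccos (by norm_num) (by norm_num)
  have k10 := hor_gain hΦ (x := (6981 / 10000)) (x' := (2907 / 10000)) q10 p p
    (by norm_num) (4939 / 10000) (61 / 50) (1041 / 1000) (19 / 25) (19 / 25) (223 / 1000) (2211 / 10000) (4377 / 10000) (1559 / 10000) (37 / 10000)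
    (by norm_num) (by norm_num) (by norm_num) (by norm_num) (by norm_num) (by norm_num)
    (by norm_num) (by norm_num) (by norm_num) (by norm_num) (by norm_num) (by norm_num)
    (by norm_num) (by norm_num) (by norm_num) (by norm_num) (by norm_num) (by norm_num)
    (by norm_num) (by norm_num) (by norm_num) (by norm_num) (by norm_num)
  have q11 : Pt (Real.arccos (137 / 200)) (137 / 200) := Pt_arccos (by norm_num) (by norm_num)
  have k11 := hor_gain hΦ (x := (6981 / 10000)) (x' := (2907 / 10000)) q11 q10 p
    (by norm_num) (4973 / 10000) (61 / 50) (1041 / 1000) (19 / 25) (464 / 625) (217 / 1000) (269 / 1250) (1151 / 2500) (31 / 200) (69 / 25000)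
    (by norm_num) (by norm_num) (by norm_num) (by norm_num) (by norm_num) (by norm_num)
    (by norm_num) (by norm_num) (by norm_num) (by norm_num) (by norm_num) (by norm_num)
    (by norm_num) (by norm_num) (by norm_num) (by norm_num) (by norm_num) (by norm_num)
    (by norm_num) (by norm_num) (by norm_num) (by norm_num) (by norm_num)
  have q12 : Pt (Real.arccos (7 / 10)) (7 / 10) := Pt_arccos (by norm_num) (by norm_num)
  have k12 := hor_gain hΦ (x := (6981 / 10000)) (x' := (2907 / 10000)) q12 q11 p
    (by norm_num) (499 / 1000) (61 / 50) (1041 / 1000) (19 / 25) (3643 / 5000) (21 / 100) (521 / 2500) (4827 / 10000) (1529 / 10000) (273 / 100000)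
    (by norm_num) (by norm_num) (by norm_num) (by norm_num) (by norm_num) (by norm_num)
    (by norm_num) (by norm_num) (by norm_num) (by norm_num) (by norm_num) (by norm_num)
    (by norm_num) (by norm_num) (by norm_num) (by norm_num) (by norm_num) (by norm_num)
    (by norm_num) (by norm_num) (by norm_num) (by norm_num) (by norm_num)
  have q13 : Pt (Real.arccos (18 / 25)) (18 / 25) := Pt_arccos (by norm_num) (by norm_num)
  have k13 := hor_gain hΦ (x := (6981 / 10000)) (x' := (2907 / 10000)) q13 q12 p
    (by norm_num) (1249 / 2500) (61 / 50) (1041 / 1000) (19 / 25) (3571 / 5000) (1 / 5) (993 / 5000) (1279 / 2500) (149 / 1000) (177 / 50000)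
    (by norm_num) (by norm_num) (by norm_num) (by norm_num) (by norm_num) (by norm_num)
    (by norm_num) (by norm_num) (by norm_num) (by norm_num) (by norm_num) (by norm_num)
    (by norm_num) (by norm_num) (by norm_num) (by norm_num) (by norm_num) (by norm_num)
    (by norm_num) (by norm_num) (by norm_num) (by norm_num) (by norm_num)
  linarith

/-- The corner pT, (1, .1). -/
theorem gpT9 (hΦ : IsPhi Φ) (h0 : Φ 0 0 = c00) : 493 / 5000 ≤
    gT Φ (Real.arccos (18 / 25)) (Real.arccos (13 / 20)) (18 / 25) (257 / 1250) := by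
  have p : Pt (Real.arccos (13 / 20)) (13 / 20) := Pt_arccos (by norm_num) (by norm_num)
  have k0 : 0 ≤ gT Φ (Real.arccos (13 / 20)) (Real.arccos (13 / 20)) (16 / 25) (16 / 25) :=
    gT_nonneg hΦ h0 p (by norm_num) (by norm_num)
  have k1 := leg_c' hΦ p (xa := (531 / 1000)) (xb := (16 / 25)) (x' := (16 / 25))
    (17 / 50) (31 / 250) (91 / 50) (1 / 200) (297 / 250) (1303 / 100000)
    (by norm_num) (by norm_num) (by norm_num) (by norm_num) (by norm_num) (by norm_num)
    (by norm_num) (by norm_num) (by norm_num) (by norm_num) (by norm_num) (by norm_num)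
    (by norm_num) (by rw [Dtc]; norm_num) (by rw [Dtc]; norm_num) (by rw [Dtc]; norm_num)
    (by norm_num)
  have k2 := leg_c' hΦ p (xa := (423 / 1000)) (xb := (531 / 1000)) (x' := (16 / 25))
    (23 / 100) (13 / 40) (71 / 50) (17 / 500) (1133 / 1000) (2437 / 100000)
    (by norm_num) (by norm_num) (by norm_num) (by norm_num) (by norm_num) (by norm_num)
    (by norm_num) (by norm_num) (by norm_num) (by norm_num) (by norm_num) (by norm_num)
    (by norm_num) (by rw [Dtc]; norm_num) (by rw [Dtc]; norm_num) (by rw [Dtc]; norm_num)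
    (by norm_num)
  have k3 := leg_c' hΦ p (xa := (157 / 500)) (xb := (423 / 1000)) (x' := (16 / 25))
    (13 / 100) (483 / 1000) (7 / 5) (9 / 125) (543 / 500) (3573 / 100000)
    (by norm_num) (by norm_num) (by norm_num) (by norm_num) (by norm_num) (by norm_num)
    (by norm_num) (by norm_num) (by norm_num) (by norm_num) (by norm_num) (by norm_num)
    (by norm_num) (by rw [Dtc]; norm_num) (by rw [Dtc]; norm_num) (by rw [Dtc]; norm_num)
    (by norm_num)
  have k4 := leg_c' hΦ p (xa := (257 / 1250)) (xb := (157 / 500)) (x' := (16 / 25))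
    (7 / 100) (651 / 1000) (117 / 100) (1 / 8) (1049 / 1000) (4699 / 100000)
    (by norm_num) (by norm_num) (by norm_num) (by norm_num) (by norm_num) (by norm_num)
    (by norm_num) (by norm_num) (by norm_num) (by norm_num) (by norm_num) (by norm_num)
    (by norm_num) (by rw [Dtc]; norm_num) (by rw [Dtc]; norm_num) (by rw [Dtc]; norm_num)
    (by norm_num)
  have k5 := upper_leg hΦ p (xa := (16 / 25)) (xb := (667 / 1000)) (x' := (257 / 1250))
    (857 / 1000) (94 / 125) (1257 / 5000) (2261 / 5000) (1187 / 1000) (1203 / 1000) (1021 / 1000) (19 / 25) (621 / 50000)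
    (by norm_num) (by norm_num) (by norm_num) (by norm_num) (by norm_num) (by norm_num)
    (by norm_num) (by norm_num) (by norm_num) (by norm_num) (by norm_num) (by norm_num)
    (by norm_num) (by norm_num) (by norm_num) (by norm_num) (by norm_num) (by norm_num)
    (by norm_num) (by norm_num) (by norm_num) (by norm_num) (by norm_num) (by norm_num)
  have k6 := upper_leg hΦ p (xa := (667 / 1000)) (xb := (693 / 1000)) (x' := (257 / 1250))
    (423 / 500) (149 / 200) (146 / 625) (911 / 2000) (601 / 500) (1217 / 1000) (1021 / 1000) (19 / 25) (583 / 50000)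
    (by norm_num) (by norm_num) (by norm_num) (by norm_num) (by norm_num) (by norm_num)
    (by norm_num) (by norm_num) (by norm_num) (by norm_num) (by norm_num) (by norm_num)
    (by norm_num) (by norm_num) (by norm_num) (by norm_num) (by norm_num) (by norm_num)
    (by norm_num) (by norm_num) (by norm_num) (by norm_num) (by norm_num) (by norm_num)
  have k7 := upper_leg hΦ p (xa := (693 / 1000)) (xb := (18 / 25)) (x' := (257 / 1250))
    (837 / 1000) (739 / 1000) (1087 / 5000) (4587 / 10000) (152 / 125) (1233 / 1000) (1021 / 1000) (19 / 25) (37 / 3125)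
    (by norm_num) (by norm_num) (by norm_num) (by norm_num) (by norm_num) (by norm_num)
    (by norm_num) (by norm_num) (by norm_num) (by norm_num) (by norm_num) (by norm_num)
    (by norm_num) (by norm_num) (by norm_num) (by norm_num) (by norm_num) (by norm_num)
    (by norm_num) (by norm_num) (by norm_num) (by norm_num) (by norm_num) (by norm_num)
  have q8 : Pt (Real.arccos (137 / 200)) (137 / 200) := Pt_arccos (by norm_num) (by norm_num)
  have k8 := hor_gain hΦ (x := (18 / 25)) (x' := (257 / 1250)) q8 p p
    (by norm_num) (4939 / 10000) (1233 / 1000) (51 / 50) (19 / 25) (19 / 25) (253 / 1000) (2503 / 10000) (5063 / 10000) (1911 / 10000) (733 / 100000)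
    (by norm_num) (by norm_num) (by norm_num) (by norm_num) (by norm_num) (by norm_num)
    (by norm_num) (by norm_num) (by norm_num) (by norm_num) (by norm_num) (by norm_num)
    (by norm_num) (by norm_num) (by norm_num) (by norm_num) (by norm_num) (by norm_num)
    (by norm_num) (by norm_num) (by norm_num) (by norm_num) (by norm_num)
  have q9 : Pt (Real.arccos (18 / 25)) (18 / 25) := Pt_arccos (by norm_num) (by norm_num)
  have k9 := hor_gain hΦ (x := (18 / 25)) (x' := (257 / 1250)) q9 q8 p
    (by norm_num) (499 / 1000) (1233 / 1000) (51 / 50) (19 / 25) (3643 / 5000) (237 / 1000) (2347 / 10000) (2759 / 5000) (1853 / 10000) (717 / 100000)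
    (by norm_num) (by norm_num) (by norm_num) (by norm_num) (by norm_num) (by norm_num)
    (by norm_num) (by norm_num) (by norm_num) (by norm_num) (by norm_num) (by norm_num)
    (by norm_num) (by norm_num) (by norm_num) (by norm_num) (by norm_num) (by norm_num)
    (by norm_num) (by norm_num) (by norm_num) (by norm_num) (by norm_num)
  linarith

/-- The corner nT, (.8, .37). -/
theorem gnT1 (hΦ : IsPhi Φ) (h0 : Φ 0 0 = c00) : 703 / 10000 ≤
    gT Φ (Real.arccos (31 / 50)) (Real.arccos (13 / 20)) (2773 / 5000) (1977 / 5000) := by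
  have p : Pt (Real.arccos (31 / 50)) (31 / 50) := Pt_arccos (by norm_num) (by norm_num)
  have k0 : 0 ≤ gT Φ (Real.arccos (31 / 50)) (Real.arccos (31 / 50)) (61 / 100) (61 / 100) :=
    gT_nonneg hΦ h0 p (by norm_num) (by norm_num)
  have k1 := leg_c hΦ p (xa := (291 / 500)) (xb := (61 / 100)) (x' := (61 / 100))
    (7 / 20) (147 / 1000) 2 (7 / 1000) (293 / 250) (133 / 50000)
    (by norm_num) (by norm_num) (by norm_num) (by norm_num) (by norm_num) (by norm_num)
    (by norm_num) (by norm_num) (by norm_num) (by norm_num) (by norm_num) (by norm_num)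
    (by norm_num) (by rw [Dtc]; norm_num) (by rw [Dtc]; norm_num) (by rw [Dtc]; norm_num)
    (by norm_num)
  have k2 := leg_c hΦ p (xa := (2773 / 5000)) (xb := (291 / 500)) (x' := (61 / 100))
    (8 / 25) (101 / 500) (171 / 100) (13 / 1000) (579 / 500) (339 / 100000)
    (by norm_num) (by norm_num) (by norm_num) (by norm_num) (by norm_num) (by norm_num)
    (by norm_num) (by norm_num) (by norm_num) (by norm_num) (by norm_num) (by norm_num)
    (by norm_num) (by rw [Dtc]; norm_num) (by rw [Dtc]; norm_num) (by rw [Dtc]; norm_num)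
    (by norm_num)
  have k3 := leg_c' hΦ p (xa := (269 / 500)) (xb := (61 / 100)) (x' := (2773 / 5000))
    (33 / 100) (83 / 250) (47 / 50) (7 / 200) (293 / 250) (143 / 10000)
    (by norm_num) (by norm_num) (by norm_num) (by norm_num) (by norm_num) (by norm_num)
    (by norm_num) (by norm_num) (by norm_num) (by norm_num) (by norm_num) (by norm_num)
    (by norm_num) (by rw [Dtc]; norm_num) (by rw [Dtc]; norm_num) (by rw [Dtc]; norm_num)
    (by norm_num)
  have k4 := leg_c' hΦ p (xa := (467 / 1000)) (xb := (269 / 500)) (x' := (2773 / 5000))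
    (1 / 4) (201 / 500) (21 / 20) (51 / 1000) (142 / 125) (1747 / 100000)
    (by norm_num) (by norm_num) (by norm_num) (by norm_num) (by norm_num) (by norm_num)
    (by norm_num) (by norm_num) (by norm_num) (by norm_num) (by norm_num) (by norm_num)
    (by norm_num) (by rw [Dtc]; norm_num) (by rw [Dtc]; norm_num) (by rw [Dtc]; norm_num)
    (by norm_num)
  have k5 := leg_c' hΦ p (xa := (1977 / 5000)) (xb := (467 / 1000)) (x' := (2773 / 5000))
    (9 / 50) (479 / 1000) (117 / 100) (71 / 1000) (138 / 125) (43 / 2000)
    (by norm_num) (by norm_num) (by norm_num) (by norm_num) (by norm_num) (by norm_num)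
    (by norm_num) (by norm_num) (by norm_num) (by norm_num) (by norm_num) (by norm_num)
    (by norm_num) (by rw [Dtc]; norm_num) (by rw [Dtc]; norm_num) (by rw [Dtc]; norm_num)
    (by norm_num)
  have q6 : Pt (Real.arccos (13 / 20)) (13 / 20) := Pt_arccos (by norm_num) (by norm_num)
  have k6 := hor_gain' hΦ (x := (2773 / 5000)) (x' := (1977 / 5000)) q6 p p
    (by norm_num) (304 / 625) (269 / 250) (1143 / 1000) (7847 / 10000) (7847 / 10000) (47 / 100) (2263 / 5000) (307 / 2500) (689 / 2500) (1101 / 100000)
    (by norm_num) (by norm_num) (by norm_num) (by norm_num) (by norm_num) (by norm_num)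
    (by norm_num) (by norm_num) (by norm_num) (by norm_num) (by norm_num) (by norm_num)
    (by norm_num) (by norm_num) (by norm_num) (by norm_num) (by norm_num) (by norm_num)
    (by norm_num) (by norm_num) (by norm_num) (by norm_num) (by norm_num)
  linarith

/-- The corner nT, (.85, .3). -/
theorem gnT2 (hΦ : IsPhi Φ) (h0 : Φ 0 0 = c00) : 391 / 5000 ≤
    gT Φ (Real.arccos (31 / 50)) (Real.arccos (13 / 20)) (5717 / 10000) (3561 / 10000) := by
  have p : Pt (Real.arccos (31 / 50)) (31 / 50) := Pt_arccos (by norm_num) (by norm_num)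
  have k0 : 0 ≤ gT Φ (Real.arccos (31 / 50)) (Real.arccos (31 / 50)) (61 / 100) (61 / 100) :=
    gT_nonneg hΦ h0 p (by norm_num) (by norm_num)
  have k1 := leg_c hΦ p (xa := (591 / 1000)) (xb := (61 / 100)) (x' := (61 / 100))
    (9 / 25) (149 / 1000) (97 / 50) (7 / 1000) (293 / 250) (43 / 25000)
    (by norm_num) (by norm_num) (by norm_num) (by norm_num) (by norm_num) (by norm_num)
    (by norm_num) (by norm_num) (by norm_num) (by norm_num) (by norm_num) (by norm_num)
    (by norm_num) (by rw [Dtc]; norm_num) (by rw [Dtc]; norm_num) (by rw [Dtc]; norm_num)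
    (by norm_num)
  have k2 := leg_c hΦ p (xa := (5717 / 10000)) (xb := (591 / 1000)) (x' := (61 / 100))
    (33 / 100) (93 / 500) (181 / 100) (11 / 1000) (581 / 500) (43 / 20000)
    (by norm_num) (by norm_num) (by norm_num) (by norm_num) (by norm_num) (by norm_num)
    (by norm_num) (by norm_num) (by norm_num) (by norm_num) (by norm_num) (by norm_num)
    (by norm_num) (by rw [Dtc]; norm_num) (by rw [Dtc]; norm_num) (by rw [Dtc]; norm_num)
    (by norm_num)
  have k3 := leg_c' hΦ p (xa := (21 / 40)) (xb := (61 / 100)) (x' := (5717 / 10000))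
    (8 / 25) (71 / 250) (11 / 10) (13 / 500) (293 / 250) (1527 / 100000)
    (by norm_num) (by norm_num) (by norm_num) (by norm_num) (by norm_num) (by norm_num)
    (by norm_num) (by norm_num) (by norm_num) (by norm_num) (by norm_num) (by norm_num)
    (by norm_num) (by rw [Dtc]; norm_num) (by rw [Dtc]; norm_num) (by rw [Dtc]; norm_num)
    (by norm_num)
  have k4 := leg_c' hΦ p (xa := (441 / 1000)) (xb := (21 / 40)) (x' := (5717 / 10000))
    (23 / 100) (379 / 1000) (119 / 100) (9 / 200) (113 / 100) (203 / 10000)
    (by norm_num) (by norm_num) (by norm_num) (by norm_num) (by norm_num) (by norm_num)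
    (by norm_num) (by norm_num) (by norm_num) (by norm_num) (by norm_num) (by norm_num)
    (by norm_num) (by rw [Dtc]; norm_num) (by rw [Dtc]; norm_num) (by rw [Dtc]; norm_num)
    (by norm_num)
  have k5 := leg_c' hΦ p (xa := (3561 / 10000)) (xb := (441 / 1000)) (x' := (5717 / 10000))
    (4 / 25) (121 / 250) (61 / 50) (9 / 125) (1093 / 1000) (2649 / 100000)
    (by norm_num) (by norm_num) (by norm_num) (by norm_num) (by norm_num) (by norm_num)
    (by norm_num) (by norm_num) (by norm_num) (by norm_num) (by norm_num) (by norm_num)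
    (by norm_num) (by rw [Dtc]; norm_num) (by rw [Dtc]; norm_num) (by rw [Dtc]; norm_num)
    (by norm_num)
  have q6 : Pt (Real.arccos (13 / 20)) (13 / 20) := Pt_arccos (by norm_num) (by norm_num)
  have k6 := hor_gain' hΦ (x := (5717 / 10000)) (x' := (3561 / 10000)) q6 p p
    (by norm_num) (304 / 625) (531 / 500) (1151 / 1000) (7847 / 10000) (7847 / 10000) (53 / 100) (5051 / 10000) (881 / 10000) (323 / 1000) (1229 / 100000)
    (by norm_num) (by norm_num) (by norm_num) (by norm_num) (by norm_num) (by norm_num)
    (by norm_num) (by norm_num) (by norm_num) (by norm_num) (by norm_num) (by norm_num)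
    (by norm_num) (by norm_num) (by norm_num) (by norm_num) (by norm_num) (by norm_num)
    (by norm_num) (by norm_num) (by norm_num) (by norm_num) (by norm_num)
  linarith

/-- The corner nT, (.94, .2). -/
theorem gnT3 (hΦ : IsPhi Φ) (h0 : Φ 0 0 = c00) : 181 / 2000 ≤
    gT Φ (Real.arccos (31 / 50)) (Real.arccos (13 / 20)) (1503 / 2500) (2907 / 10000) := by
  have p : Pt (Real.arccos (31 / 50)) (31 / 50) := Pt_arccos (by norm_num) (by norm_num)
  have k0 : 0 ≤ gT Φ (Real.arccos (31 / 50)) (Real.arccos (31 / 50)) (61 / 100) (61 / 100) :=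
    gT_nonneg hΦ h0 p (by norm_num) (by norm_num)
  have k1 := leg_c hΦ p (xa := (303 / 500)) (xb := (61 / 100)) (x' := (61 / 100))
    (9 / 25) (149 / 1000) (9 / 4) (7 / 1000) (293 / 250) (33 / 100000)
    (by norm_num) (by norm_num) (by norm_num) (by norm_num) (by norm_num) (by norm_num)
    (by norm_num) (by norm_num) (by norm_num) (by norm_num) (by norm_num) (by norm_num)
    (by norm_num) (by rw [Dtc]; norm_num) (by rw [Dtc]; norm_num) (by rw [Dtc]; norm_num)
    (by norm_num)
  have k2 := leg_c hΦ p (xa := (1503 / 2500)) (xb := (303 / 500)) (x' := (61 / 100))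
    (9 / 25) (79 / 500) (52 / 25) (1 / 125) (117 / 100) (21 / 50000)
    (by norm_num) (by norm_num) (by norm_num) (by norm_num) (by norm_num) (by norm_num)
    (by norm_num) (by norm_num) (by norm_num) (by norm_num) (by norm_num) (by norm_num)
    (by norm_num) (by rw [Dtc]; norm_num) (by rw [Dtc]; norm_num) (by rw [Dtc]; norm_num)
    (by norm_num)
  have k3 := leg_c' hΦ p (xa := (63 / 125)) (xb := (61 / 100)) (x' := (1503 / 2500))
    (31 / 100) (87 / 500) (153 / 100) (1 / 100) (293 / 250) (367 / 25000)
    (by norm_num) (by norm_num) (by norm_num) (by norm_num) (by norm_num) (by norm_num)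
    (by norm_num) (by norm_num) (by norm_num) (by norm_num) (by norm_num) (by norm_num)
    (by norm_num) (by rw [Dtc]; norm_num) (by rw [Dtc]; norm_num) (by rw [Dtc]; norm_num)
    (by norm_num)
  have k4 := leg_c' hΦ p (xa := (397 / 1000)) (xb := (63 / 125)) (x' := (1503 / 2500))
    (1 / 5) (42 / 125) (71 / 50) (9 / 250) (28 / 25) (501 / 20000)
    (by norm_num) (by norm_num) (by norm_num) (by norm_num) (by norm_num) (by norm_num)
    (by norm_num) (by norm_num) (by norm_num) (by norm_num) (by norm_num) (by norm_num)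
    (by norm_num) (by rw [Dtc]; norm_num) (by rw [Dtc]; norm_num) (by rw [Dtc]; norm_num)
    (by norm_num)
  have k5 := leg_c' hΦ p (xa := (2907 / 10000)) (xb := (397 / 1000)) (x' := (1503 / 2500))
    (3 / 25) (497 / 1000) (67 / 50) (19 / 250) (269 / 250) (3573 / 100000)
    (by norm_num) (by norm_num) (by norm_num) (by norm_num) (by norm_num) (by norm_num)
    (by norm_num) (by norm_num) (by norm_num) (by norm_num) (by norm_num) (by norm_num)
    (by norm_num) (by rw [Dtc]; norm_num) (by rw [Dtc]; norm_num) (by rw [Dtc]; norm_num)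
    (by norm_num)
  have q6 : Pt (Real.arccos (13 / 20)) (13 / 20) := Pt_arccos (by norm_num) (by norm_num)
  have k6 := hor_gain' hΦ (x := (1503 / 2500)) (x' := (2907 / 10000)) q6 p p
    (by norm_num) (304 / 625) (521 / 500) (583 / 500) (7847 / 10000) (7847 / 10000) (631 / 1000) (5891 / 10000) (131 / 5000) (1029 / 2500) (1433 / 100000)
    (by norm_num) (by norm_num) (by norm_num) (by norm_num) (by norm_num) (by norm_num)
    (by norm_num) (by norm_num) (by norm_num) (by norm_num) (by norm_num) (by norm_num)
    (by norm_num) (by norm_num) (by norm_num) (by norm_num) (by norm_num) (by norm_num)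
    (by norm_num) (by norm_num) (by norm_num) (by norm_num) (by norm_num)
  linarith

/-- The corner nT, (1, .1). -/
theorem gnT4 (hΦ : IsPhi Φ) (h0 : Φ 0 0 = c00) : 1163 / 10000 ≤
    gT Φ (Real.arccos (31 / 50)) (Real.arccos (13 / 20)) (31 / 50) (257 / 1250) := by
  have p : Pt (Real.arccos (31 / 50)) (31 / 50) := Pt_arccos (by norm_num) (by norm_num)
  have k0 : 0 ≤ gT Φ (Real.arccos (31 / 50)) (Real.arccos (31 / 50)) (61 / 100) (61 / 100) :=
    gT_nonneg hΦ h0 p (by norm_num) (by norm_num)
  have k1 := leg_c' hΦ p (xa := (19 / 40)) (xb := (61 / 100)) (x' := (61 / 100))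
    (29 / 100) (103 / 1000) (37 / 20) (3 / 1000) (293 / 250) (167 / 10000)
    (by norm_num) (by norm_num) (by norm_num) (by norm_num) (by norm_num) (by norm_num)
    (by norm_num) (by norm_num) (by norm_num) (by norm_num) (by norm_num) (by norm_num)
    (by norm_num) (by rw [Dtc]; norm_num) (by rw [Dtc]; norm_num) (by rw [Dtc]; norm_num)
    (by norm_num)
  have k2 := leg_c' hΦ p (xa := (17 / 50)) (xb := (19 / 40)) (x' := (61 / 100))
    (17 / 100) (89 / 250) (143 / 100) (1 / 25) (277 / 250) (3509 / 100000)
    (by norm_num) (by norm_num) (by norm_num) (by norm_num) (by norm_num) (by norm_num)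
    (by norm_num) (by norm_num) (by norm_num) (by norm_num) (by norm_num) (by norm_num)
    (by norm_num) (by rw [Dtc]; norm_num) (by rw [Dtc]; norm_num) (by rw [Dtc]; norm_num)
    (by norm_num)
  have k3 := leg_c' hΦ p (xa := (257 / 1250)) (xb := (17 / 50)) (x' := (61 / 100))
    (7 / 100) (14 / 25) (34 / 25) (19 / 200) (1057 / 1000) (659 / 12500)
    (by norm_num) (by norm_num) (by norm_num) (by norm_num) (by norm_num) (by norm_num)
    (by norm_num) (by norm_num) (by norm_num) (by norm_num) (by norm_num) (by norm_num)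
    (by norm_num) (by rw [Dtc]; norm_num) (by rw [Dtc]; norm_num) (by rw [Dtc]; norm_num)
    (by norm_num)
  have k4 := upper_leg hΦ p (xa := (61 / 100)) (xb := (31 / 50)) (x' := (257 / 1250))
    (853 / 1000) (749 / 1000) (2549 / 10000) (4451 / 10000) (1171 / 1000) (1177 / 1000) (1021 / 1000) (157 / 200) (29 / 6250)
    (by norm_num) (by norm_num) (by norm_num) (by norm_num) (by norm_num) (by norm_num)
    (by norm_num) (by norm_num) (by norm_num) (by norm_num) (by norm_num) (by norm_num)
    (by norm_num) (by norm_num) (by norm_num) (by norm_num) (by norm_num) (by norm_num)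
    (by norm_num) (by norm_num) (by norm_num) (by norm_num) (by norm_num) (by norm_num)
  have q5 : Pt (Real.arccos (13 / 20)) (13 / 20) := Pt_arccos (by norm_num) (by norm_num)
  have k5 := hor_gain' hΦ (x := (31 / 50)) (x' := (257 / 1250)) q5 p p
    (by norm_num) (304 / 625) (1021 / 1000) (147 / 125) (7847 / 10000) (7847 / 10000) (149 / 200) (169 / 250) (-251 / 10000) (5433 / 10000) (329 / 20000)
    (by norm_num) (by norm_num) (by norm_num) (by norm_num) (by norm_num) (by norm_num)
    (by norm_num) (by norm_num) (by norm_num) (by norm_num) (by norm_num) (by norm_num)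
    (by norm_num) (by norm_num) (by norm_num) (by norm_num) (by norm_num) (by norm_num)
    (by norm_num) (by norm_num) (by norm_num) (by norm_num) (by norm_num)
  linarith

end

end Pool.Agent.S3.TT
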