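import Pool.Agent.S3.Es13
import Pool.Agent.S3.Ls.Ed

/-!
# Open-open edges next to an inner vertex of multiplicity two: the sums, arithmetic part
-/

set_option autoImplicit false

namespace Pool.Agent.S3.TT

/-- The bounds of the loss `l` of a neighbour of multiplicity at least three, `k = tan² θ`. -/
def L3T (k l : ℝ) : Prop := (k ≤ 1 / 10 ∧ l ≤ 60 / 1000) ∨ (k ≤ 37 / 100 ∧ l ≤ 41 / 1000)

section

variable {t k l l' e e' g : ℝ}

theorem L3T.le37 (h : L3T k l) : k ≤ 37 / 100 := by
  rcases h with h | h <;> linarith [h.1]

theorem L3T.le60 (h : L3T k l) : l ≤ 60 / 1000 := by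
  rcases h with h | h <;> linarith [h.2]

theorem L3T.le41 (h : L3T k l) (hk : 1 / 10 < k) : l ≤ 41 / 1000 := by
  rcases h with h | h
  · linarith [h.1]
  · exact h.2

theorem Lp22_30 (h : Ls.Lp22 t l) : l ≤ 30 / 1000 := by
  rcases lt_or_ge t (1 / 2) with u | u
  · exact h.2.2.2 u
  · exact (h.2.1 u).trans (by norm_num)

theorem le_half (h : Ls.Ln t l) (u : t ≤ 1 / 2) : l ≤ 24 / 1000 := by
  rcases u.lt_or_eq with v | v
  · exact h.2.1 v
  · exact (h.2.2.1 v.ge (v.le.trans (by norm_num))).trans (by norm_num)

/-- The bounds of the excess. -/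
def E4 (t e : ℝ) : Prop := e ≤ 82 / 10000 ∧ (t ≤ 47 / 50 → e ≤ 56 / 10000) ∧
    (t ≤ 17 / 20 → e ≤ 19 / 10000) ∧ (t ≤ 4 / 5 → e ≤ 0)

theorem ar_pp (J : Jt t k) (o : k ≤ t)
    (c1 : t ≤ (1 / 2) → k ≤ (1 / 2) → (493 / 5000) ≤ g)
    (c2 : t ≤ (13 / 20) → k ≤ (127 / 200) → (539 / 10000) ≤ g)
    (c3 : t ≤ (143 / 200) → k ≤ (11 / 20) → (577 / 10000) ≤ g)
    (c4 : t ≤ (81 / 100) → k ≤ (2 / 5) → (703 / 10000) ≤ g)
    (c5 : t ≤ (47 / 50) → k ≤ (1 / 4) → (849 / 10000) ≤ g)
    (c6 : t ≤ 1 → k ≤ (1 / 10) → (311 / 2500) ≤ g)
    (hl : Ls.Lp22 t l) (hl' : Ls.Lp22 k l') (he : E4 t e) (he' : E4 k e') :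
    l + l' + (e + e') < g := by
  rcases le_or_gt k (1 / 10) with a1 | a1
  · have jt := J.t1
    have g1 := c6 (by linarith) (by linarith)
    have g2 := Lp22_30 hl
    have g3 := Lp22_30 hl'
    have g4 := he.1
    have g5 := he'.2.2.2 (by linarith)
    linarith
  rcases le_or_gt k (1 / 5) with a2 | a2
  · have jt := J.j1 a1
    have g1 := c5 (by linarith) (by linarith)
    have g2 := Lp22_30 hl
    have g3 := Lp22_30 hl'
    have g4 := he.2.1 (by linarith)
    have g5 := he'.2.2.2 (by linarith)
    linarith
  rcases le_or_gt k (1 / 4) with a3 | a3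
  · have jt := J.j2 a2
    have g1 := c5 (by linarith) (by linarith)
    have g2 := Lp22_30 hl
    have g3 := Lp22_30 hl'
    have g4 := he.2.2.1 (by linarith)
    have g5 := he'.2.2.2 (by linarith)
    linarith
  rcases le_or_gt k (3 / 10) with a4 | a4
  · have jt := J.j25 a3
    have g1 := c4 (by linarith) (by linarith)
    have g2 := Lp22_30 hl
    have g3 := Lp22_30 hl'
    have g4 := he.2.2.1 (by linarith)
    have g5 := he'.2.2.2 (by linarith)
    linarith
  rcases le_or_gt k (7 / 20) with a5 | a5
  · have jt := J.j3 a4
    have g1 := c4 (by linarith) (by linarith)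
    have g2 := Lp22_30 hl
    have g3 := Lp22_30 hl'
    have g4 := he.2.2.2 (by linarith)
    have g5 := he'.2.2.2 (by linarith)
    linarith
  rcases le_or_gt k (2 / 5) with a6 | a6
  · have jt := J.j35 a5
    have g1 := c4 (by linarith) (by linarith)
    have g2 := Lp22_30 hl
    have g3 := Lp22_30 hl'
    have g4 := he.2.2.2 (by linarith)
    have g5 := he'.2.2.2 (by linarith)
    linarith
  rcases le_or_gt k (9 / 20) with a7 | a7
  · have jt := J.j4 a6
    rcases lt_or_ge (1 / 2) t with u | u
    · have g1 := c3 (by linarith) (by linarith)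
      have g2 := hl.2.1 (by linarith)
      have g3 := Lp22_30 hl'
      have g4 := he.2.2.2 (by linarith)
      have g5 := he'.2.2.2 (by linarith)
      linarith
    clear jt
    rename' u => jt
    have g1 := c1 (by linarith) (by linarith)
    have g2 := Lp22_30 hl
    have g3 := Lp22_30 hl'
    have g4 := he.2.2.2 (by linarith)
    have g5 := he'.2.2.2 (by linarith)
    linarith
  rcases le_or_gt k (1 / 2) with a8 | a8
  · have jt := J.j45 a7
    rcases lt_or_ge (1 / 2) t with u | u
    · have g1 := c3 (by linarith) (by linarith)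
      have g2 := hl.2.1 (by linarith)
      have g3 := Lp22_30 hl'
      have g4 := he.2.2.2 (by linarith)
      have g5 := he'.2.2.2 (by linarith)
      linarith
    clear jt
    rename' u => jt
    have g1 := c1 (by linarith) (by linarith)
    have g2 := Lp22_30 hl
    have g3 := Lp22_30 hl'
    have g4 := he.2.2.2 (by linarith)
    have g5 := he'.2.2.2 (by linarith)
    linarith
  rcases le_or_gt k (11 / 20) with a9 | a9
  · have jt := J.j5 a8
    have g1 := c3 (by linarith) (by linarith)
    have g2 := hl.2.1 (by linarith)
    have g3 := hl'.2.1 (by linarith)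
    have g4 := he.2.2.2 (by linarith)
    have g5 := he'.2.2.2 (by linarith)
    linarith
  rcases le_or_gt k (3 / 5) with a10 | a10
  · have jt := J.j55 a9
    have g1 := c2 (by linarith) (by linarith)
    have g2 := hl.2.1 (by linarith)
    have g3 := hl'.2.1 (by linarith)
    have g4 := he.2.2.2 (by linarith)
    have g5 := he'.2.2.2 (by linarith)
    linarith
  have jt := J.j6 a10
  have g1 := c2 (by linarith) (by linarith)
  have g2 := hl.2.2.1 (by linarith) (by linarith)
  have g3 := hl'.2.2.1 (by linarith) (by linarith)
  have g4 := he.2.2.2 (by linarith)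
  have g5 := he'.2.2.2 (by linarith)
  linarith

theorem ar_nn (J : Jt t k) (o : k ≤ t)
    (c1 : t ≤ (127 / 200) → k ≤ (127 / 200) → (477 / 10000) ≤ g)
    (c2 : t ≤ (13 / 20) → k ≤ (3 / 5) → (503 / 10000) ≤ g)
    (c3 : t ≤ (69 / 100) → k ≤ (11 / 20) → (263 / 5000) ≤ g)
    (c4 : t ≤ (4 / 5) → k ≤ (9 / 20) → (33 / 625) ≤ g)
    (c5 : t ≤ (81 / 100) → k ≤ (3 / 10) → (769 / 10000) ≤ g)
    (c6 : t ≤ 1 → k ≤ (1 / 4) → (609 / 10000) ≤ g)
    (hl : Ls.Ln t l) (hl' : Ls.Ln k l') (he : E4 t e) (he' : E4 k e') :
    l + l' + (e + e') < g := by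
  rcases le_or_gt k (1 / 10) with a1 | a1
  · have jt := J.t1
    have g1 := c6 (by linarith) (by linarith)
    have g2 := hl.1
    have g3 := le_half hl' (by linarith)
    have g4 := he.1
    have g5 := he'.2.2.2 (by linarith)
    linarith
  rcases le_or_gt k (1 / 5) with a2 | a2
  · have jt := J.j1 a1
    have g1 := c6 (by linarith) (by linarith)
    have g2 := hl.1
    have g3 := le_half hl' (by linarith)
    have g4 := he.2.1 (by linarith)
    have g5 := he'.2.2.2 (by linarith)
    linarith
  rcases le_or_gt k (1 / 4) with a3 | a3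
  · have jt := J.j2 a2
    have g1 := c6 (by linarith) (by linarith)
    have g2 := hl.1
    have g3 := le_half hl' (by linarith)
    have g4 := he.2.2.1 (by linarith)
    have g5 := he'.2.2.2 (by linarith)
    linarith
  rcases le_or_gt k (3 / 10) with a4 | a4
  · have jt := J.j25 a3
    have g1 := c5 (by linarith) (by linarith)
    have g2 := hl.1
    have g3 := le_half hl' (by linarith)
    have g4 := he.2.2.1 (by linarith)
    have g5 := he'.2.2.2 (by linarith)
    linarith
  rcases le_or_gt k (7 / 20) with a5 | a5
  · have jt := J.j3 a4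
    have g1 := c4 (by linarith) (by linarith)
    have g2 := hl.1
    have g3 := le_half hl' (by linarith)
    have g4 := he.2.2.2 (by linarith)
    have g5 := he'.2.2.2 (by linarith)
    linarith
  rcases le_or_gt k (2 / 5) with a6 | a6
  · have jt := J.j35 a5
    have g1 := c4 (by linarith) (by linarith)
    have g2 := hl.1
    have g3 := le_half hl' (by linarith)
    have g4 := he.2.2.2 (by linarith)
    have g5 := he'.2.2.2 (by linarith)
    linarith
  rcases le_or_gt k (9 / 20) with a7 | a7
  · have jt := J.j4 a6
    have g1 := c4 (by linarith) (by linarith)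
    have g2 := hl.1
    have g3 := le_half hl' (by linarith)
    have g4 := he.2.2.2 (by linarith)
    have g5 := he'.2.2.2 (by linarith)
    linarith
  rcases le_or_gt k (1 / 2) with a8 | a8
  · have jt := J.j45 a7
    have g1 := c3 (by linarith) (by linarith)
    have g2 := hl.1
    have g3 := le_half hl' (by linarith)
    have g4 := he.2.2.2 (by linarith)
    have g5 := he'.2.2.2 (by linarith)
    linarith
  rcases le_or_gt k (11 / 20) with a9 | a9
  · have jt := J.j5 a8
    have g1 := c3 (by linarith) (by linarith)
    have g2 := hl.1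
    have g3 := hl'.2.2.1 (by linarith) (by linarith)
    have g4 := he.2.2.2 (by linarith)
    have g5 := he'.2.2.2 (by linarith)
    linarith
  rcases le_or_gt k (3 / 5) with a10 | a10
  · have jt := J.j55 a9
    have g1 := c2 (by linarith) (by linarith)
    have g2 := hl.2.2.1 (by linarith) (by linarith)
    have g3 := hl'.2.2.1 (by linarith) (by linarith)
    have g4 := he.2.2.2 (by linarith)
    have g5 := he'.2.2.2 (by linarith)
    linarith
  have jt := J.j6 a10
  have g1 := c1 (by linarith) (by linarith)
  have g2 := hl.2.2.2 (by linarith) (by linarith)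
  have g3 := hl'.2.2.2 (by linarith) (by linarith)
  have g4 := he.2.2.2 (by linarith)
  have g5 := he'.2.2.2 (by linarith)
  linarith

theorem ar_pn (J : Jt t k) (J' : Jt k t)
    (c1 : t ≤ (127 / 200) → k ≤ (127 / 200) → (211 / 5000) ≤ g)
    (c2 : t ≤ (13 / 20) → k ≤ (3 / 5) → (87 / 2000) ≤ g)
    (c3 : t ≤ (67 / 100) → k ≤ (11 / 20) → (449 / 10000) ≤ g)
    (c4 : t ≤ (69 / 100) → k ≤ (1 / 2) → (119 / 2500) ≤ g)
    (c5 : t ≤ (143 / 200) → k ≤ (9 / 20) → (31 / 625) ≤ g)
    (c6 : t ≤ (149 / 200) → k ≤ (2 / 5) → (101 / 2000) ≤ g)
    (c7 : t ≤ (31 / 40) → k ≤ (7 / 20) → (531 / 10000) ≤ g)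
    (c8 : t ≤ (17 / 20) → k ≤ (3 / 10) → (501 / 10000) ≤ g)
    (c9 : t ≤ (47 / 50) → k ≤ (1 / 5) → (36 / 625) ≤ g)
    (c10 : t ≤ 1 → k ≤ (1 / 10) → (767 / 10000) ≤ g)
    (c11 : t ≤ (3 / 5) → k ≤ (13 / 20) → (57 / 1250) ≤ g)
    (c12 : t ≤ (11 / 20) → k ≤ (67 / 100) → (523 / 10000) ≤ g)
    (c13 : t ≤ (1 / 2) → k ≤ (67 / 100) → (611 / 10000) ≤ g)
    (c14 : t ≤ (1 / 2) → k ≤ (69 / 100) → (303 / 5000) ≤ g)
    (c15 : t ≤ (9 / 20) → k ≤ (143 / 200) → (329 / 5000) ≤ g)
    (c16 : t ≤ (2 / 5) → k ≤ (81 / 100) → (41 / 625) ≤ g)
    (c17 : t ≤ (1 / 4) → k ≤ 1 → (101 / 1250) ≤ g)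
    (hl : Ls.Lp22 t l) (hl' : Ls.Ln k l') (he : E4 t e) (he' : E4 k e') :
    l + l' + (e + e') < g := by
  rcases le_total k t with o | o
  · rcases le_or_gt k (1 / 10) with a1 | a1
    · have jt := J.t1
      have g1 := c10 (by linarith) (by linarith)
      have g2 := Lp22_30 hl
      have g3 := le_half hl' (by linarith)
      have g4 := he.1
      have g5 := he'.2.2.2 (by linarith)
      linarith
    rcases le_or_gt k (1 / 5) with a2 | a2
    · have jt := J.j1 a1
      rcases lt_or_ge (1 / 2) t with u | u
      · have g1 := c9 (by linarith) (by linarith)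
        have g2 := hl.2.1 (by linarith)
        have g3 := le_half hl' (by linarith)
        have g4 := he.2.1 (by linarith)
        have g5 := he'.2.2.2 (by linarith)
        linarith
      clear jt
      rename' u => jt
      have g1 := c13 (by linarith) (by linarith)
      have g2 := Lp22_30 hl
      have g3 := le_half hl' (by linarith)
      have g4 := he.2.2.2 (by linarith)
      have g5 := he'.2.2.2 (by linarith)
      linarith
    rcases le_or_gt k (1 / 4) with a3 | a3
    · have jt := J.j2 a2
      rcases lt_or_ge (1 / 2) t with u | u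
      · have g1 := c8 (by linarith) (by linarith)
        have g2 := hl.2.1 (by linarith)
        have g3 := le_half hl' (by linarith)
        have g4 := he.2.2.1 (by linarith)
        have g5 := he'.2.2.2 (by linarith)
        linarith
      clear jt
      rename' u => jt
      have g1 := c13 (by linarith) (by linarith)
      have g2 := Lp22_30 hl
      have g3 := le_half hl' (by linarith)
      have g4 := he.2.2.2 (by linarith)
      have g5 := he'.2.2.2 (by linarith)
      linarith
    rcases le_or_gt k (3 / 10) with a4 | a4
    · have jt := J.j25 a3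
      rcases lt_or_ge (1 / 2) t with u | u
      · have g1 := c8 (by linarith) (by linarith)
        have g2 := hl.2.1 (by linarith)
        have g3 := le_half hl' (by linarith)
        have g4 := he.2.2.1 (by linarith)
        have g5 := he'.2.2.2 (by linarith)
        linarith
      clear jt
      rename' u => jt
      have g1 := c13 (by linarith) (by linarith)
      have g2 := Lp22_30 hl
      have g3 := le_half hl' (by linarith)
      have g4 := he.2.2.2 (by linarith)
      have g5 := he'.2.2.2 (by linarith)
      linarith
    rcases le_or_gt k (7 / 20) with a5 | a5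
    · have jt := J.j3 a4
      rcases lt_or_ge (1 / 2) t with u | u
      · have g1 := c7 (by linarith) (by linarith)
        have g2 := hl.2.1 (by linarith)
        have g3 := le_half hl' (by linarith)
        have g4 := he.2.2.2 (by linarith)
        have g5 := he'.2.2.2 (by linarith)
        linarith
      clear jt
      rename' u => jt
      have g1 := c13 (by linarith) (by linarith)
      have g2 := Lp22_30 hl
      have g3 := le_half hl' (by linarith)
      have g4 := he.2.2.2 (by linarith)
      have g5 := he'.2.2.2 (by linarith)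
      linarith
    rcases le_or_gt k (2 / 5) with a6 | a6
    · have jt := J.j35 a5
      rcases lt_or_ge (1 / 2) t with u | u
      · have g1 := c6 (by linarith) (by linarith)
        have g2 := hl.2.1 (by linarith)
        have g3 := le_half hl' (by linarith)
        have g4 := he.2.2.2 (by linarith)
        have g5 := he'.2.2.2 (by linarith)
        linarith
      clear jt
      rename' u => jt
      have g1 := c13 (by linarith) (by linarith)
      have g2 := Lp22_30 hl
      have g3 := le_half hl' (by linarith)
      have g4 := he.2.2.2 (by linarith)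
      have g5 := he'.2.2.2 (by linarith)
      linarith
    rcases le_or_gt k (9 / 20) with a7 | a7
    · have jt := J.j4 a6
      rcases lt_or_ge (1 / 2) t with u | u
      · have g1 := c5 (by linarith) (by linarith)
        have g2 := hl.2.1 (by linarith)
        have g3 := le_half hl' (by linarith)
        have g4 := he.2.2.2 (by linarith)
        have g5 := he'.2.2.2 (by linarith)
        linarith
      clear jt
      rename' u => jt
      have g1 := c13 (by linarith) (by linarith)
      have g2 := Lp22_30 hl
      have g3 := le_half hl' (by linarith)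
      have g4 := he.2.2.2 (by linarith)
      have g5 := he'.2.2.2 (by linarith)
      linarith
    rcases le_or_gt k (1 / 2) with a8 | a8
    · have jt := J.j45 a7
      rcases lt_or_ge (1 / 2) t with u | u
      · have g1 := c4 (by linarith) (by linarith)
        have g2 := hl.2.1 (by linarith)
        have g3 := le_half hl' (by linarith)
        have g4 := he.2.2.2 (by linarith)
        have g5 := he'.2.2.2 (by linarith)
        linarith
      clear jt
      rename' u => jt
      have g1 := c13 (by linarith) (by linarith)
      have g2 := Lp22_30 hl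
      have g3 := le_half hl' (by linarith)
      have g4 := he.2.2.2 (by linarith)
      have g5 := he'.2.2.2 (by linarith)
      linarith
    rcases le_or_gt k (11 / 20) with a9 | a9
    · have jt := J.j5 a8
      have g1 := c3 (by linarith) (by linarith)
      have g2 := hl.2.1 (by linarith)
      have g3 := hl'.2.2.1 (by linarith) (by linarith)
      have g4 := he.2.2.2 (by linarith)
      have g5 := he'.2.2.2 (by linarith)
      linarith
    rcases le_or_gt k (3 / 5) with a10 | a10
    · have jt := J.j55 a9
      have g1 := c2 (by linarith) (by linarith)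
      have g2 := hl.2.1 (by linarith)
      have g3 := hl'.2.2.1 (by linarith) (by linarith)
      have g4 := he.2.2.2 (by linarith)
      have g5 := he'.2.2.2 (by linarith)
      linarith
    have jt := J.j6 a10
    have g1 := c1 (by linarith) (by linarith)
    have g2 := hl.2.2.1 (by linarith) (by linarith)
    have g3 := hl'.2.2.2 (by linarith) (by linarith)
    have g4 := he.2.2.2 (by linarith)
    have g5 := he'.2.2.2 (by linarith)
    linarith
  · rcases le_or_gt t (1 / 10) with a1 | a1
    · have jt := J'.t1
      have g1 := c17 (by linarith) (by linarith)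
      have g2 := hl'.1
      have g3 := Lp22_30 hl
      have g4 := he'.1
      have g5 := he.2.2.2 (by linarith)
      linarith
    rcases le_or_gt t (1 / 5) with a2 | a2
    · have jt := J'.j1 a1
      have g1 := c17 (by linarith) (by linarith)
      have g2 := hl'.1
      have g3 := Lp22_30 hl
      have g4 := he'.2.1 (by linarith)
      have g5 := he.2.2.2 (by linarith)
      linarith
    rcases le_or_gt t (1 / 4) with a3 | a3
    · have jt := J'.j2 a2
      have g1 := c17 (by linarith) (by linarith)
      have g2 := hl'.1
      have g3 := Lp22_30 hl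
      have g4 := he'.2.2.1 (by linarith)
      have g5 := he.2.2.2 (by linarith)
      linarith
    rcases le_or_gt t (3 / 10) with a4 | a4
    · have jt := J'.j25 a3
      have g1 := c16 (by linarith) (by linarith)
      have g2 := hl'.1
      have g3 := Lp22_30 hl
      have g4 := he'.2.2.1 (by linarith)
      have g5 := he.2.2.2 (by linarith)
      linarith
    rcases le_or_gt t (7 / 20) with a5 | a5
    · have jt := J'.j3 a4
      have g1 := c16 (by linarith) (by linarith)
      have g2 := hl'.1
      have g3 := Lp22_30 hl
      have g4 := he'.2.2.2 (by linarith)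
      have g5 := he.2.2.2 (by linarith)
      linarith
    rcases le_or_gt t (2 / 5) with a6 | a6
    · have jt := J'.j35 a5
      have g1 := c16 (by linarith) (by linarith)
      have g2 := hl'.1
      have g3 := Lp22_30 hl
      have g4 := he'.2.2.2 (by linarith)
      have g5 := he.2.2.2 (by linarith)
      linarith
    rcases le_or_gt t (9 / 20) with a7 | a7
    · have jt := J'.j4 a6
      have g1 := c15 (by linarith) (by linarith)
      have g2 := hl'.1
      have g3 := Lp22_30 hl
      have g4 := he'.2.2.2 (by linarith)
      have g5 := he.2.2.2 (by linarith)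
      linarith
    rcases le_or_gt t (1 / 2) with a8 | a8
    · have jt := J'.j45 a7
      have g1 := c14 (by linarith) (by linarith)
      have g2 := hl'.1
      have g3 := Lp22_30 hl
      have g4 := he'.2.2.2 (by linarith)
      have g5 := he.2.2.2 (by linarith)
      linarith
    rcases le_or_gt t (11 / 20) with a9 | a9
    · have jt := J'.j5 a8
      have g1 := c12 (by linarith) (by linarith)
      have g2 := hl'.1
      have g3 := hl.2.1 (by linarith)
      have g4 := he'.2.2.2 (by linarith)
      have g5 := he.2.2.2 (by linarith)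
      linarith
    rcases le_or_gt t (3 / 5) with a10 | a10
    · have jt := J'.j55 a9
      have g1 := c11 (by linarith) (by linarith)
      have g2 := hl'.2.2.1 (by linarith) (by linarith)
      have g3 := hl.2.1 (by linarith)
      have g4 := he'.2.2.2 (by linarith)
      have g5 := he.2.2.2 (by linarith)
      linarith
    have jt := J'.j6 a10
    have g1 := c1 (by linarith) (by linarith)
    have g2 := hl'.2.2.2 (by linarith) (by linarith)
    have g3 := hl.2.2.1 (by linarith) (by linarith)
    have g4 := he'.2.2.2 (by linarith)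
    have g5 := he.2.2.2 (by linarith)
    linarith

theorem ar_pT (J : Jt t k)
    (c1 : t ≤ (67 / 100) → k ≤ (37 / 100) → (161 / 2000) ≤ g)
    (c2 : t ≤ (143 / 200) → k ≤ (37 / 100) → (367 / 5000) ≤ g)
    (c3 : t ≤ (3 / 4) → k ≤ (37 / 100) → (671 / 10000) ≤ g)
    (c4 : t ≤ (31 / 40) → k ≤ (7 / 20) → (27 / 400) ≤ g)
    (c5 : t ≤ (81 / 100) → k ≤ (3 / 10) → (89 / 1250) ≤ g)
    (c6 : t ≤ (17 / 20) → k ≤ (1 / 4) → (181 / 2500) ≤ g)
    (c7 : t ≤ (47 / 50) → k ≤ (1 / 5) → (187 / 2500) ≤ g)
    (c8 : t ≤ 1 → k ≤ (1 / 10) → (493 / 5000) ≤ g)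
    (hl : Ls.Lp23 t l) (hl' : L3T k l') (he : E4 t e) (he' : E4 k e') :
    l + l' + (e + e') < g := by
  have k37 := hl'.le37
  rcases le_or_gt k (1 / 10) with a1 | a1
  · have jt := J.t1
    rcases lt_or_ge (7 / 10) t with u | u
    · have g1 := c8 (by linarith) (by linarith)
      have g2 := hl.2.2.1 (by linarith)
      have g3 := hl'.le60
      have g4 := he.1
      have g5 := he'.2.2.2 (by linarith)
      linarith
    clear jt
    rename' u => jt
    have g1 := c8 (by linarith) (by linarith)
    have g2 := hl.1
    have g3 := hl'.le60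
    have g4 := he.2.2.2 (by linarith)
    have g5 := he'.2.2.2 (by linarith)
    linarith
  rcases le_or_gt k (1 / 5) with a2 | a2
  · have jt := J.j1 a1
    rcases lt_or_ge (7 / 10) t with u | u
    · have g1 := c7 (by linarith) (by linarith)
      have g2 := hl.2.2.1 (by linarith)
      have g3 := hl'.le41 (by linarith)
      have g4 := he.2.1 (by linarith)
      have g5 := he'.2.2.2 (by linarith)
      linarith
    clear jt
    rename' u => jt
    rcases lt_or_ge (13 / 20) t with u | u
    · have g1 := c7 (by linarith) (by linarith)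
      have g2 := hl.2.1 (by linarith)
      have g3 := hl'.le41 (by linarith)
      have g4 := he.2.2.2 (by linarith)
      have g5 := he'.2.2.2 (by linarith)
      linarith
    clear jt
    rename' u => jt
    have g1 := c1 (by linarith) (by linarith)
    have g2 := hl.1
    have g3 := hl'.le41 (by linarith)
    have g4 := he.2.2.2 (by linarith)
    have g5 := he'.2.2.2 (by linarith)
    linarith
  rcases le_or_gt k (1 / 4) with a3 | a3
  · have jt := J.j2 a2
    rcases lt_or_ge (7 / 10) t with u | u
    · have g1 := c6 (by linarith) (by linarith)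
      have g2 := hl.2.2.1 (by linarith)
      have g3 := hl'.le41 (by linarith)
      have g4 := he.2.2.1 (by linarith)
      have g5 := he'.2.2.2 (by linarith)
      linarith
    clear jt
    rename' u => jt
    rcases lt_or_ge (13 / 20) t with u | u
    · have g1 := c2 (by linarith) (by linarith)
      have g2 := hl.2.1 (by linarith)
      have g3 := hl'.le41 (by linarith)
      have g4 := he.2.2.2 (by linarith)
      have g5 := he'.2.2.2 (by linarith)
      linarith
    clear jt
    rename' u => jt
    have g1 := c1 (by linarith) (by linarith)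
    have g2 := hl.1
    have g3 := hl'.le41 (by linarith)
    have g4 := he.2.2.2 (by linarith)
    have g5 := he'.2.2.2 (by linarith)
    linarith
  rcases le_or_gt k (3 / 10) with a4 | a4
  · have jt := J.j25 a3
    rcases lt_or_ge (7 / 10) t with u | u
    · have g1 := c5 (by linarith) (by linarith)
      have g2 := hl.2.2.1 (by linarith)
      have g3 := hl'.le41 (by linarith)
      have g4 := he.2.2.1 (by linarith)
      have g5 := he'.2.2.2 (by linarith)
      linarith
    clear jt
    rename' u => jt
    rcases lt_or_ge (13 / 20) t with u | u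
    · have g1 := c2 (by linarith) (by linarith)
      have g2 := hl.2.1 (by linarith)
      have g3 := hl'.le41 (by linarith)
      have g4 := he.2.2.2 (by linarith)
      have g5 := he'.2.2.2 (by linarith)
      linarith
    clear jt
    rename' u => jt
    have g1 := c1 (by linarith) (by linarith)
    have g2 := hl.1
    have g3 := hl'.le41 (by linarith)
    have g4 := he.2.2.2 (by linarith)
    have g5 := he'.2.2.2 (by linarith)
    linarith
  rcases le_or_gt k (7 / 20) with a5 | a5
  · have jt := J.j3 a4
    rcases lt_or_ge (3 / 4) t with u | u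
    · have g1 := c4 (by linarith) (by linarith)
      have g2 := hl.2.2.2.2 (by linarith)
      have g3 := hl'.le41 (by linarith)
      have g4 := he.2.2.2 (by linarith)
      have g5 := he'.2.2.2 (by linarith)
      linarith
    clear jt
    rename' u => jt
    rcases lt_or_ge (7 / 10) t with u | u
    · have g1 := c4 (by linarith) (by linarith)
      have g2 := hl.2.2.2.1 (by linarith) (by linarith)
      have g3 := hl'.le41 (by linarith)
      have g4 := he.2.2.2 (by linarith)
      have g5 := he'.2.2.2 (by linarith)
      linarith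
    clear jt
    rename' u => jt
    rcases lt_or_ge (13 / 20) t with u | u
    · have g1 := c2 (by linarith) (by linarith)
      have g2 := hl.2.1 (by linarith)
      have g3 := hl'.le41 (by linarith)
      have g4 := he.2.2.2 (by linarith)
      have g5 := he'.2.2.2 (by linarith)
      linarith
    clear jt
    rename' u => jt
    have g1 := c1 (by linarith) (by linarith)
    have g2 := hl.1
    have g3 := hl'.le41 (by linarith)
    have g4 := he.2.2.2 (by linarith)
    have g5 := he'.2.2.2 (by linarith)
    linarith
  have jt := J.j35 a5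
  rcases lt_or_ge (7 / 10) t with u | u
  · have g1 := c3 (by linarith) (by linarith)
    have g2 := hl.2.2.2.1 (by linarith) (by linarith)
    have g3 := hl'.le41 (by linarith)
    have g4 := he.2.2.2 (by linarith)
    have g5 := he'.2.2.2 (by linarith)
    linarith
  clear jt
  rename' u => jt
  rcases lt_or_ge (13 / 20) t with u | u
  · have g1 := c2 (by linarith) (by linarith)
    have g2 := hl.2.1 (by linarith)
    have g3 := hl'.le41 (by linarith)
    have g4 := he.2.2.2 (by linarith)
    have g5 := he'.2.2.2 (by linarith)
    linarith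
  clear jt
  rename' u => jt
  have g1 := c1 (by linarith) (by linarith)
  have g2 := hl.1
  have g3 := hl'.le41 (by linarith)
  have g4 := he.2.2.2 (by linarith)
  have g5 := he'.2.2.2 (by linarith)
  linarith

theorem ar_nT (J : Jt t k)
    (c1 : t ≤ (4 / 5) → k ≤ (37 / 100) → (703 / 10000) ≤ g)
    (c2 : t ≤ (17 / 20) → k ≤ (3 / 10) → (391 / 5000) ≤ g)
    (c3 : t ≤ (47 / 50) → k ≤ (1 / 5) → (181 / 2000) ≤ g)
    (c4 : t ≤ 1 → k ≤ (1 / 10) → (1163 / 10000) ≤ g)
    (hl : Ls.Ln t l) (hl' : L3T k l') (he : E4 t e) (he' : E4 k e') :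
    l + l' + (e + e') < g := by
  have k37 := hl'.le37
  rcases le_or_gt k (1 / 10) with a1 | a1
  · have jt := J.t1
    have g1 := c4 (by linarith) (by linarith)
    have g2 := hl.1
    have g3 := hl'.le60
    have g4 := he.1
    have g5 := he'.2.2.2 (by linarith)
    linarith
  rcases le_or_gt k (1 / 5) with a2 | a2
  · have jt := J.j1 a1
    have g1 := c3 (by linarith) (by linarith)
    have g2 := hl.1
    have g3 := hl'.le41 (by linarith)
    have g4 := he.2.1 (by linarith)
    have g5 := he'.2.2.2 (by linarith)
    linarith
  rcases le_or_gt k (1 / 4) with a3 | a3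
  · have jt := J.j2 a2
    have g1 := c2 (by linarith) (by linarith)
    have g2 := hl.1
    have g3 := hl'.le41 (by linarith)
    have g4 := he.2.2.1 (by linarith)
    have g5 := he'.2.2.2 (by linarith)
    linarith
  rcases le_or_gt k (3 / 10) with a4 | a4
  · have jt := J.j25 a3
    have g1 := c2 (by linarith) (by linarith)
    have g2 := hl.1
    have g3 := hl'.le41 (by linarith)
    have g4 := he.2.2.1 (by linarith)
    have g5 := he'.2.2.2 (by linarith)
    linarith
  rcases le_or_gt k (7 / 20) with a5 | a5
  · have jt := J.j3 a4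
    have g1 := c1 (by linarith) (by linarith)
    have g2 := hl.1
    have g3 := hl'.le41 (by linarith)
    have g4 := he.2.2.2 (by linarith)
    have g5 := he'.2.2.2 (by linarith)
    linarith
  have jt := J.j35 a5
  have g1 := c1 (by linarith) (by linarith)
  have g2 := hl.1
  have g3 := hl'.le41 (by linarith)
  have g4 := he.2.2.2 (by linarith)
  have g5 := he'.2.2.2 (by linarith)
  linarith

end

end Pool.Agent.S3.TT
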