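import Pool.Agent.S3.Es21
import Pool.Agent.S3.Es22
import Pool.Agent.S3.Es23
import Pool.Agent.S3.Es24
import Pool.Agent.S3.Es25
import Pool.Agent.S3.Ls.Zr2

/-!
# Open-open edges next to an inner vertex of multiplicity two: `EndAll` from two test points
-/

set_option autoImplicit false

namespace Pool.Agent.S3.TT

section

variable {Φ : ℂ → ℂ → ℂ} {θ θ' xc xc' b b' v1 v1' μ μ' T T' c c' τ τ' l l' : ℝ}

theorem sum_pp (hΦ : IsPhi Φ) (h0 : Φ 0 0 = c00) (hτ : 0 ≤ τ) (hτ' : 0 ≤ τ')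
    (J : Jt (τ ^ 2) (τ' ^ 2)) (o : τ' ^ 2 ≤ τ ^ 2) (hl : Ls.Lp22 (τ ^ 2) l) (hl' : Ls.Lp22 (τ' ^ 2) l') :
    l + l' + (ex4 (τ ^ 2) + ex4 (τ' ^ 2)) <
      gT Φ (Real.arccos (18 / 25)) (Real.arccos (18 / 25)) (τ * (18 / 25)) (τ' * (18 / 25)) := by
  have p : Pt (Real.arccos (18 / 25)) (18 / 25) := Pt_arccos (by norm_num) (by norm_num)
  exact ar_pp J o
    (gT_of hΦ p p (gpp1 hΦ h0) (by norm_num) (by norm_num) (by norm_num) (by norm_num)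
      (by norm_num) hτ hτ')
    (gT_of hΦ p p (gpp2 hΦ h0) (by norm_num) (by norm_num) (by norm_num) (by norm_num)
      (by norm_num) hτ hτ')
    (gT_of hΦ p p (gpp3 hΦ h0) (by norm_num) (by norm_num) (by norm_num) (by norm_num)
      (by norm_num) hτ hτ')
    (gT_of hΦ p p (gpp4 hΦ h0) (by norm_num) (by norm_num) (by norm_num) (by norm_num)
      (by norm_num) hτ hτ')
    (gT_of hΦ p p (gpp5 hΦ h0) (by norm_num) (by norm_num) (by norm_num) (by norm_num)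
      (by norm_num) hτ hτ')
    (gT_of hΦ p p (gpp6 hΦ h0) (by norm_num) (by norm_num) (by norm_num) (by norm_num)
      (by norm_num) hτ hτ')
    hl hl' ex4_le ex4_le

theorem sum_nn (hΦ : IsPhi Φ) (h0 : Φ 0 0 = c00) (hτ : 0 ≤ τ) (hτ' : 0 ≤ τ')
    (J : Jt (τ ^ 2) (τ' ^ 2)) (o : τ' ^ 2 ≤ τ ^ 2) (hl : Ls.Ln (τ ^ 2) l) (hl' : Ls.Ln (τ' ^ 2) l') :
    l + l' + (ex4 (τ ^ 2) + ex4 (τ' ^ 2)) <
      gT Φ (Real.arccos (31 / 50)) (Real.arccos (31 / 50)) (τ * (31 / 50)) (τ' * (31 / 50)) := by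
  have n : Pt (Real.arccos (31 / 50)) (31 / 50) := Pt_arccos (by norm_num) (by norm_num)
  exact ar_nn J o
    (gT_of hΦ n n (gnn1 hΦ h0) (by norm_num) (by norm_num) (by norm_num) (by norm_num)
      (by norm_num) hτ hτ')
    (gT_of hΦ n n (gnn2 hΦ h0) (by norm_num) (by norm_num) (by norm_num) (by norm_num)
      (by norm_num) hτ hτ')
    (gT_of hΦ n n (gnn3 hΦ h0) (by norm_num) (by norm_num) (by norm_num) (by norm_num)
      (by norm_num) hτ hτ')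
    (gT_of hΦ n n (gnn4 hΦ h0) (by norm_num) (by norm_num) (by norm_num) (by norm_num)
      (by norm_num) hτ hτ')
    (gT_of hΦ n n (gnn5 hΦ h0) (by norm_num) (by norm_num) (by norm_num) (by norm_num)
      (by norm_num) hτ hτ')
    (gT_of hΦ n n (gnn6 hΦ h0) (by norm_num) (by norm_num) (by norm_num) (by norm_num)
      (by norm_num) hτ hτ')
    hl hl' ex4_le ex4_le

theorem sum_pn (hΦ : IsPhi Φ) (h0 : Φ 0 0 = c00) (hτ : 0 ≤ τ) (hτ' : 0 ≤ τ')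
    (J : Jt (τ ^ 2) (τ' ^ 2))
    (J' : Jt (τ' ^ 2) (τ ^ 2)) (hl : Ls.Lp22 (τ ^ 2) l) (hl' : Ls.Ln (τ' ^ 2) l') :
    l + l' + (ex4 (τ ^ 2) + ex4 (τ' ^ 2)) <
      gT Φ (Real.arccos (18 / 25)) (Real.arccos (31 / 50)) (τ * (18 / 25)) (τ' * (31 / 50)) := by
  have n : Pt (Real.arccos (31 / 50)) (31 / 50) := Pt_arccos (by norm_num) (by norm_num)
  have p : Pt (Real.arccos (18 / 25)) (18 / 25) := Pt_arccos (by norm_num) (by norm_num)
  exact ar_pn J J'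
    (gT_of hΦ p n (gpn1 hΦ h0) (by norm_num) (by norm_num) (by norm_num) (by norm_num)
      (by norm_num) hτ hτ')
    (gT_of hΦ p n (gpn2 hΦ h0) (by norm_num) (by norm_num) (by norm_num) (by norm_num)
      (by norm_num) hτ hτ')
    (gT_of hΦ p n (gpn3 hΦ h0) (by norm_num) (by norm_num) (by norm_num) (by norm_num)
      (by norm_num) hτ hτ')
    (gT_of hΦ p n (gpn4 hΦ h0) (by norm_num) (by norm_num) (by norm_num) (by norm_num)
      (by norm_num) hτ hτ')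
    (gT_of hΦ p n (gpn5 hΦ h0) (by norm_num) (by norm_num) (by norm_num) (by norm_num)
      (by norm_num) hτ hτ')
    (gT_of hΦ p n (gpn6 hΦ h0) (by norm_num) (by norm_num) (by norm_num) (by norm_num)
      (by norm_num) hτ hτ')
    (gT_of hΦ p n (gpn7 hΦ h0) (by norm_num) (by norm_num) (by norm_num) (by norm_num)
      (by norm_num) hτ hτ')
    (gT_of hΦ p n (gpn8 hΦ h0) (by norm_num) (by norm_num) (by norm_num) (by norm_num)
      (by norm_num) hτ hτ')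
    (gT_of hΦ p n (gpn9 hΦ h0) (by norm_num) (by norm_num) (by norm_num) (by norm_num)
      (by norm_num) hτ hτ')
    (gT_of hΦ p n (gpn10 hΦ h0) (by norm_num) (by norm_num) (by norm_num) (by norm_num)
      (by norm_num) hτ hτ')
    (gT_of hΦ p n (gpn11 hΦ h0) (by norm_num) (by norm_num) (by norm_num) (by norm_num)
      (by norm_num) hτ hτ')
    (gT_of hΦ p n (gpn12 hΦ h0) (by norm_num) (by norm_num) (by norm_num) (by norm_num)
      (by norm_num) hτ hτ')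
    (gT_of hΦ p n (gpn13 hΦ h0) (by norm_num) (by norm_num) (by norm_num) (by norm_num)
      (by norm_num) hτ hτ')
    (gT_of hΦ p n (gpn14 hΦ h0) (by norm_num) (by norm_num) (by norm_num) (by norm_num)
      (by norm_num) hτ hτ')
    (gT_of hΦ p n (gpn15 hΦ h0) (by norm_num) (by norm_num) (by norm_num) (by norm_num)
      (by norm_num) hτ hτ')
    (gT_of hΦ p n (gpn16 hΦ h0) (by norm_num) (by norm_num) (by norm_num) (by norm_num)
      (by norm_num) hτ hτ')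
    (gT_of hΦ p n (gpn17 hΦ h0) (by norm_num) (by norm_num) (by norm_num) (by norm_num)
      (by norm_num) hτ hτ')
    hl hl' ex4_le ex4_le

theorem sum_pT (hΦ : IsPhi Φ) (h0 : Φ 0 0 = c00) (hτ : 0 ≤ τ) (hτ' : 0 ≤ τ')
    (J : Jt (τ ^ 2) (τ' ^ 2)) (hl : Ls.Lp23 (τ ^ 2) l) (hl' : L3T (τ' ^ 2) l') :
    l + l' + (ex4 (τ ^ 2) + ex4 (τ' ^ 2)) <
      gT Φ (Real.arccos (18 / 25)) (Real.arccos (13 / 20)) (τ * (18 / 25)) (τ' * (13 / 20)) := by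
  have s : Pt (Real.arccos (13 / 20)) (13 / 20) := Pt_arccos (by norm_num) (by norm_num)
  have p : Pt (Real.arccos (18 / 25)) (18 / 25) := Pt_arccos (by norm_num) (by norm_num)
  exact ar_pT J
    (gT_of hΦ p s (gpT1 hΦ h0) (by norm_num) (by norm_num) (by norm_num) (by norm_num)
      (by norm_num) hτ hτ')
    (gT_of hΦ p s (gpT2 hΦ h0) (by norm_num) (by norm_num) (by norm_num) (by norm_num)
      (by norm_num) hτ hτ')
    (gT_of hΦ p s (gpT3 hΦ h0) (by norm_num) (by norm_num) (by norm_num) (by norm_num)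
      (by norm_num) hτ hτ')
    (gT_of hΦ p s (gpT4 hΦ h0) (by norm_num) (by norm_num) (by norm_num) (by norm_num)
      (by norm_num) hτ hτ')
    (gT_of hΦ p s (gpT6 hΦ h0) (by norm_num) (by norm_num) (by norm_num) (by norm_num)
      (by norm_num) hτ hτ')
    (gT_of hΦ p s (gpT7 hΦ h0) (by norm_num) (by norm_num) (by norm_num) (by norm_num)
      (by norm_num) hτ hτ')
    (gT_of hΦ p s (gpT8 hΦ h0) (by norm_num) (by norm_num) (by norm_num) (by norm_num)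
      (by norm_num) hτ hτ')
    (gT_of hΦ p s (gpT9 hΦ h0) (by norm_num) (by norm_num) (by norm_num) (by norm_num)
      (by norm_num) hτ hτ')
    hl hl' ex4_le ex4_le

theorem sum_nT (hΦ : IsPhi Φ) (h0 : Φ 0 0 = c00) (hτ : 0 ≤ τ) (hτ' : 0 ≤ τ')
    (J : Jt (τ ^ 2) (τ' ^ 2)) (hl : Ls.Ln (τ ^ 2) l) (hl' : L3T (τ' ^ 2) l') :
    l + l' + (ex4 (τ ^ 2) + ex4 (τ' ^ 2)) <
      gT Φ (Real.arccos (31 / 50)) (Real.arccos (13 / 20)) (τ * (31 / 50)) (τ' * (13 / 20)) := by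
  have s : Pt (Real.arccos (13 / 20)) (13 / 20) := Pt_arccos (by norm_num) (by norm_num)
  have n : Pt (Real.arccos (31 / 50)) (31 / 50) := Pt_arccos (by norm_num) (by norm_num)
  exact ar_nT J
    (gT_of hΦ n s (gnT1 hΦ h0) (by norm_num) (by norm_num) (by norm_num) (by norm_num)
      (by norm_num) hτ hτ')
    (gT_of hΦ n s (gnT2 hΦ h0) (by norm_num) (by norm_num) (by norm_num) (by norm_num)
      (by norm_num) hτ hτ')
    (gT_of hΦ n s (gnT3 hΦ h0) (by norm_num) (by norm_num) (by norm_num) (by norm_num)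
      (by norm_num) hτ hτ')
    (gT_of hΦ n s (gnT4 hΦ h0) (by norm_num) (by norm_num) (by norm_num) (by norm_num)
      (by norm_num) hτ hτ')
    hl hl' ex4_le ex4_le

theorem tt_lt (ht : τ ^ 2 ≤ 1) (hτ : 0 ≤ τ) (hτ' : 0 ≤ τ')
    (h : (1 / 10 < τ' ^ 2 → τ ^ 2 ≤ 94 / 100) ∧ τ' ^ 2 ≤ 1) (hc : 0 < c) (hc' : 0 < c') :
    τ * c * (τ' * c') < c * c' := by
  have k : (τ * τ') ^ 2 < 1 := by
    rw [mul_pow]
    rcases le_or_gt (τ' ^ 2) (1 / 10) with e | e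
    · have := mul_le_mul ht e (sq_nonneg τ') (by norm_num)
      linarith
    · have := mul_le_mul (h.1 e) h.2 (sq_nonneg τ') (by norm_num)
      linarith
  have k2 : τ * τ' < 1 := by
    have := mul_nonneg hτ hτ'
    nlinarith
  have e : τ * c * (τ' * c') = τ * τ' * (c * c') := by ring
  rw [e]
  have := mul_lt_mul_of_pos_right k2 (mul_pos hc hc')
  linarith

theorem endAll_at (hΦ : IsPhi Φ) (ho : OppHyp θ θ' xc xc')
    (hs : Split θ θ' xc xc' b b') (hc : 0 < xc) (hc' : 0 < xc') (p : Pt T c) (p' : Pt T' c')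
    (hl : lossJ (Real.tan θ) b (Pe θ θ' xc xc' b) T +
      lossJ (Real.tan θ') b' (Pe θ' θ xc' xc b') T' +
      (ex4 (Real.tan θ ^ 2) + ex4 (Real.tan θ' ^ 2)) <
        gT Φ T T' (Real.tan θ * c) (Real.tan θ' * c'))
    (ht : Real.tan θ ^ 2 ≤ 1) (ht' : Real.tan θ' ^ 2 ≤ 1) (p0 : 0 < v1) (p1 : v1 < 1 / 2)
    (p0' : 0 < v1') (p1' : v1' < 1 / 2) (hμ : μ ≤ Real.pi) (hμ' : μ' ≤ Real.pi) :
    EndAll Φ θ θ' xc xc' b b' v1 v1' μ μ' :=
  endAll_ex hΦ ho hs hc hc' p.pos p.lt p'.pos p'.lt (g := gT Φ T T' (Real.tan θ * c)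
    (Real.tan θ' * c')) (gT_eq p p').le hl ht ht' p0 p1 p0' p1' hμ hμ'

/-- **Two inner vertices of multiplicity two.** -/
theorem endAll_dd (hΦ : IsPhi Φ) (h0 : Φ 0 0 = c00) (ho : OppHyp θ θ' xc xc')
    (hs : Split θ θ' xc xc' b b') (hc : 0 < xc) (hc' : 0 < xc')
    (J : Jt (Real.tan θ ^ 2) (Real.tan θ' ^ 2)) (J' : Jt (Real.tan θ' ^ 2) (Real.tan θ ^ 2))
    (hl : Ls.DP Ls.Lp22 (Real.tan θ) b (Pe θ θ' xc xc' b))
    (hl' : Ls.DP Ls.Lp22 (Real.tan θ') b' (Pe θ' θ xc' xc b')) (p0 : 0 < v1) (p1 : v1 < 1 / 2)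
    (p0' : 0 < v1') (p1' : v1' < 1 / 2) (hμ : μ ≤ Real.pi) (hμ' : μ' ≤ Real.pi) :
    EndAll Φ θ θ' xc xc' b b' v1 v1' μ μ' := by
  have tp : 0 < Real.tan θ := Real.tan_pos_of_pos_of_lt_pi_div_two ho.θ0 (θ_lt ho)
  have tp' : 0 < Real.tan θ' := Real.tan_pos_of_pos_of_lt_pi_div_two ho.θ0' (θ_lt ho.symm)
  have p : Pt Ls.Tp (18 / 25) := ⟨Ls.Tp_pos, Ls.Tp_lt, Ls.cos_Tp⟩
  have n : Pt Ls.Tn (31 / 50) := ⟨Ls.Tn_pos, Ls.Tn_lt, Ls.cos_Tn⟩
  have lt : ∀ {c c' : ℝ}, 0 < c → 0 < c' →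
      Real.tan θ * c * (Real.tan θ' * c') < c * c' := fun k k' =>
    tt_lt J.t1 tp.le tp'.le ⟨J.j1, J'.t1⟩ k k'
  rcases le_total 0 (Pe θ θ' xc xc' b) with h | h <;>
    rcases le_total 0 (Pe θ' θ xc' xc b') with h' | h'
  · refine endAll_at hΦ ho hs hc hc' p p ?_ J.t1 J'.t1 p0 p1 p0' p1' hμ hμ'
    rcases le_total (Real.tan θ' ^ 2) (Real.tan θ ^ 2) with o | o
    · exact sum_pp hΦ h0 tp.le tp'.le J o (hl.p h) (hl'.p h')
    · have k := sum_pp hΦ.swap h0 tp'.le tp.le J' o (hl'.p h') (hl.p h)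
      have e := gT_swap hΦ p p (mul_nonneg tp.le p.c0.le) (mul_nonneg tp'.le p.c0.le)
        (lt p.c0 p.c0)
      rw [Ls.Tp] at e k ⊢
      rw [e] at k
      linarith
  · refine endAll_at hΦ ho hs hc hc' p n ?_ J.t1 J'.t1 p0 p1 p0' p1' hμ hμ'
    exact sum_pn hΦ h0 tp.le tp'.le J J' (hl.p h) (hl'.n h')
  · refine endAll_at hΦ ho hs hc hc' n p ?_ J.t1 J'.t1 p0 p1 p0' p1' hμ hμ'
    have k := sum_pn hΦ.swap h0 tp'.le tp.le J' J (hl'.p h') (hl.n h)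
    have e := gT_swap hΦ n p (mul_nonneg tp.le n.c0.le) (mul_nonneg tp'.le p.c0.le)
      (lt n.c0 p.c0)
    rw [Ls.Tp, Ls.Tn] at e k ⊢
    rw [e] at k
    linarith
  · refine endAll_at hΦ ho hs hc hc' n n ?_ J.t1 J'.t1 p0 p1 p0' p1' hμ hμ'
    rcases le_total (Real.tan θ' ^ 2) (Real.tan θ ^ 2) with o | o
    · exact sum_nn hΦ h0 tp.le tp'.le J o (hl.n h) (hl'.n h')
    · have k := sum_nn hΦ.swap h0 tp'.le tp.le J' o (hl'.n h') (hl.n h)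
      have e := gT_swap hΦ n n (mul_nonneg tp.le n.c0.le) (mul_nonneg tp'.le n.c0.le)
        (lt n.c0 n.c0)
      rw [Ls.Tn] at e k ⊢
      rw [e] at k
      linarith

/-- **An inner vertex of multiplicity two, then a vertex of multiplicity at least three.** -/
theorem endAll_d3 (hΦ : IsPhi Φ) (h0 : Φ 0 0 = c00) (ho : OppHyp θ θ' xc xc')
    (hs : Split θ θ' xc xc' b b') (hc : 0 < xc) (hc' : 0 < xc')
    (J : Jt (Real.tan θ ^ 2) (Real.tan θ' ^ 2))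
    (hl : Ls.DP Ls.Lp23 (Real.tan θ) b (Pe θ θ' xc xc' b))
    (hl' : L3T (Real.tan θ' ^ 2) (Le θ' θ xc' xc b')) (p0 : 0 < v1) (p1 : v1 < 1 / 2)
    (p0' : 0 < v1') (p1' : v1' < 1 / 2) (hμ : μ ≤ Real.pi) (hμ' : μ' ≤ Real.pi) :
    EndAll Φ θ θ' xc xc' b b' v1 v1' μ μ' := by
  have tp : 0 < Real.tan θ := Real.tan_pos_of_pos_of_lt_pi_div_two ho.θ0 (θ_lt ho)
  have tp' : 0 < Real.tan θ' := Real.tan_pos_of_pos_of_lt_pi_div_two ho.θ0' (θ_lt ho.symm)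
  have p : Pt Ls.Tp (18 / 25) := ⟨Ls.Tp_pos, Ls.Tp_lt, Ls.cos_Tp⟩
  have n : Pt Ls.Tn (31 / 50) := ⟨Ls.Tn_pos, Ls.Tn_lt, Ls.cos_Tn⟩
  have s : Pt T13 (13 / 20) := ⟨T13_pos, T13_lt, cos_T13⟩
  have k1 : Real.tan θ' ^ 2 ≤ 1 := hl'.le37.trans (by norm_num)
  rcases le_total 0 (Pe θ θ' xc xc' b) with h | h
  · exact endAll_at hΦ ho hs hc hc' p s (sum_pT hΦ h0 tp.le tp'.le J (hl.p h) hl') J.t1 k1
      p0 p1 p0' p1' hμ hμ'
  · exact endAll_at hΦ ho hs hc hc' n s (sum_nT hΦ h0 tp.le tp'.le J (hl.n h) hl') J.t1 k1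
      p0 p1 p0' p1' hμ hμ'

/-- **A vertex of multiplicity at least three, then an inner vertex of multiplicity two.** -/
theorem endAll_3d (hΦ : IsPhi Φ) (h0 : Φ 0 0 = c00) (ho : OppHyp θ θ' xc xc')
    (hs : Split θ θ' xc xc' b b') (hc : 0 < xc) (hc' : 0 < xc')
    (J : Jt (Real.tan θ' ^ 2) (Real.tan θ ^ 2))
    (hl : L3T (Real.tan θ ^ 2) (Le θ θ' xc xc' b))
    (hl' : Ls.DP Ls.Lp23 (Real.tan θ') b' (Pe θ' θ xc' xc b')) (p0 : 0 < v1) (p1 : v1 < 1 / 2)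
    (p0' : 0 < v1') (p1' : v1' < 1 / 2) (hμ : μ ≤ Real.pi) (hμ' : μ' ≤ Real.pi) :
    EndAll Φ θ θ' xc xc' b b' v1 v1' μ μ' := by
  have tp : 0 < Real.tan θ := Real.tan_pos_of_pos_of_lt_pi_div_two ho.θ0 (θ_lt ho)
  have tp' : 0 < Real.tan θ' := Real.tan_pos_of_pos_of_lt_pi_div_two ho.θ0' (θ_lt ho.symm)
  have p : Pt Ls.Tp (18 / 25) := ⟨Ls.Tp_pos, Ls.Tp_lt, Ls.cos_Tp⟩
  have n : Pt Ls.Tn (31 / 50) := ⟨Ls.Tn_pos, Ls.Tn_lt, Ls.cos_Tn⟩
  have s : Pt T13 (13 / 20) := ⟨T13_pos, T13_lt, cos_T13⟩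
  have k1 : Real.tan θ ^ 2 ≤ 1 := hl.le37.trans (by norm_num)
  have lt : ∀ {c c' : ℝ}, 0 < c → 0 < c' →
      Real.tan θ * c * (Real.tan θ' * c') < c * c' := fun {c c'} k k' => by
    have := tt_lt J.t1 tp'.le tp.le ⟨J.j1, k1⟩ k' k
    linarith [mul_comm (Real.tan θ * c) (Real.tan θ' * c'), mul_comm c c']
  rcases le_total 0 (Pe θ' θ xc' xc b') with h | h
  · refine endAll_at hΦ ho hs hc hc' s p ?_ k1 J.t1 p0 p1 p0' p1' hμ hμ'
    have k := sum_pT hΦ.swap h0 tp'.le tp.le J (hl'.p h) hl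
    have e := gT_swap hΦ s p (mul_nonneg tp.le s.c0.le) (mul_nonneg tp'.le p.c0.le)
      (lt s.c0 p.c0)
    rw [Le] at k
    rw [Ls.Tp, T13] at e k ⊢
    rw [e] at k
    linarith
  · refine endAll_at hΦ ho hs hc hc' s n ?_ k1 J.t1 p0 p1 p0' p1' hμ hμ'
    have k := sum_nT hΦ.swap h0 tp'.le tp.le J (hl'.n h) hl
    have e := gT_swap hΦ s n (mul_nonneg tp.le s.c0.le) (mul_nonneg tp'.le n.c0.le)
      (lt s.c0 n.c0)
    rw [Le] at k
    rw [Ls.Tn, T13] at e k ⊢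
    rw [e] at k
    linarith

end

end Pool.Agent.S3.TT
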