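import Pool.Agent.S3.Es2

/-!
# Open-open edges: the real part of the potential exceeds the boundary value on the whole core

For `re v`, `re w ≤ 13/40` and `tan θ`, `tan θ' ≤ 601/1000` the inequality
`π (im v + im w) < re Φ (v, conj w)` holds on and below the two lines. No data of the critical point
are used.
-/

set_option autoImplicit false

namespace Pool.Agent.S3

open Complex
open Pool.Agent.H25.RK (gdv gdv_re_lt gdv_hasDerivAt)

section

variable {Φ : ℂ → ℂ → ℂ} {θ θ' : ℝ}

/-! ### Points of a line -/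

theorem gd_line_sinh (h : |θ| < Real.pi / 2) (x : ℝ) :
    Real.sinh (gd (UU x θ)).im = Real.tan θ * Real.cos (gd (UU x θ)).re := by
  have h' : |(UU x θ).im| < Real.pi / 2 := by rwa [UU_im]
  have k := tan_igd_im (gd_re_lt h')
  rw [igd_gd h', UU_im, eq_div_iff (cos_pos' (gd_re_lt h')).ne'] at k
  exact k.symm

theorem gd_line_sin (h : |θ| < Real.pi / 2) (x : ℝ) :
    Real.sin (gd (UU x θ)).re = Real.tanh x * Real.cosh (gd (UU x θ)).im := by
  have h' : |(UU x θ).im| < Real.pi / 2 := by rwa [UU_im]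
  have k := tanh_igd_re (gd_re_lt h')
  rw [igd_gd h', UU_re, eq_div_iff (Real.cosh_pos _).ne'] at k
  exact k.symm

theorem gd_line_mono (h : |θ| < Real.pi / 2) :
    StrictMono (fun x : ℝ => (gd (UU x θ)).re) := by
  have e : ∀ x : ℝ, (gd (UU x θ)).re = Real.pi * (gdv (UU x θ)).re := by
    intro x
    rw [gd_eq (by rwa [UU_im]), re_ofReal_mul]
  intro x y hxy
  simp only [e]
  exact mul_lt_mul_of_pos_left (line_strictMono h hxy) Real.pi_pos

theorem gd_line_zero (h : |θ| < Real.pi / 2) : (gd (UU 0 θ)).re = 0 := by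
  rw [gd_eq (by rwa [UU_im]), re_ofReal_mul, line_zero h, mul_zero]

theorem gd_line_re_nonneg (h : |θ| < Real.pi / 2) {x : ℝ} (hx : 0 ≤ x) :
    0 ≤ (gd (UU x θ)).re := by
  have := (gd_line_mono h).monotone hx
  simp only [gd_line_zero h] at this
  exact this

theorem gd_line_im_nonneg (h0 : 0 ≤ θ) (h : θ < Real.pi / 2) (x : ℝ) :
    0 ≤ (gd (UU x θ)).im := by
  have ab : |θ| < Real.pi / 2 := by rwa [abs_of_nonneg h0]
  rw [← Real.sinh_nonneg_iff, gd_line_sinh ab]
  have h' : |(UU x θ).im| < Real.pi / 2 := by rwa [UU_im]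
  exact mul_nonneg (Real.tan_nonneg_of_nonneg_of_le_pi_div_two h0 h.le) (cos_pos' (gd_re_lt h')).le

/-! ### Derivative along a line -/

theorem hasDerivAt_gd_cos (h : |θ| < Real.pi / 2) (x : ℝ) :
    HasDerivAt (fun x : ℝ => gd (UU x θ)) (cos (gd (UU x θ))) x := by
  have h' : |(UU x θ).im| < Real.pi / 2 := by rwa [UU_im]
  have := HasDerivAt.scomp (g₁ := gd) (h := fun x : ℝ => UU x θ) x (hasDerivAt_gd h')
    (hasDerivAt_UU x θ)
  refine this.congr_deriv ?_
  rw [cos_gd h', smul_eq_mul, one_mul]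

theorem hasDerivAt_FP_line (hΦ : IsPhi Φ) {w : ℂ} {x : ℝ} (h : Reg (UU x θ) w) :
    HasDerivAt (fun x : ℝ => FP Φ (gd (UU x θ)) (gd w) - (gd (UU x θ)).im)
      (-(2 / Real.pi) * ((qq (UU x θ) w).re *
          (Real.cos (gd (UU x θ)).re * Real.cosh (gd (UU x θ)).im) -
        (Real.pi / 2 - (qq (UU x θ) w).im) *
          (Real.sin (gd (UU x θ)).re * Real.sinh (gd (UU x θ)).im))) x := by
  have hpi : (Real.pi : ℂ) ≠ 0 := by exact_mod_cast Real.pi_ne_zero
  have h' : |θ| < Real.pi / 2 := by simpa using h.left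
  have h1 := hΦ.deriv (fun x => UU x θ) (fun _ => w) 1 0 x h (hasDerivAt_UU x θ)
    (hasDerivAt_const x w)
  have h2 := hasDerivAt_re h1
  have h3 : HasDerivAt (fun x : ℝ => (gd (UU x θ)).im) (cos (gd (UU x θ))).im x :=
    Complex.imCLM.hasFDerivAt.comp_hasDerivAt x (hasDerivAt_gd_cos h' x)
  refine (h2.sub h3).congr_deriv ?_
  have hc : cosh (UU x θ) ≠ 0 := cosh_ne h.left
  have e2 : -2 * qq (UU x θ) w * 1 / ((Real.pi : ℂ) * cosh (UU x θ)) -
      2 * qq w (UU x θ) * 0 / ((Real.pi : ℂ) * cosh w) =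
      ((-(2 / Real.pi) : ℝ) : ℂ) * (qq (UU x θ) w * cos (gd (UU x θ))) := by
    rw [cos_gd h.left]
    push_cast
    field_simp
    ring
  rw [e2, re_ofReal_mul, mul_re, wcos_re, wcos_im]
  have : 2 / Real.pi * (Real.pi / 2) = 1 := by
    have := Real.pi_ne_zero
    field_simp
  linear_combination -(Real.sin (gd (UU x θ)).re * Real.sinh (gd (UU x θ)).im) * this

theorem line_up (hΦ : IsPhi Φ) {w : ℂ} (hr : ∀ x, Reg (UU x θ) w) {x y : ℝ} (hxy : x ≤ y)
    (hs : ∀ s, x ≤ s → s ≤ y → (qq (UU s θ) w).re *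
          (Real.cos (gd (UU s θ)).re * Real.cosh (gd (UU s θ)).im) ≤
        (Real.pi / 2 - (qq (UU s θ) w).im) *
          (Real.sin (gd (UU s θ)).re * Real.sinh (gd (UU s θ)).im)) :
    FP Φ (gd (UU x θ)) (gd w) - (gd (UU x θ)).im ≤
      FP Φ (gd (UU y θ)) (gd w) - (gd (UU y θ)).im := by
  have key : MonotoneOn (fun x : ℝ => FP Φ (gd (UU x θ)) (gd w) - (gd (UU x θ)).im)
      (Set.Icc x y) := by
    apply monotoneOn_of_deriv_nonneg (convex_Icc x y)
    · exact fun s _ => (hasDerivAt_FP_line hΦ (hr s)).continuousAt.continuousWithinAt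
    · exact fun s _ => (hasDerivAt_FP_line hΦ (hr s)).differentiableAt.differentiableWithinAt
    · intro s hs'
      rw [interior_Icc] at hs'
      rw [(hasDerivAt_FP_line hΦ (hr s)).deriv, neg_mul, neg_nonneg]
      apply mul_nonpos_of_nonneg_of_nonpos
      · have := Real.pi_pos
        positivity
      · linarith [hs s hs'.1.le hs'.2.le]
  exact key ⟨le_rfl, hxy⟩ ⟨hxy, le_rfl⟩ hxy

theorem line_down (hΦ : IsPhi Φ) {w : ℂ} (hr : ∀ x, Reg (UU x θ) w) {x y : ℝ} (hxy : x ≤ y)
    (hs : ∀ s, x ≤ s → s ≤ y → (Real.pi / 2 - (qq (UU s θ) w).im) *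
          (Real.sin (gd (UU s θ)).re * Real.sinh (gd (UU s θ)).im) ≤ (qq (UU s θ) w).re *
          (Real.cos (gd (UU s θ)).re * Real.cosh (gd (UU s θ)).im)) :
    FP Φ (gd (UU y θ)) (gd w) - (gd (UU y θ)).im ≤
      FP Φ (gd (UU x θ)) (gd w) - (gd (UU x θ)).im := by
  have key : AntitoneOn (fun x : ℝ => FP Φ (gd (UU x θ)) (gd w) - (gd (UU x θ)).im)
      (Set.Icc x y) := by
    apply antitoneOn_of_deriv_nonpos (convex_Icc x y)
    · exact fun s _ => (hasDerivAt_FP_line hΦ (hr s)).continuousAt.continuousWithinAt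
    · exact fun s _ => (hasDerivAt_FP_line hΦ (hr s)).differentiableAt.differentiableWithinAt
    · intro s hs'
      rw [interior_Icc] at hs'
      rw [(hasDerivAt_FP_line hΦ (hr s)).deriv, neg_mul, neg_nonpos]
      apply mul_nonneg
      · have := Real.pi_pos
        positivity
      · linarith only [hs, hs s hs'.1.le hs'.2.le]
  exact key ⟨le_rfl, hxy⟩ ⟨hxy, le_rfl⟩ hxy

/-! ### The other point on the imaginary axis -/

/-- Division by a number in `(0, 1]` increases both coordinates. -/
theorem arsh_ge {p r x t ρ : ℝ} (hρ : 1 ≤ ρ) (hx : 0 ≤ x) (ht : 0 < t) (ht' : t < Real.pi / 2)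
    (hp : 0 ≤ p) (hr : 0 ≤ r) (hr' : r < Real.pi / 2)
    (e1 : Real.sinh p * Real.cos r = ρ * (Real.sinh x * Real.cos t))
    (e2 : Real.cosh p * Real.sin r = ρ * (Real.cosh x * Real.sin t)) : x ≤ p ∧ t ≤ r := by
  have hpi := Real.pi_pos
  have st : 0 < Real.sin t := Real.sin_pos_of_pos_of_lt_pi ht (by linarith)
  have ct : 0 < Real.cos t := Real.cos_pos_of_mem_Ioo ⟨by linarith, ht'⟩
  have cr : 0 < Real.cos r := Real.cos_pos_of_mem_Ioo ⟨by linarith, hr'⟩
  have sr : 0 ≤ Real.sin r := Real.sin_nonneg_of_nonneg_of_le_pi hr (by linarith)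
  have chx := Real.cosh_pos x
  have chp := Real.cosh_pos p
  have shx : 0 ≤ Real.sinh x := Real.sinh_nonneg_iff.2 hx
  have shp : 0 ≤ Real.sinh p := Real.sinh_nonneg_iff.2 hp
  have hB : Real.cosh x * Real.sin t ≤ Real.cosh p * Real.sin r := by
    rw [e2]
    have : 0 ≤ Real.cosh x * Real.sin t := by positivity
    nlinarith only [hρ, this]
  have hA : Real.sinh x * Real.cos t ≤ Real.sinh p * Real.cos r := by
    rw [e1]
    have : 0 ≤ Real.sinh x * Real.cos t := by positivity
    nlinarith only [hρ, this]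
  -- `x ≤ p` or `t ≤ r`, and each implies the other
  have one : t ≤ r → x ≤ p := by
    intro h
    by_contra hc
    push Not at hc
    have h1 : Real.cos r ≤ Real.cos t :=
      Real.cos_le_cos_of_nonneg_of_le_pi ht.le (by linarith) h
    have h2 : Real.sinh p < Real.sinh x := Real.sinh_lt_sinh.2 hc
    have : Real.sinh p * Real.cos r < Real.sinh x * Real.cos t := by nlinarith only [cr, shx, hA, h1, h2]
    linarith
  have two : x ≤ p → t ≤ r := by
    intro h
    by_contra hc
    push Not at hc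
    -- `tanh p ≥ tanh x` and `tan r < tan t` contradict the proportion
    have h1 : Real.sin r < Real.sin t :=
      Real.sin_lt_sin_of_lt_of_le_pi_div_two (by linarith) ht'.le hc
    have h2 : Real.cos t < Real.cos r :=
      Real.cos_lt_cos_of_nonneg_of_le_pi hr (by linarith) hc
    have h3 : Real.sinh x * Real.cosh p ≤ Real.sinh p * Real.cosh x := by
      have := Real.sinh_sub p x
      have h4 : 0 ≤ Real.sinh (p - x) := Real.sinh_nonneg_iff.2 (by linarith)
      linarith
    -- cross relation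
    have h5 : Real.sinh p * Real.cos r * (Real.cosh x * Real.sin t) =
        Real.cosh p * Real.sin r * (Real.sinh x * Real.cos t) := by
      rw [e1, e2]; ring
    have h6 : Real.sin r * Real.cos t < Real.cos r * Real.sin t := by
      have := Real.sin_sub t r
      have h7 : 0 < Real.sin (t - r) := Real.sin_pos_of_pos_of_lt_pi (by linarith) (by linarith)
      linarith
    rcases hx.eq_or_lt with hx0 | hx0
    · -- `x = 0`
      rw [← hx0] at e1 e2 h5
      rw [Real.sinh_zero, zero_mul, mul_zero] at e1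
      have hp0 : Real.sinh p = 0 := by
        rcases mul_eq_zero.1 e1 with h8 | h8
        · exact h8
        · exact absurd h8 cr.ne'
      have hp1 : p = 0 := Real.sinh_eq_zero.1 hp0
      rw [hp1, Real.cosh_zero, one_mul, one_mul] at e2
      nlinarith only [hρ, e2, st, h1]
    · have shx' : 0 < Real.sinh x := Real.sinh_pos_iff.2 hx0
      have a1 : 0 < Real.sinh x * Real.cosh p := by positivity
      have a2 : Real.cosh p * Real.sinh x * (Real.sin r * Real.cos t) <
          Real.sinh p * Real.cosh x * (Real.cos r * Real.sin t) := by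
        have b1 : Real.cosh p * Real.sinh x * (Real.sin r * Real.cos t) <
            Real.cosh p * Real.sinh x * (Real.cos r * Real.sin t) :=
          mul_lt_mul_of_pos_left h6 (by positivity)
        have b2 : Real.cosh p * Real.sinh x * (Real.cos r * Real.sin t) ≤
            Real.sinh p * Real.cosh x * (Real.cos r * Real.sin t) := by
          apply mul_le_mul_of_nonneg_right _ (by positivity)
          linarith
        exact b1.trans_le b2
      nlinarith only [h5, a2]
  rcases le_total t r with h | h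
  · exact ⟨one h, h⟩
  · by_cases hxp : x ≤ p
    · exact ⟨hxp, two hxp⟩
    · exfalso
      push Not at hxp
      have h1 : Real.sin r ≤ Real.sin t :=
        Real.sin_le_sin_of_le_of_le_pi_div_two (by linarith only [ht, ht', hr]) ht'.le h
      have h2 : Real.cosh p < Real.cosh x := by
        rw [Real.cosh_lt_cosh, abs_of_nonneg hp, abs_of_nonneg hx]; exact hxp
      have : Real.cosh p * Real.sin r < Real.cosh x * Real.sin t := by nlinarith only [st, chp, h1, h2]
      linarith

/-- `(π/2 - θ) tan θ ≤ 1`. -/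
theorem cot_bound (h0 : 0 < θ) (h : θ < Real.pi / 2) : (Real.pi / 2 - θ) * Real.tan θ ≤ 1 := by
  have h1 : Real.pi / 2 - θ < Real.tan (Real.pi / 2 - θ) := Real.lt_tan (by linarith) (by linarith)
  rw [Real.tan_pi_div_two_sub] at h1
  have h2 : 0 < Real.tan θ := Real.tan_pos_of_pos_of_lt_pi_div_two h0 h
  have := mul_lt_mul_of_pos_right h1 h2
  rw [inv_mul_cancel₀ h2.ne'] at this
  exact this.le

theorem tanh_le_self' {x : ℝ} (h : 0 ≤ x) : Real.tanh x ≤ x := by
  rw [Real.tanh_eq_sinh_div_cosh, div_le_iff₀ (Real.cosh_pos _)]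
  exact sinh_le_mul_cosh h

/-- If the other point is on the imaginary axis, the difference decreases along the line. -/
theorem zero_line (h0 : 0 < θ) (h : θ < Real.pi / 4) {s : ℝ} (hs : 0 ≤ s) :
    (Real.pi / 2 - (qq (UU s θ) (UU 0 (-θ))).im) *
      (Real.sin (gd (UU s θ)).re * Real.sinh (gd (UU s θ)).im) ≤ (qq (UU s θ) (UU 0 (-θ))).re *
      (Real.cos (gd (UU s θ)).re * Real.cosh (gd (UU s θ)).im) := by
  have hpi := Real.pi_pos
  have ab : |θ| < Real.pi / 2 := by rw [abs_of_pos h0]; linarith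
  have hr : Reg (UU s θ) (UU 0 (-θ)) := by
    apply Reg_UU; rw [abs_neg, abs_of_pos h0]; linarith
  have ct : 0 < Real.cos θ := cos_pos' ab
  have ct1 := Real.cos_le_one θ
  set q := qq (UU s θ) (UU 0 (-θ)) with hq
  have qi := abs_lt.1 (qq_im_lt hr)
  rw [← hq] at qi
  have hcw : cosh (UU 0 (-θ)) = ((Real.cos θ : ℝ) : ℂ) := by
    apply Complex.ext
    · rw [cosh_re', UU_re, UU_im, Real.cosh_zero, one_mul, Real.cos_neg, ofReal_re]
    · rw [cosh_im', UU_re, UU_im, Real.sinh_zero, zero_mul, ofReal_im]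
  have hz : sinh q = sinh (UU s θ) / ((Real.cos θ : ℝ) : ℂ) := by
    rw [hq, sinh_qq, hcw]
  have z1 := congrArg Complex.re hz
  have z2 := congrArg Complex.im hz
  rw [div_ofReal_re, sinh_re', sinh_re', UU_re, UU_im] at z1
  rw [div_ofReal_im, sinh_im', sinh_im', UU_re, UU_im] at z2
  have cq : 0 < Real.cos q.im := Real.cos_pos_of_mem_Ioo ⟨by linarith only [qi.1], qi.2⟩
  have st : 0 < Real.sin θ := Real.sin_pos_of_pos_of_lt_pi h0 (by linarith)
  have q0 : 0 ≤ q.re := by
    rw [← Real.sinh_nonneg_iff]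
    have : 0 ≤ Real.sinh q.re * Real.cos q.im := by
      rw [z1]
      have := Real.sinh_nonneg_iff.2 hs
      positivity
    exact nonneg_of_mul_nonneg_left this cq
  have r0 : 0 ≤ q.im := by
    by_contra hc
    push Not at hc
    have h1 : Real.sin q.im < 0 := Real.sin_neg_of_neg_of_neg_pi_lt hc (by linarith only [h0, qi])
    have h2 : 0 < Real.cosh q.re * Real.sin q.im := by
      rw [z2]
      have := Real.cosh_pos s
      positivity
    have := Real.cosh_pos q.re
    nlinarith only [h1, h2, this]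
  obtain ⟨k1, k2⟩ := arsh_ge (ρ := 1 / Real.cos θ) (by rw [le_div_iff₀ ct]; linarith) hs h0
    (by linarith only [h0, h]) q0 r0 qi.2 (by rw [z1]; ring) (by rw [z2]; ring)
  -- the inequality
  have hc := cos_pos' (gd_re_lt (u := UU s θ) (by rwa [UU_im]))
  have hch := Real.cosh_pos (gd (UU s θ)).im
  have e1 := gd_line_sinh ab s
  have e2 := gd_line_sin ab s
  have tt : 0 < Real.tan θ := Real.tan_pos_of_pos_of_lt_pi_div_two h0 (by linarith)
  have th0 : 0 ≤ Real.tanh s := tanh_nonneg' hs
  have key : (Real.pi / 2 - q.im) * (Real.tanh s * Real.tan θ) ≤ q.re := by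
    have a1 : (Real.pi / 2 - q.im) * (Real.tanh s * Real.tan θ) ≤
        (Real.pi / 2 - θ) * (s * Real.tan θ) := by
      apply mul_le_mul (by linarith) _ (by positivity) (by linarith only [h0, h])
      exact mul_le_mul_of_nonneg_right (tanh_le_self' hs) tt.le
    have a2 := cot_bound h0 (by linarith only [h0, h] : θ < Real.pi / 2)
    have a3 : (Real.pi / 2 - θ) * (s * Real.tan θ) ≤ s := by nlinarith only [hs, a2]
    linarith
  rw [e1, e2]
  have := mul_le_mul_of_nonneg_right key (mul_nonneg hc.le hch.le)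
  calc (Real.pi / 2 - q.im) * (Real.tanh s * Real.cosh (gd (UU s θ)).im *
        (Real.tan θ * Real.cos (gd (UU s θ)).re)) =
      (Real.pi / 2 - q.im) * (Real.tanh s * Real.tan θ) *
        (Real.cos (gd (UU s θ)).re * Real.cosh (gd (UU s θ)).im) := by ring
    _ ≤ _ := this

/-! ### The other point to the right -/

/-- The quotient `z = sinh u / cosh w = tan P cos P'` for `P = ρ + i η`, `P' = R' - i η'` with
`sinh η = T cos ρ`, `sinh η' = T cos R'`. -/
theorem z_line {T ρ η R' η' : ℝ} (hρ : |ρ| < Real.pi / 2) (h1 : Real.sinh η = T * Real.cos ρ)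
    (h2 : Real.sinh η' = T * Real.cos R') :
    (tan (UU ρ η) * cos (UU R' (-η'))).re = Real.cos R' *
      (Real.sin ρ * Real.cosh η' - T ^ 2 * (Real.cosh η * Real.sin R')) /
        ((1 + T ^ 2) * Real.cos ρ) ∧
    (tan (UU ρ η) * cos (UU R' (-η'))).im = Real.cos R' * T *
      (Real.sin ρ * Real.sin R' + Real.cosh η * Real.cosh η') / ((1 + T ^ 2) * Real.cos ρ) := by
  have hn : cos (UU ρ η) ≠ 0 := cos_ne' (UU_re_lt hρ)
  have cρ := cos_pos' hρ
  have hN : normSq (cos (UU ρ η)) = (1 + T ^ 2) * Real.cos ρ ^ 2 := by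
    rw [normSq_apply, wcos_re, wcos_im, UU_re, UU_im]
    have a := Real.cosh_sq η
    have b := Real.sin_sq_add_cos_sq ρ
    have c : Real.sinh η ^ 2 = T ^ 2 * Real.cos ρ ^ 2 := by rw [h1]; ring
    linear_combination (Real.cos ρ ^ 2) * a + (Real.sinh η ^ 2) * b + c
  have e1 : tan (UU ρ η) * cos (UU R' (-η')) =
      (sin (UU ρ η) * (starRingEnd ℂ) (cos (UU ρ η)) * cos (UU R' (-η'))) /
        ((normSq (cos (UU ρ η)) : ℝ) : ℂ) := by
    have hc : (starRingEnd ℂ) (cos (UU ρ η)) ≠ 0 := (map_ne_zero _).2 hn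
    rw [Complex.tan_eq_sin_div_cos, normSq_eq_conj_mul_self]
    field_simp
  have s1 : (sin (UU ρ η) * (starRingEnd ℂ) (cos (UU ρ η))).re = Real.sin ρ * Real.cos ρ := by
    rw [mul_re, conj_re, conj_im, wsin_re, wsin_im, wcos_re, wcos_im, UU_re, UU_im]
    have := Real.cosh_sq η
    linear_combination (Real.sin ρ * Real.cos ρ) * this
  have s2 : (sin (UU ρ η) * (starRingEnd ℂ) (cos (UU ρ η))).im =
      T * Real.cos ρ * Real.cosh η := by
    rw [mul_im, conj_re, conj_im, wsin_re, wsin_im, wcos_re, wcos_im, UU_re, UU_im, ← h1]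
    have := Real.sin_sq_add_cos_sq ρ
    linear_combination (Real.sinh η * Real.cosh η) * this
  have hT : (1 + T ^ 2) ≠ 0 := by positivity
  obtain ⟨X, hX⟩ : ∃ X, X = sin (UU ρ η) * (starRingEnd ℂ) (cos (UU ρ η)) := ⟨_, rfl⟩
  rw [← hX] at s1 s2 e1
  rw [e1, div_ofReal_re, div_ofReal_im, mul_re, mul_im, s1, s2, wcos_re, wcos_im, UU_re, UU_im,
    Real.cosh_neg, Real.sinh_neg, hN, h2]
  constructor
  · field_simp
  · field_simp

/-- Along the line of the left point the difference increases, if the point is far to the left. -/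
theorem left_H {q : ℂ} {ρ η R' η' : ℝ} (hq : |q.im| < Real.pi / 2) (hρ0 : 0 ≤ ρ)
    (hρ : ρ < Real.pi / 2) (hR0 : 0 ≤ R') (hR : R' < Real.pi / 2)
    (hη : 0 ≤ η) (hη' : 0 ≤ η')
    (h1 : Real.sinh η = 601 / 1000 * Real.cos ρ) (h2 : Real.sinh η' = 601 / 1000 * Real.cos R')
    (hz : sinh q = tan (UU ρ η) * cos (UU R' (-η')))
    (hc : Real.sin ρ * Real.cosh η' ≤ (601 / 1000) ^ 2 * (Real.cosh η * Real.sin R') ∨
      (Real.cos R' ≤ 601 / 1000 * Real.cos ρ ∧ 522 / 1000 ≤ Real.cos R')) :
    q.re * (Real.cos ρ * Real.cosh η) ≤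
      (Real.pi / 2 - q.im) * (Real.sin ρ * Real.sinh η) := by
  have hpi := Real.pi_pos
  have aρ : |ρ| < Real.pi / 2 := by rwa [abs_of_nonneg hρ0]
  have cρ := cos_pos' aρ
  have cR : 0 < Real.cos R' := Real.cos_pos_of_mem_Ioo ⟨by linarith only [hρ0, hρ, hR0], hR⟩
  have sρ : 0 ≤ Real.sin ρ := Real.sin_nonneg_of_nonneg_of_le_pi hρ0 (by linarith only [hρ0, hρ])
  have sR : 0 ≤ Real.sin R' := Real.sin_nonneg_of_nonneg_of_le_pi hR0 (by linarith only [hρ0, hρ, hR])
  have sh0 : 0 ≤ Real.sinh η := Real.sinh_nonneg_iff.2 hη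
  have ch := Real.cosh_pos η
  have ch' := Real.cosh_pos η'
  have qi := abs_lt.1 hq
  have cq : 0 < Real.cos q.im := Real.cos_pos_of_mem_Ioo ⟨by linarith [qi.1], qi.2⟩
  obtain ⟨z1, z2⟩ := z_line aρ h1 h2
  rw [← hz, sinh_re'] at z1
  rw [← hz, sinh_im'] at z2
  have s0 : 0 < Real.pi / 2 - q.im := by linarith only [qi.2]
  have rhs0 : 0 ≤ (Real.pi / 2 - q.im) * (Real.sin ρ * Real.sinh η) := by positivity
  have neg : Real.sin ρ * Real.cosh η' ≤ (601 / 1000) ^ 2 * (Real.cosh η * Real.sin R') →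
      q.re * (Real.cos ρ * Real.cosh η) ≤
      (Real.pi / 2 - q.im) * (Real.sin ρ * Real.sinh η) := by
    intro hle
    have h3 : Real.sinh q.re * Real.cos q.im ≤ 0 := by
      rw [z1]
      apply div_nonpos_of_nonpos_of_nonneg
      · exact mul_nonpos_of_nonneg_of_nonpos cR.le (by linarith only [hle])
      · positivity
    have h4 : q.re ≤ 0 := by
      rw [← Real.sinh_nonpos_iff]
      by_contra hcon
      push Not at hcon
      nlinarith only [cq, h3, hcon]
    have : q.re * (Real.cos ρ * Real.cosh η) ≤ 0 :=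
      mul_nonpos_of_nonpos_of_nonneg h4 (by positivity)
    linarith only [rhs0, this]
  rcases hc with hc | ⟨hc1, hc2⟩
  · exact neg hc
  · rcases le_total (Real.sin ρ * Real.cosh η')
      ((601 / 1000) ^ 2 * (Real.cosh η * Real.sin R')) with hle | hle
    · exact neg hle
    · -- bounds
      have c1 : 868 / 1000 ≤ Real.cos ρ := by linarith only [cR, hc1, hc2]
      have c2 := Real.cos_le_one ρ
      have k1 := Real.sin_sq_add_cos_sq ρ
      have k2 := Real.sin_sq_add_cos_sq R'
      have k3 := Real.cosh_sq η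
      have k4 := Real.cosh_sq η'
      have sρ1 : Real.sin ρ ≤ 497 / 1000 := by nlinarith only [cρ, cR, hc1, hc2, k1]
      have sR1 : Real.sin R' ≤ 853 / 1000 := by nlinarith only [cR, sR, hc2, k2]
      have cR1 : Real.cos R' ≤ 601 / 1000 := by linarith only [hc1, c2]
      have sR2 : 799 / 1000 ≤ Real.sin R' := by nlinarith only [cR, sR, hc1, c2, k2]
      have chη : Real.cosh η ≤ 1167 / 1000 := by
        rw [h1] at k3
        nlinarith only [cρ, c2, k3]
      have chη2 : 1 ≤ Real.cosh η := Real.one_le_cosh η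
      have chη' : Real.cosh η' ≤ 1064 / 1000 := by
        rw [h2] at k4
        nlinarith only [cR, ch', hc1, k1, k4]
      -- `im z ≤ .4455`
      have hIm : Real.cosh q.re * Real.sin q.im ≤ 4455 / 10000 := by
        rw [z2, div_le_iff₀ (by positivity)]
        have a1 : Real.sin ρ * Real.sin R' ≤ 497 / 1000 * (853 / 1000) :=
          mul_le_mul sρ1 sR1 sR (by norm_num)
        have a2 : Real.cosh η * Real.cosh η' ≤ 1167 / 1000 * (1064 / 1000) :=
          mul_le_mul chη chη' ch'.le (by norm_num)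
        have a3 : Real.sin ρ * Real.sin R' + Real.cosh η * Real.cosh η' ≤ 1666 / 1000 := by
          linarith only [hc1, a1, a2]
        have a4 : Real.cos R' * (601 / 1000) ≤ 601 / 1000 * Real.cos ρ * (601 / 1000) :=
          mul_le_mul_of_nonneg_right hc1 (by norm_num)
        have a5 : 0 ≤ Real.sin ρ * Real.sin R' + Real.cosh η * Real.cosh η' := by positivity
        have a6 := mul_le_mul a4 a3 a5 (by positivity)
        nlinarith only [cR, hc1, a6]
      have hsin : Real.sin q.im ≤ 4455 / 10000 := by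
        by_contra hcon
        push Not at hcon
        have := Real.one_le_cosh q.re
        nlinarith only [cR, hIm, hcon, this]
      have q0 : 0 ≤ Real.sin q.im := by
        have : 0 ≤ Real.cosh q.re * Real.sin q.im := by
          rw [z2]
          positivity
        exact nonneg_of_mul_nonneg_right this (Real.cosh_pos _)
      have hcos : 895 / 1000 ≤ Real.cos q.im := by
        have := Real.sin_sq_add_cos_sq q.im
        nlinarith only [cq, hsin, q0, this]
      have hs : Real.cos q.im ≤ Real.pi / 2 - q.im := by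
        rw [← Real.sin_pi_div_two_sub]
        exact Real.sin_le s0.le
      -- `q.re cos q.im ≤ re z`
      have hp0 : 0 ≤ q.re := by
        rw [← Real.sinh_nonneg_iff]
        have : 0 ≤ Real.sinh q.re * Real.cos q.im := by
          rw [z1]
          apply div_nonneg _ (by positivity)
          exact mul_nonneg cR.le (by linarith only [hle])
        exact nonneg_of_mul_nonneg_left this cq
      have hp : q.re * Real.cos q.im ≤ Real.sinh q.re * Real.cos q.im :=
        mul_le_mul_of_nonneg_right (Real.self_le_sinh_iff.2 hp0) cq.le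
      rw [z1] at hp
      -- `re z cosh η ≤ .8 T sin ρ`
      have hz' : Real.cos R' * (Real.sin ρ * Real.cosh η' -
          (601 / 1000) ^ 2 * (Real.cosh η * Real.sin R')) / ((1 + (601 / 1000) ^ 2) * Real.cos ρ) *
            Real.cosh η ≤ 8 / 10 * (601 / 1000) * Real.sin ρ := by
        rw [div_mul_eq_mul_div, div_le_iff₀ (by positivity)]
        have a1 : Real.sin ρ * Real.cosh η' - (601 / 1000) ^ 2 * (Real.cosh η * Real.sin R') ≤
            Real.sin ρ * (1064 / 1000) - (601 / 1000) ^ 2 * (1 * (799 / 1000)) := by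
          have := mul_le_mul_of_nonneg_left chη' sρ
          have := mul_le_mul chη2 sR2 (by norm_num) ch.le
          linarith
        have a0 : 0 ≤ Real.sin ρ * Real.cosh η' -
            (601 / 1000) ^ 2 * (Real.cosh η * Real.sin R') := by linarith only [hle]
        have a2 := mul_le_mul hc1 a1 a0 (by positivity)
        have a3 := mul_le_mul a2 chη ch.le (by
          have : 0 ≤ Real.sin ρ * (1064 / 1000) - (601 / 1000) ^ 2 * (1 * (799 / 1000)) := by
            linarith only [hle, a1]
          positivity)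
        refine a3.trans ?_
        have a4 : (601 / 1000 : ℝ) * (Real.sin ρ * (1064 / 1000) -
            (601 / 1000) ^ 2 * (1 * (799 / 1000))) * (1167 / 1000) ≤
            8 / 10 * (601 / 1000) * Real.sin ρ * (1 + (601 / 1000) ^ 2) := by
          nlinarith only [hc1, sρ1]
        have := mul_le_mul_of_nonneg_right a4 cρ.le
        linarith only [this]
      -- conclusion
      have f1 : q.re * Real.cosh η * Real.cos q.im ≤ 8 / 10 * (601 / 1000) * Real.sin ρ := by
        have := mul_le_mul_of_nonneg_right hp ch.le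
        linarith only [hz', this]
      have f2 : 8 / 10 ≤ (Real.pi / 2 - q.im) * Real.cos q.im := by nlinarith only [qi, hcos, hs]
      have f3 : q.re * Real.cosh η ≤ (Real.pi / 2 - q.im) * (601 / 1000 * Real.sin ρ) := by
        have g1 : q.re * Real.cosh η * Real.cos q.im ≤
            (Real.pi / 2 - q.im) * (601 / 1000 * Real.sin ρ) * Real.cos q.im := by
          have := mul_le_mul_of_nonneg_right f2 (mul_nonneg (by norm_num : (0 : ℝ) ≤ 601 / 1000) sρ)
          linarith only [f1, this]
        exact le_of_mul_le_mul_right g1 cq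
      rw [h1]
      have := mul_le_mul_of_nonneg_right f3 cρ.le
      linarith only [this]

end

end Pool.Agent.S3
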