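import Pool.Agent.S3.Es4
import Pool.Agent.S3.LowA

/-!
# Open-open edges: the estimates at the ends without data of the critical point
-/

set_option autoImplicit false

namespace Pool.Agent.S3

open Complex
open Pool.Agent.H25.RK (gdv gdv_re_lt gdv_hasDerivAt)

section

variable {Φ : ℂ → ℂ → ℂ} {θ θ' xc xc' b b' v1 v1' μ μ' : ℝ}

/-! ### The line `tan θ = 601/1000` -/

/-- The height of the line over the abscissa `R`. -/
noncomputable def hT (R : ℝ) : ℝ := Real.arsinh (601 / 1000 * Real.cos R)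

/-- The line. -/
noncomputable def tT : ℝ := Real.arctan (601 / 1000)

theorem tan_tT : Real.tan tT = 601 / 1000 := Real.tan_arctan _

theorem tT_pos : 0 < tT := by
  have := Real.arctan_strictMono (show (0 : ℝ) < 601 / 1000 by norm_num)
  rwa [Real.arctan_zero] at this

theorem tT_lt : tT < Real.pi / 4 := by
  have := Real.arctan_strictMono (show (601 / 1000 : ℝ) < 1 by norm_num)
  rwa [Real.arctan_one] at this

theorem tT_abs : |tT| < Real.pi / 2 := by
  rw [abs_of_pos tT_pos]
  have := tT_lt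
  have := Real.pi_pos
  linarith

theorem sinh_hT (R : ℝ) : Real.sinh (hT R) = 601 / 1000 * Real.cos R := Real.sinh_arsinh _

theorem hT_nonneg {R : ℝ} (h : |R| < Real.pi / 2) : 0 ≤ hT R := by
  rw [← Real.sinh_nonneg_iff, sinh_hT]
  have := cos_pos' h
  positivity

/-- The coordinate of the point over `R`. -/
noncomputable def xT (R : ℝ) : ℝ := (igd (UU R (hT R))).re

theorem igd_hT {R : ℝ} (h : |R| < Real.pi / 2) : igd (UU R (hT R)) = UU (xT R) tT := by
  have h1 := tan_igd_UU (η := hT R) h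
  have hc := cos_pos' h
  rw [sinh_hT, mul_div_cancel_right₀ _ hc.ne', ← tan_tT] at h1
  have h2 := abs_lt.1 (igd_im_lt (UU_re_lt (η := hT R) h))
  have h3 := abs_lt.1 tT_abs
  have h4 := Real.injOn_tan ⟨h2.1, h2.2⟩ ⟨h3.1, h3.2⟩ h1
  rw [xT, ← h4, UU_eta]

theorem igd_hT_neg {R : ℝ} (h : |R| < Real.pi / 2) :
    igd (UU R (-(hT R))) = UU (xT R) (-tT) := by
  rw [← UU_conj, igd_conj (UU_re_lt h), igd_hT h, UU_conj]

theorem gd_xT {R : ℝ} (h : |R| < Real.pi / 2) : gd (UU (xT R) tT) = UU R (hT R) := by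
  rw [← igd_hT h, gd_igd (UU_re_lt h)]

theorem gd_xT_neg {R : ℝ} (h : |R| < Real.pi / 2) : gd (UU (xT R) (-tT)) = UU R (-(hT R)) := by
  rw [← UU_conj, gd_conj (by rw [UU_im]; exact tT_abs), gd_xT h, UU_conj]

theorem xT_nonneg {R : ℝ} (h0 : 0 ≤ R) (h : R < Real.pi / 2) : 0 ≤ xT R := igd_re_nonneg h0 h _

theorem xT_mono {R R' : ℝ} (h0 : 0 ≤ R) (h : R ≤ R') (h' : R' < Real.pi / 2) :
    xT R ≤ xT R' := by
  by_contra hc
  push Not at hc
  have aR : |R| < Real.pi / 2 := by rw [abs_of_nonneg h0]; linarith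
  have aR' : |R'| < Real.pi / 2 := by rw [abs_of_nonneg (h0.trans h)]; exact h'
  have := gd_line_mono tT_abs hc
  simp only [gd_xT aR, gd_xT aR', UU_re] at this
  linarith

theorem gd_zero_tT : gd (UU 0 tT) = UU 0 (hT 0) := by
  apply Complex.ext
  · rw [gd_line_zero tT_abs, UU_re]
  · rw [UU_im, ← Real.sinh_inj, gd_line_sinh tT_abs, gd_line_zero tT_abs, sinh_hT, tan_tT]

theorem gd_zero_tT_neg : gd (UU 0 (-tT)) = UU 0 (-(hT 0)) := by
  rw [← UU_conj, gd_conj (by rw [UU_im]; exact tT_abs), gd_zero_tT, UU_conj]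

theorem reg_tT (x x' : ℝ) : Reg (UU x tT) (UU x' (-tT)) := by
  apply Reg_UU
  rw [abs_neg, abs_of_pos tT_pos]
  linarith [tT_lt]

/-! ### Monotonicity along the lines -/

/-- To the left. -/
theorem g_left (hΦ : IsPhi Φ) {R R' : ℝ} (hR0 : 0 ≤ R) (hR : R < Real.pi / 2) (hR0' : 0 ≤ R')
    (hR' : R' < Real.pi / 2)
    (hc : Real.sin R * Real.cosh (hT R') ≤ (601 / 1000) ^ 2 * (Real.cosh (hT R) * Real.sin R') ∨
      (Real.cos R' ≤ 601 / 1000 * Real.cos R ∧ 522 / 1000 ≤ Real.cos R')) :
    FP Φ (UU 0 (hT 0)) (UU R' (-(hT R'))) - hT 0 ≤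
      FP Φ (UU R (hT R)) (UU R' (-(hT R'))) - hT R := by
  have hpi := Real.pi_pos
  have aR : |R| < Real.pi / 2 := by rwa [abs_of_nonneg hR0]
  have aR' : |R'| < Real.pi / 2 := by rwa [abs_of_nonneg hR0']
  have k := line_up hΦ (θ := tT) (w := UU (xT R') (-tT)) (fun x => reg_tT x _)
    (xT_nonneg hR0 hR) (by
      intro s s0 s1
      have r0 := gd_line_re_nonneg tT_abs s0
      have r1 := (gd_line_mono tT_abs).monotone s1
      simp only [gd_xT aR, UU_re] at r1
      have h' : |(UU s tT).im| < Real.pi / 2 := by rw [UU_im]; exact tT_abs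
      have hlt := gd_re_lt h'
      have im0 := gd_line_im_nonneg tT_pos.le (abs_lt.1 tT_abs).2 s
      have e1 := gd_line_sinh tT_abs s
      rw [tan_tT] at e1
      have hq := qq_im_lt (reg_tT s (xT R'))
      have hz : sinh (qq (UU s tT) (UU (xT R') (-tT))) =
          tan (UU (gd (UU s tT)).re (gd (UU s tT)).im) * cos (UU R' (-(hT R'))) := by
        rw [sinh_qq, UU_eta, ← gd_xT_neg aR', tan_gd h', cos_gd (by
          rw [UU_im, abs_neg]; exact tT_abs), mul_one_div]
      have ρ2 : (gd (UU s tT)).re < Real.pi / 2 := by linarith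
      refine left_H hq r0 ρ2 hR0' hR' im0 (hT_nonneg aR') e1 (sinh_hT R') hz ?_
      have cle : Real.cos R ≤ Real.cos (gd (UU s tT)).re :=
        Real.cos_le_cos_of_nonneg_of_le_pi r0 (by linarith) r1
      rcases hc with hc | ⟨h1, h2⟩
      · left
        have a1 : Real.sin (gd (UU s tT)).re ≤ Real.sin R :=
          Real.sin_le_sin_of_le_of_le_pi_div_two (by linarith) hR.le r1
        have a2 : hT R ≤ (gd (UU s tT)).im := by
          rw [← Real.sinh_le_sinh, sinh_hT, e1]
          linarith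
        have a3 : Real.cosh (hT R) ≤ Real.cosh (gd (UU s tT)).im := by
          rw [Real.cosh_le_cosh, abs_of_nonneg (hT_nonneg aR), abs_of_nonneg im0]
          exact a2
        have sR : 0 ≤ Real.sin R' := Real.sin_nonneg_of_nonneg_of_le_pi hR0' (by linarith)
        have b1 := mul_le_mul_of_nonneg_right a1 (Real.cosh_pos (hT R')).le
        have b2 := mul_le_mul_of_nonneg_right a3 sR
        linarith
      · right
        exact ⟨by linarith, h2⟩)
  rw [gd_zero_tT, gd_xT aR, gd_xT_neg aR', UU_im, UU_im] at k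
  exact k

/-- The right point to the right, if the left point is on the imaginary axis. -/
theorem g_right (hΦ : IsPhi Φ) {R R' : ℝ} (hR0 : 0 ≤ R) (hRR : R ≤ R')
    (hR' : R' < Real.pi / 2) :
    FP Φ (UU 0 (hT 0)) (UU R' (-(hT R'))) - hT R' ≤
      FP Φ (UU 0 (hT 0)) (UU R (-(hT R))) - hT R := by
  have hpi := Real.pi_pos
  have aR : |R| < Real.pi / 2 := by rw [abs_of_nonneg hR0]; linarith
  have aR' : |R'| < Real.pi / 2 := by rw [abs_of_nonneg (hR0.trans hRR)]; exact hR'
  have a0 : |(0 : ℝ)| < Real.pi / 2 := by rw [abs_zero]; linarith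
  have k := line_down hΦ.swap (θ := tT) (w := UU 0 (-tT)) (fun x => reg_tT x _)
    (xT_mono hR0 hRR hR') (fun s s0 _ => zero_line tT_pos tT_lt
      ((xT_nonneg hR0 (by linarith)).trans s0))
  have fl : ∀ {r : ℝ}, |r| < Real.pi / 2 →
      FP (fun v w => Φ w v) (UU r (hT r)) (UU 0 (-(hT 0))) =
        FP Φ (UU 0 (hT 0)) (UU r (-(hT r))) := by
    intro r hr
    apply FP_flip hΦ a0 hr
    rw [igd_hT a0, igd_hT_neg hr]
    exact reg_tT _ _
  rw [gd_xT aR, gd_xT aR', gd_zero_tT_neg, UU_im, UU_im, fl aR, fl aR'] at k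
  exact k

/-! ### The vertical gains -/

/-- Raising the right point, the left point at the origin. -/
theorem gain_right (hΦ : IsPhi Φ) {R η : ℝ} (hR : |R| < Real.pi / 2) (h0 : 0 ≤ η)
    (h1 : Real.sinh η ≤ 601 / 1000 * Real.cos R) :
    FP Φ (UU 0 0) (UU R 0) + 2 / Real.pi * (857 / 1000 / Real.cos R * (Real.cosh η - 1)) ≤
      FP Φ (UU 0 0) (UU R (-η)) := by
  have hpi := Real.pi_pos
  have cR := cos_pos' hR
  have a0 : |(0 : ℝ)| < Real.pi / 2 := by rw [abs_zero]; linarith
  have z0 : UU 0 0 = 0 := by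
    apply Complex.ext
    · rw [UU_re, zero_re]
    · rw [UU_im, zero_im]
  have g0 : igd (UU 0 0) = 0 := by
    have := igd_gd (u := 0) (by rw [zero_im, abs_zero]; linarith)
    rw [z0]
    rwa [gd_zero] at this
  have hreg : ∀ s : ℝ, Reg (igd (UU R s)) 0 := by
    intro s
    unfold Reg
    rw [zero_im, abs_zero, add_zero]
    exact igd_im_lt (UU_re_lt hR)
  have hq : ∀ s : ℝ, qq (igd (UU R s)) 0 = igd (UU R s) := by
    intro s
    unfold qq
    rw [cosh_zero, div_one]
    exact (eq_arsh rfl (igd_im_lt (UU_re_lt hR))).symm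
  have hd : ∀ s ∈ Set.Icc (0 : ℝ) η, HasDerivAt
      (fun s => FP (fun v w => Φ w v) (UU R s) (gd 0) -
        2 / Real.pi * (857 / 1000 / Real.cos R * Real.cosh s))
      (2 / Real.pi * (igd (UU R s)).im - 2 / Real.pi * (857 / 1000 / Real.cos R * Real.sinh s))
      s := by
    intro s _
    have k1 := hasDerivAt_FP_vert hΦ.swap hR (hreg s)
    rw [hq s] at k1
    exact k1.sub (((Real.hasDerivAt_cosh s).const_mul (857 / 1000 / Real.cos R)).const_mul
      (2 / Real.pi))
  have key : MonotoneOn (fun s => FP (fun v w => Φ w v) (UU R s) (gd 0) -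
        2 / Real.pi * (857 / 1000 / Real.cos R * Real.cosh s)) (Set.Icc 0 η) := by
    apply monotoneOn_of_deriv_nonneg (convex_Icc 0 η)
    · exact fun t ht => (hd t ht).continuousAt.continuousWithinAt
    · intro t ht
      exact (hd t (interior_subset ht)).differentiableAt.differentiableWithinAt
    · intro t ht
      rw [(hd t (interior_subset ht)).deriv, ← mul_sub]
      rw [interior_Icc] at ht
      apply mul_nonneg (by positivity)
      rw [sub_nonneg]
      -- `θ ≥ sin θ = tan θ cos θ ≥ .857 tan θ`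
      set α := (igd (UU R t)).im with hα
      have α0 : 0 ≤ α := igd_im_nonneg hR ht.1.le
      have α1 := (abs_lt.1 (igd_im_lt (UU_re_lt (η := t) hR))).2
      rw [← hα] at α1
      have ht1 : Real.tan α = Real.sinh t / Real.cos R := tan_igd_UU hR
      have cα : 0 < Real.cos α := Real.cos_pos_of_mem_Ioo ⟨by linarith, α1⟩
      have t0 : 0 ≤ Real.tan α := Real.tan_nonneg_of_nonneg_of_le_pi_div_two α0 α1.le
      have t1 : Real.tan α ≤ 601 / 1000 := by
        rw [ht1, div_le_iff₀ cR]
        exact (Real.sinh_le_sinh.2 ht.2.le).trans h1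
      have hs : Real.sin α = Real.tan α * Real.cos α := by
        rw [Real.tan_eq_sin_div_cos]; field_simp
      have hsc := Real.sin_sq_add_cos_sq α
      have c1 : 857 / 1000 ≤ Real.cos α := by
        rw [hs] at hsc
        have : (Real.tan α * Real.cos α) ^ 2 ≤ (601 / 1000) ^ 2 * Real.cos α ^ 2 := by
          rw [mul_pow]
          exact mul_le_mul_of_nonneg_right (pow_le_pow_left₀ t0 t1 2) (sq_nonneg _)
        nlinarith
      have s1 := Real.sin_le α0
      calc 857 / 1000 / Real.cos R * Real.sinh t = 857 / 1000 * Real.tan α := by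
            rw [ht1]; ring
        _ ≤ Real.tan α * Real.cos α := by nlinarith
        _ = Real.sin α := hs.symm
        _ ≤ α := s1
  have k := key ⟨le_rfl, h0⟩ ⟨h0, le_rfl⟩ h0
  simp only [Real.cosh_zero] at k
  have fl : ∀ s : ℝ, 0 ≤ s → FP (fun v w => Φ w v) (UU R s) (gd 0) = FP Φ (UU 0 0) (UU R (-s)) := by
    intro s _
    have r : Reg (igd (UU 0 0)) (igd (UU R (-s))) := by
      rw [g0]
      exact (hreg (-s)).symm
    have := FP_flip hΦ a0 hR r
    rw [neg_zero] at this
    rw [gd_zero, ← z0]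
    exact this
  rw [fl 0 le_rfl, fl η h0, neg_zero] at k
  linarith

/-- Raising the left point on the imaginary axis. -/
theorem gain_left (hΦ : IsPhi Φ) {R : ℝ} (hR : |R| < Real.pi / 2) :
    FP Φ (UU 0 0) (UU R (-(hT R))) + 2 / Real.pi * (Real.cos R * Real.log (Real.cosh (hT 0))) ≤
      FP Φ (UU 0 (hT 0)) (UU R (-(hT R))) := by
  have hpi := Real.pi_pos
  have cR := cos_pos' hR
  have a0 : |(0 : ℝ)| < Real.pi / 2 := by rw [abs_zero]; linarith
  have h00 : 0 ≤ hT 0 := hT_nonneg a0
  have gw : gd (igd (UU R (-(hT R)))) = UU R (-(hT R)) := gd_igd (UU_re_lt hR)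
  have hreg : ∀ s ∈ Set.Icc (0 : ℝ) (hT 0), Reg (igd (UU 0 s)) (igd (UU R (-(hT R)))) := by
    intro s hs
    apply reg_vert a0 le_rfl hs.1 hs.2
    rw [igd_hT a0, igd_hT_neg hR]
    exact reg_tT _ _
  have hd : ∀ s ∈ Set.Icc (0 : ℝ) (hT 0), HasDerivAt
      (fun s => FP Φ (UU 0 s) (gd (igd (UU R (-(hT R))))) -
        2 / Real.pi * (Real.cos R * Real.log (Real.cosh s)))
      (2 / Real.pi * (qq (igd (UU 0 s)) (igd (UU R (-(hT R))))).im -
        2 / Real.pi * (Real.cos R * (Real.sinh s / Real.cosh s))) s := by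
    intro s hs
    exact (hasDerivAt_FP_vert hΦ a0 (hreg s hs)).sub
      ((((Real.hasDerivAt_cosh s).log (Real.cosh_pos s).ne').const_mul (Real.cos R)).const_mul
      (2 / Real.pi))
  have key : MonotoneOn (fun s => FP Φ (UU 0 s) (gd (igd (UU R (-(hT R))))) -
        2 / Real.pi * (Real.cos R * Real.log (Real.cosh s))) (Set.Icc 0 (hT 0)) := by
    apply monotoneOn_of_deriv_nonneg (convex_Icc 0 (hT 0))
    · exact fun t ht => (hd t ht).continuousAt.continuousWithinAt
    · intro t ht
      exact (hd t (interior_subset ht)).differentiableAt.differentiableWithinAt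
    · intro t ht
      have hr := hreg t (interior_subset ht)
      rw [(hd t (interior_subset ht)).deriv, ← mul_sub]
      rw [interior_Icc] at ht
      apply mul_nonneg (by positivity)
      rw [sub_nonneg]
      -- `z = tanh t · i cos P'`
      have ez : sinh (igd (UU 0 t)) / cosh (igd (UU R (-(hT R)))) =
          ((Real.tanh t : ℝ) : ℂ) * (I * cos (UU R (-(hT R)))) := by
        have e1 : UU 0 t = (t : ℂ) * I := by
          rw [UU, ofReal_zero, zero_add]
        rw [sinh_igd, cosh_igd (UU_re_lt hR), one_div, div_inv_eq_mul, e1, Complex.tan_mul_I,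
          ofReal_tanh]
        ring
      have t0 : 0 ≤ Real.tanh t := tanh_nonneg' ht.1.le
      have sT := sinh_hT R
      have cT := Real.cosh_sq (hT R)
      have cc := Real.cosh_pos (hT R)
      have sc := Real.sin_sq_add_cos_sq R
      have him : (((Real.tanh t : ℝ) : ℂ) * (I * cos (UU R (-(hT R))))).im =
          Real.tanh t * (Real.cos R * Real.cosh (hT R)) := by
        rw [im_ofReal_mul, mul_im, I_re, I_im, wcos_re, UU_re, UU_im, Real.cosh_neg]
        ring
      have hns : normSq (((Real.tanh t : ℝ) : ℂ) * (I * cos (UU R (-(hT R))))) =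
          Real.tanh t ^ 2 * (Real.cos R ^ 2 + Real.sinh (hT R) ^ 2) := by
        rw [normSq_mul, normSq_mul, normSq_ofReal, normSq_I, normSq_apply, wcos_re, wcos_im,
          UU_re, UU_im, Real.cosh_neg, Real.sinh_neg]
        linear_combination (Real.tanh t ^ 2 * Real.cos R ^ 2) * cT +
          (Real.tanh t ^ 2 * Real.sinh (hT R) ^ 2) * sc
      have htt : Real.tanh t ^ 2 * (1 + (601 / 1000) ^ 2) ≤ (601 / 1000) ^ 2 := by
        have h1 : Real.sinh t ≤ 601 / 1000 := by
          have := Real.sinh_le_sinh.2 ht.2.le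
          rw [sinh_hT, Real.cos_zero, mul_one] at this
          exact this
        have h2 : 0 ≤ Real.sinh t := Real.sinh_nonneg_iff.2 ht.1.le
        have h3 := Real.cosh_sq t
        have h4 := Real.cosh_pos t
        rw [Real.tanh_eq_sinh_div_cosh, div_pow, div_mul_eq_mul_div, div_le_iff₀ (by positivity), h3]
        nlinarith
      have k := qq_im_ge hr (c := Real.tanh t * (Real.cos R * Real.cosh (hT R)))
        (N := Real.cosh (hT R)) cc (by positivity) (by rw [ez, him]) (by
          rw [ez, hns, cT, sT]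
          have : 0 ≤ Real.cos R ^ 2 := sq_nonneg _
          nlinarith)
      rw [← Real.tanh_eq_sinh_div_cosh]
      refine le_trans (le_of_eq ?_) k
      field_simp
  have k := key ⟨le_rfl, h00⟩ ⟨h00, le_rfl⟩ h00
  simp only [Real.cosh_zero, Real.log_one, mul_zero, sub_zero, gw] at k
  linarith

end

end Pool.Agent.S3
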