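import Pool.Agent.S3.LowA

/-!
# Open-open edges: vertical gains with the exact rate

For `sinh q = tan P cos P'` the deviation of `im q` from `π / 2` is bounded below by an explicit
rational expression; integrated along verticals it gives lower bounds for
`re Φ (v, conj w) - π (im v + im w)`.
-/

set_option autoImplicit false

namespace Pool.Agent.S3

open Complex
open Pool.Agent.H25.RK (gdv gdv_re_lt gdv_hasDerivAt)

section

variable {Φ : ℂ → ℂ → ℂ}

theorem cos_im_ge {q τ κ : ℂ} (h : sinh q = τ * κ) :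
    κ.re ^ 2 - normSq κ ^ 2 * τ.im ^ 2 ≤ normSq κ * Real.cos q.im ^ 2 := by
  have r := Real.cosh_sq q.re
  have s := Real.sin_sq_add_cos_sq q.im
  have e1 : normSq (cosh q) = Real.sinh q.re ^ 2 + Real.cos q.im ^ 2 := by
    rw [normSq_apply, cosh_re', cosh_im']
    linear_combination Real.cos q.im ^ 2 * r + Real.sinh q.re ^ 2 * s
  have e2 : normSq (sinh q) = Real.sinh q.re ^ 2 + 1 - Real.cos q.im ^ 2 := by
    rw [normSq_apply, sinh_re', sinh_im']
    linear_combination Real.sin q.im ^ 2 * r + (Real.sinh q.re ^ 2 + 1) * s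
  have e2' : normSq (sinh q) = normSq τ * normSq κ := by rw [h, normSq_mul]
  have e3 : cosh q ^ 2 = 1 + τ ^ 2 * κ ^ 2 := by
    rw [Complex.cosh_sq, h]; ring
  have e4 : (cosh q ^ 2 * (starRingEnd ℂ) (κ ^ 2)).re = κ.re ^ 2 - κ.im ^ 2 +
      normSq κ ^ 2 * (τ.re ^ 2 - τ.im ^ 2) := by
    rw [e3]
    simp only [mul_re, mul_im, add_re, add_im, one_re, one_im, sq, conj_re, conj_im, normSq_apply]
    ring
  have e5 : (cosh q ^ 2 * (starRingEnd ℂ) (κ ^ 2)).re ≤ normSq (cosh q) * normSq κ := by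
    refine (re_le_norm _).trans (le_of_eq ?_)
    rw [norm_mul, Complex.norm_conj, norm_pow, norm_pow, normSq_eq_norm_sq, normSq_eq_norm_sq]
  rw [e4, e1] at e5
  have e6 : normSq τ = τ.re ^ 2 + τ.im ^ 2 := by rw [normSq_apply]; ring
  have e7 : normSq κ = κ.re ^ 2 + κ.im ^ 2 := by rw [normSq_apply]; ring
  have e8 : (Real.sinh q.re ^ 2 + 1 - Real.cos q.im ^ 2) * normSq κ =
      (τ.re ^ 2 + τ.im ^ 2) * normSq κ * normSq κ := by
    rw [← e2, e2', e6]
  nlinarith

theorem tan_UU_im {R η : ℝ} (hR : |R| < Real.pi / 2) : (tan (UU R η)).im =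
    Real.sinh η * Real.cosh η / (Real.cos R ^ 2 + Real.sinh η ^ 2) := by
  have hn : cos (UU R η) ≠ 0 := cos_ne' (UU_re_lt hR)
  have cR := cos_pos' hR
  have hN : normSq (cos (UU R η)) = Real.cos R ^ 2 + Real.sinh η ^ 2 := by
    rw [normSq_apply, wcos_re, wcos_im, UU_re, UU_im]
    have a := Real.cosh_sq η
    have b := Real.sin_sq_add_cos_sq R
    linear_combination (Real.cos R ^ 2) * a + (Real.sinh η ^ 2) * b
  have e1 : tan (UU R η) = (sin (UU R η) * (starRingEnd ℂ) (cos (UU R η))) /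
        ((normSq (cos (UU R η)) : ℝ) : ℂ) := by
    have hc : (starRingEnd ℂ) (cos (UU R η)) ≠ 0 := (map_ne_zero _).2 hn
    rw [Complex.tan_eq_sin_div_cos, normSq_eq_conj_mul_self]
    field_simp
  have s2 : (sin (UU R η) * (starRingEnd ℂ) (cos (UU R η))).im =
      Real.sinh η * Real.cosh η := by
    rw [mul_im, conj_re, conj_im, wsin_re, wsin_im, wcos_re, wcos_im, UU_re, UU_im]
    have := Real.sin_sq_add_cos_sq R
    linear_combination (Real.sinh η * Real.cosh η) * this
  rw [e1, div_ofReal_im, s2, hN]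

/-- The lower bound of `cos² im q`. -/
noncomputable def Dd (c c' x x' : ℝ) : ℝ :=
  c' ^ 2 * (1 + x' ^ 2) / (c' ^ 2 + x' ^ 2) -
    (c' ^ 2 + x' ^ 2) * (x ^ 2 * (1 + x ^ 2)) / (c ^ 2 + x ^ 2) ^ 2

theorem qq_cos_ge {R R' η η' : ℝ} (aR : |R| < Real.pi / 2) (aR' : |R'| < Real.pi / 2)
    (h : Reg (igd (UU R η)) (igd (UU R' (-η')))) :
    Dd (Real.cos R) (Real.cos R') (Real.sinh η) (Real.sinh η') ≤
      Real.cos (qq (igd (UU R η)) (igd (UU R' (-η')))).im ^ 2 := by
  have hz : sinh (qq (igd (UU R η)) (igd (UU R' (-η')))) =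
      tan (UU R η) * cos (UU R' (-η')) := by
    rw [sinh_qq, sinh_igd, cosh_igd (UU_re_lt aR'), div_eq_mul_one_div, one_div_one_div]
  have k := cos_im_ge hz
  have cR := cos_pos' aR
  have cR' := cos_pos' aR'
  have n : normSq (cos (UU R' (-η'))) = Real.cos R' ^ 2 + Real.sinh η' ^ 2 := by
    rw [normSq_apply, wcos_re, wcos_im, UU_re, UU_im, Real.cosh_neg, Real.sinh_neg]
    have a := Real.cosh_sq η'
    have b := Real.sin_sq_add_cos_sq R'
    linear_combination (Real.cos R' ^ 2) * a + (Real.sinh η' ^ 2) * b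
  rw [n, tan_UU_im aR, wcos_re, UU_re, UU_im, Real.cosh_neg] at k
  have np : 0 < Real.cos R' ^ 2 + Real.sinh η' ^ 2 := by positivity
  have a := Real.cosh_sq η
  have a' := Real.cosh_sq η'
  have e : Dd (Real.cos R) (Real.cos R') (Real.sinh η) (Real.sinh η') =
      ((Real.cos R' * Real.cosh η') ^ 2 - (Real.cos R' ^ 2 + Real.sinh η' ^ 2) ^ 2 *
        (Real.sinh η * Real.cosh η / (Real.cos R ^ 2 + Real.sinh η ^ 2)) ^ 2) /
        (Real.cos R' ^ 2 + Real.sinh η' ^ 2) := by
    have np2 : 0 < Real.cos R ^ 2 + Real.sinh η ^ 2 := by positivity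
    rw [Dd, mul_pow, a', div_pow, mul_pow, a]
    field_simp
    ring
  rw [e, div_le_iff₀ np]
  linarith

/-- `sin δ + sin³ δ / 6 ≤ δ`. -/
theorem arcsin_three {δ : ℝ} (h0 : 0 ≤ δ) (h1 : δ ≤ Real.pi) :
    Real.sin δ + Real.sin δ ^ 3 / 6 ≤ δ := by
  have h := LowA_pos (b := Real.pi) (f := fun x => x - (Real.sin x + Real.sin x ^ 3 / 6))
    (f' := fun x => 1 - (Real.cos x + Real.sin x ^ 2 * Real.cos x / 2))
    (fun x _ _ => by
      have h1 := (hasDerivAt_id' x).sub ((Real.hasDerivAt_sin x).add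
        (((Real.hasDerivAt_sin x).pow 3).div_const 6))
      refine h1.congr_deriv ?_
      norm_num
      ring)
    (by simp) (fun x _ _ => by
      have a := Real.sin_sq_add_cos_sq x
      have s0 := sq_nonneg (Real.sin x)
      have e : (Real.cos x * (1 + Real.sin x ^ 2 / 2)) ^ 2 =
          1 - 3 / 4 * (Real.sin x ^ 2) ^ 2 - (Real.sin x ^ 2) ^ 3 / 4 := by
        rw [mul_pow]
        have : Real.cos x ^ 2 = 1 - Real.sin x ^ 2 := by linarith
        rw [this]; ring
      have h2 : (Real.cos x * (1 + Real.sin x ^ 2 / 2)) ^ 2 ≤ 1 := by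
        rw [e]
        have : 0 ≤ (Real.sin x ^ 2) ^ 3 := by positivity
        nlinarith [sq_nonneg (Real.sin x ^ 2)]
      have h3 : |Real.cos x * (1 + Real.sin x ^ 2 / 2)| ≤ 1 := (sq_le_one_iff_abs_le_one _).1 h2
      have h4 := (abs_le.1 h3).2
      linarith) h0 h1
  linarith

/-- The gain on a vertical. -/
theorem leg_gain (hΦ : IsPhi Φ) {R R' a b η' m0 m1 e : ℝ} (aR : |R| < Real.pi / 2)
    (aR' : |R'| < Real.pi / 2) (ha : 0 ≤ a) (hab : a ≤ b)
    (hr : Reg (igd (UU R b)) (igd (UU R' (-η')))) (hm0 : 0 ≤ m0) (hm1 : 0 ≤ m1) (he : 0 ≤ e)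
    (hD : ∀ x, Real.sinh a ≤ x → x ≤ Real.sinh b →
      3 * e ≤ Dd (Real.cos R) (Real.cos R') x (Real.sinh η') ∧
      (m0 + m1 * (Real.sinh b - x)) ^ 2 ≤
        (1 + e) * Dd (Real.cos R) (Real.cos R') x (Real.sinh η')) :
    FP Φ (UU R b) (UU R' (-η')) - b +
      2 / Real.pi * ((m0 * (Real.sinh b - Real.sinh a) +
        m1 * (Real.sinh b - Real.sinh a) ^ 2 / 2) / Real.cosh b) ≤
      FP Φ (UU R a) (UU R' (-η')) - a := by
  have hpi := Real.pi_pos
  set w := igd (UU R' (-η')) with hw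
  have gw : gd w = UU R' (-η') := gd_igd (UU_re_lt aR')
  have cb := Real.cosh_pos b
  have hreg : ∀ s ∈ Set.Icc a b, Reg (igd (UU R s)) w := by
    intro s hs
    exact reg_vert aR ha hs.1 hs.2 hr
  have hd : ∀ s ∈ Set.Icc a b, HasDerivAt
      (fun s => FP Φ (UU R s) (gd w) - s +
        2 / Real.pi * ((m0 * Real.sinh s +
          m1 * (Real.sinh b * Real.sinh s - Real.sinh s ^ 2 / 2)) / Real.cosh b))
      (2 / Real.pi * (qq (igd (UU R s)) w).im - 1 +
        2 / Real.pi * ((m0 * Real.cosh s + m1 * (Real.sinh b * Real.cosh s -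
          Real.sinh s * Real.cosh s)) / Real.cosh b)) s := by
    intro s hs
    have k1 := hasDerivAt_FP_vert hΦ aR (hreg s hs)
    have k2 := Real.hasDerivAt_sinh s
    have k3 := (((k2.const_mul m0).add (((k2.const_mul (Real.sinh b)).sub
      ((k2.pow 2).div_const 2)).const_mul m1)).div_const (Real.cosh b)).const_mul (2 / Real.pi)
    refine ((k1.sub (hasDerivAt_id s)).add k3).congr_deriv ?_
    simp only [Nat.cast_ofNat]
    ring
  have key : AntitoneOn (fun s => FP Φ (UU R s) (gd w) - s +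
        2 / Real.pi * ((m0 * Real.sinh s +
          m1 * (Real.sinh b * Real.sinh s - Real.sinh s ^ 2 / 2)) / Real.cosh b))
      (Set.Icc a b) := by
    apply antitoneOn_of_deriv_nonpos (convex_Icc a b)
    · exact fun t ht => (hd t ht).continuousAt.continuousWithinAt
    · intro t ht
      exact (hd t (interior_subset ht)).differentiableAt.differentiableWithinAt
    · intro t ht
      have hr := hreg t (interior_subset ht)
      rw [(hd t (interior_subset ht)).deriv]
      rw [interior_Icc] at ht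
      have x1 : Real.sinh a ≤ Real.sinh t := Real.sinh_le_sinh.2 ht.1.le
      have x2 : Real.sinh t ≤ Real.sinh b := Real.sinh_le_sinh.2 ht.2.le
      obtain ⟨k0, k1⟩ := hD _ x1 x2
      have k2 := qq_cos_ge aR aR' hr
      rw [← hw] at k2
      have qi := abs_lt.1 (qq_im_lt hr)
      have cq : 0 < Real.cos (qq (igd (UU R t)) w).im :=
        Real.cos_pos_of_mem_Ioo ⟨by linarith [qi.1], qi.2⟩
      have m00 : 0 ≤ m0 + m1 * (Real.sinh b - Real.sinh t) :=
        add_nonneg hm0 (mul_nonneg hm1 (by linarith))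
      have k4 : Real.cos (qq (igd (UU R t)) w).im + Real.cos (qq (igd (UU R t)) w).im ^ 3 / 6 ≤
          Real.pi / 2 - (qq (igd (UU R t)) w).im := by
        have := arcsin_three (δ := Real.pi / 2 - (qq (igd (UU R t)) w).im) (by linarith [qi.2])
          (by linarith [qi.1])
        rwa [Real.sin_pi_div_two_sub] at this
      have k3 : m0 + m1 * (Real.sinh b - Real.sinh t) ≤ Real.cos (qq (igd (UU R t)) w).im +
          Real.cos (qq (igd (UU R t)) w).im ^ 3 / 6 := by
        apply le_of_sq_le_sq _ (by positivity)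
        refine k1.trans ?_
        generalize Real.cos (qq (igd (UU R t)) w).im = c at *
        generalize Dd (Real.cos R) (Real.cos R') (Real.sinh t) (Real.sinh η') = D at *
        have d0 : 0 ≤ D := by linarith
        have e1 : (1 + e) * D ≤ (1 + c ^ 2 / 3) * c ^ 2 :=
          mul_le_mul (by linarith) k2 d0 (by positivity)
        have e2 : 0 ≤ c ^ 6 := by positivity
        calc (1 + e) * D ≤ (1 + c ^ 2 / 3) * c ^ 2 := e1
          _ ≤ (1 + c ^ 2 / 3) * c ^ 2 + c ^ 6 / 36 := by linarith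
          _ = (c + c ^ 3 / 6) ^ 2 := by ring
      have k5 : Real.cosh t ≤ Real.cosh b := by
        rw [Real.cosh_le_cosh, abs_of_nonneg (ha.trans ht.1.le),
          abs_of_nonneg (ha.trans hab)]
        exact ht.2.le
      have k6 : (m0 * Real.cosh t + m1 * (Real.sinh b * Real.cosh t -
          Real.sinh t * Real.cosh t)) / Real.cosh b ≤ m0 + m1 * (Real.sinh b - Real.sinh t) := by
        rw [div_le_iff₀ cb]
        have := mul_le_mul_of_nonneg_left k5 m00
        linarith
      have k7 : 2 / Real.pi * ((m0 * Real.cosh t + m1 * (Real.sinh b * Real.cosh t -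
          Real.sinh t * Real.cosh t)) / Real.cosh b) ≤
          2 / Real.pi * (Real.pi / 2 - (qq (igd (UU R t)) w).im) :=
        mul_le_mul_of_nonneg_left (by linarith) (by positivity)
      have e : 2 / Real.pi * (Real.pi / 2 - (qq (igd (UU R t)) w).im) =
          1 - 2 / Real.pi * (qq (igd (UU R t)) w).im := by
        field_simp
      linarith
  have k := key ⟨le_rfl, hab⟩ ⟨hab, le_rfl⟩ hab
  simp only [gw] at k
  have e2 : (m0 * (Real.sinh b - Real.sinh a) +
        m1 * (Real.sinh b - Real.sinh a) ^ 2 / 2) / Real.cosh b =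
      (m0 * Real.sinh b + m1 * (Real.sinh b * Real.sinh b - Real.sinh b ^ 2 / 2)) / Real.cosh b -
      (m0 * Real.sinh a + m1 * (Real.sinh b * Real.sinh a - Real.sinh a ^ 2 / 2)) /
        Real.cosh b := by ring
  rw [e2, mul_sub]
  linarith

end

end Pool.Agent.S3
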