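import Pool.Agent.S3.FlatS

/-!
# The flat through the critical point of an edge: criterion with a free time

`U = 1 / cos² π v`, `V = 1 / cos² π w`, `n = U + V`, `N = n - 1 = tan² π y`, `y = s + i h`.
On the flat `C(t) = cos² π (t + i h)`, `δ(t) = C(t) n - 1` runs on an ellipse with foci `-1` and
`N`.  Let `c² + σ² = 1`, `|U - V|² < 4 c |U| |V|`, `S = 1 + |N|`, `w = c Re n + σ Im n > c S` and
`(|U|² - |V|²)² (S² - w²) < 4 S (w - c S) Re ((c + i σ) U V conj n²)`.  Then
`EE (op v) (op w) (t + i h)` increases on `[0, s]` and decreases on `[s, 1/2]`.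
-/

set_option autoImplicit false

namespace Pool.Agent.S3

open Pool.Agent.H63.VC3 Complex MeasureTheory Filter Topology Set

/-- `δ = d₁ + i d₂`, `κ = k₁ + i k₂`, `|κ - 4| |δ| ≤ 4 d₁`. -/
private theorem fm_ab {k1 k2 d1 d2 : ℝ} (h0 : 0 ≤ d1)
    (h : ((k1 - 4) ^ 2 + k2 ^ 2) * (d1 ^ 2 + d2 ^ 2) ≤ 16 * d1 ^ 2) :
    0 ≤ k1 * d1 - k2 * d2 ∧ 0 ≤ k1 * d1 + k2 * d2 := by
  have h1 : ((k1 - 4) * d1 - k2 * d2) ^ 2 ≤ (4 * d1) ^ 2 := by
    linarith only [sq_nonneg ((k1 - 4) * d2 + k2 * d1), h]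
  have h2 : ((k1 - 4) * d1 + k2 * d2) ^ 2 ≤ (4 * d1) ^ 2 := by
    linarith only [sq_nonneg ((k1 - 4) * d2 - k2 * d1), h]
  have h3 := abs_le_of_sq_le_sq' h1 (by linarith only [h0])
  have h4 := abs_le_of_sq_le_sq' h2 (by linarith only [h0])
  constructor <;> nlinarith [h3.1, h4.1]

private theorem fm_amgm {a b R g : ℝ} (ha : 0 ≤ a) (hb : 0 ≤ b) (hR : 0 ≤ R)
    (h : g ^ 2 ≤ 16 * R * (a * b)) : g ≤ 2 * b + 2 * R * a := by
  by_contra hc
  push Not at hc
  have h0 : 0 ≤ 2 * b + 2 * R * a := by positivity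
  have h1 : (2 * b + 2 * R * a) ^ 2 < g ^ 2 := by linarith only [mul_nonneg (sub_nonneg.2 hc.le) (sub_nonneg.2 h0),
                                                    mul_pos (sub_pos.2 hc) (sub_pos.2 hc)]
  linarith only [sq_nonneg (b - R * a), h1, h]

private theorem fm_amgm' {a b R g : ℝ} (ha : 0 ≤ a) (hb : 0 ≤ b) (hR : 0 ≤ R)
    (h : g ^ 2 < 16 * R * (a * b)) : g < 2 * b + 2 * R * a := by
  by_contra hc
  push Not at hc
  have h0 : 0 ≤ 2 * b + 2 * R * a := by positivity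
  have h1 : (2 * b + 2 * R * a) ^ 2 ≤ g ^ 2 := by linarith only [mul_nonneg (sub_nonneg.2 hc) (sub_nonneg.2 h0),
                                                    mul_nonneg (sub_nonneg.2 hc) (sub_nonneg.2 hc)]
  linarith only [sq_nonneg (b - R * a), h1, h]

/-- The inequality left of the critical point. -/
private theorem fm_left {k1 k2 d1 d2 : ℝ} (h0 : 0 ≤ d1)
    (h : ((k1 - 4) ^ 2 + k2 ^ 2) * (d1 ^ 2 + d2 ^ 2) < 16 * d1 ^ 2) :
    (k1 ^ 2 + k2 ^ 2) * (d1 ^ 2 + d2 ^ 2) <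
      2 * (k1 * d1 - k2 * d2) + 4 * (d1 ^ 2 + d2 ^ 2) * k1 +
        2 * (d1 ^ 2 + d2 ^ 2) * (k1 * d1 + k2 * d2) := by
  obtain ⟨hb, ha⟩ := fm_ab h0 h.le
  have hR : 0 ≤ d1 ^ 2 + d2 ^ 2 := by positivity
  have key : (k1 ^ 2 + k2 ^ 2) * (d1 ^ 2 + d2 ^ 2) < 8 * k1 * (d1 ^ 2 + d2 ^ 2) - 16 * d2 ^ 2 := by
    linarith only [h]
  have hg : (4 * k1 * (d1 ^ 2 + d2 ^ 2) - 16 * d2 ^ 2) ^ 2 ≤
      16 * (d1 ^ 2 + d2 ^ 2) * ((k1 * d1 + k2 * d2) * (k1 * d1 - k2 * d2)) := by
    have : 16 * (d1 ^ 2 + d2 ^ 2) * ((k1 * d1 + k2 * d2) * (k1 * d1 - k2 * d2)) -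
        (4 * k1 * (d1 ^ 2 + d2 ^ 2) - 16 * d2 ^ 2) ^ 2 =
        16 * d2 ^ 2 * (8 * k1 * (d1 ^ 2 + d2 ^ 2) - 16 * d2 ^ 2 -
          (k1 ^ 2 + k2 ^ 2) * (d1 ^ 2 + d2 ^ 2)) := by ring
    have h2 : 0 ≤ 16 * d2 ^ 2 * (8 * k1 * (d1 ^ 2 + d2 ^ 2) - 16 * d2 ^ 2 -
          (k1 ^ 2 + k2 ^ 2) * (d1 ^ 2 + d2 ^ 2)) := mul_nonneg (by positivity) (by linarith only [h])
    linarith only [h2]
  have := fm_amgm ha hb hR hg
  linarith only [this, h]

/-- The inequality right of the critical point. -/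
private theorem fm_right {k1 k2 d1 d2 : ℝ} (h0 : 0 ≤ d1)
    (h : ((k1 - 4) ^ 2 + k2 ^ 2) * (d1 ^ 2 + d2 ^ 2) < 16 * d1 ^ 2) :
    -2 * (k1 * d1 - k2 * d2) + 4 * (d1 ^ 2 + d2 ^ 2) * k1 -
        2 * (d1 ^ 2 + d2 ^ 2) * (k1 * d1 + k2 * d2) <
      (k1 ^ 2 + k2 ^ 2) * (d1 ^ 2 + d2 ^ 2) := by
  obtain ⟨hb, ha⟩ := fm_ab h0 h.le
  have hR : 0 ≤ d1 ^ 2 + d2 ^ 2 := by positivity
  have hR' : 0 < d1 ^ 2 + d2 ^ 2 := by
    rcases hR.eq_or_lt with h1 | h1
    · exfalso
      have h2 : d1 ^ 2 = 0 := by nlinarith [sq_nonneg d1, sq_nonneg d2]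
      have h3 : 0 ≤ ((k1 - 4) ^ 2 + k2 ^ 2) * (d1 ^ 2 + d2 ^ 2) := by positivity
      rw [h2] at h h3
      linarith
    · exact h1
  have hk : 0 < k1 ^ 2 + k2 ^ 2 := by
    by_contra hk
    have h1 : k1 ^ 2 + k2 ^ 2 = 0 := le_antisymm (not_lt.mp hk) (by positivity)
    have h2 : k1 = 0 := by nlinarith [sq_nonneg k1, sq_nonneg k2]
    have h3 : k2 = 0 := by linarith only [h, mul_nonneg (sq_nonneg (d2)) (sq_nonneg (k1 - 4)),
                             mul_nonneg (sq_nonneg (d1)) (sub_nonneg.2 h2.le),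
                             mul_nonneg (sq_nonneg (d1)) (sub_nonneg.2 h2.ge),
                             mul_nonneg (sq_nonneg (k1)) (sq_nonneg (d1)),
                             mul_nonneg (sq_nonneg (k2)) (sq_nonneg (d2)),
                             mul_nonneg (sq_nonneg (k2)) (sq_nonneg (d1))]
    subst h2
    subst h3
    linarith only [sq_nonneg d2, h]
  have key : (k1 ^ 2 + k2 ^ 2) * (d1 ^ 2 + d2 ^ 2) < 8 * k1 * (d1 ^ 2 + d2 ^ 2) - 16 * d2 ^ 2 := by
    linarith only [h]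
  have hg : (4 * k1 * (d1 ^ 2 + d2 ^ 2) - (k1 ^ 2 + k2 ^ 2) * (d1 ^ 2 + d2 ^ 2)) ^ 2 <
      16 * (d1 ^ 2 + d2 ^ 2) * ((k1 * d1 + k2 * d2) * (k1 * d1 - k2 * d2)) := by
    have : 16 * (d1 ^ 2 + d2 ^ 2) * ((k1 * d1 + k2 * d2) * (k1 * d1 - k2 * d2)) -
        (4 * k1 * (d1 ^ 2 + d2 ^ 2) - (k1 ^ 2 + k2 ^ 2) * (d1 ^ 2 + d2 ^ 2)) ^ 2 =
        (d1 ^ 2 + d2 ^ 2) * (k1 ^ 2 + k2 ^ 2) * (8 * k1 * (d1 ^ 2 + d2 ^ 2) - 16 * d2 ^ 2 -
          (k1 ^ 2 + k2 ^ 2) * (d1 ^ 2 + d2 ^ 2)) := by ring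
    have h2 : 0 < (d1 ^ 2 + d2 ^ 2) * (k1 ^ 2 + k2 ^ 2) *
        (8 * k1 * (d1 ^ 2 + d2 ^ 2) - 16 * d2 ^ 2 -
          (k1 ^ 2 + k2 ^ 2) * (d1 ^ 2 + d2 ^ 2)) := mul_pos (by positivity) (by linarith only [h])
    linarith only [h2]
  have := fm_amgm' ha hb hR hg
  linarith only [this]

private theorem fm_sq {κ δ : ℂ} (h : ‖κ - 4‖ * ‖δ‖ < 4 * δ.re) : 0 < δ.re ∧
    ((κ.re - 4) ^ 2 + κ.im ^ 2) * (δ.re ^ 2 + δ.im ^ 2) < 16 * δ.re ^ 2 := by
  have h0 : 0 < δ.re := by
    have : 0 ≤ ‖κ - 4‖ * ‖δ‖ := by positivity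
    linarith only [this, h]
  refine ⟨h0, ?_⟩
  have := pow_lt_pow_left₀ h (by positivity) two_ne_zero
  rw [mul_pow, ← normSq_eq_norm_sq, ← normSq_eq_norm_sq, normSq_apply, normSq_apply] at this
  simp only [sub_re, sub_im] at this
  norm_num at this
  linarith only [this]

/-- Complex form, left: `|(1 + δ)² - κ δ| < |1 + δ|²`. -/
private theorem fm_leftC {κ δ : ℂ} (h : ‖κ - 4‖ * ‖δ‖ < 4 * δ.re) :
    ‖(1 + δ) ^ 2 - κ * δ‖ < ‖1 + δ‖ ^ 2 := by
  obtain ⟨h0, h2⟩ := fm_sq h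
  have h3 := fm_left h0.le h2
  apply lt_of_pow_lt_pow_left₀ 2 (by positivity)
  rw [← normSq_eq_norm_sq, ← pow_mul]
  have e : ‖1 + δ‖ ^ (2 * 2) = normSq (1 + δ) ^ 2 := by
    rw [normSq_eq_norm_sq, ← pow_mul]
  rw [e, normSq_apply, normSq_apply]
  simp only [sub_re, sub_im, add_re, add_im, mul_re, mul_im, one_re, one_im, pow_two]
  linarith only [h3]

/-- Complex form, right: `|1 - δ|² < |(1 - δ)² + κ δ|`. -/
private theorem fm_rightC {κ δ : ℂ} (h : ‖κ - 4‖ * ‖δ‖ < 4 * δ.re) :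
    ‖1 - δ‖ ^ 2 < ‖(1 - δ) ^ 2 + κ * δ‖ := by
  obtain ⟨h0, h2⟩ := fm_sq h
  have h3 := fm_right h0.le h2
  apply lt_of_pow_lt_pow_left₀ 2 (by positivity)
  rw [← normSq_eq_norm_sq, ← normSq_eq_norm_sq, normSq_apply, normSq_apply]
  simp only [sub_re, sub_im, add_re, add_im, mul_re, mul_im, one_re, one_im, pow_two]
  linarith only [h3]

private theorem fm_sin (a b : ℝ) : sin ((a : ℂ) + b * I) =
    ((Real.sin a * Real.cosh b : ℝ) : ℂ) + ((Real.cos a * Real.sinh b : ℝ) : ℂ) * I := by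
  rw [sin_add_mul_I]
  push_cast
  ring

private theorem fm_cos (a b : ℝ) : cos ((a : ℂ) + b * I) =
    ((Real.cos a * Real.cosh b : ℝ) : ℂ) - ((Real.sin a * Real.sinh b : ℝ) : ℂ) * I := by
  rw [cos_add_mul_I]
  push_cast
  ring

private theorem fm_div_re (A B P Q : ℝ) : (((P : ℂ) + Q * I) / ((A : ℂ) - B * I)).re =
    (P * A - Q * B) / (A ^ 2 + B ^ 2) := by
  rw [div_re, normSq_apply]
  simp only [sub_re, sub_im, add_re, add_im, mul_re, mul_im, ofReal_re, ofReal_im, I_re, I_im,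
    mul_zero, mul_one, sub_zero, add_zero, zero_add, zero_sub]
  rw [← add_div]
  congr 1 <;> ring

private theorem fm_div_im (A B P Q : ℝ) : (((P : ℂ) + Q * I) / ((A : ℂ) - B * I)).im =
    (P * B + Q * A) / (A ^ 2 + B ^ 2) := by
  rw [div_im, normSq_apply]
  simp only [sub_re, sub_im, add_re, add_im, mul_re, mul_im, ofReal_re, ofReal_im, I_re, I_im,
    mul_zero, mul_one, sub_zero, add_zero, zero_add, zero_sub]
  rw [← sub_div]
  congr 1 <;> ring

/-- `E(t)`: `cos² π (t + i h) = cos² π (s + i h) (1 + sin π (s - t) E(t))`. -/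
private noncomputable def mE (s h t : ℝ) : ℂ :=
  sin (((Real.pi * s + Real.pi * t : ℝ) : ℂ) + ((2 * (Real.pi * h) : ℝ) : ℂ) * I) /
    cos (Real.pi * ((s : ℂ) + h * I)) ^ 2

private theorem fm_z (s h : ℝ) : (Real.pi : ℂ) * ((s : ℂ) + h * I) =
    ((Real.pi * s : ℝ) : ℂ) + ((Real.pi * h : ℝ) : ℂ) * I := by
  push_cast
  ring

private theorem fm_c0 {s : ℝ} (h : ℝ) (hs : 0 < s) (hs' : s < 1 / 2) :
    cos (Real.pi * ((s : ℂ) + h * I)) ≠ 0 := by
  have hpi := Real.pi_pos
  rw [fm_z, fm_cos]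
  intro h0
  have := congrArg Complex.re h0
  simp only [sub_re, ofReal_re, mul_re, ofReal_im, I_re, mul_zero, I_im, mul_one, sub_self,
    sub_zero, zero_re] at this
  have h1 : 0 < Real.cos (Real.pi * s) :=
    Real.cos_pos_of_mem_Ioo ⟨by linarith only [hpi, mul_pos (sub_pos.2 hs) (sub_pos.2 hpi)], by linarith only [mul_pos (sub_pos.2 hs') (sub_pos.2 hpi)]⟩
  have h2 := Real.cosh_pos (Real.pi * h)
  have : 0 < Real.cos (Real.pi * s) * Real.cosh (Real.pi * h) := by positivity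
  linarith [this]

private theorem fm_C {s : ℝ} (h t : ℝ) (hs : 0 < s) (hs' : s < 1 / 2) :
    cos (Real.pi * ((t : ℂ) + h * I)) ^ 2 = cos (Real.pi * ((s : ℂ) + h * I)) ^ 2 *
      (1 + ((Real.sin (Real.pi * (s - t)) : ℝ) : ℂ) * mE s h t) := by
  have h1 : cos (Real.pi * ((t : ℂ) + h * I)) ^ 2 - cos (Real.pi * ((s : ℂ) + h * I)) ^ 2 =
      sin (Real.pi * (s - t)) *
      sin (((Real.pi * s + Real.pi * t : ℝ) : ℂ) + ((2 * (Real.pi * h) : ℝ) : ℂ) * I) := by
    have h2 := cos_sq (Real.pi * ((t : ℂ) + h * I))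
    have h3 := cos_sq (Real.pi * ((s : ℂ) + h * I))
    have h4 := cos_sub_cos (2 * (Real.pi * ((t : ℂ) + h * I))) (2 * (Real.pi * ((s : ℂ) + h * I)))
    rw [h2, h3]
    have e5 : (2 * ((Real.pi : ℂ) * ((t : ℂ) + h * I)) + 2 * (Real.pi * ((s : ℂ) + h * I))) / 2 =
        ((Real.pi * s + Real.pi * t : ℝ) : ℂ) + ((2 * (Real.pi * h) : ℝ) : ℂ) * I := by
      push_cast
      ring
    have e6 : (2 * ((Real.pi : ℂ) * ((t : ℂ) + h * I)) - 2 * (Real.pi * ((s : ℂ) + h * I))) / 2 =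
        -(Real.pi * ((s : ℂ) - t)) := by
      ring
    rw [e5, e6, sin_neg] at h4
    linear_combination h4 / 2
  have h2 : cos (Real.pi * ((s : ℂ) + h * I)) ^ 2 ≠ 0 := pow_ne_zero 2 (fm_c0 h hs hs')
  have h3 : sin (((Real.pi * s + Real.pi * t : ℝ) : ℂ) + ((2 * (Real.pi * h) : ℝ) : ℂ) * I) =
      cos (Real.pi * ((s : ℂ) + h * I)) ^ 2 * mE s h t := by
    unfold mE
    rw [mul_div_cancel₀ _ h2]
  rw [h3] at h1
  push_cast
  linear_combination h1

private theorem fm_E_ne {s h t : ℝ} (hs : 0 < s) (hs' : s < 1 / 2) (ht : 0 ≤ t)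
    (ht' : t ≤ 1 / 2) : mE s h t ≠ 0 := by
  have hpi := Real.pi_pos
  unfold mE
  refine div_ne_zero ?_ (pow_ne_zero 2 (fm_c0 h hs hs'))
  rw [fm_sin]
  intro h0
  have := congrArg Complex.re h0
  simp only [add_re, ofReal_re, mul_re, ofReal_im, I_re, mul_zero, I_im, mul_one, sub_self,
    add_zero, zero_re] at this
  have h1 : 0 < Real.sin (Real.pi * s + Real.pi * t) :=
    Real.sin_pos_of_pos_of_lt_pi (by positivity) (by linarith only [mul_nonneg (sub_nonneg.2 ht') (sub_nonneg.2 hpi.le),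
                                                       mul_pos (sub_pos.2 hs') (sub_pos.2 hpi)])
  have h2 := Real.cosh_pos (2 * (Real.pi * h))
  have : 0 < Real.sin (Real.pi * s + Real.pi * t) * Real.cosh (2 * (Real.pi * h)) := by positivity
  linarith [this]

/-- `(C - p) (C - q)` in terms of `δ`, `C = c² (1 + δ)`. -/
private theorem fm_key {p q c2 C : ℂ} (hp0 : p ≠ 0) (hq0 : q ≠ 0) (hc2 : c2 * (p + q) = p * q)
    (δ : ℂ) (hδ : C = c2 * (1 + δ)) :
    (C - p) * (C - q) = c2 ^ 2 * ((1 + δ) ^ 2 - (p + q) ^ 2 / (p * q) * δ) := by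
  have h1 : (p + q) ^ 2 / (p * q) * c2 ^ 2 = p * q := by
    rw [div_mul_eq_mul_div, div_eq_iff (mul_ne_zero hp0 hq0)]
    linear_combination (c2 * (p + q) + p * q) * hc2
  rw [hδ]
  linear_combination (-(1 + δ)) * hc2 + δ * h1

private theorem fm_c2 {s h : ℝ} {p q : ℂ} (hs : 0 < s) (hs' : s < 1 / 2) (hp0 : p ≠ 0)
    (hq0 : q ≠ 0) (hc : 1 / cos (Real.pi * ((s : ℂ) + h * I)) ^ 2 = 1 / p + 1 / q) :
    cos (Real.pi * ((s : ℂ) + h * I)) ^ 2 * (p + q) = p * q := by
  have h1 : cos (Real.pi * ((s : ℂ) + h * I)) ^ 2 ≠ 0 := pow_ne_zero 2 (fm_c0 h hs hs')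
  generalize cos (Real.pi * ((s : ℂ) + h * I)) ^ 2 = c at hc h1 ⊢
  field_simp at hc
  linear_combination -hc

private theorem fm_k4 {p q : ℂ} (hp0 : p ≠ 0) (hq0 : q ≠ 0) :
    (p + q) ^ 2 / (p * q) - 4 = (1 / p - 1 / q) ^ 2 / ((1 / p) * (1 / q)) := by
  field_simp
  ring

/-- Both sides of the critical point from the inequality for `E(t)`. -/
private theorem fm_mid {p q : ℂ} {s h t : ℝ} (hs : 0 < s) (hs' : s < 1 / 2) (ht : 0 ≤ t)
    (ht' : t ≤ 1 / 2) (hp0 : p ≠ 0) (hq0 : q ≠ 0)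
    (hc : 1 / cos (Real.pi * ((s : ℂ) + h * I)) ^ 2 = 1 / p + 1 / q)
    (hE : ‖(p + q) ^ 2 / (p * q) - 4‖ * ‖mE s h t‖ < 4 * (mE s h t).re) :
    (t < s → ‖cos (Real.pi * ((t : ℂ) + h * I)) ^ 2 - p‖ *
        ‖cos (Real.pi * ((t : ℂ) + h * I)) ^ 2 - q‖ <
      ‖cos (Real.pi * ((t : ℂ) + h * I)) ^ 2‖ ^ 2) ∧
    (s < t → ‖cos (Real.pi * ((t : ℂ) + h * I)) ^ 2‖ ^ 2 <
      ‖cos (Real.pi * ((t : ℂ) + h * I)) ^ 2 - p‖ *
        ‖cos (Real.pi * ((t : ℂ) + h * I)) ^ 2 - q‖) := by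
  have hpi := Real.pi_pos
  have hc2 := fm_c2 hs hs' hp0 hq0 hc
  have hCδ := fm_C h t hs hs'
  have hcc : 0 < ‖(cos (Real.pi * ((s : ℂ) + h * I)) ^ 2) ^ 2‖ :=
    norm_pos_iff.mpr (pow_ne_zero 2 (pow_ne_zero 2 (fm_c0 h hs hs')))
  set c2 : ℂ := cos (Real.pi * ((s : ℂ) + h * I)) ^ 2 with hc2def
  set C : ℂ := cos (Real.pi * ((t : ℂ) + h * I)) ^ 2 with hCdef
  set κ : ℂ := (p + q) ^ 2 / (p * q) with hκ
  have hn : ‖C - p‖ * ‖C - q‖ = ‖(C - p) * (C - q)‖ := (norm_mul _ _).symm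
  rw [hn]
  constructor
  · intro hts
    have h0 : 0 < Real.sin (Real.pi * (s - t)) :=
      Real.sin_pos_of_pos_of_lt_pi (by linarith only [mul_pos (sub_pos.2 hpi) (sub_pos.2 hts)]) (by linarith only [mul_nonneg (sub_nonneg.2 ht) (sub_nonneg.2 hpi.le),
                                                                                                      mul_pos (sub_pos.2 hs') (sub_pos.2 hpi),
                                                                                                      mul_pos (sub_pos.2 hs) (sub_pos.2 hpi)])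
    set δ : ℂ := ((Real.sin (Real.pi * (s - t)) : ℝ) : ℂ) * mE s h t with hδ
    have h2 : ‖κ - 4‖ * ‖δ‖ < 4 * δ.re := by
      rw [hδ, re_ofReal_mul, norm_mul, norm_real, Real.norm_of_nonneg h0.le]
      linarith only [mul_lt_mul_of_pos_left hE h0]
    rw [fm_key hp0 hq0 hc2 δ hCδ, hCδ, norm_mul, norm_mul, norm_pow c2 2, mul_pow]
    rw [norm_pow] at hcc
    exact mul_lt_mul_of_pos_left (fm_leftC h2) hcc
  · intro hts
    have h0 : 0 < Real.sin (Real.pi * (t - s)) :=
      Real.sin_pos_of_pos_of_lt_pi (by linarith only [mul_pos (sub_pos.2 hpi) (sub_pos.2 hts)]) (by linarith only [mul_nonneg (sub_nonneg.2 ht') (sub_nonneg.2 hpi.le),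
                                                                                                      mul_pos (sub_pos.2 hs') (sub_pos.2 hpi),
                                                                                                      mul_pos (sub_pos.2 hs) (sub_pos.2 hpi)])
    set δ : ℂ := ((Real.sin (Real.pi * (t - s)) : ℝ) : ℂ) * mE s h t with hδ
    have h2 : ‖κ - 4‖ * ‖δ‖ < 4 * δ.re := by
      rw [hδ, re_ofReal_mul, norm_mul, norm_real, Real.norm_of_nonneg h0.le]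
      linarith only [mul_lt_mul_of_pos_left hE h0]
    have h3 : ((Real.sin (Real.pi * (s - t)) : ℝ) : ℂ) * mE s h t = -δ := by
      rw [hδ, show Real.pi * (s - t) = -(Real.pi * (t - s)) by ring, Real.sin_neg]
      push_cast
      ring
    rw [h3] at hCδ
    rw [fm_key hp0 hq0 hc2 (-δ) hCδ, hCδ, norm_mul, norm_mul, norm_pow c2 2, mul_pow]
    rw [norm_pow] at hcc
    have h4 := fm_rightC h2
    rw [← sub_eq_add_neg, mul_neg, sub_neg_eq_add]
    exact mul_lt_mul_of_pos_left h4 hcc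

private theorem fm_N {p q : ℂ} {s h : ℝ} (hs : 0 < s) (hs' : s < 1 / 2)
    (hc : 1 / cos (Real.pi * ((s : ℂ) + h * I)) ^ 2 = 1 / p + 1 / q) :
    sin (((Real.pi * s : ℝ) : ℂ) + ((Real.pi * h : ℝ) : ℂ) * I) ^ 2 /
      cos (((Real.pi * s : ℝ) : ℂ) + ((Real.pi * h : ℝ) : ℂ) * I) ^ 2 = 1 / p + 1 / q - 1 := by
  rw [← hc, ← fm_z]
  have h1 := sin_sq_add_cos_sq (Real.pi * ((s : ℂ) + h * I))
  have h2 : cos (Real.pi * ((s : ℂ) + h * I)) ^ 2 ≠ 0 := pow_ne_zero 2 (fm_c0 h hs hs')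
  have h3 : sin (Real.pi * ((s : ℂ) + h * I)) ^ 2 = 1 - cos (Real.pi * ((s : ℂ) + h * I)) ^ 2 := by
    linear_combination h1
  rw [h3, sub_div, div_self h2]

/-! ### `Im E ≥ 0` -/

private theorem fm_E_eq (s h t : ℝ) : mE s h t =
    sin (((Real.pi * s + Real.pi * t : ℝ) : ℂ) + ((2 * (Real.pi * h) : ℝ) : ℂ) * I) *
      (1 / cos (Real.pi * ((s : ℂ) + h * I)) ^ 2) := by
  unfold mE
  ring

private theorem fm_E_im {s h t : ℝ} (hs : 0 < s) (hs' : s < 1 / 2) (ht : 0 ≤ t)
    (ht' : t ≤ 1 / 2) (hh : 0 ≤ h) : 0 ≤ (mE s h t).im := by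
  have hpi := Real.pi_pos
  unfold mE
  rw [fm_z]
  set a : ℝ := Real.pi * s with ha
  set β : ℝ := Real.pi * t with hβ
  set k : ℝ := Real.pi * h with hk
  have hs1 : 0 ≤ Real.sin a := Real.sin_nonneg_of_nonneg_of_le_pi (by positivity) (by (refine le_of_not_gt fun hng => ?_; linarith only [hpi,
                                                                                        mul_pos (sub_pos.2 hs') (sub_pos.2 hpi),
                                                                                        mul_pos (sub_pos.2 hng) (sub_pos.2 hs'),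
                                                                                        mul_pos (sub_pos.2 hng) (sub_pos.2 hs)]))
  have hc1 : 0 ≤ Real.cos a := Real.cos_nonneg_of_mem_Icc ⟨by (refine le_of_not_gt fun hng => ?_; linarith only [hpi,
                                                                mul_pos (sub_pos.2 hs) (sub_pos.2 hpi),
                                                                mul_pos (sub_pos.2 hng) (sub_pos.2 hs'),
                                                                mul_pos (sub_pos.2 hng) (sub_pos.2 hs)]), by (refine le_of_not_gt fun hng => ?_; linarith only [mul_pos (sub_pos.2 hs') (sub_pos.2 hpi),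
                                                                                                               mul_pos (sub_pos.2 hng) (sub_pos.2 hs'),
                                                                                                               mul_pos (sub_pos.2 hng) (sub_pos.2 hs)])⟩
  have hs2 : 0 ≤ Real.sin β := Real.sin_nonneg_of_nonneg_of_le_pi (by positivity) (by (refine le_of_not_gt fun hng => ?_; linarith only [mul_nonneg (sub_nonneg.2 ht') (sub_nonneg.2 hpi.le),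
                                                                                        mul_pos (sub_pos.2 hs') (sub_pos.2 hpi),
                                                                                        mul_pos (sub_pos.2 hs) (sub_pos.2 hpi),
                                                                                        mul_pos (sub_pos.2 hng) (sub_pos.2 hs'),
                                                                                        mul_pos (sub_pos.2 hng) (sub_pos.2 hs)]))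
  have hc2 : 0 ≤ Real.cos β := Real.cos_nonneg_of_mem_Icc ⟨by (refine le_of_not_gt fun hng => ?_; linarith only [mul_nonneg (sub_nonneg.2 ht) (sub_nonneg.2 hpi.le),
                                                                mul_pos (sub_pos.2 hs') (sub_pos.2 hpi),
                                                                mul_pos (sub_pos.2 hs) (sub_pos.2 hpi),
                                                                mul_pos (sub_pos.2 hng) (sub_pos.2 hs'),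
                                                                mul_pos (sub_pos.2 hng) (sub_pos.2 hs)]), by (refine le_of_not_gt fun hng => ?_; linarith only [mul_nonneg (sub_nonneg.2 ht') (sub_nonneg.2 hpi.le),
                                                                                                               mul_pos (sub_pos.2 hng) (sub_pos.2 hs'),
                                                                                                               mul_pos (sub_pos.2 hng) (sub_pos.2 hs)])⟩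
  have hch := Real.cosh_pos k
  have hsh : 0 ≤ Real.sinh k := Real.sinh_nonneg_iff.mpr (by positivity)
  have h1 := Real.sin_sq_add_cos_sq a
  have h2 := Real.cosh_sq k
  have eC : cos ((a : ℂ) + k * I) ^ 2 =
      (((Real.cos a ^ 2 * Real.cosh k ^ 2 - Real.sin a ^ 2 * Real.sinh k ^ 2 : ℝ)) : ℂ) -
        ((2 * Real.sin a * Real.cos a * Real.sinh k * Real.cosh k : ℝ) : ℂ) * I := by
    rw [fm_cos]
    push_cast
    linear_combination (sin (a : ℂ) * sinh (k : ℂ)) ^ 2 * I_sq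
  have eE : sin (((a + β : ℝ) : ℂ) + ((2 * k : ℝ) : ℂ) * I) =
      (((Real.sin a * Real.cos β + Real.cos a * Real.sin β) *
          (Real.cosh k ^ 2 + Real.sinh k ^ 2) : ℝ) : ℂ) +
        (((Real.cos a * Real.cos β - Real.sin a * Real.sin β) *
          (2 * Real.sinh k * Real.cosh k) : ℝ) : ℂ) * I := by
    rw [fm_sin, Real.sin_add, Real.cos_add, Real.cosh_two_mul, Real.sinh_two_mul]
  rw [eC, eE, fm_div_im]
  apply div_nonneg ?_ (by positivity)
  set s := Real.sin a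
  set c := Real.cos a
  set S := Real.sin β
  set C := Real.cos β
  set ch := Real.cosh k
  set sh := Real.sinh k
  have e1 : (s * C + c * S) * (ch ^ 2 + sh ^ 2) * (2 * s * c * sh * ch) +
      (c * C - s * S) * (2 * sh * ch) * (c ^ 2 * ch ^ 2 - s ^ 2 * sh ^ 2) =
      2 * sh * ch * (ch ^ 2 * c * C + sh ^ 2 * s * S) := by
    have : c ^ 2 = 1 - s ^ 2 := by linarith only [h1]
    linear_combination (2 * sh * ch * (ch ^ 2 * c * C + sh ^ 2 * s * S)) * h1
  rw [e1]
  positivity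

/-! ### The angle function `G(t) = σ Re E(t) - c Im E(t)` -/

private theorem fm_G (s h t c σ : ℝ) : σ * (mE s h t).re - c * (mE s h t).im =
    -((c * (1 / cos (Real.pi * ((s : ℂ) + h * I)) ^ 2).re +
          σ * (1 / cos (Real.pi * ((s : ℂ) + h * I)) ^ 2).im) *
        (Real.cos (Real.pi * s + Real.pi * t) * Real.sinh (2 * (Real.pi * h))) +
      (c * (1 / cos (Real.pi * ((s : ℂ) + h * I)) ^ 2).im -
          σ * (1 / cos (Real.pi * ((s : ℂ) + h * I)) ^ 2).re) *
        (Real.sin (Real.pi * s + Real.pi * t) * Real.cosh (2 * (Real.pi * h)))) := by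
  rw [fm_E_eq, fm_sin]
  simp only [add_re, add_im, mul_re, mul_im, ofReal_re, ofReal_im, I_re, I_im, mul_zero, mul_one,
    sub_zero, add_zero, zero_add]
  ring

private theorem fm_G_mono {s h t c σ : ℝ} (hs : 0 < s) (hs' : s < 1 / 2) (hst : s ≤ t)
    (ht' : t ≤ 1 / 2) (hh : 0 ≤ h)
    (hm : 0 ≤ c * (1 / cos (Real.pi * ((s : ℂ) + h * I)) ^ 2).re +
      σ * (1 / cos (Real.pi * ((s : ℂ) + h * I)) ^ 2).im)
    (hG : 0 < σ * (mE s h s).re - c * (mE s h s).im) :
    0 < σ * (mE s h t).re - c * (mE s h t).im := by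
  have hpi := Real.pi_pos
  rw [fm_G] at hG ⊢
  set mr := c * (1 / cos (Real.pi * ((s : ℂ) + h * I)) ^ 2).re +
      σ * (1 / cos (Real.pi * ((s : ℂ) + h * I)) ^ 2).im
  set mi := c * (1 / cos (Real.pi * ((s : ℂ) + h * I)) ^ 2).im -
      σ * (1 / cos (Real.pi * ((s : ℂ) + h * I)) ^ 2).re
  have h1 : 0 < Real.sin (Real.pi * s + Real.pi * s) :=
    Real.sin_pos_of_pos_of_lt_pi (by positivity) (by linarith only [mul_pos (sub_pos.2 hs') (sub_pos.2 hpi)])
  have h2 : 0 < Real.sin (Real.pi * s + Real.pi * t) :=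
    Real.sin_pos_of_pos_of_lt_pi (by linarith only [mul_nonneg (sub_nonneg.2 hst) (sub_nonneg.2 hpi.le),
                                       mul_pos (sub_pos.2 hs) (sub_pos.2 hpi)]) (by linarith only [mul_nonneg (sub_nonneg.2 ht') (sub_nonneg.2 hpi.le),
                                                                                      mul_pos (sub_pos.2 hs') (sub_pos.2 hpi)])
  have h3 : 0 ≤ Real.sin ((Real.pi * s + Real.pi * t) - (Real.pi * s + Real.pi * s)) :=
    Real.sin_nonneg_of_nonneg_of_le_pi (by (refine le_of_not_gt fun hng => ?_; linarith only [mul_nonneg (sub_nonneg.2 hst) (sub_nonneg.2 hpi.le),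
                                             mul_pos (sub_pos.2 hng) (sub_pos.2 hs'),
                                             mul_pos (sub_pos.2 hng) (sub_pos.2 hs)])) (by (refine le_of_not_gt fun hng => ?_; linarith only [mul_nonneg (sub_nonneg.2 ht') (sub_nonneg.2 hpi.le),
                                                                                             mul_pos (sub_pos.2 hs') (sub_pos.2 hpi),
                                                                                             mul_pos (sub_pos.2 hs) (sub_pos.2 hpi),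
                                                                                             mul_pos (sub_pos.2 hng) (sub_pos.2 hs'),
                                                                                             mul_pos (sub_pos.2 hng) (sub_pos.2 hs)]))
  rw [Real.sin_sub] at h3
  have h4 : 0 ≤ Real.sinh (2 * (Real.pi * h)) := Real.sinh_nonneg_iff.mpr (by positivity)
  set X := Real.pi * s + Real.pi * s
  set X' := Real.pi * s + Real.pi * t
  set sh := Real.sinh (2 * (Real.pi * h))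
  set ch := Real.cosh (2 * (Real.pi * h))
  have h5 : 0 ≤ mr * sh * (Real.sin X' * Real.cos X - Real.cos X' * Real.sin X) :=
    mul_nonneg (mul_nonneg hm h4) h3
  have h6 : 0 < -(mr * (Real.cos X * sh) + mi * (Real.sin X * ch)) * Real.sin X' :=
    mul_pos hG h2
  have h7 : 0 < -(mr * (Real.cos X' * sh) + mi * (Real.sin X' * ch)) * Real.sin X := by
    linarith only [h6, h5]
  exact (mul_pos_iff_of_pos_right h1).mp h7

private theorem fm_tan {s h : ℝ} {n : ℂ} (hs : 0 < s) (hs' : s < 1 / 2)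
    (hn : 1 / cos (Real.pi * ((s : ℂ) + h * I)) ^ 2 = n) :
    ∃ τ : ℂ, mE s h s = 2 * τ ∧ τ ^ 2 = n - 1 := by
  have h0 := fm_c0 h hs hs'
  refine ⟨sin (Real.pi * ((s : ℂ) + h * I)) / cos (Real.pi * ((s : ℂ) + h * I)), ?_, ?_⟩
  · unfold mE
    have e : ((Real.pi * s + Real.pi * s : ℝ) : ℂ) + ((2 * (Real.pi * h) : ℝ) : ℂ) * I =
        2 * (Real.pi * ((s : ℂ) + h * I)) := by
      push_cast
      ring
    rw [e, sin_two_mul]
    field_simp
  · rw [← hn, div_pow, sin_sq]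
    field_simp

private theorem fm_Gs {s h c σ : ℝ} {n : ℂ} (hs : 0 < s) (hs' : s < 1 / 2) (hh : 0 ≤ h)
    (hn : 1 / cos (Real.pi * ((s : ℂ) + h * I)) ^ 2 = n)
    (hw : c * (1 + ‖n - 1‖) < c * n.re + σ * n.im) :
    0 < σ * (mE s h s).re - c * (mE s h s).im := by
  obtain ⟨τ, h1, h2⟩ := fm_tan hs hs' hn
  have h3 := fm_E_im (t := s) hs hs' hs.le hs'.le hh
  rw [h1] at h3 ⊢
  have h4 : ‖n - 1‖ = τ.re ^ 2 + τ.im ^ 2 := by
    rw [← h2, norm_pow, ← normSq_eq_norm_sq, normSq_apply]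
    ring
  have h5 : n.re = 1 + (τ.re ^ 2 - τ.im ^ 2) := by
    have := congrArg Complex.re h2
    simp only [pow_two, mul_re, sub_re, one_re] at this
    linarith only [this]
  have h6 : n.im = 2 * τ.re * τ.im := by
    have := congrArg Complex.im h2
    simp only [pow_two, mul_im, sub_im, one_im] at this
    linarith only [this]
  rw [h4, h5, h6] at hw
  simp only [mul_re, mul_im, re_ofNat, im_ofNat, zero_mul, sub_zero, add_zero] at h3 ⊢
  have h7 : 0 < 2 * τ.im * (σ * τ.re - c * τ.im) := by linarith only [hw]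
  have h8 : 0 < σ * τ.re - c * τ.im := by
    by_contra hc
    push Not at hc
    have : 2 * τ.im * (σ * τ.re - c * τ.im) ≤ 0 :=
      mul_nonpos_of_nonneg_of_nonpos (by linarith only [h3]) hc
    linarith only [this, hw]
  linarith only [h8]

private theorem fm_G_cont (s h c σ : ℝ) :
    Continuous fun t : ℝ => σ * (mE s h t).re - c * (mE s h t).im := by
  have : (fun t : ℝ => σ * (mE s h t).re - c * (mE s h t).im) = fun t : ℝ =>
    -((c * (1 / cos (Real.pi * ((s : ℂ) + h * I)) ^ 2).re +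
          σ * (1 / cos (Real.pi * ((s : ℂ) + h * I)) ^ 2).im) *
        (Real.cos (Real.pi * s + Real.pi * t) * Real.sinh (2 * (Real.pi * h))) +
      (c * (1 / cos (Real.pi * ((s : ℂ) + h * I)) ^ 2).im -
          σ * (1 / cos (Real.pi * ((s : ℂ) + h * I)) ^ 2).re) *
        (Real.sin (Real.pi * s + Real.pi * t) * Real.cosh (2 * (Real.pi * h)))) := by
    funext t
    exact fm_G s h t c σ
  rw [this]
  fun_prop

/-! ### The ellipse -/

private theorem fm_ell (h t : ℝ) : ‖cos (Real.pi * ((t : ℂ) + h * I)) ^ 2‖ +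
    ‖1 - cos (Real.pi * ((t : ℂ) + h * I)) ^ 2‖ =
    Real.cosh (Real.pi * h) ^ 2 + Real.sinh (Real.pi * h) ^ 2 := by
  have e : 1 - cos (Real.pi * ((t : ℂ) + h * I)) ^ 2 = sin (Real.pi * ((t : ℂ) + h * I)) ^ 2 := by
    rw [sin_sq]
  rw [e, fm_z, fm_cos, fm_sin, norm_pow, norm_pow, ← normSq_eq_norm_sq, ← normSq_eq_norm_sq,
    normSq_apply, normSq_apply]
  simp only [add_re, add_im, sub_re, sub_im, mul_re, mul_im, ofReal_re, ofReal_im, I_re, I_im,
    mul_zero, mul_one, sub_zero, add_zero, zero_add, zero_sub]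
  have h1 := Real.sin_sq_add_cos_sq (Real.pi * t)
  linear_combination (Real.cosh (Real.pi * h) ^ 2 + Real.sinh (Real.pi * h) ^ 2) * h1

private theorem fm_ellN {s h : ℝ} {n δ C : ℂ} {t : ℝ} (hs : 0 < s) (hs' : s < 1 / 2)
    (hn : 1 / cos (Real.pi * ((s : ℂ) + h * I)) ^ 2 = n)
    (hC : cos (Real.pi * ((t : ℂ) + h * I)) ^ 2 = C)
    (hδ : C * n = 1 + δ) : ‖1 + δ‖ + ‖n - 1 - δ‖ = 1 + ‖n - 1‖ := by
  have h0 : cos (Real.pi * ((s : ℂ) + h * I)) ^ 2 ≠ 0 := pow_ne_zero 2 (fm_c0 h hs hs')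
  have h1 := fm_ell h t
  rw [← fm_ell h s, hC] at h1
  set c2 : ℂ := cos (Real.pi * ((s : ℂ) + h * I)) ^ 2 with hc2
  have e1 : 1 + δ = n * C := by rw [← hδ]; ring
  have e2 : n - 1 - δ = n * (1 - C) := by linear_combination -e1
  have e3 : (1 : ℂ) = n * c2 := by rw [← hn]; field_simp
  have e4 : n - 1 = n * (1 - c2) := by linear_combination -e3
  have e5 : (1 : ℝ) = ‖n‖ * ‖c2‖ := by rw [← norm_mul, ← e3, norm_one]
  rw [e1, e2, e4, norm_mul, norm_mul, norm_mul, ← mul_add, h1, mul_add, ← e5]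

private theorem fm_rho {ρ c σ nr ni S A B Nn : ℝ} (hρ : 0 < ρ)
    (hcs : c ^ 2 + σ ^ 2 = 1) (hN : Nn ^ 2 = (nr - 1) ^ 2 + ni ^ 2)
    (hS : S = 1 + Nn) (hA : A ^ 2 = (1 + ρ * c) ^ 2 + (ρ * σ) ^ 2)
    (hB : B ^ 2 = (nr - 1 - ρ * c) ^ 2 + (ni - ρ * σ) ^ 2) (hAB : A + B = S) :
    ρ * (S ^ 2 - (c * nr + σ * ni) ^ 2) = 2 * S * ((c * nr + σ * ni) - c * S) := by
  have h1 : B ^ 2 = S ^ 2 - 2 * S * A + A ^ 2 := by
    have : B = S - A := by linarith only [hAB]
    rw [this]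
    ring
  have hA' : A ^ 2 = 1 + 2 * ρ * c + ρ ^ 2 := by
    rw [hA]
    linear_combination ρ ^ 2 * hcs
  have hB' : B ^ 2 = Nn ^ 2 - 2 * ρ * (c * (nr - 1) + σ * ni) + ρ ^ 2 := by
    rw [hB, hN]
    linear_combination ρ ^ 2 * hcs
  have h2 : S * A = S + ρ * (c * nr + σ * ni) := by
    rw [hB', hA'] at h1
    have : Nn ^ 2 = (S - 1) ^ 2 := by rw [hS]; ring
    rw [this] at h1
    linarith only [h1]
  have h3 : S ^ 2 * A ^ 2 = (S + ρ * (c * nr + σ * ni)) ^ 2 := by
    rw [← h2]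
    ring
  rw [hA'] at h3
  have h4 : ρ * (ρ * (S ^ 2 - (c * nr + σ * ni) ^ 2) -
      2 * S * ((c * nr + σ * ni) - c * S)) = 0 := by linear_combination h3
  rcases mul_eq_zero.mp h4 with h5 | h5
  · exact absurd h5 hρ.ne'
  · linarith only [h5]

/-! ### The inequality of means -/

private theorem fm_TT {U V p q C δ : ℂ} (hpU : p * U = 1) (hqV : q * V = 1)
    (hδ : C * (U + V) = 1 + δ) (hn : U + V ≠ 0)
    (h : (‖U‖ ^ 2 - ‖V‖ ^ 2) ^ 2 < 2 * (δ * (U * V * (starRingEnd ℂ) (U + V) ^ 2)).re) :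
    ‖p‖ ^ 2 + ‖q‖ ^ 2 < 2 * (C * (starRingEnd ℂ) (p + q)).re := by
  have hU0 : U ≠ 0 := by
    rintro rfl
    simp at hpU
  have hV0 : V ≠ 0 := by
    rintro rfl
    simp at hqV
  have hU1 : 0 < normSq U := normSq_pos.mpr hU0
  have hV1 : 0 < normSq V := normSq_pos.mpr hV0
  have hn1 : 0 < normSq (U + V) := normSq_pos.mpr hn
  have hK : 0 < normSq U * normSq V * normSq (U + V) := by positivity
  have e1 : normSq U * normSq V * normSq (U + V) * (‖p‖ ^ 2 + ‖q‖ ^ 2) =
      (normSq U + normSq V) * normSq (U + V) := by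
    have h1 : normSq p * normSq U = 1 := by rw [← normSq_mul, hpU, normSq_one]
    have h2 : normSq q * normSq V = 1 := by rw [← normSq_mul, hqV, normSq_one]
    rw [← normSq_eq_norm_sq, ← normSq_eq_norm_sq]
    linear_combination normSq V * normSq (U + V) * h1 + normSq U * normSq (U + V) * h2
  have e2 : ((normSq U * normSq V * normSq (U + V) : ℝ) : ℂ) * (C * (starRingEnd ℂ) (p + q)) =
      (1 + δ) * (U * V * (starRingEnd ℂ) (U + V) ^ 2) := by
    have h1 : (starRingEnd ℂ) p * (starRingEnd ℂ) U = 1 := by rw [← map_mul, hpU, map_one]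
    have h2 : (starRingEnd ℂ) q * (starRingEnd ℂ) V = 1 := by rw [← map_mul, hqV, map_one]
    push_cast
    rw [← mul_conj U, ← mul_conj V, ← mul_conj (U + V), ← hδ, map_add, map_add]
    linear_combination (U * V * (starRingEnd ℂ) V * ((U + V) * ((starRingEnd ℂ) U +
      (starRingEnd ℂ) V)) * C) * h1 + (U * V * (starRingEnd ℂ) U * ((U + V) * ((starRingEnd ℂ) U +
      (starRingEnd ℂ) V)) * C) * h2
  have e3 : normSq U * normSq V * normSq (U + V) * (2 * (C * (starRingEnd ℂ) (p + q)).re) =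
      2 * (U * V * (starRingEnd ℂ) (U + V) ^ 2).re +
        2 * (δ * (U * V * (starRingEnd ℂ) (U + V) ^ 2)).re := by
    have := congrArg Complex.re e2
    rw [re_ofReal_mul, add_mul, one_mul, add_re] at this
    linear_combination 2 * this
  have e4 : (normSq U + normSq V) * normSq (U + V) =
      2 * (U * V * (starRingEnd ℂ) (U + V) ^ 2).re + (normSq U - normSq V) ^ 2 := by
    simp only [normSq_apply, mul_re, mul_im, add_re, add_im, conj_re, conj_im, pow_two]
    ring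
  rw [← normSq_eq_norm_sq, ← normSq_eq_norm_sq] at h
  refine lt_of_mul_lt_mul_left ?_ hK.le
  rw [e1, e3, e4]
  linarith only [h]

private theorem fm_interp {A B l x y : ℝ} (hA : l < A) (hA' : -A ≤ l)
    (hm : l < A * Real.cos y + B * Real.sin y) (hx : 0 ≤ x) (hxy : x ≤ y)
    (hy : y < Real.pi) : l < A * Real.cos x + B * Real.sin x := by
  rcases hx.eq_or_lt with hx | hx
  · rw [← hx, Real.cos_zero, Real.sin_zero]
    linarith only [hA]
  rcases hxy.eq_or_lt with hxy | hxy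
  · rw [hxy]
    exact hm
  have hpi := Real.pi_pos
  have s1 : 0 < Real.sin x := Real.sin_pos_of_pos_of_lt_pi hx (by linarith [hy])
  have s2 : 0 < Real.sin (y - x) := Real.sin_pos_of_pos_of_lt_pi (by linarith only [hxy]) (by linarith [hy])
  have s3 : 0 < Real.sin y := Real.sin_pos_of_pos_of_lt_pi (by linarith [hx]) (by linarith only [hy])
  have e : Real.sin y * (A * Real.cos x + B * Real.sin x) =
      Real.sin (y - x) * A + Real.sin x * (A * Real.cos y + B * Real.sin y) := by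
    rw [Real.sin_sub]
    ring
  have c1 := Real.cos_le_one x
  have c2 := Real.cos_le_one (y - x)
  have c3 := Real.neg_one_le_cos (y)
  have h4 : Real.sin y ≤ Real.sin (y - x) + Real.sin x := by
    have e2 : Real.sin y = Real.sin (y - x) * Real.cos x + Real.cos (y - x) * Real.sin x := by
      rw [← Real.sin_add]
      congr 1
      ring
    linarith only [e2, mul_nonneg (sub_nonneg.2 s2.le) (sub_nonneg.2 c1),
      mul_nonneg (sub_nonneg.2 s1.le) (sub_nonneg.2 c2)]
  have h4' : Real.sin x ≤ Real.sin (y - x) + Real.sin y := by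
    have e2 : Real.sin x = Real.sin y * Real.cos (y - x) - Real.cos y * Real.sin (y - x) := by
      rw [← Real.sin_sub]
      congr 1
      ring
    linarith only [e2, mul_nonneg (sub_nonneg.2 s3.le) (sub_nonneg.2 c2),
      mul_nonneg (sub_nonneg.2 s2.le) (sub_nonneg.2 c3)]
  refine lt_of_mul_lt_mul_left ?_ s3.le
  rw [e]
  have h5 : Real.sin x * l < Real.sin x * (A * Real.cos y + B * Real.sin y) :=
    mul_lt_mul_of_pos_left hm s1
  rcases le_total 0 l with hl | hl
  · have h6 : Real.sin (y - x) * l < Real.sin (y - x) * A := mul_lt_mul_of_pos_left hA s2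
    linarith only [h5, mul_nonneg (sub_nonneg.2 hA') (sub_nonneg.2 h4),
      mul_nonneg (sub_nonneg.2 hA.le) (sub_nonneg.2 h4')]
  · have h6 : Real.sin (y - x) * (-l) ≤ Real.sin (y - x) * A :=
      mul_le_mul_of_nonneg_left (by linarith only [hA']) s2.le
    linarith only [h5, mul_nonneg (sub_nonneg.2 hA') (sub_nonneg.2 h4),
      mul_nonneg (sub_nonneg.2 hA.le) (sub_nonneg.2 h4')]

private theorem fm_T {p q : ℂ} {h t t1 : ℝ} (ht : 0 ≤ t) (ht1 : t ≤ t1) (ht1' : t1 < 1 / 2)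
    (hp : ‖p‖ ^ 2 < 2 * p.re) (hq : ‖q‖ ^ 2 < 2 * q.re)
    (hT : ‖p‖ ^ 2 + ‖q‖ ^ 2 < 2 * (cos (Real.pi * ((t1 : ℂ) + h * I)) ^ 2 *
      (starRingEnd ℂ) (p + q)).re) :
    ‖cos (Real.pi * ((t : ℂ) + h * I)) ^ 2 - p‖ *
        ‖cos (Real.pi * ((t : ℂ) + h * I)) ^ 2 - q‖ <
      ‖cos (Real.pi * ((t : ℂ) + h * I)) ^ 2‖ ^ 2 := by
  have hpi := Real.pi_pos
  have eC : ∀ r : ℝ, cos (Real.pi * ((r : ℂ) + h * I)) ^ 2 =
      (((1 + Real.cos (2 * Real.pi * r) * Real.cosh (2 * Real.pi * h)) / 2 : ℝ) : ℂ) -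
      ((Real.sin (2 * Real.pi * r) * Real.sinh (2 * Real.pi * h) / 2 : ℝ) : ℂ) * I := by
    intro r
    rw [cos_sq]
    have e : 2 * ((Real.pi : ℂ) * ((r : ℂ) + h * I)) =
        ((2 * Real.pi * r : ℝ) : ℂ) + ((2 * Real.pi * h : ℝ) : ℂ) * I := by
      push_cast
      ring
    rw [e, fm_cos]
    push_cast
    ring
  set P1 : ℝ := (p + q).re with hP1
  set P2 : ℝ := (p + q).im with hP2
  set ch : ℝ := Real.cosh (2 * Real.pi * h) with hch
  set sh : ℝ := Real.sinh (2 * Real.pi * h) with hsh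
  have hP10 : 0 < P1 := by
    have h1 : 0 ≤ ‖p‖ ^ 2 := by positivity
    have h2 : 0 ≤ ‖q‖ ^ 2 := by positivity
    rw [hP1, add_re]
    linarith only [h2, h1, hq, hp]
  have hch1 : 1 ≤ ch := Real.one_le_cosh _
  have hend : 2 * (cos (Real.pi * ((t1 : ℂ) + h * I)) ^ 2 * (starRingEnd ℂ) (p + q)).re =
      P1 + (P1 * ch * Real.cos (2 * Real.pi * t1) +
      (-(P2 * sh)) * Real.sin (2 * Real.pi * t1)) := by
    rw [eC t1]
    simp only [mul_re, sub_re, sub_im, ofReal_re, ofReal_im, mul_im, I_re, I_im,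
      mul_zero, mul_one, sub_zero, add_zero, zero_sub, conj_re, conj_im]
    rw [← hP1, ← hP2]
    ring
  have hf := fm_interp (A := P1 * ch) (B := -(P2 * sh)) (l := ‖p‖ ^ 2 + ‖q‖ ^ 2 - P1)
    (x := 2 * Real.pi * t) (y := 2 * Real.pi * t1)
    (by
      have : P1 ≤ P1 * ch := by linarith only [mul_nonneg (sub_nonneg.2 hP10.le) (sub_nonneg.2 hch1)]
      have e : P1 = p.re + q.re := by rw [hP1, add_re]
      linarith only [e, this, hq, hp])
    (by
      have : P1 ≤ P1 * ch := by linarith only [mul_nonneg (sub_nonneg.2 hP10.le) (sub_nonneg.2 hch1)]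
      have h1 : 0 ≤ ‖p‖ ^ 2 := by positivity
      have h2 : 0 ≤ ‖q‖ ^ 2 := by positivity
      linarith only [h2, h1, this])
    (by linarith only [hend, hT]) (by positivity) (by linarith only [mul_nonneg (sub_nonneg.2 ht1) (sub_nonneg.2 hpi.le)]) (by linarith only [mul_pos (sub_pos.2 ht1') (sub_pos.2 hpi)])
  set C : ℂ := cos (Real.pi * ((t : ℂ) + h * I)) ^ 2 with hCdef
  have hCre : C.re = (1 + Real.cos (2 * Real.pi * t) * ch) / 2 := by
    rw [hCdef, eC t, sub_re, re_ofReal_mul, ofReal_re, I_re, mul_zero, sub_zero]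
  have hCim : C.im = -(Real.sin (2 * Real.pi * t) * sh / 2) := by
    rw [hCdef, eC t, sub_im, im_ofReal_mul, ofReal_im, I_im, mul_one, zero_sub]
  have h1 : ‖C - p‖ ^ 2 + ‖C - q‖ ^ 2 < 2 * ‖C‖ ^ 2 := by
    rw [← normSq_eq_norm_sq, ← normSq_eq_norm_sq] at hf ⊢
    rw [← normSq_eq_norm_sq, normSq_apply, normSq_apply, normSq_apply]
    rw [normSq_apply, normSq_apply] at hf
    simp only [sub_re, sub_im]
    rw [hP1, hP2, add_re, add_im] at hf
    have e1 : Real.cos (2 * Real.pi * t) * ch = 2 * C.re - 1 := by rw [hCre]; ring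
    have e2 : Real.sin (2 * Real.pi * t) * sh = -(2 * C.im) := by rw [hCim]; ring
    have e3 : (p.re + q.re) * ch * Real.cos (2 * Real.pi * t) = (p.re + q.re) * (2 * C.re - 1) := by
      rw [← e1]; ring
    have e4 : -((p.im + q.im) * sh) * Real.sin (2 * Real.pi * t) = (p.im + q.im) * (2 * C.im) := by
      linear_combination (-(p.im + q.im)) * e2
    rw [e3, e4] at hf
    linarith only [hf]
  linarith only [sq_nonneg (‖C - p‖ - ‖C - q‖), h1]

/-! ### The criterion -/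

/-- The ellipse condition with the angle `(c, σ)`. -/
def FlatN (U V : ℂ) : Prop :=
  1 / 2 < U.re ∧ 1 / 2 < V.re ∧ 0 ≤ (U + V).im ∧ ∃ c σ : ℝ, 0 < c ∧ 0 < σ ∧ c ^ 2 + σ ^ 2 = 1 ∧
    ‖U - V‖ ^ 2 < 4 * c * (‖U‖ * ‖V‖) ∧
    c * (1 + ‖U + V - 1‖) < c * (U + V).re + σ * (U + V).im ∧
    (‖U‖ ^ 2 - ‖V‖ ^ 2) ^ 2 *
        ((1 + ‖U + V - 1‖) ^ 2 - (c * (U + V).re + σ * (U + V).im) ^ 2) <
      4 * (1 + ‖U + V - 1‖) *
        ((c * (U + V).re + σ * (U + V).im) - c * (1 + ‖U + V - 1‖)) *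
        (((c : ℂ) + σ * I) * (U * V * (starRingEnd ℂ) (U + V) ^ 2)).re

private theorem fm_half {p U : ℂ} (hpU : p * U = 1) (h : 1 / 2 < U.re) : ‖p‖ ^ 2 < 2 * p.re := by
  have h0 : U ≠ 0 := by
    rintro rfl
    simp at hpU
  have h1 : 0 < normSq U := normSq_pos.mpr h0
  have e1 : normSq p * normSq U = 1 := by rw [← normSq_mul, hpU, normSq_one]
  have e2 : p * ((normSq U : ℝ) : ℂ) = (starRingEnd ℂ) U := by
    rw [← mul_conj, ← mul_assoc, hpU, one_mul]
  have e3 : p.re * normSq U = U.re := by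
    have := congrArg Complex.re e2
    rwa [re_mul_ofReal, conj_re] at this
  rw [← normSq_eq_norm_sq]
  refine lt_of_mul_lt_mul_right ?_ h1.le
  rw [e1, mul_assoc, e3]
  linarith only [h]

private theorem fm_C2 {s h t c σ : ℝ} {p q : ℂ} (hs : 0 < s) (hs' : s < 1 / 2) (ht : 0 ≤ t)
    (ht' : t ≤ 1 / 2) (hh : 0 ≤ h) (hp0 : p ≠ 0) (hq0 : q ≠ 0) (hc0 : 0 < c)
    (hσ : 0 < σ) (hcs : c ^ 2 + σ ^ 2 = 1)
    (hK : ‖1 / p - 1 / q‖ ^ 2 < 4 * c * (‖1 / p‖ * ‖1 / q‖))
    (hG : 0 ≤ σ * (mE s h t).re - c * (mE s h t).im) :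
    ‖(p + q) ^ 2 / (p * q) - 4‖ * ‖mE s h t‖ < 4 * (mE s h t).re := by
  have h1 := fm_E_im hs hs' ht ht' hh
  have h2 := norm_pos_iff.mpr (fm_E_ne (h := h) hs hs' ht ht')
  have hpq : 0 < ‖1 / p‖ * ‖1 / q‖ :=
    mul_pos (norm_pos_iff.mpr (one_div_ne_zero hp0)) (norm_pos_iff.mpr (one_div_ne_zero hq0))
  have h3 : ‖(p + q) ^ 2 / (p * q) - 4‖ < 4 * c := by
    rw [fm_k4 hp0 hq0, norm_div, norm_mul, norm_pow, div_lt_iff₀ hpq]
    exact hK
  have h4 : 0 ≤ (mE s h t).re := by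
    by_contra hneg
    push Not at hneg
    have : σ * (mE s h t).re < 0 := mul_neg_of_pos_of_neg hσ hneg
    have : 0 ≤ c * (mE s h t).im := by positivity
    linarith [this, hG]
  have h5 : c * ‖mE s h t‖ ≤ (mE s h t).re := by
    apply le_of_sq_le_sq ?_ h4
    rw [mul_pow, ← normSq_eq_norm_sq, normSq_apply]
    have h6 : (c * (mE s h t).im) ^ 2 ≤ (σ * (mE s h t).re) ^ 2 :=
      pow_le_pow_left₀ (by positivity) (by linarith only [hG]) 2
    linarith only [h6, mul_nonneg (mul_self_nonneg ((mE s h t).re)) (sub_nonneg.2 hcs.le),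
      mul_nonneg (mul_self_nonneg ((mE s h t).re)) (sub_nonneg.2 hcs.ge)]
  calc ‖(p + q) ^ 2 / (p * q) - 4‖ * ‖mE s h t‖ < 4 * c * ‖mE s h t‖ :=
        mul_lt_mul_of_pos_right h3 h2
    _ = 4 * (c * ‖mE s h t‖) := by ring
    _ ≤ 4 * (mE s h t).re := by linarith only [h5]

private theorem fm_all0 {p q : ℂ} {s h t : ℝ} (hs : 0 < s) (hs' : s < 1 / 2) (ht : 0 ≤ t)
    (ht' : t ≤ 1 / 2) (hh : 0 ≤ h) (hp0 : p ≠ 0) (hq0 : q ≠ 0)
    (hc : 1 / cos (Real.pi * ((s : ℂ) + h * I)) ^ 2 = 1 / p + 1 / q)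
    (hF : FlatN (1 / p) (1 / q)) :
    (t < s → ‖cos (Real.pi * ((t : ℂ) + h * I)) ^ 2 - p‖ *
        ‖cos (Real.pi * ((t : ℂ) + h * I)) ^ 2 - q‖ <
      ‖cos (Real.pi * ((t : ℂ) + h * I)) ^ 2‖ ^ 2) ∧
    (s < t → ‖cos (Real.pi * ((t : ℂ) + h * I)) ^ 2‖ ^ 2 <
      ‖cos (Real.pi * ((t : ℂ) + h * I)) ^ 2 - p‖ *
        ‖cos (Real.pi * ((t : ℂ) + h * I)) ^ 2 - q‖) := by
  obtain ⟨hU, hV, -, c, σ, hc0, hσ, hcs, hK, hw, hM⟩ := hF
  rcases le_or_gt 0 (σ * (mE s h t).re - c * (mE s h t).im) with hG | hG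
  · exact fm_mid hs hs' ht ht' hp0 hq0 hc
      (fm_C2 hs hs' ht ht' hh hp0 hq0 hc0 hσ hcs hK hG)
  -- the angle of `E(t)` is larger than the angle of `(c, σ)`
  have hGs := fm_Gs hs hs' hh hc hw
  have hwpos : 0 < c * (1 / p + 1 / q).re + σ * (1 / p + 1 / q).im := by
    have : 0 < c * (1 + ‖1 / p + 1 / q - 1‖) := by positivity
    linarith only [this, hw]
  have hts : t < s := by
    by_contra hle
    push Not at hle
    have := fm_G_mono (c := c) (σ := σ) hs hs' hle ht' hh (by rw [hc]; exact hwpos.le) hGs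
    linarith only [this, hG]
  refine ⟨fun _ => ?_, fun h1 => absurd h1 (by linarith only [hts])⟩
  obtain ⟨t1, ht1, hG1⟩ := intermediate_value_Icc hts.le (fm_G_cont s h c σ).continuousOn
    (show (0 : ℝ) ∈ Icc (σ * (mE s h t).re - c * (mE s h t).im)
      (σ * (mE s h s).re - c * (mE s h s).im) from ⟨hG.le, hGs.le⟩)
  simp only at hG1
  have ht1s : t1 < s := by
    rcases ht1.2.eq_or_lt with h1 | h1
    · rw [h1] at hG1
      linarith only [hG1, hGs]
    · exact h1
  have ht10 : 0 ≤ t1 := ht.trans ht1.1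
  have hE := fm_E_im hs hs' ht10 (by linarith only [ht1s, hs'] : t1 ≤ 1 / 2) hh
  have hE0 := fm_E_ne (h := h) hs hs' ht10 (by linarith only [ht1s, hs'] : t1 ≤ 1 / 2)
  set e := mE s h t1 with he
  set r : ℝ := c * e.re + σ * e.im with hr
  have er : e = ((r : ℝ) : ℂ) * ((c : ℂ) + σ * I) := by
    apply Complex.ext
    · simp only [re_ofReal_mul, add_re, ofReal_re, mul_re, ofReal_im, I_re, I_im, mul_zero,
        mul_one, sub_self, add_zero]
      rw [hr]
      linear_combination (-e.re) * hcs + σ * hG1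
    · simp only [im_ofReal_mul, add_im, ofReal_re, mul_im, ofReal_im, I_re, I_im, mul_zero,
        mul_one, add_zero, zero_add]
      rw [hr]
      linear_combination (-e.im) * hcs - c * hG1
  have hrpos : 0 < r := by
    have h1 : e.im = r * σ := by
      have := congrArg Complex.im er
      simpa using this
    have h2 : 0 ≤ r := by
      by_contra hneg
      push Not at hneg
      have : r * σ < 0 := mul_neg_of_neg_of_pos hneg hσ
      linarith only [this, h1, hE]
    rcases h2.eq_or_lt with h3 | h3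
    · exfalso
      apply hE0
      rw [er, ← h3]
      simp
    · exact h3
  have hsin : 0 < Real.sin (Real.pi * (s - t1)) := by
    have hpi := Real.pi_pos
    exact Real.sin_pos_of_pos_of_lt_pi (by linarith only [mul_pos (sub_pos.2 ht1s) (sub_pos.2 hpi)]) (by linarith only [mul_nonneg (sub_nonneg.2 ht10) (sub_nonneg.2 hpi.le),
                                                                                                           mul_pos (sub_pos.2 hs') (sub_pos.2 hpi),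
                                                                                                           mul_pos (sub_pos.2 hs) (sub_pos.2 hpi)])
  set ρ : ℝ := Real.sin (Real.pi * (s - t1)) * r with hρ
  have hρ0 : 0 < ρ := mul_pos hsin hrpos
  have hc2 : cos (Real.pi * ((s : ℂ) + h * I)) ^ 2 ≠ 0 := pow_ne_zero 2 (fm_c0 h hs hs')
  have hCδ := fm_C h t1 hs hs'
  rw [← he, er, ← mul_assoc, ← ofReal_mul, ← hρ] at hCδ
  set C : ℂ := cos (Real.pi * ((t1 : ℂ) + h * I)) ^ 2 with hCdef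
  set U : ℂ := 1 / p with hUdef
  set V : ℂ := 1 / q with hVdef
  have hpU : p * U = 1 := by rw [hUdef]; field_simp
  have hqV : q * V = 1 := by rw [hVdef]; field_simp
  have hδ : C * (U + V) = 1 + ((ρ : ℝ) : ℂ) * ((c : ℂ) + σ * I) := by
    rw [hCδ, ← hc, mul_comm (cos (Real.pi * ((s : ℂ) + h * I)) ^ 2), mul_assoc,
      mul_one_div_cancel hc2, mul_one]
  have hn0 : U + V ≠ 0 := by
    intro h0
    have := congrArg Complex.re h0
    rw [add_re, zero_re] at this
    linarith only [this, hV, hU, hs', hs]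
  have hell := fm_ellN (t := t1) hs hs' hc hCdef.symm hδ
  have key := fm_rho (ρ := ρ) (c := c) (σ := σ) (nr := (U + V).re) (ni := (U + V).im)
    (S := 1 + ‖U + V - 1‖) (A := ‖1 + ((ρ : ℝ) : ℂ) * ((c : ℂ) + σ * I)‖)
    (B := ‖U + V - 1 - ((ρ : ℝ) : ℂ) * ((c : ℂ) + σ * I)‖) (Nn := ‖U + V - 1‖) hρ0 hcs
    (by
      rw [← normSq_eq_norm_sq, normSq_apply, sub_re, sub_im, one_re, one_im]
      ring) rfl
    (by
      rw [← normSq_eq_norm_sq, normSq_apply]
      simp only [add_re, add_im, one_re, one_im, re_ofReal_mul, im_ofReal_mul, ofReal_re,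
        ofReal_im, mul_re, mul_im, I_re, I_im, mul_zero, mul_one, sub_self, add_zero, zero_add]
      ring)
    (by
      rw [← normSq_eq_norm_sq, normSq_apply]
      simp only [sub_re, sub_im, add_re, add_im, one_re, one_im, re_ofReal_mul, im_ofReal_mul,
        ofReal_re, ofReal_im, mul_re, mul_im, I_re, I_im, mul_zero, mul_one, sub_self, add_zero,
        zero_add]
      ring) hell
  set S : ℝ := 1 + ‖U + V - 1‖ with hSdef
  set w : ℝ := c * (U + V).re + σ * (U + V).im with hwdef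
  have hSpos : 0 < S := by positivity
  have hD : 0 < S ^ 2 - w ^ 2 := by
    have h1 : 0 < ρ * (S ^ 2 - w ^ 2) := by
      rw [key]
      have : 0 < w - c * S := by linarith only [hw]
      positivity
    exact (mul_pos_iff_of_pos_left hρ0).mp h1
  have hT : (‖U‖ ^ 2 - ‖V‖ ^ 2) ^ 2 <
      2 * ((((ρ : ℝ) : ℂ) * ((c : ℂ) + σ * I)) * (U * V * (starRingEnd ℂ) (U + V) ^ 2)).re := by
    rw [mul_assoc, re_ofReal_mul]
    set R := (((c : ℂ) + σ * I) * (U * V * (starRingEnd ℂ) (U + V) ^ 2)).re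
    have h1 : 4 * S * (w - c * S) * R = 2 * (ρ * R) * (S ^ 2 - w ^ 2) := by
      linear_combination (-2 * R) * key
    rw [h1] at hM
    exact lt_of_mul_lt_mul_right hM hD.le
  have hT2 := fm_TT hpU hqV hδ hn0 hT
  exact fm_T ht ht1.1 (by linarith only [ht1s, hs']) (fm_half hpU hU) (fm_half hqV hV) hT2

private theorem fm_n_im {s h : ℝ} (hs : 0 < s) (hs' : s < 1 / 2) (hh : h < 0) :
    (1 / cos (Real.pi * ((s : ℂ) + h * I)) ^ 2).im < 0 := by
  have hpi := Real.pi_pos
  rw [fm_z]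
  have hs1 : 0 < Real.sin (Real.pi * s) :=
    Real.sin_pos_of_pos_of_lt_pi (by positivity) (by linarith only [hpi,
                                                       mul_pos (sub_pos.2 hs') (sub_pos.2 hpi)])
  have hc1 : 0 < Real.cos (Real.pi * s) := Real.cos_pos_of_mem_Ioo ⟨by linarith only [hpi,
                                                                         mul_pos (sub_pos.2 hs) (sub_pos.2 hpi)], by linarith only [mul_pos (sub_pos.2 hs') (sub_pos.2 hpi)]⟩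
  have hch := Real.cosh_pos (Real.pi * h)
  have hsh : Real.sinh (Real.pi * h) < 0 := Real.sinh_neg_iff.mpr (by linarith only [mul_pos (sub_pos.2 hh) (sub_pos.2 hpi)])
  have eC : cos (((Real.pi * s : ℝ) : ℂ) + ((Real.pi * h : ℝ) : ℂ) * I) ^ 2 =
      (((Real.cos (Real.pi * s) ^ 2 * Real.cosh (Real.pi * h) ^ 2 -
        Real.sin (Real.pi * s) ^ 2 * Real.sinh (Real.pi * h) ^ 2 : ℝ)) : ℂ) -
        ((2 * Real.sin (Real.pi * s) * Real.cos (Real.pi * s) * Real.sinh (Real.pi * h) *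
          Real.cosh (Real.pi * h) : ℝ) : ℂ) * I := by
    rw [fm_cos]
    push_cast
    linear_combination (sin ((Real.pi : ℂ) * s) * sinh ((Real.pi : ℂ) * h)) ^ 2 * I_sq
  have e1 : (1 : ℂ) = ((1 : ℝ) : ℂ) + ((0 : ℝ) : ℂ) * I := by simp
  rw [eC, e1, fm_div_im]
  have hB : 2 * Real.sin (Real.pi * s) * Real.cos (Real.pi * s) * Real.sinh (Real.pi * h) *
      Real.cosh (Real.pi * h) < 0 := by
    have : 0 < 2 * Real.sin (Real.pi * s) * Real.cos (Real.pi * s) := by positivity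
    have h2 : 2 * Real.sin (Real.pi * s) * Real.cos (Real.pi * s) * Real.sinh (Real.pi * h) < 0 :=
      mul_neg_of_pos_of_neg this hsh
    exact mul_neg_of_neg_of_pos h2 hch
  apply div_neg_of_neg_of_pos
  · linarith only [hB]
  · linarith only [sq_nonneg (Real.cos (Real.pi * s) ^ 2 * Real.cosh (Real.pi * h) ^ 2 - Real.sin (Real.pi * s) ^ 2 * Real.sinh (Real.pi * h) ^ 2),
      mul_pos (sub_pos.2 hB) (sub_pos.2 hB)]

/-- The condition of the flat theorem with a free time. -/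
def FlatM (U V : ℂ) : Prop :=
  FlatUV U V ∨ FlatN U V ∨ FlatN ((starRingEnd ℂ) U) ((starRingEnd ℂ) V)

private theorem fm_allN {v w : ℂ} {s h t : ℝ} (hs : 0 < s) (hs' : s < 1 / 2) (ht : 0 ≤ t)
    (ht' : t ≤ 1 / 2) (hv : cos (Real.pi * v) ≠ 0) (hw : cos (Real.pi * w) ≠ 0)
    (hc : 1 / cos (Real.pi * ((s : ℂ) + h * I)) ^ 2 =
      1 / cos (Real.pi * v) ^ 2 + 1 / cos (Real.pi * w) ^ 2)
    (hF : FlatN (1 / cos (Real.pi * v) ^ 2) (1 / cos (Real.pi * w) ^ 2)) :
    (t < s → ‖cos (Real.pi * ((t : ℂ) + h * I)) ^ 2 - cos (Real.pi * v) ^ 2‖ *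
        ‖cos (Real.pi * ((t : ℂ) + h * I)) ^ 2 - cos (Real.pi * w) ^ 2‖ <
      ‖cos (Real.pi * ((t : ℂ) + h * I)) ^ 2‖ ^ 2) ∧
    (s < t → ‖cos (Real.pi * ((t : ℂ) + h * I)) ^ 2‖ ^ 2 <
      ‖cos (Real.pi * ((t : ℂ) + h * I)) ^ 2 - cos (Real.pi * v) ^ 2‖ *
        ‖cos (Real.pi * ((t : ℂ) + h * I)) ^ 2 - cos (Real.pi * w) ^ 2‖) := by
  have hh : 0 ≤ h := by
    by_contra hneg
    push Not at hneg
    have h1 := fm_n_im hs hs' hneg
    rw [hc] at h1
    linarith only [hF.2.2.1, h1]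
  exact fm_all0 hs hs' ht ht' hh (pow_ne_zero 2 hv) (pow_ne_zero 2 hw) hc hF

private theorem fm_all {v w : ℂ} {s h t : ℝ} (hs : 0 < s) (hs' : s < 1 / 2) (ht : 0 ≤ t)
    (ht' : t ≤ 1 / 2) (hv : cos (Real.pi * v) ≠ 0) (hw : cos (Real.pi * w) ≠ 0)
    (hc : 1 / cos (Real.pi * ((s : ℂ) + h * I)) ^ 2 =
      1 / cos (Real.pi * v) ^ 2 + 1 / cos (Real.pi * w) ^ 2)
    (hF : FlatN (1 / cos (Real.pi * v) ^ 2) (1 / cos (Real.pi * w) ^ 2) ∨
      FlatN ((starRingEnd ℂ) (1 / cos (Real.pi * v) ^ 2))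
        ((starRingEnd ℂ) (1 / cos (Real.pi * w) ^ 2))) :
    (t < s → ‖cos (Real.pi * ((t : ℂ) + h * I)) ^ 2 - cos (Real.pi * v) ^ 2‖ *
        ‖cos (Real.pi * ((t : ℂ) + h * I)) ^ 2 - cos (Real.pi * w) ^ 2‖ <
      ‖cos (Real.pi * ((t : ℂ) + h * I)) ^ 2‖ ^ 2) ∧
    (s < t → ‖cos (Real.pi * ((t : ℂ) + h * I)) ^ 2‖ ^ 2 <
      ‖cos (Real.pi * ((t : ℂ) + h * I)) ^ 2 - cos (Real.pi * v) ^ 2‖ *
        ‖cos (Real.pi * ((t : ℂ) + h * I)) ^ 2 - cos (Real.pi * w) ^ 2‖) := by
  rcases hF with hF | hF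
  · exact fm_allN hs hs' ht ht' hv hw hc hF
  have cj : ∀ z : ℂ, cos (Real.pi * (starRingEnd ℂ) z) = (starRingEnd ℂ) (cos (Real.pi * z)) := by
    intro z
    rw [← cos_conj, map_mul, conj_ofReal]
  have cj2 : ∀ r : ℝ, cos (Real.pi * ((r : ℂ) + ((-h : ℝ) : ℂ) * I)) =
      (starRingEnd ℂ) (cos (Real.pi * ((r : ℂ) + h * I))) := by
    intro r
    rw [← cj]
    congr 2
    rw [map_add, map_mul, conj_ofReal, conj_ofReal, conj_I]
    push_cast
    ring
  have h1 := fm_allN (v := (starRingEnd ℂ) v) (w := (starRingEnd ℂ) w) (s := s) (h := -h) (t := t)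
    hs hs' ht ht' (by rw [cj]; exact (map_ne_zero _).mpr hv)
    (by rw [cj]; exact (map_ne_zero _).mpr hw)
    (by
      rw [cj2, cj, cj]
      have := congrArg (starRingEnd ℂ) hc
      simpa only [map_add, map_div₀, map_one, map_pow] using this)
    (by
      rw [cj, cj]
      simpa only [map_div₀, map_one, map_pow] using hF)
  have e : ∀ z : ℂ, ‖(starRingEnd ℂ) z‖ = ‖z‖ := fun z => norm_conj z
  simp only [cj2, cj, ← map_pow, ← map_sub, e] at h1
  exact h1

private theorem fm_strict {v w : ℂ} {s h : ℝ} (hs : 0 < s) (hs' : s < 1 / 2)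
    (hall : ∀ t : ℝ, 0 ≤ t → t ≤ 1 / 2 →
    (t < s → ‖cos (Real.pi * ((t : ℂ) + h * I)) ^ 2 - cos (Real.pi * v) ^ 2‖ *
        ‖cos (Real.pi * ((t : ℂ) + h * I)) ^ 2 - cos (Real.pi * w) ^ 2‖ <
      ‖cos (Real.pi * ((t : ℂ) + h * I)) ^ 2‖ ^ 2) ∧
    (s < t → ‖cos (Real.pi * ((t : ℂ) + h * I)) ^ 2‖ ^ 2 <
      ‖cos (Real.pi * ((t : ℂ) + h * I)) ^ 2 - cos (Real.pi * v) ^ 2‖ *
        ‖cos (Real.pi * ((t : ℂ) + h * I)) ^ 2 - cos (Real.pi * w) ^ 2‖)) :
    (∀ a b : ℝ, 0 ≤ a → a < b → b ≤ s →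
      EE (.op v) (.op w) ((a : ℂ) + h * I) < EE (.op v) (.op w) ((b : ℂ) + h * I)) ∧
    (∀ a b : ℝ, s ≤ a → a < b → b ≤ 1 / 2 →
      EE (.op v) (.op w) ((b : ℂ) + h * I) < EE (.op v) (.op w) ((a : ℂ) + h * I)) := by
  have key : ∀ (a b : ℝ) (f : ℝ → ℝ), a < b → IntervalIntegrable f volume a b →
      (∀ᵐ t : ℝ, t ∈ Ioo a b → 0 < f t) → 0 < ∫ t in a..b, f t := by
    intro a b f hab hf h1
    have h3 : ∀ᵐ t : ℝ ∂(volume.restrict (Ioc a b)), 0 < f t := by
      rw [ae_restrict_iff' measurableSet_Ioc]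
      have h2 : ∀ᵐ t : ℝ, t ≠ b := by
        rw [ae_iff]
        simp
      filter_upwards [h1, h2] with t ht ht2 hI
      exact ht ⟨hI.1, lt_of_le_of_ne hI.2 ht2⟩
    rw [intervalIntegral.integral_of_le hab.le]
    rw [MeasureTheory.integral_pos_iff_support_of_nonneg_ae (h3.mono fun t ht => ht.le)
      ((intervalIntegrable_iff_integrableOn_Ioc_of_le hab.le).mp hf)]
    have h4 : (Function.support f) =ᵐ[volume.restrict (Ioc a b)] Set.univ := by
      filter_upwards [h3] with t ht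
      simp only [eq_iff_iff]
      exact ⟨fun _ => trivial, fun _ => ht.ne'⟩
    rw [measure_congr h4, Measure.restrict_apply_univ, Real.volume_Ioc]
    simpa using hab
  constructor
  · intro a b ha hab hb
    have h0 : 0 < ∫ t in a..b, flatG v w h t := by
      apply key a b _ hab (flatG_int v w h a b)
      filter_upwards [flatG_ae v w h] with t ht hI
      obtain ⟨h1, h2, h3, h4⟩ := ht
      rw [h4, sub_pos]
      have := (hall t (ha.trans hI.1.le) ((hI.2.le.trans hb).trans hs'.le)).1 (hI.2.trans_le hb)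
      exact Real.log_lt_log (mul_pos (norm_pos_iff.mpr h2) (norm_pos_iff.mpr h3)) this
    rw [← EE_sub_eq] at h0
    linarith only [h0]
  · intro a b ha hab hb
    have h0 : 0 < ∫ t in a..b, -flatG v w h t := by
      apply key a b (fun t => -flatG v w h t) hab (flatG_int v w h a b).neg
      filter_upwards [flatG_ae v w h] with t ht hI
      obtain ⟨h1, h2, h3, h4⟩ := ht
      rw [h4, neg_sub, sub_pos]
      have := (hall t ((hs.le.trans ha).trans hI.1.le) (hI.2.le.trans hb)).2 (ha.trans_lt hI.1)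
      have h5 := norm_pos_iff.mpr h1
      have h6 : 0 < ‖cos (Real.pi * ((t : ℂ) + h * I)) ^ 2‖ := by
        rw [norm_pow]
        positivity
      exact Real.log_lt_log (by positivity) this
    rw [intervalIntegral.integral_neg, ← EE_sub_eq] at h0
    linarith only [h0]

/-- **The flat, strict form, free time.** -/
theorem EE_flatM_strict {v w : ℂ} {s h : ℝ} (hs : 0 < s) (hs' : s < 1 / 2)
    (hv : cos (Real.pi * v) ≠ 0) (hw : cos (Real.pi * w) ≠ 0)
    (hc : 1 / cos (Real.pi * ((s : ℂ) + h * I)) ^ 2 =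
      1 / cos (Real.pi * v) ^ 2 + 1 / cos (Real.pi * w) ^ 2)
    (hF : FlatM (1 / cos (Real.pi * v) ^ 2) (1 / cos (Real.pi * w) ^ 2)) :
    (∀ a b : ℝ, 0 ≤ a → a < b → b ≤ s →
      EE (.op v) (.op w) ((a : ℂ) + h * I) < EE (.op v) (.op w) ((b : ℂ) + h * I)) ∧
    (∀ a b : ℝ, s ≤ a → a < b → b ≤ 1 / 2 →
      EE (.op v) (.op w) ((b : ℂ) + h * I) < EE (.op v) (.op w) ((a : ℂ) + h * I)) := by
  rcases hF with hF | hF
  · exact EE_flat_strict hs hs' hv hw hc hF
  · exact fm_strict hs hs' fun t ht ht' => fm_all hs hs' ht ht' hv hw hc hF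

/-- The growth rate on the flat is less than its value at the critical point. -/
theorem EE_flatM_lt {v w : ℂ} {s h t : ℝ} (hs : 0 < s) (hs' : s < 1 / 2) (ht : 0 ≤ t)
    (ht' : t ≤ 1 / 2) (hne : t ≠ s) (hv : cos (Real.pi * v) ≠ 0) (hw : cos (Real.pi * w) ≠ 0)
    (hc : 1 / cos (Real.pi * ((s : ℂ) + h * I)) ^ 2 =
      1 / cos (Real.pi * v) ^ 2 + 1 / cos (Real.pi * w) ^ 2)
    (hF : FlatM (1 / cos (Real.pi * v) ^ 2) (1 / cos (Real.pi * w) ^ 2)) :
    EE (.op v) (.op w) ((t : ℂ) + h * I) < EE (.op v) (.op w) ((s : ℂ) + h * I) := by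
  obtain ⟨h1, h2⟩ := EE_flatM_strict hs hs' hv hw hc hF
  rcases lt_or_gt_of_ne hne with h3 | h3
  · exact h1 t s ht h3 le_rfl
  · exact h2 s t le_rfl h3 ht'

end Pool.Agent.S3
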