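import Pool.Agent.S3.Flat

/-!
# The flat through the critical point of an edge: strict form

`U = 1 / cos² π v`, `V = 1 / cos² π w`, `N = U + V - 1 = tan² π y`, `y = s + i h`, `0 < s < 1/2`.
`FlatUV U V`: either `|U - V|² |N| < 4 |U| |V| Re N`, or `|N| ≥ 1`,
`|U - V|² |U + V| < 4 |U| |V| Re (U + V)` and `|U + conj V|² < 2 (|V|² Re U + |U|² Re V)`.
Then `EE (op v) (op w) (t + i h) < EE (op v) (op w) (s + i h)` for `t ∈ [0, 1/2]`, `t ≠ s`.
-/

set_option autoImplicit false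

namespace Pool.Agent.S3

open Pool.Agent.H63.VC3 Complex MeasureTheory Filter Topology Set

/-! ### Algebra -/

/-- `δ = d₁ + i d₂`, `κ = k₁ + i k₂`, `|κ - 4| |δ| ≤ 4 d₁`. -/
private theorem fs_ab {k1 k2 d1 d2 : ℝ} (h0 : 0 ≤ d1)
    (h : ((k1 - 4) ^ 2 + k2 ^ 2) * (d1 ^ 2 + d2 ^ 2) ≤ 16 * d1 ^ 2) :
    0 ≤ k1 * d1 - k2 * d2 ∧ 0 ≤ k1 * d1 + k2 * d2 := by
  have h1 : ((k1 - 4) * d1 - k2 * d2) ^ 2 ≤ (4 * d1) ^ 2 := by
    linarith only [sq_nonneg ((k1 - 4) * d2 + k2 * d1), h]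
  have h2 : ((k1 - 4) * d1 + k2 * d2) ^ 2 ≤ (4 * d1) ^ 2 := by
    linarith only [sq_nonneg ((k1 - 4) * d2 - k2 * d1), h]
  have h3 := abs_le_of_sq_le_sq' h1 (by linarith only [h0])
  have h4 := abs_le_of_sq_le_sq' h2 (by linarith only [h0])
  constructor <;> nlinarith [h3.1, h4.1]

private theorem fs_amgm {a b R g : ℝ} (ha : 0 ≤ a) (hb : 0 ≤ b) (hR : 0 ≤ R)
    (h : g ^ 2 ≤ 16 * R * (a * b)) : g ≤ 2 * b + 2 * R * a := by
  by_contra hc
  push Not at hc
  have h0 : 0 ≤ 2 * b + 2 * R * a := by positivity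
  have h1 : (2 * b + 2 * R * a) ^ 2 < g ^ 2 := by linarith only [mul_nonneg (sub_nonneg.2 hc.le) (sub_nonneg.2 h0),
                                                    mul_pos (sub_pos.2 hc) (sub_pos.2 hc)]
  linarith only [sq_nonneg (b - R * a), h1, h]

private theorem fs_amgm' {a b R g : ℝ} (ha : 0 ≤ a) (hb : 0 ≤ b) (hR : 0 ≤ R)
    (h : g ^ 2 < 16 * R * (a * b)) : g < 2 * b + 2 * R * a := by
  by_contra hc
  push Not at hc
  have h0 : 0 ≤ 2 * b + 2 * R * a := by positivity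
  have h1 : (2 * b + 2 * R * a) ^ 2 ≤ g ^ 2 := by linarith only [mul_nonneg (sub_nonneg.2 hc) (sub_nonneg.2 h0),
                                                    mul_nonneg (sub_nonneg.2 hc) (sub_nonneg.2 hc)]
  linarith only [sq_nonneg (b - R * a), h1, h]

/-- The inequality left of the critical point. -/
private theorem fs_left {k1 k2 d1 d2 : ℝ} (h0 : 0 ≤ d1)
    (h : ((k1 - 4) ^ 2 + k2 ^ 2) * (d1 ^ 2 + d2 ^ 2) < 16 * d1 ^ 2) :
    (k1 ^ 2 + k2 ^ 2) * (d1 ^ 2 + d2 ^ 2) <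
      2 * (k1 * d1 - k2 * d2) + 4 * (d1 ^ 2 + d2 ^ 2) * k1 +
        2 * (d1 ^ 2 + d2 ^ 2) * (k1 * d1 + k2 * d2) := by
  obtain ⟨hb, ha⟩ := fs_ab h0 h.le
  have hR : 0 ≤ d1 ^ 2 + d2 ^ 2 := by positivity
  have key : (k1 ^ 2 + k2 ^ 2) * (d1 ^ 2 + d2 ^ 2) < 8 * k1 * (d1 ^ 2 + d2 ^ 2) - 16 * d2 ^ 2 := by
    linarith only [h]
  have hg : (4 * k1 * (d1 ^ 2 + d2 ^ 2) - 16 * d2 ^ 2) ^ 2 ≤
      16 * (d1 ^ 2 + d2 ^ 2) * ((k1 * d1 + k2 * d2) * (k1 * d1 - k2 * d2)) := by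
    have : 16 * (d1 ^ 2 + d2 ^ 2) * ((k1 * d1 + k2 * d2) * (k1 * d1 - k2 * d2)) -
        (4 * k1 * (d1 ^ 2 + d2 ^ 2) - 16 * d2 ^ 2) ^ 2 =
        16 * d2 ^ 2 * (8 * k1 * (d1 ^ 2 + d2 ^ 2) - 16 * d2 ^ 2 -
          (k1 ^ 2 + k2 ^ 2) * (d1 ^ 2 + d2 ^ 2)) := by ring
    have h2 : 0 ≤ 16 * d2 ^ 2 * (8 * k1 * (d1 ^ 2 + d2 ^ 2) - 16 * d2 ^ 2 -
          (k1 ^ 2 + k2 ^ 2) * (d1 ^ 2 + d2 ^ 2)) := mul_nonneg (by positivity) (by linarith only [h])
    linarith only [h2]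
  have := fs_amgm ha hb hR hg
  linarith only [this, h]

/-- The inequality right of the critical point. -/
private theorem fs_right {k1 k2 d1 d2 : ℝ} (h0 : 0 ≤ d1)
    (h : ((k1 - 4) ^ 2 + k2 ^ 2) * (d1 ^ 2 + d2 ^ 2) < 16 * d1 ^ 2) :
    -2 * (k1 * d1 - k2 * d2) + 4 * (d1 ^ 2 + d2 ^ 2) * k1 -
        2 * (d1 ^ 2 + d2 ^ 2) * (k1 * d1 + k2 * d2) <
      (k1 ^ 2 + k2 ^ 2) * (d1 ^ 2 + d2 ^ 2) := by
  obtain ⟨hb, ha⟩ := fs_ab h0 h.le
  have hR : 0 ≤ d1 ^ 2 + d2 ^ 2 := by positivity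
  have hR' : 0 < d1 ^ 2 + d2 ^ 2 := by
    rcases hR.eq_or_lt with h1 | h1
    · exfalso
      have h2 : d1 ^ 2 = 0 := by nlinarith [sq_nonneg d1, sq_nonneg d2]
      have h3 : 0 ≤ ((k1 - 4) ^ 2 + k2 ^ 2) * (d1 ^ 2 + d2 ^ 2) := by positivity
      rw [h2] at h h3
      linarith
    · exact h1
  have hk : 0 < k1 ^ 2 + k2 ^ 2 := by
    by_contra hk
    have h1 : k1 ^ 2 + k2 ^ 2 = 0 := le_antisymm (not_lt.mp hk) (by positivity)
    have h2 : k1 = 0 := by nlinarith [sq_nonneg k1, sq_nonneg k2]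
    have h3 : k2 = 0 := by linarith only [h, mul_nonneg (sq_nonneg (d2)) (sq_nonneg (k1 - 4)),
                             mul_nonneg (sq_nonneg (d1)) (sub_nonneg.2 h2.le),
                             mul_nonneg (sq_nonneg (d1)) (sub_nonneg.2 h2.ge),
                             mul_nonneg (sq_nonneg (k1)) (sq_nonneg (d1)),
                             mul_nonneg (sq_nonneg (k2)) (sq_nonneg (d2)),
                             mul_nonneg (sq_nonneg (k2)) (sq_nonneg (d1))]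
    subst h2
    subst h3
    linarith only [sq_nonneg d2, h]
  have key : (k1 ^ 2 + k2 ^ 2) * (d1 ^ 2 + d2 ^ 2) < 8 * k1 * (d1 ^ 2 + d2 ^ 2) - 16 * d2 ^ 2 := by
    linarith only [h]
  have hg : (4 * k1 * (d1 ^ 2 + d2 ^ 2) - (k1 ^ 2 + k2 ^ 2) * (d1 ^ 2 + d2 ^ 2)) ^ 2 <
      16 * (d1 ^ 2 + d2 ^ 2) * ((k1 * d1 + k2 * d2) * (k1 * d1 - k2 * d2)) := by
    have : 16 * (d1 ^ 2 + d2 ^ 2) * ((k1 * d1 + k2 * d2) * (k1 * d1 - k2 * d2)) -
        (4 * k1 * (d1 ^ 2 + d2 ^ 2) - (k1 ^ 2 + k2 ^ 2) * (d1 ^ 2 + d2 ^ 2)) ^ 2 =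
        (d1 ^ 2 + d2 ^ 2) * (k1 ^ 2 + k2 ^ 2) * (8 * k1 * (d1 ^ 2 + d2 ^ 2) - 16 * d2 ^ 2 -
          (k1 ^ 2 + k2 ^ 2) * (d1 ^ 2 + d2 ^ 2)) := by ring
    have h2 : 0 < (d1 ^ 2 + d2 ^ 2) * (k1 ^ 2 + k2 ^ 2) *
        (8 * k1 * (d1 ^ 2 + d2 ^ 2) - 16 * d2 ^ 2 -
          (k1 ^ 2 + k2 ^ 2) * (d1 ^ 2 + d2 ^ 2)) := mul_pos (by positivity) (by linarith only [h])
    linarith only [h2]
  have := fs_amgm' ha hb hR hg
  linarith only [this]

private theorem fs_sq {κ δ : ℂ} (h : ‖κ - 4‖ * ‖δ‖ < 4 * δ.re) : 0 < δ.re ∧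
    ((κ.re - 4) ^ 2 + κ.im ^ 2) * (δ.re ^ 2 + δ.im ^ 2) < 16 * δ.re ^ 2 := by
  have h0 : 0 < δ.re := by
    have : 0 ≤ ‖κ - 4‖ * ‖δ‖ := by positivity
    linarith only [this, h]
  refine ⟨h0, ?_⟩
  have := pow_lt_pow_left₀ h (by positivity) two_ne_zero
  rw [mul_pow, ← normSq_eq_norm_sq, ← normSq_eq_norm_sq, normSq_apply, normSq_apply] at this
  simp only [sub_re, sub_im] at this
  norm_num at this
  linarith only [this]

/-- Complex form, left: `|(1 + δ)² - κ δ| < |1 + δ|²`. -/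
private theorem fs_leftC {κ δ : ℂ} (h : ‖κ - 4‖ * ‖δ‖ < 4 * δ.re) :
    ‖(1 + δ) ^ 2 - κ * δ‖ < ‖1 + δ‖ ^ 2 := by
  obtain ⟨h0, h2⟩ := fs_sq h
  have h3 := fs_left h0.le h2
  apply lt_of_pow_lt_pow_left₀ 2 (by positivity)
  rw [← normSq_eq_norm_sq, ← pow_mul]
  have e : ‖1 + δ‖ ^ (2 * 2) = normSq (1 + δ) ^ 2 := by
    rw [normSq_eq_norm_sq, ← pow_mul]
  rw [e, normSq_apply, normSq_apply]
  simp only [sub_re, sub_im, add_re, add_im, mul_re, mul_im, one_re, one_im, pow_two]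
  linarith only [h3]

/-- Complex form, right: `|1 - δ|² < |(1 - δ)² + κ δ|`. -/
private theorem fs_rightC {κ δ : ℂ} (h : ‖κ - 4‖ * ‖δ‖ < 4 * δ.re) :
    ‖1 - δ‖ ^ 2 < ‖(1 - δ) ^ 2 + κ * δ‖ := by
  obtain ⟨h0, h2⟩ := fs_sq h
  have h3 := fs_right h0.le h2
  apply lt_of_pow_lt_pow_left₀ 2 (by positivity)
  rw [← normSq_eq_norm_sq, ← normSq_eq_norm_sq, normSq_apply, normSq_apply]
  simp only [sub_re, sub_im, add_re, add_im, mul_re, mul_im, one_re, one_im, pow_two]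
  linarith only [h3]

/-! ### Trigonometry -/

private theorem fs_sin (a b : ℝ) : sin ((a : ℂ) + b * I) =
    ((Real.sin a * Real.cosh b : ℝ) : ℂ) + ((Real.cos a * Real.sinh b : ℝ) : ℂ) * I := by
  rw [sin_add_mul_I]
  push_cast
  ring

private theorem fs_cos (a b : ℝ) : cos ((a : ℂ) + b * I) =
    ((Real.cos a * Real.cosh b : ℝ) : ℂ) - ((Real.sin a * Real.sinh b : ℝ) : ℂ) * I := by
  rw [cos_add_mul_I]
  push_cast
  ring

/-- `E` lies between the positive real axis and `N` (upper half plane). -/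
private theorem fs_sector {E N : ℂ} (h1 : 0 ≤ N.re) (h2 : 0 < N.im) (h3 : 0 ≤ E.im)
    (h4 : 0 ≤ N.im * E.re - N.re * E.im) : 0 ≤ E.re ∧ N.re * ‖E‖ ≤ ‖N‖ * E.re := by
  have h5 : 0 ≤ E.re := by
    have : 0 ≤ N.im * E.re := by linarith only [mul_nonneg h1 h3, h4]
    exact nonneg_of_mul_nonneg_right this h2
  refine ⟨h5, ?_⟩
  apply le_of_sq_le_sq ?_ (by positivity)
  rw [mul_pow, mul_pow, ← normSq_eq_norm_sq, ← normSq_eq_norm_sq, normSq_apply, normSq_apply]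
  have h6 : (N.re * E.im) ^ 2 ≤ (N.im * E.re) ^ 2 :=
    pow_le_pow_left₀ (mul_nonneg h1 h3) (by linarith only [h4]) 2
  linarith only [h6]

private theorem fs_div_re (A B P Q : ℝ) : (((P : ℂ) + Q * I) / ((A : ℂ) - B * I)).re =
    (P * A - Q * B) / (A ^ 2 + B ^ 2) := by
  rw [div_re, normSq_apply]
  simp only [sub_re, sub_im, add_re, add_im, mul_re, mul_im, ofReal_re, ofReal_im, I_re, I_im,
    mul_zero, mul_one, sub_zero, add_zero, zero_add, zero_sub]
  rw [← add_div]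
  congr 1 <;> ring

private theorem fs_div_im (A B P Q : ℝ) : (((P : ℂ) + Q * I) / ((A : ℂ) - B * I)).im =
    (P * B + Q * A) / (A ^ 2 + B ^ 2) := by
  rw [div_im, normSq_apply]
  simp only [sub_re, sub_im, add_re, add_im, mul_re, mul_im, ofReal_re, ofReal_im, I_re, I_im,
    mul_zero, mul_one, sub_zero, add_zero, zero_add, zero_sub]
  rw [← sub_div]
  congr 1 <;> ring

/-- `M` is `sin²/cos²` (with `g = 1`) or `1/cos²` (with `g = 0`). -/
private theorem fs_E_pos {a β h : ℝ} (ha : 0 < a) (ha' : a < Real.pi / 2) (hβ : 0 ≤ β)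
    (hβ' : β ≤ Real.pi / 2) (hh : 0 < h) (hm : Real.pi / 2 ≤ a + β)
    (hN : 0 ≤ (1 / cos ((a : ℂ) + h * I) ^ 2).re) :
    0 ≤ (sin (((a + β : ℝ) : ℂ) + ((2 * h : ℝ) : ℂ) * I) / cos ((a : ℂ) + h * I) ^ 2).re ∧
    (1 / cos ((a : ℂ) + h * I) ^ 2).re *
        ‖sin (((a + β : ℝ) : ℂ) + ((2 * h : ℝ) : ℂ) * I) / cos ((a : ℂ) + h * I) ^ 2‖ ≤
      ‖1 / cos ((a : ℂ) + h * I) ^ 2‖ *
        (sin (((a + β : ℝ) : ℂ) + ((2 * h : ℝ) : ℂ) * I) / cos ((a : ℂ) + h * I) ^ 2).re := by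
  have hs : 0 < Real.sin a := Real.sin_pos_of_pos_of_lt_pi ha (by linarith only [ha', ha])
  have hc : 0 < Real.cos a := Real.cos_pos_of_mem_Ioo ⟨by linarith only [ha', ha], ha'⟩
  have hs' : 0 ≤ Real.sin β := Real.sin_nonneg_of_nonneg_of_le_pi hβ (by linarith only [hβ', ha',
                                                                           ha])
  have hc' : 0 ≤ Real.cos β := Real.cos_nonneg_of_mem_Icc ⟨by linarith only [hβ, ha', ha], hβ'⟩
  have hcm : Real.cos (a + β) ≤ 0 :=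
    Real.cos_nonpos_of_pi_div_two_le_of_le hm (by linarith only [hβ', ha', ha])
  have hch := Real.cosh_pos h
  have hsh : 0 < Real.sinh h := Real.sinh_pos_iff.mpr hh
  have h1 := Real.sin_sq_add_cos_sq a
  have h2 := Real.cosh_sq h
  rw [Real.cos_add] at hcm
  set s := Real.sin a with hsdef
  set c := Real.cos a with hcdef
  set S := Real.sin β with hSdef
  set C := Real.cos β with hCdef
  set ch := Real.cosh h with hchdef
  set sh := Real.sinh h with hshdef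
  have eC : cos ((a : ℂ) + h * I) ^ 2 =
      (((c ^ 2 * ch ^ 2 - s ^ 2 * sh ^ 2 : ℝ)) : ℂ) - ((2 * s * c * sh * ch : ℝ) : ℂ) * I := by
    rw [fs_cos, hsdef, hcdef, hchdef, hshdef]
    push_cast
    linear_combination (sin (a : ℂ) * sinh (h : ℂ)) ^ 2 * I_sq
  have eE : sin (((a + β : ℝ) : ℂ) + ((2 * h : ℝ) : ℂ) * I) =
      (((s * C + c * S) * (ch ^ 2 + sh ^ 2) : ℝ) : ℂ) +
        (((c * C - s * S) * (2 * sh * ch) : ℝ) : ℂ) * I := by
    rw [fs_sin, Real.sin_add, Real.cos_add, Real.cosh_two_mul, Real.sinh_two_mul]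
  have e1' : (1 : ℂ) = ((1 : ℝ) : ℂ) + ((0 : ℝ) : ℂ) * I := by simp
  rw [eC, e1'] at hN
  rw [eC, eE, e1']
  set A : ℝ := c ^ 2 * ch ^ 2 - s ^ 2 * sh ^ 2 with hA
  set B : ℝ := 2 * s * c * sh * ch with hB
  set P : ℝ := (s * C + c * S) * (ch ^ 2 + sh ^ 2) with hP
  set Q : ℝ := (c * C - s * S) * (2 * sh * ch) with hQ
  have hBpos : 0 < B := by positivity
  have hQ0 : Q ≤ 0 := mul_nonpos_of_nonpos_of_nonneg hcm (by positivity)
  have hD : 0 < A ^ 2 + B ^ 2 := by positivity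
  have e1 : P * B + Q * A = 2 * sh * ch * (ch ^ 2 * c * C + sh ^ 2 * s * S) := by
    rw [hP, hB, hQ, hA]
    have : c ^ 2 = 1 - s ^ 2 := by linarith only [h1]
    linear_combination (2 * sh * ch * (ch ^ 2 * c * C + sh ^ 2 * s * S)) * h1
  apply fs_sector hN
  · rw [fs_div_im]
    apply div_pos ?_ hD
    linarith only [hBpos]
  · rw [fs_div_im]
    apply div_nonneg ?_ hD.le
    rw [e1]
    positivity
  · rw [fs_div_im, fs_div_im, fs_div_re, fs_div_re]
    have : (1 * B + 0 * A) / (A ^ 2 + B ^ 2) * ((P * A - Q * B) / (A ^ 2 + B ^ 2)) -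
        (1 * A - 0 * B) / (A ^ 2 + B ^ 2) * ((P * B + Q * A) / (A ^ 2 + B ^ 2)) =
        -Q / (A ^ 2 + B ^ 2) := by
      field_simp
      ring
    rw [this]
    exact div_nonneg (by linarith only [hQ0]) hD.le

private theorem fs_E {a β h : ℝ} (ha : 0 < a) (ha' : a < Real.pi / 2) (hβ : 0 ≤ β)
    (hβ' : β ≤ Real.pi / 2) (hm : Real.pi / 2 ≤ a + β)
    (hN : 0 ≤ (1 / cos ((a : ℂ) + h * I) ^ 2).re) :
    0 ≤ (sin (((a + β : ℝ) : ℂ) + ((2 * h : ℝ) : ℂ) * I) / cos ((a : ℂ) + h * I) ^ 2).re ∧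
    (1 / cos ((a : ℂ) + h * I) ^ 2).re *
        ‖sin (((a + β : ℝ) : ℂ) + ((2 * h : ℝ) : ℂ) * I) / cos ((a : ℂ) + h * I) ^ 2‖ ≤
      ‖1 / cos ((a : ℂ) + h * I) ^ 2‖ *
        (sin (((a + β : ℝ) : ℂ) + ((2 * h : ℝ) : ℂ) * I) / cos ((a : ℂ) + h * I) ^ 2).re := by
  rcases lt_trichotomy h 0 with hh | hh | hh
  · have e1 : (a : ℂ) + ((-h : ℝ) : ℂ) * I = (starRingEnd ℂ) ((a : ℂ) + h * I) := by
      rw [map_add, map_mul, conj_ofReal, conj_ofReal, conj_I]
      push_cast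
      ring
    have e2 : ((a + β : ℝ) : ℂ) + ((2 * -h : ℝ) : ℂ) * I =
        (starRingEnd ℂ) (((a + β : ℝ) : ℂ) + ((2 * h : ℝ) : ℂ) * I) := by
      rw [map_add, map_mul, conj_ofReal, conj_ofReal, conj_I]
      push_cast
      ring
    have e3 : 1 / cos ((a : ℂ) + ((-h : ℝ) : ℂ) * I) ^ 2 =
        (starRingEnd ℂ) (1 / cos ((a : ℂ) + h * I) ^ 2) := by
      rw [e1, cos_conj, map_div₀, map_pow, map_one]
    have e4 : sin (((a + β : ℝ) : ℂ) + ((2 * -h : ℝ) : ℂ) * I) /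
        cos ((a : ℂ) + ((-h : ℝ) : ℂ) * I) ^ 2 =
        (starRingEnd ℂ) (sin (((a + β : ℝ) : ℂ) + ((2 * h : ℝ) : ℂ) * I) /
          cos ((a : ℂ) + h * I) ^ 2) := by
      rw [e1, e2, sin_conj, cos_conj, map_div₀, map_pow]
    have := fs_E_pos (h := -h) ha ha' hβ hβ' (by linarith only [hh]) hm (by rw [e3, conj_re]; exact hN)
    rw [e3, e4, conj_re, conj_re, norm_conj, norm_conj] at this
    exact this
  · subst hh
    have e4 : sin (((a + β : ℝ) : ℂ) + ((2 * 0 : ℝ) : ℂ) * I) / cos ((a : ℂ) + ((0 : ℝ) : ℂ) * I) ^ 2 =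
        ((Real.sin (a + β) / Real.cos a ^ 2 : ℝ) : ℂ) := by
      push_cast
      simp
    have h0 : 0 ≤ Real.sin (a + β) / Real.cos a ^ 2 := by
      apply div_nonneg ?_ (by positivity)
      exact Real.sin_nonneg_of_nonneg_of_le_pi (by linarith only [hβ, ha]) (by linarith only [hβ',
                                                                                 ha'])
    rw [e4, ofReal_re, norm_real, Real.norm_of_nonneg h0]
    exact ⟨h0, mul_le_mul_of_nonneg_right (re_le_norm _) h0⟩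
  · exact fs_E_pos ha ha' hβ hβ' hh hm hN

private theorem fs_EN_pos {a β h : ℝ} (ha : 0 < a) (ha' : a < Real.pi / 2) (hβ : 0 ≤ β)
    (hβ' : β ≤ Real.pi / 2) (hh : 0 < h)
    (hN : 0 ≤ (sin ((a : ℂ) + h * I) ^ 2 / cos ((a : ℂ) + h * I) ^ 2).re) :
    0 ≤ (sin (((a + β : ℝ) : ℂ) + ((2 * h : ℝ) : ℂ) * I) / cos ((a : ℂ) + h * I) ^ 2).re ∧
    (sin ((a : ℂ) + h * I) ^ 2 / cos ((a : ℂ) + h * I) ^ 2).re *
        ‖sin (((a + β : ℝ) : ℂ) + ((2 * h : ℝ) : ℂ) * I) / cos ((a : ℂ) + h * I) ^ 2‖ ≤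
      ‖sin ((a : ℂ) + h * I) ^ 2 / cos ((a : ℂ) + h * I) ^ 2‖ *
        (sin (((a + β : ℝ) : ℂ) + ((2 * h : ℝ) : ℂ) * I) / cos ((a : ℂ) + h * I) ^ 2).re := by
  have hs : 0 < Real.sin a := Real.sin_pos_of_pos_of_lt_pi ha (by linarith only [ha', ha])
  have hc : 0 < Real.cos a := Real.cos_pos_of_mem_Ioo ⟨by linarith only [ha', ha], ha'⟩
  have hs' : 0 ≤ Real.sin β := Real.sin_nonneg_of_nonneg_of_le_pi hβ (by linarith only [hβ', ha',
                                                                           ha])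
  have hc' : 0 ≤ Real.cos β := Real.cos_nonneg_of_mem_Icc ⟨by linarith only [hβ, ha', ha], hβ'⟩
  have hch := Real.cosh_pos h
  have hsh : 0 < Real.sinh h := Real.sinh_pos_iff.mpr hh
  have h1 := Real.sin_sq_add_cos_sq a
  have h2 := Real.cosh_sq h
  set s := Real.sin a with hsdef
  set c := Real.cos a with hcdef
  set S := Real.sin β with hSdef
  set C := Real.cos β with hCdef
  set ch := Real.cosh h with hchdef
  set sh := Real.sinh h with hshdef
  have eC : cos ((a : ℂ) + h * I) ^ 2 =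
      (((c ^ 2 * ch ^ 2 - s ^ 2 * sh ^ 2 : ℝ)) : ℂ) - ((2 * s * c * sh * ch : ℝ) : ℂ) * I := by
    rw [fs_cos, hsdef, hcdef, hchdef, hshdef]
    push_cast
    linear_combination (sin (a : ℂ) * sinh (h : ℂ)) ^ 2 * I_sq
  have eS : sin ((a : ℂ) + h * I) ^ 2 =
      (((s ^ 2 * ch ^ 2 - c ^ 2 * sh ^ 2 : ℝ)) : ℂ) + ((2 * s * c * sh * ch : ℝ) : ℂ) * I := by
    rw [fs_sin, hsdef, hcdef, hchdef, hshdef]
    push_cast
    linear_combination (cos (a : ℂ) * sinh (h : ℂ)) ^ 2 * I_sq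
  have eE : sin (((a + β : ℝ) : ℂ) + ((2 * h : ℝ) : ℂ) * I) =
      (((s * C + c * S) * (ch ^ 2 + sh ^ 2) : ℝ) : ℂ) +
        (((c * C - s * S) * (2 * sh * ch) : ℝ) : ℂ) * I := by
    rw [fs_sin, Real.sin_add, Real.cos_add, Real.cosh_two_mul, Real.sinh_two_mul]
  rw [eC, eS] at hN
  rw [eC, eS, eE]
  set A : ℝ := c ^ 2 * ch ^ 2 - s ^ 2 * sh ^ 2 with hA
  set A' : ℝ := s ^ 2 * ch ^ 2 - c ^ 2 * sh ^ 2 with hA'
  set B : ℝ := 2 * s * c * sh * ch with hB
  set P : ℝ := (s * C + c * S) * (ch ^ 2 + sh ^ 2) with hP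
  set Q : ℝ := (c * C - s * S) * (2 * sh * ch) with hQ
  have hBpos : 0 < B := by positivity
  have hD : 0 < A ^ 2 + B ^ 2 := by positivity
  have hAA : A + A' = 1 := by
    rw [hA, hA']
    have : c ^ 2 = 1 - s ^ 2 := by linarith only [h1]
    rw [this, h2]
    ring
  have e1 : P * B + Q * A = 2 * sh * ch * (ch ^ 2 * c * C + sh ^ 2 * s * S) := by
    rw [hP, hB, hQ, hA]
    have : c ^ 2 = 1 - s ^ 2 := by linarith only [h1]
    linear_combination (2 * sh * ch * (ch ^ 2 * c * C + sh ^ 2 * s * S)) * h1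
  have e2 : B * P - A' * Q = 2 * sh * ch * (ch ^ 2 * s * S + sh ^ 2 * c * C) := by
    rw [hP, hB, hQ, hA']
    linear_combination (2 * sh * ch * (ch ^ 2 * s * S + sh ^ 2 * c * C)) * h1
  apply fs_sector hN
  · rw [fs_div_im]
    apply div_pos ?_ hD
    have : A' * B + B * A = B := by linear_combination B * hAA
    rw [this]
    exact hBpos
  · rw [fs_div_im]
    apply div_nonneg ?_ hD.le
    rw [e1]
    positivity
  · rw [fs_div_im, fs_div_im, fs_div_re, fs_div_re]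
    have : (A' * B + B * A) / (A ^ 2 + B ^ 2) * ((P * A - Q * B) / (A ^ 2 + B ^ 2)) -
        (A' * A - B * B) / (A ^ 2 + B ^ 2) * ((P * B + Q * A) / (A ^ 2 + B ^ 2)) =
        (B * P - A' * Q) / (A ^ 2 + B ^ 2) := by
      field_simp
      ring
    rw [this, e2]
    positivity

private theorem fs_EN {a β h : ℝ} (ha : 0 < a) (ha' : a < Real.pi / 2) (hβ : 0 ≤ β)
    (hβ' : β ≤ Real.pi / 2)
    (hN : 0 ≤ (sin ((a : ℂ) + h * I) ^ 2 / cos ((a : ℂ) + h * I) ^ 2).re) :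
    0 ≤ (sin (((a + β : ℝ) : ℂ) + ((2 * h : ℝ) : ℂ) * I) / cos ((a : ℂ) + h * I) ^ 2).re ∧
    (sin ((a : ℂ) + h * I) ^ 2 / cos ((a : ℂ) + h * I) ^ 2).re *
        ‖sin (((a + β : ℝ) : ℂ) + ((2 * h : ℝ) : ℂ) * I) / cos ((a : ℂ) + h * I) ^ 2‖ ≤
      ‖sin ((a : ℂ) + h * I) ^ 2 / cos ((a : ℂ) + h * I) ^ 2‖ *
        (sin (((a + β : ℝ) : ℂ) + ((2 * h : ℝ) : ℂ) * I) / cos ((a : ℂ) + h * I) ^ 2).re := by
  rcases lt_trichotomy h 0 with hh | hh | hh
  · have e1 : (a : ℂ) + ((-h : ℝ) : ℂ) * I = (starRingEnd ℂ) ((a : ℂ) + h * I) := by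
      rw [map_add, map_mul, conj_ofReal, conj_ofReal, conj_I]
      push_cast
      ring
    have e2 : ((a + β : ℝ) : ℂ) + ((2 * -h : ℝ) : ℂ) * I =
        (starRingEnd ℂ) (((a + β : ℝ) : ℂ) + ((2 * h : ℝ) : ℂ) * I) := by
      rw [map_add, map_mul, conj_ofReal, conj_ofReal, conj_I]
      push_cast
      ring
    have e3 : sin ((a : ℂ) + ((-h : ℝ) : ℂ) * I) ^ 2 / cos ((a : ℂ) + ((-h : ℝ) : ℂ) * I) ^ 2 =
        (starRingEnd ℂ) (sin ((a : ℂ) + h * I) ^ 2 / cos ((a : ℂ) + h * I) ^ 2) := by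
      rw [e1, sin_conj, cos_conj, map_div₀, map_pow, map_pow]
    have e4 : sin (((a + β : ℝ) : ℂ) + ((2 * -h : ℝ) : ℂ) * I) /
        cos ((a : ℂ) + ((-h : ℝ) : ℂ) * I) ^ 2 =
        (starRingEnd ℂ) (sin (((a + β : ℝ) : ℂ) + ((2 * h : ℝ) : ℂ) * I) /
          cos ((a : ℂ) + h * I) ^ 2) := by
      rw [e1, e2, sin_conj, cos_conj, map_div₀, map_pow]
    have := fs_EN_pos (h := -h) ha ha' hβ hβ' (by linarith only [hh]) (by rw [e3, conj_re]; exact hN)
    rw [e3, e4, conj_re, conj_re, norm_conj, norm_conj] at this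
    exact this
  · subst hh
    have e4 : sin (((a + β : ℝ) : ℂ) + ((2 * 0 : ℝ) : ℂ) * I) / cos ((a : ℂ) + ((0 : ℝ) : ℂ) * I) ^ 2 =
        ((Real.sin (a + β) / Real.cos a ^ 2 : ℝ) : ℂ) := by
      push_cast
      simp
    have h0 : 0 ≤ Real.sin (a + β) / Real.cos a ^ 2 := by
      apply div_nonneg ?_ (by positivity)
      exact Real.sin_nonneg_of_nonneg_of_le_pi (by linarith only [hβ, ha]) (by linarith only [hβ',
                                                                                 ha'])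
    rw [e4, ofReal_re, norm_real, Real.norm_of_nonneg h0]
    exact ⟨h0, mul_le_mul_of_nonneg_right (re_le_norm _) h0⟩
  · exact fs_EN_pos ha ha' hβ hβ' hh hN

/-! ### The sign of the derivative -/

/-- `E(t)`: `cos² π (t + i h) = cos² π (s + i h) (1 + sin π (s - t) E(t))`. -/
private noncomputable def fE (s h t : ℝ) : ℂ :=
  sin (((Real.pi * s + Real.pi * t : ℝ) : ℂ) + ((2 * (Real.pi * h) : ℝ) : ℂ) * I) /
    cos (Real.pi * ((s : ℂ) + h * I)) ^ 2

private theorem fs_z (s h : ℝ) : (Real.pi : ℂ) * ((s : ℂ) + h * I) =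
    ((Real.pi * s : ℝ) : ℂ) + ((Real.pi * h : ℝ) : ℂ) * I := by
  push_cast
  ring

private theorem fs_c0 {s : ℝ} (h : ℝ) (hs : 0 < s) (hs' : s < 1 / 2) :
    cos (Real.pi * ((s : ℂ) + h * I)) ≠ 0 := by
  have hpi := Real.pi_pos
  rw [fs_z, fs_cos]
  intro h0
  have := congrArg Complex.re h0
  simp only [sub_re, ofReal_re, mul_re, ofReal_im, I_re, mul_zero, I_im, mul_one, sub_self,
    sub_zero, zero_re] at this
  have h1 : 0 < Real.cos (Real.pi * s) :=
    Real.cos_pos_of_mem_Ioo ⟨by linarith only [hpi, mul_pos (sub_pos.2 hs) (sub_pos.2 hpi)], by linarith only [mul_pos (sub_pos.2 hs') (sub_pos.2 hpi)]⟩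
  have h2 := Real.cosh_pos (Real.pi * h)
  have : 0 < Real.cos (Real.pi * s) * Real.cosh (Real.pi * h) := by positivity
  linarith [this]

private theorem fs_C {s : ℝ} (h t : ℝ) (hs : 0 < s) (hs' : s < 1 / 2) :
    cos (Real.pi * ((t : ℂ) + h * I)) ^ 2 = cos (Real.pi * ((s : ℂ) + h * I)) ^ 2 *
      (1 + ((Real.sin (Real.pi * (s - t)) : ℝ) : ℂ) * fE s h t) := by
  have h1 : cos (Real.pi * ((t : ℂ) + h * I)) ^ 2 - cos (Real.pi * ((s : ℂ) + h * I)) ^ 2 =
      sin (Real.pi * (s - t)) *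
      sin (((Real.pi * s + Real.pi * t : ℝ) : ℂ) + ((2 * (Real.pi * h) : ℝ) : ℂ) * I) := by
    have h2 := cos_sq (Real.pi * ((t : ℂ) + h * I))
    have h3 := cos_sq (Real.pi * ((s : ℂ) + h * I))
    have h4 := cos_sub_cos (2 * (Real.pi * ((t : ℂ) + h * I))) (2 * (Real.pi * ((s : ℂ) + h * I)))
    rw [h2, h3]
    have e5 : (2 * ((Real.pi : ℂ) * ((t : ℂ) + h * I)) + 2 * (Real.pi * ((s : ℂ) + h * I))) / 2 =
        ((Real.pi * s + Real.pi * t : ℝ) : ℂ) + ((2 * (Real.pi * h) : ℝ) : ℂ) * I := by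
      push_cast
      ring
    have e6 : (2 * ((Real.pi : ℂ) * ((t : ℂ) + h * I)) - 2 * (Real.pi * ((s : ℂ) + h * I))) / 2 =
        -(Real.pi * ((s : ℂ) - t)) := by
      ring
    rw [e5, e6, sin_neg] at h4
    linear_combination h4 / 2
  have h2 : cos (Real.pi * ((s : ℂ) + h * I)) ^ 2 ≠ 0 := pow_ne_zero 2 (fs_c0 h hs hs')
  have h3 : sin (((Real.pi * s + Real.pi * t : ℝ) : ℂ) + ((2 * (Real.pi * h) : ℝ) : ℂ) * I) =
      cos (Real.pi * ((s : ℂ) + h * I)) ^ 2 * fE s h t := by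
    unfold fE
    rw [mul_div_cancel₀ _ h2]
  rw [h3] at h1
  push_cast
  linear_combination h1

private theorem fs_E_ne {s h t : ℝ} (hs : 0 < s) (hs' : s < 1 / 2) (ht : 0 ≤ t)
    (ht' : t ≤ 1 / 2) : fE s h t ≠ 0 := by
  have hpi := Real.pi_pos
  unfold fE
  refine div_ne_zero ?_ (pow_ne_zero 2 (fs_c0 h hs hs'))
  rw [fs_sin]
  intro h0
  have := congrArg Complex.re h0
  simp only [add_re, ofReal_re, mul_re, ofReal_im, I_re, mul_zero, I_im, mul_one, sub_self,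
    add_zero, zero_re] at this
  have h1 : 0 < Real.sin (Real.pi * s + Real.pi * t) :=
    Real.sin_pos_of_pos_of_lt_pi (by positivity) (by linarith only [mul_nonneg (sub_nonneg.2 ht') (sub_nonneg.2 hpi.le),
                                                       mul_pos (sub_pos.2 hs') (sub_pos.2 hpi)])
  have h2 := Real.cosh_pos (2 * (Real.pi * h))
  have : 0 < Real.sin (Real.pi * s + Real.pi * t) * Real.cosh (2 * (Real.pi * h)) := by positivity
  linarith [this]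

/-- `(C - p) (C - q)` in terms of `δ`, `C = c² (1 + δ)`. -/
private theorem fs_key {p q c2 C : ℂ} (hp0 : p ≠ 0) (hq0 : q ≠ 0) (hc2 : c2 * (p + q) = p * q)
    (δ : ℂ) (hδ : C = c2 * (1 + δ)) :
    (C - p) * (C - q) = c2 ^ 2 * ((1 + δ) ^ 2 - (p + q) ^ 2 / (p * q) * δ) := by
  have h1 : (p + q) ^ 2 / (p * q) * c2 ^ 2 = p * q := by
    rw [div_mul_eq_mul_div, div_eq_iff (mul_ne_zero hp0 hq0)]
    linear_combination (c2 * (p + q) + p * q) * hc2
  rw [hδ]
  linear_combination (-(1 + δ)) * hc2 + δ * h1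

private theorem fs_c2 {s h : ℝ} {p q : ℂ} (hs : 0 < s) (hs' : s < 1 / 2) (hp0 : p ≠ 0)
    (hq0 : q ≠ 0) (hc : 1 / cos (Real.pi * ((s : ℂ) + h * I)) ^ 2 = 1 / p + 1 / q) :
    cos (Real.pi * ((s : ℂ) + h * I)) ^ 2 * (p + q) = p * q := by
  have h1 : cos (Real.pi * ((s : ℂ) + h * I)) ^ 2 ≠ 0 := pow_ne_zero 2 (fs_c0 h hs hs')
  generalize cos (Real.pi * ((s : ℂ) + h * I)) ^ 2 = c at hc h1 ⊢
  field_simp at hc
  linear_combination -hc

private theorem fs_k4 {p q : ℂ} (hp0 : p ≠ 0) (hq0 : q ≠ 0) :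
    (p + q) ^ 2 / (p * q) - 4 = (1 / p - 1 / q) ^ 2 / ((1 / p) * (1 / q)) := by
  field_simp
  ring

/-- Both sides of the critical point from the inequality for `E(t)`. -/
private theorem fs_mid {p q : ℂ} {s h t : ℝ} (hs : 0 < s) (hs' : s < 1 / 2) (ht : 0 ≤ t)
    (ht' : t ≤ 1 / 2) (hp0 : p ≠ 0) (hq0 : q ≠ 0)
    (hc : 1 / cos (Real.pi * ((s : ℂ) + h * I)) ^ 2 = 1 / p + 1 / q)
    (hE : ‖(p + q) ^ 2 / (p * q) - 4‖ * ‖fE s h t‖ < 4 * (fE s h t).re) :
    (t < s → ‖cos (Real.pi * ((t : ℂ) + h * I)) ^ 2 - p‖ *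
        ‖cos (Real.pi * ((t : ℂ) + h * I)) ^ 2 - q‖ <
      ‖cos (Real.pi * ((t : ℂ) + h * I)) ^ 2‖ ^ 2) ∧
    (s < t → ‖cos (Real.pi * ((t : ℂ) + h * I)) ^ 2‖ ^ 2 <
      ‖cos (Real.pi * ((t : ℂ) + h * I)) ^ 2 - p‖ *
        ‖cos (Real.pi * ((t : ℂ) + h * I)) ^ 2 - q‖) := by
  have hpi := Real.pi_pos
  have hc2 := fs_c2 hs hs' hp0 hq0 hc
  have hCδ := fs_C h t hs hs'
  have hcc : 0 < ‖(cos (Real.pi * ((s : ℂ) + h * I)) ^ 2) ^ 2‖ :=
    norm_pos_iff.mpr (pow_ne_zero 2 (pow_ne_zero 2 (fs_c0 h hs hs')))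
  set c2 : ℂ := cos (Real.pi * ((s : ℂ) + h * I)) ^ 2 with hc2def
  set C : ℂ := cos (Real.pi * ((t : ℂ) + h * I)) ^ 2 with hCdef
  set κ : ℂ := (p + q) ^ 2 / (p * q) with hκ
  have hn : ‖C - p‖ * ‖C - q‖ = ‖(C - p) * (C - q)‖ := (norm_mul _ _).symm
  rw [hn]
  constructor
  · intro hts
    have h0 : 0 < Real.sin (Real.pi * (s - t)) :=
      Real.sin_pos_of_pos_of_lt_pi (by linarith only [mul_pos (sub_pos.2 hpi) (sub_pos.2 hts)]) (by linarith only [mul_nonneg (sub_nonneg.2 ht) (sub_nonneg.2 hpi.le),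
                                                                                                      mul_pos (sub_pos.2 hs') (sub_pos.2 hpi),
                                                                                                      mul_pos (sub_pos.2 hs) (sub_pos.2 hpi)])
    set δ : ℂ := ((Real.sin (Real.pi * (s - t)) : ℝ) : ℂ) * fE s h t with hδ
    have h2 : ‖κ - 4‖ * ‖δ‖ < 4 * δ.re := by
      rw [hδ, re_ofReal_mul, norm_mul, norm_real, Real.norm_of_nonneg h0.le]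
      linarith only [mul_lt_mul_of_pos_left hE h0]
    rw [fs_key hp0 hq0 hc2 δ hCδ, hCδ, norm_mul, norm_mul, norm_pow c2 2, mul_pow]
    rw [norm_pow] at hcc
    exact mul_lt_mul_of_pos_left (fs_leftC h2) hcc
  · intro hts
    have h0 : 0 < Real.sin (Real.pi * (t - s)) :=
      Real.sin_pos_of_pos_of_lt_pi (by linarith only [mul_pos (sub_pos.2 hpi) (sub_pos.2 hts)]) (by linarith only [mul_nonneg (sub_nonneg.2 ht') (sub_nonneg.2 hpi.le),
                                                                                                      mul_pos (sub_pos.2 hs') (sub_pos.2 hpi),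
                                                                                                      mul_pos (sub_pos.2 hs) (sub_pos.2 hpi)])
    set δ : ℂ := ((Real.sin (Real.pi * (t - s)) : ℝ) : ℂ) * fE s h t with hδ
    have h2 : ‖κ - 4‖ * ‖δ‖ < 4 * δ.re := by
      rw [hδ, re_ofReal_mul, norm_mul, norm_real, Real.norm_of_nonneg h0.le]
      linarith only [mul_lt_mul_of_pos_left hE h0]
    have h3 : ((Real.sin (Real.pi * (s - t)) : ℝ) : ℂ) * fE s h t = -δ := by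
      rw [hδ, show Real.pi * (s - t) = -(Real.pi * (t - s)) by ring, Real.sin_neg]
      push_cast
      ring
    rw [h3] at hCδ
    rw [fs_key hp0 hq0 hc2 (-δ) hCδ, hCδ, norm_mul, norm_mul, norm_pow c2 2, mul_pow]
    rw [norm_pow] at hcc
    have h4 := fs_rightC h2
    rw [← sub_eq_add_neg, mul_neg, sub_neg_eq_add]
    exact mul_lt_mul_of_pos_left h4 hcc

private theorem fs_N {p q : ℂ} {s h : ℝ} (hs : 0 < s) (hs' : s < 1 / 2)
    (hc : 1 / cos (Real.pi * ((s : ℂ) + h * I)) ^ 2 = 1 / p + 1 / q) :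
    sin (((Real.pi * s : ℝ) : ℂ) + ((Real.pi * h : ℝ) : ℂ) * I) ^ 2 /
      cos (((Real.pi * s : ℝ) : ℂ) + ((Real.pi * h : ℝ) : ℂ) * I) ^ 2 = 1 / p + 1 / q - 1 := by
  rw [← hc, ← fs_z]
  have h1 := sin_sq_add_cos_sq (Real.pi * ((s : ℂ) + h * I))
  have h2 : cos (Real.pi * ((s : ℂ) + h * I)) ^ 2 ≠ 0 := pow_ne_zero 2 (fs_c0 h hs hs')
  have h3 : sin (Real.pi * ((s : ℂ) + h * I)) ^ 2 = 1 - cos (Real.pi * ((s : ℂ) + h * I)) ^ 2 := by
    linear_combination h1
  rw [h3, sub_div, div_self h2]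

private theorem fs_nu {p q : ℂ} {s h t : ℝ} (hs : 0 < s) (hs' : s < 1 / 2) (ht : 0 ≤ t)
    (ht' : t ≤ 1 / 2) (hp0 : p ≠ 0) (hq0 : q ≠ 0)
    (hc : 1 / cos (Real.pi * ((s : ℂ) + h * I)) ^ 2 = 1 / p + 1 / q)
    (hN : 0 ≤ (1 / p + 1 / q - 1).re)
    (hC : ‖1 / p - 1 / q‖ ^ 2 * ‖1 / p + 1 / q - 1‖ <
      4 * (‖1 / p‖ * ‖1 / q‖) * (1 / p + 1 / q - 1).re) :
    ‖(p + q) ^ 2 / (p * q) - 4‖ * ‖fE s h t‖ < 4 * (fE s h t).re := by
  have hpi := Real.pi_pos
  have hNeq := fs_N hs hs' hc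
  have hEE := fs_EN (a := Real.pi * s) (β := Real.pi * t) (h := Real.pi * h) (by positivity)
    (by linarith only [mul_pos (sub_pos.2 hs') (sub_pos.2 hpi)]) (by positivity) (by (refine le_of_not_gt fun hng => ?_; linarith only [mul_nonneg (sub_nonneg.2 ht') (sub_nonneg.2 hpi.le),
                                                                                       mul_pos (sub_pos.2 hng) (sub_pos.2 hs'),
                                                                                       mul_pos (sub_pos.2 hng) (sub_pos.2 hs)])) (by rw [hNeq]; exact hN)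
  have hE0 := norm_pos_iff.mpr (fs_E_ne (h := h) hs hs' ht ht')
  rw [hNeq] at hEE
  have hfE : fE s h t = sin (((Real.pi * s + Real.pi * t : ℝ) : ℂ) +
      ((2 * (Real.pi * h) : ℝ) : ℂ) * I) /
      cos (((Real.pi * s : ℝ) : ℂ) + ((Real.pi * h : ℝ) : ℂ) * I) ^ 2 := by
    unfold fE
    rw [fs_z]
  rw [← hfE] at hEE
  obtain ⟨h0, h1⟩ := hEE
  set N : ℂ := 1 / p + 1 / q - 1 with hNdef
  have hpq' : 0 < ‖1 / p‖ * ‖1 / q‖ :=
    mul_pos (norm_pos_iff.mpr (one_div_ne_zero hp0)) (norm_pos_iff.mpr (one_div_ne_zero hq0))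
  have hκN : ‖(p + q) ^ 2 / (p * q) - 4‖ * ‖N‖ < 4 * N.re := by
    rw [fs_k4 hp0 hq0, norm_div, norm_mul, norm_pow, div_mul_eq_mul_div, div_lt_iff₀ hpq']
    linarith only [hC]
  have hN0 : 0 < ‖N‖ := by
    have h2 : 0 ≤ ‖(p + q) ^ 2 / (p * q) - 4‖ * ‖N‖ := by positivity
    exact lt_of_lt_of_le (by linarith only [h2, hκN]) (re_le_norm N)
  refine lt_of_mul_lt_mul_right ?_ hN0.le
  calc ‖(p + q) ^ 2 / (p * q) - 4‖ * ‖fE s h t‖ * ‖N‖
      = ‖(p + q) ^ 2 / (p * q) - 4‖ * ‖N‖ * ‖fE s h t‖ := by ring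
    _ < 4 * N.re * ‖fE s h t‖ := mul_lt_mul_of_pos_right hκN hE0
    _ = 4 * (N.re * ‖fE s h t‖) := by ring
    _ ≤ 4 * (‖N‖ * (fE s h t).re) := by linarith only [h1]
    _ = 4 * (fE s h t).re * ‖N‖ := by ring

private theorem fs_mu {p q : ℂ} {s h t : ℝ} (hs : 0 < s) (hs' : s < 1 / 2) (ht : 1 / 2 ≤ s + t)
    (ht' : t ≤ 1 / 2) (hp0 : p ≠ 0) (hq0 : q ≠ 0)
    (hc : 1 / cos (Real.pi * ((s : ℂ) + h * I)) ^ 2 = 1 / p + 1 / q)
    (hN : 0 ≤ (1 / p + 1 / q).re)
    (hC : ‖1 / p - 1 / q‖ ^ 2 * ‖1 / p + 1 / q‖ <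
      4 * (‖1 / p‖ * ‖1 / q‖) * (1 / p + 1 / q).re) :
    ‖(p + q) ^ 2 / (p * q) - 4‖ * ‖fE s h t‖ < 4 * (fE s h t).re := by
  have hpi := Real.pi_pos
  have ht0 : 0 ≤ t := by linarith only [ht, hs']
  have hNeq : 1 / cos (((Real.pi * s : ℝ) : ℂ) + ((Real.pi * h : ℝ) : ℂ) * I) ^ 2 =
      1 / p + 1 / q := by rw [← hc, fs_z]
  have hEE := fs_E (a := Real.pi * s) (β := Real.pi * t) (h := Real.pi * h) (by positivity)
    (by linarith only [mul_pos (sub_pos.2 hs') (sub_pos.2 hpi)]) (by positivity) (by (refine le_of_not_gt fun hng => ?_; linarith only [mul_nonneg (sub_nonneg.2 ht') (sub_nonneg.2 hpi.le),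
                                                                                       mul_pos (sub_pos.2 hng) (sub_pos.2 hs'),
                                                                                       mul_pos (sub_pos.2 hng) (sub_pos.2 hs)])) (by (refine le_of_not_gt fun hng => ?_; linarith only [mul_nonneg (sub_nonneg.2 ht) (sub_nonneg.2 hpi.le),
                                                                                                                                       mul_pos (sub_pos.2 hng) (sub_pos.2 hs'),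
                                                                                                                                       mul_pos (sub_pos.2 hng) (sub_pos.2 hs)])) (by rw [hNeq]; exact hN)
  have hE0 := norm_pos_iff.mpr (fs_E_ne (h := h) hs hs' ht0 ht')
  rw [hNeq] at hEE
  have hfE : fE s h t = sin (((Real.pi * s + Real.pi * t : ℝ) : ℂ) +
      ((2 * (Real.pi * h) : ℝ) : ℂ) * I) /
      cos (((Real.pi * s : ℝ) : ℂ) + ((Real.pi * h : ℝ) : ℂ) * I) ^ 2 := by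
    unfold fE
    rw [fs_z]
  rw [← hfE] at hEE
  obtain ⟨h0, h1⟩ := hEE
  set N : ℂ := 1 / p + 1 / q with hNdef
  have hpq' : 0 < ‖1 / p‖ * ‖1 / q‖ :=
    mul_pos (norm_pos_iff.mpr (one_div_ne_zero hp0)) (norm_pos_iff.mpr (one_div_ne_zero hq0))
  have hκN : ‖(p + q) ^ 2 / (p * q) - 4‖ * ‖N‖ < 4 * N.re := by
    rw [fs_k4 hp0 hq0, norm_div, norm_mul, norm_pow, div_mul_eq_mul_div, div_lt_iff₀ hpq']
    linarith only [hC]
  have hN0 : 0 < ‖N‖ := by
    have h2 : 0 ≤ ‖(p + q) ^ 2 / (p * q) - 4‖ * ‖N‖ := by positivity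
    exact lt_of_lt_of_le (by linarith only [h2, hκN]) (re_le_norm N)
  refine lt_of_mul_lt_mul_right ?_ hN0.le
  calc ‖(p + q) ^ 2 / (p * q) - 4‖ * ‖fE s h t‖ * ‖N‖
      = ‖(p + q) ^ 2 / (p * q) - 4‖ * ‖N‖ * ‖fE s h t‖ := by ring
    _ < 4 * N.re * ‖fE s h t‖ := mul_lt_mul_of_pos_right hκN hE0
    _ = 4 * (N.re * ‖fE s h t‖) := by ring
    _ ≤ 4 * (‖N‖ * (fE s h t).re) := by linarith only [h1]
    _ = 4 * (fE s h t).re * ‖N‖ := by ring

/-! ### The part `t ≤ 1/2 - s` -/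

private theorem fs_interp {A B l x y : ℝ} (hA0 : 0 ≤ A) (hA : l < A)
    (hm : l < A * Real.cos y + B * Real.sin y) (hx : 0 ≤ x) (hxy : x ≤ y)
    (hy : y ≤ Real.pi / 2) : l < A * Real.cos x + B * Real.sin x := by
  rcases hx.eq_or_lt with hx | hx
  · rw [← hx, Real.cos_zero, Real.sin_zero]
    linarith only [hA]
  rcases hxy.eq_or_lt with hxy | hxy
  · rw [hxy]
    exact hm
  have hpi := Real.pi_pos
  have s1 : 0 < Real.sin x := Real.sin_pos_of_pos_of_lt_pi hx (by linarith [hx, hy])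
  have s2 : 0 < Real.sin (y - x) := Real.sin_pos_of_pos_of_lt_pi (by linarith only [hxy]) (by linarith [hx,
                                                                                                hy])
  have s3 : 0 < Real.sin y := Real.sin_pos_of_pos_of_lt_pi (by linarith [hx]) (by linarith [hx, hy])
  have e : Real.sin y * (A * Real.cos x + B * Real.sin x) =
      Real.sin (y - x) * A + Real.sin x * (A * Real.cos y + B * Real.sin y) := by
    rw [Real.sin_sub]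
    ring
  have h3 : Real.sin x ≤ Real.sin y :=
    Real.sin_le_sin_of_le_of_le_pi_div_two (by linarith [hy]) hy hxy.le
  have h4 : Real.sin y ≤ Real.sin (y - x) + Real.sin x := by
    have e2 : Real.sin y = Real.sin (y - x) * Real.cos x + Real.cos (y - x) * Real.sin x := by
      rw [← Real.sin_add]
      congr 1
      ring
    have := Real.cos_le_one x
    have := Real.cos_le_one (y - x)
    nlinarith
  refine lt_of_mul_lt_mul_left ?_ s3.le
  rw [e]
  have h5 : Real.sin x * l < Real.sin x * (A * Real.cos y + B * Real.sin y) :=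
    mul_lt_mul_of_pos_left hm s1
  rcases le_total 0 l with hl | hl
  · have h6 : Real.sin (y - x) * l < Real.sin (y - x) * A := mul_lt_mul_of_pos_left hA s2
    linarith only [h5, mul_nonneg (sub_nonneg.2 hA.le) (sub_nonneg.2 h3),
      mul_nonneg (sub_nonneg.2 hA0) (sub_nonneg.2 h4)]
  · have h6 : 0 ≤ Real.sin (y - x) * A := by positivity
    linarith only [h5, mul_nonneg (sub_nonneg.2 hA.le) (sub_nonneg.2 h3),
      mul_nonneg (sub_nonneg.2 hA0) (sub_nonneg.2 h4)]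

private theorem fs_T {p q : ℂ} {s h t : ℝ} (hs : 1 / 4 ≤ s) (hs' : s < 1 / 2) (ht : 0 ≤ t)
    (ht' : s + t ≤ 1 / 2) (hp0 : p ≠ 0) (hq0 : q ≠ 0)
    (hc : 1 / cos (Real.pi * ((s : ℂ) + h * I)) ^ 2 = 1 / p + 1 / q)
    (hp : ‖p‖ ^ 2 < 2 * p.re) (hq : ‖q‖ ^ 2 < 2 * q.re)
    (hT : ‖p‖ ^ 2 + ‖q‖ ^ 2 < 2 * (p + q - p * q).re) :
    ‖cos (Real.pi * ((t : ℂ) + h * I)) ^ 2 - p‖ *
        ‖cos (Real.pi * ((t : ℂ) + h * I)) ^ 2 - q‖ <
      ‖cos (Real.pi * ((t : ℂ) + h * I)) ^ 2‖ ^ 2 := by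
  have hpi := Real.pi_pos
  have hs0 : 0 < s := by linarith only [hs]
  have hc2 := fs_c2 hs0 hs' hp0 hq0 hc
  have eC : ∀ r : ℝ, cos (Real.pi * ((r : ℂ) + h * I)) ^ 2 =
      (((1 + Real.cos (2 * Real.pi * r) * Real.cosh (2 * Real.pi * h)) / 2 : ℝ) : ℂ) -
      ((Real.sin (2 * Real.pi * r) * Real.sinh (2 * Real.pi * h) / 2 : ℝ) : ℂ) * I := by
    intro r
    rw [cos_sq]
    have e : 2 * ((Real.pi : ℂ) * ((r : ℂ) + h * I)) =
        ((2 * Real.pi * r : ℝ) : ℂ) + ((2 * Real.pi * h : ℝ) : ℂ) * I := by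
      push_cast
      ring
    rw [e, fs_cos]
    push_cast
    ring
  set P1 : ℝ := (p + q).re with hP1
  set P2 : ℝ := (p + q).im with hP2
  set ch : ℝ := Real.cosh (2 * Real.pi * h) with hch
  set sh : ℝ := Real.sinh (2 * Real.pi * h) with hsh
  have hP10 : 0 < P1 := by
    have h1 : 0 ≤ ‖p‖ ^ 2 := by positivity
    have h2 : 0 ≤ ‖q‖ ^ 2 := by positivity
    rw [hP1, add_re]
    linarith only [h2, h1, hq, hp]
  have hch1 : 1 ≤ ch := Real.one_le_cosh _
  -- the end `1/2 - s`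
  have hend : 2 * (p + q - p * q).re = P1 + (P1 * ch * Real.cos (Real.pi - 2 * Real.pi * s) +
      (-(P2 * sh)) * Real.sin (Real.pi - 2 * Real.pi * s)) := by
    have e1 : p + q - p * q = (1 - cos (Real.pi * ((s : ℂ) + h * I)) ^ 2) * (p + q) := by
      rw [← hc2]
      ring
    rw [e1, eC s, Real.cos_pi_sub, Real.sin_pi_sub]
    simp only [mul_re, sub_re, sub_im, one_re, one_im, ofReal_re, ofReal_im, mul_im, I_re, I_im,
      mul_zero, mul_one, sub_zero, add_zero, zero_add, zero_sub]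
    rw [← hP1, ← hP2]
    ring
  have hf := fs_interp (A := P1 * ch) (B := -(P2 * sh)) (l := ‖p‖ ^ 2 + ‖q‖ ^ 2 - P1)
    (x := 2 * Real.pi * t) (y := Real.pi - 2 * Real.pi * s) (by positivity)
    (by
      have : P1 ≤ P1 * ch := by (refine le_of_not_gt fun hng => ?_; linarith only [mul_nonneg (sub_nonneg.2 hP10.le) (sub_nonneg.2 hch1),
                                  mul_pos (sub_pos.2 hng) (sub_pos.2 hs0),
                                  mul_pos (sub_pos.2 hng) (sub_pos.2 hs')])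
      have e : P1 = p.re + q.re := by rw [hP1, add_re]
      linarith only [e, this, hq, hp])
    (by linarith only [hend, hT]) (by positivity) (by (refine le_of_not_gt fun hng => ?_; linarith only [mul_nonneg (sub_nonneg.2 ht') (sub_nonneg.2 hpi.le),
                                                        mul_pos (sub_pos.2 hng) (sub_pos.2 hs0),
                                                        mul_pos (sub_pos.2 hng) (sub_pos.2 hs')])) (by (refine le_of_not_gt fun hng => ?_; linarith only [mul_nonneg (sub_nonneg.2 hs) (sub_nonneg.2 hpi.le),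
                                                                                                         mul_pos (sub_pos.2 hng) (sub_pos.2 hs0),
                                                                                                         mul_pos (sub_pos.2 hng) (sub_pos.2 hs')]))
  set C : ℂ := cos (Real.pi * ((t : ℂ) + h * I)) ^ 2 with hCdef
  have hCre : C.re = (1 + Real.cos (2 * Real.pi * t) * ch) / 2 := by
    rw [hCdef, eC t, sub_re, re_ofReal_mul, ofReal_re, I_re, mul_zero, sub_zero]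
  have hCim : C.im = -(Real.sin (2 * Real.pi * t) * sh / 2) := by
    rw [hCdef, eC t, sub_im, im_ofReal_mul, ofReal_im, I_im, mul_one, zero_sub]
  have h1 : ‖C - p‖ ^ 2 + ‖C - q‖ ^ 2 < 2 * ‖C‖ ^ 2 := by
    rw [← normSq_eq_norm_sq, ← normSq_eq_norm_sq] at hf ⊢
    rw [← normSq_eq_norm_sq, normSq_apply, normSq_apply, normSq_apply]
    rw [normSq_apply, normSq_apply] at hf
    simp only [sub_re, sub_im]
    rw [hP1, hP2, add_re, add_im] at hf
    have e1 : Real.cos (2 * Real.pi * t) * ch = 2 * C.re - 1 := by rw [hCre]; ring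
    have e2 : Real.sin (2 * Real.pi * t) * sh = -(2 * C.im) := by rw [hCim]; ring
    have e3 : (p.re + q.re) * ch * Real.cos (2 * Real.pi * t) = (p.re + q.re) * (2 * C.re - 1) := by
      rw [← e1]; ring
    have e4 : -((p.im + q.im) * sh) * Real.sin (2 * Real.pi * t) = (p.im + q.im) * (2 * C.im) := by
      linear_combination (-(p.im + q.im)) * e2
    rw [e3, e4] at hf
    linarith only [hf]
  linarith only [sq_nonneg (‖C - p‖ - ‖C - q‖), h1]

private theorem fs_quarter {p q : ℂ} {s h : ℝ} (hs : 0 < s) (hs' : s < 1 / 2)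
    (hc : 1 / cos (Real.pi * ((s : ℂ) + h * I)) ^ 2 = 1 / p + 1 / q)
    (hN : 1 ≤ ‖1 / p + 1 / q - 1‖) : 1 / 4 ≤ s := by
  have hpi := Real.pi_pos
  by_contra hlt
  push Not at hlt
  rw [← fs_N hs hs' hc, norm_div, norm_pow, norm_pow, ← normSq_eq_norm_sq, ← normSq_eq_norm_sq,
    le_div_iff₀, one_mul, normSq_apply, normSq_apply, fs_sin, fs_cos] at hN
  · simp only [add_re, add_im, sub_re, sub_im, ofReal_re, ofReal_im, mul_re, mul_im, I_re, I_im,
      mul_zero, mul_one, sub_zero, add_zero, zero_add, zero_sub] at hN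
    have h1 := Real.cosh_sq (Real.pi * h)
    have h2 := Real.sin_sq_add_cos_sq (Real.pi * s)
    have h3 : Real.cos (Real.pi * s) ^ 2 ≤ Real.sin (Real.pi * s) ^ 2 := by linarith only [hN,
                                                                              mul_nonneg (sq_nonneg (Real.cos (Real.pi * s))) (sub_nonneg.2 h1.le),
                                                                              mul_nonneg (sq_nonneg (Real.cos (Real.pi * s))) (sub_nonneg.2 h1.ge),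
                                                                              mul_nonneg (sq_nonneg (Real.sin (Real.pi * s))) (sub_nonneg.2 h1.le),
                                                                              mul_nonneg (sq_nonneg (Real.sin (Real.pi * s))) (sub_nonneg.2 h1.ge)]
    have h4 : Real.cos (2 * (Real.pi * s)) ≤ 0 := by
      rw [Real.cos_two_mul]
      linarith only [h3, h2]
    have h5 : 0 < Real.cos (2 * (Real.pi * s)) :=
      Real.cos_pos_of_mem_Ioo ⟨by linarith only [hpi, mul_pos (sub_pos.2 hs) (sub_pos.2 hpi)], by linarith only [mul_pos (sub_pos.2 hpi) (sub_pos.2 hlt)]⟩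
    linarith only [h5, h4]
  · rw [← fs_z]
    exact normSq_pos.mpr (fs_c0 h hs hs')

/-! ### The flat -/

/-- The condition of the strict flat theorem; `U = 1 / cos² π v`, `V = 1 / cos² π w`. -/
def FlatUV (U V : ℂ) : Prop :=
  0 < (U + V - 1).re ∧ 1 / 2 < U.re ∧ 1 / 2 < V.re ∧
    (‖U - V‖ ^ 2 * ‖U + V - 1‖ < 4 * (‖U‖ * ‖V‖) * (U + V - 1).re ∨
      (1 ≤ ‖U + V - 1‖ ∧ ‖U - V‖ ^ 2 * ‖U + V‖ < 4 * (‖U‖ * ‖V‖) * (U + V).re ∧
        ‖U + (starRingEnd ℂ) V‖ ^ 2 < 2 * (‖V‖ ^ 2 * U.re + ‖U‖ ^ 2 * V.re)))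

private theorem fs_half {p : ℂ} (hp0 : p ≠ 0) (h : 1 / 2 < (1 / p).re) : ‖p‖ ^ 2 < 2 * p.re := by
  have h1 : (1 / p).re = p.re / ‖p‖ ^ 2 := by
    rw [one_div, inv_re, normSq_eq_norm_sq]
  have h2 : 0 < ‖p‖ ^ 2 := by
    have := norm_pos_iff.mpr hp0
    positivity
  rw [h1, lt_div_iff₀ h2] at h
  linarith only [h]

private theorem fs_TT {p q : ℂ} (hp0 : p ≠ 0) (hq0 : q ≠ 0)
    (h : ‖1 / p + (starRingEnd ℂ) (1 / q)‖ ^ 2 <
      2 * (‖1 / q‖ ^ 2 * (1 / p).re + ‖1 / p‖ ^ 2 * (1 / q).re)) :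
    ‖p‖ ^ 2 + ‖q‖ ^ 2 < 2 * (p + q - p * q).re := by
  have h1 : 0 < ‖p‖ ^ 2 := by
    have := norm_pos_iff.mpr hp0
    positivity
  have h2 : 0 < ‖q‖ ^ 2 := by
    have := norm_pos_iff.mpr hq0
    positivity
  have e1 : (1 / p).re = p.re / ‖p‖ ^ 2 := by rw [one_div, inv_re, normSq_eq_norm_sq]
  have e2 : (1 / q).re = q.re / ‖q‖ ^ 2 := by rw [one_div, inv_re, normSq_eq_norm_sq]
  have e3 : ‖1 / p + (starRingEnd ℂ) (1 / q)‖ ^ 2 = ‖(starRingEnd ℂ) q + p‖ ^ 2 /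
      (‖p‖ ^ 2 * ‖q‖ ^ 2) := by
    have hq1 : (starRingEnd ℂ) q ≠ 0 := by
      intro h0
      exact hq0 (by simpa using congrArg (starRingEnd ℂ) h0)
    have : 1 / p + (starRingEnd ℂ) (1 / q) = ((starRingEnd ℂ) q + p) / (p * (starRingEnd ℂ) q) := by
      rw [map_div₀, map_one]
      field_simp
    rw [this, norm_div, norm_mul, norm_conj, div_pow, mul_pow]
  rw [e1, e2, e3, norm_div, norm_div, norm_one, div_pow, div_pow, one_pow] at h
  have h3 : 2 * (1 / ‖q‖ ^ 2 * (p.re / ‖p‖ ^ 2) + 1 / ‖p‖ ^ 2 * (q.re / ‖q‖ ^ 2)) =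
      2 * (p.re + q.re) / (‖p‖ ^ 2 * ‖q‖ ^ 2) := by
    field_simp
  rw [h3, div_lt_div_iff_of_pos_right (by positivity), ← normSq_eq_norm_sq, normSq_apply] at h
  rw [← normSq_eq_norm_sq, ← normSq_eq_norm_sq, normSq_apply, normSq_apply]
  simp only [add_re, add_im, sub_re, mul_re, conj_re, conj_im] at h ⊢
  linarith only [h]

/-- The sign of the derivative on the flat. -/
private theorem fs_all {v w : ℂ} {s h t : ℝ} (hs : 0 < s) (hs' : s < 1 / 2) (ht : 0 ≤ t)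
    (ht' : t ≤ 1 / 2) (hv : cos (Real.pi * v) ≠ 0) (hw : cos (Real.pi * w) ≠ 0)
    (hc : 1 / cos (Real.pi * ((s : ℂ) + h * I)) ^ 2 =
      1 / cos (Real.pi * v) ^ 2 + 1 / cos (Real.pi * w) ^ 2)
    (hF : FlatUV (1 / cos (Real.pi * v) ^ 2) (1 / cos (Real.pi * w) ^ 2)) :
    (t < s → ‖cos (Real.pi * ((t : ℂ) + h * I)) ^ 2 - cos (Real.pi * v) ^ 2‖ *
        ‖cos (Real.pi * ((t : ℂ) + h * I)) ^ 2 - cos (Real.pi * w) ^ 2‖ <
      ‖cos (Real.pi * ((t : ℂ) + h * I)) ^ 2‖ ^ 2) ∧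
    (s < t → ‖cos (Real.pi * ((t : ℂ) + h * I)) ^ 2‖ ^ 2 <
      ‖cos (Real.pi * ((t : ℂ) + h * I)) ^ 2 - cos (Real.pi * v) ^ 2‖ *
        ‖cos (Real.pi * ((t : ℂ) + h * I)) ^ 2 - cos (Real.pi * w) ^ 2‖) := by
  have hp0 : cos (Real.pi * v) ^ 2 ≠ 0 := pow_ne_zero 2 hv
  have hq0 : cos (Real.pi * w) ^ 2 ≠ 0 := pow_ne_zero 2 hw
  set p : ℂ := cos (Real.pi * v) ^ 2 with hp
  set q : ℂ := cos (Real.pi * w) ^ 2 with hq
  obtain ⟨hN, hU, hV, hF | ⟨hF1, hF2, hF3⟩⟩ := hF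
  · exact fs_mid hs hs' ht ht' hp0 hq0 hc (fs_nu hs hs' ht ht' hp0 hq0 hc hN.le hF)
  · have h4 := fs_quarter hs hs' hc hF1
    rcases le_total (1 / 2) (s + t) with h5 | h5
    · refine fs_mid hs hs' ht ht' hp0 hq0 hc (fs_mu hs hs' h5 ht' hp0 hq0 hc ?_ hF2)
      rw [sub_re, one_re] at hN
      linarith only [hN, hs', hs]
    · refine ⟨fun _ => fs_T h4 hs' ht h5 hp0 hq0 hc (fs_half hp0 hU) (fs_half hq0 hV)
        (fs_TT hp0 hq0 hF3), fun h6 => ?_⟩
      have h7 : t = 1 / 4 ∧ s = 1 / 4 := ⟨by linarith only [h6, h4, h5], by linarith only [h4, h6,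
                                                                              h5]⟩
      linarith only [h6, h5, h4]

/-- **The flat, strict form.** -/
theorem EE_flat_strict {v w : ℂ} {s h : ℝ} (hs : 0 < s) (hs' : s < 1 / 2)
    (hv : cos (Real.pi * v) ≠ 0) (hw : cos (Real.pi * w) ≠ 0)
    (hc : 1 / cos (Real.pi * ((s : ℂ) + h * I)) ^ 2 =
      1 / cos (Real.pi * v) ^ 2 + 1 / cos (Real.pi * w) ^ 2)
    (hF : FlatUV (1 / cos (Real.pi * v) ^ 2) (1 / cos (Real.pi * w) ^ 2)) :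
    (∀ a b : ℝ, 0 ≤ a → a < b → b ≤ s →
      EE (.op v) (.op w) ((a : ℂ) + h * I) < EE (.op v) (.op w) ((b : ℂ) + h * I)) ∧
    (∀ a b : ℝ, s ≤ a → a < b → b ≤ 1 / 2 →
      EE (.op v) (.op w) ((b : ℂ) + h * I) < EE (.op v) (.op w) ((a : ℂ) + h * I)) := by
  have key : ∀ (a b : ℝ) (f : ℝ → ℝ), a < b → IntervalIntegrable f volume a b →
      (∀ᵐ t : ℝ, t ∈ Ioo a b → 0 < f t) → 0 < ∫ t in a..b, f t := by
    intro a b f hab hf h1
    have h3 : ∀ᵐ t : ℝ ∂(volume.restrict (Ioc a b)), 0 < f t := by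
      rw [ae_restrict_iff' measurableSet_Ioc]
      have h2 : ∀ᵐ t : ℝ, t ≠ b := by
        rw [ae_iff]
        simp
      filter_upwards [h1, h2] with t ht ht2 hI
      exact ht ⟨hI.1, lt_of_le_of_ne hI.2 ht2⟩
    rw [intervalIntegral.integral_of_le hab.le]
    rw [MeasureTheory.integral_pos_iff_support_of_nonneg_ae (h3.mono fun t ht => ht.le)
      ((intervalIntegrable_iff_integrableOn_Ioc_of_le hab.le).mp hf)]
    have h4 : (Function.support f) =ᵐ[volume.restrict (Ioc a b)] Set.univ := by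
      filter_upwards [h3] with t ht
      simp only [eq_iff_iff]
      exact ⟨fun _ => trivial, fun _ => ht.ne'⟩
    rw [measure_congr h4, Measure.restrict_apply_univ, Real.volume_Ioc]
    simpa using hab
  constructor
  · intro a b ha hab hb
    have h0 : 0 < ∫ t in a..b, flatG v w h t := by
      apply key a b _ hab (flatG_int v w h a b)
      filter_upwards [flatG_ae v w h] with t ht hI
      obtain ⟨h1, h2, h3, h4⟩ := ht
      rw [h4, sub_pos]
      have := (fs_all hs hs' (ha.trans hI.1.le) ((hI.2.le.trans hb).trans hs'.le) hv hw hc hF).1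
        (hI.2.trans_le hb)
      exact Real.log_lt_log (mul_pos (norm_pos_iff.mpr h2) (norm_pos_iff.mpr h3)) this
    rw [← EE_sub_eq] at h0
    linarith only [h0]
  · intro a b ha hab hb
    have h0 : 0 < ∫ t in a..b, -flatG v w h t := by
      apply key a b (fun t => -flatG v w h t) hab (flatG_int v w h a b).neg
      filter_upwards [flatG_ae v w h] with t ht hI
      obtain ⟨h1, h2, h3, h4⟩ := ht
      rw [h4, neg_sub, sub_pos]
      have := (fs_all hs hs' ((hs.le.trans ha).trans hI.1.le) (hI.2.le.trans hb) hv hw hc hF).2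
        (ha.trans_lt hI.1)
      have h5 := norm_pos_iff.mpr h1
      have h6 : 0 < ‖cos (Real.pi * ((t : ℂ) + h * I)) ^ 2‖ := by
        rw [norm_pow]
        positivity
      exact Real.log_lt_log (by positivity) this
    rw [intervalIntegral.integral_neg, ← EE_sub_eq] at h0
    linarith only [h0]

/-- The growth rate on the flat is less than its value at the critical point. -/
theorem EE_flat_lt {v w : ℂ} {s h t : ℝ} (hs : 0 < s) (hs' : s < 1 / 2) (ht : 0 ≤ t)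
    (ht' : t ≤ 1 / 2) (hne : t ≠ s) (hv : cos (Real.pi * v) ≠ 0) (hw : cos (Real.pi * w) ≠ 0)
    (hc : 1 / cos (Real.pi * ((s : ℂ) + h * I)) ^ 2 =
      1 / cos (Real.pi * v) ^ 2 + 1 / cos (Real.pi * w) ^ 2)
    (hF : FlatUV (1 / cos (Real.pi * v) ^ 2) (1 / cos (Real.pi * w) ^ 2)) :
    EE (.op v) (.op w) ((t : ℂ) + h * I) < EE (.op v) (.op w) ((s : ℂ) + h * I) := by
  obtain ⟨h1, h2⟩ := EE_flat_strict hs hs' hv hw hc hF
  rcases lt_or_gt_of_ne hne with h3 | h3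
  · exact h1 t s ht h3 le_rfl
  · exact h2 s t le_rfl h3 ht'

end Pool.Agent.S3
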