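import Pool.Agent.S3.Q

/-!
# Stage 3: the Gudermann function `gd` on the strip `|Im u| < π/2`
`gd u = arctan (sinh u)`, derivative `1 / cosh u`, `tan (gd u) = sinh u`, `cos (gd u) = 1 / cosh u`,
`sin (gd u) = tanh u`.
-/

namespace Pool.Agent.S3

open Complex

/-- Gudermann function -/
noncomputable def gd (u : ℂ) : ℂ := -I * log ((1 + I * sinh u) / cosh u)

/-- the point `x + i t` -/
noncomputable def UU (x t : ℝ) : ℂ := (x : ℂ) + (t : ℂ) * I

@[simp] theorem UU_re (x t : ℝ) : (UU x t).re = x := by simp [UU]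
@[simp] theorem UU_im (x t : ℝ) : (UU x t).im = t := by simp [UU]

theorem UU_conj (x t : ℝ) : (starRingEnd ℂ) (UU x t) = UU x (-t) := by
  apply Complex.ext <;> simp

theorem UU_neg (x t : ℝ) : -UU x t = UU (-x) (-t) := by
  apply Complex.ext <;> simp

theorem UU_eta (z : ℂ) : UU z.re z.im = z := re_add_im z

theorem hasDerivAt_UU (x t : ℝ) : HasDerivAt (fun x : ℝ => UU x t) 1 x := by
  unfold UU
  exact (HasDerivAt.ofReal_comp (hasDerivAt_id x)).add_const _

theorem hasDerivAt_UU' (x t : ℝ) : HasDerivAt (fun t : ℝ => UU x t) I t := by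
  unfold UU
  have := ((HasDerivAt.ofReal_comp (hasDerivAt_id t)).mul_const I).const_add (x : ℂ)
  simpa using this

theorem Reg_UU {x t x' t' : ℝ} (h : |t| + |t'| < Real.pi / 2) : Reg (UU x t) (UU x' t') := by
  unfold Reg; simpa using h

/-- real part of `(1 + i sinh u) / cosh u` is positive -/
theorem gd_arg_re_pos {u : ℂ} (h : |u.im| < Real.pi / 2) :
    0 < ((1 + I * sinh u) / cosh u).re := by
  have hc := cosh_ne h
  rw [div_eq_mul_inv, inv_def, ← mul_assoc, re_mul_ofReal]
  apply mul_pos _ (inv_pos.2 (normSq_pos.2 hc))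
  rw [mul_re, conj_re, conj_im, add_re, add_im, one_re, one_im, mul_re, mul_im, I_re, I_im,
    cosh_re', cosh_im', sinh_re', sinh_im']
  have h1 := Real.cosh_sq u.re
  have h2 := cos_pos' h
  have h3 := Real.cosh_pos u.re
  -- the value is `cosh x cos t - cos t sin t = cos t (cosh x - sin t)`
  have e : (1 + (0 * (Real.sinh u.re * Real.cos u.im) - 1 * (Real.cosh u.re * Real.sin u.im)))
        * (Real.cosh u.re * Real.cos u.im)
      - (0 + (0 * (Real.cosh u.re * Real.sin u.im) + 1 * (Real.sinh u.re * Real.cos u.im)))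
        * -(Real.sinh u.re * Real.sin u.im)
      = Real.cos u.im * (Real.cosh u.re - Real.sin u.im) := by
    linear_combination (-(Real.cos u.im * Real.sin u.im)) * h1
  rw [e]
  apply mul_pos h2
  have h4 : Real.sin u.im < 1 := by
    have h5 := Real.sin_sq_add_cos_sq u.im
    nlinarith [Real.sin_le_one u.im]
  have := Real.one_le_cosh u.re
  linarith

theorem gd_arg_ne {u : ℂ} (h : |u.im| < Real.pi / 2) : (1 + I * sinh u) / cosh u ≠ 0 := by
  intro h0
  have := gd_arg_re_pos h
  rw [h0] at this; simp at this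

theorem exp_gd {u : ℂ} (h : |u.im| < Real.pi / 2) :
    exp (I * gd u) = (1 + I * sinh u) / cosh u := by
  rw [gd]
  have : I * (-I * log ((1 + I * sinh u) / cosh u)) = log ((1 + I * sinh u) / cosh u) := by
    linear_combination (-log ((1 + I * sinh u) / cosh u)) * I_mul_I
  rw [this, exp_log (gd_arg_ne h)]

theorem exp_neg_gd {u : ℂ} (h : |u.im| < Real.pi / 2) :
    exp (-(I * gd u)) = (1 - I * sinh u) / cosh u := by
  rw [exp_neg, exp_gd h]
  have hc := cosh_ne h
  have h1 := gd_arg_ne h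
  have h2 : (1 + I * sinh u) ≠ 0 := by
    intro h0; apply h1; rw [h0, zero_div]
  apply inv_eq_of_mul_eq_one_right
  have h3 := cosh_sq u
  field_simp
  linear_combination -h3 - (sinh u) ^ 2 * I_sq

theorem cos_gd {u : ℂ} (h : |u.im| < Real.pi / 2) : cos (gd u) = 1 / cosh u := by
  have hc := cosh_ne h
  rw [Complex.cos, mul_comm (gd u) I, exp_gd h, neg_mul, mul_comm (gd u) I, exp_neg_gd h]
  field_simp
  ring

theorem sin_gd {u : ℂ} (h : |u.im| < Real.pi / 2) : sin (gd u) = tanh u := by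
  have hc := cosh_ne h
  rw [Complex.sin, neg_mul, mul_comm (gd u) I, exp_gd h, exp_neg_gd h, tanh_eq_sinh_div_cosh]
  field_simp
  linear_combination (-2 * sinh u) * I_sq

theorem tan_gd {u : ℂ} (h : |u.im| < Real.pi / 2) : tan (gd u) = sinh u := by
  have hc := cosh_ne h
  rw [Complex.tan, sin_gd h, cos_gd h, tanh_eq_sinh_div_cosh]
  field_simp

theorem hasDerivAt_gd {u : ℂ} (h : |u.im| < Real.pi / 2) : HasDerivAt gd (1 / cosh u) u := by
  have hc := cosh_ne h
  have h1 : HasDerivAt (fun u => (1 + I * sinh u) / cosh u)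
      ((I * cosh u * cosh u - (1 + I * sinh u) * sinh u) / cosh u ^ 2) u :=
    (((Complex.hasDerivAt_sinh u).const_mul I).const_add 1).div (Complex.hasDerivAt_cosh u) hc
  have h2 := (h1.clog (mem_slitPlane_iff.2 (Or.inl (gd_arg_re_pos h)))).const_mul (-I)
  have h3 : (1 + I * sinh u) ≠ 0 := by
    intro h0; apply gd_arg_ne h; rw [h0, zero_div]
  refine h2.congr_deriv ?_
  have h4 := cosh_sq u
  field_simp
  linear_combination (-I * I) * h4 - (1 + I * sinh u) * I_sq + (I * sinh u) * I_sq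

theorem gd_zero : gd 0 = 0 := by simp [gd]

theorem gd_re_lt {u : ℂ} (h : |u.im| < Real.pi / 2) : |(gd u).re| < Real.pi / 2 := by
  have h1 : (gd u).re = ((1 + I * sinh u) / cosh u).arg := by
    rw [gd, mul_re, neg_re, neg_im, I_re, I_im, log_im]; ring
  rw [h1]
  exact abs_arg_lt_pi_div_two_iff.2 (Or.inl (gd_arg_re_pos h))

/-- derivative of `gd` on a line -/
theorem hasDerivAt_gd_line {x t : ℝ} (h : |t| < Real.pi / 2) :
    HasDerivAt (fun x : ℝ => gd (UU x t)) (1 / cosh (UU x t)) x := by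
  have h' : |(UU x t).im| < Real.pi / 2 := by simpa using h
  have := HasDerivAt.scomp (g₁ := gd) (h := fun x : ℝ => UU x t) x (hasDerivAt_gd h')
    (hasDerivAt_UU x t)
  rwa [one_smul] at this

theorem gd_neg {u : ℂ} (h : |u.im| < Real.pi / 2) : gd (-u) = -gd u := by
  have h' : |(-u).im| < Real.pi / 2 := by rwa [neg_im, abs_neg]
  have h1 : exp (I * gd (-u)) = exp (-(I * gd u)) := by
    rw [exp_gd h', exp_neg_gd h, sinh_neg, cosh_neg]; ring
  have hl : ∀ v : ℂ, |v.im| < Real.pi / 2 → log (exp (I * gd v)) = I * gd v := by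
    intro v hv
    have := gd_re_lt hv
    rw [abs_lt] at this
    apply log_exp
    · rw [mul_im, I_re, I_im]; linarith [Real.pi_pos]
    · rw [mul_im, I_re, I_im]; linarith [Real.pi_pos]
  have h2 : log (exp (-(I * gd u))) = -(I * gd u) := by
    have := gd_re_lt h
    rw [abs_lt] at this
    apply log_exp
    · rw [neg_im, mul_im, I_re, I_im]; linarith [Real.pi_pos]
    · rw [neg_im, mul_im, I_re, I_im]; linarith [Real.pi_pos]
  have h3 := congrArg log h1
  rw [hl _ h', h2] at h3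
  have h4 := congrArg (fun z => -I * z) h3
  have e1 : -I * (I * gd (-u)) = gd (-u) := by linear_combination (-gd (-u)) * I_mul_I
  have e2 : -I * (-(I * gd u)) = -gd u := by linear_combination (gd u) * I_mul_I
  rw [← e1, ← e2]
  exact h4

theorem conj_sinh' (u : ℂ) : (starRingEnd ℂ) (sinh u) = sinh ((starRingEnd ℂ) u) :=
  (sinh_conj u).symm

theorem conj_cosh' (u : ℂ) : (starRingEnd ℂ) (cosh u) = cosh ((starRingEnd ℂ) u) :=
  (cosh_conj u).symm

theorem csq_conj {z : ℂ} (h : 1 + z ^ 2 ∈ slitPlane) :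
    csq ((starRingEnd ℂ) z) = (starRingEnd ℂ) (csq z) := by
  have h2 : 1 + (starRingEnd ℂ) z ^ 2 ∈ slitPlane := by
    have : 1 + (starRingEnd ℂ) z ^ 2 = (starRingEnd ℂ) (1 + z ^ 2) := by simp
    rw [this, mem_slitPlane_iff, conj_re, conj_im]
    rw [mem_slitPlane_iff] at h
    rcases h with h | h
    · exact Or.inl h
    · exact Or.inr (neg_ne_zero.2 h)
  apply eq_of_sq
  · rw [csq_sq, ← map_pow (starRingEnd ℂ) (csq z) 2, csq_sq]; simp
  · exact csq_re_pos h2
  · rw [conj_re]; exact csq_re_pos h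

theorem arsh_conj {z : ℂ} (h : 1 + z ^ 2 ∈ slitPlane) :
    arsh ((starRingEnd ℂ) z) = (starRingEnd ℂ) (arsh z) := by
  rw [arsh_def, arsh_def, csq_conj h, ← map_add, log_conj]
  intro h0
  have h1 := arsh_im_lt h
  rw [arsh_def, log_im, h0] at h1
  rw [abs_of_pos Real.pi_pos] at h1
  linarith [Real.pi_pos]

theorem arsh_neg {z : ℂ} (h : 1 + z ^ 2 ∈ slitPlane) : arsh (-z) = -arsh z := by
  symm
  apply eq_arsh
  · rw [sinh_neg, sinh_arsh]
  · rw [neg_im, abs_neg]; exact arsh_im_lt h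

theorem qq_conj {u w : ℂ} (h : Reg u w) :
    qq ((starRingEnd ℂ) u) ((starRingEnd ℂ) w) = (starRingEnd ℂ) (qq u w) := by
  rw [qq, qq, ← arsh_conj (slit h), map_div₀, conj_sinh', conj_cosh']

theorem qq_neg_left {u w : ℂ} (h : Reg u w) : qq (-u) w = -qq u w := by
  rw [qq, qq, ← arsh_neg (slit h), sinh_neg, neg_div]

theorem qq_neg_right (u w : ℂ) : qq u (-w) = qq u w := by
  rw [qq, qq, cosh_neg]

theorem gd_conj {u : ℂ} (h : |u.im| < Real.pi / 2) :
    gd ((starRingEnd ℂ) u) = (starRingEnd ℂ) (gd u) := by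
  have hu : |((starRingEnd ℂ) u).im| < Real.pi / 2 := by rwa [conj_im, abs_neg]
  have h1 : (starRingEnd ℂ) ((1 + I * sinh u) / cosh u)
      = exp (-(I * gd ((starRingEnd ℂ) u))) := by
    rw [exp_neg_gd hu, map_div₀, map_add, map_mul, map_one, conj_I, conj_sinh', conj_cosh']
    ring
  have h2 : log (exp (-(I * gd ((starRingEnd ℂ) u)))) = -(I * gd ((starRingEnd ℂ) u)) := by
    have := gd_re_lt hu
    rw [abs_lt] at this
    apply log_exp
    · rw [neg_im, mul_im, I_re, I_im]; linarith [Real.pi_pos]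
    · rw [neg_im, mul_im, I_re, I_im]; linarith [Real.pi_pos]
  have h3 : log ((starRingEnd ℂ) ((1 + I * sinh u) / cosh u))
      = (starRingEnd ℂ) (log ((1 + I * sinh u) / cosh u)) := by
    apply log_conj
    have h4 : |((1 + I * sinh u) / cosh u).arg| < Real.pi / 2 :=
      abs_arg_lt_pi_div_two_iff.2 (Or.inl (gd_arg_re_pos h))
    intro h0
    rw [h0, abs_of_pos Real.pi_pos] at h4
    linarith [Real.pi_pos]
  rw [h1, h2] at h3
  have e : (starRingEnd ℂ) (gd u) = I * (starRingEnd ℂ) (log ((1 + I * sinh u) / cosh u)) := by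
    rw [gd, map_mul, map_neg, conj_I, neg_neg]
  rw [e, ← h3]
  linear_combination (gd ((starRingEnd ℂ) u)) * I_mul_I

end Pool.Agent.S3
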