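import Mathlib

/-!
# Interval arithmetic by kernel evaluation

Intervals have integer end points, in units of `2 ^ (-30)`. `bb` is a branch and bound over boxes of
up to five variables.
-/

namespace Pool.Agent.S3.IA

/-- The unit. -/
def U : ℤ := 1073741824

theorem U_pos : (0 : ℝ) < (U : ℝ) := by norm_num [U]

theorem U_posZ : (0 : ℤ) < U := by decide

/-- Intervals with integer end points. -/
structure Iv where
  lo : ℤ
  hi : ℤ

/-- `x` lies in the interval. -/
def Mem (x : ℝ) (A : Iv) : Prop := (A.lo : ℝ) ≤ x * U ∧ x * U ≤ (A.hi : ℝ)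

/-- floor of `n / U`. -/
def fl (n : ℤ) : ℤ := n / U

/-- ceiling of `n / U`. -/
def ce (n : ℤ) : ℤ := -((-n) / U)

theorem fl_le (n : ℤ) : ((fl n : ℤ) : ℝ) * U ≤ n := by
  have h := Int.ediv_mul_le n (show (U : ℤ) ≠ 0 by decide)
  unfold fl
  exact_mod_cast h

theorem le_ce (n : ℤ) : (n : ℝ) ≤ ((ce n : ℤ) : ℝ) * U := by
  have h := Int.ediv_mul_le (-n) (show (U : ℤ) ≠ 0 by decide)
  unfold ce
  have h2 : n ≤ -(-n / U) * U := by linarith
  exact_mod_cast h2

def Iv.add (A B : Iv) : Iv := ⟨A.lo + B.lo, A.hi + B.hi⟩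
def Iv.neg (A : Iv) : Iv := ⟨-A.hi, -A.lo⟩
def Iv.sub (A B : Iv) : Iv := ⟨A.lo - B.hi, A.hi - B.lo⟩
/-- multiplication by an integer `n ≥ 0`. -/
def Iv.smul (n : ℕ) (A : Iv) : Iv := ⟨n * A.lo, n * A.hi⟩

/-- min of four. -/
def mn4 (a b c d : ℤ) : ℤ := min (min a b) (min c d)
def mx4 (a b c d : ℤ) : ℤ := max (max a b) (max c d)

def Iv.mul (A B : Iv) : Iv :=
  ⟨fl (mn4 (A.lo * B.lo) (A.lo * B.hi) (A.hi * B.lo) (A.hi * B.hi)),
   ce (mx4 (A.lo * B.lo) (A.lo * B.hi) (A.hi * B.lo) (A.hi * B.hi))⟩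

/-- product of two nonnegative intervals (checked by `Iv.nn`). -/
def Iv.mulp (A B : Iv) : Iv := ⟨fl (A.lo * B.lo), ce (A.hi * B.hi)⟩

def Iv.nn (A : Iv) : Bool := decide (0 ≤ A.lo)
def Iv.ps (A : Iv) : Bool := decide (0 < A.lo)

/-- inverse of a positive interval. -/
def Iv.inv (A : Iv) : Iv := ⟨U * U / A.hi, -((-(U * U)) / A.lo)⟩

def Iv.le (A B : Iv) : Bool := decide (A.hi ≤ B.lo)
def Iv.lt (A B : Iv) : Bool := decide (A.hi < B.lo)

/-- A rational constant `n / d`. -/
def cst (n : ℤ) (d : ℕ) : Iv := ⟨n * U / d, -((-(n * U)) / d)⟩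

theorem Mem.add {x y : ℝ} {A B : Iv} (h1 : Mem x A) (h2 : Mem y B) : Mem (x + y) (A.add B) := by
  unfold Mem Iv.add at *
  push_cast
  constructor <;> nlinarith [h1.1, h1.2, h2.1, h2.2]

theorem Mem.neg {x : ℝ} {A : Iv} (h1 : Mem x A) : Mem (-x) (A.neg) := by
  unfold Mem Iv.neg at *
  push_cast
  constructor <;> nlinarith [h1.1, h1.2]

theorem Mem.sub {x y : ℝ} {A B : Iv} (h1 : Mem x A) (h2 : Mem y B) : Mem (x - y) (A.sub B) := by
  unfold Mem Iv.sub at *
  push_cast
  constructor <;> nlinarith [h1.1, h1.2, h2.1, h2.2]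

theorem Mem.smul {x : ℝ} {A : Iv} (n : ℕ) (h1 : Mem x A) : Mem (n * x) (A.smul n) := by
  unfold Mem Iv.smul at *
  push_cast
  have hn : (0 : ℝ) ≤ n := n.cast_nonneg
  constructor <;> nlinarith [mul_le_mul_of_nonneg_left h1.1 hn, mul_le_mul_of_nonneg_left h1.2 hn]

theorem mem_of_scaled {x : ℝ} {p q : ℤ} (h1 : (p : ℝ) ≤ x * U * U) (h2 : x * U * U ≤ (q : ℝ)) :
    Mem x ⟨fl p, ce q⟩ := by
  have hU := U_pos
  constructor
  · have := fl_le p
    show ((fl p : ℤ) : ℝ) ≤ x * U
    nlinarith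
  · have := le_ce q
    show x * U ≤ ((ce q : ℤ) : ℝ)
    nlinarith

theorem mul_bounds {x y a b c d : ℝ} (h1 : a ≤ x) (h2 : x ≤ b) (h3 : c ≤ y) (h4 : y ≤ d) :
    min (min (a * c) (a * d)) (min (b * c) (b * d)) ≤ x * y ∧
      x * y ≤ max (max (a * c) (a * d)) (max (b * c) (b * d)) := by
  constructor
  · rcases le_total 0 y with hy | hy
    · have e1 : a * y ≤ x * y := mul_le_mul_of_nonneg_right h1 hy
      rcases le_total 0 a with ha | ha
      · have : a * c ≤ a * y := mul_le_mul_of_nonneg_left h3 ha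
        exact (min_le_left _ _).trans ((min_le_left _ _).trans (this.trans e1))
      · have : a * d ≤ a * y := mul_le_mul_of_nonpos_left h4 ha
        exact (min_le_left _ _).trans ((min_le_right _ _).trans (this.trans e1))
    · have e1 : b * y ≤ x * y := mul_le_mul_of_nonpos_right h2 hy
      rcases le_total 0 b with ha | ha
      · have : b * c ≤ b * y := mul_le_mul_of_nonneg_left h3 ha
        exact (min_le_right _ _).trans ((min_le_left _ _).trans (this.trans e1))
      · have : b * d ≤ b * y := mul_le_mul_of_nonpos_left h4 ha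
        exact (min_le_right _ _).trans ((min_le_right _ _).trans (this.trans e1))
  · rcases le_total 0 y with hy | hy
    · have e1 : x * y ≤ b * y := mul_le_mul_of_nonneg_right h2 hy
      rcases le_total 0 b with ha | ha
      · have : b * y ≤ b * d := mul_le_mul_of_nonneg_left h4 ha
        exact (e1.trans this).trans ((le_max_right _ _).trans (le_max_right _ _))
      · have : b * y ≤ b * c := mul_le_mul_of_nonpos_left h3 ha
        exact (e1.trans this).trans ((le_max_left _ _).trans (le_max_right _ _))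
    · have e1 : x * y ≤ a * y := mul_le_mul_of_nonpos_right h1 hy
      rcases le_total 0 a with ha | ha
      · have : a * y ≤ a * d := mul_le_mul_of_nonneg_left h4 ha
        exact (e1.trans this).trans ((le_max_right _ _).trans (le_max_left _ _))
      · have : a * y ≤ a * c := mul_le_mul_of_nonpos_left h3 ha
        exact (e1.trans this).trans ((le_max_left _ _).trans (le_max_left _ _))

theorem Mem.mul {x y : ℝ} {A B : Iv} (h1 : Mem x A) (h2 : Mem y B) : Mem (x * y) (A.mul B) := by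
  have h := mul_bounds h1.1 h1.2 h2.1 h2.2
  apply mem_of_scaled
  · have e : x * y * U * U = x * U * (y * U) := by ring
    rw [e]
    refine le_trans (le_of_eq ?_) h.1
    simp only [mn4]
    push_cast
    rfl
  · have e : x * y * U * U = x * U * (y * U) := by ring
    rw [e]
    refine le_trans h.2 (le_of_eq ?_)
    simp only [mx4]
    push_cast
    rfl

theorem Mem.mulp {x y : ℝ} {A B : Iv} (h1 : Mem x A) (h2 : Mem y B) (hA : A.nn = true)
    (hB : B.nn = true) : Mem (x * y) (A.mulp B) := by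
  have a0 : (0 : ℝ) ≤ A.lo := by
    have : (0 : ℤ) ≤ A.lo := of_decide_eq_true hA
    exact_mod_cast this
  have b0 : (0 : ℝ) ≤ B.lo := by
    have : (0 : ℤ) ≤ B.lo := of_decide_eq_true hB
    exact_mod_cast this
  apply mem_of_scaled
  · have e : x * y * U * U = x * U * (y * U) := by ring
    rw [e]
    push_cast
    exact mul_le_mul h1.1 h2.1 b0 (a0.trans h1.1)
  · have e : x * y * U * U = x * U * (y * U) := by ring
    rw [e]
    push_cast
    exact mul_le_mul h1.2 h2.2 (b0.trans h2.1) (a0.trans (h1.1.trans h1.2))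

theorem Mem.inv {x : ℝ} {A : Iv} (h1 : Mem x A) (hA : A.ps = true) : Mem x⁻¹ A.inv := by
  have a0Z : (0 : ℤ) < A.lo := of_decide_eq_true hA
  have a0 : (0 : ℝ) < A.lo := by exact_mod_cast a0Z
  have hU := U_pos
  have hx : 0 < x * U := a0.trans_le h1.1
  have hx0 : 0 < x := by
    by_contra hc
    push Not at hc
    nlinarith
  have hhi : (0 : ℝ) < A.hi := hx.trans_le h1.2
  have hhiZ : (0 : ℤ) < A.hi := by exact_mod_cast hhi
  constructor
  · show ((U * U / A.hi : ℤ) : ℝ) ≤ x⁻¹ * U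
    have h := Int.ediv_mul_le (U * U) (ne_of_gt hhiZ)
    have h' : ((U * U / A.hi : ℤ) : ℝ) * A.hi ≤ (U : ℝ) * U := by exact_mod_cast h
    have h0 : (0 : ℝ) ≤ ((U * U / A.hi : ℤ) : ℝ) := by
      have : (0 : ℤ) ≤ U * U / A.hi := Int.ediv_nonneg (by decide) hhiZ.le
      exact_mod_cast this
    rw [inv_mul_eq_div, le_div_iff₀ hx0]
    have h2 : ((U * U / A.hi : ℤ) : ℝ) * (x * U) ≤ (U : ℝ) * U :=
      (mul_le_mul_of_nonneg_left h1.2 h0).trans h'
    nlinarith
  · show x⁻¹ * U ≤ ((-((-(U * U)) / A.lo) : ℤ) : ℝ)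
    have h := Int.ediv_mul_le (-(U * U)) (ne_of_gt a0Z)
    have h' : ((-(U * U) / A.lo : ℤ) : ℝ) * A.lo ≤ -((U : ℝ) * U) := by exact_mod_cast h
    have h0 : (0 : ℝ) ≤ ((-((-(U * U)) / A.lo) : ℤ) : ℝ) := by
      push_cast
      nlinarith
    rw [inv_mul_eq_div, div_le_iff₀ hx0]
    have h2 : (U : ℝ) * U ≤ ((-((-(U * U)) / A.lo) : ℤ) : ℝ) * A.lo := by
      push_cast
      linarith
    have h3 : ((-((-(U * U)) / A.lo) : ℤ) : ℝ) * A.lo ≤
        ((-((-(U * U)) / A.lo) : ℤ) : ℝ) * (x * U) := mul_le_mul_of_nonneg_left h1.1 h0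
    nlinarith

theorem Mem.le {x y : ℝ} {A B : Iv} (h1 : Mem x A) (h2 : Mem y B) (h : A.le B = true) : x ≤ y := by
  have hU := U_pos
  have : A.hi ≤ B.lo := of_decide_eq_true h
  have h' : (A.hi : ℝ) ≤ B.lo := by exact_mod_cast this
  have := h1.2
  have := h2.1
  nlinarith

theorem Mem.lt {x y : ℝ} {A B : Iv} (h1 : Mem x A) (h2 : Mem y B) (h : A.lt B = true) : x < y := by
  have hU := U_pos
  have : A.hi < B.lo := of_decide_eq_true h
  have h' : (A.hi : ℝ) < B.lo := by exact_mod_cast this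
  have := h1.2
  have := h2.1
  nlinarith

theorem Mem.pos {x : ℝ} {A : Iv} (h1 : Mem x A) (h : A.ps = true) : 0 < x := by
  have hU := U_pos
  have : 0 < A.lo := of_decide_eq_true h
  have h' : (0 : ℝ) < A.lo := by exact_mod_cast this
  have := h1.1
  by_contra hc
  push Not at hc
  nlinarith

theorem Mem.nonneg {x : ℝ} {A : Iv} (h1 : Mem x A) (h : A.nn = true) : 0 ≤ x := by
  have hU := U_pos
  have : 0 ≤ A.lo := of_decide_eq_true h
  have h' : (0 : ℝ) ≤ A.lo := by exact_mod_cast this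
  have := h1.1
  by_contra hc
  push Not at hc
  nlinarith

theorem mem_cst (n : ℤ) {d : ℕ} (hd : 0 < d) : Mem ((n : ℝ) / d) (cst n d) := by
  have hU := U_pos
  have hdR : (0 : ℝ) < d := by exact_mod_cast hd
  have hdZ : (d : ℤ) ≠ 0 := by exact_mod_cast hd.ne'
  constructor
  · show ((n * U / d : ℤ) : ℝ) ≤ (n : ℝ) / d * U
    have h := Int.ediv_mul_le (n * U) hdZ
    have h' : ((n * U / d : ℤ) : ℝ) * d ≤ (n : ℝ) * U := by exact_mod_cast h
    rw [div_mul_eq_mul_div, le_div_iff₀ hdR]
    exact h'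
  · show (n : ℝ) / d * U ≤ ((-((-(n * U)) / d) : ℤ) : ℝ)
    have h := Int.ediv_mul_le (-(n * U)) hdZ
    have h' : ((-(n * U) / d : ℤ) : ℝ) * d ≤ -((n : ℝ) * U) := by exact_mod_cast h
    rw [div_mul_eq_mul_div, div_le_iff₀ hdR]
    push_cast at h' ⊢
    linarith

/-- the interval from `n₁ / d` to `n₂ / d`. -/
def rng (n₁ n₂ : ℤ) (d : ℕ) : Iv := ⟨n₁ * U / d, -((-(n₂ * U)) / d)⟩

theorem mem_rng {x : ℝ} {n₁ n₂ : ℤ} {d : ℕ} (hd : 0 < d) (h1 : (n₁ : ℝ) / d ≤ x)
    (h2 : x ≤ (n₂ : ℝ) / d) : Mem x (rng n₁ n₂ d) := by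
  have hU := U_pos
  have a := (mem_cst n₁ hd).1
  have b := (mem_cst n₂ hd).2
  constructor
  · exact a.trans (mul_le_mul_of_nonneg_right h1 hU.le)
  · exact (mul_le_mul_of_nonneg_right h2 hU.le).trans b

/-! ### Branch and bound -/

def Iv.mid (A : Iv) : ℤ := (A.lo + A.hi) / 2
def Iv.lf (A : Iv) : Iv := ⟨A.lo, A.mid⟩
def Iv.rt (A : Iv) : Iv := ⟨A.mid, A.hi⟩

theorem Mem.split {x : ℝ} {A : Iv} (h : Mem x A) : Mem x A.lf ∨ Mem x A.rt := by
  rcases le_total (x * U) (A.mid : ℝ) with h1 | h1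
  · exact Or.inl ⟨h.1, h1⟩
  · exact Or.inr ⟨h1, h.2⟩

/-- Branch and bound; the list gives the coordinates to split. -/
def bb (test : Iv → Iv → Iv → Iv → Iv → Bool) : List ℕ → Iv → Iv → Iv → Iv → Iv → Bool
  | [], A, B, C, D, E => test A B C D E
  | k :: ks, A, B, C, D, E => test A B C D E ||
      match k with
      | 0 => bb test ks A.lf B C D E && bb test ks A.rt B C D E
      | 1 => bb test ks A B.lf C D E && bb test ks A B.rt C D E
      | 2 => bb test ks A B C.lf D E && bb test ks A B C.rt D E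
      | 3 => bb test ks A B C D.lf E && bb test ks A B C D.rt E
      | _ => bb test ks A B C D E.lf && bb test ks A B C D E.rt

theorem bb_sound {test : Iv → Iv → Iv → Iv → Iv → Bool} {P : ℝ → ℝ → ℝ → ℝ → ℝ → Prop}
    (hs : ∀ A B C D E, test A B C D E = true → ∀ a b c d e, Mem a A → Mem b B → Mem c C → Mem d D →
      Mem e E → P a b c d e) (l : List ℕ) :
    ∀ A B C D E, bb test l A B C D E = true → ∀ a b c d e, Mem a A → Mem b B → Mem c C → Mem d D →
      Mem e E → P a b c d e := by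
  induction l with
  | nil => intro A B C D E h; exact hs A B C D E h
  | cons k ks ih =>
    intro A B C D E h a b c d e ha hb hc hd he
    rcases k with _ | _ | _ | _ | k
    · have h : (test A B C D E || (bb test ks A.lf B C D E && bb test ks A.rt B C D E)) = true := h
      rw [Bool.or_eq_true, Bool.and_eq_true] at h
      rcases h with h | h
      · exact hs A B C D E h a b c d e ha hb hc hd he
      · rcases ha.split with h1 | h1
        · exact ih _ _ _ _ _ h.1 a b c d e h1 hb hc hd he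
        · exact ih _ _ _ _ _ h.2 a b c d e h1 hb hc hd he
    · have h : (test A B C D E || (bb test ks A B.lf C D E && bb test ks A B.rt C D E)) = true := h
      rw [Bool.or_eq_true, Bool.and_eq_true] at h
      rcases h with h | h
      · exact hs A B C D E h a b c d e ha hb hc hd he
      · rcases hb.split with h1 | h1
        · exact ih _ _ _ _ _ h.1 a b c d e ha h1 hc hd he
        · exact ih _ _ _ _ _ h.2 a b c d e ha h1 hc hd he
    · have h : (test A B C D E || (bb test ks A B C.lf D E && bb test ks A B C.rt D E)) = true := h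
      rw [Bool.or_eq_true, Bool.and_eq_true] at h
      rcases h with h | h
      · exact hs A B C D E h a b c d e ha hb hc hd he
      · rcases hc.split with h1 | h1
        · exact ih _ _ _ _ _ h.1 a b c d e ha hb h1 hd he
        · exact ih _ _ _ _ _ h.2 a b c d e ha hb h1 hd he
    · have h : (test A B C D E || (bb test ks A B C D.lf E && bb test ks A B C D.rt E)) = true := h
      rw [Bool.or_eq_true, Bool.and_eq_true] at h
      rcases h with h | h
      · exact hs A B C D E h a b c d e ha hb hc hd he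
      · rcases hd.split with h1 | h1
        · exact ih _ _ _ _ _ h.1 a b c d e ha hb hc h1 he
        · exact ih _ _ _ _ _ h.2 a b c d e ha hb hc h1 he
    · have h : (test A B C D E || (bb test ks A B C D E.lf && bb test ks A B C D E.rt)) = true := h
      rw [Bool.or_eq_true, Bool.and_eq_true] at h
      rcases h with h | h
      · exact hs A B C D E h a b c d e ha hb hc hd he
      · rcases he.split with h1 | h1
        · exact ih _ _ _ _ _ h.1 a b c d e ha hb hc hd h1
        · exact ih _ _ _ _ _ h.2 a b c d e ha hb hc hd h1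

end Pool.Agent.S3.IA
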