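import Pool.Agent.S3.Asm.Def
import Pool.Agent.S3.Ctr

/-! # The main part of the invariant as an integral over the open vertices -/

namespace Pool.Agent.S3

open Pool.Agent.H63.VC hiding ext
open Pool.Agent.H63.VC3 Pool.Agent.H63.VC4 Pool.Agent.H63.VC6 Pool.Agent.H63.VC7 Complex
open Pool.Agent.H25.RK MeasureTheory
open scoped BigOperators

variable {m : ℕ}

/-- The integrand of a node. -/
private noncomputable def JInt_F (r : ℝ) (γ γ' : ℝ → ℂ) (M : ℕ) (A : Finset (Fin m))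
    (k : Fin m → ℕ) (x : ℝ) : ℂ :=
  gvx r γ γ' M x * ∏ j ∈ A, qc M (k j) (γ x)

private theorem JInt_F_eq (r : ℝ) (γ γ' : ℝ → ℂ) (M : ℕ) (A : Finset (Fin m)) (k : Fin m → ℕ)
    (x : ℝ) : JInt_F r γ γ' M A k x = NT r M A k (γ x) * om 2 M (γ x) * γ' x := by
  unfold JInt_F gvx NT
  ring

private theorem JInt_F_integrable (r : ℝ) {γ γ' : ℝ → ℂ} (h : Ctr γ γ') {M : ℕ}
    (hM : 0 < M) (A : Finset (Fin m)) (k : Fin m → ℕ) : Integrable (JInt_F r γ γ' M A k) := by
  have e : JInt_F r γ γ' M A k = fun x => NT r M A k (γ x) * om 2 M (γ x) * γ' x :=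
    funext fun x => JInt_F_eq r γ γ' M A k x
  rw [e]
  exact NTom_integrable r hM A k h

private theorem JInt_DG (r : ℝ) {γ γ' : ℝ → ℂ} (h : Ctr γ γ') {M : ℕ}
    (hM : 0 < M) (A : Finset (Fin m)) (k : Fin m → ℕ) :
    DG r M A k = (-(4 * Real.pi * I) * M ^ 2) * ∫ x, JInt_F r γ γ' M A k x := by
  rw [DG_ctr r hM A k h]
  simp only [JInt_F_eq]

/-- The slots at a vertex. -/
private noncomputable def JInt_P (Op : Finset (Fin (m + 1))) (s : Fin (m + 1) → ℤ)
    (γ : Fin (m + 1) → ℝ → ℂ) (M : ℕ) (k : Fin m → ℕ) (x : Op → ℝ) : ℂ :=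
  ∏ i, ∏ j ∈ inc (Fin.castSucc (n := m)) Fin.succ i, sk M (k j) (slx Op s γ x i)

/-- The term of the multi-index `k`. -/
private noncomputable def JInt_G (r : Fin (m + 1) → ℝ) (Op : Finset (Fin (m + 1)))
    (s : Fin (m + 1) → ℤ) (γ γ' : Fin (m + 1) → ℝ → ℂ) (M : ℕ) (k : Fin m → ℕ) (x : Op → ℝ) : ℂ :=
  (∏ i : Op, gvx (r i) (γ i) (γ' i) M (x i)) * JInt_P Op s γ M k x

private theorem JInt_G_eq (r : Fin (m + 1) → ℝ) (Op : Finset (Fin (m + 1)))
    (s : Fin (m + 1) → ℤ) (γ γ' : Fin (m + 1) → ℝ → ℂ) (h : ChD r Op s γ γ') (M : ℕ)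
    (hcl : ∀ i ∉ Op, ∀ (j : Fin m) (k : Fin m → ℕ), (∀ j, k j < M) →
      DG (r i) M {j} k = sk M (k j) (.cl (s i))) (k : Fin m → ℕ) (hk : ∀ j, k j < M)
    (x : Op → ℝ) :
    JInt_G r Op s γ γ' M k x = (∏ i : Op, JInt_F (r i) (γ i) (γ' i) M
      (inc (Fin.castSucc (n := m)) Fin.succ (i : Fin (m + 1))) k (x i)) *
        ∏ i ∈ Opᶜ, DG (r i) M (inc (Fin.castSucc (n := m)) Fin.succ i) k := by
  unfold JInt_G JInt_P JInt_F
  rw [Finset.prod_mul_distrib, mul_assoc]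
  congr 1
  rw [← Finset.prod_mul_prod_compl Op]
  congr 1
  · rw [← Finset.prod_coe_sort]
    refine Finset.prod_congr rfl fun i _ => ?_
    refine Finset.prod_congr rfl fun j _ => ?_
    unfold slx
    rw [dif_pos i.2]
    rfl
  · refine Finset.prod_congr rfl fun i hi => ?_
    have hi' : i ∉ Op := Finset.mem_compl.mp hi
    obtain ⟨j, hj⟩ := h.cl_inc i hi'
    rw [hj, hcl i hi' j k hk, Finset.prod_singleton]
    unfold slx
    rw [dif_neg hi']

private theorem JInt_G_integrable (r : Fin (m + 1) → ℝ) (Op : Finset (Fin (m + 1)))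
    (s : Fin (m + 1) → ℤ) (γ γ' : Fin (m + 1) → ℝ → ℂ) (h : ChD r Op s γ γ') (M : ℕ) (hM : 0 < M)
    (hcl : ∀ i ∉ Op, ∀ (j : Fin m) (k : Fin m → ℕ), (∀ j, k j < M) →
      DG (r i) M {j} k = sk M (k j) (.cl (s i))) (k : Fin m → ℕ) (hk : ∀ j, k j < M) :
    Integrable (JInt_G r Op s γ γ' M k) := by
  have e : JInt_G r Op s γ γ' M k = fun x => (∏ i : Op, JInt_F (r i) (γ i) (γ' i) M
      (inc (Fin.castSucc (n := m)) Fin.succ (i : Fin (m + 1))) k (x i)) *
        ∏ i ∈ Opᶜ, DG (r i) M (inc (Fin.castSucc (n := m)) Fin.succ i) k :=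
    funext fun x => JInt_G_eq r Op s γ γ' h M hcl k hk x
  rw [e]
  apply Integrable.mul_const
  exact Integrable.fintype_prod (f := fun (i : Op) (x : ℝ) => JInt_F (r i) (γ i) (γ' i) M
    (inc (Fin.castSucc (n := m)) Fin.succ (i : Fin (m + 1))) k x)
    (fun i => JInt_F_integrable (r i) (h.ctr i i.2) hM _ k)

private theorem JInt_term (r : Fin (m + 1) → ℝ) (Op : Finset (Fin (m + 1)))
    (s : Fin (m + 1) → ℤ) (γ γ' : Fin (m + 1) → ℝ → ℂ) (h : ChD r Op s γ γ') (M : ℕ) (hM : 0 < M)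
    (hcl : ∀ i ∉ Op, ∀ (j : Fin m) (k : Fin m → ℕ), (∀ j, k j < M) →
      DG (r i) M {j} k = sk M (k j) (.cl (s i))) (k : Fin m → ℕ) (hk : ∀ j, k j < M) :
    ∏ i, DG (r i) M (inc (Fin.castSucc (n := m)) Fin.succ i) k =
      (-(4 * Real.pi * I) * M ^ 2) ^ Op.card * ∫ x : Op → ℝ, JInt_G r Op s γ γ' M k x := by
  simp only [JInt_G_eq r Op s γ γ' h M hcl k hk]
  rw [integral_mul_const, integral_fintype_prod_volume_eq_prod (fun (i : Op) (x : ℝ) =>
    JInt_F (r i) (γ i) (γ' i) M (inc (Fin.castSucc (n := m)) Fin.succ (i : Fin (m + 1))) k x),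
    ← Finset.prod_mul_prod_compl Op, ← mul_assoc]
  congr 1
  rw [← Finset.prod_coe_sort]
  have hc : (-(4 * Real.pi * I) * (M : ℂ) ^ 2) ^ Op.card =
      ∏ _i : Op, (-(4 * Real.pi * I) * (M : ℂ) ^ 2) := by
    rw [Finset.prod_const, Finset.card_univ, Fintype.card_coe]
  rw [hc, ← Finset.prod_mul_distrib]
  refine Finset.prod_congr rfl fun i _ => ?_
  exact JInt_DG (r i) (h.ctr i i.2) hM _ k

private theorem JInt_P_eq (Op : Finset (Fin (m + 1))) (s : Fin (m + 1) → ℤ)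
    (γ : Fin (m + 1) → ℝ → ℂ) (M : ℕ) (k : Fin m → ℕ) (x : Op → ℝ) :
    JInt_P Op s γ M k x = ∏ j : Fin m, (sk M (k j) (slx Op s γ x j.castSucc) *
      sk M (k j) (slx Op s γ x j.succ)) := by
  unfold JInt_P
  exact prod_inc (Fin.castSucc (n := m)) Fin.succ (fun j => (Fin.castSucc_lt_succ (i := j)).ne)
    (fun i j => sk M (k j) (slx Op s γ x i))

/-- The main part of the invariant as an integral. -/
theorem J0_eq (r : Fin (m + 1) → ℝ) (Op : Finset (Fin (m + 1))) (s : Fin (m + 1) → ℤ)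
    (γ γ' : Fin (m + 1) → ℝ → ℂ) (h : ChD r Op s γ γ') (M : ℕ) (hM : 0 < M)
    (hcl : ∀ i ∉ Op, ∀ (j : Fin m) (k : Fin m → ℕ), (∀ j, k j < M) →
      DG (r i) M {j} k = sk M (k j) (.cl (s i))) :
    J0 r M = (-(4 * Real.pi * I) * M ^ 2) ^ Op.card *
      ∫ x : Op → ℝ, Asm.gK (fun M (i : Op) => gvx (r i) (γ i) (γ' i) M)
        (fun M (j : Fin m) x => KE M (slx Op s γ x j.castSucc) (slx Op s γ x j.succ)) M x := by
  have hkM : ∀ k ∈ Fintype.piFinset (fun _ : Fin m => Finset.Ico (k0 M) M), ∀ j, k j < M := by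
    intro k hk j
    exact (Finset.mem_Ico.mp (Fintype.mem_piFinset.mp hk j)).2
  have hpt : ∀ x : Op → ℝ, Asm.gK (fun M (i : Op) => gvx (r i) (γ i) (γ' i) M)
        (fun M (j : Fin m) x => KE M (slx Op s γ x j.castSucc) (slx Op s γ x j.succ)) M x =
      ∑ k ∈ Fintype.piFinset (fun _ : Fin m => Finset.Ico (k0 M) M),
        (∏ j, Cc 2 1 M (yk 2 M (k j) : ℝ)) * JInt_G r Op s γ γ' M k x := by
    intro x
    unfold Asm.gK KE
    rw [Finset.prod_univ_sum, Finset.mul_sum]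
    refine Finset.sum_congr rfl fun k hk => ?_
    unfold JInt_G
    rw [JInt_P_eq, Finset.prod_mul_distrib]
    ring
  simp only [hpt]
  rw [integral_finsetSum _ fun k hk =>
    (JInt_G_integrable r Op s γ γ' h M hM hcl k (hkM k hk)).const_mul _, Finset.mul_sum]
  unfold J0
  refine Finset.sum_congr rfl fun k hk => ?_
  rw [integral_const_mul, JInt_term r Op s γ γ' h M hM hcl k (hkM k hk)]
  ring

/-- The vertex factor is measurable. -/
theorem gvx_meas (r : ℝ) {γ γ' : ℝ → ℂ} (h : Ctr γ γ') (M : ℕ) (hM : 0 < M) :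
    AEStronglyMeasurable (gvx r γ γ' M) := by
  have hom : Continuous fun x => om 2 M (γ x) := by
    rw [continuous_iff_continuousAt]
    intro x
    exact ContinuousAt.comp (f := γ) (g := om 2 M)
      (om_diff (ww_ne_one hM (h.pos x))).continuousAt h.cont.continuousAt
  have hc : Continuous fun x => exp (2 * Real.pi * I * r * M * γ x ^ 2) *
      (2 * sin (2 * Real.pi * γ x)) * om 2 M (γ x) := by
    refine Continuous.mul (Continuous.mul ?_ ?_) hom
    · exact Complex.continuous_exp.comp (continuous_const.mul (h.cont.pow 2))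
    · exact continuous_const.mul (Complex.continuous_sin.comp (continuous_const.mul h.cont))
  have e : gvx r γ γ' M = fun x => (exp (2 * Real.pi * I * r * M * γ x ^ 2) *
      (2 * sin (2 * Real.pi * γ x)) * om 2 M (γ x)) * γ' x := rfl
  rw [e]
  exact hc.aestronglyMeasurable.mul h.int.aestronglyMeasurable

private theorem JInt_sk_cont (Op : Finset (Fin (m + 1))) (s : Fin (m + 1) → ℤ)
    (γ : Fin (m + 1) → ℝ → ℂ) (hγ : ∀ i ∈ Op, Continuous (γ i))
    (M k : ℕ) (i : Fin (m + 1)) :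
    Continuous (fun x : Op → ℝ => sk M k (slx Op s γ x i)) := by
  by_cases hi : i ∈ Op
  · have e : (fun x : Op → ℝ => sk M k (slx Op s γ x i)) =
        fun x => qc M k (γ i (x ⟨i, hi⟩)) := by
      funext x
      unfold slx
      rw [dif_pos hi]
      rfl
    rw [e]
    exact (DGb_qc_diff M k).continuous.comp ((hγ i hi).comp (continuous_apply _))
  · have e : (fun x : Op → ℝ => sk M k (slx Op s γ x i)) = fun _ => sk M k (.cl (s i)) := by
      funext x
      unfold slx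
      rw [dif_neg hi]
    rw [e]
    exact continuous_const

theorem KE_cont (Op : Finset (Fin (m + 1))) (s : Fin (m + 1) → ℤ)
    (γ : Fin (m + 1) → ℝ → ℂ) (hγ : ∀ i ∈ Op, Continuous (γ i))
    (M : ℕ) (i j : Fin (m + 1)) :
    Continuous (fun x : Op → ℝ => KE M (slx Op s γ x i) (slx Op s γ x j)) := by
  unfold KE
  refine continuous_finsetSum _ fun k _ => ?_
  exact continuous_const.mul ((JInt_sk_cont Op s γ hγ M k i).mul
    (JInt_sk_cont Op s γ hγ M k j))

end Pool.Agent.S3
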