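import Pool.Agent.S3.Unif
import Pool.Agent.S3.Clo
import Pool.Agent.S3.JInt
import Pool.Agent.S3.Amp
import Pool.Agent.S3.Asm.Asm

/-!
# The asymptotics of the main part of the invariant
-/

namespace Pool.Agent.S3

open Pool.Agent.H63.VC hiding ext
open Pool.Agent.H63.VC3 Pool.Agent.H63.VC4 Pool.Agent.H63.VC6 Pool.Agent.H63.VC7 Complex
open Pool.Agent.H25.RK Pool.Agent.H63.GO Filter Topology MeasureTheory
open scoped BigOperators

variable {m : ℕ} {C : Cfg m}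

theorem JLim_sP_re {y : ℂ} {σ : Sl} (h : sdom y σ) : (sP y σ).re = se y σ := by
  cases σ with
  | op v =>
    have h1 : 0 < (y + 1 / 2).re := by
      have := h.1; simp; linarith
    have h2 : (y + 1 / 2).re < 1 := by
      have := h.2.1; simp; linarith
    show (2 * ff (y + 1 / 2) - fe (y - v) - fe (y + v)).re =
      2 * Rf (y + 1 / 2) - Rf (y - v) - Rf (y + v)
    rw [Rf_eq_ff h1 h2, Rf_eq_fe h.2.2.1, Rf_eq_fe h.2.2.2]
    simp
  | cl s =>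
    have h1 : 0 < (y + 1 / 2).re := by
      have := h.1; simp; linarith
    have h2 : (y + 1 / 2).re < 1 := by
      have := h.2; simp; linarith
    show (ff (y + 1 / 2) - Real.pi * I * s * (y - y ^ 2 / 2 - 7 / 8)).re =
      Rf (y + 1 / 2) + Real.pi * s * (y.im * (1 - y.re))
    rw [Rf_eq_ff h1 h2, sub_re]
    have : (Real.pi * I * s * (y - y ^ 2 / 2 - 7 / 8) : ℂ) =
        ((Real.pi * s : ℝ) : ℂ) * (I * (y - y ^ 2 / 2 - 7 / 8)) := by
      push_cast; ring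
    rw [this, re_ofReal_mul, I_mul_re]
    have h3 : (y - y ^ 2 / 2 - 7 / 8 : ℂ).im = y.im * (1 - y.re) := by
      have h4 : (y ^ 2 : ℂ).im = 2 * (y.re * y.im) := by rw [pow_two, mul_im]; ring
      have h5 : (y ^ 2 / 2 : ℂ).im = y.re * y.im := by
        have : (y ^ 2 / 2 : ℂ) = ((1 / 2 : ℝ) : ℂ) * y ^ 2 := by push_cast; ring
        rw [this, im_ofReal_mul, h4]; ring
      have h6 : (7 / 8 : ℂ).im = 0 := by
        have : (7 / 8 : ℂ) = ((7 / 8 : ℝ) : ℂ) := by push_cast; ring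
        rw [this, ofReal_im]
      rw [sub_im, sub_im, h5, h6]
      ring
    rw [h3]
    ring

/-- The vertex factors with their signs. -/
noncomputable def Cfg.gg (C : Cfg m) (v1 : Fin (m + 1) → ℝ) (ε : ℝ) (M : ℕ) (i : C.Op) (x : ℝ) :
    ℂ := (-1) ^ (M + 1) * gvx (C.r i) (C.gm v1 ε i) (C.gm' v1 ε i) M x

/-- The growth of the vertex factors. -/
noncomputable def Cfg.ga (C : Cfg m) (v1 : Fin (m + 1) → ℝ) (ε : ℝ) (i : C.Op) (x : ℝ) : ℝ :=
  (wr (C.r i) (C.gm v1 ε i x)).re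

theorem JLim_wr (r : ℝ) (v vc : ℂ) : wr r v = wr r vc + 2 * Real.pi * I * (2 * r * vc + 1) * (v - vc) +
    2 * Real.pi * I * r * (v - vc) ^ 2 := by
  unfold wr
  ring

/-- The shares at a vertex cancel the growth of the vertex factor. -/
theorem JLim_share (hC : C.Crit) {i : Fin (m + 1)} (hi : i ∈ C.Op) (v : ℂ) :
    (wr (C.r i) v).re + ∑ j ∈ inc (Fin.castSucc (n := m)) Fin.succ i, C.lv j i v =
      (wr (C.r i) (C.vc i)).re := by
  have h1 : ∀ j, C.lv j i v = (ev (C.yc j) (C.vc i) * (v - C.vc i)).re -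
      C.β j i * (I / 2 * (v - C.vc i) ^ 2).re := by
    intro j
    unfold Cfg.lv ell
    rw [if_pos hi]
    have : (2 * (-(ev (C.yc j) (C.vc i)) / 2) * (v - C.vc i) +
        I * C.β j i / 2 * (v - C.vc i) ^ 2 : ℂ) =
        -(ev (C.yc j) (C.vc i) * (v - C.vc i)) + C.β j i * (I / 2 * (v - C.vc i) ^ 2) := by ring
    rw [this, add_re, neg_re, re_ofReal_mul]
    ring
  simp only [h1]
  rw [Finset.sum_sub_distrib, ← Finset.sum_mul, hC.hβ i hi, ← re_sum, ← Finset.sum_mul]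
  have h2 : ∑ j ∈ inc (Fin.castSucc (n := m)) Fin.succ i, ev (C.yc j) (C.vc i) =
      -(2 * Real.pi * I * (2 * C.r i * C.vc i + 1)) := by
    linear_combination hC.hv i hi
  rw [h2, JLim_wr (C.r i) v (C.vc i)]
  have h3 : (2 * Real.pi * I * C.r i * (v - C.vc i) ^ 2 : ℂ).re =
      4 * Real.pi * C.r i * (I / 2 * (v - C.vc i) ^ 2).re := by
    rw [← re_ofReal_mul]
    congr 1
    push_cast
    ring
  rw [add_re, add_re, h3]
  simp only [neg_mul, neg_re]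
  ring

theorem JLim_share' (hC : C.Crit) {v1 : Fin (m + 1) → ℝ} {lam : Fin m → Fin (m + 1) → ℝ}
    (hE : C.Edg v1 lam) {i : Fin (m + 1)} (hi : i ∈ C.Op) (v : ℂ) :
    (wr (C.r i) v).re + ∑ j ∈ inc (Fin.castSucc (n := m)) Fin.succ i, C.lw v1 lam j i v =
      (wr (C.r i) (C.vc i)).re := by
  have h1 : ∀ j, C.lw v1 lam j i v = C.lv j i (pl (C.θ i) (v1 i) v) +
      lam j i * ((wr (C.r i) (pl (C.θ i) (v1 i) v)).re - (wr (C.r i) v).re) := by
    intro j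
    unfold Cfg.lw
    rw [if_pos hi]
  simp only [h1]
  rw [Finset.sum_add_distrib, ← Finset.sum_mul, hE.lam1 i hi]
  linarith [JLim_share hC hi (pl (C.θ i) (v1 i) v)]

theorem JLim_hst (j : Fin m) : (Fin.castSucc (n := m)) j ≠ Fin.succ j :=
  (Fin.castSucc_lt_succ (i := j)).ne

theorem JLim_V_re (hC : C.Crit) : (C.V (cp C.ac C.bc)).re =
    (∑ i : C.Op, (wr (C.r i) (C.vc i)).re) + ∑ j, C.Fc j := by
  unfold Cfg.V
  rw [add_re, re_sum, re_sum]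
  refine congrArg₂ (· + ·) ?_ ?_
  · refine Finset.sum_congr rfl fun i _ => ?_
    have : cp C.ac C.bc (Sum.inl i) = C.uc i := by
      simp [cp, Cfg.ac, Cfg.bc, Cfg.uc, ul]
    rw [this]
    rfl
  · refine Finset.sum_congr rfl fun j _ => ?_
    rw [Cfg.Hess_Yz0, Cfg.Hess_slz0, Cfg.Hess_slz0, add_re, JLim_sP_re (hC.dom j).1, JLim_sP_re (hC.dom j).2]
    rfl

/-- The sum of the growth rates is constant. -/
theorem JLim_sum (hC : C.Crit) {v1 : Fin (m + 1) → ℝ} {lam : Fin m → Fin (m + 1) → ℝ}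
    (hE : C.Edg v1 lam) (ε : ℝ) (x : C.Op → ℝ) :
    ∑ i, C.ga v1 ε i (x i) + ∑ j, C.ka v1 lam ε j x = (C.V (cp C.ac C.bc)).re := by
  rw [JLim_V_re hC]
  have h1 : ∑ j, C.ka v1 lam ε j x = ∑ j, C.Fc j + ∑ i : Fin (m + 1),
      ∑ j ∈ inc (Fin.castSucc (n := m)) Fin.succ i,
        (if h : i ∈ C.Op then C.lw v1 lam j i (C.gm v1 ε i (x ⟨i, h⟩)) else 0) := by
    rw [sum_inc (Fin.castSucc (n := m)) Fin.succ JLim_hst
      (fun i j => if h : i ∈ C.Op then C.lw v1 lam j i (C.gm v1 ε i (x ⟨i, h⟩)) else 0),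
      ← Finset.sum_add_distrib]
    refine Finset.sum_congr rfl fun j _ => ?_
    unfold Cfg.ka
    ring
  have h2 : ∑ i : Fin (m + 1), ∑ j ∈ inc (Fin.castSucc (n := m)) Fin.succ i,
        (if h : i ∈ C.Op then C.lw v1 lam j i (C.gm v1 ε i (x ⟨i, h⟩)) else 0) =
      ∑ i : C.Op, ∑ j ∈ inc (Fin.castSucc (n := m)) Fin.succ (i : Fin (m + 1)),
        C.lw v1 lam j i (C.gm v1 ε i (x i)) := by
    rw [← Finset.sum_add_sum_compl C.Op, ← Finset.sum_coe_sort]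
    have h3 : ∑ i ∈ C.Opᶜ, ∑ j ∈ inc (Fin.castSucc (n := m)) Fin.succ i,
        (if h : i ∈ C.Op then C.lw v1 lam j i (C.gm v1 ε i (x ⟨i, h⟩)) else 0) = 0 := by
      refine Finset.sum_eq_zero fun i hi => Finset.sum_eq_zero fun j _ => ?_
      rw [dif_neg (Finset.mem_compl.1 hi)]
    rw [h3, add_zero]
    refine Finset.sum_congr rfl fun i _ => Finset.sum_congr rfl fun j _ => ?_
    rw [dif_pos i.2]
  rw [h1, h2]
  have h4 : ∀ i : C.Op, C.ga v1 ε i (x i) + ∑ j ∈ inc (Fin.castSucc (n := m)) Fin.succ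
      (i : Fin (m + 1)), C.lw v1 lam j i (C.gm v1 ε i (x i)) = (wr (C.r i) (C.vc i)).re := fun i =>
    JLim_share' hC hE i.2 _
  have h5 := Finset.sum_congr (rfl : (Finset.univ : Finset C.Op) = Finset.univ) fun i _ => h4 i
  rw [Finset.sum_add_distrib] at h5
  rw [← h5]
  ring


theorem JLim_gm_line {v1 : Fin (m + 1) → ℝ} {i : Fin (m + 1)} {x : ℝ} (ε : ℝ)
    (hx : |x| ≤ xl (C.θ i) (v1 i)) : C.gm v1 ε i x = gdv (ul (C.θ i) x) ∧
    C.gm' v1 ε i x = 1 / (Real.pi * cosh (ul (C.θ i) x)) := by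
  unfold Cfg.gm Cfg.gm' gam gam'
  rw [if_pos hx, if_pos hx]
  exact ⟨rfl, rfl⟩

theorem JLim_xc {v1 : Fin (m + 1) → ℝ} {lam : Fin m → Fin (m + 1) → ℝ} (hC : C.Crit) (hE : C.Edg v1 lam) {i : Fin (m + 1)}
    (hi : i ∈ C.Op) : |C.xc i| < xl (C.θ i) (v1 i) :=
  (gdv_ul_lt (hC.th0 i hi) (hC.th1 i hi) (hE.v0 i hi) (hE.vh i hi)).2 (hE.vx i hi)

theorem JLim_chd (hC : C.Crit) (hs : ∀ i, i ∉ C.Op → C.s i = 1 ∨ C.s i = -1)
    (hr : ∀ i, i ∉ C.Op → C.r i = C.s i)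
    (hinc : ∀ i, i ∉ C.Op → ∃ j, inc (Fin.castSucc (n := m)) Fin.succ i = {j})
    {v1 : Fin (m + 1) → ℝ} {lam : Fin m → Fin (m + 1) → ℝ} (hE : C.Edg v1 lam) {ε : ℝ} (hε : 0 < ε) :
    ChD C.r C.Op C.s (C.gm v1 ε) (C.gm' v1 ε) where
  hm := hC.hm
  ctr := fun i hi => gam_ctr (hC.th0 i hi) (hC.th1 i hi) (hE.v0 i hi) (hE.vh i hi) hε
  cl_s := hs
  cl_r := hr
  cl_inc := hinc

/-- The data of the abstract assembly theorem. -/
theorem JLim_asmD (hK : KsB) (hK' : KsL) (hC : C.Crit)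
    (hs : ∀ i, i ∉ C.Op → C.s i = 1 ∨ C.s i = -1) (hr : ∀ i, i ∉ C.Op → C.r i = C.s i)
    (hinc : ∀ i, i ∉ C.Op → ∃ j, inc (Fin.castSucc (n := m)) Fin.succ i = {j})
    {v1 : Fin (m + 1) → ℝ} {lam : Fin m → Fin (m + 1) → ℝ} (hE : C.Edg v1 lam) : ∃ ε : ℝ, 0 < ε ∧
    Asm.AsmD C.ic (C.gg v1 ε) (C.kk v1 ε) (C.fe' v1 ε) (C.ga v1 ε) (C.ka v1 lam ε)
      (fun i x => ‖C.gm' v1 ε i x‖) (fun i => C.xc i) (C.V (cp C.ac C.bc)).re := by
  obtain ⟨ε1, hε1, hfar⟩ := Cfg.K_far hK hC hs hE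
  obtain ⟨ε2, hε2, hbd⟩ := Cfg.K_bd hK hK' hC hs hE
  set ε := min ε1 ε2 with hεd
  have hε : 0 < ε := lt_min hε1 hε2
  obtain ⟨hbl, hfar⟩ := hfar ε hε (min_le_left _ _)
  have hbd := hbd ε hε (min_le_right _ _)
  have hch := JLim_chd hC hs hr hinc hE hε
  refine ⟨ε, hε, ?_⟩
  -- the bound of the heights
  set B : ℝ := ∑ i ∈ C.Op, |bl (C.θ i) 0| with hB
  have hBi : ∀ i ∈ C.Op, bl (C.θ i) 0 ≤ B := fun i hi =>
    (le_abs_self _).trans (Finset.single_le_sum (f := fun i => |bl (C.θ i) 0|)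
      (fun j _ => abs_nonneg _) hi)
  refine
    { g_meas := ?_, K_cont := ?_, w_int := ?_, w_nn := ?_, g_bd := ?_, K_bd := ?_, K_far := ?_,
      sum := ?_, cov := ?_, K_loc := ?_ }
  · filter_upwards [eventually_gt_atTop 0] with M hM i
    exact (gvx_meas (C.r i) (hch.ctr i i.2) M hM).const_mul _
  · filter_upwards with M j
    exact KE_cont C.Op C.s (C.gm v1 ε) (fun i hi => (hch.ctr i hi).cont) M _ _
  · intro i
    exact (hch.ctr i i.2).int.norm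
  · intro i x
    exact norm_nonneg _
  · obtain ⟨K, hK, hg⟩ := gvx_bound (κ := 2 * ε) (B := B) (by positivity)
    refine ⟨K, hK, 0, ?_⟩
    filter_upwards with M i x
    have him := gam_im (hC.th0 i i.2) (hC.th1 i i.2) (hE.v0 i i.2) (hE.vh i i.2) hε (hbl i i.2) x
    have hre := gam_re (hC.th0 i i.2) (hC.th1 i i.2) (hE.v0 i i.2) (hE.vh i i.2) hε x
    have h := hg M (C.r i) (C.gm v1 ε i) (C.gm' v1 ε i) x him.1.le hre
      (slope_of_height hε him.2.2 him.1.le) (him.2.1.trans (hBi i i.2))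
    unfold Cfg.gg
    rw [norm_mul, norm_pow, norm_neg, norm_one, one_pow, one_mul, pow_zero, mul_one]
    exact h
  · exact hbd
  · exact hfar
  · intro x
    exact JLim_sum hC hE ε x
  · intro i
    have hm := hC.hm
    rcases Nat.lt_or_ge (i : Fin (m + 1)).1 m with h | h
    · refine ⟨⟨(i : Fin (m + 1)).1, h⟩, ?_⟩
      unfold Cfg.ic
      simp only [Finset.mem_filter, Finset.mem_univ, true_and]
      left
      ext
      rfl
    · refine ⟨⟨(i : Fin (m + 1)).1 - 1, by have := (i : Fin (m + 1)).2; omega⟩, ?_⟩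
      unfold Cfg.ic
      simp only [Finset.mem_filter, Finset.mem_univ, true_and]
      right
      ext
      simp only [Fin.val_succ]
      omega
  · obtain ⟨r1, hr1, hloc⟩ := Cfg.K_loc hK' hC hs hE hε
    refine ⟨r1, hr1, fun r hr0 hr1' => ?_⟩
    obtain ⟨ρ, hρ, δ, hδ, K, hK1, p, hev⟩ := hloc r hr0 hr1'
    refine ⟨ρ, hρ, δ, hδ, K, hK1, p, ?_⟩
    filter_upwards [hev] with M hM j x hx
    exact hM j x hx


theorem JLim_cp_inl (a : C.Op ⊕ Fin m → ℝ) (i : C.Op) :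
    cp a C.bc (Sum.inl i) = ul (C.θ i) (a (Sum.inl i)) := by
  simp [cp, Cfg.bc, ul]

theorem JLim_slz {v1 : Fin (m + 1) → ℝ} {ε : ℝ} {a : C.Op ⊕ Fin m → ℝ}
    (ha : ∀ i : C.Op, |a (Sum.inl i)| ≤ xl (C.θ i) (v1 i)) (i : Fin (m + 1)) :
    C.slz (cp a C.bc) i = slx C.Op C.s (C.gm v1 ε) (fun i => a (Sum.inl i)) i := by
  unfold Cfg.slz slx Cfg.uz
  by_cases hi : i ∈ C.Op
  · rw [if_pos hi, dif_pos hi, dif_pos hi, JLim_cp_inl]
    rw [(JLim_gm_line ε (ha ⟨i, hi⟩)).1]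
  · rw [if_neg hi, dif_neg hi]

theorem JLim_Yz (a : C.Op ⊕ Fin m → ℝ) (j : Fin m) :
    C.Yz (cp a C.bc) j = C.yc j + (if h : j.castSucc ∈ C.Op then
        C.L j j.castSucc * ((a (Sum.inl ⟨j.castSucc, h⟩) : ℂ) - C.xc j.castSucc) else 0) +
      (if h : j.succ ∈ C.Op then
        C.L j j.succ * ((a (Sum.inl ⟨j.succ, h⟩) : ℂ) - C.xc j.succ) else 0) +
      a (Sum.inr j) := by
  have h1 : ∀ i : Fin (m + 1), C.uz (cp a C.bc) i - C.uc i =
      if h : i ∈ C.Op then ((a (Sum.inl ⟨i, h⟩) : ℂ) - C.xc i) else 0 := by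
    intro i
    unfold Cfg.uz
    by_cases hi : i ∈ C.Op
    · rw [dif_pos hi, dif_pos hi, JLim_cp_inl]
      unfold Cfg.uc ul
      ring
    · rw [dif_neg hi, dif_neg hi, sub_self]
  have h2 : cp a C.bc (Sum.inr j) = a (Sum.inr j) := by
    simp [cp, Cfg.bc]
  unfold Cfg.Yz
  rw [h1, h1, h2]
  congr 2
  · congr 1
    by_cases hi : j.castSucc ∈ C.Op
    · rw [dif_pos hi, dif_pos hi]
    · rw [dif_neg hi, dif_neg hi, mul_zero]
  · by_cases hi : j.succ ∈ C.Op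
    · rw [dif_pos hi, dif_pos hi]
    · rw [dif_neg hi, dif_neg hi, mul_zero]

theorem JLim_Ph {v1 : Fin (m + 1) → ℝ} {ε : ℝ} {a : C.Op ⊕ Fin m → ℝ}
    (ha : ∀ i : C.Op, |a (Sum.inl i)| ≤ xl (C.θ i) (v1 i)) (M : ℕ) :
    C.Ph M (cp a C.bc) = (∏ i, C.gg v1 ε M i (a (Sum.inl i))) *
      ∏ j, C.fe' v1 ε M j (fun i => a (Sum.inl i)) (a (Sum.inr j)) := by
  unfold Cfg.Ph
  congr 1
  · refine Finset.prod_congr rfl fun i _ => ?_
    rw [JLim_cp_inl]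
    unfold Cfg.gg gvx gvu
    obtain ⟨h1, h2⟩ := JLim_gm_line (C := C) (v1 := v1) ε (ha i)
    rw [h1, h2]
  · refine Finset.prod_congr rfl fun j _ => ?_
    unfold Cfg.fe'
    rw [JLim_slz (ε := ε) ha, JLim_slz (ε := ε) ha, JLim_Yz]

theorem JLim_gK (v1 : Fin (m + 1) → ℝ) (ε : ℝ) (M : ℕ) (x : C.Op → ℝ) :
    Asm.gK (C.gg v1 ε) (C.kk v1 ε) M x = ((-1 : ℂ) ^ (M + 1)) ^ C.Op.card *
      Asm.gK (fun M (i : C.Op) => gvx (C.r i) (C.gm v1 ε i) (C.gm' v1 ε i) M)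
        (fun M (j : Fin m) x => KE M (slx C.Op C.s (C.gm v1 ε) x j.castSucc)
          (slx C.Op C.s (C.gm v1 ε) x j.succ)) M x := by
  unfold Asm.gK Cfg.gg Cfg.kk
  rw [Finset.prod_mul_distrib, Finset.prod_const, Finset.card_univ, Fintype.card_coe]
  ring

/-- The asymptotics of the main part of the invariant. -/
theorem Cfg.J0_lim (hK : KsB) (hK' : KsL) (hC : C.Crit)
    (hs : ∀ i, i ∉ C.Op → C.s i = 1 ∨ C.s i = -1) (hr : ∀ i, i ∉ C.Op → C.r i = C.s i)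
    (hinc : ∀ i, i ∉ C.Op → ∃ j, inc (Fin.castSucc (n := m)) Fin.succ i = {j})
    {v1 : Fin (m + 1) → ℝ} {lam : Fin m → Fin (m + 1) → ℝ} (hE : C.Edg v1 lam) : ∃ κ : ℂ, κ ≠ 0 ∧
    Tendsto (fun M : ℕ => ((-1 : ℂ) ^ (M + 1)) ^ C.Op.card * J0 C.r M /
      ((((M : ℝ) ^ (3 / 2 * ((m : ℝ) + 1) + m / 2) : ℝ) : ℂ) *
        exp (M * C.V (cp C.ac C.bc)))) atTop (𝓝 κ) := by
  obtain ⟨ε, hε, hD⟩ := JLim_asmD hK hK' hC hs hr hinc hE
  have hch := JLim_chd hC hs hr hinc hE hε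
  obtain ⟨hlim, U', hU'o, hzU', hU'U, hcont, hbd⟩ := Cfg.amp hC hs hinc
  have hac : cp (Sum.elim (fun i : C.Op => C.xc i) (fun _ => 0)) C.bc = cp C.ac C.bc := rfl
  -- the neighbourhood
  set U : Set (C.Op ⊕ Fin m → ℂ) :=
    U' ∩ {z | ∀ i : C.Op, |(z (Sum.inl i)).re| < xl (C.θ i) (v1 i)} with hU
  have hUo : IsOpen U := by
    refine hU'o.inter ?_
    have : {z : C.Op ⊕ Fin m → ℂ | ∀ i : C.Op, |(z (Sum.inl i)).re| < xl (C.θ i) (v1 i)} =
        ⋂ i : C.Op, {z | |(z (Sum.inl i)).re| < xl (C.θ i) (v1 i)} := by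
      ext z; simp
    rw [this]
    refine isOpen_iInter_of_finite fun i => ?_
    exact isOpen_lt (by fun_prop) continuous_const
  have hzU : cp C.ac C.bc ∈ U := by
    refine ⟨hzU', fun i => ?_⟩
    have : (cp C.ac C.bc (Sum.inl i)).re = C.xc i := by
      simp [cp, Cfg.ac]
    rw [this]
    exact JLim_xc hC hE i.2
  have hV : AnalyticOnNhd ℂ C.V U := fun z hz => C.V_an z (hU'U hz.1)
  obtain ⟨κ, hκ, hκlim⟩ := Asm.asm hD hUo hV C.bc (by rw [hac]; exact hzU)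
    (by rw [hac]; exact fun ξ => Cfg.V_grad hC _) (by rw [hac]; exact Cfg.V_neg hC) (by rw [hac]) C.Ph C.eA
    (hcont.mono fun M hM => hM.mono Set.inter_subset_left)
    (by
      obtain ⟨K, hK, h⟩ := hbd
      exact ⟨K, hK, h.mono fun M hM z hz => hM z hz.1⟩)
    (by rw [hac]; exact hlim)
    (by
      filter_upwards with M a ha
      refine JLim_Ph (fun i => ?_) M
      have h1 := ha.2 i
      have h2 : (cp a C.bc (Sum.inl i)).re = a (Sum.inl i) := by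
        simp [cp]
      rw [h2] at h1
      exact h1.le)
  rw [hac] at hκlim
  have h4 : (-(4 * Real.pi * I) : ℂ) ≠ 0 := by
    have : (Real.pi : ℂ) ≠ 0 := by exact_mod_cast Real.pi_ne_zero
    exact neg_ne_zero.2 (mul_ne_zero (mul_ne_zero (by norm_num) this) I_ne_zero)
  refine ⟨(-(4 * Real.pi * I)) ^ C.Op.card * κ, mul_ne_zero (pow_ne_zero _ h4) hκ, ?_⟩
  refine (hκlim.const_mul ((-(4 * Real.pi * I) : ℂ) ^ C.Op.card)).congr' ?_
  filter_upwards [eventually_gt_atTop 0] with M hM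
  have hMp : (0 : ℝ) < M := by exact_mod_cast hM
  have hcl : ∀ i, i ∉ C.Op → ∀ (j : Fin m) (k : Fin m → ℕ), (∀ j, k j < M) →
      DG (C.r i) M {j} k = sk M (k j) (.cl (C.s i)) := by
    intro i hi j k hk
    rw [hr i hi]
    exact cl_eq (hs i hi) j k (hk j)
  have hJ := J0_eq C.r C.Op C.s (C.gm v1 ε) (C.gm' v1 ε) hch M hM hcl
  have hI : ∫ x, Asm.gK (C.gg v1 ε) (C.kk v1 ε) M x = ((-1 : ℂ) ^ (M + 1)) ^ C.Op.card *
      ∫ x : C.Op → ℝ, Asm.gK (fun M (i : C.Op) => gvx (C.r i) (C.gm v1 ε i) (C.gm' v1 ε i) M)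
        (fun M (j : Fin m) x => KE M (slx C.Op C.s (C.gm v1 ε) x j.castSucc)
          (slx C.Op C.s (C.gm v1 ε) x j.succ)) M x := by
    rw [← integral_const_mul]
    exact integral_congr_ae (Eventually.of_forall fun x => JLim_gK v1 ε M x)
  rw [hI, hJ]
  have hcard : (Fintype.card (C.Op ⊕ Fin m) : ℝ) = C.Op.card + m := by
    rw [Fintype.card_sum, Fintype.card_coe, Fintype.card_fin]
    push_cast
    rfl
  have hpow : (((M : ℝ) ^ (3 / 2 * ((m : ℝ) + 1) + m / 2) : ℝ) : ℂ) *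
      (((M : ℝ) ^ ((Fintype.card (C.Op ⊕ Fin m) : ℝ) / 2) : ℝ) : ℂ) =
      (M : ℂ) ^ (2 * C.Op.card) * (((M : ℝ) ^ C.eA : ℝ) : ℂ) := by
    have : (M : ℝ) ^ (3 / 2 * ((m : ℝ) + 1) + m / 2) *
      (M : ℝ) ^ ((Fintype.card (C.Op ⊕ Fin m) : ℝ) / 2) =
      (M : ℝ) ^ (2 * C.Op.card) * (M : ℝ) ^ C.eA := by
      rw [← Real.rpow_natCast (M : ℝ) (2 * C.Op.card), ← Real.rpow_add hMp, ← Real.rpow_add hMp,
        hcard]
      congr 1
      unfold Cfg.eA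
      push_cast
      ring
    have h' := congrArg (fun x : ℝ => (x : ℂ)) this
    push_cast at h' ⊢
    exact h'
  have e1 : (((M : ℝ) ^ (3 / 2 * ((m : ℝ) + 1) + m / 2) : ℝ) : ℂ) ≠ 0 := by
    exact_mod_cast (Real.rpow_pos_of_pos hMp _).ne'
  have e2 : (((M : ℝ) ^ C.eA : ℝ) : ℂ) ≠ 0 := by
    exact_mod_cast (Real.rpow_pos_of_pos hMp _).ne'
  have e3 := exp_ne_zero (M * C.V (cp C.ac C.bc))
  have e4 : (-(4 * Real.pi * I) * (M : ℂ) ^ 2) ^ C.Op.card =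
      (-(4 * Real.pi * I)) ^ C.Op.card * (M : ℂ) ^ (2 * C.Op.card) := by
    rw [mul_pow, ← pow_mul]
  rw [e4, ← mul_div_assoc, div_eq_div_iff (mul_ne_zero e2 e3) (mul_ne_zero e1 e3)]
  linear_combination ((-(4 * Real.pi * I)) ^ C.Op.card * ((-1 : ℂ) ^ (M + 1)) ^ C.Op.card *
    (∫ x : C.Op → ℝ, Asm.gK (fun M (i : C.Op) => gvx (C.r i) (C.gm v1 ε i) (C.gm' v1 ε i) M)
        (fun M (j : Fin m) x => KE M (slx C.Op C.s (C.gm v1 ε) x j.castSucc)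
          (slx C.Op C.s (C.gm v1 ε) x j.succ)) M x) * exp (M * C.V (cp C.ac C.bc))) * hpow

end Pool.Agent.S3
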