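import Pool.Agent.S3.Ks2

/-!
# Edge kernels: the integral formula and the change of the path
-/

set_option autoImplicit false

namespace Pool.Agent.S3

open Pool.Agent.H63.VC hiding ext
open Pool.Agent.H63.VC3 Pool.Agent.H63.VC7 Complex MeasureTheory Filter Topology Set
open Pool.Agent.H25.RK

/-! ### The primitive -/

/-- The strip in which the terms are holomorphic. -/
def strip (M : ℕ) : Set ℂ := {z | -1 / 2 < z.re ∧ z.re < 1 / 2 + 1 / (2 * M)}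

theorem isOpen_strip (M : ℕ) : IsOpen (strip M) :=
  (isOpen_lt continuous_const continuous_re).inter (isOpen_lt continuous_re continuous_const)

theorem convex_strip (M : ℕ) : Convex ℝ (strip M) := by
  have h1 : Convex ℝ {z : ℂ | -1 / 2 < z.re} := convex_halfSpace_re_gt _
  have h2 : Convex ℝ {z : ℂ | z.re < 1 / 2 + 1 / (2 * (M : ℝ))} := convex_halfSpace_re_lt _
  exact h1.inter h2

theorem FM_prim {M : ℕ} (hM : 0 < M) {σ τ : Sl} (hσ : σ.ok) (hτ : τ.ok) :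
    ∃ G : ℂ → ℂ, ∀ z ∈ strip M, HasDerivAt G (FM M σ τ z) z := by
  obtain ⟨g, hg⟩ := (convex_strip M).exists_forall_hasDerivWithinAt (f := FM M σ τ)
    (fun z hz => (FM_differentiableAt hM hσ hτ hz.1 hz.2).differentiableWithinAt)
  exact ⟨g, fun z hz => (hg z hz).hasDerivAt ((isOpen_strip M).mem_nhds hz)⟩

/-- The integral along a horizontal segment. -/
theorem prim_line {M : ℕ} (hM : 0 < M) {σ τ : Sl} (hσ : σ.ok) (hτ : τ.ok) {G : ℂ → ℂ}
    (hG : ∀ z ∈ strip M, HasDerivAt G (FM M σ τ z) z) {c : ℂ} {a b : ℝ}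
    (h : ∀ t ∈ uIcc a b, c + t ∈ strip M) :
    ∫ t in a..b, FM M σ τ (c + t) = G (c + b) - G (c + a) := by
  have hd : ∀ t ∈ uIcc a b, HasDerivAt (fun t : ℝ => G (c + t)) (FM M σ τ (c + t)) t := by
    intro t ht
    have h1 := hG _ (h t ht)
    have h2 : HasDerivAt (fun t : ℝ => c + (t : ℂ)) 1 t := by
      simpa using (Complex.ofRealCLM.hasDerivAt (x := t)).const_add c
    have h3 := HasDerivAt.comp (𝕜 := ℝ) (𝕜' := ℂ) t h1 h2
    rwa [mul_one] at h3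
  apply intervalIntegral.integral_eq_sub_of_hasDerivAt hd
  apply ContinuousOn.intervalIntegrable
  intro t ht
  have h1 := (FM_differentiableAt hM hσ hτ (h t ht).1 (h t ht).2).continuousAt
  have h2 : ContinuousAt (fun t : ℝ => c + (t : ℂ)) t := by fun_prop
  exact (ContinuousAt.comp (f := fun t : ℝ => c + (t : ℂ)) (g := FM M σ τ) h1 h2).continuousWithinAt

theorem prim_seg {G g : ℂ → ℂ} {a b : ℂ} {D : ℝ}
    (hG : ∀ z ∈ segment ℝ a b, HasDerivAt G (g z) z) (hD : ∀ z ∈ segment ℝ a b, ‖g z‖ ≤ D) :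
    ‖G b - G a‖ ≤ D * ‖b - a‖ :=
  (convex_segment a b).norm_image_sub_le_of_norm_hasDerivWithin_le
    (fun z hz => (hG z hz).hasDerivWithinAt) hD (left_mem_segment ℝ a b)
    (right_mem_segment ℝ a b)

theorem mem_segment_real {a b : ℝ} (hab : a ≤ b) {z : ℂ} (hz : z ∈ segment ℝ (a : ℂ) (b : ℂ)) :
    ∃ x : ℝ, z = x ∧ a ≤ x ∧ x ≤ b := by
  obtain ⟨s, t, hs, ht, hst, rfl⟩ := hz
  refine ⟨s * a + t * b, ?_, ?_, ?_⟩
  · rw [real_smul, real_smul]
    push_cast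
    ring
  · have e : a = s * a + t * a := by rw [← add_mul, hst, one_mul]
    have := mul_le_mul_of_nonneg_left hab ht
    linarith
  · have e : b = s * b + t * b := by rw [← add_mul, hst, one_mul]
    have := mul_le_mul_of_nonneg_left hab hs
    linarith

/-- The kernel of an edge as an integral over the interval from `0` to `1/2`. -/
theorem KE_prim {B : ℝ} (hB : 0 ≤ B) : ∃ C : ℝ, 0 < C ∧ ∃ p : ℕ, ∀ M : ℕ, 3 ≤ M → ∀ (σ τ : Sl),
    σ.ok → τ.ok → σ.ht ≤ B → τ.ht ≤ B → ∀ m : ℝ, Real.pi * (σ.ht + τ.ht) ≤ m →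
    (∀ y : ℝ, -1 / 10 ≤ y → y ≤ 0 → EE σ τ y ≤ m) →
    ∀ G : ℂ → ℂ, (∀ z ∈ strip M, HasDerivAt G (FM M σ τ z) z) →
    ‖KE M σ τ - M * (G (1 / 2) - G 0)‖ ≤ C * M ^ p * Real.exp (M * m) := by
  obtain ⟨C1, hC1, p1, h1⟩ := FM_bound
  obtain ⟨C2, hC2, p2, h2⟩ := FM_vert hB
  obtain ⟨C3, hC3, p3, h3⟩ := KE_upper hB
  refine ⟨C1 + 2 * C2 + C3, by positivity, p1 + 1 + p2 + p3,
    fun M hM σ τ hσ hτ hσB hτB m hm1 hm2 G hG => ?_⟩
  have hMpos : 0 < M := by omega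
  have hM0 : (0 : ℝ) < M := by exact_mod_cast hMpos
  have hM1 : (1 : ℝ) ≤ M := by exact_mod_cast (by omega : 1 ≤ M)
  have hM3 : (3 : ℝ) ≤ M := by exact_mod_cast hM
  have hlM : 0 ≤ Real.log M := Real.log_natCast_nonneg M
  have hd0 : 0 < 1 / (2 * (M : ℝ)) := by positivity
  have hd1 : 1 / (2 * (M : ℝ)) ≤ 1 / 6 := by
    rw [div_le_div_iff₀ (by positivity) (by norm_num)]
    linarith
  set X : ℝ := M ^ (p1 + 1 + p2 + p3) * Real.exp (M * m) with hX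
  have hX0 : 0 ≤ X := by positivity
  have hEm : Real.exp (M * (Real.pi * (σ.ht + τ.ht))) ≤ Real.exp (M * m) := by
    apply Real.exp_le_exp.2
    exact mul_le_mul_of_nonneg_left hm1 hM0.le
  have hpw : ∀ q : ℕ, q ≤ p1 + 1 + p2 + p3 → (M : ℝ) ^ q * Real.exp (M * m) ≤ X := by
    intro q hq
    rw [hX]
    exact mul_le_mul_of_nonneg_right (pow_le_pow_right₀ hM1 hq) (Real.exp_pos _).le
  -- the terms near the ends
  have hend : ∀ x : ℝ, ((0 ≤ x ∧ x ≤ 1 / (2 * M)) ∨ (1 / 2 - 1 / (2 * M) ≤ x ∧ x ≤ 1 / 2)) →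
      ‖FM M σ τ (x : ℂ)‖ ≤ C2 * M ^ p2 * Real.exp (M * m) := by
    intro x hx
    have h4 := h2 M (by omega) σ τ hσ hτ hσB hτB x 0 (by rw [abs_zero]; positivity) hx
    rw [abs_zero, mul_zero, mul_zero, Real.exp_zero, mul_one, ofReal_zero, zero_mul,
      add_zero] at h4
    refine h4.trans ?_
    gcongr
  have hC2X : C2 * M ^ p2 * Real.exp (M * m) ≤ C2 * X := by
    rw [mul_assoc]
    exact mul_le_mul_of_nonneg_left (hpw p2 (by omega)) hC2.le
  -- splitting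
  have hk0 : k0 M ≤ M / 2 := by unfold k0; omega
  rw [KE_eq M hσ hτ]
  have hsplit : ∑ k ∈ Finset.Ico (k0 M) M, FM M σ τ (yk 2 M k : ℝ) =
      ∑ k ∈ Finset.Ico (k0 M) (M / 2), FM M σ τ (yk 2 M k : ℝ) +
      (∑ k ∈ Finset.Ico (M / 2) (M - 1), FM M σ τ (yk 2 M k : ℝ) +
        FM M σ τ (yk 2 M (M - 1) : ℝ)) := by
    rw [← Finset.sum_Ico_succ_top (by omega), show M - 1 + 1 = M by omega,
      Finset.sum_Ico_consecutive _ hk0 (by omega)]
  -- the middle part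
  have hmid : ‖∑ k ∈ Finset.Ico (k0 M) (M / 2), FM M σ τ (yk 2 M k : ℝ)‖ ≤ C1 * X := by
    have hterm : ∀ k ∈ Finset.Ico (k0 M) (M / 2), ‖FM M σ τ (yk 2 M k : ℝ)‖ ≤
        C1 * M ^ p1 * Real.exp (M * m) := by
      intro k hk
      rw [Finset.mem_Ico] at hk
      have hk1 : (2 * M : ℝ) ≤ 5 * (k + 1) := by
        have : 2 * M ≤ 5 * (k + 1) := by
          have := hk.1
          unfold k0 at this
          omega
        exact_mod_cast this
      have hk2 : (2 : ℝ) * (k + 1) ≤ M := by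
        have : 2 * (k + 1) ≤ M := by omega
        exact_mod_cast this
      have hy0 : -1 / 10 ≤ yk 2 M k := by
        rw [yk_two]
        have : 2 / 5 ≤ ((k : ℝ) + 1) / M := by
          rw [div_le_div_iff₀ (by norm_num) hM0]
          linarith
        linarith
      have hy1 : yk 2 M k ≤ 0 := by
        rw [yk_two]
        have : ((k : ℝ) + 1) / M ≤ 1 / 2 := by
          rw [div_le_div_iff₀ hM0 (by norm_num)]
          linarith
        linarith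
      have h4 := h1 M (by omega) σ τ ((yk 2 M k : ℝ) : ℂ) hσ hτ (by rw [ofReal_re]; linarith)
        (by rw [ofReal_re]; linarith)
      rw [ofReal_im, abs_zero, mul_zero, Real.exp_zero, mul_one] at h4
      refine h4.trans ?_
      have h5 := hm2 _ hy0 hy1
      gcongr
    refine (norm_sum_le_of_le _ hterm).trans ?_
    rw [Finset.sum_const, Nat.card_Ico, nsmul_eq_mul]
    have h6 : (((M / 2 - k0 M : ℕ)) : ℝ) ≤ M := by
      exact_mod_cast (by omega : M / 2 - k0 M ≤ M)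
    calc ((M / 2 - k0 M : ℕ) : ℝ) * (C1 * M ^ p1 * Real.exp (M * m))
        ≤ M * (C1 * M ^ p1 * Real.exp (M * m)) := by gcongr
      _ = C1 * (M ^ (p1 + 1) * Real.exp (M * m)) := by ring
      _ ≤ C1 * X := mul_le_mul_of_nonneg_left (hpw _ (by omega)) hC1.le
  -- the last term
  have hlast : ‖FM M σ τ (yk 2 M (M - 1) : ℝ)‖ ≤ C2 * X := by
    have e : yk 2 M (M - 1) = 1 / 2 := by
      rw [yk_two, Nat.cast_sub (by omega)]
      push_cast
      field_simp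
      ring
    rw [e]
    exact (hend (1 / 2) (Or.inr ⟨by linarith, le_rfl⟩)).trans hC2X
  -- the upper part
  have hup := h3 M hM σ τ hσ hτ hσB hτB
  have hup' : C3 * M ^ p3 * Real.exp (M * (Real.pi * (σ.ht + τ.ht))) ≤ C3 * X := by
    calc C3 * M ^ p3 * Real.exp (M * (Real.pi * (σ.ht + τ.ht)))
        ≤ C3 * (M ^ p3 * Real.exp (M * m)) := by
          rw [mul_assoc]
          gcongr
      _ ≤ C3 * X := mul_le_mul_of_nonneg_left (hpw _ (by omega)) hC3.le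
  replace hup := hup.trans hup'
  -- the integral
  have hyl0 := yl_nonneg hMpos
  have hyl1 := yl_le hMpos
  have hstr : ∀ x : ℝ, 0 ≤ x → x ≤ 1 / 2 → (x : ℂ) ∈ strip M := by
    intro x hx0 hx1
    constructor
    · rw [ofReal_re]
      linarith
    · rw [ofReal_re]
      linarith
  have hint : ∫ y in (yl M)..(1 / 2 - 1 / (2 * M)), FM M σ τ (y : ℂ) =
      G ((1 / 2 - 1 / (2 * M) : ℝ) : ℂ) - G (yl M : ℂ) := by
    have h4 := prim_line hMpos hσ hτ hG (c := 0) (a := yl M) (b := 1 / 2 - 1 / (2 * M)) (by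
      intro t ht
      rw [uIcc_of_le (by linarith)] at ht
      rw [zero_add]
      exact hstr t (by linarith [ht.1]) (by linarith [ht.2]))
    simp only [zero_add] at h4
    exact h4
  rw [hint] at hup
  have hseg : ∀ a b : ℝ, a ≤ b → b - a ≤ 1 / (2 * M) →
      (∀ x : ℝ, a ≤ x → x ≤ b →
        ((0 ≤ x ∧ x ≤ 1 / (2 * M)) ∨ (1 / 2 - 1 / (2 * M) ≤ x ∧ x ≤ 1 / 2))) →
      ‖(M : ℂ) * (G b - G a)‖ ≤ C2 * X / 2 := by
    intro a b hab hba hx
    have h4 := prim_seg (G := G) (g := FM M σ τ) (a := (a : ℂ)) (b := (b : ℂ))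
      (D := C2 * M ^ p2 * Real.exp (M * m)) (by
        intro z hz
        obtain ⟨x, rfl, hxa, hxb⟩ := mem_segment_real hab hz
        apply hG
        rcases hx x hxa hxb with h | h
        · exact hstr x h.1 (by linarith [h.2])
        · exact hstr x (by linarith [h.1]) h.2) (by
        intro z hz
        obtain ⟨x, rfl, hxa, hxb⟩ := mem_segment_real hab hz
        exact hend x (hx x hxa hxb))
    rw [← ofReal_sub, norm_real, Real.norm_eq_abs, abs_of_nonneg (by linarith)] at h4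
    rw [norm_mul, norm_natCast]
    have h5 : (M : ℝ) * (b - a) ≤ 1 / 2 := by
      have h6 := mul_le_mul_of_nonneg_left hba hM0.le
      rwa [show (M : ℝ) * (1 / (2 * M)) = 1 / 2 by field_simp] at h6
    have h7 : 0 ≤ C2 * M ^ p2 * Real.exp (M * m) := by positivity
    calc (M : ℝ) * ‖G b - G a‖ ≤ M * (C2 * M ^ p2 * Real.exp (M * m) * (b - a)) := by gcongr
      _ = (C2 * M ^ p2 * Real.exp (M * m)) * (M * (b - a)) := by ring
      _ ≤ (C2 * M ^ p2 * Real.exp (M * m)) * (1 / 2) := by gcongr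
      _ ≤ (C2 * X) * (1 / 2) := by gcongr
      _ = _ := by ring
  have s1 := hseg 0 (yl M) hyl0 (by linarith) (fun x hx0 hx1 => Or.inl ⟨hx0, by linarith⟩)
  have s2 := hseg (1 / 2 - 1 / (2 * M)) (1 / 2) (by linarith) (by linarith)
    (fun x hx0 hx1 => Or.inr ⟨hx0, hx1⟩)
  have e : (∑ k ∈ Finset.Ico (k0 M) M, FM M σ τ (yk 2 M k : ℝ)) - M * (G (1 / 2) - G 0) =
      ∑ k ∈ Finset.Ico (k0 M) (M / 2), FM M σ τ (yk 2 M k : ℝ) +
      (((∑ k ∈ Finset.Ico (M / 2) (M - 1), FM M σ τ (yk 2 M k : ℝ)) -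
        M * (G ((1 / 2 - 1 / (2 * M) : ℝ) : ℂ) - G (yl M : ℂ))) +
      (FM M σ τ (yk 2 M (M - 1) : ℝ) + (-(M * (G (yl M : ℂ) - G ((0 : ℝ) : ℂ))) +
        -(M * (G ((1 / 2 : ℝ) : ℂ) - G ((1 / 2 - 1 / (2 * M) : ℝ) : ℂ)))))) := by
    rw [hsplit, show ((1 / 2 : ℝ) : ℂ) = 1 / 2 by push_cast; rfl, ofReal_zero]
    ring
  rw [e]
  have s1' := (norm_neg ((M : ℂ) * (G (yl M : ℂ) - G ((0 : ℝ) : ℂ)))).trans_le s1
  have s2' := (norm_neg ((M : ℂ) * (G ((1 / 2 : ℝ) : ℂ) -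
    G ((1 / 2 - 1 / (2 * M) : ℝ) : ℂ)))).trans_le s2
  refine (norm_add_le_of_le hmid (norm_add_le_of_le hup (norm_add_le_of_le hlast
    (norm_add_le_of_le s1' s2')))).trans ?_
  rw [mul_assoc, ← hX]
  linarith

/-! ### Polygons -/

/-- The points `a` and `b` are the ends of a polygon with `n` sides in `S`. -/
def Poly (S : Set ℂ) (n : ℕ) (a b : ℂ) : Prop :=
  ∃ q : ℕ → ℂ, q 0 = a ∧ q n = b ∧ ∀ i < n, segment ℝ (q i) (q (i + 1)) ⊆ S

theorem Poly.mono {S T : Set ℂ} {n : ℕ} {a b : ℂ} (h : Poly S n a b) (hST : S ⊆ T) :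
    Poly T n a b := by
  obtain ⟨q, h0, h1, h2⟩ := h
  exact ⟨q, h0, h1, fun i hi => (h2 i hi).trans hST⟩

theorem Poly.nil {S : Set ℂ} {a : ℂ} : Poly S 0 a a := ⟨fun _ => a, rfl, rfl, fun i hi => by omega⟩

theorem Poly.snoc {S : Set ℂ} {n : ℕ} {a b c : ℂ} (h : Poly S n a b) (hs : segment ℝ b c ⊆ S) :
    Poly S (n + 1) a c := by
  obtain ⟨q, h0, h1, h2⟩ := h
  refine ⟨fun i => if i ≤ n then q i else c, by simp [h0], by simp, fun i hi => ?_⟩
  simp only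
  rcases Nat.lt_or_ge i n with h | h
  · rw [if_pos (by omega), if_pos (by omega)]
    exact h2 i h
  · rw [if_pos (by omega), if_neg (by omega), show i = n by omega, h1]
    exact hs

theorem Poly.seg {S : Set ℂ} {a b : ℂ} (hs : segment ℝ a b ⊆ S) : Poly S 1 a b :=
  Poly.nil.snoc hs

theorem Poly.trans {S : Set ℂ} {n k : ℕ} {a b c : ℂ} (h : Poly S n a b) (h' : Poly S k b c) :
    Poly S (n + k) a c := by
  induction k generalizing c with
  | zero =>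
    obtain ⟨q, h0, h1, _⟩ := h'
    rw [add_zero, ← h1, h0]
    exact h
  | succ k ih =>
    obtain ⟨q, h0, h1, h2⟩ := h'
    rw [← h1]
    have h3 : Poly S k b (q k) := ⟨q, h0, rfl, fun i hi => h2 i (by omega)⟩
    exact (ih h3).snoc (h2 k (by omega))

/-- The box in which the paths run. -/
def bxy (H : ℝ) : Set ℂ := {z | 0 ≤ z.re ∧ z.re ≤ 1 / 2 ∧ |z.im| ≤ H}

theorem bxy_sub {H : ℝ} {M : ℕ} (hM : 0 < M) : bxy H ⊆ strip M := by
  intro z hz
  have hM0 : (0 : ℝ) < M := by exact_mod_cast hM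
  have hd0 : 0 < 1 / (2 * (M : ℝ)) := by positivity
  constructor
  · linarith [hz.1]
  · linarith [hz.2.1]

theorem bxy_dist {H : ℝ} {a b : ℂ} (ha : a ∈ bxy H) (hb : b ∈ bxy H) :
    ‖b - a‖ ≤ 1 / 2 + 2 * H := by
  have h := norm_le_abs_re_add_abs_im (b - a)
  rw [sub_re, sub_im] at h
  obtain ⟨a1, a2, a3⟩ := ha
  obtain ⟨b1, b2, b3⟩ := hb
  have h1 : |b.re - a.re| ≤ 1 / 2 := by
    rw [abs_le]
    constructor <;> linarith
  have h2 : |b.im - a.im| ≤ 2 * H := by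
    have := abs_sub b.im a.im
    linarith
  linarith

theorem Poly.bound {S : Set ℂ} {n : ℕ} {a b : ℂ} {H D : ℝ} {G g : ℂ → ℂ} (h : Poly S n a b)
    (hS : S ⊆ bxy H) (hD0 : 0 ≤ D) (hG : ∀ z ∈ S, HasDerivAt G (g z) z)
    (hD : ∀ z ∈ S, ‖g z‖ ≤ D) : ‖G b - G a‖ ≤ n * (D * (1 / 2 + 2 * H)) := by
  obtain ⟨q, h0, h1, h2⟩ := h
  have key : ∀ k ≤ n, ‖G (q k) - G (q 0)‖ ≤ k * (D * (1 / 2 + 2 * H)) := by
    intro k
    induction k with
    | zero =>
      intro _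
      simp
    | succ k ih =>
      intro hk
      have h3 := ih (by omega)
      have h4 := prim_seg (G := G) (g := g) (D := D) (fun z hz => hG z (h2 k (by omega) hz))
        (fun z hz => hD z (h2 k (by omega) hz))
      have h5 := bxy_dist (hS (h2 k (by omega) (left_mem_segment ℝ _ _)))
        (hS (h2 k (by omega) (right_mem_segment ℝ _ _)))
      have h6 : D * ‖q (k + 1) - q k‖ ≤ D * (1 / 2 + 2 * H) := mul_le_mul_of_nonneg_left h5 hD0
      have e : G (q (k + 1)) - G (q 0) = (G (q (k + 1)) - G (q k)) + (G (q k) - G (q 0)) := by ring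
      rw [e]
      refine (norm_add_le _ _).trans ?_
      push_cast
      linarith
  have := key n le_rfl
  rwa [h0, h1] at this

/-- The set where the growth rate is at most `m`. -/
def low (H : ℝ) (σ τ : Sl) (m : ℝ) : Set ℂ := {z | z ∈ bxy H ∧ EE σ τ z ≤ m}

theorem Poly.FM {H : ℝ} (hH : 0 ≤ H) (n : ℕ) : ∃ C : ℝ, 0 < C ∧ ∃ p : ℕ, ∀ M : ℕ, 3 ≤ M →
    ∀ (σ τ : Sl), σ.ok → τ.ok → ∀ (m : ℝ) (a b : ℂ), Poly (low H σ τ m) n a b →
    ∀ G : ℂ → ℂ, (∀ z ∈ strip M, HasDerivAt G (FM M σ τ z) z) →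
    ‖(M : ℂ) * (G b - G a)‖ ≤ C * M ^ p * Real.exp (M * m) := by
  obtain ⟨C1, hC1, p1, h1⟩ := FM_bound
  refine ⟨(n + 1) * (C1 * Real.exp (C1 * H) * (1 / 2 + 2 * H)), by positivity, p1 + 1,
    fun M hM σ τ hσ hτ m a b hP G hG => ?_⟩
  have hMpos : 0 < M := by omega
  have hM0 : (0 : ℝ) < M := by exact_mod_cast hMpos
  have hM3 : (3 : ℝ) ≤ M := by exact_mod_cast hM
  have hd0 : 0 < 1 / (2 * (M : ℝ)) := by positivity
  have hd1 : 1 / (2 * (M : ℝ)) ≤ 1 / 6 := by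
    rw [div_le_div_iff₀ (by positivity) (by norm_num)]
    linarith
  have hsub : low H σ τ m ⊆ bxy H := fun z hz => hz.1
  have hb := hP.bound (H := H) (D := C1 * M ^ p1 * Real.exp (C1 * H) * Real.exp (M * m)) hsub
    (by positivity) (fun z hz => hG z (bxy_sub hMpos (hsub hz))) (by
      intro z hz
      have h3 := h1 M (by omega) σ τ z hσ hτ (by linarith [hz.1.1]) hz.1.2.1
      refine h3.trans ?_
      have h4 := hz.2
      have h5 := hz.1.2.2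
      gcongr)
  rw [norm_mul, norm_natCast]
  calc (M : ℝ) * ‖G b - G a‖
      ≤ M * (n * (C1 * M ^ p1 * Real.exp (C1 * H) * Real.exp (M * m) * (1 / 2 + 2 * H))) := by
        gcongr
    _ = n * (C1 * Real.exp (C1 * H) * (1 / 2 + 2 * H)) * (M ^ (p1 + 1) * Real.exp (M * m)) := by
        ring
    _ ≤ (n + 1) * (C1 * Real.exp (C1 * H) * (1 / 2 + 2 * H)) *
        (M ^ (p1 + 1) * Real.exp (M * m)) := by
        gcongr
        linarith
    _ = _ := by ring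

/-- The bound of the kernel by the growth rate on a polygon. -/
theorem KE_bd {B H : ℝ} (hB : 0 ≤ B) (hH : 0 ≤ H) (n : ℕ) : ∃ C : ℝ, 0 < C ∧ ∃ p : ℕ,
    ∀ M : ℕ, 3 ≤ M → ∀ (σ τ : Sl), σ.ok → τ.ok → σ.ht ≤ B → τ.ht ≤ B →
    ∀ m : ℝ, Real.pi * (σ.ht + τ.ht) ≤ m →
    (∀ y : ℝ, -1 / 10 ≤ y → y ≤ 0 → EE σ τ y ≤ m) →
    Poly (low H σ τ m) n 0 (1 / 2) →
    ‖KE M σ τ‖ ≤ C * M ^ p * Real.exp (M * m) := by
  obtain ⟨C1, hC1, p1, h1⟩ := KE_prim hB
  obtain ⟨C2, hC2, p2, h2⟩ := Poly.FM hH n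
  refine ⟨C1 + C2, by positivity, p1 + p2, fun M hM σ τ hσ hτ hσB hτB m hm1 hm2 hP => ?_⟩
  have hM1 : (1 : ℝ) ≤ M := by exact_mod_cast (by omega : 1 ≤ M)
  obtain ⟨G, hG⟩ := FM_prim (by omega : 0 < M) hσ hτ
  have a1 := h1 M hM σ τ hσ hτ hσB hτB m hm1 hm2 G hG
  have a2 := h2 M hM σ τ hσ hτ m 0 (1 / 2) hP G hG
  have e : KE M σ τ = (KE M σ τ - M * (G (1 / 2) - G 0)) + M * (G (1 / 2) - G 0) := by ring
  rw [e]
  refine (norm_add_le_of_le a1 a2).trans ?_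
  have b1 : (M : ℝ) ^ p1 ≤ M ^ (p1 + p2) := pow_le_pow_right₀ hM1 (by omega)
  have b2 : (M : ℝ) ^ p2 ≤ M ^ (p1 + p2) := pow_le_pow_right₀ hM1 (by omega)
  calc C1 * M ^ p1 * Real.exp (M * m) + C2 * M ^ p2 * Real.exp (M * m)
      ≤ C1 * M ^ (p1 + p2) * Real.exp (M * m) + C2 * M ^ (p1 + p2) * Real.exp (M * m) := by
        gcongr
    _ = _ := by ring

/-- The kernel and the integral over a horizontal piece. -/
theorem KE_piece {B H : ℝ} (hB : 0 ≤ B) (hH : 0 ≤ H) (n n' : ℕ) : ∃ C : ℝ, 0 < C ∧ ∃ p : ℕ,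
    ∀ M : ℕ, 3 ≤ M → ∀ (σ τ : Sl), σ.ok → τ.ok → σ.ht ≤ B → τ.ht ≤ B →
    ∀ m : ℝ, Real.pi * (σ.ht + τ.ht) ≤ m →
    (∀ y : ℝ, -1 / 10 ≤ y → y ≤ 0 → EE σ τ y ≤ m) →
    ∀ (yc : ℂ) (r : ℝ), 0 ≤ r → 0 ≤ yc.re - r → yc.re + r ≤ 1 / 2 →
    Poly (low H σ τ m) n 0 (yc - r) → Poly (low H σ τ m) n' (yc + r) (1 / 2) →
    ‖KE M σ τ - M * ∫ s in (-r)..r, FM M σ τ (yc + s)‖ ≤ C * M ^ p * Real.exp (M * m) := by
  obtain ⟨C1, hC1, p1, h1⟩ := KE_prim hB
  obtain ⟨C2, hC2, p2, h2⟩ := Poly.FM hH n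
  obtain ⟨C3, hC3, p3, h3⟩ := Poly.FM hH n'
  refine ⟨C1 + (C2 + C3), by positivity, p1 + p2 + p3,
    fun M hM σ τ hσ hτ hσB hτB m hm1 hm2 yc r hr hr0 hr1 hP1 hP2 => ?_⟩
  have hMpos : 0 < M := by omega
  have hM0 : (0 : ℝ) < M := by exact_mod_cast hMpos
  have hM1 : (1 : ℝ) ≤ M := by exact_mod_cast (by omega : 1 ≤ M)
  have hd0 : 0 < 1 / (2 * (M : ℝ)) := by positivity
  obtain ⟨G, hG⟩ := FM_prim hMpos hσ hτ
  have a1 := h1 M hM σ τ hσ hτ hσB hτB m hm1 hm2 G hG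
  have a2 := h2 M hM σ τ hσ hτ m _ _ hP1 G hG
  have a3 := h3 M hM σ τ hσ hτ m _ _ hP2 G hG
  have hint := prim_line hMpos hσ hτ hG (c := yc) (a := -r) (b := r) (by
    intro t ht
    rw [uIcc_of_le (by linarith)] at ht
    have e : (yc + (t : ℂ)).re = yc.re + t := by simp
    constructor
    · rw [e]
      linarith [ht.1]
    · rw [e]
      linarith [ht.2])
  rw [hint]
  have e : KE M σ τ - M * (G (yc + r) - G (yc + ((-r : ℝ) : ℂ))) =
      (KE M σ τ - M * (G (1 / 2) - G 0)) + (M * (G (yc - r) - G 0) +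
        M * (G (1 / 2) - G (yc + r))) := by
    rw [ofReal_neg, ← sub_eq_add_neg]
    ring
  rw [e]
  refine (norm_add_le_of_le a1 (norm_add_le_of_le a2 a3)).trans ?_
  have b1 : (M : ℝ) ^ p1 ≤ M ^ (p1 + p2 + p3) := pow_le_pow_right₀ hM1 (by omega)
  have b2 : (M : ℝ) ^ p2 ≤ M ^ (p1 + p2 + p3) := pow_le_pow_right₀ hM1 (by omega)
  have b3 : (M : ℝ) ^ p3 ≤ M ^ (p1 + p2 + p3) := pow_le_pow_right₀ hM1 (by omega)
  calc C1 * M ^ p1 * Real.exp (M * m) + (C2 * M ^ p2 * Real.exp (M * m) +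
        C3 * M ^ p3 * Real.exp (M * m))
      ≤ C1 * M ^ (p1 + p2 + p3) * Real.exp (M * m) + (C2 * M ^ (p1 + p2 + p3) *
        Real.exp (M * m) + C3 * M ^ (p1 + p2 + p3) * Real.exp (M * m)) := by
        gcongr
    _ = _ := by ring

end Pool.Agent.S3
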