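import Pool.Agent.S3.FlatS
import Pool.Agent.S3.W.Core

/-!
# The flat condition at a real point

`lf_real`, `lf_real1`: `FlatUV (1 / p) (1 / q)` for a real `p`. `flatUV_x`: `p = cos² π x`,
`1/10 ≤ x ≤ 1/4`, `q = cos² π w`, `re w ≤ 7/20`, `sinh² (π im w) < cos² (π re w)`.
-/

set_option autoImplicit false

namespace Pool.Agent.S3

open Complex

/-- `(D² - 2 p Z + p²)² (D² + 2 p Z + p²)` decreases in `Z`. -/
private theorem lf_Z {a u0 u : ℝ} (h0 : 0 ≤ u0) (h1 : u0 ≤ u) (h2 : u ≤ a) :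
    (a - u) ^ 2 * (a + u) ≤ (a - u0) ^ 2 * (a + u0) := by
  have h3 : 0 ≤ u - u0 := by linarith
  have h4 : 0 ≤ a - u := by linarith
  have h5 : (a - u0) ^ 2 * (a + u0) - (a - u) ^ 2 * (a + u) =
      (u - u0) * ((a - u) * (a + u + 2 * u0) + (u - u0) * (a + u0)) := by ring
  have h6 : 0 ≤ (u - u0) * ((a - u) * (a + u + 2 * u0) + (u - u0) * (a + u0)) := by
    apply mul_nonneg h3
    have := mul_nonneg h4 (show 0 ≤ a + u + 2 * u0 by linarith)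
    have := mul_nonneg h3 (show 0 ≤ a + u0 by linarith)
    linarith
  linarith

/-- The condition. -/
def lG (p D Z : ℝ) : Prop :=
  (D ^ 2 - 2 * p * Z + p ^ 2) ^ 2 * (D ^ 2 + 2 * p * Z + p ^ 2) <
    16 * p ^ 2 * (D ^ 2 + p * Z) ^ 2

theorem lG_Z {p D Z0 Z : ℝ} (hp : 0 < p) (h0 : 0 ≤ Z0) (h1 : Z0 ≤ Z) (h2 : Z ≤ D)
    (h : lG p D Z0) : lG p D Z := by
  unfold lG at h ⊢
  have k1 := lf_Z (a := D ^ 2 + p ^ 2) (u0 := 2 * p * Z0) (u := 2 * p * Z) (by positivity)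
    (by nlinarith) (by nlinarith [sq_nonneg (D - p), mul_nonneg hp.le (sub_nonneg.2 h2)])
  have k2 : (D ^ 2 + p * Z0) ^ 2 ≤ (D ^ 2 + p * Z) ^ 2 := by
    apply pow_le_pow_left₀ (by positivity)
    nlinarith
  have k3 := mul_le_mul_of_nonneg_left k2 (show 0 ≤ 16 * p ^ 2 by positivity)
  calc (D ^ 2 - 2 * p * Z + p ^ 2) ^ 2 * (D ^ 2 + 2 * p * Z + p ^ 2)
      = (D ^ 2 + p ^ 2 - 2 * p * Z) ^ 2 * (D ^ 2 + p ^ 2 + 2 * p * Z) := by ring
    _ ≤ (D ^ 2 + p ^ 2 - 2 * p * Z0) ^ 2 * (D ^ 2 + p ^ 2 + 2 * p * Z0) := k1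
    _ = (D ^ 2 - 2 * p * Z0 + p ^ 2) ^ 2 * (D ^ 2 + 2 * p * Z0 + p ^ 2) := by ring
    _ < 16 * p ^ 2 * (D ^ 2 + p * Z0) ^ 2 := h
    _ ≤ _ := k3

theorem lG_p {p p0 D Z : ℝ} (hD : 0 < D) (h1 : D ≤ p) (h2 : p ≤ p0) (hZ : 0 ≤ Z) (hZ' : Z ≤ D)
    (h : lG p0 D Z) : lG p D Z := by
  unfold lG at h ⊢
  have hp : 0 < p := by linarith
  have hp0 : 0 < p0 := by linarith
  -- `K`
  have a0 : 0 ≤ D ^ 2 - 2 * p * Z + p ^ 2 := by
    nlinarith [sq_nonneg (D - p), mul_nonneg hp.le (sub_nonneg.2 hZ')]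
  have a1 : (D ^ 2 - 2 * p * Z + p ^ 2) * p0 ≤ (D ^ 2 - 2 * p0 * Z + p0 ^ 2) * p := by
    have : (D ^ 2 - 2 * p0 * Z + p0 ^ 2) * p - (D ^ 2 - 2 * p * Z + p ^ 2) * p0 =
        (p0 - p) * (p * p0 - D ^ 2) := by ring
    have h3 : 0 ≤ (p0 - p) * (p * p0 - D ^ 2) := by
      apply mul_nonneg (by linarith)
      nlinarith
    linarith
  -- `M`
  have a2 : (D ^ 2 + 2 * p * Z + p ^ 2) * (D ^ 2 + p0 * Z) ^ 2 ≤
      (D ^ 2 + 2 * p0 * Z + p0 ^ 2) * (D ^ 2 + p * Z) ^ 2 := by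
    have : (D ^ 2 + 2 * p0 * Z + p0 ^ 2) * (D ^ 2 + p * Z) ^ 2 -
        (D ^ 2 + 2 * p * Z + p ^ 2) * (D ^ 2 + p0 * Z) ^ 2 =
        (D ^ 2 - Z ^ 2) * (p0 - p) * (D ^ 2 * (p0 + p) + 2 * p * p0 * Z) := by ring
    have h3 : 0 ≤ (D ^ 2 - Z ^ 2) * (p0 - p) * (D ^ 2 * (p0 + p) + 2 * p * p0 * Z) := by
      apply mul_nonneg (mul_nonneg _ (by linarith)) (by positivity)
      nlinarith
    linarith
  have b1 : ((D ^ 2 - 2 * p * Z + p ^ 2) * p0) ^ 2 ≤ ((D ^ 2 - 2 * p0 * Z + p0 ^ 2) * p) ^ 2 :=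
    pow_le_pow_left₀ (by positivity) a1 2
  have b2 := mul_le_mul b1 a2 (by positivity) (by positivity)
  have b3 : ((D ^ 2 - 2 * p0 * Z + p0 ^ 2) * p) ^ 2 * ((D ^ 2 + 2 * p0 * Z + p0 ^ 2) *
      (D ^ 2 + p * Z) ^ 2) < 16 * p0 ^ 2 * (D ^ 2 + p0 * Z) ^ 2 * (p ^ 2 * (D ^ 2 + p * Z) ^ 2) := by
    have := mul_lt_mul_of_pos_right h (show 0 < p ^ 2 * (D ^ 2 + p * Z) ^ 2 by positivity)
    calc _ = (D ^ 2 - 2 * p0 * Z + p0 ^ 2) ^ 2 * (D ^ 2 + 2 * p0 * Z + p0 ^ 2) *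
          (p ^ 2 * (D ^ 2 + p * Z) ^ 2) := by ring
      _ < _ := this
  have b4 := b2.trans_lt b3
  have b5 : 0 < p0 ^ 2 * (D ^ 2 + p0 * Z) ^ 2 := by positivity
  refine lt_of_mul_lt_mul_right (a := p0 ^ 2 * (D ^ 2 + p0 * Z) ^ 2) ?_ b5.le
  calc _ = ((D ^ 2 - 2 * p * Z + p ^ 2) * p0) ^ 2 * ((D ^ 2 + 2 * p * Z + p ^ 2) *
        (D ^ 2 + p0 * Z) ^ 2) := by ring
    _ < _ := b4
    _ = _ := by ring

section

variable {p : ℝ} {q : ℂ}

private theorem lf_facts (hp : 0 < p) (hq0 : q ≠ 0) :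
    ‖1 / (p : ℂ)‖ = 1 / p ∧ ‖1 / q‖ = 1 / ‖q‖ ∧ (1 / (p : ℂ)).re = 1 / p ∧
    (1 / q).re = q.re / ‖q‖ ^ 2 ∧
    ‖1 / (p : ℂ) - 1 / q‖ ^ 2 = (‖q‖ ^ 2 - 2 * p * q.re + p ^ 2) / (p ^ 2 * ‖q‖ ^ 2) ∧
    ‖1 / (p : ℂ) + 1 / q‖ ^ 2 = (‖q‖ ^ 2 + 2 * p * q.re + p ^ 2) / (p ^ 2 * ‖q‖ ^ 2) ∧
    ‖1 / (p : ℂ) + (starRingEnd ℂ) (1 / q)‖ ^ 2 =
      (‖q‖ ^ 2 + 2 * p * q.re + p ^ 2) / (p ^ 2 * ‖q‖ ^ 2) ∧
    ‖1 / (p : ℂ) + 1 / q - 1‖ ^ 2 =
      (p ^ 2 + 2 * p * (1 - p) * q.re + (1 - p) ^ 2 * ‖q‖ ^ 2) / (p ^ 2 * ‖q‖ ^ 2) := by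
  have hpc : (p : ℂ) ≠ 0 := by exact_mod_cast hp.ne'
  have hn : ‖q‖ ^ 2 = q.re ^ 2 + q.im ^ 2 := by
    rw [← normSq_eq_norm_sq, normSq_apply]; ring
  have hpn : ‖(p : ℂ)‖ = p := by rw [norm_real, Real.norm_of_nonneg hp.le]
  have nq : ‖(p : ℂ) * q‖ ^ 2 = p ^ 2 * ‖q‖ ^ 2 := by
    rw [norm_mul, hpn, mul_pow]
  refine ⟨by rw [norm_div, norm_one, hpn], by rw [norm_div, norm_one], ?_, ?_, ?_, ?_, ?_, ?_⟩
  · rw [← ofReal_one, ← ofReal_div, ofReal_re]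
  · rw [one_div, inv_re, normSq_eq_norm_sq]
  · have : 1 / (p : ℂ) - 1 / q = (q - p) / (p * q) := by field_simp
    rw [this, norm_div, div_pow, nq, ← normSq_eq_norm_sq, normSq_apply]
    simp only [sub_re, sub_im, ofReal_re, ofReal_im, hn]
    ring
  · have : 1 / (p : ℂ) + 1 / q = (q + p) / (p * q) := by field_simp
    rw [this, norm_div, div_pow, nq, ← normSq_eq_norm_sq, normSq_apply]
    simp only [add_re, add_im, ofReal_re, ofReal_im, hn]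
    ring
  · have e0 : ‖1 / (p : ℂ) + (starRingEnd ℂ) (1 / q)‖ = ‖1 / (p : ℂ) + 1 / q‖ := by
      rw [← norm_conj (1 / (p : ℂ) + 1 / q), map_add, map_div₀ _ 1 (p : ℂ), map_one, conj_ofReal]
    have : 1 / (p : ℂ) + 1 / q = (q + p) / (p * q) := by field_simp
    rw [e0, this, norm_div, div_pow, nq, ← normSq_eq_norm_sq, normSq_apply]
    simp only [add_re, add_im, ofReal_re, ofReal_im, hn]
    ring
  · have : 1 / (p : ℂ) + 1 / q - 1 = (p + ((1 - p : ℝ) : ℂ) * q) / (p * q) := by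
      push_cast
      field_simp
      ring
    rw [this, norm_div, div_pow, nq, ← normSq_eq_norm_sq, normSq_apply]
    simp only [add_re, add_im, ofReal_re, ofReal_im, mul_re, mul_im, hn]
    ring

/-- The flat condition, `|q| ≤ 1`. -/
theorem lf_real (hp : 0 < p) (hp1 : p < 1) (hq : ‖q‖ ^ 2 < 2 * q.re) (hD : ‖q‖ ≤ 1)
    (hG : lG p ‖q‖ q.re) : FlatUV (1 / (p : ℂ)) (1 / q) := by
  have hq0 : q ≠ 0 := by
    rintro rfl
    simp at hq
  obtain ⟨e1, e2, e3, e4, e5, e6, e7, e8⟩ := lf_facts hp hq0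
  set D := ‖q‖ with hDd
  set Z := q.re with hZd
  have hD0 : 0 < D := norm_pos_iff.2 hq0
  have hD2 : 0 < D ^ 2 := by positivity
  have hZ0 : 0 < Z := by linarith
  have hU : 1 < 1 / p := by rw [lt_div_iff₀ hp]; linarith
  have hV : 1 / 2 < Z / D ^ 2 := by rw [lt_div_iff₀ hD2]; linarith
  have hre : (1 / (p : ℂ) + 1 / q - 1).re = 1 / p + Z / D ^ 2 - 1 := by
    rw [sub_re, add_re, one_re, e3, e4]
  refine ⟨by rw [hre]; linarith, by rw [e3]; linarith, by rw [e4]; exact hV, Or.inr ⟨?_, ?_, ?_⟩⟩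
  · have h1 : 1 ≤ ‖1 / (p : ℂ) + 1 / q - 1‖ ^ 2 := by
      rw [e8, le_div_iff₀ (by positivity)]
      have h2 : 0 ≤ 2 * p * (1 - p) * Z := by
        have := mul_nonneg hp.le (show 0 ≤ 1 - p by linarith)
        nlinarith
      have h3 : D ^ 2 ≤ 1 := by nlinarith
      have h4 := mul_le_mul_of_nonneg_left h3 (sq_nonneg p)
      have h5 : 0 ≤ (1 - p) ^ 2 * D ^ 2 := by positivity
      linarith
    by_contra hc
    push Not at hc
    nlinarith [norm_nonneg (1 / (p : ℂ) + 1 / q - 1)]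
  · rw [e5, e1, e2, add_re, e3, e4]
    unfold lG at hG
    have n0 : 0 ≤ ‖1 / (p : ℂ) + 1 / q‖ := norm_nonneg _
    set n := ‖1 / (p : ℂ) + 1 / q‖ with hn
    have hA : 0 ≤ D ^ 2 - 2 * p * Z + p ^ 2 := by
      have : 0 ≤ (D ^ 2 - 2 * p * Z + p ^ 2) / (p ^ 2 * D ^ 2) := by rw [← e5]; positivity
      have h3 : 0 < p ^ 2 * D ^ 2 := by positivity
      by_contra hc
      push Not at hc
      have := div_neg_of_neg_of_pos hc h3
      linarith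
    -- `A n p D < 4 (D² + p Z) p`
    have k1 : (D ^ 2 - 2 * p * Z + p ^ 2) * (n * (p * D)) < 4 * p * (D ^ 2 + p * Z) := by
      have k2 : ((D ^ 2 - 2 * p * Z + p ^ 2) * (n * (p * D))) ^ 2 <
          (4 * p * (D ^ 2 + p * Z)) ^ 2 := by
        have e9 : (n * (p * D)) ^ 2 = D ^ 2 + 2 * p * Z + p ^ 2 := by
          rw [mul_pow, e6]
          field_simp
        rw [mul_pow, e9]
        calc _ < 16 * p ^ 2 * (D ^ 2 + p * Z) ^ 2 := hG
          _ = _ := by ring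
      exact lt_of_pow_lt_pow_left₀ 2 (by positivity) k2
    have k3 : (D ^ 2 - 2 * p * Z + p ^ 2) / (p ^ 2 * D ^ 2) * n =
        (D ^ 2 - 2 * p * Z + p ^ 2) * (n * (p * D)) / (p ^ 3 * D ^ 3) := by
      field_simp
    have k4 : 4 * (1 / p * (1 / D)) * (1 / p + Z / D ^ 2) =
        4 * p * (D ^ 2 + p * Z) / (p ^ 3 * D ^ 3) := by
      field_simp
    rw [k3, k4]
    exact div_lt_div_of_pos_right k1 (by positivity)
  · rw [e7, e1, e2, e3, e4]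
    have k4 : 2 * ((1 / D) ^ 2 * (1 / p) + (1 / p) ^ 2 * (Z / D ^ 2)) =
        2 * (p + Z) / (p ^ 2 * D ^ 2) := by
      field_simp
    rw [k4]
    apply div_lt_div_of_pos_right _ (by positivity)
    have h3 : D ^ 2 ≤ 1 := by nlinarith
    have h4 := mul_lt_mul_of_pos_left hq (show 0 < 1 - p by linarith)
    have h5 := mul_le_mul_of_nonneg_left h3 hp.le
    have h6 := mul_pos hp (show 0 < 1 - p by linarith)
    linarith

/-- The flat condition, `|q| ≥ 1`. -/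
theorem lf_real1 (hp : 1 / 2 ≤ p) (hp1 : p ≤ 90452 / 100000) (hq : ‖q‖ ^ 2 < 2 * q.re)
    (hD : 1 ≤ ‖q‖) (hZ : q.re ≤ ‖q‖) : FlatUV (1 / (p : ℂ)) (1 / q) := by
  have hp0 : 0 < p := by linarith
  have hq0 : q ≠ 0 := by
    rintro rfl
    simp at hq
  obtain ⟨e1, e2, e3, e4, e5, e6, e7, e8⟩ := lf_facts hp0 hq0
  set D := ‖q‖ with hDd
  set Z := q.re with hZd
  have hD0 : 0 < D := norm_pos_iff.2 hq0
  have hD2 : 0 < D ^ 2 := by positivity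
  have hZ0 : 0 < Z := by linarith
  have hD' : D < 2 := by nlinarith
  have hU : 1 + 1055 / 10000 ≤ 1 / p := by rw [le_div_iff₀ hp0]; linarith
  have hV : 1 / 2 < Z / D ^ 2 := by rw [lt_div_iff₀ hD2]; linarith
  have hre : (1 / (p : ℂ) + 1 / q - 1).re = 1 / p + Z / D ^ 2 - 1 := by
    rw [sub_re, add_re, one_re, e3, e4]
  refine ⟨by rw [hre]; linarith, by rw [e3]; linarith, by rw [e4]; exact hV, Or.inl ?_⟩
  set n := ‖1 / (p : ℂ) + 1 / q - 1‖ with hn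
  have n0 : 0 ≤ n := norm_nonneg _
  set N := (1 / (p : ℂ) + 1 / q - 1).re with hN
  -- `n² ≤ (1 + 2.0457) N²`
  have h1 : n ^ 2 ≤ 30458 / 10000 * N ^ 2 := by
    have e9 : n ^ 2 = N ^ 2 + (1 / D ^ 2 - (Z / D ^ 2) ^ 2) := by
      rw [hre, e8]
      field_simp
      ring
    have k1 : 1 / D ^ 2 ≤ 1 := by
      rw [div_le_one hD2]
      nlinarith
    have k2 : 1 / 4 ≤ (Z / D ^ 2) ^ 2 := by nlinarith
    have k3 : 6055 / 10000 ≤ N := by rw [hre]; linarith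
    rw [e9]
    nlinarith
  have hN0 : 6055 / 10000 ≤ N := by rw [hre]; linarith
  have h2 : (D ^ 2 - 2 * p * Z + p ^ 2) ≤ 9 / 4 * (p * D) := by
    have k1 : D ^ 2 - 2 * p * Z + p ^ 2 ≤ D ^ 2 - p * D ^ 2 + p ^ 2 := by nlinarith
    have k2 : D ^ 2 - p * D ^ 2 + p ^ 2 ≤ 9 / 4 * (p * D) := by
      nlinarith [mul_nonneg (sub_nonneg.2 hD) (sub_nonneg.2 hD'.le),
        mul_nonneg (sub_nonneg.2 hp) (sub_nonneg.2 hD), mul_nonneg (sub_nonneg.2 hp) (sub_nonneg.2 hD'.le),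
        mul_nonneg (sub_nonneg.2 hp) (show 0 ≤ 1 - p by linarith),
        mul_nonneg (mul_nonneg (sub_nonneg.2 hD) (sub_nonneg.2 hD'.le)) (show 0 ≤ 1 - p by linarith)]
    linarith
  have hA : 0 ≤ D ^ 2 - 2 * p * Z + p ^ 2 := by nlinarith [sq_nonneg (D - p)]
  have h3 : n < 16 / 9 * N := by
    by_contra hc
    push Not at hc
    nlinarith
  have k4 : 4 * (1 / p * (1 / D)) * N = 4 * p * D * N / (p ^ 2 * D ^ 2) := by
    field_simp
  rw [e5, e1, e2, k4, div_mul_eq_mul_div]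
  apply div_lt_div_of_pos_right _ (by positivity)
  have k5 : (D ^ 2 - 2 * p * Z + p ^ 2) * n ≤ 9 / 4 * (p * D) * n :=
    mul_le_mul_of_nonneg_right h2 n0
  have k6 : 9 / 4 * (p * D) * n < 9 / 4 * (p * D) * (16 / 9 * N) :=
    mul_lt_mul_of_pos_left h3 (by positivity)
  linarith

end

/-! ### The polynomial inequalities -/

/-- The point at the height `sinh² = cos²`. -/
private theorem lf_case1 {D : ℝ} (h0 : 4122 / 10000 ≤ D) (h1 : D ≤ 1) :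
    lG (90452 / 100000) D (D ^ 2 / 2) := by
  unfold lG
  have h2 : (4122 / 10000) ^ 2 ≤ D ^ 2 := pow_le_pow_left₀ (by norm_num) h0 2
  have h3 : D ^ 2 ≤ 1 := by nlinarith
  nlinarith [mul_nonneg (sub_nonneg.2 h2) (sub_nonneg.2 h3),
    mul_nonneg (mul_nonneg (sub_nonneg.2 h2) (sub_nonneg.2 h3)) (sq_nonneg D)]

/-- The point on the vertical `7/20`. -/
private theorem lf_case2 {E : ℝ} (h0 : 0 ≤ E) (h1 : E ≤ 2061 / 10000) :
    lG (90452 / 100000) (4122 / 10000 - E)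
      (((4122 / 10000 - E) ^ 2 + 2 * E - E ^ 2) / 2) := by
  unfold lG
  have h2 : 0 ≤ E ^ 2 := sq_nonneg E
  have h3 := mul_nonneg h2 (sub_nonneg.2 h1)
  have h4 := mul_nonneg (sq_nonneg (E ^ 2)) (sub_nonneg.2 h1)
  have h5 := mul_nonneg (mul_nonneg (sq_nonneg (E ^ 2)) h0) (sub_nonneg.2 h1)
  have h6 := mul_nonneg (sq_nonneg (E ^ 2)) h0
  nlinarith

/-- The condition for `p ≤ cos² (π / 10)`, `C = cos² π re w ≥ cos² (7 π / 20)` and
`S = sinh² π im w < C`. -/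
theorem lG_CS {p C S : ℝ} (hp : 1 / 2 ≤ p) (hp1 : p ≤ 90452 / 100000)
    (hC : 2061 / 10000 ≤ C) (hC1 : C ≤ 1) (hS : 0 ≤ S) (hS1 : S ≤ C) (hD : C + S ≤ 1) :
    lG p (C + S) (C - S + 2 * C * S) := by
  have hZD : C - S + 2 * C * S ≤ C + S := by
    have := mul_nonneg (show 0 ≤ 1 - C by linarith) hS
    nlinarith
  have hE : (C + S) ^ 2 / 2 ≤ C - S + 2 * C * S := by
    have h1 := mul_nonneg (sub_nonneg.2 hS1) (show 0 ≤ 2 - (C - S) by linarith)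
    nlinarith
  have hp0 : 0 < p := by linarith
  have hD0 : 0 < C + S := by linarith
  by_cases h1 : p ≤ C + S
  · refine lG_Z hp0 le_rfl (by nlinarith [sq_nonneg (C + S)]) hZD ?_
    unfold lG
    have h2 : p ^ 2 ≤ (C + S) ^ 2 := pow_le_pow_left₀ hp0.le h1 2
    have h3 : (C + S) ^ 2 ≤ 1 := by nlinarith
    have h4 : 1 / 4 ≤ p ^ 2 := by nlinarith
    have h7 : ∀ P Q : ℝ, P ≤ Q → Q ≤ 4 * P → 0 < Q → (Q + P) ^ 3 < 16 * P * Q ^ 2 := by
      intro P Q h2 h5 h6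
      have hP : 0 < P := by linarith
      have h8 := mul_nonneg (sub_nonneg.2 h2) (sub_nonneg.2 h5)
      have h9 := mul_nonneg h8 h6.le
      have h10 := mul_nonneg h8 hP.le
      have h11 : 0 < Q ^ 3 := by positivity
      have h12 : 0 < P ^ 3 := by positivity
      have h13 : 0 < P ^ 2 * Q := by positivity
      have h14 : 0 < P * Q ^ 2 := by positivity
      nlinarith
    have h15 := h7 (p ^ 2) ((C + S) ^ 2) h2 (by linarith) (by positivity)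
    calc _ = ((C + S) ^ 2 + p ^ 2) ^ 3 := by ring
      _ < 16 * p ^ 2 * ((C + S) ^ 2) ^ 2 := h15
      _ = _ := by ring
  · push Not at h1
    by_cases h2 : 4122 / 10000 ≤ C + S
    · exact lG_p hD0 h1.le hp1 (by nlinarith [sq_nonneg (C + S)]) hZD
        (lG_Z (by norm_num) (by positivity) hE hZD (lf_case1 h2 hD))
    · push Not at h2
      have h3 := lf_case2 (E := 4122 / 10000 - (C + S)) (by linarith) (by linarith)
      have e1 : 4122 / 10000 - (4122 / 10000 - (C + S)) = C + S := by ring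
      rw [e1] at h3
      refine lG_p hD0 h1.le hp1 (by nlinarith [sq_nonneg (C + S)]) hZD
        (lG_Z (by norm_num) ?_ ?_ hZD h3)
      · nlinarith [sq_nonneg (C + S)]
      · have h4 : 4122 / 10000 - (C + S) ≤ C - S := by linarith
        have h5 := mul_nonneg (sub_nonneg.2 h4)
          (show 0 ≤ 2 - (C - S) - (4122 / 10000 - (C + S)) by linarith)
        nlinarith

/-! ### The flat at a real point -/

theorem lf_cos_sq (w : ℂ) :
    ‖cos (Real.pi * w) ^ 2‖ = Real.cos (Real.pi * w.re) ^ 2 + Real.sinh (Real.pi * w.im) ^ 2 ∧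
    (cos (Real.pi * w) ^ 2).re = Real.cos (Real.pi * w.re) ^ 2 - Real.sinh (Real.pi * w.im) ^ 2 +
      2 * Real.cos (Real.pi * w.re) ^ 2 * Real.sinh (Real.pi * w.im) ^ 2 := by
  have h1 := Real.cosh_sq (Real.pi * w.im)
  have h2 := Real.sin_sq (Real.pi * w.re)
  constructor
  · rw [norm_pow, ← normSq_eq_norm_sq, normSq_apply, wcos_re, wcos_im, pi_mul_re, pi_mul_im]
    linear_combination (Real.cos (Real.pi * w.re)) ^ 2 * h1 +
      (Real.sinh (Real.pi * w.im)) ^ 2 * h2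
  · rw [sq, mul_re, wcos_re, wcos_im, pi_mul_re, pi_mul_im]
    linear_combination (Real.cos (Real.pi * w.re)) ^ 2 * h1 -
      (Real.sinh (Real.pi * w.im)) ^ 2 * h2

theorem lf_pi10 {x : ℝ} (h1 : 1 / 10 ≤ x) (h2 : x ≤ 1 / 4) :
    1 / 2 ≤ Real.cos (Real.pi * x) ^ 2 ∧ Real.cos (Real.pi * x) ^ 2 ≤ 90452 / 100000 := by
  have hpi := Real.pi_pos
  have e : ∀ y : ℝ, Real.cos y ^ 2 = (1 + Real.cos (2 * y)) / 2 := fun y => by
    rw [Real.cos_sq]; ring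
  rw [e]
  constructor
  · have : 0 ≤ Real.cos (2 * (Real.pi * x)) :=
      Real.cos_nonneg_of_mem_Icc ⟨by nlinarith, by nlinarith⟩
    linarith
  · have h3 : Real.cos (2 * (Real.pi * x)) ≤ Real.cos (Real.pi / 5) :=
      Real.cos_le_cos_of_nonneg_of_le_pi (by positivity) (by nlinarith) (by nlinarith)
    have h5 : √5 ≤ 22361 / 10000 := by
      rw [Real.sqrt_le_left (by norm_num)]
      norm_num
    rw [Real.cos_pi_div_five] at h3
    linarith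

theorem lf_pi7 {a : ℝ} (h1 : 0 ≤ a) (h2 : a ≤ 7 / 20) :
    2061 / 10000 ≤ Real.cos (Real.pi * a) ^ 2 := by
  have hpi := Real.pi_pos
  have e : ∀ y : ℝ, Real.cos y ^ 2 = (1 + Real.cos (2 * y)) / 2 := fun y => by
    rw [Real.cos_sq]; ring
  rw [e]
  have h3 : Real.cos (7 * Real.pi / 10) ≤ Real.cos (2 * (Real.pi * a)) :=
    Real.cos_le_cos_of_nonneg_of_le_pi (by positivity) (by nlinarith) (by nlinarith)
  have h4 : Real.cos (7 * Real.pi / 10) = -Real.sin (Real.pi / 5) := by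
    have : 7 * Real.pi / 10 = Real.pi / 5 + Real.pi / 2 := by ring
    rw [this, Real.cos_add_pi_div_two]
  have h5 : Real.sin (Real.pi / 5) ≤ 58779 / 100000 := by
    have h6 : Real.sin (Real.pi / 5) ^ 2 = 1 - Real.cos (Real.pi / 5) ^ 2 := Real.sin_sq _
    rw [Real.cos_pi_div_five] at h6
    have h7 : (22360 / 10000) ≤ √5 := Real.le_sqrt_of_sq_le (by norm_num)
    have h8 : √5 ^ 2 = 5 := Real.sq_sqrt (by norm_num)
    have h9 : 0 ≤ Real.sin (Real.pi / 5) :=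
      Real.sin_nonneg_of_nonneg_of_le_pi (by positivity) (by linarith)
    by_contra hc
    push Not at hc
    nlinarith
  linarith

/-- **The flat condition at a real point.** -/
theorem flatUV_x {x : ℝ} {w : ℂ} (h1 : 1 / 10 ≤ x) (h2 : x ≤ 1 / 4) (h3 : 0 ≤ w.re)
    (h4 : w.re ≤ 7 / 20)
    (h5 : Real.sinh (Real.pi * w.im) ^ 2 < Real.cos (Real.pi * w.re) ^ 2) :
    FlatUV (1 / cos (Real.pi * (x : ℂ)) ^ 2) (1 / cos (Real.pi * w) ^ 2) := by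
  obtain ⟨p1, p2⟩ := lf_pi10 h1 h2
  obtain ⟨q1, q2⟩ := lf_cos_sq w
  have c1 := lf_pi7 h3 h4
  have c2 := Real.cos_sq_le_one (Real.pi * w.re)
  have s0 := sq_nonneg (Real.sinh (Real.pi * w.im))
  have e : cos (Real.pi * (x : ℂ)) ^ 2 = ((Real.cos (Real.pi * x) ^ 2 : ℝ) : ℂ) := by
    push_cast
    rfl
  rw [e]
  have hq : ‖cos (Real.pi * w) ^ 2‖ ^ 2 < 2 * (cos (Real.pi * w) ^ 2).re := by
    rw [q1, q2]
    have h1 := mul_pos (sub_pos.2 h5) (show 0 < 2 - (Real.cos (Real.pi * w.re) ^ 2 -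
      Real.sinh (Real.pi * w.im) ^ 2) by linarith)
    nlinarith
  rcases le_total ‖cos (Real.pi * w) ^ 2‖ 1 with hD | hD
  · refine lf_real (by linarith) (by linarith) hq hD ?_
    rw [q1] at hD ⊢
    rw [q2]
    exact lG_CS p1 p2 c1 c2 s0 h5.le hD
  · exact lf_real1 p1 p2 hq hD (re_le_norm _)

/-- The same for the conjugate point. -/
theorem flatUV_xc {x : ℝ} {w : ℂ} (h1 : 1 / 10 ≤ x) (h2 : x ≤ 1 / 4) (h3 : 0 ≤ w.re)
    (h4 : w.re ≤ 7 / 20)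
    (h5 : Real.sinh (Real.pi * w.im) ^ 2 < Real.cos (Real.pi * w.re) ^ 2) :
    FlatUV (1 / cos (Real.pi * (x : ℂ)) ^ 2)
      (1 / cos (Real.pi * (starRingEnd ℂ) w) ^ 2) := by
  apply flatUV_x h1 h2 (by rwa [conj_re]) (by rwa [conj_re])
  rw [conj_re, conj_im, mul_neg, Real.sinh_neg, neg_sq]
  exact h5

end Pool.Agent.S3
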