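import Pool.Agent.S3.FlatS
import Pool.Agent.S3.LowA
import Pool.Agent.S3.W2.NL

/-!
# The flats at a real point
-/

set_option autoImplicit false

namespace Pool.Agent.S3

open Complex

/-- On the own side of `conj w` the growth of the slot is decreasing in `re w`. -/
theorem se_hor {y w w' : ℂ} (hy : y.im ≤ 0) (y0 : 0 ≤ y.re) (y1 : y.re ≤ 1 / 2) (hb : 0 ≤ w.im)
    (him : w'.im = w.im) (h0 : 0 ≤ w'.re) (h1 : w'.re ≤ w.re) (h2 : w.re ≤ 1 / 2) :
    se y (.op ((starRingEnd ℂ) w)) ≤ se y (.op ((starRingEnd ℂ) w')) := by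
  have k1 := se_real_anti (y := (y.re : ℂ) + ((y.im - w.im : ℝ) : ℂ) * I) h0 h1 h2
    (by simpa using y0) (by simpa using y1)
  have hh : |y.im + w.im| ≤ |y.im - w.im| := by
    rw [abs_of_nonpos (by linarith : y.im - w.im ≤ 0), abs_le]
    constructor <;> linarith
  have k2 := Rf_incr hh (a := y.re - w.re) (b := y.re - w'.re) (by linarith)
  have a1 : (y.re : ℂ) + ((y.im - w.im : ℝ) : ℂ) * I - ((w.re : ℝ) : ℂ) =
      ((y.re - w.re : ℝ) : ℂ) + ((y.im - w.im : ℝ) : ℂ) * I := by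
    push_cast; ring
  have a2 : (y.re : ℂ) + ((y.im - w.im : ℝ) : ℂ) * I - ((w'.re : ℝ) : ℂ) =
      ((y.re - w'.re : ℝ) : ℂ) + ((y.im - w.im : ℝ) : ℂ) * I := by
    push_cast; ring
  have a3 : (y.re : ℂ) + ((y.im - w.im : ℝ) : ℂ) * I + ((w.re : ℝ) : ℂ) =
      y + (starRingEnd ℂ) w := by
    apply Complex.ext
    · simp
    · simp
      ring
  have a4 : (y.re : ℂ) + ((y.im - w.im : ℝ) : ℂ) * I + ((w'.re : ℝ) : ℂ) =
      y + (starRingEnd ℂ) w' := by
    apply Complex.ext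
    · simp
    · simp [him]
      ring
  have a5 : ((y.re - w.re : ℝ) : ℂ) + ((y.im + w.im : ℝ) : ℂ) * I = y - (starRingEnd ℂ) w := by
    apply Complex.ext
    · simp
    · simp
  have a6 : ((y.re - w'.re : ℝ) : ℂ) + ((y.im + w.im : ℝ) : ℂ) * I =
      y - (starRingEnd ℂ) w' := by
    apply Complex.ext
    · simp
    · simp [him]
  simp only [se] at k1 ⊢
  rw [a1, a2, a3, a4] at k1
  rw [a5, a6] at k2
  linarith

namespace T2

section

variable {Φ : ℂ → ℂ → ℂ} {θ θ' v1 v1' g g' : ℝ} {v w : ℂ}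

/-- A flat below `L`. -/
def FlB (v w : ℂ) (L : ℝ) : Prop := ∃ H : ℝ, |H| ≤ 1 ∧ Side (yv v w) H ∧
  ∀ t ∈ Set.Icc (0 : ℝ) (1 / 2), EE (.op v) (.op ((starRingEnd ℂ) w)) ((t : ℂ) + H * I) < L

theorem FlB.mono {L L' : ℝ} (h : FlB v w L) (hL : L ≤ L') : FlB v w L' := by
  obtain ⟨H, h1, h2, h3⟩ := h
  exact ⟨H, h1, h2, fun t ht => (h3 t ht).trans_le hL⟩

theorem Und_real (hθ : Ht θ) {x : ℝ} (h0 : 0 ≤ x) (h1 : x ≤ 2 / 5) : Und θ (x : ℂ) :=
  ⟨by rwa [ofReal_re], by rwa [ofReal_re], by simp, by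
    rw [ofReal_im, ofReal_re]
    exact bl_nonneg hθ.pos.le hθ.lt (by rw [abs_of_nonneg h0]; linarith)⟩

theorem Und_tp (hθ : Ht θ) : Und θ (tp θ) :=
  ⟨by rw [tp_re]; norm_num, by rw [tp_re]; norm_num,
    by rw [tp_im]; exact bl_nonneg hθ.pos.le hθ.lt (by rw [abs_of_pos] <;> norm_num),
    by rw [tp_im, tp_re]⟩

theorem bl_anti (hθ : Ht θ) {a b : ℝ} (h0 : 0 ≤ a) (h1 : a ≤ b) (h2 : b ≤ 1 / 2) :
    bl θ b ≤ bl θ a := by
  have hpi := Real.pi_pos
  have h3 : Real.sinh (Real.pi * bl θ b) ≤ Real.sinh (Real.pi * bl θ a) := by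
    rw [sinh_pi_bl, sinh_pi_bl]
    have ht : 0 < Real.tan θ := Real.tan_pos_of_pos_of_lt_pi_div_two hθ.pos hθ.lt
    apply mul_le_mul_of_nonneg_left _ ht.le
    apply Real.cos_le_cos_of_nonneg_of_le_pi (by positivity) (by nlinarith)
    exact mul_le_mul_of_nonneg_left h1 hpi.le
  exact le_of_mul_le_mul_left (Real.sinh_le_sinh.1 h3) hpi

/-- Moving to the left. -/
theorem Und.left {w' : ℂ} (h : Und θ w) (hθ : Ht θ) (him : w'.im = w.im) (h0 : 0 ≤ w'.re)
    (h1 : w'.re ≤ w.re) : Und θ w' :=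
  ⟨h0, h1.trans h.re1, by rw [him]; exact h.im0, by
    rw [him]
    exact h.im1.trans (bl_anti hθ h0 h1 (by linarith [h.re1]))⟩

theorem Ht.le (hθ : Ht θ) : θ ≤ Real.pi / 4 := by
  by_contra hc
  push Not at hc
  have h1 := Real.tan_lt_tan_of_lt_of_lt_pi_div_two (by linarith [Real.pi_pos]) hθ.lt hc
  rw [Real.tan_pi_div_four] at h1
  nlinarith [hθ.tan]

/-- The height of the auxiliary line. -/
theorem ht_aux : Ht (1 / 10) ∧ Real.tan (1 / 10) ^ 2 ≤ 151 / 1000 := by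
  have hpi := Real.pi_gt_three
  have h1 : Real.sin (1 / 10) ≤ 1 / 10 := Real.sin_le (by norm_num)
  have h2 : 995 / 1000 ≤ Real.cos (1 / 10) := by
    have := Real.one_sub_sq_div_two_le_cos (x := 1 / 10)
    linarith
  have h3 : 0 ≤ Real.sin (1 / 10) :=
    Real.sin_nonneg_of_nonneg_of_le_pi (by norm_num) (by linarith)
  have h4 : Real.tan (1 / 10) ≤ 2 / 10 := by
    rw [Real.tan_eq_sin_div_cos, div_le_iff₀ (by linarith)]
    linarith
  have h5 : 0 ≤ Real.tan (1 / 10) := by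
    rw [Real.tan_eq_sin_div_cos]
    exact div_nonneg h3 (by linarith)
  have h6 : Real.tan (1 / 10) ^ 2 ≤ 151 / 1000 := by nlinarith
  exact ⟨⟨by norm_num, by linarith, by linarith⟩, h6⟩

/-! ### No loss at a real point -/

/-- There is no loss if the bulge is small. -/
theorem Pr.nl_g (h : Pr θ θ' v w) {g : ℝ} (hg : 0 < g)
    (e3 : g ≤ (1 / cos (Real.pi * (starRingEnd ℂ) w) ^ 2).re)
    (hB : 4 * Real.sinh (Real.pi * v.im) ^ 2 * (1 + Real.sinh (Real.pi * v.im) ^ 2) /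
          (Real.cos (Real.pi * v.re) ^ 2 + Real.sinh (Real.pi * v.im) ^ 2) -
          (1 + 2 * Real.sinh (Real.pi * v.im) ^ 2) ≤ 0 ∨
      (4 * Real.sinh (Real.pi * v.im) ^ 2 * (1 + Real.sinh (Real.pi * v.im) ^ 2) /
          (Real.cos (Real.pi * v.re) ^ 2 + Real.sinh (Real.pi * v.im) ^ 2) -
          (1 + 2 * Real.sinh (Real.pi * v.im) ^ 2)) ^ 2 <
        8 * Real.sinh (Real.pi * v.im) ^ 2 * (1 + Real.sinh (Real.pi * v.im) ^ 2) * g) :
    NL v w := by
  have hpi := Real.pi_pos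
  unfold NL
  rw [sub_re, sub_im]
  by_contra hc
  push Not at hc
  obtain ⟨h1, h2⟩ := hc
  have hy := h.yv_re
  have e := congrArg Complex.re h.yv_eq
  have ev : v = ((v.re : ℝ) : ℂ) + ((v.im : ℝ) : ℂ) * I := (re_add_im v).symm
  have ey : yv v w = (((yv v w).re : ℝ) : ℂ) + (((yv v w).im : ℝ) : ℂ) * I := (re_add_im _).symm
  have e1 : (1 / cos (Real.pi * yv v w) ^ 2).re = Gf (Real.cos (Real.pi * (yv v w).re) ^ 2)
      (Real.sinh (Real.pi * (yv v w).im) ^ 2) := by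
    conv_lhs => rw [ey]
    exact inv_cos_sq_re _ _
  have e2 : (1 / cos (Real.pi * v) ^ 2).re = Gf (Real.cos (Real.pi * v.re) ^ 2)
      (Real.sinh (Real.pi * v.im) ^ 2) := by
    conv_lhs => rw [ev]
    exact inv_cos_sq_re _ _
  rw [add_re, e1, e2] at e
  have hcv : 0 < Real.cos (Real.pi * v.re) ^ 2 := pow_pos (cos_pi_pos h.hv.abs) 2
  have c1 : Real.cos (Real.pi * v.re) ^ 2 ≤ Real.cos (Real.pi * (yv v w).re) ^ 2 := by
    apply pow_le_pow_left₀ (cos_pi_pos h.hv.abs).le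
    apply Real.cos_le_cos_of_nonneg_of_le_pi
    · exact mul_nonneg hpi.le hy.1.le
    · nlinarith [h.hv.re1]
    · exact mul_le_mul_of_nonneg_left (by linarith) hpi.le
  have c2 : Real.sinh (Real.pi * v.im) ^ 2 ≤ Real.sinh (Real.pi * (yv v w).im) ^ 2 := by
    apply pow_le_pow_left₀ (Real.sinh_nonneg_iff.2 (mul_nonneg hpi.le h.hv.im0))
    exact Real.sinh_le_sinh.2 (mul_le_mul_of_nonneg_left (by linarith) hpi.le)
  have k := Gf_lt (g := g) hcv (sq_nonneg (Real.sinh (Real.pi * v.im)))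
    (h.hv.bl_sinh h.hθ) c1 (Real.cos_sq_le_one _) c2 hg hB
  linarith

theorem nl_num_x {q X : ℝ} (hq : 954 / 10000 ≤ q) (hX : 0 ≤ X) (hz : X ≤ q) :
    Bf q X ≤ 0 ∨ Bf q X ^ 2 < 8 * X * (1 + X) * 2 := by
  rcases le_or_gt (Bf q X) 0 with h | h
  · exact Or.inl h
  right
  have hX1 : 3 / 100 < X := by
    by_contra hc
    push Not at hc
    have := Bf_le (q0 := 954 / 10000) (β := 0) (by norm_num) hq hX le_rfl (by nlinarith)
    linarith
  rcases le_total X (6 / 100) with c1 | c1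
  · have := Bf_le (q0 := 954 / 10000) (β := 6 / 10) (by norm_num) hq hX (by norm_num)
      (by nlinarith)
    exact sq_lt_of h this (by nlinarith)
  · have h1 := Bf_le' (q := q) (κ := 1) (by linarith) hX zero_le_one (by linarith)
    exact sq_lt_of h (β := 1) (by linarith) (by nlinarith)

/-- No loss: the other point is real and at least `1/4`. -/
theorem Pr.nl_x {x : ℝ} (h : Pr θ θ' v (x : ℂ)) (hx : 1 / 4 ≤ x) (hx' : x < 1 / 2) :
    NL v (x : ℂ) := by
  have hpi := Real.pi_pos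
  apply h.nl_g (g := 2) (by norm_num) _ (nl_num_x h.hv.cos_sq (sq_nonneg _) (h.hv.bl_sinh h.hθ))
  have e : (1 / cos (Real.pi * (starRingEnd ℂ) (x : ℂ)) ^ 2) =
      ((1 / Real.cos (Real.pi * x) ^ 2 : ℝ) : ℂ) := by
    rw [conj_ofReal]
    push_cast
    rfl
  rw [e, ofReal_re]
  have c0 : 0 < Real.cos (Real.pi * x) := Real.cos_pos_of_mem_Ioo ⟨by nlinarith, by nlinarith⟩
  have c1 : Real.cos (Real.pi * x) ≤ Real.cos (Real.pi / 4) :=
    Real.cos_le_cos_of_nonneg_of_le_pi (by positivity) (by nlinarith) (by nlinarith)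
  rw [Real.cos_pi_div_four] at c1
  have c2 : Real.cos (Real.pi * x) ^ 2 ≤ (√2 / 2) ^ 2 := pow_le_pow_left₀ c0.le c1 2
  have c3 : (√2 / 2) ^ 2 = 1 / 2 := by
    rw [div_pow, Real.sq_sqrt (by norm_num)]; norm_num
  rw [le_div_iff₀ (by positivity)]
  linarith

/-! ### The height of the critical point at a real point -/

private theorem inv_cos_sq_im (a b : ℝ) : (1 / cos (Real.pi * ((a : ℂ) + b * I)) ^ 2).im =
    2 * (Real.cos (Real.pi * a) * Real.sin (Real.pi * a)) *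
      (Real.cosh (Real.pi * b) * Real.sinh (Real.pi * b)) /
      normSq (cos (Real.pi * ((a : ℂ) + b * I)) ^ 2) := by
  rw [one_div, inv_im]
  congr 1
  rw [sq, mul_im, wcos_re, wcos_im, pi_mul_re, pi_mul_im, line_re, line_im]
  ring

theorem Pr.im_real {x : ℝ} (h : Pr θ θ' (x : ℂ) w) : (yv (x : ℂ) w).im ≤ 0 ∧
    (0 < w.im → 0 < w.re → (yv (x : ℂ) w).im < 0) ∧ (w.im = 0 → (yv (x : ℂ) w).im = 0) := by
  have hpi := Real.pi_pos
  have hy := h.yv_re
  have e := congrArg Complex.im h.yv_eq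
  have ey : yv (x : ℂ) w = (((yv (x : ℂ) w).re : ℝ) : ℂ) + (((yv (x : ℂ) w).im : ℝ) : ℂ) * I :=
    (re_add_im _).symm
  have ew : (starRingEnd ℂ) w = ((w.re : ℝ) : ℂ) + ((-w.im : ℝ) : ℂ) * I := by
    conv_lhs => rw [← re_add_im w]
    exact conj_line _ _
  have e1 : (1 / cos (Real.pi * (x : ℂ)) ^ 2).im = 0 := by
    have : (1 / cos (Real.pi * (x : ℂ)) ^ 2) = ((1 / Real.cos (Real.pi * x) ^ 2 : ℝ) : ℂ) := by
      push_cast
      rfl
    rw [this, ofReal_im]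
  rw [add_im, e1, zero_add, ew, inv_cos_sq_im] at e
  have e2 : (1 / cos (Real.pi * yv (x : ℂ) w) ^ 2).im =
      2 * (Real.cos (Real.pi * (yv (x : ℂ) w).re) * Real.sin (Real.pi * (yv (x : ℂ) w).re)) *
      (Real.cosh (Real.pi * (yv (x : ℂ) w).im) * Real.sinh (Real.pi * (yv (x : ℂ) w).im)) /
      normSq (cos (Real.pi * yv (x : ℂ) w) ^ 2) := by
    conv_lhs => rw [ey]
    rw [inv_cos_sq_im]
    rw [re_add_im]
  rw [e2, mul_neg, Real.sinh_neg, Real.cosh_neg] at e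
  have n1 : 0 < normSq (cos (Real.pi * yv (x : ℂ) w) ^ 2) :=
    normSq_pos.2 (pow_ne_zero 2 (cos_yy_ne h.qo.reg))
  have n2 : 0 < normSq (cos (Real.pi * (((w.re : ℝ) : ℂ) + ((-w.im : ℝ) : ℂ) * I)) ^ 2) := by
    rw [← ew]
    exact normSq_pos.2 (pow_ne_zero 2 (cos_ne' (pi_re_lt (conj_abs h.hw.abs))))
  have c1 : 0 < Real.cos (Real.pi * (yv (x : ℂ) w).re) * Real.sin (Real.pi * (yv (x : ℂ) w).re) :=
    mul_pos (Real.cos_pos_of_mem_Ioo ⟨by nlinarith [hy.1], by nlinarith [hy.2]⟩)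
      (Real.sin_pos_of_pos_of_lt_pi (mul_pos hpi hy.1) (by nlinarith [hy.2]))
  have ch := Real.cosh_pos (Real.pi * (yv (x : ℂ) w).im)
  have ch' := Real.cosh_pos (Real.pi * w.im)
  have cw : 0 < Real.cos (Real.pi * w.re) := cos_pi_pos h.hw.abs
  have sw : 0 ≤ Real.sin (Real.pi * w.re) :=
    Real.sin_nonneg_of_nonneg_of_le_pi (mul_nonneg hpi.le h.hw.re0) (by nlinarith [h.hw.re1])
  have shw : 0 ≤ Real.sinh (Real.pi * w.im) :=
    Real.sinh_nonneg_iff.2 (mul_nonneg hpi.le h.hw.im0)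
  refine ⟨?_, fun i1 i2 => ?_, fun i1 => ?_⟩
  · by_contra hc
    push Not at hc
    have s1 : 0 < Real.sinh (Real.pi * (yv (x : ℂ) w).im) := Real.sinh_pos_iff.2 (mul_pos hpi hc)
    have l1 : 0 < 2 * (Real.cos (Real.pi * (yv (x : ℂ) w).re) *
        Real.sin (Real.pi * (yv (x : ℂ) w).re)) * (Real.cosh (Real.pi * (yv (x : ℂ) w).im) *
        Real.sinh (Real.pi * (yv (x : ℂ) w).im)) / normSq (cos (Real.pi * yv (x : ℂ) w) ^ 2) := by
      positivity
    have l2 : 2 * (Real.cos (Real.pi * w.re) * Real.sin (Real.pi * w.re)) *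
        (Real.cosh (Real.pi * w.im) * -Real.sinh (Real.pi * w.im)) /
        normSq (cos (Real.pi * (((w.re : ℝ) : ℂ) + ((-w.im : ℝ) : ℂ) * I)) ^ 2) ≤ 0 := by
      apply div_nonpos_of_nonpos_of_nonneg _ n2.le
      have : 0 ≤ 2 * (Real.cos (Real.pi * w.re) * Real.sin (Real.pi * w.re)) *
        (Real.cosh (Real.pi * w.im) * Real.sinh (Real.pi * w.im)) := by positivity
      linarith
    linarith
  · by_contra hc
    push Not at hc
    have s1 : 0 ≤ Real.sinh (Real.pi * (yv (x : ℂ) w).im) :=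
      Real.sinh_nonneg_iff.2 (mul_nonneg hpi.le hc)
    have s2 : 0 < Real.sinh (Real.pi * w.im) := Real.sinh_pos_iff.2 (mul_pos hpi i1)
    have s3 : 0 < Real.sin (Real.pi * w.re) :=
      Real.sin_pos_of_pos_of_lt_pi (mul_pos hpi i2) (by nlinarith [h.hw.re1])
    have l1 : 0 ≤ 2 * (Real.cos (Real.pi * (yv (x : ℂ) w).re) *
        Real.sin (Real.pi * (yv (x : ℂ) w).re)) * (Real.cosh (Real.pi * (yv (x : ℂ) w).im) *
        Real.sinh (Real.pi * (yv (x : ℂ) w).im)) / normSq (cos (Real.pi * yv (x : ℂ) w) ^ 2) := by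
      positivity
    have l2 : 2 * (Real.cos (Real.pi * w.re) * Real.sin (Real.pi * w.re)) *
        (Real.cosh (Real.pi * w.im) * -Real.sinh (Real.pi * w.im)) /
        normSq (cos (Real.pi * (((w.re : ℝ) : ℂ) + ((-w.im : ℝ) : ℂ) * I)) ^ 2) < 0 := by
      apply div_neg_of_neg_of_pos _ n2
      have : 0 < 2 * (Real.cos (Real.pi * w.re) * Real.sin (Real.pi * w.re)) *
        (Real.cosh (Real.pi * w.im) * Real.sinh (Real.pi * w.im)) := by positivity
      linarith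
    linarith
  · rw [i1, mul_zero, Real.sinh_zero, neg_zero, mul_zero, mul_zero, zero_div] at e
    have e3 := (div_eq_zero_iff.1 e).resolve_right n1.ne'
    have e4 := (mul_eq_zero.1 e3).resolve_left (by positivity)
    have e5 := (mul_eq_zero.1 e4).resolve_left ch.ne'
    rw [Real.sinh_eq_zero] at e5
    exact (mul_eq_zero.1 e5).resolve_left hpi.ne'

/-- **The flat at a real point**, after moving `w` to the left. -/
theorem flB_real (hΦ : IsPhi Φ) (h0 : Φ 0 0 = c00) (hθ' : Ht θ') (hw : Und θ' w) {x L : ℝ}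
    {w' : ℂ} (x0 : 0 < x) (x1 : x ≤ 3 / 10) (him : w'.im = w.im) (re0 : 0 ≤ w'.re)
    (re1 : w'.re ≤ w.re) (hn : w'.re ≤ 19 / 50 ∨ 1 / 4 ≤ x)
    (hF : FlatUV (1 / cos (Real.pi * (x : ℂ)) ^ 2)
      (1 / cos (Real.pi * (starRingEnd ℂ) w') ^ 2))
    (hL : (Φ (x : ℂ) ((starRingEnd ℂ) w')).re < L) : FlB (x : ℂ) w L := by
  have hpi := Real.pi_gt_three
  obtain ⟨t1, t2⟩ := ht_aux
  have hle := hθ'.le
  have hS : 1 / 10 + θ' < Real.pi / 2 := by linarith
  have hw' := hw.left hθ' him re0 re1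
  have hx := Und_real t1 x0.le (show x ≤ 2 / 5 by linarith)
  have hp : Pr (1 / 10) θ' (x : ℂ) w' := ⟨hx, hw', t1, hθ', hS⟩
  have hq : Pr (1 / 10) θ' (x : ℂ) w := ⟨hx, hw, t1, hθ', hS⟩
  obtain ⟨a1, a2, a3⟩ := hp.im_real
  obtain ⟨b1, b2, b3⟩ := hq.im_real
  have n1 : NL (x : ℂ) w' := Or.inl (by rw [sub_im, ofReal_im, sub_zero]; exact a1)
  have n2 : NL w' (x : ℂ) := by
    rcases hn with h | h
    · exact hp.symm.nl_b h t2
    · exact hp.symm.nl_x h (by linarith)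
  have s1 := hp.yv_re
  have e := hp.yv_eq
  rw [← re_add_im (yv (x : ℂ) w')] at e
  refine ⟨(yv (x : ℂ) w').im, hp.yv_im, ?_, fun t ht => ?_⟩
  · -- the side
    rcases hw.im0.eq_or_lt with h | h
    · exact Or.inr (Or.inr (a3 (by rw [him]; exact h.symm)))
    · rcases (re0.trans re1).eq_or_lt with h1 | h1
      · have h2 : w' = w := by
          apply Complex.ext
          · linarith
          · exact him
        rw [h2]
        exact side_self _
      · exact Or.inr (Or.inl ⟨b2 h h1, a1⟩)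
  · have k1 : EE (.op (x : ℂ)) (.op ((starRingEnd ℂ) w')) ((t : ℂ) + (yv (x : ℂ) w').im * I) ≤
        EE (.op (x : ℂ)) (.op ((starRingEnd ℂ) w')) (yv (x : ℂ) w') := by
      by_cases hne : t = (yv (x : ℂ) w').re
      · rw [hne, re_add_im]
      · have := EE_flat_lt s1.1 s1.2 ht.1 ht.2 hne (cos_ne' (pi_re_lt hx.abs))
          (cos_ne' (pi_re_lt (conj_abs hw'.abs))) e hF
        rw [re_add_im] at this
        exact this.le
    rw [hp.bridge hΦ h0 n1 n2] at k1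
    have k2 := se_hor (y := (t : ℂ) + (yv (x : ℂ) w').im * I) (w := w) (w' := w')
      (by rw [line_im]; exact a1) (by rw [line_re]; exact ht.1) (by rw [line_re]; exact ht.2)
      hw.im0 him re0 re1 (by linarith [hw.re1])
    unfold EE at k1 ⊢
    linarith

end

end T2

end Pool.Agent.S3
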