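import Pool.Agent.H25.RK.DGf
import Pool.Agent.S3.Defs

/-! # Vertices at an edge with small index: lattice sums -/

namespace Pool.Agent.S3

open Pool.Agent.H63.VC hiding ext
open Pool.Agent.H63.VC3 Pool.Agent.H63.VC4 Pool.Agent.H63.VC6 Pool.Agent.H63.VC7 Complex
open Pool.Agent.H25.RK
open scoped BigOperators

variable {m : ℕ}

/-- The slot of an edge with small index at a lattice vertex. -/
noncomputable def ql (M k X : ℕ) : ℂ := if X ≤ k then ((qd M k X : ℝ) : ℂ) else 0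

/-- The factor of a lattice vertex. -/
noncomputable def gl (r : ℝ) (M X : ℕ) : ℂ :=
  2 * (exp (2 * Real.pi * I * r * M * ((vl 2 M X : ℝ) : ℂ) ^ 2) *
    (2 * sin (2 * Real.pi * ((vl 2 M X : ℝ) : ℂ))))

/-- The gain of a lattice vertex. -/
noncomputable def s1 (v : ℂ) : ℝ := se ((1 / 10 : ℝ) : ℂ) (.op v)

theorem DG_lat (r : ℝ) {M : ℕ} {A : Finset (Fin m)} (k : Fin m → ℕ) (hk : ∀ j ∈ A, k j < M)
    {j0 : Fin m} (hj0 : j0 ∈ A) (h : 2 * k j0 + 2 ≤ M) :
    DG r M A k = ∑ X ∈ Finset.range M, gl r M X * (ql M (k j0) X *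
      ∏ j ∈ A.erase j0, qc M (k j) ((vl 2 M X : ℝ) : ℂ)) := by
  rw [DG_low r k hk hj0 h, Finset.mul_sum]
  have hsub : Finset.range (k j0 + 1) ⊆ Finset.range M :=
    Finset.range_subset_range.2 (by omega)
  rw [← Finset.sum_subset hsub]
  · refine Finset.sum_congr rfl fun X hX => ?_
    have hX' : X ≤ k j0 := by
      have := Finset.mem_range.1 hX
      omega
    have e : ∀ j ∈ A.erase j0, qc M (k j) ((vl 2 M X : ℝ) : ℂ) = ((qv M (k j) X : ℝ) : ℂ) :=
      fun j hj => qc_val (hk j (Finset.mem_of_mem_erase hj)) (by omega)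
    rw [Finset.prod_congr rfl e]
    unfold gl ql
    rw [if_pos hX']
    ring
  · intro X _ hX
    rw [Finset.mem_range, not_lt] at hX
    unfold ql
    rw [if_neg (by omega), zero_mul, mul_zero]

/-- Two edges with small index. -/
theorem DG_two (r : ℝ) {M : ℕ} {A : Finset (Fin m)} (k : Fin m → ℕ) (hk : ∀ j ∈ A, k j < M)
    {j0 j1 : Fin m} (hj0 : j0 ∈ A) (hj1 : j1 ∈ A) (hne : j0 ≠ j1) (h : 2 * k j0 + 2 ≤ M)
    (h' : 2 * k j1 + 2 ≤ M) : DG r M A k = 0 := by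
  rw [DG_low r k hk hj0 h]
  have : ∀ X ∈ Finset.range (k j0 + 1),
      exp (2 * Real.pi * I * r * M * ((vl 2 M X : ℝ) : ℂ) ^ 2) *
        (2 * sin (2 * Real.pi * ((vl 2 M X : ℝ) : ℂ))) * ((qd M (k j0) X : ℝ) : ℂ) *
          ∏ i ∈ A.erase j0, ((qv M (k i) X : ℝ) : ℂ) = 0 := by
    intro X _
    have hz : qv M (k j1) X = 0 := by
      unfold qv
      rw [if_neg]
      rintro ⟨a1, a2⟩
      omega
    rw [Finset.prod_eq_zero (Finset.mem_erase.2 ⟨hne.symm, hj1⟩) (by rw [hz, ofReal_zero]),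
      mul_zero]
  rw [Finset.sum_eq_zero this, mul_zero]

end Pool.Agent.S3
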