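import Pool.Agent.S3.Ctr

/-! # The whole invariant as a sum of integrals over mixed contours

`KEr S M σ τ` is the part of the edge kernel with indices in `S`. `JS r M S` is the part of the
invariant with the index of the edge `j` in `S j`; `JS_eq`: it is an integral over any contours.
`JG_sub_J0`: the invariant minus its main part is the sum of the parts with a nonempty set `L` of
edges with small indices. -/

namespace Pool.Agent.S3

open Pool.Agent.H63.VC hiding ext
open Pool.Agent.H63.VC3 Pool.Agent.H63.VC4 Pool.Agent.H63.VC6 Pool.Agent.H63.VC7 Complex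
open Pool.Agent.H25.RK MeasureTheory
open scoped BigOperators

variable {m : ℕ}

/-- The part of an edge kernel with the indices in `S`. -/
noncomputable def KEr (S : Finset ℕ) (M : ℕ) (σ τ : Sl) : ℂ :=
  ∑ k ∈ S, Cc 2 1 M (yk 2 M k : ℝ) * (sk M k σ * sk M k τ)

/-- The part of the invariant with the indices of the edge `j` in `S j`. -/
noncomputable def JS (r : Fin (m + 1) → ℝ) (M : ℕ) (S : Fin m → Finset ℕ) : ℂ :=
  ∑ k ∈ Fintype.piFinset S,
    (∏ j, Cc 2 1 M (yk 2 M (k j) : ℝ)) *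
      ∏ i, DG (r i) M (inc (Fin.castSucc (n := m)) Fin.succ i) k

/-- The integrand of a node. -/
private noncomputable def Low_F (r : ℝ) (γ γ' : ℝ → ℂ) (M : ℕ) (A : Finset (Fin m))
    (k : Fin m → ℕ) (x : ℝ) : ℂ :=
  gvx r γ γ' M x * ∏ j ∈ A, qc M (k j) (γ x)

private theorem Low_F_eq (r : ℝ) (γ γ' : ℝ → ℂ) (M : ℕ) (A : Finset (Fin m))
    (k : Fin m → ℕ) (x : ℝ) : Low_F r γ γ' M A k x = NT r M A k (γ x) * om 2 M (γ x) * γ' x := by
  unfold Low_F gvx NT
  ring

private theorem Low_F_integrable (r : ℝ) {γ γ' : ℝ → ℂ} (h : Ctr γ γ') {M : ℕ}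
    (hM : 0 < M) (A : Finset (Fin m)) (k : Fin m → ℕ) : Integrable (Low_F r γ γ' M A k) := by
  have e : Low_F r γ γ' M A k = fun x => NT r M A k (γ x) * om 2 M (γ x) * γ' x :=
    funext fun x => Low_F_eq r γ γ' M A k x
  rw [e]
  exact NTom_integrable r hM A k h

private theorem Low_DG (r : ℝ) {γ γ' : ℝ → ℂ} (h : Ctr γ γ') {M : ℕ}
    (hM : 0 < M) (A : Finset (Fin m)) (k : Fin m → ℕ) :
    DG r M A k = (-(4 * Real.pi * I) * M ^ 2) * ∫ x, Low_F r γ γ' M A k x := by
  rw [DG_ctr r hM A k h]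
  simp only [Low_F_eq]

/-- The slots at a vertex. -/
private noncomputable def Low_P (Op : Finset (Fin (m + 1))) (s : Fin (m + 1) → ℤ)
    (γ : Fin (m + 1) → ℝ → ℂ) (M : ℕ) (k : Fin m → ℕ) (x : Op → ℝ) : ℂ :=
  ∏ i, ∏ j ∈ inc (Fin.castSucc (n := m)) Fin.succ i, sk M (k j) (slx Op s γ x i)

/-- The term of the multi-index `k`. -/
private noncomputable def Low_G (r : Fin (m + 1) → ℝ) (Op : Finset (Fin (m + 1)))
    (s : Fin (m + 1) → ℤ) (γ γ' : Fin (m + 1) → ℝ → ℂ) (M : ℕ) (k : Fin m → ℕ) (x : Op → ℝ) : ℂ :=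
  (∏ i : Op, gvx (r i) (γ i) (γ' i) M (x i)) * Low_P Op s γ M k x

private theorem Low_G_eq (r : Fin (m + 1) → ℝ) (Op : Finset (Fin (m + 1)))
    (s : Fin (m + 1) → ℤ) (γ γ' : Fin (m + 1) → ℝ → ℂ) (h : ChD r Op s γ γ') (M : ℕ)
    (hcl : ∀ i ∉ Op, ∀ (j : Fin m) (k : Fin m → ℕ), (∀ j, k j < M) →
      DG (r i) M {j} k = sk M (k j) (.cl (s i))) (k : Fin m → ℕ) (hk : ∀ j, k j < M)
    (x : Op → ℝ) :
    Low_G r Op s γ γ' M k x = (∏ i : Op, Low_F (r i) (γ i) (γ' i) M
      (inc (Fin.castSucc (n := m)) Fin.succ (i : Fin (m + 1))) k (x i)) *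
        ∏ i ∈ Opᶜ, DG (r i) M (inc (Fin.castSucc (n := m)) Fin.succ i) k := by
  unfold Low_G Low_P Low_F
  rw [Finset.prod_mul_distrib, mul_assoc]
  congr 1
  rw [← Finset.prod_mul_prod_compl Op]
  congr 1
  · rw [← Finset.prod_coe_sort]
    refine Finset.prod_congr rfl fun i _ => ?_
    refine Finset.prod_congr rfl fun j _ => ?_
    unfold slx
    rw [dif_pos i.2]
    rfl
  · refine Finset.prod_congr rfl fun i hi => ?_
    have hi' : i ∉ Op := Finset.mem_compl.mp hi
    obtain ⟨j, hj⟩ := h.cl_inc i hi'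
    rw [hj, hcl i hi' j k hk, Finset.prod_singleton]
    unfold slx
    rw [dif_neg hi']

private theorem Low_G_integrable (r : Fin (m + 1) → ℝ) (Op : Finset (Fin (m + 1)))
    (s : Fin (m + 1) → ℤ) (γ γ' : Fin (m + 1) → ℝ → ℂ) (h : ChD r Op s γ γ') (M : ℕ) (hM : 0 < M)
    (hcl : ∀ i ∉ Op, ∀ (j : Fin m) (k : Fin m → ℕ), (∀ j, k j < M) →
      DG (r i) M {j} k = sk M (k j) (.cl (s i))) (k : Fin m → ℕ) (hk : ∀ j, k j < M) :
    Integrable (Low_G r Op s γ γ' M k) := by
  have e : Low_G r Op s γ γ' M k = fun x => (∏ i : Op, Low_F (r i) (γ i) (γ' i) M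
      (inc (Fin.castSucc (n := m)) Fin.succ (i : Fin (m + 1))) k (x i)) *
        ∏ i ∈ Opᶜ, DG (r i) M (inc (Fin.castSucc (n := m)) Fin.succ i) k :=
    funext fun x => Low_G_eq r Op s γ γ' h M hcl k hk x
  rw [e]
  apply Integrable.mul_const
  exact Integrable.fintype_prod (f := fun (i : Op) (x : ℝ) => Low_F (r i) (γ i) (γ' i) M
    (inc (Fin.castSucc (n := m)) Fin.succ (i : Fin (m + 1))) k x)
    (fun i => Low_F_integrable (r i) (h.ctr i i.2) hM _ k)

private theorem Low_term (r : Fin (m + 1) → ℝ) (Op : Finset (Fin (m + 1)))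
    (s : Fin (m + 1) → ℤ) (γ γ' : Fin (m + 1) → ℝ → ℂ) (h : ChD r Op s γ γ') (M : ℕ) (hM : 0 < M)
    (hcl : ∀ i ∉ Op, ∀ (j : Fin m) (k : Fin m → ℕ), (∀ j, k j < M) →
      DG (r i) M {j} k = sk M (k j) (.cl (s i))) (k : Fin m → ℕ) (hk : ∀ j, k j < M) :
    ∏ i, DG (r i) M (inc (Fin.castSucc (n := m)) Fin.succ i) k =
      (-(4 * Real.pi * I) * M ^ 2) ^ Op.card * ∫ x : Op → ℝ, Low_G r Op s γ γ' M k x := by
  simp only [Low_G_eq r Op s γ γ' h M hcl k hk]
  rw [integral_mul_const, integral_fintype_prod_volume_eq_prod (fun (i : Op) (x : ℝ) =>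
    Low_F (r i) (γ i) (γ' i) M (inc (Fin.castSucc (n := m)) Fin.succ (i : Fin (m + 1))) k x),
    ← Finset.prod_mul_prod_compl Op, ← mul_assoc]
  congr 1
  rw [← Finset.prod_coe_sort]
  have hc : (-(4 * Real.pi * I) * (M : ℂ) ^ 2) ^ Op.card =
      ∏ _i : Op, (-(4 * Real.pi * I) * (M : ℂ) ^ 2) := by
    rw [Finset.prod_const, Finset.card_univ, Fintype.card_coe]
  rw [hc, ← Finset.prod_mul_distrib]
  refine Finset.prod_congr rfl fun i _ => ?_
  exact Low_DG (r i) (h.ctr i i.2) hM _ k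

private theorem Low_P_eq (Op : Finset (Fin (m + 1))) (s : Fin (m + 1) → ℤ)
    (γ : Fin (m + 1) → ℝ → ℂ) (M : ℕ) (k : Fin m → ℕ) (x : Op → ℝ) :
    Low_P Op s γ M k x = ∏ j : Fin m, (sk M (k j) (slx Op s γ x j.castSucc) *
      sk M (k j) (slx Op s γ x j.succ)) := by
  unfold Low_P
  exact prod_inc (Fin.castSucc (n := m)) Fin.succ (fun j => (Fin.castSucc_lt_succ (i := j)).ne)
    (fun i j => sk M (k j) (slx Op s γ x i))

/-- A part of the invariant as an integral. -/
theorem JS_eq (r : Fin (m + 1) → ℝ) (Op : Finset (Fin (m + 1))) (s : Fin (m + 1) → ℤ)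
    (γ γ' : Fin (m + 1) → ℝ → ℂ) (h : ChD r Op s γ γ') (M : ℕ) (hM : 0 < M)
    (hcl : ∀ i ∉ Op, ∀ (j : Fin m) (k : Fin m → ℕ), (∀ j, k j < M) →
      DG (r i) M {j} k = sk M (k j) (.cl (s i))) (S : Fin m → Finset ℕ)
    (hS : ∀ j, S j ⊆ Finset.range M) :
    JS r M S = (-(4 * Real.pi * I) * M ^ 2) ^ Op.card *
      ∫ x : Op → ℝ, (∏ i : Op, gvx (r i) (γ i) (γ' i) M (x i)) *
        ∏ j : Fin m, KEr (S j) M (slx Op s γ x j.castSucc) (slx Op s γ x j.succ) := by
  have hkM : ∀ k ∈ Fintype.piFinset S, ∀ j, k j < M := by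
    intro k hk j
    exact Finset.mem_range.mp (hS j (Fintype.mem_piFinset.mp hk j))
  have hpt : ∀ x : Op → ℝ, (∏ i : Op, gvx (r i) (γ i) (γ' i) M (x i)) *
        ∏ j : Fin m, KEr (S j) M (slx Op s γ x j.castSucc) (slx Op s γ x j.succ) =
      ∑ k ∈ Fintype.piFinset S,
        (∏ j, Cc 2 1 M (yk 2 M (k j) : ℝ)) * Low_G r Op s γ γ' M k x := by
    intro x
    unfold KEr
    rw [Finset.prod_univ_sum, Finset.mul_sum]
    refine Finset.sum_congr rfl fun k hk => ?_
    unfold Low_G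
    rw [Low_P_eq, Finset.prod_mul_distrib]
    ring
  simp only [hpt]
  rw [integral_finsetSum _ fun k hk =>
    (Low_G_integrable r Op s γ γ' h M hM hcl k (hkM k hk)).const_mul _, Finset.mul_sum]
  unfold JS
  refine Finset.sum_congr rfl fun k hk => ?_
  rw [integral_const_mul, Low_term r Op s γ γ' h M hM hcl k (hkM k hk)]
  ring

/-- The index sets of the part with small indices at the edges in `L`. -/
def SL (M : ℕ) (L : Finset (Fin m)) (j : Fin m) : Finset ℕ :=
  if j ∈ L then Finset.range (k0 M) else Finset.Ico (k0 M) M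

theorem k0_le (M : ℕ) : k0 M ≤ M := by
  unfold k0
  omega

theorem SL_subset (M : ℕ) (L : Finset (Fin m)) (j : Fin m) : SL M L j ⊆ Finset.range M := by
  intro k hk
  unfold SL at hk
  rw [Finset.mem_range]
  split_ifs at hk
  · exact lt_of_lt_of_le (Finset.mem_range.mp hk) (k0_le M)
  · exact (Finset.mem_Ico.mp hk).2

/-- The partition of the multi-indices. -/
theorem sum_piFinset_range {α : Type*} [AddCommMonoid α] (M : ℕ) (f : (Fin m → ℕ) → α) :
    ∑ k ∈ Fintype.piFinset (fun _ : Fin m => Finset.range M), f k =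
      ∑ L : Finset (Fin m), ∑ k ∈ Fintype.piFinset (SL M L), f k := by
  classical
  rw [← Finset.sum_fiberwise (s := Fintype.piFinset (fun _ : Fin m => Finset.range M))
    (g := fun k => Finset.univ.filter fun j => k j < k0 M) (f := f)]
  refine Finset.sum_congr rfl fun L _ => ?_
  refine Finset.sum_congr ?_ fun _ _ => rfl
  ext k
  simp only [Finset.mem_filter, Fintype.mem_piFinset, Finset.mem_range, SL]
  constructor
  · rintro ⟨h1, h2⟩ j
    split_ifs with hj
    · rw [← h2] at hj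
      exact Finset.mem_range.mpr (Finset.mem_filter.mp hj).2
    · refine Finset.mem_Ico.mpr ⟨?_, h1 j⟩
      by_contra hc
      push Not at hc
      apply hj
      rw [← h2]
      exact Finset.mem_filter.mpr ⟨Finset.mem_univ j, hc⟩
  · intro h
    refine ⟨fun j => ?_, ?_⟩
    · have := h j
      split_ifs at this
      · exact lt_of_lt_of_le (Finset.mem_range.mp this) (k0_le M)
      · exact (Finset.mem_Ico.mp this).2
    · ext j
      simp only [Finset.mem_filter, Finset.mem_univ, true_and]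
      have := h j
      constructor
      · intro h1
        by_contra hj
        rw [if_neg hj] at this
        exact absurd (Finset.mem_Ico.mp this).1 (not_le.2 h1)
      · intro hj
        rw [if_pos hj] at this
        exact Finset.mem_range.mp this

theorem JS_empty (r : Fin (m + 1) → ℝ) (M : ℕ) : JS r M (SL M ∅) = J0 r M := by
  unfold JS J0 SL
  simp

/-- The invariant minus its main part. -/
theorem JG_sub_J0 (r : Fin (m + 1) → ℝ) (M : ℕ) :
    JG (Fin.castSucc (n := m)) Fin.succ r M - J0 r M =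
      ∑ L ∈ (Finset.univ : Finset (Finset (Fin m))).erase ∅, JS r M (SL M L) := by
  classical
  have h1 : JG (Fin.castSucc (n := m)) Fin.succ r M =
      ∑ L : Finset (Fin m), JS r M (SL M L) := by
    unfold JG JS
    exact sum_piFinset_range M _
  rw [h1, ← Finset.add_sum_erase _ _ (Finset.mem_univ (∅ : Finset (Fin m))), JS_empty,
    add_sub_cancel_left]

end Pool.Agent.S3
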