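import Pool.Agent.S3.LL1
import Pool.Agent.S3.Low1
import Pool.Agent.S3.LowE

/-! # Small indices, lattice sums at the vertices: the slots -/

set_option autoImplicit false

namespace Pool.Agent.S3

open Pool.Agent.H63.VC hiding ext
open Pool.Agent.H63.VC3 Pool.Agent.H63.VC4 Pool.Agent.H63.VC6 Pool.Agent.H63.VC7 Complex
open Pool.Agent.H25.RK MeasureTheory
open scoped BigOperators

variable {m : ℕ}

theorem s1_continuous : Continuous s1 := by
  unfold s1 se
  have := Rf_continuous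
  fun_prop

theorem s1_nonneg {a : ℝ} (ha : |a| ≤ 1 / 2) : 0 ≤ s1 (a : ℂ) :=
  se_real_nonneg ha (by norm_num) (by norm_num)

theorem s1_even (a : ℝ) : s1 (a : ℂ) = s1 ((|a| : ℝ) : ℂ) := se_real_even _ a

theorem se_real_odd (y a : ℝ) : se ((-y : ℝ) : ℂ) (.op (a : ℂ)) = -se (y : ℂ) (.op (a : ℂ)) := by
  unfold se
  simp only
  have e1 : Rf (((-y : ℝ) : ℂ) + 1 / 2) = -Rf ((y : ℂ) + 1 / 2) := by
    have := Rf_one_sub_line (y + 1 / 2) 0
    rw [ofReal_zero, zero_mul, add_zero, add_zero] at this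
    rw [show (((-y : ℝ) : ℂ) + 1 / 2) = ((1 - (y + 1 / 2) : ℝ) : ℂ) by push_cast; ring, this]
    congr 2
    push_cast
    ring
  have e2 : Rf (((-y : ℝ) : ℂ) - a) = -Rf ((y : ℂ) + a) := by
    rw [show (((-y : ℝ) : ℂ) - a) = ((-(y + a) : ℝ) : ℂ) by push_cast; ring, Rf_neg_real]
    congr 2
    push_cast
    ring
  have e3 : Rf (((-y : ℝ) : ℂ) + a) = -Rf ((y : ℂ) - a) := by
    rw [show (((-y : ℝ) : ℂ) + a) = ((-(y - a) : ℝ) : ℂ) by push_cast; ring, Rf_neg_real]
    congr 2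
    push_cast
    ring
  rw [e1, e2, e3]
  ring

/-- The growth of a real slot increases in the index up to `y = a`. -/
theorem se_mono_low {t a : ℝ} (h0 : 1 / 10 ≤ t) (h1 : t ≤ a) (h2 : a ≤ 1 / 2) :
    s1 (a : ℂ) ≤ se (t : ℂ) (.op (a : ℂ)) := by
  have hpi := Real.pi_pos
  have hline : ∀ x : ℝ, ((x : ℂ) + ((0 : ℝ) : ℂ) * I) = (x : ℂ) := fun x => by simp
  have hD : ∀ x : ℝ, Real.sin (Real.pi * x) ≠ 0 → HasDerivAt (fun x : ℝ => Rf (x : ℂ))
      (Lg 0 x) x := by
    intro x hx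
    have hs : sin (Real.pi * ((x : ℂ) + ((0 : ℝ) : ℂ) * I)) ≠ 0 := by
      rw [hline, ← ofReal_mul, ← ofReal_sin]
      exact_mod_cast hx
    have := Rf_hasDerivAt hs
    have e : Real.log ‖2 * sin (Real.pi * ((x : ℂ) + ((0 : ℝ) : ℂ) * I))‖ = Lg 0 x := rfl
    rw [e] at this
    simp only [hline] at this
    exact this
  have hf : ∀ x ∈ Set.Ioo (1 / 10 : ℝ) t, HasDerivAt (fun x : ℝ => se (x : ℂ) (.op (a : ℂ)))
      (2 * Lg 0 (x + 1 / 2) - Lg 0 (x - a) - Lg 0 (x + a)) x := by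
    intro x hx
    have n1 : Real.sin (Real.pi * (x + 1 / 2)) ≠ 0 := by
      apply ne_of_gt
      apply Real.sin_pos_of_pos_of_lt_pi
      · have := hx.1; positivity
      · have := hx.2; linarith only [mul_pos (sub_pos.2 hpi) (sub_pos.2 this),
                        mul_nonneg (sub_nonneg.2 h2) (sub_nonneg.2 hpi.le),
                        mul_nonneg (sub_nonneg.2 h1) (sub_nonneg.2 hpi.le)]
    have n2 : Real.sin (Real.pi * (x - a)) ≠ 0 := by
      apply ne_of_lt
      apply Real.sin_neg_of_neg_of_neg_pi_lt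
      · have := hx.2; linarith only [mul_pos (sub_pos.2 hpi) (sub_pos.2 this),
                        mul_nonneg (sub_nonneg.2 h1) (sub_nonneg.2 hpi.le)]
      · have := hx.1; linarith only [hpi, mul_pos (sub_pos.2 hpi) (sub_pos.2 this),
                        mul_nonneg (sub_nonneg.2 h2) (sub_nonneg.2 hpi.le)]
    have n3 : Real.sin (Real.pi * (x + a)) ≠ 0 := by
      apply ne_of_gt
      apply Real.sin_pos_of_pos_of_lt_pi
      · have := hx.1
        have : 0 < x + a := by linarith only [this, h1, h0]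
        positivity
      · have := hx.2; linarith only [mul_pos (sub_pos.2 hpi) (sub_pos.2 this),
                        mul_nonneg (sub_nonneg.2 h2) (sub_nonneg.2 hpi.le),
                        mul_nonneg (sub_nonneg.2 h1) (sub_nonneg.2 hpi.le)]
    have d1 := (hD _ n1).comp_add_const x (1 / 2)
    have d2 := (hD _ n2).comp_sub_const x a
    have d3 := (hD _ n3).comp_add_const x a
    have d := ((d1.const_mul 2).sub d2).sub d3
    refine d.congr_of_eventuallyEq (Filter.Eventually.of_forall fun z => ?_)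
    show se (z : ℂ) (.op (a : ℂ)) = _
    unfold se
    simp only [ofReal_add, ofReal_sub, Pi.sub_apply]
    norm_num
  have hc : Continuous fun x : ℝ => se (x : ℂ) (.op (a : ℂ)) := by
    unfold se
    have := Rf_continuous
    simp only
    fun_prop
  have key : MonotoneOn (fun x : ℝ => se (x : ℂ) (.op (a : ℂ))) (Set.Icc (1 / 10) t) := by
    apply monotoneOn_of_deriv_nonneg (convex_Icc _ _) hc.continuousOn
    · rw [interior_Icc]
      exact fun x hx => (hf x hx).differentiableAt.differentiableWithinAt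
    · rw [interior_Icc]
      intro x hx
      rw [(hf x hx).deriv, Lg_zero_eq, Lg_zero_eq, Lg_zero_eq]
      have x0 := hx.1
      have x1 := hx.2
      have c1 : 0 < Real.sin (Real.pi * (x + 1 / 2)) := by
        apply Real.sin_pos_of_pos_of_lt_pi
        · have : 0 < x + 1 / 2 := by linarith only [x0]
          positivity
        · linarith only [mul_pos (sub_pos.2 hpi) (sub_pos.2 x1),
            mul_nonneg (sub_nonneg.2 h2) (sub_nonneg.2 hpi.le),
            mul_nonneg (sub_nonneg.2 h1) (sub_nonneg.2 hpi.le)]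
      have c2 : 0 < Real.sin (Real.pi * (a - x)) := by
        apply Real.sin_pos_of_pos_of_lt_pi
        · have : 0 < a - x := by linarith only [x1, h1]
          positivity
        · linarith only [hpi, mul_pos (sub_pos.2 hpi) (sub_pos.2 x0),
            mul_nonneg (sub_nonneg.2 h2) (sub_nonneg.2 hpi.le)]
      have c3 : 0 < Real.sin (Real.pi * (x + a)) := by
        apply Real.sin_pos_of_pos_of_lt_pi
        · have : 0 < x + a := by linarith only [x0, h1, h0]
          positivity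
        · linarith only [mul_pos (sub_pos.2 hpi) (sub_pos.2 x1),
            mul_nonneg (sub_nonneg.2 h2) (sub_nonneg.2 hpi.le),
            mul_nonneg (sub_nonneg.2 h1) (sub_nonneg.2 hpi.le)]
      have e2 : |2 * Real.sin (Real.pi * (x - a))| = 2 * Real.sin (Real.pi * (a - x)) := by
        rw [show Real.pi * (x - a) = -(Real.pi * (a - x)) by ring, Real.sin_neg, mul_neg, abs_neg,
          abs_of_pos (by positivity)]
      rw [e2, abs_of_pos (by positivity), abs_of_pos (by positivity)]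
      have e4 : Real.log (2 * Real.sin (Real.pi * (a - x))) +
          Real.log (2 * Real.sin (Real.pi * (x + a))) ≤
          2 * Real.log (2 * Real.sin (Real.pi * (x + 1 / 2))) := by
        rw [← Real.log_mul (by positivity) (by positivity), ← Real.log_rpow (by positivity)]
        apply Real.log_le_log (by positivity)
        rw [Real.rpow_two]
        have s3 : Real.sin (Real.pi * (x + 1 / 2)) = Real.cos (Real.pi * x) := by
          rw [← Real.sin_add_pi_div_two]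
          congr 1
          ring
        rw [s3, show Real.pi * (a - x) = Real.pi * a - Real.pi * x by ring,
          show Real.pi * (x + a) = Real.pi * x + Real.pi * a by ring, Real.sin_sub, Real.sin_add]
        have q1 := Real.sin_sq_add_cos_sq (Real.pi * a)
        have q2 := Real.sin_sq_add_cos_sq (Real.pi * x)
        have q3 := sq_nonneg (Real.cos (Real.pi * a))
        linarith only [mul_nonneg (sq_nonneg (Real.cos (Real.pi * x))) (sub_nonneg.2 q1.le),
          mul_nonneg (sq_nonneg (Real.cos (Real.pi * x))) (sub_nonneg.2 q1.ge),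
          mul_nonneg (sq_nonneg (Real.cos (Real.pi * a))) (sq_nonneg (Real.cos (Real.pi * x))),
          mul_nonneg (sq_nonneg (Real.cos (Real.pi * a))) (sq_nonneg (Real.sin (Real.pi * x)))]
      linarith only [e4]
  exact key ⟨le_rfl, h0⟩ ⟨h0, le_rfl⟩ h0

/-! ### The size of a lattice slot -/

theorem two_k0_le' (M : ℕ) {k : ℕ} (hk : k < k0 M) : 2 * k + 2 ≤ M := by
  unfold k0 at hk
  omega

theorem S_eq_exp {M k : ℕ} (hk : k < M) : S M k = Real.exp (LL M k).re := by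
  have h := congrArg norm (LL_nat M k hk)
  rw [norm_exp, norm_real, Real.norm_eq_abs, abs_of_pos (S_pos hk)] at h
  exact h.symm

theorem vl_two (M X : ℕ) : vl 2 M X = (X + 1 / 2) / M - 1 / 2 := by
  unfold vl bt
  norm_num

/-- The lattice slot at a small index. -/
theorem lat_slot : ∃ C : ℝ, 0 < C ∧ ∀ M : ℕ, 1 ≤ M → ∀ κ X : ℕ, κ < k0 M → X ≤ κ →
    Real.exp (2 * (LL M κ).re) * |qd M κ X| ≤
      Real.exp (C * (1 + Real.log M)) * Real.exp (-(M * s1 ((vl 2 M X : ℝ) : ℂ))) := by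
  obtain ⟨C, hC, h⟩ := LL_weight
  refine ⟨2 * C + 11, by positivity, fun M hM κ X hκ hX => ?_⟩
  have hM0 : (0 : ℝ) < M := by exact_mod_cast hM
  have hMc : (M : ℂ) ≠ 0 := by exact_mod_cast hM0.ne'
  have hlM : 0 ≤ Real.log M := Real.log_natCast_nonneg M
  have hpi := Real.pi_pos
  have h2k := two_k0_le' M hκ
  have hκM : κ < M := hκ.trans_le (k0_le M)
  -- the weight
  have w1 := h M hM ((yk 2 M κ : ℝ) : ℂ) (by
    rw [ofReal_re, yk_two]
    have : 1 / (2 * (M : ℝ)) ≤ (κ + 1) / M := by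
      rw [div_le_div_iff₀ (by positivity) hM0]
      have : (0 : ℝ) ≤ κ := Nat.cast_nonneg κ
      nlinarith
    linarith only [this]) (by
    rw [ofReal_re, yk_two]
    have h3 : ((κ : ℝ) + 1) / M ≤ 1 := by
      rw [div_le_one hM0]
      exact_mod_cast hκM
    have h4 : 0 < 1 / (2 * (M : ℝ)) := by positivity
    linarith only [h4, h3])
  have e0 : (M : ℂ) * (((yk 2 M κ : ℝ) : ℂ) + 1 / 2) - 1 = (κ : ℂ) := by
    rw [yk_two]
    push_cast
    field_simp
    ring
  rw [e0, ofReal_im, abs_zero, add_zero] at w1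
  -- the two other factors
  have a1 : κ - X < M := by omega
  have a2 : M - 2 - κ - X < M := by omega
  have r1 := LL_Rf hM (z := ((κ - X : ℕ) : ℂ)) (by
    rw [natCast_re]; have : (0 : ℝ) ≤ ((κ - X : ℕ) : ℝ) := Nat.cast_nonneg _; linarith only []) (by
    rw [natCast_re]
    have : ((κ - X : ℕ) : ℝ) + 1 ≤ M := by exact_mod_cast a1
    linarith only [this])
  have r2 := LL_Rf hM (z := ((M - 2 - κ - X : ℕ) : ℂ)) (by
    rw [natCast_re]; have : (0 : ℝ) ≤ ((M - 2 - κ - X : ℕ) : ℝ) := Nat.cast_nonneg _; linarith only []) (by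
    rw [natCast_re]
    have : ((M - 2 - κ - X : ℕ) : ℝ) + 1 ≤ M := by exact_mod_cast a2
    linarith only [this])
  have c1 : (((κ - X : ℕ) : ℂ) + 1 / 2) / M =
      ((yk 2 M κ : ℝ) : ℂ) - ((vl 2 M X : ℝ) : ℂ) := by
    rw [yk_two, vl_two, Nat.cast_sub hX]
    push_cast
    field_simp
    ring
  have c2 : (((M - 2 - κ - X : ℕ) : ℂ) + 1 / 2) / M =
      ((-(yk 2 M κ + vl 2 M X) : ℝ) : ℂ) := by
    have : ((M - 2 - κ - X : ℕ) : ℂ) = M - 2 - κ - X := by
      rw [Nat.cast_sub (by omega), Nat.cast_sub (by omega), Nat.cast_sub (by omega)]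
      norm_num
    rw [this, yk_two, vl_two]
    push_cast
    field_simp
    ring
  rw [c1] at r1
  rw [c2, Rf_neg_real, ofReal_add] at r2
  -- the exponent
  have hse : se ((yk 2 M κ : ℝ) : ℂ) (.op ((vl 2 M X : ℝ) : ℂ)) ≤
      -s1 ((vl 2 M X : ℝ) : ℂ) := by
    have hy : yk 2 M κ ≤ -(1 / 10) := by
      rw [yk_two]
      have h2 : 5 * (κ + 1) ≤ 2 * M := by unfold k0 at hκ; omega
      have h3 : (5 : ℝ) * (κ + 1) ≤ 2 * M := by exact_mod_cast h2
      have h4 : ((κ : ℝ) + 1) / M ≤ 2 / 5 := by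
        rw [div_le_iff₀ hM0]; linarith only [h3]
      linarith only [h4]
    have hv0 : vl 2 M X ≤ yk 2 M κ := by
      rw [yk_two, vl_two]
      have hXr : (X : ℝ) ≤ κ := by exact_mod_cast hX
      have : ((X : ℝ) + 1 / 2) / M ≤ (κ + 1) / M := by gcongr; linarith only []
      linarith only [this]
    have hv1 : -(1 / 2) ≤ vl 2 M X := by
      rw [vl_two]
      have : 0 ≤ ((X : ℝ) + 1 / 2) / M := by positivity
      linarith only [this]
    have k := se_mono_low (t := -yk 2 M κ) (a := -vl 2 M X) (by linarith only [hy]) (by linarith only [hv0])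
      (by linarith only [hv1])
    have k2 : s1 ((vl 2 M X : ℝ) : ℂ) = s1 ((-vl 2 M X : ℝ) : ℂ) := by
      rw [s1_even, abs_of_nonpos (by linarith only [hv0, hy])]
    have k3 : se ((-yk 2 M κ : ℝ) : ℂ) (.op ((-vl 2 M X : ℝ) : ℂ)) =
        -se ((yk 2 M κ : ℝ) : ℂ) (.op ((vl 2 M X : ℝ) : ℂ)) := by
      rw [se_real_odd, ofReal_neg, se_op_neg]
    rw [k3, ← k2] at k
    linarith only [k]
  unfold se at hse
  simp only at hse
  have hse2 := mul_le_mul_of_nonneg_left hse hM0.le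
  rw [abs_le] at w1 r1 r2
  -- the value
  have hq : |qd M κ X| = 2 * Real.pi * Real.exp ((LL M ((M - 2 - κ - X : ℕ) : ℂ)).re -
      (LL M ((κ - X : ℕ) : ℂ)).re) := by
    unfold qd
    have p1 : |(-1 : ℝ) ^ (M - 2 - κ - X)| = 1 := by rw [abs_pow, abs_neg, abs_one, one_pow]
    rw [abs_div, abs_mul, abs_mul (_ ^ _), p1, one_mul,
      S_eq_exp a1, S_eq_exp a2, abs_of_pos (Real.exp_pos _), abs_of_pos (Real.exp_pos _),
      abs_of_pos (by positivity : 0 < 2 * Real.pi), Real.exp_sub]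
    ring
  have hp : 2 * Real.pi ≤ Real.exp 7 := by
    have := Real.add_one_le_exp (7 : ℝ)
    have := Real.pi_lt_d2
    linarith [this]
  rw [hq]
  calc Real.exp (2 * (LL M (κ : ℂ)).re) * (2 * Real.pi *
        Real.exp ((LL M ((M - 2 - κ - X : ℕ) : ℂ)).re - (LL M ((κ - X : ℕ) : ℂ)).re))
      ≤ Real.exp (2 * (LL M (κ : ℂ)).re) * (Real.exp 7 *
        Real.exp ((LL M ((M - 2 - κ - X : ℕ) : ℂ)).re - (LL M ((κ - X : ℕ) : ℂ)).re)) := by
        gcongr
    _ = Real.exp (2 * (LL M (κ : ℂ)).re + (7 + ((LL M ((M - 2 - κ - X : ℕ) : ℂ)).re -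
        (LL M ((κ - X : ℕ) : ℂ)).re))) := by
        rw [Real.exp_add, Real.exp_add]
    _ ≤ Real.exp ((2 * C + 11) * (1 + Real.log M) + -(M * s1 ((vl 2 M X : ℝ) : ℂ))) := by
        apply Real.exp_le_exp.2
        linarith only [hse2, r2.2, r1.1, w1.2, hlM]
    _ = _ := by rw [Real.exp_add]

/-- The closed slot at a small index. -/
theorem cl_slot : ∃ C : ℝ, 0 < C ∧ ∀ M : ℕ, 1 ≤ M → ∀ (κ : ℕ) (s : ℤ), κ < k0 M →
    (s = 1 ∨ s = -1) → Real.exp (2 * (LL M κ).re) * ‖sk M κ (.cl s)‖ ≤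
      Real.exp (C * (1 + Real.log M)) := by
  obtain ⟨C, hC, h⟩ := slot_bound
  refine ⟨C, hC, fun M hM κ s hκ hs => ?_⟩
  have hM0 : (0 : ℝ) < M := by exact_mod_cast hM
  have hMc : (M : ℂ) ≠ 0 := by exact_mod_cast hM0.ne'
  have hκM : κ < M := hκ.trans_le (k0_le M)
  have hy : yk 2 M κ ≤ 0 := by
    rw [yk_two]
    have h2 : 5 * (κ + 1) ≤ 2 * M := by unfold k0 at hκ; omega
    have h3 : (5 : ℝ) * (κ + 1) ≤ 2 * M := by exact_mod_cast h2
    have h4 : ((κ : ℝ) + 1) / M ≤ 2 / 5 := by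
      rw [div_le_iff₀ hM0]; linarith only [h3]
    linarith only [h4]
  have hy0 : -1 / 2 + 1 / (2 * (M : ℝ)) ≤ yk 2 M κ := by
    rw [yk_two]
    have : 1 / (2 * (M : ℝ)) ≤ (κ + 1) / M := by
      rw [div_le_div_iff₀ (by positivity) hM0]
      have : (0 : ℝ) ≤ κ := Nat.cast_nonneg κ
      nlinarith
    linarith only [this]
  have hok : (Sl.cl s).ok := hs
  have k := h M hM (.cl s) ((yk 2 M κ : ℝ) : ℂ) hok (by rwa [ofReal_re])
    (by rw [ofReal_re]; linarith only [hy])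
  have e0 : (M : ℂ) * (((yk 2 M κ : ℝ) : ℂ) + 1 / 2) - 1 = (κ : ℂ) := by
    rw [yk_two]
    push_cast
    field_simp
    ring
  rw [e0, sC_yk hκM hok, ofReal_im, abs_zero, add_zero, norm_mul, norm_exp] at k
  have e1 : (2 * LL M (κ : ℂ)).re = 2 * (LL M (κ : ℂ)).re := by simp
  rw [e1] at k
  refine k.trans ?_
  have hh : 0 < 1 / (2 * (M : ℝ)) := by positivity
  have h5 := low_E1c (y := yk 2 M κ) (by linarith only [hh, hy0]) hy s
  calc Real.exp (C * (1 + Real.log M)) * Real.exp (M * se ((yk 2 M κ : ℝ) : ℂ) (.cl s))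
      ≤ Real.exp (C * (1 + Real.log M)) * 1 := by
        apply mul_le_mul_of_nonneg_left _ (Real.exp_pos _).le
        rw [Real.exp_le_one_iff]
        exact mul_nonpos_of_nonneg_of_nonpos hM0.le h5
    _ = _ := mul_one _

theorem exp_log_pow {C : ℝ} (hC : 0 < C) : ∃ K : ℝ, 0 < K ∧ ∃ p : ℕ, ∀ M : ℕ, 1 ≤ M →
    Real.exp (C * (1 + Real.log M)) ≤ K * (M : ℝ) ^ p := by
  refine ⟨Real.exp C, Real.exp_pos _, ⌈C⌉₊, fun M hM => ?_⟩
  have hM0 : (0 : ℝ) < M := by exact_mod_cast hM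
  have hlM : 0 ≤ Real.log M := Real.log_natCast_nonneg M
  rw [mul_add, mul_one, Real.exp_add]
  apply mul_le_mul_of_nonneg_left _ (Real.exp_pos _).le
  calc Real.exp (C * Real.log M) ≤ Real.exp (⌈C⌉₊ * Real.log M) := by
        apply Real.exp_le_exp.2
        exact mul_le_mul_of_nonneg_right (Nat.le_ceil _) hlM
    _ = (M : ℝ) ^ ⌈C⌉₊ := by
        rw [← Real.log_pow, Real.exp_log (by positivity)]

theorem Cc_norm {M : ℕ} (hM : 1 ≤ M) (κ : ℕ) : ‖Cc 2 1 M (yk 2 M κ : ℝ)‖ =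
    Real.exp (2 * (LL M κ).re) * Real.exp (2 * (LL M κ).re) := by
  have hM0 : (0 : ℝ) < M := by exact_mod_cast hM
  have hMc : (M : ℂ) ≠ 0 := by exact_mod_cast hM0.ne'
  have e0 : (M : ℂ) * (((yk 2 M κ : ℝ) : ℂ) + 1 / 2) - 1 = (κ : ℂ) := by
    rw [yk_two]
    push_cast
    field_simp
    ring
  rw [Cc_eq, e0, norm_exp, ← Real.exp_add]
  congr 1
  have : (4 * LL M (κ : ℂ)).re = 4 * (LL M (κ : ℂ)).re := by simp
  rw [this]
  ring

/-- A low edge with two lattice vertices. -/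
theorem low_lat : ∃ K : ℝ, 0 < K ∧ ∃ p : ℕ, ∀ M : ℕ, 1 ≤ M → ∀ κ < k0 M, ∀ X < M, ∀ X' < M,
    ‖Cc 2 1 M (yk 2 M κ : ℝ) * (ql M κ X * ql M κ X')‖ ≤ K * (M : ℝ) ^ p *
      Real.exp (-(M * (s1 ((vl 2 M X : ℝ) : ℂ) + s1 ((vl 2 M X' : ℝ) : ℂ)))) := by
  obtain ⟨C, hC, h⟩ := lat_slot
  obtain ⟨K, hK, p, hp⟩ := exp_log_pow (C := 2 * C) (by positivity)
  refine ⟨K, hK, p, fun M hM κ hκ X _ X' _ => ?_⟩
  have e : ∀ X, Real.exp (2 * (LL M κ).re) * ‖ql M κ X‖ ≤
      Real.exp (C * (1 + Real.log M)) * Real.exp (-(M * s1 ((vl 2 M X : ℝ) : ℂ))) := by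
    intro X
    unfold ql
    split_ifs with hX
    · rw [norm_real, Real.norm_eq_abs]
      exact h M hM κ X hκ hX
    · rw [norm_zero, mul_zero]
      positivity
  rw [norm_mul, norm_mul, Cc_norm hM κ]
  calc Real.exp (2 * (LL M κ).re) * Real.exp (2 * (LL M κ).re) * (‖ql M κ X‖ * ‖ql M κ X'‖)
      = (Real.exp (2 * (LL M κ).re) * ‖ql M κ X‖) *
        (Real.exp (2 * (LL M κ).re) * ‖ql M κ X'‖) := by ring
    _ ≤ (Real.exp (C * (1 + Real.log M)) * Real.exp (-(M * s1 ((vl 2 M X : ℝ) : ℂ)))) *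
        (Real.exp (C * (1 + Real.log M)) * Real.exp (-(M * s1 ((vl 2 M X' : ℝ) : ℂ)))) :=
        mul_le_mul (e X) (e X') (by positivity) (by positivity)
    _ = Real.exp (2 * C * (1 + Real.log M)) *
        Real.exp (-(M * (s1 ((vl 2 M X : ℝ) : ℂ) + s1 ((vl 2 M X' : ℝ) : ℂ)))) := by
        rw [← Real.exp_add, ← Real.exp_add, ← Real.exp_add, ← Real.exp_add]
        congr 1
        ring
    _ ≤ _ := mul_le_mul_of_nonneg_right (hp M hM) (Real.exp_pos _).le

/-- A low edge with a lattice vertex and a closed end. -/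
theorem low_lat_cl : ∃ K : ℝ, 0 < K ∧ ∃ p : ℕ, ∀ M : ℕ, 1 ≤ M → ∀ κ < k0 M, ∀ X < M, ∀ s : ℤ,
    (s = 1 ∨ s = -1) →
    ‖Cc 2 1 M (yk 2 M κ : ℝ) * (ql M κ X * sk M κ (.cl s))‖ ≤ K * (M : ℝ) ^ p *
      Real.exp (-(M * s1 ((vl 2 M X : ℝ) : ℂ))) := by
  obtain ⟨C1, hC1, h1⟩ := lat_slot
  obtain ⟨C2, hC2, h2⟩ := cl_slot
  obtain ⟨K, hK, p, hp⟩ := exp_log_pow (C := C1 + C2) (by positivity)
  refine ⟨K, hK, p, fun M hM κ hκ X _ s hs => ?_⟩
  have e : Real.exp (2 * (LL M κ).re) * ‖ql M κ X‖ ≤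
      Real.exp (C1 * (1 + Real.log M)) * Real.exp (-(M * s1 ((vl 2 M X : ℝ) : ℂ))) := by
    unfold ql
    split_ifs with hX
    · rw [norm_real, Real.norm_eq_abs]
      exact h1 M hM κ X hκ hX
    · rw [norm_zero, mul_zero]
      positivity
  rw [norm_mul, norm_mul, Cc_norm hM κ]
  calc Real.exp (2 * (LL M κ).re) * Real.exp (2 * (LL M κ).re) *
        (‖ql M κ X‖ * ‖sk M κ (.cl s)‖)
      = (Real.exp (2 * (LL M κ).re) * ‖ql M κ X‖) *
        (Real.exp (2 * (LL M κ).re) * ‖sk M κ (.cl s)‖) := by ring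
    _ ≤ (Real.exp (C1 * (1 + Real.log M)) * Real.exp (-(M * s1 ((vl 2 M X : ℝ) : ℂ)))) *
        Real.exp (C2 * (1 + Real.log M)) :=
        mul_le_mul e (h2 M hM κ s hκ hs) (by positivity) (by positivity)
    _ = Real.exp ((C1 + C2) * (1 + Real.log M)) *
        Real.exp (-(M * s1 ((vl 2 M X : ℝ) : ℂ))) := by
        rw [← Real.exp_add, ← Real.exp_add, ← Real.exp_add]
        congr 1
        ring
    _ ≤ _ := mul_le_mul_of_nonneg_right (hp M hM) (Real.exp_pos _).le

/-- The lattice points on the side of the small indices. -/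
theorem vl_low {M X : ℕ} (hX : X < k0 M) : -(1 / 2) ≤ vl 2 M X ∧ vl 2 M X ≤ -(1 / 10) := by
  have hM : 0 < M := by unfold k0 at hX; omega
  have hM0 : (0 : ℝ) < M := by exact_mod_cast hM
  rw [vl_two]
  have h0 : 0 ≤ ((X : ℝ) + 1 / 2) / M := by positivity
  have h2 : 5 * (X + 1) ≤ 2 * M := by unfold k0 at hX; omega
  have h3 : (5 : ℝ) * (X + 1) ≤ 2 * M := by exact_mod_cast h2
  have h4 : ((X : ℝ) + 1 / 2) / M ≤ 2 / 5 := by
    rw [div_le_iff₀ hM0]; linarith only [h3]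
  constructor <;> linarith

end Pool.Agent.S3
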