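import Pool.Agent.S3.LL3
import Pool.Agent.S3.LX2
import Pool.Agent.S3.Low4

/-! # The small indices with lattice sums: the abstract theorem

`T`: the open vertices at an edge with small index. They are treated by a lattice sum. The share of
such a vertex in the bound of an edge with large index is the canonical one at a test point `t i` of
its line, plus `g i + s1 v`; the edge with small index gains `s1 v`. -/

namespace Pool.Agent.S3

open Pool.Agent.H63.VC hiding ext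
open Pool.Agent.H63.VC3 Pool.Agent.H63.VC4 Pool.Agent.H63.VC6 Pool.Agent.H63.VC7 Complex
open Pool.Agent.H25.RK Filter Topology MeasureTheory
open scoped BigOperators

variable {m : ℕ}

/-! ### The lattice points -/

/-- The lattice points lie in this set. -/
def rlow : Set ℂ := {v | v.im = 0 ∧ -(1 / 2) ≤ v.re ∧ v.re ≤ -(1 / 10)}

theorem rlow_eq {v : ℂ} (h : v ∈ rlow) : v = ((v.re : ℝ) : ℂ) := by
  apply Complex.ext
  · simp
  · simpa using h.1

theorem rlow_abs {v : ℂ} (h : v ∈ rlow) : |v.re| ≤ 1 / 2 := by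
  rw [abs_le]
  exact ⟨h.2.1, by linarith [h.2.2]⟩

theorem rlow_compact : IsCompact rlow := by
  have e : rlow = (fun x : ℝ => (x : ℂ)) '' Set.Icc (-(1 / 2)) (-(1 / 10)) := by
    ext v
    constructor
    · intro h
      exact ⟨v.re, h.2, (rlow_eq h).symm⟩
    · rintro ⟨x, hx, rfl⟩
      exact ⟨by simp, by simpa using hx⟩
  rw [e]
  exact isCompact_Icc.image continuous_ofReal

theorem s1_rlow {v : ℂ} (h : v ∈ rlow) : 0 ≤ s1 v := by
  rw [rlow_eq h]
  exact s1_nonneg (rlow_abs h)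

/-- The index of the lattice point. -/
noncomputable def Xc (M : ℕ) (x : ℝ) : ℕ := if x < k0 M then ⌊x⌋₊ else 0

theorem Xc_lt {M : ℕ} (hM : 0 < k0 M) (x : ℝ) : Xc M x < k0 M := by
  unfold Xc
  split_ifs with h
  · exact (Nat.floor_lt' hM.ne').2 h
  · exact hM

/-- The lattice point. -/
noncomputable def vT (M : ℕ) (x : ℝ) : ℂ := ((vl 2 M (Xc M x) : ℝ) : ℂ)

theorem vT_mem {M : ℕ} (hM : 0 < k0 M) (x : ℝ) : vT M x ∈ rlow := by
  have h1 := Xc_lt hM x
  have h2 : 5 * (Xc M x + 1) ≤ 2 * M := by unfold k0 at h1; omega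
  have h3 : (5 : ℝ) * (Xc M x + 1) ≤ 2 * M := by exact_mod_cast h2
  have hM0 : 0 < M := by unfold k0 at hM; omega
  have hM' : (0 : ℝ) < M := by exact_mod_cast hM0
  have e : vl 2 M (Xc M x) = ((Xc M x : ℝ) + 1 / 2) / M - 1 / 2 := by
    unfold vl bt
    norm_num
  have h4 : ((Xc M x : ℝ) + 1 / 2) / M ≤ 2 / 5 := by
    rw [div_le_iff₀ hM']; linarith
  have h5 : 0 ≤ ((Xc M x : ℝ) + 1 / 2) / M := by positivity
  unfold vT
  refine ⟨by simp, ?_, ?_⟩
  · rw [ofReal_re, e]; linarith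
  · rw [ofReal_re, e]; linarith

namespace Cfg

variable (C : Cfg m)

/-- The cost of a vertex at an edge with small index. -/
noncomputable def cr2 (g ρ : Fin (m + 1) → ℝ) (i : Fin (m + 1)) : ℝ :=
  if i ∈ C.Op then g i + ρ i else 0

/-- The limit contour of a vertex: the real segment if `b`. -/
def sT2 (v1 : Fin (m + 1) → ℝ) (b : Bool) (i : Fin (m + 1)) : Set ℂ :=
  if b then rlow else {v | (i ∈ C.Op → v ∈ G0 (C.θ i) (v1 i)) ∧ (i ∉ C.Op → v = 0)}

/-- The share of a vertex at an edge with large index. -/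
noncomputable def lT2 (v1 : Fin (m + 1) → ℝ) (lam : Fin m → Fin (m + 1) → ℝ)
    (t : Fin (m + 1) → ℂ) (g : Fin (m + 1) → ℝ) (b : Bool) (j : Fin m) (i : Fin (m + 1)) (v : ℂ) : ℝ :=
  if b then C.lv j i (t i) + (g i + s1 v) else C.lw v1 lam j i v

/-- The hypotheses of the abstract theorem. -/
structure LowH2 (v1 : Fin (m + 1) → ℝ) (lam : Fin m → Fin (m + 1) → ℝ)
    (t : Fin (m + 1) → ℂ) (g : Fin (m + 1) → ℝ) (ρ : Fin (m + 1) → ℝ) : Prop where
  hg : ∀ i ∈ C.Op, 0 ≤ g i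
  hρ : ∀ i ∈ C.Op, 0 ≤ ρ i
  wt : ∀ i ∈ C.Op, -(wr (C.r i) (t i)).re ≤ ρ i
  bad : ∀ j : Fin m, C.cr2 g ρ j.castSucc + C.cr2 g ρ j.succ < C.Lt j (t j.castSucc) (t j.succ)
  good : ∀ (j : Fin m) (b b' : Bool), (b = true → j.castSucc ∈ C.Op) →
    (b' = true → j.succ ∈ C.Op) → (b = true ∨ b' = true) →
    ∀ v ∈ C.sT2 v1 b j.castSucc, ∀ w ∈ C.sT2 v1 b' j.succ,
      EdgeOK (C.sv j.castSucc v) (C.sv j.succ w)
        (C.Fc j + C.lT2 v1 lam t g b j j.castSucc v + C.lT2 v1 lam t g b' j j.succ w)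

variable {C}

theorem lT2_continuous (v1 : Fin (m + 1) → ℝ) (lam : Fin m → Fin (m + 1) → ℝ)
    (t : Fin (m + 1) → ℂ) (g : Fin (m + 1) → ℝ) (b : Bool) (j : Fin m) (i : Fin (m + 1)) :
    Continuous (C.lT2 v1 lam t g b j i) := by
  unfold lT2
  cases b
  · simpa using lw_continuous v1 lam j i
  · have := s1_continuous
    simp only [if_true]
    fun_prop

theorem sT2_compact (v1 : Fin (m + 1) → ℝ) (b : Bool) (i : Fin (m + 1)) :
    IsCompact (C.sT2 v1 b i) := by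
  cases b
  · have := sT_compact (C := C) v1 false i
    unfold sT at this
    unfold sT2
    simpa using this
  · unfold sT2
    simp only [if_true]
    exact rlow_compact

variable {v1 : Fin (m + 1) → ℝ} {lam : Fin m → Fin (m + 1) → ℝ} {t : Fin (m + 1) → ℂ} {g ρ : Fin (m + 1) → ℝ}

/-- The kernels with large indices of the edges at `T`. -/
theorem LowH2.bound (hK : KsB) (H : C.LowH2 v1 lam t g ρ) :
    ∃ η : ℝ, 0 < η ∧ ∃ K : ℝ, 0 < K ∧ ∃ p : ℕ, ∀ J : Fin m × Bool × Bool,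
      (J.2.1 = true → J.1.castSucc ∈ C.Op) → (J.2.2 = true → J.1.succ ∈ C.Op) →
      (J.2.1 = true ∨ J.2.2 = true) → ∀ M : ℕ, 1 ≤ M → ∀ v w : ℂ,
      (∃ v0 ∈ C.sT2 v1 J.2.1 J.1.castSucc, ‖v - v0‖ ≤ η) →
      (∃ w0 ∈ C.sT2 v1 J.2.2 J.1.succ, ‖w - w0‖ ≤ η) →
      (C.sv J.1.castSucc v).ok → (C.sv J.1.succ w).ok → (C.sv J.1.castSucc v).nn →
      (C.sv J.1.succ w).nn →
      ‖KE M (C.sv J.1.castSucc v) (C.sv J.1.succ w)‖ ≤ K * (M : ℝ) ^ p *
        Real.exp (M * (C.Fc J.1 + C.lT2 v1 lam t g J.2.1 J.1 J.1.castSucc v +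
          C.lT2 v1 lam t g J.2.2 J.1 J.1.succ w)) := by
  refine low_choose (P := fun (J : Fin m × Bool × Bool) (η K : ℝ) (p : ℕ) =>
      (J.2.1 = true → J.1.castSucc ∈ C.Op) → (J.2.2 = true → J.1.succ ∈ C.Op) →
      (J.2.1 = true ∨ J.2.2 = true) → ∀ M : ℕ, 1 ≤ M → ∀ v w : ℂ,
      (∃ v0 ∈ C.sT2 v1 J.2.1 J.1.castSucc, ‖v - v0‖ ≤ η) →
      (∃ w0 ∈ C.sT2 v1 J.2.2 J.1.succ, ‖w - w0‖ ≤ η) →
      (C.sv J.1.castSucc v).ok → (C.sv J.1.succ w).ok → (C.sv J.1.castSucc v).nn →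
      (C.sv J.1.succ w).nn →
      ‖KE M (C.sv J.1.castSucc v) (C.sv J.1.succ w)‖ ≤ K * (M : ℝ) ^ p *
        Real.exp (M * (C.Fc J.1 + C.lT2 v1 lam t g J.2.1 J.1 J.1.castSucc v +
          C.lT2 v1 lam t g J.2.2 J.1 J.1.succ w))) ?_ ?_
  · rintro J η η' K K' p p' h hK0 hη hKK hpp c1 c2 c3 M hM v w ⟨v0, a1, a2⟩ ⟨w0, a3, a4⟩ o1 o2 n1 n2
    refine (h c1 c2 c3 M hM v w ⟨v0, a1, a2.trans hη⟩ ⟨w0, a3, a4.trans hη⟩ o1 o2 n1 n2).trans ?_
    exact low_pow_le (by exact_mod_cast hM) hK0 hKK hpp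
  · rintro ⟨j, b, b'⟩
    by_cases hc : (b = true → j.castSucc ∈ C.Op) ∧ (b' = true → j.succ ∈ C.Op) ∧
        (b = true ∨ b' = true)
    · obtain ⟨c1, c2, c3⟩ := hc
      obtain ⟨η, hη, K, hK0, p, h⟩ := low_KE hK (C.sv j.castSucc) (C.sv j.succ) (sv_cases _)
        (sv_cases _) (fun q => C.Fc j + C.lT2 v1 lam t g b j j.castSucc q.1 +
          C.lT2 v1 lam t g b' j j.succ q.2)
        ((continuous_const.add ((lT2_continuous v1 lam t g b j _).comp continuous_fst)).add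
          ((lT2_continuous v1 lam t g b' j _).comp continuous_snd))
        (C.sT2 v1 b j.castSucc ×ˢ C.sT2 v1 b' j.succ)
        ((sT2_compact v1 b _).prod (sT2_compact v1 b' _))
        (fun q hq => H.good j b b' c1 c2 c3 q.1 hq.1 q.2 hq.2)
      refine ⟨η, hη, K, hK0, p, ?_⟩
      rintro - - - M hM v w ⟨v0, a1, a2⟩ ⟨w0, a3, a4⟩ o1 o2 n1 n2
      refine h M hM (v, w) ⟨(v0, w0), ⟨a1, a3⟩, ?_⟩ o1 o2 n1 n2
      rw [Prod.dist_eq]
      simp only [dist_eq_norm]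
      exact max_le a2 a4
    · refine ⟨1, one_pos, 1, one_pos, 0, ?_⟩
      intro c1 c2 c3
      exact absurd ⟨c1, c2, c3⟩ hc

/-! ### The integrand -/

open Classical in
/-- The points of the contours. -/
noncomputable def pt2 (C : Cfg m) (v1 : Fin (m + 1) → ℝ) (ε : ℝ) (L : Finset (Fin m)) (M : ℕ)
    (x : C.Op → ℝ) (i : Fin (m + 1)) : ℂ :=
  if h : i ∈ C.Op then (if C.Tv L i then vT M (x ⟨i, h⟩) else C.gm v1 ε i (x ⟨i, h⟩)) else 0

open Classical in
/-- The vertex factors. -/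
noncomputable def g2 (C : Cfg m) (v1 : Fin (m + 1) → ℝ) (ε : ℝ) (L : Finset (Fin m)) (M : ℕ)
    (i : Fin (m + 1)) (x : ℝ) : ℂ :=
  if C.Tv L i then (if 0 ≤ x ∧ x < (k0 M : ℕ) then gl (C.r i) M ⌊x⌋₊ else 0)
  else (-(4 * Real.pi * I) * M ^ 2) * gvx (C.r i) (C.gm v1 ε i) (C.gm' v1 ε i) M x

open Classical in
/-- The slots of the open vertices. -/
noncomputable def s2 (C : Cfg m) (v1 : Fin (m + 1) → ℝ) (ε : ℝ) (L : Finset (Fin m)) (M : ℕ)
    (i : Fin (m + 1)) (j : Fin m) (κ : ℕ) (x : ℝ) : ℂ :=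
  if C.Tv L i then (if j ∈ L then ql M κ (Xc M x) else sk M κ (.op (vT M x)))
  else sk M κ (.op (C.gm v1 ε i x))

/-- The slots of the closed vertices. -/
noncomputable def s20 (C : Cfg m) (M : ℕ) (i : Fin (m + 1)) (_ : Fin m) (κ : ℕ) : ℂ :=
  sk M κ (.cl (C.s i))

/-- No open vertex has two edges with small index. -/
def Mat (C : Cfg m) (L : Finset (Fin m)) : Prop :=
  ∀ i ∈ C.Op, ∀ j ∈ L, ∀ j' ∈ L, j ∈ inc (Fin.castSucc (n := m)) Fin.succ i →
    j' ∈ inc (Fin.castSucc (n := m)) Fin.succ i → j = j'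

theorem SL_low {M : ℕ} {L : Finset (Fin m)} {k : Fin m → ℕ} (hk : k ∈ Fintype.piFinset (SL M L))
    {j : Fin m} (hj : j ∈ L) : k j < k0 M := by
  have h := Fintype.mem_piFinset.1 hk j
  unfold SL at h
  rw [if_pos hj] at h
  exact Finset.mem_range.1 h

theorem SL_ltM {M : ℕ} {L : Finset (Fin m)} {k : Fin m → ℕ} (hk : k ∈ Fintype.piFinset (SL M L))
    (j : Fin m) : k j < M :=
  Finset.mem_range.1 (SL_subset M L j (Fintype.mem_piFinset.1 hk j))

theorem k0_two {M κ : ℕ} (h : κ < k0 M) : 2 * κ + 2 ≤ M := by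
  unfold k0 at h; omega

/-- If an open vertex has two edges with small index then the part vanishes. -/
theorem JS_notMat {L : Finset (Fin m)} (h : ¬ C.Mat L) (M : ℕ) : JS C.r M (SL M L) = 0 := by
  unfold Mat at h
  push Not at h
  obtain ⟨i, hi, j, hj, j', hj', h1, h2, hne⟩ := h
  unfold JS
  refine Finset.sum_eq_zero fun k hk => ?_
  have h3 : DG (C.r i) M (inc (Fin.castSucc (n := m)) Fin.succ i) k = 0 :=
    DG_two (C.r i) k (fun j _ => SL_ltM hk j) h1 h2 hne (k0_two (SL_low hk hj))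
      (k0_two (SL_low hk hj'))
  rw [Finset.prod_eq_zero (Finset.mem_univ i) h3, mul_zero]

/-- The lattice summand. -/
private noncomputable def FT (C : Cfg m) (L : Finset (Fin m)) (M : ℕ) (i : Fin (m + 1))
    (k : Fin m → ℕ) (X : ℕ) : ℂ := gl (C.r i) M X *
      ∏ j ∈ inc (Fin.castSucc (n := m)) Fin.succ i, (if j ∈ L then ql M (k j) X
        else qc M (k j) ((vl 2 M X : ℝ) : ℂ))

private theorem gT_eq {ε : ℝ} {L : Finset (Fin m)} {M : ℕ} {i : Fin (m + 1)} (hT : C.Tv L i)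
    (k : Fin m → ℕ) : (fun x : ℝ => C.g2 v1 ε L M i x *
      ∏ j ∈ inc (Fin.castSucc (n := m)) Fin.succ i, C.s2 v1 ε L M i j (k j) x) =
    fun x : ℝ => if 0 ≤ x ∧ x < (k0 M : ℕ) then FT C L M i k ⌊x⌋₊ else 0 := by
  funext x
  unfold g2 s2 FT
  simp only [if_pos hT]
  by_cases h : 0 ≤ x ∧ x < (k0 M : ℕ)
  · rw [if_pos h, if_pos h]
    have e : Xc M x = ⌊x⌋₊ := by unfold Xc; rw [if_pos h.2]
    congr 1
    refine Finset.prod_congr rfl fun j _ => ?_
    unfold vT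
    rw [e]
    rfl
  · rw [if_neg h, if_neg h, zero_mul]

/-- The part of the invariant as an integral. -/
theorem JS_eq2 (hC : C.Crit) (hE : C.Edg v1 lam)
    (hinc : ∀ i ∉ C.Op, ∃ j, inc (Fin.castSucc (n := m)) Fin.succ i = {j}) {ε : ℝ} (hε : 0 < ε)
    {L : Finset (Fin m)} (hL : C.Mat L) {M : ℕ} (hM : 0 < M)
    (hcl : ∀ i ∉ C.Op, ∀ (j : Fin m) (k : Fin m → ℕ), (∀ j, k j < M) →
      DG (C.r i) M {j} k = sk M (k j) (.cl (C.s i))) :
    JS C.r M (SL M L) = ∫ x : C.Op → ℝ, (∏ i : C.Op, C.g2 v1 ε L M i (x i)) *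
      ∏ j : Fin m, ∑ κ ∈ SL M L j, Cc 2 1 M (yk 2 M κ : ℝ) *
        (sgx C.Op (C.s2 v1 ε L M) (C.s20 M) x j.castSucc j κ *
          sgx C.Op (C.s2 v1 ε L M) (C.s20 M) x j.succ j κ) := by
  have hctr : ∀ i ∈ C.Op, Ctr (C.gm v1 ε i) (C.gm' v1 ε i) := fun i hi =>
    gam_ctr (hC.th0 i hi) (hC.th1 i hi) (hE.v0 i hi) (hE.vh i hi) hε
  have nT : ∀ i, ¬ C.Tv L i → ∀ k : Fin m → ℕ, (fun x : ℝ => C.g2 v1 ε L M i x *
      ∏ j ∈ inc (Fin.castSucc (n := m)) Fin.succ i, C.s2 v1 ε L M i j (k j) x) =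
      fun x => (-(4 * Real.pi * I) * M ^ 2) * (NT (C.r i) M
        (inc (Fin.castSucc (n := m)) Fin.succ i) k (C.gm v1 ε i x) * om 2 M (C.gm v1 ε i x) *
          C.gm' v1 ε i x) := by
    intro i hT k
    funext x
    unfold g2 s2 gvx NT
    simp only [if_neg hT]
    have : ∀ j, sk M (k j) (.op (C.gm v1 ε i x)) = qc M (k j) (C.gm v1 ε i x) := fun _ => rfl
    simp only [this]
    ring
  refine JS_gen C.r C.Op (C.g2 v1 ε L M) (C.s2 v1 ε L M) (C.s20 M) M (SL M L) ?_ ?_ ?_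
  · intro i hi k _
    by_cases hT : C.Tv L i
    · rw [gT_eq hT]
      exact step_integrable _ _
    · rw [nT i hT k]
      exact (NTom_integrable (C.r i) hM _ k (hctr i hi)).const_mul _
  · intro i hi k hk
    by_cases hT : C.Tv L i
    · rw [gT_eq hT, step_integral]
      obtain ⟨-, j0, hj0, hji⟩ := hT
      have hk0 := SL_low hk hj0
      rw [DG_lat (C.r i) k (fun j _ => SL_ltM hk j) hji (k0_two hk0)]
      symm
      have hsub : Finset.range (k0 M) ⊆ Finset.range M := Finset.range_subset_range.2 (k0_le M)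
      rw [← Finset.sum_subset hsub]
      · refine Finset.sum_congr rfl fun X _ => ?_
        unfold FT
        congr 1
        rw [← Finset.mul_prod_erase _ _ hji, if_pos hj0]
        congr 1
        refine Finset.prod_congr rfl fun j hj => ?_
        rw [if_neg]
        intro hjL
        exact Finset.ne_of_mem_erase hj (hL i hi j hjL j0 hj0 (Finset.mem_of_mem_erase hj) hji)
      · intro X _ hX
        rw [Finset.mem_range, not_lt] at hX
        have : ql M (k j0) X = 0 := by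
          unfold ql
          rw [if_neg (by omega)]
        rw [this, zero_mul, mul_zero]
    · rw [nT i hT k, integral_const_mul]
      exact DG_ctr (C.r i) hM _ k (hctr i hi)
  · intro i hi k hk
    obtain ⟨j, hj⟩ := hinc i hi
    rw [hj, hcl i hi j k (SL_ltM hk), Finset.prod_singleton]
    rfl

/-! ### The accounting -/

open Classical in
/-- The gain of a vertex at an edge with small index. -/
noncomputable def e2 (C : Cfg m) (z : Fin (m + 1) → ℂ) (i : Fin (m + 1)) : ℝ :=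
  if i ∈ C.Op then s1 (z i) else 0

open Classical in
/-- The growth rate of an edge. -/
noncomputable def kL2 (C : Cfg m) (v1 : Fin (m + 1) → ℝ) (lam : Fin m → Fin (m + 1) → ℝ)
    (t : Fin (m + 1) → ℂ) (g : Fin (m + 1) → ℝ) (L : Finset (Fin m)) (j : Fin m)
    (z : Fin (m + 1) → ℂ) : ℝ :=
  if j ∈ L then -(C.e2 z j.castSucc + C.e2 z j.succ)
  else C.Fc j + C.lT2 v1 lam t g (decide (C.Tv L j.castSucc)) j j.castSucc (z j.castSucc) +
    C.lT2 v1 lam t g (decide (C.Tv L j.succ)) j j.succ (z j.succ)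

open Classical in
/-- The share of a vertex in the bound of an edge. -/
noncomputable def Hs2 (C : Cfg m) (v1 : Fin (m + 1) → ℝ) (lam : Fin m → Fin (m + 1) → ℝ)
    (t : Fin (m + 1) → ℂ) (g : Fin (m + 1) → ℝ) (ρ : Fin (m + 1) → ℝ) (L : Finset (Fin m))
    (i : Fin (m + 1)) (j : Fin m) (v : ℂ) : ℝ :=
  if i ∈ C.Op then (if C.Tv L i then C.lv j i (t i) +
    (if j ∈ L then -((g i + s1 v) + ρ i) else g i + s1 v) else C.lw v1 lam j i v) else 0

open Classical in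
theorem kL2_le {δ : ℝ}
    (hδ : ∀ j : Fin m, C.cr2 g ρ j.castSucc + C.cr2 g ρ j.succ + δ ≤
      C.Lt j (t j.castSucc) (t j.succ)) (L : Finset (Fin m)) (j : Fin m)
    (z : Fin (m + 1) → ℂ) : C.kL2 v1 lam t g L j z ≤
      C.Fc j + (C.Hs2 v1 lam t g ρ L j.castSucc j (z j.castSucc) +
        C.Hs2 v1 lam t g ρ L j.succ j (z j.succ)) - (if j ∈ L then δ else 0) := by
  by_cases hj : j ∈ L
  · have key : ∀ i, (i = j.castSucc ∨ i = j.succ) → C.Hs2 v1 lam t g ρ L i j (z i) =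
        C.lv j i (t i) - C.cr2 g ρ i - C.e2 z i := by
      intro i hi
      unfold Hs2 cr2 e2
      by_cases hO : i ∈ C.Op
      · have hT : C.Tv L i := by
          refine ⟨hO, j, hj, ?_⟩
          rcases hi with rfl | rfl
          · exact mem_inc_s _ _ _
          · exact mem_inc_t _ _ _
        rw [if_pos hO, if_pos hT, if_pos hj, if_pos hO, if_pos hO]
        ring
      · rw [if_neg hO, if_neg hO, if_neg hO]
        unfold lv
        rw [if_neg hO]
        ring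
    rw [key _ (Or.inl rfl), key _ (Or.inr rfl)]
    unfold kL2
    rw [if_pos hj, if_pos hj]
    have := hδ j
    unfold Lt at this
    linarith
  · have key : ∀ i, C.lT2 v1 lam t g (decide (C.Tv L i)) j i (z i) =
        C.Hs2 v1 lam t g ρ L i j (z i) := by
      intro i
      unfold Hs2 lT2
      by_cases hO : i ∈ C.Op
      · by_cases hT : C.Tv L i
        · simp only [hT, decide_true, if_true, if_pos hO, if_neg hj]
        · simp only [hT, decide_false, Bool.false_eq_true, if_false, if_pos hO]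
      · have hT : ¬ C.Tv L i := fun h => hO h.1
        simp only [hT, decide_false, Bool.false_eq_true, if_false, if_neg hO]
        unfold lw
        rw [if_neg hO]
    unfold kL2
    rw [if_neg hj, if_neg hj, key, key]
    linarith

open Classical in
/-- The sum of the growth rates at a vertex. -/
theorem Hs2_sum (hC : C.Crit) (hE : C.Edg v1 lam) (H : C.LowH2 v1 lam t g ρ)
    (L : Finset (Fin m)) (z : Fin (m + 1) → ℂ) {i : Fin (m + 1)} (hi : i ∈ C.Op)
    (hz : C.Tv L i → z i ∈ rlow) :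
    (if C.Tv L i then 0 else (wr (C.r i) (z i)).re) +
      ∑ j ∈ inc (Fin.castSucc (n := m)) Fin.succ i, C.Hs2 v1 lam t g ρ L i j (z i) ≤
      (wr (C.r i) (C.vc i)).re := by
  unfold Hs2
  simp only [if_pos hi]
  by_cases h : C.Tv L i
  · simp only [if_pos h]
    rw [Finset.sum_add_distrib, lv_sum hC hi]
    have h0 := s1_rlow (hz h)
    have h1 := low_bal (i := i) (L := L) (add_nonneg (H.hg i hi) h0) (H.hρ i hi) h.2
    have h2 := H.wt i hi
    linarith
  · simp only [if_neg h]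
    rw [lw_sum hC hi (hE.lam1 i hi)]
    linarith

/-- The total growth rate. -/
theorem kL2_sum (hC : C.Crit) (hE : C.Edg v1 lam) (H : C.LowH2 v1 lam t g ρ) {δ : ℝ}
    (hδ0 : 0 ≤ δ) (hδ : ∀ j : Fin m, C.cr2 g ρ j.castSucc + C.cr2 g ρ j.succ + δ ≤
      C.Lt j (t j.castSucc) (t j.succ)) {L : Finset (Fin m)} (hL : L ≠ ∅)
    (z : Fin (m + 1) → ℂ) (hz : ∀ i, C.Tv L i → z i ∈ rlow) (ga : C.Op → ℝ)
    (hga : ∀ i : C.Op, (C.Tv L i → ga i = 0) ∧ (¬ C.Tv L i → ga i = (wr (C.r i) (z i)).re)) :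
    ∑ i, ga i + ∑ j, C.kL2 v1 lam t g L j z ≤ C.e0 - δ := by
  classical
  have h1 := Finset.sum_le_sum (s := (Finset.univ : Finset (Fin m)))
    fun j _ => kL2_le (v1 := v1) (lam := lam) hδ L j z
  rw [Finset.sum_sub_distrib, Finset.sum_add_distrib] at h1
  have h2 := sum_inc (Fin.castSucc (n := m)) Fin.succ (fun j => (Fin.castSucc_lt_succ (i := j)).ne)
    (fun i j => C.Hs2 v1 lam t g ρ L i j (z i))
  rw [← h2] at h1
  have h3 : δ ≤ ∑ j, (if j ∈ L then δ else 0) := by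
    obtain ⟨j, hj⟩ := Finset.nonempty_iff_ne_empty.2 hL
    have := Finset.single_le_sum (f := fun j => if j ∈ L then δ else 0)
      (s := Finset.univ) (fun k _ => by
        show 0 ≤ if k ∈ L then δ else 0
        split_ifs
        · exact hδ0
        · exact le_rfl) (Finset.mem_univ j)
    rw [if_pos hj] at this
    exact this
  have h4 : ∑ i, ∑ j ∈ inc (Fin.castSucc (n := m)) Fin.succ i,
      C.Hs2 v1 lam t g ρ L i j (z i) =
      ∑ i : C.Op, ∑ j ∈ inc (Fin.castSucc (n := m)) Fin.succ (i : Fin (m + 1)),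
        C.Hs2 v1 lam t g ρ L i j (z i) := by
    rw [Finset.sum_coe_sort C.Op (fun i => ∑ j ∈ inc (Fin.castSucc (n := m)) Fin.succ i,
        C.Hs2 v1 lam t g ρ L i j (z i))]
    symm
    apply Finset.sum_subset (Finset.subset_univ _)
    intro i _ hi
    refine Finset.sum_eq_zero fun j _ => ?_
    unfold Hs2
    rw [if_neg hi]
  have h5 : ∀ i : C.Op, ga i + ∑ j ∈ inc (Fin.castSucc (n := m)) Fin.succ (i : Fin (m + 1)),
      C.Hs2 v1 lam t g ρ L i j (z i) ≤ (wr (C.r i) (C.vc i)).re := by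
    intro i
    have h6 := Hs2_sum hC hE H L z i.2 (hz i)
    by_cases hT : C.Tv L i
    · rw [if_pos hT] at h6
      rw [(hga i).1 hT]
      exact h6
    · rw [if_neg hT] at h6
      rw [(hga i).2 hT]
      exact h6
  have h7 := Finset.sum_le_sum (s := (Finset.univ : Finset C.Op)) fun i _ => h5 i
  rw [Finset.sum_add_distrib] at h7
  unfold e0
  rw [h4] at h1
  linarith

/-! ### The bounds of the factors -/

theorem sgx_high {ε : ℝ} {L : Finset (Fin m)} {M : ℕ} {j : Fin m} (hj : j ∉ L) (x : C.Op → ℝ)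
    (i : Fin (m + 1)) (κ : ℕ) : sgx C.Op (C.s2 v1 ε L M) (C.s20 M) x i j κ =
      sk M κ (C.sv i (C.pt2 v1 ε L M x i)) := by
  unfold sgx sv pt2 s2 s20
  by_cases h : i ∈ C.Op
  · rw [dif_pos h, if_pos h, dif_pos h]
    by_cases hT : C.Tv L i
    · rw [if_pos hT, if_neg hj, if_pos hT]
    · rw [if_neg hT, if_neg hT]
  · rw [dif_neg h, if_neg h]

theorem K2_high {ε : ℝ} {L : Finset (Fin m)} {M : ℕ} {j : Fin m} (hj : j ∉ L) (x : C.Op → ℝ) :
    ∑ κ ∈ SL M L j, Cc 2 1 M (yk 2 M κ : ℝ) *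
        (sgx C.Op (C.s2 v1 ε L M) (C.s20 M) x j.castSucc j κ *
          sgx C.Op (C.s2 v1 ε L M) (C.s20 M) x j.succ j κ) =
      KE M (C.sv j.castSucc (C.pt2 v1 ε L M x j.castSucc))
        (C.sv j.succ (C.pt2 v1 ε L M x j.succ)) := by
  unfold KE SL
  rw [if_neg hj]
  refine Finset.sum_congr rfl fun κ _ => ?_
  rw [sgx_high hj, sgx_high hj]

theorem Tv_of {L : Finset (Fin m)} {j : Fin m} (hj : j ∈ L) {i : Fin (m + 1)} (hi : i ∈ C.Op)
    (h : i = j.castSucc ∨ i = j.succ) : C.Tv L i := by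
  refine ⟨hi, j, hj, ?_⟩
  rcases h with rfl | rfl
  · exact mem_inc_s _ _ _
  · exact mem_inc_t _ _ _

/-- The kernels with small index. -/
theorem K2_low (hs : ∀ i ∉ C.Op, C.s i = 1 ∨ C.s i = -1)
    (hcc : ∀ j : Fin m, j.castSucc ∈ C.Op ∨ j.succ ∈ C.Op) :
    ∃ K : ℝ, 0 < K ∧ ∃ p : ℕ, ∀ M : ℕ, 0 < k0 M → ∀ (ε : ℝ) (L : Finset (Fin m)), ∀ j ∈ L,
      ∀ x : C.Op → ℝ, ‖∑ κ ∈ SL M L j, Cc 2 1 M (yk 2 M κ : ℝ) *
        (sgx C.Op (C.s2 v1 ε L M) (C.s20 M) x j.castSucc j κ *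
          sgx C.Op (C.s2 v1 ε L M) (C.s20 M) x j.succ j κ)‖ ≤
      K * (M : ℝ) ^ p * Real.exp (M * -(C.e2 (C.pt2 v1 ε L M x) j.castSucc +
        C.e2 (C.pt2 v1 ε L M x) j.succ)) := by
  obtain ⟨K1, hK1, p1, h1⟩ := low_lat
  obtain ⟨K2, hK2, p2, h2⟩ := low_lat_cl
  refine ⟨K1 + K2, by linarith, p1 + p2 + 1, fun M hM0 ε L j hj x => ?_⟩
  have hM1 : 1 ≤ M := by
    have := k0_le M
    omega
  have hMr : (1 : ℝ) ≤ M := by exact_mod_cast hM1
  have hX : ∀ x : ℝ, Xc M x < M := fun x => (Xc_lt hM0 x).trans_le (k0_le M)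
  have ho : ∀ i, (i = j.castSucc ∨ i = j.succ) → ∀ h : i ∈ C.Op, ∀ κ,
      sgx C.Op (C.s2 v1 ε L M) (C.s20 M) x i j κ = ql M κ (Xc M (x ⟨i, h⟩)) ∧
        C.e2 (C.pt2 v1 ε L M x) i = s1 ((vl 2 M (Xc M (x ⟨i, h⟩)) : ℝ) : ℂ) := by
    intro i hi h κ
    have hT := Tv_of hj h hi
    unfold sgx s2 e2 pt2
    rw [dif_pos h, if_pos hT, if_pos hj, if_pos h, dif_pos h, if_pos hT]
    exact ⟨rfl, rfl⟩
  have hc : ∀ i, i ∉ C.Op → ∀ κ,
      sgx C.Op (C.s2 v1 ε L M) (C.s20 M) x i j κ = sk M κ (.cl (C.s i)) ∧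
        C.e2 (C.pt2 v1 ε L M x) i = 0 := by
    intro i h κ
    unfold sgx s20 e2
    rw [dif_neg h, if_neg h]
    exact ⟨rfl, rfl⟩
  have hS : SL M L j = Finset.range (k0 M) := by unfold SL; rw [if_pos hj]
  rw [hS]
  obtain ⟨B, hB⟩ : ∃ B, B = Real.exp (M * -(C.e2 (C.pt2 v1 ε L M x) j.castSucc +
        C.e2 (C.pt2 v1 ε L M x) j.succ)) := ⟨_, rfl⟩
  have hB0 : 0 < B := by rw [hB]; exact Real.exp_pos _
  have key : ∀ κ ∈ Finset.range (k0 M), ‖Cc 2 1 M (yk 2 M κ : ℝ) *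
        (sgx C.Op (C.s2 v1 ε L M) (C.s20 M) x j.castSucc j κ *
          sgx C.Op (C.s2 v1 ε L M) (C.s20 M) x j.succ j κ)‖ ≤
      (K1 + K2) * (M : ℝ) ^ (p1 + p2) * B := by
    intro κ hκ
    have hκ' := Finset.mem_range.1 hκ
    by_cases c1 : j.castSucc ∈ C.Op
    · obtain ⟨a1, a2⟩ := ho _ (Or.inl rfl) c1 κ
      by_cases c2 : j.succ ∈ C.Op
      · obtain ⟨a3, a4⟩ := ho _ (Or.inr rfl) c2 κ
        rw [a1, a3]
        refine (h1 M hM1 κ hκ' _ (hX _) _ (hX _)).trans ?_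
        rw [hB, a2, a4, mul_neg]
        exact low_pow_le hMr hK1 (by linarith) (by omega)
      · obtain ⟨a3, a4⟩ := hc _ c2 κ
        rw [a1, a3]
        refine (h2 M hM1 κ hκ' _ (hX _) _ (hs _ c2)).trans ?_
        rw [hB, a2, a4, mul_neg, add_zero]
        exact low_pow_le hMr hK2 (by linarith) (by omega)
    · obtain ⟨a1, a2⟩ := hc _ c1 κ
      have c2 : j.succ ∈ C.Op := (hcc j).resolve_left c1
      obtain ⟨a3, a4⟩ := ho _ (Or.inr rfl) c2 κ
      rw [a1, a3, mul_comm (sk M κ (.cl (C.s j.castSucc)))]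
      refine (h2 M hM1 κ hκ' _ (hX _) _ (hs _ c1)).trans ?_
      rw [hB, a2, a4, mul_neg, zero_add]
      exact low_pow_le hMr hK2 (by linarith) (by omega)
  refine (norm_sum_le_of_le _ key).trans ?_
  rw [Finset.sum_const, Finset.card_range, nsmul_eq_mul, ← hB]
  have h8 : ((k0 M : ℕ) : ℝ) ≤ M := by exact_mod_cast k0_le M
  have hp : (0 : ℝ) ≤ (K1 + K2) * (M : ℝ) ^ (p1 + p2) * B := by positivity
  calc ((k0 M : ℕ) : ℝ) * ((K1 + K2) * (M : ℝ) ^ (p1 + p2) * B)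
      ≤ M * ((K1 + K2) * (M : ℝ) ^ (p1 + p2) * B) := mul_le_mul_of_nonneg_right h8 hp
    _ = _ := by ring

open Classical in
/-- The weights. -/
noncomputable def w2 (C : Cfg m) (v1 : Fin (m + 1) → ℝ) (ε : ℝ) (L : Finset (Fin m))
    (i : Fin (m + 1)) (x : ℝ) : ℝ :=
  if C.Tv L i then (1 + x ^ 2)⁻¹ else ‖C.gm' v1 ε i x‖

open Classical in
/-- The growth rates of the vertices. -/
noncomputable def ga2 (C : Cfg m) (v1 : Fin (m + 1) → ℝ) (ε : ℝ) (L : Finset (Fin m))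
    (i : Fin (m + 1)) (x : ℝ) : ℝ :=
  if C.Tv L i then 0 else (wr (C.r i) (C.gm v1 ε i x)).re

theorem gl_norm (r : ℝ) (M X : ℕ) : ‖gl r M X‖ ≤ 4 := by
  have h1 : ‖exp (2 * Real.pi * I * r * M * ((vl 2 M X : ℝ) : ℂ) ^ 2)‖ = 1 := by
    have : (2 * Real.pi * I * r * M * ((vl 2 M X : ℝ) : ℂ) ^ 2 : ℂ) =
        ((2 * Real.pi * r * M * (vl 2 M X) ^ 2 : ℝ) : ℂ) * I := by
      push_cast; ring
    rw [this, norm_exp_ofReal_mul_I]
  have h2 : ‖sin (2 * Real.pi * ((vl 2 M X : ℝ) : ℂ))‖ ≤ 1 := by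
    have : (2 * Real.pi * ((vl 2 M X : ℝ) : ℂ) : ℂ) = ((2 * Real.pi * vl 2 M X : ℝ) : ℂ) := by
      push_cast; ring
    rw [this, ← ofReal_sin, norm_real, Real.norm_eq_abs]
    exact Real.abs_sin_le_one _
  unfold gl
  rw [norm_mul, norm_mul, h1, norm_mul, norm_ofNat]
  linarith

/-- The vertex factors. -/
theorem g2_bound (hC : C.Crit) (hE : C.Edg v1 lam) {ε : ℝ} (hε : 0 < ε)
    (hbl : ∀ i ∈ C.Op, ε ≤ bl (C.θ i) (v1 i)) (L : Finset (Fin m)) :
    ∃ K : ℝ, 0 < K ∧ ∃ p : ℕ, ∀ M : ℕ, 1 ≤ M → ∀ (i : C.Op) (x : ℝ),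
      ‖C.g2 v1 ε L M i x‖ ≤ K * (M : ℝ) ^ p * Real.exp (M * C.ga2 v1 ε L i x) *
        C.w2 v1 ε L i x := by
  have hpi := Real.pi_pos
  have h1 : ∀ i : C.Op, ∃ K : ℝ, 0 < K ∧ ∀ (M : ℕ), 1 ≤ M → ∀ x : ℝ, ‖C.g2 v1 ε L M i x‖ ≤
      K * (M : ℝ) ^ 2 * Real.exp (M * C.ga2 v1 ε L i x) * C.w2 v1 ε L i x := by
    intro i
    by_cases hT : C.Tv L i
    · refine ⟨8, by norm_num, fun M hM x => ?_⟩
      have hMr : (1 : ℝ) ≤ M := by exact_mod_cast hM
      unfold g2 ga2 w2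
      rw [if_pos hT, if_pos hT, if_pos hT, mul_zero, Real.exp_zero, mul_one]
      have h2 : ‖(if 0 ≤ x ∧ x < (k0 M : ℕ) then gl (C.r i) M ⌊x⌋₊ else 0)‖ ≤
          4 * (if 0 ≤ x ∧ x < (M : ℝ) then (1 : ℝ) else 0) := by
        by_cases h : 0 ≤ x ∧ x < (k0 M : ℕ)
        · have h' : 0 ≤ x ∧ x < (M : ℝ) := by
            refine ⟨h.1, h.2.trans_le ?_⟩
            exact_mod_cast k0_le M
          rw [if_pos h, if_pos h']
          linarith [gl_norm (C.r i) M ⌊x⌋₊]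
        · rw [if_neg h, norm_zero]
          split_ifs <;> norm_num
      have h3 := lat_weight M x
      have h4 : (1 : ℝ) ≤ (M : ℝ) ^ 2 := one_le_pow₀ hMr
      have h5 : 0 < (1 + x ^ 2)⁻¹ := by positivity
      nlinarith
    · obtain ⟨K, hK, hb⟩ := gvx_bound (κ := 2 * ε) (B := bl (C.θ i) 0) (by linarith)
      refine ⟨4 * Real.pi * K, by positivity, fun M hM x => ?_⟩
      have hi := i.2
      obtain ⟨a1, a2, a3⟩ := gam_im (hC.th0 i hi) (hC.th1 i hi) (hE.v0 i hi) (hE.vh i hi) hε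
        (hbl i hi) x
      have hx := hb M (C.r i) (C.gm v1 ε i) (C.gm' v1 ε i) x a1.le
        (gam_re (hC.th0 i hi) (hC.th1 i hi) (hE.v0 i hi) (hE.vh i hi) hε x)
        (slope_of_height hε a3 a1.le) a2
      unfold g2 ga2 w2
      rw [if_neg hT, if_neg hT, if_neg hT, norm_mul]
      have e : ‖(-(4 * (Real.pi : ℂ) * I) * (M : ℂ) ^ 2)‖ = 4 * Real.pi * (M : ℝ) ^ 2 := by
        rw [norm_mul, norm_neg, norm_mul, norm_mul, norm_I, norm_pow, norm_natCast, mul_one,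
          norm_real, Real.norm_eq_abs, abs_of_pos Real.pi_pos]
        norm_num
      rw [e]
      have h6 : 0 ≤ 4 * Real.pi * (M : ℝ) ^ 2 := by positivity
      refine (mul_le_mul_of_nonneg_left hx h6).trans (le_of_eq ?_)
      ring
  choose K hK h using h1
  refine ⟨∑ i, K i + 1, by
    have : 0 ≤ ∑ i, K i := Finset.sum_nonneg fun i _ => (hK i).le
    linarith, 2, fun M hM i x => (h i M hM x).trans ?_⟩
  have h2 := Finset.single_le_sum (f := K) (fun i _ => (hK i).le) (Finset.mem_univ i)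
  have h4 : K i ≤ ∑ i, K i + 1 := by linarith
  have h5 : 0 ≤ C.w2 v1 ε L i x := by
    unfold w2
    split_ifs
    · positivity
    · exact norm_nonneg _
  gcongr

/-- The kernels with large indices. -/
theorem K2_bound (hK : KsB) (hK' : KsL) (hC : C.Crit)
    (hs : ∀ i ∉ C.Op, C.s i = 1 ∨ C.s i = -1) (hE : C.Edg v1 lam)
    (H : C.LowH2 v1 lam t g ρ) : ∃ ε : ℝ, 0 < ε ∧ (∀ i ∈ C.Op, ε ≤ bl (C.θ i) (v1 i)) ∧
      ∃ K : ℝ, 0 < K ∧ ∃ p : ℕ, ∀ᶠ M : ℕ in atTop, ∀ (L : Finset (Fin m)), ∀ j ∉ L,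
        ∀ x : C.Op → ℝ, ‖KE M (C.sv j.castSucc (C.pt2 v1 ε L M x j.castSucc))
          (C.sv j.succ (C.pt2 v1 ε L M x j.succ))‖ ≤ K * (M : ℝ) ^ p *
            Real.exp (M * C.kL2 v1 lam t g L j (C.pt2 v1 ε L M x)) := by
  classical
  obtain ⟨η, hη, K1, hK1, p1, h1⟩ := H.bound hK
  obtain ⟨ε0, hε0, hbl0, K2, hK2, p2, h2⟩ := Cfg.K_bd_eps hK hK' hC hs hE
  set ε : ℝ := min ε0 η with hεd
  have hε : 0 < ε := lt_min hε0 hη
  have hbl : ∀ i ∈ C.Op, ε ≤ bl (C.θ i) (v1 i) := fun i hi => (min_le_left _ _).trans (hbl0 i hi)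
  refine ⟨ε, hε, hbl, K1 + K2, by linarith, p1 + p2, ?_⟩
  filter_upwards [h2, eventually_ge_atTop 3] with M hM2 hM3 L j hj x
  have hM1 : 1 ≤ M := by omega
  have hk0 : 0 < k0 M := by unfold k0; omega
  have hMr : (1 : ℝ) ≤ M := by exact_mod_cast hM1
  -- the points
  have P1 : ∀ i, i ∈ C.Op → |(C.pt2 v1 ε L M x i).re| ≤ 1 / 2 ∧
      0 ≤ (C.pt2 v1 ε L M x i).im := by
    intro i hi
    unfold pt2
    rw [dif_pos hi]
    by_cases hT : C.Tv L i
    · rw [if_pos hT]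
      have h := vT_mem hk0 (x ⟨i, hi⟩)
      exact ⟨rlow_abs h, h.1.ge⟩
    · rw [if_neg hT]
      exact ⟨gam_re (hC.th0 i hi) (hC.th1 i hi) (hE.v0 i hi) (hE.vh i hi) hε _,
        (gam_im (hC.th0 i hi) (hC.th1 i hi) (hE.v0 i hi) (hE.vh i hi) hε (hbl i hi) _).1.le⟩
  have P2 : ∀ i, ∃ v0 ∈ C.sT2 v1 (decide (C.Tv L i)) i,
      ‖C.pt2 v1 ε L M x i - v0‖ ≤ η := by
    intro i
    by_cases hi : i ∈ C.Op
    · by_cases hT : C.Tv L i
      · refine ⟨vT M (x ⟨i, hi⟩), ?_, ?_⟩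
        · unfold sT2
          simp only [hT, decide_true, if_true]
          exact vT_mem hk0 _
        · unfold pt2
          rw [dif_pos hi, if_pos hT, sub_self, norm_zero]
          exact hη.le
      · obtain ⟨v, hv, hd⟩ := gam_near (hC.th0 i hi) (hC.th1 i hi) (hE.v0 i hi) (hE.vh i hi) hε
          (hbl i hi) (x ⟨i, hi⟩)
        refine ⟨v, ?_, ?_⟩
        · unfold sT2
          simp only [hT, decide_false, Bool.false_eq_true, if_false]
          exact ⟨fun _ => hv, fun h => absurd hi h⟩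
        · unfold pt2
          rw [dif_pos hi, if_neg hT]
          exact hd.trans (min_le_right _ _)
    · have hT : ¬ C.Tv L i := fun h => hi h.1
      refine ⟨0, ?_, ?_⟩
      · unfold sT2
        simp only [hT, decide_false, Bool.false_eq_true, if_false]
        exact ⟨fun h => absurd h hi, fun _ => rfl⟩
      · unfold pt2
        rw [dif_neg hi, sub_zero, norm_zero]
        exact hη.le
  have o1 := sv_ok hs (i := j.castSucc) (v := C.pt2 v1 ε L M x j.castSucc)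
    fun h => (P1 _ h).1
  have o2 := sv_ok hs (i := j.succ) (v := C.pt2 v1 ε L M x j.succ)
    fun h => (P1 _ h).1
  have n1 := sv_nn (C := C) (i := j.castSucc) (v := C.pt2 v1 ε L M x j.castSucc)
    fun h => (P1 _ h).2
  have n2 := sv_nn (C := C) (i := j.succ) (v := C.pt2 v1 ε L M x j.succ)
    fun h => (P1 _ h).2
  have e2 : C.kL2 v1 lam t g L j (C.pt2 v1 ε L M x) =
      C.Fc j + C.lT2 v1 lam t g (decide (C.Tv L j.castSucc)) j j.castSucc
        (C.pt2 v1 ε L M x j.castSucc) +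
      C.lT2 v1 lam t g (decide (C.Tv L j.succ)) j j.succ
        (C.pt2 v1 ε L M x j.succ) := by
    unfold kL2; rw [if_neg hj]
  by_cases hc : C.Tv L j.castSucc ∨ C.Tv L j.succ
  · rw [e2]
    refine (h1 (j, decide (C.Tv L j.castSucc), decide (C.Tv L j.succ)) ?_ ?_ ?_ M hM1 _ _
      (P2 _) (P2 _) o1 o2 n1 n2).trans (low_pow_le hMr hK1 (by linarith) (by omega))
    · intro h
      exact (of_decide_eq_true h).1
    · intro h
      exact (of_decide_eq_true h).1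
    · rcases hc with h | h
      · exact Or.inl (decide_eq_true h)
      · exact Or.inr (decide_eq_true h)
  · rw [not_or] at hc
    have key : ∀ i, ¬ C.Tv L i → C.pt2 v1 ε L M x i = C.ptx (C.gm v1 ε) x i := by
      intro i hi
      unfold pt2 ptx
      by_cases h : i ∈ C.Op
      · rw [dif_pos h, dif_pos h, if_neg hi]
      · rw [dif_neg h, dif_neg h]
    have e4 : C.kL2 v1 lam t g L j (C.pt2 v1 ε L M x) = C.ka v1 lam ε j x := by
      have key2 : ∀ i, ¬ C.Tv L i → C.lT2 v1 lam t g (decide (C.Tv L i)) j i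
          (C.pt2 v1 ε L M x i) =
          (if h : i ∈ C.Op then C.lw v1 lam j i (C.gm v1 ε i (x ⟨i, h⟩)) else 0) := by
        intro i hi
        unfold lT2
        simp only [hi, decide_false, Bool.false_eq_true, if_false]
        rw [key i hi]
        unfold ptx
        by_cases h : i ∈ C.Op
        · rw [dif_pos h, dif_pos h]
        · rw [dif_neg h, dif_neg h]
          unfold lw
          rw [if_neg h]
      rw [e2, key2 _ hc.1, key2 _ hc.2]
      rfl
    have e3 : KE M (C.sv j.castSucc (C.pt2 v1 ε L M x j.castSucc))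
        (C.sv j.succ (C.pt2 v1 ε L M x j.succ)) = C.kk v1 ε M j x := by
      unfold kk
      rw [slx_eq, slx_eq, key _ hc.1, key _ hc.2]
    rw [e3, e4]
    exact (hM2 j ε x hε (min_le_left _ _)).trans
      (low_pow_le hMr hK2 (by linarith) (by omega))

/-- **The small indices are negligible, with lattice sums.** -/
theorem low_main2 (hK : KsB) (hK' : KsL) (hC : C.Crit)
    (hs : ∀ i ∉ C.Op, C.s i = 1 ∨ C.s i = -1)
    (hinc : ∀ i ∉ C.Op, ∃ j, inc (Fin.castSucc (n := m)) Fin.succ i = {j})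
    (hcc : ∀ j : Fin m, j.castSucc ∈ C.Op ∨ j.succ ∈ C.Op)
    (hcl : ∀ᶠ M : ℕ in atTop, ∀ i ∉ C.Op, ∀ (j : Fin m) (k : Fin m → ℕ), (∀ j, k j < M) →
      DG (C.r i) M {j} k = sk M (k j) (.cl (C.s i)))
    (hE : C.Edg v1 lam) (H : C.LowH2 v1 lam t g ρ) :
    ∃ δ : ℝ, 0 < δ ∧ ∃ K : ℝ, 0 < K ∧ ∃ p : ℕ, ∀ᶠ M : ℕ in atTop,
      ‖JG (Fin.castSucc (n := m)) Fin.succ C.r M - J0 C.r M‖ ≤
        K * (M : ℝ) ^ p * Real.exp (M * (C.e0 - δ)) := by
  classical
  obtain ⟨δ, hδ0, -, -, -, hδ⟩ := low_choose (J := Fin m) (P := fun j η _ _ =>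
      C.cr2 g ρ j.castSucc + C.cr2 g ρ j.succ + η ≤ C.Lt j (t j.castSucc) (t j.succ))
    (fun j η η' _ _ _ _ h _ hη _ _ => by linarith)
    (fun j => ⟨C.Lt j (t j.castSucc) (t j.succ) - C.cr2 g ρ j.castSucc - C.cr2 g ρ j.succ,
      by linarith [H.bad j], 1, one_pos, 0, by linarith⟩)
  obtain ⟨ε, hε, hbl, Kk, hKk, pk, hk⟩ := K2_bound hK hK' hC hs hE H
  obtain ⟨Kl, hKl, pl, hl⟩ := K2_low (C := C) (v1 := v1) hs hcc
  refine ⟨δ, hδ0, ?_⟩
  have key : ∀ L ∈ (Finset.univ : Finset (Finset (Fin m))).erase ∅, ∃ K : ℝ, 0 < K ∧ ∃ p : ℕ,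
      ∀ᶠ M : ℕ in atTop, ‖JS C.r M (SL M L)‖ ≤ K * (M : ℝ) ^ p *
        Real.exp (M * (C.e0 - δ)) := by
    intro L hL
    have hL' : L ≠ ∅ := Finset.ne_of_mem_erase hL
    by_cases hMat : C.Mat L
    · obtain ⟨Kg, hKg, pg, hg⟩ := g2_bound hC hE hε hbl L
      obtain ⟨K, hK0, p, hb⟩ := low_abs' (ι := C.Op) (ε := Fin m)
        (g := fun M i x => C.g2 v1 ε L M i x)
        (K := fun M j x => ∑ κ ∈ SL M L j, Cc 2 1 M (yk 2 M κ : ℝ) *
          (sgx C.Op (C.s2 v1 ε L M) (C.s20 M) x j.castSucc j κ *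
            sgx C.Op (C.s2 v1 ε L M) (C.s20 M) x j.succ j κ))
        (ga := fun _ i x => C.ga2 v1 ε L i x)
        (ka := fun M j x => C.kL2 v1 lam t g L j (C.pt2 v1 ε L M x))
        (w := fun i x => C.w2 v1 ε L i x) (e := C.e0 - δ)
        (fun i => by
          unfold w2
          by_cases hT : C.Tv L i
          · simp only [if_pos hT]
            exact integrable_inv_one_add_sq
          · simp only [if_neg hT]
            exact (gam_ctr (hC.th0 i i.2) (hC.th1 i i.2) (hE.v0 i i.2) (hE.vh i i.2)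
              hε).int.norm)
        (fun i x => by
          unfold w2
          split_ifs
          · positivity
          · exact norm_nonneg _)
        ⟨Kg, hKg, pg, by
          filter_upwards [eventually_ge_atTop 1] with M hM i x
          exact hg M hM i x⟩
        ⟨Kk + Kl, by linarith, pk + pl, by
          filter_upwards [hk, eventually_ge_atTop 3] with M hMk hM3 j x
          have hM1 : 1 ≤ M := by omega
          have hk0 : 0 < k0 M := by unfold k0; omega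
          have hMr : (1 : ℝ) ≤ M := by exact_mod_cast hM1
          by_cases hj : j ∈ L
          · have e1 : C.kL2 v1 lam t g L j (C.pt2 v1 ε L M x) =
                -(C.e2 (C.pt2 v1 ε L M x) j.castSucc + C.e2 (C.pt2 v1 ε L M x) j.succ) := by
              unfold kL2; rw [if_pos hj]
            rw [e1]
            exact (hl M hk0 ε L j hj x).trans (low_pow_le hMr hKl (by linarith) (by omega))
          · rw [K2_high hj]
            exact (hMk L j hj x).trans (low_pow_le hMr hKk (by linarith) (by omega))⟩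
        (by
          filter_upwards [eventually_ge_atTop 3] with M hM3 x
          have hk0 : 0 < k0 M := by unfold k0; omega
          refine kL2_sum hC hE H hδ0.le hδ hL' (C.pt2 v1 ε L M x) ?_
            (fun i => C.ga2 v1 ε L i (x i)) ?_
          · intro i hT
            unfold pt2
            rw [dif_pos hT.1, if_pos hT]
            exact vT_mem hk0 _
          · intro i
            constructor
            · intro hT
              unfold ga2
              rw [if_pos hT]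
            · intro hT
              unfold ga2 pt2
              rw [if_neg hT, dif_pos i.2, if_neg hT])
      refine ⟨K, hK0, p, ?_⟩
      filter_upwards [hb, hcl, eventually_gt_atTop 0] with M hM hcM hM0
      rw [JS_eq2 hC hE hinc hε hMat hM0 hcM]
      exact hM
    · refine ⟨1, one_pos, 0, Eventually.of_forall fun M => ?_⟩
      rw [JS_notMat hMat, norm_zero]
      positivity
  obtain ⟨K, hK0, p, h⟩ := low_sum _ key
  refine ⟨K, hK0, p, ?_⟩
  filter_upwards [h] with M hM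
  rw [JG_sub_J0]
  exact hM

end Cfg

end Pool.Agent.S3
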