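import Pool.Agent.S3.LF2
import Pool.Agent.S3.LX2
import Pool.Agent.S3.Low5
import Pool.Agent.S3.W2.Main2
import Pool.Agent.S3.W2.Vert2

/-!
# The small indices with lattice sums: the open-open edges
-/

set_option autoImplicit false

namespace Pool.Agent.S3

open Complex
open Pool.Agent.H25.RK (gdv gdv_re_lt gdv_hasDerivAt)

/-- Moving a real point away from the origin. -/
theorem EdgeOK.real2 {τ : Sl} {L x0 x : ℝ} (h0 : |x0| ≤ |x|) (hx : |x| ≤ 1 / 2)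
    (H : EdgeOK (.op (x0 : ℂ)) τ L)
    (hE : ∀ y ∈ Set.Icc (-(1 / 10) : ℝ) 0, EE (.op (x : ℂ)) τ y < L) :
    EdgeOK (.op (x : ℂ)) τ L := by
  obtain ⟨h1, h2, n, t, h, h3, h4⟩ := H
  refine ⟨?_, hE, n, t, h, h3, h4.imp h3 ?_⟩
  · simpa [B0] using h1
  · intro y y0 y1 hy
    refine lt_of_le_of_lt ?_ hy
    have k := se_real_anti (a := |x0|) (b := |x|) (abs_nonneg _) h0 hx y0 y1
    have e1 := se_real_even y x
    have e2 := se_real_even y x0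
    unfold EE
    rw [e1, e2]
    linarith

namespace T2

section

variable {Φ : ℂ → ℂ → ℂ} {θ θ' v1 v1' g g' : ℝ} {v w : ℂ}

theorem Pr.edge (hp : Pr θ θ' v w) {L : ℝ} (hF : FlB v w L)
    (hB : Real.pi * (v.im + w.im) < L)
    (hE : ∀ y ∈ Set.Icc (-(1 / 10) : ℝ) 0, EE (.op v) (.op w) y < L) :
    EdgeOK (.op v) (.op (mir w)) L := by
  obtain ⟨H, h1, h2, h3⟩ := hF
  have k := hp.polyh h2 hB h3
  refine ⟨?_, ?_, 1, _, _, pgn_one' h1, ?_⟩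
  · have : B0 (.op v) + B0 (.op (mir w)) = Real.pi * (v.im + w.im) := by
      rw [B0_mir, B0, B0]; ring
    rw [this]
    exact hB
  · intro y hy
    have : EE (.op v) (.op (mir w)) y = EE (.op v) (.op w) y := by
      rw [EE, EE, se_mir_real]
    rw [this]
    exact hE y hy
  · have mono : ∀ y, (EE (.op v) (.op ((starRingEnd ℂ) w)) y < L ∧ 0 ≤ y.re ∧ y.re ≤ 1 / 2) →
        EE (.op v) (.op (mir w)) y < L := by
      rintro y ⟨h1, -, -⟩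
      rwa [EE_conj_mir] at h1
    obtain ⟨g1, g2, g3, g4⟩ := k
    exact ⟨fun i hi x hx => mono _ (g1 i hi x hx), fun Y hY => mono _ (g2 Y hY),
      fun i hi Y hY => mono _ (g3 i hi Y hY), fun Y hY => mono _ (g4 Y hY)⟩

/-- The estimates for a lattice vertex of height `θ` against the contour of height `θ'`. -/
structure LatV (Φ : ℂ → ℂ → ℂ) (θ θ' v1' g : ℝ) : Prop where
  g0 : 0 ≤ g
  base : ∀ (x : ℝ) (w : ℂ), 1 / 10 ≤ |x| → |x| ≤ 1 / 2 → Und θ' w → w.re ≤ v1' →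
    ∃ (x0 : ℝ) (w' : ℂ), 0 < x0 ∧ x0 ≤ 3 / 10 ∧ x0 ≤ |x| ∧ w'.im = w.im ∧ 0 ≤ w'.re ∧
      w'.re ≤ w.re ∧ (w'.re ≤ 19 / 50 ∨ 1 / 4 ≤ x0) ∧
      FlatUV (1 / cos (Real.pi * (x0 : ℂ)) ^ 2)
        (1 / cos (Real.pi * (starRingEnd ℂ) w') ^ 2) ∧
      (Φ (x0 : ℂ) ((starRingEnd ℂ) w')).re <
        (Φ (tp θ) ((starRingEnd ℂ) w)).re + (g + s1 (x : ℂ))
  d : ∀ x : ℝ, 1 / 10 ≤ |x| → |x| ≤ 1 / 2 → ∃ x0 : ℝ, 0 ≤ x0 ∧ x0 ≤ 1 / 4 ∧ x0 ≤ |x| ∧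
    (Φ (x0 : ℂ) ((starRingEnd ℂ) (tp θ'))).re <
      (Φ (tp θ) ((starRingEnd ℂ) (tp θ'))).re + (g + s1 (x : ℂ))
  e1 : ∀ w : ℂ, Und θ' w → w.re ≤ v1' →
    Real.pi * w.im < (Φ (tp θ) ((starRingEnd ℂ) w)).re + g
  e2 : ∀ (w : ℂ) (y : ℝ), Und θ' w → w.re ≤ v1' → -(1 / 10) ≤ y → y ≤ 0 →
    se (y : ℂ) (.op w) < (Φ (tp θ) ((starRingEnd ℂ) w)).re + g

/-- The flat of a real point. -/
theorem LatV.flb (K : LatV Φ θ θ' v1' g) (hΦ : IsPhi Φ) (h0 : Φ 0 0 = c00) (hθ' : Ht θ') {x : ℝ}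
    (hx : 1 / 10 ≤ |x|) (hx' : |x| ≤ 1 / 2) (hw : Und θ' w) (hr : w.re ≤ v1') :
    ∃ x0 : ℝ, 0 ≤ x0 ∧ x0 ≤ 3 / 10 ∧ x0 ≤ |x| ∧
      FlB (x0 : ℂ) w ((Φ (tp θ) ((starRingEnd ℂ) w)).re + (g + s1 (x : ℂ))) := by
  obtain ⟨x0, w', a1, a2, a3, a4, a5, a6, a7, a8, a9⟩ := K.base x w hx hx' hw hr
  exact ⟨x0, a1.le, a2, a3, flB_real hΦ h0 hθ' hw a1 a2 a4 a5 a6 a7 a8 a9⟩

/-- The lattice vertex against a point of the first quadrant. -/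
theorem LatV.rg (K : LatV Φ θ θ' v1' g) (hΦ : IsPhi Φ) (h0 : Φ 0 0 = c00) (hθ : Ht θ)
    (hθ' : Ht θ') (hS : θ + θ' < Real.pi / 2) (hv1' : V1 v1') (hw : w ∈ G0 θ' v1') (hw0 : 0 ≤ w.re) {x L : ℝ} (hx : 1 / 10 ≤ |x|)
    (hx' : |x| ≤ 1 / 2)
    (hL : (Φ (tp θ) ((starRingEnd ℂ) (cmp v1' w))).re + (g + s1 (x : ℂ)) ≤ L) :
    EdgeOK (.op (x : ℂ)) (.op (mir w)) L ∧ EdgeOK (.op (x : ℂ)) (.op w) L := by
  have s0 := s1_nonneg hx'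
  have hu := cmp_und hv1' hw hw0 hθ'
  have hr := cmp_re (v1 := v1') w
  obtain ⟨x0, a1, a2, a3, hF⟩ := K.flb hΦ h0 hθ' hx hx' hu hr
  have hp : Pr θ θ' (x0 : ℂ) (cmp v1' w) := ⟨Und_real hθ a1 (by linarith), hu, hθ, hθ', hS⟩
  have k1 := K.e1 _ hu hr
  have hB : Real.pi * ((x0 : ℂ).im + (cmp v1' w).im) < L := by
    rw [ofReal_im, zero_add]; linarith
  have hL0 : 0 < L := by
    have : 0 ≤ Real.pi * (cmp v1' w).im := mul_nonneg Real.pi_pos.le hu.im0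
    linarith
  have him := cmp_im hw hw0
  -- real points
  have hr0 : ∀ x : ℝ, |x| ≤ 1 / 2 → ∀ y ∈ Set.Icc (-(1 / 10) : ℝ) 0,
      se (y : ℂ) (.op (x : ℂ)) ≤ 0 := fun x hx y hy =>
    low_E1a hx (by linarith [hy.1]) hy.2
  have hW : ∀ y ∈ Set.Icc (-(1 / 10) : ℝ) 0, se (y : ℂ) (.op (cmp v1' w)) < L := fun y hy =>
    (K.e2 _ y hu hr hy.1 hy.2).trans_le (by linarith)
  have hx0 : |x0| ≤ 1 / 2 := by rw [abs_of_nonneg a1]; linarith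
  have b1 : EdgeOK (.op (x0 : ℂ)) (.op (mir (cmp v1' w))) L := by
    refine hp.edge (hF.mono hL) hB fun y hy => ?_
    have h1 := hr0 x0 hx0 y hy
    have h2 := hW y hy
    unfold EE
    linarith
  -- from `cmp w` to `w`
  have b2 : EdgeOK (.op (x0 : ℂ)) (.op (mir w)) L ∧
      ∀ y ∈ Set.Icc (-(1 / 10) : ℝ) 0, se (y : ℂ) (.op w) < L := by
    by_cases hc : w.re ≤ v1'
    · have e : cmp v1' w = w := by unfold cmp; rw [if_pos hc]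
      rw [e] at b1 hW
      exact ⟨b1, hW⟩
    · have e : cmp v1' w = (v1' : ℂ) := by unfold cmp; rw [if_neg hc]
      have hi : w.im = 0 := by rw [← him, e, ofReal_im]
      have hw1 : |w.re| ≤ 1 / 2 := by
        rw [abs_of_nonneg hw0]
        rcases hw with ⟨a, b⟩ | ⟨a, b, c⟩ | ⟨a, b, c⟩
        · rw [abs_of_nonneg hw0] at a; linarith [hv1'.le]
        · rw [abs_of_nonneg hw0] at a; linarith [hv1'.le]
        · rwa [abs_of_nonneg hw0] at b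
      have e3 : w = ((w.re : ℝ) : ℂ) := by
        apply Complex.ext
        · simp
        · simpa using hi
      have hwr : ∀ y ∈ Set.Icc (-(1 / 10) : ℝ) 0, se (y : ℂ) (.op w) < L := by
        intro y hy
        rw [e3]
        exact (hr0 _ hw1 y hy).trans_lt hL0
      refine ⟨?_, hwr⟩
      rw [e, mir_ofReal] at b1
      have e4 : mir w = ((-w.re : ℝ) : ℂ) := by
        conv_lhs => rw [e3]
        rw [mir_ofReal]
      rw [e4]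
      refine (EdgeOK.real2 (x := -w.re) ?_ (by rwa [abs_neg]) b1.symm fun y hy => ?_).symm
      · rw [abs_neg, abs_neg, abs_of_pos hv1'.pos, abs_of_nonneg hw0]
        exact (not_le.1 hc).le
      · have h1 := hr0 (-w.re) (by rwa [abs_neg]) y hy
        have h2 := hr0 x0 hx0 y hy
        unfold EE
        linarith
  obtain ⟨b2, b3⟩ := b2
  have c1 : ∀ y ∈ Set.Icc (-(1 / 10) : ℝ) 0, EE (.op (x : ℂ)) (.op w) y < L := by
    intro y hy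
    have h1 := hr0 x hx' y hy
    have h2 := b3 y hy
    unfold EE
    linarith
  have c2 : ∀ y ∈ Set.Icc (-(1 / 10) : ℝ) 0, EE (.op (x : ℂ)) (.op (mir w)) y < L := by
    intro y hy
    have h1 := c1 y hy
    unfold EE at h1 ⊢
    rwa [se_mir_real]
  refine ⟨EdgeOK.real2 (by rw [abs_of_nonneg a1]; exact a3) hx' b2 c2, ?_⟩
  have b4 := b2.mir_both
  rw [mir_mir, mir_ofReal] at b4
  exact EdgeOK.real2 (by rw [abs_neg, abs_of_nonneg a1]; exact a3) hx' b4 c1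

theorem LatV.rg_ab (K : LatV Φ θ θ' v1' g) (hΦ : IsPhi Φ) (h0 : Φ 0 0 = c00) (hθ : Ht θ)
    (hθ' : Ht θ') (hS : θ + θ' < Real.pi / 2) (hv1' : V1 v1') (hw : w ∈ G0 θ' v1') {x L : ℝ}
    (hx : 1 / 10 ≤ |x|) (hx' : |x| ≤ 1 / 2)
    (hL : (Φ (tp θ) ((starRingEnd ℂ) (cmp v1' (ab (mir w))))).re + (g + s1 (x : ℂ)) ≤ L) :
    EdgeOK (.op (x : ℂ)) (.op w) L := by
  have h1 := K.rg hΦ h0 hθ hθ' hS hv1' (ab_mem (mir_mem hw)) (ab_re _) hx hx' hL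
  unfold ab at h1
  split_ifs at h1
  · rw [mir_mir] at h1; exact h1.1
  · have h2 := h1.2
    rw [mir_mir] at h2
    exact h2

/-- Two lattice vertices. -/
theorem LatV.rr (hΦ : IsPhi Φ) (h0 : Φ 0 0 = c00) (K : LatV Φ θ θ' v1' g)
    (K' : LatV (fun v w => Φ w v) θ' θ v1 g')
    (hθ : Ht θ) (hθ' : Ht θ') (hS : θ + θ' < Real.pi / 2) (h1' : 1 / 4 ≤ v1') {x x' L : ℝ}
    (hx : 1 / 10 ≤ |x|) (hx' : |x| ≤ 1 / 2)
    (hy : 1 / 10 ≤ |x'|) (hy' : |x'| ≤ 1 / 2)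
    (hL : (Φ (tp θ) ((starRingEnd ℂ) (tp θ'))).re + (g + s1 (x : ℂ)) + (g' + s1 (x' : ℂ)) ≤ L) :
    EdgeOK (.op (x : ℂ)) (.op (x' : ℂ)) L := by
  have s0 := s1_nonneg hx'
  have s0' := s1_nonneg hy'
  obtain ⟨z0, b1, b2, b3, hD⟩ := K'.d x' hy hy'
  have uz : Und θ' (z0 : ℂ) := Und_real hθ' b1 (by linarith)
  have ut := Und_tp hθ
  have ut' := Und_tp hθ'
  have rt' : (tp θ').re ≤ v1' := by rw [tp_re]; exact h1'
  obtain ⟨x0, a1, a2, a3, hF⟩ := K.flb hΦ h0 hθ' hx hx' uz (by rw [ofReal_re]; linarith)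
  have p1 : Pr θ θ' (tp θ) (z0 : ℂ) := ⟨ut, uz, hθ, hθ', hS⟩
  have p2 : Pr θ θ' (tp θ) (tp θ') := ⟨ut, ut', hθ, hθ', hS⟩
  have hD' : (Φ (tp θ) ((starRingEnd ℂ) (z0 : ℂ))).re <
      (Φ (tp θ) ((starRingEnd ℂ) (tp θ'))).re + (g' + s1 (x' : ℂ)) := by
    rw [← Phi_conj hΦ p1, ← Phi_conj hΦ p2]
    exact hD
  have k1 := K.e1 _ ut' rt'
  have hL0 : 0 < L := by
    have : 0 ≤ Real.pi * (tp θ').im := mul_nonneg Real.pi_pos.le ut'.im0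
    have := K'.g0
    linarith
  have hp : Pr θ θ' (x0 : ℂ) (z0 : ℂ) :=
    ⟨Und_real hθ a1 (by linarith), uz, hθ, hθ', hS⟩
  have hE : ∀ x x' : ℝ, |x| ≤ 1 / 2 → |x'| ≤ 1 / 2 → ∀ y ∈ Set.Icc (-(1 / 10) : ℝ) 0,
      EE (.op (x : ℂ)) (.op (x' : ℂ)) y < L := by
    intro x x' hx hx' y hy
    have h1 := low_E1a hx (y := y) (by linarith [hy.1]) hy.2
    have h2 := low_E1a hx' (y := y) (by linarith [hy.1]) hy.2
    unfold EE
    linarith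
  have hx0 : |x0| ≤ 1 / 2 := by rw [abs_of_nonneg a1]; linarith
  have hz0 : |z0| ≤ 1 / 2 := by rw [abs_of_nonneg b1]; linarith
  have c1 := hp.edge (hF.mono (by linarith)) (by simpa using hL0) (hE x0 z0 hx0 hz0)
  rw [mir_ofReal] at c1
  have c2 := EdgeOK.real2 (x := x) (by rw [abs_of_nonneg a1]; exact a3) hx' c1
    (hE x (-z0) hx' (by rwa [abs_neg]))
  exact (EdgeOK.real2 (x := x') (by rw [abs_neg, abs_of_nonneg b1]; exact b3) hy' c2.symm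
    (hE x' x hy' hx')).symm

/-! ### The bound at the test points -/

variable {xc xc' b b' μ μ' a a' : ℝ}

/-- The value at the critical point is less than the bound. -/
def PhiL (Φ : ℂ → ℂ → ℂ) (θ θ' xc xc' b b' v1 v1' μ μ' : ℝ) : Prop := ∀ v w : ℂ,
  v ∈ G0 θ v1 → 0 ≤ v.re → w ∈ G0 θ' v1' → 0 ≤ w.re →
    (v ≠ gdv (UU xc θ) ∨ w ≠ gdv (UU xc' θ')) →
    (Φ (cmp v1 v) ((starRingEnd ℂ) (cmp v1' w))).re < LM Φ θ θ' b b' xc xc' v1 v1' μ μ' v w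

theorem OO.Phi_le (H : OO Φ θ θ' xc xc' b b' v1 v1')
    (hP : PhiL Φ θ θ' xc xc' b b' v1 v1' μ μ') (hv : v ∈ G0 θ v1) (hv0 : 0 ≤ v.re)
    (hw : w ∈ G0 θ' v1') (hw0 : 0 ≤ w.re) :
    (Φ (cmp v1 v) ((starRingEnd ℂ) (cmp v1' w))).re ≤
      LM Φ θ θ' b b' xc xc' v1 v1' μ μ' v w := by
  by_cases hne : v ≠ gdv (UU xc θ) ∨ w ≠ gdv (UU xc' θ')
  · exact (hP v w hv hv0 hw hw0 hne).le
  · rw [not_or, not_not, not_not] at hne
    obtain ⟨h1, h2⟩ := hne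
    have hp := H.prc
    have q1 := pl_of_line (θ := θ) (v1 := v1) (v := gdv (UU xc θ))
      (by rw [abs_of_nonneg hp.hv.re0]; exact H.hr.le) (line_im_bl (x := xc) H.hθ.abs)
    have q2 := pl_of_line (θ := θ') (v1 := v1') (v := gdv (UU xc' θ'))
      (by rw [abs_of_nonneg hp.hw.re0]; exact H.hr'.le) (line_im_bl (x := xc') H.hθ'.abs)
    have c1 : cmp v1 (gdv (UU xc θ)) = gdv (UU xc θ) := by
      unfold cmp; rw [if_pos H.hr.le]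
    have c2 : cmp v1' (gdv (UU xc' θ')) = gdv (UU xc' θ') := by
      unfold cmp; rw [if_pos H.hr'.le]
    rw [h1, h2, LM, q1, q2, c1, c2, L0, ell_self, ell_self, sub_self, sub_self]
    linarith

/-- The bound at the first test point. -/
theorem OO.LL1_ge (H : OO Φ θ θ' xc xc' b b' v1 v1')
    (hP : PhiL Φ θ θ' xc xc' b b' v1 v1' (mu b a v1) (mu b' a' v1')) (ha : 0 < a)
    (ha' : 0 < a') (h1 : 1 / 4 ≤ v1) (hw : w ∈ G0 θ' v1') :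
    (Φ (tp θ) ((starRingEnd ℂ) (cmp v1' (ab (mir w))))).re ≤
      LL1 θ θ' b b' xc xc' a a' v1 v1' (tp θ) w := by
  have k2 := H.Phi_le hP (tp_mem h1) (by rw [tp_re]; norm_num) (ab_mem (mir_mem hw)) (ab_re _)
  have k3 := H.LM_le ha ha' (tp_mem h1) hw
  rw [ab_tp] at k3
  rw [cmp_tp h1] at k2
  linarith

/-- The bound at both test points. -/
theorem OO.LL1_ge' (H : OO Φ θ θ' xc xc' b b' v1 v1')
    (hP : PhiL Φ θ θ' xc xc' b b' v1 v1' (mu b a v1) (mu b' a' v1')) (ha : 0 < a)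
    (ha' : 0 < a') (h1 : 1 / 4 ≤ v1) (h1' : 1 / 4 ≤ v1') :
    (Φ (tp θ) ((starRingEnd ℂ) (tp θ'))).re ≤
      LL1 θ θ' b b' xc xc' a a' v1 v1' (tp θ) (mir (tp θ')) := by
  have k := H.LL1_ge hP ha ha' h1 (mir_mem (tp_mem (θ := θ') h1'))
  rwa [mir_mir, ab_tp, cmp_tp h1'] at k

theorem OO.swap (H : OO Φ θ θ' xc xc' b b' v1 v1') :
    OO (fun v w => Φ w v) θ' θ xc' xc b' b v1' v1 where
  hΦ := H.hΦ.swap
  h0 := H.h0
  ho := H.ho.symm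
  hs := H.hs.symm
  hc := H.hc'
  hc' := H.hc
  hθ := H.hθ'
  hθ' := H.hθ
  hv1 := H.hv1'
  hv1' := H.hv1
  hr := H.hr'
  hr' := H.hr
  nl := H.nl'
  nl' := H.nl

theorem OO.L0_swap (H : OO Φ θ θ' xc xc' b b' v1 v1') (v w : ℂ) :
    L0 (fun v w => Φ w v) θ' θ b' b xc' xc w v = L0 Φ θ θ' b b' xc xc' v w := by
  unfold L0
  have := Phi_conj H.hΦ H.prc
  simp only
  rw [this]
  ring

theorem OO.LM_swap (H : OO Φ θ θ' xc xc' b b' v1 v1') (v w : ℂ) :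
    LM (fun v w => Φ w v) θ' θ b' b xc' xc v1' v1 μ' μ w v =
      LM Φ θ θ' b b' xc xc' v1 v1' μ μ' v w := by
  unfold LM
  rw [H.L0_swap]
  ring

theorem OO.PhiL_swap (H : OO Φ θ θ' xc xc' b b' v1 v1')
    (hP : PhiL Φ θ θ' xc xc' b b' v1 v1' μ μ') :
    PhiL (fun v w => Φ w v) θ' θ xc' xc b' b v1' v1 μ' μ := by
  intro w v hw hw0 hv hv0 hne
  have k := hP v w hv hv0 hw hw0 hne.symm
  rw [H.LM_swap, ← Phi_conj H.hΦ (H.pr hv hv0 hw hw0)] at *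
  exact k

theorem OO.LL1_swap (H : OO Φ θ θ' xc xc' b b' v1 v1') (v w : ℂ) :
    LL1 θ' θ b' b xc' xc a' a v1' v1 (mir w) (mir v) =
      LL1 θ θ' b b' xc xc' a a' v1 v1' v w := by
  have k3 := H.Lc
  have k4 := H.swap.Lc
  rw [L0, ell_self, ell_self, add_zero, add_zero, EE_conj_mir] at k3 k4
  have k5 := Phi_conj H.hΦ H.prc
  unfold LL1
  rw [mir_mir, ← k3, ← k4, ← k5]
  ring

/-- The first vertex is a lattice vertex. -/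
theorem OO.lat_rg (H : OO Φ θ θ' xc xc' b b' v1 v1') (K : LatV Φ θ θ' v1' g)
    (hP : PhiL Φ θ θ' xc xc' b b' v1 v1' (mu b a v1) (mu b' a' v1'))
    (ha : 0 < a) (ha' : 0 < a') (h1 : 1 / 4 ≤ v1) (hw : w ∈ G0 θ' v1') {x : ℝ}
    (hx : 1 / 10 ≤ |x|) (hx' : |x| ≤ 1 / 2) : EdgeOK (.op (x : ℂ)) (.op w)
      (LL1 θ θ' b b' xc xc' a a' v1 v1' (tp θ) w + (g + s1 (x : ℂ))) := by
  have k := H.LL1_ge hP ha ha' h1 hw
  exact K.rg_ab H.hΦ H.h0 H.hθ H.hθ' H.ho.S H.hv1' hw hx hx' (by linarith)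

/-- The second vertex is a lattice vertex. -/
theorem OO.lat_gr (H : OO Φ θ θ' xc xc' b b' v1 v1') (K' : LatV (fun v w => Φ w v) θ' θ v1 g')
    (hP : PhiL Φ θ θ' xc xc' b b' v1 v1' (mu b a v1) (mu b' a' v1'))
    (ha : 0 < a) (ha' : 0 < a') (h1' : 1 / 4 ≤ v1') (hv : v ∈ G0 θ v1) {x : ℝ}
    (hx : 1 / 10 ≤ |x|) (hx' : |x| ≤ 1 / 2) : EdgeOK (.op v) (.op (x : ℂ))
      (LL1 θ θ' b b' xc xc' a a' v1 v1' v (mir (tp θ')) + (g' + s1 (x : ℂ))) := by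
  have k := H.swap.lat_rg K' (H.PhiL_swap hP) ha' ha h1' (mir_mem hv) (x := -x)
    (by rwa [abs_neg]) (by rwa [abs_neg])
  have e := H.LL1_swap (a := a) (a' := a') v (mir (tp θ'))
  rw [mir_mir] at e
  have e2 : s1 ((-x : ℝ) : ℂ) = s1 (x : ℂ) := by rw [s1_even, abs_neg, ← s1_even]
  rw [e, e2] at k
  have k2 := k.symm.mir_both
  rwa [mir_mir, mir_ofReal, neg_neg] at k2

/-- Both vertices are lattice vertices. -/
theorem OO.lat_rr (H : OO Φ θ θ' xc xc' b b' v1 v1') (K : LatV Φ θ θ' v1' g)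
    (K' : LatV (fun v w => Φ w v) θ' θ v1 g')
    (hP : PhiL Φ θ θ' xc xc' b b' v1 v1' (mu b a v1) (mu b' a' v1'))
    (ha : 0 < a) (ha' : 0 < a') (h1 : 1 / 4 ≤ v1) (h1' : 1 / 4 ≤ v1') {x x' : ℝ}
    (hx : 1 / 10 ≤ |x|) (hx' : |x| ≤ 1 / 2) (hy : 1 / 10 ≤ |x'|) (hy' : |x'| ≤ 1 / 2) :
    EdgeOK (.op (x : ℂ)) (.op (x' : ℂ))
      (LL1 θ θ' b b' xc xc' a a' v1 v1' (tp θ) (mir (tp θ')) + (g + s1 (x : ℂ)) +
        (g' + s1 (x' : ℂ))) := by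
  have k := H.LL1_ge' hP ha ha' h1 h1'
  exact K.rr H.hΦ H.h0 K' H.hθ H.hθ' H.ho.S h1' hx hx' hy hy' (by linarith)

end

end T2

end Pool.Agent.S3
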