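import Pool.Agent.S3.Cl.LowC
import Pool.Agent.S3.JLim
import Pool.Agent.S3.Ks5
import Pool.Agent.S3.Low4
import Pool.Agent.S3.Low5
import Pool.Agent.S3.W.Edg1

/-!
# The small indices: the chain
-/

set_option autoImplicit false

namespace Pool.Agent.S3

open Pool.Agent.H63.VC hiding ext
open Pool.Agent.H63.VC3 Pool.Agent.H63.VC4 Pool.Agent.H63.VC6 Pool.Agent.H63.VC7 Complex
open Pool.Agent.S3.E
open Pool.Agent.H25.RK Pool.Agent.H63.GO Filter Topology MeasureTheory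
open scoped BigOperators

variable {m : ℕ}

section

variable {a : Fin (m + 1) → ℕ} {σ : Fin (m + 1) → ℤ} {z : Fin (m + 1) → ℂ}

/-- The test points of the chain. -/
noncomputable def tC (σ : Fin (m + 1) → ℤ) (z : Fin (m + 1) → ℂ) (i : Fin (m + 1)) : ℂ :=
  if σ i = -1 then tp (th (z i).re (z i).im) else mir (tp (th (z i).re (z i).im))

/-- The loss of the vertex functions. -/
noncomputable def rC (z : Fin (m + 1) → ℂ) (i : Fin (m + 1)) : ℝ :=
  Real.pi / 2 * bl (th (z i).re (z i).im) (1 / 4)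

theorem tC_neg {i : Fin (m + 1)} (h : σ i = -1) : tC σ z i = tp (th (z i).re (z i).im) := by
  unfold tC; rw [if_pos h]

theorem tC_pos {i : Fin (m + 1)} (h : σ i = 1) : tC σ z i = mir (tp (th (z i).re (z i).im)) := by
  unfold tC; rw [if_neg (by rw [h]; decide)]

/-- The bound of an open-open edge, the left end has the sign `-1`. -/
theorem Lw_neg (h : Zr (fun i => (a i : ℝ)) chL chR 1 z) {v1 : Fin (m + 1) → ℝ}
    (hv1 : ∀ i, V1 (v1 i)) {j : Fin m} (H : EdC a σ z j)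
    (c1 : ¬ clo a j.castSucc) (c2 : ¬ clo a j.succ) (s1 : σ j.castSucc = -1)
    (s2 : σ j.succ = 1) (v w : ℂ) :
    (cfgOf a σ z).Lw v1 (lamC a z) j v w =
      LL1 (th (z j.castSucc).re (z j.castSucc).im) (th (z j.succ).re (z j.succ).im)
        (bw (z j.castSucc) (z j.succ)) (bw (z j.succ) (z j.castSucc))
        (xx (z j.castSucc).re (z j.castSucc).im) (xx (z j.succ).re (z j.succ).im)
        (a j.castSucc) (a j.succ) (v1 j.castSucc) (v1 j.succ) v w := by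
  have t2 := abs_th_lt (h.pos j.succ).1 (h.pos j.succ).2.1 (h.pos j.succ).2.2
  unfold Cfg.Lw LL1
  rw [lw_neg H c1 (Or.inl rfl) s1, lw_pos H (hv1 _) t2 c2 (Or.inr rfl) s2, oth_cs, oth_su]
  unfold Cfg.Fc
  rw [slc_op c1, slc_op c2, vcC_neg s1, vcC_pos t2 s2, yc_eq, if_pos s1]
  unfold E.uu
  rw [UU_conj]
  rfl

/-- The bound of an open-open edge, the left end has the sign `1`. -/
theorem Lw_pos (h : Zr (fun i => (a i : ℝ)) chL chR 1 z) {v1 : Fin (m + 1) → ℝ}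
    (hv1 : ∀ i, V1 (v1 i)) {j : Fin m} (H : EdC a σ z j)
    (c1 : ¬ clo a j.castSucc) (c2 : ¬ clo a j.succ) (s1 : σ j.castSucc = 1)
    (s2 : σ j.succ = -1) (v w : ℂ) :
    (cfgOf a σ z).Lw v1 (lamC a z) j v w =
      LL1 (th (z j.succ).re (z j.succ).im) (th (z j.castSucc).re (z j.castSucc).im)
        (bw (z j.succ) (z j.castSucc)) (bw (z j.castSucc) (z j.succ))
        (xx (z j.succ).re (z j.succ).im) (xx (z j.castSucc).re (z j.castSucc).im)
        (a j.succ) (a j.castSucc) (v1 j.succ) (v1 j.castSucc) w v := by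
  have t1 := abs_th_lt (h.pos j.castSucc).1 (h.pos j.castSucc).2.1 (h.pos j.castSucc).2.2
  unfold Cfg.Lw LL1
  rw [lw_neg H c2 (Or.inr rfl) s2, lw_pos H (hv1 _) t1 c1 (Or.inl rfl) s1, oth_cs, oth_su]
  unfold Cfg.Fc
  rw [slc_op c1, slc_op c2, vcC_neg s2, vcC_pos t1 s1, yc_eq, if_neg (by rw [s1]; decide)]
  unfold E.uu
  rw [UU_conj]
  have e : ∀ σ τ y, EE τ σ y = EE σ τ y := fun σ τ y => by rw [EE, EE, add_comm]
  rw [e]
  unfold qe
  ring

/-- At the test points the two shares agree. -/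
theorem lw_tC {v1 : Fin (m + 1) → ℝ} {lam : Fin m → Fin (m + 1) → ℝ} (j : Fin m)
    {i : Fin (m + 1)} (hv1 : V1 (v1 i)) (h1 : 1 / 4 ≤ v1 i) (hσ : σ i = 1 ∨ σ i = -1) :
    (cfgOf a σ z).lw v1 lam j i (tC σ z i) = (cfgOf a σ z).lv j i (tC σ z i) := by
  have e : pl ((cfgOf a σ z).θ i) (v1 i) (tC σ z i) = tC σ z i := by
    show pl (th (z i).re (z i).im) (v1 i) (tC σ z i) = tC σ z i
    rcases hσ with s | s
    · rw [tC_pos s, pl_mir hv1, pl_tp h1]
    · rw [tC_neg s, pl_tp h1]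
  unfold Cfg.lw
  rw [e, sub_self, mul_zero, add_zero]
  by_cases hi : i ∈ (cfgOf a σ z).Op
  · rw [if_pos hi]
  · rw [if_neg hi]
    unfold Cfg.lv
    rw [if_neg hi]

theorem wr_tC {i : Fin (m + 1)} (hσ : σ i = 1 ∨ σ i = -1) (h3 : 3 ≤ a i)
    (hb : 0 ≤ bl (th (z i).re (z i).im) (1 / 4)) :
    -(wr ((cfgOf a σ z).r i) (tC σ z i)).re ≤ rC z i := by
  have hpi := Real.pi_pos
  have ha : (3 : ℝ) ≤ a i := by exact_mod_cast h3
  have key : -(wr ((cfgOf a σ z).r i) (tC σ z i)).re =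
      2 * Real.pi * bl (th (z i).re (z i).im) (1 / 4) * (1 - a i / 4) := by
    rw [wr_reW, neg_neg]
    rcases hσ with s | s
    · rw [tC_pos s, Pool.Agent.S3.r_pos s, mir_im, mir_re, tp_re, tp_im]
      ring
    · rw [tC_neg s, Pool.Agent.S3.r_neg s, tp_re, tp_im]
      ring
  rw [key, rC]
  have h1 : (1 - (a i : ℝ) / 4) ≤ 1 / 4 := by linarith
  have h2 : 0 ≤ 2 * Real.pi * bl (th (z i).re (z i).im) (1 / 4) := by positivity
  have h4 := mul_le_mul_of_nonneg_left h1 h2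
  linarith

section

variable {Φ : ℂ → ℂ → ℂ} {Φ1 : ℂ → ℂ} {v1 : Fin (m + 1) → ℝ}

theorem rseg_eq {v : ℂ} (h : v ∈ rseg) : v = ((v.re : ℝ) : ℂ) := by
  apply Complex.ext
  · simp
  · simpa using h.1

theorem mem_sT {b : Bool} {i : Fin (m + 1)} {v : ℂ} (hi : ¬ clo a i)
    (h : v ∈ (cfgOf a σ z).sT v1 b i) :
    (b = true ∧ v ∈ rseg) ∨ (b = false ∧ v ∈ G0 (th (z i).re (z i).im) (v1 i)) := by
  unfold Cfg.sT at h
  cases b
  · right
    simp only [Bool.false_eq_true, if_false] at h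
    exact ⟨rfl, h.1 (mem_Op.2 hi)⟩
  · left
    simp only [if_true] at h
    exact ⟨rfl, h⟩

/-- The hypotheses of the abstract theorem at an open-open edge. -/
theorem low_oo (h : Zr (fun i => (a i : ℝ)) chL chR 1 z) (ha : ∀ i, 2 ≤ a i)
    (hσ : ∀ i, σ i = 1 ∨ σ i = -1) (hs : ∀ j : Fin m, σ j.succ = -σ j.castSucc)
    (h2 : ∀ j : Fin m, ¬ (clo a j.castSucc ∧ clo a j.succ)) (hv1 : ∀ i, V1 (v1 i))
    (h14 : ∀ i, 1 / 4 ≤ v1 i) (hΦ : IsPhi Φ) (h0 : Φ 0 0 = c00) (hD : OODall a σ z Φ v1)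
    {j : Fin m} (c1 : ¬ clo a j.castSucc) (c2 : ¬ clo a j.succ) :
    (12 / 25 + (rC z j.castSucc + rC z j.succ) <
      (cfgOf a σ z).Lw v1 (lamC a z) j (tC σ z j.castSucc) (tC σ z j.succ)) ∧
    (∀ x x' : ℝ, |x| ≤ 1 / 2 → |x'| ≤ 1 / 2 → EdgeOK (.op (x : ℂ)) (.op (x' : ℂ))
      ((cfgOf a σ z).Lw v1 (lamC a z) j (tC σ z j.castSucc) (tC σ z j.succ) + 12 / 25)) ∧
    (∀ (x : ℝ) (w : ℂ), |x| ≤ 1 / 2 → w ∈ G0 (th (z j.succ).re (z j.succ).im) (v1 j.succ) →
      EdgeOK (.op (x : ℂ)) (.op w)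
        ((cfgOf a σ z).Lw v1 (lamC a z) j (tC σ z j.castSucc) w + 6 / 25)) ∧
    (∀ (v : ℂ) (x : ℝ), |x| ≤ 1 / 2 →
      v ∈ G0 (th (z j.castSucc).re (z j.castSucc).im) (v1 j.castSucc) →
      EdgeOK (.op v) (.op (x : ℂ))
        ((cfgOf a σ z).Lw v1 (lamC a z) j v (tC σ z j.succ) + 6 / 25)) := by
  have H := edC h ha hσ hs h2 j
  rcases hσ j.castSucc with s1 | s1
  · have s2 : σ j.succ = -1 := by rw [hs, s1]
    have D := hD _ _ (Or.inl (chL_succ j)) c2 c1 s2 s1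
    have K := D.oo hΦ h0 h (Or.inl (chL_succ j)) (hv1 _) (hv1 _)
    simp only [Lw_pos h hv1 H c1 c2 s1 s2, tC_pos s1, tC_neg s2]
    refine ⟨?_, ?_, ?_, ?_⟩
    · have := K.low_bad D.gL D.gR (apos ha _) (apos ha _) (h14 _) (h14 _)
      unfold rC
      linarith
    · intro x x' hx hx'
      exact (K.low_rr D.flat D.gL D.gR (apos ha _) (apos ha _) (h14 _) (h14 _) hx' hx).symm
    · intro x w hx hw
      exact (K.low_gr D.flat D.gL D.gR (apos ha _) (apos ha _) (h14 _) hw hx).symm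
    · intro v x hx hv
      exact (K.low_rg D.flat D.gL D.gR (apos ha _) (apos ha _) (h14 _) hv hx).symm
  · have s2 : σ j.succ = 1 := by rw [hs, s1]; rfl
    have D := hD _ _ (Or.inr (chR_castSucc j)) c1 c2 s1 s2
    have K := D.oo hΦ h0 h (Or.inr (chR_castSucc j)) (hv1 _) (hv1 _)
    simp only [Lw_neg h hv1 H c1 c2 s1 s2, tC_pos s2, tC_neg s1]
    refine ⟨?_, ?_, ?_, ?_⟩
    · have := K.low_bad D.gL D.gR (apos ha _) (apos ha _) (h14 _) (h14 _)
      unfold rC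
      linarith
    · intro x x' hx hx'
      exact K.low_rr D.flat D.gL D.gR (apos ha _) (apos ha _) (h14 _) (h14 _) hx hx'
    · intro x w hx hw
      exact K.low_rg D.flat D.gL D.gR (apos ha _) (apos ha _) (h14 _) hw hx
    · intro v x hx hv
      exact K.low_gr D.flat D.gL D.gR (apos ha _) (apos ha _) (h14 _) hv hx

/-- **The hypotheses of the abstract theorem for a chain with at least three twists at every open
vertex.** -/
theorem lowH_of (h : Zr (fun i => (a i : ℝ)) chL chR 1 z) (ha : ∀ i, 2 ≤ a i)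
    (hσ : ∀ i, σ i = 1 ∨ σ i = -1) (hs : ∀ j : Fin m, σ j.succ = -σ j.castSucc)
    (h2 : ∀ j : Fin m, ¬ (clo a j.castSucc ∧ clo a j.succ)) (hv1 : ∀ i, V1 (v1 i))
    (h14 : ∀ i, 1 / 4 ≤ v1 i) (h3 : ∀ i, ¬ clo a i → 3 ≤ a i)
    (hT : ∀ i, ¬ clo a i → Ht (th (z i).re (z i).im))
    (hΦ : IsPhi Φ) (h0 : Φ 0 0 = c00) (hD : OODall a σ z Φ v1)
    (hΦ1 : IsPhi1 Φ1) (h01 : Φ1 0 = Cl.Fc 0) :
    (cfgOf a σ z).LowH v1 (lamC a z) (tC σ z) (6 / 25) (rC z) where
  hg := by norm_num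
  hρ := fun i hi => by
    have := LowA_bl (hT i (mem_Op.1 hi))
    unfold rC
    have := Real.pi_pos
    positivity
  wt := fun i hi => wr_tC (hσ i) (h3 i (mem_Op.1 hi)) (LowA_bl (hT i (mem_Op.1 hi)))
  bad := by
    intro j
    by_cases c1 : clo a j.castSucc
    · have c2 : ¬ clo a j.succ := fun c2 => h2 j ⟨c1, c2⟩
      have k1 := Cl.low_C2 hΦ1 h01 (hT _ c2)
      have k2 := Cl.low_right hΦ1 h01 h ha hσ hs h2 c1 (h3 _ c2) (tC σ z j.castSucc)
      have e1 : (cfgOf a σ z).cr (6 / 25) (rC z) j.castSucc = 0 := by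
        unfold Cfg.cr; rw [if_neg fun h => mem_Op.1 h c1]
      have e2 : (cfgOf a σ z).cr (6 / 25) (rC z) j.succ = 6 / 25 + rC z j.succ := by
        unfold Cfg.cr; rw [if_pos (mem_Op.2 c2)]
      rw [e1, e2, zero_add]
      exact k1.trans_le k2
    · by_cases c2 : clo a j.succ
      · have k1 := Cl.low_C2 hΦ1 h01 (hT _ c1)
        have k2 := Cl.low_left hΦ1 h01 h ha hσ hs h2 c2 (h3 _ c1) (tC σ z j.succ)
        have e1 : (cfgOf a σ z).cr (6 / 25) (rC z) j.succ = 0 := by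
          unfold Cfg.cr; rw [if_neg fun h => mem_Op.1 h c2]
        have e2 : (cfgOf a σ z).cr (6 / 25) (rC z) j.castSucc = 6 / 25 + rC z j.castSucc := by
          unfold Cfg.cr; rw [if_pos (mem_Op.2 c1)]
        rw [e1, e2, add_zero]
        exact k1.trans_le k2
      · have k := (low_oo h ha hσ hs h2 hv1 h14 hΦ h0 hD c1 c2).1
        unfold Cfg.Lw at k
        rw [lw_tC j (hv1 _) (h14 _) (hσ _), lw_tC j (hv1 _) (h14 _) (hσ _)] at k
        have e1 : (cfgOf a σ z).cr (6 / 25) (rC z) j.succ = 6 / 25 + rC z j.succ := by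
          unfold Cfg.cr; rw [if_pos (mem_Op.2 c2)]
        have e2 : (cfgOf a σ z).cr (6 / 25) (rC z) j.castSucc = 6 / 25 + rC z j.castSucc := by
          unfold Cfg.cr; rw [if_pos (mem_Op.2 c1)]
        rw [e1, e2]
        unfold Cfg.Lt
        linarith
  good := by
    intro j b b' hb hb' hbb v hv w hw
    have lt_t : ∀ i v, (cfgOf a σ z).lT v1 (lamC a z) (tC σ z) (6 / 25) true j i v =
        (cfgOf a σ z).lv j i (tC σ z i) + 6 / 25 := by
      intro i v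
      unfold Cfg.lT
      simp
    have lt_f : ∀ i v, (cfgOf a σ z).lT v1 (lamC a z) (tC σ z) (6 / 25) false j i v =
        (cfgOf a σ z).lw v1 (lamC a z) j i v := by
      intro i v
      unfold Cfg.lT
      simp
    by_cases c1 : clo a j.castSucc
    · have c2 : ¬ clo a j.succ := fun c2 => h2 j ⟨c1, c2⟩
      have hbf : b = false := by
        cases b
        · rfl
        · exact absurd c1 (mem_Op.1 (hb rfl))
      subst hbf
      have hbt : b' = true := by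
        rcases hbb with h | h
        · exact absurd h (by decide)
        · exact h
      subst hbt
      rcases mem_sT c2 hw with ⟨-, hw⟩ | ⟨h, -⟩
      swap
      · exact absurd h (by decide)
      have k1 := Cl.low_C3 hΦ1 (hT _ c2)
      have k2 := Cl.low_right hΦ1 h01 h ha hσ hs h2 c1 (h3 _ c2) (tC σ z j.castSucc)
      rw [Cl.sv_cl c1, Cl.sv_op c2, lt_t, lt_f, Cl.lw_cl c1, rseg_eq hw]
      unfold Cfg.Lt at k2
      rw [Cl.lv_cl c1] at k2
      exact (Cl.low_C1 hΦ1 h01 (hσ _) hw.2 (by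
        have k3 : (Φ1 (Cl.tp1 ((cfgOf a σ z).θ j.succ))).re ≤ (cfgOf a σ z).Fc j + 0 +
            (cfgOf a σ z).lv j j.succ (tC σ z j.succ) := k2
        have k4 : (Φ1 0).re < (Φ1 (Cl.tp1 ((cfgOf a σ z).θ j.succ))).re + 6 / 25 := k1
        linarith)).symm
    · by_cases c2 : clo a j.succ
      · have hbf : b' = false := by
          cases b'
          · rfl
          · exact absurd c2 (mem_Op.1 (hb' rfl))
        subst hbf
        have hbt : b = true := by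
          rcases hbb with h | h
          · exact h
          · exact absurd h (by decide)
        subst hbt
        rcases mem_sT c1 hv with ⟨-, hv⟩ | ⟨h, -⟩
        swap
        · exact absurd h (by decide)
        have k1 := Cl.low_C3 hΦ1 (hT _ c1)
        have k2 := Cl.low_left hΦ1 h01 h ha hσ hs h2 c2 (h3 _ c1) (tC σ z j.succ)
        rw [Cl.sv_cl c2, Cl.sv_op c1, lt_t, lt_f, Cl.lw_cl c2, rseg_eq hv]
        unfold Cfg.Lt at k2
        rw [Cl.lv_cl c2] at k2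
        exact Cl.low_C1 hΦ1 h01 (hσ _) hv.2 (by
          have k3 : (Φ1 (Cl.tp1 ((cfgOf a σ z).θ j.castSucc))).re ≤ (cfgOf a σ z).Fc j +
              (cfgOf a σ z).lv j j.castSucc (tC σ z j.castSucc) + 0 := k2
          have k4 : (Φ1 0).re < (Φ1 (Cl.tp1 ((cfgOf a σ z).θ j.castSucc))).re + 6 / 25 := k1
          linarith)
      · obtain ⟨-, k2, k3, k4⟩ := low_oo h ha hσ hs h2 hv1 h14 hΦ h0 hD c1 c2
        rw [Cl.sv_op c1, Cl.sv_op c2]
        rcases mem_sT c1 hv with ⟨e, hv'⟩ | ⟨e, hv'⟩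
        · subst e
          rcases mem_sT c2 hw with ⟨e', hw'⟩ | ⟨e', hw'⟩
          · subst e'
            rw [lt_t, lt_t, rseg_eq hv', rseg_eq hw']
            refine (k2 v.re w.re hv'.2 hw'.2).mono (le_of_eq ?_)
            unfold Cfg.Lw
            rw [lw_tC j (hv1 _) (h14 _) (hσ _), lw_tC j (hv1 _) (h14 _) (hσ _)]
            ring
          · subst e'
            rw [lt_t, lt_f, rseg_eq hv']
            refine (k3 v.re w hv'.2 hw').mono (le_of_eq ?_)
            unfold Cfg.Lw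
            rw [lw_tC j (hv1 _) (h14 _) (hσ _)]
            ring
        · subst e
          rcases mem_sT c2 hw with ⟨e', hw'⟩ | ⟨e', hw'⟩
          · subst e'
            rw [lt_f, lt_t, rseg_eq hw']
            refine (k4 v w.re hw'.2 hv').mono (le_of_eq ?_)
            unfold Cfg.Lw
            rw [lw_tC j (hv1 _) (h14 _) (hσ _)]
            ring
          · subst e'
            rcases hbb with h | h
            · exact absurd h (by decide)
            · exact absurd h (by decide)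

/-- The edge at a closed end. -/
theorem inc_clo {i : Fin (m + 1)} (hm : 1 ≤ m) (hi : clo a i) :
    ∃ j, inc (Fin.castSucc (n := m)) Fin.succ i = {j} := by
  rcases hi.2 with h | h
  · refine ⟨⟨0, hm⟩, ?_⟩
    ext k
    rw [Finset.mem_singleton]
    unfold inc
    rw [Finset.mem_filter]
    constructor
    · rintro ⟨-, h1 | h1⟩
      · rw [h] at h1
        apply Fin.ext
        have := congrArg Fin.val h1
        simpa using this
      · rw [h] at h1
        exact absurd h1 (Fin.succ_ne_zero k)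
    · intro h1
      refine ⟨Finset.mem_univ _, Or.inl ?_⟩
      rw [h, h1]
      rfl
  · refine ⟨⟨m - 1, by omega⟩, ?_⟩
    ext k
    rw [Finset.mem_singleton]
    unfold inc
    rw [Finset.mem_filter]
    constructor
    · rintro ⟨-, h1 | h1⟩
      · rw [h] at h1
        exact absurd h1 (Fin.castSucc_lt_last k).ne
      · rw [h] at h1
        apply Fin.ext
        have := congrArg Fin.val h1
        simp at this
        show (k : ℕ) = m - 1
        omega
    · intro h1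
      refine ⟨Finset.mem_univ _, Or.inr ?_⟩
      rw [h, h1]
      apply Fin.ext
      simp
      omega

/-- The data of the closed ends. -/
theorem clo_data (hm : 1 ≤ m) (hσ : ∀ i, σ i = 1 ∨ σ i = -1) :
    (∀ i ∉ (cfgOf a σ z).Op, (cfgOf a σ z).s i = 1 ∨ (cfgOf a σ z).s i = -1) ∧
    (∀ i ∉ (cfgOf a σ z).Op, (cfgOf a σ z).r i = (cfgOf a σ z).s i) ∧
    (∀ i ∉ (cfgOf a σ z).Op, ∃ j, inc (Fin.castSucc (n := m)) Fin.succ i = {j}) := by
  have hc : ∀ i, i ∉ (cfgOf a σ z).Op → clo a i := by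
    intro i hi
    by_contra h
    exact hi (mem_Op.2 h)
  refine ⟨fun i _ => hσ i, fun i hi => ?_, fun i hi => inc_clo hm (hc i hi)⟩
  show (σ i : ℝ) * a i / 2 = σ i
  rw [(hc i hi).1]
  push_cast
  ring

/-- **The small indices are negligible: the chain.** -/
theorem low_chain (hm : 1 ≤ m) (h : Zr (fun i => (a i : ℝ)) chL chR 1 z) (ha : ∀ i, 2 ≤ a i)
    (hσ : ∀ i, σ i = 1 ∨ σ i = -1) (hs : ∀ j : Fin m, σ j.succ = -σ j.castSucc)
    (h2 : ∀ j : Fin m, ¬ (clo a j.castSucc ∧ clo a j.succ)) (hv1 : ∀ i, V1 (v1 i))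
    (h14 : ∀ i, 1 / 4 ≤ v1 i) (h3 : ∀ i, ¬ clo a i → 3 ≤ a i)
    (hT : ∀ i, ¬ clo a i → Ht (th (z i).re (z i).im))
    (hΦ : IsPhi Φ) (h0 : Φ 0 0 = c00) (hD : OODall a σ z Φ v1)
    (hE : (cfgOf a σ z).Edg v1 (lamC a z)) :
    ∃ δ : ℝ, 0 < δ ∧ ∃ (K : ℝ) (p : ℕ), ∀ᶠ M : ℕ in atTop,
      ‖JG (Fin.castSucc (n := m)) Fin.succ (cfgOf a σ z).r M - J0 (cfgOf a σ z).r M‖ ≤
        K * (M : ℝ) ^ p * Real.exp (M * (((cfgOf a σ z).V (cp (cfgOf a σ z).ac
          (cfgOf a σ z).bc)).re - δ)) := by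
  obtain ⟨Φ1, hΦ1, h01⟩ := Cl.exists_Phi1 (Cl.Fc 0)
  have hC := crit hm h ha hσ hs h2
  obtain ⟨d1, d2, d3⟩ := clo_data (a := a) (z := z) hm hσ
  obtain ⟨δ, hδ, K, -, p, hb⟩ := Cfg.low_main ksB ksL hC d1 d2 d3
    (Eventually.of_forall fun M i hi j k hk => by
      rw [d2 i hi]
      exact cl_eq (d1 i hi) j k (hk j)) hE
    (lowH_of h ha hσ hs h2 hv1 h14 h3 hT hΦ h0 hD hΦ1 h01)
    (fun v y hv hy => low_E1a hv hy.1 hy.2) (fun s y hy => low_E1c hy.1 hy.2 s)
  refine ⟨δ, hδ, K, p, ?_⟩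
  filter_upwards [hb] with M hM
  rw [JLim_V_re hC]
  exact hM

/-- The data of the open-open edges of a chain with at least three twists at every open vertex. -/
theorem ood_t1 (hΦ : IsPhi Φ) (h0 : Φ 0 0 = c00)
    (h : Zr (fun i => (a i : ℝ)) chL chR 1 z)
    (h3 : ∀ i, ¬ clo a i → 3 ≤ a i)
    (hR : ∀ i, ¬ clo a i → (z i).re / Real.pi < 13 / 40)
    (hT : ∀ i, ¬ clo a i → th (z i).re (z i).im ≤ 27 / 50)
    (hE : ∀ n p : Fin (m + 1), (chL n = some p ∨ chR n = some p) → ¬ clo a n → ¬ clo a p →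
      EndAll Φ (th (z n).re (z n).im) (th (z p).re (z p).im) (xx (z n).re (z n).im)
        (xx (z p).re (z p).im) (bw (z n) (z p)) (bw (z p) (z n)) (13 / 40) (13 / 40)
        (mu (bw (z n) (z p)) (a n) (13 / 40)) (mu (bw (z p) (z n)) (a p) (13 / 40)))
    (hG : ∀ n p : Fin (m + 1), (chL n = some p ∨ chR n = some p) → ¬ clo a n → ¬ clo a p →
      a n = 3 → 7 / 25 ≤ th (z n).re (z n).im) :
    OODall a σ z Φ (fun _ => 13 / 40) := by
  intro n p hnp cn cp _ _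
  have tn := Ht_of (h.thpos n) (hT n cn)
  have tp := Ht_of (h.thpos p) (hT p cp)
  have K : OO Φ (th (z n).re (z n).im) (th (z p).re (z p).im) (xx (z n).re (z n).im)
      (xx (z p).re (z p).im) (bw (z n) (z p)) (bw (z p) (z n)) (13 / 40) (13 / 40) :=
    ⟨hΦ, h0, h.oppHyp hnp, h.split hnp, h.xxpos n, h.xxpos p, tn, tp, V1_t, V1_t,
      by rw [gdv_re_eq h]; exact hR n cn, by rw [gdv_re_eq h]; exact hR p cp⟩
  refine ⟨tn, tp, hR n cn, hR p cp, flatAll_of tn tp K.ho.S le_rfl le_rfl,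
    flatC_of K le_rfl le_rfl, hE n p hnp cn cp, ?_, ?_⟩
  · rcases (h3 n cn).eq_or_lt with e | e
    · exact gainL_of hΦ (hG n p hnp cn cp e.symm) (mu_le (h3 n cn) (h.bw_pos hnp) (bw_le h hnp))
    · exact gainL_nonpos hΦ (mu_nonpos e (h.bw_pos hnp))
  · have hpn := h.N.symm n p hnp
    rcases (h3 p cp).eq_or_lt with e | e
    · exact gainR_of hΦ (hG p n hpn cp cn e.symm) (mu_le (h3 p cp) (h.bw_pos hpn) (bw_le h hpn))
    · exact gainR_nonpos hΦ (mu_nonpos e (h.bw_pos hpn))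

/-- **The small indices are negligible: chains with at least three twists at every open vertex.**
The hypotheses are those of `edg_t1`. -/
theorem low_t1 (hm : 1 ≤ m) (hΦ : IsPhi Φ) (h0 : Φ 0 0 = c00)
    (h : Zr (fun i => (a i : ℝ)) chL chR 1 z) (ha : ∀ i, 2 ≤ a i)
    (hσ : ∀ i, σ i = 1 ∨ σ i = -1) (hs : ∀ j : Fin m, σ j.succ = -σ j.castSucc)
    (h2 : ∀ j : Fin m, ¬ (clo a j.castSucc ∧ clo a j.succ))
    (h3 : ∀ i, ¬ clo a i → 3 ≤ a i)
    (hR : ∀ i, ¬ clo a i → (z i).re / Real.pi < 13 / 40)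
    (hT : ∀ i, ¬ clo a i → th (z i).re (z i).im ≤ 27 / 50)
    (hE : ∀ n p : Fin (m + 1), (chL n = some p ∨ chR n = some p) → ¬ clo a n → ¬ clo a p →
      EndAll Φ (th (z n).re (z n).im) (th (z p).re (z p).im) (xx (z n).re (z n).im)
        (xx (z p).re (z p).im) (bw (z n) (z p)) (bw (z p) (z n)) (13 / 40) (13 / 40)
        (mu (bw (z n) (z p)) (a n) (13 / 40)) (mu (bw (z p) (z n)) (a p) (13 / 40)))
    (hG : ∀ n p : Fin (m + 1), (chL n = some p ∨ chR n = some p) → ¬ clo a n → ¬ clo a p →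
      a n = 3 → 7 / 25 ≤ th (z n).re (z n).im) :
    ∃ δ : ℝ, 0 < δ ∧ ∃ (K : ℝ) (p : ℕ), ∀ᶠ M : ℕ in atTop,
      ‖JG (Fin.castSucc (n := m)) Fin.succ (cfgOf a σ z).r M - J0 (cfgOf a σ z).r M‖ ≤
        K * (M : ℝ) ^ p * Real.exp (M * (((cfgOf a σ z).V (cp (cfgOf a σ z).ac
          (cfgOf a σ z).bc)).re - δ)) :=
  low_chain hm h ha hσ hs h2 (fun _ => V1_t) (fun _ => by norm_num) h3
    (fun i ci => Ht_of (h.thpos i) (hT i ci)) hΦ h0 (ood_t1 hΦ h0 h h3 hR hT hE hG)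
    (edg_t1 hΦ h0 h ha hσ hs h2 h3 hR (fun n p _ cn _ => hT n cn) hE hG)

end

end

end Pool.Agent.S3
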