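import Pool.Agent.S3.LL4
import Pool.Agent.S3.LL5
import Pool.Agent.S3.Low6
import Pool.Agent.S3.W2.Edg2

/-!
# The small indices with lattice sums: the chain
-/

set_option autoImplicit false

namespace Pool.Agent.S3.T2

open Pool.Agent.H63.VC hiding ext
open Pool.Agent.H63.VC3 Pool.Agent.H63.VC4 Pool.Agent.H63.VC6 Pool.Agent.H63.VC7 Complex
open Pool.Agent.S3.E
open Pool.Agent.H25.RK Pool.Agent.H63.GO Filter Topology MeasureTheory
open scoped BigOperators

variable {m : ℕ}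

section

variable {a : Fin (m + 1) → ℕ} {σ : Fin (m + 1) → ℤ} {z : Fin (m + 1) → ℂ}

/-- The cost of a lattice vertex. -/
noncomputable def gC (a : Fin (m + 1) → ℕ) (i : Fin (m + 1)) : ℝ := if a i = 2 then 0 else 1 / 10

/-- The loss of the vertex functions. -/
noncomputable def rC2 (a : Fin (m + 1) → ℕ) (z : Fin (m + 1) → ℂ) (i : Fin (m + 1)) : ℝ :=
  if a i = 2 then Real.pi * bl (th (z i).re (z i).im) (1 / 4)
  else Real.pi / 2 * bl (th (z i).re (z i).im) (1 / 4)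

theorem gC_nonneg (a : Fin (m + 1) → ℕ) (i : Fin (m + 1)) : 0 ≤ gC a i := by
  unfold gC
  split_ifs <;> norm_num

/-- The bound of an open-open edge, the left end has the sign `-1`. -/
theorem Lw_neg (h : Zr (fun i => (a i : ℝ)) chL chR 1 z) {v1 : Fin (m + 1) → ℝ}
    (hv1 : ∀ i, V1 (v1 i)) {j : Fin m} (H : EdC a σ z j)
    (c1 : ¬ clo a j.castSucc) (c2 : ¬ clo a j.succ) (s1 : σ j.castSucc = -1)
    (s2 : σ j.succ = 1) (v w : ℂ) :
    (cfgOf a σ z).Lw v1 (lamC a z) j v w =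
      LL1 (th (z j.castSucc).re (z j.castSucc).im) (th (z j.succ).re (z j.succ).im)
        (bw (z j.castSucc) (z j.succ)) (bw (z j.succ) (z j.castSucc))
        (xx (z j.castSucc).re (z j.castSucc).im) (xx (z j.succ).re (z j.succ).im)
        (a j.castSucc) (a j.succ) (v1 j.castSucc) (v1 j.succ) v w := by
  have t2 := abs_th_lt (h.pos j.succ).1 (h.pos j.succ).2.1 (h.pos j.succ).2.2
  unfold Cfg.Lw LL1
  rw [lw_neg H c1 (Or.inl rfl) s1, lw_pos H (hv1 _) t2 c2 (Or.inr rfl) s2, oth_cs, oth_su]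
  unfold Cfg.Fc
  rw [slc_op c1, slc_op c2, vcC_neg s1, vcC_pos t2 s2, yc_eq, if_pos s1]
  unfold E.uu
  rw [UU_conj]
  rfl

/-- The bound of an open-open edge, the left end has the sign `1`. -/
theorem Lw_pos (h : Zr (fun i => (a i : ℝ)) chL chR 1 z) {v1 : Fin (m + 1) → ℝ}
    (hv1 : ∀ i, V1 (v1 i)) {j : Fin m} (H : EdC a σ z j)
    (c1 : ¬ clo a j.castSucc) (c2 : ¬ clo a j.succ) (s1 : σ j.castSucc = 1)
    (s2 : σ j.succ = -1) (v w : ℂ) :
    (cfgOf a σ z).Lw v1 (lamC a z) j v w =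
      LL1 (th (z j.succ).re (z j.succ).im) (th (z j.castSucc).re (z j.castSucc).im)
        (bw (z j.succ) (z j.castSucc)) (bw (z j.castSucc) (z j.succ))
        (xx (z j.succ).re (z j.succ).im) (xx (z j.castSucc).re (z j.castSucc).im)
        (a j.succ) (a j.castSucc) (v1 j.succ) (v1 j.castSucc) w v := by
  have t1 := abs_th_lt (h.pos j.castSucc).1 (h.pos j.castSucc).2.1 (h.pos j.castSucc).2.2
  unfold Cfg.Lw LL1
  rw [lw_neg H c2 (Or.inr rfl) s2, lw_pos H (hv1 _) t1 c1 (Or.inl rfl) s1, oth_cs, oth_su]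
  unfold Cfg.Fc
  rw [slc_op c1, slc_op c2, vcC_neg s2, vcC_pos t1 s1, yc_eq, if_neg (by rw [s1]; decide)]
  unfold E.uu
  rw [UU_conj]
  have e : ∀ σ τ y, EE τ σ y = EE σ τ y := fun σ τ y => by rw [EE, EE, add_comm]
  rw [e]
  unfold qe
  ring

/-- At the test points the two shares agree. -/
theorem lw_tC {v1 : Fin (m + 1) → ℝ} {lam : Fin m → Fin (m + 1) → ℝ} (j : Fin m)
    {i : Fin (m + 1)} (hv1 : V1 (v1 i)) (h1 : 1 / 4 ≤ v1 i) (hσ : σ i = 1 ∨ σ i = -1) :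
    (cfgOf a σ z).lw v1 lam j i (tC σ z i) = (cfgOf a σ z).lv j i (tC σ z i) := by
  have e : pl ((cfgOf a σ z).θ i) (v1 i) (tC σ z i) = tC σ z i := by
    show pl (th (z i).re (z i).im) (v1 i) (tC σ z i) = tC σ z i
    rcases hσ with s | s
    · rw [tC_pos s, pl_mir hv1, pl_tp h1]
    · rw [tC_neg s, pl_tp h1]
  unfold Cfg.lw
  rw [e, sub_self, mul_zero, add_zero]
  by_cases hi : i ∈ (cfgOf a σ z).Op
  · rw [if_pos hi]
  · rw [if_neg hi]
    unfold Cfg.lv
    rw [if_neg hi]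

theorem wr_tC {i : Fin (m + 1)} (hσ : σ i = 1 ∨ σ i = -1) (h2 : 2 ≤ a i)
    (hb : 0 ≤ bl (th (z i).re (z i).im) (1 / 4)) :
    -(wr ((cfgOf a σ z).r i) (tC σ z i)).re ≤ rC2 a z i := by
  have hpi := Real.pi_pos
  have key : -(wr ((cfgOf a σ z).r i) (tC σ z i)).re =
      2 * Real.pi * bl (th (z i).re (z i).im) (1 / 4) * (1 - a i / 4) := by
    rw [wr_reW, neg_neg]
    rcases hσ with s | s
    · rw [tC_pos s, Pool.Agent.S3.r_pos s, mir_im, mir_re, tp_re, tp_im]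
      ring
    · rw [tC_neg s, Pool.Agent.S3.r_neg s, tp_re, tp_im]
      ring
  have h3 : 0 ≤ 2 * Real.pi * bl (th (z i).re (z i).im) (1 / 4) := by positivity
  rw [key, rC2]
  split_ifs with h
  · rw [h]
    push_cast
    linarith
  · have h4 : 3 ≤ a i := by omega
    have ha : (3 : ℝ) ≤ a i := by exact_mod_cast h4
    have h1 : (1 - (a i : ℝ) / 4) ≤ 1 / 4 := by linarith
    have h5 := mul_le_mul_of_nonneg_left h1 h3
    linarith

section

variable {Φ : ℂ → ℂ → ℂ} {v1 : Fin (m + 1) → ℝ}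

theorem mem_sT2 {b : Bool} {i : Fin (m + 1)} {v : ℂ} (hi : ¬ clo a i)
    (h : v ∈ (cfgOf a σ z).sT2 v1 b i) :
    (b = true ∧ v ∈ rlow) ∨ (b = false ∧ v ∈ G0 (th (z i).re (z i).im) (v1 i)) := by
  unfold Cfg.sT2 at h
  cases b
  · right
    simp only [Bool.false_eq_true, if_false] at h
    exact ⟨rfl, h.1 (mem_Op.2 hi)⟩
  · left
    simp only [if_true] at h
    exact ⟨rfl, h⟩

theorem rlow_ge {v : ℂ} (h : v ∈ rlow) : 1 / 10 ≤ |v.re| := by
  rw [abs_of_nonpos (by linarith [h.2.2])]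
  linarith [h.2.2]

/-- The value at the critical point is less than the bound, at every open-open edge. -/
def PhiLall (a : Fin (m + 1) → ℕ) (σ : Fin (m + 1) → ℤ) (z : Fin (m + 1) → ℂ)
    (Φ : ℂ → ℂ → ℂ) (v1 : Fin (m + 1) → ℝ) : Prop :=
  ∀ n p : Fin (m + 1), (chL n = some p ∨ chR n = some p) → ¬ clo a n → ¬ clo a p →
    σ n = -1 → σ p = 1 →
    PhiL Φ (th (z n).re (z n).im) (th (z p).re (z p).im) (xx (z n).re (z n).im)
      (xx (z p).re (z p).im) (bw (z n) (z p)) (bw (z p) (z n)) (v1 n) (v1 p)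
      (mu (bw (z n) (z p)) (a n) (v1 n)) (mu (bw (z p) (z n)) (a p) (v1 p))

/-- The estimates of the lattice vertices. -/
def LatVall (a : Fin (m + 1) → ℕ) (z : Fin (m + 1) → ℂ) (v1 : Fin (m + 1) → ℝ) : Prop :=
  ∀ Ψ : ℂ → ℂ → ℂ, IsPhi Ψ → Ψ 0 0 = c00 →
    ∀ n p : Fin (m + 1), (chL n = some p ∨ chR n = some p) → ¬ clo a n → ¬ clo a p →
      LatV Ψ (th (z n).re (z n).im) (th (z p).re (z p).im) (v1 p) (gC a n) ∧
      gC a n + rC2 a z n + (gC a p + rC2 a z p) <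
        (Ψ (tp (th (z n).re (z n).im)) ((starRingEnd ℂ) (tp (th (z p).re (z p).im)))).re

/-- The estimates of the edges with a closed end. -/
structure ClLow (a : Fin (m + 1) → ℕ) (σ : Fin (m + 1) → ℤ) (z : Fin (m + 1) → ℂ)
    (j : Fin m) : Prop where
  bad : (cfgOf a σ z).cr2 (gC a) (rC2 a z) j.castSucc +
    (cfgOf a σ z).cr2 (gC a) (rC2 a z) j.succ <
      (cfgOf a σ z).Lt j (tC σ z j.castSucc) (tC σ z j.succ)
  left : clo a j.castSucc → ∀ x : ℝ, 1 / 10 ≤ |x| → |x| ≤ 1 / 2 →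
    EdgeOK (.op (x : ℂ)) (.cl (σ j.castSucc)) ((cfgOf a σ z).Fc j +
      (cfgOf a σ z).lv j j.succ (tC σ z j.succ) + (gC a j.succ + s1 (x : ℂ)))
  right : clo a j.succ → ∀ x : ℝ, 1 / 10 ≤ |x| → |x| ≤ 1 / 2 →
    EdgeOK (.op (x : ℂ)) (.cl (σ j.succ)) ((cfgOf a σ z).Fc j +
      (cfgOf a σ z).lv j j.castSucc (tC σ z j.castSucc) + (gC a j.castSucc + s1 (x : ℂ)))

/-- The hypotheses of the abstract theorem at an open-open edge. -/
theorem low_oo (h : Zr (fun i => (a i : ℝ)) chL chR 1 z) (ha : ∀ i, 2 ≤ a i)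
    (hσ : ∀ i, σ i = 1 ∨ σ i = -1) (hs : ∀ j : Fin m, σ j.succ = -σ j.castSucc)
    (h2 : ∀ j : Fin m, ¬ (clo a j.castSucc ∧ clo a j.succ)) (hv1 : ∀ i, V1 (v1 i))
    (h14 : ∀ i, 1 / 4 ≤ v1 i) (hΦ : IsPhi Φ) (h0 : Φ 0 0 = c00) (hD : OODall a σ z Φ v1)
    (hP : PhiLall a σ z Φ v1) (hK : LatVall a z v1)
    {j : Fin m} (c1 : ¬ clo a j.castSucc) (c2 : ¬ clo a j.succ) :
    (gC a j.castSucc + rC2 a z j.castSucc + (gC a j.succ + rC2 a z j.succ) <
      (cfgOf a σ z).Lw v1 (lamC a z) j (tC σ z j.castSucc) (tC σ z j.succ)) ∧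
    (∀ x x' : ℝ, 1 / 10 ≤ |x| → |x| ≤ 1 / 2 → 1 / 10 ≤ |x'| → |x'| ≤ 1 / 2 →
      EdgeOK (.op (x : ℂ)) (.op (x' : ℂ))
        ((cfgOf a σ z).Lw v1 (lamC a z) j (tC σ z j.castSucc) (tC σ z j.succ) +
          (gC a j.castSucc + s1 (x : ℂ)) + (gC a j.succ + s1 (x' : ℂ)))) ∧
    (∀ (x : ℝ) (w : ℂ), 1 / 10 ≤ |x| → |x| ≤ 1 / 2 →
      w ∈ G0 (th (z j.succ).re (z j.succ).im) (v1 j.succ) →
      EdgeOK (.op (x : ℂ)) (.op w)
        ((cfgOf a σ z).Lw v1 (lamC a z) j (tC σ z j.castSucc) w +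
          (gC a j.castSucc + s1 (x : ℂ)))) ∧
    (∀ (v : ℂ) (x : ℝ), 1 / 10 ≤ |x| → |x| ≤ 1 / 2 →
      v ∈ G0 (th (z j.castSucc).re (z j.castSucc).im) (v1 j.castSucc) →
      EdgeOK (.op v) (.op (x : ℂ))
        ((cfgOf a σ z).Lw v1 (lamC a z) j v (tC σ z j.succ) +
          (gC a j.succ + s1 (x : ℂ)))) := by
  have H := edC h ha hσ hs h2 j
  rcases hσ j.castSucc with s1 | s1
  · have s2 : σ j.succ = -1 := by rw [hs, s1]
    have D := hD _ _ (Or.inl (chL_succ j)) c2 c1 s2 s1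
    have P := hP _ _ (Or.inl (chL_succ j)) c2 c1 s2 s1
    have K := D.oo hΦ h0 h (Or.inl (chL_succ j)) (hv1 _) (hv1 _)
    obtain ⟨L1, A1⟩ := hK Φ hΦ h0 _ _ (Or.inl (chL_succ j)) c2 c1
    obtain ⟨L2, -⟩ := hK _ hΦ.swap h0 _ _ (Or.inr (chR_castSucc j)) c1 c2
    have B := K.LL1_ge' P (apos ha _) (apos ha _) (h14 _) (h14 _)
    simp only [Lw_pos h hv1 H c1 c2 s1 s2, tC_pos s1, tC_neg s2]
    refine ⟨?_, ?_, ?_, ?_⟩
    · linarith
    · intro x x' hx hx' hy hy'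
      refine (K.lat_rr L1 L2 P (apos ha _) (apos ha _) (h14 _) (h14 _) hy hy' hx hx').symm.mono
        (le_of_eq (by ring))
    · intro x w hx hx' hw
      exact (K.lat_gr L2 P (apos ha _) (apos ha _) (h14 _) hw hx hx').symm
    · intro v x hx hx' hv
      exact (K.lat_rg L1 P (apos ha _) (apos ha _) (h14 _) hv hx hx').symm
  · have s2 : σ j.succ = 1 := by rw [hs, s1]; rfl
    have D := hD _ _ (Or.inr (chR_castSucc j)) c1 c2 s1 s2
    have P := hP _ _ (Or.inr (chR_castSucc j)) c1 c2 s1 s2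
    have K := D.oo hΦ h0 h (Or.inr (chR_castSucc j)) (hv1 _) (hv1 _)
    obtain ⟨L1, A1⟩ := hK Φ hΦ h0 _ _ (Or.inr (chR_castSucc j)) c1 c2
    obtain ⟨L2, -⟩ := hK _ hΦ.swap h0 _ _ (Or.inl (chL_succ j)) c2 c1
    have B := K.LL1_ge' P (apos ha _) (apos ha _) (h14 _) (h14 _)
    simp only [Lw_neg h hv1 H c1 c2 s1 s2, tC_pos s2, tC_neg s1]
    refine ⟨?_, ?_, ?_, ?_⟩
    · linarith
    · intro x x' hx hx' hy hy'
      exact K.lat_rr L1 L2 P (apos ha _) (apos ha _) (h14 _) (h14 _) hx hx' hy hy'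
    · intro x w hx hx' hw
      exact K.lat_rg L1 P (apos ha _) (apos ha _) (h14 _) hw hx hx'
    · intro v x hx hx' hv
      exact K.lat_gr L2 P (apos ha _) (apos ha _) (h14 _) hv hx hx'

/-- **The hypotheses of the abstract theorem for a chain.** -/
theorem lowH2_of (h : Zr (fun i => (a i : ℝ)) chL chR 1 z) (ha : ∀ i, 2 ≤ a i)
    (hσ : ∀ i, σ i = 1 ∨ σ i = -1) (hs : ∀ j : Fin m, σ j.succ = -σ j.castSucc)
    (h2 : ∀ j : Fin m, ¬ (clo a j.castSucc ∧ clo a j.succ)) (hv1 : ∀ i, V1 (v1 i))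
    (h14 : ∀ i, 1 / 4 ≤ v1 i)
    (hT : ∀ i, ¬ clo a i → Ht (th (z i).re (z i).im))
    (hΦ : IsPhi Φ) (h0 : Φ 0 0 = c00) (hD : OODall a σ z Φ v1)
    (hP : PhiLall a σ z Φ v1) (hK : LatVall a z v1)
    (hC : ∀ j : Fin m, (clo a j.castSucc ∨ clo a j.succ) → ClLow a σ z j) :
    (cfgOf a σ z).LowH2 v1 (lamC a z) (tC σ z) (gC a) (rC2 a z) where
  hg := fun i _ => gC_nonneg a i
  hρ := fun i hi => by
    have := (Und_tp (hT i (mem_Op.1 hi))).im0
    rw [tp_im] at this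
    have hpi := Real.pi_pos
    unfold rC2
    split_ifs <;> positivity
  wt := fun i hi => by
    have := (Und_tp (hT i (mem_Op.1 hi))).im0
    rw [tp_im] at this
    exact wr_tC (hσ i) (ha i) this
  bad := by
    intro j
    by_cases c1 : clo a j.castSucc
    · exact (hC j (Or.inl c1)).bad
    · by_cases c2 : clo a j.succ
      · exact (hC j (Or.inr c2)).bad
      · have k := (low_oo h ha hσ hs h2 hv1 h14 hΦ h0 hD hP hK c1 c2).1
        unfold Cfg.Lw at k
        rw [lw_tC j (hv1 _) (h14 _) (hσ _), lw_tC j (hv1 _) (h14 _) (hσ _)] at k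
        have e1 : (cfgOf a σ z).cr2 (gC a) (rC2 a z) j.succ = gC a j.succ + rC2 a z j.succ := by
          unfold Cfg.cr2; rw [if_pos (mem_Op.2 c2)]
        have e2 : (cfgOf a σ z).cr2 (gC a) (rC2 a z) j.castSucc =
            gC a j.castSucc + rC2 a z j.castSucc := by
          unfold Cfg.cr2; rw [if_pos (mem_Op.2 c1)]
        rw [e1, e2]
        unfold Cfg.Lt
        linarith
  good := by
    intro j b b' hb hb' hbb v hv w hw
    have lt_t : ∀ i v, (cfgOf a σ z).lT2 v1 (lamC a z) (tC σ z) (gC a) true j i v =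
        (cfgOf a σ z).lv j i (tC σ z i) + (gC a i + s1 v) := by
      intro i v
      unfold Cfg.lT2
      simp
    have lt_f : ∀ i v, (cfgOf a σ z).lT2 v1 (lamC a z) (tC σ z) (gC a) false j i v =
        (cfgOf a σ z).lw v1 (lamC a z) j i v := by
      intro i v
      unfold Cfg.lT2
      simp
    by_cases c1 : clo a j.castSucc
    · have c2 : ¬ clo a j.succ := fun c2 => h2 j ⟨c1, c2⟩
      have hbf : b = false := by
        cases b
        · rfl
        · exact absurd c1 (mem_Op.1 (hb rfl))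
      subst hbf
      have hbt : b' = true := by
        rcases hbb with h | h
        · exact absurd h (by decide)
        · exact h
      subst hbt
      rcases mem_sT2 c2 hw with ⟨-, hw⟩ | ⟨h, -⟩
      swap
      · exact absurd h (by decide)
      have k1 := (hC j (Or.inl c1)).left c1 w.re (rlow_ge hw) (rlow_abs hw)
      rw [← rlow_eq hw] at k1
      rw [Cl.sv_cl c1, Cl.sv_op c2, lt_t, lt_f, Cl.lw_cl c1]
      exact k1.symm.mono (le_of_eq (by ring))
    · by_cases c2 : clo a j.succ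
      · have hbf : b' = false := by
          cases b'
          · rfl
          · exact absurd c2 (mem_Op.1 (hb' rfl))
        subst hbf
        have hbt : b = true := by
          rcases hbb with h | h
          · exact h
          · exact absurd h (by decide)
        subst hbt
        rcases mem_sT2 c1 hv with ⟨-, hv⟩ | ⟨h, -⟩
        swap
        · exact absurd h (by decide)
        have k1 := (hC j (Or.inr c2)).right c2 v.re (rlow_ge hv) (rlow_abs hv)
        rw [← rlow_eq hv] at k1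
        rw [Cl.sv_cl c2, Cl.sv_op c1, lt_t, lt_f, Cl.lw_cl c2]
        exact k1.mono (le_of_eq (by ring))
      · obtain ⟨-, k2, k3, k4⟩ := low_oo h ha hσ hs h2 hv1 h14 hΦ h0 hD hP hK c1 c2
        rw [Cl.sv_op c1, Cl.sv_op c2]
        rcases mem_sT2 c1 hv with ⟨e, hv'⟩ | ⟨e, hv'⟩
        · subst e
          rcases mem_sT2 c2 hw with ⟨e', hw'⟩ | ⟨e', hw'⟩
          · subst e'
            have k := k2 v.re w.re (rlow_ge hv') (rlow_abs hv') (rlow_ge hw') (rlow_abs hw')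
            rw [← rlow_eq hv', ← rlow_eq hw'] at k
            rw [lt_t, lt_t]
            refine k.mono (le_of_eq ?_)
            unfold Cfg.Lw
            rw [lw_tC j (hv1 _) (h14 _) (hσ _), lw_tC j (hv1 _) (h14 _) (hσ _)]
            ring
          · subst e'
            have k := k3 v.re w (rlow_ge hv') (rlow_abs hv') hw'
            rw [← rlow_eq hv'] at k
            rw [lt_t, lt_f]
            refine k.mono (le_of_eq ?_)
            unfold Cfg.Lw
            rw [lw_tC j (hv1 _) (h14 _) (hσ _)]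
            ring
        · subst e
          rcases mem_sT2 c2 hw with ⟨e', hw'⟩ | ⟨e', hw'⟩
          · subst e'
            have k := k4 v w.re (rlow_ge hw') (rlow_abs hw') hv'
            rw [← rlow_eq hw'] at k
            rw [lt_f, lt_t]
            refine k.mono (le_of_eq ?_)
            unfold Cfg.Lw
            rw [lw_tC j (hv1 _) (h14 _) (hσ _)]
            ring
          · subst e'
            rcases hbb with h | h
            · exact absurd h (by decide)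
            · exact absurd h (by decide)

/-- **The small indices are negligible: the chain.** -/
theorem low_chain2 (hm : 1 ≤ m) (h : Zr (fun i => (a i : ℝ)) chL chR 1 z) (ha : ∀ i, 2 ≤ a i)
    (hσ : ∀ i, σ i = 1 ∨ σ i = -1) (hs : ∀ j : Fin m, σ j.succ = -σ j.castSucc)
    (h2 : ∀ j : Fin m, ¬ (clo a j.castSucc ∧ clo a j.succ)) (hv1 : ∀ i, V1 (v1 i))
    (h14 : ∀ i, 1 / 4 ≤ v1 i)
    (hT : ∀ i, ¬ clo a i → Ht (th (z i).re (z i).im))
    (hΦ : IsPhi Φ) (h0 : Φ 0 0 = c00) (hD : OODall a σ z Φ v1)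
    (hP : PhiLall a σ z Φ v1) (hK : LatVall a z v1)
    (hC : ∀ j : Fin m, (clo a j.castSucc ∨ clo a j.succ) → ClLow a σ z j)
    (hE : (cfgOf a σ z).Edg v1 (lamC a z)) :
    ∃ δ : ℝ, 0 < δ ∧ ∃ (K : ℝ) (p : ℕ), ∀ᶠ M : ℕ in atTop,
      ‖JG (Fin.castSucc (n := m)) Fin.succ (cfgOf a σ z).r M - J0 (cfgOf a σ z).r M‖ ≤
        K * (M : ℝ) ^ p * Real.exp (M * (((cfgOf a σ z).V (cp (cfgOf a σ z).ac
          (cfgOf a σ z).bc)).re - δ)) := by
  have hCr := crit hm h ha hσ hs h2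
  obtain ⟨d1, d2, d3⟩ := clo_data (a := a) (z := z) hm hσ
  have hcc : ∀ j : Fin m, j.castSucc ∈ (cfgOf a σ z).Op ∨ j.succ ∈ (cfgOf a σ z).Op := by
    intro j
    by_cases c1 : clo a j.castSucc
    · exact Or.inr (mem_Op.2 fun c2 => h2 j ⟨c1, c2⟩)
    · exact Or.inl (mem_Op.2 c1)
  obtain ⟨δ, hδ, K, -, p, hb⟩ := Cfg.low_main2 ksB ksL hCr d1 d3 hcc
    (Eventually.of_forall fun M i hi j k hk => by
      rw [d2 i hi]
      exact cl_eq (d1 i hi) j k (hk j)) hE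
    (lowH2_of h ha hσ hs h2 hv1 h14 hT hΦ h0 hD hP hK hC)
  refine ⟨δ, hδ, K, p, ?_⟩
  filter_upwards [hb] with M hM
  rw [JLim_V_re hCr]
  exact hM

end

end

end Pool.Agent.S3.T2
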