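import Pool.Agent.S3.Cl.Low
import Pool.Agent.S3.LX2
import Pool.Agent.S3.LowA

/-!
# Small indices, inner vertices with two half twists: the gain of a lattice vertex, closed edges
-/

set_option autoImplicit false

namespace Pool.Agent.S3

open Complex

/-! ### The gain of a lattice vertex -/

theorem lx_Rf_deriv {x : ℝ} (hx : Real.sin (Real.pi * x) ≠ 0) :
    HasDerivAt (fun x : ℝ => Rf (x : ℂ)) (Real.log |2 * Real.sin (Real.pi * x)|) x := by
  have hline : ∀ x : ℝ, ((x : ℂ) + ((0 : ℝ) : ℂ) * I) = (x : ℂ) := fun x => by simp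
  have hs : sin (Real.pi * ((x : ℂ) + ((0 : ℝ) : ℂ) * I)) ≠ 0 := by
    rw [hline, ← ofReal_mul, ← ofReal_sin]
    exact_mod_cast hx
  have := Rf_hasDerivAt hs
  have e : Real.log ‖2 * sin (Real.pi * ((x : ℂ) + ((0 : ℝ) : ℂ) * I))‖ =
      Real.log |2 * Real.sin (Real.pi * x)| := by
    rw [hline, ← ofReal_mul, ← ofReal_sin, ← Real.norm_eq_abs, ← norm_real]
    push_cast
    rfl
  rw [e] at this
  simp only [hline] at this
  exact this

/-- The derivative of the gain. -/
theorem s1_hasDerivAt {x : ℝ} (h0 : 1 / 10 < x) (h1 : x < 1 / 2) :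
    HasDerivAt (fun x : ℝ => s1 (x : ℂ)) (-Real.log (Real.sin (Real.pi * (x + 1 / 10)) /
      Real.sin (Real.pi * (x - 1 / 10)))) x := by
  have hpi := Real.pi_pos
  have p1 : 0 < Real.sin (Real.pi * (x - 1 / 10)) := by
    apply Real.sin_pos_of_pos_of_lt_pi
    · have : 0 < x - 1 / 10 := by linarith only [h0]
      positivity
    · linarith only [hpi, mul_pos (sub_pos.2 h1) (sub_pos.2 hpi)]
  have p2 : 0 < Real.sin (Real.pi * (x + 1 / 10)) := by
    apply Real.sin_pos_of_pos_of_lt_pi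
    · have : 0 < x + 1 / 10 := by linarith only [h0]
      positivity
    · linarith only [hpi, mul_pos (sub_pos.2 h1) (sub_pos.2 hpi)]
  have e1 : Real.sin (Real.pi * (1 / 10 - x)) = -Real.sin (Real.pi * (x - 1 / 10)) := by
    rw [← Real.sin_neg]
    congr 1
    ring
  have d1 := (lx_Rf_deriv (x := 1 / 10 - x) (by rw [e1]; exact (neg_neg_of_pos p1).ne)).comp_const_sub
    (1 / 10) x
  have d2 := (lx_Rf_deriv (x := x + 1 / 10) p2.ne').comp_add_const x (1 / 10)
  have d := (d1.const_sub (2 * Rf (((1 / 10 : ℝ) : ℂ) + 1 / 2))).sub d2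
  rw [e1, mul_neg, abs_neg, abs_of_pos (by positivity), abs_of_pos (by positivity)] at d
  refine (d.congr_of_eventuallyEq (Filter.Eventually.of_forall fun z => ?_)).congr_deriv ?_
  · show s1 (z : ℂ) = _
    unfold s1 se
    simp only [Pi.sub_apply]
    rw [← ofReal_sub, ← ofReal_add, add_comm (1 / 10 : ℝ) z]
  · rw [Real.log_div p2.ne' p1.ne', Real.log_mul two_ne_zero p1.ne',
      Real.log_mul two_ne_zero p2.ne']
    ring

theorem s1_half : s1 ((1 / 2 : ℝ) : ℂ) = 0 := by
  unfold s1 se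
  simp only
  have e1 : (((1 / 10 : ℝ) : ℂ) + 1 / 2) = ((6 / 10 : ℝ) : ℂ) := by push_cast; norm_num
  have e2 : (((1 / 10 : ℝ) : ℂ) - ((1 / 2 : ℝ) : ℂ)) = ((-(4 / 10) : ℝ) : ℂ) := by
    push_cast; norm_num
  have e3 : (((1 / 10 : ℝ) : ℂ) + ((1 / 2 : ℝ) : ℂ)) = ((6 / 10 : ℝ) : ℂ) := by
    push_cast; norm_num
  rw [e1, e2, e3, Rf_neg_real]
  have k := Rf_one_sub_line (4 / 10) 0
  rw [ofReal_zero, zero_mul, add_zero, add_zero] at k
  have e4 : Rf ((6 / 10 : ℝ) : ℂ) = -Rf ((4 / 10 : ℝ) : ℂ) := by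
    rw [← k]
    congr 1
    norm_num
  rw [e4]
  ring

/-- `log ((1 + z) / (1 - z)) ≥ 2 z + 2 z ^ 3 / 3 + 2 z ^ 5 / 5`. -/
theorem lx_artanh {z : ℝ} (h0 : 0 ≤ z) (h1 : z < 1) :
    2 * z + 2 / 3 * z ^ 3 + 2 / 5 * z ^ 5 ≤ Real.log ((1 + z) / (1 - z)) := by
  rcases h0.eq_or_lt with h | h
  · rw [← h]; norm_num
  have key := LowA_pos (b := z) (x := z)
    (f := fun s => Real.log (1 + s) - Real.log (1 - s) - (2 * s + 2 / 3 * s ^ 3 + 2 / 5 * s ^ 5))
    (f' := fun s => 1 / (1 + s) - -1 / (1 - s) - (2 + 2 * s ^ 2 + 2 * s ^ 4)) ?_ (by simp) ?_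
    h0 le_rfl
  · rw [Real.log_div (by linarith only [h0]) (by linarith only [h1])]
    linarith only [key]
  · intro s hs hsb
    have p1 : 0 < 1 + s := by linarith only [hs, h, h1]
    have p2 : 0 < 1 - s := by linarith only [hsb, h1]
    have d1 := ((hasDerivAt_id' s).const_add 1).log p1.ne'
    have d2 := ((hasDerivAt_id' s).const_sub 1).log p2.ne'
    have d3 := (((hasDerivAt_id' s).const_mul 2).add ((hasDerivAt_pow 3 s).const_mul (2 / 3))).add
      ((hasDerivAt_pow 5 s).const_mul (2 / 5))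
    refine ((d1.sub d2).sub d3).congr_deriv ?_
    norm_num
    ring
  · intro s hs hsb
    have p1 : 0 < 1 + s := by linarith only [hs, h, h1]
    have p2 : 0 < 1 - s := by linarith only [hsb, h1]
    have e : 1 / (1 + s) - -1 / (1 - s) - (2 + 2 * s ^ 2 + 2 * s ^ 4) =
        2 * s ^ 6 / ((1 + s) * (1 - s)) := by
      field_simp
      ring
    rw [e]
    positivity

/-- The quotient of the sines. -/
theorem lx_quot {x : ℝ} (h0 : 1 / 10 < x) (h1 : x < 1 / 2) :
    0 < Real.tan (Real.pi / 10) * (Real.cos (Real.pi * x) / Real.sin (Real.pi * x)) ∧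
    Real.tan (Real.pi / 10) * (Real.cos (Real.pi * x) / Real.sin (Real.pi * x)) < 1 ∧
    Real.sin (Real.pi * (x + 1 / 10)) / Real.sin (Real.pi * (x - 1 / 10)) =
      (1 + Real.tan (Real.pi / 10) * (Real.cos (Real.pi * x) / Real.sin (Real.pi * x))) /
      (1 - Real.tan (Real.pi / 10) * (Real.cos (Real.pi * x) / Real.sin (Real.pi * x))) := by
  have hpi := Real.pi_pos
  have p1 : 0 < Real.sin (Real.pi * (x - 1 / 10)) := by
    apply Real.sin_pos_of_pos_of_lt_pi
    · have : 0 < x - 1 / 10 := by linarith only [h0]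
      positivity
    · linarith only [hpi, mul_pos (sub_pos.2 h1) (sub_pos.2 hpi)]
  have s0 : 0 < Real.sin (Real.pi * x) := by
    apply Real.sin_pos_of_pos_of_lt_pi
    · have : 0 < x := by linarith only [h0]
      positivity
    · linarith only [hpi, mul_pos (sub_pos.2 h1) (sub_pos.2 hpi)]
  have c0 : 0 < Real.cos (Real.pi * x) := by
    apply Real.cos_pos_of_mem_Ioo
    constructor
    · have : 0 < x := by linarith only [h0]
      linarith only [hpi, mul_pos (sub_pos.2 h0) (sub_pos.2 hpi)]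
    · linarith only [mul_pos (sub_pos.2 h1) (sub_pos.2 hpi)]
  have st : 0 < Real.sin (Real.pi / 10) := by
    apply Real.sin_pos_of_pos_of_lt_pi <;> linarith only [hpi]
  have ct : 0 < Real.cos (Real.pi / 10) := by
    apply Real.cos_pos_of_mem_Ioo
    constructor <;> linarith only [hpi]
  rw [show Real.pi * (x - 1 / 10) = Real.pi * x - Real.pi / 10 by ring, Real.sin_sub] at p1
  rw [show Real.pi * (x - 1 / 10) = Real.pi * x - Real.pi / 10 by ring,
    show Real.pi * (x + 1 / 10) = Real.pi * x + Real.pi / 10 by ring, Real.sin_sub, Real.sin_add,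
    Real.tan_eq_sin_div_cos]
  generalize Real.sin (Real.pi * x) = S at *
  generalize Real.cos (Real.pi * x) = C at *
  generalize Real.sin (Real.pi / 10) = s at *
  generalize Real.cos (Real.pi / 10) = c at *
  have h2 : s / c * (C / S) < 1 := by
    rw [div_mul_div_comm, div_lt_one (by positivity)]
    linarith only [p1]
  refine ⟨by positivity, h2, ?_⟩
  have h3 : 1 - s / c * (C / S) ≠ 0 := by linarith only [h2]
  have h4 : S * c - C * s ≠ 0 := p1.ne'
  rw [div_eq_div_iff h4 h3]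
  field_simp

/-- `tan (π / 10)`. -/
theorem lx_t0 : 3248 / 10000 ≤ Real.tan (Real.pi / 10) ∧ Real.tan (Real.pi / 10) ≤ 325 / 1000 := by
  have hpi := Real.pi_pos
  have ct : 0 < Real.cos (Real.pi / 10) := by
    apply Real.cos_pos_of_mem_Ioo
    constructor <;> linarith only [hpi]
  have st : 0 < Real.sin (Real.pi / 10) := by
    apply Real.sin_pos_of_pos_of_lt_pi <;> linarith only [hpi]
  have h1 := Real.cos_two_mul (Real.pi / 10)
  rw [show 2 * (Real.pi / 10) = Real.pi / 5 by ring, Real.cos_pi_div_five] at h1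
  have h2 := Real.sin_sq_add_cos_sq (Real.pi / 10)
  have h5 : (2.236067 : ℝ) ≤ √5 := by
    apply Real.le_sqrt_of_sq_le
    norm_num
  have h6 : √5 ≤ (2.236069 : ℝ) := by
    rw [Real.sqrt_le_left (by norm_num)]
    norm_num
  norm_num at h5 h6
  rw [Real.tan_eq_sin_div_cos]
  constructor
  · rw [le_div_iff₀ ct]
    apply le_of_sq_le_sq _ st.le
    linarith only [h6, h2, h1]
  · rw [div_le_iff₀ ct]
    apply le_of_sq_le_sq _ (by positivity)
    linarith only [h5, h2, h1]

theorem lx_t0_pos : 0 < Real.tan (Real.pi / 10) := by linarith only [lx_t0.1]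

/-- The cotangent. -/
noncomputable def lct (x : ℝ) : ℝ := Real.cos (Real.pi * x) / Real.sin (Real.pi * x)

theorem lct_sin {x : ℝ} (h0 : 0 < x) (h1 : x ≤ 1 / 2) : 0 < Real.sin (Real.pi * x) := by
  have hpi := Real.pi_pos
  apply Real.sin_pos_of_pos_of_lt_pi
  · positivity
  · linarith only [hpi, mul_nonneg (sub_nonneg.2 h1) (sub_nonneg.2 hpi.le)]

theorem lct_deriv {x : ℝ} (h0 : 0 < x) (h1 : x ≤ 1 / 2) :
    HasDerivAt lct (-(Real.pi * (1 + lct x ^ 2))) x := by
  have hs := lct_sin h0 h1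
  have d0 : HasDerivAt (fun x : ℝ => Real.pi * x) Real.pi x := by
    simpa using (hasDerivAt_id' x).const_mul Real.pi
  have d1 : HasDerivAt (fun x : ℝ => Real.cos (Real.pi * x)) (-Real.sin (Real.pi * x) * Real.pi) x :=
    d0.cos
  have d2 : HasDerivAt (fun x : ℝ => Real.sin (Real.pi * x)) (Real.cos (Real.pi * x) * Real.pi) x :=
    d0.sin
  have d := d1.div d2 hs.ne'
  refine d.congr_deriv ?_
  unfold lct
  field_simp
  ring

theorem llog_deriv {x : ℝ} (h0 : 0 < x) (h1 : x ≤ 1 / 2) :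
    HasDerivAt (fun x : ℝ => Real.log (Real.sin (Real.pi * x))) (Real.pi * lct x) x := by
  have hs := lct_sin h0 h1
  have d0 : HasDerivAt (fun x : ℝ => Real.pi * x) Real.pi x := by
    simpa using (hasDerivAt_id' x).const_mul Real.pi
  have d2 : HasDerivAt (fun x : ℝ => Real.sin (Real.pi * x)) (Real.cos (Real.pi * x) * Real.pi) x :=
    d0.sin
  refine (d2.log hs.ne').congr_deriv ?_
  unfold lct
  ring

/-- The derivative of the gain, in terms of the cotangent. -/
theorem s1_deriv {x : ℝ} (h0 : 1 / 10 < x) (h1 : x < 1 / 2) :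
    ∃ d, HasDerivAt (fun x : ℝ => s1 (x : ℂ)) (-d) x ∧
      d = Real.log ((1 + Real.tan (Real.pi / 10) * lct x) /
        (1 - Real.tan (Real.pi / 10) * lct x)) ∧
      2 * (Real.tan (Real.pi / 10) * lct x) + 2 / 3 * (Real.tan (Real.pi / 10) * lct x) ^ 3 +
        2 / 5 * (Real.tan (Real.pi / 10) * lct x) ^ 5 ≤ d ∧
      0 < Real.tan (Real.pi / 10) * lct x ∧ Real.tan (Real.pi / 10) * lct x < 1 := by
  obtain ⟨q1, q2, q3⟩ := lx_quot h0 h1
  have d := s1_hasDerivAt h0 h1
  rw [q3] at d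
  exact ⟨_, d, rfl, lx_artanh q1.le q2, q1, q2⟩

/-- Lower bound of the gain. -/
theorem s1_ge {x : ℝ} (h0 : 1 / 10 < x) (h1 : x < 1 / 2) :
    2 * Real.tan (Real.pi / 10) / Real.pi * (-Real.log (Real.sin (Real.pi * x))) +
      2 / 3 * Real.tan (Real.pi / 10) ^ 3 / Real.pi *
        (lct x ^ 2 / 2 + Real.log (Real.sin (Real.pi * x))) ≤ s1 (x : ℂ) := by
  have hpi := Real.pi_pos
  set t := Real.tan (Real.pi / 10) with ht
  have t0 : 0 < t := lx_t0_pos
  have hd : ∀ y : ℝ, 0 < y → y ≤ 1 / 2 → HasDerivAt (fun x : ℝ =>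
      2 * t / Real.pi * (-Real.log (Real.sin (Real.pi * x))) +
      2 / 3 * t ^ 3 / Real.pi * (lct x ^ 2 / 2 + Real.log (Real.sin (Real.pi * x))))
      (-(2 * (t * lct y) + 2 / 3 * (t * lct y) ^ 3)) y := by
    intro y y0 y1
    have d1 := (llog_deriv y0 y1).neg.const_mul (2 * t / Real.pi)
    have d2 := ((((lct_deriv y0 y1).pow 2).div_const 2).add (llog_deriv y0 y1)).const_mul
      (2 / 3 * t ^ 3 / Real.pi)
    refine (d1.add d2).congr_deriv ?_
    push_cast
    field_simp
    ring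
  have key : AntitoneOn (fun y : ℝ => s1 (y : ℂ) -
      (2 * t / Real.pi * (-Real.log (Real.sin (Real.pi * y))) +
      2 / 3 * t ^ 3 / Real.pi * (lct y ^ 2 / 2 + Real.log (Real.sin (Real.pi * y)))))
      (Set.Icc x (1 / 2)) := by
    apply antitoneOn_of_deriv_nonpos (convex_Icc _ _)
    · intro y hy
      have c1 : Continuous fun y : ℝ => s1 (y : ℂ) := s1_continuous.comp continuous_ofReal
      exact (c1.continuousAt.sub
        (hd y (by linarith only [hy.1, h1, h0]) hy.2).continuousAt).continuousWithinAt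
    · rw [interior_Icc]
      intro y hy
      obtain ⟨d, e1, _, _, _, _⟩ := s1_deriv (x := y) (by linarith only [hy.1, h0]) hy.2
      exact (e1.sub (hd y (by linarith [hy.1, h0]) hy.2.le)).differentiableAt.differentiableWithinAt
    · rw [interior_Icc]
      intro y hy
      obtain ⟨d, e1, _, e3, e4, _⟩ := s1_deriv (x := y) (by linarith only [hy.1, h0]) hy.2
      have hh : HasDerivAt (fun y : ℝ => s1 (y : ℂ) -
        (2 * t / Real.pi * (-Real.log (Real.sin (Real.pi * y))) +
        2 / 3 * t ^ 3 / Real.pi * (lct y ^ 2 / 2 + Real.log (Real.sin (Real.pi * y)))))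
        (-d - -(2 * (t * lct y) + 2 / 3 * (t * lct y) ^ 3)) y :=
        e1.sub (hd y (by linarith [hy.1, e4, h0]) hy.2.le)
      rw [hh.deriv]
      have : 0 ≤ 2 / 5 * (t * lct y) ^ 5 := by positivity
      linarith only [this, e3]
  have k := key ⟨le_rfl, h1.le⟩ ⟨h1.le, le_rfl⟩ h1.le
  simp only [s1_half] at k
  have e1 : Real.sin (Real.pi * (1 / 2)) = 1 := by
    rw [mul_one_div, Real.sin_pi_div_two]
  have e2 : lct (1 / 2) = 0 := by
    unfold lct
    rw [mul_one_div, Real.cos_pi_div_two, zero_div]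
  rw [e1, e2, Real.log_one] at k
  norm_num at k
  linarith only [k]

theorem lct_quarter : lct (1 / 4) = 1 := by
  unfold lct
  rw [mul_one_div, Real.cos_pi_div_four, Real.sin_pi_div_four, div_self (by positivity)]

theorem lct_sixth : lct (1 / 6) = √3 := by
  unfold lct
  rw [mul_one_div, Real.cos_pi_div_six, Real.sin_pi_div_six]
  ring

theorem lct_anti {x y : ℝ} (h0 : 0 < x) (h1 : x ≤ y) (h2 : y ≤ 1 / 2) : lct y ≤ lct x := by
  have hpi := Real.pi_pos
  have key : AntitoneOn lct (Set.Icc x y) := by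
    apply antitoneOn_of_deriv_nonpos (convex_Icc _ _)
    · exact fun z hz => (lct_deriv (by linarith only [hz.1, h0]) (by linarith only [hz.2, h2])).continuousAt.continuousWithinAt
    · rw [interior_Icc]
      exact fun z hz => (lct_deriv (by linarith only [hz.1, h0]) (by linarith only [hz.2, h2])).differentiableAt.differentiableWithinAt
    · rw [interior_Icc]
      intro z hz
      rw [(lct_deriv (by linarith only [hz.1, h0]) (by linarith only [hz.2, h2])).deriv]
      have : 0 ≤ Real.pi * (1 + lct z ^ 2) := by positivity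
      linarith only [this]
  exact key ⟨le_rfl, h1⟩ ⟨h1, le_rfl⟩ h1

theorem s1_quarter : 72 / 1000 ≤ s1 ((1 / 4 : ℝ) : ℂ) := by
  have hpi := Real.pi_pos
  have h := s1_ge (x := 1 / 4) (by norm_num) (by norm_num)
  have t1 := lx_t0.1
  set t := Real.tan (Real.pi / 10) with ht
  have e : Real.log (Real.sin (Real.pi * (1 / 4))) = -(Real.log 2 / 2) := by
    rw [mul_one_div, Real.sin_pi_div_four, Real.log_div (by positivity) (by norm_num),
      Real.log_sqrt (by norm_num)]
    ring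
  rw [e, lct_quarter] at h
  have l1 := Real.log_two_gt_d9
  have l2 := Real.log_two_lt_d9
  have p1 := Real.pi_lt_d6
  norm_num at l1 l2 p1
  have k1 : 20677 / 100000 ≤ 2 * t / Real.pi := by
    rw [le_div_iff₀ hpi]
    linarith only [p1, l2, l1, t1]
  have k2 : 7 / 1000 ≤ 2 / 3 * t ^ 3 / Real.pi := by
    rw [le_div_iff₀ hpi]
    have : (3248 / 10000 : ℝ) ^ 3 ≤ t ^ 3 := pow_le_pow_left₀ (by norm_num) t1 3
    norm_num at this
    linarith only [this, p1, l2, l1]
  have k3 : 20677 / 100000 * (Real.log 2 / 2) ≤ 2 * t / Real.pi * (Real.log 2 / 2) :=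
    mul_le_mul_of_nonneg_right k1 (by linarith only [l1])
  have k4 : 7 / 1000 * (1 / 2 - Real.log 2 / 2) ≤ 2 / 3 * t ^ 3 / Real.pi *
      (1 / 2 - Real.log 2 / 2) := mul_le_mul_of_nonneg_right k2 (by linarith only [l2])
  rw [neg_neg, one_pow, ← sub_eq_add_neg] at h
  linarith only [k4, k3, l2, l1, h]

theorem s1_sixth : 149 / 1000 ≤ s1 ((1 / 6 : ℝ) : ℂ) := by
  have hpi := Real.pi_pos
  have h := s1_ge (x := 1 / 6) (by norm_num) (by norm_num)
  have t1 := lx_t0.1
  set t := Real.tan (Real.pi / 10) with ht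
  have e : Real.log (Real.sin (Real.pi * (1 / 6))) = -Real.log 2 := by
    rw [mul_one_div, Real.sin_pi_div_six, one_div, Real.log_inv]
  have e3 : √3 ^ 2 = (3 : ℝ) := Real.sq_sqrt (by norm_num)
  rw [e, lct_sixth, e3] at h
  have l1 := Real.log_two_gt_d9
  have l2 := Real.log_two_lt_d9
  have p1 := Real.pi_lt_d6
  norm_num at l1 l2 p1
  have k1 : 206774 / 1000000 ≤ 2 * t / Real.pi := by
    rw [le_div_iff₀ hpi]
    linarith only [p1, l2, l1, t1]
  have k2 : 727 / 100000 ≤ 2 / 3 * t ^ 3 / Real.pi := by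
    rw [le_div_iff₀ hpi]
    have : (3248 / 10000 : ℝ) ^ 3 ≤ t ^ 3 := pow_le_pow_left₀ (by norm_num) t1 3
    norm_num at this
    linarith only [this, p1, l2, l1]
  have k3 : 206774 / 1000000 * Real.log 2 ≤ 2 * t / Real.pi * Real.log 2 :=
    mul_le_mul_of_nonneg_right k1 (by linarith only [l1])
  have k4 : 727 / 100000 * (3 / 2 - Real.log 2) ≤ 2 / 3 * t ^ 3 / Real.pi *
      (3 / 2 - Real.log 2) := mul_le_mul_of_nonneg_right k2 (by linarith only [l2])
  rw [neg_neg, ← sub_eq_add_neg] at h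
  linarith only [k4, k3, l2, l1, h]

/-! ### Closed edges -/

namespace Cl

open Pool.Agent.H25.RK (gdv gdv_re_lt gdv_hasDerivAt)

variable {Φ : ℂ → ℂ} {θ : ℝ}

/-- The derivative of the potential along the real axis. -/
theorem lx_real_deriv (hΦ : IsPhi1 Φ) {s : ℝ} (hs : |s| < Real.pi / 2) :
    HasDerivAt (fun s : ℝ => Real.pi * (Φ ((s : ℂ) / (Real.pi : ℂ))).re)
      (-(igd (UU s 0)).re) s := by
  have hs' : ∀ᶠ x in nhds s, |x| < Real.pi / 2 := by
    have : IsOpen {x : ℝ | |x| < Real.pi / 2} := isOpen_lt continuous_abs continuous_const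
    exact this.mem_nhds hs
  have d1 : HasDerivAt (fun s : ℝ => igd (UU s 0)) (cosh (igd (UU s 0))) s := by
    have := HasDerivAt.scomp (g₁ := igd) (h := fun s : ℝ => UU s 0) s
      (hasDerivAt_igd (UU_re_lt hs)) (hasDerivAt_UU s 0)
    refine this.congr_deriv ?_
    rw [smul_eq_mul, one_mul]
  have hr : |(igd (UU s 0)).im| < Real.pi / 2 := igd_im_lt (UU_re_lt hs)
  have h1 := Phi_d hΦ (u := fun s => igd (UU s 0)) (s := s) hr d1
  have e : (fun s : ℝ => Real.pi * (Φ (gd (igd (UU s 0)) / (Real.pi : ℂ))).re) =ᶠ[nhds s]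
      fun s : ℝ => Real.pi * (Φ ((s : ℂ) / (Real.pi : ℂ))).re := by
    filter_upwards [hs'] with x hx
    rw [gd_igd (UU_re_lt hx), LowA_UU0]
  have h2 := h1.congr_of_eventuallyEq e.symm
  refine h2.congr_deriv ?_
  have hc := cosh_ne hr
  rw [div_self hc, mul_one]
  have e5 : 2 * qcl (igd (UU s 0)) = igd (UU s 0) + I * UU s 0 := by
    rw [qcl, gd_igd (UU_re_lt hs)]; ring
  rw [e5, neg_re, add_re, I_mul_re, UU_im]
  ring

/-- A lattice vertex at a closed edge. -/
theorem low2_C3 (hΦ : IsPhi1 Φ) {x : ℝ} (h0 : 1 / 10 ≤ x) (h1 : x ≤ 1 / 4) :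
    (Φ (x : ℂ)).re < (Φ ((1 / 4 : ℝ) : ℂ)).re + s1 (x : ℂ) := by
  have hpi := Real.pi_pos
  have pc : (Real.pi : ℂ) ≠ 0 := pi_ne
  have n1 : Real.arsinh 1 ≤ 8829 / 10000 := by
    have h := LowA_arsinh (x := Real.pi / 4) (by positivity) le_rfl
    rw [Real.tan_pi_div_four] at h
    have p1 := Real.pi_lt_d6
    have p3 : Real.pi ^ 3 ≤ 3.141593 ^ 3 := pow_le_pow_left₀ hpi.le p1.le 3
    have p5 : Real.pi ^ 5 ≤ 3.141593 ^ 5 := pow_le_pow_left₀ hpi.le p1.le 5
    rw [div_pow, div_pow] at h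
    norm_num at p1 p3 p5 h
    linarith only [h, p5, p3, p1]
  have hd : ∀ y : ℝ, 0 ≤ y → y ≤ 1 / 4 → HasDerivAt (fun y : ℝ => (Φ (y : ℂ)).re)
      (-(igd (UU (Real.pi * y) 0)).re) y := by
    intro y y0 y1
    have a : |Real.pi * y| < Real.pi / 2 := by
      rw [abs_of_nonneg (by positivity)]
      linarith only [hpi, mul_nonneg (sub_nonneg.2 hpi.le) (sub_nonneg.2 y1)]
    have d0 : HasDerivAt (fun x : ℝ => Real.pi * x) Real.pi y := by
      simpa using (hasDerivAt_id' y).const_mul Real.pi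
    have d1 := ((lx_real_deriv hΦ a).comp y d0).const_mul (1 / Real.pi)
    refine (d1.congr_of_eventuallyEq (Filter.Eventually.of_forall fun z => ?_)).congr_deriv ?_
    · simp only [Function.comp_apply]
      push_cast
      rw [mul_div_cancel_left₀ _ pc]
      field_simp
    · field_simp
  have key : MonotoneOn (fun y : ℝ => (Φ (y : ℂ)).re - s1 (y : ℂ) + 1 / 4 * y)
      (Set.Icc x (1 / 4)) := by
    have c1 : Continuous fun y : ℝ => s1 (y : ℂ) := s1_continuous.comp continuous_ofReal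
    apply monotoneOn_of_deriv_nonneg (convex_Icc _ _)
    · intro y hy
      exact (((hd y (by linarith only [hy.1, h0]) hy.2).continuousAt.sub c1.continuousAt).add
        (by fun_prop)).continuousWithinAt
    · rw [interior_Icc]
      intro y hy
      obtain ⟨d, e1, _, _, _, _⟩ := s1_deriv (x := y) (by linarith only [hy.1, h0]) (by linarith only [hy.2])
      exact (((hd y (by linarith [hy.1, h0]) hy.2.le).sub e1).add
        ((hasDerivAt_id' y).const_mul (1 / 4))).differentiableAt.differentiableWithinAt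
    · rw [interior_Icc]
      intro y hy
      obtain ⟨d, e1, _, e3, e4, _⟩ := s1_deriv (x := y) (by linarith only [hy.1, h0]) (by linarith only [hy.2])
      have hh : HasDerivAt (fun y : ℝ => (Φ (y : ℂ)).re - s1 (y : ℂ) + 1 / 4 * y)
          (-(igd (UU (Real.pi * y) 0)).re - -d + 1 / 4 * 1) y :=
        ((hd y (by linarith [hy.1, e4, h0]) hy.2.le).sub e1).add
          ((hasDerivAt_id' y).const_mul (1 / 4))
      rw [hh.deriv]
      have hct := lct_anti (x := y) (y := 1 / 4) (by linarith [hy.1, e4, h0]) hy.2.le (by norm_num)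
      rw [lct_quarter] at hct
      have t1 := lx_t0.1
      have t2 := mul_le_mul t1 hct zero_le_one (by linarith [t1, e4])
      have hy0 : 0 ≤ Real.pi * y := by
        have := hy.1
        have : 0 ≤ y := by linarith [this, e4, h0]
        positivity
      have hy1 : Real.pi * y ≤ Real.pi / 4 := by
        have := hy.2
        nlinarith
      have hA : (igd (UU (Real.pi * y) 0)).re ≤ Real.arsinh 1 := by
        have k := qq_re_le (igd (UU (Real.pi * y) 0)) 0
        have kk : qq (igd (UU (Real.pi * y) 0)) 0 = igd (UU (Real.pi * y) 0) := by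
          unfold qq
          rw [cosh_zero, div_one]
          exact (eq_arsh rfl (igd_im_lt (UU_re_lt (by
            rw [abs_of_nonneg hy0]; linarith only [hy1, hpi])))).symm
        have ke : ‖sinh (igd (UU (Real.pi * y) 0)) / cosh 0‖ = ‖Real.tan (Real.pi * y)‖ := by
          rw [sinh_igd, cosh_zero, div_one, LowA_UU0, ← ofReal_tan, Complex.norm_real]
        rw [kk, ke] at k
        refine k.trans (Real.arsinh_le_arsinh.2 ?_)
        have tp : Real.tan (Real.pi * y) ≤ Real.tan (Real.pi / 4) := by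
          rcases hy1.eq_or_lt with h | h
          · rw [h]
          · exact (Real.tan_lt_tan_of_lt_of_lt_pi_div_two (by linarith only [hy0, hpi]) (by linarith only [hpi]) h).le
        rw [Real.tan_pi_div_four] at tp
        rw [Real.norm_of_nonneg (Real.tan_nonneg_of_nonneg_of_le_pi_div_two hy0 (by linarith only [hy1,
                                                                                      hpi]))]
        exact tp
      have p3 : 0 ≤ (Real.tan (Real.pi / 10) * lct y) ^ 3 := by positivity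
      have p5 : 0 ≤ (Real.tan (Real.pi / 10) * lct y) ^ 5 := by positivity
      linarith only [p5, p3, hA, t2, e4, e3, n1]
  have k := key ⟨le_rfl, h1⟩ ⟨h1, le_rfl⟩ h1
  simp only at k
  have h4 := s1_quarter
  linarith only [h4, k, h0]

/-- Upwards. -/
theorem low2_C4 (hΦ : IsPhi1 Φ) (t0 : 0 < θ) (t1 : θ < Real.pi / 2) :
    (Φ ((1 / 4 : ℝ) : ℂ)).re + Real.pi / 4 * bl θ (1 / 4) ≤
      (Φ (((1 / 4 : ℝ) : ℂ) + (bl θ (1 / 4) : ℝ) * I)).re ∧ 0 < bl θ (1 / 4) := by
  have hpi := Real.pi_pos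
  have hb : 0 < bl θ (1 / 4) := by
    rw [bl]
    apply div_pos _ hpi
    rw [Real.arsinh_pos_iff]
    apply mul_pos (Real.tan_pos_of_pos_of_lt_pi_div_two t0 t1)
    rw [mul_one_div, Real.cos_pi_div_four]
    positivity
  have m := vert_mono hΦ LowA_quarter (a := 0) (b := Real.pi * bl θ (1 / 4)) (Set.mem_Ici.2 le_rfl)
    (Set.mem_Ici.2 (by positivity)) (by positivity)
  simp only [mul_zero, sub_zero] at m
  have g1 : UU (Real.pi / 4) (Real.pi * bl θ (1 / 4)) / (Real.pi : ℂ)
      = ((1 / 4 : ℝ) : ℂ) + (bl θ (1 / 4) : ℝ) * I := by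
    rw [UU]
    push_cast
    have := pi_ne
    field_simp
  have g0 : UU (Real.pi / 4) 0 / (Real.pi : ℂ) = ((1 / 4 : ℝ) : ℂ) := by
    rw [UU]
    push_cast
    have := pi_ne
    field_simp
    ring
  rw [g1, g0] at m
  refine ⟨?_, hb⟩
  apply le_of_mul_le_mul_left _ hpi
  linarith only [m]

/-- The weight of a vertex with two half twists at the test point. -/
theorem low2_C2 (hΦ : IsPhi1 Φ) (h0 : Φ 0 = Fc 0) (t0 : 0 < θ) (t1 : θ < Real.pi / 2)
    (t2 : 25 * Real.tan θ ^ 2 ≤ 16) :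
    Real.pi * bl θ (1 / 4) < (Φ (((1 / 4 : ℝ) : ℂ) + (bl θ (1 / 4) : ℝ) * I)).re := by
  have hpi := Real.pi_pos
  obtain ⟨k1, k2⟩ := low2_C4 hΦ t0 t1
  have k3 := Phi_zero_ge hΦ h0
  obtain ⟨x0, s0, a1, a2, a3, a4, a5, a6⟩ :=
    coord (v := ((1 / 4 : ℝ) : ℂ)) (by rw [ofReal_re]; exact quarter_lt)
  rw [ofReal_re] at a3 a5
  rw [ofReal_im, mul_zero] at a4
  have hx0 : 0 ≤ x0 := a5 (by norm_num)
  have ht0 : s0 = 0 := by
    have c := curve (x := x0) a1
    rw [a4, Real.sinh_zero, zero_mul] at c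
    have h2 := cos_Ra_pos (x := x0) a1
    have h3 : Real.sin s0 = 0 := by
      rcases mul_eq_zero.1 c.symm with h | h
      · exact h
      · exact absurd h h2.ne'
    have h4 := abs_lt.1 a1
    exact (Real.sin_eq_zero_iff_of_lt_of_lt (by linarith only [h4.1, t1, t0]) (by linarith only [h4.2,
                                                                                    t1, t0])).1 h3
  subst ht0
  have hq := VV_quarter hΦ hx0 (by rw [a3]; ring)
  have g2' : gd (UU x0 0) = UU (Real.pi / 4) 0 := by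
    rw [gd_eta, a3, a4, show Real.pi * (1 / 4) = Real.pi / 4 by ring]; rfl
  have g0 : UU (Real.pi / 4) 0 / (Real.pi : ℂ) = ((1 / 4 : ℝ) : ℂ) := by
    rw [UU]
    push_cast
    have := pi_ne
    field_simp
    ring
  have hV : VV Φ x0 0 = Real.pi * (Φ ((1 / 4 : ℝ) : ℂ)).re := by
    rw [VV, g2', a4, mul_zero, sub_zero, g0]
  rw [VV_zero, hV] at hq
  have hs : Real.sinh (Real.pi * bl θ (1 / 4)) ≤ 566 / 1000 := by
    rw [LowA_sinh]
    have h2 : √2 ≤ (1.415 : ℝ) := by
      rw [Real.sqrt_le_left (by norm_num)]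
      norm_num
    have h3 : Real.tan θ ≤ 8 / 10 := by
      apply le_of_sq_le_sq _ (by norm_num)
      linarith only [t2]
    have h4 : 0 ≤ Real.tan θ := (Real.tan_pos_of_pos_of_lt_pi_div_two t0 t1).le
    calc Real.tan θ * (√2 / 2) ≤ 8 / 10 * (1.415 / 2) :=
          mul_le_mul h3 (by linarith only [h2]) (by positivity) (by norm_num)
      _ ≤ _ := by norm_num
  have h5 : Real.pi * bl θ (1 / 4) ≤ 566 / 1000 :=
    (Real.self_le_sinh_iff.2 (by positivity)).trans hs
  have p1 := Real.pi_lt_d4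
  norm_num at p1
  apply lt_of_mul_lt_mul_left _ hpi.le
  have h6 : 3 * Real.pi / 4 * (Real.pi * bl θ (1 / 4)) ≤ 3 * Real.pi / 4 * (566 / 1000) :=
    mul_le_mul_of_nonneg_left h5 (by positivity)
  have k4 := mul_le_mul_of_nonneg_left k1 hpi.le
  linarith only [k4, h6, p1, hq, k3]

end Cl

end Pool.Agent.S3
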