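import Pool.Agent.S3.Cl.LowC2
import Pool.Agent.S3.Cl.LowR
import Pool.Agent.S3.LL6
import Pool.Agent.S3.LX4
import Pool.Agent.S3.T.RngT

/-!
# The small indices with lattice sums: the edges with a closed end
-/

set_option autoImplicit false

namespace Pool.Agent.S3.T2

open Pool.Agent.H63.VC hiding ext
open Pool.Agent.H63.VC3 Pool.Agent.H63.VC4 Pool.Agent.H63.VC6 Pool.Agent.H63.VC7 Complex
open Pool.Agent.S3.E
open Pool.Agent.H25.RK Pool.Agent.H63.GO Filter Topology MeasureTheory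
open scoped BigOperators

variable {m : ℕ}

section

variable {a : Fin (m + 1) → ℕ} {σ : Fin (m + 1) → ℤ} {z : Fin (m + 1) → ℂ} {Φ1 : ℂ → ℂ}

/-- The base point of a real point at a closed edge. -/
theorem cl_base (hΦ : IsPhi1 Φ1) {θ : ℝ} (t0 : 0 < θ) (t1 : θ < Real.pi / 2) {x : ℝ}
    (hx : 1 / 10 ≤ |x|) (hx' : |x| ≤ 1 / 2) : ∃ x0 : ℝ, 0 ≤ x0 ∧ x0 ≤ 1 / 4 ∧ x0 ≤ |x| ∧
    (Φ1 (x0 : ℂ)).re < (Φ1 (Cl.tp1 θ)).re + s1 (x : ℂ) := by
  obtain ⟨k1, k2⟩ := Cl.low2_C4 hΦ t0 t1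
  have k3 : (Φ1 ((1 / 4 : ℝ) : ℂ)).re < (Φ1 (Cl.tp1 θ)).re := by
    have : 0 < Real.pi / 4 * bl θ (1 / 4) := mul_pos (by positivity) k2
    have k4 : (Φ1 ((1 / 4 : ℝ) : ℂ)).re + Real.pi / 4 * bl θ (1 / 4) ≤
      (Φ1 (Cl.tp1 θ)).re := k1
    linarith
  rcases le_total |x| (1 / 4) with h | h
  · refine ⟨|x|, abs_nonneg _, h, le_rfl, ?_⟩
    have := Cl.low2_C3 hΦ hx h
    rw [s1_even]
    linarith
  · refine ⟨1 / 4, by norm_num, le_rfl, h, ?_⟩
    have := s1_nonneg hx'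
    linarith

/-- The test point of a neighbour of a closed end. -/
theorem cl_bad (hΦ : IsPhi1 Φ1) (h01 : Φ1 0 = Cl.Fc 0)
    (h : Zr (fun i => (a i : ℝ)) chL chR 1 z) (ha : ∀ i, 2 ≤ a i) {i k : Fin (m + 1)}
    (hik : chL i = some k ∨ chR i = some k) (hi : ¬ clo a i) (hk : clo a k) :
    gC a i + rC2 a z i < (Φ1 (Cl.tp1 (th (z i).re (z i).im))).re := by
  have hpi := Real.pi_pos
  have hth := h.thpos i
  have hlt := (abs_lt.1 (abs_th_lt (h.pos i).1 (h.pos i).2.1 (h.pos i).2.2)).2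
  unfold gC rC2
  by_cases h3 : a i = 2
  · rw [if_pos h3, if_pos h3, zero_add]
    refine Cl.low2_C2 hΦ h01 hth hlt ?_
    have k1 := Cl.sin_th_end2 h (T.isEnd2_of_clo hik hk)
      (show ((a i : ℕ) : ℝ) = 2 by rw [h3]; norm_num) (Cl.inner_of hi h3)
    have c0 : 0 < Real.cos (th (z i).re (z i).im) :=
      Real.cos_pos_of_mem_Ioo ⟨by linarith, hlt⟩
    have k2 := Real.sin_sq_add_cos_sq (th (z i).re (z i).im)
    rw [Real.tan_eq_sin_div_cos, div_pow, mul_div_assoc', div_le_iff₀ (by positivity)]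
    nlinarith
  · rw [if_neg h3, if_neg h3]
    have h4 : 3 ≤ a i := by have := ha i; omega
    have hT : Pool.Agent.S3.Ht (th (z i).re (z i).im) :=
      Pool.Agent.S3.Ht_of hth (h.th3_le (T.cast3 h4))
    have k1 := Cl.low_C2 hΦ h01 hT
    have k2 : 6 / 25 + Real.pi / 2 * bl (th (z i).re (z i).im) (1 / 4) <
      (Φ1 (Cl.tp1 (th (z i).re (z i).im))).re := k1
    linarith

/-- **The edges with a closed end.** -/
theorem clLow_of (h : Zr (fun i => (a i : ℝ)) chL chR 1 z) (ha : ∀ i, 2 ≤ a i)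
    (hσ : ∀ i, σ i = 1 ∨ σ i = -1) (hs : ∀ j : Fin m, σ j.succ = -σ j.castSucc)
    (h2 : ∀ j : Fin m, ¬ (clo a j.castSucc ∧ clo a j.succ)) {j : Fin m}
    (hc : clo a j.castSucc ∨ clo a j.succ) : ClLow a σ z j := by
  obtain ⟨Φ1, hΦ1, h01⟩ := Cl.exists_Phi1 (Cl.Fc 0)
  have lt : ∀ i : Fin (m + 1), th (z i).re (z i).im < Real.pi / 2 := fun i =>
    (abs_lt.1 (abs_th_lt (h.pos i).1 (h.pos i).2.1 (h.pos i).2.2)).2
  have g0 := gC_nonneg a
  by_cases c1 : clo a j.castSucc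
  · have c2 : ¬ clo a j.succ := fun c2 => h2 j ⟨c1, c2⟩
    have k2 := Cl.low_right' hΦ1 h01 h ha hσ hs h2 c1 (tC σ z j.castSucc)
    have k3 : (Φ1 (Cl.tp1 (th (z j.succ).re (z j.succ).im))).re ≤
      (cfgOf a σ z).Lt j (tC σ z j.castSucc) (tC σ z j.succ) := k2
    refine ⟨?_, fun _ x hx hx' => ?_, fun c => absurd c c2⟩
    · have k1 := cl_bad hΦ1 h01 h ha (Or.inl (chL_succ j)) c2 c1
      have e1 : (cfgOf a σ z).cr2 (gC a) (rC2 a z) j.succ = gC a j.succ + rC2 a z j.succ := by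
        unfold Cfg.cr2; rw [if_pos (mem_Op.2 c2)]
      have e2 : (cfgOf a σ z).cr2 (gC a) (rC2 a z) j.castSucc = 0 := by
        unfold Cfg.cr2; rw [if_neg (fun hh => mem_Op.1 hh c1)]
      rw [e1, e2, zero_add]
      exact k1.trans_le k3
    · obtain ⟨x0, a1, a2, a3, a4⟩ := cl_base hΦ1 (h.thpos j.succ) (lt _) hx hx'
      refine Cl.real_C hΦ1 h01 (hσ _) a1 a2 a3 hx' ?_
      unfold Cfg.Lt at k3
      rw [Cl.lv_cl c1] at k3
      have := g0 j.succ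
      linarith
  · have c2 : clo a j.succ := hc.resolve_left c1
    have k2 := Cl.low_left' hΦ1 h01 h ha hσ hs h2 c2 (tC σ z j.succ)
    have k3 : (Φ1 (Cl.tp1 (th (z j.castSucc).re (z j.castSucc).im))).re ≤
      (cfgOf a σ z).Lt j (tC σ z j.castSucc) (tC σ z j.succ) := k2
    refine ⟨?_, fun c => absurd c c1, fun _ x hx hx' => ?_⟩
    · have k1 := cl_bad hΦ1 h01 h ha (Or.inr (chR_castSucc j)) c1 c2
      have e1 : (cfgOf a σ z).cr2 (gC a) (rC2 a z) j.castSucc =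
          gC a j.castSucc + rC2 a z j.castSucc := by
        unfold Cfg.cr2; rw [if_pos (mem_Op.2 c1)]
      have e2 : (cfgOf a σ z).cr2 (gC a) (rC2 a z) j.succ = 0 := by
        unfold Cfg.cr2; rw [if_neg (fun hh => mem_Op.1 hh c2)]
      rw [e1, e2, add_zero]
      exact k1.trans_le k3
    · obtain ⟨x0, a1, a2, a3, a4⟩ := cl_base hΦ1 (h.thpos j.castSucc) (lt _) hx hx'
      refine Cl.real_C hΦ1 h01 (hσ _) a1 a2 a3 hx' ?_
      unfold Cfg.Lt at k3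
      rw [Cl.lv_cl c2] at k3
      have := g0 j.castSucc
      linarith

end

end Pool.Agent.S3.T2
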