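import Pool.Agent.S3.LX10

/-!
# Small indices, inner vertices with two half twists: the base point of a lattice vertex

**`lat_base`**: a real point `x`, `1/10 ≤ |x| ≤ 1/2`, against a point `w` of the contour of an inner
vertex with two half twists: after moving `x` to the left and `w` to the left there is a flat, and
the growth at the critical point is less than the bound.
-/

set_option autoImplicit false

namespace Pool.Agent.S3

open Complex

section

variable {Φ : ℂ → ℂ → ℂ} {θ θ' x : ℝ} {v w : ℂ}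

theorem lx_u_hi (h0 : 0 ≤ x) {y c : ℝ} (h1 : x ≤ y) (hy : y ≤ 1 / 2)
    (hc : 1 - c ≤ Real.cos (Real.pi * y) ^ 2) : Real.sin (Real.pi * x) ^ 2 ≤ c := by
  have h2 := lx_cs_anti h0 h1 hy
  have h3 := Real.sin_sq_add_cos_sq (Real.pi * x)
  linarith only [h3, h2, hc]

theorem lx_u_lo {y c : ℝ} (h0 : 0 ≤ y) (h1 : y ≤ x) (hy : x ≤ 1 / 2)
    (hc : Real.cos (Real.pi * y) ^ 2 ≤ 1 - c) : c ≤ Real.sin (Real.pi * x) ^ 2 := by
  have h2 := lx_cs_anti h0 h1 hy
  have h3 := Real.sin_sq_add_cos_sq (Real.pi * x)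
  linarith only [h3, h2, hc]

/-- The point `w` is on the left of `A`, or it is shifted to `A`. -/
theorem lx_goal (hΦ : IsPhi Φ) (h : Wq θ' w) (ht' : Real.tan θ' < 1) (h0 : 1 / 3 ≤ θ)
    (hS : θ + θ' < Real.pi / 2) {A p0 κ0 : ℝ} (hA : 0 ≤ A) (hA3 : A ≤ 19 / 50)
    (x0 : 1 / 10 ≤ x) (x1 : x ≤ 1 / 4)
    (hp0 : Real.cos (Real.pi * x) ^ 2 ≤ p0) (hκ0 : 0 < κ0)
    (hκ : κ0 ≤ Real.cos (Real.pi * A) ^ 2)
    (hP0 : 0 ≤ κ0 - (1 - 2 * κ0) * Real.sinh (Real.pi * w.im) ^ 2)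
    (hF : FF p0 (κ0 + Real.sinh (Real.pi * w.im) ^ 2)
      (κ0 - (1 - 2 * κ0) * Real.sinh (Real.pi * w.im) ^ 2))
    (hr : A < w.re → (Φ (x : ℂ) ((starRingEnd ℂ) (⟨A, w.im⟩ : ℂ))).re <
      (Φ (tp θ) ((starRingEnd ℂ) w)).re + s1 (x : ℂ)) :
    ∃ w' : ℂ, w'.im = w.im ∧ 0 ≤ w'.re ∧ w'.re ≤ w.re ∧ w'.re ≤ 19 / 50 ∧
      FlatUV (1 / cos (Real.pi * (x : ℂ)) ^ 2) (1 / cos (Real.pi * (starRingEnd ℂ) w') ^ 2) ∧
      (Φ (x : ℂ) ((starRingEnd ℂ) w')).re < (Φ (tp θ) ((starRingEnd ℂ) w)).re + s1 (x : ℂ) := by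
  have hT := h.sinh_lt ht'
  rcases le_or_gt w.re A with h1 | h1
  · refine ⟨w, rfl, h.re0, le_rfl, h1.trans hA3, ?_, ?_⟩
    · exact flatUV_T (by linarith only [x0]) (by linarith only [x1]) hT hp0 hκ0
        (hκ.trans (lx_cs_anti h.re0 h1 (by linarith only [hA3])))
        (Or.inl x1) hP0 hF
    · have := low2_A3b hΦ h h0 hS x0 x1
      linarith only [this]
  · refine ⟨⟨A, w.im⟩, rfl, hA, h1.le, hA3, ?_, hr h1⟩
    exact flatUV_T (by linarith only [x0]) (by linarith only [x1])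
      (hT.trans_le (lx_cs_anti hA h1.le (by linarith only [h.re1]))) hp0 hκ0 hκ (Or.inl x1) hP0 hF

theorem lx_L1 (hΦ : IsPhi Φ) (h : Wq θ' w) (ht' : Real.tan θ' < 1) (h0 : 1 / 3 ≤ θ)
    (hS : θ + θ' < Real.pi / 2) (ht : Real.tan θ ≤ 1) (hw : 7 / 20 < w.re) (x0 : 1 / 10 ≤ x) (x1 : x ≤ 15 / 100)
    (hTa : 0 ≤ Real.sinh (Real.pi * w.im) ^ 2)
    (hTb : Real.sinh (Real.pi * w.im) ^ 2 ≤ 9 / 250) :
    ∃ w' : ℂ, w'.im = w.im ∧ 0 ≤ w'.re ∧ w'.re ≤ w.re ∧ w'.re ≤ 19 / 50 ∧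
      FlatUV (1 / cos (Real.pi * (x : ℂ)) ^ 2) (1 / cos (Real.pi * (starRingEnd ℂ) w') ^ 2) ∧
      (Φ (x : ℂ) ((starRingEnd ℂ) w')).re < (Φ (tp θ) ((starRingEnd ℂ) w)).re + s1 (x : ℂ) := by
  have hT := h.sinh_lt ht'
  have cA : 17527 / 100000 ≤ Real.cos (Real.pi * (29 / 80)) ^ 2 :=
    lx_cs_lo (y := 3141593 / 1000000 * (2 * (29 / 80) - 1 / 2)) (by norm_num) (by norm_num) (by norm_num) (by norm_num) (by norm_num)
  have cA' : Real.cos (Real.pi * (29 / 80)) ^ 2 ≤ 2191 / 12500 :=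
    lx_cs_hi (y := 3141592 / 1000000 * (2 * (29 / 80) - 1 / 2)) (by norm_num) (by norm_num) (by norm_num) (by norm_num)
  have ca1 : 6509 / 50000 ≤ Real.cos (Real.pi * (153 / 400)) ^ 2 :=
    lx_cs_lo (y := 3141593 / 1000000 * (2 * (153 / 400) - 1 / 2)) (by norm_num) (by norm_num) (by norm_num) (by norm_num) (by norm_num)
  have hw2 : w.re ≤ 2 / 5 := h.re1
  have cw : 9549 / 100000 ≤ Real.cos (Real.pi * w.re) ^ 2 :=
    lx_k4.trans (lx_cs_anti h.re0 h.re1 (by norm_num))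
  refine lx_goal hΦ h ht' h0 hS (A := 29 / 80) (by norm_num) (by norm_num) x0 (by linarith only [x1])
    ((lx_cs_anti (by norm_num) x0 (by linarith only [x1])).trans lx_cs_1) (by norm_num) cA
    (by linarith only [hTb]) (ff_L1 hTa hTb) fun hA => ?_
  have lg1 : Real.log (20611 / 100000) ≤ -(15793 / 10000) :=
    lx_log_neg (z := 15793 / 40000) (by norm_num) (by norm_num) (by norm_num)
      (by norm_num) (by norm_num)
  have lg2 : Real.log (2 * (1 - 20611 / 100000)) ≤ 289 / 625 :=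
    lx_log_pos (by norm_num) (by norm_num) (by norm_num)
  have hv := lx_V (K := 4597 / 10000) (v := 8153 / 25000) (ua := 95491 / 1000000) (ub := 20611 / 100000) x0 (by linarith only [x1]) (lx_u_lo (y := 1 / 10) (by norm_num) x0 (by linarith only [x1]) (by linarith only [lx_cs_1]))
    (lx_u_hi (y := 15 / 100) (by linarith only [x0]) x1 (by norm_num) (by linarith only [lx_cs_15.1])) (by norm_num) (by norm_num) lg1 lg2 (by norm_num) (by norm_num) (by norm_num)
  exact lx_rect hΦ h h0 hS ht (a1 := 153 / 400) (B1 := 13639 / 10000) (B2 := 15199 / 10000) (z := 0)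
    (by norm_num) hA.le hw2
    (by norm_num) (by norm_num) (by norm_num) (by norm_num) hTa ca1 cw (by norm_num) (by norm_num)
    (by norm_num) (by norm_num) (by norm_num) (by norm_num) (by norm_num) (by norm_num)
    (by norm_num) (le_trans (by linarith only [cA', hTb]) (show 21132409 / 100000000 ≤ (4597 / 10000) ^ 2 by norm_num)) (by norm_num) (by norm_num) x0 (by linarith only [x1]) hv (by norm_num)

theorem lx_L2 (hΦ : IsPhi Φ) (h : Wq θ' w) (ht' : Real.tan θ' < 1) (h0 : 1 / 3 ≤ θ)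
    (hS : θ + θ' < Real.pi / 2) (ht : Real.tan θ ≤ 1) (hw : 7 / 20 < w.re) (x0 : 1 / 10 ≤ x) (x1 : x ≤ 15 / 100)
    (hTa : 9 / 250 ≤ Real.sinh (Real.pi * w.im) ^ 2)
    (hTb : Real.sinh (Real.pi * w.im) ^ 2 ≤ 99 / 1000) :
    ∃ w' : ℂ, w'.im = w.im ∧ 0 ≤ w'.re ∧ w'.re ≤ w.re ∧ w'.re ≤ 19 / 50 ∧
      FlatUV (1 / cos (Real.pi * (x : ℂ)) ^ 2) (1 / cos (Real.pi * (starRingEnd ℂ) w') ^ 2) ∧
      (Φ (x : ℂ) ((starRingEnd ℂ) w')).re < (Φ (tp θ) ((starRingEnd ℂ) w)).re + s1 (x : ℂ) := by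
  have hT := h.sinh_lt ht'
  have cA : 9677 / 50000 ≤ Real.cos (Real.pi * (71 / 200)) ^ 2 :=
    lx_cs_lo (y := 3141593 / 1000000 * (2 * (71 / 200) - 1 / 2)) (by norm_num) (by norm_num) (by norm_num) (by norm_num) (by norm_num)
  have cA' : Real.cos (Real.pi * (71 / 200)) ^ 2 ≤ 3871 / 20000 :=
    lx_cs_hi (y := 3141592 / 1000000 * (2 * (71 / 200) - 1 / 2)) (by norm_num) (by norm_num) (by norm_num) (by norm_num)
  have ca1 : 14093 / 100000 ≤ Real.cos (Real.pi * (151 / 400)) ^ 2 :=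
    lx_cs_lo (y := 3141593 / 1000000 * (2 * (151 / 400) - 1 / 2)) (by norm_num) (by norm_num) (by norm_num) (by norm_num) (by norm_num)
  have hw2 : w.re ≤ 2 / 5 := h.re1
  have cw : 9549 / 100000 ≤ Real.cos (Real.pi * w.re) ^ 2 :=
    lx_k4.trans (lx_cs_anti h.re0 h.re1 (by norm_num))
  refine lx_goal hΦ h ht' h0 hS (A := 71 / 200) (by norm_num) (by norm_num) x0 (by linarith only [x1])
    ((lx_cs_anti (by norm_num) x0 (by linarith only [x1])).trans lx_cs_1) (by norm_num) cA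
    (by linarith only [hTb]) (ff_L2 hTa hTb) fun hA => ?_
  have lg1 : Real.log (20611 / 100000) ≤ -(15793 / 10000) :=
    lx_log_neg (z := 15793 / 40000) (by norm_num) (by norm_num) (by norm_num)
      (by norm_num) (by norm_num)
  have lg2 : Real.log (2 * (1 - 20611 / 100000)) ≤ 289 / 625 :=
    lx_log_pos (by norm_num) (by norm_num) (by norm_num)
  have hv := lx_V (K := 5409 / 10000) (v := 14429 / 50000) (ua := 95491 / 1000000) (ub := 20611 / 100000) x0 (by linarith only [x1]) (lx_u_lo (y := 1 / 10) (by norm_num) x0 (by linarith only [x1]) (by linarith only [lx_cs_1]))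
    (lx_u_hi (y := 15 / 100) (by linarith only [x0]) x1 (by norm_num) (by linarith only [lx_cs_15.1])) (by norm_num) (by norm_num) lg1 lg2 (by norm_num) (by norm_num) (by norm_num)
  exact lx_rect hΦ h h0 hS ht (a1 := 151 / 400) (B1 := 311 / 250) (B2 := 13939 / 10000) (z := 379 / 2500)
    (by norm_num) hA.le hw2
    (by norm_num) (by norm_num) (by norm_num) (by norm_num) hTa ca1 cw (by norm_num) (by norm_num)
    (by norm_num) (by norm_num) (by norm_num) (by norm_num) (by norm_num) (by norm_num)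
    (by norm_num) (le_trans (by linarith only [cA', hTb]) (show 29257281 / 100000000 ≤ (5409 / 10000) ^ 2 by norm_num)) (by norm_num) (by norm_num) x0 (by linarith only [x1]) hv (by norm_num)

theorem lx_L3 (hΦ : IsPhi Φ) (h : Wq θ' w) (ht' : Real.tan θ' < 1) (h0 : 1 / 3 ≤ θ)
    (hS : θ + θ' < Real.pi / 2) (ht : Real.tan θ ≤ 1) (hw : 7 / 20 < w.re) (x0 : 1 / 10 ≤ x) (x1 : x ≤ 15 / 100)
    (hTa : 99 / 1000 ≤ Real.sinh (Real.pi * w.im) ^ 2)
    (hTb : Real.sinh (Real.pi * w.im) ^ 2 ≤ 20611 / 100000) :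
    ∃ w' : ℂ, w'.im = w.im ∧ 0 ≤ w'.re ∧ w'.re ≤ w.re ∧ w'.re ≤ 19 / 50 ∧
      FlatUV (1 / cos (Real.pi * (x : ℂ)) ^ 2) (1 / cos (Real.pi * (starRingEnd ℂ) w') ^ 2) ∧
      (Φ (x : ℂ) ((starRingEnd ℂ) w')).re < (Φ (tp θ) ((starRingEnd ℂ) w)).re + s1 (x : ℂ) := by
  have hT := h.sinh_lt ht'
  have cA : 206107 / 1000000 ≤ Real.cos (Real.pi * (7 / 20)) ^ 2 :=
    lx_cs_lo (y := 3141593 / 1000000 * (2 * (7 / 20) - 1 / 2)) (by norm_num) (by norm_num) (by norm_num) (by norm_num) (by norm_num)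
  have cA' : Real.cos (Real.pi * (7 / 20)) ^ 2 ≤ 20611 / 100000 :=
    lx_cs_hi (y := 3141592 / 1000000 * (2 * (7 / 20) - 1 / 2)) (by norm_num) (by norm_num) (by norm_num) (by norm_num)
  have ca1 : 3661 / 25000 ≤ Real.cos (Real.pi * (3 / 8)) ^ 2 :=
    lx_cs_lo (y := 3141593 / 1000000 * (2 * (3 / 8) - 1 / 2)) (by norm_num) (by norm_num) (by norm_num) (by norm_num) (by norm_num)
  have ca2 : Real.cos (Real.pi * (3983 / 10000)) ^ 2 ≤ 99 / 1000 :=
    lx_cs_hi (y := 3141592 / 1000000 * (2 * (3983 / 10000) - 1 / 2)) (by norm_num) (by norm_num) (by norm_num) (by norm_num)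
  have hw2 : w.re ≤ 3983 / 10000 := by
    by_contra hn
    push Not at hn
    have := lx_cs_anti (by norm_num) hn.le (by linarith only [h.re1])
    linarith only [this, ca2, hT, hTa]
  have cw : 99 / 1000 ≤ Real.cos (Real.pi * w.re) ^ 2 := by linarith only [hT, hTa]
  refine lx_goal hΦ h ht' h0 hS (A := 7 / 20) (by norm_num) (by norm_num) x0 (by linarith only [x1])
    ((lx_cs_anti (by norm_num) x0 (by linarith only [x1])).trans lx_cs_1) (by norm_num) cA
    (by linarith only [hTb]) (ff_L3 (by linarith only [hTa]) hTb) fun hA => ?_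
  have hTc := hT.trans_le (lx_cs_anti (by norm_num) hA.le (by linarith only [hw2]))
  have lg1 : Real.log (20611 / 100000) ≤ -(15793 / 10000) :=
    lx_log_neg (z := 15793 / 40000) (by norm_num) (by norm_num) (by norm_num)
      (by norm_num) (by norm_num)
  have lg2 : Real.log (2 * (1 - 20611 / 100000)) ≤ 289 / 625 :=
    lx_log_pos (by norm_num) (by norm_num) (by norm_num)
  have hv := lx_V (K := 3211 / 5000) (v := 12087 / 50000) (ua := 95491 / 1000000) (ub := 20611 / 100000) x0 (by linarith only [x1]) (lx_u_lo (y := 1 / 10) (by norm_num) x0 (by linarith only [x1]) (by linarith only [lx_cs_1]))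
    (lx_u_hi (y := 15 / 100) (by linarith only [x0]) x1 (by norm_num) (by linarith only [lx_cs_15.1])) (by norm_num) (by norm_num) lg1 lg2 (by norm_num) (by norm_num) (by norm_num)
  exact lx_rect hΦ h h0 hS ht (a1 := 3 / 8) (B1 := 567 / 500) (B2 := 12433 / 10000) (z := 2453 / 10000)
    (by norm_num) hA.le hw2
    (by norm_num) (by norm_num) (by norm_num) (by norm_num) hTa ca1 cw (by norm_num) (by norm_num)
    (by norm_num) (by norm_num) (by norm_num) (by norm_num) (by norm_num) (by norm_num)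
    (by norm_num) (le_trans (by linarith only [cA', hTb]) (show 10310521 / 25000000 ≤ (3211 / 5000) ^ 2 by norm_num)) (by norm_num) (by norm_num) x0 (by linarith only [x1]) hv (by norm_num)

theorem lx_R1 (hΦ : IsPhi Φ) (h : Wq θ' w) (ht' : Real.tan θ' < 1) (h0 : 1 / 3 ≤ θ)
    (hS : θ + θ' < Real.pi / 2) (ht : Real.tan θ ≤ 1) (hw : 7 / 20 < w.re) (x0 : 15 / 100 ≤ x) (x1 : x ≤ 1 / 4)
    (hTa : 0 ≤ Real.sinh (Real.pi * w.im) ^ 2)
    (hTb : Real.sinh (Real.pi * w.im) ^ 2 ≤ 9 / 500) :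
    ∃ w' : ℂ, w'.im = w.im ∧ 0 ≤ w'.re ∧ w'.re ≤ w.re ∧ w'.re ≤ 19 / 50 ∧
      FlatUV (1 / cos (Real.pi * (x : ℂ)) ^ 2) (1 / cos (Real.pi * (starRingEnd ℂ) w') ^ 2) ∧
      (Φ (x : ℂ) ((starRingEnd ℂ) w')).re < (Φ (tp θ) ((starRingEnd ℂ) w)).re + s1 (x : ℂ) := by
  have hT := h.sinh_lt ht'
  have cA : 3661 / 25000 ≤ Real.cos (Real.pi * (3 / 8)) ^ 2 :=
    lx_cs_lo (y := 3141593 / 1000000 * (2 * (3 / 8) - 1 / 2)) (by norm_num) (by norm_num) (by norm_num) (by norm_num) (by norm_num)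
  have cA' : Real.cos (Real.pi * (3 / 8)) ^ 2 ≤ 2929 / 20000 :=
    lx_cs_hi (y := 3141592 / 1000000 * (2 * (3 / 8) - 1 / 2)) (by norm_num) (by norm_num) (by norm_num) (by norm_num)
  have ca1 : 11979 / 100000 ≤ Real.cos (Real.pi * (31 / 80)) ^ 2 :=
    lx_cs_lo (y := 3141593 / 1000000 * (2 * (31 / 80) - 1 / 2)) (by norm_num) (by norm_num) (by norm_num) (by norm_num) (by norm_num)
  have hw2 : w.re ≤ 2 / 5 := h.re1
  have cw : 9549 / 100000 ≤ Real.cos (Real.pi * w.re) ^ 2 :=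
    lx_k4.trans (lx_cs_anti h.re0 h.re1 (by norm_num))
  refine lx_goal hΦ h ht' h0 hS (A := 3 / 8) (by norm_num) (by norm_num) (by linarith only [x0]) x1
    ((lx_cs_anti (by norm_num) x0 (by linarith only [x1])).trans lx_cs_15.2) (by norm_num) cA
    (by linarith only [hTb]) (ff_R1 hTa hTb) fun hA => ?_
  have lg1 : Real.log (1137 / 2500) ≤ -(3939 / 5000) :=
    lx_log_neg (z := 3939 / 20000) (by norm_num) (by norm_num) (by norm_num)
      (by norm_num) (by norm_num)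
  have lg2 : Real.log (2 * (1 - 1137 / 2500)) ≤ 433 / 5000 :=
    lx_log_pos (by norm_num) (by norm_num) (by norm_num)
  have hv := lx_V (K := 507 / 1250) (v := 11267 / 50000) (ua := 206107 / 1000000) (ub := 1 / 2) (by linarith only [x0]) x1 (lx_u_lo (y := 15 / 100) (by norm_num) x0 (by linarith only [x1]) (by linarith only [lx_cs_15.2]))
    (lx_u_hi (y := 1 / 4) (by linarith only [x0]) x1 (by norm_num) (by linarith only [lx_cs_4])) (by norm_num) (by norm_num) lg1 lg2 (by norm_num) (by norm_num) (by norm_num)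
  exact lx_rect hΦ h h0 hS ht (a1 := 31 / 80) (B1 := 14059 / 10000) (B2 := 15199 / 10000) (z := 0)
    (by norm_num) hA.le hw2
    (by norm_num) (by norm_num) (by norm_num) (by norm_num) hTa ca1 cw (by norm_num) (by norm_num)
    (by norm_num) (by norm_num) (by norm_num) (by norm_num) (by norm_num) (by norm_num)
    (by norm_num) (le_trans (by linarith only [cA', hTb]) (show 257049 / 1562500 ≤ (507 / 1250) ^ 2 by norm_num)) (by norm_num) (by norm_num) (by linarith only [x0]) x1 hv (by norm_num)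

theorem lx_R2 (hΦ : IsPhi Φ) (h : Wq θ' w) (ht' : Real.tan θ' < 1) (h0 : 1 / 3 ≤ θ)
    (hS : θ + θ' < Real.pi / 2) (ht : Real.tan θ ≤ 1) (hw : 7 / 20 < w.re) (x0 : 15 / 100 ≤ x) (x1 : x ≤ 1 / 4)
    (hTa : 9 / 500 ≤ Real.sinh (Real.pi * w.im) ^ 2)
    (hTb : Real.sinh (Real.pi * w.im) ^ 2 ≤ 27 / 500) :
    ∃ w' : ℂ, w'.im = w.im ∧ 0 ≤ w'.re ∧ w'.re ≤ w.re ∧ w'.re ≤ 19 / 50 ∧
      FlatUV (1 / cos (Real.pi * (x : ℂ)) ^ 2) (1 / cos (Real.pi * (starRingEnd ℂ) w') ^ 2) ∧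
      (Φ (x : ℂ) ((starRingEnd ℂ) w')).re < (Φ (tp θ) ((starRingEnd ℂ) w)).re + s1 (x : ℂ) := by
  have hT := h.sinh_lt ht'
  have cA : 16349 / 100000 ≤ Real.cos (Real.pi * (147 / 400)) ^ 2 :=
    lx_cs_lo (y := 3141593 / 1000000 * (2 * (147 / 400) - 1 / 2)) (by norm_num) (by norm_num) (by norm_num) (by norm_num) (by norm_num)
  have cA' : Real.cos (Real.pi * (147 / 400)) ^ 2 ≤ 327 / 2000 :=
    lx_cs_hi (y := 3141592 / 1000000 * (2 * (147 / 400) - 1 / 2)) (by norm_num) (by norm_num) (by norm_num) (by norm_num)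
  have ca1 : 6247 / 50000 ≤ Real.cos (Real.pi * (77 / 200)) ^ 2 :=
    lx_cs_lo (y := 3141593 / 1000000 * (2 * (77 / 200) - 1 / 2)) (by norm_num) (by norm_num) (by norm_num) (by norm_num) (by norm_num)
  have hw2 : w.re ≤ 2 / 5 := h.re1
  have cw : 9549 / 100000 ≤ Real.cos (Real.pi * w.re) ^ 2 :=
    lx_k4.trans (lx_cs_anti h.re0 h.re1 (by norm_num))
  refine lx_goal hΦ h ht' h0 hS (A := 147 / 400) (by norm_num) (by norm_num) (by linarith only [x0]) x1
    ((lx_cs_anti (by norm_num) x0 (by linarith only [x1])).trans lx_cs_15.2) (by norm_num) cA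
    (by linarith only [hTb]) (ff_R2 hTa hTb) fun hA => ?_
  have lg1 : Real.log (4219 / 10000) ≤ -(8629 / 10000) :=
    lx_log_neg (z := 8629 / 40000) (by norm_num) (by norm_num) (by norm_num)
      (by norm_num) (by norm_num)
  have lg2 : Real.log (2 * (1 - 4219 / 10000)) ≤ 363 / 2500 :=
    lx_log_pos (by norm_num) (by norm_num) (by norm_num)
  have hv := lx_V (K := 583 / 1250) (v := 1091 / 5000) (ua := 206107 / 1000000) (ub := 1 / 2) (by linarith only [x0]) x1 (lx_u_lo (y := 15 / 100) (by norm_num) x0 (by linarith only [x1]) (by linarith only [lx_cs_15.2]))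
    (lx_u_hi (y := 1 / 4) (by linarith only [x0]) x1 (by norm_num) (by linarith only [lx_cs_4])) (by norm_num) (by norm_num) lg1 lg2 (by norm_num) (by norm_num) (by norm_num)
  exact lx_rect hΦ h h0 hS ht (a1 := 77 / 200) (B1 := 6673 / 5000) (B2 := 14509 / 10000) (z := 27 / 250)
    (by norm_num) hA.le hw2
    (by norm_num) (by norm_num) (by norm_num) (by norm_num) hTa ca1 cw (by norm_num) (by norm_num)
    (by norm_num) (by norm_num) (by norm_num) (by norm_num) (by norm_num) (by norm_num)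
    (by norm_num) (le_trans (by linarith only [cA', hTb]) (show 339889 / 1562500 ≤ (583 / 1250) ^ 2 by norm_num)) (by norm_num) (by norm_num) (by linarith only [x0]) x1 hv (by norm_num)

theorem lx_R3 (hΦ : IsPhi Φ) (h : Wq θ' w) (ht' : Real.tan θ' < 1) (h0 : 1 / 3 ≤ θ)
    (hS : θ + θ' < Real.pi / 2) (ht : Real.tan θ ≤ 1) (hw : 7 / 20 < w.re) (x0 : 15 / 100 ≤ x) (x1 : x ≤ 1 / 4)
    (hTa : 27 / 500 ≤ Real.sinh (Real.pi * w.im) ^ 2)
    (hTb : Real.sinh (Real.pi * w.im) ^ 2 ≤ 207 / 2000) :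
    ∃ w' : ℂ, w'.im = w.im ∧ 0 ≤ w'.re ∧ w'.re ≤ w.re ∧ w'.re ≤ 19 / 50 ∧
      FlatUV (1 / cos (Real.pi * (x : ℂ)) ^ 2) (1 / cos (Real.pi * (starRingEnd ℂ) w') ^ 2) ∧
      (Φ (x : ℂ) ((starRingEnd ℂ) w')).re < (Φ (tp θ) ((starRingEnd ℂ) w)).re + s1 (x : ℂ) := by
  have hT := h.sinh_lt ht'
  have cA : 17527 / 100000 ≤ Real.cos (Real.pi * (29 / 80)) ^ 2 :=
    lx_cs_lo (y := 3141593 / 1000000 * (2 * (29 / 80) - 1 / 2)) (by norm_num) (by norm_num) (by norm_num) (by norm_num) (by norm_num)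
  have cA' : Real.cos (Real.pi * (29 / 80)) ^ 2 ≤ 2191 / 12500 :=
    lx_cs_hi (y := 3141592 / 1000000 * (2 * (29 / 80) - 1 / 2)) (by norm_num) (by norm_num) (by norm_num) (by norm_num)
  have ca1 : 6509 / 50000 ≤ Real.cos (Real.pi * (153 / 400)) ^ 2 :=
    lx_cs_lo (y := 3141593 / 1000000 * (2 * (153 / 400) - 1 / 2)) (by norm_num) (by norm_num) (by norm_num) (by norm_num) (by norm_num)
  have hw2 : w.re ≤ 2 / 5 := h.re1
  have cw : 9549 / 100000 ≤ Real.cos (Real.pi * w.re) ^ 2 :=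
    lx_k4.trans (lx_cs_anti h.re0 h.re1 (by norm_num))
  refine lx_goal hΦ h ht' h0 hS (A := 29 / 80) (by norm_num) (by norm_num) (by linarith only [x0]) x1
    ((lx_cs_anti (by norm_num) x0 (by linarith only [x1])).trans lx_cs_15.2) (by norm_num) cA
    (by linarith only [hTb]) (ff_R3 hTa hTb) fun hA => ?_
  have lg1 : Real.log (3933 / 10000) ≤ -(9331 / 10000) :=
    lx_log_neg (z := 9331 / 40000) (by norm_num) (by norm_num) (by norm_num)
      (by norm_num) (by norm_num)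
  have lg2 : Real.log (2 * (1 - 3933 / 10000)) ≤ 387 / 2000 :=
    lx_log_pos (by norm_num) (by norm_num) (by norm_num)
  have hv := lx_V (K := 5281 / 10000) (v := 20769 / 100000) (ua := 206107 / 1000000) (ub := 1 / 2) (by linarith only [x0]) x1 (lx_u_lo (y := 15 / 100) (by norm_num) x0 (by linarith only [x1]) (by linarith only [lx_cs_15.2]))
    (lx_u_hi (y := 1 / 4) (by linarith only [x0]) x1 (by norm_num) (by linarith only [lx_cs_4])) (by norm_num) (by norm_num) lg1 lg2 (by norm_num) (by norm_num) (by norm_num)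
  exact lx_rect hΦ h h0 hS ht (a1 := 153 / 400) (B1 := 12403 / 10000) (B2 := 13459 / 10000) (z := 461 / 2500)
    (by norm_num) hA.le hw2
    (by norm_num) (by norm_num) (by norm_num) (by norm_num) hTa ca1 cw (by norm_num) (by norm_num)
    (by norm_num) (by norm_num) (by norm_num) (by norm_num) (by norm_num) (by norm_num)
    (by norm_num) (le_trans (by linarith only [cA', hTb]) (show 27888961 / 100000000 ≤ (5281 / 10000) ^ 2 by norm_num)) (by norm_num) (by norm_num) (by linarith only [x0]) x1 hv (by norm_num)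

theorem lx_R4 (hΦ : IsPhi Φ) (h : Wq θ' w) (ht' : Real.tan θ' < 1) (h0 : 1 / 3 ≤ θ)
    (hS : θ + θ' < Real.pi / 2) (ht : Real.tan θ ≤ 1) (hw : 7 / 20 < w.re) (x0 : 15 / 100 ≤ x) (x1 : x ≤ 1 / 4)
    (hTa : 207 / 2000 ≤ Real.sinh (Real.pi * w.im) ^ 2)
    (hTb : Real.sinh (Real.pi * w.im) ^ 2 ≤ 19357 / 100000) :
    ∃ w' : ℂ, w'.im = w.im ∧ 0 ≤ w'.re ∧ w'.re ≤ w.re ∧ w'.re ≤ 19 / 50 ∧
      FlatUV (1 / cos (Real.pi * (x : ℂ)) ^ 2) (1 / cos (Real.pi * (starRingEnd ℂ) w') ^ 2) ∧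
      (Φ (x : ℂ) ((starRingEnd ℂ) w')).re < (Φ (tp θ) ((starRingEnd ℂ) w)).re + s1 (x : ℂ) := by
  have hT := h.sinh_lt ht'
  have cA : 9677 / 50000 ≤ Real.cos (Real.pi * (71 / 200)) ^ 2 :=
    lx_cs_lo (y := 3141593 / 1000000 * (2 * (71 / 200) - 1 / 2)) (by norm_num) (by norm_num) (by norm_num) (by norm_num) (by norm_num)
  have cA' : Real.cos (Real.pi * (71 / 200)) ^ 2 ≤ 3871 / 20000 :=
    lx_cs_hi (y := 3141592 / 1000000 * (2 * (71 / 200) - 1 / 2)) (by norm_num) (by norm_num) (by norm_num) (by norm_num)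
  have ca1 : 3661 / 25000 ≤ Real.cos (Real.pi * (3 / 8)) ^ 2 :=
    lx_cs_lo (y := 3141593 / 1000000 * (2 * (3 / 8) - 1 / 2)) (by norm_num) (by norm_num) (by norm_num) (by norm_num) (by norm_num)
  have ca2 : Real.cos (Real.pi * (99 / 250)) ^ 2 ≤ 207 / 2000 :=
    lx_cs_hi (y := 3141592 / 1000000 * (2 * (99 / 250) - 1 / 2)) (by norm_num) (by norm_num) (by norm_num) (by norm_num)
  have hw2 : w.re ≤ 99 / 250 := by
    by_contra hn
    push Not at hn
    have := lx_cs_anti (by norm_num) hn.le (by linarith only [h.re1])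
    linarith only [this, ca2, hT, hTa]
  have cw : 207 / 2000 ≤ Real.cos (Real.pi * w.re) ^ 2 := by linarith only [hT, hTa]
  refine lx_goal hΦ h ht' h0 hS (A := 71 / 200) (by norm_num) (by norm_num) (by linarith only [x0]) x1
    ((lx_cs_anti (by norm_num) x0 (by linarith only [x1])).trans lx_cs_15.2) (by norm_num) cA
    (by linarith only [hTb]) (ff_R4 hTa hTb) fun hA => ?_
  have hTc := hT.trans_le (lx_cs_anti (by norm_num) hA.le (by linarith only [hw2]))
  have lg1 : Real.log (223 / 625) ≤ -(2061 / 2000) :=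
    lx_log_neg (z := 2061 / 8000) (by norm_num) (by norm_num) (by norm_num)
      (by norm_num) (by norm_num)
  have lg2 : Real.log (2 * (1 - 223 / 625)) ≤ 2519 / 10000 :=
    lx_log_pos (by norm_num) (by norm_num) (by norm_num)
  have hv := lx_V (K := 6223 / 10000) (v := 9331 / 50000) (ua := 206107 / 1000000) (ub := 1 / 2) (by linarith only [x0]) x1 (lx_u_lo (y := 15 / 100) (by norm_num) x0 (by linarith only [x1]) (by linarith only [lx_cs_15.2]))
    (lx_u_hi (y := 1 / 4) (by linarith only [x0]) x1 (by norm_num) (by linarith only [lx_cs_4])) (by norm_num) (by norm_num) lg1 lg2 (by norm_num) (by norm_num) (by norm_num)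
  exact lx_rect hΦ h h0 hS ht (a1 := 3 / 8) (B1 := 2257 / 2000) (B2 := 2449 / 2000) (z := 313 / 1250)
    (by norm_num) hA.le hw2
    (by norm_num) (by norm_num) (by norm_num) (by norm_num) hTa ca1 cw (by norm_num) (by norm_num)
    (by norm_num) (by norm_num) (by norm_num) (by norm_num) (by norm_num) (by norm_num)
    (by norm_num) (le_trans (by linarith only [cA', hTb]) (show 38725729 / 100000000 ≤ (6223 / 10000) ^ 2 by norm_num)) (by norm_num) (by norm_num) (by linarith only [x0]) x1 hv (by norm_num)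

theorem ff_K4 {k0 : ℝ} (h : k0 = 387 / 1000) :
    FF (793893 / 1000000) k0 (k0 ^ 2 / 2) := by
  subst h
  unfold FF
  norm_num

/-- The lattice vertex has two half twists, `x ≤ 1/4`. -/
theorem lx_base2 (hΦ : IsPhi Φ) (h : Wq θ' w) (ht' : Real.tan θ' < 1) (h0 : 1 / 3 ≤ θ)
    (hS : θ + θ' < Real.pi / 2) (ht : Real.tan θ ≤ 1) (x0 : 1 / 10 ≤ x) (x1 : x ≤ 1 / 4) :
    ∃ w' : ℂ, w'.im = w.im ∧ 0 ≤ w'.re ∧ w'.re ≤ w.re ∧ w'.re ≤ 19 / 50 ∧
      FlatUV (1 / cos (Real.pi * (x : ℂ)) ^ 2) (1 / cos (Real.pi * (starRingEnd ℂ) w') ^ 2) ∧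
      (Φ (x : ℂ) ((starRingEnd ℂ) w')).re < (Φ (tp θ) ((starRingEnd ℂ) w)).re + s1 (x : ℂ) := by
  have hT := h.sinh_lt ht'
  have T0 := sq_nonneg (Real.sinh (Real.pi * w.im))
  rcases le_or_gt w.re (7 / 20) with hw | hw
  · refine ⟨w, rfl, h.re0, le_rfl, hw.trans (by norm_num), low2_flat h ht' x0 x1 hw, ?_⟩
    have := low2_A3b hΦ h h0 hS x0 x1
    linarith only [this]
  have cA' : Real.cos (Real.pi * (7 / 20)) ^ 2 ≤ 20611 / 100000 :=
    lx_cs_hi (y := 3141592 / 1000000 * (2 * (7 / 20) - 1 / 2)) (by norm_num) (by norm_num)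
      (by norm_num) (by norm_num)
  have hTm : Real.sinh (Real.pi * w.im) ^ 2 ≤ 20611 / 100000 :=
    hT.le.trans ((lx_cs_anti (by norm_num) hw.le (by linarith only [h.re1])).trans cA')
  rcases le_total x (15 / 100) with hx | hx
  · rcases le_total (Real.sinh (Real.pi * w.im) ^ 2) (9 / 250) with t1 | t1
    · exact lx_L1 hΦ h ht' h0 hS ht hw x0 hx T0 t1
    rcases le_total (Real.sinh (Real.pi * w.im) ^ 2) (99 / 1000) with t2 | t2
    · exact lx_L2 hΦ h ht' h0 hS ht hw x0 hx t1 t2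
    · exact lx_L3 hΦ h ht' h0 hS ht hw x0 hx t2 hTm
  · rcases le_total (Real.sinh (Real.pi * w.im) ^ 2) (9 / 500) with t1 | t1
    · exact lx_R1 hΦ h ht' h0 hS ht hw hx x1 T0 t1
    rcases le_total (Real.sinh (Real.pi * w.im) ^ 2) (27 / 500) with t2 | t2
    · exact lx_R2 hΦ h ht' h0 hS ht hw hx x1 t1 t2
    rcases le_total (Real.sinh (Real.pi * w.im) ^ 2) (207 / 2000) with t3 | t3
    · exact lx_R3 hΦ h ht' h0 hS ht hw hx x1 t2 t3
    rcases le_total (Real.sinh (Real.pi * w.im) ^ 2) (19357 / 100000) with t4 | t4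
    · exact lx_R4 hΦ h ht' h0 hS ht hw hx x1 t3 t4
    · refine ⟨w, rfl, h.re0, le_rfl, ?_, ?_, ?_⟩
      · by_contra hn
        push Not at hn
        have k3 : Real.cos (Real.pi * (38 / 100)) ^ 2 ≤ 13553 / 100000 :=
          lx_cs_hi (y := 3141592 * 26 / 100000000) (by norm_num) (by norm_num) (by norm_num)
            (by norm_num)
        have := lx_cs_anti (a := 38 / 100) (b := w.re) (by norm_num) (by linarith only [hn]) (by linarith only [h.re1])
        linarith only [this, k3, t4, hT]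
      · exact flatUV_k (k0 := 387 / 1000) (by linarith only [x0]) (by linarith only [x1]) hT
          ((lx_cs_anti (by norm_num) hx (by linarith only [x1])).trans lx_cs_15.2) (by norm_num)
          (by linarith only [t4, t3, hT]) (Or.inl x1) (ff_K4 rfl)
      · have := low2_A3b hΦ h h0 hS x0 x1
        linarith only [this]

/-- The lattice vertex has at least three half twists, `x ≤ 1/4`. -/
theorem lx_base3 (hΦ : IsPhi Φ) (h : Wq θ' w) (ht' : Real.tan θ' < 1) (h0 : 0 < θ)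
    (hS : θ + θ' < Real.pi / 2) (x0 : 1 / 10 ≤ x) (x1 : x ≤ 1 / 4) :
    ∃ w' : ℂ, w'.im = w.im ∧ 0 ≤ w'.re ∧ w'.re ≤ w.re ∧ w'.re ≤ 19 / 50 ∧
      FlatUV (1 / cos (Real.pi * (x : ℂ)) ^ 2) (1 / cos (Real.pi * (starRingEnd ℂ) w') ^ 2) ∧
      (Φ (x : ℂ) ((starRingEnd ℂ) w')).re <
        (Φ (tp θ) ((starRingEnd ℂ) w)).re + (1 / 10 + s1 (x : ℂ)) := by
  have hpi := Real.pi_pos
  have hT := h.sinh_lt ht'
  have T0 := sq_nonneg (Real.sinh (Real.pi * w.im))
  rcases le_or_gt w.re (7 / 20) with hw | hw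
  · refine ⟨w, rfl, h.re0, le_rfl, hw.trans (by norm_num), low2_flat h ht' x0 x1 hw, ?_⟩
    have := low2_A3a hΦ h h0 hS x0 x1
    linarith only [this]
  have hs := h.shift (A := 7 / 20) (by norm_num) hw.le
  refine ⟨⟨7 / 20, w.im⟩, rfl, hs.re0, hw.le, by norm_num, low2_flat hs ht' x0 x1 le_rfl, ?_⟩
  have cA' : Real.cos (Real.pi * (7 / 20)) ^ 2 ≤ 20611 / 100000 :=
    lx_cs_hi (y := 3141592 / 1000000 * (2 * (7 / 20) - 1 / 2)) (by norm_num) (by norm_num)
      (by norm_num) (by norm_num)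
  have hTm : Real.sinh (Real.pi * w.im) ^ 2 ≤ 20611 / 100000 :=
    hT.le.trans ((lx_cs_anti (by norm_num) hw.le (by linarith only [h.re1])).trans cA')
  have cw : 9549 / 100000 ≤ Real.cos (Real.pi * w.re) ^ 2 :=
    lx_k4.trans (lx_cs_anti h.re0 h.re1 (by norm_num))
  have d := lx_dropW hΦ hs (K := 6422 / 10000) (by norm_num) (by
    simp only
    norm_num at cA' hTm ⊢
    linarith only [hTm, cA']) (by linarith only [x0]) x1
  have c := lx_cost hΦ (A := 7 / 20) (a := w.re) (b := w.im) (c := 9549 / 100000) (T := 0)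
    (B := 15199 / 10000) (by norm_num) hw.le (by linarith only [h.re1]) cw (by norm_num) le_rfl T0
    (by norm_num) (by norm_num) (by norm_num)
  rw [Fq_self] at c
  unfold Fq at c
  have u := low2_A3c hΦ h h0 hS
  have n := lx_N (K := 6422 / 10000) x0 (by linarith only [x1])
  have lg1 : Real.log (35 / 100) ≤ -(10498 / 10000) :=
    lx_log_neg (z := 10498 / 40000) (by norm_num) (by norm_num) (by norm_num)
      (by norm_num) (by norm_num)
  have lg2 : Real.log (2 * (1 - 35 / 100)) ≤ 2624 / 10000 :=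
    lx_log_pos (by norm_num) (by norm_num) (by norm_num)
  have hv := lx_V (K := 6422 / 10000) (v := 1813 / 10000) (ua := 95491 / 1000000) (ub := 1 / 2)
    x0 x1 (lx_u_lo (y := 1 / 10) (by norm_num) x0 (by linarith only [x1]) (by linarith only [lx_cs_1]))
    (lx_u_hi (y := 1 / 4) (by linarith only [x0]) x1 (by norm_num) (by linarith only [lx_cs_4]))
    (by norm_num) (by norm_num) lg1 lg2 (by norm_num) (by norm_num) (by norm_num)
  have m1 : 1813 / 10000 / Real.pi ≤ _ := div_le_div_of_nonneg_right hv hpi.le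
  have m2 : 2 * (2 / 5 - 7 / 20) * (15199 / 10000) < 1813 / 10000 / Real.pi + 1 / 10 := by
    have : 577 / 10000 ≤ 1813 / 10000 / Real.pi := by
      rw [le_div_iff₀ hpi]
      have := Real.pi_lt_d4
      norm_num at this ⊢
      linarith only [this]
    norm_num at this ⊢
    linarith only [this]
  have m3 := h.re1
  linarith only [m3, m2, m1, n, u, c, d]

/-- The shift from `38/100` at `1/4`. -/
theorem lx_cost38 (hΦ : IsPhi Φ) (h : Wq θ' w) (hw : 38 / 100 ≤ w.re) {T B : ℝ} (hT0 : 0 ≤ T)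
    (hT : T ≤ Real.sinh (Real.pi * w.im) ^ 2) (hB : 0 ≤ B)
    (h1 : 1 ≤ 2 * (B + B ^ 3 / 6 + B ^ 5 / 120 + B ^ 7 / 5040) ^ 2)
    (h2 : 1 - 9549 / 100000 + T ≤ 2 * (B + B ^ 3 / 6 + B ^ 5 / 120 + B ^ 7 / 5040) ^ 2 *
      (9549 / 100000 + T)) :
    (Φ ((1 / 4 : ℝ) : ℂ) ((starRingEnd ℂ) (⟨38 / 100, w.im⟩ : ℂ))).re ≤
      (Φ ((1 / 4 : ℝ) : ℂ) ((starRingEnd ℂ) w)).re + 4 / 100 * B := by
  have cw : 9549 / 100000 ≤ Real.cos (Real.pi * w.re) ^ 2 :=
    lx_k4.trans (lx_cs_anti h.re0 h.re1 (by norm_num))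
  have c := lx_cost hΦ (A := 38 / 100) (a := w.re) (b := w.im) (c := 9549 / 100000) (T := T)
    (B := B) (by norm_num) hw (by linarith only [h.re1]) cw (by norm_num) hT0 hT hB h1 h2
  rw [Fq_self] at c
  unfold Fq at c
  have : (w.re - 38 / 100) * B ≤ (2 / 5 - 38 / 100) * B :=
    mul_le_mul_of_nonneg_right (by linarith only [h.re1]) hB
  linarith only [this, c]

/-- Along the real axis the growth decreases beyond `1/4`. -/
theorem lx_hor3 (hΦ : IsPhi Φ) (h : Wq θ' w) :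
    (Φ ((3 / 10 : ℝ) : ℂ) ((starRingEnd ℂ) w)).re ≤ (Φ ((1 / 4 : ℝ) : ℂ) ((starRingEnd ℂ) w)).re := by
  have hpi := Real.pi_pos
  obtain ⟨c, S, c0, c1, S0, S1, q1, q2, q3⟩ := h.cos
  have hW : |(igd ((Real.pi : ℂ) * (starRingEnd ℂ) w)).im| < Real.pi / 2 := igd_im_lt h.pre
  have h3 : |Real.pi * (3 / 10)| < Real.pi / 2 := by
    rw [abs_of_pos (by positivity)]
    linarith only [hpi]
  have hreg : Reg (igd (UU (Real.pi * (3 / 10)) 0)) (igd ((Real.pi : ℂ) * (starRingEnd ℂ) w)) := by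
    unfold Reg
    rw [igd_real_im h3, abs_zero, zero_add]
    exact hW
  have k := FP_right hΦ (η := 0) (a := Real.pi / 4) (b := Real.pi * (3 / 10)) le_rfl
    (by positivity) (by linarith only [hpi]) (by linarith only [hpi]) hreg (by
      intro s s0 s1
      have s00 : 0 ≤ s := le_trans (by positivity) s0
      rw [cosh_igd h.pre, div_div_eq_mul_div, div_one, LowA_UU0, ← ofReal_tan, re_ofReal_mul, q1]
      have ht : 0 ≤ Real.tan s := Real.tan_nonneg_of_nonneg_of_le_pi_div_two s00 (by linarith only [s1,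
                                                                                       hpi])
      have hc0 : 0 ≤ c := by linarith only [c0]
      positivity)
  rw [gd_igd h.pre, FP_real, FP_real4] at k
  exact k

theorem s1_three (x0 : 1 / 4 ≤ x) (x1 : x ≤ 3 / 10) : 44 / 1000 ≤ s1 (x : ℂ) := by
  have hpi := Real.pi_pos
  have n := lx_N (K := 0) (x := x) (by linarith only [x0]) (by linarith only [x1])
  have k5 : 34549 / 100000 ≤ Real.cos (Real.pi * (3 / 10)) ^ 2 :=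
    lx_cs_lo (y := 3141593 / 10000000) (by norm_num) (by norm_num) (by norm_num)
      (by norm_num) (by norm_num)
  have hu := lx_u_hi (y := 3 / 10) (c := 65451 / 100000) (by linarith only [x0]) x1 (by norm_num)
    (by linarith only [k5])
  have hs : 0 < Real.sin (Real.pi * x) ^ 2 := pow_pos (lct_sin (by linarith only [x0]) (by linarith only [x1])) 2
  have l1 : Real.log (Real.sin (Real.pi * x) ^ 2) ≤ -(4238 / 10000) :=
    (Real.log_le_log hs hu).trans (lx_log_neg (z := 4238 / 40000) (by norm_num) (by norm_num)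
      (by norm_num) (by norm_num) (by norm_num))
  have l2 : 527 / 1000 ≤ 1 / Real.sin (Real.pi * x) ^ 2 - 1 := by
    have := one_div_le_one_div_of_le hs hu
    norm_num at this ⊢
    linarith only [this, hs, hu]
  have m : 44 / 1000 ≤ (3133 / 10000 * (-Real.log (Real.sin (Real.pi * x) ^ 2)) +
      114 / 10000 * (1 / Real.sin (Real.pi * x) ^ 2 - 1) -
      0 * Real.log (2 * (1 - Real.sin (Real.pi * x) ^ 2))) / Real.pi := by
    rw [le_div_iff₀ hpi]
    have := Real.pi_lt_d4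
    norm_num at this
    linarith only [this, l2, l1]
  linarith only [m, n]

/-- **The base point of a lattice vertex.** -/
theorem lat_base (hΦ : IsPhi Φ) {g : ℝ} (h : Wq θ' w) (ht' : Real.tan θ' < 1)
    (h0 : 0 < θ) (hS : θ + θ' < Real.pi / 2) (ht : Real.tan θ ≤ 1)
    (hg : 1 / 10 ≤ g ∨ (0 ≤ g ∧ 1 / 3 ≤ θ)) (hx : 1 / 10 ≤ |x|) (hx' : |x| ≤ 1 / 2) :
    ∃ (x0 : ℝ) (w' : ℂ), 0 < x0 ∧ x0 ≤ 3 / 10 ∧ x0 ≤ |x| ∧ w'.im = w.im ∧ 0 ≤ w'.re ∧
      w'.re ≤ w.re ∧ (w'.re ≤ 19 / 50 ∨ 1 / 4 ≤ x0) ∧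
      FlatUV (1 / cos (Real.pi * (x0 : ℂ)) ^ 2) (1 / cos (Real.pi * (starRingEnd ℂ) w') ^ 2) ∧
      (Φ (x0 : ℂ) ((starRingEnd ℂ) w')).re <
        (Φ (tp θ) ((starRingEnd ℂ) w)).re + (g + s1 (x : ℂ)) := by
  have s0 := s1_nonneg hx'
  have e := s1_even x
  have g0 : 0 ≤ g := by
    rcases hg with h | ⟨h, -⟩
    · linarith only [h]
    · exact h
  have u := low2_A3c hΦ h h0 hS
  rcases le_total |x| (1 / 4) with h1 | h1
  · rcases hg with hg | ⟨-, hg⟩
    · obtain ⟨w', k1, k2, k3, k6, k4, k5⟩ := lx_base3 hΦ h ht' h0 hS hx h1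
      exact ⟨|x|, w', by linarith only [hx], by linarith only [h1], le_rfl, k1, k2, k3, Or.inl k6, k4,
        by rw [e]; linarith only [k5, hg]⟩
    · obtain ⟨w', k1, k2, k3, k6, k4, k5⟩ := lx_base2 hΦ h ht' hg hS ht hx h1
      exact ⟨|x|, w', by linarith only [hx], by linarith only [h1], le_rfl, k1, k2, k3, Or.inl k6, k4,
        by rw [e]; linarith only [k5, g0]⟩
  · rcases le_total w.re (38 / 100) with hw | hw
    · exact ⟨1 / 4, w, by norm_num, by norm_num, h1, rfl, h.re0, le_rfl, Or.inr le_rfl,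
        low2_flat4 h ht' hw, by linarith only [u, g0, s0]⟩
    have hs := h.shift (A := 38 / 100) (by norm_num) hw
    rcases hg with hg | ⟨-, hg⟩
    · refine ⟨1 / 4, ⟨38 / 100, w.im⟩, by norm_num, by norm_num, h1, rfl, hs.re0, hw,
        Or.inr le_rfl, low2_flat4 hs ht' le_rfl, ?_⟩
      have c := lx_cost38 hΦ h hw (T := 0) (B := 15199 / 10000) le_rfl (sq_nonneg _) (by norm_num)
        (by norm_num) (by norm_num)
      linarith only [c, hg, u, s0]
    rcases le_total |x| (3 / 10) with h2 | h2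
    · rcases le_total (Real.sinh (Real.pi * w.im) ^ 2) (16 / 1000) with t1 | t1
      · exact ⟨1 / 4, w, by norm_num, by norm_num, h1, rfl, h.re0, le_rfl, Or.inr le_rfl,
          low2_flatZ h ht' t1, by linarith only [u, g0, s0]⟩
      · refine ⟨1 / 4, ⟨38 / 100, w.im⟩, by norm_num, by norm_num, h1, rfl, hs.re0, hw,
          Or.inr le_rfl, low2_flat4 hs ht' le_rfl, ?_⟩
        have c := lx_cost38 hΦ h hw (T := 16 / 1000) (B := 14594 / 10000) (by norm_num) t1
          (by norm_num) (by norm_num) (by norm_num)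
        have u2 := lx_up2 hΦ h hg hS ht (by linarith only [hw]) t1 (by norm_num) (z := 1019 / 10000)
          (by norm_num) (by norm_num)
        have m := s1_three h1 h2
        have m2 : 24 / 1000 ≤ (3304 / 100000 + 43 / 100 * (1019 / 10000)) / Real.pi := by
          rw [le_div_iff₀ Real.pi_pos]
          have := Real.pi_lt_d4
          norm_num at this ⊢
          linarith only [this]
        rw [e]
        linarith only [m2, m, u2, c, u, g0]
    · have c := lx_hor3 hΦ h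
      exact ⟨3 / 10, w, by norm_num, le_rfl, h2, rfl, h.re0, le_rfl, Or.inr (by norm_num),
        low2_flat3 h ht' hw, by linarith only [c, u, g0, s0]⟩

end

end Pool.Agent.S3
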