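import Pool.Agent.S3.LX8

/-!
# Small indices, inner vertices with two half twists: the shift to the left

Drop along the real axis, cost of the shift, gain above the test height, and the lower bound of the
slot gain of the lattice vertex.
-/

set_option autoImplicit false

namespace Pool.Agent.S3

open Complex

section

variable {Φ : ℂ → ℂ → ℂ} {θ θ' x : ℝ} {v w : ℂ}

/-- The growth along the real axis. -/
theorem lx_dropT (hP : IsPhi Φ) {P : ℂ} (hPr : |P.re| < Real.pi / 2) {K : ℝ}
    (hc : ‖cos P‖ ≤ K) (h0 : 0 ≤ x) (h1 : x ≤ 1 / 4) :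
    FP Φ (UU (Real.pi * x) 0) P ≤ FP Φ (UU (Real.pi / 4) 0) P + 2 / Real.pi * K *
      (Real.log (Real.cos (Real.pi * x)) - Real.log (Real.cos (Real.pi / 4))) := by
  have hpi := Real.pi_pos
  set W : ℂ := igd P with hW
  have hgW : gd W = P := gd_igd hPr
  have hWi : |W.im| < Real.pi / 2 := igd_im_lt hPr
  have ab : ∀ s : ℝ, 0 ≤ s → s ≤ Real.pi / 4 → |s| < Real.pi / 2 := fun s h1 h2 => by
    rw [abs_of_nonneg h1]; linarith only [h2, hpi]
  have hreg : ∀ s, 0 ≤ s → s ≤ Real.pi / 4 → Reg (igd (UU s 0)) W := by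
    intro s hs hsb
    unfold Reg
    rw [igd_real_im (ab s hs hsb), abs_zero, zero_add]
    exact hWi
  have hd : ∀ s, 0 ≤ s → s ≤ Real.pi / 4 → HasDerivAt
      (fun s => FP Φ (UU s 0) (gd W) - 2 / Real.pi * K * Real.log (Real.cos s))
      (-(2 / Real.pi) * (qq (igd (UU s 0)) W).re -
        2 / Real.pi * K * (-Real.sin s / Real.cos s)) s := fun s hs hsb =>
    (hasDerivAt_FP_hor hP (ab s hs hsb) (hreg s hs hsb)).sub
      (((Real.hasDerivAt_cos s).log (LowA_cos_pos hs hsb).ne').const_mul _)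
  have x0 : 0 ≤ Real.pi * x := by positivity
  have x1 : Real.pi * x ≤ Real.pi / 4 := by linarith only [mul_nonneg (sub_nonneg.2 h1) (sub_nonneg.2 hpi.le)]
  have key : MonotoneOn (fun s => FP Φ (UU s 0) (gd W) - 2 / Real.pi * K * Real.log (Real.cos s))
      (Set.Icc (Real.pi * x) (Real.pi / 4)) := by
    apply monotoneOn_of_deriv_nonneg (convex_Icc _ _)
    · exact fun s hs => (hd s (x0.trans hs.1) hs.2).continuousAt.continuousWithinAt
    · rw [interior_Icc]
      exact fun s hs => (hd s (x0.trans hs.1.le) hs.2.le).differentiableAt.differentiableWithinAt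
    · rw [interior_Icc]
      intro s hs
      have s0 := x0.trans hs.1.le
      have s1 := hs.2.le
      rw [(hd s s0 s1).deriv]
      have hcs := LowA_cos_pos s0 s1
      have hsn : 0 ≤ Real.sin s := Real.sin_nonneg_of_nonneg_of_le_pi s0 (by linarith only [s1, hpi])
      have ht : 0 ≤ Real.tan s := by
        rw [Real.tan_eq_sin_div_cos]
        positivity
      have k1 := qq_re_le' (igd (UU s 0)) W
      have k2 : ‖sinh (igd (UU s 0)) / cosh W‖ ≤ K * Real.tan s := by
        rw [sinh_igd, hW, cosh_igd hPr, div_div_eq_mul_div, div_one, norm_mul,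
          LowA_UU0, ← ofReal_tan, Complex.norm_real, Real.norm_of_nonneg ht, mul_comm]
        exact mul_le_mul_of_nonneg_right hc ht
      have k4 := mul_le_mul_of_nonneg_left (k1.trans k2) (show 0 ≤ 2 / Real.pi by positivity)
      rw [Real.tan_eq_sin_div_cos] at k4
      have e : 2 / Real.pi * K * (-Real.sin s / Real.cos s) =
          -(2 / Real.pi * (K * (Real.sin s / Real.cos s))) := by
        rw [neg_div]
        ring
      rw [e]
      linarith only [k4]
  have k := key ⟨le_rfl, x1⟩ ⟨x1, le_rfl⟩ x1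
  simp only [hgW] at k
  linarith only [k]

/-! ### The cost of the shift -/

theorem lx_ncos (s t : ℝ) : normSq (cos (UU s t)) = Real.cos s ^ 2 + Real.sinh t ^ 2 := by
  have e : cos (UU s t) = ((Real.cos s * Real.cosh t : ℝ) : ℂ) +
      ((-(Real.sin s * Real.sinh t) : ℝ) : ℂ) * I := by
    rw [UU, cos_add, cos_mul_I, sin_mul_I, ← ofReal_cos, ← ofReal_sin, ← ofReal_cosh,
      ← ofReal_sinh]
    push_cast
    ring
  have h1 := Real.cosh_sq t
  have h2 := Real.sin_sq_add_cos_sq s
  rw [e, normSq_apply]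
  simp only [add_re, add_im, mul_re, mul_im, ofReal_re, ofReal_im, I_re, I_im]
  generalize Real.sinh t = S at *
  generalize Real.cosh t = C at *
  generalize Real.sin s = s' at *
  generalize Real.cos s = c at *
  linear_combination (c ^ 2) * h1 + S ^ 2 * h2

theorem lx_nsin (s t : ℝ) : normSq (sin (UU s t)) = Real.sin s ^ 2 + Real.sinh t ^ 2 := by
  have e : sin (UU s t) = ((Real.sin s * Real.cosh t : ℝ) : ℂ) +
      ((Real.cos s * Real.sinh t : ℝ) : ℂ) * I := by
    rw [UU, sin_add, cos_mul_I, sin_mul_I, ← ofReal_cos, ← ofReal_sin, ← ofReal_cosh,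
      ← ofReal_sinh]
    push_cast
    ring
  have h1 := Real.cosh_sq t
  have h2 := Real.sin_sq_add_cos_sq s
  rw [e, normSq_apply]
  simp only [add_re, add_im, mul_re, mul_im, ofReal_re, ofReal_im, I_re, I_im]
  generalize Real.sinh t = S at *
  generalize Real.cosh t = C at *
  generalize Real.sin s = s' at *
  generalize Real.cos s = c at *
  linear_combination (s' ^ 2) * h1 + S ^ 2 * h2

theorem lx_sinhT {B : ℝ} (hB : 0 ≤ B) :
    B + B ^ 3 / 6 + B ^ 5 / 120 + B ^ 7 / 5040 ≤ Real.sinh B := by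
  have h := Real.hasSum_sinh B
  have k := sum_le_hasSum (Finset.range 4) (fun i _ => by positivity) h
  norm_num [Finset.sum_range_succ, Nat.factorial] at k
  linarith only [k]

/-- The growth at first coordinate `1/4`, as a function of the second point. -/
noncomputable def Fq (Φ : ℂ → ℂ → ℂ) (a b : ℝ) : ℝ :=
  (Φ ((1 / 4 : ℝ) : ℂ) ((starRingEnd ℂ) (⟨a, b⟩ : ℂ))).re

theorem lx_UU_conj (a b : ℝ) : UU (Real.pi * a) (-(Real.pi * b)) =
    (Real.pi : ℂ) * (starRingEnd ℂ) (⟨a, b⟩ : ℂ) := by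
  apply Complex.ext <;> simp

theorem Fq_eq (a b : ℝ) : Fq Φ a b = FP (fun v w => Φ w v) (UU (Real.pi * a) (-(Real.pi * b)))
    (gd (igd (UU (Real.pi / 4) 0))) := by
  have h1 : UU (Real.pi / 4) 0 / (Real.pi : ℂ) = ((1 / 4 : ℝ) : ℂ) := by
    rw [LowA_UU0, ← ofReal_div]
    congr 1
    have := Real.pi_ne_zero
    field_simp
  rw [gd_igd (UU_re_lt LowA_quarter), FP_swap, lx_UU_conj, FP, mul_div_cancel_left₀ _ lx_pi, h1, Fq]

theorem lx_cost (hΦ : IsPhi Φ) {A a b c T B : ℝ} (hA : 0 ≤ A) (hAa : A ≤ a) (ha : a < 1 / 2)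
    (hc : c ≤ Real.cos (Real.pi * a) ^ 2) (hc0 : 0 < c) (hT0 : 0 ≤ T)
    (hT : T ≤ Real.sinh (Real.pi * b) ^ 2) (hB : 0 ≤ B)
    (h1 : 1 ≤ 2 * (B + B ^ 3 / 6 + B ^ 5 / 120 + B ^ 7 / 5040) ^ 2)
    (h2 : 1 - c + T ≤ 2 * (B + B ^ 3 / 6 + B ^ 5 / 120 + B ^ 7 / 5040) ^ 2 * (c + T)) :
    Fq Φ A b ≤ Fq Φ a b + 2 * (a - A) * B := by
  have hpi := Real.pi_pos
  rw [Fq_eq, Fq_eq]
  set W := igd (UU (Real.pi / 4) 0) with hW
  set σ := B + B ^ 3 / 6 + B ^ 5 / 120 + B ^ 7 / 5040 with hσ
  have hσ0 : 0 ≤ σ := by positivity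
  have hσB : σ ≤ Real.sinh B := lx_sinhT hB
  have hσ2 : σ ^ 2 ≤ Real.sinh B ^ 2 := pow_le_pow_left₀ hσ0 hσB 2
  have ab : ∀ s : ℝ, 0 ≤ s → s ≤ Real.pi * a → |s| < Real.pi / 2 := fun s h1 h2 => by
    rw [abs_of_nonneg h1]; linarith only [h2, mul_pos (sub_pos.2 ha) (sub_pos.2 hpi)]
  have hd : ∀ s, 0 ≤ s → s ≤ Real.pi * a → HasDerivAt
      (fun s => FP (fun v w => Φ w v) (UU s (-(Real.pi * b))) (gd W) + 2 / Real.pi * B * s)
      (-(2 / Real.pi) * (qq (igd (UU s (-(Real.pi * b)))) W).re + 2 / Real.pi * B * 1) s :=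
    fun s hs hsb => (hasDerivAt_FP_hor hΦ.swap (ab s hs hsb) (lx_reg (ab s hs hsb) _)).add
      ((hasDerivAt_id' s).const_mul _)
  have a0 : 0 ≤ Real.pi * A := by positivity
  have a1 : Real.pi * A ≤ Real.pi * a := by linarith only [mul_nonneg (sub_nonneg.2 hAa) (sub_nonneg.2 hpi.le)]
  have key : MonotoneOn (fun s => FP (fun v w => Φ w v) (UU s (-(Real.pi * b))) (gd W) +
      2 / Real.pi * B * s) (Set.Icc (Real.pi * A) (Real.pi * a)) := by
    apply monotoneOn_of_deriv_nonneg (convex_Icc _ _)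
    · exact fun s hs => (hd s (a0.trans hs.1) hs.2).continuousAt.continuousWithinAt
    · rw [interior_Icc]
      exact fun s hs => (hd s (a0.trans hs.1.le) hs.2.le).differentiableAt.differentiableWithinAt
    · rw [interior_Icc]
      intro s hs
      have s0 := a0.trans hs.1.le
      have s1 := hs.2.le
      rw [(hd s s0 s1).deriv]
      have hca : 0 ≤ Real.cos (Real.pi * a) :=
        Real.cos_nonneg_of_mem_Icc ⟨by linarith only [a1, a0, hpi], by linarith only [mul_pos (sub_pos.2 ha) (sub_pos.2 hpi)]⟩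
      have hcs : Real.cos (Real.pi * a) ≤ Real.cos s :=
        Real.cos_le_cos_of_nonneg_of_le_pi s0 (by linarith only [hpi,
                                                    mul_pos (sub_pos.2 ha) (sub_pos.2 hpi)]) s1
      have hc1 : c ≤ Real.cos s ^ 2 := hc.trans (pow_le_pow_left₀ hca hcs 2)
      have k1 := qq_re_le (igd (UU s (-(Real.pi * b)))) W
      have k2 : ‖sinh (igd (UU s (-(Real.pi * b)))) / cosh W‖ ≤ Real.sinh B := by
        rw [sinh_igd, hW, lx_W, Complex.tan_eq_sin_div_cos, norm_div, norm_div, norm_real,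
          Real.norm_of_nonneg (by positivity)]
        have n1 : ‖sin (UU s (-(Real.pi * b)))‖ ^ 2 = Real.sin s ^ 2 +
            Real.sinh (Real.pi * b) ^ 2 := by
          rw [← normSq_eq_norm_sq, lx_nsin, Real.sinh_neg, neg_sq]
        have n2 : ‖cos (UU s (-(Real.pi * b)))‖ ^ 2 = Real.cos s ^ 2 +
            Real.sinh (Real.pi * b) ^ 2 := by
          rw [← normSq_eq_norm_sq, lx_ncos, Real.sinh_neg, neg_sq]
        have n3 : 0 < ‖cos (UU s (-(Real.pi * b)))‖ := by
          by_contra hn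
          have : ‖cos (UU s (-(Real.pi * b)))‖ = 0 := le_antisymm (not_lt.1 hn) (norm_nonneg _)
          rw [this] at n2
          have := sq_nonneg (Real.sinh (Real.pi * b))
          norm_num at n2
          linarith only [n2, hc1, hT, hT0, hc0]
        rw [div_le_iff₀ (by positivity), div_le_iff₀ n3]
        have hSB : 0 ≤ Real.sinh B := Real.sinh_nonneg_iff.2 hB
        apply le_of_sq_le_sq _ (by positivity)
        rw [mul_pow, mul_pow, Real.sq_sqrt (by norm_num), n1, n2]
        have h3 := Real.sin_sq_add_cos_sq s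
        generalize Real.sinh (Real.pi * b) ^ 2 = Tb at *
        generalize Real.cos s ^ 2 = C at *
        generalize Real.sin s ^ 2 = S at *
        have e1 : 0 ≤ (C - c) * (1 + 2 * σ ^ 2) := mul_nonneg (by linarith only [hc1]) (by positivity)
        have e2 : 0 ≤ (Tb - T) * (2 * σ ^ 2 - 1) := mul_nonneg (by linarith only [hT]) (by linarith only [h1])
        have e3 : σ ^ 2 * (2 * (C + Tb)) ≤ Real.sinh B ^ 2 * (2 * (C + Tb)) :=
          mul_le_mul_of_nonneg_right hσ2 (by linarith only [hc1, hT, hT0, hc0])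
        linarith only [e3, e2, e1, h3, h2]
      have k3 := k1.trans (Real.arsinh_le_arsinh.2 k2)
      rw [Real.arsinh_sinh] at k3
      have k4 := mul_le_mul_of_nonneg_left k3 (show 0 ≤ 2 / Real.pi by positivity)
      linarith only [k4]
  have k := key ⟨le_rfl, a1⟩ ⟨a1, le_rfl⟩ a1
  simp only at k
  have e : 2 / Real.pi * B * (Real.pi * a) - 2 / Real.pi * B * (Real.pi * A) =
      2 * (a - A) * B := by
    field_simp
  linarith only [e, k]

/-! ### The gain above the test height -/

theorem lx_arsinh_ge {z : ℝ} (hz : 0 ≤ z) : z - z ^ 3 / 6 ≤ Real.arsinh z := by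
  have h := LowA_pos (b := z) (f := fun x => Real.arsinh x - (x - x ^ 3 / 6))
    (f' := fun x => (√(1 + x ^ 2))⁻¹ - (1 - 3 * x ^ 2 / 6))
    (fun x _ _ => by
      have h1 := (Real.hasDerivAt_arsinh x).sub ((hasDerivAt_id' x).sub
        ((hasDerivAt_pow 3 x).div_const 6))
      refine h1.congr_deriv ?_
      norm_num)
    (by simp) (fun x hx _ => ?_) hz le_rfl
  · linarith only [h]
  · have h0 : 0 < √(1 + x ^ 2) := Real.sqrt_pos.2 (by positivity)
    rw [sub_nonneg, ← one_div, le_div_iff₀ h0]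
    rcases le_total (1 - 3 * x ^ 2 / 6) 0 with h1 | h1
    · linarith only [mul_nonneg (sub_nonneg.2 h0.le) (sub_nonneg.2 h1)]
    · apply le_of_sq_le_sq _ (by norm_num)
      rw [mul_pow, Real.sq_sqrt (by positivity)]
      have h2 : x ^ 2 ≤ 2 := by linarith only [h1]
      have h3 := sq_nonneg x
      generalize x ^ 2 = p at *
      linarith only [mul_nonneg (mul_nonneg h3 h3) (show 0 ≤ 3 - p by linarith)]

theorem lx_tan_ge (h0 : 1 / 3 ≤ θ) (h1 : θ < Real.pi / 2) : 345 / 1000 ≤ Real.tan θ := by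
  have hpi := Real.pi_gt_three
  have s1 := lx_s3 (x := 1 / 3) (by norm_num)
  have c1 := lx_c4 (x := 1 / 3) (by norm_num)
  norm_num at s1 c1
  have hc : 0 < Real.cos (1 / 3) := Real.cos_pos_of_mem_Ioo ⟨by linarith only [h1, h0], by linarith only [h1,
                                                                                             h0]⟩
  have h2 : 345 / 1000 ≤ Real.tan (1 / 3) := by
    rw [Real.tan_eq_sin_div_cos, le_div_iff₀ hc]
    norm_num
    linarith only [c1, s1]
  rcases h0.eq_or_lt with h | h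
  · rwa [← h]
  · exact h2.trans (Real.tan_lt_tan_of_lt_of_lt_pi_div_two (by linarith only [h1, h0]) h1 h).le

theorem lx_up2 (hΦ : IsPhi Φ) (h : Wq θ' w) (h0 : 1 / 3 ≤ θ) (hS : θ + θ' < Real.pi / 2)
    (ht : Real.tan θ ≤ 1) (hw : 7 / 20 ≤ w.re) {T z : ℝ}
    (hT : T ≤ Real.sinh (Real.pi * w.im) ^ 2) (hT0 : 0 ≤ T) (hz : 0 ≤ z)
    (hz2 : z ^ 2 * (12062 / 10000 + T) ≤ 7938 / 10000 * T) :
    (Φ ((1 / 4 : ℝ) : ℂ) ((starRingEnd ℂ) w)).re +
      (3304 / 100000 + 43 / 100 * z) / Real.pi ≤ (Φ (tp θ) ((starRingEnd ℂ) w)).re := by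
  have hpi := Real.pi_pos
  have t0 : 0 < θ := by linarith only [h0]
  have hη : 0 ≤ Real.pi * bl θ (1 / 4) := by
    apply mul_nonneg hpi.le
    exact bl_nonneg t0.le (by linarith only [h.pos, hS]) (by rw [abs_of_pos] <;> norm_num)
  have e1 : (Complex.cos ((Real.pi : ℂ) * (starRingEnd ℂ) w)).re =
      Real.cos (Real.pi * w.re) * Real.cosh (Real.pi * w.im) := by
    rw [wcos_re, pi_mul_re, pi_mul_im, conj_re, conj_im, mul_neg, Real.cosh_neg]
  have e2 : (Complex.cos ((Real.pi : ℂ) * (starRingEnd ℂ) w)).im =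
      Real.sin (Real.pi * w.re) * Real.sinh (Real.pi * w.im) := by
    rw [wcos_im, pi_mul_re, pi_mul_im, conj_re, conj_im, mul_neg, Real.sinh_neg]
    ring
  have hsn : 0 ≤ Real.sin (Real.pi * w.re) := by
    apply Real.sin_nonneg_of_nonneg_of_le_pi (mul_nonneg hpi.le h.re0)
    linarith only [hpi, mul_nonneg (sub_nonneg.2 hpi.le) (sub_nonneg.2 h.re1)]
  obtain ⟨k1, k2⟩ := h.sinh_le
  have hc := lx_cos h.re0 h.re1
  have h2 := Real.cosh_sq (Real.pi * w.im)
  have h3 := Real.sin_sq_add_cos_sq (Real.pi * w.re)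
  have c1 : 9549 / 100000 ≤ Real.cos (Real.pi * w.re) ^ 2 :=
    lx_k4.trans (lx_cs_anti h.re0 h.re1 (by norm_num))
  have c2 : Real.cos (Real.pi * w.re) ^ 2 ≤ 2062 / 10000 :=
    (lx_cs_anti (by norm_num) hw (by linarith only [h.re1])).trans
      (lx_cs_hi (y := 3141592 / 5000000) (by norm_num) (by norm_num) (by norm_num) (by norm_num))
  have C0 := Real.cosh_pos (Real.pi * w.im)
  have hnn : normSq (Complex.cos ((Real.pi : ℂ) * (starRingEnd ℂ) w)) =
      Real.cos (Real.pi * w.re) ^ 2 + Real.sinh (Real.pi * w.im) ^ 2 := by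
    rw [normSq_apply, e1, e2]
    generalize Real.sinh (Real.pi * w.im) = S at *
    generalize Real.cosh (Real.pi * w.im) = C at *
    generalize Real.sin (Real.pi * w.re) = s at *
    generalize Real.cos (Real.pi * w.re) = c at *
    linear_combination (c ^ 2) * h2 + S ^ 2 * h3
  set N := √(1 + Real.cos (Real.pi * w.re) ^ 2 + Real.sinh (Real.pi * w.im) ^ 2) with hN
  have hN0 : 0 < N := Real.sqrt_pos.2 (by positivity)
  have hN2 : N ^ 2 = 1 + Real.cos (Real.pi * w.re) ^ 2 + Real.sinh (Real.pi * w.im) ^ 2 :=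
    Real.sq_sqrt (by positivity)
  have g := lx_gain hΦ h.pre hη (h.reg t0 hS) (by rw [e1]; positivity)
    (by rw [e2]; positivity) hN0 (by rw [hnn, hN2]; linarith only [])
  rw [FP_tp h, FP_real4] at g
  have hch : Real.cosh (2 * (Real.pi * bl θ (1 / 4))) = 1 + Real.tan θ ^ 2 := by
    have h1 := Real.cosh_sq (Real.pi * bl θ (1 / 4))
    rw [Real.cosh_two_mul, h1, LowA_sinh, mul_pow, div_pow, Real.sq_sqrt (by norm_num)]
    ring
  have htg := lx_tan_ge h0 (by linarith only [h.pos, hS])
  rw [hch, e1, e2] at g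
  -- the logarithm
  have hl : 112 / 1000 ≤ Real.log (1 + Real.tan θ ^ 2) := by
    have h2 := Real.le_log_one_add_of_nonneg (x := 119 / 1000) (by norm_num)
    have h3 : Real.log (1 + 119 / 1000) ≤ Real.log (1 + Real.tan θ ^ 2) :=
      Real.log_le_log (by norm_num) (by linarith only [htg,
                                          mul_nonneg (sub_nonneg.2 htg) (sub_nonneg.2 htg)])
    norm_num at h2 h3 ⊢
    linarith only [h3, h2]
  -- the height
  have hηz : 215 / 1000 * (1 + Real.tan θ ^ 2) ≤ Real.pi * bl θ (1 / 4) := by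
    have a1 := lx_arsinh_ge (z := Real.tan θ * (√2 / 2)) (by
      have : 0 ≤ Real.tan θ := by linarith only [htg]
      positivity)
    have a2 : Real.arsinh (Real.tan θ * (√2 / 2)) = Real.pi * bl θ (1 / 4) := by
      rw [← LowA_sinh, Real.arsinh_sinh]
    rw [a2] at a1
    have a3 : (Real.tan θ * (√2 / 2)) ^ 2 = Real.tan θ ^ 2 / 2 := by
      rw [mul_pow, div_pow, Real.sq_sqrt (by norm_num)]
      ring
    have a4 : (1.4142 : ℝ) ≤ √2 := by
      apply Real.le_sqrt_of_sq_le
      norm_num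
    have a5 : 2439 / 10000 ≤ Real.tan θ * (√2 / 2) := by (refine le_of_not_gt fun hng => ?_; linarith only [hng,
                                                           htg,
                                                           mul_nonneg (sub_nonneg.2 htg) (sub_nonneg.2 htg),
                                                           mul_nonneg (sub_nonneg.2 hng.le) (sub_nonneg.2 htg),
                                                           mul_nonneg (sq_nonneg (1 * Real.tan θ)) (sub_nonneg.2 a4)])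
    have a6 : (Real.tan θ * (√2 / 2)) ^ 2 ≤ 1 / 2 := by
      rw [a3]
      linarith only [ht, mul_nonneg (sub_nonneg.2 ht) (sub_nonneg.2 htg)]
    refine le_trans ?_ a1
    have a7 : Real.tan θ ^ 2 = 2 * (Real.tan θ * (√2 / 2)) ^ 2 := by rw [a3]; ring
    rw [a7]
    generalize Real.tan θ * (√2 / 2) = z at *
    have a8 : z ≤ 7072 / 10000 := by (refine le_of_not_gt fun hng => ?_; linarith only [hng, a6,
                                       mul_pos (sub_pos.2 hng) (sub_pos.2 hng)])
    have a9 : 0 ≤ (z - 2439 / 10000) * (1 - (z ^ 2 + z * (2439 / 10000) + (2439 / 10000) ^ 2) / 6 -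
        43 / 100 * (z + 2439 / 10000)) := by
      apply mul_nonneg (by linarith only [a5])
      linarith only [a8, a6]
    linarith only [a9]
  -- the two coefficients
  have g3 : 295 / 1000 * N ≤ Real.cos (Real.pi * w.re) * Real.cosh (Real.pi * w.im) := by
    apply le_of_sq_le_sq _ (by positivity)
    rw [mul_pow, mul_pow, hN2, h2]
    have := sq_nonneg (Real.sinh (Real.pi * w.im))
    generalize Real.cos (Real.pi * w.re) ^ 2 = c at *
    generalize Real.sinh (Real.pi * w.im) ^ 2 = S at *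
    linarith only [mul_nonneg (show 0 ≤ c - 9549 / 100000 by linarith) this, hT, c1, hT0]
  have g4 : z * N ≤ Real.sin (Real.pi * w.re) * Real.sinh (Real.pi * w.im) := by
    apply le_of_sq_le_sq _ (by positivity)
    rw [mul_pow, mul_pow, hN2]
    have hs2 : Real.sin (Real.pi * w.re) ^ 2 = 1 - Real.cos (Real.pi * w.re) ^ 2 := by linarith only [h3]
    rw [hs2]
    have hS0 := sq_nonneg (Real.sinh (Real.pi * w.im))
    have hz3 := sq_nonneg z
    generalize Real.cos (Real.pi * w.re) ^ 2 = c at *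
    generalize Real.sinh (Real.pi * w.im) ^ 2 = S at *
    generalize z ^ 2 = q at *
    have q1 : q ≤ 7938 / 10000 := by
      by_contra hn
      push Not at hn
      linarith only [hn, hz2, mul_nonneg (sub_nonneg.2 hT0) (sub_nonneg.2 hn.le)]
    have q2 : 0 ≤ (S - T) * (7938 / 10000 - q) := mul_nonneg (by linarith only [hT]) (by linarith only [q1])
    have q3 : q * (1 + c + S) ≤ q * (12062 / 10000 + S) := by
      apply mul_le_mul_of_nonneg_left _ hz3
      linarith only [c2]
    have q4 : 7938 / 10000 * S ≤ (1 - c) * S := mul_le_mul_of_nonneg_right (by linarith only [c2]) hS0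
    linarith only [q4, q3, q2, hz2]
  have hD : 0 < 1 + Real.tan θ ^ 2 := by positivity
  have g5 : (3304 / 100000 + 43 / 100 * z) / Real.pi ≤ 1 / (Real.pi * N) *
      (Real.cos (Real.pi * w.re) * Real.cosh (Real.pi * w.im) * Real.log (1 + Real.tan θ ^ 2) +
      2 * (Real.sin (Real.pi * w.re) * Real.sinh (Real.pi * w.im)) *
      (Real.pi * bl θ (1 / 4)) / (1 + Real.tan θ ^ 2)) := by
    have f1 : 295 / 1000 * N * (112 / 1000) ≤ Real.cos (Real.pi * w.re) *
        Real.cosh (Real.pi * w.im) * Real.log (1 + Real.tan θ ^ 2) :=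
      mul_le_mul g3 hl (by norm_num) (by positivity)
    have f2 : 2 * (z * N) * (215 / 1000) ≤ 2 * (Real.sin (Real.pi * w.re) *
        Real.sinh (Real.pi * w.im)) * (Real.pi * bl θ (1 / 4)) / (1 + Real.tan θ ^ 2) := by
      rw [le_div_iff₀ hD, mul_assoc _ (215 / 1000 : ℝ)]
      exact mul_le_mul (by linarith only [g4]) hηz (by positivity) (by positivity)
    have f3 : (3304 / 100000 + 43 / 100 * z) * N ≤ Real.cos (Real.pi * w.re) *
        Real.cosh (Real.pi * w.im) * Real.log (1 + Real.tan θ ^ 2) +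
        2 * (Real.sin (Real.pi * w.re) * Real.sinh (Real.pi * w.im)) *
        (Real.pi * bl θ (1 / 4)) / (1 + Real.tan θ ^ 2) := by
      refine le_trans ?_ (add_le_add f1 f2)
      linarith only []
    rw [div_le_iff₀ hpi]
    have e : ∀ X : ℝ, 1 / (Real.pi * N) * X * Real.pi = X / N := by
      intro X
      field_simp
    rw [e, le_div_iff₀ hN0]
    exact f3
  linarith only [g5, g]

end

end Pool.Agent.S3
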