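import Pool.Agent.S3.LX6
import Pool.Agent.S3.LX9

/-!
# Small indices, inner vertices with two half twists: the weights at the test points
-/

set_option autoImplicit false

namespace Pool.Agent.S3

open Complex

section

variable {Φ : ℂ → ℂ → ℂ} {θ θ' x : ℝ} {v w : ℂ}

/-- `log cosh (2 η) / (π √3) - η ≥ - 0.5313`. -/
theorem lx_h2 {η : ℝ} (h0 : 0 ≤ η) (h1 : 2 * Real.sinh η ^ 2 ≤ 1) :
    -(5313 / 10000) ≤ 1 / (Real.pi * √3) * Real.log (Real.cosh (2 * η)) - η := by
  have hpi := Real.pi_pos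
  have h3 : (0 : ℝ) < √3 := by positivity
  have hs := lx_sinhT (B := 6585 / 10000) (by norm_num)
  norm_num at hs
  have hη : η ≤ 6585 / 10000 := by
    by_contra hc
    push Not at hc
    have k2 : Real.sinh (1317 / 2000) ≤ Real.sinh η :=
      Real.sinh_le_sinh.2 (by norm_num at hc ⊢; exact hc.le)
    have k3 : (7071 / 10000 + 3 / 100000 : ℝ) ≤ Real.sinh (1317 / 2000) := by
      refine le_trans ?_ hs
      norm_num
    nlinarith
  have hk : 18377 / 100000 ≤ 1 / (Real.pi * √3) := by
    have h3 : √3 ≤ 1.7320509 := by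
      rw [Real.sqrt_le_left (by norm_num)]
      norm_num
    have h4 : Real.pi * √3 ≤ 3.141593 * 1.7320509 :=
      mul_le_mul Real.pi_lt_d6.le h3 (by positivity) (by norm_num)
    rw [div_le_div_iff₀ (by norm_num) (by positivity)]
    norm_num at h4 ⊢
    linarith
  have hk' : 1 / (Real.pi * √3) ≤ 1 / 2 := by
    apply one_div_le_one_div_of_le (by norm_num)
    have h3 : (1 : ℝ) ≤ √3 := by
      rw [Real.one_le_sqrt]
      norm_num
    have := Real.pi_gt_three
    nlinarith
  set k := 1 / (Real.pi * √3) with hkd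
  have key : AntitoneOn (fun s => k * Real.log (Real.cosh (2 * s)) - s)
      (Set.Icc η (6585 / 10000)) := by
    have hd : ∀ s : ℝ, HasDerivAt (fun s => k * Real.log (Real.cosh (2 * s)) - s)
        (k * (Real.sinh (2 * s) * 2 / Real.cosh (2 * s)) - 1) s := by
      intro s
      have h2 : HasDerivAt (fun s : ℝ => Real.cosh (2 * s)) (Real.sinh (2 * s) * 2) s := by
        have := ((hasDerivAt_id' s).const_mul 2).cosh
        simpa using this
      exact ((h2.log (Real.cosh_pos _).ne').const_mul k).sub (hasDerivAt_id' s)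
    apply antitoneOn_of_deriv_nonpos (convex_Icc _ _)
    · exact fun s _ => (hd s).continuousAt.continuousWithinAt
    · exact fun s _ => (hd s).differentiableAt.differentiableWithinAt
    · intro s hs
      rw [(hd s).deriv]
      have c := Real.cosh_pos (2 * s)
      have hsc : Real.sinh (2 * s) ≤ Real.cosh (2 * s) := (Real.sinh_lt_cosh _).le
      have h5 : Real.sinh (2 * s) * 2 / Real.cosh (2 * s) ≤ 2 := by
        rw [div_le_iff₀ c]
        linarith
      have h6 : 0 ≤ k := by linarith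
      have h7 := mul_le_mul_of_nonneg_left h5 h6
      linarith
  have k1 := key ⟨le_rfl, hη⟩ ⟨hη, le_rfl⟩ hη
  simp only at k1
  have c1 : 2 ≤ Real.cosh (2 * (6585 / 10000)) := by
    have k3 : (7071 / 10000 + 3 / 100000 : ℝ) ≤ Real.sinh (6585 / 10000) := by
      norm_num
      refine le_trans ?_ hs
      norm_num
    rw [Real.cosh_two_mul, Real.cosh_sq]
    nlinarith
  have l1 : 6931 / 10000 ≤ Real.log (Real.cosh (2 * (6585 / 10000))) := by
    have l2 := Real.log_le_log (by norm_num) c1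
    have l5 := Real.log_two_gt_d9
    norm_num at l5 ⊢
    norm_num at l2
    linarith
  have l2 : 18377 / 100000 * (6931 / 10000) ≤
      k * Real.log (Real.cosh (2 * (6585 / 10000))) :=
    mul_le_mul hk l1 (by norm_num) (by linarith)
  linarith

/-- The weights at the test points: two half twists (up to `π/4`) and at least three. -/
theorem low2_A1_23' (hΦ : IsPhi Φ) (h0 : Φ 0 0 = c00) (t0 : 0 < θ) (t1 : θ < Real.pi / 2)
    (t2 : Real.tan θ < 1) (t0' : 0 < θ') (t1' : θ' < Real.pi / 2)
    (t2' : 147 * Real.tan θ' ^ 2 ≤ 53) :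
    1 / 10 + Real.pi * bl θ (1 / 4) + Real.pi / 2 * bl θ' (1 / 4) <
      (Φ (tp θ) ((starRingEnd ℂ) (tp θ'))).re := by
  have hpi := Real.pi_pos
  have tt := lx_tan_pos t0 t1
  have tt' := lx_tan_pos t0' t1'
  have b0 := (lx_bl_pos t0 t1).le
  have b0' := (lx_bl_pos t0' t1').le
  have s0 : Real.sinh 0 < Real.cos (Real.pi / 4) := by
    rw [Real.sinh_zero, Real.cos_pi_div_four]
    positivity
  have s1 := lx_sinh_lt t0 t1 t2
  have s1' := lx_sinh_lt t0' t1' (by nlinarith)
  rw [lx_tp_pair]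
  have g0 := LowA_base hΦ h0
  have g1 := LowA_gain hΦ b0 le_rfl s1 s0
  rw [neg_zero] at g1
  have r1 := reg_pair LowA_quarter LowA_quarter b0 b0' s1 s1'
  have r2 := reg_pair LowA_quarter LowA_quarter b0 le_rfl s1 s0
  have g2 := LowA_gain hΦ.swap b0' b0 s1' s1
  rw [FP_flip hΦ LowA_quarter LowA_quarter r1] at g2
  have f2 := FP_flip hΦ LowA_quarter LowA_quarter r2
  rw [neg_zero] at f2
  rw [f2] at g2
  have q1 : 2 * Real.sinh (Real.pi * bl θ (1 / 4)) ^ 2 ≤ 1 := by
    rw [LowA_sinh, mul_pow, div_pow, Real.sq_sqrt (by norm_num)]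
    nlinarith
  have q2 : 294 * Real.sinh (Real.pi * bl θ' (1 / 4)) ^ 2 ≤ 53 := by
    rw [LowA_sinh, mul_pow, div_pow, Real.sq_sqrt (by norm_num)]
    linarith
  have n1 := lx_h2 b0 q1
  have n2 := LowA_h b0' q2
  linarith

end

end Pool.Agent.S3
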