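import Pool.Agent.S3.LL7
import Pool.Agent.S3.LX11
import Pool.Agent.S3.LX12
import Pool.Agent.S3.E.RngB

/-!
# The small indices with lattice sums: the estimates of the lattice vertices
-/

set_option autoImplicit false

namespace Pool.Agent.S3.T2

open Pool.Agent.H63.VC hiding ext
open Pool.Agent.H63.VC3 Pool.Agent.H63.VC4 Pool.Agent.H63.VC6 Pool.Agent.H63.VC7 Complex
open Pool.Agent.S3.E
open Pool.Agent.H25.RK Pool.Agent.H63.GO Filter Topology MeasureTheory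
open scoped BigOperators

section

variable {Φ : ℂ → ℂ → ℂ} {θ θ' v1' g : ℝ} {w : ℂ}

theorem Und.wq (h : Und θ w) (hθ : Ht θ) : Wq θ w where
  re0 := h.re0
  re1 := h.re1
  im0 := h.im0
  im1 := h.im1
  pos := hθ.pos
  lt := hθ.lt
  tan := by
    have h1 := hθ.tan
    have h2 := Real.tan_pos_of_pos_of_lt_pi_div_two hθ.pos hθ.lt
    nlinarith

/-- **The estimates of a lattice vertex.** -/
theorem latV_of (hΦ : IsPhi Φ) (h0 : Φ 0 0 = c00) (hθ : Ht θ) (hθ' : Ht θ')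
    (ht' : Real.tan θ' < 1) (hS : θ + θ' < Real.pi / 2)
    (hg : 1 / 10 ≤ g ∨ (0 ≤ g ∧ 1 / 3 ≤ θ)) : LatV Φ θ θ' v1' g where
  g0 := by
    rcases hg with h | ⟨h, -⟩
    · linarith
    · exact h
  base := by
    intro x w hx hx' hw hr
    exact lat_base hΦ (hw.wq hθ') ht' hθ.pos hS ((Und_tp hθ).wq hθ).tan hg hx hx'
  d := by
    intro x hx hx'
    have hw := (Und_tp hθ').wq hθ'
    have k := low2_A3c hΦ hw hθ.pos hS
    have s0 := s1_nonneg hx'
    rcases le_total |x| (1 / 4) with h | h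
    · refine ⟨|x|, abs_nonneg _, h, le_rfl, ?_⟩
      rw [s1_even]
      rcases hg with h1 | ⟨h1, h2⟩
      · have := low2_A3a hΦ hw hθ.pos hS hx h
        linarith
      · have := low2_A3b hΦ hw h2 hS hx h
        linarith
    · refine ⟨1 / 4, by norm_num, le_rfl, h, ?_⟩
      rcases hg with h1 | ⟨h1, h2⟩ <;> linarith
  e1 := by
    intro w hw hr
    have hq := hw.wq hθ'
    have k := low2_A3c hΦ hq hθ.pos hS
    have k1 := low2_E2a hΦ h0 hq.tan hq.re0 hq.re1 hq.im0 hq.im1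
    rcases hg with h1 | ⟨h1, h2⟩ <;> linarith
  e2 := by
    intro w y hw hr y0 y1
    have hq := hw.wq hθ'
    have k := low2_A3c hΦ hq hθ.pos hS
    have k1 := low2_E2b hΦ h0 hq.tan hq.re0 hq.re1 hq.im0 hq.im1 y0 y1
    rcases hg with h1 | ⟨h1, h2⟩ <;> linarith

end

variable {m : ℕ}

section

variable {a : Fin (m + 1) → ℕ} {σ : Fin (m + 1) → ℤ} {z : Fin (m + 1) → ℂ} {Φ : ℂ → ℂ → ℂ}
  {v1 : Fin (m + 1) → ℝ}

/-- The ranges of the angles. -/
structure ThR (a : Fin (m + 1) → ℕ) (z : Fin (m + 1) → ℂ) (i : Fin (m + 1)) : Prop where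
  pos : 0 < th (z i).re (z i).im
  lt : th (z i).re (z i).im < Real.pi / 2
  two : a i = 2 → Real.tan (th (z i).re (z i).im) < 1 ∧ 1 / 3 ≤ th (z i).re (z i).im
  three : a i ≠ 2 → 147 * Real.tan (th (z i).re (z i).im) ^ 2 ≤ 53

theorem ThR.tan {i : Fin (m + 1)} (h : ThR a z i) : Real.tan (th (z i).re (z i).im) < 1 := by
  by_cases c : a i = 2
  · exact (h.two c).1
  · have := h.three c
    nlinarith

theorem ThR.ht {i : Fin (m + 1)} (h : ThR a z i) : Ht (th (z i).re (z i).im) :=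
  ⟨h.pos, h.lt, by
    have h1 := h.tan
    have h2 := Real.tan_pos_of_pos_of_lt_pi_div_two h.pos h.lt
    nlinarith⟩

theorem ThR.g {i : Fin (m + 1)} (h : ThR a z i) :
    1 / 10 ≤ gC a i ∨ (0 ≤ gC a i ∧ 1 / 3 ≤ th (z i).re (z i).im) := by
  by_cases c : a i = 2
  · exact Or.inr ⟨gC_nonneg a i, (h.two c).2⟩
  · left
    unfold gC
    rw [if_neg c]

/-- **The estimates at the test points.** -/
theorem low_bad (hΦ : IsPhi Φ) (h0 : Φ 0 0 = c00) {n p : Fin (m + 1)} (hn : ThR a z n)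
    (hp : ThR a z p) (hS : th (z n).re (z n).im + th (z p).re (z p).im < Real.pi / 2) :
    gC a n + rC2 a z n + (gC a p + rC2 a z p) <
      (Φ (tp (th (z n).re (z n).im)) ((starRingEnd ℂ) (tp (th (z p).re (z p).im)))).re := by
  have hpi := Real.pi_pos
  have bn := (Und_tp hn.ht).im0
  have bp := (Und_tp hp.ht).im0
  rw [tp_im] at bn bp
  unfold gC rC2
  by_cases c1 : a n = 2
  · rw [if_pos c1, if_pos c1]
    by_cases c2 : a p = 2
    · rw [if_pos c2, if_pos c2]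
      have := low2_A1_22 hΦ h0 hn.pos hn.lt hn.tan hp.pos hp.lt hp.tan
      linarith
    · rw [if_neg c2, if_neg c2]
      have := low2_A1_23' hΦ h0 hn.pos hn.lt hn.tan hp.pos hp.lt (hp.three c2)
      linarith
  · rw [if_neg c1, if_neg c1]
    by_cases c2 : a p = 2
    · rw [if_pos c2, if_pos c2]
      have k := low2_A1_23' hΦ.swap h0 hp.pos hp.lt hp.tan hn.pos hn.lt (hn.three c1)
      have pr : Pr (th (z n).re (z n).im) (th (z p).re (z p).im) (tp (th (z n).re (z n).im))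
          (tp (th (z p).re (z p).im)) := ⟨Und_tp hn.ht, Und_tp hp.ht, hn.ht, hp.ht, hS⟩
      rw [← Phi_conj hΦ pr]
      linarith
    · rw [if_neg c2, if_neg c2]
      have := low_A1 hΦ h0 ⟨hn.pos, hn.lt, hn.three c1⟩ ⟨hp.pos, hp.lt, hp.three c2⟩
      linarith

theorem latVall_of (h : Zr (fun i => (a i : ℝ)) chL chR 1 z)
    (hR : ∀ i, ¬ clo a i → ThR a z i) : LatVall a z v1 := by
  intro Ψ hΨ h0 n p hnp cn cp
  have hn := hR n cn
  have hp := hR p cp
  have hS := h.S_lt hnp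
  exact ⟨latV_of hΨ h0 hn.ht hp.ht hp.tan hS hn.g, low_bad hΨ h0 hn hp hS⟩

/-- The ranges of the angles, from the strict bound at the inner vertices with two twists. -/
theorem thR_of (h : Zr (fun i => (a i : ℝ)) chL chR 1 z) (ha : ∀ i, 2 ≤ a i)
    {i : Fin (m + 1)} (hi : ¬ clo a i)
    (ht : a i = 2 → Real.tan (th (z i).re (z i).im) < 1) : ThR a z i where
  pos := h.thpos i
  lt := (abs_lt.1 (abs_th_lt (h.pos i).1 (h.pos i).2.1 (h.pos i).2.2)).2
  two := fun c => ⟨ht c, h.two_th_ge (show ((a i : ℕ) : ℝ) = 2 by rw [c]; norm_num)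
    (Cl.inner_of hi c)⟩
  three := fun c => by
    have h4 : 3 ≤ a i := by have := ha i; omega
    exact (Pool.Agent.S3.Ht_of (h.thpos i) (h.th3_le (T.cast3 h4))).tan

/-- **The small indices are negligible: the chain.** -/
theorem low_chain3 (hm : 1 ≤ m) (h : Zr (fun i => (a i : ℝ)) chL chR 1 z) (ha : ∀ i, 2 ≤ a i)
    (hσ : ∀ i, σ i = 1 ∨ σ i = -1) (hs : ∀ j : Fin m, σ j.succ = -σ j.castSucc)
    (h2 : ∀ j : Fin m, ¬ (clo a j.castSucc ∧ clo a j.succ)) (hv1 : ∀ i, V1 (v1 i))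
    (h14 : ∀ i, 1 / 4 ≤ v1 i)
    (ht : ∀ i, ¬ clo a i → a i = 2 → Real.tan (th (z i).re (z i).im) < 1)
    (hΦ : IsPhi Φ) (h0 : Φ 0 0 = c00) (hD : OODall a σ z Φ v1)
    (hP : PhiLall a σ z Φ v1) (hE : (cfgOf a σ z).Edg v1 (lamC a z)) :
    ∃ δ : ℝ, 0 < δ ∧ ∃ (K : ℝ) (p : ℕ), ∀ᶠ M : ℕ in atTop,
      ‖JG (Fin.castSucc (n := m)) Fin.succ (cfgOf a σ z).r M - J0 (cfgOf a σ z).r M‖ ≤
        K * (M : ℝ) ^ p * Real.exp (M * (((cfgOf a σ z).V (cp (cfgOf a σ z).ac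
          (cfgOf a σ z).bc)).re - δ)) := by
  have hR : ∀ i, ¬ clo a i → ThR a z i := fun i hi => thR_of h ha hi (ht i hi)
  exact low_chain2 hm h ha hσ hs h2 hv1 h14 (fun i hi => (hR i hi).ht) hΦ h0 hD hP
    (latVall_of h hR) (fun j hc => clLow_of h ha hσ hs h2 hc) hE

end

end Pool.Agent.S3.T2
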