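import Pool.Agent.S3.Cl.Rng2c
import Pool.Agent.S3.E.OTwoS
import Pool.Agent.S3.E.RngC
import Pool.Agent.S3.LL8
import Pool.Agent.S3.W2.PhiV

/-!
# The value at the critical point is less than the bound, for a chain
-/

set_option autoImplicit false

namespace Pool.Agent.S3.T2

open Pool.Agent.H63.VC hiding ext
open Pool.Agent.H63.VC3 Pool.Agent.H63.VC4 Pool.Agent.H63.VC6 Pool.Agent.H63.VC7 Complex
open Pool.Agent.S3.E
open Pool.Agent.H25.RK Pool.Agent.H63.GO Filter Topology MeasureTheory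
open scoped BigOperators

variable {m : ℕ}

/-- The abscissas of the verticals. -/
noncomputable def vT (a : Fin (m + 1) → ℕ) (i : Fin (m + 1)) : ℝ :=
  if a i = 2 then 2 / 5 else 13 / 40

theorem vT_two {a : Fin (m + 1) → ℕ} {i : Fin (m + 1)} (h : a i = 2) : vT a i = 2 / 5 := by
  unfold vT; rw [if_pos h]

theorem vT_three {a : Fin (m + 1) → ℕ} {i : Fin (m + 1)} (h : a i ≠ 2) : vT a i = 13 / 40 := by
  unfold vT; rw [if_neg h]

theorem vT_V1 (a : Fin (m + 1) → ℕ) (i : Fin (m + 1)) : V1 (vT a i) := by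
  unfold vT
  split_ifs
  · exact ⟨by norm_num, by norm_num⟩
  · exact ⟨by norm_num, by norm_num⟩

theorem vT_ge (a : Fin (m + 1) → ℕ) (i : Fin (m + 1)) : 1 / 4 ≤ vT a i := by
  unfold vT
  split_ifs <;> norm_num

theorem cos_sq_3pi10 {R : ℝ} (h : 3 / 10 * Real.pi ≤ R) (h' : R < Real.pi / 2) :
    Real.cos R ^ 2 ≤ 3455 / 10000 := by
  have hpi := Real.pi_pos
  have h1 : Real.cos R ≤ Real.cos (3 / 10 * Real.pi) :=
    Real.cos_le_cos_of_nonneg_of_le_pi (by positivity) (by linarith) h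
  have h0 : 0 ≤ Real.cos R := (Real.cos_pos_of_mem_Ioo ⟨by linarith, h'⟩).le
  have h2 : Real.cos (3 / 10 * Real.pi) ^ 2 = 1 / 2 + Real.cos (3 * Real.pi / 5) / 2 := by
    rw [Real.cos_sq]
    congr 3
    ring
  have h3 : Real.cos (3 * Real.pi / 5) = 1 - 2 * ((1 + √5) / 4) ^ 2 := by
    have e : 3 * Real.pi / 5 = Real.pi - 2 * (Real.pi / 5) := by ring
    rw [e, Real.cos_pi_sub, Real.cos_two_mul, Real.cos_pi_div_five]
    ring
  have h4 : 2236 / 1000 ≤ √5 := Real.le_sqrt_of_sq_le (by norm_num)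
  have h5 : √5 ^ 2 = 5 := Real.sq_sqrt (by norm_num)
  have h6 : Real.cos R ^ 2 ≤ Real.cos (3 / 10 * Real.pi) ^ 2 := pow_le_pow_left₀ h0 h1 2
  rw [h2, h3] at h6
  nlinarith

section

variable {a : Fin (m + 1) → ℕ} {σ : Fin (m + 1) → ℤ} {z : Fin (m + 1) → ℂ} {Φ : ℂ → ℂ → ℂ}

/-- The range of `re v_c` at the inner vertices with two twists and two open neighbours. -/
def ReC (a : Fin (m + 1) → ℕ) (z : Fin (m + 1) → ℂ) : Prop := ∀ i, ¬ clo a i → a i = 2 →
  (∀ k, (chL i = some k ∨ chR i = some k) → ¬ clo a k) → (z i).re ≤ 3 / 10 * Real.pi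

theorem cast2 {i : Fin (m + 1)} (h : a i = 2) : (fun i => (a i : ℝ)) i = 2 := by
  show ((a i : ℕ) : ℝ) = 2
  rw [h]; norm_num

theorem vok_of (h : Zr (fun i => (a i : ℝ)) chL chR 1 z) (ha : ∀ i, 2 ≤ a i)
    (hRc : ReC a z) {n p : Fin (m + 1)} (hnp : chL n = some p ∨ chR n = some p)
    (cn : ¬ clo a n) (cp : ¬ clo a p) :
    VOK (a n) (th (z n).re (z n).im) ((z n).re / Real.pi) (bw (z n) (z p)) (vT a n) := by
  have hpi := Real.pi_pos
  obtain ⟨p1, p2, p3⟩ := h.pos n
  have hb : bw (z n) (z p) ≤ (a n : ℝ) := h.bw_le hnp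
  have hth := h.thpos n
  have hlt := (abs_lt.1 (abs_th_lt p1 p2 p3)).2
  by_cases e : a n = 2
  · left
    have hin := Cl.inner_of cn e
    have hge := h.two_th_ge (cast2 e) hin
    rw [e] at hb
    refine ⟨e, vT_two e, hge, by norm_num at hb ⊢; exact hb, ?_⟩
    by_cases hk : ∀ k, (chL n = some k ∨ chR n = some k) → ¬ clo a k
    · left
      have := hRc n cn e hk
      rw [div_le_iff₀ hpi]
      exact this
    · push Not at hk
      obtain ⟨k, hk1, hk2⟩ := hk
      have hkp : p ≠ k := fun he => cp (he ▸ hk2)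
      rcases Cl.rng_end2 h (T.isEnd2_of_clo hk1 hk2) (cast2 e) hin hnp hkp with c | ⟨c1, c2, c3⟩
      · left
        rw [div_le_iff₀ hpi]
        exact c
      · by_cases c : (z n).re ≤ 3 / 10 * Real.pi
        · left
          rw [div_le_iff₀ hpi]
          exact c
        · right
          push Not at c
          refine ⟨by rw [div_le_iff₀ hpi]; exact c1, ?_, c3⟩
          have k1 := cos_sq_3pi10 c.le p2
          have k2 := tan_th_sq p1 p2 p3
          have k3 : ‖cos (z n)‖ ^ 2 = Real.cos (z n).re ^ 2 + Real.sinh (z n).im ^ 2 := by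
            have q1 := Real.cosh_sq (z n).im
            have q2 := Real.sin_sq (z n).re
            rw [← normSq_eq_norm_sq, normSq_apply, wcos_re, wcos_im]
            linear_combination (Real.cos (z n).re) ^ 2 * q1 + (Real.sinh (z n).im) ^ 2 * q2
          have k4 : (2 / 3) ^ 2 ≤ ‖cos (z n)‖ ^ 2 := pow_le_pow_left₀ (by norm_num) c2 2
          have ht : 0 < Real.tan (th (z n).re (z n).im) :=
            Real.tan_pos_of_pos_of_lt_pi_div_two hth hlt
          rw [k3, ← k2] at k4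
          have k5 : 4 / 9 ≤ 3455 / 10000 * (1 + Real.tan (th (z n).re (z n).im) ^ 2) := by
            nlinarith [sq_nonneg (Real.tan (th (z n).re (z n).im))]
          by_contra hc
          push Not at hc
          nlinarith
  · right
    have h3 : 3 ≤ a n := by have := ha n; omega
    by_cases e3 : a n = 3
    · left
      have c3 : (fun i => (a i : ℝ)) n = 3 := by
        show ((a n : ℕ) : ℝ) = 3
        rw [e3]; norm_num
      rw [e3] at hb
      refine ⟨e3, vT_three e, (Pool.Agent.S3.Ht_of hth (h.th3_le (T.cast3 h3))).tan,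
        by norm_num at hb ⊢; exact hb, ?_⟩
      have hj : (3 : ℝ) ≤ (fun i => (a i : ℝ)) p ∨ In2 chL chR p := by
        by_cases ep : a p = 2
        · exact Or.inr (Cl.inner_of cp ep)
        · left
          exact T.cast3 (by have := ha p; omega)
      rcases h.gain3' c3 hnp hj with c | ⟨c, c'⟩
      · left
        refine le_trans (le_of_eq ?_) c
        unfold mu
        ring
      · right
        refine ⟨by rw [div_le_iff₀ hpi]; exact c, ?_⟩
        have := Real.le_tan hth.le hlt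
        linarith
    · right
      exact ⟨by omega, vT_three e⟩

/-- **The values at the critical points.** -/
theorem phiLall_of (h : Zr (fun i => (a i : ℝ)) chL chR 1 z) (ha : ∀ i, 2 ≤ a i)
    (hRc : ReC a z) (hΦ : IsPhi Φ) (h0 : Φ 0 0 = c00) (hD : OODall a σ z Φ (vT a)) :
    PhiLall a σ z Φ (vT a) := by
  intro n p hnp cn cp s1 s2
  have H := (hD n p hnp cn cp s1 s2).oo hΦ h0 h hnp (vT_V1 a n) (vT_V1 a p)
  have hpn : chL p = some n ∨ chR p = some n := h.N.symm n p hnp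
  have o1 := vok_of h ha hRc hnp cn cp
  have o2 := vok_of h ha hRc hpn cp cn
  have g1 := gdv_re_eq h n
  have g2 := gdv_re_eq h p
  intro v w hv hv0 hw hw0 hne
  by_cases e : a n = 2 ∨ a p = 2
  · exact H.Phi_ltV (ha n) (ha p) e (by rw [g1]; exact o1) (by rw [g2]; exact o2) hv hv0 hw hw0
      hne
  · rw [not_or] at e
    obtain ⟨e1, e2⟩ := e
    have v1 := vT_three e1
    have v2 := vT_three e2
    rw [v1, v2] at H
    rw [v1] at o1 hv
    rw [v2] at o2 hw
    rw [v1, v2]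
    have t1 : 3 ≤ a n := by have := ha n; omega
    have t2 : 3 ≤ a p := by have := ha p; omega
    have gn : ∀ n p : Fin (m + 1), (chL n = some p ∨ chR n = some p) → 3 ≤ a p → a n = 3 →
        mu (bw (z n) (z p)) 3 (13 / 40) ≤ 14 / 25 * Real.tan (th (z n).re (z n).im) := by
      intro n p hnp t2 e3
      have c3 : (fun i => (a i : ℝ)) n = 3 := by
        show ((a n : ℕ) : ℝ) = 3
        rw [e3]; norm_num
      refine le_trans (le_of_eq ?_) (h.gain33 c3 hnp (T.cast3 t2))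
      unfold mu
      ring
    exact H.Phi_ltV3 t1 t2 (by rw [g1]; exact o1) (by rw [g2]; exact o2)
      (gn n p hnp t2) (gn p n hpn t1) hv hv0 hw hw0 hne

theorem tan2_lt (h : Zr (fun i => (a i : ℝ)) chL chR 1 z) (i : Fin (m + 1)) (c : ¬ clo a i)
    (e : a i = 2) : Real.tan (th (z i).re (z i).im) < 1 := by
  obtain ⟨j, k, hj, hk⟩ := Cl.inner_of c e
  exact h.two_tan_lt (cast2 e) hj hk

/-- **The small indices are negligible: the chain.** -/
theorem low_chain4 (hm : 1 ≤ m) (h : Zr (fun i => (a i : ℝ)) chL chR 1 z) (ha : ∀ i, 2 ≤ a i)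
    (hσ : ∀ i, σ i = 1 ∨ σ i = -1) (hs : ∀ j : Fin m, σ j.succ = -σ j.castSucc)
    (h2 : ∀ j : Fin m, ¬ (clo a j.castSucc ∧ clo a j.succ))
    (hRc : ReC a z)
    (hΦ : IsPhi Φ) (h0 : Φ 0 0 = c00) (hD : OODall a σ z Φ (vT a))
    (hE : (cfgOf a σ z).Edg (vT a) (lamC a z)) :
    ∃ δ : ℝ, 0 < δ ∧ ∃ (K : ℝ) (p : ℕ), ∀ᶠ M : ℕ in atTop,
      ‖JG (Fin.castSucc (n := m)) Fin.succ (cfgOf a σ z).r M - J0 (cfgOf a σ z).r M‖ ≤
        K * (M : ℝ) ^ p * Real.exp (M * (((cfgOf a σ z).V (cp (cfgOf a σ z).ac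
          (cfgOf a σ z).bc)).re - δ)) :=
  low_chain3 hm h ha hσ hs h2 (vT_V1 a) (vT_ge a) (tan2_lt h) hΦ h0 hD
    (phiLall_of h ha hRc hΦ h0 hD) hE

end

end Pool.Agent.S3.T2
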