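import Pool.Agent.H25.RK.DGf
import Pool.Agent.H63.VC.Asym
import Pool.Agent.H63.VC.EndB
import Pool.Agent.H63.VC.Riem
import Pool.Agent.H63.VC.SlowL
import Pool.Agent.H63.VC.SlowU
import Pool.Agent.H63.VC3.CritB
import Pool.Agent.H63.VC3.Upper
import Pool.Agent.H63.VC4.KBN
import Pool.Agent.H63.VC4.UpperN
import Pool.Agent.H63.VC5.Defs
import Pool.Agent.H63.VC6.LocU
import Pool.Agent.H63.VC6.SlotU
import Pool.Agent.H63.VC7.Link
import Pool.Agent.S3.Gr6
import Pool.Agent.S3.Low4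

/-! # Small indices, lattice sums at the vertices: the exact formula

`JX r Q ψ M S` is a part of the invariant in which the factors of the vertices outside `Q` are
products of given functions of the indices; `JX_eq`: it is an integral over contours at the vertices
in `Q`. `JS_eq_sum`: if every open vertex at an edge in `L` has only one edge in `L`, the part `JS` of
the set `L` of edges with small indices is a finite sum of such terms. -/

set_option autoImplicit false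

namespace Pool.Agent.S3

open Pool.Agent.H63.VC hiding ext
open Pool.Agent.H63.VC3 Pool.Agent.H63.VC4 Pool.Agent.H63.VC6 Pool.Agent.H63.VC7 Complex
open Pool.Agent.H25.RK MeasureTheory
open scoped BigOperators

variable {m : ℕ}

/-- The edges at a vertex of the chain. -/
abbrev ie (i : Fin (m + 1)) : Finset (Fin m) := inc (Fin.castSucc (n := m)) Fin.succ i

/-- A part of the invariant; the factors of the vertices outside `Q` are products of `ψ`. -/
noncomputable def JX (r : Fin (m + 1) → ℝ) (Q : Finset (Fin (m + 1)))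
    (ψ : Fin (m + 1) → Fin m → ℕ → ℂ) (M : ℕ) (S : Fin m → Finset ℕ) : ℂ :=
  ∑ k ∈ Fintype.piFinset S, (∏ j, Cc 2 1 M (yk 2 M (k j) : ℝ)) *
    ∏ i, (if i ∈ Q then DG (r i) M (ie i) k else ∏ j ∈ ie i, ψ i j (k j))

/-- The factor of a vertex at an edge. -/
noncomputable def fX (Q : Finset (Fin (m + 1))) (γ : Fin (m + 1) → ℝ → ℂ)
    (ψ : Fin (m + 1) → Fin m → ℕ → ℂ) (M : ℕ) (x : Q → ℝ) (i : Fin (m + 1)) (j : Fin m)
    (k : ℕ) : ℂ :=
  if h : i ∈ Q then qc M k (γ i (x ⟨i, h⟩)) else ψ i j k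

/-- The integrand of a node. -/
private noncomputable def X_F (r : ℝ) (γ γ' : ℝ → ℂ) (M : ℕ) (A : Finset (Fin m))
    (k : Fin m → ℕ) (x : ℝ) : ℂ :=
  gvx r γ γ' M x * ∏ j ∈ A, qc M (k j) (γ x)

private theorem X_F_eq (r : ℝ) (γ γ' : ℝ → ℂ) (M : ℕ) (A : Finset (Fin m))
    (k : Fin m → ℕ) (x : ℝ) : X_F r γ γ' M A k x = NT r M A k (γ x) * om 2 M (γ x) * γ' x := by
  unfold X_F gvx NT
  ring

private theorem X_F_integrable (r : ℝ) {γ γ' : ℝ → ℂ} (h : Ctr γ γ') {M : ℕ}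
    (hM : 0 < M) (A : Finset (Fin m)) (k : Fin m → ℕ) : Integrable (X_F r γ γ' M A k) := by
  have e : X_F r γ γ' M A k = fun x => NT r M A k (γ x) * om 2 M (γ x) * γ' x :=
    funext fun x => X_F_eq r γ γ' M A k x
  rw [e]
  exact NTom_integrable r hM A k h

private theorem X_DG (r : ℝ) {γ γ' : ℝ → ℂ} (h : Ctr γ γ') {M : ℕ}
    (hM : 0 < M) (A : Finset (Fin m)) (k : Fin m → ℕ) :
    DG r M A k = (-(4 * Real.pi * I) * M ^ 2) * ∫ x, X_F r γ γ' M A k x := by
  rw [DG_ctr r hM A k h]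
  simp only [X_F_eq]

/-- The term of the multi-index `k`. -/
private noncomputable def X_G (r : Fin (m + 1) → ℝ) (Q : Finset (Fin (m + 1)))
    (γ γ' : Fin (m + 1) → ℝ → ℂ) (ψ : Fin (m + 1) → Fin m → ℕ → ℂ) (M : ℕ) (k : Fin m → ℕ)
    (x : Q → ℝ) : ℂ :=
  (∏ i : Q, gvx (r i) (γ i) (γ' i) M (x i)) * ∏ i, ∏ j ∈ ie i, fX Q γ ψ M x i j (k j)

private theorem X_G_eq (r : Fin (m + 1) → ℝ) (Q : Finset (Fin (m + 1)))
    (γ γ' : Fin (m + 1) → ℝ → ℂ) (ψ : Fin (m + 1) → Fin m → ℕ → ℂ) (M : ℕ) (k : Fin m → ℕ)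
    (x : Q → ℝ) :
    X_G r Q γ γ' ψ M k x = (∏ i : Q, X_F (r i) (γ i) (γ' i) M (ie (i : Fin (m + 1))) k (x i)) *
        ∏ i ∈ Qᶜ, ∏ j ∈ ie i, ψ i j (k j) := by
  unfold X_G X_F
  rw [Finset.prod_mul_distrib, mul_assoc]
  congr 1
  rw [← Finset.prod_mul_prod_compl Q]
  congr 1
  · rw [← Finset.prod_coe_sort]
    refine Finset.prod_congr rfl fun i _ => ?_
    refine Finset.prod_congr rfl fun j _ => ?_
    unfold fX
    rw [dif_pos i.2]
  · refine Finset.prod_congr rfl fun i hi => ?_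
    have hi' : i ∉ Q := Finset.mem_compl.mp hi
    refine Finset.prod_congr rfl fun j _ => ?_
    unfold fX
    rw [dif_neg hi']

private theorem X_G_integrable (r : Fin (m + 1) → ℝ) (Q : Finset (Fin (m + 1)))
    (γ γ' : Fin (m + 1) → ℝ → ℂ) (h : ∀ i ∈ Q, Ctr (γ i) (γ' i))
    (ψ : Fin (m + 1) → Fin m → ℕ → ℂ) (M : ℕ) (hM : 0 < M) (k : Fin m → ℕ) :
    Integrable (X_G r Q γ γ' ψ M k) := by
  have e : X_G r Q γ γ' ψ M k = fun x => (∏ i : Q, X_F (r i) (γ i) (γ' i) M
      (ie (i : Fin (m + 1))) k (x i)) * ∏ i ∈ Qᶜ, ∏ j ∈ ie i, ψ i j (k j) :=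
    funext fun x => X_G_eq r Q γ γ' ψ M k x
  rw [e]
  apply Integrable.mul_const
  exact Integrable.fintype_prod (f := fun (i : Q) (x : ℝ) => X_F (r i) (γ i) (γ' i) M
    (ie (i : Fin (m + 1))) k x) (fun i => X_F_integrable (r i) (h i i.2) hM _ k)

private theorem X_term (r : Fin (m + 1) → ℝ) (Q : Finset (Fin (m + 1)))
    (γ γ' : Fin (m + 1) → ℝ → ℂ) (h : ∀ i ∈ Q, Ctr (γ i) (γ' i))
    (ψ : Fin (m + 1) → Fin m → ℕ → ℂ) (M : ℕ) (hM : 0 < M) (k : Fin m → ℕ) :
    (∏ i, (if i ∈ Q then DG (r i) M (ie i) k else ∏ j ∈ ie i, ψ i j (k j))) =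
      (-(4 * Real.pi * I) * M ^ 2) ^ Q.card * ∫ x : Q → ℝ, X_G r Q γ γ' ψ M k x := by
  simp only [X_G_eq r Q γ γ' ψ M k]
  rw [integral_mul_const, integral_fintype_prod_volume_eq_prod (fun (i : Q) (x : ℝ) =>
    X_F (r i) (γ i) (γ' i) M (ie (i : Fin (m + 1))) k x),
    ← Finset.prod_mul_prod_compl Q, ← mul_assoc]
  congr 1
  · rw [← Finset.prod_coe_sort]
    have hc : (-(4 * Real.pi * I) * (M : ℂ) ^ 2) ^ Q.card =
        ∏ _i : Q, (-(4 * Real.pi * I) * (M : ℂ) ^ 2) := by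
      rw [Finset.prod_const, Finset.card_univ, Fintype.card_coe]
    rw [hc, ← Finset.prod_mul_distrib]
    refine Finset.prod_congr rfl fun i _ => ?_
    rw [if_pos i.2]
    exact X_DG (r i) (h i i.2) hM _ k
  · refine Finset.prod_congr rfl fun i hi => ?_
    rw [if_neg (Finset.mem_compl.mp hi)]

/-- A part of the invariant as an integral over the contours of the vertices in `Q`. -/
theorem JX_eq (r : Fin (m + 1) → ℝ) (Q : Finset (Fin (m + 1)))
    (γ γ' : Fin (m + 1) → ℝ → ℂ) (h : ∀ i ∈ Q, Ctr (γ i) (γ' i))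
    (ψ : Fin (m + 1) → Fin m → ℕ → ℂ) (M : ℕ) (hM : 0 < M) (S : Fin m → Finset ℕ) :
    JX r Q ψ M S = (-(4 * Real.pi * I) * M ^ 2) ^ Q.card *
      ∫ x : Q → ℝ, (∏ i : Q, gvx (r i) (γ i) (γ' i) M (x i)) *
        ∏ j : Fin m, ∑ k ∈ S j, Cc 2 1 M (yk 2 M k : ℝ) *
          (fX Q γ ψ M x j.castSucc j k * fX Q γ ψ M x j.succ j k) := by
  have hpt : ∀ x : Q → ℝ, (∏ i : Q, gvx (r i) (γ i) (γ' i) M (x i)) *
        ∏ j : Fin m, ∑ k ∈ S j, Cc 2 1 M (yk 2 M k : ℝ) *
          (fX Q γ ψ M x j.castSucc j k * fX Q γ ψ M x j.succ j k) =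
      ∑ k ∈ Fintype.piFinset S,
        (∏ j, Cc 2 1 M (yk 2 M (k j) : ℝ)) * X_G r Q γ γ' ψ M k x := by
    intro x
    rw [Finset.prod_univ_sum, Finset.mul_sum]
    refine Finset.sum_congr rfl fun k hk => ?_
    unfold X_G
    have e := prod_inc (Fin.castSucc (n := m)) Fin.succ
      (fun j => (Fin.castSucc_lt_succ (i := j)).ne) (fun i j => fX Q γ ψ M x i j (k j))
    rw [e, Finset.prod_mul_distrib]
    ring
  simp only [hpt]
  rw [integral_finsetSum _ fun k hk =>
    (X_G_integrable r Q γ γ' h ψ M hM k).const_mul _, Finset.mul_sum]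
  unfold JX
  refine Finset.sum_congr rfl fun k hk => ?_
  rw [integral_const_mul, X_term r Q γ γ' h ψ M hM k]
  ring

/-! ### Lattice sums -/

/-- The weight of a lattice point. -/
noncomputable def wX (r : ℝ) (M X : ℕ) : ℂ :=
  2 * (exp (2 * Real.pi * I * r * M * ((vl 2 M X : ℝ) : ℂ) ^ 2) *
    (2 * sin (2 * Real.pi * ((vl 2 M X : ℝ) : ℂ))))

/-- The factors of a vertex outside the contours: at the lattice point `X` if `b`, with the
distinguished edge `jl`; of a closed end otherwise. -/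
noncomputable def psX (r : ℝ) (s : ℤ) (b : Bool) (jl : Fin m) (M X : ℕ) (j : Fin m) (k : ℕ) : ℂ :=
  if b then (if j = jl then (if X ≤ k then wX r M X * ((qd M k X : ℝ) : ℂ) else 0)
    else ((qv M k X : ℝ) : ℂ)) else sk M k (.cl s)

theorem two_k0_le (M : ℕ) {k : ℕ} (hk : k < k0 M) : 2 * k + 2 ≤ M := by
  unfold k0 at hk
  omega

/-- The factor of a vertex at a small index, as a lattice sum. -/
theorem DG_psX (r : ℝ) (s : ℤ) {M : ℕ} {A : Finset (Fin m)} (k : Fin m → ℕ)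
    (hk : ∀ i ∈ A, k i < M) {j : Fin m} (hj : j ∈ A) (h : k j < k0 M) :
    DG r M A k = ∑ X ∈ Finset.range M, ∏ e ∈ A, psX r s true j M X e (k e) := by
  rw [DG_low r k hk hj (two_k0_le M h), Finset.mul_sum]
  have hsub : Finset.range (k j + 1) ⊆ Finset.range M := by
    intro X hX
    rw [Finset.mem_range] at hX ⊢
    have := hk j hj
    omega
  have e : ∀ X, ∏ e ∈ A, psX r s true j M X e (k e) =
      psX r s true j M X j (k j) * ∏ i ∈ A.erase j, ((qv M (k i) X : ℝ) : ℂ) := by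
    intro X
    rw [← Finset.mul_prod_erase A _ hj]
    congr 1
    refine Finset.prod_congr rfl fun i hi => ?_
    unfold psX
    rw [if_pos rfl, if_neg (Finset.ne_of_mem_erase hi)]
  rw [← Finset.sum_subset hsub]
  · refine Finset.sum_congr rfl fun X hX => ?_
    rw [Finset.mem_range] at hX
    rw [e]
    unfold psX wX
    rw [if_pos rfl, if_pos rfl, if_pos (by omega)]
    ring
  · intro X _ hX
    rw [Finset.mem_range] at hX
    rw [e]
    unfold psX
    rw [if_pos rfl, if_pos rfl, if_neg (by omega), zero_mul]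

/-- Two small indices at a vertex. -/
theorem DG_zero (r : ℝ) {M : ℕ} {A : Finset (Fin m)} (k : Fin m → ℕ)
    (hk : ∀ i ∈ A, k i < M) {j e : Fin m} (hj : j ∈ A) (h : k j < k0 M) (he : e ∈ A)
    (h' : k e < k0 M) (hne : e ≠ j) : DG r M A k = 0 := by
  rw [DG_low r k hk hj (two_k0_le M h)]
  have : ∑ X ∈ Finset.range (k j + 1),
      exp (2 * Real.pi * I * r * M * ((vl 2 M X : ℝ) : ℂ) ^ 2) *
        (2 * sin (2 * Real.pi * ((vl 2 M X : ℝ) : ℂ))) * ((qd M (k j) X : ℝ) : ℂ) *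
          ∏ i ∈ A.erase j, ((qv M (k i) X : ℝ) : ℂ) = 0 := by
    refine Finset.sum_eq_zero fun X hX => ?_
    rw [Finset.mem_range] at hX
    have hz : ∏ i ∈ A.erase j, ((qv M (k i) X : ℝ) : ℂ) = 0 := by
      refine Finset.prod_eq_zero (i := e) (Finset.mem_erase.2 ⟨hne, he⟩) ?_
      have h1 : ¬ (M ≤ X + k e + 1 ∧ X ≤ k e) := by
        unfold k0 at h h'
        omega
      unfold qv
      rw [if_neg h1, ofReal_zero]
    rw [hz, mul_zero]
  rw [this, mul_zero]

theorem SL_lt {M : ℕ} {L : Finset (Fin m)} {k : Fin m → ℕ} (hk : k ∈ Fintype.piFinset (SL M L))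
    (j : Fin m) : k j < M :=
  Finset.mem_range.mp (SL_subset M L j (Fintype.mem_piFinset.mp hk j))

theorem SL_lt_k0 {M : ℕ} {L : Finset (Fin m)} {k : Fin m → ℕ}
    (hk : k ∈ Fintype.piFinset (SL M L)) {j : Fin m} (hj : j ∈ L) : k j < k0 M := by
  have := Fintype.mem_piFinset.mp hk j
  unfold SL at this
  rw [if_pos hj] at this
  exact Finset.mem_range.mp this

/-- The part of a set `L` with two edges at a vertex vanishes. -/
theorem JS_zero (r : Fin (m + 1) → ℝ) (M : ℕ) (L : Finset (Fin m)) {i : Fin (m + 1)}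
    {j e : Fin m} (hj : j ∈ ie i) (he : e ∈ ie i) (hjL : j ∈ L) (heL : e ∈ L) (hne : e ≠ j) :
    JS r M (SL M L) = 0 := by
  unfold JS
  refine Finset.sum_eq_zero fun k hk => ?_
  rw [Finset.prod_eq_zero (i := i) (Finset.mem_univ _) (DG_zero (r i) k (fun j _ => SL_lt hk j) hj
    (SL_lt_k0 hk hjL) he (SL_lt_k0 hk heL) hne), mul_zero]

/-- The ranges of the lattice points. -/
def RX (T : Fin (m + 1) → Bool) (M : ℕ) (i : Fin (m + 1)) : Finset ℕ :=
  if T i then Finset.range M else {0}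

/-- The part `JS` as a finite sum over lattice points. -/
theorem JS_eq_sum (r : Fin (m + 1) → ℝ) (Op : Finset (Fin (m + 1))) (s : Fin (m + 1) → ℤ)
    (T : Fin (m + 1) → Bool) (hT : ∀ i, T i = true → i ∈ Op) (jl : Fin (m + 1) → Fin m)
    (M : ℕ) (L : Finset (Fin m))
    (hjl : ∀ i, T i = true → jl i ∈ L ∧ jl i ∈ ie i)
    (hinc : ∀ i ∉ Op, ∃ j, ie i = {j})
    (hcl : ∀ i ∉ Op, ∀ (j : Fin m) (k : Fin m → ℕ), (∀ j, k j < M) →
      DG (r i) M {j} k = sk M (k j) (.cl (s i))) :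
    JS r M (SL M L) = ∑ X ∈ Fintype.piFinset (RX T M),
      JX r (Op.filter fun i => T i = false)
        (fun i j k => psX (r i) (s i) (T i) (jl i) M (X i) j k) M (SL M L) := by
  unfold JS JX
  rw [Finset.sum_comm]
  refine Finset.sum_congr rfl fun k hk => ?_
  rw [← Finset.mul_sum]
  congr 1
  have e : ∀ i, DG (r i) M (ie i) k = ∑ X ∈ RX T M i,
      (if i ∈ Op.filter (fun i => T i = false) then DG (r i) M (ie i) k else
        ∏ j ∈ ie i, psX (r i) (s i) (T i) (jl i) M X j (k j)) := by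
    intro i
    by_cases hi : T i = true
    · have h1 : i ∉ Op.filter fun i => T i = false := by
        rw [Finset.mem_filter, hi]
        simp
      simp only [if_neg h1]
      unfold RX
      rw [if_pos hi, hi]
      exact DG_psX (r i) (s i) k (fun j _ => SL_lt hk j) (hjl i hi).2 (SL_lt_k0 hk (hjl i hi).1)
    · have hi' : T i = false := by simpa using hi
      unfold RX
      rw [if_neg hi, Finset.sum_singleton]
      by_cases hO : i ∈ Op
      · rw [if_pos (Finset.mem_filter.2 ⟨hO, hi'⟩)]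
      · have h1 : i ∉ Op.filter fun i => T i = false := fun h => hO (Finset.mem_filter.1 h).1
        rw [if_neg h1]
        obtain ⟨j, hj⟩ := hinc i hO
        rw [hj, Finset.prod_singleton, hcl i hO j k (fun j => SL_lt hk j)]
        unfold psX
        rw [hi']
        simp
  calc ∏ i, DG (r i) M (ie i) k = ∏ i, ∑ X ∈ RX T M i,
      (if i ∈ Op.filter (fun i => T i = false) then DG (r i) M (ie i) k else
        ∏ j ∈ ie i, psX (r i) (s i) (T i) (jl i) M X j (k j)) :=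
        Finset.prod_congr rfl fun i _ => e i
    _ = _ := by rw [Finset.prod_univ_sum]

end Pool.Agent.S3
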