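import Pool.Agent.S3.LX9

/-!
# Small indices, inner vertices with two half twists: the slot gain and the combination
-/

set_option autoImplicit false

namespace Pool.Agent.S3

open Complex Filter Topology

/-! ### Logarithms -/

theorem lx_log_pos {y L : ℝ} (hL : 0 ≤ L) (hy : 0 < y)
    (h : y ≤ 1 + L + L ^ 2 / 2 + L ^ 3 / 6 + L ^ 4 / 24 + L ^ 5 / 120 + L ^ 6 / 720) :
    Real.log y ≤ L := by
  rw [Real.log_le_iff_le_exp hy]
  have h1 := Real.sum_le_exp_of_nonneg hL 7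
  norm_num [Finset.sum_range_succ, Nat.factorial] at h1
  linarith only [h1, h]

theorem lx_log_neg {y L z : ℝ} (hy : 0 < y) (hz : z * 4 = L) (hL : 0 ≤ z) (hL1 : z ≤ 1)
    (h : y * (1 + z + z ^ 2 / 2 + z ^ 3 / 6 + z ^ 4 / 24 + z ^ 5 / 120 + z ^ 6 / 720 +
      z ^ 7 / 4410) ^ 4 ≤ 1) : Real.log y ≤ -L := by
  rw [Real.log_le_iff_le_exp hy]
  have h1 := Real.exp_bound' hL hL1 (n := 7) (by norm_num)
  norm_num [Finset.sum_range_succ, Nat.factorial] at h1
  have h2 : Real.exp z ≤ 1 + z + z ^ 2 / 2 + z ^ 3 / 6 + z ^ 4 / 24 + z ^ 5 / 120 + z ^ 6 / 720 +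
      z ^ 7 / 4410 := by linarith only [h1]
  have h3 : Real.exp L = Real.exp z ^ 4 := by
    rw [← hz, ← Real.exp_nat_mul]
    congr 1
    push_cast
    ring
  have h4 : Real.exp L ≤ _ := h3.le.trans (pow_le_pow_left₀ (Real.exp_pos _).le h2 4)
  rw [Real.exp_neg, le_inv_comm₀ hy (Real.exp_pos _)]
  have h5 := mul_le_mul_of_nonneg_left h4 hy.le
  rw [← one_div, le_div_iff₀ hy]
  linarith only [h5, h]

/-! ### The slot gain -/

theorem s1_ge' {x : ℝ} (h0 : 1 / 10 ≤ x) (h1 : x < 1 / 2) :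
    2 * Real.tan (Real.pi / 10) / Real.pi * (-Real.log (Real.sin (Real.pi * x))) +
      2 / 3 * Real.tan (Real.pi / 10) ^ 3 / Real.pi *
        (lct x ^ 2 / 2 + Real.log (Real.sin (Real.pi * x))) ≤ s1 (x : ℂ) := by
  rcases h0.eq_or_lt with h | h
  · rw [← h]
    set f : ℝ → ℝ := fun x => s1 (x : ℂ) - (2 * Real.tan (Real.pi / 10) / Real.pi *
      (-Real.log (Real.sin (Real.pi * x))) + 2 / 3 * Real.tan (Real.pi / 10) ^ 3 / Real.pi *
        (lct x ^ 2 / 2 + Real.log (Real.sin (Real.pi * x)))) with hf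
    have c1 : ContinuousAt (fun y : ℝ => s1 (y : ℂ)) (1 / 10) :=
      (s1_continuous.comp continuous_ofReal).continuousAt
    have c2 := (llog_deriv (x := 1 / 10) (by norm_num) (by norm_num)).continuousAt
    have c3 := (lct_deriv (x := 1 / 10) (by norm_num) (by norm_num)).continuousAt
    have cf : ContinuousAt f (1 / 10) :=
      c1.sub ((continuousAt_const.mul c2.neg).add
        (continuousAt_const.mul (((c3.pow 2).div_const 2).add c2)))
    have t : Tendsto f (𝓝[>] (1 / 10)) (𝓝 (f (1 / 10))) := cf.tendsto.mono_left nhdsWithin_le_nhds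
    have e : ∀ᶠ y in 𝓝[>] (1 / 10 : ℝ), 0 ≤ f y := by
      filter_upwards [Ioo_mem_nhdsGT (show (1 / 10 : ℝ) < 1 / 2 by norm_num)] with y hy
      have := s1_ge hy.1 hy.2
      rw [hf]
      simp only
      linarith only [this]
    have := ge_of_tendsto t e
    rw [hf] at this
    simp only at this
    linarith only [this]
  · exact s1_ge h h1

theorem lx_N {x K : ℝ} (h0 : 1 / 10 ≤ x) (h1 : x < 1 / 2) :
    (3133 / 10000 * (-Real.log (Real.sin (Real.pi * x) ^ 2)) +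
      114 / 10000 * (1 / Real.sin (Real.pi * x) ^ 2 - 1) -
      K * Real.log (2 * (1 - Real.sin (Real.pi * x) ^ 2))) / Real.pi +
      2 / Real.pi * K * (Real.log (Real.cos (Real.pi * x)) - Real.log (Real.cos (Real.pi / 4))) ≤
      s1 (x : ℂ) := by
  have hpi := Real.pi_pos
  refine (le_of_eq (b := (3133 / 10000 * (-Real.log (Real.sin (Real.pi * x) ^ 2)) +
      114 / 10000 * (1 / Real.sin (Real.pi * x) ^ 2 - 1)) / Real.pi) ?_).trans
      (le_trans ?_ (s1_ge' h0 (by linarith only [h1])))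
  · have hc : 0 < Real.cos (Real.pi * x) := Real.cos_pos_of_mem_Ioo ⟨by linarith only [hpi,
                                                                          mul_nonneg (sub_nonneg.2 h0) (sub_nonneg.2 hpi.le)], by linarith only [mul_pos (sub_pos.2 h1) (sub_pos.2 hpi)]⟩
    have e1 : 1 - Real.sin (Real.pi * x) ^ 2 = Real.cos (Real.pi * x) ^ 2 := by
      have := Real.sin_sq_add_cos_sq (Real.pi * x)
      linarith only [this]
    have e2 : Real.log (Real.cos (Real.pi / 4)) = -(Real.log 2 / 2) := by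
      rw [Real.cos_pi_div_four, Real.log_div (by positivity) (by norm_num),
        Real.log_sqrt (by norm_num)]
      ring
    have e3 : Real.log (2 * (1 - Real.sin (Real.pi * x) ^ 2)) =
        Real.log 2 + 2 * Real.log (Real.cos (Real.pi * x)) := by
      rw [e1, Real.log_mul (by norm_num) (by positivity), Real.log_pow]
      push_cast
      ring
    rw [e2, e3]
    field_simp
    ring
  · have hs := lct_sin (x := x) (by linarith only [h0]) (by linarith only [h1])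
    obtain ⟨t1, t2⟩ := lx_t0
    set t := Real.tan (Real.pi / 10) with ht
    have hsl : Real.sin (Real.pi * x) ≤ 1 := Real.sin_le_one _
    have l0 : Real.log (Real.sin (Real.pi * x)) ≤ 0 := Real.log_nonpos hs.le hsl
    have e1 : lct x ^ 2 = 1 / Real.sin (Real.pi * x) ^ 2 - 1 := by
      unfold lct
      rw [div_pow, Real.cos_sq']
      field_simp
    have e2 : Real.log (Real.sin (Real.pi * x) ^ 2) = 2 * Real.log (Real.sin (Real.pi * x)) := by
      rw [Real.log_pow]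
      push_cast
      ring
    have l1 : 0 ≤ 1 / Real.sin (Real.pi * x) ^ 2 - 1 := by
      rw [← e1]
      positivity
    rw [e1, e2]
    generalize Real.log (Real.sin (Real.pi * x)) = l at *
    generalize 1 / Real.sin (Real.pi * x) ^ 2 - 1 = q at *
    rw [div_le_iff₀ hpi]
    have e4 : (2 * t / Real.pi * -l + 2 / 3 * t ^ 3 / Real.pi * (q / 2 + l)) * Real.pi =
        (2 * t - 2 / 3 * t ^ 3) * (-l) + t ^ 3 / 3 * q := by
      field_simp
      ring
    rw [e4]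
    have t3 : 0 ≤ t := by linarith only [t1, h1, h0]
    have t4 : (3248 / 10000 : ℝ) ^ 3 ≤ t ^ 3 := pow_le_pow_left₀ (by norm_num) t1 3
    have t5 : t ^ 3 ≤ t * (325 / 1000) ^ 2 := by
      have : t ^ 2 ≤ (325 / 1000) ^ 2 := pow_le_pow_left₀ t3 t2 2
      (refine le_of_not_gt fun hng => ?_; linarith only [mul_nonneg (sub_nonneg.2 hng.le) (sub_nonneg.2 t1),
        mul_pos (sub_pos.2 hng) (sub_pos.2 h1), mul_nonneg (sub_nonneg.2 hng.le) (sub_nonneg.2 h0),
        mul_nonneg (sq_nonneg (1 * t)) (sub_nonneg.2 this)])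
    have m1 : 3133 / 10000 * (-(2 * l)) ≤ (2 * t - 2 / 3 * t ^ 3) * (-l) := by
      have : (3133 / 10000 * 2) * (-l) ≤ (2 * t - 2 / 3 * t ^ 3) * (-l) := by
        apply mul_le_mul_of_nonneg_right _ (by linarith only [l0])
        norm_num at t5 ⊢
        linarith only [t5, t1, h1, h0]
      linarith only [this]
    have m2 : 114 / 10000 * q ≤ t ^ 3 / 3 * q := by
      apply mul_le_mul_of_nonneg_right _ l1
      norm_num at t4 ⊢
      linarith only [t4, h1, h0]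
    linarith only [m2, m1]

/-- The tangent line. -/
theorem lx_tang {u us K L1 L2 : ℝ} (u0 : 0 < u) (u1 : u < 1) (s0 : 0 < us) (s1 : us < 1)
    (h1 : Real.log us ≤ L1) (h2 : Real.log (2 * (1 - us)) ≤ L2) (hK : 0 ≤ K) :
    3133 / 10000 * (-L1) + 114 / 10000 * (1 / us - 1) - K * L2 +
      (K / (1 - us) - 3133 / 10000 / us - 114 / 10000 / us ^ 2) * (u - us) ≤
    3133 / 10000 * (-Real.log u) + 114 / 10000 * (1 / u - 1) - K * Real.log (2 * (1 - u)) := by
  have v0 : 0 < 1 - us := by linarith only [s1]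
  have v1 : 0 < 1 - u := by linarith only [u1]
  have a1 : Real.log u ≤ L1 + (u - us) / us := by
    have h3 := Real.log_le_sub_one_of_pos (x := u / us) (by positivity)
    rw [Real.log_div u0.ne' s0.ne'] at h3
    have : u / us - 1 = (u - us) / us := by field_simp
    linarith only [this, h3, h1]
  have a2 : Real.log (2 * (1 - u)) ≤ L2 + (us - u) / (1 - us) := by
    have h3 := Real.log_le_sub_one_of_pos (x := 2 * (1 - u) / (2 * (1 - us))) (by positivity)
    rw [Real.log_div (by positivity) (by positivity)] at h3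
    have : 2 * (1 - u) / (2 * (1 - us)) - 1 = (us - u) / (1 - us) := by
      field_simp
      ring
    linarith only [this, h3, h2]
  have a3 : 2 / us - u / us ^ 2 ≤ 1 / u := by
    rw [← sub_nonneg]
    have : 1 / u - (2 / us - u / us ^ 2) = (u - us) ^ 2 / (u * us ^ 2) := by
      field_simp
      ring
    rw [this]
    positivity
  have a4 := mul_le_mul_of_nonneg_left a2 hK
  have e : (K / (1 - us) - 3133 / 10000 / us - 114 / 10000 / us ^ 2) * (u - us) =
      -(K * ((us - u) / (1 - us))) - 3133 / 10000 * ((u - us) / us) -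
        114 / 10000 * (u / us ^ 2 - 1 / us) := by
    field_simp
    ring
  rw [e]
  have e2 : 2 / us = 2 * (1 / us) := by ring
  rw [e2] at a3
  linarith only [a4, a3, a1]

/-- The slot gain on an interval. -/
theorem lx_V {x K us L1 L2 v ua ub : ℝ} (x0 : 1 / 10 ≤ x) (x1 : x ≤ 1 / 4)
    (ha : ua ≤ Real.sin (Real.pi * x) ^ 2) (hb : Real.sin (Real.pi * x) ^ 2 ≤ ub)
    (s0 : 0 < us) (s1 : us < 1)
    (h1 : Real.log us ≤ L1) (h2 : Real.log (2 * (1 - us)) ≤ L2) (hK : 0 ≤ K)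
    (hva : v ≤ 3133 / 10000 * (-L1) + 114 / 10000 * (1 / us - 1) - K * L2 +
      (K / (1 - us) - 3133 / 10000 / us - 114 / 10000 / us ^ 2) * (ua - us))
    (hvb : v ≤ 3133 / 10000 * (-L1) + 114 / 10000 * (1 / us - 1) - K * L2 +
      (K / (1 - us) - 3133 / 10000 / us - 114 / 10000 / us ^ 2) * (ub - us)) :
    v ≤ 3133 / 10000 * (-Real.log (Real.sin (Real.pi * x) ^ 2)) +
      114 / 10000 * (1 / Real.sin (Real.pi * x) ^ 2 - 1) -
      K * Real.log (2 * (1 - Real.sin (Real.pi * x) ^ 2)) := by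
  have hpi := Real.pi_pos
  have hs := lct_sin (x := x) (by linarith only [x0]) (by linarith only [x1])
  have hc : 0 < Real.cos (Real.pi * x) := Real.cos_pos_of_mem_Ioo ⟨by linarith only [hpi,
                                                                        mul_nonneg (sub_nonneg.2 x0) (sub_nonneg.2 hpi.le)], by linarith only [hpi,
                                                                                                                                  mul_nonneg (sub_nonneg.2 x1) (sub_nonneg.2 hpi.le)]⟩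
  have hu1 : Real.sin (Real.pi * x) ^ 2 < 1 := by
    have := Real.sin_sq_add_cos_sq (Real.pi * x)
    linarith only [this, mul_pos (sub_pos.2 hc) (sub_pos.2 hc)]
  have k := lx_tang (pow_pos hs 2) hu1 s0 s1 h1 h2 hK
  generalize K / (1 - us) - 3133 / 10000 / us - 114 / 10000 / us ^ 2 = m at *
  rcases le_total 0 m with hm | hm
  · have := mul_le_mul_of_nonneg_left (sub_le_sub_right ha us) hm
    linarith only [this, k, hva]
  · have := mul_le_mul_of_nonpos_left (sub_le_sub_right hb us) hm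
    linarith only [this, k, hvb]

/-! ### The combination -/

section

variable {Φ : ℂ → ℂ → ℂ} {θ θ' x : ℝ} {v w : ℂ}

theorem Fq_self (w : ℂ) : Fq Φ w.re w.im = (Φ ((1 / 4 : ℝ) : ℂ) ((starRingEnd ℂ) w)).re := rfl

theorem lx_cost2 (hΦ : IsPhi Φ) {A a1 a2 a b T c1 c2 B1 B2 : ℝ} (hA : 0 ≤ A) (hAa : A ≤ a)
    (ha : a < 1 / 2) (ha2 : a ≤ a2) (h01 : A ≤ a1) (h12 : a1 ≤ a2) (h5 : a1 ≤ 1 / 2)
    (hT0 : 0 ≤ T) (hT : T ≤ Real.sinh (Real.pi * b) ^ 2)
    (hc1 : c1 ≤ Real.cos (Real.pi * a1) ^ 2) (hc2 : c2 ≤ Real.cos (Real.pi * a) ^ 2)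
    (p1 : 0 < c1) (p2 : 0 < c2) (hB1 : 0 ≤ B1) (hB2 : 0 ≤ B2)
    (k1 : 1 ≤ 2 * (B1 + B1 ^ 3 / 6 + B1 ^ 5 / 120 + B1 ^ 7 / 5040) ^ 2)
    (k2 : 1 ≤ 2 * (B2 + B2 ^ 3 / 6 + B2 ^ 5 / 120 + B2 ^ 7 / 5040) ^ 2)
    (l1 : 1 - c1 + T ≤ 2 * (B1 + B1 ^ 3 / 6 + B1 ^ 5 / 120 + B1 ^ 7 / 5040) ^ 2 * (c1 + T))
    (l2 : 1 - c2 + T ≤ 2 * (B2 + B2 ^ 3 / 6 + B2 ^ 5 / 120 + B2 ^ 7 / 5040) ^ 2 * (c2 + T)) :
    Fq Φ A b ≤ Fq Φ a b + 2 * ((a1 - A) * B1 + (a2 - a1) * B2) := by
  rcases le_total a a1 with h | h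
  · have q := lx_cs_anti (hA.trans hAa) h h5
    have := lx_cost hΦ hA hAa ha (hc1.trans q) p1 hT0 hT hB1 k1 l1
    have e1 : (a - A) * B1 ≤ (a1 - A) * B1 := mul_le_mul_of_nonneg_right (by linarith only [h]) hB1
    have e2 : 0 ≤ (a2 - a1) * B2 := mul_nonneg (by linarith only [h12]) hB2
    linarith only [e2, e1, this]
  · have s2 := lx_cost hΦ (hA.trans h01) h ha hc2 p2 hT0 hT hB2 k2 l2
    have s1 := lx_cost hΦ (a := a1) hA h01 (by linarith only [h, ha]) hc1 p1 hT0 hT hB1 k1 l1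
    have e1 : (a - a1) * B2 ≤ (a2 - a1) * B2 := mul_le_mul_of_nonneg_right (by linarith only [ha2]) hB2
    linarith only [e1, s1, s2]

theorem lx_bl_anti {a b : ℝ} (h0 : 0 ≤ θ) (h1 : θ < Real.pi / 2) (ha : 0 ≤ a) (hab : a ≤ b)
    (hb : b ≤ 1 / 2) : bl θ b ≤ bl θ a := by
  have hpi := Real.pi_pos
  have h2 : Real.sinh (Real.pi * bl θ b) ≤ Real.sinh (Real.pi * bl θ a) := by
    rw [sinh_pi_bl, sinh_pi_bl]
    have ht : 0 ≤ Real.tan θ := Real.tan_nonneg_of_nonneg_of_le_pi_div_two h0 h1.le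
    exact mul_le_mul_of_nonneg_left (Real.cos_le_cos_of_nonneg_of_le_pi (by positivity)
      (by linarith only [h1, h0, mul_nonneg (sub_nonneg.2 h1.le) (sub_nonneg.2 hb),
            mul_nonneg (sub_nonneg.2 h0) (sub_nonneg.2 hb)]) (by linarith only [mul_nonneg (sub_nonneg.2 h1.le) (sub_nonneg.2 hab),
                                                                   mul_nonneg (sub_nonneg.2 h0) (sub_nonneg.2 hab)])) ht
  exact le_of_mul_le_mul_left (Real.sinh_le_sinh.1 h2) hpi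

/-- The shifted point. -/
theorem Wq.shift (h : Wq θ w) {A : ℝ} (hA : 0 ≤ A) (hAw : A ≤ w.re) : Wq θ (⟨A, w.im⟩ : ℂ) where
  re0 := hA
  re1 := hAw.trans h.re1
  im0 := h.im0
  im1 := h.im1.trans (lx_bl_anti h.pos.le h.lt hA hAw (by linarith only [h.re1]))
  pos := h.pos
  lt := h.lt
  tan := h.tan

/-- The drop from `1/4` to `x`. -/
theorem lx_dropW (hΦ : IsPhi Φ) (h : Wq θ' w) {K : ℝ} (hK0 : 0 ≤ K)
    (hK : Real.cos (Real.pi * w.re) ^ 2 + Real.sinh (Real.pi * w.im) ^ 2 ≤ K ^ 2)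
    (h0 : 0 ≤ x) (h1 : x ≤ 1 / 4) :
    (Φ (x : ℂ) ((starRingEnd ℂ) w)).re ≤ (Φ ((1 / 4 : ℝ) : ℂ) ((starRingEnd ℂ) w)).re +
      2 / Real.pi * K *
      (Real.log (Real.cos (Real.pi * x)) - Real.log (Real.cos (Real.pi / 4))) := by
  have n : ‖cos ((Real.pi : ℂ) * (starRingEnd ℂ) w)‖ ≤ K := by
    apply le_of_sq_le_sq _ hK0
    have := (lx_q (w := w)).2
    rw [norm_pow] at this
    rw [this]
    exact hK
  have d := lx_dropT hΦ h.pre n h0 h1
  rwa [FP_real, FP_real4] at d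

/-- **The comparison on a rectangle.** -/
theorem lx_rect (hΦ : IsPhi Φ) (h : Wq θ' w) (h0 : 1 / 3 ≤ θ) (hS : θ + θ' < Real.pi / 2)
    (ht : Real.tan θ ≤ 1) {A a1 a2 c1 c2 B1 B2 T K z v : ℝ} (hA : 7 / 20 ≤ A) (hAw : A ≤ w.re)
    (hw2 : w.re ≤ a2) (h01 : A ≤ a1) (h12 : a1 ≤ a2) (h5 : a1 ≤ 1 / 2) (hT0 : 0 ≤ T)
    (hT : T ≤ Real.sinh (Real.pi * w.im) ^ 2)
    (hc1 : c1 ≤ Real.cos (Real.pi * a1) ^ 2) (hc2 : c2 ≤ Real.cos (Real.pi * w.re) ^ 2)
    (p1 : 0 < c1) (p2 : 0 < c2) (hB1 : 0 ≤ B1) (hB2 : 0 ≤ B2)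
    (k1 : 1 ≤ 2 * (B1 + B1 ^ 3 / 6 + B1 ^ 5 / 120 + B1 ^ 7 / 5040) ^ 2)
    (k2 : 1 ≤ 2 * (B2 + B2 ^ 3 / 6 + B2 ^ 5 / 120 + B2 ^ 7 / 5040) ^ 2)
    (l1 : 1 - c1 + T ≤ 2 * (B1 + B1 ^ 3 / 6 + B1 ^ 5 / 120 + B1 ^ 7 / 5040) ^ 2 * (c1 + T))
    (l2 : 1 - c2 + T ≤ 2 * (B2 + B2 ^ 3 / 6 + B2 ^ 5 / 120 + B2 ^ 7 / 5040) ^ 2 * (c2 + T))
    (hK0 : 0 ≤ K)
    (hK : Real.cos (Real.pi * A) ^ 2 + Real.sinh (Real.pi * w.im) ^ 2 ≤ K ^ 2)
    (hz : 0 ≤ z) (hz2 : z ^ 2 * (12062 / 10000 + T) ≤ 7938 / 10000 * T)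
    (x0 : 1 / 10 ≤ x) (x1 : x ≤ 1 / 4)
    (hv : v ≤ 3133 / 10000 * (-Real.log (Real.sin (Real.pi * x) ^ 2)) +
      114 / 10000 * (1 / Real.sin (Real.pi * x) ^ 2 - 1) -
      K * Real.log (2 * (1 - Real.sin (Real.pi * x) ^ 2)))
    (hfin : 31416 / 10000 * (2 * ((a1 - A) * B1 + (a2 - a1) * B2)) <
      v + (3304 / 100000 + 43 / 100 * z)) :
    (Φ (x : ℂ) ((starRingEnd ℂ) (⟨A, w.im⟩ : ℂ))).re <
      (Φ (tp θ) ((starRingEnd ℂ) w)).re + s1 (x : ℂ) := by
  have hpi := Real.pi_pos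
  have d := lx_dropW hΦ (h.shift (by linarith only [hA]) hAw) hK0 hK (by linarith only [x0]) x1
  have c := lx_cost2 hΦ (b := w.im) (by linarith only [hA]) hAw (by linarith only [h.re1]) hw2 h01 h12 h5 hT0 hT
    hc1 hc2 p1 p2 hB1 hB2 k1 k2 l1 l2
  have u := lx_up2 hΦ h h0 hS ht (hA.trans hAw) hT hT0 hz hz2
  have n := lx_N (K := K) x0 (by linarith only [x1])
  rw [Fq_self] at c
  unfold Fq at c
  have m1 : v / Real.pi ≤ (3133 / 10000 * (-Real.log (Real.sin (Real.pi * x) ^ 2)) +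
      114 / 10000 * (1 / Real.sin (Real.pi * x) ^ 2 - 1) -
      K * Real.log (2 * (1 - Real.sin (Real.pi * x) ^ 2))) / Real.pi :=
    div_le_div_of_nonneg_right hv hpi.le
  have m2 : 2 * ((a1 - A) * B1 + (a2 - a1) * B2) <
      v / Real.pi + (3304 / 100000 + 43 / 100 * z) / Real.pi := by
    rw [← add_div, lt_div_iff₀ hpi]
    have e0 : 0 ≤ (a1 - A) * B1 + (a2 - a1) * B2 :=
      add_nonneg (mul_nonneg (by linarith only [h01]) hB1) (mul_nonneg (by linarith only [h12]) hB2)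
    have := Real.pi_lt_d4
    norm_num at this
    linarith only [hfin, mul_nonneg (sub_nonneg.2 e0) (sub_nonneg.2 this.le)]
  linarith only [m2, m1, n, u, c, d]

end

end Pool.Agent.S3
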