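import Pool.Agent.S3.LowA
import Pool.Agent.S3.LowE

/-!
# Small indices, inner vertices with two half twists: the base growth

`w` is a point of the first quadrant, `re w ≤ 2/5`, below the line of height `θ'`, `tan θ' ≤ 1`.
-/

set_option autoImplicit false

namespace Pool.Agent.S3

open Complex

/-- `A cosh A ≤ 1.69 sinh A` on `[0, 1.53]`. -/
theorem lx_sinh {A : ℝ} (h0 : 0 ≤ A) (h1 : A ≤ 153 / 100) :
    A * Real.cosh A ≤ 169 / 100 * Real.sinh A := by
  have hcc : ConcaveOn ℝ (Set.Icc (0 : ℝ) (153 / 100))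
      (fun x => 169 / 100 * Real.sinh x - x * Real.cosh x) := by
    apply concaveOn_of_hasDerivWithinAt2_nonpos (convex_Icc _ _)
      (f' := fun x => 69 / 100 * Real.cosh x - x * Real.sinh x)
      (f'' := fun x => -(31 / 100) * Real.sinh x - x * Real.cosh x)
    · fun_prop
    · intro x _
      have h1 := ((Real.hasDerivAt_sinh x).const_mul (169 / 100)).sub
        ((hasDerivAt_id' x).mul (Real.hasDerivAt_cosh x))
      refine (h1.congr_deriv ?_).hasDerivWithinAt
      ring
    · intro x _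
      have h1 := ((Real.hasDerivAt_cosh x).const_mul (69 / 100)).sub
        ((hasDerivAt_id' x).mul (Real.hasDerivAt_sinh x))
      refine (h1.congr_deriv ?_).hasDerivWithinAt
      ring
    · intro x hx
      rw [interior_Icc] at hx
      have h2 := Real.sinh_nonneg_iff.2 hx.1.le
      have h3 := mul_nonneg hx.1.le (Real.cosh_pos x).le
      linarith only [h3, h2]
  -- the value at the right end
  have hend : 0 ≤ 169 / 100 * Real.sinh (153 / 100) - 153 / 100 * Real.cosh (153 / 100) := by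
    have e1 := Real.exp_one_gt_d9
    have e3 : 20 ≤ Real.exp 3 := by
      have : Real.exp 3 = Real.exp 1 ^ 3 := by
        rw [← Real.exp_nat_mul]; norm_num
      rw [this]
      have h2 : (2.7182818283 : ℝ) ^ 3 ≤ Real.exp 1 ^ 3 := pow_le_pow_left₀ (by norm_num) e1.le 3
      norm_num at h2 ⊢
      linarith only [h2]
    have e4 : (106 / 100 : ℝ) ≤ Real.exp (6 / 100) := by
      have := Real.add_one_le_exp (6 / 100 : ℝ)
      linarith only [this]
    have e5 : 21 ≤ Real.exp (153 / 100) * Real.exp (153 / 100) := by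
      rw [← Real.exp_add, show (153 / 100 + 153 / 100 : ℝ) = 3 + 6 / 100 by norm_num, Real.exp_add]
      linarith only [e4, e3, mul_nonneg (sub_nonneg.2 e3) (sub_nonneg.2 e4)]
    have e6 : Real.exp (153 / 100) * Real.exp (-(153 / 100)) = 1 := by
      rw [← Real.exp_add, add_neg_cancel, Real.exp_zero]
    have p1 := Real.exp_pos (153 / 100)
    have p2 := Real.exp_pos (-(153 / 100))
    rw [Real.sinh_eq, Real.cosh_eq]
    have : 161 * Real.exp (-(153 / 100)) ≤ 8 * Real.exp (153 / 100) := by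
      have h3 : 21 * Real.exp (-(153 / 100)) ≤ Real.exp (153 / 100) := by
        calc 21 * Real.exp (-(153 / 100))
            ≤ (Real.exp (153 / 100) * Real.exp (153 / 100)) * Real.exp (-(153 / 100)) :=
              mul_le_mul_of_nonneg_right e5 p2.le
          _ = Real.exp (153 / 100) := by rw [mul_assoc, e6, mul_one]
      linarith only [h3, p2]
    linarith only [this]
  have h2 := hcc.2 (show (0 : ℝ) ∈ Set.Icc (0 : ℝ) (153 / 100) from ⟨le_rfl, by norm_num⟩)
    (show (153 / 100 : ℝ) ∈ Set.Icc (0 : ℝ) (153 / 100) from ⟨by norm_num, le_rfl⟩)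
    (show 0 ≤ 1 - A / (153 / 100) by rw [sub_nonneg, div_le_one (by norm_num)]; exact h1)
    (show 0 ≤ A / (153 / 100) from div_nonneg h0 (by norm_num)) (by ring)
  have e : (1 - A / (153 / 100)) • (0 : ℝ) + (A / (153 / 100)) • (153 / 100 : ℝ) = A := by
    rw [smul_zero, zero_add, smul_eq_mul]
    field_simp
  rw [e] at h2
  simp only [Real.sinh_zero, Real.cosh_zero, mul_zero, zero_mul, sub_zero, smul_zero, zero_add,
    smul_eq_mul] at h2
  have h3 : 0 ≤ A / (153 / 100) * (169 / 100 * Real.sinh (153 / 100) -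
      153 / 100 * Real.cosh (153 / 100)) := mul_nonneg (div_nonneg h0 (by norm_num)) hend
  linarith only [h3, h2]

/-- `sinh 1.53 ≥ 2.19`. -/
theorem lx_sinh_ge : 219 / 100 ≤ Real.sinh (153 / 100) := by
  have e1 := Real.exp_one_gt_d9
  have e3 : Real.exp (153 / 100) = Real.exp (51 / 100) ^ 3 := by
    rw [← Real.exp_nat_mul]; norm_num
  have e4 : (1664 / 1000 : ℝ) ≤ Real.exp (51 / 100) := by
    have := Real.sum_le_exp_of_nonneg (x := 51 / 100) (by norm_num) 5
    norm_num [Finset.sum_range_succ, Nat.factorial] at this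
    linarith only [this]
  have e5 : (46 / 10 : ℝ) ≤ Real.exp (153 / 100) := by
    rw [e3]
    have := pow_le_pow_left₀ (by norm_num) e4 3
    norm_num at this ⊢
    linarith only [this]
  have e6 : Real.exp (-(153 / 100)) ≤ 10 / 46 := by
    rw [Real.exp_neg, inv_le_comm₀ (Real.exp_pos _) (by norm_num)]
    norm_num
    norm_num at e5
    exact e5
  rw [Real.sinh_eq]
  norm_num at e5 e6 ⊢
  linarith only [e6, e5]

section

variable {Φ : ℂ → ℂ → ℂ} {θ : ℝ} {w : ℂ}

/-- The value at `(1/4, 0)`. -/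
theorem lx_base (hΦ : IsPhi Φ) (h0 : Φ 0 0 = c00) :
    95786 / 100000 < FP Φ (UU (Real.pi / 4) 0) (gd 0) := by
  have hpi := Real.pi_pos
  have ab : ∀ s : ℝ, 0 ≤ s → s ≤ Real.pi / 4 → |s| < Real.pi / 2 := fun s h1 h2 => by
    rw [abs_of_nonneg h1]; linarith only [h2, hpi]
  have key := LowA_pos (b := Real.pi / 4) (x := Real.pi / 4)
    (f := fun s => FP Φ (UU s 0) (gd 0) - FP Φ (UU 0 0) (gd 0) + 2 / Real.pi *
      (s ^ 2 / 2 + s ^ 4 / 24 + 56 / 6000 * s ^ 6))
    (f' := fun s => -(2 / Real.pi) * (qq (igd (UU s 0)) 0).re + 2 / Real.pi *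
      (s + s ^ 3 / 6 + 56 / 1000 * s ^ 5)) ?_ (by simp) ?_
    (by positivity) le_rfl
  · have e0 : FP Φ (UU 0 0) (gd 0) = c00.re := by
      rw [FP, gd_zero, LowA_UU0, ofReal_zero, zero_div, h0]
    have h1 := LowA_c00_gt
    simp only [e0] at key
    have e2 : 2 / Real.pi * ((Real.pi / 4) ^ 2 / 2 + (Real.pi / 4) ^ 4 / 24 +
        56 / 6000 * (Real.pi / 4) ^ 6) =
        Real.pi / 16 + Real.pi ^ 3 / 3072 + 56 / 12288000 * Real.pi ^ 5 := by
      field_simp
      ring
    rw [e2] at key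
    have p1 := Real.pi_lt_d6
    have p3 : Real.pi ^ 3 ≤ 3.141593 ^ 3 := pow_le_pow_left₀ hpi.le p1.le 3
    have p5 : Real.pi ^ 5 ≤ 3.141593 ^ 5 := pow_le_pow_left₀ hpi.le p1.le 5
    norm_num at p1 p3 p5
    linarith only [p5, p3, p1, key, h1]
  · intro s hs hsb
    have h1 := ((hasDerivAt_FP_hor hΦ (ab s hs hsb) (reg_igd_zero (ab s hs hsb) 0)).sub_const
      (FP Φ (UU 0 0) (gd 0))).add
      (((((hasDerivAt_pow 2 s).div_const 2).add ((hasDerivAt_pow 4 s).div_const 24)).add
        ((hasDerivAt_pow 6 s).const_mul (56 / 6000))).const_mul (2 / Real.pi))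
    refine h1.congr_deriv ?_
    norm_num
    try ring
  · intro s hs hsb
    have hc := LowA_cos_pos hs hsb
    have hsn : 0 ≤ Real.sin s := Real.sin_nonneg_of_nonneg_of_le_pi hs (by linarith only [hsb, hpi])
    have ht : 0 ≤ Real.tan s := by
      rw [Real.tan_eq_sin_div_cos]
      positivity
    have h1 := qq_re_le (igd (UU s 0)) 0
    have h2 : ‖sinh (igd (UU s 0)) / cosh 0‖ = Real.tan s := by
      rw [sinh_igd, cosh_zero, div_one, LowA_UU0, ← ofReal_tan, Complex.norm_real,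
        Real.norm_of_nonneg ht]
    rw [h2] at h1
    have h5 := LowA_arsinh hs hsb
    have h7 : 0 < 2 / Real.pi := by positivity
    linarith only [mul_nonneg (sub_nonneg.2 h5) (sub_nonneg.2 h7.le),
      mul_nonneg (sub_nonneg.2 h1) (sub_nonneg.2 h7.le)]

/-- The cosine of `2 π / 5`. -/
theorem lx_cos {x : ℝ} (h0 : 0 ≤ x) (h1 : x ≤ 2 / 5) : 309 / 1000 ≤ Real.cos (Real.pi * x) := by
  have hpi := Real.pi_pos
  have h2 : Real.cos (2 * (Real.pi / 5)) ≤ Real.cos (Real.pi * x) := by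
    apply Real.cos_le_cos_of_nonneg_of_le_pi (mul_nonneg hpi.le h0)
    · linarith only [hpi]
    · linarith only [mul_nonneg (sub_nonneg.2 h1) (sub_nonneg.2 hpi.le)]
  have h5 : (2.236 : ℝ) ≤ √5 := by
    apply Real.le_sqrt_of_sq_le
    norm_num
  have h6 : √5 ^ 2 = (5 : ℝ) := Real.sq_sqrt (by norm_num)
  rw [Real.cos_two_mul, Real.cos_pi_div_five] at h2
  norm_num at h5
  linarith only [h5, h6, h2]

theorem lx_W : cosh (igd (UU (Real.pi / 4) 0)) = ((√2 : ℝ) : ℂ) := by
  rw [cosh_igd (UU_re_lt LowA_quarter), LowA_UU0, ← ofReal_cos, Real.cos_pi_div_four]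
  have h4 : (√2 : ℝ) * √2 = 2 := Real.mul_self_sqrt (by norm_num)
  have h : (1 / (√2 / 2) : ℝ) = √2 := by
    field_simp
    linarith only [h4]
  rw [← ofReal_one, ← ofReal_div, h]

theorem lx_reg {R : ℝ} (hR : |R| < Real.pi / 2) (s : ℝ) :
    Reg (igd (UU R s)) (igd (UU (Real.pi / 4) 0)) := by
  unfold Reg
  rw [igd_real_im LowA_quarter, abs_zero, add_zero]
  exact igd_im_lt (UU_re_lt hR)

/-- Along the real axis. -/
theorem lx_hor (hΦ : IsPhi Φ) {R : ℝ} (r0 : 0 ≤ R) (r1 : R < Real.pi / 2)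
    (rc : 309 / 1000 ≤ Real.cos R) :
    FP Φ (UU 0 0) (gd (igd (UU (Real.pi / 4) 0))) - 2 / Real.pi * (169 / 100) *
      (Real.arsinh 1 - Real.arsinh (Real.cos R)) ≤
    FP Φ (UU R 0) (gd (igd (UU (Real.pi / 4) 0))) := by
  have hpi := Real.pi_pos
  set W := igd (UU (Real.pi / 4) 0) with hW
  have ab : ∀ s : ℝ, 0 ≤ s → s ≤ R → |s| < Real.pi / 2 := fun s h1 h2 => by
    rw [abs_of_nonneg h1]; linarith only [h2, r1]
  have key := LowA_pos (b := R) (x := R)
    (f := fun s => FP Φ (UU s 0) (gd W) - FP Φ (UU 0 0) (gd W) + 2 / Real.pi * (169 / 100) *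
      (Real.arsinh 1 - Real.arsinh (Real.cos s)))
    (f' := fun s => -(2 / Real.pi) * (qq (igd (UU s 0)) W).re + 2 / Real.pi * (169 / 100) *
      (Real.sin s / √(1 + Real.cos s ^ 2))) ?_ (by simp) ?_ r0 le_rfl
  · linarith only [key]
  · intro s hs hsb
    have h0 : HasDerivAt (fun s => Real.arsinh (Real.cos s))
        ((√(1 + Real.cos s ^ 2))⁻¹ * -Real.sin s) s :=
      (Real.hasDerivAt_arsinh (Real.cos s)).comp s (Real.hasDerivAt_cos s)
    have h1 := ((hasDerivAt_FP_hor hΦ (ab s hs hsb) (lx_reg (ab s hs hsb) 0)).sub_const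
      (FP Φ (UU 0 0) (gd W))).add ((h0.const_sub (Real.arsinh 1)).const_mul
        (2 / Real.pi * (169 / 100)))
    refine h1.congr_deriv ?_
    ring
  · intro s hs hsb
    have hs' := ab s hs hsb
    have hcR : Real.cos R ≤ Real.cos s :=
      Real.cos_le_cos_of_nonneg_of_le_pi hs (by linarith only [r1, r0]) hsb
    have hc : 309 / 1000 ≤ Real.cos s := rc.trans hcR
    have hc0 : 0 < Real.cos s := by linarith only [hcR, rc]
    have hsn : 0 ≤ Real.sin s := Real.sin_nonneg_of_nonneg_of_le_pi hs (by linarith only [hsb, r1,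
                                                                             r0])
    have ht : 0 ≤ Real.tan s := by
      rw [Real.tan_eq_sin_div_cos]
      positivity
    have h22 : (√2 : ℝ) * √2 = 2 := Real.mul_self_sqrt (by norm_num)
    have h20 : (0 : ℝ) < √2 := by positivity
    have h1 := qq_re_le (igd (UU s 0)) W
    have h2 : ‖sinh (igd (UU s 0)) / cosh W‖ = Real.tan s * (√2 / 2) := by
      rw [sinh_igd, hW, lx_W, LowA_UU0, ← ofReal_tan, ← ofReal_div, Complex.norm_real,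
        Real.norm_of_nonneg (div_nonneg ht h20.le)]
      field_simp
      linarith only [mul_nonneg (sub_nonneg.2 ht) (sub_nonneg.2 h22.le),
        mul_nonneg (sub_nonneg.2 ht) (sub_nonneg.2 h22.ge)]
    rw [h2] at h1
    set q := √(1 + Real.cos s ^ 2) with hq
    have q0 : 0 < q := Real.sqrt_pos.2 (by positivity)
    have q2 : q ^ 2 = 1 + Real.cos s ^ 2 := Real.sq_sqrt (by positivity)
    have hsc := Real.sin_sq_add_cos_sq s
    set A := Real.arsinh (Real.tan s * (√2 / 2)) with hA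
    have hA0 : 0 ≤ A := Real.arsinh_nonneg_iff.2 (by positivity)
    have hsA : Real.sinh A = Real.sin s / Real.cos s * (√2 / 2) := by
      rw [hA, Real.sinh_arsinh, Real.tan_eq_sin_div_cos]
    have hcA : Real.cosh A = q * (√2 / 2) / Real.cos s := by
      have e : Real.cosh A ^ 2 = (q * (√2 / 2) / Real.cos s) ^ 2 := by
        rw [Real.cosh_sq, hsA]
        field_simp
        rw [q2]
        linarith only [hsc, h22, mul_nonneg (sq_nonneg (Real.sin s)) (sub_nonneg.2 h22.le),
          mul_nonneg (sq_nonneg (Real.sin s)) (sub_nonneg.2 h22.ge),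
          mul_nonneg (mul_self_nonneg (√2)) (sub_nonneg.2 hsc.le),
          mul_nonneg (mul_self_nonneg (√2)) (sub_nonneg.2 hsc.ge)]
      exact (pow_left_inj₀ (Real.cosh_pos A).le (by positivity) (by norm_num)).1 e
    have hA1 : A ≤ 153 / 100 := by
      rw [← Real.sinh_le_sinh]
      refine le_trans ?_ lx_sinh_ge
      apply le_of_sq_le_sq _ (by norm_num)
      rw [hsA, mul_pow, div_pow, div_pow, show (√2 : ℝ) ^ 2 = 2 by rw [sq, h22],
        show Real.sin s ^ 2 = 1 - Real.cos s ^ 2 by linarith only [hsc]]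
      have hc2 : (309 / 1000) ^ 2 ≤ Real.cos s ^ 2 := pow_le_pow_left₀ (by norm_num) hc 2
      rw [div_mul_eq_mul_div, div_le_iff₀ (by positivity)]
      norm_num at hc2 ⊢
      linarith only [hc2]
    have h3 := lx_sinh hA0 hA1
    rw [hsA, hcA] at h3
    have h4 : A * q ≤ 169 / 100 * Real.sin s := by
      have e1 : A * (q * (√2 / 2) / Real.cos s) = (A * q) * (√2 / 2 / Real.cos s) := by ring
      have e2 : 169 / 100 * (Real.sin s / Real.cos s * (√2 / 2)) =
          (169 / 100 * Real.sin s) * (√2 / 2 / Real.cos s) := by ring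
      rw [e1, e2] at h3
      exact le_of_mul_le_mul_right h3 (by positivity)
    have h5 : A ≤ 169 / 100 * (Real.sin s / q) := by
      rw [← mul_div_assoc, le_div_iff₀ q0]
      exact h4
    have h6 : 0 < 2 / Real.pi := by positivity
    have h7 : 2 / Real.pi * (qq (igd (UU s 0)) W).re ≤
        2 / Real.pi * (169 / 100 * (Real.sin s / q)) :=
      mul_le_mul_of_nonneg_left (h1.trans h5) h6.le
    linarith only [h7]

/-- Upwards. -/
theorem lx_vert (hΦ : IsPhi Φ) {R η : ℝ} (hR : |R| < Real.pi / 2) (h0 : 0 ≤ η) :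
    FP Φ (UU R 0) (gd (igd (UU (Real.pi / 4) 0))) ≤
      FP Φ (UU R η) (gd (igd (UU (Real.pi / 4) 0))) := by
  have hpi := Real.pi_pos
  set W := igd (UU (Real.pi / 4) 0) with hW
  have hd : ∀ s ∈ Set.Icc (0 : ℝ) η, HasDerivAt (fun s => FP Φ (UU R s) (gd W))
      (2 / Real.pi * (qq (igd (UU R s)) W).im) s := fun s _ =>
    hasDerivAt_FP_vert hΦ hR (lx_reg hR s)
  have key : MonotoneOn (fun s => FP Φ (UU R s) (gd W)) (Set.Icc 0 η) := by
    apply monotoneOn_of_deriv_nonneg (convex_Icc 0 η)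
    · exact fun t ht => (hd t ht).continuousAt.continuousWithinAt
    · intro t ht
      exact (hd t (interior_subset ht)).differentiableAt.differentiableWithinAt
    · intro t ht
      rw [(hd t (interior_subset ht)).deriv]
      rw [interior_Icc] at ht
      apply mul_nonneg (by positivity)
      apply arsh_im_nonneg (slit (lx_reg hR t))
      rw [lx_W, div_ofReal_im]
      apply div_nonneg _ (Real.sqrt_nonneg 2)
      rw [sinh_im']
      have i0 := igd_im_nonneg hR ht.1.le
      have i1 := (abs_lt.1 (igd_im_lt (UU_re_lt (η := t) hR))).2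
      exact mul_nonneg (Real.cosh_pos _).le
        (Real.sin_nonneg_of_nonneg_of_le_pi i0 (by linarith only [i1, hpi]))
  exact key ⟨le_rfl, h0⟩ ⟨h0, le_rfl⟩ h0

/-- The base growth at the test height. -/
theorem lx_quarter (hΦ : IsPhi Φ) (h0 : Φ 0 0 = c00) (w0 : 0 ≤ w.re) (w1 : w.re ≤ 2 / 5)
    (w2 : 0 ≤ w.im) :
    Real.arsinh (Real.cos (Real.pi * w.re)) + 1 / 40 <
      (Φ ((1 / 4 : ℝ) : ℂ) ((starRingEnd ℂ) w)).re := by
  have hpi := Real.pi_pos
  have pc : (Real.pi : ℂ) ≠ 0 := by exact_mod_cast hpi.ne'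
  set Ψ : ℂ → ℂ → ℂ := fun v w => Φ w v with hΨd
  have hΨ : IsPhi Ψ := hΦ.swap
  set W := igd (UU (Real.pi / 4) 0) with hW
  have gW : gd W = UU (Real.pi / 4) 0 := gd_igd (UU_re_lt LowA_quarter)
  have a0 : 0 ≤ Real.pi * w.re := mul_nonneg hpi.le w0
  have a1 : Real.pi * w.re < Real.pi / 2 := by linarith only [hpi,
                                                 mul_nonneg (sub_nonneg.2 w1) (sub_nonneg.2 hpi.le)]
  have a2 : |Real.pi * w.re| < Real.pi / 2 := by rwa [abs_of_nonneg a0]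
  have b0 : 0 ≤ Real.pi * w.im := mul_nonneg hpi.le w2
  have hc := lx_cos w0 w1
  have k1 := lx_hor hΨ a0 a1 hc
  have k2 := lx_vert hΨ a2 b0
  rw [← hW] at k1 k2
  have z0 : UU 0 0 = 0 := by
    apply Complex.ext
    · rw [UU_re, zero_re]
    · rw [UU_im, zero_im]
  have e1 : FP Ψ (UU 0 0) (gd W) = FP Φ (UU (Real.pi / 4) 0) (gd 0) := by
    rw [FP, FP, gW, gd_zero, z0, hΨd]
  have ew : UU (Real.pi * w.re) (Real.pi * w.im) = (Real.pi : ℂ) * w := by
    rw [← pi_mul_re, ← pi_mul_im, UU_eta]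
  have pre : |((Real.pi : ℂ) * w).re| < Real.pi / 2 := by rwa [pi_mul_re]
  have e2 : FP Ψ (UU (Real.pi * w.re) (Real.pi * w.im)) (gd W) =
      (Φ ((1 / 4 : ℝ) : ℂ) ((starRingEnd ℂ) w)).re := by
    have r : Reg (igd ((Real.pi : ℂ) * w)) (igd (UU (Real.pi / 4) 0)) := by
      rw [← ew]
      exact lx_reg a2 _
    have k := FP_conj hΨ (P := (Real.pi : ℂ) * w) (P' := UU (Real.pi / 4) 0) pre
      (UU_re_lt LowA_quarter) r
    have e3 : UU (Real.pi / 4) (-0) / (Real.pi : ℂ) = ((1 / 4 : ℝ) : ℂ) := by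
      rw [neg_zero, LowA_UU0]
      push_cast
      field_simp
    rw [ew, gW, ← k, FP, map_mul, conj_ofReal, mul_div_cancel_left₀ _ pc, UU_conj, e3]
  rw [e1] at k1
  rw [e2] at k2
  have kb := lx_base hΦ h0
  -- numbers
  have n1 : Real.arsinh 1 ≤ 8829 / 10000 := by
    have h := LowA_arsinh (x := Real.pi / 4) (by positivity) le_rfl
    rw [Real.tan_pi_div_four] at h
    have p1 := Real.pi_lt_d6
    have p3 : Real.pi ^ 3 ≤ 3.141593 ^ 3 := pow_le_pow_left₀ hpi.le p1.le 3
    have p5 : Real.pi ^ 5 ≤ 3.141593 ^ 5 := pow_le_pow_left₀ hpi.le p1.le 5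
    rw [div_pow, div_pow] at h
    norm_num at p1 p3 p5 h
    linarith only [h, p5, p3, p1]
  set c := Real.cos (Real.pi * w.re) with hcd
  have n2 : 29 / 100 ≤ Real.arsinh c := by
    rw [← Real.sinh_le_sinh, Real.sinh_arsinh]
    refine le_trans ?_ hc
    have h1 : Real.exp (29 / 100) ≤ 1337 / 1000 := by
      have := Real.exp_bound' (x := 29 / 100) (n := 4) (by norm_num) (by norm_num) (by norm_num)
      norm_num [Finset.sum_range_succ, Nat.factorial] at this
      linarith only [this]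
    have h2 : 7200 / 10000 ≤ Real.exp (-(29 / 100)) := by
      rw [Real.exp_neg, le_inv_comm₀ (by norm_num) (Real.exp_pos _)]
      norm_num
      linarith only [h1]
    rw [Real.sinh_eq]
    linarith only [h2, h1]
  set a := Real.arsinh c with ha
  have n3 : 107588 / 100000 ≤ 2 / Real.pi * (169 / 100) := by
    rw [div_mul_eq_mul_div, le_div_iff₀ hpi]
    have := Real.pi_lt_d6
    norm_num at this ⊢
    linarith only [this]
  have n4 : 2 / Real.pi * (169 / 100) ≤ 1076 / 1000 := by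
    rw [div_mul_eq_mul_div, div_le_iff₀ hpi]
    have := Real.pi_gt_d6
    norm_num at this ⊢
    linarith only [this]
  generalize 2 / Real.pi * (169 / 100) = k at *
  have n5 : k * (Real.arsinh 1) ≤ 1076 / 1000 * (8829 / 10000) :=
    mul_le_mul n4 n1 (Real.arsinh_nonneg_iff.2 zero_le_one) (by norm_num)
  have n6 : 107588 / 100000 * a ≤ k * a := mul_le_mul_of_nonneg_right n3 (by linarith only [n2])
  norm_num at n5
  linarith only [n5, n6, k1, n2, kb, k2]

/-- The growth at the ends. -/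
theorem low2_E2a (hΦ : IsPhi Φ) (h0 : Φ 0 0 = c00) (t2 : Real.tan θ ≤ 1) (w0 : 0 ≤ w.re)
    (w1 : w.re ≤ 2 / 5) (w2 : 0 ≤ w.im) (w3 : w.im ≤ bl θ w.re) :
    Real.pi * w.im + 1 / 40 < (Φ ((1 / 4 : ℝ) : ℂ) ((starRingEnd ℂ) w)).re := by
  have hpi := Real.pi_pos
  have h := lx_quarter hΦ h0 w0 w1 w2
  have hc := lx_cos w0 w1
  have k : Real.pi * w.im ≤ Real.arsinh (Real.cos (Real.pi * w.re)) := by
    rw [← Real.sinh_le_sinh, Real.sinh_arsinh]
    have h1 : Real.sinh (Real.pi * w.im) ≤ Real.tan θ * Real.cos (Real.pi * w.re) := by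
      rw [← sinh_pi_bl]
      exact Real.sinh_le_sinh.2 (mul_le_mul_of_nonneg_left w3 hpi.le)
    linarith only [h1, t2, mul_nonneg (sub_nonneg.2 t2) (sub_nonneg.2 hc)]
  linarith only [k, h]

/-- The slot near `0`. -/
theorem lx_slot {v : ℂ} (hv : |v.re| ≤ 1 / 2) (hs : ‖sin (Real.pi * v)‖ ^ 2 ≤ 1) {y : ℝ}
    (h0 : -(1 / 10) ≤ y) (h1 : y ≤ 0) :
    se (y : ℂ) (.op v) ≤ Real.pi * |v.im| + 9 / 400 := by
  have hpi := Real.pi_pos
  have hpi2 := Real.pi_lt_d2
  have hc : Continuous fun t : ℝ => se (t : ℂ) (.op v) + 9 / 40 * t := by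
    unfold se
    have := Rf_continuous
    simp only
    fun_prop
  have m := (Cl.mono_exc (f := fun t : ℝ => se (t : ℂ) (.op v) + 9 / 40 * t) (a := -(1 / 10))
    (b := 0) (s := -|v.re|) hc ?_).monotoneOn (a := y) (b := 0) ⟨h0, h1⟩ ⟨by norm_num, le_rfl⟩ h1
  · simp only [ofReal_zero, mul_zero, add_zero] at m
    rw [se_zero_op] at m
    linarith only [m, h0]
  · intro t ht hne
    have hv' := abs_le.1 hv
    have fin : ∀ w : ℂ, w.re = v.re ∨ w.re = -v.re →
        sin (Real.pi * ((t : ℂ) - w)) = 0 → t = w.re := by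
      intro w hw h4
      obtain ⟨n, hn⟩ := Cl.sin_pi_int h4
      have h5 := congrArg Complex.re hn
      simp at h5
      have hw1 : -(1 / 2) ≤ w.re ∧ w.re ≤ 1 / 2 := by
        rcases hw with h | h <;> rw [h] <;> constructor <;> linarith
      have h6 : (n : ℝ) < 1 := by linarith only [ht.2, hw1.1, h5]
      have h7 : (-1 : ℝ) < n := by linarith only [ht.1, hw1.2, h5]
      have h8 : n < 1 := by exact_mod_cast h6
      have h9 : -1 < n := by exact_mod_cast h7
      have h10 : n = 0 := by omega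
      rw [h10] at h5
      push_cast at h5
      linarith only [h5]
    have s2 : sin (Real.pi * ((t : ℂ) + -v)) ≠ 0 := by
      intro h
      rw [← sub_eq_add_neg] at h
      have := fin v (Or.inl rfl) h
      apply hne
      rw [abs_of_neg (by linarith only [ht.2, this])]
      linarith only [this]
    have s3 : sin (Real.pi * ((t : ℂ) + v)) ≠ 0 := by
      intro h
      have := fin (-v) (Or.inr (neg_re v)) (by rw [sub_neg_eq_add]; exact h)
      rw [neg_re] at this
      apply hne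
      rw [abs_of_pos (by linarith only [ht.2, this])]
      linarith only [this]
    have hs0 : |Real.sin (Real.pi * t)| ≤ 315 / 1000 := by
      have e1 : |Real.sin (Real.pi * t)| ≤ |Real.pi * t| := Real.abs_sin_le_abs
      have e2 : |Real.pi * t| ≤ 315 / 1000 := by
        rw [abs_mul, abs_of_pos hpi, abs_of_nonpos ht.2.le]
        linarith only [hpi2, mul_pos (sub_pos.2 hpi) (sub_pos.2 ht.1)]
      linarith only [e2, e1]
    have hs2 : Real.sin (Real.pi * t) ^ 2 ≤ 1 / 10 := by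
      rw [← sq_abs]
      linarith only [hs0,
        mul_nonneg (sub_nonneg.2 hs0) (sub_nonneg.2 (abs_nonneg (Real.sin (Real.pi * t))))]
    have hc2 : 9 / 10 ≤ Real.cos (Real.pi * t) ^ 2 := by
      have := Real.sin_sq_add_cos_sq (Real.pi * t)
      linarith only [this, hs2]
    have e1 : 2 * sin (Real.pi * ((t : ℂ) + 1 / 2)) = ((2 * Real.cos (Real.pi * t) : ℝ) : ℂ) := by
      rw [mul_add, show (Real.pi : ℂ) * (1 / 2) = Real.pi / 2 by ring, Complex.sin_add_pi_div_two]
      push_cast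
      ring
    have s1 : sin (Real.pi * ((t : ℂ) + 1 / 2)) ≠ 0 := by
      intro h
      rw [h, mul_zero] at e1
      have : (2 * Real.cos (Real.pi * t) : ℝ) = 0 := by exact_mod_cast e1.symm
      have : Real.cos (Real.pi * t) = 0 := by linarith only [this]
      rw [this] at hc2
      norm_num at hc2
    have d1 := Cl.Rf_line_deriv (t := t) (w := 1 / 2) (c := 1 / 2) (η := 0)
      (by push_cast; ring) s1
    have d2 := Cl.Rf_line_deriv (t := t) (w := -v) (c := -v.re) (η := -v.im)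
      (by apply Complex.ext <;> simp) s2
    have d3 := Cl.Rf_line_deriv (t := t) (w := v) (c := v.re) (η := v.im)
      (by apply Complex.ext <;> simp) s3
    have d := (((d1.const_mul 2).sub d2).sub d3).add ((hasDerivAt_id' t).const_mul (9 / 40))
    refine ⟨_, ?_, d⟩
    have g1 : 0 < ‖2 * sin (Real.pi * ((t : ℂ) + 1 / 2))‖ := by
      rw [norm_pos_iff]; exact mul_ne_zero two_ne_zero s1
    have g2 : 0 < ‖2 * sin (Real.pi * ((t : ℂ) + -v))‖ := by
      rw [norm_pos_iff]; exact mul_ne_zero two_ne_zero s2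
    have g3 : 0 < ‖2 * sin (Real.pi * ((t : ℂ) + v))‖ := by
      rw [norm_pos_iff]; exact mul_ne_zero two_ne_zero s3
    have q1 : 18 / 5 ≤ ‖2 * sin (Real.pi * ((t : ℂ) + 1 / 2))‖ ^ 2 := by
      rw [e1, norm_real, Real.norm_eq_abs, sq_abs, mul_pow]
      linarith only [hc2]
    have q2 : ‖2 * sin (Real.pi * ((t : ℂ) + -v))‖ * ‖2 * sin (Real.pi * ((t : ℂ) + v))‖ ≤
        22 / 5 := by
      rw [← norm_mul]
      have e2 : (2 * sin (Real.pi * ((t : ℂ) + -v))) * (2 * sin (Real.pi * ((t : ℂ) + v))) =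
          4 * (sin (Real.pi * (t : ℂ)) ^ 2 - sin (Real.pi * v) ^ 2) := by
        have q1 : (Real.pi : ℂ) * ((t : ℂ) + -v) = Real.pi * t - Real.pi * v := by ring
        have q2 : (Real.pi : ℂ) * ((t : ℂ) + v) = Real.pi * t + Real.pi * v := mul_add _ _ _
        rw [q1, q2, Complex.sin_sub, Complex.sin_add]
        have s1 := Complex.sin_sq_add_cos_sq (Real.pi * (t : ℂ))
        have s2 := Complex.sin_sq_add_cos_sq (Real.pi * v)
        linear_combination 4 * sin (Real.pi * (t : ℂ)) ^ 2 * s2 - 4 * sin (Real.pi * v) ^ 2 * s1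
      rw [e2, norm_mul]
      have e3 : ‖sin (Real.pi * (t : ℂ)) ^ 2 - sin (Real.pi * v) ^ 2‖ ≤ 1 / 10 + 1 := by
        refine (norm_sub_le _ _).trans ?_
        have e4 : ‖sin (Real.pi * (t : ℂ)) ^ 2‖ = Real.sin (Real.pi * t) ^ 2 := by
          rw [← ofReal_mul, ← ofReal_sin, ← ofReal_pow, norm_real, Real.norm_eq_abs,
            abs_of_nonneg (sq_nonneg _)]
        rw [e4, norm_pow]
        exact add_le_add hs2 hs
      have e5 : ‖(4 : ℂ)‖ = 4 := by simp
      rw [e5]
      linarith only [e3]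
    have l1 : Real.log (18 / 5) ≤ 2 * Real.log ‖2 * sin (Real.pi * ((t : ℂ) + 1 / 2))‖ := by
      have := Real.log_le_log (by norm_num) q1
      rwa [Real.log_pow] at this
    have l2 : Real.log ‖2 * sin (Real.pi * ((t : ℂ) + -v))‖ +
        Real.log ‖2 * sin (Real.pi * ((t : ℂ) + v))‖ ≤ Real.log (22 / 5) := by
      rw [← Real.log_mul g2.ne' g3.ne']
      exact Real.log_le_log (mul_pos g2 g3) q2
    have l3 : Real.log (22 / 5) - Real.log (18 / 5) ≤ 2 / 9 := by
      rw [← Real.log_div (by norm_num) (by norm_num)]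
      have := Real.log_le_sub_one_of_pos (x := 22 / 5 / (18 / 5)) (by norm_num)
      norm_num at this ⊢
      linarith only [this]
    linarith only [l3, l2, l1]

/-- Left of `0`. -/
theorem low2_E2b (hΦ : IsPhi Φ) (h0 : Φ 0 0 = c00) (t2 : Real.tan θ ≤ 1)
    (w0 : 0 ≤ w.re) (w1 : w.re ≤ 2 / 5) (w2 : 0 ≤ w.im) (w3 : w.im ≤ bl θ w.re) {y : ℝ}
    (y0 : -(1 / 10) ≤ y) (y1 : y ≤ 0) :
    se (y : ℂ) (.op w) < (Φ ((1 / 4 : ℝ) : ℂ) ((starRingEnd ℂ) w)).re := by
  have hpi := Real.pi_pos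
  have h := low2_E2a hΦ h0 t2 w0 w1 w2 w3
  have hc := lx_cos w0 w1
  have hs : ‖sin (Real.pi * w)‖ ^ 2 ≤ 1 := by
    have h1 : Real.sinh (Real.pi * w.im) ≤ Real.cos (Real.pi * w.re) := by
      have h1 : Real.sinh (Real.pi * w.im) ≤ Real.tan θ * Real.cos (Real.pi * w.re) := by
        rw [← sinh_pi_bl]
        exact Real.sinh_le_sinh.2 (mul_le_mul_of_nonneg_left w3 hpi.le)
      linarith only [h1, t2, mul_nonneg (sub_nonneg.2 t2) (sub_nonneg.2 hc)]
    have h2 : 0 ≤ Real.sinh (Real.pi * w.im) :=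
      Real.sinh_nonneg_iff.2 (mul_nonneg hpi.le w2)
    have h3 := Real.sin_sq_add_cos_sq (Real.pi * w.re)
    have e2 : ((Real.pi : ℂ) * w) = ((Real.pi * w.re : ℝ) : ℂ) + ((Real.pi * w.im : ℝ) : ℂ) * I := by
      rw [← pi_mul_re, ← pi_mul_im, re_add_im]
    rw [e2, norm_sin_sq]
    linarith only [h3, h1, mul_nonneg (sub_nonneg.2 h1) (sub_nonneg.2 h2),
      mul_nonneg (sub_nonneg.2 hc) (sub_nonneg.2 h1)]
  have k := lx_slot (v := w) (by rw [abs_of_nonneg w0]; linarith only [w1]) hs y0 y1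
  rw [abs_of_nonneg w2] at k
  linarith only [k, h]

end

end Pool.Agent.S3
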