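import Pool.Agent.S3.LX3
import Pool.Agent.S3.LX4

/-!
# Small indices, inner vertices with two half twists: the open-open edges
-/

set_option autoImplicit false

namespace Pool.Agent.S3

open Complex

/-! ### The cost along the real axis -/

/-- A primitive of the bound of `arsinh (κ tan s)`. -/
noncomputable def PP (κ s : ℝ) : ℝ :=
  s ^ 2 / 2 + s ^ 4 / 24 + 56 / 6000 * s ^ 6 + (κ - 1) * (1 - Real.cos s)

/-- The bound of `arsinh (κ tan s)`. -/
noncomputable def pk (κ s : ℝ) : ℝ := s + s ^ 3 / 6 + 56 / 1000 * s ^ 5 + (κ - 1) * Real.sin s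

theorem PP_deriv (κ s : ℝ) : HasDerivAt (PP κ) (pk κ s) s := by
  have h := ((((hasDerivAt_pow 2 s).div_const 2).add ((hasDerivAt_pow 4 s).div_const 24)).add
    ((hasDerivAt_pow 6 s).const_mul (56 / 6000))).add
    (((Real.hasDerivAt_cos s).const_sub 1).const_mul (κ - 1))
  refine h.congr_deriv ?_
  unfold pk
  norm_num
  ring

theorem pk_mono {κ s t : ℝ} (hκ : 1 ≤ κ) (h0 : 0 ≤ s) (h1 : s ≤ t) (h2 : t ≤ Real.pi / 2) :
    pk κ s ≤ pk κ t := by
  have a1 : s ^ 3 ≤ t ^ 3 := pow_le_pow_left₀ h0 h1 3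
  have a2 : s ^ 5 ≤ t ^ 5 := pow_le_pow_left₀ h0 h1 5
  have a3 : Real.sin s ≤ Real.sin t := Real.sin_le_sin_of_le_of_le_pi_div_two (by linarith only [h2,
                                                                                    h1, h0]) h2 h1
  have a4 := mul_le_mul_of_nonneg_left a3 (show 0 ≤ κ - 1 by linarith only [hκ])
  unfold pk
  linarith only [a4, a2, a1, h1]

theorem arsinh_le_pk {κ s : ℝ} (hκ : 1 ≤ κ) (h0 : 0 ≤ s) (h1 : s ≤ Real.pi / 4) :
    Real.arsinh (κ * Real.tan s) ≤ pk κ s := by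
  have h4 := LowA_kappa h0 h1 hκ
  have h5 := LowA_arsinh h0 h1
  unfold pk
  linarith only [h5, h4]

section

variable {Φ : ℂ → ℂ → ℂ} {θ θ' κ x : ℝ} {w : ℂ}

theorem lx_drop (hP : IsPhi Φ) {P : ℂ} (hPr : |P.re| < Real.pi / 2) (hκ : 1 ≤ κ)
    (hc : ‖cos P‖ ≤ κ) (h0 : 0 ≤ x) (h1 : x ≤ 1 / 4) :
    FP Φ (UU (Real.pi * x) 0) P ≤ FP Φ (UU (Real.pi / 4) 0) P + 2 / Real.pi *
      (PP κ (Real.pi / 4) - PP κ (Real.pi * x)) := by
  have hpi := Real.pi_pos
  set W : ℂ := igd P with hW
  have hgW : gd W = P := gd_igd hPr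
  have hWi : |W.im| < Real.pi / 2 := igd_im_lt hPr
  have ab : ∀ s : ℝ, 0 ≤ s → s ≤ Real.pi / 4 → |s| < Real.pi / 2 := fun s h1 h2 => by
    rw [abs_of_nonneg h1]; linarith only [h2, hpi]
  have hreg : ∀ s, 0 ≤ s → s ≤ Real.pi / 4 → Reg (igd (UU s 0)) W := by
    intro s hs hsb
    unfold Reg
    rw [igd_real_im (ab s hs hsb), abs_zero, zero_add]
    exact hWi
  have hd : ∀ s, 0 ≤ s → s ≤ Real.pi / 4 → HasDerivAt
      (fun s => FP Φ (UU s 0) (gd W) + 2 / Real.pi * PP κ s)
      (-(2 / Real.pi) * (qq (igd (UU s 0)) W).re + 2 / Real.pi * pk κ s) s := fun s hs hsb =>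
    (hasDerivAt_FP_hor hP (ab s hs hsb) (hreg s hs hsb)).add ((PP_deriv κ s).const_mul _)
  have x0 : 0 ≤ Real.pi * x := by positivity
  have x1 : Real.pi * x ≤ Real.pi / 4 := by linarith only [mul_nonneg (sub_nonneg.2 h1) (sub_nonneg.2 hpi.le)]
  have key : MonotoneOn (fun s => FP Φ (UU s 0) (gd W) + 2 / Real.pi * PP κ s)
      (Set.Icc (Real.pi * x) (Real.pi / 4)) := by
    apply monotoneOn_of_deriv_nonneg (convex_Icc _ _)
    · exact fun s hs => (hd s (x0.trans hs.1) hs.2).continuousAt.continuousWithinAt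
    · rw [interior_Icc]
      exact fun s hs => (hd s (x0.trans hs.1.le) hs.2.le).differentiableAt.differentiableWithinAt
    · rw [interior_Icc]
      intro s hs
      have s0 := x0.trans hs.1.le
      have s1 := hs.2.le
      rw [(hd s s0 s1).deriv]
      have hcs := LowA_cos_pos s0 s1
      have hsn : 0 ≤ Real.sin s := Real.sin_nonneg_of_nonneg_of_le_pi s0 (by linarith only [s1, hpi])
      have ht : 0 ≤ Real.tan s := by
        rw [Real.tan_eq_sin_div_cos]
        positivity
      have k1 := qq_re_le (igd (UU s 0)) W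
      have k2 : ‖sinh (igd (UU s 0)) / cosh W‖ ≤ κ * Real.tan s := by
        rw [sinh_igd, hW, cosh_igd hPr, div_div_eq_mul_div, div_one, norm_mul,
          LowA_UU0, ← ofReal_tan, Complex.norm_real, Real.norm_of_nonneg ht, mul_comm]
        exact mul_le_mul_of_nonneg_right hc ht
      have k3 := (k1.trans (Real.arsinh_le_arsinh.2 k2)).trans (arsinh_le_pk hκ s0 s1)
      have k4 := mul_le_mul_of_nonneg_left k3 (show 0 ≤ 2 / Real.pi by positivity)
      linarith only [k4]
  have k := key ⟨le_rfl, x1⟩ ⟨x1, le_rfl⟩ x1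
  simp only [hgW] at k
  linarith only [k]

/-- The gain above the test height. -/
theorem lx_gain (hΦ : IsPhi Φ) {P : ℂ} (hP : |P.re| < Real.pi / 2) {η : ℝ} (h0 : 0 ≤ η)
    (hr : Reg (igd (UU (Real.pi / 4) η)) (igd P)) (c0 : 0 ≤ (cos P).re) (s0 : 0 ≤ (cos P).im)
    {N : ℝ} (hN : 0 < N) (hN2 : 1 + normSq (cos P) ≤ N ^ 2) :
    FP Φ (UU (Real.pi / 4) 0) P + 1 / (Real.pi * N) * ((cos P).re * Real.log (Real.cosh (2 * η)) +
      2 * (cos P).im * η / Real.cosh (2 * η)) ≤ FP Φ (UU (Real.pi / 4) η) P := by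
  have hpi := Real.pi_pos
  set w : ℂ := igd P with hw
  have hgw : gd w = P := gd_igd hP
  have hreg : ∀ s, 0 ≤ s → s ≤ η → Reg (igd (UU (Real.pi / 4) s)) w := fun s hs hsb =>
    reg_vert LowA_quarter le_rfl hs hsb hr
  have key := LowA_pos (b := η) (x := η)
    (f := fun s => FP Φ (UU (Real.pi / 4) s) (gd w) - FP Φ (UU (Real.pi / 4) 0) (gd w) -
      1 / (Real.pi * N) * ((cos P).re * Real.log (Real.cosh (2 * s)) +
      2 * (cos P).im * s / Real.cosh (2 * η)))
    (f' := fun s => 2 / Real.pi * (qq (igd (UU (Real.pi / 4) s)) w).im -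
      1 / (Real.pi * N) * ((cos P).re * (2 * Real.sinh (2 * s) / Real.cosh (2 * s)) +
      2 * (cos P).im / Real.cosh (2 * η))) ?_ (by simp) ?_ h0 le_rfl
  · simp only [hgw] at key
    linarith only [key]
  · intro s hs hsb
    have hd := hasDerivAt_FP_vert hΦ LowA_quarter (hreg s hs hsb)
    have hc := Real.cosh_pos (2 * s)
    have h2 : HasDerivAt (fun s : ℝ => Real.cosh (2 * s)) (Real.sinh (2 * s) * 2) s := by
      have := ((hasDerivAt_id' s).const_mul 2).cosh
      simpa using this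
    have h3 : HasDerivAt (fun s : ℝ => 2 * (cos P).im * s / Real.cosh (2 * η))
        (2 * (cos P).im / Real.cosh (2 * η)) s := by
      have := ((hasDerivAt_id' s).const_mul (2 * (cos P).im)).div_const (Real.cosh (2 * η))
      rwa [mul_one] at this
    have h4 := (hd.sub_const (FP Φ (UU (Real.pi / 4) 0) (gd w))).sub
      ((((h2.log hc.ne').const_mul (cos P).re).add h3).const_mul (1 / (Real.pi * N)))
    refine h4.congr_deriv ?_
    rw [mul_comm (Real.sinh (2 * s)) 2]
  · intro s hs hsb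
    have hr := hreg s hs hsb
    have hch := Real.cosh_sq s
    have e1 : sinh (igd (UU (Real.pi / 4) s)) / cosh w = tan (UU (Real.pi / 4) s) * cos P := by
      rw [sinh_igd, hw, cosh_igd hP, div_div_eq_mul_div, div_one]
    have t1 : (tan (UU (Real.pi / 4) s)).re = 1 / (Real.cosh s ^ 2 + Real.sinh s ^ 2) := by
      rw [LowA_tan4, add_re, ofReal_re, re_ofReal_mul, I_re, mul_zero, add_zero]
    have t2 : (tan (UU (Real.pi / 4) s)).im =
        2 * Real.sinh s * Real.cosh s / (Real.cosh s ^ 2 + Real.sinh s ^ 2) := by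
      rw [LowA_tan4, add_im, ofReal_im, im_ofReal_mul, I_im, mul_one, zero_add]
    have hD : Real.cosh (2 * s) = Real.cosh s ^ 2 + Real.sinh s ^ 2 := Real.cosh_two_mul s
    have hS : Real.sinh (2 * s) = 2 * Real.sinh s * Real.cosh s := Real.sinh_two_mul s
    rw [← hD] at t1 t2
    rw [← hS] at t2
    have hDpos := Real.cosh_pos (2 * s)
    have hS0 : 0 ≤ Real.sinh (2 * s) := Real.sinh_nonneg_iff.2 (by linarith only [hs])
    have hsc := Real.cosh_sq (2 * s)
    have hq := qq_im_ge hr (c := Real.sinh (2 * s) / Real.cosh (2 * s) * (cos P).re +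
      1 / Real.cosh (2 * s) * (cos P).im) (N := N) hN (by positivity) (by
        rw [e1, mul_im, t1, t2]
        linarith only []) (by
        rw [e1, map_mul]
        have g1 : normSq (tan (UU (Real.pi / 4) s)) = 1 := by
          rw [normSq_apply, t1, t2]
          field_simp
          linarith only [hsc]
        rw [g1, one_mul]
        exact hN2)
    have hcc : Real.cosh (2 * s) ≤ Real.cosh (2 * η) := by
      rw [Real.cosh_le_cosh, abs_of_nonneg (by linarith only [hs]), abs_of_nonneg (by linarith only [h0])]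
      linarith only [hsb]
    have h6 : 1 / Real.cosh (2 * η) ≤ 1 / Real.cosh (2 * s) :=
      one_div_le_one_div_of_le hDpos hcc
    have h7 := mul_le_mul_of_nonneg_right h6 s0
    have h8 : (Real.sinh (2 * s) / Real.cosh (2 * s) * (cos P).re +
        1 / Real.cosh (2 * η) * (cos P).im) / N ≤ (qq (igd (UU (Real.pi / 4) s)) w).im :=
      le_trans (div_le_div_of_nonneg_right (by linarith only [h7]) hN.le) hq
    have h9 := mul_le_mul_of_nonneg_left h8 (show 0 ≤ 2 / Real.pi by positivity)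
    have e3 : 2 / Real.pi * ((Real.sinh (2 * s) / Real.cosh (2 * s) * (cos P).re +
        1 / Real.cosh (2 * η) * (cos P).im) / N) =
        1 / (Real.pi * N) * ((cos P).re * (2 * Real.sinh (2 * s) / Real.cosh (2 * s)) +
      2 * (cos P).im / Real.cosh (2 * η)) := by
      field_simp
    rw [e3] at h9
    linarith only [h9]

end

/-! ### The gain of the lattice vertex against the cost -/

/-- The derivative of the difference. -/
theorem lx_N_deriv {κ x : ℝ} (h0 : 1 / 10 < x) (h1 : x < 1 / 2) :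
    ∃ d, HasDerivAt (fun x : ℝ => s1 (x : ℂ) + 2 / Real.pi * PP κ (Real.pi * x))
      (-d + 2 * pk κ (Real.pi * x)) x ∧
      d = Real.log ((1 + Real.tan (Real.pi / 10) * lct x) /
        (1 - Real.tan (Real.pi / 10) * lct x)) ∧
      2 * (Real.tan (Real.pi / 10) * lct x) + 2 / 3 * (Real.tan (Real.pi / 10) * lct x) ^ 3 +
        2 / 5 * (Real.tan (Real.pi / 10) * lct x) ^ 5 ≤ d ∧
      0 < Real.tan (Real.pi / 10) * lct x ∧ Real.tan (Real.pi / 10) * lct x < 1 := by
  have hpi := Real.pi_pos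
  obtain ⟨d, d1, d2, d3, d4, d5⟩ := s1_deriv h0 h1
  refine ⟨d, ?_, d2, d3, d4, d5⟩
  have d0 : HasDerivAt (fun x : ℝ => Real.pi * x) Real.pi x := by
    simpa using (hasDerivAt_id' x).const_mul Real.pi
  have e := d1.add (((PP_deriv κ (Real.pi * x)).comp x d0).const_mul (2 / Real.pi))
  refine e.congr_deriv ?_
  field_simp

theorem lx_N_cont {κ : ℝ} : Continuous
    (fun x : ℝ => s1 (x : ℂ) + 2 / Real.pi * PP κ (Real.pi * x)) := by
  have c1 : Continuous fun y : ℝ => s1 (y : ℂ) := s1_continuous.comp continuous_ofReal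
  unfold PP
  fun_prop

theorem lx_d_ge {x : ℝ} (h0 : 1 / 10 < x) (h1 : x ≤ 1 / 6) :
    1266 / 1000 ≤ 2 * (Real.tan (Real.pi / 10) * lct x) +
      2 / 3 * (Real.tan (Real.pi / 10) * lct x) ^ 3 +
      2 / 5 * (Real.tan (Real.pi / 10) * lct x) ^ 5 := by
  have h2 := lct_anti (x := x) (y := 1 / 6) (by linarith only [h0]) h1 (by norm_num)
  rw [lct_sixth] at h2
  have h3 : (1.732 : ℝ) ≤ √3 := by
    apply Real.le_sqrt_of_sq_le
    norm_num
  have t1 := lx_t0.1
  have z : 5625 / 10000 ≤ Real.tan (Real.pi / 10) * lct x := by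
    have := mul_le_mul t1 (h3.trans h2) (by norm_num) (by linarith only [t1, h1, h0])
    norm_num at this
    linarith only [this, h1, h0]
  have z3 := pow_le_pow_left₀ (by norm_num) z 3
  have z5 := pow_le_pow_left₀ (by norm_num) z 5
  norm_num at z3 z5 ⊢
  linarith only [z5, z3, z, h1, h0]

theorem lx_d_le {x : ℝ} (h0 : 1 / 6 ≤ x) (h1 : x ≤ 1 / 2)
    (h2 : 0 < Real.tan (Real.pi / 10) * lct x) :
    Real.log ((1 + Real.tan (Real.pi / 10) * lct x) /
        (1 - Real.tan (Real.pi / 10) * lct x)) ≤ 1387 / 1000 := by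
  have h3 := lct_anti (x := 1 / 6) (y := x) (by norm_num) h0 h1
  rw [lct_sixth] at h3
  have h4 : √3 ≤ (1.7321 : ℝ) := by
    rw [Real.sqrt_le_left (by norm_num)]
    norm_num
  have t1 := lx_t0
  have hl : 0 < lct x := by
    by_contra hc
    push Not at hc
    have := mul_nonpos_of_nonneg_of_nonpos (by linarith only [t1.1] : 0 ≤ Real.tan (Real.pi / 10)) hc
    linarith only [this, h2]
  have z : Real.tan (Real.pi / 10) * lct x ≤ 3 / 5 := by
    have := mul_le_mul t1.2 (h3.trans h4) hl.le (by norm_num)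
    norm_num at this
    linarith only [this, h2]
  set q := Real.tan (Real.pi / 10) * lct x with hq
  have h5 : (1 + q) / (1 - q) ≤ 4 := by
    rw [div_le_iff₀ (by linarith only [z])]
    linarith only [z]
  have h6 := Real.log_le_log (div_pos (by linarith only [h2]) (by linarith only [z])) h5
  have h7 : Real.log 4 = 2 * Real.log 2 := by
    rw [show (4 : ℝ) = 2 ^ 2 by norm_num, Real.log_pow]
    norm_num
  have h8 := Real.log_two_lt_d9
  linarith only [h8, h7, h6, z, h2]

theorem lx_pk_sixth {κ : ℝ} : 5497 / 10000 + (κ - 1) / 2 ≤ pk κ (Real.pi / 6) ∧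
    pk κ (Real.pi / 6) ≤ 5498 / 10000 + (κ - 1) / 2 := by
  have hpi := Real.pi_pos
  unfold pk
  rw [Real.sin_pi_div_six]
  have p0 := Real.pi_gt_d6
  have p1 := Real.pi_lt_d6
  have p3 : Real.pi ^ 3 ≤ 3.141593 ^ 3 := pow_le_pow_left₀ hpi.le p1.le 3
  have p5 : Real.pi ^ 5 ≤ 3.141593 ^ 5 := pow_le_pow_left₀ hpi.le p1.le 5
  have q3 : 3.141592 ^ 3 ≤ Real.pi ^ 3 := pow_le_pow_left₀ (by norm_num) p0.le 3
  have q5 : 3.141592 ^ 5 ≤ Real.pi ^ 5 := pow_le_pow_left₀ (by norm_num) p0.le 5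
  rw [div_pow, div_pow]
  norm_num at p0 p1 p3 p5 q3 q5 ⊢
  constructor <;> linarith

theorem lx_PP_diff {κ : ℝ} (h0 : 1 ≤ κ) :
    2 / Real.pi * (PP κ (Real.pi / 4) - PP κ (Real.pi / 6)) ≤
      11847 / 100000 + (κ - 1) * (1012 / 10000) := by
  have hpi := Real.pi_pos
  have e : 2 / Real.pi * (PP κ (Real.pi / 4) - PP κ (Real.pi / 6)) =
      2 * Real.pi * (1 / 32 - 1 / 72) + 2 * Real.pi ^ 3 * (1 / 256 - 1 / 1296) / 24 +
      2 * Real.pi ^ 5 * (56 / 6000) * (1 / 4096 - 1 / 46656) +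
      (κ - 1) * ((√3 - √2) / Real.pi) := by
    unfold PP
    rw [Real.cos_pi_div_four, Real.cos_pi_div_six]
    field_simp
    ring
  rw [e]
  have p1 := Real.pi_lt_d6
  have p3 : Real.pi ^ 3 ≤ 3.141593 ^ 3 := pow_le_pow_left₀ hpi.le p1.le 3
  have p5 : Real.pi ^ 5 ≤ 3.141593 ^ 5 := pow_le_pow_left₀ hpi.le p1.le 5
  have h3 : √3 ≤ (1.73206 : ℝ) := by
    rw [Real.sqrt_le_left (by norm_num)]
    norm_num
  have h2 : (1.4142 : ℝ) ≤ √2 := by
    apply Real.le_sqrt_of_sq_le
    norm_num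
  have h4 : (√3 - √2) / Real.pi ≤ 1012 / 10000 := by
    rw [div_le_iff₀ hpi]
    have := Real.pi_gt_d6
    norm_num at this h2 h3 ⊢
    linarith only [h3, h2, this, p1]
  have h5 := mul_le_mul_of_nonneg_left h4 (show 0 ≤ κ - 1 by linarith only [h0])
  norm_num at p1 p3 p5
  linarith only [p5, p3, p1, h5]

/-- The general comparison. -/
theorem lx_K {κ x A B : ℝ} (hκ : 1 ≤ κ) (h0 : 1 / 10 ≤ x) (h1 : x ≤ 1 / 4)
    (hA : 2 * (5498 / 10000 + (κ - 1) / 2) - 1266 / 1000 ≤ A) (hA0 : 0 ≤ A)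
    (hB : 1387 / 1000 - 2 * (5497 / 10000 + (κ - 1) / 2) ≤ B) (hB0 : 0 ≤ B) :
    2 / Real.pi * (PP κ (Real.pi / 4) - PP κ (Real.pi * x)) ≤ s1 (x : ℂ) +
      (11847 / 100000 + (κ - 1) * (1012 / 10000) - 149 / 1000 +
      (if x ≤ 1 / 6 then A * (1 / 6 - x) else B * (x - 1 / 6))) := by
  have hpi := Real.pi_pos
  have h6 := s1_sixth
  have hdf := lx_PP_diff hκ
  have hpk := lx_pk_sixth (κ := κ)
  have e6 : Real.pi * (1 / 6) = Real.pi / 6 := by ring
  split_ifs with hx
  · have key : AntitoneOn (fun x : ℝ => s1 (x : ℂ) + 2 / Real.pi * PP κ (Real.pi * x) - A * x)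
        (Set.Icc x (1 / 6)) := by
      apply antitoneOn_of_deriv_nonpos (convex_Icc _ _)
      · exact (lx_N_cont.sub (by fun_prop)).continuousOn
      · rw [interior_Icc]
        intro y hy
        obtain ⟨d, d1, _⟩ := lx_N_deriv (κ := κ) (x := y) (by linarith only [hy.1, h0]) (by linarith only [hy.2])
        exact (d1.sub ((hasDerivAt_id' y).const_mul A)).differentiableAt.differentiableWithinAt
      · rw [interior_Icc]
        intro y hy
        obtain ⟨d, d1, d2, d3, d4, d5⟩ := lx_N_deriv (κ := κ) (x := y) (by linarith only [hy.1, h0])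
          (by linarith only [hy.2])
        have hh : HasDerivAt (fun x : ℝ => s1 (x : ℂ) + 2 / Real.pi * PP κ (Real.pi * x) - A * x)
          (-d + 2 * pk κ (Real.pi * y) - A * 1) y := d1.sub ((hasDerivAt_id' y).const_mul A)
        rw [hh.deriv]
        have k1 := lx_d_ge (x := y) (by linarith only [hy.1, h0]) hy.2.le
        have k2 := pk_mono (κ := κ) (s := Real.pi * y) (t := Real.pi / 6) hκ (by
          have := hy.1
          have : 0 ≤ y := by linarith only [this, d5, d4, h0]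
          positivity) (by linarith only [mul_pos (sub_pos.2 hy.2) (sub_pos.2 hpi)]) (by linarith only [hpi])
        linarith only [k2, k1, d3, hpk.2, hA]
    have k := key ⟨le_rfl, hx⟩ ⟨hx, le_rfl⟩ hx
    simp only [e6] at k
    linarith only [k, hdf, h6]
  · push Not at hx
    have key : MonotoneOn (fun x : ℝ => s1 (x : ℂ) + 2 / Real.pi * PP κ (Real.pi * x) + B * x)
        (Set.Icc (1 / 6) x) := by
      apply monotoneOn_of_deriv_nonneg (convex_Icc _ _)
      · exact (lx_N_cont.add (by fun_prop)).continuousOn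
      · rw [interior_Icc]
        intro y hy
        obtain ⟨d, d1, _⟩ := lx_N_deriv (κ := κ) (x := y) (by linarith only [hy.1, hx, h1]) (by linarith only [hy.2,
                                                                                                  hx,
                                                                                                  h1])
        exact (d1.add ((hasDerivAt_id' y).const_mul B)).differentiableAt.differentiableWithinAt
      · rw [interior_Icc]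
        intro y hy
        obtain ⟨d, d1, d2, d3, d4, d5⟩ := lx_N_deriv (κ := κ) (x := y) (by linarith only [hy.1, hx,
                                                                             h1])
          (by linarith only [hy.2, hx, h1])
        have hh : HasDerivAt (fun x : ℝ => s1 (x : ℂ) + 2 / Real.pi * PP κ (Real.pi * x) + B * x)
          (-d + 2 * pk κ (Real.pi * y) + B * 1) y := d1.add ((hasDerivAt_id' y).const_mul B)
        rw [hh.deriv]
        have k1 := lx_d_le (x := y) (by linarith only [hy.1]) (by linarith only [hy.2, hx, h1]) d4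
        rw [← d2] at k1
        have k2 := pk_mono (κ := κ) (s := Real.pi / 6) (t := Real.pi * y) hκ (by positivity)
          (by linarith only [mul_pos (sub_pos.2 hy.1) (sub_pos.2 hpi)]) (by linarith only [hpi,
                                                                              mul_nonneg (sub_nonneg.2 h1) (sub_nonneg.2 hpi.le),
                                                                              mul_pos (sub_pos.2 hy.2) (sub_pos.2 hpi)])
        linarith only [k2, k1, hpk.1, hB]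
    have k := key ⟨le_rfl, hx.le⟩ ⟨hx.le, le_rfl⟩ hx.le
    simp only [e6] at k
    linarith only [k, hdf, h6]

/-- The comparison left of `1 / 6`, improved. -/
theorem lx_K_left {κ x A : ℝ} (hκ : 1 ≤ κ) (hκ' : κ ≤ 14143 / 10000) (h0 : 1 / 10 ≤ x)
    (h1 : x ≤ 1 / 6) (hA : 2 * (5498 / 10000 + (κ - 1) / 2) - 1266 / 1000 ≤ A) (hA0 : 0 ≤ A) :
    2 / Real.pi * (PP κ (Real.pi / 4) - PP κ (Real.pi * x)) ≤ s1 (x : ℂ) +
      (11847 / 100000 + (κ - 1) * (1012 / 10000) - 149 / 1000 + A / 60) := by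
  have hpi := Real.pi_pos
  rcases le_total (15 / 100) x with h | h
  · have k := lx_K (κ := κ) (x := x) (A := A) (B := 1387 / 1000) hκ h0 (by linarith only [h1]) hA hA0
      (by linarith only [hκ]) (by norm_num)
    rw [if_pos h1] at k
    have : A * (1 / 6 - x) ≤ A / 60 := by
      have := mul_le_mul_of_nonneg_left (show 1 / 6 - x ≤ 1 / 60 by linarith only [h]) hA0
      linarith only [this]
    linarith only [this, k]
  · have k := lx_K (κ := κ) (x := 15 / 100) (A := A) (B := 1387 / 1000) hκ (by norm_num)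
      (by norm_num) hA hA0 (by linarith only [hκ]) (by norm_num)
    rw [if_pos (by norm_num)] at k
    have key : AntitoneOn (fun x : ℝ => s1 (x : ℂ) + 2 / Real.pi * PP κ (Real.pi * x))
        (Set.Icc x (15 / 100)) := by
      apply antitoneOn_of_deriv_nonpos (convex_Icc _ _)
      · exact lx_N_cont.continuousOn
      · rw [interior_Icc]
        intro y hy
        obtain ⟨d, d1, _⟩ := lx_N_deriv (κ := κ) (x := y) (by linarith only [hy.1, h0]) (by linarith only [hy.2])
        exact d1.differentiableAt.differentiableWithinAt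
      · rw [interior_Icc]
        intro y hy
        obtain ⟨d, d1, d2, d3, d4, d5⟩ := lx_N_deriv (κ := κ) (x := y) (by linarith only [hy.1, h0])
          (by linarith only [hy.2])
        rw [d1.deriv]
        have hl : 19 / 10 ≤ lct (15 / 100) := by
          have a0 : 0 ≤ Real.pi * (15 / 100) := by positivity
          have k1 := LowA_tan a0 (by linarith only [hpi])
          have hs := lct_sin (x := 15 / 100) (by norm_num) (by norm_num)
          have hc : 0 < Real.cos (Real.pi * (15 / 100)) := LowA_cos_pos a0 (by linarith only [hpi])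
          unfold lct
          rw [le_div_iff₀ hs]
          have p1 := Real.pi_lt_d6
          have p3 : Real.pi ^ 3 ≤ 3.141593 ^ 3 := pow_le_pow_left₀ hpi.le p1.le 3
          have p5 : Real.pi ^ 5 ≤ 3.141593 ^ 5 := pow_le_pow_left₀ hpi.le p1.le 5
          have k2 : Real.pi * (15 / 100) + (Real.pi * (15 / 100)) ^ 3 / 3 +
              (Real.pi * (15 / 100)) ^ 5 / 5 ≤ 52 / 100 := by
            rw [mul_pow, mul_pow]
            norm_num at p1 p3 p5 ⊢
            linarith only [p5, p3, p1, d5, d4]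
          have k3 := k1.trans (mul_le_mul_of_nonneg_right k2 hc.le)
          linarith only [k3, hs]
        have hl2 := lct_anti (x := y) (y := 15 / 100) (by linarith only [hy.1, d5, d4, h0]) hy.2.le (by norm_num)
        have t1 := lx_t0.1
        have z : 617 / 1000 ≤ Real.tan (Real.pi / 10) * lct y := by
          have := mul_le_mul t1 (hl.trans hl2) (by norm_num) (by linarith only [t1, d5, d4])
          norm_num at this
          linarith only [this, d5]
        have z3 := pow_le_pow_left₀ (by norm_num) z 3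
        have z5 := pow_le_pow_left₀ (by norm_num) z 5
        have k2 := pk_mono (κ := κ) (s := Real.pi * y) (t := Real.pi * (15 / 100)) hκ (by
          have := hy.1
          have : 0 ≤ y := by linarith only [this, z, d5, h0]
          positivity) (by linarith only [mul_pos (sub_pos.2 hy.2) (sub_pos.2 hpi)]) (by linarith only [hpi])
        have k3 : pk κ (Real.pi * (15 / 100)) ≤ 69 / 100 := by
          unfold pk
          have s1 : Real.sin (Real.pi * (15 / 100)) ≤ Real.pi * (15 / 100) :=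
            Real.sin_le (by positivity)
          have s0 := (lct_sin (x := 15 / 100) (by norm_num) (by norm_num)).le
          have p1 := Real.pi_lt_d6
          have p3 : Real.pi ^ 3 ≤ 3.141593 ^ 3 := pow_le_pow_left₀ hpi.le p1.le 3
          have p5 : Real.pi ^ 5 ≤ 3.141593 ^ 5 := pow_le_pow_left₀ hpi.le p1.le 5
          have s2 : (κ - 1) * Real.sin (Real.pi * (15 / 100)) ≤
              4143 / 10000 * (Real.pi * (15 / 100)) :=
            mul_le_mul (by linarith only [hκ']) s1 s0 (by norm_num)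
          rw [mul_pow, mul_pow]
          norm_num at p1 p3 p5 ⊢
          norm_num at s2
          linarith only [s2, p5, p3, p1, z, d5]
        norm_num at z3 z5
        linarith only [z5, z3, k3, k2, z, d5, d3]
    have k2 := key ⟨le_rfl, h⟩ ⟨h, le_rfl⟩ h
    simp only at k2
    linarith only [k2, k]

/-- The cost for `κ = √2`. -/
theorem lx_K1 {x : ℝ} (h0 : 1 / 10 ≤ x) (h1 : x ≤ 1 / 4) :
    2 / Real.pi * (PP (14143 / 10000) (Real.pi / 4) - PP (14143 / 10000) (Real.pi * x)) ≤
      s1 (x : ℂ) + 2 / 125 := by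
  rcases le_total x (1 / 6) with h | h
  · have k := lx_K_left (κ := 14143 / 10000) (x := x) (A := 1 / 4) (by norm_num) (by norm_num) h0 h
      (by norm_num) (by norm_num)
    refine k.trans ?_
    norm_num
  · have k := lx_K (κ := 14143 / 10000) (x := x) (A := 1 / 4) (B := 0) (by norm_num) h0 h1
      (by norm_num) (by norm_num) (by norm_num) le_rfl
    refine k.trans ?_
    split_ifs with hx
    · have : x = 1 / 6 := le_antisymm hx h
      rw [this]
      norm_num
    · norm_num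

/-- The cost for `κ = 6 / 5`. -/
theorem lx_K3 {x : ℝ} (h0 : 1 / 10 ≤ x) (h1 : x ≤ 1 / 4) :
    2 / Real.pi * (PP (6 / 5) (Real.pi / 4) - PP (6 / 5) (Real.pi * x)) ≤
      s1 (x : ℂ) - 1 / 400 := by
  rcases le_total x (1 / 6) with h | h
  · have k := lx_K_left (κ := 6 / 5) (x := x) (A := 4 / 100) (by norm_num) (by norm_num) h0 h
      (by norm_num) (by norm_num)
    refine k.trans ?_
    norm_num
    linarith only []
  · have k := lx_K (κ := 6 / 5) (x := x) (A := 4 / 100) (B := 9 / 100) (by norm_num) h0 h1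
      (by norm_num) (by norm_num) (by norm_num) (by norm_num)
    refine k.trans ?_
    split_ifs with hx
    · have : x = 1 / 6 := le_antisymm hx h
      rw [this]
      norm_num
      linarith only []
    · norm_num
      linarith only [h1]

/-- The cost for `κ = 1`. -/
theorem lx_K2 {x : ℝ} (h0 : 1 / 10 ≤ x) (h1 : x ≤ 1 / 4) :
    2 / Real.pi * (PP 1 (Real.pi / 4) - PP 1 (Real.pi * x)) ≤ s1 (x : ℂ) - 6 / 1000 := by
  have h := lx_K (κ := 1) (x := x) (A := 0) (B := 29 / 100) (by norm_num) h0 h1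
    (by norm_num) le_rfl (by norm_num) (by norm_num)
  refine h.trans ?_
  split_ifs with hx
  · norm_num
    linarith only []
  · norm_num
    linarith only [h1]

/-! ### The points of the quadrant -/

/-- `w` is a point of the quadrant below the line of height `θ`, `tan θ ≤ 1`. -/
structure Wq (θ : ℝ) (w : ℂ) : Prop where
  re0 : 0 ≤ w.re
  re1 : w.re ≤ 2 / 5
  im0 : 0 ≤ w.im
  im1 : w.im ≤ bl θ w.re
  pos : 0 < θ
  lt : θ < Real.pi / 2
  tan : Real.tan θ ≤ 1

section

variable {Φ : ℂ → ℂ → ℂ} {θ θ' κ x : ℝ} {w : ℂ}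

theorem Wq.abs (h : Wq θ w) : |w.re| < 1 / 2 := by
  rw [abs_of_nonneg h.re0]; linarith only [h.re1]

theorem Wq.tan0 (h : Wq θ w) : 0 < Real.tan θ := Real.tan_pos_of_pos_of_lt_pi_div_two h.pos h.lt

theorem Wq.sinh_le (h : Wq θ w) :
    Real.sinh (Real.pi * w.im) ≤ Real.cos (Real.pi * w.re) ∧ 0 ≤ Real.sinh (Real.pi * w.im) := by
  have hpi := Real.pi_pos
  have hc := lx_cos h.re0 h.re1
  have h1 : Real.sinh (Real.pi * w.im) ≤ Real.tan θ * Real.cos (Real.pi * w.re) := by
    rw [← sinh_pi_bl]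
    exact Real.sinh_le_sinh.2 (mul_le_mul_of_nonneg_left h.im1 hpi.le)
  have := h.tan
  exact ⟨by linarith only [this, h1, mul_nonneg (sub_nonneg.2 hc) (sub_nonneg.2 this)], Real.sinh_nonneg_iff.2 (mul_nonneg hpi.le h.im0)⟩

/-- The data of the cosine. -/
theorem Wq.cos (h : Wq θ w) : ∃ c S : ℝ, 309 / 1000 ≤ c ∧ c ≤ 1 ∧ 0 ≤ S ∧ S ≤ c ∧
    (Complex.cos ((Real.pi : ℂ) * (starRingEnd ℂ) w)).re = c * √(1 + S ^ 2) ∧
    0 ≤ (Complex.cos ((Real.pi : ℂ) * (starRingEnd ℂ) w)).im ∧
    normSq (Complex.cos ((Real.pi : ℂ) * (starRingEnd ℂ) w)) = c ^ 2 + S ^ 2 := by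
  have hpi := Real.pi_pos
  obtain ⟨k1, k2⟩ := h.sinh_le
  have hc := lx_cos h.re0 h.re1
  have hsn : 0 ≤ Real.sin (Real.pi * w.re) := by
    apply Real.sin_nonneg_of_nonneg_of_le_pi (mul_nonneg hpi.le h.re0)
    linarith only [hpi, mul_nonneg (sub_nonneg.2 h.re1) (sub_nonneg.2 hpi.le)]
  have hch : Real.cosh (Real.pi * w.im) = √(1 + Real.sinh (Real.pi * w.im) ^ 2) := by
    rw [← Real.cosh_sq', Real.sqrt_sq (Real.cosh_pos _).le]
  have e1 : (Complex.cos ((Real.pi : ℂ) * (starRingEnd ℂ) w)).re =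
      Real.cos (Real.pi * w.re) * Real.cosh (Real.pi * w.im) := by
    rw [wcos_re, pi_mul_re, pi_mul_im, conj_re, conj_im, mul_neg, Real.cosh_neg]
  have e2 : (Complex.cos ((Real.pi : ℂ) * (starRingEnd ℂ) w)).im =
      Real.sin (Real.pi * w.re) * Real.sinh (Real.pi * w.im) := by
    rw [wcos_im, pi_mul_re, pi_mul_im, conj_re, conj_im, mul_neg, Real.sinh_neg]
    ring
  refine ⟨Real.cos (Real.pi * w.re), Real.sinh (Real.pi * w.im), hc, Real.cos_le_one _, k2, k1,
    by rw [e1, hch], by rw [e2]; exact mul_nonneg hsn k2, ?_⟩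
  rw [normSq_apply, e1, e2]
  have h2 := Real.cosh_sq (Real.pi * w.im)
  have h3 := Real.sin_sq_add_cos_sq (Real.pi * w.re)
  generalize Real.sinh (Real.pi * w.im) = S at *
  generalize Real.cosh (Real.pi * w.im) = C at *
  generalize Real.sin (Real.pi * w.re) = s at *
  generalize Real.cos (Real.pi * w.re) = c at *
  linear_combination (c ^ 2) * h2 + S ^ 2 * h3

theorem lx_pi : (Real.pi : ℂ) ≠ 0 := by exact_mod_cast Real.pi_ne_zero

theorem Wq.pre (h : Wq θ w) : |((Real.pi : ℂ) * (starRingEnd ℂ) w).re| < Real.pi / 2 :=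
  pi_re_lt (conj_abs h.abs)

theorem Wq.reg (h : Wq θ' w) (h0 : 0 < θ) (hS : θ + θ' < Real.pi / 2) :
    Reg (igd (UU (Real.pi / 4) (Real.pi * bl θ (1 / 4))))
      (igd ((Real.pi : ℂ) * (starRingEnd ℂ) w)) := by
  have hθ : |θ| < Real.pi / 2 := by
    rw [abs_of_pos h0]
    linarith only [h.pos, hS]
  have hθ' : |θ'| < Real.pi / 2 := by
    rw [abs_of_pos h.pos]
    exact h.lt
  have a1 : |(tp θ).re| < 1 / 2 := by
    rw [tp_re, abs_of_pos] <;> norm_num
  have u1 := uof_im_le a1 hθ (by rw [tp_im, tp_re])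
  have u2 := uof_im_le h.abs hθ' h.im1
  have hb : 0 ≤ (tp θ).im := by
    rw [tp_im]
    exact bl_nonneg h0.le (abs_lt.1 hθ).2 (by rw [abs_of_pos] <;> norm_num)
  have v1 := uof_im_nonneg a1 hb
  have v2 := uof_im_nonneg h.abs h.im0
  have e1 : uof (tp θ) = igd (UU (Real.pi / 4) (Real.pi * bl θ (1 / 4))) := by
    rw [uof, tp_div]
    congr 1
    have := lx_pi
    field_simp
  have e2 := uof_conj h.abs
  rw [uof] at e2
  rw [← e1, e2]
  unfold Reg
  rw [conj_im, abs_neg, abs_of_nonneg v1, abs_of_nonneg v2]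
  linarith only [u2, u1, hS]

theorem FP_tp (h : Wq θ' w) : FP Φ (UU (Real.pi / 4) (Real.pi * bl θ (1 / 4)))
    ((Real.pi : ℂ) * (starRingEnd ℂ) w) = (Φ (tp θ) ((starRingEnd ℂ) w)).re := by
  rw [FP, ← tp_div, mul_div_cancel_left₀ _ lx_pi]

theorem FP_real (x : ℝ) : FP Φ (UU (Real.pi * x) 0) ((Real.pi : ℂ) * (starRingEnd ℂ) w) =
    (Φ (x : ℂ) ((starRingEnd ℂ) w)).re := by
  rw [FP, LowA_UU0, mul_div_cancel_left₀ _ lx_pi, ofReal_mul, mul_div_cancel_left₀ _ lx_pi]

theorem FP_real4 : FP Φ (UU (Real.pi / 4) 0) ((Real.pi : ℂ) * (starRingEnd ℂ) w) =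
    (Φ ((1 / 4 : ℝ) : ℂ) ((starRingEnd ℂ) w)).re := by
  rw [← FP_real, mul_one_div]

/-- The gain above the test height. -/
theorem lx_up (hΦ : IsPhi Φ) (h : Wq θ' w) (h0 : 0 < θ) (hS : θ + θ' < Real.pi / 2) {ρ : ℝ}
    (hρ : 0 < ρ) (hr : ∀ c S : ℝ, 309 / 1000 ≤ c → c ≤ 1 → 0 ≤ S → S ≤ c →
      normSq (Complex.cos ((Real.pi : ℂ) * (starRingEnd ℂ) w)) = c ^ 2 + S ^ 2 →
      ρ ^ 2 * (1 + c ^ 2 + S ^ 2) ≤ c ^ 2 * (1 + S ^ 2)) :
    (Φ ((1 / 4 : ℝ) : ℂ) ((starRingEnd ℂ) w)).re + ρ / Real.pi * Real.log (1 + Real.tan θ ^ 2) ≤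
      (Φ (tp θ) ((starRingEnd ℂ) w)).re := by
  have hpi := Real.pi_pos
  obtain ⟨c, S, c0, c1, S0, S1, q1, q2, q3⟩ := h.cos
  have hη : 0 ≤ Real.pi * bl θ (1 / 4) := by
    apply mul_nonneg hpi.le
    exact bl_nonneg h0.le (by linarith only [h.pos, hS]) (by rw [abs_of_pos] <;> norm_num)
  have hc0 : 0 < c := by linarith only [c0]
  set N := √(1 + c ^ 2 + S ^ 2) with hN
  have hN0 : 0 < N := Real.sqrt_pos.2 (by positivity)
  have hN2 : N ^ 2 = 1 + c ^ 2 + S ^ 2 := Real.sq_sqrt (by positivity)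
  have g := lx_gain hΦ h.pre hη (h.reg h0 hS) (by rw [q1]; positivity) q2 hN0
    (by rw [q3, hN2]; linarith only [])
  rw [FP_tp h, FP_real4] at g
  have hch : Real.cosh (2 * (Real.pi * bl θ (1 / 4))) = 1 + Real.tan θ ^ 2 := by
    have h1 := Real.cosh_sq (Real.pi * bl θ (1 / 4))
    rw [Real.cosh_two_mul, h1, LowA_sinh, mul_pow, div_pow, Real.sq_sqrt (by norm_num)]
    ring
  have hl : 0 ≤ Real.log (1 + Real.tan θ ^ 2) :=
    Real.log_nonneg (by linarith only [sq_nonneg (Real.tan θ)])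
  have g2 : 0 ≤ 2 * (Complex.cos ((Real.pi : ℂ) * (starRingEnd ℂ) w)).im *
      (Real.pi * bl θ (1 / 4)) / Real.cosh (2 * (Real.pi * bl θ (1 / 4))) := by
    have := Real.cosh_pos (2 * (Real.pi * bl θ (1 / 4)))
    positivity
  have g3 : ρ * N ≤ c * √(1 + S ^ 2) := by
    apply le_of_sq_le_sq _ (by positivity)
    rw [mul_pow, mul_pow, hN2, Real.sq_sqrt (by positivity)]
    exact hr c S c0 c1 S0 S1 q3
  have g4 : ρ / Real.pi ≤ 1 / (Real.pi * N) * (c * √(1 + S ^ 2)) := by
    rw [div_le_iff₀ hpi]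
    have e : 1 / (Real.pi * N) * (c * √(1 + S ^ 2)) * Real.pi = c * √(1 + S ^ 2) / N := by
      field_simp
    rw [e, le_div_iff₀ hN0]
    exact g3
  have g5 := mul_le_mul_of_nonneg_right g4 hl
  have g6 : 0 ≤ 1 / (Real.pi * N) := by positivity
  have g7 := mul_nonneg g6 g2
  rw [hch, q1] at g
  rw [hch] at g7
  have e2 : 1 / (Real.pi * N) * (c * √(1 + S ^ 2) * Real.log (1 + Real.tan θ ^ 2) +
      2 * (Complex.cos ((Real.pi : ℂ) * (starRingEnd ℂ) w)).im *
      (Real.pi * bl θ (1 / 4)) / (1 + Real.tan θ ^ 2)) =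
      1 / (Real.pi * N) * (c * √(1 + S ^ 2)) * Real.log (1 + Real.tan θ ^ 2) +
      1 / (Real.pi * N) * (2 * (Complex.cos ((Real.pi : ℂ) * (starRingEnd ℂ) w)).im *
      (Real.pi * bl θ (1 / 4)) / (1 + Real.tan θ ^ 2)) := by
    ring
  rw [e2] at g
  linarith only [g7, g5, g]

/-- Strictly upwards. -/
theorem low2_A3c (hΦ : IsPhi Φ) (h : Wq θ' w) (h0 : 0 < θ) (hS : θ + θ' < Real.pi / 2) :
    (Φ ((1 / 4 : ℝ) : ℂ) ((starRingEnd ℂ) w)).re < (Φ (tp θ) ((starRingEnd ℂ) w)).re := by
  have hpi := Real.pi_pos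
  have g := lx_up hΦ h h0 hS (ρ := 17 / 100) (by norm_num) (by
    intro c S c0 c1 S0 S1 _
    have : (309 / 1000 : ℝ) ^ 2 ≤ c ^ 2 := pow_le_pow_left₀ (by norm_num) c0 2
    have : S ^ 2 ≤ 1 := by linarith only [S1, c1, mul_nonneg (sub_nonneg.2 S0) (sub_nonneg.2 S1),
                             mul_nonneg (sub_nonneg.2 c1) (sub_nonneg.2 S0)]
    have : c ^ 2 ≤ 1 := by linarith only [c1, mul_nonneg (sub_nonneg.2 c0) (sub_nonneg.2 c1)]
    linarith only [S1, c0, mul_nonneg (sub_nonneg.2 S0) (sub_nonneg.2 S1),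
      mul_nonneg (sub_nonneg.2 c0) (sub_nonneg.2 S1),
      mul_nonneg (sub_nonneg.2 c0) (sub_nonneg.2 c0),
      mul_nonneg (sq_nonneg (1 * c)) (sq_nonneg (1 * S))])
  have ht : 0 < Real.tan θ := Real.tan_pos_of_pos_of_lt_pi_div_two h0 (by linarith only [h.pos, hS])
  have hl : 0 < Real.log (1 + Real.tan θ ^ 2) := Real.log_pos (by linarith only [mul_pos (sub_pos.2 ht) (sub_pos.2 ht)])
  have : 0 < 17 / 100 / Real.pi * Real.log (1 + Real.tan θ ^ 2) := by positivity
  linarith only [this, g]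

/-- A lattice vertex with at least three half twists (add the constant). -/
theorem low2_A3a (hΦ : IsPhi Φ) (h : Wq θ' w) (h0 : 0 < θ) (hS : θ + θ' < Real.pi / 2)
    (x0 : 1 / 10 ≤ x) (x1 : x ≤ 1 / 4) :
    (Φ (x : ℂ) ((starRingEnd ℂ) w)).re < (Φ (tp θ) ((starRingEnd ℂ) w)).re + s1 (x : ℂ) +
      2 / 125 := by
  obtain ⟨c, S, c0, c1, S0, S1, q1, q2, q3⟩ := h.cos
  have hn : ‖Complex.cos ((Real.pi : ℂ) * (starRingEnd ℂ) w)‖ ≤ 14143 / 10000 := by
    apply le_of_sq_le_sq _ (by norm_num)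
    rw [← normSq_eq_norm_sq, q3]
    linarith only [S1, c1, mul_nonneg (sub_nonneg.2 S0) (sub_nonneg.2 S1),
      mul_nonneg (sub_nonneg.2 c1) (sub_nonneg.2 S1),
      mul_nonneg (sub_nonneg.2 c1) (sub_nonneg.2 S0)]
  have d := lx_drop hΦ h.pre (by norm_num) hn (by linarith only [x0]) x1
  rw [FP_real, FP_real4] at d
  have k := lx_K1 x0 x1
  have u := low2_A3c hΦ h h0 hS
  linarith only [u, k, d]

/-- A lattice vertex with two half twists. -/
theorem low2_A3b (hΦ : IsPhi Φ) (h : Wq θ' w) (h0 : 1 / 3 ≤ θ) (hS : θ + θ' < Real.pi / 2)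
    (x0 : 1 / 10 ≤ x) (x1 : x ≤ 1 / 4) :
    (Φ (x : ℂ) ((starRingEnd ℂ) w)).re + 1 / 400 < (Φ (tp θ) ((starRingEnd ℂ) w)).re +
      s1 (x : ℂ) := by
  have hpi := Real.pi_pos
  have t0 : 0 < θ := by linarith only [h0]
  obtain ⟨c, S, c0, c1, S0, S1, q1, q2, q3⟩ := h.cos
  rcases le_total (normSq (Complex.cos ((Real.pi : ℂ) * (starRingEnd ℂ) w))) ((6 / 5) ^ 2) with
    hc | hc
  · have hn : ‖Complex.cos ((Real.pi : ℂ) * (starRingEnd ℂ) w)‖ ≤ 6 / 5 := by
      apply le_of_sq_le_sq _ (by norm_num)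
      rw [← normSq_eq_norm_sq]
      exact hc
    have d := lx_drop hΦ h.pre (by norm_num) hn (by linarith only [x0]) x1
    rw [FP_real, FP_real4] at d
    have k := lx_K3 x0 x1
    have u := low2_A3c hΦ h t0 hS
    linarith only [u, k, d]
  · have hn : ‖Complex.cos ((Real.pi : ℂ) * (starRingEnd ℂ) w)‖ ≤ 14143 / 10000 := by
      apply le_of_sq_le_sq _ (by norm_num)
      rw [← normSq_eq_norm_sq, q3]
      linarith only [S1, c1, mul_nonneg (sub_nonneg.2 S0) (sub_nonneg.2 S1),
        mul_nonneg (sub_nonneg.2 c1) (sub_nonneg.2 S1),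
        mul_nonneg (sub_nonneg.2 c1) (sub_nonneg.2 S0)]
    have d := lx_drop hΦ h.pre (by norm_num) hn (by linarith only [x0]) x1
    rw [FP_real, FP_real4] at d
    have k := lx_K1 x0 x1
    have g := lx_up hΦ h t0 hS (ρ := 7 / 10) (by norm_num) (by
      intro c S c0 c1 S0 S1 e
      rw [e] at hc
      have a1 : S ^ 2 ≤ c ^ 2 := pow_le_pow_left₀ S0 S1 2
      have a2 : c ^ 2 ≤ 1 := by linarith only [c1, mul_nonneg (sub_nonneg.2 c1) (sub_nonneg.2 S1),
                                  mul_nonneg (sub_nonneg.2 c1) (sub_nonneg.2 S0)]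
      generalize c ^ 2 = p at *
      generalize S ^ 2 = q at *
      norm_num at hc ⊢
      have a3 : 18 / 25 ≤ p := by linarith only [hc, a1]
      linarith only [a3,
        mul_nonneg (show 0 ≤ p - 49 / 100 by linarith) (show 0 ≤ q - (36 / 25 - p) by linarith),
        mul_nonneg (sub_nonneg.2 a3) (sub_nonneg.2 a2)])
    have ht : 1 / 3 ≤ Real.tan θ := h0.trans (Real.lt_tan t0 (by linarith only [h.pos, hS])).le
    have hl : 2 / 19 ≤ Real.log (1 + Real.tan θ ^ 2) := by
      have h2 := Real.le_log_one_add_of_nonneg (x := 1 / 9) (by norm_num)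
      have h3 : Real.log (1 + 1 / 9) ≤ Real.log (1 + Real.tan θ ^ 2) :=
        Real.log_le_log (by norm_num) (by linarith only [ht,
                                            mul_nonneg (sub_nonneg.2 ht) (sub_nonneg.2 ht)])
      norm_num at h2 h3 ⊢
      linarith only [h3, h2]
    have g2 : 7 / 10 / Real.pi * (2 / 19) ≤ 7 / 10 / Real.pi * Real.log (1 + Real.tan θ ^ 2) :=
      mul_le_mul_of_nonneg_left hl (by positivity)
    have g3 : 2 / 125 + 1 / 400 < 7 / 10 / Real.pi * (2 / 19) := by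
      rw [div_mul_eq_mul_div, lt_div_iff₀ hpi]
      have := Real.pi_lt_d2
      norm_num at this ⊢
      linarith only [this]
    linarith only [g3, g2, g, k, d]

end

end Pool.Agent.S3
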