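import Pool.Agent.S3.LX5

/-!
# Small indices, inner vertices with two half twists: the test points, the mirrored forms
-/

set_option autoImplicit false

namespace Pool.Agent.S3

open Complex

section

variable {Φ : ℂ → ℂ → ℂ} {θ θ' x : ℝ} {v w : ℂ}

theorem lx_tp_abs (θ : ℝ) : |(tp θ).re| < 1 / 2 := by
  rw [tp_re, abs_of_pos] <;> norm_num

theorem lx_tan_pos (t0 : 0 < θ) (t1 : θ < Real.pi / 2) : 0 < Real.tan θ :=
  Real.tan_pos_of_pos_of_lt_pi_div_two t0 t1

theorem lx_bl_pos (t0 : 0 < θ) (t1 : θ < Real.pi / 2) : 0 < Real.pi * bl θ (1 / 4) := by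
  rw [← Real.sinh_pos_iff, LowA_sinh]
  have := lx_tan_pos t0 t1
  positivity

theorem lx_sinh_lt (t0 : 0 < θ) (t1 : θ < Real.pi / 2) (t2 : Real.tan θ < 1) :
    Real.sinh (Real.pi * bl θ (1 / 4)) < Real.cos (Real.pi / 4) := by
  rw [LowA_sinh, Real.cos_pi_div_four]
  have := lx_tan_pos t0 t1
  have h2 : (0 : ℝ) < √2 / 2 := by positivity
  nlinarith

theorem lx_tp_pair (Φ : ℂ → ℂ → ℂ) : (Φ (tp θ) ((starRingEnd ℂ) (tp θ'))).re =
    FP Φ (UU (Real.pi / 4) (Real.pi * bl θ (1 / 4)))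
      (UU (Real.pi / 4) (-(Real.pi * bl θ' (1 / 4)))) := by
  rw [FP, tp_div, tp_div, map_div₀, conj_ofReal, UU_conj]

/-- The weights at the test points: two vertices with two half twists. -/
theorem low2_A1_22 (hΦ : IsPhi Φ) (h0 : Φ 0 0 = c00) (t0 : 0 < θ) (t1 : θ < Real.pi / 2)
    (t2 : Real.tan θ < 1) (t0' : 0 < θ') (t1' : θ' < Real.pi / 2) (t2' : Real.tan θ' < 1) :
    Real.pi * bl θ (1 / 4) + Real.pi * bl θ' (1 / 4) <
      (Φ (tp θ) ((starRingEnd ℂ) (tp θ'))).re := by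
  have hpi := Real.pi_pos
  rw [lx_tp_pair]
  have b0 := lx_bl_pos t0 t1
  have b0' := lx_bl_pos t0' t1'
  have s1 := lx_sinh_lt t0 t1 t2
  have s1' := lx_sinh_lt t0' t1' t2'
  refine FP_pair hΦ h0 (R := Real.pi / 4) (R' := Real.pi / 4) (by positivity) le_rfl (by linarith)
    b0.le b0'.le s1 s1' ?_
  intro ρ r0 r1
  have e : ρ = Real.pi / 4 := le_antisymm r1 r0
  rw [e, Real.sin_pi_div_four, Real.cos_pi_div_four]
  rw [Real.cos_pi_div_four] at s1 s1'
  have h1 := Real.cosh_sq (Real.pi * bl θ (1 / 4))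
  have h1' := Real.cosh_sq (Real.pi * bl θ' (1 / 4))
  have c0 := Real.cosh_pos (Real.pi * bl θ (1 / 4))
  have c0' := Real.cosh_pos (Real.pi * bl θ' (1 / 4))
  have S0 := (Real.sinh_pos_iff.2 b0).le
  have S0' := (Real.sinh_pos_iff.2 b0').le
  have h2 : (√2 / 2) ^ 2 = (1 / 2 : ℝ) := by
    rw [div_pow, Real.sq_sqrt (by norm_num)]
    norm_num
  have hr : (0 : ℝ) < √2 / 2 := by positivity
  generalize Real.sinh (Real.pi * bl θ (1 / 4)) = S at *
  generalize Real.cosh (Real.pi * bl θ (1 / 4)) = C at *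
  generalize Real.sinh (Real.pi * bl θ' (1 / 4)) = S' at *
  generalize Real.cosh (Real.pi * bl θ' (1 / 4)) = C' at *
  have q1 : S ^ 2 ≤ 1 / 2 := by rw [← h2]; exact pow_le_pow_left₀ S0 s1.le 2
  have q1' : S' ^ 2 ≤ 1 / 2 := by rw [← h2]; exact pow_le_pow_left₀ S0' s1'.le 2
  -- `S C S' ≤ C' / 2`
  have k : S * C * S' ≤ 1 / 2 * C' := by
    apply le_of_sq_le_sq _ (by positivity)
    have e1 : (S * C * S') ^ 2 = S ^ 2 * (S ^ 2 + 1) * S' ^ 2 := by
      rw [mul_pow, mul_pow, h1]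
    have e2 : (1 / 2 * C') ^ 2 = 1 / 4 * (S' ^ 2 + 1) := by
      rw [mul_pow, h1']
      norm_num
    rw [e1, e2]
    have p0 : 0 ≤ S ^ 2 := sq_nonneg S
    generalize S ^ 2 = p at *
    have k1 : p * (p + 1) ≤ 3 / 4 := by nlinarith
    have k2 : p * (p + 1) * S' ^ 2 ≤ 3 / 4 * S' ^ 2 :=
      mul_le_mul_of_nonneg_right k1 (sq_nonneg S')
    linarith
  calc S * C * (√2 / 2 * S') = √2 / 2 * (S * C * S') := by ring
    _ ≤ √2 / 2 * (1 / 2 * C') := mul_le_mul_of_nonneg_left k hr.le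
    _ = √2 / 2 * (√2 / 2) * (√2 / 2 * C') := by
      rw [← h2]
      ring

/-- `log cosh (2 η) / (π √3) - η ≥ - 0.525`. -/
theorem lx_h {η : ℝ} (h0 : 0 ≤ η) (h1 : 20 * Real.sinh η ^ 2 ≤ 9) :
    -(525 / 1000) ≤ 1 / (Real.pi * √3) * Real.log (Real.cosh (2 * η)) - η := by
  have hpi := Real.pi_pos
  have h3 : (0 : ℝ) < √3 := by positivity
  have hη : η ≤ 63 / 100 := by
    by_contra hc
    push Not at hc
    have k1 : 671 / 1000 ≤ Real.sinh (63 / 100) := by
      have e1 := Real.sum_le_exp_of_nonneg (x := 63 / 100) (by norm_num) 6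
      norm_num [Finset.sum_range_succ, Nat.factorial] at e1
      have e2 : (18775 / 10000 : ℝ) ≤ Real.exp (63 / 100) := by linarith
      have e3 : Real.exp (-(63 / 100)) ≤ 10000 / 18775 := by
        rw [Real.exp_neg, inv_le_comm₀ (Real.exp_pos _) (by norm_num)]
        norm_num
        norm_num at e2
        exact e2
      rw [Real.sinh_eq]
      norm_num at e2 e3 ⊢
      linarith
    have k2 : Real.sinh (63 / 100) ≤ Real.sinh η := Real.sinh_le_sinh.2 hc.le
    nlinarith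
  have hk : 18377 / 100000 ≤ 1 / (Real.pi * √3) := by
    have h3 : √3 ≤ 1.7320509 := by
      rw [Real.sqrt_le_left (by norm_num)]
      norm_num
    have h4 : Real.pi * √3 ≤ 3.141593 * 1.7320509 :=
      mul_le_mul Real.pi_lt_d6.le h3 (by positivity) (by norm_num)
    rw [div_le_div_iff₀ (by norm_num) (by positivity)]
    norm_num at h4 ⊢
    linarith
  have hk' : 1 / (Real.pi * √3) ≤ 1 / 2 := by
    apply one_div_le_one_div_of_le (by norm_num)
    have h3 : (1 : ℝ) ≤ √3 := by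
      rw [Real.one_le_sqrt]
      norm_num
    have := Real.pi_gt_three
    nlinarith
  set k := 1 / (Real.pi * √3) with hkd
  -- monotone
  have key : AntitoneOn (fun s => k * Real.log (Real.cosh (2 * s)) - s) (Set.Icc η (63 / 100)) := by
    have hd : ∀ s : ℝ, HasDerivAt (fun s => k * Real.log (Real.cosh (2 * s)) - s)
        (k * (Real.sinh (2 * s) * 2 / Real.cosh (2 * s)) - 1) s := by
      intro s
      have h2 : HasDerivAt (fun s : ℝ => Real.cosh (2 * s)) (Real.sinh (2 * s) * 2) s := by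
        have := ((hasDerivAt_id' s).const_mul 2).cosh
        simpa using this
      exact ((h2.log (Real.cosh_pos _).ne').const_mul k).sub (hasDerivAt_id' s)
    apply antitoneOn_of_deriv_nonpos (convex_Icc _ _)
    · exact fun s _ => (hd s).continuousAt.continuousWithinAt
    · exact fun s _ => (hd s).differentiableAt.differentiableWithinAt
    · intro s hs
      rw [(hd s).deriv]
      have c := Real.cosh_pos (2 * s)
      have hsc : Real.sinh (2 * s) ≤ Real.cosh (2 * s) := (Real.sinh_lt_cosh _).le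
      have h5 : Real.sinh (2 * s) * 2 / Real.cosh (2 * s) ≤ 2 := by
        rw [div_le_iff₀ c]
        linarith
      have h6 : 0 ≤ k := by linarith
      have h7 := mul_le_mul_of_nonneg_left h5 h6
      linarith
  have k1 := key ⟨le_rfl, hη⟩ ⟨hη, le_rfl⟩ hη
  simp only at k1
  have c1 : 189 / 100 ≤ Real.cosh (2 * (63 / 100)) := by
    have e1 := Real.sum_le_exp_of_nonneg (x := 126 / 100) (by norm_num) 6
    norm_num [Finset.sum_range_succ, Nat.factorial] at e1
    have e2 : (2832 / 10000 : ℝ) ≤ Real.exp (-(126 / 100)) := by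
      have e3 : Real.exp (-(126 / 100)) = Real.exp (-(42 / 100)) ^ 3 := by
        rw [← Real.exp_nat_mul]; norm_num
      have e4 : Real.exp (42 / 100) ≤ 15225 / 10000 := by
        have := Real.exp_bound' (x := 42 / 100) (n := 5) (by norm_num) (by norm_num) (by norm_num)
        norm_num [Finset.sum_range_succ, Nat.factorial] at this
        linarith
      have e5 : (6567 / 10000 : ℝ) ≤ Real.exp (-(42 / 100)) := by
        rw [Real.exp_neg, le_inv_comm₀ (by norm_num) (Real.exp_pos _)]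
        norm_num
        norm_num at e4
        linarith
      rw [e3]
      have := pow_le_pow_left₀ (by norm_num) e5 3
      norm_num at this ⊢
      linarith
    rw [Real.cosh_eq]
    norm_num at e2 ⊢
    linarith
  have l1 : 634 / 1000 ≤ Real.log (Real.cosh (2 * (63 / 100))) := by
    have l2 := Real.log_le_log (by norm_num) c1
    have l3 : Real.log (189 / 100) = Real.log 2 - Real.log (200 / 189) := by
      rw [← Real.log_div (by norm_num) (by norm_num)]
      congr 1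
      norm_num
    have l4 := Real.log_le_sub_one_of_pos (x := 200 / 189) (by norm_num)
    have l5 := Real.log_two_gt_d9
    norm_num at l4 l5
    norm_num
    norm_num at l2 l3
    linarith
  have l2 : 18377 / 100000 * (634 / 1000) ≤ k * Real.log (Real.cosh (2 * (63 / 100))) :=
    mul_le_mul hk l1 (by norm_num) (by linarith)
  linarith

/-- The weights at the test points: two half twists and at least three. -/
theorem low2_A1_23 (hΦ : IsPhi Φ) (h0 : Φ 0 0 = c00) (t0 : 0 < θ) (t1 : θ < Real.pi / 2)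
    (t2 : 10 * Real.tan θ ^ 2 ≤ 9) (t0' : 0 < θ') (t1' : θ' < Real.pi / 2)
    (t2' : 147 * Real.tan θ' ^ 2 ≤ 53) :
    1 / 10 + Real.pi * bl θ (1 / 4) + Real.pi / 2 * bl θ' (1 / 4) <
      (Φ (tp θ) ((starRingEnd ℂ) (tp θ'))).re := by
  have hpi := Real.pi_pos
  have tt := lx_tan_pos t0 t1
  have tt' := lx_tan_pos t0' t1'
  have b0 := (lx_bl_pos t0 t1).le
  have b0' := (lx_bl_pos t0' t1').le
  have s0 : Real.sinh 0 < Real.cos (Real.pi / 4) := by
    rw [Real.sinh_zero, Real.cos_pi_div_four]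
    positivity
  have s1 := lx_sinh_lt t0 t1 (by nlinarith)
  have s1' := lx_sinh_lt t0' t1' (by nlinarith)
  rw [lx_tp_pair]
  have g0 := LowA_base hΦ h0
  have g1 := LowA_gain hΦ b0 le_rfl s1 s0
  rw [neg_zero] at g1
  have r1 := reg_pair LowA_quarter LowA_quarter b0 b0' s1 s1'
  have r2 := reg_pair LowA_quarter LowA_quarter b0 le_rfl s1 s0
  have g2 := LowA_gain hΦ.swap b0' b0 s1' s1
  rw [FP_flip hΦ LowA_quarter LowA_quarter r1] at g2
  have f2 := FP_flip hΦ LowA_quarter LowA_quarter r2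
  rw [neg_zero] at f2
  rw [f2] at g2
  have q1 : 20 * Real.sinh (Real.pi * bl θ (1 / 4)) ^ 2 ≤ 9 := by
    rw [LowA_sinh, mul_pow, div_pow, Real.sq_sqrt (by norm_num)]
    linarith
  have q2 : 294 * Real.sinh (Real.pi * bl θ' (1 / 4)) ^ 2 ≤ 53 := by
    rw [LowA_sinh, mul_pow, div_pow, Real.sq_sqrt (by norm_num)]
    linarith
  have n1 := lx_h b0 q1
  have n2 := LowA_h b0' q2
  linarith

/-! ### The mirrored forms -/

theorem lx_conj_real (hP : IsPhi Φ) (hv : |v.re| < 1 / 2) {x : ℝ} (hx : |x| < 1 / 2) :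
    (Φ ((starRingEnd ℂ) v) (x : ℂ)).re = (Φ v (x : ℂ)).re := by
  have hz : |((x : ℝ) : ℂ).re| < 1 / 2 := by rwa [ofReal_re]
  have hu0 : (uof (x : ℂ)).im = 0 := by
    have hh : |Real.pi * x| < Real.pi / 2 := by
      rw [abs_mul, abs_of_pos Real.pi_pos]
      nlinarith [Real.pi_pos]
    have := igd_real_im hh
    rwa [LowA_UU0, ofReal_mul] at this
  have := Phi_conj_re hP hv hz (by
    unfold Reg
    rw [hu0, abs_zero, add_zero]
    exact uof_im_lt hv)
  rwa [conj_ofReal] at this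

theorem lx_conj_tp (hP : IsPhi Φ) (h : Wq θ v) (t0 : 0 < θ') (hS : θ + θ' < Real.pi / 2) :
    (Φ ((starRingEnd ℂ) v) (tp θ')).re = (Φ v ((starRingEnd ℂ) (tp θ'))).re := by
  have hr : Reg (uof v) (uof ((starRingEnd ℂ) (tp θ'))) := by
    have k := h.reg t0 (by linarith)
    have e1 : uof (tp θ') = igd (UU (Real.pi / 4) (Real.pi * bl θ' (1 / 4))) := by
      rw [uof, tp_div]
      congr 1
      have := lx_pi
      field_simp
    have e2 : uof ((starRingEnd ℂ) v) = igd ((Real.pi : ℂ) * (starRingEnd ℂ) v) := rfl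
    rw [← e1, ← e2, uof_conj h.abs] at k
    rw [uof_conj (lx_tp_abs θ')]
    unfold Reg at *
    rw [conj_im, abs_neg] at *
    linarith
  have := Phi_conj_re hP h.abs (conj_abs (lx_tp_abs θ')) hr
  rwa [conj_conj] at this

theorem low2_A3a' (hΦ : IsPhi Φ) (h : Wq θ v) (h0 : 0 < θ') (hS : θ + θ' < Real.pi / 2)
    (x0 : 1 / 10 ≤ x) (x1 : x ≤ 1 / 4) :
    (Φ v (x : ℂ)).re < (Φ v ((starRingEnd ℂ) (tp θ'))).re + s1 (x : ℂ) + 2 / 125 := by
  have k := low2_A3a hΦ.swap h h0 (by linarith) x0 x1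
  rwa [lx_conj_tp hΦ h h0 hS, lx_conj_real hΦ h.abs (by rw [abs_of_nonneg] <;> linarith)] at k

theorem low2_A3b' (hΦ : IsPhi Φ) (h : Wq θ v) (h0 : 1 / 3 ≤ θ') (hS : θ + θ' < Real.pi / 2)
    (x0 : 1 / 10 ≤ x) (x1 : x ≤ 1 / 4) :
    (Φ v (x : ℂ)).re + 1 / 400 < (Φ v ((starRingEnd ℂ) (tp θ'))).re + s1 (x : ℂ) := by
  have k := low2_A3b hΦ.swap h h0 (by linarith) x0 x1
  rwa [lx_conj_tp hΦ h (by linarith) hS, lx_conj_real hΦ h.abs (by
    rw [abs_of_nonneg] <;> linarith)] at k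

theorem low2_A3c' (hΦ : IsPhi Φ) (h : Wq θ v) (h0 : 0 < θ') (hS : θ + θ' < Real.pi / 2) :
    (Φ v ((1 / 4 : ℝ) : ℂ)).re < (Φ v ((starRingEnd ℂ) (tp θ'))).re := by
  have k := low2_A3c hΦ.swap h h0 (by linarith)
  rwa [lx_conj_tp hΦ h h0 hS, lx_conj_real hΦ h.abs (by norm_num)] at k

/-- A real point. -/
theorem Wq_real (t0 : 0 < θ) (t1 : θ < Real.pi / 2) (t2 : Real.tan θ ≤ 1) (x0 : 0 ≤ x)
    (x1 : x ≤ 2 / 5) : Wq θ (x : ℂ) where
  re0 := by rwa [ofReal_re]
  re1 := by rwa [ofReal_re]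
  im0 := by rw [ofReal_im]
  im1 := by
    rw [ofReal_im, ofReal_re]
    exact bl_nonneg t0.le t1 (by rw [abs_of_nonneg] <;> linarith)
  pos := t0
  lt := t1
  tan := t2

/-- The test point. -/
theorem Wq_tp (t0 : 0 < θ) (t1 : θ < Real.pi / 2) (t2 : Real.tan θ ≤ 1) : Wq θ (tp θ) where
  re0 := by rw [tp_re]; norm_num
  re1 := by rw [tp_re]; norm_num
  im0 := by
    rw [tp_im]
    exact bl_nonneg t0.le t1 (by rw [abs_of_pos] <;> norm_num)
  im1 := by rw [tp_im, tp_re]
  pos := t0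
  lt := t1
  tan := t2

/-- Along the real axis the growth decreases. -/
theorem low2_hor (hΦ : IsPhi Φ) (h : Wq θ' w) (x0 : 0 ≤ x) (x1 : x ≤ 1 / 4) :
    (Φ ((1 / 4 : ℝ) : ℂ) ((starRingEnd ℂ) w)).re ≤ (Φ (x : ℂ) ((starRingEnd ℂ) w)).re := by
  have hpi := Real.pi_pos
  obtain ⟨c, S, c0, c1, S0, S1, q1, q2, q3⟩ := h.cos
  have xx0 : 0 ≤ Real.pi * x := by positivity
  have xx1 : Real.pi * x ≤ Real.pi / 4 := by nlinarith
  have hW : |(igd ((Real.pi : ℂ) * (starRingEnd ℂ) w)).im| < Real.pi / 2 := igd_im_lt h.pre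
  have ab : ∀ s : ℝ, 0 ≤ s → s ≤ Real.pi / 4 → |s| < Real.pi / 2 := fun s h1 h2 => by
    rw [abs_of_nonneg h1]; linarith
  have hreg : Reg (igd (UU (Real.pi / 4) 0)) (igd ((Real.pi : ℂ) * (starRingEnd ℂ) w)) := by
    unfold Reg
    rw [igd_real_im LowA_quarter, abs_zero, zero_add]
    exact hW
  have k := FP_right hΦ (η := 0) (a := Real.pi * x) (b := Real.pi / 4) le_rfl xx0 xx1
    (by linarith) hreg (by
      intro s s0 s1
      have s00 := xx0.trans s0
      rw [cosh_igd h.pre, div_div_eq_mul_div, div_one, LowA_UU0, ← ofReal_tan, re_ofReal_mul, q1]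
      have ht : 0 ≤ Real.tan s := Real.tan_nonneg_of_nonneg_of_le_pi_div_two s00 (by linarith)
      have hc0 : 0 ≤ c := by linarith
      positivity)
  rw [gd_igd h.pre, FP_real, FP_real4] at k
  exact k

end

end Pool.Agent.S3
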