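import Pool.Agent.S3.FlatS
import Pool.Agent.S3.LowA

/-!
# Small indices, inner vertices with two half twists: flats at a real point

`FlatUV (1 / cos² πx) (1 / cos² π w̄)` for real `x`; with `p = cos² πx`, `q = cos² π w̄`, `k = ‖q‖`,
`P = re q` the only condition that is not automatic is
`(p² + k² - 2 p P)² (k² + 2 p P + p²) < 16 p² (k² + p P)²` for `k ≤ p`, and it is monotone.
-/

set_option autoImplicit false

namespace Pool.Agent.S3

open Complex

/-! ### Taylor polynomials -/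

theorem lx_s3 {x : ℝ} (hx : 0 ≤ x) : x - x ^ 3 / 6 ≤ Real.sin x := by
  have h := LowA_pos (b := x) (f := fun x => Real.sin x - (x - x ^ 3 / 6))
    (f' := fun x => Real.cos x - (1 - x ^ 2 / 2))
    (fun x _ _ => by
      have h1 := (Real.hasDerivAt_sin x).sub ((hasDerivAt_id' x).sub ((hasDerivAt_pow 3 x).div_const 6))
      refine h1.congr_deriv ?_
      norm_num
      try ring)
    (by simp) (fun x hx _ => by linarith only [Real.one_sub_sq_div_two_le_cos (x := x)]) hx le_rfl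
  linarith only [h]

theorem lx_c4 {x : ℝ} (hx : 0 ≤ x) : Real.cos x ≤ 1 - x ^ 2 / 2 + x ^ 4 / 24 := by
  have h := LowA_pos (b := x) (f := fun x => 1 - x ^ 2 / 2 + x ^ 4 / 24 - Real.cos x)
    (f' := fun x => Real.sin x - (x - x ^ 3 / 6))
    (fun x _ _ => by
      have h1 := (((hasDerivAt_const x (1 : ℝ)).sub ((hasDerivAt_pow 2 x).div_const 2)).add
        ((hasDerivAt_pow 4 x).div_const 24)).sub (Real.hasDerivAt_cos x)
      refine h1.congr_deriv ?_
      norm_num
      try ring)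
    (by simp) (fun x hx _ => by linarith only [lx_s3 hx]) hx le_rfl
  linarith only [h]

theorem lx_s5 {x : ℝ} (hx : 0 ≤ x) : Real.sin x ≤ x - x ^ 3 / 6 + x ^ 5 / 120 := by
  have h := LowA_pos (b := x) (f := fun x => x - x ^ 3 / 6 + x ^ 5 / 120 - Real.sin x)
    (f' := fun x => 1 - x ^ 2 / 2 + x ^ 4 / 24 - Real.cos x)
    (fun x _ _ => by
      have h1 := (((hasDerivAt_id' x).sub ((hasDerivAt_pow 3 x).div_const 6)).add
        ((hasDerivAt_pow 5 x).div_const 120)).sub (Real.hasDerivAt_sin x)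
      refine h1.congr_deriv ?_
      norm_num
      try ring)
    (by simp) (fun x hx _ => by linarith only [lx_c4 hx]) hx le_rfl
  linarith only [h]

theorem lx_c6 {x : ℝ} (hx : 0 ≤ x) :
    1 - x ^ 2 / 2 + x ^ 4 / 24 - x ^ 6 / 720 ≤ Real.cos x := by
  have h := LowA_pos (b := x) (f := fun x => Real.cos x - (1 - x ^ 2 / 2 + x ^ 4 / 24 - x ^ 6 / 720))
    (f' := fun x => x - x ^ 3 / 6 + x ^ 5 / 120 - Real.sin x)
    (fun x _ _ => by
      have h1 := (Real.hasDerivAt_cos x).sub ((((hasDerivAt_const x (1 : ℝ)).sub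
        ((hasDerivAt_pow 2 x).div_const 2)).add
        ((hasDerivAt_pow 4 x).div_const 24)).sub ((hasDerivAt_pow 6 x).div_const 720))
      refine h1.congr_deriv ?_
      norm_num
      try ring)
    (by simp) (fun x hx _ => by linarith only [lx_s5 hx]) hx le_rfl
  linarith only [h]

theorem lx_s7 {x : ℝ} (hx : 0 ≤ x) :
    x - x ^ 3 / 6 + x ^ 5 / 120 - x ^ 7 / 5040 ≤ Real.sin x := by
  have h := LowA_pos (b := x) (f := fun x => Real.sin x - (x - x ^ 3 / 6 + x ^ 5 / 120 - x ^ 7 / 5040))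
    (f' := fun x => Real.cos x - (1 - x ^ 2 / 2 + x ^ 4 / 24 - x ^ 6 / 720))
    (fun x _ _ => by
      have h1 := (Real.hasDerivAt_sin x).sub ((((hasDerivAt_id' x).sub
        ((hasDerivAt_pow 3 x).div_const 6)).add
        ((hasDerivAt_pow 5 x).div_const 120)).sub ((hasDerivAt_pow 7 x).div_const 5040))
      refine h1.congr_deriv ?_
      norm_num
      try ring)
    (by simp) (fun x hx _ => by linarith only [lx_c6 hx]) hx le_rfl
  linarith only [h]

theorem lx_c8 {x : ℝ} (hx : 0 ≤ x) :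
    Real.cos x ≤ 1 - x ^ 2 / 2 + x ^ 4 / 24 - x ^ 6 / 720 + x ^ 8 / 40320 := by
  have h := LowA_pos (b := x)
    (f := fun x => 1 - x ^ 2 / 2 + x ^ 4 / 24 - x ^ 6 / 720 + x ^ 8 / 40320 - Real.cos x)
    (f' := fun x => Real.sin x - (x - x ^ 3 / 6 + x ^ 5 / 120 - x ^ 7 / 5040))
    (fun x _ _ => by
      have h1 := (((((hasDerivAt_const x (1 : ℝ)).sub
        ((hasDerivAt_pow 2 x).div_const 2)).add
        ((hasDerivAt_pow 4 x).div_const 24)).sub ((hasDerivAt_pow 6 x).div_const 720)).add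
        ((hasDerivAt_pow 8 x).div_const 40320)).sub (Real.hasDerivAt_cos x)
      refine h1.congr_deriv ?_
      norm_num
      try ring)
    (by simp) (fun x hx _ => by linarith only [lx_s7 hx]) hx le_rfl
  linarith only [h]

theorem lx_s9 {x : ℝ} (hx : 0 ≤ x) :
    Real.sin x ≤ x - x ^ 3 / 6 + x ^ 5 / 120 - x ^ 7 / 5040 + x ^ 9 / 362880 := by
  have h := LowA_pos (b := x)
    (f := fun x => x - x ^ 3 / 6 + x ^ 5 / 120 - x ^ 7 / 5040 + x ^ 9 / 362880 - Real.sin x)
    (f' := fun x => 1 - x ^ 2 / 2 + x ^ 4 / 24 - x ^ 6 / 720 + x ^ 8 / 40320 - Real.cos x)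
    (fun x _ _ => by
      have h1 := (((((hasDerivAt_id' x).sub
        ((hasDerivAt_pow 3 x).div_const 6)).add
        ((hasDerivAt_pow 5 x).div_const 120)).sub ((hasDerivAt_pow 7 x).div_const 5040)).add
        ((hasDerivAt_pow 9 x).div_const 362880)).sub (Real.hasDerivAt_sin x)
      refine h1.congr_deriv ?_
      norm_num
      try ring)
    (by simp) (fun x hx _ => by linarith only [lx_c8 hx]) hx le_rfl
  linarith only [h]

/-- `cos² πa` by the sine of a small angle. -/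
theorem lx_cos_sq (a : ℝ) : Real.cos (Real.pi * a) ^ 2 =
    (1 - Real.sin (Real.pi * (2 * a - 1 / 2))) / 2 := by
  have h1 : Real.pi * (2 * a - 1 / 2) = 2 * (Real.pi * a) - Real.pi / 2 := by ring
  rw [h1, Real.sin_sub_pi_div_two, Real.cos_two_mul]
  ring

/-- The Taylor bounds of the sine at rational multiples of `π`. -/
theorem lx_sin_hi {r y s : ℝ} (h0 : 0 ≤ r) (h1 : r ≤ 1 / 2) (hy : 3141593 / 1000000 * r = y)
    (hy2 : y ≤ 3 / 2) (hs : y - y ^ 3 / 6 + y ^ 5 / 120 - y ^ 7 / 5040 + y ^ 9 / 362880 ≤ s) :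
    Real.sin (Real.pi * r) ≤ s := by
  have p1 := Real.pi_lt_d6
  have p2 := Real.pi_gt_d6
  have hpi := Real.pi_pos
  have h2 : Real.pi * r ≤ y := by
    rw [← hy]
    exact mul_le_mul_of_nonneg_right (by linarith only [p1]) h0
  have h3 : 0 ≤ Real.pi * r := by positivity
  have h4 := Real.sin_le_sin_of_le_of_le_pi_div_two (by linarith only [h3, p2, p1]) (by linarith only [p2,
                                                                                          hy2, hy,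
                                                                                          h1]) h2
  exact (h4.trans (lx_s9 (by linarith only [hy, h0]))).trans hs

theorem lx_sin_lo {r y s : ℝ} (h0 : 0 ≤ r) (h1 : r ≤ 1 / 2) (hy : 3141592 / 1000000 * r = y)
    (hs : s ≤ y - y ^ 3 / 6 + y ^ 5 / 120 - y ^ 7 / 5040) :
    s ≤ Real.sin (Real.pi * r) := by
  have p1 := Real.pi_lt_d6
  have p2 := Real.pi_gt_d6
  have hpi := Real.pi_pos
  have h2 : y ≤ Real.pi * r := by
    rw [← hy]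
    exact mul_le_mul_of_nonneg_right (by linarith only [p2]) h0
  have h3 : 0 ≤ y := by rw [← hy]; positivity
  have h4 := Real.sin_le_sin_of_le_of_le_pi_div_two (by linarith only [p2, hy, h0]) (by linarith only [mul_nonneg (sub_nonneg.2 h1) (sub_nonneg.2 hpi.le)]) h2
  exact (hs.trans (lx_s7 h3)).trans h4

/-! ### The monotone condition -/

/-- The condition of the flat. -/
def FF (p k P : ℝ) : Prop :=
  (p ^ 2 + k ^ 2 - 2 * p * P) ^ 2 * (p ^ 2 + k ^ 2 + 2 * p * P) < 16 * p ^ 2 * (k ^ 2 + p * P) ^ 2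

noncomputable def Ps (ρ c : ℝ) : ℝ :=
  (ρ + 1 / ρ - 2 * c) ^ 2 * (1 + (1 - c ^ 2) * (ρ / (1 + c * ρ)) ^ 2)

theorem FF_iff {p k P : ℝ} (hp : 0 < p) (hk : 0 < k) (hP : 0 ≤ P) :
    FF p k P ↔ Ps (p / k) (P / k) < 16 := by
  have e : Ps (p / k) (P / k) = (p ^ 2 + k ^ 2 - 2 * p * P) ^ 2 * (p ^ 2 + k ^ 2 + 2 * p * P) /
      (p ^ 2 * (k ^ 2 + p * P) ^ 2) := by
    have h1 : (1 + P / k * (p / k)) ≠ 0 := by positivity
    have h2 : k ^ 2 + p * P ≠ 0 := by positivity
    have h3 : p ≠ 0 := hp.ne'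
    have h4 : k ≠ 0 := hk.ne'
    unfold Ps
    have e1 : p / k + 1 / (p / k) - 2 * (P / k) = (p ^ 2 + k ^ 2 - 2 * p * P) / (p * k) := by
      field_simp
    have e2 : p / k / (1 + P / k * (p / k)) = p * k / (k ^ 2 + p * P) := by
      rw [div_eq_div_iff h1 h2]
      field_simp
      try ring
    rw [e1, e2]
    field_simp
    ring
  rw [e, div_lt_iff₀ (by positivity)]
  unfold FF
  constructor <;> intro h <;> linarith only [h]

theorem Ps_mono {ρ ρ' c c' : ℝ} (h1 : 1 ≤ ρ) (h2 : ρ ≤ ρ') (h3 : 0 ≤ c') (h4 : c' ≤ c)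
    (h5 : c ≤ 1) : Ps ρ c ≤ Ps ρ' c' := by
  have p0 : 0 < ρ := by linarith only [h1]
  have p1 : 0 < ρ' := by linarith only [h2, h1]
  have a1 : 2 ≤ ρ + 1 / ρ := by
    rw [← sub_nonneg]
    have : ρ + 1 / ρ - 2 = (ρ - 1) ^ 2 / ρ := by
      field_simp
      ring
    rw [this]
    positivity
  have a2 : ρ + 1 / ρ ≤ ρ' + 1 / ρ' := by
    rw [← sub_nonneg]
    have : ρ' + 1 / ρ' - (ρ + 1 / ρ) = (ρ' - ρ) * (ρ * ρ' - 1) / (ρ * ρ') := by
      field_simp
      ring
    rw [this]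
    have h6 : 1 ≤ ρ * ρ' := by linarith only [h2, h1,
                                 mul_nonneg (sub_nonneg.2 h1) (sub_nonneg.2 h2),
                                 mul_nonneg (sub_nonneg.2 h1) (sub_nonneg.2 h1)]
    have h7 : 0 ≤ ρ * ρ' - 1 := by linarith only [h6]
    have h8 : 0 ≤ ρ' - ρ := by linarith only [h2]
    positivity
  have a3 : (ρ + 1 / ρ - 2 * c) ^ 2 ≤ (ρ' + 1 / ρ' - 2 * c') ^ 2 :=
    pow_le_pow_left₀ (by linarith only [a1, h5]) (by linarith only [a2, h4]) 2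
  have a4 : 1 - c ^ 2 ≤ 1 - c' ^ 2 := by linarith only [mul_nonneg (sub_nonneg.2 h4) (sub_nonneg.2 h4),
                                           mul_nonneg (sub_nonneg.2 h3) (sub_nonneg.2 h4)]
  have a5 : 0 ≤ 1 - c ^ 2 := by linarith only [h5, mul_nonneg (sub_nonneg.2 h4) (sub_nonneg.2 h5),
                                  mul_nonneg (sub_nonneg.2 h3) (sub_nonneg.2 h5)]
  have a6 : ρ / (1 + c * ρ) ≤ ρ' / (1 + c' * ρ') := by
    have q1 : 0 < 1 + c * ρ := by linarith only [mul_nonneg (sub_nonneg.2 h4) (sub_nonneg.2 p0.le),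
                                    mul_nonneg (sub_nonneg.2 h3) (sub_nonneg.2 p0.le)]
    have q2 : 0 < 1 + c' * ρ' := by positivity
    rw [div_le_div_iff₀ q1 q2]
    have : ρ * c' * ρ' ≤ ρ' * c * ρ := by
      have := mul_le_mul_of_nonneg_left h4 (mul_pos p0 p1).le
      linarith only [this]
    linarith only [this, h2]
  have a7 : 0 ≤ ρ / (1 + c * ρ) := by
    have : 0 ≤ c := h3.trans h4
    positivity
  have a8 : (ρ / (1 + c * ρ)) ^ 2 ≤ (ρ' / (1 + c' * ρ')) ^ 2 := pow_le_pow_left₀ a7 a6 2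
  have a9 : (1 - c ^ 2) * (ρ / (1 + c * ρ)) ^ 2 ≤ (1 - c' ^ 2) * (ρ' / (1 + c' * ρ')) ^ 2 :=
    mul_le_mul a4 a8 (sq_nonneg _) (a5.trans a4)
  unfold Ps
  exact mul_le_mul a3 (by linarith only [a9]) (by positivity) (sq_nonneg _)

theorem FF_mono {p k P p0 k0 P0 : ℝ} (hk0 : 0 < k0) (h1 : k0 ≤ k) (h2 : k ≤ p) (h3 : p ≤ p0)
    (hP0 : 0 ≤ P0) (hc : P0 * k ≤ P * k0) (hP : P ≤ k) (h : FF p0 k0 P0) : FF p k P := by
  have k1 : 0 < k := by linarith only [h1, hk0]
  have p1 : 0 < p := by linarith only [h2, h1, hk0]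
  have P1 : 0 ≤ P := by
    by_contra hn
    push Not at hn
    have := mul_neg_of_neg_of_pos hn hk0
    have := mul_nonneg hP0 k1.le
    linarith [this, hc]
  rw [FF_iff p1 k1 P1]
  rw [FF_iff (by linarith only [h3, h2, h1, hk0]) hk0 hP0] at h
  refine (Ps_mono ?_ ?_ ?_ ?_ ?_).trans_lt h
  · rwa [le_div_iff₀ k1, one_mul]
  · exact div_le_div₀ (by linarith only [h3, h2, h1, hk0]) h3 hk0 h1
  · positivity
  · rw [div_le_div_iff₀ hk0 k1]
    exact hc
  · rw [div_le_one k1]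
    exact hP

/-! ### The flat at a real point -/

theorem flatUV_real {p : ℝ} {q : ℂ} (hp : 0 < p) (hp1 : p < 1) (h2 : ‖q‖ ^ 2 < 2 * q.re)
    (hF : ‖q‖ ≤ p → FF p ‖q‖ q.re) (hk : 1 / 2 ≤ p ∨ ‖q‖ ≤ p) :
    FlatUV (1 / (p : ℂ)) (1 / q) := by
  have hq0 : q ≠ 0 := by
    rintro rfl
    simp at h2
  have k0 : 0 < ‖q‖ := norm_pos_iff.2 hq0
  have P0 : 0 < q.re := by linarith only [h2, sq_nonneg ‖q‖]
  have hPk : q.re ≤ ‖q‖ := re_le_norm q
  have k2 : ‖q‖ < 2 := by (refine lt_of_not_ge fun hng => ?_; linarith only [hng, hPk, h2,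
                            mul_nonneg (sub_nonneg.2 hng) (sub_nonneg.2 hng)])
  have hpc : (p : ℂ) ≠ 0 := by exact_mod_cast hp.ne'
  have eq2 : ‖q‖ ^ 2 = q.re ^ 2 + q.im ^ 2 := by
    rw [← normSq_eq_norm_sq, normSq_apply]
    ring
  have eU : (1 / (p : ℂ)).re = 1 / p := by
    rw [← ofReal_one, ← ofReal_div, ofReal_re]
  have nU : ‖1 / (p : ℂ)‖ = 1 / p := by
    rw [norm_div, norm_one, norm_real, Real.norm_of_nonneg hp.le]
  have eV : (1 / q).re = q.re / ‖q‖ ^ 2 := by
    rw [one_div, inv_re, normSq_eq_norm_sq]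
  have nV : ‖1 / q‖ = 1 / ‖q‖ := by rw [norm_div, norm_one]
  have eN : 1 / (p : ℂ) + 1 / q - 1 = ((p : ℂ) + (1 - p) * q) / (p * q) := by
    field_simp
    ring
  have eD : 1 / (p : ℂ) - 1 / q = (q - p) / (p * q) := by
    field_simp
  have eS : 1 / (p : ℂ) + 1 / q = (q + p) / (p * q) := by
    field_simp
  have eC : 1 / (p : ℂ) + (starRingEnd ℂ) (1 / q) =
      ((starRingEnd ℂ) q + p) / (p * (starRingEnd ℂ) q) := by
    have : (starRingEnd ℂ) q ≠ 0 := by
      intro h0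
      exact hq0 (by simpa using congrArg (starRingEnd ℂ) h0)
    rw [map_div₀, map_one]
    field_simp
  have npq : ‖(p : ℂ) * q‖ = p * ‖q‖ := by
    rw [norm_mul, norm_real, Real.norm_of_nonneg hp.le]
  have npq' : ‖(p : ℂ) * (starRingEnd ℂ) q‖ = p * ‖q‖ := by
    rw [norm_mul, norm_real, Real.norm_of_nonneg hp.le, norm_conj]
  have sD : ‖q - p‖ ^ 2 = p ^ 2 + ‖q‖ ^ 2 - 2 * p * q.re := by
    rw [← normSq_eq_norm_sq, normSq_apply, sub_re, sub_im, ofReal_re, ofReal_im, eq2]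
    ring
  have sS : ‖q + p‖ ^ 2 = p ^ 2 + ‖q‖ ^ 2 + 2 * p * q.re := by
    rw [← normSq_eq_norm_sq, normSq_apply, add_re, add_im, ofReal_re, ofReal_im, eq2]
    ring
  have sC : ‖(starRingEnd ℂ) q + p‖ ^ 2 = p ^ 2 + ‖q‖ ^ 2 + 2 * p * q.re := by
    rw [← normSq_eq_norm_sq, normSq_apply, add_re, add_im, conj_re, conj_im, ofReal_re,
      ofReal_im, eq2]
    ring
  have sN : ‖(p : ℂ) + (1 - p) * q‖ ^ 2 = p ^ 2 + 2 * p * (1 - p) * q.re +
      (1 - p) ^ 2 * ‖q‖ ^ 2 := by
    rw [← normSq_eq_norm_sq, normSq_apply, eq2]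
    have e1 : ((p : ℂ) + (1 - p) * q).re = p + (1 - p) * q.re := by
      simp
    have e2 : ((p : ℂ) + (1 - p) * q).im = (1 - p) * q.im := by
      simp
    rw [e1, e2]
    ring
  have rN : (1 / (p : ℂ) + 1 / q - 1).re = 1 / p + q.re / ‖q‖ ^ 2 - 1 := by
    rw [sub_re, add_re, eU, eV, one_re]
  have rS : (1 / (p : ℂ) + 1 / q).re = 1 / p + q.re / ‖q‖ ^ 2 := by
    rw [add_re, eU, eV]
  have hU : 1 < 1 / p := by rwa [lt_div_iff₀ hp, one_mul]
  have hV : 1 / 2 < q.re / ‖q‖ ^ 2 := by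
    rw [lt_div_iff₀ (by positivity)]
    linarith only [h2]
  refine ⟨by rw [rN]; linarith only [hV, hU, hp1, hp], by rw [eU]; linarith only [hU, hp1, hp], by rw [eV]; exact hV, ?_⟩
  rw [rN, rS, nU, nV, eU, eV, eN, eD, eS, eC, norm_div, norm_div, norm_div, norm_div, npq, npq']
  generalize ‖q‖ = k at *
  generalize q.re = P at *
  have k0' := k0.ne'
  have p0' := hp.ne'
  rcases le_or_gt k p with hkp | hkp
  · right
    have k1 : k < 1 := by linarith only [hkp, hp1]
    have ks : k ^ 2 ≤ k := by (refine le_of_not_gt fun hng => ?_; linarith only [mul_nonneg (sub_nonneg.2 hng.le) (sub_nonneg.2 hPk),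
                                mul_pos (sub_pos.2 hng) (sub_pos.2 h2),
                                mul_nonneg (sq_nonneg (k)) (sub_nonneg.2 k1.le),
                                mul_nonneg (sq_nonneg (k)) (sub_nonneg.2 hng.le)])
    refine ⟨?_, ?_, ?_⟩
    · rw [le_div_iff₀ (by positivity), one_mul]
      apply le_of_sq_le_sq _ (norm_nonneg _)
      rw [sN]
      have : 0 ≤ 2 * p * (1 - p) * P := by
        have : 0 ≤ 1 - p := by linarith only [hp1]
        positivity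
      have : (p * k) ^ 2 ≤ p ^ 2 := by
        rw [mul_pow]
        linarith only [mul_nonneg (sq_nonneg (p)) (sub_nonneg.2 ks),
          mul_nonneg (sq_nonneg (p)) (sub_nonneg.2 k1.le)]
      (refine le_of_not_gt fun hng => ?_; linarith only [hng, sS, sD,
        mul_nonneg (sq_nonneg (1 - p)) (sq_nonneg k),
        mul_nonneg (sub_nonneg.2 ks) (sub_nonneg.2 ks),
        mul_nonneg (sub_nonneg.2 hkp) (sub_nonneg.2 ks),
        mul_nonneg (sub_nonneg.2 hkp) (sub_nonneg.2 hkp),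
        mul_nonneg (sub_nonneg.2 h2.le) (sub_nonneg.2 this),
        mul_nonneg (sub_nonneg.2 h2.le) (sub_nonneg.2 ks),
        mul_nonneg (sub_nonneg.2 h2.le) (sub_nonneg.2 hkp),
        mul_nonneg (sub_nonneg.2 (mul_nonneg (sq_nonneg (1 - p)) (sq_nonneg k))) (sub_nonneg.2 h2.le),
        mul_nonneg (sub_nonneg.2 hng.le) (sub_nonneg.2 ks),
        mul_nonneg (sub_nonneg.2 hng.le) (sub_nonneg.2 hkp),
        mul_pos (sub_pos.2 hng) (sub_pos.2 hp1),
        mul_nonneg (sq_nonneg (1 - p)) (sub_nonneg.2 sS.le),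
        mul_nonneg (sq_nonneg (1 - p)) (sub_nonneg.2 sS.ge),
        mul_nonneg (sq_nonneg (1 - p)) (sub_nonneg.2 sD.le),
        mul_nonneg (sq_nonneg (1 - p)) (sub_nonneg.2 sD.ge),
        mul_nonneg (sq_nonneg (‖q - ↑p‖)) (sub_nonneg.2 ks),
        mul_nonneg (sq_nonneg (‖q - ↑p‖)) (sub_nonneg.2 hkp),
        mul_nonneg (sq_nonneg (‖q + ↑p‖)) (sub_nonneg.2 hp1.le),
        mul_nonneg (sq_nonneg (k)) (sub_nonneg.2 hkp),
        mul_nonneg (sq_nonneg (k)) (sub_nonneg.2 sD.le),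
        mul_nonneg (sq_nonneg (k)) (sub_nonneg.2 sD.ge),
        mul_nonneg (sq_nonneg (k)) (sub_nonneg.2 (mul_nonneg (sq_nonneg (1 - p)) (sq_nonneg k))),
        mul_nonneg (sq_nonneg (p)) (sub_nonneg.2 sS.le),
        mul_nonneg (sq_nonneg (p)) (sub_nonneg.2 sS.ge),
        mul_nonneg (sq_nonneg (p)) (sub_nonneg.2 sD.le),
        mul_nonneg (sq_nonneg (p)) (sub_nonneg.2 sD.ge)])
    · have hF' := hF hkp
      unfold FF at hF'
      rw [div_pow, sD]
      have e1 : (p ^ 2 + k ^ 2 - 2 * p * P) / (p * k) ^ 2 * (‖q + (p : ℂ)‖ / (p * k)) =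
          (p ^ 2 + k ^ 2 - 2 * p * P) * ‖q + (p : ℂ)‖ / (p ^ 3 * k ^ 3) := by
        field_simp
      have e2 : 4 * (1 / p * (1 / k)) * (1 / p + P / k ^ 2) =
          4 * p * (k ^ 2 + p * P) / (p ^ 3 * k ^ 3) := by
        field_simp
      rw [e1, e2, div_lt_div_iff_of_pos_right (by positivity)]
      apply lt_of_pow_lt_pow_left₀ 2 (by positivity)
      rw [mul_pow, sS]
      linarith only [hF']
    · rw [div_pow, sC, mul_pow]
      have e3 : 2 * ((1 / k) ^ 2 * (1 / p) + (1 / p) ^ 2 * (P / k ^ 2)) =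
          2 * (p + P) / (p ^ 2 * k ^ 2) := by
        field_simp
      rw [e3, div_lt_div_iff_of_pos_right (by positivity)]
      have m1 : 0 < 1 - p := by linarith only [hp1]
      have m2 : 0 < (2 * P - k ^ 2) * (1 - p) := mul_pos (by linarith only [h2]) m1
      have m3 : p * (k ^ 2 + p) < p * 2 := mul_lt_mul_of_pos_left (by linarith only [ks, hkp, hp1]) hp
      linarith only [m3, m2]
  · left
    have hk' : 1 / 2 ≤ p := by
      rcases hk with h | h
      · exact h
      · linarith only [h, hkp]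
    have m1 : 0 < 1 - p := by linarith only [hp1]
    have n1 : ‖(p : ℂ) + (1 - p) * q‖ ≤ p + (1 - p) * k := by
      apply le_of_sq_le_sq _ (by positivity)
      rw [sN]
      have : 2 * p * (1 - p) * P ≤ 2 * p * (1 - p) * k :=
        mul_le_mul_of_nonneg_left hPk (by positivity)
      linarith only [this]
    rw [div_pow, sD]
    have e1 : (p ^ 2 + k ^ 2 - 2 * p * P) / (p * k) ^ 2 *
        (‖(p : ℂ) + (1 - p) * q‖ / (p * k)) =
        (p ^ 2 + k ^ 2 - 2 * p * P) * ‖(p : ℂ) + (1 - p) * q‖ / (p ^ 3 * k ^ 3) := by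
      field_simp
    have e2 : 4 * (1 / p * (1 / k)) * (1 / p + P / k ^ 2 - 1) =
        4 * p * ((1 - p) * k ^ 2 + p * P) / (p ^ 3 * k ^ 3) := by
      field_simp
      ring
    rw [e1, e2, div_lt_div_iff_of_pos_right (by positivity)]
    have d0 : 0 ≤ p ^ 2 + k ^ 2 - 2 * p * P := by
      have : 2 * p * P ≤ 2 * p * k := mul_le_mul_of_nonneg_left hPk (by positivity)
      linarith only [this, sq_nonneg (p - k)]
    have d1 : p ^ 2 + k ^ 2 - 2 * p * P ≤ p ^ 2 + k ^ 2 - p * k ^ 2 := by (refine le_of_not_gt fun hng => ?_; linarith only [mul_pos (sub_pos.2 hng) (sub_pos.2 hp),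
                                                                            mul_nonneg (sq_nonneg (p)) (sub_nonneg.2 h2.le)])
    have d2 : (p ^ 2 + k ^ 2 - 2 * p * P) * ‖(p : ℂ) + (1 - p) * q‖ ≤
        (p ^ 2 + k ^ 2 - p * k ^ 2) * (p + (1 - p) * k) :=
      mul_le_mul d1 n1 (norm_nonneg _) (d0.trans d1)
    have d3 : 2 * p * k ^ 2 * (2 - p) ≤ 4 * p * ((1 - p) * k ^ 2 + p * P) := by (refine le_of_not_gt fun hng => ?_; linarith only [hng,
                                                                                  mul_nonneg (sub_nonneg.2 hng.le) (sub_nonneg.2 hk'),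
                                                                                  mul_nonneg (sq_nonneg (p)) (sub_nonneg.2 d1)])
    refine (d2.trans_lt ?_).trans_le d3
    have f1 : (1 - p) ^ 2 * k ^ 3 < (1 - p) ^ 2 * (2 * k ^ 2) := by
      apply mul_lt_mul_of_pos_left _ (by positivity)
      linarith only [mul_nonneg (sub_nonneg.2 hPk) (sub_nonneg.2 hPk),
        mul_nonneg (sub_nonneg.2 h2.le) (sub_nonneg.2 hPk), mul_pos (sub_pos.2 h2) (sub_pos.2 h2),
        mul_nonneg (sq_nonneg (k)) (sub_nonneg.2 hPk),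
        mul_nonneg (sq_nonneg (k)) (sub_nonneg.2 h2.le)]
    have f2 : p ^ 3 ≤ p * k ^ 2 := by
      have : p ^ 2 ≤ k ^ 2 := pow_le_pow_left₀ hp.le hkp.le 2
      (refine le_of_not_gt fun hng => ?_; linarith only [hng,
        mul_nonneg (sub_nonneg.2 hng.le) (sub_nonneg.2 hk'),
        mul_nonneg (sq_nonneg (p)) (sub_nonneg.2 this)])
    have f3 : p ^ 2 * (1 - p) * k ≤ p * (1 - p) * k ^ 2 := by
      have : 0 ≤ p * (1 - p) * k * (k - p) := by
        have : 0 ≤ k - p := by linarith only [hkp]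
        positivity
      linarith only [this]
    have f4 : 0 ≤ k ^ 2 * ((2 * p - 1) * (2 - p)) := by
      have : 0 ≤ 2 * p - 1 := by linarith only [hk']
      have : 0 ≤ 2 - p := by linarith only [hp1]
      positivity
    linarith only [f4, f3, f2, f1]

/-- `cos² π w̄`. -/
theorem lx_q {w : ℂ} : (cos (Real.pi * (starRingEnd ℂ) w) ^ 2).re =
      Real.cos (Real.pi * w.re) ^ 2 - Real.sinh (Real.pi * w.im) ^ 2 +
        2 * Real.cos (Real.pi * w.re) ^ 2 * Real.sinh (Real.pi * w.im) ^ 2 ∧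
    ‖cos (Real.pi * (starRingEnd ℂ) w) ^ 2‖ =
      Real.cos (Real.pi * w.re) ^ 2 + Real.sinh (Real.pi * w.im) ^ 2 := by
  have e : (Real.pi : ℂ) * (starRingEnd ℂ) w =
      ((Real.pi * w.re : ℝ) : ℂ) + ((-(Real.pi * w.im) : ℝ) : ℂ) * I := by
    apply Complex.ext <;> simp
  have h1 := Real.cosh_sq (Real.pi * w.im)
  have h2 := Real.sin_sq_add_cos_sq (Real.pi * w.re)
  rw [e, cos_add, cos_mul_I, sin_mul_I, ← ofReal_cos, ← ofReal_sin, ← ofReal_cosh, ← ofReal_sinh]
  have e2 : (((Real.cos (Real.pi * w.re) : ℝ) : ℂ) * ((Real.cosh (-(Real.pi * w.im)) : ℝ) : ℂ) -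
      ((Real.sin (Real.pi * w.re) : ℝ) : ℂ) * (((Real.sinh (-(Real.pi * w.im)) : ℝ) : ℂ) * I)) =
      ((Real.cos (Real.pi * w.re) * Real.cosh (Real.pi * w.im) : ℝ) : ℂ) +
      ((Real.sin (Real.pi * w.re) * Real.sinh (Real.pi * w.im) : ℝ) : ℂ) * I := by
    rw [Real.cosh_neg, Real.sinh_neg]
    push_cast
    ring
  rw [e2]
  generalize Real.cos (Real.pi * w.re) = c at *
  generalize Real.sin (Real.pi * w.re) = s at *
  generalize Real.cosh (Real.pi * w.im) = C at *
  generalize Real.sinh (Real.pi * w.im) = S at *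
  have hs : s ^ 2 = 1 - c ^ 2 := by linarith only [h2]
  constructor
  · rw [pow_two, mul_re]
    simp only [add_re, add_im, mul_re, mul_im, ofReal_re, ofReal_im, I_re, I_im]
    have : (c * C) ^ 2 - (s * S) ^ 2 = c ^ 2 - S ^ 2 + 2 * c ^ 2 * S ^ 2 := by
      rw [mul_pow, mul_pow, h1, hs]
      ring
    linarith only [this]
  · rw [norm_pow, ← normSq_eq_norm_sq, normSq_apply]
    simp only [add_re, add_im, mul_re, mul_im, ofReal_re, ofReal_im, I_re, I_im]
    have : (c * C) ^ 2 + (s * S) ^ 2 = c ^ 2 + S ^ 2 := by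
      rw [mul_pow, mul_pow, h1, hs]
      ring
    linarith only [this]

/-- The flat at a real point, from the condition at an extreme point. -/
theorem flatUV_xw {x p0 k0 P0 : ℝ} {w : ℂ} (hx : 0 < x) (hx1 : x < 1 / 2)
    (hT : Real.sinh (Real.pi * w.im) ^ 2 < Real.cos (Real.pi * w.re) ^ 2)
    (hp0 : Real.cos (Real.pi * x) ^ 2 ≤ p0)
    (hk : x ≤ 1 / 4 ∨ Real.cos (Real.pi * w.re) ^ 2 + Real.sinh (Real.pi * w.im) ^ 2 ≤
      Real.cos (Real.pi * x) ^ 2)
    (hk0 : 0 < k0) (hk0' : k0 ≤ Real.cos (Real.pi * w.re) ^ 2 + Real.sinh (Real.pi * w.im) ^ 2)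
    (hP0 : 0 ≤ P0) (hc : P0 * (Real.cos (Real.pi * w.re) ^ 2 + Real.sinh (Real.pi * w.im) ^ 2) ≤
      (Real.cos (Real.pi * w.re) ^ 2 - Real.sinh (Real.pi * w.im) ^ 2 +
        2 * Real.cos (Real.pi * w.re) ^ 2 * Real.sinh (Real.pi * w.im) ^ 2) * k0)
    (hF : FF p0 k0 P0) :
    FlatUV (1 / cos (Real.pi * (x : ℂ)) ^ 2) (1 / cos (Real.pi * (starRingEnd ℂ) w) ^ 2) := by
  have hpi := Real.pi_pos
  obtain ⟨q1, q2⟩ := lx_q (w := w)
  have e : cos (Real.pi * (x : ℂ)) ^ 2 = ((Real.cos (Real.pi * x) ^ 2 : ℝ) : ℂ) := by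
    push_cast
    ring
  have c0 : 0 < Real.cos (Real.pi * x) := Real.cos_pos_of_mem_Ioo ⟨by linarith only [hpi,
                                                                        mul_pos (sub_pos.2 hx) (sub_pos.2 hpi)], by linarith only [mul_pos (sub_pos.2 hx1) (sub_pos.2 hpi)]⟩
  have c1 : Real.cos (Real.pi * x) < 1 := by
    rw [← Real.cos_zero]
    exact Real.cos_lt_cos_of_nonneg_of_le_pi le_rfl (by linarith only [hpi,
                                                          mul_pos (sub_pos.2 hx1) (sub_pos.2 hpi)]) (by positivity)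
  rw [e]
  have T0 := sq_nonneg (Real.sinh (Real.pi * w.im))
  have K1 : Real.cos (Real.pi * w.re) ^ 2 ≤ 1 := Real.cos_sq_le_one _
  rw [← q1, ← q2] at hc
  rw [← q2] at hk0' hk
  apply flatUV_real (by positivity) (by linarith only [c1, mul_pos (sub_pos.2 c0) (sub_pos.2 c1)])
  · rw [q1, q2]
    generalize Real.cos (Real.pi * w.re) ^ 2 = c at *
    generalize Real.sinh (Real.pi * w.im) ^ 2 = T at *
    have h1 : 0 < (c - T) * (2 - (c - T)) := mul_pos (by linarith only [hT]) (by linarith only [T0,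
                                                                                   K1, hx1, hx])
    linarith only [h1]
  · intro h
    exact FF_mono hk0 hk0' h hp0 hP0 hc (re_le_norm _) hF
  · rcases hk with h | h
    · left
      have h4 : Real.cos (Real.pi / 4) ≤ Real.cos (Real.pi * x) :=
        Real.cos_le_cos_of_nonneg_of_le_pi (by positivity) (by linarith only [hpi]) (by linarith only [mul_nonneg (sub_nonneg.2 hpi.le) (sub_nonneg.2 h)])
      have h5 := pow_le_pow_left₀ (by rw [Real.cos_pi_div_four]; positivity) h4 2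
      rw [Real.cos_pi_div_four, div_pow, Real.sq_sqrt (by norm_num)] at h5
      norm_num at h5
      linarith only [h5]
    · exact Or.inr h

/-- The condition at the point `(κ0, T)`. -/
theorem flatUV_T {x p0 κ0 : ℝ} {w : ℂ} (hx : 0 < x) (hx1 : x < 1 / 2)
    (hT : Real.sinh (Real.pi * w.im) ^ 2 < Real.cos (Real.pi * w.re) ^ 2)
    (hp0 : Real.cos (Real.pi * x) ^ 2 ≤ p0) (hκ0 : 0 < κ0)
    (hκ : κ0 ≤ Real.cos (Real.pi * w.re) ^ 2)
    (hk : x ≤ 1 / 4 ∨ Real.cos (Real.pi * w.re) ^ 2 + Real.sinh (Real.pi * w.im) ^ 2 ≤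
      Real.cos (Real.pi * x) ^ 2)
    (hP0 : 0 ≤ κ0 - (1 - 2 * κ0) * Real.sinh (Real.pi * w.im) ^ 2)
    (hF : FF p0 (κ0 + Real.sinh (Real.pi * w.im) ^ 2)
      (κ0 - (1 - 2 * κ0) * Real.sinh (Real.pi * w.im) ^ 2)) :
    FlatUV (1 / cos (Real.pi * (x : ℂ)) ^ 2) (1 / cos (Real.pi * (starRingEnd ℂ) w) ^ 2) := by
  have T0 := sq_nonneg (Real.sinh (Real.pi * w.im))
  refine flatUV_xw hx hx1 hT hp0 hk (by linarith only [T0, hκ0]) (by linarith only [hκ]) hP0 ?_ hF
  generalize Real.cos (Real.pi * w.re) ^ 2 = c at *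
  generalize Real.sinh (Real.pi * w.im) ^ 2 = T at *
  have : 0 ≤ 2 * T * (1 + T) * (c - κ0) := by
    have : 0 ≤ c - κ0 := by linarith only [hκ]
    positivity
  linarith only [this]

/-- The condition on the diagonal. -/
theorem flatUV_k {x p0 k0 : ℝ} {w : ℂ} (hx : 0 < x) (hx1 : x < 1 / 2)
    (hT : Real.sinh (Real.pi * w.im) ^ 2 < Real.cos (Real.pi * w.re) ^ 2)
    (hp0 : Real.cos (Real.pi * x) ^ 2 ≤ p0) (hk0 : 0 < k0)
    (hκ : k0 ≤ Real.cos (Real.pi * w.re) ^ 2 + Real.sinh (Real.pi * w.im) ^ 2)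
    (hk : x ≤ 1 / 4 ∨ Real.cos (Real.pi * w.re) ^ 2 + Real.sinh (Real.pi * w.im) ^ 2 ≤
      Real.cos (Real.pi * x) ^ 2)
    (hF : FF p0 k0 (k0 ^ 2 / 2)) :
    FlatUV (1 / cos (Real.pi * (x : ℂ)) ^ 2) (1 / cos (Real.pi * (starRingEnd ℂ) w) ^ 2) := by
  have T0 := sq_nonneg (Real.sinh (Real.pi * w.im))
  have K1 : Real.cos (Real.pi * w.re) ^ 2 ≤ 1 := Real.cos_sq_le_one _
  refine flatUV_xw hx hx1 hT hp0 hk hk0 hκ (by positivity) ?_ hF
  generalize Real.cos (Real.pi * w.re) ^ 2 = c at *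
  generalize Real.sinh (Real.pi * w.im) ^ 2 = T at *
  have h1 : 0 ≤ (c - T) * (2 - (c - T)) := mul_nonneg (by linarith only [hT]) (by linarith only [T0,
                                                                                    K1, hx1, hx])
  have h2 : (c + T) ^ 2 / 2 ≤ c - T + 2 * c * T := by linarith only [h1]
  have h3 : k0 / 2 * (c + T) ≤ (c + T) ^ 2 / 2 := by (refine le_of_not_gt fun hng => ?_; linarith only [mul_pos (sub_pos.2 hng) (sub_pos.2 hT),
                                                       mul_nonneg (sub_nonneg.2 hng.le) (sub_nonneg.2 T0),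
                                                       mul_nonneg (sq_nonneg (1 * c + 1 * T)) (sub_nonneg.2 hκ)])
  have h4 : k0 * (k0 / 2 * (c + T)) ≤ k0 * (c - T + 2 * c * T) :=
    mul_le_mul_of_nonneg_left (h3.trans h2) hk0.le
  linarith only [h4]

end Pool.Agent.S3
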