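import Pool.Agent.S3.LX5
import Pool.Agent.S3.LX7

/-!
# Small indices, inner vertices with two half twists: the flats

The polynomial inequalities and the flats at a real point.
-/

set_option autoImplicit false

namespace Pool.Agent.S3

open Complex

/-! ### Values of the cosine -/

theorem lx_cs_anti {a b : ℝ} (h0 : 0 ≤ a) (h1 : a ≤ b) (h2 : b ≤ 1 / 2) :
    Real.cos (Real.pi * b) ^ 2 ≤ Real.cos (Real.pi * a) ^ 2 := by
  have hpi := Real.pi_pos
  have h3 : 0 ≤ Real.cos (Real.pi * b) :=
    Real.cos_nonneg_of_mem_Icc ⟨by nlinarith, by nlinarith⟩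
  exact pow_le_pow_left₀ h3 (Real.cos_le_cos_of_nonneg_of_le_pi (by positivity) (by nlinarith)
    (by nlinarith)) 2

/-- A lower bound at `a ≥ 1/4`. -/
theorem lx_cs_lo {a y c : ℝ} (h0 : 1 / 4 ≤ a) (h1 : a ≤ 1 / 2)
    (hy : 3141593 / 1000000 * (2 * a - 1 / 2) = y) (hy2 : y ≤ 3 / 2)
    (hs : y - y ^ 3 / 6 + y ^ 5 / 120 - y ^ 7 / 5040 + y ^ 9 / 362880 ≤ 1 - 2 * c) :
    c ≤ Real.cos (Real.pi * a) ^ 2 := by
  have h := lx_sin_hi (r := 2 * a - 1 / 2) (by linarith) (by linarith) hy hy2 hs
  rw [lx_cos_sq]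
  linarith

/-- An upper bound at `a ≥ 1/4`. -/
theorem lx_cs_hi {a y c : ℝ} (h0 : 1 / 4 ≤ a) (h1 : a ≤ 1 / 2)
    (hy : 3141592 / 1000000 * (2 * a - 1 / 2) = y)
    (hs : 1 - 2 * c ≤ y - y ^ 3 / 6 + y ^ 5 / 120 - y ^ 7 / 5040) :
    Real.cos (Real.pi * a) ^ 2 ≤ c := by
  have h := lx_sin_lo (r := 2 * a - 1 / 2) (by linarith) (by linarith) hy hs
  rw [lx_cos_sq]
  linarith

theorem lx_cos_sq' (a : ℝ) : Real.cos (Real.pi * a) ^ 2 =
    (1 + Real.sin (Real.pi * (1 / 2 - 2 * a))) / 2 := by
  rw [lx_cos_sq, show Real.pi * (1 / 2 - 2 * a) = -(Real.pi * (2 * a - 1 / 2)) by ring,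
    Real.sin_neg]
  ring

theorem lx_cs_1 : Real.cos (Real.pi * (1 / 10)) ^ 2 ≤ 904509 / 1000000 := by
  rw [lx_cos_sq']
  have h := lx_sin_hi (r := 1 / 2 - 2 * (1 / 10)) (y := 9424779 / 10000000)
    (s := 809018 / 1000000) (by norm_num) (by norm_num) (by norm_num) (by norm_num) (by norm_num)
  linarith

theorem lx_cs_15 : 79389 / 100000 ≤ Real.cos (Real.pi * (15 / 100)) ^ 2 ∧
    Real.cos (Real.pi * (15 / 100)) ^ 2 ≤ 793893 / 1000000 := by
  rw [lx_cos_sq']
  have h := lx_sin_hi (r := 1 / 2 - 2 * (15 / 100)) (y := 3141593 / 5000000)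
    (s := 587786 / 1000000) (by norm_num) (by norm_num) (by norm_num) (by norm_num) (by norm_num)
  have h' := lx_sin_lo (r := 1 / 2 - 2 * (15 / 100)) (y := 3141592 / 5000000)
    (s := 58778 / 100000) (by norm_num) (by norm_num) (by norm_num) (by norm_num)
  constructor <;> linarith

theorem lx_cs_3 : Real.cos (Real.pi * (3 / 10)) ^ 2 ≤ 86373 / 250000 :=
  lx_cs_hi (y := 3141592 / 10000000) (by norm_num) (by norm_num) (by norm_num) (by norm_num)

theorem lx_cs_4 : Real.cos (Real.pi * (1 / 4)) ^ 2 = 1 / 2 := by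
  rw [mul_one_div, Real.cos_pi_div_four, div_pow, Real.sq_sqrt (by norm_num)]
  norm_num

/-! ### The polynomial inequalities -/

theorem ff_L1 {T : ℝ} (h0 : 0 ≤ T) (h1 : T ≤ 9 / 250) :
    FF (904509 / 1000000) (17527 / 100000 + T) (17527 / 100000 - (1 - 2 * (17527 / 100000)) * T) := by
  obtain ⟨r, hr, rfl⟩ : ∃ r : ℝ, 0 ≤ r ∧ T = 0 + r := ⟨T - 0, by linarith, by ring⟩
  obtain ⟨s, hs, hrs⟩ : ∃ s : ℝ, 0 ≤ s ∧ s = 9 / 250 - r := ⟨9 / 250 - r, by linarith, rfl⟩
  have h : 0 ≤ 99223473347322369514037353763695319 / 2176782336000000000000000000 * r ^ 0 * s ^ 6 +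
      2055747471069615317001444758922850913 / 9069926400000000000000000000 * r ^ 1 * s ^ 5 +
      8184682600708776555937642960700170687 / 18139852800000000000000000000 * r ^ 2 * s ^ 4 +
      3823916261274177034292578376554795442377 / 8503056000000000000000000000000 * r ^ 3 * s ^ 3 +
      2548211479699525836260862303583681308883 / 11337408000000000000000000000000 * r ^ 4 * s ^ 2 +
      257387781402150025415158032273134039129 / 5668704000000000000000000000000 * r ^ 5 * s ^ 1 +
      7763629528996153594178431197073603883 / 34012224000000000000000000000000 * r ^ 6 * s ^ 0 := by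
    positivity
  rw [hrs] at h
  unfold FF
  nlinarith only [h]

theorem ff_L2 {T : ℝ} (h0 : 9 / 250 ≤ T) (h1 : T ≤ 99 / 1000) :
    FF (904509 / 1000000) (9677 / 50000 + T) (9677 / 50000 - (1 - 2 * (9677 / 50000)) * T) := by
  obtain ⟨r, hr, rfl⟩ : ∃ r : ℝ, 0 ≤ r ∧ T = 9 / 250 + r := ⟨T - 9 / 250, by linarith, by ring⟩
  obtain ⟨s, hs, hrs⟩ : ∃ s : ℝ, 0 ≤ s ∧ s = 63 / 1000 - r := ⟨63 / 1000 - r, by linarith, rfl⟩
  have h : 0 ≤ 2246728501589879432940343633226098439839 / 976929722015625000000000000000000 * r ^ 0 * s ^ 6 +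
      92726894812680172776129119481968413781 / 8141081016796875000000000000000 * r ^ 1 * s ^ 5 +
      7356374301434104780424083855099951709801 / 325643240671875000000000000000000 * r ^ 2 * s ^ 4 +
      273959842761696024242857527358074566587 / 12211621525195312500000000000000 * r ^ 3 * s ^ 3 +
      3636507607860814471925742098059428381359 / 325643240671875000000000000000000 * r ^ 4 * s ^ 2 +
      18244754776498337162206176198280309961 / 8141081016796875000000000000000 * r ^ 5 * s ^ 1 +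
      8010165232743926414016177571573462681 / 976929722015625000000000000000000 * r ^ 6 * s ^ 0 := by
    positivity
  rw [hrs] at h
  unfold FF
  nlinarith only [h]

theorem ff_L3 {T : ℝ} (h0 : 0 ≤ T) (h1 : T ≤ 20611 / 100000) :
    FF (904509 / 1000000) (206107 / 1000000 + T) (206107 / 1000000 - (1 - 2 * (206107 / 1000000)) * T) := by
  obtain ⟨r, hr, rfl⟩ : ∃ r : ℝ, 0 ≤ r ∧ T = 0 + r := ⟨T - 0, by linarith, by ring⟩
  obtain ⟨s, hs, hrs⟩ : ∃ s : ℝ, 0 ≤ s ∧ s = 20611 / 100000 - r := ⟨20611 / 100000 - r, by linarith, rfl⟩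
  have h : 0 ≤ 6096824231260552219840664060554752 / 1197883011607920963266799390625 * r ^ 0 * s ^ 6 +
      2905669514582705846718827663013737986107 / 119788301160792096326679939062500000 * r ^ 1 * s ^ 5 +
      558158610272437695227526930023290469000160531 / 11978830116079209632667993906250000000000 * r ^ 2 * s ^ 4 +
      53791076787879696001942099221800878974344272392043 / 1197883011607920963266799390625000000000000000 * r ^ 3 * s ^ 3 +
      25892266876825649467968530636603354569251821076129 / 1197883011607920963266799390625000000000000000 * r ^ 4 * s ^ 2 +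
      4958850120581847809131097638302195091435037376129 / 1197883011607920963266799390625000000000000000 * r ^ 5 * s ^ 1 +
      472035947023146736318991362675457581435592043 / 1197883011607920963266799390625000000000000000 * r ^ 6 * s ^ 0 := by
    positivity
  rw [hrs] at h
  unfold FF
  nlinarith only [h]

theorem ff_R1 {T : ℝ} (h0 : 0 ≤ T) (h1 : T ≤ 9 / 500) :
    FF (793893 / 1000000) (3661 / 25000 + T) (3661 / 25000 - (1 - 2 * (3661 / 25000)) * T) := by
  obtain ⟨r, hr, rfl⟩ : ∃ r : ℝ, 0 ≤ r ∧ T = 0 + r := ⟨T - 0, by linarith, by ring⟩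
  obtain ⟨s, hs, hrs⟩ : ∃ s : ℝ, 0 ≤ s ∧ s = 9 / 500 - r := ⟨9 / 500 - r, by linarith, rfl⟩
  have h : 0 ≤ 3246295430780668214213749319070799 / 3779136000000000000000000 * r ^ 0 * s ^ 6 +
      22471060099238324580167617774456913 / 5248800000000000000000000 * r ^ 1 * s ^ 5 +
      268884909128594184753037653518787499 / 31492800000000000000000000 * r ^ 2 * s ^ 4 +
      125760392300107988892306580153138930919 / 14762250000000000000000000000 * r ^ 3 * s ^ 3 +
      27923870707813069139118111602543556017 / 6561000000000000000000000000 * r ^ 4 * s ^ 2 +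
      8414140515291763024096657874784854963 / 9841500000000000000000000000 * r ^ 5 * s ^ 1 +
      128431257185025729593529942805325551 / 59049000000000000000000000000 * r ^ 6 * s ^ 0 := by
    positivity
  rw [hrs] at h
  unfold FF
  nlinarith only [h]

theorem ff_R2 {T : ℝ} (h0 : 9 / 500 ≤ T) (h1 : T ≤ 27 / 500) :
    FF (793893 / 1000000) (16349 / 100000 + T) (16349 / 100000 - (1 - 2 * (16349 / 100000)) * T) := by
  obtain ⟨r, hr, rfl⟩ : ∃ r : ℝ, 0 ≤ r ∧ T = 9 / 500 + r := ⟨T - 9 / 500, by linarith, by ring⟩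
  obtain ⟨s, hs, hrs⟩ : ∃ s : ℝ, 0 ≤ s ∧ s = 9 / 250 - r := ⟨9 / 250 - r, by linarith, rfl⟩
  have h : 0 ≤ 821195870540244085444041556983960416149 / 34012224000000000000000000000000 * r ^ 0 * s ^ 6 +
      680867021078969425785696701557879442923 / 5668704000000000000000000000000 * r ^ 1 * s ^ 5 +
      2712435563110956809928121505483262690581 / 11337408000000000000000000000000 * r ^ 2 * s ^ 4 +
      2029331162333640151366260927237504724691 / 8503056000000000000000000000000 * r ^ 3 * s ^ 3 +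
      1354144999505289784298194038211429532993 / 11337408000000000000000000000000 * r ^ 4 * s ^ 2 +
      137214226468593859451393243897508666307 / 5668704000000000000000000000000 * r ^ 5 * s ^ 1 +
      4874542218732448764595193614310467273 / 34012224000000000000000000000000 * r ^ 6 * s ^ 0 := by
    positivity
  rw [hrs] at h
  unfold FF
  nlinarith only [h]

theorem ff_R3 {T : ℝ} (h0 : 27 / 500 ≤ T) (h1 : T ≤ 207 / 2000) :
    FF (793893 / 1000000) (17527 / 100000 + T) (17527 / 100000 - (1 - 2 * (17527 / 100000)) * T) := by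
  obtain ⟨r, hr, rfl⟩ : ∃ r : ℝ, 0 ≤ r ∧ T = 27 / 500 + r := ⟨T - 27 / 500, by linarith, by ring⟩
  obtain ⟨s, hs, hrs⟩ : ∃ s : ℝ, 0 ≤ s ∧ s = 99 / 2000 - r := ⟨99 / 2000 - r, by linarith, rfl⟩
  have h : 0 ≤ 979870522399751629619822926659824519341 / 229853552099853515625000000000000 * r ^ 0 * s ^ 6 +
      648920351369136058882291541341381325027 / 30647140279980468750000000000000 * r ^ 1 * s ^ 5 +
      12903144434501482633614909677406125584631 / 306471402799804687500000000000000 * r ^ 2 * s ^ 4 +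
      15410132365056231277722417418734851671067 / 367765683359765625000000000000000 * r ^ 3 * s ^ 3 +
      12804115511017121161085388704887873071523 / 612942805599609375000000000000000 * r ^ 4 * s ^ 2 +
      513717618263025148318538679303910454303 / 122588561119921875000000000000000 * r ^ 5 * s ^ 1 +
      21468023288008025595327171336825794417 / 1838828416798828125000000000000000 * r ^ 6 * s ^ 0 := by
    positivity
  rw [hrs] at h
  unfold FF
  nlinarith only [h]

theorem ff_R4 {T : ℝ} (h0 : 207 / 2000 ≤ T) (h1 : T ≤ 19357 / 100000) :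
    FF (793893 / 1000000) (9677 / 50000 + T) (9677 / 50000 - (1 - 2 * (9677 / 50000)) * T) := by
  obtain ⟨r, hr, rfl⟩ : ∃ r : ℝ, 0 ≤ r ∧ T = 207 / 2000 + r := ⟨T - 207 / 2000, by linarith, by ring⟩
  obtain ⟨s, hs, hrs⟩ : ∃ s : ℝ, 0 ≤ s ∧ s = 9007 / 100000 - r := ⟨9007 / 100000 - r, by linarith, rfl⟩
  have h : 0 ≤ 309614100906875816203893331430002155873 / 2085647989604914541779878906250000 * r ^ 0 * s ^ 6 +
      75822435443636674787617862953429521874119 / 104282399480245727088993945312500000 * r ^ 1 * s ^ 5 +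
      232272052107016863192794602104013731212217 / 162941249187883948576553039550781250 * r ^ 2 * s ^ 4 +
      1458610431028607603867705760605367977049040217 / 1042823994802457270889939453125000000000 * r ^ 3 * s ^ 3 +
      717605031959592800652783425814851014352512851 / 1042823994802457270889939453125000000000 * r ^ 4 * s ^ 2 +
      143231933189715933145152475474766349878710251 / 1042823994802457270889939453125000000000 * r ^ 5 * s ^ 1 +
      1112459932756849243150430679436448621738817 / 1042823994802457270889939453125000000000 * r ^ 6 * s ^ 0 := by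
    positivity
  rw [hrs] at h
  unfold FF
  nlinarith only [h]

theorem ff_Q {T : ℝ} (h0 : 0 ≤ T) (h1 : T ≤ 13553 / 100000) :
    FF (1 / 2) (13551 / 100000 + T) (13551 / 100000 - (1 - 2 * (13551 / 100000)) * T) := by
  obtain ⟨r, hr, rfl⟩ : ∃ r : ℝ, 0 ≤ r ∧ T = 0 + r := ⟨T - 0, by linarith, by ring⟩
  obtain ⟨s, hs, hrs⟩ : ∃ s : ℝ, 0 ≤ s ∧ s = 13553 / 100000 - r := ⟨13553 / 100000 - r, by linarith, rfl⟩
  have h : 0 ≤ 18476891210853863048899731199 / 6197444268065413433044129 * r ^ 0 * s ^ 6 +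
      88685379765553893626155269982 / 6197444268065413433044129 * r ^ 1 * s ^ 5 +
      172091506319602158345674732098 / 6197444268065413433044129 * r ^ 2 * s ^ 4 +
      167959206812857304294161125136 / 6197444268065413433044129 * r ^ 3 * s ^ 3 +
      82124319121812358463503856412 / 6197444268065413433044129 * r ^ 4 * s ^ 2 +
      16100977930029877980679130520 / 6197444268065413433044129 * r ^ 5 * s ^ 1 +
      46650411904630629484161800 / 6197444268065413433044129 * r ^ 6 * s ^ 0 := by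
    positivity
  rw [hrs] at h
  unfold FF
  nlinarith only [h]

theorem ff_S {T : ℝ} (h0 : 0 ≤ T) (h1 : T ≤ 191 / 2000) :
    FF (86373 / 250000) (9549 / 100000 + T) (9549 / 100000 - (1 - 2 * (9549 / 100000)) * T) := by
  obtain ⟨r, hr, rfl⟩ : ∃ r : ℝ, 0 ≤ r ∧ T = 0 + r := ⟨T - 0, by linarith, by ring⟩
  obtain ⟨s, hs, hrs⟩ : ∃ s : ℝ, 0 ≤ s ∧ s = 191 / 2000 - r := ⟨191 / 2000 - r, by linarith, rfl⟩
  have h : 0 ≤ 40455704095075017203709654897319 / 11853326726718994140625000000 * r ^ 0 * s ^ 6 +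
      9821343791236414498888714369749867 / 592666336335949707031250000000 * r ^ 1 * s ^ 5 +
      192830506296411132093983678806979703 / 5926663363359497070312500000000 * r ^ 2 * s ^ 4 +
      47635655430446761732682942934883202857 / 1481665840839874267578125000000000 * r ^ 3 * s ^ 3 +
      23597029879173212874287563227856729071 / 1481665840839874267578125000000000 * r ^ 4 * s ^ 2 +
      4675018284257920732725543868534465071 / 1481665840839874267578125000000000 * r ^ 5 * s ^ 1 +
      932061794505790115504811025805607 / 1481665840839874267578125000000000 * r ^ 6 * s ^ 0 := by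
    positivity
  rw [hrs] at h
  unfold FF
  nlinarith only [h]

theorem ff_Z {T : ℝ} (h0 : 0 ≤ T) (h1 : T ≤ 2 / 125) :
    FF (1 / 2) (9549 / 100000 + T) (9549 / 100000 - (1 - 2 * (9549 / 100000)) * T) := by
  obtain ⟨r, hr, rfl⟩ : ∃ r : ℝ, 0 ≤ r ∧ T = 0 + r := ⟨T - 0, by linarith, by ring⟩
  obtain ⟨s, hs, hrs⟩ : ∃ s : ℝ, 0 ≤ s ∧ s = 2 / 125 - r := ⟨2 / 125 - r, by linarith, rfl⟩
  have h : 0 ≤ 3070391225222427465490669799 / 16777216000000000000 * r ^ 0 * s ^ 6 +
      7638080612796909939359212597 / 8388608000000000000 * r ^ 1 * s ^ 5 +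
      6082503794974579373880079797 / 3355443200000000000 * r ^ 2 * s ^ 4 +
      1514420287076662569489936999 / 838860800000000000 * r ^ 3 * s ^ 3 +
      3019216036399413875403606197 / 3355443200000000000 * r ^ 4 * s ^ 2 +
      1509279406580674250796665397 / 8388608000000000000 * r ^ 5 * s ^ 1 +
      4135381418810058201396199 / 16777216000000000000 * r ^ 6 * s ^ 0 := by
    positivity
  rw [hrs] at h
  unfold FF
  nlinarith only [h]

theorem ff_K {k0 : ℝ} (h : k0 = 41221 / 100000) :
    FF (904509 / 1000000) k0 (k0 ^ 2 / 2) := by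
  subst h
  unfold FF
  norm_num

theorem ff_K2 {k0 : ℝ} (h : k0 = 27102 / 100000) : FF (1 / 2) k0 (k0 ^ 2 / 2) := by
  subst h
  unfold FF
  norm_num

theorem ff_K3 {k0 : ℝ} (h : k0 = 19098 / 100000) : FF (86373 / 250000) k0 (k0 ^ 2 / 2) := by
  subst h
  unfold FF
  norm_num

/-! ### The flats -/

section

variable {θ θ' x : ℝ} {w : ℂ}

theorem Wq.sinh_lt (h : Wq θ w) (ht : Real.tan θ < 1) :
    Real.sinh (Real.pi * w.im) ^ 2 < Real.cos (Real.pi * w.re) ^ 2 := by
  have hpi := Real.pi_pos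
  have hc := lx_cos h.re0 h.re1
  have h1 : Real.sinh (Real.pi * w.im) ≤ Real.tan θ * Real.cos (Real.pi * w.re) := by
    rw [← sinh_pi_bl]
    exact Real.sinh_le_sinh.2 (mul_le_mul_of_nonneg_left h.im1 hpi.le)
  have h2 := h.sinh_le.2
  exact pow_lt_pow_left₀ (h1.trans_lt (by nlinarith)) h2 two_ne_zero

/-- **The flat at a real point between `1/10` and `1/4`.** -/
theorem low2_flat (h : Wq θ' w) (ht : Real.tan θ' < 1) (x0 : 1 / 10 ≤ x) (x1 : x ≤ 1 / 4)
    (hw : w.re ≤ 7 / 20) :
    FlatUV (1 / cos (Real.pi * (x : ℂ)) ^ 2) (1 / cos (Real.pi * (starRingEnd ℂ) w) ^ 2) := by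
  have hT := h.sinh_lt ht
  have T0 := sq_nonneg (Real.sinh (Real.pi * w.im))
  have p0 : Real.cos (Real.pi * x) ^ 2 ≤ 904509 / 1000000 :=
    (lx_cs_anti (by norm_num) x0 (by linarith)).trans lx_cs_1
  have k1 : 206107 / 1000000 ≤ Real.cos (Real.pi * (7 / 20)) ^ 2 :=
    lx_cs_lo (y := 3141593 / 5000000) (by norm_num) (by norm_num) (by norm_num) (by norm_num)
      (by norm_num)
  have k2 := k1.trans (lx_cs_anti h.re0 hw (by norm_num))
  rcases le_total (Real.sinh (Real.pi * w.im) ^ 2) (20611 / 100000) with h1 | h1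
  · exact flatUV_T (by linarith) (by linarith) hT p0 (by norm_num) k2 (Or.inl x1)
      (by linarith) (ff_L3 T0 h1)
  · exact flatUV_k (k0 := 41221 / 100000) (by linarith) (by linarith) hT p0 (by norm_num)
      (by linarith) (Or.inl x1) (ff_K rfl)

/-- The flat at `1/4`, to the left of `38/100`. -/
theorem low2_flat4 (h : Wq θ' w) (ht : Real.tan θ' < 1) (hw : w.re ≤ 38 / 100) :
    FlatUV (1 / cos (Real.pi * (((1 / 4 : ℝ)) : ℂ)) ^ 2)
      (1 / cos (Real.pi * (starRingEnd ℂ) w) ^ 2) := by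
  have hT := h.sinh_lt ht
  have T0 := sq_nonneg (Real.sinh (Real.pi * w.im))
  have k1 : 13551 / 100000 ≤ Real.cos (Real.pi * (38 / 100)) ^ 2 :=
    lx_cs_lo (y := 3141593 * 26 / 100000000) (by norm_num) (by norm_num) (by norm_num)
      (by norm_num) (by norm_num)
  have k2 := k1.trans (lx_cs_anti h.re0 hw (by norm_num))
  rcases le_total (Real.sinh (Real.pi * w.im) ^ 2) (13553 / 100000) with h1 | h1
  · exact flatUV_T (by norm_num) (by norm_num) hT lx_cs_4.le (by norm_num) k2 (Or.inl le_rfl)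
      (by linarith) (ff_Q T0 h1)
  · exact flatUV_k (k0 := 27102 / 100000) (by norm_num) (by norm_num) hT lx_cs_4.le (by norm_num)
      (by linarith) (Or.inl le_rfl) (ff_K2 rfl)

theorem lx_k4 : 9549 / 100000 ≤ Real.cos (Real.pi * (2 / 5)) ^ 2 :=
  lx_cs_lo (y := 3141593 * 3 / 10000000) (by norm_num) (by norm_num) (by norm_num)
      (by norm_num) (by norm_num)

/-- The flat at `3/10`, to the right of `38/100`. -/
theorem low2_flat3 (h : Wq θ' w) (ht : Real.tan θ' < 1) (hw : 38 / 100 ≤ w.re) :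
    FlatUV (1 / cos (Real.pi * (((3 / 10 : ℝ)) : ℂ)) ^ 2)
      (1 / cos (Real.pi * (starRingEnd ℂ) w) ^ 2) := by
  have hT := h.sinh_lt ht
  have T0 := sq_nonneg (Real.sinh (Real.pi * w.im))
  have k2 := lx_k4.trans (lx_cs_anti h.re0 h.re1 (by norm_num))
  have k3 : Real.cos (Real.pi * (38 / 100)) ^ 2 ≤ 13553 / 100000 :=
    lx_cs_hi (y := 3141592 * 26 / 100000000) (by norm_num) (by norm_num) (by norm_num)
      (by norm_num)
  have k4 := (lx_cs_anti (by norm_num) hw (by linarith [h.re1])).trans k3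
  have k5 : 345491 / 1000000 ≤ Real.cos (Real.pi * (3 / 10)) ^ 2 :=
    lx_cs_lo (y := 3141593 / 10000000) (by norm_num) (by norm_num) (by norm_num)
      (by norm_num) (by norm_num)
  rcases le_total (Real.sinh (Real.pi * w.im) ^ 2) (955 / 10000) with h1 | h1
  · exact flatUV_T (by norm_num) (by norm_num) hT lx_cs_3 (by norm_num) k2
      (Or.inr (by linarith)) (by linarith) (ff_S T0 (by linarith))
  · exact flatUV_k (k0 := 19098 / 100000) (by norm_num) (by norm_num) hT lx_cs_3 (by norm_num)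
      (by linarith) (Or.inr (by linarith)) (ff_K3 rfl)

/-- The flat at `1/4`, small imaginary part. -/
theorem low2_flatZ (h : Wq θ' w) (ht : Real.tan θ' < 1)
    (hw : Real.sinh (Real.pi * w.im) ^ 2 ≤ 16 / 1000) :
    FlatUV (1 / cos (Real.pi * (((1 / 4 : ℝ)) : ℂ)) ^ 2)
      (1 / cos (Real.pi * (starRingEnd ℂ) w) ^ 2) := by
  have hT := h.sinh_lt ht
  have T0 := sq_nonneg (Real.sinh (Real.pi * w.im))
  have k2 := lx_k4.trans (lx_cs_anti h.re0 h.re1 (by norm_num))
  exact flatUV_T (by norm_num) (by norm_num) hT lx_cs_4.le (by norm_num) k2 (Or.inl le_rfl)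
      (by linarith) (ff_Z T0 (by linarith))

end

end Pool.Agent.S3
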