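import Pool.Agent.H63.VC.Asym
import Pool.Agent.H63.VC.EndB
import Pool.Agent.H63.VC.Riem
import Pool.Agent.H63.VC.SlowL
import Pool.Agent.H63.VC.SlowU
import Pool.Agent.H63.VC3.CritB
import Pool.Agent.H63.VC3.Upper
import Pool.Agent.H63.VC4.KBN
import Pool.Agent.H63.VC4.UpperN
import Pool.Agent.H63.VC5.Defs
import Pool.Agent.H63.VC5.FFdilog
import Pool.Agent.H63.VC6.LocU
import Pool.Agent.H63.VC6.SlotU
import Pool.Agent.H63.VC7.Link
import Pool.Agent.H63.VC7.QcLL
import Pool.Agent.S3.Edge

/-!
# The low part, R3: the maximum principle on the regions between a contour and its reflection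

`RR θ v1` is the closed region between the `u`-line of height `θ` over `|re v| ≤ v1` and its complex
conjugate, `dRR θ v1` its boundary. `maxp`: an entire function bounded by `K exp (M re G)` on the
boundary has this bound on the region; `maxp_multi`: the same in several variables.
-/

set_option autoImplicit false

namespace Pool.Agent.S3

open Complex Filter Topology

/-- The region below the `u`-line and above its conjugate. -/
def RR (θ v1 : ℝ) : Set ℂ := {v | |v.re| ≤ v1 ∧ |v.im| ≤ bl θ v.re}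

/-- Its boundary. -/
def dRR (θ v1 : ℝ) : Set ℂ :=
  {v | (|v.re| ≤ v1 ∧ |v.im| = bl θ v.re) ∨ (|v.re| = v1 ∧ |v.im| ≤ bl θ v.re)}

theorem dRR_subset (θ v1 : ℝ) : dRR θ v1 ⊆ RR θ v1 := by
  rintro v (⟨h1, h2⟩ | ⟨h1, h2⟩)
  · exact ⟨h1, h2.le⟩
  · exact ⟨h1.le, h2⟩

theorem Lw3_bl_cont (θ : ℝ) : Continuous (bl θ) := by
  unfold bl
  exact (Real.continuous_arsinh.comp (continuous_const.mul (Real.continuous_cos.comp
    (continuous_const.mul continuous_id)))).div_const _

theorem Lw3_bl_le (θ a : ℝ) : |bl θ a| ≤ Real.arsinh |Real.tan θ| / Real.pi := by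
  have habs : ∀ x : ℝ, |Real.arsinh x| = Real.arsinh |x| := by
    intro x
    rcases le_total 0 x with h | h
    · rw [abs_of_nonneg h, abs_of_nonneg (Real.arsinh_nonneg_iff.2 h)]
    · rw [abs_of_nonpos h, abs_of_nonpos (Real.arsinh_nonpos_iff.2 h), Real.arsinh_neg]
  unfold bl
  rw [abs_div, abs_of_pos Real.pi_pos, habs]
  have h1 : |Real.tan θ * Real.cos (Real.pi * a)| ≤ |Real.tan θ| := by
    rw [abs_mul]
    exact mul_le_of_le_one_right (abs_nonneg _) (Real.abs_cos_le_one _)
  exact div_le_div_of_nonneg_right (Real.arsinh_le_arsinh.2 h1) Real.pi_pos.le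

/-- The maximum principle. -/
theorem maxp {θ v1 : ℝ} {f G : ℂ → ℂ} (hf : Differentiable ℂ f) (hG : Differentiable ℂ G) {K M : ℝ}
    (h : ∀ z ∈ dRR θ v1, ‖f z‖ ≤ K * Real.exp (M * (G z).re)) {z : ℂ} (hz : z ∈ RR θ v1) :
    ‖f z‖ ≤ K * Real.exp (M * (G z).re) := by
  by_cases hzd : z ∈ dRR θ v1
  · exact h z hzd
  set U : Set ℂ := {v | |v.re| < v1 ∧ |v.im| < bl θ v.re} with hU
  have hbc := Lw3_bl_cont θ
  have hUo : IsOpen U := by
    have h1 : IsOpen {v : ℂ | |v.re| < v1} := isOpen_lt (continuous_abs.comp continuous_re) continuous_const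
    have h2 : IsOpen {v : ℂ | |v.im| < bl θ v.re} :=
      isOpen_lt (continuous_abs.comp continuous_im) (hbc.comp continuous_re)
    exact h1.inter h2
  have hzU : z ∈ U := by
    obtain ⟨h1, h2⟩ := hz
    refine ⟨lt_of_le_of_ne h1 fun e => hzd (Or.inr ⟨e, h2⟩), lt_of_le_of_ne h2 fun e => hzd (Or.inl ⟨h1, e⟩)⟩
  have hUb : Bornology.IsBounded U := by
    refine (Metric.isBounded_iff_subset_closedBall 0).2 ⟨v1 + Real.arsinh |Real.tan θ| / Real.pi, ?_⟩
    intro v hv
    rw [mem_closedBall_zero_iff]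
    refine (Complex.norm_le_abs_re_add_abs_im v).trans (add_le_add hv.1.le ?_)
    exact (hv.2.le.trans (le_abs_self _)).trans (Lw3_bl_le θ _)
  have hclos : closure U ⊆ RR θ v1 := by
    refine closure_minimal (fun v hv => ⟨hv.1.le, hv.2.le⟩) ?_
    have h1 : IsClosed {v : ℂ | |v.re| ≤ v1} := isClosed_le (continuous_abs.comp continuous_re) continuous_const
    have h2 : IsClosed {v : ℂ | |v.im| ≤ bl θ v.re} :=
      isClosed_le (continuous_abs.comp continuous_im) (hbc.comp continuous_re)
    exact h1.inter h2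
  have hfr : frontier U ⊆ dRR θ v1 := by
    intro v hv
    rw [hUo.frontier_eq] at hv
    obtain ⟨h1, h2⟩ := hclos hv.1
    by_contra hcon
    exact hv.2 ⟨lt_of_le_of_ne h1 fun e => hcon (Or.inr ⟨e, h2⟩),
      lt_of_le_of_ne h2 fun e => hcon (Or.inl ⟨h1, e⟩)⟩
  have hg : Differentiable ℂ fun v => f v * exp (-(M * G v)) :=
    hf.mul ((hG.const_mul (M : ℂ)).neg.cexp)
  have hn : ∀ v, ‖f v * exp (-(M * G v))‖ = ‖f v‖ * Real.exp (-(M * (G v).re)) := by
    intro v
    rw [norm_mul, Complex.norm_exp]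
    congr 2
    simp
  have key := Complex.norm_le_of_forall_mem_frontier_norm_le hUb hg.diffContOnCl (C := K) (fun v hv => by
    rw [hn]
    have h1 := h v (hfr hv)
    calc ‖f v‖ * Real.exp (-(M * (G v).re)) ≤
        (K * Real.exp (M * (G v).re)) * Real.exp (-(M * (G v).re)) := by gcongr
      _ = K := by rw [mul_assoc, ← Real.exp_add, add_neg_cancel, Real.exp_zero, mul_one])
    (subset_closure hzU)
  rw [hn] at key
  calc ‖f z‖ = (‖f z‖ * Real.exp (-(M * (G z).re))) * Real.exp (M * (G z).re) := by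
        rw [mul_assoc, ← Real.exp_add, neg_add_cancel, Real.exp_zero, mul_one]
    _ ≤ K * Real.exp (M * (G z).re) := by gcongr

/-- The maximum principle in several variables. -/
theorem maxp_multi {ι : Type*} [DecidableEq ι] {F : (ι → ℂ) → ℂ} {G : ι → ℂ → ℂ} {θ v1 : ι → ℝ} (N : Finset ι)
    (hF : ∀ i ∈ N, ∀ z : ι → ℂ, Differentiable ℂ fun ζ => F (Function.update z i ζ))
    (hG : ∀ i ∈ N, Differentiable ℂ (G i)) {K M : ℝ} (w : ι → ℂ)
    (h : ∀ z : ι → ℂ, (∀ i ∈ N, z i ∈ dRR (θ i) (v1 i)) → (∀ i ∉ N, z i = w i) →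
      ‖F z‖ ≤ K * Real.exp (M * ∑ i ∈ N, (G i (z i)).re))
    {z : ι → ℂ} (hz : ∀ i ∈ N, z i ∈ RR (θ i) (v1 i)) (hw : ∀ i ∉ N, z i = w i) :
    ‖F z‖ ≤ K * Real.exp (M * ∑ i ∈ N, (G i (z i)).re) := by
  -- the points of `T` are in the region, the others on the boundary
  have key : ∀ T : Finset ι, T ⊆ N → ∀ z : ι → ℂ, (∀ i ∈ T, z i ∈ RR (θ i) (v1 i)) →
      (∀ i ∈ N, i ∉ T → z i ∈ dRR (θ i) (v1 i)) → (∀ i ∉ N, z i = w i) →
      ‖F z‖ ≤ K * Real.exp (M * ∑ i ∈ N, (G i (z i)).re) := by
    intro T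
    induction T using Finset.induction_on with
    | empty =>
      intro _ z _ h2 h3
      exact h z (fun i hi => h2 i hi (Finset.notMem_empty i)) h3
    | insert a T ha ih =>
      intro hT z h1 h2 h3
      have haN : a ∈ N := hT (Finset.mem_insert_self a T)
      have hTN : T ⊆ N := fun i hi => hT (Finset.mem_insert_of_mem hi)
      set S : ℝ := ∑ i ∈ N.erase a, (G i (z i)).re with hS
      have hsum : ∀ ζ : ℂ, ∑ i ∈ N, (G i (Function.update z a ζ i)).re = (G a ζ).re + S := by
        intro ζ
        rw [← Finset.add_sum_erase N _ haN, Function.update_self]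
        congr 1
        refine Finset.sum_congr rfl fun i hi => ?_
        rw [Function.update_of_ne (Finset.ne_of_mem_erase hi)]
      have hb : ∀ ζ ∈ dRR (θ a) (v1 a), ‖F (Function.update z a ζ)‖ ≤
          (K * Real.exp (M * S)) * Real.exp (M * (G a ζ).re) := by
        intro ζ hζ
        have h4 := ih hTN (Function.update z a ζ) (fun i hi => by
            have hia : i ≠ a := fun e => ha (e ▸ hi)
            rw [Function.update_of_ne hia]
            exact h1 i (Finset.mem_insert_of_mem hi)) (fun i hi hiT => by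
            by_cases hia : i = a
            · subst hia
              rw [Function.update_self]
              exact hζ
            · rw [Function.update_of_ne hia]
              exact h2 i hi (by simp [hia, hiT])) (fun i hi => by
            have hia : i ≠ a := fun e => hi (e ▸ haN)
            rw [Function.update_of_ne hia]
            exact h3 i hi)
        rw [hsum] at h4
        refine h4.trans (le_of_eq ?_)
        rw [mul_assoc, ← Real.exp_add]
        congr 2
        ring
      have h5 := maxp (hF a haN z) (hG a haN) hb (h1 a (Finset.mem_insert_self a T))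
      rw [Function.update_eq_self] at h5
      refine h5.trans (le_of_eq ?_)
      have h6 := hsum (z a)
      rw [Function.update_eq_self] at h6
      rw [h6, mul_assoc, ← Real.exp_add]
      congr 2
      ring
  exact key N (Finset.Subset.refl N) z hz (fun i hi hi' => absurd hi hi') hw

end Pool.Agent.S3
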