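import Mathlib

/-!
# Intervals of nonnegative reals, by kernel evaluation

End points are natural numbers, in units of `2 ^ (-30)`; all operations are `Nat` operations, which
the kernel evaluates quickly (several times faster than the integers of `S3/IA.lean`). Signed
quantities are written as differences of two nonnegative ones.
-/

set_option autoImplicit false

namespace Pool.Agent.S3.NI

/-- An interval. -/
structure N where
  lo : ℕ
  hi : ℕ

/-- `x` lies in the interval. -/
def Mem (x : ℝ) (A : N) : Prop := (A.lo : ℝ) ≤ x * 1073741824 ∧ x * 1073741824 ≤ (A.hi : ℝ)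

def one : N := ⟨1073741824, 1073741824⟩
def two : N := ⟨2147483648, 2147483648⟩

def N.add (A B : N) : N := ⟨Nat.add A.lo B.lo, Nat.add A.hi B.hi⟩
/-- difference (truncated at `0`). -/
def N.sub (A B : N) : N := ⟨Nat.sub A.lo B.hi, Nat.sub A.hi B.lo⟩
def mx (a b : ℕ) : ℕ := bif Nat.ble a b then b else a
def mn (a b : ℕ) : ℕ := bif Nat.ble a b then a else b
/-- absolute value of the difference. -/
def N.ad (A B : N) : N := ⟨Nat.add (Nat.sub A.lo B.hi) (Nat.sub B.lo A.hi),
  mx (Nat.sub A.hi B.lo) (Nat.sub B.hi A.lo)⟩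
def N.mul (A B : N) : N := ⟨Nat.div (Nat.mul A.lo B.lo) 1073741824,
  Nat.succ (Nat.div (Nat.mul A.hi B.hi) 1073741824)⟩
def N.sq (A : N) : N := ⟨Nat.div (Nat.mul A.lo A.lo) 1073741824,
  Nat.succ (Nat.div (Nat.mul A.hi A.hi) 1073741824)⟩
/-- inverse of a positive interval. -/
def N.inv (A : N) : N := ⟨Nat.div 1152921504606846976 A.hi,
  Nat.succ (Nat.div 1152921504606846976 A.lo)⟩
/-- multiplication by a number. -/
def N.sm (n : ℕ) (A : N) : N := ⟨Nat.mul n A.lo, Nat.mul n A.hi⟩
/-- division by a number. -/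
def N.dv (A : N) (n : ℕ) : N := ⟨Nat.div A.lo n, Nat.succ (Nat.div A.hi n)⟩

/-- `x < y` for all `x ∈ A`, `y ∈ B`. -/
def N.lt (A B : N) : Bool := Nat.ble (Nat.succ A.hi) B.lo
def N.le (A B : N) : Bool := Nat.ble A.hi B.lo
def N.ps (A : N) : Bool := Nat.ble 1 A.lo

/-- A rational constant. -/
def cst (n d : ℕ) : N := ⟨Nat.div (Nat.mul n 1073741824) d, Nat.succ (Nat.div (Nat.mul n 1073741824) d)⟩
/-- The interval from `a / d` to `b / d`. -/
def rng (a b d : ℕ) : N := ⟨Nat.div (Nat.mul a 1073741824) d,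
  Nat.succ (Nat.div (Nat.mul b 1073741824) d)⟩

theorem nat_div_le (n d : ℕ) : ((Nat.div n d : ℕ) : ℝ) ≤ (n : ℝ) / d := Nat.cast_div_le

theorem le_succ_div (n : ℕ) {d : ℕ} (hd : 0 < d) :
    (n : ℝ) / d ≤ ((Nat.succ (Nat.div n d) : ℕ) : ℝ) := by
  have h : n < d * (Nat.succ (Nat.div n d)) := Nat.lt_mul_div_succ n hd
  have h' : (n : ℝ) < d * ((Nat.succ (Nat.div n d) : ℕ) : ℝ) := by exact_mod_cast h
  have hd' : (0 : ℝ) < d := by exact_mod_cast hd
  rw [div_le_iff₀ hd']
  linarith

section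

variable {x y : ℝ} {A B : N}

theorem Mem.nonneg (h : Mem x A) : 0 ≤ x := by
  have := h.1
  have h2 : (0 : ℝ) ≤ A.lo := A.lo.cast_nonneg
  nlinarith

theorem mem_one : Mem 1 one := by constructor <;> norm_num [one]

theorem mem_two : Mem 2 two := by constructor <;> norm_num [two]

theorem Mem.add (h1 : Mem x A) (h2 : Mem y B) : Mem (x + y) (A.add B) := by
  constructor
  · show ((A.lo + B.lo : ℕ) : ℝ) ≤ _
    push_cast
    linarith [h1.1, h2.1]
  · show _ ≤ ((A.hi + B.hi : ℕ) : ℝ)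
    push_cast
    linarith [h1.2, h2.2]

theorem nsub_le {a b : ℕ} {u : ℝ} (h : (a : ℝ) - b ≤ u) (hu : 0 ≤ u) : ((Nat.sub a b : ℕ) : ℝ) ≤ u := by
  rcases le_total b a with hb | hb
  · have e : ((Nat.sub a b : ℕ) : ℝ) = (a : ℝ) - b := Nat.cast_sub hb
    rw [e]
    exact h
  · have e : Nat.sub a b = 0 := Nat.sub_eq_zero_of_le hb
    rw [e]
    exact_mod_cast hu

theorem le_nsub {a b : ℕ} {u : ℝ} (h : u ≤ (a : ℝ) - b) : u ≤ ((Nat.sub a b : ℕ) : ℝ) := by
  rcases le_total b a with hb | hb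
  · have e : ((Nat.sub a b : ℕ) : ℝ) = (a : ℝ) - b := Nat.cast_sub hb
    rw [e]
    exact h
  · have : (a : ℝ) ≤ b := by exact_mod_cast hb
    have h2 : (0 : ℝ) ≤ ((Nat.sub a b : ℕ) : ℝ) := Nat.cast_nonneg _
    linarith

theorem Mem.sub (h1 : Mem x A) (h2 : Mem y B) (hxy : y ≤ x) : Mem (x - y) (A.sub B) := by
  constructor
  · exact nsub_le (by linarith [h1.1, h2.2]) (by nlinarith)
  · exact le_nsub (by linarith [h1.2, h2.1])

theorem le_mx {a b : ℕ} : a ≤ mx a b ∧ b ≤ mx a b := by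
  unfold mx
  rcases h : Nat.ble a b with _ | _
  · simp only [cond_false]
    have : ¬ a ≤ b := fun hc => by
      rw [← Nat.ble_eq, h] at hc
      exact absurd hc (by decide)
    omega
  · simp only [cond_true]
    rw [Nat.ble_eq] at h
    omega

theorem mn_le {a b : ℕ} : mn a b ≤ a ∧ mn a b ≤ b := by
  unfold mn
  rcases h : Nat.ble a b with _ | _
  · simp only [cond_false]
    have : ¬ a ≤ b := fun hc => by
      rw [← Nat.ble_eq, h] at hc
      exact absurd hc (by decide)
    omega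
  · simp only [cond_true]
    rw [Nat.ble_eq] at h
    omega

theorem mx_cases (a b : ℕ) : mx a b = a ∨ mx a b = b := by
  unfold mx
  rcases Nat.ble a b with _ | _
  · exact Or.inl rfl
  · exact Or.inr rfl

theorem Mem.ad (h1 : Mem x A) (h2 : Mem y B) : Mem |x - y| (A.ad B) := by
  have hU : (0 : ℝ) < 1073741824 := by norm_num
  have a1 := h1.1
  have a2 := h1.2
  have b1 := h2.1
  have b2 := h2.2
  constructor
  · show ((Nat.sub A.lo B.hi + Nat.sub B.lo A.hi : ℕ) : ℝ) ≤ _
    push_cast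
    rcases le_total y x with h | h
    · rw [abs_of_nonneg (by linarith)]
      have e : Nat.sub B.lo A.hi = 0 := by
        apply Nat.sub_eq_zero_of_le
        have : (B.lo : ℝ) ≤ A.hi := by nlinarith
        exact_mod_cast this
      have k := nsub_le (a := A.lo) (b := B.hi) (u := (x - y) * 1073741824) (by linarith)
        (by nlinarith)
      have e2 : B.lo - A.hi = 0 := e
      have k2 : ((A.lo - B.hi : ℕ) : ℝ) ≤ (x - y) * 1073741824 := k
      change ((A.lo - B.hi : ℕ) : ℝ) + ((B.lo - A.hi : ℕ) : ℝ) ≤ _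
      rw [e2]
      push_cast
      linarith
    · rw [abs_of_nonpos (by linarith)]
      have e : Nat.sub A.lo B.hi = 0 := by
        apply Nat.sub_eq_zero_of_le
        have : (A.lo : ℝ) ≤ B.hi := by nlinarith
        exact_mod_cast this
      have k := nsub_le (a := B.lo) (b := A.hi) (u := -(x - y) * 1073741824) (by linarith)
        (by nlinarith)
      have e2 : A.lo - B.hi = 0 := e
      have k2 : ((B.lo - A.hi : ℕ) : ℝ) ≤ -(x - y) * 1073741824 := k
      change ((A.lo - B.hi : ℕ) : ℝ) + ((B.lo - A.hi : ℕ) : ℝ) ≤ _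
      rw [e2]
      push_cast
      linarith
  · show _ ≤ ((mx (Nat.sub A.hi B.lo) (Nat.sub B.hi A.lo) : ℕ) : ℝ)
    obtain ⟨m1, m2⟩ := le_mx (a := Nat.sub A.hi B.lo) (b := Nat.sub B.hi A.lo)
    have m1' : ((Nat.sub A.hi B.lo : ℕ) : ℝ) ≤ ((mx (Nat.sub A.hi B.lo) (Nat.sub B.hi A.lo) : ℕ) : ℝ) := by
      exact_mod_cast m1
    have m2' : ((Nat.sub B.hi A.lo : ℕ) : ℝ) ≤ ((mx (Nat.sub A.hi B.lo) (Nat.sub B.hi A.lo) : ℕ) : ℝ) := by
      exact_mod_cast m2
    rcases le_total y x with h | h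
    · rw [abs_of_nonneg (by linarith)]
      exact (le_nsub (by linarith)).trans m1'
    · rw [abs_of_nonpos (by linarith)]
      exact (le_nsub (by linarith)).trans m2'

theorem Mem.mul (h1 : Mem x A) (h2 : Mem y B) : Mem (x * y) (A.mul B) := by
  have a0 : (0 : ℝ) ≤ A.lo := A.lo.cast_nonneg
  have b0 : (0 : ℝ) ≤ B.lo := B.lo.cast_nonneg
  constructor
  · show ((Nat.div (A.lo * B.lo) 1073741824 : ℕ) : ℝ) ≤ _
    refine (nat_div_le _ _).trans ?_
    push_cast
    rw [div_le_iff₀ (by norm_num)]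
    nlinarith [mul_le_mul h1.1 h2.1 b0 (a0.trans h1.1)]
  · show _ ≤ ((Nat.succ (Nat.div (A.hi * B.hi) 1073741824) : ℕ) : ℝ)
    refine le_trans ?_ (le_succ_div _ (by norm_num))
    push_cast
    rw [le_div_iff₀ (by norm_num)]
    nlinarith [mul_le_mul h1.2 h2.2 (b0.trans h2.1) (a0.trans (h1.1.trans h1.2))]

theorem Mem.sq (h1 : Mem x A) : Mem (x ^ 2) A.sq := by
  rw [_root_.sq]
  exact h1.mul h1

theorem Mem.sq_abs (h1 : Mem |x| A) : Mem (x ^ 2) A.sq := by
  rw [← _root_.sq_abs]
  exact h1.sq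

theorem Mem.pos (h1 : Mem x A) (h : A.ps = true) : 0 < x := by
  have h2 : 1 ≤ A.lo := by unfold N.ps at h; rwa [Nat.ble_eq] at h
  have h3 : (1 : ℝ) ≤ A.lo := by exact_mod_cast h2
  have := h1.1
  by_contra hc
  push Not at hc
  nlinarith

theorem Mem.inv (h1 : Mem x A) (h : A.ps = true) : Mem x⁻¹ A.inv := by
  have hx := h1.pos h
  have h2 : 1 ≤ A.lo := by unfold N.ps at h; rwa [Nat.ble_eq] at h
  have h3 : (1 : ℝ) ≤ A.lo := by exact_mod_cast h2
  have h4 : (1 : ℝ) ≤ A.hi := h3.trans (h1.1.trans h1.2)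
  constructor
  · show ((Nat.div 1152921504606846976 A.hi : ℕ) : ℝ) ≤ _
    refine (nat_div_le _ _).trans ?_
    push_cast
    rw [div_le_iff₀ (by linarith), inv_mul_eq_div, div_mul_eq_mul_div, le_div_iff₀ hx]
    nlinarith [h1.2]
  · show _ ≤ ((Nat.succ (Nat.div 1152921504606846976 A.lo) : ℕ) : ℝ)
    refine le_trans ?_ (le_succ_div _ (by omega))
    push_cast
    rw [le_div_iff₀ (by linarith), inv_mul_eq_div, div_mul_eq_mul_div, div_le_iff₀ hx]
    nlinarith [h1.1]

theorem Mem.sm (n : ℕ) (h1 : Mem x A) : Mem (n * x) (N.sm n A) := by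
  have hn : (0 : ℝ) ≤ n := n.cast_nonneg
  constructor
  · show ((n * A.lo : ℕ) : ℝ) ≤ _
    push_cast
    nlinarith [mul_le_mul_of_nonneg_left h1.1 hn]
  · show _ ≤ ((n * A.hi : ℕ) : ℝ)
    push_cast
    nlinarith [mul_le_mul_of_nonneg_left h1.2 hn]

theorem Mem.dv {n : ℕ} (hn : 0 < n) (h1 : Mem x A) : Mem (x / n) (A.dv n) := by
  have hn' : (0 : ℝ) < n := by exact_mod_cast hn
  constructor
  · refine (nat_div_le _ _).trans ?_
    rw [div_mul_eq_mul_div]
    exact div_le_div_of_nonneg_right h1.1 hn'.le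
  · refine le_trans ?_ (le_succ_div _ hn)
    rw [div_mul_eq_mul_div]
    exact div_le_div_of_nonneg_right h1.2 hn'.le

theorem Mem.le (h1 : Mem x A) (h2 : Mem y B) (h : A.le B = true) : x ≤ y := by
  unfold N.le at h
  rw [Nat.ble_eq] at h
  have h' : (A.hi : ℝ) ≤ B.lo := by exact_mod_cast h
  nlinarith [h1.2, h2.1]

theorem Mem.lt (h1 : Mem x A) (h2 : Mem y B) (h : A.lt B = true) : x < y := by
  unfold N.lt at h
  rw [Nat.ble_eq] at h
  have h' : (A.hi : ℝ) + 1 ≤ B.lo := by exact_mod_cast h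
  nlinarith [h1.2, h2.1]

theorem mem_cst {n d : ℕ} (hd : 0 < d) : Mem ((n : ℝ) / d) (cst n d) := by
  have e0 : ∀ m : ℕ, ((Nat.mul n m : ℕ) : ℝ) = (n : ℝ) * m := fun m => Nat.cast_mul n m
  have e1 : ((1073741824 : ℕ) : ℝ) = 1073741824 := by norm_num
  have e : ((Nat.mul n 1073741824 : ℕ) : ℝ) = (n : ℝ) * 1073741824 :=
    (e0 1073741824).trans (congrArg (fun u : ℝ => (n : ℝ) * u) e1)
  constructor
  · refine (nat_div_le _ _).trans (le_of_eq ?_)
    rw [div_mul_eq_mul_div, e]
  · refine le_trans (le_of_eq ?_) (le_succ_div _ hd)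
    rw [div_mul_eq_mul_div, e]

theorem mem_rng {a b d : ℕ} (hd : 0 < d) (h1 : (a : ℝ) / d ≤ x) (h2 : x ≤ (b : ℝ) / d) :
    Mem x (rng a b d) := by
  have hU : (0 : ℝ) < 1073741824 := by norm_num
  constructor
  · have k := (mem_cst (n := a) hd).1
    unfold cst at k
    exact k.trans (mul_le_mul_of_nonneg_right h1 hU.le)
  · have k := (mem_cst (n := b) hd).2
    unfold cst at k
    exact (mul_le_mul_of_nonneg_right h2 hU.le).trans k

end

/-! ### Branch and bound -/

def N.mid (A : N) : ℕ := Nat.div (Nat.add A.lo A.hi) 2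
def N.lf (A : N) : N := ⟨A.lo, A.mid⟩
def N.rt (A : N) : N := ⟨A.mid, A.hi⟩

theorem Mem.split {x : ℝ} {A : N} (h : Mem x A) : Mem x A.lf ∨ Mem x A.rt := by
  rcases le_total (x * 1073741824) (A.mid : ℝ) with h1 | h1
  · exact Or.inl ⟨h.1, h1⟩
  · exact Or.inr ⟨h1, h.2⟩

/-- Branch and bound over four variables; the list gives the coordinates to split. -/
def bb (test : N → N → N → N → Bool) : List ℕ → N → N → N → N → Bool
  | [], A, B, C, D => test A B C D
  | k :: ks, A, B, C, D => test A B C D ||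
      match k with
      | 0 => bb test ks A.lf B C D && bb test ks A.rt B C D
      | 1 => bb test ks A B.lf C D && bb test ks A B.rt C D
      | 2 => bb test ks A B C.lf D && bb test ks A B C.rt D
      | _ => bb test ks A B C D.lf && bb test ks A B C D.rt

theorem bb_sound {test : N → N → N → N → Bool} {P : ℝ → ℝ → ℝ → ℝ → Prop}
    (hs : ∀ A B C D, test A B C D = true → ∀ a b c d, Mem a A → Mem b B → Mem c C → Mem d D →
      P a b c d) (l : List ℕ) :
    ∀ A B C D, bb test l A B C D = true → ∀ a b c d, Mem a A → Mem b B → Mem c C → Mem d D →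
      P a b c d := by
  induction l with
  | nil => intro A B C D h; exact hs A B C D h
  | cons k ks ih =>
    intro A B C D h a b c d ha hb hc hd
    rcases k with _ | _ | _ | k
    · have h : (test A B C D || (bb test ks A.lf B C D && bb test ks A.rt B C D)) = true := h
      rw [Bool.or_eq_true, Bool.and_eq_true] at h
      rcases h with h | h
      · exact hs A B C D h a b c d ha hb hc hd
      · rcases ha.split with h1 | h1
        · exact ih _ _ _ _ h.1 a b c d h1 hb hc hd
        · exact ih _ _ _ _ h.2 a b c d h1 hb hc hd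
    · have h : (test A B C D || (bb test ks A B.lf C D && bb test ks A B.rt C D)) = true := h
      rw [Bool.or_eq_true, Bool.and_eq_true] at h
      rcases h with h | h
      · exact hs A B C D h a b c d ha hb hc hd
      · rcases hb.split with h1 | h1
        · exact ih _ _ _ _ h.1 a b c d ha h1 hc hd
        · exact ih _ _ _ _ h.2 a b c d ha h1 hc hd
    · have h : (test A B C D || (bb test ks A B C.lf D && bb test ks A B C.rt D)) = true := h
      rw [Bool.or_eq_true, Bool.and_eq_true] at h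
      rcases h with h | h
      · exact hs A B C D h a b c d ha hb hc hd
      · rcases hc.split with h1 | h1
        · exact ih _ _ _ _ h.1 a b c d ha hb h1 hd
        · exact ih _ _ _ _ h.2 a b c d ha hb h1 hd
    · have h : (test A B C D || (bb test ks A B C D.lf && bb test ks A B C D.rt)) = true := h
      rw [Bool.or_eq_true, Bool.and_eq_true] at h
      rcases h with h | h
      · exact hs A B C D h a b c d ha hb hc hd
      · rcases hd.split with h1 | h1
        · exact ih _ _ _ _ h.1 a b c d ha hb hc h1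
        · exact ih _ _ _ _ h.2 a b c d ha hb hc h1

end Pool.Agent.S3.NI
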