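import Pool.Agent.S3.NIW

/-!
# Certificates in pieces

One kernel evaluation with `n` boxes needs memory proportional to `n`; the boxes are therefore
divided among several theorems.
-/

set_option autoImplicit false

namespace Pool.Agent.S3.NI

/-- `Q` on a box of four intervals. -/
def Bx4 (Q : ℝ → ℝ → ℝ → ℝ → Prop) (A B C D : N) : Prop :=
  ∀ a b c d, Mem a A → Mem b B → Mem c C → Mem d D → Q a b c d

/-- `Q` on a box of three intervals. -/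
def Bx3 (Q : ℝ → ℝ → ℝ → Prop) (A B C : N) : Prop :=
  ∀ a b c, Mem a A → Mem b B → Mem c C → Q a b c

theorem Mem.sp {x : ℝ} {l m h : ℕ} (hx : Mem x ⟨l, h⟩) : Mem x ⟨l, m⟩ ∨ Mem x ⟨m, h⟩ := by
  rcases le_total (x * 1073741824) (m : ℝ) with k | k
  · exact Or.inl ⟨hx.1, k⟩
  · exact Or.inr ⟨k, hx.2⟩

theorem Bx4.a {Q : ℝ → ℝ → ℝ → ℝ → Prop} {l m h : ℕ} {B C D : N} (h1 : Bx4 Q ⟨l, m⟩ B C D)
    (h2 : Bx4 Q ⟨m, h⟩ B C D) : Bx4 Q ⟨l, h⟩ B C D := fun a b c d ha hb hc hd =>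
  ha.sp.elim (fun k => h1 a b c d k hb hc hd) (fun k => h2 a b c d k hb hc hd)

theorem Bx4.b {Q : ℝ → ℝ → ℝ → ℝ → Prop} {l m h : ℕ} {A C D : N} (h1 : Bx4 Q A ⟨l, m⟩ C D)
    (h2 : Bx4 Q A ⟨m, h⟩ C D) : Bx4 Q A ⟨l, h⟩ C D := fun a b c d ha hb hc hd =>
  hb.sp.elim (fun k => h1 a b c d ha k hc hd) (fun k => h2 a b c d ha k hc hd)

theorem Bx4.c {Q : ℝ → ℝ → ℝ → ℝ → Prop} {l m h : ℕ} {A B D : N} (h1 : Bx4 Q A B ⟨l, m⟩ D)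
    (h2 : Bx4 Q A B ⟨m, h⟩ D) : Bx4 Q A B ⟨l, h⟩ D := fun a b c d ha hb hc hd =>
  hc.sp.elim (fun k => h1 a b c d ha hb k hd) (fun k => h2 a b c d ha hb k hd)

theorem Bx4.d {Q : ℝ → ℝ → ℝ → ℝ → Prop} {l m h : ℕ} {A B C : N} (h1 : Bx4 Q A B C ⟨l, m⟩)
    (h2 : Bx4 Q A B C ⟨m, h⟩) : Bx4 Q A B C ⟨l, h⟩ := fun a b c d ha hb hc hd =>
  hd.sp.elim (fun k => h1 a b c d ha hb hc k) (fun k => h2 a b c d ha hb hc k)

theorem Bx3.a {Q : ℝ → ℝ → ℝ → Prop} {l m h : ℕ} {B C : N} (h1 : Bx3 Q ⟨l, m⟩ B C)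
    (h2 : Bx3 Q ⟨m, h⟩ B C) : Bx3 Q ⟨l, h⟩ B C := fun a b c ha hb hc =>
  ha.sp.elim (fun k => h1 a b c k hb hc) (fun k => h2 a b c k hb hc)

theorem Bx3.b {Q : ℝ → ℝ → ℝ → Prop} {l m h : ℕ} {A C : N} (h1 : Bx3 Q A ⟨l, m⟩ C)
    (h2 : Bx3 Q A ⟨m, h⟩ C) : Bx3 Q A ⟨l, h⟩ C := fun a b c ha hb hc =>
  hb.sp.elim (fun k => h1 a b c ha k hc) (fun k => h2 a b c ha k hc)

theorem Bx3.c {Q : ℝ → ℝ → ℝ → Prop} {l m h : ℕ} {A B : N} (h1 : Bx3 Q A B ⟨l, m⟩)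
    (h2 : Bx3 Q A B ⟨m, h⟩) : Bx3 Q A B ⟨l, h⟩ := fun a b c ha hb hc =>
  hc.sp.elim (fun k => h1 a b c ha hb k) (fun k => h2 a b c ha hb k)

/-- From a weighted branch and bound. -/
theorem Bx4.of_bbw {test : N → N → N → N → Bool} {Q : ℝ → ℝ → ℝ → ℝ → Prop}
    (hs : ∀ A B C D, test A B C D = true → Bx4 Q A B C D) {w0 w1 w2 w3 n : ℕ} {A B C D : N}
    (h : bbw test w0 w1 w2 w3 n A B C D = true) : Bx4 Q A B C D :=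
  bbw_sound hs w0 w1 w2 w3 n A B C D h

theorem Bx4.of_bb {test : N → N → N → N → Bool} {Q : ℝ → ℝ → ℝ → ℝ → Prop}
    (hs : ∀ A B C D, test A B C D = true → Bx4 Q A B C D) {L : List ℕ} {A B C D : N}
    (h : bb test L A B C D = true) : Bx4 Q A B C D :=
  bb_sound hs L A B C D h

theorem Bx3.of_bbw3 {test : N → N → N → Bool} {Q : ℝ → ℝ → ℝ → Prop}
    (hs : ∀ A B C, test A B C = true → Bx3 Q A B C) {w0 w1 w2 n : ℕ} {A B C : N}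
    (h : bbw3 test w0 w1 w2 n A B C = true) : Bx3 Q A B C :=
  bbw3_sound hs w0 w1 w2 n A B C h

end Pool.Agent.S3.NI
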