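import Pool.Agent.S3.NI

/-!
# Branch and bound with weighted widths

At each step the coordinate with the largest weighted width is halved.
-/

set_option autoImplicit false

namespace Pool.Agent.S3.NI

/-- weighted width -/
def N.ww (w : ℕ) (A : N) : ℕ := Nat.mul w (Nat.sub A.hi A.lo)

/-- Branch and bound over four variables. -/
def bbw (test : N → N → N → N → Bool) (w0 w1 w2 w3 : ℕ) : ℕ → N → N → N → N → Bool
  | 0, A, B, C, D => test A B C D
  | n + 1, A, B, C, D => test A B C D ||
    (bif Nat.ble (N.ww w2 C) (N.ww w3 D) then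
      (bif Nat.ble (N.ww w0 A) (N.ww w1 B) then
        (bif Nat.ble (N.ww w1 B) (N.ww w3 D) then
          (bbw test w0 w1 w2 w3 n A B C D.lf && bbw test w0 w1 w2 w3 n A B C D.rt)
        else
          (bbw test w0 w1 w2 w3 n A B.lf C D && bbw test w0 w1 w2 w3 n A B.rt C D))
      else
        (bif Nat.ble (N.ww w0 A) (N.ww w3 D) then
          (bbw test w0 w1 w2 w3 n A B C D.lf && bbw test w0 w1 w2 w3 n A B C D.rt)
        else
          (bbw test w0 w1 w2 w3 n A.lf B C D && bbw test w0 w1 w2 w3 n A.rt B C D)))
    else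
      (bif Nat.ble (N.ww w0 A) (N.ww w1 B) then
        (bif Nat.ble (N.ww w1 B) (N.ww w2 C) then
          (bbw test w0 w1 w2 w3 n A B C.lf D && bbw test w0 w1 w2 w3 n A B C.rt D)
        else
          (bbw test w0 w1 w2 w3 n A B.lf C D && bbw test w0 w1 w2 w3 n A B.rt C D))
      else
        (bif Nat.ble (N.ww w0 A) (N.ww w2 C) then
          (bbw test w0 w1 w2 w3 n A B C.lf D && bbw test w0 w1 w2 w3 n A B C.rt D)
        else
          (bbw test w0 w1 w2 w3 n A.lf B C D && bbw test w0 w1 w2 w3 n A.rt B C D))))

theorem cond_or {c : Bool} {x y : Bool} (h : (bif c then x else y) = true) :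
    x = true ∨ y = true := by
  cases c
  · exact Or.inr h
  · exact Or.inl h

theorem bbw_sound {test : N → N → N → N → Bool} {P : ℝ → ℝ → ℝ → ℝ → Prop}
    (hs : ∀ A B C D, test A B C D = true → ∀ a b c d, Mem a A → Mem b B → Mem c C → Mem d D →
      P a b c d) (w0 w1 w2 w3 n : ℕ) :
    ∀ A B C D, bbw test w0 w1 w2 w3 n A B C D = true → ∀ a b c d, Mem a A → Mem b B → Mem c C →
      Mem d D → P a b c d := by
  induction n with
  | zero => intro A B C D h; exact hs A B C D h
  | succ n ih =>
    intro A B C D h a b c d ha hb hc hd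
    have hA : (bbw test w0 w1 w2 w3 n A.lf B C D && bbw test w0 w1 w2 w3 n A.rt B C D) = true →
        P a b c d := by
      intro h
      rw [Bool.and_eq_true] at h
      rcases ha.split with h1 | h1
      · exact ih _ _ _ _ h.1 a b c d h1 hb hc hd
      · exact ih _ _ _ _ h.2 a b c d h1 hb hc hd
    have hB : (bbw test w0 w1 w2 w3 n A B.lf C D && bbw test w0 w1 w2 w3 n A B.rt C D) = true →
        P a b c d := by
      intro h
      rw [Bool.and_eq_true] at h
      rcases hb.split with h1 | h1
      · exact ih _ _ _ _ h.1 a b c d ha h1 hc hd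
      · exact ih _ _ _ _ h.2 a b c d ha h1 hc hd
    have hC : (bbw test w0 w1 w2 w3 n A B C.lf D && bbw test w0 w1 w2 w3 n A B C.rt D) = true →
        P a b c d := by
      intro h
      rw [Bool.and_eq_true] at h
      rcases hc.split with h1 | h1
      · exact ih _ _ _ _ h.1 a b c d ha hb h1 hd
      · exact ih _ _ _ _ h.2 a b c d ha hb h1 hd
    have hD : (bbw test w0 w1 w2 w3 n A B C D.lf && bbw test w0 w1 w2 w3 n A B C D.rt) = true →
        P a b c d := by
      intro h
      rw [Bool.and_eq_true] at h
      rcases hd.split with h1 | h1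
      · exact ih _ _ _ _ h.1 a b c d ha hb hc h1
      · exact ih _ _ _ _ h.2 a b c d ha hb hc h1
    rw [bbw, Bool.or_eq_true] at h
    rcases h with h | h
    · exact hs A B C D h a b c d ha hb hc hd
    · rcases cond_or h with h | h
      · rcases cond_or h with h | h
        · exact (cond_or h).elim hD hB
        · exact (cond_or h).elim hD hA
      · rcases cond_or h with h | h
        · exact (cond_or h).elim hC hB
        · exact (cond_or h).elim hC hA

/-- Branch and bound over three variables. -/
def bbw3 (test : N → N → N → Bool) (w0 w1 w2 : ℕ) : ℕ → N → N → N → Bool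
  | 0, A, B, C => test A B C
  | n + 1, A, B, C => test A B C ||
    (bif Nat.ble (N.ww w0 A) (N.ww w1 B) then
      (bif Nat.ble (N.ww w1 B) (N.ww w2 C) then
        (bbw3 test w0 w1 w2 n A B C.lf && bbw3 test w0 w1 w2 n A B C.rt)
      else
        (bbw3 test w0 w1 w2 n A B.lf C && bbw3 test w0 w1 w2 n A B.rt C))
    else
      (bif Nat.ble (N.ww w0 A) (N.ww w2 C) then
        (bbw3 test w0 w1 w2 n A B C.lf && bbw3 test w0 w1 w2 n A B C.rt)
      else
        (bbw3 test w0 w1 w2 n A.lf B C && bbw3 test w0 w1 w2 n A.rt B C)))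

theorem bbw3_sound {test : N → N → N → Bool} {P : ℝ → ℝ → ℝ → Prop}
    (hs : ∀ A B C, test A B C = true → ∀ a b c, Mem a A → Mem b B → Mem c C → P a b c)
    (w0 w1 w2 n : ℕ) :
    ∀ A B C, bbw3 test w0 w1 w2 n A B C = true → ∀ a b c, Mem a A → Mem b B → Mem c C →
      P a b c := by
  induction n with
  | zero => intro A B C h; exact hs A B C h
  | succ n ih =>
    intro A B C h a b c ha hb hc
    have hA : (bbw3 test w0 w1 w2 n A.lf B C && bbw3 test w0 w1 w2 n A.rt B C) = true →
        P a b c := by
      intro h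
      rw [Bool.and_eq_true] at h
      rcases ha.split with h1 | h1
      · exact ih _ _ _ h.1 a b c h1 hb hc
      · exact ih _ _ _ h.2 a b c h1 hb hc
    have hB : (bbw3 test w0 w1 w2 n A B.lf C && bbw3 test w0 w1 w2 n A B.rt C) = true →
        P a b c := by
      intro h
      rw [Bool.and_eq_true] at h
      rcases hb.split with h1 | h1
      · exact ih _ _ _ h.1 a b c ha h1 hc
      · exact ih _ _ _ h.2 a b c ha h1 hc
    have hC : (bbw3 test w0 w1 w2 n A B C.lf && bbw3 test w0 w1 w2 n A B C.rt) = true →
        P a b c := by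
      intro h
      rw [Bool.and_eq_true] at h
      rcases hc.split with h1 | h1
      · exact ih _ _ _ h.1 a b c ha hb h1
      · exact ih _ _ _ h.2 a b c ha hb h1
    rw [bbw3, Bool.or_eq_true] at h
    rcases h with h | h
    · exact hs A B C h a b c ha hb hc
    · rcases cond_or h with h | h
      · exact (cond_or h).elim hC hB
      · exact (cond_or h).elim hC hA

end Pool.Agent.S3.NI
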