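import Mathlib

/-!
# Stage 3: the phase function `arg cosh (x + i t)`

`aa x t = arctan (tanh x * tan t)` for `|t| < π / 2`.
-/

namespace Pool.Agent.S3

open Real

/-- `arg (cosh (x + i t))` for `|t| < π / 2`. -/
noncomputable def aa (x t : ℝ) : ℝ := arctan (tanh x * tan t)

/-- `|cosh (x + i t)|²`. -/
noncomputable def nc (x t : ℝ) : ℝ := sinh x ^ 2 + cos t ^ 2

theorem tanh_lt_one' (x : ℝ) : tanh x < 1 := by
  rw [tanh_eq_sinh_div_cosh, div_lt_one (cosh_pos x)]
  have := Real.sinh_lt_cosh x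
  exact this

theorem tanh_nonneg' {x : ℝ} (h : 0 ≤ x) : 0 ≤ tanh x := by
  rw [tanh_eq_sinh_div_cosh]
  exact div_nonneg (sinh_nonneg_iff.2 h) (cosh_pos x).le

theorem abs_tanh_lt_one' (x : ℝ) : |tanh x| < 1 := by
  rw [abs_lt]
  constructor
  · have := tanh_lt_one' (-x)
    rw [tanh_neg] at this
    linarith
  · exact tanh_lt_one' x

theorem tanh_mono' : Monotone tanh := by
  intro x y h
  rw [tanh_eq_sinh_div_cosh, tanh_eq_sinh_div_cosh, div_le_div_iff₀ (cosh_pos x) (cosh_pos y)]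
  have := sinh_nonneg_iff.2 (sub_nonneg.2 h)
  rw [sinh_sub] at this
  linarith

@[simp] theorem aa_zero_left (t : ℝ) : aa 0 t = 0 := by simp [aa]

@[simp] theorem aa_zero_right (x : ℝ) : aa x 0 = 0 := by simp [aa]

theorem aa_neg_left (x t : ℝ) : aa (-x) t = -aa x t := by
  unfold aa
  rw [tanh_neg, neg_mul, arctan_neg]

theorem aa_neg_right (x t : ℝ) : aa x (-t) = -aa x t := by
  unfold aa
  rw [tan_neg, mul_neg, arctan_neg]

theorem tan_nonneg' {t : ℝ} (h0 : 0 ≤ t) (h1 : t < π / 2) : 0 ≤ tan t :=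
  tan_nonneg_of_nonneg_of_le_pi_div_two h0 h1.le

theorem aa_nonneg {x t : ℝ} (hx : 0 ≤ x) (h0 : 0 ≤ t) (h1 : t < π / 2) : 0 ≤ aa x t :=
  arctan_nonneg.2 (mul_nonneg (tanh_nonneg' hx) (tan_nonneg' h0 h1))

theorem aa_mono_left {t : ℝ} (h0 : 0 ≤ t) (h1 : t < π / 2) : Monotone (fun x => aa x t) :=
  fun _ _ h => arctan_mono (mul_le_mul_of_nonneg_right (tanh_mono' h) (tan_nonneg' h0 h1))

theorem aa_mono_right {x s t : ℝ} (hx : 0 ≤ x) (hs : -(π / 2) < s) (hst : s ≤ t) (ht : t < π / 2) :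
    aa x s ≤ aa x t :=
  arctan_mono (mul_le_mul_of_nonneg_left
    (strictMonoOn_tan.monotoneOn ⟨hs, lt_of_le_of_lt hst ht⟩ ⟨lt_of_lt_of_le hs hst, ht⟩ hst)
    (tanh_nonneg' hx))

theorem aa_lt_pi_div_two (x t : ℝ) : aa x t < π / 2 := arctan_lt_pi_div_two _

theorem neg_pi_div_two_lt_aa (x t : ℝ) : -(π / 2) < aa x t := neg_pi_div_two_lt_arctan _

theorem aa_le_self {t : ℝ} (x : ℝ) (h0 : 0 ≤ t) (h1 : t < π / 2) : aa x t ≤ t := by
  have h : tanh x * tan t ≤ tan t := by
    have := mul_le_mul_of_nonneg_right (tanh_lt_one' x).le (tan_nonneg' h0 h1)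
    linarith
  calc aa x t ≤ arctan (tan t) := arctan_mono h
    _ = t := arctan_tan (by linarith [pi_pos]) h1

theorem neg_self_le_aa {t : ℝ} (x : ℝ) (h0 : 0 ≤ t) (h1 : t < π / 2) : -t ≤ aa x t := by
  have := aa_le_self (-x) h0 h1
  rw [aa_neg_left] at this
  linarith

theorem abs_aa_le {t : ℝ} (x : ℝ) (h : |t| < π / 2) : |aa x t| ≤ |t| := by
  rcases le_total 0 t with h0 | h0
  · rw [abs_of_nonneg h0] at h ⊢
    exact abs_le.2 ⟨neg_self_le_aa x h0 h, aa_le_self x h0 h⟩
  · rw [abs_of_nonpos h0] at h ⊢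
    have h1 := neg_self_le_aa x (neg_nonneg.2 h0) h
    have h2 := aa_le_self x (neg_nonneg.2 h0) h
    rw [aa_neg_right] at h1 h2
    exact abs_le.2 ⟨by linarith, by linarith⟩

theorem cos_pos' {t : ℝ} (h : |t| < π / 2) : 0 < cos t :=
  cos_pos_of_mem_Ioo ⟨(abs_lt.1 h).1, (abs_lt.1 h).2⟩

theorem nc_eq (x t : ℝ) : nc x t = (cosh x * cos t) ^ 2 + (sinh x * sin t) ^ 2 := by
  have h1 := cosh_sq x
  have h2 := sin_sq_add_cos_sq t
  unfold nc
  have : (cosh x * cos t) ^ 2 + (sinh x * sin t) ^ 2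
      = cosh x ^ 2 * cos t ^ 2 + sinh x ^ 2 * sin t ^ 2 := by ring
  rw [this, h1]
  have h3 : sin t ^ 2 = 1 - cos t ^ 2 := by linarith
  rw [h3]; ring

theorem nc_eq' (x t : ℝ) : nc x t = (cosh (2 * x) + cos (2 * t)) / 2 := by
  unfold nc
  rw [cosh_two_mul, cos_two_mul, cosh_sq]
  ring

theorem nc_pos {x t : ℝ} (h : |t| < π / 2) : 0 < nc x t := by
  unfold nc
  have := cos_pos' h
  positivity

theorem hasDerivAt_tanh' (x : ℝ) : HasDerivAt tanh (1 - tanh x ^ 2) x := by
  have h : HasDerivAt (fun y => sinh y / cosh y)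
      ((cosh x * cosh x - sinh x * sinh x) / cosh x ^ 2) x :=
    (hasDerivAt_sinh x).div (hasDerivAt_cosh x) (cosh_pos x).ne'
  have e : (fun y => sinh y / cosh y) = tanh := by
    funext y; rw [tanh_eq_sinh_div_cosh]
  rw [e] at h
  convert h using 1
  rw [tanh_eq_sinh_div_cosh]
  have := (cosh_pos x).ne'
  field_simp

/-- derivative of `aa` in `x`. -/
theorem hasDerivAt_aa_left {x t : ℝ} (h : |t| < π / 2) :
    HasDerivAt (fun x => aa x t) (sin (2 * t) / (2 * nc x t)) x := by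
  have h1 : HasDerivAt (fun x => tanh x * tan t) ((1 - tanh x ^ 2) * tan t) x :=
    (hasDerivAt_tanh' x).mul_const _
  have h2 := h1.arctan
  refine h2.congr_deriv ?_
  have hc := (cos_pos' h).ne'
  have hch := (cosh_pos x).ne'
  have hn := (nc_pos (x := x) h).ne'
  have h4 : 1 + (tanh x * tan t) ^ 2 = nc x t / (cosh x * cos t) ^ 2 := by
    rw [nc_eq, tanh_eq_sinh_div_cosh, tan_eq_sin_div_cos]
    field_simp
  have h5 : (1 - tanh x ^ 2) = 1 / cosh x ^ 2 := by
    rw [tanh_eq_sinh_div_cosh]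
    field_simp
    rw [cosh_sq]; ring
  rw [h4, h5, sin_two_mul, tan_eq_sin_div_cos]
  field_simp

/-- derivative of `aa` in `t`. -/
theorem hasDerivAt_aa_right {x t : ℝ} (h : |t| < π / 2) :
    HasDerivAt (fun t => aa x t) (sinh (2 * x) / (2 * nc x t)) t := by
  have hc := (cos_pos' h).ne'
  have h1 : HasDerivAt (fun t => tanh x * tan t) (tanh x * (1 / cos t ^ 2)) t :=
    (hasDerivAt_tan hc).const_mul _
  have h2 := h1.arctan
  refine h2.congr_deriv ?_
  have hch := (cosh_pos x).ne'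
  have hn := (nc_pos (x := x) h).ne'
  have h4 : 1 + (tanh x * tan t) ^ 2 = nc x t / (cosh x * cos t) ^ 2 := by
    rw [nc_eq, tanh_eq_sinh_div_cosh, tan_eq_sin_div_cos]
    field_simp
  rw [h4, sinh_two_mul, tanh_eq_sinh_div_cosh]
  field_simp

theorem nc_mono {x y t : ℝ} (hx : 0 ≤ x) (hxy : x ≤ y) : nc x t ≤ nc y t := by
  unfold nc
  have h1 := sinh_le_sinh.2 hxy
  have h2 := sinh_nonneg_iff.2 hx
  nlinarith

theorem sin_two_nonneg {t : ℝ} (h0 : 0 ≤ t) (h1 : t < π / 2) : 0 ≤ sin (2 * t) :=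
  sin_nonneg_of_nonneg_of_le_pi (by linarith) (by linarith)

/-- `aa` is concave in `x` on `x ≥ 0`. -/
theorem aa_concave {t : ℝ} (h0 : 0 ≤ t) (h1 : t < π / 2) :
    ConcaveOn ℝ (Set.Ici 0) (fun x => aa x t) := by
  have ht : |t| < π / 2 := by rwa [abs_of_nonneg h0]
  apply AntitoneOn.concaveOn_of_deriv (convex_Ici 0)
  · intro x _
    exact (hasDerivAt_aa_left ht).continuousAt.continuousWithinAt
  · intro x _
    exact (hasDerivAt_aa_left ht).differentiableAt.differentiableWithinAt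
  · intro x hx y hy hxy
    rw [interior_Ici] at hx hy
    rw [(hasDerivAt_aa_left ht).deriv, (hasDerivAt_aa_left ht).deriv]
    apply div_le_div_of_nonneg_left (sin_two_nonneg h0 h1)
    · have := nc_pos (x := x) ht; linarith
    · have := nc_mono (t := t) (le_of_lt hx) hxy; linarith

/-- subadditivity. -/
theorem aa_add_le {x y t : ℝ} (hx : 0 ≤ x) (hy : 0 ≤ y) (h0 : 0 ≤ t) (h1 : t < π / 2) :
    aa (x + y) t ≤ aa x t + aa y t := by
  rcases eq_or_lt_of_le hx with rfl | hx'
  · simp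
  rcases eq_or_lt_of_le hy with rfl | hy'
  · simp
  have hc := aa_concave h0 h1
  have hs : 0 < x + y := by linarith
  have e1 : aa x t ≥ x / (x + y) * aa (x + y) t := by
    have := hc.2 (show (0 : ℝ) ∈ Set.Ici 0 from Set.mem_Ici.2 le_rfl)
      (show x + y ∈ Set.Ici (0 : ℝ) from Set.mem_Ici.2 hs.le)
      (show 0 ≤ y / (x + y) by positivity) (show 0 ≤ x / (x + y) by positivity)
      (by field_simp; ring)
    simp only [smul_eq_mul, mul_zero, zero_add, aa_zero_left] at this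
    have e : x / (x + y) * (x + y) = x := by field_simp
    rw [e] at this
    exact this
  have e2 : aa y t ≥ y / (x + y) * aa (x + y) t := by
    have := hc.2 (show (0 : ℝ) ∈ Set.Ici 0 from Set.mem_Ici.2 le_rfl)
      (show x + y ∈ Set.Ici (0 : ℝ) from Set.mem_Ici.2 hs.le)
      (show 0 ≤ x / (x + y) by positivity) (show 0 ≤ y / (x + y) by positivity)
      (by field_simp)
    simp only [smul_eq_mul, mul_zero, zero_add, aa_zero_left] at this
    have e : y / (x + y) * (x + y) = y := by field_simp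
    rw [e] at this
    exact this
  have e3 : x / (x + y) * aa (x + y) t + y / (x + y) * aa (x + y) t = aa (x + y) t := by
    field_simp
  linarith

/-! ### polar form of `cosh (x + i t)` -/

theorem cosh_re (x t : ℝ) : (Complex.cosh (x + t * Complex.I)).re = cosh x * cos t := by
  rw [Complex.cosh_add, Complex.cosh_mul_I, Complex.sinh_mul_I]
  simp [← Complex.ofReal_cosh, ← Complex.ofReal_cos, ← Complex.ofReal_sinh, ← Complex.ofReal_sin]

theorem cosh_im (x t : ℝ) : (Complex.cosh (x + t * Complex.I)).im = sinh x * sin t := by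
  rw [Complex.cosh_add, Complex.cosh_mul_I, Complex.sinh_mul_I]
  simp [← Complex.ofReal_cosh, ← Complex.ofReal_cos, ← Complex.ofReal_sinh, ← Complex.ofReal_sin]

theorem normSq_cosh (x t : ℝ) : Complex.normSq (Complex.cosh (x + t * Complex.I)) = nc x t := by
  rw [Complex.normSq_apply, cosh_re, cosh_im, nc_eq]; ring

theorem norm_cosh (x t : ℝ) : ‖Complex.cosh (x + t * Complex.I)‖ = √(nc x t) := by
  rw [← normSq_cosh, Complex.normSq_eq_norm_sq, Real.sqrt_sq (norm_nonneg _)]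

/-- argument of a number with positive real part. -/
theorem arg_eq_arctan {z : ℂ} (h : 0 < z.re) : z.arg = arctan (z.im / z.re) := by
  have h1 : z.arg ∈ Set.Ioo (-(π / 2)) (π / 2) := by
    have := Complex.abs_arg_lt_pi_div_two_iff.2 (Or.inl h)
    exact ⟨(abs_lt.1 this).1, (abs_lt.1 this).2⟩
  rw [← Complex.tan_arg, arctan_tan h1.1 h1.2]

theorem arg_cosh {x t : ℝ} (h : |t| < π / 2) :
    (Complex.cosh (x + t * Complex.I)).arg = aa x t := by
  have hre : 0 < (Complex.cosh (x + t * Complex.I)).re := by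
    rw [cosh_re]; exact mul_pos (cosh_pos x) (cos_pos' h)
  rw [arg_eq_arctan hre, cosh_re, cosh_im, aa, tanh_eq_sinh_div_cosh, tan_eq_sin_div_cos]
  congr 1
  have hc := (cos_pos' h).ne'
  have hch := (cosh_pos x).ne'
  field_simp

theorem cosh_ne_zero {x t : ℝ} (h : |t| < π / 2) : Complex.cosh (x + t * Complex.I) ≠ 0 := by
  intro h0
  have := nc_pos (x := x) h
  rw [← normSq_cosh, h0] at this
  simp at this

theorem log_cosh {x t : ℝ} (h : |t| < π / 2) :
    Complex.log (Complex.cosh (x + t * Complex.I))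
      = ((log (nc x t) / 2 : ℝ) : ℂ) + (aa x t : ℝ) * Complex.I := by
  rw [Complex.log, norm_cosh, arg_cosh h, Real.log_sqrt (nc_pos h).le]

/-! ### the sign lemma and `(B*)` -/

theorem sin_aa_sub {x s t : ℝ} (hs : |s| < π / 2) (ht : |t| < π / 2) :
    sin (aa x s - aa x t) * (√(nc x s) * √(nc x t)) = sinh x * cosh x * sin (s - t) := by
  have h1 := arg_cosh (x := x) hs
  have h2 := arg_cosh (x := x) ht
  have a1 : √(nc x s) * cos (aa x s) = cosh x * cos s := by
    rw [← norm_cosh, ← h1, Complex.norm_mul_cos_arg, cosh_re]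
  have a2 : √(nc x s) * sin (aa x s) = sinh x * sin s := by
    rw [← norm_cosh, ← h1, Complex.norm_mul_sin_arg, cosh_im]
  have b1 : √(nc x t) * cos (aa x t) = cosh x * cos t := by
    rw [← norm_cosh, ← h2, Complex.norm_mul_cos_arg, cosh_re]
  have b2 : √(nc x t) * sin (aa x t) = sinh x * sin t := by
    rw [← norm_cosh, ← h2, Complex.norm_mul_sin_arg, cosh_im]
  rw [sin_sub, sin_sub]
  calc (sin (aa x s) * cos (aa x t) - cos (aa x s) * sin (aa x t)) * (√(nc x s) * √(nc x t))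
      = (√(nc x s) * sin (aa x s)) * (√(nc x t) * cos (aa x t))
        - (√(nc x s) * cos (aa x s)) * (√(nc x t) * sin (aa x t)) := by ring
    _ = _ := by rw [a1, a2, b1, b2]; ring

theorem cos_aa_sub {x s t : ℝ} (hs : |s| < π / 2) (ht : |t| < π / 2) :
    cos (aa x s - aa x t) * (√(nc x s) * √(nc x t))
      = cosh x ^ 2 * (cos s * cos t) + sinh x ^ 2 * (sin s * sin t) := by
  have h1 := arg_cosh (x := x) hs
  have h2 := arg_cosh (x := x) ht
  have a1 : √(nc x s) * cos (aa x s) = cosh x * cos s := by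
    rw [← norm_cosh, ← h1, Complex.norm_mul_cos_arg, cosh_re]
  have a2 : √(nc x s) * sin (aa x s) = sinh x * sin s := by
    rw [← norm_cosh, ← h1, Complex.norm_mul_sin_arg, cosh_im]
  have b1 : √(nc x t) * cos (aa x t) = cosh x * cos t := by
    rw [← norm_cosh, ← h2, Complex.norm_mul_cos_arg, cosh_re]
  have b2 : √(nc x t) * sin (aa x t) = sinh x * sin t := by
    rw [← norm_cosh, ← h2, Complex.norm_mul_sin_arg, cosh_im]
  rw [cos_sub]
  calc (cos (aa x s) * cos (aa x t) + sin (aa x s) * sin (aa x t)) * (√(nc x s) * √(nc x t))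
      = (√(nc x s) * cos (aa x s)) * (√(nc x t) * cos (aa x t))
        + (√(nc x s) * sin (aa x s)) * (√(nc x t) * sin (aa x t)) := by ring
    _ = _ := by rw [a1, a2, b1, b2]; ring

theorem cos_mul_cos' (t s : ℝ) : cos (t + s) * cos (t - s) = (cos (2 * t) + cos (2 * s)) / 2 := by
  rw [cos_add, cos_sub, cos_two_mul, cos_two_mul]
  have h1 := sin_sq_add_cos_sq t
  have h2 := sin_sq_add_cos_sq s
  have e : (cos t * cos s - sin t * sin s) * (cos t * cos s + sin t * sin s)
      = cos t ^ 2 * cos s ^ 2 - sin t ^ 2 * sin s ^ 2 := by ring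
  rw [e]
  have h3 : sin t ^ 2 = 1 - cos t ^ 2 := by linarith
  have h4 : sin s ^ 2 = 1 - cos s ^ 2 := by linarith
  rw [h3, h4]; ring

theorem sin_mul_sin' (t s : ℝ) : sin (t + s) * sin (t - s) = (cos (2 * s) - cos (2 * t)) / 2 := by
  rw [sin_add, sin_sub, cos_two_mul, cos_two_mul]
  have h1 := sin_sq_add_cos_sq t
  have h2 := sin_sq_add_cos_sq s
  have e : (sin t * cos s + cos t * sin s) * (sin t * cos s - cos t * sin s)
      = sin t ^ 2 * cos s ^ 2 - cos t ^ 2 * sin s ^ 2 := by ring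
  rw [e]
  have h3 : sin t ^ 2 = 1 - cos t ^ 2 := by linarith
  have h4 : sin s ^ 2 = 1 - cos s ^ 2 := by linarith
  rw [h3, h4]; ring

/-- first part of `(B*)`. -/
theorem aa_sub_le_two {y t s : ℝ} (hy : 0 ≤ y) (h0 : 0 ≤ s) (ht : 0 ≤ cos (2 * t))
    (h1 : 0 ≤ t) (h2 : t + s < π / 2) : aa y (t + s) - aa y (t - s) ≤ 2 * s := by
  have hp : |t + s| < π / 2 := by rw [abs_of_nonneg (by linarith)]; exact h2
  have hm : |t - s| < π / 2 := by rw [abs_lt]; constructor <;> linarith
  have hN : 0 < √(nc y (t + s)) * √(nc y (t - s)) :=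
    mul_pos (Real.sqrt_pos.2 (nc_pos hp)) (Real.sqrt_pos.2 (nc_pos hm))
  have e1 := sin_aa_sub (x := y) hp hm
  have e2 := cos_aa_sub (x := y) hp hm
  have e3 : t + s - (t - s) = 2 * s := by ring
  rw [e3] at e1
  rw [cos_mul_cos', sin_mul_sin'] at e2
  set D := aa y (t + s) - aa y (t - s) with hD
  have hs2 : 0 ≤ sin (2 * s) := sin_nonneg_of_nonneg_of_le_pi (by linarith) (by linarith)
  have key : sin (2 * s - D) * (√(nc y (t + s)) * √(nc y (t - s)))
      = sin (2 * s) * ((cos (2 * s) * (cosh y - sinh y) ^ 2 + cos (2 * t)) / 2) := by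
    rw [sin_sub]
    have h := cosh_sq y
    calc (sin (2 * s) * cos D - cos (2 * s) * sin D) * (√(nc y (t + s)) * √(nc y (t - s)))
        = sin (2 * s) * (cos D * (√(nc y (t + s)) * √(nc y (t - s))))
          - cos (2 * s) * (sin D * (√(nc y (t + s)) * √(nc y (t - s)))) := by ring
      _ = _ := by
        rw [e1, e2]
        have h' : cosh y ^ 2 = sinh y ^ 2 + 1 := h
        have e : (cosh y - sinh y) ^ 2 = cosh y ^ 2 + sinh y ^ 2 - 2 * (sinh y * cosh y) := by ring
        rw [e, h']; ring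
  have hpos : 0 ≤ (cos (2 * s) * (cosh y - sinh y) ^ 2 + cos (2 * t)) / 2 := by
    have e : cosh y - sinh y = Real.exp (-y) := cosh_sub_sinh y
    rw [e]
    have hE0 : 0 < Real.exp (-y) ^ 2 := by positivity
    have hE1 : Real.exp (-y) ^ 2 ≤ 1 := by
      have : Real.exp (-y) ≤ 1 := Real.exp_le_one_iff.2 (by linarith)
      have := Real.exp_pos (-y)
      nlinarith
    rcases le_total 0 (cos (2 * s)) with hc | hc
    · positivity
    · have h3 : 0 ≤ cos (2 * t) + cos (2 * s) := by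
        have := cos_mul_cos' t s
        have h4 : 0 < cos (t + s) := cos_pos' hp
        have h5 : 0 < cos (t - s) := cos_pos' hm
        nlinarith [mul_pos h4 h5]
      nlinarith
  have hsin : 0 ≤ sin (2 * s - D) := by
    have : 0 ≤ sin (2 * s - D) * (√(nc y (t + s)) * √(nc y (t - s))) := by
      rw [key]; exact mul_nonneg hs2 hpos
    exact nonneg_of_mul_nonneg_left this hN
  by_contra hlt
  push Not at hlt
  have hD1 : D < π := by
    have := aa_lt_pi_div_two y (t + s)
    have := neg_pi_div_two_lt_aa y (t - s)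
    rw [hD]; linarith
  have : sin (2 * s - D) < 0 := sin_neg_of_neg_of_neg_pi_lt (by linarith) (by linarith)
  linarith

/-- second part of `(B*)`. -/
theorem aa_sub_le_pi_sub {y t s : ℝ} (hy : 0 ≤ y) (h0 : 0 ≤ s) (ht : cos (2 * t) ≤ 0)
    (h1 : 0 < t) (h2 : t + s < π / 2) (hss : sin (2 * s) ≤ sin (2 * t) ^ 2) :
    aa y (t + s) - aa y (t - s) ≤ π - 2 * t := by
  have hp : |t + s| < π / 2 := by rw [abs_of_nonneg (by linarith)]; exact h2
  have hm : |t - s| < π / 2 := by rw [abs_lt]; constructor <;> linarith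
  have hN : 0 < √(nc y (t + s)) * √(nc y (t - s)) :=
    mul_pos (Real.sqrt_pos.2 (nc_pos hp)) (Real.sqrt_pos.2 (nc_pos hm))
  have e1 := sin_aa_sub (x := y) hp hm
  have e2 := cos_aa_sub (x := y) hp hm
  have e3 : t + s - (t - s) = 2 * s := by ring
  rw [e3] at e1
  rw [cos_mul_cos', sin_mul_sin'] at e2
  set D := aa y (t + s) - aa y (t - s) with hD
  have hs2 : 0 ≤ sin (2 * s) := sin_nonneg_of_nonneg_of_le_pi (by linarith) (by linarith)
  have ht2 : 0 < sin (2 * t) := sin_pos_of_pos_of_lt_pi (by linarith) (by linarith)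
  have hch := cosh_two_mul y
  have hsh := sinh_two_mul y
  have key : sin (2 * t + D) * (√(nc y (t + s)) * √(nc y (t - s)))
      = ((sin (2 * t) * cos (2 * s)) * cosh (2 * y) - ((-cos (2 * t)) * sin (2 * s)) * sinh (2 * y)
        - (-cos (2 * t)) * sin (2 * t)) / 2 := by
    rw [sin_add]
    have h := cosh_sq y
    calc (sin (2 * t) * cos D + cos (2 * t) * sin D) * (√(nc y (t + s)) * √(nc y (t - s)))
        = sin (2 * t) * (cos D * (√(nc y (t + s)) * √(nc y (t - s))))
          + cos (2 * t) * (sin D * (√(nc y (t + s)) * √(nc y (t - s)))) := by ring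
      _ = _ := by
        rw [e1, e2, hch, hsh]
        have h' : cosh y ^ 2 = sinh y ^ 2 + 1 := h
        rw [h']; ring
  have hcs : 0 < cos (2 * s) := by
    apply cos_pos_of_mem_Ioo
    constructor
    · linarith [pi_pos]
    · -- 2 s < π - 2 t ≤ π / 2
      have h4 : π / 4 ≤ t := by
        by_contra hlt
        push Not at hlt
        have : 0 < cos (2 * t) := cos_pos_of_mem_Ioo ⟨by linarith [pi_pos], by linarith⟩
        linarith
      linarith
  set α := sin (2 * t) * cos (2 * s) with hα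
  set β := (-cos (2 * t)) * sin (2 * s) with hβ
  have hα0 : 0 < α := mul_pos ht2 hcs
  have hβ0 : 0 ≤ β := mul_nonneg (by linarith) hs2
  have hab : ((-cos (2 * t)) * sin (2 * t)) ^ 2 ≤ α ^ 2 - β ^ 2 := by
    have q1 := sin_sq_add_cos_sq (2 * t)
    have q2 := sin_sq_add_cos_sq (2 * s)
    have q3 : sin (2 * s) ^ 2 ≤ (sin (2 * t) ^ 2) ^ 2 := by
      apply pow_le_pow_left₀ hs2 hss
    have c1 : cos (2 * t) ^ 2 = 1 - sin (2 * t) ^ 2 := by linarith
    have c2 : cos (2 * s) ^ 2 = 1 - sin (2 * s) ^ 2 := by linarith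
    have e : ((-cos (2 * t)) * sin (2 * t)) ^ 2 = cos (2 * t) ^ 2 * sin (2 * t) ^ 2 := by ring
    have e' : α ^ 2 - β ^ 2
        = sin (2 * t) ^ 2 * cos (2 * s) ^ 2 - cos (2 * t) ^ 2 * sin (2 * s) ^ 2 := by
      rw [hα, hβ]; ring
    rw [e, e', c1, c2]
    nlinarith
  have hαβ : β ≤ α := by
    apply abs_le_of_sq_le_sq' _ hα0.le |>.2
    have := sq_nonneg ((-cos (2 * t)) * sin (2 * t))
    linarith
  have hc1 : sinh (2 * y) ≤ cosh (2 * y) := (sinh_lt_cosh _).le
  have hsh0 : 0 ≤ sinh (2 * y) := sinh_nonneg_iff.2 (by linarith)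
  have hpos : 0 ≤ α * cosh (2 * y) - β * sinh (2 * y) := by
    have : β * sinh (2 * y) ≤ α * cosh (2 * y) :=
      mul_le_mul hαβ hc1 hsh0 hα0.le
    linarith
  have hle : (-cos (2 * t)) * sin (2 * t) ≤ α * cosh (2 * y) - β * sinh (2 * y) := by
    apply (abs_le_of_sq_le_sq' _ hpos).2
    have h := cosh_sq (2 * y)
    have e : (α * cosh (2 * y) - β * sinh (2 * y)) ^ 2
        = (α ^ 2 - β ^ 2) + (α * sinh (2 * y) - β * cosh (2 * y)) ^ 2 := by
      have h' : cosh (2 * y) ^ 2 = sinh (2 * y) ^ 2 + 1 := h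
      have : (α * cosh (2 * y) - β * sinh (2 * y)) ^ 2
        - (α * sinh (2 * y) - β * cosh (2 * y)) ^ 2
        = (α ^ 2 - β ^ 2) * (cosh (2 * y) ^ 2 - sinh (2 * y) ^ 2) := by ring
      rw [h'] at this
      linarith
    rw [e]
    have := sq_nonneg (α * sinh (2 * y) - β * cosh (2 * y))
    linarith
  have hsin : 0 ≤ sin (2 * t + D) := by
    have : 0 ≤ sin (2 * t + D) * (√(nc y (t + s)) * √(nc y (t - s))) := by
      rw [key]; linarith
    exact nonneg_of_mul_nonneg_left this hN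
  by_contra hlt
  push Not at hlt
  have hD1 : D < π := by
    have := aa_lt_pi_div_two y (t + s)
    have := neg_pi_div_two_lt_aa y (t - s)
    rw [hD]; linarith
  have : sin (2 * t + D) < 0 := by
    have h3 : sin (2 * t + D) = -sin (2 * t + D - π) := by
      rw [sin_sub_pi]; ring
    rw [h3]
    have : 0 < sin (2 * t + D - π) := sin_pos_of_pos_of_lt_pi (by linarith) (by linarith)
    linarith
  linarith

/-! ### polar form of `sinh (x + i t)` -/

theorem sinh_re (x t : ℝ) : (Complex.sinh (x + t * Complex.I)).re = sinh x * cos t := by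
  rw [Complex.sinh_add, Complex.cosh_mul_I, Complex.sinh_mul_I]
  simp [← Complex.ofReal_cosh, ← Complex.ofReal_cos, ← Complex.ofReal_sinh, ← Complex.ofReal_sin]

theorem sinh_im (x t : ℝ) : (Complex.sinh (x + t * Complex.I)).im = cosh x * sin t := by
  rw [Complex.sinh_add, Complex.cosh_mul_I, Complex.sinh_mul_I]
  simp [← Complex.ofReal_cosh, ← Complex.ofReal_cos, ← Complex.ofReal_sinh, ← Complex.ofReal_sin]

theorem arg_sinh {x t : ℝ} (hx : 0 < x) (h : |t| < π / 2) :
    (Complex.sinh (x + t * Complex.I)).arg = arctan (tan t / tanh x) := by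
  have hre : 0 < (Complex.sinh (x + t * Complex.I)).re := by
    rw [sinh_re]; exact mul_pos (sinh_pos_iff.2 hx) (cos_pos' h)
  rw [arg_eq_arctan hre, sinh_re, sinh_im, tanh_eq_sinh_div_cosh, tan_eq_sin_div_cos]
  congr 1
  have hc := (cos_pos' h).ne'
  have hch := (cosh_pos x).ne'
  have hsh := (sinh_pos_iff.2 hx).ne'
  field_simp

end Pool.Agent.S3
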