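import Pool.Agent.S3.Phase

/-!
# Stage 3: further lemmas on the phase function
-/

namespace Pool.Agent.S3

open Real

/-- `(1.2')` -/
theorem aa_add_sub_le {x y t : ℝ} (hx : 0 ≤ x) (hy : 0 ≤ y) (h0 : 0 ≤ t) (h1 : t < π / 2) :
    aa (x - y) t + aa (x + y) t ≤ 2 * aa x t := by
  rcases le_total y x with h | h
  · have hc := (aa_concave h0 h1).2
      (show x - y ∈ Set.Ici (0 : ℝ) from Set.mem_Ici.2 (by linarith only [h]))
      (show x + y ∈ Set.Ici (0 : ℝ) from Set.mem_Ici.2 (by linarith only [hy, hx]))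
      (show (0 : ℝ) ≤ 1 / 2 by norm_num) (show (0 : ℝ) ≤ 1 / 2 by norm_num) (by norm_num)
    simp only [smul_eq_mul] at hc
    have e : 1 / 2 * (x - y) + 1 / 2 * (x + y) = x := by ring
    rw [e] at hc
    linarith only [hc]
  · have h2 := aa_add_le (x := y - x) (y := x + x) (by linarith only [h]) (by linarith only [hx]) h0 h1
    have h3 := aa_add_le hx hx h0 h1
    have e : y - x + (x + x) = x + y := by ring
    rw [e] at h2
    have e2 : aa (x - y) t = -aa (y - x) t := by
      rw [← aa_neg_left]; congr 1; ring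
    rw [e2]; linarith only [h3, h2]

/-- `(B)`: `1.3`. -/
theorem aa_sub_le {y T D : ℝ} (hy : 0 ≤ y) (hD : 0 ≤ D) (hDT : D ≤ T) (hT : T < π / 2)
    (hs : T + D ≤ π / 2) : aa y T - aa y D ≤ T - D := by
  have := aa_sub_le_two (y := y) (t := (T + D) / 2) (s := (T - D) / 2) hy (by linarith only [hDT])
    (cos_nonneg_of_neg_pi_div_two_le_of_le (by linarith only [hT, hDT, hD]) (by linarith only [hs])) (by linarith only [hDT,
                                                                                                           hD])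
    (by linarith only [hT])
  have e1 : (T + D) / 2 + (T - D) / 2 = T := by ring
  have e2 : (T + D) / 2 - (T - D) / 2 = D := by ring
  rw [e1, e2] at this
  linarith only [this]

/-- monotonicity in both variables. -/
theorem aa_mono {x y s t : ℝ} (hx : 0 ≤ x) (hxy : x ≤ y) (hs : 0 ≤ s) (hst : s ≤ t)
    (ht : t < π / 2) : aa x s ≤ aa y t :=
  (aa_mono_right hx (by linarith only [ht, hst, hs]) hst ht).trans
    (aa_mono_left (hs.trans hst) ht hxy)

/-- a Taylor bound. -/
theorem cos_le_poly {x : ℝ} (hx : |x| ≤ 1) : cos x ≤ 1 - x ^ 2 / 2 + x ^ 4 * (5 / 96) := by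
  have h := (abs_le.1 (cos_bound hx)).2
  have e : |x| ^ 4 = x ^ 4 := by rw [show (4 : ℕ) = 2 * 2 by norm_num, pow_mul, sq_abs, ← pow_mul]
  rw [e] at h
  linarith only [h]

/-- `S = θ + h ≤ 3/2`, `π/4 ≤ θ ≤ .905` imply `sin 2h ≤ sin² 2θ`. -/
theorem sin_le_sin_sq {θ h : ℝ} (h1 : π / 4 ≤ θ) (h2 : θ ≤ 905 / 1000) (h3 : θ + h ≤ 3 / 2)
    (h0 : 0 ≤ h) : sin (2 * h) ≤ sin (2 * θ) ^ 2 := by
  have hp1 := pi_gt_d4
  have hp2 := pi_lt_d4
  -- φ = 2θ - π/2, c = π - 3
  have e1 : sin (2 * θ) = cos (2 * θ - π / 2) := by rw [cos_sub_pi_div_two]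
  have e2 : sin (2 * h) ≤ sin (3 - 2 * θ) := by
    apply sin_le_sin_of_le_of_le_pi_div_two <;> linarith
  have e3 : sin (3 - 2 * θ) = cos ((2 * θ - π / 2) + (π - 3)) := by
    rw [← cos_pi_div_two_sub]
    congr 1; ring
  set φ := 2 * θ - π / 2 with hφ
  have hφ0 : 0 ≤ φ := by linarith only [hφ, h1]
  have hφ1 : φ ≤ 24 / 100 := by linarith only [hφ, hp2, hp1, h2]
  have hc0 : 141 / 1000 ≤ π - 3 := by linarith only [hp1]
  have hc1 : π - 3 ≤ 142 / 1000 := by linarith only [hp2]
  set t := φ + (π - 3) with ht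
  have ht0 : 0 ≤ t := by linarith only [hφ, hp2, hp1, h1]
  have ht1 : t ≤ 4 / 10 := by linarith only [hφ, hp2, hp1, h2]
  have hcos := cos_le_poly (x := t) (by rw [abs_of_nonneg ht0]; linarith only [hφ, hp2, hp1, h2])
  have hs : sin φ ≤ φ := sin_le hφ0
  have hs0 : 0 ≤ sin φ := sin_nonneg_of_nonneg_of_le_pi hφ0 (by linarith only [hφ, hp2, hp1, h2])
  have hsq : sin φ ^ 2 ≤ φ ^ 2 := pow_le_pow_left₀ hs0 hs 2
  have hcs : cos φ ^ 2 = 1 - sin φ ^ 2 := by linarith only [sin_sq_add_cos_sq φ]
  rw [e1, hcs]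
  have h5 : t ^ 4 ≤ (16 / 100) * t ^ 2 := by
    have : t ^ 2 ≤ 16 / 100 := by (refine le_of_not_gt fun hng => ?_; linarith only [hφ, h2,
                                    mul_nonneg (sub_nonneg.2 hφ.le) (sub_nonneg.2 hφ.le),
                                    mul_nonneg (sub_nonneg.2 hφ.ge) (sub_nonneg.2 hφ.le),
                                    mul_pos (sub_pos.2 hp2) (sub_pos.2 hp2),
                                    mul_pos (sub_pos.2 hp1) (sub_pos.2 hp2),
                                    mul_pos (sub_pos.2 hp1) (sub_pos.2 hp1),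
                                    mul_nonneg (sub_nonneg.2 h2) (sub_nonneg.2 hφ.le),
                                    mul_nonneg (sub_nonneg.2 h2) (sub_nonneg.2 hφ.ge),
                                    mul_nonneg (sub_nonneg.2 h1) (sub_nonneg.2 hφ.le),
                                    mul_nonneg (sub_nonneg.2 h1) (sub_nonneg.2 hφ.ge),
                                    mul_nonneg (sub_nonneg.2 h1) (sub_nonneg.2 hp2.le),
                                    mul_nonneg (sub_nonneg.2 h1) (sub_nonneg.2 h2),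
                                    mul_pos (sub_pos.2 hng) (sub_pos.2 hp2),
                                    mul_pos (sub_pos.2 hng) (sub_pos.2 hp1)])
    linarith only [mul_nonneg (sq_nonneg (t)) (sub_nonneg.2 this)]
  have h6 : φ ^ 2 ≤ t ^ 2 * (49 / 100) := by
    -- φ ≤ 0.7 t
    have : φ ≤ 7 / 10 * t := by linarith only [hφ, hp2, hp1, h2]
    (refine le_of_not_gt fun hng => ?_; linarith only [hφ, sq_nonneg (1 * φ + 1 * (π - 3)),
      mul_nonneg (sub_nonneg.2 hφ.le) (sub_nonneg.2 hφ.le),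
      mul_nonneg (sub_nonneg.2 hφ.ge) (sub_nonneg.2 hφ.le), mul_pos (sub_pos.2 hp2) (sub_pos.2 hp2),
      mul_pos (sub_pos.2 hp1) (sub_pos.2 hp2), mul_pos (sub_pos.2 hp1) (sub_pos.2 hp1),
      mul_nonneg (sub_nonneg.2 h2) (sub_nonneg.2 hφ.le),
      mul_nonneg (sub_nonneg.2 h2) (sub_nonneg.2 hφ.ge),
      mul_nonneg (sub_nonneg.2 h2) (sub_nonneg.2 hp2.le),
      mul_nonneg (sub_nonneg.2 h1) (sub_nonneg.2 hφ.le),
      mul_nonneg (sub_nonneg.2 h1) (sub_nonneg.2 hφ.ge),
      mul_nonneg (sub_nonneg.2 h1) (sub_nonneg.2 h2), mul_pos (sub_pos.2 hng) (sub_pos.2 hp2),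
      mul_pos (sub_pos.2 hng) (sub_pos.2 hp1)])
  have h7 := sq_nonneg t
  linarith only [h7, h6, h5, hsq, hcos, e3, e2]

/-- The bound `G(θ,h)` of section 3 for `θ > π/4`. -/
theorem aa_G_big {y θ h : ℝ} (hy : 0 ≤ y) (h1 : π / 4 ≤ θ) (h2 : θ ≤ 905 / 1000)
    (h3 : θ + h ≤ 3 / 2) (h0 : 0 ≤ h) : aa y (θ + h) - aa y (θ - h) ≤ π - 2 * θ := by
  have hp1 := pi_gt_d4
  apply aa_sub_le_pi_sub hy h0 _ (by linarith only [hp1, h1]) (by linarith only [hp1, h3]) (sin_le_sin_sq h1 h2 h3 h0)
  apply cos_nonpos_of_pi_div_two_le_of_le <;> linarith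

/-- The bound `G(θ,h)` of section 3 for `θ ≤ π/4`. -/
theorem aa_G_small {y θ h : ℝ} (hy : 0 ≤ y) (hθ : 0 ≤ θ) (h1 : θ ≤ π / 4)
    (h3 : θ + h < π / 2) (h0 : 0 ≤ h) : aa y (θ + h) - aa y (θ - h) ≤ 2 * h := by
  apply aa_sub_le_two hy h0 _ hθ h3
  apply cos_nonneg_of_neg_pi_div_two_le_of_le <;> linarith [pi_pos]

/-! ### bounds for `arctan` -/

theorem arctan_le_self' {w : ℝ} (hw : 0 ≤ w) : arctan w ≤ w := by
  have h : MonotoneOn (fun w : ℝ => w - arctan w) (Set.Ici 0) := by
    apply monotoneOn_of_deriv_nonneg (convex_Ici 0)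
    · exact (continuous_id.sub continuous_arctan).continuousOn
    · exact (differentiable_id.sub differentiable_arctan).differentiableOn
    · intro x _
      have : HasDerivAt (fun w : ℝ => w - arctan w) (1 - 1 / (1 + x ^ 2)) x :=
        (hasDerivAt_id x).sub (hasDerivAt_arctan x)
      rw [this.deriv, sub_nonneg, div_le_one (by positivity)]
      linarith only [sq_nonneg x]
  have := h (Set.mem_Ici.2 le_rfl) (Set.mem_Ici.2 hw) hw
  simp at this
  linarith only [this]

theorem le_arctan {w : ℝ} (hw : 0 ≤ w) : w - w ^ 3 / 3 ≤ arctan w := by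
  have h : MonotoneOn (fun w : ℝ => arctan w - (w - w ^ 3 / 3)) (Set.Ici 0) := by
    apply monotoneOn_of_deriv_nonneg (convex_Ici 0)
    · exact (continuous_arctan.sub (by fun_prop)).continuousOn
    · exact (differentiable_arctan.sub (by fun_prop)).differentiableOn
    · intro x _
      have : HasDerivAt (fun w : ℝ => arctan w - (w - w ^ 3 / 3))
          (1 / (1 + x ^ 2) - (1 - (3 * x ^ 2) / 3)) x := by
        refine (hasDerivAt_arctan x).sub ((hasDerivAt_id x).sub ?_)
        have := (hasDerivAt_pow 3 x).div_const 3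
        simpa using this
      rw [this.deriv, sub_nonneg, le_div_iff₀ (by positivity)]
      linarith only [sq_nonneg (x ^ 2)]
  have := h (Set.mem_Ici.2 le_rfl) (Set.mem_Ici.2 hw) hw
  simp at this
  linarith only [this]

theorem arctan_le_of_pos {z : ℝ} (hz : 0 < z) :
    arctan z ≤ π / 2 - (1 / z - (1 / z) ^ 3 / 3) := by
  have h := arctan_inv_of_pos hz
  have h2 := le_arctan (w := z⁻¹) (by positivity)
  rw [h] at h2
  rw [one_div]
  linarith only [h2]

theorem tan_three_half_le : tan (3 / 2) ≤ 14135 / 1000 := by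
  have hp1 := pi_gt_d4
  have hp2 := pi_lt_d4
  have e : tan (3 / 2) = (tan (π / 2 - 3 / 2))⁻¹ := by
    rw [tan_pi_div_two_sub, inv_inv]
  have h1 : π / 2 - 3 / 2 ≤ tan (π / 2 - 3 / 2) := le_tan (by linarith only [hp1]) (by linarith only [])
  rw [e, inv_le_comm₀ (by linarith only [h1, hp2, hp1]) (by norm_num)]
  refine le_trans ?_ h1
  norm_num
  linarith only [hp1]

/-- `a` is convex in `t`. -/
theorem aa_convex_right {x : ℝ} (hx : 0 ≤ x) :
    ConvexOn ℝ (Set.Ico 0 (π / 2)) (fun t => aa x t) := by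
  have habs : ∀ t ∈ Set.Ico (0 : ℝ) (π / 2), |t| < π / 2 := fun t ht => by
    rw [abs_of_nonneg ht.1]; exact ht.2
  apply MonotoneOn.convexOn_of_deriv (convex_Ico 0 _)
  · intro t ht
    exact (hasDerivAt_aa_right (habs t ht)).continuousAt.continuousWithinAt
  · intro t ht
    exact (hasDerivAt_aa_right (habs t (interior_subset ht))).differentiableAt.differentiableWithinAt
  · intro s hs t ht hst
    have hs' := habs s (interior_subset hs)
    have ht' := habs t (interior_subset ht)
    rw [(hasDerivAt_aa_right hs').deriv, (hasDerivAt_aa_right ht').deriv]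
    have hsi := interior_subset hs
    have hti := interior_subset ht
    apply div_le_div_of_nonneg_left (sinh_nonneg_iff.2 (by linarith only [hx]))
    · have := nc_pos (x := x) ht'; linarith only [this]
    · have h1 : cos t ≤ cos s := cos_le_cos_of_nonneg_of_le_pi hsi.1
        (by linarith only [pi_pos, hti.2]) hst
      have h2 : 0 < cos t := cos_pos' ht'
      unfold nc
      linarith only [mul_nonneg (sub_nonneg.2 h1) (sub_nonneg.2 h2.le),
        mul_nonneg (sub_nonneg.2 h1) (sub_nonneg.2 h1)]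

/-- the last case of section 3. -/
theorem opp_last {x θ S : ℝ} (hx : 0 ≤ x) (h1 : π / 4 ≤ θ) (h2 : θ ≤ 905 / 1000) (h3 : θ ≤ S)
    (h4 : S ≤ 3 / 2) : 2 * θ - S / 2 + aa x S / 2 - aa x θ < π / 2 := by
  have hp1 := pi_gt_d4
  have hp2 := pi_lt_d4
  have hp : (0 : ℝ) < π / 2 := by linarith only [hp1]
  set τ := tanh x with hτ
  have hτ0 : 0 ≤ τ := tanh_nonneg' hx
  have hA : arctan τ ≤ aa x θ := by
    apply arctan_mono
    have : (1 : ℝ) ≤ tan θ := by
      rw [← tan_pi_div_four]
      exact strictMonoOn_tan.monotoneOn ⟨by linarith only [hp1], by linarith only [hp1]⟩ ⟨by linarith only [hp1,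
                                                                                               h1], by linarith only [hp1,
                                                                                                         h2]⟩ h1
    (refine le_of_not_gt fun hng => ?_; linarith only [mul_nonneg (sub_nonneg.2 hτ0) (sub_nonneg.2 this),
      mul_pos (sub_pos.2 hng) (sub_pos.2 hp2), mul_pos (sub_pos.2 hng) (sub_pos.2 hp1)])
  have hq : aa x (π / 4) = arctan τ := by unfold aa; rw [tan_pi_div_four, mul_one]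
  have hat0 : 0 ≤ arctan τ := arctan_nonneg.2 hτ0
  -- it suffices to bound `S - a(x,S)` from below
  suffices hmain : 4 * θ - π < 2 * arctan τ + (S - aa x S) by linarith only [hmain, hA]
  have hS : 0 ≤ S - aa x S := by
    have := aa_le_self (t := S) x (by linarith only [hp1, h3, h1]) (by linarith only [hp1, h4])
    linarith only [this]
  rcases le_total (1 / 4) τ with hc | hc
  · have e1 : arctan (1 / 4) ≤ arctan τ := arctan_mono hc
    have e2 := le_arctan (w := 1 / 4) (by norm_num)
    norm_num at e2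
    linarith only [e2, e1, hS, hp2, hp1, h2]
  -- endpoints
  have g1 : 4 * θ - π < 2 * arctan τ + (π / 4 - aa x (π / 4)) := by
    rw [hq]; linarith only [hat0, hp2, hp1, h2]
  have g2 : 4 * θ - π < 2 * arctan τ + (3 / 2 - aa x (3 / 2)) := by
    have hz : aa x (3 / 2) ≤ arctan (τ * (14135 / 1000)) :=
      arctan_mono (mul_le_mul_of_nonneg_left tan_three_half_le hτ0)
    rcases le_total τ (1 / 10) with hd | hd
    · have e1 : arctan (τ * (14135 / 1000)) ≤ arctan (14135 / 10000) :=
        arctan_mono (by linarith only [hd])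
      have e2 := arctan_le_of_pos (z := 14135 / 10000) (by norm_num)
      norm_num at e2
      linarith only [e2, e1, hz, hat0, hp2, hp1, h2]
    rcases le_total τ (15 / 100) with hd' | hd'
    · have e1 : arctan (τ * (14135 / 1000)) ≤ arctan (212025 / 100000) :=
        arctan_mono (by linarith only [hd'])
      have e2 := arctan_le_of_pos (z := 212025 / 100000) (by norm_num)
      have e3 : arctan (1 / 10) ≤ arctan τ := arctan_mono hd
      have e4 := le_arctan (w := 1 / 10) (by norm_num)
      norm_num at e2 e4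
      linarith only [e4, e2, e3, e1, hz, hp2, hp1, h2]
    · have e1 : arctan (τ * (14135 / 1000)) ≤ arctan (353375 / 100000) :=
        arctan_mono (by linarith only [hc])
      have e2 := arctan_le_of_pos (z := 353375 / 100000) (by norm_num)
      have e3 : arctan (15 / 100) ≤ arctan τ := arctan_mono hd'
      have e4 := le_arctan (w := 15 / 100) (by norm_num)
      norm_num at e2 e4
      linarith only [e4, e2, e3, e1, hz, hp2, hp1, h2]
  -- convexity
  have hden : 0 < 3 / 2 - π / 4 := by linarith only [h2, h1]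
  have hcv := (aa_convex_right hx).2
    (show π / 4 ∈ Set.Ico (0 : ℝ) (π / 2) from ⟨by linarith only [hp1], by linarith only [hp1]⟩)
    (show (3 / 2 : ℝ) ∈ Set.Ico (0 : ℝ) (π / 2) from ⟨by norm_num, by linarith only [hp1]⟩)
    (show 0 ≤ (3 / 2 - S) / (3 / 2 - π / 4) from div_nonneg (by linarith only [h4]) hden.le)
    (show 0 ≤ (S - π / 4) / (3 / 2 - π / 4) from div_nonneg (by linarith only [h3, h1]) hden.le)
    (by rw [← add_div, div_eq_one_iff_eq hden.ne']; ring)
  simp only [smul_eq_mul] at hcv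
  have e : (3 / 2 - S) / (3 / 2 - π / 4) * (π / 4) + (S - π / 4) / (3 / 2 - π / 4) * (3 / 2) = S := by
    rw [div_mul_eq_mul_div, div_mul_eq_mul_div, ← add_div, div_eq_iff hden.ne']; ring
  rw [e] at hcv
  set l1 := (3 / 2 - S) / (3 / 2 - π / 4) with hl1
  set l2 := (S - π / 4) / (3 / 2 - π / 4) with hl2
  have hl1' : 0 ≤ l1 := div_nonneg (by linarith only [h4]) hden.le
  have hl2' : 0 ≤ l2 := div_nonneg (by linarith only [h3, h1]) hden.le
  have hl : l1 + l2 = 1 := by rw [hl1, hl2, ← add_div, div_eq_one_iff_eq hden.ne']; ring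
  have k1 : l1 * (4 * θ - π) ≤ l1 * (2 * arctan τ + (π / 4 - aa x (π / 4))) :=
    mul_le_mul_of_nonneg_left g1.le hl1'
  have k2 : l2 * (4 * θ - π) ≤ l2 * (2 * arctan τ + (3 / 2 - aa x (3 / 2))) :=
    mul_le_mul_of_nonneg_left g2.le hl2'
  have k3 : 4 * θ - π ≤ 2 * arctan τ + (S - aa x S) := by
    have e5 : l1 * (4 * θ - π) + l2 * (4 * θ - π) = 4 * θ - π := by rw [← add_mul, hl, one_mul]
    have e6 : l1 * (2 * arctan τ) + l2 * (2 * arctan τ) = 2 * arctan τ := by
      rw [← add_mul, hl, one_mul]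
    linarith only [e6, e5, k2, k1, e, hcv]
  -- strictness
  rcases eq_or_lt_of_le hl1' with h0 | h0
  · have hl2e : l2 = 1 := by linarith only [h0, hl, hl1']
    have k2' : l2 * (4 * θ - π) < l2 * (2 * arctan τ + (3 / 2 - aa x (3 / 2))) :=
      mul_lt_mul_of_pos_left g2 (by rw [hl2e]; norm_num)
    have e5 : l1 * (4 * θ - π) + l2 * (4 * θ - π) = 4 * θ - π := by rw [← add_mul, hl, one_mul]
    have e6 : l1 * (2 * arctan τ) + l2 * (2 * arctan τ) = 2 * arctan τ := by
      rw [← add_mul, hl, one_mul]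
    linarith only [e6, e5, k2', k1, e, hcv]
  · have k1' : l1 * (4 * θ - π) < l1 * (2 * arctan τ + (π / 4 - aa x (π / 4))) :=
      mul_lt_mul_of_pos_left g1 h0
    have e5 : l1 * (4 * θ - π) + l2 * (4 * θ - π) = 4 * θ - π := by rw [← add_mul, hl, one_mul]
    have e6 : l1 * (2 * arctan τ) + l2 * (2 * arctan τ) = 2 * arctan τ := by
      rw [← add_mul, hl, one_mul]
    linarith only [e6, e5, k1', k2, e, hcv]

end Pool.Agent.S3
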